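import Pool.Agent.Lib.MP_7e122f_anR.Defs

open MeasureTheory Complex
open scoped ComplexInnerProductSpace ENNReal ComplexOrder

namespace MP7e122f.R

/-- vector states are admissible : `abs_st_le` and `transfer_val` -/
theorem adm_st (M : Mat) (hM : 0 < M.det) (f : L2) (hf : ‖f‖ = 1) : Adm M.det (st M f) :=
  ⟨fun k => abs_st_le M f hf k, fun M' _ hM' => transfer_val M M' hM hM' f hf⟩

/-- rotated vector states: `transfer_rot` -/
theorem adm_rot (M : Mat) (hM : 0 < M.det) (R : Matrix (Fin 2) (Fin 2) ℤ) (hR : R.det = 1)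
    (f : L2) (hf : ‖f‖ = 1) : Adm M.det (fun k => st M f (actZ R k)) :=
  ⟨fun k => abs_st_le M f hf (actZ R k), fun M' _ hM' => transfer_rot M M' hM hM' R hR f hf⟩

/-- the average of three admissible functions (all sums converge absolutely: `summable_wt_mul`) -/
theorem adm_avg3 {D : ℝ} {φ₁ φ₂ φ₃ : ℤ × ℤ → ℝ} (h₁ : Adm D φ₁) (h₂ : Adm D φ₂) (h₃ : Adm D φ₃) :
    Adm D (fun k => (φ₁ k + φ₂ k + φ₃ k) / 3) := by
  refine ⟨fun k => ?_, fun M hM hD => ?_⟩
  · have a1 := abs_le.1 (h₁.1 k)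
    have a2 := abs_le.1 (h₂.1 k)
    have a3 := abs_le.1 (h₃.1 k)
    exact abs_le.2 ⟨by linarith [a1.1, a2.1, a3.1], by linarith [a1.2, a2.2, a3.2]⟩
  · have s1 := summable_wt_mul M hM φ₁ h₁.1
    have s2 := summable_wt_mul M hM φ₂ h₂.1
    have s3 := summable_wt_mul M hM φ₃ h₃.1
    have e : ∑' k, wt M k * ((φ₁ k + φ₂ k + φ₃ k) / 3) =
        (∑' k, wt M k * φ₁ k + ∑' k, wt M k * φ₂ k + ∑' k, wt M k * φ₃ k) / 3 := by
      rw [← s1.tsum_add s2, ← (s1.add s2).tsum_add s3, ← tsum_div_const]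
      refine tsum_congr fun k => ?_
      ring
    have b1 := h₁.2 M hM hD
    have b2 := h₂.2 M hM hD
    have b3 := h₃.2 M hM hD
    rw [e]
    constructor
    · linarith [b1.1, b2.1, b3.1]
    · linarith [b1.2, b2.2, b3.2]

end MP7e122f.R
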