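import Pool.Agent.Lib.MP_7e122f_anR.JNumD

namespace MP7e122f.Num

/-- staircase for the monotonicity criterion `PsiJ ≥ 0` -/
def stair : List CP := [⟨1649267441664, 1572631481208, 2473902262007,
    (.r (.p (.r (.p (.r (.p (.r (.p (.r (.p .e .e) .e) (.r (.p .e .e) .e)) (.p .e .e)) 
    (.r (.p (.r (.p .e .e) .e) (.r (.p .e .e) .e)) (.p .e .e))) (.p .e .e)) (.r (.p (.r 
    (.p (.r (.p .e .e) .e) (.r (.p .e .e) .e)) (.p .e .e)) (.r (.p (.r (.p .e .e) .e) 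
    (.r (.p .e .e) .e)) (.p .e .e))) (.p .e (.r .e .e)))) (.p .e (.r .e .e))) (.r (.p 
    (.r (.p (.r (.p (.r (.p .e .e) (.p .e .e)) (.r (.p (.r .e .e) (.r .e .e)) (.p .e 
    .e))) (.p .e .e)) (.r (.p (.r (.p (.r .e .e) (.r .e .e)) (.p .e .e)) (.r (.p (.r 
    .e .e) (.r .e .e)) (.p .e .e))) (.p (.r .e .e) (.r .e .e)))) (.p (.r .e .e) (.r (.p 
    .e .e) .e))) (.r (.p (.r (.p (.r (.p (.r (.p .e .e) .e) (.r (.p .e .e) .e)) (.p .e 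
    .e)) (.r (.p (.r (.p .e .e) .e) (.r (.p .e .e) .e)) (.p .e .e))) (.p (.r .e .e) (.r 
    .e .e))) (.r (.p (.r (.p (.r (.p .e .e) .e) (.r (.p .e (.r .e .e)) (.p .e .e))) (.p 
    (.r .e .e) (.r .e .e))) (.r (.p (.r (.p (.r .e .e) (.r .e .e)) (.p .e .e)) (.r (.p 
    (.r .e .e) (.r .e .e)) (.p .e .e))) (.p (.r .e .e) (.r .e .e)))) (.p (.r (.p .e .e) 
    .e) (.r (.p .e .e) .e)))) (.p (.r (.p .e .e) .e) (.r (.p .e .e) .e)))) (.p (.r (.p 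
    .e .e) .e) (.r (.p .e .e) .e)))) (.p .e (.r (.p .e .e) .e)))⟩,
  ⟨1979120929996, 1726233255608, 2968682494506,
    (.r (.r (.p (.r (.p (.r (.p .e (.r .e .e)) (.p .e .e)) (.r (.p (.r .e .e) (.r (.p 
    .e .e) .e)) (.p .e .e))) (.p (.r .e .e) (.r .e .e))) (.r (.p (.r (.p (.r (.p .e .e) 
    (.p .e .e)) (.r (.p (.r .e .e) (.r .e .e)) (.p .e .e))) (.p (.r .e .e) (.r .e .e))) 
    (.r (.p (.r (.p (.r (.p .e .e) .e) (.r (.p .e (.r .e .e)) (.p .e .e))) (.p (.r .e 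
    .e) (.r .e .e))) (.r (.p (.r (.p (.r .e .e) (.r .e .e)) (.p .e .e)) (.r (.p (.r (.p 
    .e .e) .e) (.r (.p .e (.r .e .e)) (.p .e .e))) (.p (.r .e .e) (.r .e .e)))) (.p (.r 
    (.p .e .e) .e) (.r (.p .e (.r .e .e)) (.p .e .e))))) (.p (.r (.p .e .e) .e) (.r (.p 
    (.r .e .e) (.r .e .e)) (.p .e .e))))) (.p (.r (.p .e .e) .e) (.r (.p (.r .e .e) (.r 
    (.p .e .e) .e)) (.p .e (.r .e .e)))))) (.p (.r (.p .e .e) .e) (.r (.p (.r .e .e) 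
    (.r (.p .e .e) .e)) (.p .e (.r .e .e))))) (.r (.p .e (.r (.p .e .e) .e)) (.p .e .e)))⟩]

theorem stair_chk : stairChk 1099511627776 stair = true := by
  decide +kernel

end MP7e122f.Num
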