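import Pool.Agent.Lib.MP_7e122f_anR.Slab
import Pool.Agent.Lib.MP_7e122f_anR.JStair

namespace MP7e122f.Num

/-- certificate for 1.3200 ≤ δ < 1.3250, lower bound -/
def certA50 : SlabCert where
  dl := 1451355348664
  dh := 1456852906803
  z1 := 609001778857
  z3n := false
  z3 := 284953034346
  n := 32985348833
  eth := 2101236065866
  rm := 2748779069440
  hb := 352775349250
  near := [⟨1451630226570, 1, ⟨6385307071, 5928450912, 0, 0, 0, 0⟩, ⟨1185728276824, 1185728276824, 0, 0, 0, 0⟩⟩, ⟨1451905104477, 1, ⟨6366659046, 5910630781, 0, 0, 0, 0⟩, ⟨1183951658262, 1183951658262, 0, 0, 0, 0⟩⟩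
    , ⟨1452179982384, 1, ⟨6348083186, 5892881315, 0, 0, 0, 0⟩, ⟨1182181083811, 1182181083811, 0, 0, 0, 0⟩⟩, ⟨1452454860291, 1, ⟨6329579123, 5875202149, 0, 0, 0, 0⟩, ⟨1180416524218, 1180416524218, 0, 0, 0, 0⟩⟩
    , ⟨1452729738198, 1, ⟨6311146492, 5857592920, 0, 0, 0, 0⟩, ⟨1178657950416, 1178657950416, 0, 0, 0, 0⟩⟩, ⟨1453004616105, 1, ⟨6292784931, 5840053268, 0, 0, 0, 0⟩, ⟨1176905333529, 1176905333529, 0, 0, 0, 0⟩⟩
    , ⟨1453279494012, 1, ⟨6274494079, 5822582836, 0, 0, 0, 0⟩, ⟨1175158644865, 1175158644865, 0, 0, 0, 0⟩⟩, ⟨1453554371919, 1, ⟨6256273577, 5805181268, 0, 0, 0, 0⟩, ⟨1173417855919, 1173417855919, 0, 0, 0, 0⟩⟩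
    , ⟨1453829249826, 1, ⟨6238123072, 5787848212, 0, 0, 0, 0⟩, ⟨1171682938367, 1171682938367, 0, 0, 0, 0⟩⟩, ⟨1454104127733, 1, ⟨6220042208, 5770583316, 0, 0, 0, 0⟩, ⟨1169953864071, 1169953864071, 0, 0, 0, 0⟩⟩
    , ⟨1454379005640, 1, ⟨6202030635, 5753386232, 0, 0, 0, 0⟩, ⟨1168230605070, 1168230605070, 0, 0, 0, 0⟩⟩, ⟨1454653883547, 1, ⟨6184088004, 5736256615, 0, 0, 0, 0⟩, ⟨1166513133586, 1166513133586, 0, 0, 0, 0⟩⟩
    , ⟨1454928761454, 1, ⟨6166213969, 5719194120, 0, 0, 0, 0⟩, ⟨1164801422014, 1164801422014, 0, 0, 0, 0⟩⟩, ⟨1455203639361, 1, ⟨6148408185, 5702198405, 0, 0, 0, 0⟩, ⟨1163095442931, 1163095442931, 0, 0, 0, 0⟩⟩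
    , ⟨1455478517268, 1, ⟨6130670310, 5685269132, 0, 0, 0, 0⟩, ⟨1161395169084, 1161395169084, 0, 0, 0, 0⟩⟩, ⟨1455753395175, 1, ⟨6113000005, 5668405963, 0, 0, 0, 0⟩, ⟨1159700573397, 1159700573397, 0, 0, 0, 0⟩⟩
    , ⟨1456028273082, 1, ⟨6095396931, 5651608562, 0, 0, 0, 0⟩, ⟨1158011628964, 1158011628964, 0, 0, 0, 0⟩⟩, ⟨1456303150989, 1, ⟨6077860752, 5634876598, 0, 0, 0, 0⟩, ⟨1156328309053, 1156328309053, 0, 0, 0, 0⟩⟩
    , ⟨1456578028896, 1, ⟨6060391137, 5618209738, 0, 0, 0, 0⟩, ⟨1154650587098, 1154650587098, 0, 0, 0, 0⟩⟩, ⟨1456852906803, 1, ⟨6042987753, 5601607655, 0, 0, 0, 0⟩, ⟨1152978436702, 1152978436702, 0, 0, 0, 0⟩⟩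
    ]
  ups := [⟨1451630226570, ⟨86955598346, 62156831586, 0, 24341910600, 0, 0⟩, 644058723010⟩, ⟨1451905104477, ⟨86915762784, 62077679356, 0, 24382055163, 0, 0⟩, 643874836551⟩
    , ⟨1452179982384, ⟨86875939519, 61998542227, 0, 24422195421, 0, 0⟩, 643691274860⟩, ⟨1452454860291, ⟨86836125852, 61919418240, 0, 24462330637, 0, 0⟩, 643508058124⟩
    , ⟨1452729738198, ⟨86796325340, 61840309796, 0, 24502461971, 0, 0⟩, 643325160794⟩, ⟨1453004616105, ⟨86756534906, 61761214674, 0, 24542588568, 0, 0⟩, 643142605834⟩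
    , ⟨1453279494012, ⟨86716758079, 61682135249, 0, 24582711587, 0, 0⟩, 642960367876⟩, ⟨1453554371919, ⟨86676990645, 61603068514, 0, 24622829821, 0, 0⟩, 642778478232⟩
    , ⟨1453829249826, ⟨86637232736, 61524014486, 0, 24662943390, 0, 0⟩, 642596936411⟩, ⟨1454104127733, ⟨86597490667, 61444977463, 0, 24703054312, 0, 0⟩, 642415696604⟩
    , ⟨1454379005640, ⟨86557756645, 61365951966, 0, 24743160276, 0, 0⟩, 642234816382⟩, ⟨1454653883547, ⟨86518037613, 61286942722, 0, 24783263501, 0, 0⟩, 642054245298⟩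
    , ⟨1454928761454, ⟨86478327816, 61207945671, 0, 24823362296, 0, 0⟩, 641874026032⟩, ⟨1455203639361, ⟨86438631930, 61128963964, 0, 24863458186, 0, 0⟩, 641694124730⟩
    , ⟨1455478517268, ⟨86398945095, 61049994166, 0, 24903549750, 0, 0⟩, 641514577551⟩, ⟨1455753395175, ⟨86359270857, 60971038645, 0, 24943638170, 0, 0⟩, 641335358904⟩
    , ⟨1456028273082, ⟨86319609091, 60892097233, 0, 24983723489, 0, 0⟩, 641156470179⟩, ⟨1456303150989, ⟨86279958029, 60813168634, 0, 25023805240, 0, 0⟩, 640977924840⟩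
    , ⟨1456578028896, ⟨86240320742, 60734254878, 0, 25063884465, 0, 0⟩, 640799700759⟩, ⟨1456852906803, ⟨86200694067, 60655353709, 0, 25103960259, 0, 0⟩, 640621821690⟩
    ]
  gcs := [⟨1454104127733, 352775349250, [⟨1451630226570, ⟨86955598346, 62156831586, 0, 24341910600, 0, 0⟩, 644058723010⟩, ⟨1451905104477, ⟨86915762784, 62077679356, 0, 24382055163, 0, 0⟩, 643874836551⟩
    , ⟨1452179982384, ⟨86875939519, 61998542227, 0, 24422195421, 0, 0⟩, 643691274860⟩, ⟨1452454860291, ⟨86836125852, 61919418240, 0, 24462330637, 0, 0⟩, 643508058124⟩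
    , ⟨1452729738198, ⟨86796325340, 61840309796, 0, 24502461971, 0, 0⟩, 643325160794⟩, ⟨1453004616105, ⟨86756534906, 61761214674, 0, 24542588568, 0, 0⟩, 643142605834⟩
    , ⟨1453279494012, ⟨86716758079, 61682135249, 0, 24582711587, 0, 0⟩, 642960367876⟩, ⟨1453554371919, ⟨86676990645, 61603068514, 0, 24622829821, 0, 0⟩, 642778478232⟩
    , ⟨1453829249826, ⟨86637232736, 61524014486, 0, 24662943390, 0, 0⟩, 642596936411⟩, ⟨1454104127733, ⟨86597490667, 61444977463, 0, 24703054312, 0, 0⟩, 642415696604⟩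
    ]⟩,
    ⟨1456852906803, 350143794016, [⟨1454354016739, ⟨86559563571, 61369544483, 0, 24741337695, 0, 0⟩, 642243023005⟩, ⟨1454603905745, ⟨86523454352, 61297716717, 0, 24777795466, 0, 0⟩, 642078840214⟩
    , ⟨1454853794752, ⟨86487352108, 61225898583, 0, 24814249364, 0, 0⟩, 641914952948⟩, ⟨1455103683758, ⟨86451261563, 61154093285, 0, 24850700908, 0, 0⟩, 641751326890⟩
    , ⟨1455353572764, ⟨86415178149, 61082297609, 0, 24887148747, 0, 0⟩, 641587995938⟩, ⟨1455603461771, ⟨86379105026, 61010513678, 0, 24923593921, 0, 0⟩, 641424937240⟩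
    , ⟨1455853350777, ⟨86343043924, 60938742622, 0, 24960037030, 0, 0⟩, 641262138412⟩, ⟨1456103239783, ⟨86306991410, 60866982014, 0, 24996477071, 0, 0⟩, 641099625040⟩
    , ⟨1456353128790, ⟨86270948799, 60795232701, 0, 25032914515, 0, 0⟩, 640937387801⟩, ⟨1456603017796, ⟨86234914506, 60723493532, 0, 25069348929, 0, 0⟩, 640775438732⟩
    , ⟨1456852906803, ⟨86198891953, 60651766798, 0, 25105781445, 0, 0⟩, 640613752979⟩]⟩]
  tree := (.r (.r (.r (.p (.r .e .e) (.r .e .e)) (.p (.r (.p .e .e) (.p (.r .e .e) (.r .e .e))) 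
    (.r (.p .e .e) (.p .e .e)))) (.p (.r (.p (.r (.p (.r .e .e) (.r .e .e)) (.p (.r .e 
    .e) (.r .e .e))) (.r (.p .e .e) (.p (.r .e .e) .e))) (.p (.r (.p (.r .e (.p .e .e)) 
    (.r .e .e)) (.p (.r (.p .e .e) (.p .e .e)) (.r (.p .e .e) (.p .e .e)))) (.r (.p (.r 
    .e .e) (.r .e .e)) (.p (.r .e (.p .e .e)) (.r .e .e))))) (.r (.p (.r (.p .e .e) (.p 
    .e .e)) (.r (.p .e .e) (.p .e .e))) (.p (.r (.p (.r .e .e) (.r .e .e)) (.p (.r .e 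
    .e) (.r .e .o))) (.r (.p (.r .e .o) (.r .e .o)) .o))))) (.p (.r (.p (.r (.p (.r (.r 
    (.p (.r .e .e) .e) (.p (.r .e .e) (.r .e .e))) (.p (.r (.r .e .e) (.p (.r .e .e) 
    (.r .e .e))) (.r (.r .e .e) (.p (.r .e .e) .e)))) (.r (.r (.p .e .e) (.p (.r .e .e) 
    .e)) (.p (.r (.r .e .e) (.p .e .e)) (.r (.r .e .e) (.p .e .e))))) (.p (.r (.p (.r 
    (.p (.r .e .e) (.r .e .e)) (.p (.r .e .e) (.r .e .e))) (.r (.p (.r .e .e) (.r .e 
    .e)) (.p (.r .e .e) (.r .e .e)))) (.p (.r (.p (.r (.p .e .e) (.p .e .e)) (.r .e (.p 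
    .e .e))) (.p (.r (.p .e .e) (.p (.r .e .e) (.r .e .e))) (.r (.p .e .e) (.p (.r .e 
    .e) .e)))) (.r (.p (.r .e (.p .e .e)) (.r .e .e)) (.p (.r (.p .e .e) (.p .e .e)) 
    (.r (.p .e .e) (.p .e .e)))))) (.r (.p (.r (.p (.r .e .e) .e) (.p (.r .e .e) (.r 
    .e .e))) (.r (.p .e .e) (.p (.r .e .e) .e))) (.p (.r (.p (.r .e .e) (.r .e .e)) (.p 
    (.r .e (.p .e .e)) (.r .e .e))) (.r (.p (.r .e .e) (.r .e .e)) (.p (.r .e .e) (.r 
    .e .e))))))) (.r (.p (.r (.r (.p .e .e) (.p .e .e)) (.p (.r .e (.p .e .e)) (.r .e 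
    .e))) (.r (.r .e (.p .e .o)) (.p (.r .e .o) .o))) (.p (.r (.p (.r (.p .e .e) (.p 
    .e .e)) (.r .o .o)) (.p (.r (.p .e .o) .o) .o)) (.r .o .o)))) (.p (.r (.p (.r (.p 
    (.r (.p (.r (.p (.r .e .e) (.r .e .e)) (.p (.r .e .e) (.r .e .e))) (.r (.p (.r .e 
    .e) (.r .e .e)) (.p (.r .e .e) (.r .e .e)))) (.p (.r (.p (.r (.p .e .e) (.p .e .e)) 
    (.r .e (.p .e .e))) (.p (.r (.p .e .e) (.p .e .e)) (.r (.p .e .e) (.p .e .e)))) (.r 
    (.p (.r .e .e) (.r .e .e)) (.p (.r (.p .e .e) (.p .e .e)) (.r .e (.p .e .e)))))) 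
    (.r (.p (.r (.p (.r .e .e) .e) (.p (.r .e .e) (.r .e .e))) (.r (.p .e .e) (.p .e 
    .e))) (.p (.r (.p (.r .e .e) (.r .e .e)) (.p (.r .e .e) (.r .e .e))) (.r (.p (.r 
    .e .e) (.r .e .e)) (.p (.r .e .e) (.r .e .e)))))) (.p (.r (.p (.r (.p (.r (.p (.r 
    .e .e) (.r .e .e)) (.p (.r .e .e) (.r .e .e))) (.r (.p .e .e) (.p (.r .e .e) (.r 
    .e .e)))) (.p (.r (.p (.r .e .e) (.r .e .e)) (.p (.r (.p .g .g) .o) (.r .e (.p .g 
    .g)))) (.r (.p (.r .e .e) (.r .e .e)) (.p (.r .e (.p .g .g)) (.r .e .e))))) (.r (.p 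
    (.r (.p .e .e) (.p (.r .e .e) .e)) (.r (.p .e .e) (.p .e .e))) (.p (.r (.p (.r .e 
    .e) (.r .e .e)) (.p (.r .e .e) (.r .e .e))) (.r (.p (.r .e .e) .e) (.p (.r .e .e) 
    (.r .e .e)))))) (.p (.r (.p (.r (.p .o (.r .o .o)) .o) (.r (.p (.r (.p .o .g) .o) 
    (.r (.p .g .g) (.p .o .g))) (.p .o .o))) .o) (.r (.p (.r (.p (.r .e .e) (.r .e .e)) 
    (.p (.r (.p .o .g) .o) (.r .e (.p .o .g)))) (.r (.p (.r .e .e) (.r .e .e)) (.p (.r 
    .e .e) (.r .e .e)))) (.p (.r .o .o) (.r (.p (.r (.p .o .o) .o) (.r .e (.p .o .o))) 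
    .o))))) (.r (.p (.r (.p (.r (.p .e .e) (.p .e .e)) (.r .e (.p .e .e))) (.p (.r (.p 
    .e .e) (.p (.r .e .e) .e)) (.r (.p .e .e) (.p .e .e)))) (.r (.p (.r .e .e) (.r .e 
    .e)) (.p (.r (.p .e .e) (.p .e .e)) (.r .e .e)))) (.p (.r (.p (.r (.p (.r .e .e) 
    (.r .g .g)) (.p (.r .e .e) (.r .g .g))) (.r (.p .e .e) (.p (.r .g .g) (.r .g .g)))) 
    (.p (.r (.p (.r .e .e) (.r .g .g)) (.p (.r .o .o) (.r .g .o))) (.r (.p (.r .g .g) 
    (.r .g .g)) (.p (.r .g .g) (.r .g .g))))) (.r (.p (.r (.p .e .e) (.p .e .e)) (.r 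
    (.p .e .g) (.p .e .g))) (.p (.r (.p (.r .g .g) .e) (.p (.r .g .g) (.r .g .g))) (.r 
    (.p .e .g) (.p .e .g)))))))) (.r (.p (.r (.p (.r (.p .e .e) (.p .e .e)) (.r .e (.p 
    .e .e))) (.p (.r (.p .e .e) (.p (.r .e .e) .e)) (.r (.p .e .e) (.p .e .e)))) (.r 
    (.p (.r .e .e) (.r .o .o)) (.p (.r (.p .e .e) (.p .e .o)) .o))) (.p (.r (.p (.r (.p 
    (.r .e .e) (.r .e .e)) (.p (.r .e .e) (.r .e .e))) (.r (.p .e .e) (.p (.r .e .e) 
    (.r .g .g)))) (.p (.r (.p (.r .e (.p .g .g)) (.r .e .e)) (.p (.r (.p .g .g) (.p .g 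
    .g)) (.r .e (.p .g .g)))) (.r (.p (.r .e .e) (.r .g .g)) (.p (.r .e .g) (.r .g .g))))) 
    (.r (.p (.r (.p .e .o) (.p .e .o)) .o) (.p (.r .o .o) .o))))) (.p (.r (.p (.r (.p 
    .o (.r .o .o)) .o) (.r (.p (.r (.p (.r .o .o) (.r (.p (.r .o .o) (.r .g .o)) .o)) 
    .o) (.r (.p (.r (.p (.r .g .g) (.r .g .g)) (.p (.r .o .o) (.r .g .o))) (.r (.p (.r 
    .g .g) .g) (.p (.r .g .g) .g))) (.p (.r .o .o) (.r (.p (.r .o .o) .g) .o)))) (.p 
    .o (.r .o .o)))) .o) (.r (.p (.r (.p (.r (.p (.r (.p .g .g) (.p .g .g)) (.r (.p .g 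
    .g) (.p .g .g))) (.p (.r (.p .g .g) (.p .g .g)) (.r (.p .g .g) (.p .g .g)))) (.r 
    (.p (.r .g .g) (.r .o .o)) (.p (.r .g .g) (.r .o .o)))) (.p (.r (.p (.r .o .o) (.r 
    (.p .g .g) .o)) .o) (.r (.p (.r .g .g) .o) (.p (.r .o .o) .o)))) (.r (.p (.r .o .o) 
    .o) .o)) (.p (.r (.p .o (.r .o .o)) .o) (.r .o .o))))) (.r (.p (.r (.p (.r .o .o) 
    .o) .o) .o) (.p (.r .o .o) .o)))) (.r (.p (.r (.p (.r (.r .o .o) .o) .o) .o) (.r 
    .o .o)) (.p .o .o))))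

def cjA50 : List CJ := [⟨1452119345240, ⟨86920156196, 62086409125, 0, 24377627564, 0, 0⟩, 643895101387, 353076421185⟩, ⟨1452768742330, ⟨86817792522, 61882976698, 0, 24480818334, 0, 0⟩, 643423749241, 352275235328⟩
    , ⟨1453418139420, ⟨86723790207, 61696118704, 0, 24575615271, 0, 0⟩, 642992587399, 351656305600⟩, ⟨1453970126946, ⟨86636899043, 61523348149, 0, 24663282934, 0, 0⟩, 642595388296, 350979380407⟩
    , ⟨1454537672513, ⟨86555976665, 61362408364, 0, 24744960408, 0, 0⟩, 642226690192, 350466065011⟩, ⟨1455073920009, ⟨86476238449, 61203787301, 0, 24825473989, 0, 0⟩, 641864536721, 349910641998⟩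
    , ⟨1455558677054, ⟨86402521067, 61057111738, 0, 24899935317, 0, 0⟩, 641530758871, 349373724566⟩, ⟨1456046795176, ⟨86332320014, 60917396830, 0, 24970876758, 0, 0⟩, 641213762414, 348920222086⟩
    , ⟨1456467590483, ⟨86266765586, 60786904482, 0, 25037144272, 0, 0⟩, 640918570977, 348421147602⟩, ⟨1456852906803, ⟨86208652153, 60671201824, 0, 25095909377, 0, 0⟩, 640657538622, 348005672130⟩
    ]

/-- threshold in the normalised variable -/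
def eJA50 : Nat := 1591845504447

theorem jA50 : jslabChk stair eJA50 1451355348664 1456852906803 cjA50 = true := by
  decide +kernel

theorem eA50 : Nat.ble 2101236065866 (mulD eJA50 1451355348664) = true := by
  decide +kernel

theorem chkA50 : chkA' certA50 = true := by
  decide +kernel

theorem treeA50 : treeChk false certA50 = true := by
  decide +kernel

end MP7e122f.Num
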