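import Pool.Agent.Lib.MP_7e122f_anR.Slab
import Pool.Agent.Lib.MP_7e122f_anR.JStair

namespace MP7e122f.Num

/-- certificate for 1.3250 ≤ δ < 1.3300, lower bound -/
def certA51 : SlabCert where
  dl := 1456852906803
  dh := 1462350464942
  z1 := 603498138978
  z3n := false
  z3 := 279604711858
  n := 35734127902
  eth := 2097991472934
  rm := 2748779069440
  hb := 347577954009
  near := [⟨1457127784709, 1, ⟨6025650270, 5585070022, 0, 0, 0, 0⟩, ⟨1151311831640, 1151311831640, 0, 0, 0, 0⟩⟩, ⟨1457402662616, 1, ⟨6008378363, 5568596515, 0, 0, 0, 0⟩, ⟨1149650745845, 1149650745845, 0, 0, 0, 0⟩⟩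
    , ⟨1457677540523, 1, ⟨5991171706, 5552186811, 0, 0, 0, 0⟩, ⟨1147995153414, 1147995153414, 0, 0, 0, 0⟩⟩, ⟨1457952418430, 1, ⟨5974029976, 5535840589, 0, 0, 0, 0⟩, ⟨1146345028612, 1146345028612, 0, 0, 0, 0⟩⟩
    , ⟨1458227296337, 1, ⟨5956952852, 5519557533, 0, 0, 0, 0⟩, ⟨1144700345866, 1144700345866, 0, 0, 0, 0⟩⟩, ⟨1458502174244, 1, ⟨5939940015, 5503337324, 0, 0, 0, 0⟩, ⟨1143061079761, 1143061079761, 0, 0, 0, 0⟩⟩
    , ⟨1458777052151, 1, ⟨5922991149, 5487179650, 0, 0, 0, 0⟩, ⟨1141427205041, 1141427205041, 0, 0, 0, 0⟩⟩, ⟨1459051930058, 1, ⟨5906105938, 5471084198, 0, 0, 0, 0⟩, ⟨1139798696608, 1139798696608, 0, 0, 0, 0⟩⟩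
    , ⟨1459326807965, 1, ⟨5889284070, 5455050657, 0, 0, 0, 0⟩, ⟨1138175529522, 1138175529522, 0, 0, 0, 0⟩⟩, ⟨1459601685872, 1, ⟨5872525234, 5439078719, 0, 0, 0, 0⟩, ⟨1136557678998, 1136557678998, 0, 0, 0, 0⟩⟩
    , ⟨1459876563779, 1, ⟨5855829121, 5423168079, 0, 0, 0, 0⟩, ⟨1134945120404, 1134945120404, 0, 0, 0, 0⟩⟩, ⟨1460151441686, 1, ⟨5839195424, 5407318431, 0, 0, 0, 0⟩, ⟨1133337829263, 1133337829263, 0, 0, 0, 0⟩⟩
    , ⟨1460426319593, 1, ⟨5822623838, 5391529473, 0, 0, 0, 0⟩, ⟨1131735781248, 1131735781248, 0, 0, 0, 0⟩⟩, ⟨1460701197500, 1, ⟨5806114059, 5375800904, 0, 0, 0, 0⟩, ⟨1130138952184, 1130138952184, 0, 0, 0, 0⟩⟩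
    , ⟨1460976075407, 1, ⟨5789665787, 5360132426, 0, 0, 0, 0⟩, ⟨1128547318045, 1128547318045, 0, 0, 0, 0⟩⟩, ⟨1461250953314, 1, ⟨5773278722, 5344523742, 0, 0, 0, 0⟩, ⟨1126960854953, 1126960854953, 0, 0, 0, 0⟩⟩
    , ⟨1461525831221, 1, ⟨5756952567, 5328974558, 0, 0, 0, 0⟩, ⟨1125379539179, 1125379539179, 0, 0, 0, 0⟩⟩, ⟨1461800709128, 1, ⟨5740687025, 5313484578, 0, 0, 0, 0⟩, ⟨1123803347138, 1123803347138, 0, 0, 0, 0⟩⟩
    , ⟨1462075587035, 1, ⟨5724481803, 5298053514, 0, 0, 0, 0⟩, ⟨1122232255392, 1122232255392, 0, 0, 0, 0⟩⟩, ⟨1462350464942, 1, ⟨5708336609, 5282681074, 0, 0, 0, 0⟩, ⟨1120666240644, 1120666240644, 0, 0, 0, 0⟩⟩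
    ]
  ups := [⟨1457127784709, ⟨86161077991, 60576465042, 0, 25144032701, 0, 0⟩, 640444288190⟩, ⟨1457402662616, ⟨86121475891, 60497591110, 0, 25184102932, 0, 0⟩, 640267075867⟩
    , ⟨1457677540523, ⟨86081884504, 60418729596, 0, 25224170012, 0, 0⟩, 640090209219⟩, ⟨1457952418430, ⟨86042305885, 60339881825, 0, 25264234673, 0, 0⟩, 639913673581⟩
    , ⟨1458227296337, ⟨86002736769, 60261045484, 0, 25304295966, 0, 0⟩, 639737493503⟩, ⟨1458502174244, ⟨85963183589, 60182224889, 0, 25344356010, 0, 0⟩, 639561621990⟩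
    , ⟨1458777052151, ⟨85923641533, 60103416666, 0, 25384413368, 0, 0⟩, 639386095024⟩, ⟨1459051930058, ⟨85884110958, 60024620979, 0, 25424468238, 0, 0⟩, 639210910446⟩
    , ⟨1459326807965, ⟨85844591861, 59945837746, 0, 25464520702, 0, 0⟩, 639036068759⟩, ⟨1459601685872, ⟨85805083723, 59867066530, 0, 25504570678, 0, 0⟩, 638861574292⟩
    , ⟨1459876563779, ⟨85765589814, 59788309477, 0, 25544619295, 0, 0⟩, 638687403315⟩, ⟨1460151441686, ⟨85726107471, 59709564689, 0, 25584665788, 0, 0⟩, 638513576015⟩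
    , ⟨1460426319593, ⟨85686637690, 59630832762, 0, 25624710562, 0, 0⟩, 638340085499⟩, ⟨1460701197500, ⟨85647177988, 59552111927, 0, 25664752905, 0, 0⟩, 638166950639⟩
    , ⟨1460976075407, ⟨85607733723, 59473405738, 0, 25704794624, 0, 0⟩, 637994132204⟩, ⟨1461250953314, ⟨85568301349, 59394711702, 0, 25744834667, 0, 0⟩, 637821656949⟩
    , ⟨1461525831221, ⟨85528880108, 59316029225, 0, 25784872874, 0, 0⟩, 637649530992⟩, ⟨1461800709128, ⟨85489472508, 59237359920, 0, 25824910141, 0, 0⟩, 637477736200⟩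
    , ⟨1462075587035, ⟨85450074921, 59158701251, 0, 25864945381, 0, 0⟩, 637306299985⟩, ⟨1462350464942, ⟨85410691913, 59080056218, 0, 25904980160, 0, 0⟩, 637135188935⟩
    ]
  gcs := [⟨1459601685872, 347577954009, [⟨1457127784709, ⟨86161077991, 60576465042, 0, 25144032701, 0, 0⟩, 640444288190⟩, ⟨1457402662616, ⟨86121475891, 60497591110, 0, 25184102932, 0, 0⟩, 640267075867⟩
    , ⟨1457677540523, ⟨86081884504, 60418729596, 0, 25224170012, 0, 0⟩, 640090209219⟩, ⟨1457952418430, ⟨86042305885, 60339881825, 0, 25264234673, 0, 0⟩, 639913673581⟩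
    , ⟨1458227296337, ⟨86002736769, 60261045484, 0, 25304295966, 0, 0⟩, 639737493503⟩, ⟨1458502174244, ⟨85963183589, 60182224889, 0, 25344356010, 0, 0⟩, 639561621990⟩
    , ⟨1458777052151, ⟨85923641533, 60103416666, 0, 25384413368, 0, 0⟩, 639386095024⟩, ⟨1459051930058, ⟨85884110958, 60024620979, 0, 25424468238, 0, 0⟩, 639210910446⟩
    , ⟨1459326807965, ⟨85844591861, 59945837746, 0, 25464520702, 0, 0⟩, 639036068759⟩, ⟨1459601685872, ⟨85805083723, 59867066530, 0, 25504570678, 0, 0⟩, 638861574292⟩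
    ]⟩,
    ⟨1462350464942, 345016062920, [⟨1459851574878, ⟨85767383661, 59791888341, 0, 25542798604, 0, 0⟩, 638695320720⟩, ⟨1460101463884, ⟨85731490145, 59720301487, 0, 25579204832, 0, 0⟩, 638537263932⟩
    , ⟨1460351352891, ⟨85695607020, 59648725276, 0, 25615609632, 0, 0⟩, 638379485359⟩, ⟨1460601241897, ⟨85659734121, 59577159534, 0, 25652013018, 0, 0⟩, 638221986563⟩
    , ⟨1460851130903, ⟨85623869577, 59505602930, 0, 25688414450, 0, 0⟩, 638064781780⟩, ⟨1461101019910, ⟨85588014815, 59434056370, 0, 25724814451, 0, 0⟩, 637907860805⟩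
    , ⟨1461350908916, ⟨85552173013, 59362521943, 0, 25761214112, 0, 0⟩, 637751200424⟩, ⟨1461600797922, ⟨85516339464, 59290996399, 0, 25797611978, 0, 0⟩, 637594835914⟩
    , ⟨1461850686929, ⟨85480517214, 59219481737, 0, 25834009099, 0, 0⟩, 637438745018⟩, ⟨1462100575935, ⟨85444704267, 59147976542, 0, 25870404894, 0, 0⟩, 637282942939⟩
    , ⟨1462350464942, ⟨85408903516, 59076482707, 0, 25906800366, 0, 0⟩, 637127408535⟩]⟩]
  tree := (.r (.r (.r (.p (.r .e (.p .e .e)) (.r .e .e)) (.p (.r (.p .e .e) (.p (.r .e .e) 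
    (.r .e .e))) (.r (.p .e .e) (.p (.r .e .e) (.r .e .e))))) (.p (.r (.p (.r (.p (.r 
    .e .e) (.r .e .e)) (.p (.r .e .e) (.r .e .e))) (.r (.p .e .e) (.p (.r .e .e) (.r 
    .e .e)))) (.p (.r (.p (.r (.p .e .e) (.p .e .e)) (.r .e (.p .e .e))) (.p (.r (.p 
    .e .e) (.p .e .e)) (.r (.p .e .e) (.p .e .e)))) (.r (.p (.r .e .e) (.r .e .e)) (.p 
    (.r (.p .e .e) (.p .e .e)) (.r .e (.p .e .e)))))) (.r (.p (.r (.p .e .e) (.p .e .e)) 
    (.r (.p .e .e) (.p (.r .e .e) (.r .e .e)))) (.p (.r (.p (.r .e .e) (.r .e .e)) (.p 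
    (.r .e .e) (.r .e .o))) (.r (.p (.r .e .e) (.r .e .o)) (.p .o .o)))))) (.p (.r (.p 
    (.r (.p (.r (.r (.p (.r .e .e) (.r .e .e)) (.p (.r .e .e) (.r .e .e))) (.p (.r (.r 
    .e .e) (.p (.r .e .e) (.r .e .e))) (.r (.r .e .e) (.p (.r .e .e) (.r .e .e))))) (.r 
    (.r (.p .e .e) (.p (.r .e .e) (.r .e .e))) (.p (.r (.r .e .e) (.p .e .e)) (.r (.r 
    .e .e) (.p .e .e))))) (.p (.r (.p (.r (.p (.r .e .e) (.r .e .e)) (.p (.r .e .e) (.r 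
    .e .e))) (.r (.p (.r .e .e) (.r .e .e)) (.p (.r .e .e) (.r .e .e)))) (.p (.r (.p 
    (.r (.p .e .e) (.p .e .e)) (.r .e (.p .e .e))) (.p (.r (.p .e .e) (.p (.r .e .e) 
    .e)) (.r (.p .e .e) (.p .e .e)))) (.r (.p (.r .e .e) (.r .e .e)) (.p (.r (.p .e .e) 
    (.p .e .e)) (.r (.p .e .e) (.p .e .e)))))) (.r (.p (.r (.p (.r .e .e) (.r .e .e)) 
    (.p (.r .e .e) (.r .e .e))) (.r (.p .e .e) (.p (.r .e .e) (.r .e .e)))) (.p (.r (.p 
    (.r .e .e) (.r .e .e)) (.p (.r .e (.p .e .e)) (.r .e .e))) (.r (.p (.r .e .e) (.r 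
    .e .e)) (.p (.r .e .e) (.r .e .e))))))) (.r (.p (.r (.r (.p .e .e) (.p .e .e)) (.p 
    (.r (.r .e .e) (.p .e .e)) (.r .e (.p .e .e)))) (.r (.r (.p .e .e) (.p .e .e)) (.p 
    (.r .e .o) .o))) (.p (.r (.p (.r (.p .e .e) (.p .e .e)) (.r (.p .e .o) .o)) (.p (.r 
    (.p (.r .e .e) .o) (.p (.r .o .o) .o)) .o)) (.r .o .o)))) (.p (.r (.p (.r (.p (.r 
    (.p (.r (.p (.r .e .e) (.r .e .e)) (.p (.r .e .e) (.r .e .e))) (.r (.p (.r .e .e) 
    (.r .e .e)) (.p (.r .e .e) (.r .e .e)))) (.p (.r (.p (.r .e (.p .e .e)) (.r .e .e)) 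
    (.p (.r (.p .e .e) (.p .e .e)) (.r (.p .e .e) (.p .e .e)))) (.r (.p (.r .e .e) (.r 
    .e .e)) (.p (.r .e (.p .e .e)) (.r .e .e))))) (.r (.p (.r (.p .e .e) (.p (.r .e .e) 
    (.r .e .e))) (.r (.p .e .e) (.p .e .e))) (.p (.r (.p (.r .e .e) (.r .e .e)) (.p (.r 
    .e .e) (.r .e .e))) (.r (.p (.r .e .e) .e) (.p (.r .e .e) (.r .e .e)))))) (.p (.r 
    (.p (.r (.p (.r (.p .e .e) (.p (.r .e .e) (.r .e .e))) (.r (.p .e .e) (.p .e .e))) 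
    (.p (.r (.p (.r .e .e) (.r .e .e)) (.p (.r .e .e) (.r .e .e))) (.r (.p (.r .e .e) 
    (.r .e .e)) (.p (.r .e .e) (.r .e .e))))) (.r (.p (.r (.p .e .e) (.p .e .e)) (.r 
    (.p .e .e) (.p .e .e))) (.p (.r (.p .e .e) (.p (.r .e .e) (.r .e .e))) (.r (.p .e 
    .e) (.p .e .e))))) (.p (.r (.p (.r (.p (.r .o .o) (.r .e .o)) .o) (.r (.p (.r .e 
    .e) (.r .e .e)) (.p .o (.r .e .o)))) (.p .o .o)) (.r (.p (.r (.p (.r .e .e) (.r .e 
    .e)) (.p (.r .e .e) (.r .e .e))) (.r (.p (.r .e .e) (.r .e .e)) (.p (.r .e .e) (.r 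
    .e .e)))) (.p (.r (.p .o (.r .e .o)) .o) (.r (.p (.r .e .o) (.r .e .e)) (.p .o (.r 
    .o .o))))))) (.r (.p (.r (.p (.r .e (.p .e .e)) (.r .e .e)) (.p (.r (.p .e .e) (.p 
    .e .e)) (.r (.p .e .e) (.p .e .e)))) (.r (.p (.r .e .e) (.r .e .e)) (.p (.r .e (.p 
    .e .e)) (.r .e .e)))) (.p (.r (.p (.r (.p .e .e) (.p (.r .e .e) (.r .e .e))) (.r 
    (.p .e .e) (.p .e .e))) (.p (.r (.p (.r .e .e) (.r .e .e)) (.p (.r .e .o) (.r .e 
    .e))) (.r (.p (.r .e .e) (.r .e .e)) (.p (.r .e .e) (.r .e .e))))) (.r (.p (.r (.p 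
    .e .e) (.p .e .e)) (.r .e (.p .e .e))) (.p (.r (.p .e .e) (.p (.r .g .g) .e)) (.r 
    (.p .e .e) (.p .e .e)))))))) (.r (.p (.r (.p (.r (.p .e .e) (.p .e .e)) (.r (.p .e 
    .e) (.p .e .e))) (.p (.r (.p .e .e) (.p (.r .e .e) .e)) (.r (.p .e .e) (.p .e .e)))) 
    (.r (.p (.r .e .e) (.r .e .e)) (.p (.r (.p .e .e) (.p .e .e)) (.r .o .o)))) (.p (.r 
    (.p (.r (.p (.r .e .e) (.r .e .e)) (.p (.r .e .e) (.r .e .e))) (.r (.p (.r .e .e) 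
    .e) (.p (.r .e .e) (.r .e .g)))) (.p (.r (.p (.r .e .e) (.r .e .e)) (.p (.r (.p .e 
    .g) (.p .e .g)) (.r .e .e))) (.r (.p (.r .e .e) (.r .g .g)) (.p (.r .e .e) (.r .g 
    .g))))) (.r (.p (.r (.p .e .e) (.p .e .o)) (.r .o .o)) (.p (.r (.p (.r .g .g) .o) 
    (.p (.r .o .o) .o)) .o))))) (.p (.r (.p (.r (.p .o (.r .o .o)) .o) (.r (.p (.r (.p 
    (.r (.p .o (.r .o .o)) .o) (.r (.p (.r .e .o) (.r .e .e)) (.p .o .o))) .o) (.r (.p 
    (.r (.p (.r .g .g) (.r .g .g)) (.p (.r .g .o) (.r .g .g))) (.r (.p .e .e) (.p (.r 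
    .g .g) (.r .g .g)))) (.p (.r (.p .o .o) .o) (.r (.p (.r .g .o) (.r .g .g)) (.p .o 
    .o))))) (.p .o (.r .o .o)))) (.p .o .o)) (.r (.p (.r (.p (.r (.p (.r (.p .e .g) (.p 
    .e .g)) (.r (.p .g .g) (.p .g .g))) (.p (.r (.p (.r .g .g) .g) (.p (.r .g .o) .g)) 
    (.r (.p .g .g) (.p .g .g)))) (.r (.p (.r .e (.p .g .g)) (.r .g .g)) (.p (.r (.p .g 
    .g) (.p .g .g)) (.r .g .g)))) (.p (.r (.p (.r (.p .o .g) .o) (.r (.p .g .g) (.p .o 
    .g))) .o) (.r (.p (.r (.p .g .g) (.p .g .g)) (.r .g .g)) (.p (.r (.p .o .g) .o) (.r 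
    .g .o))))) (.r (.p (.r (.p (.r .o .o) .o) .o) .o) (.p (.r .o .o) .o))) (.p (.r (.p 
    .o (.r (.p .o .o) .o)) .o) (.r (.p (.r .o .o) .o) .o))))) (.r (.p (.r (.p (.r .o 
    .o) .o) .o) .o) (.p (.r .o .o) .o)))) (.r (.p (.r (.p (.r (.r (.p .o .o) .o) .o) 
    (.r .o .o)) .o) (.r .o .o)) (.p .o .o))))

def cjA51 : List CJ := [⟨1457616903379, ⟨86125844158, 60506290674, 0, 25179683643, 0, 0⟩, 640286599626, 347878985169⟩, ⟨1458266300469, ⟨86024077121, 60303564413, 0, 25282689287, 0, 0⟩, 639832472646, 347097211492⟩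
    , ⟨1458915697559, ⟨85930631785, 60117352053, 0, 25377328410, 0, 0⟩, 639417129726, 346494746412⟩, ⟨1459565094649, ⟨85837254630, 59931212546, 0, 25471954854, 0, 0⟩, 639003667076, 345894212159⟩
    , ⟨1460113462766, ⟨85751201562, 59759615963, 0, 25559210395, 0, 0⟩, 638624037191, 345233440113⟩, ⟨1460631590378, ⟨85674628014, 59606876037, 0, 25636895485, 0, 0⟩, 638287369470, 344710853309⟩
    , ⟨1461099967410, ⟨85603840150, 59465635106, 0, 25708748606, 0, 0⟩, 637977081261, 344205312982⟩, ⟨1461571591948, ⟨85536424413, 59331088302, 0, 25777209496, 0, 0⟩, 637682450903, 343779041302⟩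
    , ⟨1461978168518, ⟨85473474598, 59205420533, 0, 25841166122, 0, 0⟩, 637408083100, 343308781031⟩, ⟨1462350464942, ⟨85417670549, 59093991992, 0, 25897886190, 0, 0⟩, 637165479938, 342917604963⟩
    ]

/-- threshold in the normalised variable -/
def eJA51 : Nat := 1583389790896

theorem jA51 : jslabChk stair eJA51 1456852906803 1462350464942 cjA51 = true := by
  decide +kernel

theorem eA51 : Nat.ble 2097991472934 (mulD eJA51 1456852906803) = true := by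
  decide +kernel

theorem chkA51 : chkA' certA51 = true := by
  decide +kernel

theorem treeA51 : treeChk false certA51 = true := by
  decide +kernel

end MP7e122f.Num
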