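import Pool.Agent.Lib.MP_7e122f_anR.SlabAJ
import Pool.Agent.Lib.MP_7e122f_anR.CA0
import Pool.Agent.Lib.MP_7e122f_anR.CA1
import Pool.Agent.Lib.MP_7e122f_anR.CA2
import Pool.Agent.Lib.MP_7e122f_anR.CA3
import Pool.Agent.Lib.MP_7e122f_anR.CA4
import Pool.Agent.Lib.MP_7e122f_anR.CA5
import Pool.Agent.Lib.MP_7e122f_anR.CA6
import Pool.Agent.Lib.MP_7e122f_anR.CA7
import Pool.Agent.Lib.MP_7e122f_anR.CA8
import Pool.Agent.Lib.MP_7e122f_anR.CA9
import Pool.Agent.Lib.MP_7e122f_anR.CA10
import Pool.Agent.Lib.MP_7e122f_anR.CA11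
import Pool.Agent.Lib.MP_7e122f_anR.CA12
import Pool.Agent.Lib.MP_7e122f_anR.CA13
import Pool.Agent.Lib.MP_7e122f_anR.CA14
import Pool.Agent.Lib.MP_7e122f_anR.CA15
import Pool.Agent.Lib.MP_7e122f_anR.CA16
import Pool.Agent.Lib.MP_7e122f_anR.CA17
import Pool.Agent.Lib.MP_7e122f_anR.CA18

namespace MP7e122f.Num

open MP7e122f.R

/-- the lower frame bound, densities between 1.07 and 2 -/
theorem allA {δ y A1 A2 A3 : ℝ} {M H : Mat} (P : Pair δ y A1 A2 A3 M H)
    (h0 : rv 1176477441720 ≤ δ) : aval M < aval H := by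
  have hE : δ < rv 2199023255552 := by
    have e : rv 2199023255552 = 2 := by
      unfold rv
      norm_num
    rw [e]
    exact P.hδ2
  rcases lt_or_ge δ (rv 1187472557998) with h1 | h1
  · exact slabAJ (C := certA0) stair_chk chkA0 treeA0 jA0 eA0 P h0 h1
  rcases lt_or_ge δ (rv 1198467674275) with h2 | h2
  · exact slabAJ (C := certA1) stair_chk chkA1 treeA1 jA1 eA1 P h1 h2
  rcases lt_or_ge δ (rv 1209462790553) with h3 | h3
  · exact slabAJ (C := certA2) stair_chk chkA2 treeA2 jA2 eA2 P h2 h3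
  rcases lt_or_ge δ (rv 1231453023109) with h4 | h4
  · exact slabAJ (C := certA3) stair_chk chkA3 treeA3 jA3 eA3 P h3 h4
  rcases lt_or_ge δ (rv 1253443255664) with h5 | h5
  · exact slabAJ (C := certA4) stair_chk chkA4 treeA4 jA4 eA4 P h4 h5
  rcases lt_or_ge δ (rv 1275433488220) with h6 | h6
  · exact slabAJ (C := certA5) stair_chk chkA5 treeA5 jA5 eA5 P h5 h6
  rcases lt_or_ge δ (rv 1297423720775) with h7 | h7
  · exact slabAJ (C := certA6) stair_chk chkA6 treeA6 jA6 eA6 P h6 h7
  rcases lt_or_ge δ (rv 1319413953331) with h8 | h8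
  · exact slabAJ (C := certA7) stair_chk chkA7 treeA7 jA7 eA7 P h7 h8
  rcases lt_or_ge δ (rv 1330409069608) with h9 | h9
  · exact slabAJ (C := certA8) stair_chk chkA8 treeA8 jA8 eA8 P h8 h9
  rcases lt_or_ge δ (rv 1341404185886) with h10 | h10
  · exact slabAJ (C := certA9) stair_chk chkA9 treeA9 jA9 eA9 P h9 h10
  rcases lt_or_ge δ (rv 1352399302164) with h11 | h11
  · exact slabAJ (C := certA10) stair_chk chkA10 treeA10 jA10 eA10 P h10 h11
  rcases lt_or_ge δ (rv 1363394418442) with h12 | h12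
  · exact slabAJ (C := certA11) stair_chk chkA11 treeA11 jA11 eA11 P h11 h12
  rcases lt_or_ge δ (rv 1374389534720) with h13 | h13
  · exact slabAJ (C := certA12) stair_chk chkA12 treeA12 jA12 eA12 P h12 h13
  rcases lt_or_ge δ (rv 1385384650997) with h14 | h14
  · exact slabAJ (C := certA13) stair_chk chkA13 treeA13 jA13 eA13 P h13 h14
  rcases lt_or_ge δ (rv 1396379767275) with h15 | h15
  · exact slabAJ (C := certA14) stair_chk chkA14 treeA14 jA14 eA14 P h14 h15
  rcases lt_or_ge δ (rv 1407374883553) with h16 | h16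
  · exact slabAJ (C := certA15) stair_chk chkA15 treeA15 jA15 eA15 P h15 h16
  rcases lt_or_ge δ (rv 1418369999831) with h17 | h17
  · exact slabAJ (C := certA16) stair_chk chkA16 treeA16 jA16 eA16 P h16 h17
  rcases lt_or_ge δ (rv 1429365116108) with h18 | h18
  · exact slabAJ (C := certA17) stair_chk chkA17 treeA17 jA17 eA17 P h17 h18
  rcases lt_or_ge δ (rv 1440360232386) with h19 | h19
  · exact slabAJ (C := certA18) stair_chk chkA18 treeA18 jA18 eA18 P h18 h19
  rcases lt_or_ge δ (rv 1451355348664) with h20 | h20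
  · exact slabAJ (C := certA19) stair_chk chkA19 treeA19 jA19 eA19 P h19 h20
  rcases lt_or_ge δ (rv 1456852906803) with h21 | h21
  · exact slabAJ (C := certA50) stair_chk chkA50 treeA50 jA50 eA50 P h20 h21
  rcases lt_or_ge δ (rv 1462350464942) with h22 | h22
  · exact slabAJ (C := certA51) stair_chk chkA51 treeA51 jA51 eA51 P h21 h22
  rcases lt_or_ge δ (rv 1473345581219) with h23 | h23
  · exact slabAJ (C := certA20) stair_chk chkA20 treeA20 jA20 eA20 P h22 h23
  rcases lt_or_ge δ (rv 1484340697497) with h24 | h24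
  · exact slabAJ (C := certA21) stair_chk chkA21 treeA21 jA21 eA21 P h23 h24
  rcases lt_or_ge δ (rv 1495335813775) with h25 | h25
  · exact slabAJ (C := certA22) stair_chk chkA22 treeA22 jA22 eA22 P h24 h25
  rcases lt_or_ge δ (rv 1506330930053) with h26 | h26
  · exact slabAJ (C := certA23) stair_chk chkA23 treeA23 jA23 eA23 P h25 h26
  rcases lt_or_ge δ (rv 1517326046330) with h27 | h27
  · exact slabAJ (C := certA24) stair_chk chkA24 treeA24 jA24 eA24 P h26 h27
  rcases lt_or_ge δ (rv 1528321162608) with h28 | h28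
  · exact slabAJ (C := certA25) stair_chk chkA25 treeA25 jA25 eA25 P h27 h28
  rcases lt_or_ge δ (rv 1539316278886) with h29 | h29
  · exact slabA (C := certA27) chkA27 treeA27 P h28 h29
  rcases lt_or_ge δ (rv 1550311395164) with h30 | h30
  · exact slabA (C := certA28) chkA28 treeA28 P h29 h30
  rcases lt_or_ge δ (rv 1561306511441) with h31 | h31
  · exact slabA (C := certA29) chkA29 treeA29 P h30 h31
  rcases lt_or_ge δ (rv 1572301627719) with h32 | h32
  · exact slabA (C := certA30) chkA30 treeA30 P h31 h32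
  rcases lt_or_ge δ (rv 1583296743997) with h33 | h33
  · exact slabA (C := certA31) chkA31 treeA31 P h32 h33
  rcases lt_or_ge δ (rv 1627277209108) with h34 | h34
  · exact slabA (C := certA32) chkA32 treeA32 P h33 h34
  rcases lt_or_ge δ (rv 1649267441664) with h35 | h35
  · exact slabA (C := certA60) chkA60 treeA60 P h34 h35
  rcases lt_or_ge δ (rv 1671257674219) with h36 | h36
  · exact slabA (C := certA61) chkA61 treeA61 P h35 h36
  rcases lt_or_ge δ (rv 1715238139330) with h37 | h37
  · exact slabA (C := certA34) chkA34 treeA34 P h36 h37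
  rcases lt_or_ge δ (rv 1759218604441) with h38 | h38
  · exact slabA (C := certA35) chkA35 treeA35 P h37 h38
  rcases lt_or_ge δ (rv 1803199069552) with h39 | h39
  · exact slabA (C := certA36) chkA36 treeA36 P h38 h39
  rcases lt_or_ge δ (rv 1847179534663) with h40 | h40
  · exact slabA (C := certA37) chkA37 treeA37 P h39 h40
  rcases lt_or_ge δ (rv 1891159999774) with h41 | h41
  · exact slabA (C := certA38) chkA38 treeA38 P h40 h41
  rcases lt_or_ge δ (rv 1935140464885) with h42 | h42
  · exact slabA (C := certA39) chkA39 treeA39 P h41 h42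
  rcases lt_or_ge δ (rv 1979120929996) with h43 | h43
  · exact slabA (C := certA40) chkA40 treeA40 P h42 h43
  rcases lt_or_ge δ (rv 2023101395107) with h44 | h44
  · exact slabA (C := certA41) chkA41 treeA41 P h43 h44
  rcases lt_or_ge δ (rv 2067081860218) with h45 | h45
  · exact slabA (C := certA42) chkA42 treeA42 P h44 h45
  rcases lt_or_ge δ (rv 2111062325329) with h46 | h46
  · exact slabA (C := certA43) chkA43 treeA43 P h45 h46
  rcases lt_or_ge δ (rv 2155042790440) with h47 | h47
  · exact slabA (C := certA44) chkA44 treeA44 P h46 h47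
  exact slabA (C := certA45) chkA45 treeA45 P h47 hE

end MP7e122f.Num
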