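import Pool.Agent.Lib.MP_7e122f_anR.SlabB
import Pool.Agent.Lib.MP_7e122f_anR.CB0
import Pool.Agent.Lib.MP_7e122f_anR.CB1
import Pool.Agent.Lib.MP_7e122f_anR.CB2
import Pool.Agent.Lib.MP_7e122f_anR.CB3
import Pool.Agent.Lib.MP_7e122f_anR.CB4
import Pool.Agent.Lib.MP_7e122f_anR.CB5
import Pool.Agent.Lib.MP_7e122f_anR.CB6
import Pool.Agent.Lib.MP_7e122f_anR.CB7
import Pool.Agent.Lib.MP_7e122f_anR.CB8
import Pool.Agent.Lib.MP_7e122f_anR.CB9

namespace MP7e122f.Num

open MP7e122f.R

/-- the upper frame bound, all densities between 1 and 2 -/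
theorem allB {δ y A1 A2 A3 : ℝ} {M H : Mat} (P : Pair δ y A1 A2 A3 M H) : bval H < bval M := by
  have h0 : rv 1099511627776 ≤ δ := by
    rw [rv_lit]
    exact P.hδ.le
  have hE : δ < rv 2199023255552 := by
    have e : rv 2199023255552 = 2 := by
      unfold rv
      norm_num
    rw [e]
    exact P.hδ2
  rcases lt_or_ge δ (rv 1121501860331) with h1 | h1
  · exact slabB (C := certB0) chkB0 treeB0 P h0 h1
  rcases lt_or_ge δ (rv 1143492092887) with h2 | h2
  · exact slabB (C := certB1) chkB1 treeB1 P h1 h2
  rcases lt_or_ge δ (rv 1165482325442) with h3 | h3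
  · exact slabB (C := certB2) chkB2 treeB2 P h2 h3
  rcases lt_or_ge δ (rv 1187472557998) with h4 | h4
  · exact slabB (C := certB3) chkB3 treeB3 P h3 h4
  rcases lt_or_ge δ (rv 1209462790553) with h5 | h5
  · exact slabB (C := certB4) chkB4 treeB4 P h4 h5
  rcases lt_or_ge δ (rv 1231453023109) with h6 | h6
  · exact slabB (C := certB5) chkB5 treeB5 P h5 h6
  rcases lt_or_ge δ (rv 1253443255664) with h7 | h7
  · exact slabB (C := certB6) chkB6 treeB6 P h6 h7
  rcases lt_or_ge δ (rv 1275433488220) with h8 | h8
  · exact slabB (C := certB7) chkB7 treeB7 P h7 h8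
  rcases lt_or_ge δ (rv 1297423720775) with h9 | h9
  · exact slabB (C := certB8) chkB8 treeB8 P h8 h9
  rcases lt_or_ge δ (rv 1319413953331) with h10 | h10
  · exact slabB (C := certB9) chkB9 treeB9 P h9 h10
  rcases lt_or_ge δ (rv 1341404185886) with h11 | h11
  · exact slabB (C := certB10) chkB10 treeB10 P h10 h11
  rcases lt_or_ge δ (rv 1363394418442) with h12 | h12
  · exact slabB (C := certB11) chkB11 treeB11 P h11 h12
  rcases lt_or_ge δ (rv 1385384650997) with h13 | h13
  · exact slabB (C := certB12) chkB12 treeB12 P h12 h13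
  rcases lt_or_ge δ (rv 1407374883553) with h14 | h14
  · exact slabB (C := certB13) chkB13 treeB13 P h13 h14
  rcases lt_or_ge δ (rv 1418369999831) with h15 | h15
  · exact slabB (C := certB14) chkB14 treeB14 P h14 h15
  rcases lt_or_ge δ (rv 1429365116108) with h16 | h16
  · exact slabB (C := certB15) chkB15 treeB15 P h15 h16
  rcases lt_or_ge δ (rv 1440360232386) with h17 | h17
  · exact slabB (C := certB16) chkB16 treeB16 P h16 h17
  rcases lt_or_ge δ (rv 1451355348664) with h18 | h18
  · exact slabB (C := certB17) chkB17 treeB17 P h17 h18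
  rcases lt_or_ge δ (rv 1462350464942) with h19 | h19
  · exact slabB (C := certB18) chkB18 treeB18 P h18 h19
  rcases lt_or_ge δ (rv 1473345581219) with h20 | h20
  · exact slabB (C := certB19) chkB19 treeB19 P h19 h20
  rcases lt_or_ge δ (rv 1484340697497) with h21 | h21
  · exact slabB (C := certB20) chkB20 treeB20 P h20 h21
  rcases lt_or_ge δ (rv 1495335813775) with h22 | h22
  · exact slabB (C := certB21) chkB21 treeB21 P h21 h22
  rcases lt_or_ge δ (rv 1517326046330) with h23 | h23
  · exact slabB (C := certB22) chkB22 treeB22 P h22 h23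
  rcases lt_or_ge δ (rv 1539316278886) with h24 | h24
  · exact slabB (C := certB23) chkB23 treeB23 P h23 h24
  rcases lt_or_ge δ (rv 1583296743997) with h25 | h25
  · exact slabB (C := certB24) chkB24 treeB24 P h24 h25
  rcases lt_or_ge δ (rv 1627277209108) with h26 | h26
  · exact slabB (C := certB25) chkB25 treeB25 P h25 h26
  rcases lt_or_ge δ (rv 1649267441664) with h27 | h27
  · exact slabB (C := certB60) chkB60 treeB60 P h26 h27
  rcases lt_or_ge δ (rv 1671257674219) with h28 | h28
  · exact slabB (C := certB61) chkB61 treeB61 P h27 h28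
  rcases lt_or_ge δ (rv 1715238139330) with h29 | h29
  · exact slabB (C := certB27) chkB27 treeB27 P h28 h29
  rcases lt_or_ge δ (rv 1759218604441) with h30 | h30
  · exact slabB (C := certB28) chkB28 treeB28 P h29 h30
  rcases lt_or_ge δ (rv 1803199069552) with h31 | h31
  · exact slabB (C := certB29) chkB29 treeB29 P h30 h31
  rcases lt_or_ge δ (rv 1847179534663) with h32 | h32
  · exact slabB (C := certB30) chkB30 treeB30 P h31 h32
  rcases lt_or_ge δ (rv 1891159999774) with h33 | h33
  · exact slabB (C := certB31) chkB31 treeB31 P h32 h33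
  rcases lt_or_ge δ (rv 1935140464885) with h34 | h34
  · exact slabB (C := certB32) chkB32 treeB32 P h33 h34
  rcases lt_or_ge δ (rv 1979120929996) with h35 | h35
  · exact slabB (C := certB33) chkB33 treeB33 P h34 h35
  rcases lt_or_ge δ (rv 2023101395107) with h36 | h36
  · exact slabB (C := certB34) chkB34 treeB34 P h35 h36
  rcases lt_or_ge δ (rv 2067081860218) with h37 | h37
  · exact slabB (C := certB35) chkB35 treeB35 P h36 h37
  rcases lt_or_ge δ (rv 2111062325329) with h38 | h38
  · exact slabB (C := certB36) chkB36 treeB36 P h37 h38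
  rcases lt_or_ge δ (rv 2155042790440) with h39 | h39
  · exact slabB (C := certB37) chkB37 treeB37 P h38 h39
  exact slabB (C := certB38) chkB38 treeB38 P h39 hE

end MP7e122f.Num
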