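import Pool.Agent.Lib.MP_7e122f_anR.KNumD

namespace MP7e122f.Num

/-- certificate for 0.0000 ≤ ε < 0.0100 -/
def certK0 : KCert where
  el := 0
  eh := 10995116277
  B := ⟨1975051981287, 1999208373578, 6060134314112, 7443280066007, 17326313771160⟩
  ks := [549755813, 1099511627, 1649267441, 2199023255, 2748779069, 3298534883, 3848290697, 4398046511, 
    4947802324, 5497558138, 6047313952, 6597069766, 7146825580, 7696581394, 8246337208, 8796093022, 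
    9345848836, 9895604649, 10445360463, 10995116277]
  sg := [1103176666535, 1106841705294, 1110506744053]
  tree := (.r (.r (.r (.p (.r (.p (.r (.p (.r .e .e) .e) (.p (.r .e .e) (.r .e .e))) (.r (.p 
    .e .e) (.p (.r .e .e) (.r .e .e)))) (.p (.r (.p (.r (.p .e .e) (.p .e .e)) (.r .e 
    (.p .e .e))) (.p (.r (.p (.r .e .e) (.r .e .e)) (.p (.r .e .e) (.r .e .e))) (.r (.p 
    .e .e) (.p (.r .e .e) (.r .e .e))))) (.r (.p (.r .e .e) (.r .e .e)) (.p (.r (.p .e 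
    .e) (.p .e .e)) (.r .e (.p .e .e)))))) (.r (.p (.r (.p .e .e) (.p (.r .e .e) .e)) 
    (.r (.p .e .e) (.p (.r .e .e) (.r .e .e)))) (.p (.r (.p (.r .e .e) (.r .e .e)) (.p 
    (.r .e .e) (.r .e .e))) (.r (.p (.r .e .e) (.r .e .e)) (.p (.r .e .o) (.r .e .o)))))) 
    (.p (.r (.p (.r (.p (.r (.p (.r .e (.p .e .e)) (.r .e (.p .e .e))) (.p (.r (.p .e 
    .e) (.p (.r .e .e) .e)) (.r (.p .e .e) (.p .e .e)))) (.r (.p (.r .e .e) (.r .e .e)) 
    (.p (.r (.p .e .e) (.p .e .e)) (.r .e .e)))) (.p (.r (.p (.r (.p (.r .e .e) (.r .e 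
    .e)) (.p (.r .e .e) (.r .e .e))) (.r (.p (.r .e .e) .e) (.p (.r .e .e) (.r .e .e)))) 
    (.p (.r (.p (.r (.p .e .e) (.p .e .e)) (.r .e (.p .e .e))) (.p (.r (.p .e .e) (.p 
    .e .e)) (.r (.p .e .e) (.p .e .e)))) (.r (.p (.r .e .e) (.r .e .e)) (.p (.r (.p .e 
    .e) (.p .e .o)) .o)))) (.r (.p (.r (.p .e .e) (.p (.r .e .e) .e)) (.r (.p .e .o) 
    .o)) (.p (.r (.p (.r .o .o) .o) .o) .o)))) (.r (.p (.r (.p (.r .e .e) .e) (.p (.r 
    .e .e) (.r .e .o))) (.r (.p .e .e) .o)) .o)) (.p (.r (.p (.r (.p (.r (.p (.r (.p 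
    (.r .e .e) (.r .e .e)) (.p (.r .e .e) (.r .e .e))) (.r (.p .e .e) (.p (.r .e .o) 
    .o))) (.p (.r (.p (.r .e .e) (.r .e .o)) (.p (.r (.p .e .o) .o) .o)) .o)) .o) (.p 
    (.r .o .o) .o)) .o) .o) .o)) (.r (.p (.r (.p (.r .o .o) .o) .o) .o) .o))) (.r (.p 
    (.r .o .o) .o) .o)) (.r .o .o))

theorem chkK0 : kcChk certK0 = true := by
  decide +kernel

theorem treeK0 : kcTree certK0 1896657557913 = true := by
  decide +kernel

/-- certificate for 0.0100 ≤ ε < 0.0200 -/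
def certK1 : KCert where
  el := 10995116277
  eh := 21990232555
  B := ⟨1957213273218, 1981067862516, 5912938170187, 7153465071301, 17608638635551⟩
  ks := [11544872091, 12094627905, 12644383719, 13194139533, 13743895347, 14293651161, 14843406974, 
    15393162788, 15942918602, 16492674416, 17042430230, 17592186044, 18141941858, 18691697672, 
    19241453486, 19791209299, 20340965113, 20890720927, 21440476741, 21990232555]
  sg := [1105009185914, 1110506744053, 1116004302192, 1121501860331]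
  tree := (.r (.r (.r (.p (.r (.p (.r (.p (.r .e .e) (.r .e .e)) (.p (.r .e .e) (.r .e .e))) 
    (.r (.p .e .e) (.p (.r .e .e) (.r .e .e)))) (.p (.r (.p (.r (.p .e .e) (.p (.r .e 
    .e) .e)) (.r .e (.p .e .e))) (.p (.r (.p (.r .e .e) (.r .e .e)) (.p (.r .e .e) (.r 
    .e .e))) (.r (.p (.r .e .e) .e) (.p (.r .e .e) (.r .e .e))))) (.r (.p (.r .e .e) 
    (.r .e .e)) (.p (.r (.p .e .e) (.p .e .e)) (.r .e (.p .e .e)))))) (.r (.p (.r (.p 
    .e .e) (.p (.r .e .e) (.r .e .e))) (.r (.p .e .e) (.p (.r .e .e) (.r .e .e)))) (.p 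
    (.r (.p (.r .e .e) (.r .e .e)) (.p (.r .e .e) (.r .e .e))) (.r (.p (.r .e .e) (.r 
    .e .e)) (.p (.r .e .o) (.r .e .o)))))) (.p (.r (.p (.r (.p (.r (.p (.r (.p .e .e) 
    (.p .e .e)) (.r .e (.p .e .e))) (.p (.r (.p .e .e) (.p (.r .e .e) (.r .e .e))) (.r 
    (.p .e .e) (.p (.r .e .e) .e)))) (.r (.p (.r .e .e) (.r .e .e)) (.p (.r (.p .e .e) 
    (.p .e .e)) (.r .e (.p .e .e))))) (.p (.r (.p (.r (.p (.r .e .e) (.r .e .e)) (.p 
    (.r .e (.p .e .e)) (.r .e .e))) (.r (.p (.r .e .e) (.r .e .e)) (.p (.r .e .e) (.r 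
    .e .e)))) (.p (.r (.p (.r (.p .e .e) (.p .e .e)) (.r (.p .e .e) (.p .e .e))) (.p 
    (.r (.p .e .e) (.p (.r .e .e) (.r .e .e))) (.r (.p .e .e) (.p .e .e)))) (.r (.p (.r 
    .e (.p .e .e)) (.r .e .e)) (.p (.r (.p .e .e) (.p .e .o)) .o)))) (.r (.p (.r (.p 
    .e .e) (.p (.r .e .e) (.r .e .o))) (.r (.p .e .o) .o)) (.p (.r (.p (.r .o .o) .o) 
    .o) .o)))) (.r (.p (.r (.p (.r .e .e) .e) (.p (.r .e .e) (.r .e .o))) (.r (.p .e 
    .e) .o)) .o)) (.p (.r (.p (.r (.p (.r (.p (.r (.p (.r .e .e) (.r .e .e)) (.p (.r 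
    .e .e) (.r .e .e))) (.r (.p (.r .e .e) (.r .e .o)) (.p (.r .e .o) .o))) (.p (.r (.p 
    (.r (.p .e .e) (.p .e .e)) (.r .e .o)) (.p (.r (.p .e .o) .o) .o)) .o)) .o) (.p (.r 
    .o .o) .o)) .o) .o) .o)) (.r (.p (.r (.p (.r .o .o) .o) .o) .o) .o))) (.r (.p (.r 
    .o .o) .o) .o)) (.r .o .o))

theorem chkK1 : kcChk certK1 = true := by
  decide +kernel

theorem treeK1 : kcTree certK1 1896657557913 = true := by
  decide +kernel

end MP7e122f.Num
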