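import Pool.Agent.Lib.MP_7e122f_anR.KNumD

namespace MP7e122f.Num

/-- certificate for 0.0200 ≤ ε < 0.0300 -/
def certK2 : KCert where
  el := 21990232555
  eh := 32985348833
  B := ⟨1939560681646, 1963166215324, 5772996258472, 6873635286524, 17836384638782⟩
  ks := [22539988369, 23089744183, 23639499997, 24189255811, 24739011624, 25288767438, 25838523252, 
    26388279066, 26938034880, 27487790694, 28037546508, 28587302322, 29137058136, 29686813949, 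
    30236569763, 30786325577, 31336081391, 31885837205, 32435593019, 32985348833]
  sg := [1106108697542, 1112705767309, 1119302837075, 1125899906842, 1132496976609]
  tree := (.r (.r (.r (.p (.r (.p (.r (.p (.r .e .e) (.r .e .e)) (.p (.r .e .e) (.r .e .e))) 
    (.r (.p .e .e) (.p (.r .e .e) (.r .e .e)))) (.p (.r (.p (.r (.p .e .e) (.p (.r .e 
    .e) .e)) (.r .e (.p .e .e))) (.p (.r (.p (.r .e .e) (.r .e .e)) (.p (.r .e .e) (.r 
    .e .e))) (.r (.p (.r .e .e) .e) (.p (.r .e .e) (.r .e .e))))) (.r (.p (.r .e (.p 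
    .e .e)) (.r .e .e)) (.p (.r (.p .e .e) (.p (.r .e .e) .e)) (.r .e (.p .e .e)))))) 
    (.r (.p (.r (.p .e .e) (.p (.r .e .e) (.r .e .e))) (.r (.p .e (.r .e .e)) (.p (.r 
    .e .e) (.r .e .e)))) (.p (.r (.p (.r .e .e) (.r .e .e)) (.p (.r .e .e) (.r .e .e))) 
    (.r (.p (.r .e .e) (.r .e .e)) (.p (.r .e .o) (.r .e .o)))))) (.p (.r (.p (.r (.p 
    (.r (.p (.r (.p .e .e) (.p .e .e)) (.r (.p .e .e) (.p .e .e))) (.p (.r (.p (.r .e 
    .e) .e) (.p (.r .e .e) (.r .e .e))) (.r (.p .e .e) (.p (.r .e .e) .e)))) (.r (.p 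
    (.r .e (.p .e .e)) (.r .e .e)) (.p (.r (.p .e .e) (.p .e .e)) (.r .e (.p .e .e))))) 
    (.p (.r (.p (.r (.p (.r .e .e) (.r .e .e)) (.p (.r .e (.p .e .e)) (.r .e .e))) (.r 
    (.p (.r .e .e) (.r .e .e)) (.p (.r .e .e) (.r .e .e)))) (.p (.r (.p (.r (.p .e .e) 
    (.p .e .e)) (.r (.p .e .e) (.p .e .e))) (.p (.r (.p (.r .e .e) .e) (.p (.r .e .e) 
    (.r .e .e))) (.r (.p .e .e) (.p (.r .e .e) .e)))) (.r (.p (.r .e (.p .e .e)) (.r 
    .e .e)) (.p (.r (.p .e .e) (.p .e .o)) .o)))) (.r (.p (.r (.p (.r .e .e) .e) (.p 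
    (.r .e .e) (.r .e .o))) (.r (.p .e .o) .o)) (.p (.r (.p (.r .o .o) .o) .o) .o)))) 
    (.r (.p (.r (.p (.r .e .e) (.r .e .e)) (.p (.r .e .e) (.r .e .o))) (.r (.p .e .e) 
    .o)) .o)) (.p (.r (.p (.r (.p (.r (.p (.r (.p (.r .e .e) (.r .e .e)) (.p (.r .e (.p 
    .e .e)) (.r .e .e))) (.r (.p (.r .e .e) (.r .e .o)) (.p (.r .e .o) .o))) (.p (.r 
    (.p (.r (.p .e .e) (.p .e .e)) (.r (.p .e .o) .o)) (.p (.r (.p .e .o) .o) .o)) .o)) 
    .o) (.p (.r .o .o) .o)) .o) .o) .o)) (.r (.p (.r (.p (.r .o .o) .o) .o) .o) .o))) 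
    (.r (.p (.r .o .o) .o) .o)) (.r .o .o))

theorem chkK2 : kcChk certK2 = true := by
  decide +kernel

theorem treeK2 : kcTree certK2 1896657557913 = true := by
  decide +kernel

/-- certificate for 0.0300 ≤ ε < 0.0400 -/
def certK3 : KCert where
  el := 32985348833
  eh := 43980465111
  B := ⟨1922083369943, 1945501132064, 5640500812566, 6602379940088, 18024677988738⟩
  ks := [33535104647, 34084860461, 34634616274, 35184372088, 35734127902, 36283883716, 36833639530, 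
    37383395344, 37933151158, 38482906972, 39032662786, 39582418599, 40132174413, 40681930227, 
    41231686041, 41781441855, 42331197669, 42880953483, 43430709297, 43980465111]
  sg := [1106841705294, 1114171782813, 1121501860331, 1128831937850, 1136162015368, 1143492092887]
  tree := (.r (.r (.r (.p (.r (.p (.r (.p (.r .e .e) (.r .e .e)) (.p (.r .e .e) (.r .e .e))) 
    (.r (.p (.r .e .e) .e) (.p (.r .e .e) (.r .e .e)))) (.p (.r (.p (.r (.p .e .e) (.p 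
    (.r .e .e) (.r .e .e))) (.r (.p .e .e) (.p .e .e))) (.p (.r (.p (.r .e .e) (.r .e 
    .e)) (.p (.r .e .e) (.r .e .e))) (.r (.p (.r .e .e) (.r .e .e)) (.p (.r .e .e) (.r 
    .e .e))))) (.r (.p (.r .e (.p .e .e)) (.r .e .e)) (.p (.r (.p .e .e) (.p (.r .e .e) 
    .e)) (.r .e (.p .e .e)))))) (.r (.p (.r (.p .e .e) (.p (.r .e .e) (.r .e .e))) (.r 
    (.p .e (.r .e .e)) (.p (.r .e .e) (.r .e .e)))) (.p (.r (.p (.r .e .e) (.r .e .e)) 
    (.p (.r .e .e) (.r .e .e))) (.r (.p (.r .e .e) (.r .e .e)) (.p (.r .e .o) (.r .e 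
    .o)))))) (.p (.r (.p (.r (.p (.r (.p (.r (.p .e .e) (.p .e .e)) (.r (.p .e .e) (.p 
    .e .e))) (.p (.r (.p (.r .e .e) .e) (.p (.r .e .e) (.r .e .e))) (.r (.p .e .e) (.p 
    (.r .e .e) .e)))) (.r (.p (.r .e (.p .e .e)) (.r .e .e)) (.p (.r (.p .e .e) (.p .e 
    .e)) (.r (.p .e .e) (.p .e .e))))) (.p (.r (.p (.r (.p (.r .e .e) (.r .e .e)) (.p 
    (.r .e (.p .e .e)) (.r .e (.p .e .e)))) (.r (.p (.r .e .e) (.r .e .e)) (.p (.r .e 
    .e) (.r .e .e)))) (.p (.r (.p (.r (.p .e .e) (.p .e .e)) (.r (.p .e .e) (.p .e .e))) 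
    (.p (.r (.p (.r .e .e) .e) (.p (.r .e .e) (.r .e .e))) (.r (.p .e .e) (.p (.r .e 
    .e) .e)))) (.r (.p (.r (.p .e .e) (.p .e .e)) (.r .e (.p .e .o))) (.p (.r (.p .e 
    .e) (.p .e .o)) .o)))) (.r (.p (.r (.p (.r .e .e) .e) (.p (.r .e .e) (.r .e .o))) 
    (.r (.p .e .o) .o)) (.p (.r (.p (.r .o .o) .o) .o) .o)))) (.r (.p (.r (.p (.r .e 
    .e) (.r .e .e)) (.p (.r .e .e) (.r .e .o))) (.r (.p .e .e) .o)) .o)) (.p (.r (.p 
    (.r (.p (.r (.p (.r (.p (.r .e .e) (.r .e .e)) (.p (.r .e (.p .e .e)) (.r .e .e))) 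
    (.r (.p (.r .e .e) (.r .e .o)) (.p (.r .e .o) .o))) (.p (.r (.p (.r (.p .e .e) (.p 
    .e .e)) (.r (.p .e .o) .o)) (.p (.r (.p .e .o) .o) .o)) .o)) .o) (.p (.r .o .o) .o)) 
    .o) .o) .o)) (.r (.p (.r (.p (.r .o .o) .o) .o) .o) .o))) (.r (.p (.r .o .o) .o) 
    .o)) (.r .o .o))

theorem chkK3 : kcChk certK3 = true := by
  decide +kernel

theorem treeK3 : kcTree certK3 1896657557913 = true := by
  decide +kernel

end MP7e122f.Num
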