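import Pool.Agent.Lib.MP_7e122f_anR.KNumD

namespace MP7e122f.Num

/-- certificate for 0.0400 ≤ ε < 0.0500 -/
def certK4 : KCert where
  el := 43980465111
  eh := 54975581388
  B := ⟨1904773525027, 1928069836552, 5515797450764, 6338076483666, 18184739518694⟩
  ks := [44530220924, 45079976738, 45629732552, 46179488366, 46729244180, 47278999994, 47828755808, 
    48378511622, 48928267436, 49478023249, 50027779063, 50577534877, 51127290691, 51677046505, 
    52226802319, 52776558133, 53326313947, 53876069761, 54425825574, 54975581388]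
  sg := [1106383575449, 1113255523123, 1120127470796, 1126999418470, 1133871366144, 1140743313817, 
    1147615261491, 1154487209164]
  tree := (.r (.r (.r (.p (.r (.p (.r (.p (.r .e .e) (.r .e .e)) (.p (.r .e .e) (.r .e .e))) 
    (.r (.p (.r .e .e) .e) (.p (.r .e .e) (.r .e .e)))) (.p (.r (.p (.r (.p .e .e) (.p 
    (.r .e .e) .e)) (.r (.p .e .e) (.p .e .e))) (.p (.r (.p (.r .e .e) (.r .e .e)) (.p 
    (.r .e .e) (.r .e .e))) (.r (.p (.r .e .e) (.r .e .e)) (.p (.r .e .e) (.r .e .e))))) 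
    (.r (.p (.r .e (.p .e .e)) (.r .e .e)) (.p (.r (.p .e .e) (.p (.r .e .e) .e)) (.r 
    .e (.p .e .e)))))) (.r (.p (.r (.p .e .e) (.p (.r .e .e) (.r .e .e))) (.r (.p (.r 
    .e .e) (.r .e .e)) (.p (.r .e .e) (.r .e .e)))) (.p (.r (.p (.r .e .e) (.r .e .e)) 
    (.p (.r .e .e) (.r .e .e))) (.r (.p (.r .e .e) (.r .e .e)) (.p (.r .e .o) (.r .e 
    .o)))))) (.p (.r (.p (.r (.p (.r (.p (.r (.p .e .e) (.p .e .e)) (.r (.p .e .e) (.p 
    .e .e))) (.p (.r (.p (.r .e .e) .e) (.p (.r .e .e) (.r .e .e))) (.r (.p .e .e) (.p 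
    (.r .e .e) .e)))) (.r (.p (.r .e (.p .e .e)) (.r .e .e)) (.p (.r (.p .e .e) (.p .e 
    .e)) (.r .e (.p .e .e))))) (.p (.r (.p (.r (.p (.r .e .e) (.r .e .e)) (.p (.r .e 
    (.p .e .e)) (.r .e .e))) (.r (.p (.r .e .e) (.r .e .e)) (.p (.r .e .e) (.r .e .e)))) 
    (.p (.r (.p (.r (.p .e .e) (.p .e .e)) (.r (.p .e .e) (.p .e .e))) (.p (.r (.p .e 
    .e) (.p (.r .e .e) .e)) (.r (.p .e .e) (.p .e .e)))) (.r (.p (.r .e (.p .e .e)) (.r 
    .e .e)) (.p (.r (.p .e .e) (.p .e .o)) .o)))) (.r (.p (.r (.p .e .e) (.p (.r .e .e) 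
    (.r .e .o))) (.r (.p .e .o) .o)) (.p (.r (.p (.r .o .o) .o) .o) .o)))) (.r (.p (.r 
    (.p (.r .e .e) (.r .e .e)) (.p (.r .e .e) (.r .e .o))) (.r (.p .e .e) .o)) .o)) (.p 
    (.r (.p (.r (.p (.r (.p (.r (.p (.r .e .e) (.r .e .e)) (.p (.r .e .e) (.r .e .e))) 
    (.r (.p (.r .e .e) .e) (.p (.r .e .o) .o))) (.p (.r (.p (.r .e (.p .e .e)) (.r .e 
    .o)) (.p (.r (.p .e .o) .o) .o)) .o)) .o) (.p (.r .o .o) .o)) .o) .o) .o)) (.r (.p 
    (.r (.p (.r .o .o) .o) .o) .o) .o))) (.r (.p (.r .o .o) .o) .o)) (.r .o .o))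

theorem chkK4 : kcChk certK4 = true := by
  decide +kernel

theorem treeK4 : kcTree certK4 1896657557913 = true := by
  decide +kernel

end MP7e122f.Num
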