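import Pool.Agent.Lib.MP_7e122f_anR.KNumD

namespace MP7e122f.Num

/-- certificate for 0.0500 ≤ ε < 0.0600 -/
def certK5 : KCert where
  el := 54975581388
  eh := 65970697666
  B := ⟨1887626221306, 1910869193845, 5399452839147, 6078770661526, 18325476645363⟩
  ks := [55525337202, 56075093016, 56624848830, 57174604644, 57724360458, 58274116272, 58823872086, 
    59373627899, 59923383713, 60473139527, 61022895341, 61572651155, 62122406969, 62672162783, 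
    63221918597, 63771674411, 64321430224, 64871186038, 65420941852, 65970697666]
  sg := [1107757964984, 1116004302192, 1124250639400, 1132496976609, 1140743313817, 1148989651025, 
    1157235988234, 1165482325442]
  tree := (.r (.r (.r (.p (.r (.p (.r (.p (.r .e .e) (.r .e .e)) (.p (.r .e .e) (.r .e .e))) 
    (.r (.p (.r .e .e) (.r .e .e)) (.p (.r .e .e) (.r .e .e)))) (.p (.r (.p (.r (.p .e 
    .e) (.p (.r .e .e) (.r .e .e))) (.r (.p .e .e) (.p .e .e))) (.p (.r (.p (.r .e .e) 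
    (.r .e .e)) (.p (.r .e (.p .e .e)) (.r .e .e))) (.r (.p (.r .e .e) (.r .e .e)) (.p 
    (.r .e .e) (.r .e .e))))) (.r (.p (.r .e (.p .e .e)) (.r .e .e)) (.p (.r (.p .e .e) 
    (.p (.r .e .e) .e)) (.r (.p .e .e) (.p .e .e)))))) (.r (.p (.r (.p .e (.r .e .e)) 
    (.p (.r .e .e) (.r .e .e))) (.r (.p (.r .e .e) (.r .e .e)) (.p (.r .e .e) (.r .e 
    .e)))) (.p (.r (.p (.r .e .e) (.r .e .e)) (.p (.r .e .e) (.r .e .e))) (.r (.p (.r 
    .e .e) (.r .e .e)) (.p (.r .e .o) (.r .e .o)))))) (.p (.r (.p (.r (.p (.r (.p (.r 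
    (.p .e .e) (.p .e .e)) (.r (.p .e .e) (.p .e .e))) (.p (.r (.p (.r .e .e) (.r .e 
    .e)) (.p (.r .e .e) (.r .e .e))) (.r (.p .e .e) (.p (.r .e .e) (.r .e .e))))) (.r 
    (.p (.r .e (.p .e .e)) (.r .e .e)) (.p (.r (.p .e .e) (.p .e .e)) (.r (.p .e .e) 
    (.p .e .e))))) (.p (.r (.p (.r (.p (.r .e .e) (.r .e .e)) (.p (.r (.p .e .e) (.p 
    .e .e)) (.r .e (.p .e .e)))) (.r (.p (.r .e .e) (.r .e .e)) (.p (.r .e .e) (.r .e 
    .e)))) (.p (.r (.p (.r (.p .e .e) (.p .e .e)) (.r (.p .e .e) (.p .e .e))) (.p (.r 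
    (.p (.r .e .e) .e) (.p (.r .e .e) (.r .e .e))) (.r (.p .e .e) (.p (.r .e .e) .e)))) 
    (.r (.p (.r (.p .e .e) (.p .e .e)) (.r .e (.p .e .o))) (.p (.r (.p .e .e) (.p .e 
    .o)) .o)))) (.r (.p (.r (.p (.r .e .e) .e) (.p (.r .e .e) (.r .e .o))) (.r (.p .e 
    .o) .o)) (.p (.r (.p (.r .o .o) .o) .o) .o)))) (.r (.p (.r (.p (.r .e .e) (.r .e 
    .e)) (.p (.r .e .e) (.r .e .o))) (.r (.p .e .e) .o)) .o)) (.p (.r (.p (.r (.p (.r 
    (.p (.r (.p (.r .e .e) (.r .e .e)) (.p (.r .e .e) (.r .e .e))) (.r (.p (.r .e .e) 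
    (.r .e .o)) (.p (.r .e .o) .o))) (.p (.r (.p (.r (.p .e .e) (.p .e .e)) (.r (.p .e 
    .o) .o)) (.p (.r (.p .e .o) .o) .o)) .o)) .o) (.p (.r .o .o) .o)) .o) .o) .o)) (.r 
    (.p (.r (.p (.r .o .o) .o) .o) .o) .o))) (.r (.p (.r .o .o) .o) .o)) (.r .o .o))

theorem chkK5 : kcChk certK5 = true := by
  decide +kernel

theorem treeK5 : kcTree certK5 1896657557913 = true := by
  decide +kernel

end MP7e122f.Num
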