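import Pool.Agent.Lib.MP_7e122f_anR.KNumD

namespace MP7e122f.Num

/-- certificate for 0.0600 ≤ ε < 0.0700 -/
def certK6 : KCert where
  el := 65970697666
  eh := 76965813944
  B := ⟨1870639318627, 1893895805799, 5292364248085, 5821983887512, 18454597271138⟩
  ks := [66520453480, 67070209294, 67619965108, 68169720922, 68719476736, 69269232549, 69818988363, 
    70368744177, 70918499991, 71468255805, 72018011619, 72567767433, 73117523247, 73667279060, 
    74217034874, 74766790688, 75316546502, 75866302316, 76416058130, 76965813944]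
  sg := [1107208209170, 1114904790564, 1122601371959, 1130297953353, 1137994534748, 1145691116142, 
    1153387697537, 1161084278931, 1168780860325, 1176477441720]
  tree := (.r (.r (.r (.p (.r (.p (.r (.p (.r .e .e) (.r .e .e)) (.p (.r .e .e) (.r .e .e))) 
    (.r (.p (.r .e .e) (.r .e .e)) (.p (.r .e .e) (.r .e .e)))) (.p (.r (.p (.r (.p .e 
    .e) (.p (.r .e .e) (.r .e .e))) (.r (.p .e .e) (.p .e .e))) (.p (.r (.p (.r .e .e) 
    (.r .e .e)) (.p (.r .e (.p .e .e)) (.r .e .e))) (.r (.p (.r .e .e) (.r .e .e)) (.p 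
    (.r .e .e) (.r .e .e))))) (.r (.p (.r .e (.p .e .e)) (.r .e .e)) (.p (.r (.p .e .e) 
    (.p (.r .e .e) .e)) (.r (.p .e .e) (.p .e .e)))))) (.r (.p (.r (.p (.r .e .e) (.r 
    .e .e)) (.p (.r .e .e) (.r .e .e))) (.r (.p (.r .e .e) (.r .e .e)) (.p (.r .e .e) 
    (.r .e .e)))) (.p (.r (.p (.r .e .e) (.r .e .e)) (.p (.r .e (.p .e .e)) (.r .e .e))) 
    (.r (.p (.r .e .e) (.r .e .e)) (.p (.r .e .o) (.r .e .o)))))) (.p (.r (.p (.r (.p 
    (.r (.p (.r (.p .e .e) (.p .e .e)) (.r (.p .e .e) (.p .e .e))) (.p (.r (.p (.r .e 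
    .e) (.r .e .e)) (.p (.r .e .e) (.r .e .e))) (.r (.p .e .e) (.p (.r .e .e) (.r .e 
    .e))))) (.r (.p (.r .e (.p .e .e)) (.r .e .e)) (.p (.r (.p .e .e) (.p .e .e)) (.r 
    (.p .e .e) (.p .e .e))))) (.p (.r (.p (.r (.p (.r .e .e) (.r .e .e)) (.p (.r .e (.p 
    .e .e)) (.r .e .e))) (.r (.p (.r .e .e) (.r .e .e)) (.p (.r .e .e) (.r .e .e)))) 
    (.p (.r (.p (.r (.p .e .e) (.p .e .e)) (.r (.p .e .e) (.p .e .e))) (.p (.r (.p .e 
    .e) (.p (.r .e .e) (.r .e .e))) (.r (.p .e .e) (.p .e .e)))) (.r (.p (.r .e (.p .e 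
    .e)) (.r .e .e)) (.p (.r (.p .e .e) (.p .e .o)) .o)))) (.r (.p (.r (.p (.r .e .e) 
    .e) (.p (.r .e .e) (.r .e .o))) (.r (.p .e .o) .o)) (.p (.r (.p (.r .o .o) .o) .o) 
    .o)))) (.r (.p (.r (.p (.r .e .e) (.r .e .e)) (.p (.r .e .e) (.r .e .o))) (.r (.p 
    .e .e) .o)) .o)) (.p (.r (.p (.r (.p (.r (.p (.r (.p (.r .e .e) (.r .e .e)) (.p (.r 
    .e .e) (.r .e .e))) (.r (.p (.r .e .e) (.r .e .o)) (.p (.r .e .o) .o))) (.p (.r (.p 
    (.r .e (.p .e .e)) (.r .e .o)) (.p (.r (.p .e .o) .o) .o)) .o)) .o) (.p (.r .o .o) 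
    .o)) .o) .o) .o)) (.r (.p (.r (.p (.r .o .o) .o) .o) .o) .o))) (.r (.p (.r .o .o) 
    .o) .o)) (.r .o .o))

theorem chkK6 : kcChk certK6 = true := by
  decide +kernel

theorem treeK6 : kcTree certK6 1896657557913 = true := by
  decide +kernel

end MP7e122f.Num
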