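import Pool.Agent.Lib.MP_7e122f_anR.SlabK
import Pool.Agent.Lib.MP_7e122f_anR.JStair
import Pool.Agent.Lib.MP_7e122f_anR.CK0
import Pool.Agent.Lib.MP_7e122f_anR.CK1
import Pool.Agent.Lib.MP_7e122f_anR.CK2
import Pool.Agent.Lib.MP_7e122f_anR.CK3
import Pool.Agent.Lib.MP_7e122f_anR.CK4
import Pool.Agent.Lib.MP_7e122f_anR.CKJ

namespace MP7e122f.Num

open MP7e122f.R

theorem kjAll_chk : kjAll stair 1896657557913 76965813944 = true := by
  decide +kernel

theorem kJ_ble : Nat.ble 1814194185831 1896657557913 = true := by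
  decide +kernel

/-- the lower frame bound, densities between 1 and 1.07 -/
theorem allK {δ y A1 A2 A3 : ℝ} {M H : Mat} (P : Pair δ y A1 A2 A3 M H)
    (hE : δ < 1 + rv 76965813944) : aval M < aval H := by
  have h0 : 1 + rv 0 ≤ δ := by
    have e : rv 0 = 0 := by
      unfold rv
      norm_num
    rw [e, add_zero]
    exact P.hδ.le
  rcases le_total (A2 + A3) (rv 1896657557913 * δ) with hJ | hJ
  · rcases lt_or_ge δ (1 + rv 22508220478) with h1 | h1
    · exact slabKJ (el := 0) stair_chk kjAll_chk (by decide +kernel) kj0_chk P h0 h1 hJ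
    rcases lt_or_ge δ (1 + rv 44595726548) with h2 | h2
    · exact slabKJ (el := 22508220478) stair_chk kjAll_chk (by decide +kernel) kj1_chk P h1 h2 hJ
    rcases lt_or_ge δ (1 + rv 66083714598) with h3 | h3
    · exact slabKJ (el := 44595726548) stair_chk kjAll_chk (by decide +kernel) kj2_chk P h2 h3 hJ
    exact slabKJ (el := 66083714598) stair_chk kjAll_chk (by decide +kernel) kj3_chk P h3 hE hJ
  · rcases lt_or_ge δ (1 + rv 10995116277) with h1 | h1
    · exact slabK (C := certK0) chkK0 treeK0 kJ_ble P h0 h1 hJ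
    rcases lt_or_ge δ (1 + rv 21990232555) with h2 | h2
    · exact slabK (C := certK1) chkK1 treeK1 kJ_ble P h1 h2 hJ
    rcases lt_or_ge δ (1 + rv 32985348833) with h3 | h3
    · exact slabK (C := certK2) chkK2 treeK2 kJ_ble P h2 h3 hJ
    rcases lt_or_ge δ (1 + rv 43980465111) with h4 | h4
    · exact slabK (C := certK3) chkK3 treeK3 kJ_ble P h3 h4 hJ
    rcases lt_or_ge δ (1 + rv 54975581388) with h5 | h5
    · exact slabK (C := certK4) chkK4 treeK4 kJ_ble P h4 h5 hJ
    rcases lt_or_ge δ (1 + rv 65970697666) with h6 | h6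
    · exact slabK (C := certK5) chkK5 treeK5 kJ_ble P h5 h6 hJ
    exact slabK (C := certK6) chkK6 treeK6 kJ_ble P h6 hE hJ

end MP7e122f.Num
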