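import Pool.Agent.Lib.MP_7e122f_anR.SortR

/-!
# The theorem for all densities `δ > 1` (conditional on the comparison of sorted pairs)

Follow `strict_pos` and `main` in `Lib/MP_7e122f_an/Main.lean`: for `M.det ≤ 1/2` use
`strict_pos`, otherwise `δ = 1/M.det ∈ (1,2)`, `y = π/(2 √3 M.det) = π δ/(2√3)` and `compare_any`
instead of `selling_compare`.
-/

open MeasureTheory Complex
open scoped ComplexInnerProductSpace ENNReal ComplexOrder

namespace MP7e122f.Num

open MP7e122f.R

theorem strict_pos' (hS : ∀ (δ y A1 A2 A3 : ℝ) (M H : Mat), Pair δ y A1 A2 A3 M H →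
      aval M < aval H ∧ bval H < bval M)
    (M H : Mat) (hM : 0 < M.det) (hH : H.det = M.det) (hd : M.det < 1)
    (h1 : ga H = 2 * gb H) (h2 : gc H = 2 * gb H) (hne : ¬ IsHexagonal (lattice M)) :
    aval M < aval H ∧ bval H < bval M := by
  rcases le_or_gt M.det (1 / 2) with hd2 | hd2
  · exact strict_pos M H hM hH hd2 h1 h2 hne
  obtain ⟨R, hR, hb0, hba, hbc⟩ := exists_selling M hM
  set N := mulZ M R with hN
  have hNdet : N.det = M.det := det_mulZ M R hR
  have hNl : lattice N = lattice M := lattice_mulZ M R hR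
  have hH0 : 0 < H.det := hH ▸ hM
  have hwH := hex_wt H hH0 h1 h2
  have hwN := wt_selling N
  have hsN := selling_det N (by rw [hNdet]; exact hM)
  have hpi := Real.pi_pos
  have hd2' : 0 < N.det ^ 2 := by rw [hNdet]; positivity
  rw [hH] at hwH
  have hsN' := hsN
  rw [hNdet] at hsN'
  rw [← aval_mulZ M R hR, ← bval_mulZ M R hR, ← hN]
  have hne' : ¬ (Real.pi / 2 * ((ga N - gb N) / M.det ^ 2) = Real.pi / 2 * ((gc N - gb N) / M.det ^ 2) ∧
      Real.pi / 2 * ((gc N - gb N) / M.det ^ 2) = Real.pi / 2 * (gb N / M.det ^ 2)) := by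
    rintro ⟨q1, q2⟩
    apply hne
    have hpi2 : Real.pi / 2 ≠ 0 := by positivity
    have hMd : M.det ^ 2 ≠ 0 := by positivity
    have q1' := mul_left_cancel₀ hpi2 q1
    have q2' := mul_left_cancel₀ hpi2 q2
    rw [div_left_inj' hMd] at q1' q2'
    have hga : 0 < ga N := col_pos N (by rw [hNdet]; exact hM.ne')
    refine ⟨(N 0 0, N 1 0), (N 0 1, N 1 1), ?_, ?_, ?_, ?_⟩
    · intro h0
      simp only [Prod.mk_eq_zero] at h0
      unfold ga at hga
      rw [h0.1, h0.2] at hga
      simp at hga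
    · simp only
      have : ga N = gc N := by linarith
      exact this
    · simp only
      have : gb N = ga N / 2 := by linarith
      exact this
    · rw [← hNl]
      unfold lattice
      congr 1
      funext k
      ext <;> simp <;> ring
  rw [hNdet] at hwN
  have hMi : 1 < 1 / M.det := by rw [lt_div_iff₀ hM]; linarith
  have hMi2 : 1 / M.det < 2 := by rw [div_lt_iff₀ hM]; linarith
  have hy : Real.pi / (2 * Real.sqrt 3 * M.det) = Real.pi * (1 / M.det) / (2 * Real.sqrt 3) := by
    have h3 : Real.sqrt 3 ≠ 0 := (Real.sqrt_pos.2 (by norm_num)).ne'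
    have := hM.ne'
    field_simp
  exact compare_any (δ := 1 / M.det) (y := Real.pi / (2 * Real.sqrt 3 * M.det)) (M := N) (H := H)
    hMi hMi2 hy (by rw [hNdet]; exact hM) (by rw [hNdet, one_div_one_div]) (by rw [hH, hNdet])
    hwN hwH
    (mul_nonneg (by positivity) (div_nonneg (by linarith) (by positivity)))
    (mul_nonneg (by positivity) (div_nonneg (by linarith) (by positivity)))
    (mul_nonneg (by positivity) (div_nonneg hb0 (by positivity)))
    hsN' hne' (fun A1 A2 A3 M' hP => hS _ _ A1 A2 A3 M' H hP)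

theorem main' (hS : ∀ (δ y A1 A2 A3 : ℝ) (M H : Mat), Pair δ y A1 A2 A3 M H →
      aval M < aval H ∧ bval H < bval M)
    (δ : ℝ) (hδ : 1 < δ) (M H : Matrix (Fin 2) (Fin 2) ℝ)
    (hM : |M.det| = δ⁻¹) (hH : |H.det| = δ⁻¹) (hhex : IsHexagonal (lattice H)) :
    (IsGreatest (lowerSet (lattice M)) (lowerBound (lattice M)) ∧
      IsLeast (upperSet (lattice M)) (upperBound (lattice M))) ∧
    (IsHexagonal (lattice M) →
      lowerBound (lattice M) = lowerBound (lattice H) ∧
      upperBound (lattice M) = upperBound (lattice H)) ∧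
    (¬ IsHexagonal (lattice M) →
      lowerBound (lattice M) < lowerBound (lattice H) ∧
      upperBound (lattice H) < upperBound (lattice M)) := by
  have hδ0 : 0 < δ⁻¹ := by positivity
  have hδ1 : δ⁻¹ < 1 := inv_lt_one_of_one_lt₀ hδ
  have hM0 : M.det ≠ 0 := by intro h; rw [h, abs_zero] at hM; linarith
  have hH0 : H.det ≠ 0 := by intro h; rw [h, abs_zero] at hH; linarith
  obtain ⟨M', hM'd, hM'l⟩ := exists_posdet M hM0
  obtain ⟨H', hH'd, hH'l, hg1, hg2⟩ := hex_basis H hH0 hhex
  rw [hM] at hM'd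
  rw [hH] at hH'd
  have hM'0 : 0 < M'.det := by rw [hM'd]; exact hδ0
  have hH'0 : 0 < H'.det := by rw [hH'd]; exact hδ0
  have hdet : H'.det = M'.det := by rw [hM'd, hH'd]
  refine ⟨?_, ?_, ?_⟩
  · rw [← hM'l, lowerBound_eq M' hM'0, upperBound_eq M' hM'0, lowerSet_eq M' hM'0,
      upperSet_eq M' hM'0]
    exact ⟨isGreatest_Iic, isLeast_Ici⟩
  · intro hh
    obtain ⟨M'', hM''d, hM''l, hg1', hg2'⟩ := hex_basis M hM0 hh
    rw [hM] at hM''d
    have hM''0 : 0 < M''.det := by rw [hM''d]; exact hδ0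
    have hdet' : H'.det = M''.det := by rw [hM''d, hH'd]
    have := equal_pos M'' H' hM''0 hdet' hg1 hg2 hg1' hg2'
    rw [← hM''l, ← hH'l, lowerBound_eq M'' hM''0, upperBound_eq M'' hM''0,
      lowerBound_eq H' hH'0, upperBound_eq H' hH'0, this.1, this.2, hdet']
    exact ⟨rfl, rfl⟩
  · intro hh
    have := strict_pos' hS M' H' hM'0 hdet (by rw [hM'd]; exact hδ1) hg1 hg2
      (by rw [hM'l]; exact hh)
    rw [← hM'l, ← hH'l, lowerBound_eq M' hM'0, upperBound_eq M' hM'0,
      lowerBound_eq H' hH'0, upperBound_eq H' hH'0, hdet]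
    have hd : 0 < 1 / M'.det := by positivity
    exact ⟨mul_lt_mul_of_pos_left this.1 hd, mul_lt_mul_of_pos_left this.2 hd⟩

end MP7e122f.Num
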