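import Pool.Agent.Lib.MP_7e122f_anR.AllA
import Pool.Agent.Lib.MP_7e122f_anR.AllB
import Pool.Agent.Lib.MP_7e122f_anR.AllK
import Pool.Agent.Lib.MP_7e122f_anR.FinalR

namespace MP7e122f.Num

open MP7e122f.R

theorem allPairs (δ y A1 A2 A3 : ℝ) (M H : Mat) (P : Pair δ y A1 A2 A3 M H) :
    aval M < aval H ∧ bval H < bval M := by
  refine ⟨?_, allB P⟩
  rcases lt_or_ge δ (1 + rv 76965813944) with h | h
  · exact allK P h
  · refine allA P ?_
    have e : rv 1176477441720 = 1 + rv 76965813944 := by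
      rw [show (1176477441720 : Nat) = Nat.add 1099511627776 76965813944 from rfl, rv_add, rv_lit]
    rw [e]
    exact h

end MP7e122f.Num
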