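import Pool.Agent.Lib.MP_7e122f_anR.Defs

open MeasureTheory Complex
open scoped ComplexInnerProductSpace ENNReal ComplexOrder

namespace MP7e122f.R

/-- one dimensional average -/
private theorem avgph_geom (n : ℕ) (m : ℤ) (h : m ≠ 0) (hn : m.natAbs < n) :
    ∑ j ∈ Finset.range n, cexp (2 * Real.pi * I * (j * m) / n) = 0 := by
  have hn0 : (n : ℂ) ≠ 0 := by
    have : 0 < n := by omega
    exact_mod_cast this.ne'
  set ζ : ℂ := cexp (2 * Real.pi * I * m / n) with hζ
  have h1 : ∀ j : ℕ, cexp (2 * Real.pi * I * (j * m) / n) = ζ ^ j := by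
    intro j
    rw [hζ, ← Complex.exp_nat_mul]
    congr 1
    ring
  have h2 : ζ ^ n = 1 := by
    rw [hζ, ← Complex.exp_nat_mul, Complex.exp_eq_one_iff]
    refine ⟨m, ?_⟩
    field_simp
  have h3 : ζ ≠ 1 := by
    rw [hζ, Ne, Complex.exp_eq_one_iff]
    rintro ⟨q, hq⟩
    have hpi : (2 * (Real.pi : ℂ) * I) ≠ 0 := by
      simp [Real.pi_ne_zero]
    have h4 : (m : ℂ) = q * n := by
      have h5 : 2 * (Real.pi : ℂ) * I * m / n = (2 * Real.pi * I) * (m / n) := by ring
      rw [h5, mul_comm (q : ℂ)] at hq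
      have h6 := mul_left_cancel₀ hpi hq
      field_simp at h6
      first
        | exact h6
        | exact h6.trans (mul_comm _ _)
    have h5 : m = q * n := by exact_mod_cast h4
    have h6 : (n : ℤ) ∣ m := ⟨q, by rw [h5]; ring⟩
    have h7 : n ≤ m.natAbs := Nat.le_of_dvd (Int.natAbs_pos.mpr h) (Int.natCast_dvd.mp h6)
    omega
  rw [Finset.sum_congr rfl fun j _ => h1 j, geom_sum_eq h3, h2]
  simp

/-- the two dimensional average -/
private theorem avgph_prod (n : ℕ) (k : ℤ × ℤ) :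
    ∑ j ∈ Finset.range n ×ˢ Finset.range n,
      cexp (2 * Real.pi * I * (j.1 * k.1 + j.2 * k.2) / n) =
    (∑ j ∈ Finset.range n, cexp (2 * Real.pi * I * (j * k.1) / n)) *
      ∑ j ∈ Finset.range n, cexp (2 * Real.pi * I * (j * k.2) / n) := by
  rw [Finset.sum_mul_sum, Finset.sum_product]
  apply Finset.sum_congr rfl
  intro i _
  apply Finset.sum_congr rfl
  intro j _
  rw [← Complex.exp_add]
  congr 1
  ring

private theorem avgph_norm_term (a b : ℕ) (k : ℤ × ℤ) (n : ℕ) :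
    ‖cexp (2 * Real.pi * I * (a * k.1 + b * k.2) / n)‖ = 1 := by
  have : 2 * (Real.pi : ℂ) * I * (a * k.1 + b * k.2) / n =
      ((2 * Real.pi * (a * k.1 + b * k.2) / n : ℝ) : ℂ) * I := by
    push_cast
    ring
  rw [this, Complex.norm_exp_ofReal_mul_I]

/-- Averaging over modulations kills everything except multiples of `n`:
for a summable family `c` and a bounded one `F` (`‖F k‖ ≤ 1`),
`(1/n²) ∑_{j ∈ [0,n)²} ∑_k c_k F_k exp(2πi (j·k)/n) = ∑_{k ∈ nℤ²} c_k F_k`, and this tends to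
`c_0 F_0`. -/
theorem avg_phase (c F : ℤ × ℤ → ℂ) (hc : Summable fun k => ‖c k‖) (hF : ∀ k, ‖F k‖ ≤ 1) :
    Filter.Tendsto (fun n : ℕ => (1 / (n : ℂ) ^ 2) * ∑ j ∈ Finset.range n ×ˢ Finset.range n,
      ∑' k : ℤ × ℤ, c k * F k * cexp (2 * Real.pi * I * (j.1 * k.1 + j.2 * k.2) / n))
      Filter.atTop (nhds (c 0 * F 0)) := by
  have hterm : ∀ k, ‖c k * F k‖ ≤ ‖c k‖ := by
    intro k
    rw [norm_mul]
    exact mul_le_of_le_one_right (norm_nonneg _) (hF k)
  have hsum : ∀ (n : ℕ) (j : ℕ × ℕ), Summable fun k : ℤ × ℤ =>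
      c k * F k * cexp (2 * Real.pi * I * (j.1 * k.1 + j.2 * k.2) / n) := by
    intro n j
    apply Summable.of_norm
    apply Summable.of_nonneg_of_le (fun k => norm_nonneg _) _ hc
    intro k
    rw [norm_mul, avgph_norm_term, mul_one]
    exact hterm k
  have hswap : ∀ n : ℕ, (1 / (n : ℂ) ^ 2) * ∑ j ∈ Finset.range n ×ˢ Finset.range n,
      ∑' k : ℤ × ℤ, c k * F k * cexp (2 * Real.pi * I * (j.1 * k.1 + j.2 * k.2) / n) =
      ∑' k : ℤ × ℤ, c k * F k * ((1 / (n : ℂ) ^ 2) * ∑ j ∈ Finset.range n ×ˢ Finset.range n,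
        cexp (2 * Real.pi * I * (j.1 * k.1 + j.2 * k.2) / n)) := by
    intro n
    rw [← Summable.tsum_finsetSum (fun j _ => hsum n j), ← tsum_mul_left]
    apply tsum_congr
    intro k
    rw [← Finset.mul_sum]
    ring
  have hfun : (fun n : ℕ => (1 / (n : ℂ) ^ 2) * ∑ j ∈ Finset.range n ×ˢ Finset.range n,
      ∑' k : ℤ × ℤ, c k * F k * cexp (2 * Real.pi * I * (j.1 * k.1 + j.2 * k.2) / n)) =
      fun n : ℕ => ∑' k : ℤ × ℤ, c k * F k * ((1 / (n : ℂ) ^ 2) *
        ∑ j ∈ Finset.range n ×ˢ Finset.range n,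
        cexp (2 * Real.pi * I * (j.1 * k.1 + j.2 * k.2) / n)) := funext hswap
  rw [hfun]
  have hlim : ∑' k : ℤ × ℤ, (if k = 0 then c 0 * F 0 else 0) = c 0 * F 0 := by
    rw [tsum_eq_single (0 : ℤ × ℤ)]
    · simp
    · intro k hk
      simp [hk]
  rw [← hlim]
  apply tendsto_tsum_of_dominated_convergence hc
  · intro k
    by_cases hk : k = 0
    · subst hk
      rw [if_pos rfl]
      apply Filter.Tendsto.congr' _ tendsto_const_nhds
      filter_upwards [Filter.eventually_gt_atTop 0] with n hn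
      have hn0 : (n : ℂ) ≠ 0 := by exact_mod_cast hn.ne'
      simp only [Prod.fst_zero, Prod.snd_zero, Int.cast_zero, mul_zero, add_zero, zero_div,
        Complex.exp_zero, Finset.sum_const, Finset.card_product, Finset.card_range, nsmul_eq_mul]
      push_cast
      field_simp
    · rw [if_neg hk]
      apply Filter.Tendsto.congr' _ tendsto_const_nhds
      filter_upwards [Filter.eventually_gt_atTop (k.1.natAbs + k.2.natAbs)] with n hn
      rw [avgph_prod]
      by_cases h1 : k.1 = 0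
      · have h2 : k.2 ≠ 0 := by
          intro h2
          exact hk (Prod.ext h1 h2)
        rw [avgph_geom n k.2 h2 (by omega)]
        ring
      · rw [avgph_geom n k.1 h1 (by omega)]
        ring
  · filter_upwards [Filter.eventually_gt_atTop 0] with n hn k
    have hn0 : (0 : ℝ) < n := by exact_mod_cast hn
    have h1 : ‖(1 / (n : ℂ) ^ 2)‖ = 1 / (n : ℝ) ^ 2 := by
      simp
    have h2 : ‖∑ j ∈ Finset.range n ×ˢ Finset.range n,
        cexp (2 * Real.pi * I * (j.1 * k.1 + j.2 * k.2) / n)‖ ≤ (n : ℝ) ^ 2 := by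
      calc _ ≤ ∑ j ∈ Finset.range n ×ˢ Finset.range n,
            ‖cexp (2 * Real.pi * I * (j.1 * k.1 + j.2 * k.2) / n)‖ := norm_sum_le _ _
        _ = ∑ _j ∈ Finset.range n ×ˢ Finset.range n, (1 : ℝ) := by
            apply Finset.sum_congr rfl
            intro j _
            exact avgph_norm_term j.1 j.2 k n
        _ = (n : ℝ) ^ 2 := by
            simp [sq]
    rw [norm_mul (c k * F k), norm_mul (1 / (n : ℂ) ^ 2), h1]
    have h3 : 1 / (n : ℝ) ^ 2 * ‖∑ j ∈ Finset.range n ×ˢ Finset.range n,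
        cexp (2 * Real.pi * I * (j.1 * k.1 + j.2 * k.2) / n)‖ ≤ 1 := by
      calc _ ≤ 1 / (n : ℝ) ^ 2 * (n : ℝ) ^ 2 := by gcongr
        _ = 1 := by field_simp
    calc _ ≤ ‖c k * F k‖ * 1 := by
          apply mul_le_mul_of_nonneg_left h3 (norm_nonneg _)
      _ ≤ ‖c k‖ := by rw [mul_one]; exact hterm k

end MP7e122f.R
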