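import Pool.Agent.Lib.MP_7e122f_anR.Family

open MeasureTheory Complex
open scoped ComplexInnerProductSpace ENNReal ComplexOrder

namespace MP7e122f.R

/-- The six vectors in cyclic order -/
def w6 (j : Fin 6) : ℤ × ℤ := ![(1, 0), (0, 1), (-1, 1), (-1, 0), (0, -1), (1, -1)] j

private theorem consst_alg (ψ : ℤ × ℤ → ℂ) (g : ℤ → ℂ) (z : ℂ) (hz : z ^ 6 = 1) :
    ∑ j : Fin 6, ∑ l : Fin 6, (![1, z ^ 5, z ^ 4, z ^ 3, z ^ 2, z] j : ℂ) *
      ((![1, z, z ^ 2, z ^ 3, z ^ 4, z ^ 5] l : ℂ) *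
        (g (wdg (w6 j) (w6 l)) * ψ (w6 l - w6 j))) =
    6 * (g 0 * ψ (0, 0)) +
      (z * g 1 + z ^ 5 * g (-1)) *
        (ψ (1, 0) + ψ (0, 1) + ψ (-1, 1) + ψ (-1, 0) + ψ (0, -1) + ψ (1, -1)) +
      (z ^ 2 * g 1 + z ^ 4 * g (-1)) *
        (ψ (1, 1) + ψ (-1, 2) + ψ (-2, 1) + ψ (-1, -1) + ψ (1, -2) + ψ (2, -1)) +
      z ^ 3 * g 0 *
        (ψ (2, 0) + ψ (0, 2) + ψ (-2, 2) + ψ (-2, 0) + ψ (0, -2) + ψ (2, -2)) := by
  have h7 : z ^ 7 = z := by
    calc z ^ 7 = z ^ 6 * z := by ring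
      _ = z := by rw [hz, one_mul]
  have h8 : z ^ 8 = z ^ 2 := by
    calc z ^ 8 = z ^ 6 * z ^ 2 := by ring
      _ = z ^ 2 := by rw [hz, one_mul]
  have h9 : z ^ 9 = z ^ 3 := by
    calc z ^ 9 = z ^ 6 * z ^ 3 := by ring
      _ = z ^ 3 := by rw [hz, one_mul]
  have h10 : z ^ 10 = z ^ 4 := by
    calc z ^ 10 = z ^ 6 * z ^ 4 := by ring
      _ = z ^ 4 := by rw [hz, one_mul]
  simp only [Fin.sum_univ_six]
  simp [w6, wdg]
  ring_nf
  simp only [hz, h7, h8, h9, h10]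
  rw [show ((0, 0) : ℤ × ℤ) = 0 from rfl]
  ring

private theorem consst_conj (H : Mat) (f : L2) (k : ℤ × ℤ) :
    ⟪f, rho (zet H (-k)) f⟫ = (starRingEnd ℂ) ⟪f, rho (zet H k) f⟫ := by
  rw [zet_neg, ← rho_adj, inner_conj_symm]

private theorem consst_pair (H : Mat) (f : L2) (k : ℤ × ℤ) :
    ⟪f, rho (zet H k) f⟫ + ⟪f, rho (zet H (-k)) f⟫ = ((2 * st H f k : ℝ) : ℂ) := by
  rw [consst_conj, Complex.add_conj]
  rfl

/-- the vector `∑ z^j ρ(w_j) f` -/
private noncomputable def consst_v (H : Mat) (f : L2) (z : ℂ) : L2 :=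
  ∑ j : Fin 6, (![1, z, z ^ 2, z ^ 3, z ^ 4, z ^ 5] j : ℂ) • rho (zet H (w6 j)) f

private theorem consst_s1 (H : Mat) (f : L2) :
    ⟪f, rho (zet H (1, 0)) f⟫ + ⟪f, rho (zet H (0, 1)) f⟫ + ⟪f, rho (zet H (-1, 1)) f⟫ +
      ⟪f, rho (zet H (-1, 0)) f⟫ + ⟪f, rho (zet H (0, -1)) f⟫ + ⟪f, rho (zet H (1, -1)) f⟫ =
      ((6 * rav (st H f) (1, 0) : ℝ) : ℂ) := by
  have a1 := consst_pair H f (1, 0)
  have a2 := consst_pair H f (0, 1)
  have a3 := consst_pair H f (-1, 1)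
  have e1 : (-(1, 0) : ℤ × ℤ) = (-1, 0) := by decide
  have e2 : (-(0, 1) : ℤ × ℤ) = (0, -1) := by decide
  have e3' : (-(-1, 1) : ℤ × ℤ) = (1, -1) := by decide
  rw [e1] at a1
  rw [e2] at a2
  rw [e3'] at a3
  have r : rav (st H f) (1, 0) = (st H f (1, 0) + st H f (-1, 1) + st H f (0, 1)) / 3 := by
    unfold rav
    have f1 : e3 (1, 0) = (-1, 1) := by decide
    have f2 : e3.symm (1, 0) = -(0, 1) := by decide
    rw [f1, f2, st_neg]
  rw [r]
  push_cast at a1 a2 a3 ⊢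
  linear_combination a1 + a2 + a3

private theorem consst_s3 (H : Mat) (f : L2) :
    ⟪f, rho (zet H (1, 1)) f⟫ + ⟪f, rho (zet H (-1, 2)) f⟫ + ⟪f, rho (zet H (-2, 1)) f⟫ +
      ⟪f, rho (zet H (-1, -1)) f⟫ + ⟪f, rho (zet H (1, -2)) f⟫ + ⟪f, rho (zet H (2, -1)) f⟫ =
      ((6 * rav (st H f) (1, 1) : ℝ) : ℂ) := by
  have a1 := consst_pair H f (1, 1)
  have a2 := consst_pair H f (-1, 2)
  have a3 := consst_pair H f (-2, 1)
  have e1 : (-(1, 1) : ℤ × ℤ) = (-1, -1) := by decide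
  have e2 : (-(-1, 2) : ℤ × ℤ) = (1, -2) := by decide
  have e3' : (-(-2, 1) : ℤ × ℤ) = (2, -1) := by decide
  rw [e1] at a1
  rw [e2] at a2
  rw [e3'] at a3
  have r : rav (st H f) (1, 1) = (st H f (1, 1) + st H f (-2, 1) + st H f (-1, 2)) / 3 := by
    unfold rav
    have f1 : e3 (1, 1) = (-2, 1) := by decide
    have f2 : e3.symm (1, 1) = -(-1, 2) := by decide
    rw [f1, f2, st_neg]
  rw [r]
  push_cast at a1 a2 a3 ⊢
  linear_combination a1 + a2 + a3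

private theorem consst_s4 (H : Mat) (f : L2) :
    ⟪f, rho (zet H (2, 0)) f⟫ + ⟪f, rho (zet H (0, 2)) f⟫ + ⟪f, rho (zet H (-2, 2)) f⟫ +
      ⟪f, rho (zet H (-2, 0)) f⟫ + ⟪f, rho (zet H (0, -2)) f⟫ + ⟪f, rho (zet H (2, -2)) f⟫ =
      ((6 * rav (st H f) (2, 0) : ℝ) : ℂ) := by
  have a1 := consst_pair H f (2, 0)
  have a2 := consst_pair H f (0, 2)
  have a3 := consst_pair H f (-2, 2)
  have e1 : (-(2, 0) : ℤ × ℤ) = (-2, 0) := by decide
  have e2 : (-(0, 2) : ℤ × ℤ) = (0, -2) := by decide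
  have e3' : (-(-2, 2) : ℤ × ℤ) = (2, -2) := by decide
  rw [e1] at a1
  rw [e2] at a2
  rw [e3'] at a3
  have r : rav (st H f) (2, 0) = (st H f (2, 0) + st H f (-2, 2) + st H f (0, 2)) / 3 := by
    unfold rav
    have f1 : e3 (2, 0) = (-2, 2) := by decide
    have f2 : e3.symm (2, 0) = -(0, 2) := by decide
    rw [f1, f2, st_neg]
  rw [r]
  push_cast at a1 a2 a3 ⊢
  linear_combination a1 + a2 + a3

private theorem consst_cz (z : ℂ) (hz : z ^ 6 = 1) (hzz : (starRingEnd ℂ) z = z ^ 5) (j : Fin 6) :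
    (starRingEnd ℂ) (![1, z, z ^ 2, z ^ 3, z ^ 4, z ^ 5] j : ℂ) =
      (![1, z ^ 5, z ^ 4, z ^ 3, z ^ 2, z] j : ℂ) := by
  have hp : ∀ n : ℕ, z ^ (n + 6) = z ^ n := by
    intro n
    rw [pow_add, hz, mul_one]
  have h10 : z ^ 10 = z ^ 4 := hp 4
  have h15 : z ^ 15 = z ^ 3 := by
    rw [show (15 : ℕ) = 3 + 6 + 6 from rfl, hp, hp]
  have h20 : z ^ 20 = z ^ 2 := by
    rw [show (20 : ℕ) = 2 + 6 + 6 + 6 from rfl, hp, hp, hp]
  have h25 : z ^ 25 = z := by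
    rw [show (25 : ℕ) = 1 + 6 + 6 + 6 + 6 from rfl, hp, hp, hp, hp, pow_one]
  fin_cases j
  · simp
  · simp [hzz]
  · simp [hzz, ← pow_mul, h10]
  · simp [hzz, ← pow_mul, h15]
  · simp [hzz, ← pow_mul, h20]
  · simp [hzz, ← pow_mul, h25]

private theorem consst_norm (H : Mat) (hH : 0 < H.det) (f : L2) (hf : ‖f‖ = 1) (θ : ℝ)
    (hθ : cexp (θ * I) ^ 6 = 1) :
    ‖consst_v H f (cexp (θ * I))‖ ^ 2 =
      6 * (1 + 2 * rav (st H f) (1, 0) * Real.cos (Real.pi * (1 / H.det) + θ) +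
        2 * rav (st H f) (1, 1) * Real.cos (Real.pi * (1 / H.det) + 2 * θ) +
        Real.cos (3 * θ) * rav (st H f) (2, 0)) := by
  set z := cexp (θ * I) with hz
  have hzc : (starRingEnd ℂ) z = cexp (-(θ * I)) := by
    rw [hz, ← Complex.exp_conj]
    simp
  have hzz : (starRingEnd ℂ) z = z ^ 5 := by
    have h1 : z * (starRingEnd ℂ) z = 1 := by
      rw [hzc, hz, ← Complex.exp_add]
      simp
    calc (starRingEnd ℂ) z = z ^ 6 * (starRingEnd ℂ) z := by rw [hθ, one_mul]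
      _ = z ^ 5 * (z * (starRingEnd ℂ) z) := by ring
      _ = z ^ 5 := by rw [h1, mul_one]
  have hexp : ⟪consst_v H f z, consst_v H f z⟫ =
      ∑ j : Fin 6, ∑ l : Fin 6, (![1, z ^ 5, z ^ 4, z ^ 3, z ^ 2, z] j : ℂ) *
      ((![1, z, z ^ 2, z ^ 3, z ^ 4, z ^ 5] l : ℂ) *
        ((fun n : ℤ => cexp (Real.pi * I * (1 / H.det) * n)) (wdg (w6 j) (w6 l)) *
          (fun k => ⟪f, rho (zet H k) f⟫) (w6 l - w6 j))) := by
    unfold consst_v
    rw [sum_inner]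
    refine Finset.sum_congr rfl fun j _ => ?_
    rw [inner_sum]
    refine Finset.sum_congr rfl fun l _ => ?_
    rw [inner_smul_left, inner_smul_right, inner_zet H hH, consst_cz z hθ hzz]
  rw [consst_alg (fun k => ⟪f, rho (zet H k) f⟫)
    (fun n : ℤ => cexp (Real.pi * I * (1 / H.det) * n)) z hθ] at hexp
  rw [consst_s1, consst_s3, consst_s4, inner_self_zet, hf] at hexp
  have hre : ‖consst_v H f z‖ ^ 2 = (⟪consst_v H f z, consst_v H f z⟫).re := by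
    rw [inner_self_eq_norm_sq_to_K]
    norm_cast
  rw [hre, hexp]
  set A : ℝ := Real.pi * (1 / H.det) with hA
  have g0 : cexp (Real.pi * I * (1 / H.det) * ((0 : ℤ) : ℂ)) = 1 := by simp
  have g1 : cexp (Real.pi * I * (1 / H.det) * ((1 : ℤ) : ℂ)) = cexp (A * I) := by
    rw [hA]
    push_cast
    congr 1
    ring
  have g2 : cexp (Real.pi * I * (1 / H.det) * ((-1 : ℤ) : ℂ)) = cexp (-(A * I)) := by
    rw [hA]
    push_cast
    congr 1
    ring
  rw [g0, g1, g2]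
  have c1 : z * cexp (A * I) + z ^ 5 * cexp (-(A * I)) = ((2 * Real.cos (A + θ) : ℝ) : ℂ) := by
    rw [← hzz, hzc, hz, ← Complex.exp_add, ← Complex.exp_add]
    push_cast
    rw [Complex.two_cos]
    congr 1
    · congr 1
      ring
    · congr 1
      ring
  have c2 : z ^ 2 * cexp (A * I) + z ^ 4 * cexp (-(A * I)) =
      ((2 * Real.cos (A + 2 * θ) : ℝ) : ℂ) := by
    have h4 : z ^ 4 = cexp (-(2 * θ * I)) := by
      have : z ^ 4 = (starRingEnd ℂ) z ^ 2 := by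
        rw [hzz]
        calc z ^ 4 = z ^ 6 * z ^ 4 := by rw [hθ, one_mul]
          _ = (z ^ 5) ^ 2 := by ring
      rw [this, hzc, ← Complex.exp_nat_mul]
      congr 1
      push_cast
      ring
    have h2 : z ^ 2 = cexp (2 * θ * I) := by
      rw [hz, ← Complex.exp_nat_mul]
      congr 1
      push_cast
      ring
    rw [h4, h2, ← Complex.exp_add, ← Complex.exp_add]
    push_cast
    rw [Complex.two_cos]
    congr 1
    · congr 1
      ring
    · congr 1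
      ring
  have c3 : (z ^ 3).re = Real.cos (3 * θ) := by
    have : z ^ 3 = cexp ((3 * θ : ℝ) * I) := by
      rw [hz, ← Complex.exp_nat_mul]
      congr 1
      push_cast
      ring
    rw [this, Complex.exp_ofReal_mul_I_re]
  rw [c1, c2]
  have hfin : (6 * (1 * ((1 ^ 2 : ℝ) : ℂ)) +
      ((2 * Real.cos (A + θ) : ℝ) : ℂ) * ((6 * rav (st H f) (1, 0) : ℝ) : ℂ) +
      ((2 * Real.cos (A + 2 * θ) : ℝ) : ℂ) * ((6 * rav (st H f) (1, 1) : ℝ) : ℂ) +
      z ^ 3 * 1 * ((6 * rav (st H f) (2, 0) : ℝ) : ℂ)).re =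
      6 + 2 * Real.cos (A + θ) * (6 * rav (st H f) (1, 0)) +
      2 * Real.cos (A + 2 * θ) * (6 * rav (st H f) (1, 1)) +
      (z ^ 3).re * (6 * rav (st H f) (2, 0)) := by
    rw [mul_one, ← Complex.ofReal_mul, ← Complex.ofReal_mul, Complex.add_re, Complex.add_re,
      Complex.add_re, Complex.ofReal_re, Complex.ofReal_re, Complex.re_mul_ofReal]
    norm_num
  rw [hfin, c3]
  ring

private theorem consst_nonneg (H : Mat) (hH : 0 < H.det) (f : L2) (hf : ‖f‖ = 1) (θ : ℝ)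
    (hθ : cexp (θ * I) ^ 6 = 1) :
    0 ≤ 1 + 2 * rav (st H f) (1, 0) * Real.cos (Real.pi * (1 / H.det) + θ) +
        2 * rav (st H f) (1, 1) * Real.cos (Real.pi * (1 / H.det) + 2 * θ) +
        Real.cos (3 * θ) * rav (st H f) (2, 0) := by
  have h := consst_norm H hH f hf θ hθ
  have := sq_nonneg ‖consst_v H f (cexp (θ * I))‖
  linarith

private theorem consst_root (θ : ℝ) (m : ℤ) (h : 6 * θ = m * (2 * Real.pi)) :
    cexp (θ * I) ^ 6 = 1 := by
  rw [← Complex.exp_nat_mul]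
  have : ((6 : ℕ) : ℂ) * (θ * I) = m * (2 * Real.pi * I) := by
    have h2 : (6 : ℂ) * θ = m * (2 * Real.pi) := by exact_mod_cast h
    push_cast
    linear_combination I * h2
  rw [this]
  exact Complex.exp_int_mul_two_pi_mul_I m

private theorem consst_abs (H : Mat) (f : L2) (hf : ‖f‖ = 1) (k : ℤ × ℤ) :
    |rav (st H f) k| ≤ 1 := by
  unfold rav
  have h1 := abs_le.1 (abs_st_le H f hf k)
  have h2 := abs_le.1 (abs_st_le H f hf (e3 k))
  have h3 := abs_le.1 (abs_st_le H f hf (e3.symm k))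
  rw [abs_le]
  constructor
  · linarith [h1.1, h2.1, h3.1]
  · linarith [h1.2, h2.2, h3.2]

/-- For complex numbers `c_j`, `‖∑ c_j ρ(w_j) f‖² ≥ 0`.  With `c_j = ω^(mj)`, `ω = exp(iπ/3)`:
`‖v‖² = 6 (1 + 2 s1 cos(πδ + πm/3) + 2 s3 cos(πδ + 2πm/3) + (-1)^m s4)`
(`w_j ∧ w_{j+1} = w_j ∧ w_{j+2} = 1`, `w_{j+1} - w_j = w_{j+2}`, use `inner_zet`; the sums
`∑_j ⟪f, ρ(w_j) f⟫` etc. are real because `w_{j+3} = -w_j`).
For `c0` use in addition the Cauchy-Schwarz inequality `|⟪f, v⟫|² ≤ ‖v‖²` with `c_j = 1`: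
`⟪f, v⟫ = 6 s1`. -/
theorem cons_st (H : Mat) (hH : 0 < H.det) (f : L2) (hf : ‖f‖ = 1) :
    Cons (1 / H.det) (rav (st H f) (1, 0)) (rav (st H f) (1, 1)) (rav (st H f) (2, 0)) := by
  set δ : ℝ := 1 / H.det with hδ
  have key := consst_nonneg H hH f hf
  rw [← hδ] at key
  refine ⟨consst_abs H f hf _, consst_abs H f hf _, consst_abs H f hf _, ?_, ?_, ?_, ?_, ?_, ?_⟩
  · have hz : cexp ((0 : ℝ) * I) = 1 := by simp
    have h := consst_norm H hH f hf 0 (by rw [hz]; norm_num)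
    rw [← hδ] at h
    have hin : ⟪f, consst_v H f (cexp ((0 : ℝ) * I))⟫ = ((6 * rav (st H f) (1, 0) : ℝ) : ℂ) := by
      rw [hz, ← consst_s1]
      unfold consst_v
      rw [inner_sum]
      simp only [inner_smul_right, Fin.sum_univ_six]
      simp [w6]
    have hcs : ‖⟪f, consst_v H f (cexp ((0 : ℝ) * I))⟫‖ ≤
        ‖f‖ * ‖consst_v H f (cexp ((0 : ℝ) * I))‖ := norm_inner_le_norm _ _
    rw [hin, hf, one_mul, Complex.norm_real, Real.norm_eq_abs] at hcs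
    have h2 : (6 * rav (st H f) (1, 0)) ^ 2 ≤ ‖consst_v H f (cexp ((0 : ℝ) * I))‖ ^ 2 := by
      rw [← sq_abs]
      exact pow_le_pow_left₀ (abs_nonneg _) hcs 2
    rw [h] at h2
    simp only [add_zero, mul_zero, Real.cos_zero] at h2
    linarith
  · have h := key (-(Real.pi / 3)) (consst_root _ (-1) (by push_cast; ring))
    have e1 : Real.pi * δ + -(Real.pi / 3) = Real.pi * δ - Real.pi / 3 := by ring
    have e2 : Real.pi * δ + 2 * -(Real.pi / 3) = Real.pi * δ - 2 * Real.pi / 3 := by ring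
    have e3' : Real.cos (3 * -(Real.pi / 3)) = -1 := by
      rw [show 3 * -(Real.pi / 3) = -Real.pi by ring, Real.cos_neg, Real.cos_pi]
    rw [e1, e2, e3'] at h
    linarith
  · have h := key (-(2 * Real.pi / 3)) (consst_root _ (-2) (by push_cast; ring))
    have e1 : Real.pi * δ + -(2 * Real.pi / 3) = Real.pi * δ - 2 * Real.pi / 3 := by ring
    have e2 : Real.cos (Real.pi * δ + 2 * -(2 * Real.pi / 3)) =
        Real.cos (Real.pi * δ + 2 * Real.pi / 3) := by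
      rw [← Real.cos_add_two_pi (Real.pi * δ + 2 * -(2 * Real.pi / 3))]
      congr 1
      ring
    have e3' : Real.cos (3 * -(2 * Real.pi / 3)) = 1 := by
      rw [show 3 * -(2 * Real.pi / 3) = -(2 * Real.pi) by ring, Real.cos_neg, Real.cos_two_pi]
    rw [e1, e2, e3'] at h
    linarith
  · have h := key Real.pi (consst_root _ 3 (by push_cast; ring))
    have e3' : Real.cos (3 * Real.pi) = -1 := by
      rw [show 3 * Real.pi = Real.pi + 2 * Real.pi by ring, Real.cos_add_two_pi, Real.cos_pi]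
    rw [Real.cos_add_pi, Real.cos_add_two_pi, e3'] at h
    linarith
  · have h := key (2 * Real.pi / 3) (consst_root _ 2 (by push_cast; ring))
    have e2 : Real.cos (Real.pi * δ + 2 * (2 * Real.pi / 3)) =
        Real.cos (Real.pi * δ - 2 * Real.pi / 3) := by
      rw [← Real.cos_add_two_pi (Real.pi * δ - 2 * Real.pi / 3)]
      congr 1
      ring
    have e3' : Real.cos (3 * (2 * Real.pi / 3)) = 1 := by
      rw [show 3 * (2 * Real.pi / 3) = 2 * Real.pi by ring, Real.cos_two_pi]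
    rw [e2, e3'] at h
    linarith
  · have h := key (Real.pi / 3) (consst_root _ 1 (by push_cast; ring))
    have e2 : Real.pi * δ + 2 * (Real.pi / 3) = Real.pi * δ + 2 * Real.pi / 3 := by ring
    have e3' : Real.cos (3 * (Real.pi / 3)) = -1 := by
      rw [show 3 * (Real.pi / 3) = Real.pi by ring, Real.cos_pi]
    rw [e2, e3'] at h
    linarith

end MP7e122f.R
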