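import Pool.Agent.Lib.MP_7e122f_anR.FarL

namespace MP7e122f.R

private lemma far_summ {f : ℤ × ℤ → ℝ} (F : Finset (ℤ × ℤ)) (hf : Summable f) :
    Summable fun k => if k ∈ F then 0 else f k := by
  refine (hf.indicator ((F : Set (ℤ × ℤ))ᶜ)).congr fun k => ?_
  by_cases hk : k ∈ F <;> simp [hk, Set.indicator]

private lemma far_F7_fwd : ∀ k ∈ F7, e3 k ∈ F7 := by
  unfold F7 S1 S3 e3
  decide

private lemma far_e3_cube (k : ℤ × ℤ) : e3 (e3 (e3 k)) = k := by
  obtain ⟨m, n⟩ := k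
  simp only [e3, Equiv.coe_fn_mk]
  ext
  · simp only
    ring
  · simp only
    ring

private lemma far_F7_iff (k : ℤ × ℤ) : e3 k ∈ F7 ↔ k ∈ F7 := by
  constructor
  · intro h
    have := far_F7_fwd _ (far_F7_fwd _ h)
    rwa [far_e3_cube] at this
  · exact far_F7_fwd k

private lemma far_summable_e3 (f : ℤ × ℤ → ℝ) (hf : Summable f) :
    Summable fun k => f (e3 k) := (Equiv.summable_iff e3).2 hf

private lemma far_tsum_e3 (f : ℤ × ℤ → ℝ) : ∑' k, f (e3 k) = ∑' k, f k := Equiv.tsum_eq e3 f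

private lemma far_disj : Disjoint F7 S4 := by
  unfold F7 S1 S3 S4
  decide

private lemma far_F19 : F19 = F7 ∪ S4 := rfl

/-- The contribution of everything from the third shell on (`k ∉ F7`).

`∑_{k ∉ F7} (w Φ_ν - wH Φ_0) = ∑ (w - wH) Φ_0 + ∑ (w - wH)(Φ_ν - Φ_0) + ∑ wH (Φ_ν - Φ_0)`.
The first sum is `S4` (where `Φ_0` is constant) plus the rest (`hR0`), the second is bounded by
`fam_lip` and `hR1`.  In the third the first order term vanishes: with
`g_i(k) = U(u_i ∧ k)(Φ_0(k+u_i) - Φ_0(k-u_i))` one has `g_{i+1}(e3 k) = g_i(k)`, and `wH`, `F7`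
are invariant under `e3`, so `∑_{k ∉ F7} wH g_i` does not depend on `i`; and `β1+β2+β3 = 0`.
The second order term is bounded by `fam_second` and `hR2`. -/
theorem far_part {δ y A1 A2 A3 t1 t2 t3 ν R0 R1 R2 : ℝ} {Φ : ℝ → ℤ × ℤ → ℝ}
    (hs : Real.sin (Real.pi * δ) ≠ 0) (hy : 0 < y)
    (h : Fam δ (t2 - t3) (t3 - t1) (t1 - t2) Φ) (h12 : t2 ≤ t1) (h23 : t3 ≤ t2)
    (hw : Summable (cc A3 A1 A2)) (hwH : Summable (cc y y y))
    (hR0 : |∑' k, (if k ∈ F19 then 0 else (cc A3 A1 A2 k - cc y y y k) * Φ 0 k)| ≤ R0)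
    (hS1 : Summable fun k => |cc A3 A1 A2 k - cc y y y k| * Wb (t2 - t3) (t1 - t3) (t1 - t2) k)
    (hR1 : ∑' k, (if k ∈ F7 then 0 else
      |cc A3 A1 A2 k - cc y y y k| * Wb (t2 - t3) (t1 - t3) (t1 - t2) k) ≤ R1)
    (hS2 : Summable fun k => cc y y y k * (Wb (t2 - t3) (t1 - t3) (t1 - t2) k *
      (Wb (t2 - t3) (t1 - t3) (t1 - t2) k + 8 * (t1 - t3))))
    (hR2 : ∑' k, (if k ∈ F7 then 0 else
      cc y y y k * (Wb (t2 - t3) (t1 - t3) (t1 - t2) k *
      (Wb (t2 - t3) (t1 - t3) (t1 - t2) k + 8 * (t1 - t3)))) ≤ R2) :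
    |∑' k, (if k ∈ F7 then 0 else (cc A3 A1 A2 k * Φ ν k - cc y y y k * Φ 0 k))
      - (∑ k ∈ S4, (cc A3 A1 A2 k - cc y y y k)) * Φ 0 (2, 0)|
      ≤ R0 + |ν| * R1 + ν ^ 2 / 2 * R2 := by
  have hb1 : |t2 - t3| ≤ t2 - t3 := by rw [abs_of_nonneg (by linarith)]
  have hb2 : |t3 - t1| ≤ t1 - t3 := by rw [abs_of_nonpos (by linarith)]; linarith
  have hb3 : |t1 - t2| ≤ t1 - t2 := by rw [abs_of_nonneg (by linarith)]
  have hΦ1 : ∀ x k, |Φ x k| ≤ 1 := fun x k => (h.adm x).1 k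
  have L := fun x k => fam_lip hs h hb1 hb2 hb3 x k
  have Q := fun x k => fam_second (b := t1 - t3) hs h hb1 hb2 hb3 (by linarith) le_rfl
    (by linarith) x k
  set w := cc A3 A1 A2 with hwd
  set wH := cc y y y with hwHd
  have wH0 : ∀ k, 0 ≤ wH k := fun k => (Real.exp_pos _).le
  set W := Wb (t2 - t3) (t1 - t3) (t1 - t2) with hW
  set G : ℤ × ℤ → ℝ := fun k => 2 * ((t2 - t3) * UU δ k.2 * (Φ 0 (k + (1, 0)) - Φ 0 (k - (1, 0)))
      + (t3 - t1) * UU δ (-(k.1 + k.2)) * (Φ 0 (k + (-1, 1)) - Φ 0 (k - (-1, 1)))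
      + (t1 - t2) * UU δ k.1 * (Φ 0 (k + (0, -1)) - Φ 0 (k - (0, -1)))) with hG
  have Q' : ∀ x k, |Φ x k - Φ 0 k - x * G k| ≤ x ^ 2 / 2 * (W k * (W k + 8 * (t1 - t3))) := Q
  -- summability
  have s0 : Summable fun k => (w k - wH k) * Φ 0 k := by
    refine Summable.of_norm_bounded (g := fun k => |w k - wH k|) (hw.sub hwH).abs fun k => ?_
    rw [norm_mul, Real.norm_eq_abs, Real.norm_eq_abs]
    exact mul_le_of_le_one_right (abs_nonneg _) (hΦ1 0 k)
  have s1b : ∀ x k, |(w k - wH k) * (Φ x k - Φ 0 k)| ≤ |x| * (|w k - wH k| * W k) := by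
    intro x k
    rw [abs_mul]
    calc |w k - wH k| * |Φ x k - Φ 0 k| ≤ |w k - wH k| * (|x| * W k) :=
          mul_le_mul_of_nonneg_left (L x k) (abs_nonneg _)
      _ = _ := by ring
  have s1 : Summable fun k => (w k - wH k) * (Φ ν k - Φ 0 k) :=
    Summable.of_norm_bounded (g := fun k => |ν| * (|w k - wH k| * W k)) (hS1.mul_left _)
      fun k => s1b ν k
  have s3b : ∀ x k, |wH k * (Φ x k - Φ 0 k - x * G k)| ≤
      x ^ 2 / 2 * (wH k * (W k * (W k + 8 * (t1 - t3)))) := by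
    intro x k
    rw [abs_mul, abs_of_nonneg (wH0 k)]
    calc wH k * |Φ x k - Φ 0 k - x * G k| ≤ wH k * (x ^ 2 / 2 * (W k * (W k + 8 * (t1 - t3)))) :=
          mul_le_mul_of_nonneg_left (Q' x k) (wH0 k)
      _ = _ := by ring
  have s3 : ∀ x, Summable fun k => wH k * (Φ x k - Φ 0 k - x * G k) := fun x =>
    Summable.of_norm_bounded (g := fun k => x ^ 2 / 2 * (wH k * (W k * (W k + 8 * (t1 - t3)))))
      (hS2.mul_left _) fun k => s3b x k
  have sd : Summable fun k => wH k * (Φ 1 k - Φ 0 k) := by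
    refine Summable.of_norm_bounded (g := fun k => 2 * wH k) (hwH.mul_left 2) fun k => ?_
    rw [norm_mul, Real.norm_eq_abs, Real.norm_eq_abs, abs_of_nonneg (wH0 k)]
    have : |Φ 1 k - Φ 0 k| ≤ 2 := by
      calc |Φ 1 k - Φ 0 k| ≤ |Φ 1 k| + |Φ 0 k| := abs_sub _ _
        _ ≤ 2 := by linarith [hΦ1 1 k, hΦ1 0 k]
    nlinarith [wH0 k]
  have sG : Summable fun k => wH k * G k := by
    refine (sd.sub (s3 1)).congr fun k => ?_
    ring
  -- the first order term vanishes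
  have zG : ∑' k, (if k ∈ F7 then 0 else wH k * G k) = 0 := by
    set f : ℤ × ℤ → ℝ := fun k => if k ∈ F7 then 0 else wH k * G k with hf
    have sf : Summable f := far_summ F7 sG
    have sf1 : Summable fun k => f (e3 k) := far_summable_e3 f sf
    have sf2 : Summable fun k => f (e3 (e3 k)) := far_summable_e3 (fun k => f (e3 k)) sf1
    have q1 : ∑' k, f (e3 k) = ∑' k, f k := far_tsum_e3 f
    have q2 : ∑' k, f (e3 (e3 k)) = ∑' k, f (e3 k) := far_tsum_e3 (fun k => f (e3 k))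
    have wHe : ∀ k, wH (e3 k) = wH k := fun k => cc_e3 y y y k
    have r : ∀ k, Φ 0 (e3 k) = Φ 0 k := h.rot
    have Ge : ∀ k, G (e3 k) = 2 * ((t2 - t3) * (UU δ k.1 * (Φ 0 (k + (0, -1)) - Φ 0 (k - (0, -1))))
        + (t3 - t1) * (UU δ k.2 * (Φ 0 (k + (1, 0)) - Φ 0 (k - (1, 0))))
        + (t1 - t2) * (UU δ (-(k.1 + k.2)) * (Φ 0 (k + (-1, 1)) - Φ 0 (k - (-1, 1))))) := by
      intro k
      have a1 : e3 k + (1, 0) = e3 (k + (0, -1)) := by
        simp only [e3, Equiv.coe_fn_mk]; ext <;> simp; ring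
      have a2 : e3 k - (1, 0) = e3 (k - (0, -1)) := by
        simp only [e3, Equiv.coe_fn_mk]; ext <;> simp; ring
      have a3 : e3 k + (-1, 1) = e3 (k + (1, 0)) := by
        simp only [e3, Equiv.coe_fn_mk]; ext <;> simp; ring
      have a4 : e3 k - (-1, 1) = e3 (k - (1, 0)) := by
        simp only [e3, Equiv.coe_fn_mk]; ext <;> simp; ring
      have a5 : e3 k + (0, -1) = e3 (k + (-1, 1)) := by
        simp only [e3, Equiv.coe_fn_mk]; ext <;> simp <;> ring
      have a6 : e3 k - (0, -1) = e3 (k - (-1, 1)) := by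
        simp only [e3, Equiv.coe_fn_mk]; ext <;> simp <;> ring
      have c1 : (e3 k).2 = k.1 := rfl
      have c2 : (-((e3 k).1 + (e3 k).2)) = k.2 := by
        simp only [e3, Equiv.coe_fn_mk]; ring
      have c3 : (e3 k).1 = -(k.1 + k.2) := by
        simp only [e3, Equiv.coe_fn_mk]; ring
      simp only [hG]
      rw [a1, a2, a3, a4, a5, a6, r, r, r, r, r, r, c2, c1, c3]
      ring
    have z : ∀ k, f k + f (e3 k) + f (e3 (e3 k)) = 0 := by
      intro k
      simp only [hf, far_F7_iff, wHe]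
      by_cases hk : k ∈ F7
      · simp [hk]
      · simp only [hk, if_false]
        have g2 := Ge (e3 k)
        have a1 : e3 k + (1, 0) = e3 (k + (0, -1)) := by
          simp only [e3, Equiv.coe_fn_mk]; ext <;> simp; ring
        have a2 : e3 k - (1, 0) = e3 (k - (0, -1)) := by
          simp only [e3, Equiv.coe_fn_mk]; ext <;> simp; ring
        have a3 : e3 k + (-1, 1) = e3 (k + (1, 0)) := by
          simp only [e3, Equiv.coe_fn_mk]; ext <;> simp; ring
        have a4 : e3 k - (-1, 1) = e3 (k - (1, 0)) := by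
          simp only [e3, Equiv.coe_fn_mk]; ext <;> simp; ring
        have a5 : e3 k + (0, -1) = e3 (k + (-1, 1)) := by
          simp only [e3, Equiv.coe_fn_mk]; ext <;> simp <;> ring
        have a6 : e3 k - (0, -1) = e3 (k - (-1, 1)) := by
          simp only [e3, Equiv.coe_fn_mk]; ext <;> simp <;> ring
        have c1 : (e3 k).2 = k.1 := rfl
        have c2 : (-((e3 k).1 + (e3 k).2)) = k.2 := by
          simp only [e3, Equiv.coe_fn_mk]; ring
        have c3 : (e3 k).1 = -(k.1 + k.2) := by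
          simp only [e3, Equiv.coe_fn_mk]; ring
        rw [a1, a2, a3, a4, a5, a6, r, r, r, r, r, r, c2, c1, c3] at g2
        rw [g2, Ge k]
        simp only [hG]
        ring
    have t := (sf.tsum_add sf1)
    have t2 := ((sf.add sf1).tsum_add sf2)
    rw [t, q2, q1] at t2
    have : ∑' k, (f k + f (e3 k) + f (e3 (e3 k))) = 0 := by
      simp only [z, tsum_zero]
    linarith
  -- the four parts
  have i0 := (far_summ F7 s0).hasSum
  have i1 := (far_summ F7 s1).hasSum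
  have iG := (far_summ F7 sG).hasSum
  have i3 := (far_summ F7 (s3 ν)).hasSum
  have tot := ((i0.add i1).add (iG.mul_left ν)).add i3
  have tot' : ∑' k, (if k ∈ F7 then 0 else (w k * Φ ν k - wH k * Φ 0 k)) =
      ∑' k, (if k ∈ F7 then 0 else (w k - wH k) * Φ 0 k)
      + ∑' k, (if k ∈ F7 then 0 else (w k - wH k) * (Φ ν k - Φ 0 k))
      + ν * ∑' k, (if k ∈ F7 then 0 else wH k * G k)
      + ∑' k, (if k ∈ F7 then 0 else wH k * (Φ ν k - Φ 0 k - ν * G k)) := by
    rw [← tot.tsum_eq]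
    refine tsum_congr fun k => ?_
    by_cases hk : k ∈ F7
    · simp [hk]
    · simp only [hk, if_false]
      ring
  rw [tot', zG]
  -- part 0
  have p0 : ∑' k, (if k ∈ F7 then 0 else (w k - wH k) * Φ 0 k) =
      ∑' k, (if k ∈ F19 then 0 else (w k - wH k) * Φ 0 k)
        + (∑ k ∈ S4, (w k - wH k)) * Φ 0 (2, 0) := by
    have r : ∀ k, Φ 0 (e3 k) = Φ 0 k := h.rot
    have n : ∀ k, Φ 0 (-k) = Φ 0 k := fun k => h.neg 0 k
    have q1 : Φ 0 (-2, 2) = Φ 0 (2, 0) := by rw [← r (2, 0)]; rfl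
    have q2 : Φ 0 (0, -2) = Φ 0 (2, 0) := by rw [← r (2, 0), ← r (e3 (2, 0))]; rfl
    have q3 : Φ 0 (0, 2) = Φ 0 (2, 0) := by rw [← q2, ← n (0, -2)]; rfl
    have q4 : Φ 0 (2, -2) = Φ 0 (2, 0) := by rw [← q1, ← n (-2, 2)]; rfl
    have q5 : Φ 0 (-2, 0) = Φ 0 (2, 0) := by rw [← n (2, 0)]; rfl
    have qS : ∀ k ∈ S4, Φ 0 k = Φ 0 (2, 0) := by
      intro k hk
      simp only [S4, Finset.mem_insert, Finset.mem_singleton] at hk
      rcases hk with rfl | rfl | rfl | rfl | rfl | rfl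
      · rfl
      · exact q5
      · exact q3
      · exact q2
      · exact q4
      · exact q1
    have hS4 : HasSum (fun k => if k ∈ S4 then (w k - wH k) * Φ 0 k else 0)
        (∑ k ∈ S4, (if k ∈ S4 then (w k - wH k) * Φ 0 k else 0)) :=
      hasSum_sum_of_ne_finset_zero fun k hk => if_neg hk
    have j := ((far_summ F19 s0).hasSum.add hS4)
    have j2 : (∑ k ∈ S4, (w k - wH k)) * Φ 0 (2, 0) =
        ∑ k ∈ S4, (if k ∈ S4 then (w k - wH k) * Φ 0 k else 0) := by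
      rw [Finset.sum_mul]
      refine Finset.sum_congr rfl fun k hk => ?_
      rw [if_pos hk, qS k hk]
    rw [j2, ← j.tsum_eq]
    refine tsum_congr fun k => ?_
    rw [far_F19]
    by_cases hk : k ∈ F7
    · have : k ∉ S4 := Finset.disjoint_left.1 far_disj hk
      simp [hk, this]
    · by_cases hk4 : k ∈ S4
      · simp [hk, hk4]
      · simp [hk, hk4]
  rw [p0]
  -- part 1
  have p1 : |∑' k, (if k ∈ F7 then 0 else (w k - wH k) * (Φ ν k - Φ 0 k))| ≤ |ν| * R1 := by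
    have := tsum_of_norm_bounded (f := fun k => if k ∈ F7 then 0 else
      (w k - wH k) * (Φ ν k - Φ 0 k)) ((far_summ F7 hS1).hasSum.mul_left |ν|) (by
        intro k
        by_cases hk : k ∈ F7
        · simp [hk]
        · simp only [hk, if_false]
          exact s1b ν k)
    exact this.trans (mul_le_mul_of_nonneg_left hR1 (abs_nonneg _))
  have p3 : |∑' k, (if k ∈ F7 then 0 else wH k * (Φ ν k - Φ 0 k - ν * G k))| ≤
      ν ^ 2 / 2 * R2 := by
    have := tsum_of_norm_bounded (f := fun k => if k ∈ F7 then 0 else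
      wH k * (Φ ν k - Φ 0 k - ν * G k)) ((far_summ F7 hS2).hasSum.mul_left (ν ^ 2 / 2)) (by
        intro k
        by_cases hk : k ∈ F7
        · simp [hk]
        · simp only [hk, if_false]
          exact s3b ν k)
    exact this.trans (mul_le_mul_of_nonneg_left hR2 (by positivity))
  rw [abs_le] at hR0 p1 p3 ⊢
  constructor <;> linarith [hR0.1, hR0.2, p1.1, p1.2, p3.1, p3.2]

end MP7e122f.R
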