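import Pool.Agent.Lib.MP_7e122f_anR.UUf

namespace MP7e122f.R

/-- the derivative of `Φ ν k` -/
private noncomputable def shell1_d (δ β1 β2 β3 : ℝ) (Φ : ℝ → ℤ × ℤ → ℝ) (ν : ℝ) (k : ℤ × ℤ) : ℝ :=
  2 * (β1 * UU δ k.2 * (Φ ν (k + (1, 0)) - Φ ν (k - (1, 0)))
      + β2 * UU δ (-(k.1 + k.2)) * (Φ ν (k + (-1, 1)) - Φ ν (k - (-1, 1)))
      + β3 * UU δ k.1 * (Φ ν (k + (0, -1)) - Φ ν (k - (0, -1))))

private theorem shell1_mul {c x C X : ℝ} (hc : |c| ≤ C) (hx : |x| ≤ X) : |c * x| ≤ C * X := by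
  rw [abs_mul]
  exact mul_le_mul hc hx (abs_nonneg _) ((abs_nonneg _).trans hc)

private theorem shell1_add {x y X Y : ℝ} (hx : |x| ≤ X) (hy : |y| ≤ Y) : |x + y| ≤ X + Y :=
  (abs_add_le x y).trans (add_le_add hx hy)

private theorem shell1_diff {δ β1 β2 β3 : ℝ} {Φ : ℝ → ℤ × ℤ → ℝ}
    (h : Fam δ β1 β2 β3 Φ) (ν : ℝ) (k l : ℤ × ℤ) : |Φ ν k - Φ ν l| ≤ 2 := by
  have h1 := abs_le.1 ((h.adm ν).1 k)
  have h2 := abs_le.1 ((h.adm ν).1 l)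
  rw [abs_le]
  constructor <;> linarith [h1.1, h1.2, h2.1, h2.2]

private theorem shell1_neg {δ β1 β2 β3 : ℝ} {Φ : ℝ → ℤ × ℤ → ℝ}
    (h : Fam δ β1 β2 β3 Φ) (ν : ℝ) (k l : ℤ × ℤ) (e : -k = l) : Φ ν l = Φ ν k := by
  rw [← e]
  exact h.neg ν k

private theorem shell1_rot {δ β1 β2 β3 : ℝ} {Φ : ℝ → ℤ × ℤ → ℝ}
    (h : Fam δ β1 β2 β3 Φ) (k l : ℤ × ℤ) (e : e3 k = l) : Φ 0 l = Φ 0 k := by
  rw [← e]
  exact h.rot k

/-- general bound of the derivative -/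
private theorem shell1_bd {δ β1 β2 β3 : ℝ} {Φ : ℝ → ℤ × ℤ → ℝ}
    (h : Fam δ β1 β2 β3 Φ) (ν : ℝ) (k : ℤ × ℤ) {B1 B2 B3 c1 c2 c3 : ℝ}
    (n1 n2 n3 : ℤ) (hn1 : k.2 = n1) (hn2 : -(k.1 + k.2) = n2) (hn3 : k.1 = n3)
    (e1 : |β1| ≤ B1) (e2 : |β2| ≤ B2) (e3 : |β3| ≤ B3)
    (d1 : |UU δ n1| ≤ c1) (d2 : |UU δ n2| ≤ c2) (d3 : |UU δ n3| ≤ c3) :
    |shell1_d δ β1 β2 β3 Φ ν k| ≤ 4 * (B1 * c1 + B2 * c2 + B3 * c3) := by
  rw [← hn1] at d1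
  rw [← hn2] at d2
  rw [← hn3] at d3
  have f1 := shell1_mul (shell1_mul e1 d1) (shell1_diff h ν (k + (1, 0)) (k - (1, 0)))
  have f2 := shell1_mul (shell1_mul e2 d2) (shell1_diff h ν (k + (-1, 1)) (k - (-1, 1)))
  have f3 := shell1_mul (shell1_mul e3 d3) (shell1_diff h ν (k + (0, -1)) (k - (0, -1)))
  rw [abs_le] at f1 f2 f3
  unfold shell1_d
  rw [abs_le]
  constructor <;> linarith [f1.1, f1.2, f2.1, f2.2, f3.1, f3.2]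

/-- the second derivative of `F₁` divided by `8` -/
private noncomputable def shell1_G (t1 t2 t3 U : ℝ) (f : ℤ × ℤ → ℝ) : ℝ :=
  -2 * Dq t1 t2 t3 * t1 * f (1, 0) + -2 * Dq t1 t2 t3 * t2 * f (-1, 1)
    + -2 * Dq t1 t2 t3 * t3 * f (0, -1)
    + Dq t1 t2 t3 * t1 * f (-1, 2) + Dq t1 t2 t3 * t2 * f (-1, -1)
    + Dq t1 t2 t3 * t3 * f (2, -1)
    + U * ((t1 - t2) * (t2 * (t2 - t3) - t1 * (t3 - t1))
        - (t3 - t1) * (t1 * (t1 - t2) - t3 * (t2 - t3))) * f (2, 0)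
    + U * ((t2 - t3) * (t3 * (t3 - t1) - t2 * (t1 - t2))
        - (t1 - t2) * (t2 * (t2 - t3) - t1 * (t3 - t1))) * f (-2, 2)
    + U * ((t3 - t1) * (t1 * (t1 - t2) - t3 * (t2 - t3))
        - (t2 - t3) * (t3 * (t3 - t1) - t2 * (t1 - t2))) * f (0, -2)
    + (t3 * (t3 - t1) - t2 * (t1 - t2)) * (t3 - t1) * f (-2, 3)
    + (t1 * (t1 - t2) - t3 * (t2 - t3)) * (t1 - t2) * f (-1, -2)
    + (t2 * (t2 - t3) - t1 * (t3 - t1)) * (t2 - t3) * f (3, -1)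
    + -((t3 * (t3 - t1) - t2 * (t1 - t2)) * (t1 - t2)) * f (-1, 3)
    + -((t1 * (t1 - t2) - t3 * (t2 - t3)) * (t2 - t3)) * f (-2, -1)
    + -((t2 * (t2 - t3) - t1 * (t3 - t1)) * (t3 - t1)) * f (3, -2)

/-- the first derivative of `F₁` divided by `4` -/
private noncomputable def shell1_H (t1 t2 t3 : ℝ) (f : ℤ × ℤ → ℝ) : ℝ :=
  (t3 * (t3 - t1) - t2 * (t1 - t2)) * (f (1, 0) - f (-1, 2))
    + (t1 * (t1 - t2) - t3 * (t2 - t3)) * (f (-1, 1) - f (-1, -1))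
    + (t2 * (t2 - t3) - t1 * (t3 - t1)) * (f (0, -1) - f (2, -1))

private theorem shell1_G_deriv {δ β1 β2 β3 : ℝ} {Φ : ℝ → ℤ × ℤ → ℝ}
    (h : Fam δ β1 β2 β3 Φ) (t1 t2 t3 U ν : ℝ) :
    HasDerivAt (fun ν => shell1_G t1 t2 t3 U (Φ ν))
      (shell1_G t1 t2 t3 U (shell1_d δ β1 β2 β3 Φ ν)) ν := by
  have hd : ∀ k, HasDerivAt (fun ν => Φ ν k) (shell1_d δ β1 β2 β3 Φ ν k) ν := fun k => h.deriv ν k
  unfold shell1_G
  exact (((((((((((((((hd _).const_mul _).fun_add ((hd _).const_mul _)).fun_add ((hd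
    _).const_mul _)).fun_add ((hd _).const_mul _)).fun_add ((hd _).const_mul _)).fun_add ((hd
    _).const_mul _)).fun_add ((hd _).const_mul _)).fun_add ((hd _).const_mul _)).fun_add ((hd
    _).const_mul _)).fun_add ((hd _).const_mul _)).fun_add ((hd _).const_mul _)).fun_add ((hd
    _).const_mul _)).fun_add ((hd _).const_mul _)).fun_add ((hd _).const_mul _)).fun_add ((hd
    _).const_mul _)

private theorem shell1_H_deriv {δ β1 β2 β3 : ℝ} {Φ : ℝ → ℤ × ℤ → ℝ}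
    (h : Fam δ β1 β2 β3 Φ) (t1 t2 t3 ν : ℝ) :
    HasDerivAt (fun ν => shell1_H t1 t2 t3 (Φ ν))
      (shell1_H t1 t2 t3 (shell1_d δ β1 β2 β3 Φ ν)) ν := by
  have hd : ∀ k, HasDerivAt (fun ν => Φ ν k) (shell1_d δ β1 β2 β3 Φ ν k) ν := fun k => h.deriv ν k
  unfold shell1_H
  exact ((((hd _).fun_sub (hd _)).const_mul _).fun_add (((hd _).fun_sub (hd _)).const_mul _)).fun_add
    (((hd _).fun_sub (hd _)).const_mul _)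

/-- `F₁' = 4 H` -/
private theorem shell1_first {δ t1 t2 t3 : ℝ} {Φ : ℝ → ℤ × ℤ → ℝ}
    (hs : Real.sin (Real.pi * δ) ≠ 0)
    (h : Fam δ (t2 - t3) (t3 - t1) (t1 - t2) Φ) (ν : ℝ) :
    2 * (t1 * shell1_d δ (t2 - t3) (t3 - t1) (t1 - t2) Φ ν (1, 0)
      + t2 * shell1_d δ (t2 - t3) (t3 - t1) (t1 - t2) Φ ν (-1, 1)
      + t3 * shell1_d δ (t2 - t3) (t3 - t1) (t1 - t2) Φ ν (0, -1)) =
    4 * shell1_H t1 t2 t3 (Φ ν) := by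
  have n1 : Φ ν (-1, 0) = Φ ν (1, 0) := shell1_neg h ν (1, 0) _ (by decide)
  have n2 : Φ ν (1, -1) = Φ ν (-1, 1) := shell1_neg h ν (-1, 1) _ (by decide)
  have n3 : Φ ν (0, 1) = Φ ν (0, -1) := shell1_neg h ν (0, -1) _ (by decide)
  have m1 : Φ ν (1, -2) = Φ ν (-1, 2) := shell1_neg h ν (-1, 2) _ (by decide)
  have m2 : Φ ν (1, 1) = Φ ν (-1, -1) := shell1_neg h ν (-1, -1) _ (by decide)
  have m3 : Φ ν (-2, 1) = Φ ν (2, -1) := shell1_neg h ν (2, -1) _ (by decide)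
  have hU0 := UU_zero δ
  have hU1 := UU_one δ hs
  have hUm := UU_neg δ 1
  rw [hU1] at hUm
  have x1 : shell1_d δ (t2 - t3) (t3 - t1) (t1 - t2) Φ ν (1, 0) =
      2 * (-(t3 - t1) * (Φ ν (0, -1) - Φ ν (2, -1)) +
        (t1 - t2) * (Φ ν (-1, 1) - Φ ν (-1, -1))) := by
    show 2 * ((t2 - t3) * UU δ 0 * (Φ ν (2, 0) - Φ ν (0, 0))
      + (t3 - t1) * UU δ (-1) * (Φ ν (0, 1) - Φ ν (2, -1))
      + (t1 - t2) * UU δ 1 * (Φ ν (1, -1) - Φ ν (1, 1))) = _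
    rw [hU0, hU1, hUm, n3, n2, m2]
    ring
  have x2 : shell1_d δ (t2 - t3) (t3 - t1) (t1 - t2) Φ ν (-1, 1) =
      2 * (-(t1 - t2) * (Φ ν (1, 0) - Φ ν (-1, 2)) +
        (t2 - t3) * (Φ ν (0, -1) - Φ ν (2, -1))) := by
    show 2 * ((t2 - t3) * UU δ 1 * (Φ ν (0, 1) - Φ ν (-2, 1))
      + (t3 - t1) * UU δ 0 * (Φ ν (-2, 2) - Φ ν (0, 0))
      + (t1 - t2) * UU δ (-1) * (Φ ν (-1, 0) - Φ ν (-1, 2))) = _
    rw [hU0, hU1, hUm, n3, m3, n1]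
    ring
  have x3 : shell1_d δ (t2 - t3) (t3 - t1) (t1 - t2) Φ ν (0, -1) =
      2 * (-(t2 - t3) * (Φ ν (-1, 1) - Φ ν (-1, -1)) +
        (t3 - t1) * (Φ ν (1, 0) - Φ ν (-1, 2))) := by
    show 2 * ((t2 - t3) * UU δ (-1) * (Φ ν (1, -1) - Φ ν (-1, -1))
      + (t3 - t1) * UU δ 1 * (Φ ν (-1, 0) - Φ ν (1, -2))
      + (t1 - t2) * UU δ 0 * (Φ ν (0, -2) - Φ ν (0, 0))) = _
    rw [hU0, hU1, hUm, n2, n1, m1]
    ring
  rw [x1, x2, x3]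
  unfold shell1_H
  ring

/-- `F₁'' = 8 G` -/
private theorem shell1_second {δ t1 t2 t3 : ℝ} {Φ : ℝ → ℤ × ℤ → ℝ}
    (hs : Real.sin (Real.pi * δ) ≠ 0)
    (h : Fam δ (t2 - t3) (t3 - t1) (t1 - t2) Φ) (ν : ℝ) :
    4 * shell1_H t1 t2 t3 (shell1_d δ (t2 - t3) (t3 - t1) (t1 - t2) Φ ν) =
    8 * shell1_G t1 t2 t3 (UU δ 2) (Φ ν) := by
  have n1 : Φ ν (-1, 0) = Φ ν (1, 0) := shell1_neg h ν (1, 0) _ (by decide)
  have n2 : Φ ν (1, -1) = Φ ν (-1, 1) := shell1_neg h ν (-1, 1) _ (by decide)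
  have n3 : Φ ν (0, 1) = Φ ν (0, -1) := shell1_neg h ν (0, -1) _ (by decide)
  have m1 : Φ ν (1, -2) = Φ ν (-1, 2) := shell1_neg h ν (-1, 2) _ (by decide)
  have m2 : Φ ν (1, 1) = Φ ν (-1, -1) := shell1_neg h ν (-1, -1) _ (by decide)
  have m3 : Φ ν (-2, 1) = Φ ν (2, -1) := shell1_neg h ν (2, -1) _ (by decide)
  have q1 : Φ ν (-2, 0) = Φ ν (2, 0) := shell1_neg h ν (2, 0) _ (by decide)
  have q2 : Φ ν (2, -2) = Φ ν (-2, 2) := shell1_neg h ν (-2, 2) _ (by decide)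
  have q3 : Φ ν (0, 2) = Φ ν (0, -2) := shell1_neg h ν (0, -2) _ (by decide)
  have hU0 := UU_zero δ
  have hU1 := UU_one δ hs
  have hUm := UU_neg δ 1
  rw [hU1] at hUm
  have x1 : shell1_d δ (t2 - t3) (t3 - t1) (t1 - t2) Φ ν (1, 0) =
      2 * (-(t3 - t1) * (Φ ν (0, -1) - Φ ν (2, -1)) +
        (t1 - t2) * (Φ ν (-1, 1) - Φ ν (-1, -1))) := by
    show 2 * ((t2 - t3) * UU δ 0 * (Φ ν (2, 0) - Φ ν (0, 0))
      + (t3 - t1) * UU δ (-1) * (Φ ν (0, 1) - Φ ν (2, -1))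
      + (t1 - t2) * UU δ 1 * (Φ ν (1, -1) - Φ ν (1, 1))) = _
    rw [hU0, hU1, hUm, n3, n2, m2]
    ring
  have x2 : shell1_d δ (t2 - t3) (t3 - t1) (t1 - t2) Φ ν (-1, 1) =
      2 * (-(t1 - t2) * (Φ ν (1, 0) - Φ ν (-1, 2)) +
        (t2 - t3) * (Φ ν (0, -1) - Φ ν (2, -1))) := by
    show 2 * ((t2 - t3) * UU δ 1 * (Φ ν (0, 1) - Φ ν (-2, 1))
      + (t3 - t1) * UU δ 0 * (Φ ν (-2, 2) - Φ ν (0, 0))
      + (t1 - t2) * UU δ (-1) * (Φ ν (-1, 0) - Φ ν (-1, 2))) = _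
    rw [hU0, hU1, hUm, n3, m3, n1]
    ring
  have x3 : shell1_d δ (t2 - t3) (t3 - t1) (t1 - t2) Φ ν (0, -1) =
      2 * (-(t2 - t3) * (Φ ν (-1, 1) - Φ ν (-1, -1)) +
        (t3 - t1) * (Φ ν (1, 0) - Φ ν (-1, 2))) := by
    show 2 * ((t2 - t3) * UU δ (-1) * (Φ ν (1, -1) - Φ ν (-1, -1))
      + (t3 - t1) * UU δ 1 * (Φ ν (-1, 0) - Φ ν (1, -2))
      + (t1 - t2) * UU δ 0 * (Φ ν (0, -2) - Φ ν (0, 0))) = _
    rw [hU0, hU1, hUm, n2, n1, m1]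
    ring
  have y1 : shell1_d δ (t2 - t3) (t3 - t1) (t1 - t2) Φ ν (-1, 2) =
      2 * ((t2 - t3) * UU δ 2 * (Φ ν (0, -2) - Φ ν (-2, 2))
        - (t3 - t1) * (Φ ν (-2, 3) - Φ ν (0, -1)) - (t1 - t2) * (Φ ν (-1, 1) - Φ ν (-1, 3))) := by
    show 2 * ((t2 - t3) * UU δ 2 * (Φ ν (0, 2) - Φ ν (-2, 2))
      + (t3 - t1) * UU δ (-1) * (Φ ν (-2, 3) - Φ ν (0, 1))
      + (t1 - t2) * UU δ (-1) * (Φ ν (-1, 1) - Φ ν (-1, 3))) = _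
    rw [hUm, q3, n3]
    ring
  have y2 : shell1_d δ (t2 - t3) (t3 - t1) (t1 - t2) Φ ν (-1, -1) =
      2 * ((t3 - t1) * UU δ 2 * (Φ ν (2, 0) - Φ ν (0, -2))
        - (t1 - t2) * (Φ ν (-1, -2) - Φ ν (1, 0)) - (t2 - t3) * (Φ ν (0, -1) - Φ ν (-2, -1))) := by
    show 2 * ((t2 - t3) * UU δ (-1) * (Φ ν (0, -1) - Φ ν (-2, -1))
      + (t3 - t1) * UU δ 2 * (Φ ν (-2, 0) - Φ ν (0, -2))
      + (t1 - t2) * UU δ (-1) * (Φ ν (-1, -2) - Φ ν (-1, 0))) = _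
    rw [hUm, q1, n1]
    ring
  have y3 : shell1_d δ (t2 - t3) (t3 - t1) (t1 - t2) Φ ν (2, -1) =
      2 * ((t1 - t2) * UU δ 2 * (Φ ν (-2, 2) - Φ ν (2, 0))
        - (t2 - t3) * (Φ ν (3, -1) - Φ ν (-1, 1)) - (t3 - t1) * (Φ ν (1, 0) - Φ ν (3, -2))) := by
    show 2 * ((t2 - t3) * UU δ (-1) * (Φ ν (3, -1) - Φ ν (1, -1))
      + (t3 - t1) * UU δ (-1) * (Φ ν (1, 0) - Φ ν (3, -2))
      + (t1 - t2) * UU δ 2 * (Φ ν (2, -2) - Φ ν (2, 0))) = _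
    rw [hUm, q2, n2]
    ring
  unfold shell1_H
  rw [x1, x2, x3, y1, y2, y3]
  unfold shell1_G Dq
  ring

/-- bound of the third derivative -/
private theorem shell1_third {δ t1 t2 t3 u2 u3 : ℝ} {Φ : ℝ → ℤ × ℤ → ℝ}
    (hs : Real.sin (Real.pi * δ) ≠ 0)
    (h : Fam δ (t2 - t3) (t3 - t1) (t1 - t2) Φ) (h12 : t2 ≤ t1) (h23 : t3 ≤ t2) (h3 : 0 ≤ t3)
    (hU2 : |UU δ 2| ≤ u2) (hU3 : |UU δ 3| ≤ u3) (ν : ℝ) :
    |shell1_G t1 t2 t3 (UU δ 2) (shell1_d δ (t2 - t3) (t3 - t1) (t1 - t2) Φ ν)|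
      ≤ n3v t1 t2 t3 u2 u3 := by
  have hU0 : |UU δ 0| ≤ 0 := by rw [UU_zero, abs_zero]
  have hU1 : |UU δ 1| ≤ 1 := by rw [UU_one δ hs, abs_one]
  have hUm1 : |UU δ (-1)| ≤ 1 := by rw [UU_neg, UU_one δ hs, abs_neg, abs_one]
  have hUm2 : |UU δ (-2)| ≤ u2 := by rw [UU_neg, abs_neg]; exact hU2
  have hUm3 : |UU δ (-3)| ≤ u3 := by rw [UU_neg, abs_neg]; exact hU3
  have e1 : |t2 - t3| ≤ t2 - t3 := by rw [abs_of_nonneg (by linarith)]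
  have e2 : |t3 - t1| ≤ t1 - t3 := by rw [abs_of_nonpos (by linarith)]; linarith
  have e3 : |t1 - t2| ≤ t1 - t2 := by rw [abs_of_nonneg (by linarith)]
  have hD0 : 0 ≤ Dq t1 t2 t3 := by
    unfold Dq
    nlinarith [sq_nonneg (t1 - t2), sq_nonneg (t2 - t3), sq_nonneg (t1 - t3)]
  have ht1 : 0 ≤ t1 := by linarith
  have ht2 : 0 ≤ t2 := by linarith
  have g1 : |t3 * (t3 - t1) - t2 * (t1 - t2)| ≤ ga1 t1 t2 t3 := by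
    unfold ga1
    have p1 : 0 ≤ t3 * (t1 - t3) := mul_nonneg h3 (by linarith)
    have p2 : 0 ≤ t2 * (t1 - t2) := mul_nonneg ht2 (by linarith)
    rw [abs_le]
    constructor <;> linarith
  have g2 : |t1 * (t1 - t2) - t3 * (t2 - t3)| ≤ ga2 t1 t2 t3 := le_rfl
  have g3 : |t2 * (t2 - t3) - t1 * (t3 - t1)| ≤ ga3 t1 t2 t3 := by
    unfold ga3
    have p1 : 0 ≤ t2 * (t2 - t3) := mul_nonneg ht2 (by linarith)
    have p2 : 0 ≤ t1 * (t1 - t3) := mul_nonneg ht1 (by linarith)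
    rw [abs_le]
    constructor <;> linarith
  set D := Dq t1 t2 t3 with hD
  set G1 := ga1 t1 t2 t3 with hG1
  set G2 := ga2 t1 t2 t3 with hG2
  set G3 := ga3 t1 t2 t3 with hG3
  have hu2 : 0 ≤ u2 := (abs_nonneg _).trans hU2
  have k1 := shell1_bd h ν (1, 0) 0 (-1) 1 (by decide) (by decide) (by decide)
    e1 e2 e3 hU0 hUm1 hU1
  have k2 := shell1_bd h ν (-1, 1) 1 0 (-1) (by decide) (by decide) (by decide)
    e1 e2 e3 hU1 hU0 hUm1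
  have k3 := shell1_bd h ν (0, -1) (-1) 1 0 (by decide) (by decide) (by decide)
    e1 e2 e3 hUm1 hU1 hU0
  have l1 := shell1_bd h ν (-1, 2) 2 (-1) (-1) (by decide) (by decide) (by decide)
    e1 e2 e3 hU2 hUm1 hUm1
  have l2 := shell1_bd h ν (-1, -1) (-1) 2 (-1) (by decide) (by decide) (by decide)
    e1 e2 e3 hUm1 hU2 hUm1
  have l3 := shell1_bd h ν (2, -1) (-1) (-1) 2 (by decide) (by decide) (by decide)
    e1 e2 e3 hUm1 hUm1 hU2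
  have s1 := shell1_bd h ν (2, 0) 0 (-2) 2 (by decide) (by decide) (by decide)
    e1 e2 e3 hU0 hUm2 hU2
  have s2 := shell1_bd h ν (-2, 2) 2 0 (-2) (by decide) (by decide) (by decide)
    e1 e2 e3 hU2 hU0 hUm2
  have s3 := shell1_bd h ν (0, -2) (-2) 2 0 (by decide) (by decide) (by decide)
    e1 e2 e3 hUm2 hU2 hU0
  have p1 := shell1_bd h ν (-2, 3) 3 (-1) (-2) (by decide) (by decide) (by decide)
    e1 e2 e3 hU3 hUm1 hUm2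
  have p2 := shell1_bd h ν (-1, -2) (-2) 3 (-1) (by decide) (by decide) (by decide)
    e1 e2 e3 hUm2 hU3 hUm1
  have p3 := shell1_bd h ν (3, -1) (-1) (-2) 3 (by decide) (by decide) (by decide)
    e1 e2 e3 hUm1 hUm2 hU3
  have q1 := shell1_bd h ν (-1, 3) 3 (-2) (-1) (by decide) (by decide) (by decide)
    e1 e2 e3 hU3 hUm2 hUm1
  have q2 := shell1_bd h ν (-2, -1) (-1) 3 (-2) (by decide) (by decide) (by decide)
    e1 e2 e3 hUm1 hU3 hUm2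
  have q3 := shell1_bd h ν (3, -2) (-2) (-1) 3 (by decide) (by decide) (by decide)
    e1 e2 e3 hUm2 hUm1 hU3
  have c1 : |-2 * D * t1| ≤ 2 * D * t1 := by
    have : 0 ≤ D * t1 := mul_nonneg hD0 ht1
    rw [abs_le]; constructor <;> linarith
  have c2 : |-2 * D * t2| ≤ 2 * D * t2 := by
    have : 0 ≤ D * t2 := mul_nonneg hD0 ht2
    rw [abs_le]; constructor <;> linarith
  have c3 : |-2 * D * t3| ≤ 2 * D * t3 := by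
    have : 0 ≤ D * t3 := mul_nonneg hD0 h3
    rw [abs_le]; constructor <;> linarith
  have d1 : |D * t1| ≤ D * t1 := by rw [abs_of_nonneg (mul_nonneg hD0 ht1)]
  have d2 : |D * t2| ≤ D * t2 := by rw [abs_of_nonneg (mul_nonneg hD0 ht2)]
  have d3 : |D * t3| ≤ D * t3 := by rw [abs_of_nonneg (mul_nonneg hD0 h3)]
  have sub_bd : ∀ {x y X Y : ℝ}, |x| ≤ X → |y| ≤ Y → |x - y| ≤ X + Y := by
    intro x y X Y hx hy
    rw [abs_le] at hx hy ⊢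
    constructor <;> linarith [hx.1, hx.2, hy.1, hy.2]
  have a1 := shell1_mul hU2 (sub_bd (shell1_mul e3 g3) (shell1_mul e2 g2))
  have a2 := shell1_mul hU2 (sub_bd (shell1_mul e1 g1) (shell1_mul e3 g3))
  have a3 := shell1_mul hU2 (sub_bd (shell1_mul e2 g2) (shell1_mul e1 g1))
  have b1 := shell1_mul g1 e2
  have b2 := shell1_mul g2 e3
  have b3 := shell1_mul g3 e1
  have b4 := shell1_mul g1 e3
  have b5 := shell1_mul g2 e1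
  have b6 := shell1_mul g3 e2
  rw [← abs_neg] at b4 b5 b6
  have T1 := shell1_mul c1 k1
  have T2 := shell1_add T1 (shell1_mul c2 k2)
  have T3 := shell1_add T2 (shell1_mul c3 k3)
  have T4 := shell1_add T3 (shell1_mul d1 l1)
  have T5 := shell1_add T4 (shell1_mul d2 l2)
  have T6 := shell1_add T5 (shell1_mul d3 l3)
  have T7 := shell1_add T6 (shell1_mul a1 s1)
  have T8 := shell1_add T7 (shell1_mul a2 s2)
  have T9 := shell1_add T8 (shell1_mul a3 s3)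
  have T10 := shell1_add T9 (shell1_mul b1 p1)
  have T11 := shell1_add T10 (shell1_mul b2 p2)
  have T12 := shell1_add T11 (shell1_mul b3 p3)
  have T13 := shell1_add T12 (shell1_mul b4 q1)
  have T14 := shell1_add T13 (shell1_mul b5 q2)
  have T15 := shell1_add T14 (shell1_mul b6 q3)
  unfold shell1_G
  rw [← hD]
  refine T15.trans (le_of_eq ?_)
  unfold n3v n3g nR nW nS nHp nHm
  rw [← hD, ← hG1, ← hG2, ← hG3]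
  ring

/-- Expansion of the contribution of the first shell, `F₁ ν = 2 ∑ t_i Φ_ν(u_i)`.

`F₁' = 4 ∑ γ_j (Φ(u_j) - Φ(v_j))`, where `γ_j = t_{j+2} β_{j+1} - t_{j+1} β_{j+2}`
(`u_i + u_{i+1} = -u_{i+2}`, `u_i - u_{i+1} = v_{i+2}`, `u_i - u_{i+2} = -v_{i+1}`, evenness).
`F₁'' = 8 ∑_k [ -2 D t_k Φ(u_k) + D t_k Φ(v_k) + U(2) (β_{k+2} γ_{k+2} - β_{k+1} γ_{k+1}) Φ(2 u_k)
   + γ_k β_{k+1} Φ(hp_k) - γ_k β_{k+2} Φ(hm_k) ]`, `D = Dq`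
(identity `β_{k+1} γ_{k+2} - β_{k+2} γ_{k+1} = -D t_k`; `v_k + u_k = -2u_{k+2}`,
`v_k - u_k = 2 u_{k+1}`, `v_k + u_{k+1} = hp_k`, `v_k - u_{k+1} = -u_{k+2}`,
`v_k + u_{k+2} = u_{k+1}`, `v_k - u_{k+2} = hm_k`, `u_k ∧ v_k = 2`,
`u_{k+1} ∧ v_k = u_{k+2} ∧ v_k = -1`).
At `ν = 0`, by rotation invariance, and `∑ γ_k β_{k+1} = -∑ γ_k β_{k+2} = D X / 2`,
`F₁''(0) = 8 D X (-2 s1 + s3 + (s7a + s7b)/2)`.  Third derivative: `|F₁'''| ≤ 8 n3v` from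
`|Φ'(u_k)| ≤ nR` etc.  Then `taylor3`. -/
theorem shell1 {δ t1 t2 t3 u2 u3 : ℝ} {Φ : ℝ → ℤ × ℤ → ℝ}
    (hs : Real.sin (Real.pi * δ) ≠ 0)
    (h : Fam δ (t2 - t3) (t3 - t1) (t1 - t2) Φ) (h12 : t2 ≤ t1) (h23 : t3 ≤ t2) (h3 : 0 ≤ t3)
    (hU2 : |UU δ 2| ≤ u2) (hU3 : |UU δ 3| ≤ u3) (ν : ℝ) :
    |(2 * (t1 * Φ ν (1, 0) + t2 * Φ ν (-1, 1) + t3 * Φ ν (0, -1))
        - 2 * (t1 + t2 + t3) * Φ 0 (1, 0))
      - (4 * ν * Dq t1 t2 t3 * (Φ 0 (1, 0) - Φ 0 (1, 1))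
        + ν ^ 2 * Dq t1 t2 t3 * (t1 + t2 + t3) * (-8 * Φ 0 (1, 0) + 4 * Φ 0 (1, 1)
          + 2 * Φ 0 (-2, 3) + 2 * Φ 0 (-1, 3)))|
      ≤ 4 / 3 * |ν| ^ 3 * n3v t1 t2 t3 u2 u3 := by
  have hd : ∀ (ν : ℝ) (k : ℤ × ℤ), HasDerivAt (fun ν => Φ ν k)
      (shell1_d δ (t2 - t3) (t3 - t1) (t1 - t2) Φ ν k) ν := fun ν k => h.deriv ν k
  have hF : ∀ x, HasDerivAt
      (fun ν => 2 * (t1 * Φ ν (1, 0) + t2 * Φ ν (-1, 1) + t3 * Φ ν (0, -1)))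
      (4 * shell1_H t1 t2 t3 (Φ x)) x := by
    intro x
    rw [← shell1_first hs h x]
    exact ((((hd x _).const_mul _).fun_add ((hd x _).const_mul _)).fun_add
      ((hd x _).const_mul _)).const_mul _
  have hF' : ∀ x, HasDerivAt (fun ν => 4 * shell1_H t1 t2 t3 (Φ ν))
      (8 * shell1_G t1 t2 t3 (UU δ 2) (Φ x)) x := by
    intro x
    rw [← shell1_second hs h x]
    exact (shell1_H_deriv h t1 t2 t3 x).const_mul _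
  have hF'' : ∀ x, HasDerivAt (fun ν => 8 * shell1_G t1 t2 t3 (UU δ 2) (Φ ν))
      (8 * shell1_G t1 t2 t3 (UU δ 2) (shell1_d δ (t2 - t3) (t3 - t1) (t1 - t2) Φ x)) x := by
    intro x
    exact (shell1_G_deriv h t1 t2 t3 (UU δ 2) x).const_mul _
  have hC : ∀ x, |8 * shell1_G t1 t2 t3 (UU δ 2)
      (shell1_d δ (t2 - t3) (t3 - t1) (t1 - t2) Φ x)| ≤ 8 * n3v t1 t2 t3 u2 u3 := by
    intro x
    rw [abs_mul, abs_of_pos (by norm_num : (0 : ℝ) < 8)]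
    exact mul_le_mul_of_nonneg_left (shell1_third hs h h12 h23 h3 hU2 hU3 x) (by norm_num)
  have key := taylor3 _ _ _ _ _ hF hF' hF'' hC ν
  have r1 : Φ 0 (-1, 1) = Φ 0 (1, 0) := shell1_rot h (1, 0) _ (by decide)
  have r2 : Φ 0 (0, -1) = Φ 0 (-1, 1) := shell1_rot h (-1, 1) _ (by decide)
  have r3 : Φ 0 (-1, -1) = Φ 0 (-1, 2) := shell1_rot h (-1, 2) _ (by decide)
  have r4 : Φ 0 (2, -1) = Φ 0 (-1, -1) := shell1_rot h (-1, -1) _ (by decide)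
  have r5 : Φ 0 (-2, 2) = Φ 0 (2, 0) := shell1_rot h (2, 0) _ (by decide)
  have r6 : Φ 0 (0, -2) = Φ 0 (-2, 2) := shell1_rot h (-2, 2) _ (by decide)
  have r7 : Φ 0 (-1, -2) = Φ 0 (-2, 3) := shell1_rot h (-2, 3) _ (by decide)
  have r8 : Φ 0 (3, -1) = Φ 0 (-1, -2) := shell1_rot h (-1, -2) _ (by decide)
  have r9 : Φ 0 (-2, -1) = Φ 0 (-1, 3) := shell1_rot h (-1, 3) _ (by decide)
  have r10 : Φ 0 (3, -2) = Φ 0 (-2, -1) := shell1_rot h (-2, -1) _ (by decide)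
  have m2 : Φ 0 (-1, -1) = Φ 0 (1, 1) := shell1_neg h 0 (1, 1) _ (by decide)
  have z1 : 2 * (t1 * Φ 0 (1, 0) + t2 * Φ 0 (-1, 1) + t3 * Φ 0 (0, -1)) =
      2 * (t1 + t2 + t3) * Φ 0 (1, 0) := by
    rw [r2, r1]; ring
  have z2 : 4 * shell1_H t1 t2 t3 (Φ 0) = 4 * Dq t1 t2 t3 * (Φ 0 (1, 0) - Φ 0 (1, 1)) := by
    unfold shell1_H Dq
    rw [r4, r2, r1, ← r3, m2]
    ring
  have z3 : 8 * shell1_G t1 t2 t3 (UU δ 2) (Φ 0) = 2 * (Dq t1 t2 t3 * (t1 + t2 + t3) *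
      (-8 * Φ 0 (1, 0) + 4 * Φ 0 (1, 1) + 2 * Φ 0 (-2, 3) + 2 * Φ 0 (-1, 3))) := by
    unfold shell1_G Dq
    rw [r10, r9, r8, r7, r6, r5, r4, r2, r1, ← r3, m2]
    ring
  simp only [z1, z2, z3] at key
  have e1 : (2 * (t1 * Φ ν (1, 0) + t2 * Φ ν (-1, 1) + t3 * Φ ν (0, -1))
        - 2 * (t1 + t2 + t3) * Φ 0 (1, 0))
      - (4 * ν * Dq t1 t2 t3 * (Φ 0 (1, 0) - Φ 0 (1, 1))
        + ν ^ 2 * Dq t1 t2 t3 * (t1 + t2 + t3) * (-8 * Φ 0 (1, 0) + 4 * Φ 0 (1, 1)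
          + 2 * Φ 0 (-2, 3) + 2 * Φ 0 (-1, 3))) =
      2 * (t1 * Φ ν (1, 0) + t2 * Φ ν (-1, 1) + t3 * Φ ν (0, -1))
        - 2 * (t1 + t2 + t3) * Φ 0 (1, 0)
      - ν * (4 * Dq t1 t2 t3 * (Φ 0 (1, 0) - Φ 0 (1, 1)))
      - ν ^ 2 / 2 * (2 * (Dq t1 t2 t3 * (t1 + t2 + t3) *
      (-8 * Φ 0 (1, 0) + 4 * Φ 0 (1, 1) + 2 * Φ 0 (-2, 3) + 2 * Φ 0 (-1, 3)))) := by
    ring
  rw [e1]
  refine key.trans (le_of_eq ?_)
  ring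

end MP7e122f.R
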