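import Pool.Agent.Lib.MP_7e122f_anR.UUf

namespace MP7e122f.R

/-- the right hand side of the differential equation -/
private noncomputable def shell3D (δ β1 β2 β3 : ℝ) (f : ℤ × ℤ → ℝ) (k : ℤ × ℤ) : ℝ :=
  2 * (β1 * UU δ k.2 * (f (k + (1, 0)) - f (k - (1, 0)))
      + β2 * UU δ (-(k.1 + k.2)) * (f (k + (-1, 1)) - f (k - (-1, 1)))
      + β3 * UU δ k.1 * (f (k + (0, -1)) - f (k - (0, -1))))

private lemma shell3D_bound {δ β1 β2 β3 b1 b2 b3 U1 U2 U3 : ℝ} {f : ℤ × ℤ → ℝ}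
    (hf : ∀ k, |f k| ≤ 1) (h1 : |β1| ≤ b1) (h2 : |β2| ≤ b2) (h3 : |β3| ≤ b3) (k : ℤ × ℤ)
    (hU1 : |UU δ k.2| ≤ U1) (hU2 : |UU δ (-(k.1 + k.2))| ≤ U2) (hU3 : |UU δ k.1| ≤ U3) :
    |shell3D δ β1 β2 β3 f k| ≤ 4 * (b1 * U1 + b2 * U2 + b3 * U3) := by
  have key : ∀ (β U b V x y : ℝ), |β| ≤ b → |U| ≤ V → |x| ≤ 1 → |y| ≤ 1 →
      |β * U * (x - y)| ≤ b * V * 2 := by
    intro β U b V x y hβ hU hx hy
    rw [abs_mul, abs_mul]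
    have hxy : |x - y| ≤ 2 := by
      calc |x - y| ≤ |x| + |y| := abs_sub _ _
        _ ≤ 2 := by linarith
    have hb : 0 ≤ b := (abs_nonneg _).trans hβ
    have hV : 0 ≤ V := (abs_nonneg _).trans hU
    apply mul_le_mul (mul_le_mul hβ hU (abs_nonneg _) hb) hxy (abs_nonneg _) (mul_nonneg hb hV)
  have e1 := key β1 (UU δ k.2) b1 U1 (f (k + (1, 0))) (f (k - (1, 0))) h1 hU1 (hf _) (hf _)
  have e2 := key β2 (UU δ (-(k.1 + k.2))) b2 U2 (f (k + (-1, 1))) (f (k - (-1, 1))) h2 hU2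
    (hf _) (hf _)
  have e3 := key β3 (UU δ k.1) b3 U3 (f (k + (0, -1))) (f (k - (0, -1))) h3 hU3 (hf _) (hf _)
  unfold shell3D
  rw [abs_le] at e1 e2 e3 ⊢
  constructor <;> linarith [e1.1, e1.2, e2.1, e2.2, e3.1, e3.2]

private lemma s3_term {w β d b n : ℝ} (hw : 0 ≤ w) (hβ : |β| ≤ b) (hd : |d| ≤ n) :
    |w * (β * d)| ≤ w * (b * n) := by
  rw [abs_mul, abs_mul, abs_of_nonneg hw]
  have hb : 0 ≤ b := (abs_nonneg _).trans hβ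
  exact mul_le_mul_of_nonneg_left (mul_le_mul hβ hd (abs_nonneg _) hb) hw

private lemma s3_termU {w β U d b u n : ℝ} (hw : 0 ≤ w) (hβ : |β| ≤ b) (hU : |U| ≤ u)
    (hd : |d| ≤ n) : |w * (β * U * d)| ≤ w * (b * u * n) := by
  have hb : 0 ≤ b := (abs_nonneg _).trans hβ
  have : |β * U| ≤ b * u := by
    rw [abs_mul]
    exact mul_le_mul hβ hU (abs_nonneg _) hb
  exact s3_term hw this hd

private lemma s3_bound {w1 w2 w3 β1 β2 β3 b1 b2 b3 U u2 a1 a2 a3 a4 a5 a6 c1 c2 c3 c4 c5 c6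
    d1 d2 d3 d4 d5 d6 R1 R2 R3 S1 S2 S3 P1 P2 P3 M1 M2 M3 : ℝ}
    (hw1 : 0 ≤ w1) (hw2 : 0 ≤ w2) (hw3 : 0 ≤ w3)
    (h1 : |β1| ≤ b1) (h2 : |β2| ≤ b2) (h3 : |β3| ≤ b3) (hU : |U| ≤ u2)
    (ha1 : |a1| ≤ S3) (ha2 : |a2| ≤ S2) (ha3 : |a3| ≤ P1) (ha4 : |a4| ≤ R3) (ha5 : |a5| ≤ R2)
    (ha6 : |a6| ≤ M1)
    (hc1 : |c1| ≤ R3) (hc2 : |c2| ≤ M2) (hc3 : |c3| ≤ S1) (hc4 : |c4| ≤ S3) (hc5 : |c5| ≤ P2)
    (hc6 : |c6| ≤ R1)
    (hd1 : |d1| ≤ P3) (hd2 : |d2| ≤ R2) (hd3 : |d3| ≤ R1) (hd4 : |d4| ≤ M3) (hd5 : |d5| ≤ S2)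
    (hd6 : |d6| ≤ S1) :
    |2 * (w1 * (2 * (β1 * U * (a1 - a2) + β2 * (-1) * (a3 - a4) + β3 * (-1) * (a5 - a6)))
      + w2 * (2 * (β1 * (-1) * (c1 - c2) + β2 * U * (c3 - c4) + β3 * (-1) * (c5 - c6)))
      + w3 * (2 * (β1 * (-1) * (d1 - d2) + β2 * (-1) * (d3 - d4) + β3 * U * (d5 - d6))))|
    ≤ 4 * (w1 * (b2 * P1 + b3 * M1) + w2 * (b3 * P2 + b1 * M2) + w3 * (b1 * P3 + b2 * M3)
      + (w2 * b3 + w3 * b2) * R1 + (w3 * b1 + w1 * b3) * R2 + (w1 * b2 + w2 * b1) * R3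
      + u2 * (w2 * b2 + w3 * b3) * S1 + u2 * (w3 * b3 + w1 * b1) * S2
      + u2 * (w1 * b1 + w2 * b2) * S3) := by
  have A1 := s3_termU hw1 h1 hU ha1
  have A2 := s3_termU hw1 h1 hU ha2
  have A3 := s3_term hw1 h2 ha3
  have A4 := s3_term hw1 h2 ha4
  have A5 := s3_term hw1 h3 ha5
  have A6 := s3_term hw1 h3 ha6
  have C1 := s3_term hw2 h1 hc1
  have C2 := s3_term hw2 h1 hc2
  have C3 := s3_termU hw2 h2 hU hc3
  have C4 := s3_termU hw2 h2 hU hc4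
  have C5 := s3_term hw2 h3 hc5
  have C6 := s3_term hw2 h3 hc6
  have D1 := s3_term hw3 h1 hd1
  have D2 := s3_term hw3 h1 hd2
  have D3 := s3_term hw3 h2 hd3
  have D4 := s3_term hw3 h2 hd4
  have D5 := s3_termU hw3 h3 hU hd5
  have D6 := s3_termU hw3 h3 hU hd6
  rw [abs_le] at A1 A2 A3 A4 A5 A6 C1 C2 C3 C4 C5 C6 D1 D2 D3 D4 D5 D6 ⊢
  obtain ⟨A1, A1'⟩ := A1
  obtain ⟨A2, A2'⟩ := A2
  obtain ⟨A3, A3'⟩ := A3
  obtain ⟨A4, A4'⟩ := A4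
  obtain ⟨A5, A5'⟩ := A5
  obtain ⟨A6, A6'⟩ := A6
  obtain ⟨C1, C1'⟩ := C1
  obtain ⟨C2, C2'⟩ := C2
  obtain ⟨C3, C3'⟩ := C3
  obtain ⟨C4, C4'⟩ := C4
  obtain ⟨C5, C5'⟩ := C5
  obtain ⟨C6, C6'⟩ := C6
  obtain ⟨D1, D1'⟩ := D1
  obtain ⟨D2, D2'⟩ := D2
  obtain ⟨D3, D3'⟩ := D3
  obtain ⟨D4, D4'⟩ := D4
  obtain ⟨D5, D5'⟩ := D5
  obtain ⟨D6, D6'⟩ := D6
  constructor
  · have e : 2 * (w1 * (2 * (β1 * U * (a1 - a2) + β2 * (-1) * (a3 - a4) + β3 * (-1) * (a5 - a6)))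
      + w2 * (2 * (β1 * (-1) * (c1 - c2) + β2 * U * (c3 - c4) + β3 * (-1) * (c5 - c6)))
      + w3 * (2 * (β1 * (-1) * (d1 - d2) + β2 * (-1) * (d3 - d4) + β3 * U * (d5 - d6)))) =
      4 * (w1 * (β1 * U * a1) - w1 * (β1 * U * a2) - w1 * (β2 * a3) + w1 * (β2 * a4)
        - w1 * (β3 * a5) + w1 * (β3 * a6) - w2 * (β1 * c1) + w2 * (β1 * c2)
        + w2 * (β2 * U * c3) - w2 * (β2 * U * c4) - w2 * (β3 * c5) + w2 * (β3 * c6)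
        - w3 * (β1 * d1) + w3 * (β1 * d2) - w3 * (β2 * d3) + w3 * (β2 * d4)
        + w3 * (β3 * U * d5) - w3 * (β3 * U * d6)) := by ring
    rw [e]
    linarith
  · have e : 2 * (w1 * (2 * (β1 * U * (a1 - a2) + β2 * (-1) * (a3 - a4) + β3 * (-1) * (a5 - a6)))
      + w2 * (2 * (β1 * (-1) * (c1 - c2) + β2 * U * (c3 - c4) + β3 * (-1) * (c5 - c6)))
      + w3 * (2 * (β1 * (-1) * (d1 - d2) + β2 * (-1) * (d3 - d4) + β3 * U * (d5 - d6)))) =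
      4 * (w1 * (β1 * U * a1) - w1 * (β1 * U * a2) - w1 * (β2 * a3) + w1 * (β2 * a4)
        - w1 * (β3 * a5) + w1 * (β3 * a6) - w2 * (β1 * c1) + w2 * (β1 * c2)
        + w2 * (β2 * U * c3) - w2 * (β2 * U * c4) - w2 * (β3 * c5) + w2 * (β3 * c6)
        - w3 * (β1 * d1) + w3 * (β1 * d2) - w3 * (β2 * d3) + w3 * (β2 * d4)
        + w3 * (β3 * U * d5) - w3 * (β3 * U * d6)) := by ring
    rw [e]
    linarith

/-- Expansion of the contribution of the second shell, `F₃ ν = 2 ∑ w_i Φ_ν(v_i)`.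

`F₃' = 4 ∑ w_i [ β_i U(2) (Φ(2u_{i+2}) - Φ(2u_{i+1})) - β_{i+1} (Φ(hp_i) - Φ(u_{i+2}))
   - β_{i+2} (Φ(u_{i+1}) - Φ(hm_i)) ]`;
at `ν = 0`: `F₃'(0) = 4 (Cov s1 - P3 s7a - Q3 s7b)` since
`β_{i+1} - β_{i+2} = X - 3 t_i`.  Second derivative: `|F₃''| ≤ 4 n2g` by
the bounds `|Φ'(u_k)| ≤ nR`, `|Φ'(2u_k)| ≤ nS`, `|Φ'(hp_k)| ≤ nHp`, `|Φ'(hm_k)| ≤ nHm`
(`u_{i+1} ∧ hp_i = -1`, `u_{i+2} ∧ hp_i = -2`, `u_i ∧ hp_i = 3`;
`u_{i+1} ∧ hm_i = -2`, `u_{i+2} ∧ hm_i = -1`, `u_i ∧ hm_i = 3`).  Then `taylor2'`. -/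
theorem shell3 {δ t1 t2 t3 w1 w2 w3 u2 u3 : ℝ} {Φ : ℝ → ℤ × ℤ → ℝ}
    (hs : Real.sin (Real.pi * δ) ≠ 0)
    (h : Fam δ (t2 - t3) (t3 - t1) (t1 - t2) Φ) (h12 : t2 ≤ t1) (h23 : t3 ≤ t2)
    (hw1 : 0 ≤ w1) (hw2 : 0 ≤ w2) (hw3 : 0 ≤ w3)
    (hU2 : |UU δ 2| ≤ u2) (hU3 : |UU δ 3| ≤ u3) (ν : ℝ) :
    |(2 * (w1 * Φ ν (-1, 2) + w2 * Φ ν (-1, -1) + w3 * Φ ν (2, -1))
        - 2 * (w1 + w2 + w3) * Φ 0 (1, 1))
      - 4 * ν * (Cov t1 t2 t3 w1 w2 w3 * Φ 0 (1, 0) - P3 t1 t2 t3 w1 w2 w3 * Φ 0 (-2, 3)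
        - Q3 t1 t2 t3 w1 w2 w3 * Φ 0 (-1, 3))|
      ≤ 2 * ν ^ 2 * n2g w1 w2 w3 (t2 - t3) (t1 - t3) (t1 - t2) u2 u3 := by
  set β1 := t2 - t3 with hβ1
  set β2 := t3 - t1 with hβ2
  set β3 := t1 - t2 with hβ3
  have hb1 : |β1| ≤ t2 - t3 := by rw [abs_of_nonneg (by linarith)]
  have hb2 : |β2| ≤ t1 - t3 := by rw [abs_of_nonpos (by linarith)]; linarith
  have hb3 : |β3| ≤ t1 - t2 := by rw [abs_of_nonneg (by linarith)]
  have hU1 : UU δ 1 = 1 := UU_one δ hs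
  have hUm1 : UU δ (-1) = -1 := by rw [UU_neg, hU1]
  have hU0 : UU δ 0 = 0 := UU_zero δ
  have hUm2 : |UU δ (-2)| ≤ u2 := by rw [UU_neg, abs_neg]; exact hU2
  have hUm3 : |UU δ (-3)| ≤ u3 := by rw [UU_neg, abs_neg]; exact hU3
  have a1 : |UU δ 1| ≤ 1 := by rw [hU1]; simp
  have am1 : |UU δ (-1)| ≤ 1 := by rw [hUm1]; simp
  have a0 : |UU δ 0| ≤ 0 := by rw [hU0]; simp
  set D : ℝ → ℤ × ℤ → ℝ := fun x k => shell3D δ β1 β2 β3 (Φ x) k with hD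
  have hΦ : ∀ x k, HasDerivAt (fun x => Φ x k) (D x k) x := fun x k => h.deriv x k
  have hDD : ∀ x k, HasDerivAt (fun x => D x k) (shell3D δ β1 β2 β3 (D x) k) x := by
    intro x k
    have := (((((hΦ x (k + (1, 0))).sub (hΦ x (k - (1, 0)))).const_mul (β1 * UU δ k.2)).add
      (((hΦ x (k + (-1, 1))).sub (hΦ x (k - (-1, 1)))).const_mul
        (β2 * UU δ (-(k.1 + k.2))))).add
      (((hΦ x (k + (0, -1))).sub (hΦ x (k - (0, -1)))).const_mul (β3 * UU δ k.1))).const_mul 2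
    exact this
  have hΦ1 : ∀ x k, |Φ x k| ≤ 1 := fun x k => (h.adm x).1 k
  have bd : ∀ x (k : ℤ × ℤ) (V1 V2 V3 : ℝ), |UU δ k.2| ≤ V1 → |UU δ (-(k.1 + k.2))| ≤ V2 →
      |UU δ k.1| ≤ V3 → |D x k| ≤ 4 * ((t2 - t3) * V1 + (t1 - t3) * V2 + (t1 - t2) * V3) :=
    fun x k V1 V2 V3 e1 e2 e3 => shell3D_bound (hΦ1 x) hb1 hb2 hb3 k e1 e2 e3
  -- bounds of the first derivatives
  have B : ∀ x (k : ℤ × ℤ) (V1 V2 V3 T : ℝ), |UU δ k.2| ≤ V1 → |UU δ (-(k.1 + k.2))| ≤ V2 →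
      |UU δ k.1| ≤ V3 → 4 * ((t2 - t3) * V1 + (t1 - t3) * V2 + (t1 - t2) * V3) = T →
      |D x k| ≤ T := fun x k V1 V2 V3 T e1 e2 e3 e4 => e4 ▸ bd x k V1 V2 V3 e1 e2 e3
  have F2 : ∀ x, |2 * (w1 * shell3D δ β1 β2 β3 (D x) (-1, 2)
      + w2 * shell3D δ β1 β2 β3 (D x) (-1, -1) + w3 * shell3D δ β1 β2 β3 (D x) (2, -1))|
      ≤ 4 * n2g w1 w2 w3 (t2 - t3) (t1 - t3) (t1 - t2) u2 u3 := by
    intro x
    have key := s3_bound (U := UU δ 2) (u2 := u2) hw1 hw2 hw3 hb1 hb2 hb3 hU2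
      (a1 := D x (0, 2)) (a2 := D x (-2, 2)) (a3 := D x (-2, 3)) (a4 := D x (0, 1))
      (a5 := D x (-1, 1)) (a6 := D x (-1, 3))
      (c1 := D x (0, -1)) (c2 := D x (-2, -1)) (c3 := D x (-2, 0)) (c4 := D x (0, -2))
      (c5 := D x (-1, -2)) (c6 := D x (-1, 0))
      (d1 := D x (3, -1)) (d2 := D x (1, -1)) (d3 := D x (1, 0)) (d4 := D x (3, -2))
      (d5 := D x (2, -2)) (d6 := D x (2, 0))
      (R1 := nR (t2 - t3) (t1 - t3) (t1 - t2)) (R2 := nR (t1 - t3) (t1 - t2) (t2 - t3))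
      (R3 := nR (t1 - t2) (t2 - t3) (t1 - t3))
      (S1 := nS u2 (t2 - t3) (t1 - t3) (t1 - t2)) (S2 := nS u2 (t1 - t3) (t1 - t2) (t2 - t3))
      (S3 := nS u2 (t1 - t2) (t2 - t3) (t1 - t3))
      (P1 := nHp u2 u3 (t2 - t3) (t1 - t3) (t1 - t2)) (P2 := nHp u2 u3 (t1 - t3) (t1 - t2) (t2 - t3))
      (P3 := nHp u2 u3 (t1 - t2) (t2 - t3) (t1 - t3))
      (M1 := nHm u2 u3 (t2 - t3) (t1 - t3) (t1 - t2)) (M2 := nHm u2 u3 (t1 - t3) (t1 - t2) (t2 - t3))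
      (M3 := nHm u2 u3 (t1 - t2) (t2 - t3) (t1 - t3))
      (B x _ u2 u2 0 _ (by simpa using hU2) (by simpa using hUm2) (by simpa using a0)
        (by unfold nS; ring))
      (B x _ u2 0 u2 _ (by simpa using hU2) (by simpa using a0) (by simpa using hUm2)
        (by unfold nS; ring))
      (B x _ u3 1 u2 _ (by simpa using hU3) (by simpa using am1) (by simpa using hUm2)
        (by unfold nHp; ring))
      (B x _ 1 1 0 _ (by simpa using a1) (by simpa using am1) (by simpa using a0)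
        (by unfold nR; ring))
      (B x _ 1 0 1 _ (by simpa using a1) (by simpa using a0) (by simpa using am1)
        (by unfold nR; ring))
      (B x _ u3 u2 1 _ (by simpa using hU3) (by simpa using hUm2) (by simpa using am1)
        (by unfold nHm; ring))
      (B x _ 1 1 0 _ (by simpa using am1) (by simpa using a1) (by simpa using a0)
        (by unfold nR; ring))
      (B x _ 1 u3 u2 _ (by simpa using am1) (by simpa using hU3) (by simpa using hUm2)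
        (by unfold nHm; ring))
      (B x _ 0 u2 u2 _ (by simpa using a0) (by simpa using hU2) (by simpa using hUm2)
        (by unfold nS; ring))
      (B x _ u2 u2 0 _ (by simpa using hUm2) (by simpa using hU2) (by simpa using a0)
        (by unfold nS; ring))
      (B x _ u2 u3 1 _ (by simpa using hUm2) (by simpa using hU3) (by simpa using am1)
        (by unfold nHp; ring))
      (B x _ 0 1 1 _ (by simpa using a0) (by simpa using a1) (by simpa using am1)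
        (by unfold nR; ring))
      (B x _ 1 u2 u3 _ (by simpa using am1) (by simpa using hUm2) (by simpa using hU3)
        (by unfold nHp; ring))
      (B x _ 1 0 1 _ (by simpa using am1) (by simpa using a0) (by simpa using a1)
        (by unfold nR; ring))
      (B x _ 0 1 1 _ (by simpa using a0) (by simpa using am1) (by simpa using a1)
        (by unfold nR; ring))
      (B x _ u2 1 u3 _ (by simpa using hUm2) (by simpa using am1) (by simpa using hU3)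
        (by unfold nHm; ring))
      (B x _ u2 0 u2 _ (by simpa using hUm2) (by simpa using a0) (by simpa using hU2)
        (by unfold nS; ring))
      (B x _ 0 u2 u2 _ (by simpa using a0) (by simpa using hUm2) (by simpa using hU2)
        (by unfold nS; ring))
    have e1 : shell3D δ β1 β2 β3 (D x) (-1, 2) = 2 * (β1 * UU δ 2 * (D x (0, 2) - D x (-2, 2))
        + β2 * (-1) * (D x (-2, 3) - D x (0, 1)) + β3 * (-1) * (D x (-1, 1) - D x (-1, 3))) := by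
      unfold shell3D
      norm_num
      rw [hUm1]
      norm_num
    have e2 : shell3D δ β1 β2 β3 (D x) (-1, -1) = 2 * (β1 * (-1) * (D x (0, -1) - D x (-2, -1))
        + β2 * UU δ 2 * (D x (-2, 0) - D x (0, -2))
        + β3 * (-1) * (D x (-1, -2) - D x (-1, 0))) := by
      unfold shell3D
      norm_num
      rw [hUm1]
      norm_num
    have e3 : shell3D δ β1 β2 β3 (D x) (2, -1) = 2 * (β1 * (-1) * (D x (3, -1) - D x (1, -1))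
        + β2 * (-1) * (D x (1, 0) - D x (3, -2))
        + β3 * UU δ 2 * (D x (2, -2) - D x (2, 0))) := by
      unfold shell3D
      norm_num
      rw [hUm1]
      norm_num
    rw [e1, e2, e3]
    exact key
  have T := taylor2' (fun x => 2 * (w1 * Φ x (-1, 2) + w2 * Φ x (-1, -1) + w3 * Φ x (2, -1)))
    (fun x => 2 * (w1 * D x (-1, 2) + w2 * D x (-1, -1) + w3 * D x (2, -1)))
    (fun x => 2 * (w1 * shell3D δ β1 β2 β3 (D x) (-1, 2)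
      + w2 * shell3D δ β1 β2 β3 (D x) (-1, -1) + w3 * shell3D δ β1 β2 β3 (D x) (2, -1)))
    (4 * n2g w1 w2 w3 (t2 - t3) (t1 - t3) (t1 - t2) u2 u3)
    (fun x => ((((hΦ x (-1, 2)).const_mul w1).add ((hΦ x (-1, -1)).const_mul w2)).add
      ((hΦ x (2, -1)).const_mul w3)).const_mul 2)
    (fun x => ((((hDD x (-1, 2)).const_mul w1).add ((hDD x (-1, -1)).const_mul w2)).add
      ((hDD x (2, -1)).const_mul w3)).const_mul 2) F2 ν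
  -- values at zero
  have r : ∀ k, Φ 0 (e3 k) = Φ 0 k := h.rot
  have n : ∀ k, Φ 0 (-k) = Φ 0 k := fun k => h.neg 0 k
  have v1 : Φ 0 (-1, 2) = Φ 0 (1, 1) := by
    rw [← r (1, 1), ← r (e3 (1, 1)), ← n (e3 (e3 (1, 1)))]
    rfl
  have v2 : Φ 0 (-1, -1) = Φ 0 (1, 1) := by rw [← n (1, 1)]; rfl
  have v3 : Φ 0 (2, -1) = Φ 0 (1, 1) := by
    rw [← r (1, 1), ← n (e3 (1, 1))]
    rfl
  have s1 : Φ 0 (-1, 1) = Φ 0 (1, 0) := by rw [← r (1, 0)]; rfl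
  have s2 : Φ 0 (0, -1) = Φ 0 (1, 0) := by rw [← r (1, 0), ← r (e3 (1, 0))]; rfl
  have s3 : Φ 0 (0, 1) = Φ 0 (1, 0) := by rw [← s2, ← n (0, -1)]; rfl
  have s4 : Φ 0 (1, -1) = Φ 0 (1, 0) := by rw [← s1, ← n (-1, 1)]; rfl
  have s5 : Φ 0 (-1, 0) = Φ 0 (1, 0) := by rw [← n (1, 0)]; rfl
  have p1 : Φ 0 (-1, -2) = Φ 0 (-2, 3) := by rw [← r (-2, 3)]; rfl
  have p2 : Φ 0 (3, -1) = Φ 0 (-2, 3) := by rw [← r (-2, 3), ← r (e3 (-2, 3))]; rfl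
  have m1 : Φ 0 (-2, -1) = Φ 0 (-1, 3) := by rw [← r (-1, 3)]; rfl
  have m2 : Φ 0 (3, -2) = Φ 0 (-1, 3) := by rw [← r (-1, 3), ← r (e3 (-1, 3))]; rfl
  have q1 : Φ 0 (-2, 2) = Φ 0 (2, 0) := by rw [← r (2, 0)]; rfl
  have q2 : Φ 0 (0, -2) = Φ 0 (2, 0) := by rw [← r (2, 0), ← r (e3 (2, 0))]; rfl
  have q3 : Φ 0 (0, 2) = Φ 0 (2, 0) := by rw [← q2, ← n (0, -2)]; rfl
  have q4 : Φ 0 (2, -2) = Φ 0 (2, 0) := by rw [← q1, ← n (-2, 2)]; rfl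
  have q5 : Φ 0 (-2, 0) = Φ 0 (2, 0) := by rw [← n (2, 0)]; rfl
  have E1 : D 0 (-1, 2) = 2 * (-β2 * (Φ 0 (-2, 3) - Φ 0 (1, 0))
      - β3 * (Φ 0 (1, 0) - Φ 0 (-1, 3))) := by
    simp only [hD]
    unfold shell3D
    norm_num
    rw [hUm1, q3, q1, s3, s1]
    ring
  have E2 : D 0 (-1, -1) = 2 * (-β1 * (Φ 0 (1, 0) - Φ 0 (-1, 3))
      - β3 * (Φ 0 (-2, 3) - Φ 0 (1, 0))) := by
    simp only [hD]
    unfold shell3D
    norm_num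
    rw [hUm1, s2, m1, q5, q2, p1, s5]
    ring
  have E3 : D 0 (2, -1) = 2 * (-β1 * (Φ 0 (-2, 3) - Φ 0 (1, 0))
      - β2 * (Φ 0 (1, 0) - Φ 0 (-1, 3))) := by
    simp only [hD]
    unfold shell3D
    norm_num
    rw [hUm1, p2, s4, m2, q4]
    ring
  simp only [E1, E2, E3, v1, v2, v3] at T
  have e : (2 * (w1 * Φ ν (-1, 2) + w2 * Φ ν (-1, -1) + w3 * Φ ν (2, -1))
        - 2 * (w1 + w2 + w3) * Φ 0 (1, 1))
      - 4 * ν * (Cov t1 t2 t3 w1 w2 w3 * Φ 0 (1, 0) - P3 t1 t2 t3 w1 w2 w3 * Φ 0 (-2, 3)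
        - Q3 t1 t2 t3 w1 w2 w3 * Φ 0 (-1, 3)) =
      2 * (w1 * Φ ν (-1, 2) + w2 * Φ ν (-1, -1) + w3 * Φ ν (2, -1))
        - 2 * (w1 * Φ 0 (1, 1) + w2 * Φ 0 (1, 1) + w3 * Φ 0 (1, 1))
        - ν * (2 * (w1 * (2 * (-β2 * (Φ 0 (-2, 3) - Φ 0 (1, 0))
          - β3 * (Φ 0 (1, 0) - Φ 0 (-1, 3)))) + w2 * (2 * (-β1 * (Φ 0 (1, 0) - Φ 0 (-1, 3))
          - β3 * (Φ 0 (-2, 3) - Φ 0 (1, 0)))) + w3 * (2 * (-β1 * (Φ 0 (-2, 3) - Φ 0 (1, 0))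
          - β2 * (Φ 0 (1, 0) - Φ 0 (-1, 3)))))) := by
    unfold Cov P3 Q3
    rw [hβ1, hβ2, hβ3]
    ring
  rw [e]
  refine T.trans (le_of_eq ?_)
  ring

end MP7e122f.R
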