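import Pool.Agent.Lib.MP_7e122f_anR.TPb

namespace MP7e122f.R

private lemma TPR0_mem (k : ℤ × ℤ) : k ∈ F19 ↔ Nf k < 7 := by
  constructor
  · intro h
    have h' : ∀ k ∈ F19, Nf k < 7 := by decide
    exact h' k h
  · intro h
    by_contra hk
    have := Nf_ge_seven hk
    omega

private lemma TPR0_Nf_e3 (k : ℤ × ℤ) : Nf (e3 k) = Nf k := by
  simp only [Nf, e3, Equiv.coe_fn_mk]
  ring

private lemma TPR0_Nf_e3s (k : ℤ × ℤ) : Nf (e3.symm k) = Nf k := by
  simp only [Nf, e3, Equiv.coe_fn_symm_mk]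
  ring

private lemma TPR0_min_le (ρ : ℝ) (N : ℤ) (hN : 12 ≤ N) :
    min 1 (((N : ℝ) * ρ) ^ 2 / 2) ≤ ((N : ℝ) ^ 2 / 144) * min 1 ((12 * ρ) ^ 2 / 2) := by
  have hN' : (12 : ℝ) ≤ N := by exact_mod_cast hN
  have hc : 1 ≤ (N : ℝ) ^ 2 / 144 := by
    rw [le_div_iff₀ (by norm_num)]
    nlinarith
  rcases le_total 1 ((12 * ρ) ^ 2 / 2) with h | h
  · rw [min_eq_left h]
    exact (min_le_left _ _).trans (by linarith)
  · rw [min_eq_right h]
    refine (min_le_right _ _).trans (le_of_eq ?_)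
    ring

/-- `R0`: by `e3`-invariance of `Φ`, `∑_{k ∉ F19} (w - wH) Φ = (1/3) ∑_{k ∉ F19} (orbit sum) Φ`;
then `TP.orbit` and `shells_sum` (`μ_13 ≤ (169/144) μ_12`, ...; the sum of `t^N N h` is
`≤ 100 h t^7`). -/
theorem TP.R0 {y A1 A2 A3 H ρ x t : ℝ} (P : TP y A1 A2 A3 H ρ x t) (hH : 0 ≤ H)
    (hw : Summable (cc A3 A1 A2)) (hwH : Summable (cc y y y))
    (Φ : ℤ × ℤ → ℝ) (hΦ : ∀ k, |Φ k| ≤ 1) (hrot : ∀ k, Φ (e3 k) = Φ k) :
    |∑' k, (if k ∈ F19 then 0 else (cc A3 A1 A2 k - cc y y y k) * Φ k)| ≤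
      3 * (2 * x ^ 7 * min 1 ((7 * ρ) ^ 2 / 2) + x ^ 9 * min 1 ((9 * ρ) ^ 2 / 2)
        + min 1 ((12 * ρ) ^ 2 / 2) * (x ^ 12 + 2.35 * x ^ 13 + 1.8 * x ^ 16 + 18 * x ^ 19))
      + 100 * (H - 2 * y) * t ^ 7 := by
  have hrot' : ∀ k, Φ (e3.symm k) = Φ k := by
    intro k
    have := hrot (e3.symm k)
    rw [Equiv.apply_symm_apply] at this
    exact this.symm
  have hx0 : 0 ≤ x := by rw [P.hx]; exact (Real.exp_pos _).le
  have ht0 : 0 ≤ t := by rw [P.ht]; exact (Real.exp_pos _).le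
  have hh0 : 0 ≤ H - 2 * y := P.h_nonneg hH
  obtain ⟨h, hhdef⟩ : ∃ h : ℝ, h = H - 2 * y := ⟨_, rfl⟩
  rw [← hhdef] at hh0 ⊢
  obtain ⟨m, hm⟩ : ∃ m : ℝ → ℝ, m = fun s => min 1 ((s * ρ) ^ 2 / 2) := ⟨_, rfl⟩
  have hm0 : ∀ s, 0 ≤ m s := fun s => by rw [hm]; exact le_min zero_le_one (by positivity)
  obtain ⟨D, hD⟩ : ∃ D : ℤ × ℤ → ℝ, D = fun k => cc A3 A1 A2 k - cc y y y k := ⟨_, rfl⟩
  have hDs : Summable D := by rw [hD]; exact hw.sub hwH
  obtain ⟨F, hF⟩ : ∃ F : ℤ × ℤ → ℝ, F = fun k => if k ∈ F19 then 0 else D k * Φ k := ⟨_, rfl⟩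
  have hFs : Summable F := by
    refine Summable.of_norm_bounded hDs.abs ?_
    intro k
    simp only [hF]
    split_ifs with hk
    · rw [norm_zero]; exact abs_nonneg _
    · rw [Real.norm_eq_abs, abs_mul]
      exact mul_le_of_le_one_right (abs_nonneg _) (hΦ k)
  have h1 : ∑' k, F (e3 k) = ∑' k, F k := Equiv.tsum_eq e3 F
  have h2 : ∑' k, F (e3.symm k) = ∑' k, F k := Equiv.tsum_eq e3.symm F
  have s1 : Summable fun k => F (e3 k) := (Equiv.summable_iff e3).2 hFs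
  have s2 : Summable fun k => F (e3.symm k) := (Equiv.summable_iff e3.symm).2 hFs
  have h3 : 3 * ∑' k, F k = ∑' k, (F k + F (e3 k) + F (e3.symm k)) := by
    rw [Summable.tsum_add (hFs.add s1) s2, Summable.tsum_add hFs s1, h1, h2]
    ring
  obtain ⟨G1, hG1⟩ : ∃ G1 : ℤ × ℤ → ℝ, G1 = fun k => 3 / 2 * (x ^ (Nf k).toNat * m (Nf k)) := ⟨_, rfl⟩
  obtain ⟨G2, hG2⟩ : ∃ G2 : ℤ × ℤ → ℝ, G2 = fun k => 3 * (t ^ (Nf k).toNat * (Nf k * h)) := ⟨_, rfl⟩
  have hb : ∀ k, |F k + F (e3 k) + F (e3.symm k)| ≤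
      (if k ∈ F19 then 0 else G1 k) + (if k ∈ F19 then 0 else G2 k) := by
    intro k
    have e1 : e3 k ∈ F19 ↔ k ∈ F19 := by rw [TPR0_mem, TPR0_mem, TPR0_Nf_e3]
    have e2 : e3.symm k ∈ F19 ↔ k ∈ F19 := by rw [TPR0_mem, TPR0_mem, TPR0_Nf_e3s]
    by_cases hk : k ∈ F19
    · simp only [hF, if_pos hk, if_pos (e1.2 hk), if_pos (e2.2 hk)]
      simp
    · simp only [hF, if_neg hk, if_neg (fun hh => hk (e1.1 hh)), if_neg (fun hh => hk (e2.1 hh))]
      rw [hrot, hrot', ← add_mul, ← add_mul, abs_mul]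
      refine (mul_le_of_le_one_right (abs_nonneg _) (hΦ k)).trans ?_
      have := P.orbit hH k
      have hy1 : cc y y y (e3 k) = cc y y y k := cc_e3 y y y k
      have hy2 : cc y y y (e3.symm k) = cc y y y k := cc_e3_symm y y y k
      have e : D k + D (e3 k) + D (e3.symm k) =
          cc A3 A1 A2 k + cc A3 A1 A2 (e3 k) + cc A3 A1 A2 (e3.symm k) - 3 * cc y y y k := by
        simp only [hD, hy1, hy2]
        ring
      rw [e]
      rw [← hhdef] at this
      simp only [hG1, hG2, hm]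
      exact this
  -- the two sums
  have hNN : ∀ k : ℤ × ℤ, 0 ≤ Nf k := by
    intro k
    unfold Nf
    nlinarith [sq_nonneg (2 * k.1 + k.2), sq_nonneg k.2]
  have b1 := shells_sum G1 (3 / 2 * (x ^ 7 * m 7)) (3 / 2 * (x ^ 9 * m 9))
    (3 / 2 * (x ^ 12 * m 12)) (3 / 2 * (x ^ 13 * (169 / 144 * m 12)))
    (3 / 2 * (x ^ 16 * (256 / 144 * m 12))) (3 / 2 * (m 12 / 144)) x
    (by have := hm0 12; positivity) hx0 P.hx2
    (fun k => by have := hm0 (Nf k); simp only [hG1]; positivity)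
    (fun k hk => by
      simp only [hG1, hk]
      have hz : ((7 : ℤ).toNat) = 7 := rfl
      rw [hz]
      norm_num)
    (fun k hk => by
      simp only [hG1, hk]
      have hz : ((9 : ℤ).toNat) = 9 := rfl
      rw [hz]
      norm_num)
    (fun k hk => by
      simp only [hG1, hk]
      have hz : ((12 : ℤ).toNat) = 12 := rfl
      rw [hz]
      norm_num)
    (fun k hk => by
      have e := TPR0_min_le ρ 13 (by norm_num)
      have e' : m ((13 : ℤ) : ℝ) ≤ 169 / 144 * m 12 := by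
        simp only [hm]
        refine e.trans (le_of_eq ?_)
        norm_num
      simp only [hG1, hk]
      have hz : ((13 : ℤ).toNat) = 13 := rfl
      rw [hz]
      gcongr)
    (fun k hk => by
      have e := TPR0_min_le ρ 16 (by norm_num)
      have e' : m ((16 : ℤ) : ℝ) ≤ 256 / 144 * m 12 := by
        simp only [hm]
        refine e.trans (le_of_eq ?_)
        norm_num
      simp only [hG1, hk]
      have hz : ((16 : ℤ).toNat) = 16 := rfl
      rw [hz]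
      gcongr)
    (fun k hk => by
      have e := TPR0_min_le ρ (Nf k) (by omega)
      have e' : m ((Nf k : ℤ) : ℝ) ≤ (Nf k : ℝ) ^ 2 / 144 * m 12 := by
        simp only [hm]
        exact e
      simp only [hG1]
      calc 3 / 2 * (x ^ (Nf k).toNat * m (Nf k))
          ≤ 3 / 2 * (x ^ (Nf k).toNat * ((Nf k : ℝ) ^ 2 / 144 * m 12)) := by gcongr
        _ = 3 / 2 * (m 12 / 144) * ((Nf k : ℝ) ^ 2 * x ^ (Nf k).toNat) := by ring)
  have ht2 : t ≤ 1 / 2 := P.ht2.trans (by norm_num)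
  have b2 := shells_sum G2 (21 * (t ^ 7 * h)) (27 * (t ^ 9 * h)) (36 * (t ^ 12 * h))
    (39 * (t ^ 13 * h)) (48 * (t ^ 16 * h)) (3 / 19 * h) t (by positivity) ht0 ht2
    (fun k => by
      have : (0 : ℝ) ≤ Nf k := by exact_mod_cast hNN k
      simp only [hG2]; positivity)
    (fun k hk => by
      simp only [hG2, hk]
      have : ((7 : ℤ).toNat) = 7 := rfl
      rw [this]; push_cast; apply le_of_eq; ring)
    (fun k hk => by
      simp only [hG2, hk]
      have : ((9 : ℤ).toNat) = 9 := rfl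
      rw [this]; push_cast; apply le_of_eq; ring)
    (fun k hk => by
      simp only [hG2, hk]
      have : ((12 : ℤ).toNat) = 12 := rfl
      rw [this]; push_cast; apply le_of_eq; ring)
    (fun k hk => by
      simp only [hG2, hk]
      have : ((13 : ℤ).toNat) = 13 := rfl
      rw [this]; push_cast; apply le_of_eq; ring)
    (fun k hk => by
      simp only [hG2, hk]
      have : ((16 : ℤ).toNat) = 16 := rfl
      rw [this]; push_cast; apply le_of_eq; ring)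
    (fun k hk => by
      have hk' : (19 : ℝ) ≤ Nf k := by exact_mod_cast hk
      simp only [hG2]
      have e1 : (Nf k : ℝ) ≤ (Nf k : ℝ) ^ 2 / 19 := by
        rw [le_div_iff₀ (by norm_num)]
        nlinarith
      calc 3 * (t ^ (Nf k).toNat * ((Nf k : ℝ) * h))
          ≤ 3 * (t ^ (Nf k).toNat * ((Nf k : ℝ) ^ 2 / 19 * h)) := by gcongr
        _ = 3 / 19 * h * ((Nf k : ℝ) ^ 2 * t ^ (Nf k).toNat) := by ring)
  obtain ⟨c1, b1⟩ := b1
  obtain ⟨c2, b2⟩ := b2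
  have hs := (hFs.add s1).add s2
  have h4 : |∑' k, (F k + F (e3 k) + F (e3.symm k))| ≤
      ∑' k, (if k ∈ F19 then 0 else G1 k) + ∑' k, (if k ∈ F19 then 0 else G2 k) := by
    rw [← Summable.tsum_add c1 c2]
    have hn : Summable fun k => ‖F k + F (e3 k) + F (e3.symm k)‖ := hs.norm
    refine (norm_tsum_le_tsum_norm hn).trans ?_
    exact Summable.tsum_le_tsum hb hn (c1.add c2)
  have h5 : 3 * |∑' k, F k| = |∑' k, (F k + F (e3 k) + F (e3.symm k))| := by
    rw [← h3, abs_mul]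
    norm_num
  have hgoal : 3 * |∑' k, F k| ≤ 3 * (3 * (2 * x ^ 7 * m 7 + x ^ 9 * m 9
        + m 12 * (x ^ 12 + 2.35 * x ^ 13 + 1.8 * x ^ 16 + 18 * x ^ 19))
      + 100 * h * t ^ 7) := by
    rw [h5]
    refine h4.trans ((add_le_add b1 b2).trans ?_)
    have m12 := hm0 12
    have p13 : 0 ≤ m 12 * x ^ 13 := by positivity
    have p16 : 0 ≤ m 12 * x ^ 16 := by positivity
    have p19 : 0 ≤ m 12 * x ^ 19 := by positivity
    have t9 : t ^ 9 * h ≤ (17 / 100) ^ 2 * (t ^ 7 * h) := by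
      have : t ^ 9 * h = t ^ 2 * (t ^ 7 * h) := by ring
      rw [this]
      gcongr
      exact P.ht2
    have t12 : t ^ 12 * h ≤ (17 / 100) ^ 5 * (t ^ 7 * h) := by
      have : t ^ 12 * h = t ^ 5 * (t ^ 7 * h) := by ring
      rw [this]
      gcongr
      exact P.ht2
    have t13 : t ^ 13 * h ≤ (17 / 100) ^ 6 * (t ^ 7 * h) := by
      have : t ^ 13 * h = t ^ 6 * (t ^ 7 * h) := by ring
      rw [this]
      gcongr
      exact P.ht2
    have t16 : t ^ 16 * h ≤ (17 / 100) ^ 9 * (t ^ 7 * h) := by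
      have : t ^ 16 * h = t ^ 9 * (t ^ 7 * h) := by ring
      rw [this]
      gcongr
      exact P.ht2
    have t19 : t ^ 19 * h ≤ (17 / 100) ^ 12 * (t ^ 7 * h) := by
      have : t ^ 19 * h = t ^ 12 * (t ^ 7 * h) := by ring
      rw [this]
      gcongr
      exact P.ht2
    have p7 : 0 ≤ t ^ 7 * h := by positivity
    linarith
  have hfin : |∑' k, F k| ≤ 3 * (2 * x ^ 7 * m 7 + x ^ 9 * m 9
        + m 12 * (x ^ 12 + 2.35 * x ^ 13 + 1.8 * x ^ 16 + 18 * x ^ 19))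
      + 100 * h * t ^ 7 := by linarith
  simp only [hF, hD, hm] at hfin
  exact hfin

end MP7e122f.R
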