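import Pool.Agent.Lib.MP_7e122f_anR.TPb

namespace MP7e122f.R

private theorem TPR1_sq (a b : ℤ) : (|b| + |a + b|) ^ 2 ≤ 4 * (a ^ 2 + a * b + b ^ 2) := by
  have h1 : |b| ^ 2 = b ^ 2 := sq_abs b
  have h2 : |a + b| ^ 2 = (a + b) ^ 2 := sq_abs (a + b)
  have h3 : b * (a + b) ≤ |b| * |a + b| := by
    rw [← abs_mul]; exact le_abs_self _
  nlinarith [sq_nonneg (|b| - |a + b|)]

private theorem TPR1_le (k : ℤ × ℤ) (c : ℤ) (hc : 0 ≤ c) (h : 4 * Nf k < (c + 1) ^ 2) :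
    |k.2| + |k.1 + k.2| ≤ c ∧ |k.1| + |k.1 + k.2| ≤ c := by
  unfold Nf at h
  have h1 := TPR1_sq k.1 k.2
  have h2 := TPR1_sq k.2 k.1
  rw [add_comm k.2 k.1] at h2
  constructor
  · by_contra hcon
    push Not at hcon
    nlinarith
  · by_contra hcon
    push Not at hcon
    nlinarith

private theorem TPR1_Wb (b1 b2 b3 : ℝ) (hb1 : 0 ≤ b1) (hb3 : 0 ≤ b3) (hb2 : b2 = b1 + b3)
    (k : ℤ × ℤ) (c : ℤ) (hc : 0 ≤ c) (h : 4 * Nf k < (c + 1) ^ 2) :
    Wb b1 b2 b3 k ≤ 4 * c * b2 := by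
  obtain ⟨h1, h2⟩ := TPR1_le k c hc h
  have h1' : |(k.2 : ℝ)| + |((k.1 + k.2 : ℤ) : ℝ)| ≤ c := by exact_mod_cast h1
  have h2' : |(k.1 : ℝ)| + |((k.1 + k.2 : ℤ) : ℝ)| ≤ c := by exact_mod_cast h2
  unfold Wb
  subst hb2
  nlinarith [mul_le_mul_of_nonneg_left h1' hb1, mul_le_mul_of_nonneg_left h2' hb3]

private theorem TPR1_Wb_nonneg (b1 b2 b3 : ℝ) (hb1 : 0 ≤ b1) (hb3 : 0 ≤ b3) (hb2 : b2 = b1 + b3)
    (k : ℤ × ℤ) : 0 ≤ Wb b1 b2 b3 k := by
  unfold Wb
  subst hb2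
  positivity

private theorem TPR1_Wb_gen (b1 b2 b3 : ℝ) (hb1 : 0 ≤ b1) (hb3 : 0 ≤ b3) (hb2 : b2 = b1 + b3)
    (k : ℤ × ℤ) (h : 19 ≤ Nf k) : Wb b1 b2 b3 k ≤ 4 * (Nf k : ℝ) * b2 := by
  refine TPR1_Wb b1 b2 b3 hb1 hb3 hb2 k (Nf k) (by omega) ?_
  nlinarith

private theorem TPR1_min {r a b : ℝ} (hr : 0 ≤ r) (ha : 0 < a) (hab : a ≤ b) :
    min 1 (b * r) ≤ b / a * min 1 (a * r) := by
  have h1 : 1 ≤ b / a := by rw [le_div_iff₀ ha]; linarith
  rcases le_total 1 (a * r) with h | h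
  · rw [min_eq_left h]
    exact (min_le_left _ _).trans (by linarith)
  · rw [min_eq_right h]
    refine (min_le_right _ _).trans (le_of_eq ?_)
    field_simp

private theorem TPR1_split (G : ℤ × ℤ → ℝ) (hs : Summable fun k => if k ∈ F19 then 0 else G k) :
    Summable G ∧ ∑' k, (if k ∈ F7 then 0 else G k) =
      ∑ k ∈ S4, G k + ∑' k, (if k ∈ F19 then 0 else G k) := by
  have hd : Disjoint F7 S4 := by decide
  have hF : F19 = F7 ∪ S4 := by decide
  have hfin : Summable fun k => if k ∈ F19 then G k else 0 :=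
    summable_of_ne_finset_zero (s := F19) (fun k hk => by simp [hk])
  have hS4 : Summable fun k => if k ∈ S4 then G k else 0 :=
    summable_of_ne_finset_zero (s := S4) (fun k hk => by simp [hk])
  constructor
  · refine (hs.add hfin).congr (fun k => ?_)
    by_cases hk : k ∈ F19 <;> simp [hk]
  · have h1 : ∀ k, (if k ∈ F7 then 0 else G k) =
        (if k ∈ S4 then G k else 0) + (if k ∈ F19 then 0 else G k) := by
      intro k
      have hm : k ∈ F19 ↔ k ∈ F7 ∨ k ∈ S4 := by rw [hF, Finset.mem_union]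
      by_cases h7 : k ∈ F7
      · have h4 : k ∉ S4 := Finset.disjoint_left.1 hd h7
        simp [h7, h4, hm]
      · by_cases h4 : k ∈ S4 <;> simp [h7, h4, hm]
    rw [tsum_congr h1, Summable.tsum_add hS4 hs]
    congr 1
    rw [tsum_eq_sum (s := S4) (fun k hk => by simp [hk])]
    exact Finset.sum_congr rfl (fun k hk => by simp [hk])

/-- `R1`: `Wb ≤ 20 b2` on `N = 7`, `24 b2` on `N = 9, 12`, `28 b2` on `13`, `32 b2` on `16`, and
`Wb ≤ 8 b2 max|n_i| ≤ 10 b2 √N` in general (`b2 = b1 + b3`); `Wb(2u_k) = 8 (b_{k+1} + b_{k+2})`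
on the shell `S4`. -/
theorem TP.R1 {y A1 A2 A3 H ρ x t : ℝ} (P : TP y A1 A2 A3 H ρ x t) (hH : 0 ≤ H) (b1 b2 b3 : ℝ)
    (hb1 : 0 ≤ b1) (hb3 : 0 ≤ b3) (hb2 : b2 = b1 + b3) :
    (Summable fun k => |cc A3 A1 A2 k - cc y y y k| * Wb b1 b2 b3 k) ∧
    ∑' k, (if k ∈ F7 then 0 else |cc A3 A1 A2 k - cc y y y k| * Wb b1 b2 b3 k) ≤
      16 * (|Real.exp (-(4 * (A2 + A3))) - t ^ 4| * (b2 + b3)
        + |Real.exp (-(4 * (A3 + A1))) - t ^ 4| * (b3 + b1)
        + |Real.exp (-(4 * (A1 + A2))) - t ^ 4| * (b1 + b2))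
      + b2 * (240 * x ^ 7 * min 1 (7 * (ρ + (H - 2 * y))) + 144 * x ^ 9 * min 1 (9 * (ρ + (H - 2 * y)))
        + 920 * x ^ 12 * min 1 (13 * (ρ + (H - 2 * y)))) := by
  set r := ρ + (H - 2 * y) with hr
  have hr0 : 0 ≤ r := by
    have h1 := P.h_nonneg hH
    have h2 := P.hρ0
    linarith
  have hx0 : 0 ≤ x := by rw [P.hx]; positivity
  have hb20 : 0 ≤ b2 := by rw [hb2]; positivity
  have hdiff : ∀ k, |cc A3 A1 A2 k - cc y y y k| ≤ x ^ (Nf k).toNat * min 1 (Nf k * r) :=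
    fun k => P.diff hH k
  have hm13 : 0 ≤ min 1 (13 * r) := le_min (by norm_num) (by positivity)
  have key : ∀ (n : ℕ) (c : ℤ), 0 ≤ c → 4 * (n : ℤ) < (c + 1) ^ 2 → ∀ k, Nf k = n →
      |cc A3 A1 A2 k - cc y y y k| * Wb b1 b2 b3 k ≤ x ^ n * min 1 (n * r) * (4 * c * b2) := by
    intro n c hc hn k hk
    have h1 := hdiff k
    rw [hk] at h1
    have h2 := TPR1_Wb b1 b2 b3 hb1 hb3 hb2 k c hc (by rw [hk]; exact hn)
    refine mul_le_mul (by simpa using h1) h2 (TPR1_Wb_nonneg b1 b2 b3 hb1 hb3 hb2 k) ?_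
    exact mul_nonneg (by positivity) (le_min (by norm_num) (by positivity))
  obtain ⟨hs, hle⟩ := shells_sum (fun k => |cc A3 A1 A2 k - cc y y y k| * Wb b1 b2 b3 k)
    (x ^ 7 * min 1 (7 * r) * (20 * b2)) (x ^ 9 * min 1 (9 * r) * (24 * b2))
    (x ^ 12 * min 1 (12 * r) * (24 * b2)) (x ^ 13 * min 1 (13 * r) * (28 * b2))
    (x ^ 16 * min 1 (16 * r) * (32 * b2)) (4 / 13 * min 1 (13 * r) * b2) x
    (by positivity) hx0 P.hx2
    (fun k => mul_nonneg (abs_nonneg _) (TPR1_Wb_nonneg b1 b2 b3 hb1 hb3 hb2 k))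
    (fun k hk => (key 7 5 (by norm_num) (by norm_num) k hk).trans (le_of_eq (by push_cast; ring)))
    (fun k hk => (key 9 6 (by norm_num) (by norm_num) k hk).trans (le_of_eq (by push_cast; ring)))
    (fun k hk => (key 12 6 (by norm_num) (by norm_num) k hk).trans (le_of_eq (by push_cast; ring)))
    (fun k hk => (key 13 7 (by norm_num) (by norm_num) k hk).trans (le_of_eq (by push_cast; ring)))
    (fun k hk => (key 16 8 (by norm_num) (by norm_num) k hk).trans (le_of_eq (by push_cast; ring)))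
    (by
      intro k hk
      have hN : (19 : ℝ) ≤ Nf k := by exact_mod_cast hk
      have h1 := hdiff k
      have h2 := TPR1_Wb_gen b1 b2 b3 hb1 hb3 hb2 k hk
      have h3 : min 1 ((Nf k : ℝ) * r) ≤ (Nf k : ℝ) / 13 * min 1 (13 * r) :=
        TPR1_min hr0 (by norm_num) (by linarith)
      have hxp : 0 ≤ x ^ (Nf k).toNat := by positivity
      calc |cc A3 A1 A2 k - cc y y y k| * Wb b1 b2 b3 k
          ≤ (x ^ (Nf k).toNat * ((Nf k : ℝ) / 13 * min 1 (13 * r))) * (4 * (Nf k : ℝ) * b2) := by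
            refine mul_le_mul (h1.trans (mul_le_mul_of_nonneg_left h3 hxp)) h2
              (TPR1_Wb_nonneg b1 b2 b3 hb1 hb3 hb2 k) ?_
            exact mul_nonneg hxp (mul_nonneg (by linarith) hm13)
        _ = _ := by ring)
  obtain ⟨hs', heq⟩ := TPR1_split _ hs
  refine ⟨hs', ?_⟩
  rw [heq]
  have hS4 : ∑ k ∈ S4, |cc A3 A1 A2 k - cc y y y k| * Wb b1 b2 b3 k =
      16 * (|Real.exp (-(4 * (A2 + A3))) - t ^ 4| * (b2 + b3)
        + |Real.exp (-(4 * (A3 + A1))) - t ^ 4| * (b3 + b1)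
        + |Real.exp (-(4 * (A1 + A2))) - t ^ 4| * (b1 + b2)) := by
    have hcy : ∀ k ∈ S4, cc y y y k = t ^ 4 := by
      intro k hk
      rw [hex_S4 y k hk, P.ht]
    rw [Finset.sum_congr rfl (fun k hk => by rw [hcy k hk])]
    simp only [S4]
    rw [Finset.sum_insert (by decide), Finset.sum_insert (by decide), Finset.sum_insert (by decide),
      Finset.sum_insert (by decide), Finset.sum_insert (by decide), Finset.sum_singleton]
    have e1 : cc A3 A1 A2 (2, 0) = Real.exp (-(4 * (A2 + A3))) := by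
      unfold cc; congr 1; push_cast; ring
    have e2 : cc A3 A1 A2 (-2, 0) = Real.exp (-(4 * (A2 + A3))) := by
      unfold cc; congr 1; push_cast; ring
    have e3 : cc A3 A1 A2 (0, 2) = Real.exp (-(4 * (A1 + A2))) := by
      unfold cc; congr 1; push_cast; ring
    have e4 : cc A3 A1 A2 (0, -2) = Real.exp (-(4 * (A1 + A2))) := by
      unfold cc; congr 1; push_cast; ring
    have e5 : cc A3 A1 A2 (2, -2) = Real.exp (-(4 * (A3 + A1))) := by
      unfold cc; congr 1; push_cast; ring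
    have e6 : cc A3 A1 A2 (-2, 2) = Real.exp (-(4 * (A3 + A1))) := by
      unfold cc; congr 1; push_cast; ring
    rw [e1, e2, e3, e4, e5, e6]
    have w1 : Wb b1 b2 b3 (2, 0) = 8 * (b2 + b3) := by unfold Wb; norm_num; ring
    have w2 : Wb b1 b2 b3 (-2, 0) = 8 * (b2 + b3) := by unfold Wb; norm_num; ring
    have w3 : Wb b1 b2 b3 (0, 2) = 8 * (b1 + b2) := by unfold Wb; norm_num; ring
    have w4 : Wb b1 b2 b3 (0, -2) = 8 * (b1 + b2) := by unfold Wb; norm_num; ring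
    have w5 : Wb b1 b2 b3 (2, -2) = 8 * (b3 + b1) := by unfold Wb; norm_num; ring
    have w6 : Wb b1 b2 b3 (-2, 2) = 8 * (b3 + b1) := by unfold Wb; norm_num; ring
    rw [w1, w2, w3, w4, w5, w6]
    ring
  rw [hS4]
  refine add_le_add le_rfl (hle.trans ?_)
  have h12 : min 1 (12 * r) ≤ min 1 (13 * r) := min_le_min_left _ (by linarith)
  have h16 : min 1 (16 * r) ≤ 16 / 13 * min 1 (13 * r) := TPR1_min hr0 (by norm_num) (by norm_num)
  set m := min 1 (13 * r) with hm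
  have hx13 : x ^ 13 ≤ 1 / 2 * x ^ 12 := by
    have : x ^ 13 = x * x ^ 12 := by ring
    rw [this]; exact mul_le_mul_of_nonneg_right P.hx2 (by positivity)
  have hx16 : x ^ 16 ≤ 1 / 16 * x ^ 12 := by
    have : x ^ 16 = x ^ 4 * x ^ 12 := by ring
    rw [this]
    refine mul_le_mul_of_nonneg_right ?_ (by positivity)
    calc x ^ 4 ≤ (1 / 2) ^ 4 := by gcongr; exact P.hx2
      _ = 1 / 16 := by norm_num
  have hx19 : x ^ 19 ≤ 1 / 128 * x ^ 12 := by
    have : x ^ 19 = x ^ 7 * x ^ 12 := by ring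
    rw [this]
    refine mul_le_mul_of_nonneg_right ?_ (by positivity)
    calc x ^ 7 ≤ (1 / 2) ^ 7 := by gcongr; exact P.hx2
      _ = 1 / 128 := by norm_num
  have hmin16 : 0 ≤ min 1 (16 * r) := le_min (by norm_num) (by positivity)
  have hmin12 : 0 ≤ min 1 (12 * r) := le_min (by norm_num) (by positivity)
  have hx12 : 0 ≤ x ^ 12 := by positivity
  have t1 : x ^ 12 * min 1 (12 * r) * (24 * b2) ≤ x ^ 12 * m * (24 * b2) := by gcongr
  have t2 : x ^ 13 * m * (28 * b2) ≤ (1 / 2 * x ^ 12) * m * (28 * b2) := by gcongr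
  have t3 : x ^ 16 * min 1 (16 * r) * (32 * b2) ≤ (1 / 16 * x ^ 12) * (16 / 13 * m) * (32 * b2) := by
    gcongr
  have t4 : 4 / 13 * m * b2 * (7776 * x ^ 19) ≤ 4 / 13 * m * b2 * (7776 * (1 / 128 * x ^ 12)) := by
    gcongr
  have t5 : 0 ≤ x ^ 12 * m * b2 := by positivity
  nlinarith [t1, t2, t3, t4, t5]

end MP7e122f.R
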