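import Pool.Agent.Lib.MP_7e122f_anR.TPb

namespace MP7e122f.R

private theorem TPR2_q (k : ℤ × ℤ) :
    (max |k.2| |k.1| + |k.1 + k.2|) ^ 2 ≤ 4 * Nf k := by
  obtain ⟨a, b⟩ := k
  unfold Nf
  simp only
  rcases le_total |b| |a| with h | h
  · rw [max_eq_right h]
    rcases abs_cases a with ⟨h1, h1'⟩ | ⟨h1, h1'⟩ <;> rcases abs_cases b with ⟨h2, h2'⟩ | ⟨h2, h2'⟩ <;>
      rcases abs_cases (a + b) with ⟨h3, h3'⟩ | ⟨h3, h3'⟩ <;> rw [h1, h2] at h <;> rw [h1, h3] <;>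
      nlinarith [sq_nonneg a, sq_nonneg b]
  · rw [max_eq_left h]
    rcases abs_cases a with ⟨h1, h1'⟩ | ⟨h1, h1'⟩ <;> rcases abs_cases b with ⟨h2, h2'⟩ | ⟨h2, h2'⟩ <;>
      rcases abs_cases (a + b) with ⟨h3, h3'⟩ | ⟨h3, h3'⟩ <;> rw [h1, h2] at h <;> rw [h2, h3] <;>
      nlinarith [sq_nonneg a, sq_nonneg b]

private theorem TPR2_Wb_nonneg {b1 b2 b3 : ℝ} (hb1 : 0 ≤ b1) (hb2 : 0 ≤ b2) (hb3 : 0 ≤ b3)
    (k : ℤ × ℤ) : 0 ≤ Wb b1 b2 b3 k := by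
  unfold Wb
  positivity

private theorem TPR2_Wb_le {b1 b2 b3 : ℝ} (hb1 : 0 ≤ b1) (hb3 : 0 ≤ b3) (hb2 : b2 = b1 + b3)
    (k : ℤ × ℤ) : Wb b1 b2 b3 k ≤ 4 * b2 * ((max |k.2| |k.1| + |k.1 + k.2| : ℤ) : ℝ) := by
  unfold Wb
  push_cast
  have h1 : |(k.2 : ℝ)| ≤ max |(k.2 : ℝ)| |(k.1 : ℝ)| := le_max_left _ _
  have h3 : |(k.1 : ℝ)| ≤ max |(k.2 : ℝ)| |(k.1 : ℝ)| := le_max_right _ _
  have h4 := mul_le_mul_of_nonneg_left h1 hb1
  have h5 := mul_le_mul_of_nonneg_left h3 hb3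
  rw [hb2]
  nlinarith

private theorem TPR2_G {b1 b2 b3 t : ℝ} (hb1 : 0 ≤ b1) (hb3 : 0 ≤ b3) (hb2 : b2 = b1 + b3)
    (ht : 0 ≤ t) (k : ℤ × ℤ) (Q : ℝ) (hQ : ((max |k.2| |k.1| + |k.1 + k.2| : ℤ) : ℝ) ≤ Q)
    (m : ℕ) :
    t ^ m * (Wb b1 b2 b3 k * (Wb b1 b2 b3 k + 8 * b2)) ≤ 16 * b2 ^ 2 * (Q * (Q + 2)) * t ^ m := by
  have hb20 : 0 ≤ b2 := by rw [hb2]; positivity
  have hW0 := TPR2_Wb_nonneg hb1 hb20 hb3 k
  have hW : Wb b1 b2 b3 k ≤ 4 * b2 * Q :=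
    (TPR2_Wb_le hb1 hb3 hb2 k).trans (mul_le_mul_of_nonneg_left hQ (by positivity))
  have hQ0 : 0 ≤ 4 * b2 * Q := hW0.trans hW
  have h1 : Wb b1 b2 b3 k * (Wb b1 b2 b3 k + 8 * b2) ≤ (4 * b2 * Q) * (4 * b2 * Q + 8 * b2) :=
    mul_le_mul hW (by linarith) (by positivity) hQ0
  have h2 := mul_le_mul_of_nonneg_left h1 (pow_nonneg ht m)
  refine h2.trans (le_of_eq ?_)
  ring

private theorem TPR2_mem (k : ℤ × ℤ) : k ∈ F19 ↔ k ∈ F7 ∨ k ∈ S4 := by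
  unfold F19 F7
  simp only [Finset.mem_union]

private theorem TPR2_disj {k : ℤ × ℤ} (h : k ∈ S4) : k ∉ F7 := by
  have hd : Disjoint S4 F7 := by
    unfold S4 F7 S1 S3
    decide
  exact Finset.disjoint_left.1 hd h

/-- `R2` -/
theorem TP.R2 {y A1 A2 A3 H ρ x t : ℝ} (P : TP y A1 A2 A3 H ρ x t) (b1 b2 b3 : ℝ)
    (hb1 : 0 ≤ b1) (hb3 : 0 ≤ b3) (hb2 : b2 = b1 + b3) :
    (Summable fun k => cc y y y k * (Wb b1 b2 b3 k * (Wb b1 b2 b3 k + 8 * b2))) ∧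
    ∑' k, (if k ∈ F7 then 0 else cc y y y k * (Wb b1 b2 b3 k * (Wb b1 b2 b3 k + 8 * b2))) ≤
      128 * t ^ 4 * ((b2 + b3) * (b2 + b3 + b2) + (b3 + b1) * (b3 + b1 + b2)
        + (b1 + b2) * (b1 + b2 + b2)) + 8736 * b2 ^ 2 * t ^ 7 := by
  have hb20 : 0 ≤ b2 := by rw [hb2]; positivity
  have ht0 : 0 ≤ t := by rw [P.ht]; exact (Real.exp_pos _).le
  have ht2 := P.ht2
  have hcc : ∀ k, cc y y y k = t ^ (Nf k).toNat := fun k => (P.cc_le k).2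
  simp only [hcc]
  obtain ⟨G, hG⟩ : ∃ G : ℤ × ℤ → ℝ, G = fun k =>
    t ^ (Nf k).toNat * (Wb b1 b2 b3 k * (Wb b1 b2 b3 k + 8 * b2)) := ⟨_, rfl⟩
  have hGk : ∀ k, t ^ (Nf k).toNat * (Wb b1 b2 b3 k * (Wb b1 b2 b3 k + 8 * b2)) = G k :=
    fun k => by rw [hG]
  simp only [hGk]
  have hG0 : ∀ k, 0 ≤ G k := by
    intro k
    have := TPR2_Wb_nonneg hb1 hb20 hb3 k
    rw [← hGk]
    positivity
  have hN : ∀ (N Q : ℤ) (k : ℤ × ℤ), Nf k = N → 4 * N < (Q + 1) ^ 2 → 0 ≤ Q →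
      G k ≤ 16 * b2 ^ 2 * ((Q : ℝ) * (Q + 2)) * t ^ N.toNat := by
    intro N Q k hk hNQ hQ
    rw [← hGk, hk]
    refine TPR2_G hb1 hb3 hb2 ht0 k Q ?_ _
    have h1 := TPR2_q k
    rw [hk] at h1
    have h2 : (max |k.2| |k.1| + |k.1 + k.2|) < Q + 1 := by
      refine lt_of_pow_lt_pow_left₀ 2 (by linarith) ?_
      linarith
    exact_mod_cast Int.lt_add_one_iff.1 h2
  have h19 : ∀ k, 19 ≤ Nf k → G k ≤ (192 * b2 ^ 2) * ((Nf k : ℝ) ^ 2 * t ^ (Nf k).toNat) := by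
    intro k hk
    obtain ⟨q, hq⟩ : ∃ q : ℤ, q = max |k.2| |k.1| + |k.1 + k.2| := ⟨_, rfl⟩
    have h1 := TPR2_q k
    have h2 : G k ≤ 16 * b2 ^ 2 * ((q : ℝ) * (q + 2)) * t ^ (Nf k).toNat := by
      rw [← hGk]
      exact TPR2_G hb1 hb3 hb2 ht0 k q (by rw [hq]) _
    rw [← hq] at h1
    have h3 : q ≤ q ^ 2 := by
      rcases le_or_gt q 0 with h | h
      · nlinarith
      · nlinarith
    have h4 : q * (q + 2) ≤ 12 * (Nf k) ^ 2 := by nlinarith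
    have h5 : (q : ℝ) * (q + 2) ≤ 12 * (Nf k : ℝ) ^ 2 := by exact_mod_cast h4
    have h6 : 16 * b2 ^ 2 * ((q : ℝ) * (q + 2)) * t ^ (Nf k).toNat ≤
        16 * b2 ^ 2 * (12 * (Nf k : ℝ) ^ 2) * t ^ (Nf k).toNat := by
      refine mul_le_mul_of_nonneg_right ?_ (pow_nonneg ht0 _)
      exact mul_le_mul_of_nonneg_left h5 (by positivity)
    refine h2.trans (h6.trans (le_of_eq ?_))
    ring
  have hsh := shells_sum G (560 * b2 ^ 2 * t ^ 7) (768 * b2 ^ 2 * t ^ 9) (768 * b2 ^ 2 * t ^ 12)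
    (1008 * b2 ^ 2 * t ^ 13) (1280 * b2 ^ 2 * t ^ 16) (192 * b2 ^ 2) t (by positivity) ht0
    (by linarith) hG0
    (fun k hk => (hN 7 5 k hk (by norm_num) (by norm_num)).trans (le_of_eq (by
      push_cast; ring)))
    (fun k hk => (hN 9 6 k hk (by norm_num) (by norm_num)).trans (le_of_eq (by
      push_cast; ring)))
    (fun k hk => (hN 12 6 k hk (by norm_num) (by norm_num)).trans (le_of_eq (by
      push_cast; ring)))
    (fun k hk => (hN 13 7 k hk (by norm_num) (by norm_num)).trans (le_of_eq (by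
      push_cast; ring)))
    (fun k hk => (hN 16 8 k hk (by norm_num) (by norm_num)).trans (le_of_eq (by
      push_cast; ring)))
    h19
  obtain ⟨hsum, hle⟩ := hsh
  have hS4sum : Summable (fun k => if k ∈ S4 then G k else 0) := by
    refine summable_of_ne_finset_zero (s := S4) ?_
    intro k hk
    simp [hk]
  have hsplit : (fun k => if k ∈ F7 then 0 else G k) =
      fun k => (if k ∈ S4 then G k else 0) + (if k ∈ F19 then 0 else G k) := by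
    funext k
    by_cases h4 : k ∈ S4
    · have h7 := TPR2_disj h4
      have h9 : k ∈ F19 := (TPR2_mem k).2 (Or.inr h4)
      simp [h4, h7, h9]
    · by_cases h7 : k ∈ F7
      · have h9 : k ∈ F19 := (TPR2_mem k).2 (Or.inl h7)
        simp [h4, h7, h9]
      · have h9 : k ∉ F19 := fun h => ((TPR2_mem k).1 h).elim h7 h4
        simp [h4, h7, h9]
  constructor
  · have hF19sum : Summable (fun k => if k ∈ F19 then G k else 0) := by
      refine summable_of_ne_finset_zero (s := F19) ?_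
      intro k hk
      simp [hk]
    have h := hF19sum.add hsum
    refine h.congr ?_
    intro k
    by_cases h9 : k ∈ F19 <;> simp [h9]
  · rw [hsplit, hS4sum.tsum_add hsum]
    have hS4 : ∑' k, (if k ∈ S4 then G k else 0) = 128 * t ^ 4 *
        ((b2 + b3) * (b2 + b3 + b2) + (b3 + b1) * (b3 + b1 + b2)
          + (b1 + b2) * (b1 + b2 + b2)) := by
      rw [tsum_eq_sum (s := S4) (by intro k hk; simp [hk])]
      have e1 : ∑ k ∈ S4, (if k ∈ S4 then G k else 0) = ∑ k ∈ S4, G k :=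
        Finset.sum_congr rfl (fun k hk => by simp [hk])
      rw [e1, hG]
      unfold S4
      rw [Finset.sum_insert (by decide), Finset.sum_insert (by decide),
        Finset.sum_insert (by decide), Finset.sum_insert (by decide),
        Finset.sum_insert (by decide), Finset.sum_singleton]
      have n1 : (Nf (2, 0)).toNat = 4 := by decide
      have n2 : (Nf (-2, 0)).toNat = 4 := by decide
      have n3 : (Nf (0, 2)).toNat = 4 := by decide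
      have n4 : (Nf (0, -2)).toNat = 4 := by decide
      have n5 : (Nf (2, -2)).toNat = 4 := by decide
      have n6 : (Nf (-2, 2)).toNat = 4 := by decide
      simp only [n1, n2, n3, n4, n5, n6]
      unfold Wb
      norm_num
      ring
    rw [hS4]
    have hU : 0 ≤ b2 ^ 2 * t ^ 7 := by positivity
    have p2 : t ^ 2 ≤ (17 / 100) ^ 2 := pow_le_pow_left₀ ht0 ht2 2
    have p5 : t ^ 5 ≤ (17 / 100) ^ 5 := pow_le_pow_left₀ ht0 ht2 5
    have p6 : t ^ 6 ≤ (17 / 100) ^ 6 := pow_le_pow_left₀ ht0 ht2 6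
    have p9 : t ^ 9 ≤ (17 / 100) ^ 9 := pow_le_pow_left₀ ht0 ht2 9
    have p12 : t ^ 12 ≤ (17 / 100) ^ 12 := pow_le_pow_left₀ ht0 ht2 12
    have q2 := mul_le_mul_of_nonneg_left p2 hU
    have q5 := mul_le_mul_of_nonneg_left p5 hU
    have q6 := mul_le_mul_of_nonneg_left p6 hU
    have q9 := mul_le_mul_of_nonneg_left p9 hU
    have q12 := mul_le_mul_of_nonneg_left p12 hU
    have e : 12 * (560 * b2 ^ 2 * t ^ 7) + 6 * (768 * b2 ^ 2 * t ^ 9) + 6 * (768 * b2 ^ 2 * t ^ 12) +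
        12 * (1008 * b2 ^ 2 * t ^ 13) + 6 * (1280 * b2 ^ 2 * t ^ 16) +
        192 * b2 ^ 2 * (7776 * t ^ 19) =
        6720 * (b2 ^ 2 * t ^ 7) + 4608 * (b2 ^ 2 * t ^ 7 * t ^ 2) + 4608 * (b2 ^ 2 * t ^ 7 * t ^ 5) +
        12096 * (b2 ^ 2 * t ^ 7 * t ^ 6) + 7680 * (b2 ^ 2 * t ^ 7 * t ^ 9) +
        1492992 * (b2 ^ 2 * t ^ 7 * t ^ 12) := by ring
    rw [e] at hle
    norm_num at q2 q5 q6 q9 q12
    linarith

end MP7e122f.R
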