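import Pool.Agent.Lib.MP_7e122f_anR.RemA
import Pool.Agent.Lib.MP_7e122f_anR.Shell1
import Pool.Agent.Lib.MP_7e122f_anR.Shell3
import Pool.Agent.Lib.MP_7e122f_anR.Far
import Pool.Agent.Lib.MP_7e122f_anR.TPR0
import Pool.Agent.Lib.MP_7e122f_anR.TPR1
import Pool.Agent.Lib.MP_7e122f_anR.TPR2

namespace MP7e122f.R

noncomputable section

private theorem Core_sumF7 (D : ℤ × ℤ → ℝ) : ∑ k ∈ F7, D k =
    D (0, 0) + (D (1, 0) + D (-1, 0) + D (0, 1) + D (0, -1) + D (1, -1) + D (-1, 1))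
      + (D (1, 1) + D (-1, -1) + D (1, -2) + D (-1, 2) + D (2, -1) + D (-2, 1)) := by
  have h : F7 = {(0, 0), (1, 0), (-1, 0), (0, 1), (0, -1), (1, -1), (-1, 1),
      (1, 1), (-1, -1), (1, -2), (-1, 2), (2, -1), (-2, 1)} := by
    unfold F7 S1 S3
    decide
  rw [h]
  repeat rw [Finset.sum_insert (by decide)]
  rw [Finset.sum_singleton]
  ring

private theorem Core_sumS4 (D : ℤ × ℤ → ℝ) : ∑ k ∈ S4, D k =
    D (2, 0) + D (-2, 0) + D (0, 2) + D (0, -2) + D (2, -2) + D (-2, 2) := by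
  unfold S4
  repeat rw [Finset.sum_insert (by decide)]
  rw [Finset.sum_singleton]
  ring

private theorem Core_split (D : ℤ × ℤ → ℝ) (hD : Summable D) :
    ∑' k, D k = ∑ k ∈ F7, D k + ∑' k, (if k ∈ F7 then 0 else D k) := by
  have h1 : Summable (fun k => if k ∈ F7 then D k else 0) := by
    refine summable_of_ne_finset_zero (s := F7) ?_
    intro k hk
    simp [hk]
  have h2 : Summable (fun k => if k ∈ F7 then 0 else D k) := by
    refine (hD.sub h1).congr ?_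
    intro k
    by_cases h : k ∈ F7 <;> simp [h]
  have h3 : D = fun k => (if k ∈ F7 then D k else 0) + (if k ∈ F7 then 0 else D k) := by
    funext k
    by_cases h : k ∈ F7 <;> simp [h]
  conv_lhs => rw [h3]
  rw [h1.tsum_add h2]
  congr 1
  rw [tsum_eq_sum (s := F7) (by intro k hk; simp [hk])]
  exact Finset.sum_congr rfl (fun k hk => by simp [hk])

private theorem Core_summable {w Φ : ℤ × ℤ → ℝ} (hw : Summable w) (h0 : ∀ k, 0 ≤ w k)
    (hΦ : ∀ k, |Φ k| ≤ 1) : Summable (fun k => w k * Φ k) := by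
  refine Summable.of_norm_bounded (g := w) hw ?_
  intro k
  rw [Real.norm_eq_abs, abs_mul, abs_of_nonneg (h0 k)]
  exact mul_le_of_le_one_right (h0 k) (hΦ k)

/-- The full second order expansion: add `shell1`, `shell3`, `far_part` (with `TP.R0`, `TP.R1`,
`TP.R2`).  `s1 = Φ 0 (1,0)`, `s3 = Φ 0 (1,1)`, `s4 = Φ 0 (2,0)`. -/
theorem E_core {δ y A1 A2 A3 H ρ x t ν t1 t2 t3 w1 w2 w3 u2 u3 : ℝ} {Φ : ℝ → ℤ × ℤ → ℝ}
    (hs : Real.sin (Real.pi * δ) ≠ 0) (P : TP y A1 A2 A3 H ρ x t) (hH : 0 ≤ H)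
    (h : Fam δ (t2 - t3) (t3 - t1) (t1 - t2) Φ)
    (ht1 : t1 = Real.exp (-(A2 + A3))) (ht2 : t2 = Real.exp (-(A3 + A1)))
    (ht3 : t3 = Real.exp (-(A1 + A2)))
    (hw1 : w1 = Real.exp (-(4 * A1 + A2 + A3))) (hw2 : w2 = Real.exp (-(4 * A2 + A3 + A1)))
    (hw3 : w3 = Real.exp (-(4 * A3 + A1 + A2)))
    (hU2 : |UU δ 2| ≤ u2) (hU3 : |UU δ 3| ≤ u3)
    (hw : Summable (cc A3 A1 A2)) (hwH : Summable (cc y y y)) :
    |(∑' k, cc A3 A1 A2 k * Φ ν k - ∑' k, cc y y y k * Φ 0 k)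
      - (Φ 0 (1, 0) * (2 * (t1 + t2 + t3 - 3 * t)
            + 4 * ν * (Cov t1 t2 t3 w1 w2 w3 + Dq t1 t2 t3)
            - 8 * ν ^ 2 * (t1 + t2 + t3) * Dq t1 t2 t3)
        + Φ 0 (1, 1) * (2 * (w1 + w2 + w3 - 3 * t ^ 3) - 4 * ν * Dq t1 t2 t3
            + 4 * ν ^ 2 * (t1 + t2 + t3) * Dq t1 t2 t3)
        + Φ 0 (2, 0) * (2 * (t1 ^ 4 + t2 ^ 4 + t3 ^ 4 - 3 * t ^ 4))
        + Φ 0 (-2, 3) * (2 * ν ^ 2 * (t1 + t2 + t3) * Dq t1 t2 t3 - 4 * ν * P3 t1 t2 t3 w1 w2 w3)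
        + Φ 0 (-1, 3) * (2 * ν ^ 2 * (t1 + t2 + t3) * Dq t1 t2 t3 - 4 * ν * Q3 t1 t2 t3 w1 w2 w3))|
      ≤ remA A1 A2 A3 H y ρ x t ν t1 t2 t3 w1 w2 w3 u2 u3 := by
  have h12 : t2 ≤ t1 := by
    rw [ht1, ht2]
    exact Real.exp_le_exp.2 (by linarith [P.h12])
  have h23 : t3 ≤ t2 := by
    rw [ht2, ht3]
    exact Real.exp_le_exp.2 (by linarith [P.h23])
  have h3 : 0 ≤ t3 := by rw [ht3]; exact (Real.exp_pos _).le
  have hw10 : 0 ≤ w1 := by rw [hw1]; exact (Real.exp_pos _).le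
  have hw20 : 0 ≤ w2 := by rw [hw2]; exact (Real.exp_pos _).le
  have hw30 : 0 ≤ w3 := by rw [hw3]; exact (Real.exp_pos _).le
  have hΦ : ∀ ν k, |Φ ν k| ≤ 1 := fun ν k => (h.adm ν).1 k
  have q1 := shell1 hs h h12 h23 h3 hU2 hU3 ν
  have q3 := shell3 hs h h12 h23 hw10 hw20 hw30 hU2 hU3 ν
  have r0 := P.R0 hH hw hwH (Φ 0) (hΦ 0) h.rot
  have r1 := P.R1 hH (t2 - t3) (t1 - t3) (t1 - t2) (by linarith) (by linarith) (by ring)
  have r2 := P.R2 (t2 - t3) (t1 - t3) (t1 - t2) (by linarith) (by linarith) (by ring)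
  have q4 := far_part (ν := ν) hs P.hy h h12 h23 hw hwH r0 r1.1 r1.2 r2.1 r2.2
  -- splitting of the sum
  have c0 : ∀ A B C k, 0 ≤ cc A B C k := fun A B C k => (Real.exp_pos _).le
  have sA := Core_summable hw (c0 A3 A1 A2) (hΦ ν)
  have sY := Core_summable hwH (c0 y y y) (hΦ 0)
  rw [← sA.tsum_sub sY, Core_split _ (sA.sub sY), Core_sumF7]
  -- values of the weights
  have hcc : ∀ A B C (a b : ℤ), cc A B C (a, b) =
      Real.exp (-(A * (a : ℝ) ^ 2 + B * (b : ℝ) ^ 2 + C * ((a : ℝ) + b) ^ 2)) := by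
    intro A B C a b
    rfl
  have v0 : ∀ A B C : ℝ, cc A B C (0, 0) = 1 := by
    intro A B C
    rw [hcc]
    norm_num
  have a1 : cc A3 A1 A2 (1, 0) = t1 := by rw [hcc, ht1]; congr 1; push_cast; ring
  have a1' : cc A3 A1 A2 (-1, 0) = t1 := by rw [hcc, ht1]; congr 1; push_cast; ring
  have a3 : cc A3 A1 A2 (0, 1) = t3 := by rw [hcc, ht3]; congr 1; push_cast; ring
  have a3' : cc A3 A1 A2 (0, -1) = t3 := by rw [hcc, ht3]; congr 1; push_cast; ring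
  have a2 : cc A3 A1 A2 (1, -1) = t2 := by rw [hcc, ht2]; congr 1; push_cast; ring
  have a2' : cc A3 A1 A2 (-1, 1) = t2 := by rw [hcc, ht2]; congr 1; push_cast; ring
  have b2 : cc A3 A1 A2 (1, 1) = w2 := by rw [hcc, hw2]; congr 1; push_cast; ring
  have b2' : cc A3 A1 A2 (-1, -1) = w2 := by rw [hcc, hw2]; congr 1; push_cast; ring
  have b1 : cc A3 A1 A2 (1, -2) = w1 := by rw [hcc, hw1]; congr 1; push_cast; ring
  have b1' : cc A3 A1 A2 (-1, 2) = w1 := by rw [hcc, hw1]; congr 1; push_cast; ring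
  have b3 : cc A3 A1 A2 (2, -1) = w3 := by rw [hcc, hw3]; congr 1; push_cast; ring
  have b3' : cc A3 A1 A2 (-2, 1) = w3 := by rw [hcc, hw3]; congr 1; push_cast; ring
  have tt := P.ht
  have y1 : ∀ a b : ℤ, Nf (a, b) = 1 → cc y y y (a, b) = t := by
    intro a b hab
    rw [(P.cc_le (a, b)).2, hab]
    simp
  have y3 : ∀ a b : ℤ, Nf (a, b) = 3 → cc y y y (a, b) = t ^ 3 := by
    intro a b hab
    rw [(P.cc_le (a, b)).2, hab]
    rfl
  have y4 : ∀ a b : ℤ, Nf (a, b) = 4 → cc y y y (a, b) = t ^ 4 := by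
    intro a b hab
    rw [(P.cc_le (a, b)).2, hab]
    rfl
  -- the fourth shell
  have s4 : ∑ k ∈ S4, (cc A3 A1 A2 k - cc y y y k) =
      2 * (t1 ^ 4 + t2 ^ 4 + t3 ^ 4 - 3 * t ^ 4) := by
    rw [Core_sumS4]
    have p4 : ∀ z : ℝ, Real.exp z ^ 4 = Real.exp (4 * z) := by
      intro z
      rw [← Real.exp_nat_mul]
      norm_num
    have d1 : cc A3 A1 A2 (2, 0) = t1 ^ 4 := by
      rw [hcc, ht1, p4]; congr 1; push_cast; ring
    have d1' : cc A3 A1 A2 (-2, 0) = t1 ^ 4 := by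
      rw [hcc, ht1, p4]; congr 1; push_cast; ring
    have d3 : cc A3 A1 A2 (0, 2) = t3 ^ 4 := by
      rw [hcc, ht3, p4]; congr 1; push_cast; ring
    have d3' : cc A3 A1 A2 (0, -2) = t3 ^ 4 := by
      rw [hcc, ht3, p4]; congr 1; push_cast; ring
    have d2 : cc A3 A1 A2 (2, -2) = t2 ^ 4 := by
      rw [hcc, ht2, p4]; congr 1; push_cast; ring
    have d2' : cc A3 A1 A2 (-2, 2) = t2 ^ 4 := by
      rw [hcc, ht2, p4]; congr 1; push_cast; ring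
    rw [d1, d1', d2, d2', d3, d3', y4 2 0 (by decide), y4 (-2) 0 (by decide),
      y4 0 2 (by decide), y4 0 (-2) (by decide), y4 2 (-2) (by decide), y4 (-2) 2 (by decide)]
    ring
  rw [s4] at q4
  -- values of the states
  have m1 : ∀ ν, Φ ν (-1, 0) = Φ ν (1, 0) := by
    intro ν
    have := h.neg ν (1, 0)
    simpa using this
  have m2 : ∀ ν, Φ ν (1, -1) = Φ ν (-1, 1) := by
    intro ν
    have := h.neg ν (-1, 1)
    simpa using this
  have m3 : ∀ ν, Φ ν (0, 1) = Φ ν (0, -1) := by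
    intro ν
    have := h.neg ν (0, -1)
    simpa using this
  have n1 : ∀ ν, Φ ν (1, -2) = Φ ν (-1, 2) := by
    intro ν
    have := h.neg ν (-1, 2)
    simpa using this
  have n2 : ∀ ν, Φ ν (1, 1) = Φ ν (-1, -1) := by
    intro ν
    have := h.neg ν (-1, -1)
    simpa using this
  have n3 : ∀ ν, Φ ν (-2, 1) = Φ ν (2, -1) := by
    intro ν
    have := h.neg ν (2, -1)
    simpa using this
  have o1 : Φ 0 (-1, 1) = Φ 0 (1, 0) := by
    have := h.rot (1, 0)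
    simpa [e3] using this
  have o2 : Φ 0 (0, -1) = Φ 0 (1, 0) := by
    have h1 := h.rot (-1, 1)
    rw [o1] at h1
    simpa [e3] using h1
  have o3 : Φ 0 (2, -1) = Φ 0 (1, 1) := by
    have h1 := h.rot (1, 1)
    rw [← n3]
    simpa [e3] using h1
  have o4 : Φ 0 (-1, 2) = Φ 0 (1, 1) := by
    have h1 := h.rot (-2, 1)
    rw [n3, o3] at h1
    rw [← n1]
    simpa [e3] using h1
  have z0 : ∀ ν, Φ ν (0, 0) = 1 := h.zero
  simp only [v0, a1, a1', a2, a2', a3, a3', b1, b1', b2, b2', b3, b3', z0, m1, m2, m3, n1, n2 ν, n3]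
  rw [y1 1 0 (by decide), y1 (-1) 0 (by decide), y1 0 1 (by decide), y1 0 (-1) (by decide),
    y1 1 (-1) (by decide), y1 (-1) 1 (by decide), y3 1 1 (by decide), y3 (-1) (-1) (by decide),
    y3 1 (-2) (by decide), y3 (-1) 2 (by decide), y3 2 (-1) (by decide), y3 (-2) 1 (by decide)]
  rw [← n2 0, o1, o2, o3, o4]
  obtain ⟨T, hT⟩ : ∃ T : ℝ, T = ∑' k, (if k ∈ F7 then 0 else
    (cc A3 A1 A2 k * Φ ν k - cc y y y k * Φ 0 k)) := ⟨_, rfl⟩
  rw [← hT] at q4 ⊢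
  unfold remA
  have key : ∀ a b c X A B C : ℝ, |a| ≤ A → |b| ≤ B → |c| ≤ C → X = a + b + c →
      |X| ≤ C + B + A := by
    intro a b c X A B C ha hb hc hX
    rw [hX]
    have k1 := abs_add_le (a + b) c
    have k2 := abs_add_le a b
    linarith
  refine key _ _ _ _ _ _ _ q1 q3 q4 ?_
  ring

end

end MP7e122f.R
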