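import Pool.Agent.Lib.MP_7e122f_an.Main

/-!
# Definitions for the range `1 < δ < 2`

Everything lives in the namespace `MP7e122f.R`; the library of the case `δ ≥ 2`
(`Pool.Agent.Lib.MP_7e122f_an`) is used freely (`aval`, `bval`, `st`, `TS`, `wt`, `cc`, `e3`, ...).

Conventions.  For a matrix `M` with `det M = 1 / δ` one has
`ρ_k ρ_l = exp (-π i δ (k ∧ l)) ρ_{k+l}`, `k ∧ l = k.1 * l.2 - k.2 * l.1`, `ρ_k = rho (zet M k)`.
The three short vectors are `u1 = (1,0)`, `u2 = (-1,1)`, `u3 = (0,-1)`; `u1 + u2 + u3 = 0`,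
`u_i ∧ u_{i+1} = 1`, and `e3` maps `u1 ↦ u2 ↦ u3 ↦ u1`.  Moreover
`u1 ∧ k = k.2`, `u2 ∧ k = -(k.1+k.2)`, `u3 ∧ k = k.1`.
-/

open MeasureTheory Complex
open scoped ComplexInnerProductSpace ENNReal ComplexOrder

namespace MP7e122f.R

/-- the symplectic form -/
def wdg (k l : ℤ × ℤ) : ℤ := k.1 * l.2 - k.2 * l.1

/-- `φ` is an admissible state function for the covolume `D`: it gives a value between the two
optimal constants for every lattice of covolume `D`. -/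
def Adm (D : ℝ) (φ : ℤ × ℤ → ℝ) : Prop :=
  (∀ k, |φ k| ≤ 1) ∧ ∀ M : Mat, 0 < M.det → M.det = D →
    aval M ≤ ∑' k, wt M k * φ k ∧ ∑' k, wt M k * φ k ≤ bval M

/-- `U(w) = sin(πδw)/sin(πδ)` -/
noncomputable def UU (δ : ℝ) (w : ℤ) : ℝ := Real.sin (Real.pi * δ * w) / Real.sin (Real.pi * δ)

/-- the one-parameter family of states used in the comparison -/
structure Fam (δ β1 β2 β3 : ℝ) (Φ : ℝ → ℤ × ℤ → ℝ) : Prop where
  adm : ∀ ν, Adm (1 / δ) (Φ ν)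
  zero : ∀ ν, Φ ν (0, 0) = 1
  neg : ∀ ν k, Φ ν (-k) = Φ ν k
  rot : ∀ k, Φ 0 (e3 k) = Φ 0 k
  deriv : ∀ (ν : ℝ) (k : ℤ × ℤ), HasDerivAt (fun ν => Φ ν k)
    (2 * (β1 * UU δ k.2 * (Φ ν (k + (1, 0)) - Φ ν (k - (1, 0)))
      + β2 * UU δ (-(k.1 + k.2)) * (Φ ν (k + (-1, 1)) - Φ ν (k - (-1, 1)))
      + β3 * UU δ k.1 * (Φ ν (k + (0, -1)) - Φ ν (k - (0, -1))))) ν

/-- the constraints satisfied by the values of a state on the seven point set -/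
structure Cons (δ s1 s3 s4 : ℝ) : Prop where
  b1 : |s1| ≤ 1
  b3 : |s3| ≤ 1
  b4 : |s4| ≤ 1
  c0 : 6 * s1 ^ 2 ≤ 1 + 2 * Real.cos (Real.pi * δ) * (s1 + s3) + s4
  c1 : 0 ≤ 1 + 2 * s1 * Real.cos (Real.pi * δ - Real.pi / 3)
    + 2 * s3 * Real.cos (Real.pi * δ - 2 * Real.pi / 3) - s4
  c2 : 0 ≤ 1 + 2 * s1 * Real.cos (Real.pi * δ - 2 * Real.pi / 3)
    + 2 * s3 * Real.cos (Real.pi * δ + 2 * Real.pi / 3) + s4
  c3 : 0 ≤ 1 - 2 * s1 * Real.cos (Real.pi * δ) + 2 * s3 * Real.cos (Real.pi * δ) - s4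
  c4 : 0 ≤ 1 + 2 * s1 * Real.cos (Real.pi * δ + 2 * Real.pi / 3)
    + 2 * s3 * Real.cos (Real.pi * δ - 2 * Real.pi / 3) + s4
  c5 : 0 ≤ 1 + 2 * s1 * Real.cos (Real.pi * δ + Real.pi / 3)
    + 2 * s3 * Real.cos (Real.pi * δ + 2 * Real.pi / 3) - s4

/-- average over the three rotations -/
noncomputable def rav (φ : ℤ × ℤ → ℝ) (k : ℤ × ℤ) : ℝ := (φ k + φ (e3 k) + φ (e3.symm k)) / 3

/-- twisted positive definiteness with flux `δ` -/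
def TPD (δ : ℝ) (ψ : ℤ × ℤ → ℂ) : Prop := ∀ s : Finset (ℤ × ℤ),
  (Matrix.of fun k l : s => cexp (Real.pi * I * δ * (wdg k l : ℤ)) * ψ ((l : ℤ × ℤ) - k)).PosSemidef

/-- the quadratic character -/
def sig (k : ℤ × ℤ) : ℤ := if Even k.1 ∧ Even k.2 then 1 else -1

/-- `+1` except on the class of `u3` modulo 2 (first coordinate even, second odd) -/
def sigB (k : ℤ × ℤ) : ℤ := if Even k.1 ∧ ¬ Even k.2 then -1 else 1

end MP7e122f.R
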