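import Pool.Agent.Lib.MP_7e122f_anR.Defs

/-!
# Quantities occurring in the second order comparison

`t_i` is the weight of `±u_i`, `w_i` the weight of `±v_i`, `v_i = u_{i+1} - u_{i+2}`
(`v1 = (-1,2)`, `v2 = (-1,-1)`, `v3 = (2,-1)`).  `β_i = t_{i+1} - t_{i+2}`, and (sorted case
`t1 ≥ t2 ≥ t3`) `b1 = |β1| = t2 - t3`, `b2 = |β2| = t1 - t3`, `b3 = |β3| = t1 - t2`.
`hp_i = 2 u_{i+1} - u_{i+2}`, `hm_i = u_{i+1} - 2 u_{i+2}` (the twelve vectors of norm 7 are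
`± hp_i`, `± hm_i`); `hp1 = (-2,3)`, `hm1 = (-1,3)`.
-/

namespace MP7e122f.R

noncomputable section

/-- `Δ² = 3 ∑ t² - (∑ t)²` -/
def Dq (t1 t2 t3 : ℝ) : ℝ := 3 * (t1 ^ 2 + t2 ^ 2 + t3 ^ 2) - (t1 + t2 + t3) ^ 2

/-- `|γ_j|`, `γ_j = ∑ t² - t_j ∑ t = t_{j+2} β_{j+1} - t_{j+1} β_{j+2}` -/
def ga1 (t1 t2 t3 : ℝ) : ℝ := t3 * (t1 - t3) + t2 * (t1 - t2)
def ga2 (t1 t2 t3 : ℝ) : ℝ := |t1 * (t1 - t2) - t3 * (t2 - t3)|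
def ga3 (t1 t2 t3 : ℝ) : ℝ := t2 * (t2 - t3) + t1 * (t1 - t3)

def Cov (t1 t2 t3 w1 w2 w3 : ℝ) : ℝ :=
  (w1 + w2 + w3) * (t1 + t2 + t3) - 3 * (w1 * t1 + w2 * t2 + w3 * t3)
def P3 (t1 t2 t3 w1 w2 w3 : ℝ) : ℝ := w1 * (t3 - t1) + w2 * (t1 - t2) + w3 * (t2 - t3)
def Q3 (t1 t2 t3 w1 w2 w3 : ℝ) : ℝ := -(w1 * (t1 - t2) + w2 * (t2 - t3) + w3 * (t3 - t1))

/-- bounds of `|Φ'|` at `u_k`, `v_k`, `2 u_k`, `hp_k`, `hm_k`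
(arguments: `b_k`, `b_{k+1}`, `b_{k+2}`) -/
def nR (_b b' b'' : ℝ) : ℝ := 4 * (b' + b'')
def nW (u2 b b' b'' : ℝ) : ℝ := 4 * (u2 * b + b' + b'')
def nS (u2 _b b' b'' : ℝ) : ℝ := 4 * (u2 * (b' + b''))
def nHp (u2 u3 b b' b'' : ℝ) : ℝ := 4 * (b' + u2 * b'' + u3 * b)
def nHm (u2 u3 b b' b'' : ℝ) : ℝ := 4 * (b'' + u2 * b' + u3 * b)

/-- `|F₁'''| ≤ 8 n3`, `F₁ ν = 2 ∑ t_i Φ_ν(u_i)`.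
`D = Dq`, `g_i = ga_i`, `b_i` as above. -/
def n3g (D t1 t2 t3 b1 b2 b3 g1 g2 g3 u2 u3 : ℝ) : ℝ :=
  D * t1 * (2 * nR b1 b2 b3 + nW u2 b1 b2 b3)
  + D * t2 * (2 * nR b2 b3 b1 + nW u2 b2 b3 b1)
  + D * t3 * (2 * nR b3 b1 b2 + nW u2 b3 b1 b2)
  + u2 * (b2 * g2 + b3 * g3) * nS u2 b1 b2 b3
  + u2 * (b3 * g3 + b1 * g1) * nS u2 b2 b3 b1
  + u2 * (b1 * g1 + b2 * g2) * nS u2 b3 b1 b2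
  + g1 * (b2 * nHp u2 u3 b1 b2 b3 + b3 * nHm u2 u3 b1 b2 b3)
  + g2 * (b3 * nHp u2 u3 b2 b3 b1 + b1 * nHm u2 u3 b2 b3 b1)
  + g3 * (b1 * nHp u2 u3 b3 b1 b2 + b2 * nHm u2 u3 b3 b1 b2)

def n3v (t1 t2 t3 u2 u3 : ℝ) : ℝ :=
  n3g (Dq t1 t2 t3) t1 t2 t3 (t2 - t3) (t1 - t3) (t1 - t2) (ga1 t1 t2 t3) (ga2 t1 t2 t3)
    (ga3 t1 t2 t3) u2 u3

/-- `|F₃''| ≤ 4 n2`, `F₃ ν = 2 ∑ w_i Φ_ν(v_i)` -/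
def n2g (w1 w2 w3 b1 b2 b3 u2 u3 : ℝ) : ℝ :=
  w1 * (b2 * nHp u2 u3 b1 b2 b3 + b3 * nHm u2 u3 b1 b2 b3)
  + w2 * (b3 * nHp u2 u3 b2 b3 b1 + b1 * nHm u2 u3 b2 b3 b1)
  + w3 * (b1 * nHp u2 u3 b3 b1 b2 + b2 * nHm u2 u3 b3 b1 b2)
  + (w2 * b3 + w3 * b2) * nR b1 b2 b3
  + (w3 * b1 + w1 * b3) * nR b2 b3 b1
  + (w1 * b2 + w2 * b1) * nR b3 b1 b2
  + u2 * (w2 * b2 + w3 * b3) * nS u2 b1 b2 b3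
  + u2 * (w3 * b3 + w1 * b1) * nS u2 b2 b3 b1
  + u2 * (w1 * b1 + w2 * b2) * nS u2 b3 b1 b2

/-- first order bound `|Φ_ν'(k)| ≤ Wb k` (using `|U(n)| ≤ |n|`) -/
def Wb (b1 b2 b3 : ℝ) (k : ℤ × ℤ) : ℝ :=
  4 * (b1 * |(k.2 : ℝ)| + b2 * |((k.1 + k.2 : ℤ) : ℝ)| + b3 * |(k.1 : ℝ)|)

/-- `0` and the first two shells -/
def F7 : Finset (ℤ × ℤ) := {(0, 0)} ∪ S1 ∪ S3

end

end MP7e122f.R
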