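import Mathlib

open scoped InnerProductSpace

namespace MP7e122f.R

/-- The unitary flow of a bounded self-adjoint operator: `g ν = exp(iν K) f`
(`NormedSpace.exp`, `hasDerivAt_exp_smul_const` ...).  Norm: the derivative of `‖g ν‖²` is
`2 Re ⟪i K g, g⟫ = 0`. -/
theorem exp_family {E : Type*} [NormedAddCommGroup E] [InnerProductSpace ℂ E] [CompleteSpace E]
    (K : E →L[ℂ] E) (hK : ∀ x y, ⟪K x, y⟫_ℂ = ⟪x, K y⟫_ℂ) (f : E) :
    ∃ g : ℝ → E, g 0 = f ∧ (∀ ν, ‖g ν‖ = ‖f‖) ∧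
      ∀ ν, HasDerivAt g (Complex.I • K (g ν)) ν := by
  have hder : ∀ ν : ℝ, HasDerivAt
      (fun ν : ℝ => (NormedSpace.exp ((ν : ℂ) • (Complex.I • K))) f)
      (Complex.I • K ((NormedSpace.exp ((ν : ℂ) • (Complex.I • K))) f)) ν := by
    intro ν
    have h := hasDerivAt_exp_smul_const' (𝕂 := ℂ) (Complex.I • K) (ν : ℂ)
    have h2 := ((ContinuousLinearMap.apply ℂ E f).hasFDerivAt.comp_hasDerivAt (ν : ℂ) h)
    have h0 : HasDerivAt (fun x : ℝ => (x : ℂ)) 1 ν := Complex.ofRealCLM.hasDerivAt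
    have h3 := HasDerivAt.scomp ν h2 h0
    rw [one_smul] at h3
    exact h3
  refine ⟨fun ν : ℝ => (NormedSpace.exp ((ν : ℂ) • (Complex.I • K))) f, ?_, ?_, hder⟩
  · simp
  · set g : ℝ → E := fun ν : ℝ => (NormedSpace.exp ((ν : ℂ) • (Complex.I • K))) f with hg
    have hd : ∀ ν : ℝ, HasDerivAt (fun ν => ‖g ν‖ ^ 2) 0 ν := by
      intro ν
      have h1 : HasDerivAt (fun ν => ⟪g ν, g ν⟫_ℂ)
          (⟪g ν, Complex.I • K (g ν)⟫_ℂ + ⟪Complex.I • K (g ν), g ν⟫_ℂ) ν :=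
        HasDerivAt.inner ℂ (hder ν) (hder ν)
      have h2 : (⟪g ν, Complex.I • K (g ν)⟫_ℂ + ⟪Complex.I • K (g ν), g ν⟫_ℂ) = 0 := by
        rw [inner_smul_right, inner_smul_left, hK]
        simp
      rw [h2] at h1
      have h3 := Complex.reCLM.hasFDerivAt.comp_hasDerivAt ν h1
      have h4 : (Complex.reCLM ∘ fun ν => ⟪g ν, g ν⟫_ℂ) = fun ν => ‖g ν‖ ^ 2 := by
        funext x
        simp only [Function.comp, Complex.reCLM_apply]
        rw [inner_self_eq_norm_sq_to_K]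
        norm_cast
      rw [h4] at h3
      simpa using h3
    intro ν
    have hc : ‖g ν‖ ^ 2 = ‖g 0‖ ^ 2 := by
      have := is_const_of_deriv_eq_zero (f := fun ν => ‖g ν‖ ^ 2)
        (fun x => (hd x).differentiableAt) (fun x => (hd x).deriv) ν 0
      exact this
    have h0 : g 0 = f := by simp [hg]
    rw [h0] at hc
    exact (sq_eq_sq₀ (norm_nonneg _) (norm_nonneg _)).mp hc

/-- derivative of matrix elements along the flow -/
theorem deriv_inner {E : Type*} [NormedAddCommGroup E] [InnerProductSpace ℂ E]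
    (K T : E →L[ℂ] E) (hK : ∀ x y, ⟪K x, y⟫_ℂ = ⟪x, K y⟫_ℂ) (g : ℝ → E)
    (hg : ∀ ν, HasDerivAt g (Complex.I • K (g ν)) ν) (ν : ℝ) :
    HasDerivAt (fun ν => (⟪g ν, T (g ν)⟫_ℂ).re)
      ((Complex.I * ⟪g ν, T (K (g ν)) - K (T (g ν))⟫_ℂ).re) ν := by
  have hT : HasDerivAt (fun ν => T (g ν)) (T (Complex.I • K (g ν))) ν :=
    ((T.restrictScalars ℝ).hasFDerivAt.comp_hasDerivAt ν (hg ν))
  have h1 : HasDerivAt (fun ν => ⟪g ν, T (g ν)⟫_ℂ)
      (⟪g ν, T (Complex.I • K (g ν))⟫_ℂ + ⟪Complex.I • K (g ν), T (g ν)⟫_ℂ) ν :=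
    HasDerivAt.inner ℂ (hg ν) hT
  have h2 : (⟪g ν, T (Complex.I • K (g ν))⟫_ℂ + ⟪Complex.I • K (g ν), T (g ν)⟫_ℂ) =
      Complex.I * ⟪g ν, T (K (g ν)) - K (T (g ν))⟫_ℂ := by
    rw [map_smul, inner_smul_right, inner_smul_left, hK, inner_sub_right]
    simp
    ring
  rw [h2] at h1
  exact Complex.reCLM.hasFDerivAt.comp_hasDerivAt ν h1

end MP7e122f.R
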