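import Pool.Agent.Lib.MP_7e122f_anR.Defs

open MeasureTheory Complex
open scoped ComplexInnerProductSpace ENNReal ComplexOrder

namespace MP7e122f.R

/-- composition law. Proof: `Lp.ext` and `rho_coe` (twice on the left; compare the proof of
`rho_gv`): both sides are `t ↦ exp(...) f(t - z.1 - w.1)` a.e. -/
theorem rho_rho (z w : ℝ × ℝ) (f : L2) :
    rho z (rho w f) = cexp (Real.pi * I * (z.2 * w.1 - z.1 * w.2)) • rho (z + w) f := by
  apply Lp.ext
  have h1 := rho_coe z (rho w f)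
  have h2 := Lp.coeFn_smul (cexp (Real.pi * I * (z.2 * w.1 - z.1 * w.2))) (rho (z + w) f)
  have h3 := rho_coe (z + w) f
  have h4 := rho_coe w f
  have h5 := (measurePreserving_sub_right (volume : Measure ℝ) z.1).quasiMeasurePreserving.ae_eq_comp h4
  filter_upwards [h1, h2, h3, h5] with t a b c d
  rw [a, b, Pi.smul_apply, c, smul_eq_mul]
  have d' : (rho w f : ℝ → ℂ) (t - z.1) = ef w (t - z.1) * f (t - z.1 - w.1) := d
  rw [d', Prod.fst_add, ← sub_sub, ← mul_assoc, ← mul_assoc]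
  congr 1
  unfold ef
  rw [← Complex.exp_add, ← Complex.exp_add]
  congr 1
  simp only [Prod.fst_add, Prod.snd_add]
  push_cast
  ring

theorem Weyl_inv (z : ℝ × ℝ) (f : L2) : rho z (rho (-z) f) = f := by
  rw [rho_rho]
  have h0 : z + -z = (0, 0) := by
    rw [add_neg_cancel]
    rfl
  rw [h0, rho_zero]
  have h1 : cexp (Real.pi * I * (z.2 * (-z).1 - z.1 * (-z).2)) = 1 := by
    rw [← Complex.exp_zero]
    congr 1
    simp only [Prod.fst_neg, Prod.snd_neg]
    push_cast
    ring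
  rw [h1, one_smul]

theorem Weyl_norm (z : ℝ × ℝ) (f : L2) : ‖rho z f‖ = ‖f‖ := by
  refine le_antisymm (norm_rho_le z f) ?_
  have h := norm_rho_le (-z) (rho z f)
  have h1 := Weyl_inv (-z) f
  rw [neg_neg] at h1
  rwa [h1] at h

theorem Weyl_inner (z : ℝ × ℝ) (f g : L2) : ⟪rho z f, rho z g⟫ = ⟪f, g⟫ :=
  LinearIsometry.inner_map_map (⟨(rho z).toLinearMap, Weyl_norm z⟩ : L2 →ₗᵢ[ℂ] L2) f g

/-- the adjoint: from `rho_rho`, `rho_zero` and the fact that `rho z` is isometric
(`norm_rho_le` for `z` and `-z`), or directly by a change of variables. -/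
theorem rho_adj (z : ℝ × ℝ) (f g : L2) : ⟪rho z f, g⟫ = ⟪f, rho (-z) g⟫ := by
  conv_lhs => rw [← Weyl_inv z g]
  exact Weyl_inner z f _

theorem zet_add (M : Mat) (k l : ℤ × ℤ) : zet M (k + l) = zet M k + zet M l := by
  unfold zet lam act cst
  ext
  · simp only [Prod.fst_add, Prod.snd_add]
    push_cast
    ring
  · simp only [Prod.fst_add, Prod.snd_add]
    push_cast
    ring

theorem zet_neg (M : Mat) (k : ℤ × ℤ) : zet M (-k) = -zet M k := by
  unfold zet lam act cst
  ext
  · simp only [Prod.fst_neg, Prod.snd_neg]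
    push_cast
    ring
  · simp only [Prod.fst_neg, Prod.snd_neg]
    push_cast
    ring

theorem Weyl_wedge (M : Mat) (hM : 0 < M.det) (k l : ℤ × ℤ) :
    (zet M k).1 * (zet M l).2 - (zet M k).2 * (zet M l).1 = (1 / M.det) * (wdg k l : ℤ) := by
  have hd : M.det ≠ 0 := hM.ne'
  have e : M.det = M 0 0 * M 1 1 - M 0 1 * M 1 0 := Matrix.det_fin_two M
  unfold zet lam act cst wdg
  simp only
  field_simp
  rw [e]
  push_cast
  ring

/-- composition law on the lattice -/
theorem rho_zet (M : Mat) (hM : 0 < M.det) (k l : ℤ × ℤ) (f : L2) :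
    rho (zet M k) (rho (zet M l) f) =
      cexp (-(Real.pi * I * (1 / M.det) * (wdg k l : ℤ))) • rho (zet M (k + l)) f := by
  rw [rho_rho, zet_add]
  congr 2
  have h := Weyl_wedge M hM k l
  have h' : ((zet M k).1 : ℂ) * (zet M l).2 - (zet M k).2 * (zet M l).1 =
      (1 / (M.det : ℂ)) * ((wdg k l : ℤ) : ℂ) := by
    exact_mod_cast h
  linear_combination (-(Real.pi * I)) * h'

theorem inner_zet (M : Mat) (hM : 0 < M.det) (k l : ℤ × ℤ) (f : L2) :
    ⟪rho (zet M k) f, rho (zet M l) f⟫ =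
      cexp (Real.pi * I * (1 / M.det) * (wdg k l : ℤ)) * ⟪f, rho (zet M (l - k)) f⟫ := by
  rw [rho_adj, ← zet_neg, rho_zet M hM, inner_smul_right]
  have h1 : -k + l = l - k := by abel
  have h2 : wdg (-k) l = -wdg k l := by
    unfold wdg
    simp only [Prod.fst_neg, Prod.snd_neg]
    ring
  rw [h1, h2]
  congr 2
  push_cast
  ring

end MP7e122f.R
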