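import Pool.Agent.Lib.MP_7e122f_anR.Adm
import Pool.Agent.Lib.MP_7e122f_anR.Weyl
import Pool.Agent.Lib.MP_7e122f_anR.ExpFam

open MeasureTheory Complex
open scoped ComplexInnerProductSpace ENNReal ComplexOrder

namespace MP7e122f.R

theorem st_neg (M : Mat) (f : L2) (k : ℤ × ℤ) : st M f (-k) = st M f k := by
  unfold st
  rw [zet_neg, ← rho_adj, ← inner_conj_symm, Complex.conj_re]

private lemma Family_actZ_add (R : Matrix (Fin 2) (Fin 2) ℤ) (k l : ℤ × ℤ) :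
    actZ R (k + l) = actZ R k + actZ R l := by
  unfold actZ
  ext <;> simp <;> ring

private lemma Family_actZ_neg (R : Matrix (Fin 2) (Fin 2) ℤ) (k : ℤ × ℤ) :
    actZ R (-k) = -actZ R k := by
  unfold actZ
  ext <;> simp <;> ring

private lemma Family_wdg (R : Matrix (Fin 2) (Fin 2) ℤ) (hR : R.det = 1) (k l : ℤ × ℤ) :
    wdg (actZ R k) (actZ R l) = wdg k l := by
  rw [Matrix.det_fin_two] at hR
  unfold wdg actZ
  simp only
  linear_combination (k.1 * l.2 - k.2 * l.1) * hR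

/-- the operators `ρ(R k)` -/
private noncomputable def FamilyP (H : Mat) (R : Matrix (Fin 2) (Fin 2) ℤ) (k : ℤ × ℤ) :
    L2 →L[ℂ] L2 := rho (zet H (actZ R k))

private lemma FamilyP_mul (H : Mat) (hH : 0 < H.det) (R : Matrix (Fin 2) (Fin 2) ℤ)
    (hR : R.det = 1) (k l : ℤ × ℤ) (f : L2) :
    FamilyP H R k (FamilyP H R l f) =
      cexp (-(Real.pi * I * (1 / H.det) * (wdg k l : ℤ))) • FamilyP H R (k + l) f := by
  unfold FamilyP
  rw [rho_zet H hH, Family_wdg R hR, Family_actZ_add]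

private lemma FamilyP_adj (H : Mat) (R : Matrix (Fin 2) (Fin 2) ℤ) (k : ℤ × ℤ) (f g : L2) :
    ⟪FamilyP H R k f, g⟫ = ⟪f, FamilyP H R (-k) g⟫ := by
  unfold FamilyP
  rw [Family_actZ_neg, zet_neg, rho_adj]

private lemma FamilyP_comm (H : Mat) (hH : 0 < H.det) (R : Matrix (Fin 2) (Fin 2) ℤ)
    (hR : R.det = 1) (k l : ℤ × ℤ) (f : L2) :
    FamilyP H R k (FamilyP H R l f) - FamilyP H R l (FamilyP H R k f) =
      (-(2 * I * (Real.sin (Real.pi * (1 / H.det) * (wdg k l : ℤ)) : ℝ)) : ℂ) •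
        FamilyP H R (k + l) f := by
  rw [FamilyP_mul H hH R hR, FamilyP_mul H hH R hR, add_comm l k, ← sub_smul]
  congr 1
  have h1 : wdg l k = - wdg k l := by unfold wdg; ring
  rw [h1]
  push_cast
  rw [Complex.sin]
  have e1 : -(Real.pi * I * (1 / (H.det : ℂ)) * ((wdg k l : ℤ) : ℂ)) =
      -(Real.pi * (1 / (H.det : ℂ)) * ((wdg k l : ℤ) : ℂ)) * I := by ring
  have e2 : -(Real.pi * I * (1 / (H.det : ℂ)) * (-((wdg k l : ℤ) : ℂ))) =
      (Real.pi * (1 / (H.det : ℂ)) * ((wdg k l : ℤ) : ℂ)) * I := by ring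
  rw [e1, e2]
  have hI : I * I = -1 := I_mul_I
  linear_combination (cexp (-(Real.pi * (1 / (H.det : ℂ)) * ((wdg k l : ℤ) : ℂ)) * I) -
    cexp ((Real.pi * (1 / (H.det : ℂ)) * ((wdg k l : ℤ) : ℂ)) * I)) * hI

/-- One rotated piece of the family.  `R` is an integer matrix with determinant 1,
`K = ∑ β_i (ρ(R u_i) + ρ(-R u_i))`, `g ν = exp(i c ν K) f` with `c = -1 / sin (π δ)`,
`Φ ν k = Re ⟪g ν, ρ(R k) g ν⟫`.
By `deriv_inner` and `rho_zet`,
`d/dν Φ ν k = 2 c ∑ β_i sin(π δ (k ∧ u_i)) (Φ ν (k+u_i) - Φ ν (k-u_i))`, because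
`ρ_k ρ_u - ρ_u ρ_k = -2 i sin(π δ k∧u) ρ_{k+u}` and `R k ∧ R u = k ∧ u`. -/
theorem exists_piece (H : Mat) (hH : 0 < H.det) (hs : Real.sin (Real.pi * (1 / H.det)) ≠ 0)
    (f : L2) (hf : ‖f‖ = 1) (β1 β2 β3 : ℝ) (R : Matrix (Fin 2) (Fin 2) ℤ) (hR : R.det = 1) :
    ∃ Φ : ℝ → ℤ × ℤ → ℝ, (∀ ν, Adm H.det (Φ ν)) ∧ (∀ ν, Φ ν (0, 0) = 1) ∧
      (∀ ν k, Φ ν (-k) = Φ ν k) ∧ (∀ k, Φ 0 k = st H f (actZ R k)) ∧
      ∀ (ν : ℝ) (k : ℤ × ℤ), HasDerivAt (fun ν => Φ ν k)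
        (2 * (β1 * UU (1 / H.det) k.2 * (Φ ν (k + (1, 0)) - Φ ν (k - (1, 0)))
          + β2 * UU (1 / H.det) (-(k.1 + k.2)) * (Φ ν (k + (-1, 1)) - Φ ν (k - (-1, 1)))
          + β3 * UU (1 / H.det) k.1 * (Φ ν (k + (0, -1)) - Φ ν (k - (0, -1))))) ν := by
  set s : ℝ := Real.sin (Real.pi * (1 / H.det)) with hsdef
  set c1 : ℝ := -(β1 / s) with hc1
  set c2 : ℝ := -(β2 / s) with hc2
  set c3 : ℝ := -(β3 / s) with hc3
  set P : ℤ × ℤ → L2 →L[ℂ] L2 := FamilyP H R with hP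
  set K : L2 →L[ℂ] L2 := (c1 : ℂ) • (P (1, 0) + P (-(1, 0))) +
    (c2 : ℂ) • (P (-1, 1) + P (-(-1, 1))) + (c3 : ℂ) • (P (0, -1) + P (-(0, -1))) with hK
  have hPK : ∀ x, K x = (c1 : ℂ) • (P (1, 0) x + P (-(1, 0)) x) +
    (c2 : ℂ) • (P (-1, 1) x + P (-(-1, 1)) x) + (c3 : ℂ) • (P (0, -1) x + P (-(0, -1)) x) := by
    intro x
    simp only [hK, add_apply, smul_apply]
  have hsa : ∀ x y, ⟪K x, y⟫ = ⟪x, K y⟫ := by
    intro x y
    have hadj : ∀ k (x y : L2), ⟪P k x, y⟫ = ⟪x, P (-k) y⟫ := fun k x y => FamilyP_adj H R k x y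
    rw [hPK, hPK]
    simp only [inner_add_left, inner_add_right, inner_smul_left, inner_smul_right, hadj,
      Complex.conj_ofReal, neg_neg]
    ring
  obtain ⟨g, hg0, hgn, hgd⟩ := exp_family K hsa f
  refine ⟨fun ν k => st H (g ν) (actZ R k), ?_, ?_, ?_, ?_, ?_⟩
  · intro ν
    exact adm_rot H hH R hR (g ν) (by rw [hgn, hf])
  · intro ν
    have : actZ R (0, 0) = (0, 0) := by unfold actZ; simp
    simp only [this]
    exact st_zero H (g ν) (by rw [hgn, hf])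
  · intro ν k
    simp only [Family_actZ_neg, st_neg]
  · intro k
    simp only [hg0]
  · intro ν k
    have hd := deriv_inner K (P k) hsa g hgd ν
    have hst : ∀ l, st H (g ν) (actZ R l) = (⟪g ν, P l (g ν)⟫).re := fun l => rfl
    have hfun : (fun ν => st H (g ν) (actZ R k)) = fun ν => (⟪g ν, P k (g ν)⟫).re := rfl
    rw [hfun]
    simp only [hst]
    refine hd.congr_deriv ?_
    have hcomm : ∀ l, P k (P l (g ν)) - P l (P k (g ν)) =
        (-(2 * I * (Real.sin (Real.pi * (1 / H.det) * (wdg k l : ℤ)) : ℝ)) : ℂ) • P (k + l) (g ν) :=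
      fun l => FamilyP_comm H hH R hR k l (g ν)
    have e : P k (K (g ν)) - K (P k (g ν)) =
        (c1 : ℂ) • ((P k (P (1, 0) (g ν)) - P (1, 0) (P k (g ν))) +
          (P k (P (-(1, 0)) (g ν)) - P (-(1, 0)) (P k (g ν)))) +
        (c2 : ℂ) • ((P k (P (-1, 1) (g ν)) - P (-1, 1) (P k (g ν))) +
          (P k (P (-(-1, 1)) (g ν)) - P (-(-1, 1)) (P k (g ν)))) +
        (c3 : ℂ) • ((P k (P (0, -1) (g ν)) - P (0, -1) (P k (g ν))) +
          (P k (P (-(0, -1)) (g ν)) - P (-(0, -1)) (P k (g ν)))) := by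
      rw [hPK, hPK]
      simp only [map_add, map_smul, smul_add, smul_sub]
      abel
    rw [e]
    simp only [hcomm]
    have w1 : wdg k (1, 0) = -k.2 := by unfold wdg; ring
    have w1' : wdg k (-(1, 0)) = k.2 := by unfold wdg; simp
    have w2 : wdg k (-1, 1) = k.1 + k.2 := by unfold wdg; ring
    have w2' : wdg k (-(-1, 1)) = -(k.1 + k.2) := by unfold wdg; simp; ring
    have w3 : wdg k (0, -1) = -k.1 := by unfold wdg; ring
    have w3' : wdg k (-(0, -1)) = k.1 := by unfold wdg; simp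
    rw [w1, w1', w2, w2', w3, w3']
    have sg : ∀ n : ℤ, Real.sin (Real.pi * (1 / H.det) * ((-n : ℤ) : ℝ)) =
        - Real.sin (Real.pi * (1 / H.det) * (n : ℝ)) := by
      intro n
      rw [← Real.sin_neg]
      congr 1
      push_cast
      ring
    simp only [sg, ← sub_eq_add_neg]
    simp only [inner_add_right, inner_smul_right]
    have hUU : ∀ n : ℤ, UU (1 / H.det) n = Real.sin (Real.pi * (1 / H.det) * (n : ℝ)) / s := by
      intro n; rfl
    rw [hUU, hUU, hUU, sg]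
    set S1 := Real.sin (Real.pi * (1 / H.det) * (k.2 : ℝ))
    set S2 := Real.sin (Real.pi * (1 / H.det) * ((k.1 + k.2 : ℤ) : ℝ))
    set S3 := Real.sin (Real.pi * (1 / H.det) * (k.1 : ℝ))
    simp only [Complex.mul_re, Complex.mul_im, Complex.add_re, Complex.add_im, Complex.I_re,
      Complex.I_im, Complex.ofReal_re, Complex.ofReal_im, Complex.neg_re, Complex.neg_im,
      Complex.re_ofNat, Complex.im_ofNat]
    simp only [hc1, hc2, hc3]
    ring

/-- average of three pieces (`R = 1, R3, R32`): `adm_avg3`, `actZ_R3`, `actZ_R32` -/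
theorem exists_family (H : Mat) (hH : 0 < H.det) (hs : Real.sin (Real.pi * (1 / H.det)) ≠ 0)
    (f : L2) (hf : ‖f‖ = 1) (β1 β2 β3 : ℝ) :
    ∃ Φ, Fam (1 / H.det) β1 β2 β3 Φ ∧ ∀ k, Φ 0 k = rav (st H f) k := by
  obtain ⟨Φ1, a1, z1, n1, i1, d1⟩ := exists_piece H hH hs f hf β1 β2 β3 R0
    (by simp [R0, Matrix.det_fin_two])
  obtain ⟨Φ2, a2, z2, n2, i2, d2⟩ := exists_piece H hH hs f hf β1 β2 β3 R3 det_R3
  obtain ⟨Φ3, a3, z3, n3, i3, d3⟩ := exists_piece H hH hs f hf β1 β2 β3 R32 det_R32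
  have hR0 : ∀ k, actZ R0 k = k := by
    intro k
    unfold actZ R0
    ext <;> simp
  have h0 : ∀ k, (Φ1 0 k + Φ2 0 k + Φ3 0 k) / 3 = rav (st H f) k := by
    intro k
    rw [i1, i2, i3, hR0, actZ_R3, actZ_R32]
    rfl
  have e33 : ∀ k, e3 (e3 k) = e3.symm k := by
    intro k
    unfold e3
    ext <;> simp
  refine ⟨fun ν k => (Φ1 ν k + Φ2 ν k + Φ3 ν k) / 3, ⟨?_, ?_, ?_, ?_, ?_⟩, h0⟩
  · intro ν
    have hdet : 1 / (1 / H.det) = H.det := by rw [one_div_one_div]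
    rw [hdet]
    exact adm_avg3 (a1 ν) (a2 ν) (a3 ν)
  · intro ν
    simp only [z1, z2, z3]
    norm_num
  · intro ν k
    simp only [n1, n2, n3]
  · intro k
    rw [h0, h0]
    unfold rav
    rw [e33, Equiv.symm_apply_apply]
    ring
  · intro ν k
    have := ((d1 ν k).add (d2 ν k)).add (d3 ν k)
    have h3 := this.div_const 3
    refine h3.congr_deriv ?_
    ring

/-- the value of the averaged state on the hexagonal weights -/
theorem rav_value (H : Mat) (hH : 0 < H.det) {y : ℝ} (hwH : ∀ k, wt H k = cc y y y k) (f : L2)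
    (hf : ‖f‖ = 1) : ∑' k, wt H k * rav (st H f) k = TS H f := by
  have b1 : ∀ k, |st H f k| ≤ 1 := abs_st_le H f hf
  have s1 := summable_wt_mul H hH (st H f) b1
  have s2 := summable_wt_mul H hH (fun k => st H f (e3 k)) (fun k => b1 _)
  have s3 := summable_wt_mul H hH (fun k => st H f (e3.symm k)) (fun k => b1 _)
  have i2 : ∀ k, wt H (e3 k) = wt H k := by
    intro k
    rw [hwH, hwH, cc_e3]
  have i3 : ∀ k, wt H (e3.symm k) = wt H k := by
    intro k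
    rw [hwH, hwH, cc_e3_symm]
  have t2 : ∑' k, wt H k * st H f (e3 k) = ∑' k, wt H k * st H f k := by
    rw [← Equiv.tsum_eq e3 (fun k => wt H k * st H f k)]
    simp only [i2]
  have t3 : ∑' k, wt H k * st H f (e3.symm k) = ∑' k, wt H k * st H f k := by
    rw [← Equiv.tsum_eq e3.symm (fun k => wt H k * st H f k)]
    simp only [i3]
  have e : ∀ k, wt H k * rav (st H f) k =
      (wt H k * st H f k + wt H k * st H f (e3 k) + wt H k * st H f (e3.symm k)) / 3 := by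
    intro k
    unfold rav
    ring
  simp only [e]
  rw [tsum_div_const, Summable.tsum_add (s1.add s2) s3, Summable.tsum_add s1 s2, t2, t3]
  unfold TS
  ring

end MP7e122f.R
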