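import Pool.Agent.Lib.MP_7e122f_anR.HexTail
import Pool.Agent.Lib.MP_7e122f_anR.Family

open MeasureTheory Complex
open scoped ComplexInnerProductSpace ENNReal ComplexOrder

namespace MP7e122f.Num

open MP7e122f.R

/-- the vectors of norm 7 -/
def FactsA_S7 : Finset (ℤ × ℤ) :=
  {(2, 1), (-2, -1), (1, 2), (-1, -2), (1, -3), (-1, 3), (3, -1), (-3, 1), (3, -2), (-3, 2),
    (2, -3), (-2, 3)}

/-- the vectors of norm 9 -/
def FactsA_S9 : Finset (ℤ × ℤ) := {(3, 0), (-3, 0), (0, 3), (0, -3), (3, -3), (-3, 3)}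

lemma FactsA_F : (Finset.Icc (-3) 3 ×ˢ Finset.Icc (-3) 3 :
    Finset (ℤ × ℤ)).filter (fun k => k.1 ^ 2 + k.1 * k.2 + k.2 ^ 2 ≤ 9) =
    {(0, 0)} ∪ S1 ∪ S3 ∪ S4 ∪ (FactsA_S7 ∪ FactsA_S9) := by decide +kernel

lemma FactsA_split (g : ℤ × ℤ → ℝ) :
    ∑ k ∈ ({(0, 0)} ∪ S1 ∪ S3 ∪ S4 ∪ (FactsA_S7 ∪ FactsA_S9) : Finset (ℤ × ℤ)), g k =
      g (0, 0) + ∑ k ∈ S1, g k + ∑ k ∈ S3, g k + ∑ k ∈ S4, g k +
        (∑ k ∈ FactsA_S7, g k + ∑ k ∈ FactsA_S9, g k) := by
  rw [Finset.sum_union (by decide +kernel), Finset.sum_union (by decide +kernel),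
    Finset.sum_union (by decide +kernel), Finset.sum_union (by decide +kernel),
    Finset.sum_union (by decide +kernel), Finset.sum_singleton]

lemma FactsA_S1 (φ : ℤ × ℤ → ℝ) (hφ : ∀ k, φ (-k) = φ k) (t : ℝ) :
    ∑ k ∈ S1, φ k * t ^ (Nf k).toNat = 6 * t * rav φ (1, 0) := by
  have h1 : φ (-1, 0) = φ (1, 0) := by simpa using hφ (1, 0)
  have h2 : φ (0, 1) = φ (0, -1) := by simpa using hφ (0, -1)
  have h3 : φ (1, -1) = φ (-1, 1) := by simpa using hφ (-1, 1)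
  have e1 : e3 (1, 0) = (-1, 1) := by decide
  have e2 : e3.symm (1, 0) = (0, -1) := by decide
  unfold rav
  rw [e1, e2]
  have n1 : (Nf (1, 0)).toNat = 1 := by decide
  have n2 : (Nf (-1, 0)).toNat = 1 := by decide
  have n3 : (Nf (0, 1)).toNat = 1 := by decide
  have n4 : (Nf (0, -1)).toNat = 1 := by decide
  have n5 : (Nf (1, -1)).toNat = 1 := by decide
  have n6 : (Nf (-1, 1)).toNat = 1 := by decide
  unfold S1
  rw [Finset.sum_insert (by decide), Finset.sum_insert (by decide), Finset.sum_insert (by decide),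
    Finset.sum_insert (by decide), Finset.sum_insert (by decide), Finset.sum_singleton,
    n1, n2, n3, n4, n5, n6, h1, h2, h3]
  ring

lemma FactsA_S3 (φ : ℤ × ℤ → ℝ) (hφ : ∀ k, φ (-k) = φ k) (t : ℝ) :
    ∑ k ∈ S3, φ k * t ^ (Nf k).toNat = 6 * t ^ 3 * rav φ (1, 1) := by
  have h1 : φ (-1, -1) = φ (1, 1) := by simpa using hφ (1, 1)
  have h2 : φ (-1, 2) = φ (1, -2) := by simpa using hφ (1, -2)
  have h3 : φ (2, -1) = φ (-2, 1) := by simpa using hφ (-2, 1)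
  have e1 : e3 (1, 1) = (-2, 1) := by decide
  have e2 : e3.symm (1, 1) = (1, -2) := by decide
  unfold rav
  rw [e1, e2]
  have n1 : (Nf (1, 1)).toNat = 3 := by decide
  have n2 : (Nf (-1, -1)).toNat = 3 := by decide
  have n3 : (Nf (1, -2)).toNat = 3 := by decide
  have n4 : (Nf (-1, 2)).toNat = 3 := by decide
  have n5 : (Nf (2, -1)).toNat = 3 := by decide
  have n6 : (Nf (-2, 1)).toNat = 3 := by decide
  unfold S3
  rw [Finset.sum_insert (by decide), Finset.sum_insert (by decide), Finset.sum_insert (by decide),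
    Finset.sum_insert (by decide), Finset.sum_insert (by decide), Finset.sum_singleton,
    n1, n2, n3, n4, n5, n6, h1, h2, h3]
  ring

lemma FactsA_S4 (φ : ℤ × ℤ → ℝ) (hφ : ∀ k, φ (-k) = φ k) (t : ℝ) :
    ∑ k ∈ S4, φ k * t ^ (Nf k).toNat = 6 * t ^ 4 * rav φ (2, 0) := by
  have h1 : φ (-2, 0) = φ (2, 0) := by simpa using hφ (2, 0)
  have h2 : φ (0, 2) = φ (0, -2) := by simpa using hφ (0, -2)
  have h3 : φ (2, -2) = φ (-2, 2) := by simpa using hφ (-2, 2)
  have e1 : e3 (2, 0) = (-2, 2) := by decide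
  have e2 : e3.symm (2, 0) = (0, -2) := by decide
  unfold rav
  rw [e1, e2]
  have n1 : (Nf (2, 0)).toNat = 4 := by decide
  have n2 : (Nf (-2, 0)).toNat = 4 := by decide
  have n3 : (Nf (0, 2)).toNat = 4 := by decide
  have n4 : (Nf (0, -2)).toNat = 4 := by decide
  have n5 : (Nf (2, -2)).toNat = 4 := by decide
  have n6 : (Nf (-2, 2)).toNat = 4 := by decide
  unfold S4
  rw [Finset.sum_insert (by decide), Finset.sum_insert (by decide), Finset.sum_insert (by decide),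
    Finset.sum_insert (by decide), Finset.sum_insert (by decide), Finset.sum_singleton,
    n1, n2, n3, n4, n5, n6, h1, h2, h3]
  ring

lemma FactsA_bd (S : Finset (ℤ × ℤ)) (m c : ℕ) (hS : ∀ k ∈ S, (Nf k).toNat = m) (hc : S.card = c)
    (φ : ℤ × ℤ → ℝ) (hφ : ∀ k, |φ k| ≤ 1) (t : ℝ) (ht : 0 < t) :
    |∑ k ∈ S, φ k * t ^ (Nf k).toNat| ≤ c * t ^ m := by
  calc |∑ k ∈ S, φ k * t ^ (Nf k).toNat| ≤ ∑ k ∈ S, |φ k * t ^ (Nf k).toNat| :=
        Finset.abs_sum_le_sum_abs _ _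
    _ ≤ ∑ _k ∈ S, t ^ m := by
        apply Finset.sum_le_sum
        intro k hk
        rw [hS k hk, abs_mul, abs_of_pos (pow_pos ht m)]
        exact mul_le_of_le_one_left (pow_pos ht m).le (hφ k)
    _ = c * t ^ m := by rw [Finset.sum_const, hc, nsmul_eq_mul]

/-- expansion of the value of a state: shells `1, 3, 4` and `hex_tail12` -/
theorem value_exp {δ y t : ℝ} (hδ : 1 < δ) (hy : y = Real.pi * δ / (2 * Real.sqrt 3))
    (ht : t = Real.exp (-(Real.pi / Real.sqrt 3 * δ))) {H : Mat} (hH : 0 < H.det)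
    (hHd : H.det = 1 / δ) (hwH : ∀ k, wt H k = cc y y y k) (f : L2) (hf : ‖f‖ = 1) :
    |TS H f - (1 + 6 * t * rav (st H f) (1, 0) + 6 * t ^ 3 * rav (st H f) (1, 1)
      + 6 * t ^ 4 * rav (st H f) (2, 0))| ≤ 12 * t ^ 7 + 7 * t ^ 9 := by
  have ht0 : 0 < t := by rw [ht]; exact Real.exp_pos _
  have hs3 : 0 < Real.sqrt 3 := Real.sqrt_pos.mpr (by norm_num)
  have ht1 : t ≤ 1 / 5 := by
    have h17 : (1.7 : ℝ) ≤ Real.pi / Real.sqrt 3 * δ := by
      have h3 : Real.sqrt 3 < 1.7321 := by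
        rw [Real.sqrt_lt' (by norm_num)]; norm_num
      have hpi := Real.pi_gt_d2
      have h4 : (1.7 : ℝ) ≤ Real.pi / Real.sqrt 3 := by
        rw [le_div_iff₀ hs3]; nlinarith
      have h5 : 0 ≤ Real.pi / Real.sqrt 3 := by positivity
      nlinarith
    have h5 : (5 : ℝ) ≤ Real.exp 1.7 := by
      have h1 := Real.exp_one_gt_d9
      have h2 : Real.exp 1.7 = Real.exp 1 * Real.exp 0.7 := by
        rw [← Real.exp_add]; norm_num
      have h3 : (1.9 : ℝ) ≤ Real.exp 0.7 := by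
        have := Real.quadratic_le_exp_of_nonneg (x := (0.7 : ℝ)) (by norm_num)
        norm_num at this ⊢
        linarith
      rw [h2]
      nlinarith [Real.exp_pos 1]
    rw [ht, Real.exp_neg, one_div]
    apply inv_anti₀ (by norm_num)
    exact h5.trans (Real.exp_le_exp.mpr h17)
  -- the weights
  have hw : ∀ k, wt H k = t ^ (Nf k).toNat := by
    intro k
    obtain ⟨n, hn⟩ : ∃ n : ℕ, Nf k = n :=
      ⟨(Nf k).toNat, (Int.toNat_of_nonneg (HexTail_nonneg k)).symm⟩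
    have hn' : (Nf k).toNat = n := by omega
    have hnR : (n : ℝ) = (k.1 : ℝ) ^ 2 + k.1 * k.2 + (k.2 : ℝ) ^ 2 := by
      have h : ((n : ℤ) : ℝ) = ((Nf k : ℤ) : ℝ) := by rw [hn]
      unfold Nf at h
      push_cast at h
      exact h
    rw [hwH k, hn', ht, ← Real.exp_nat_mul, hnR]
    unfold cc
    congr 1
    rw [hy]
    field_simp
    ring
  have hTS : TS H f = ∑' k, st H f k * t ^ (Nf k).toNat := by
    unfold TS
    apply tsum_congr
    intro k
    rw [hw k, mul_comm]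
  have hψ := abs_st_le H f hf
  have hneg := st_neg H f
  have h12 := hex_tail12 t ht0 ht1 (st H f) hψ
  have hF : (Finset.Icc (-3) 3 ×ˢ Finset.Icc (-3) 3 : Finset (ℤ × ℤ)).filter
      (fun k => Nf k ≤ 9) = {(0, 0)} ∪ S1 ∪ S3 ∪ S4 ∪ (FactsA_S7 ∪ FactsA_S9) := FactsA_F
  rw [hF, FactsA_split, FactsA_S1 _ hneg, FactsA_S3 _ hneg, FactsA_S4 _ hneg, ← hTS] at h12
  have h7 := FactsA_bd FactsA_S7 7 12 (by decide +kernel) (by decide +kernel) (st H f) hψ t ht0
  have h9 := FactsA_bd FactsA_S9 9 6 (by decide +kernel) (by decide +kernel) (st H f) hψ t ht0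
  have h0 : st H f (0, 0) * t ^ (Nf (0, 0)).toNat = 1 := by
    rw [st_zero H f hf]
    have : (Nf (0, 0)).toNat = 0 := by decide
    rw [this]; simp
  rw [h0] at h12
  have ht12 : 10 * t ^ 12 ≤ t ^ 9 := by
    have h3 : t ^ 3 ≤ (1 / 5) ^ 3 := pow_le_pow_left₀ ht0.le ht1 3
    have h9p : 0 < t ^ 9 := by positivity
    nlinarith
  push_cast at h7 h9
  rw [abs_le] at h12 h7 h9 ⊢
  constructor <;> linarith [h12.1, h12.2, h7.1, h7.2, h9.1, h9.2]

end MP7e122f.Num
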