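import Pool.Agent.Lib.MP_7e122f_anR.NumDual

namespace MP7e122f.Num

open MP7e122f.R

theorem feasB {δ s1 s3 s4 : ℝ} (h : Cons δ s1 s3 s4) : Feas (Real.pi * (δ - 1)) s1 s3 s4 := by
  have e0 : Real.cos (Real.pi * (δ - 1)) = - Real.cos (Real.pi * δ) := by
    rw [show Real.pi * (δ - 1) = Real.pi * δ - Real.pi by ring, Real.cos_sub_pi]
  have e1 : Real.cos (Real.pi * (δ - 1) - Real.pi / 3) = - Real.cos (Real.pi * δ - Real.pi / 3) := by
    rw [show Real.pi * (δ - 1) - Real.pi / 3 = (Real.pi * δ - Real.pi / 3) - Real.pi by ring,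
      Real.cos_sub_pi]
  have e2 : Real.cos (Real.pi * (δ - 1) - 2 * Real.pi / 3)
      = - Real.cos (Real.pi * δ - 2 * Real.pi / 3) := by
    rw [show Real.pi * (δ - 1) - 2 * Real.pi / 3 = (Real.pi * δ - 2 * Real.pi / 3) - Real.pi by ring,
      Real.cos_sub_pi]
  have e4 : Real.cos (Real.pi * (δ - 1) - 4 * Real.pi / 3)
      = - Real.cos (Real.pi * δ + 2 * Real.pi / 3) := by
    rw [show Real.pi * (δ - 1) - 4 * Real.pi / 3
      = (Real.pi * δ + 2 * Real.pi / 3) - Real.pi - 2 * Real.pi by ring,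
      Real.cos_sub_two_pi, Real.cos_sub_pi]
  have e5 : Real.cos (Real.pi * (δ - 1) - 5 * Real.pi / 3)
      = - Real.cos (Real.pi * δ + Real.pi / 3) := by
    rw [show Real.pi * (δ - 1) - 5 * Real.pi / 3
      = (Real.pi * δ + Real.pi / 3) - Real.pi - 2 * Real.pi by ring,
      Real.cos_sub_two_pi, Real.cos_sub_pi]
  have h0 := h.c0
  have h1 := h.c1
  have h2 := h.c2
  have h3 := h.c3
  have h4 := h.c4
  have h5 := h.c5
  refine ⟨h.b1, h.b3, h.b4, ?_, ?_, ?_, ?_, ?_, ?_⟩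
  · rw [e0]; linarith
  · rw [e1, e2]; linarith
  · rw [e2, e4]; linarith
  · rw [e0]; linarith
  · rw [e4, e2]; linarith
  · rw [e5, e4]; linarith

theorem feasA {δ s1 s3 s4 : ℝ} (h : Cons δ s1 s3 s4) :
    Feas (Real.pi * (2 - δ)) (-s1) (-s3) s4 := by
  have e0 : Real.cos (Real.pi * (2 - δ)) = Real.cos (Real.pi * δ) := by
    rw [show Real.pi * (2 - δ) = 2 * Real.pi - Real.pi * δ by ring, Real.cos_two_pi_sub]
  have e1 : Real.cos (Real.pi * (2 - δ) - Real.pi / 3) = Real.cos (Real.pi * δ + Real.pi / 3) := by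
    rw [show Real.pi * (2 - δ) - Real.pi / 3 = 2 * Real.pi - (Real.pi * δ + Real.pi / 3) by ring,
      Real.cos_two_pi_sub]
  have e2 : Real.cos (Real.pi * (2 - δ) - 2 * Real.pi / 3)
      = Real.cos (Real.pi * δ + 2 * Real.pi / 3) := by
    rw [show Real.pi * (2 - δ) - 2 * Real.pi / 3
      = 2 * Real.pi - (Real.pi * δ + 2 * Real.pi / 3) by ring, Real.cos_two_pi_sub]
  have e4 : Real.cos (Real.pi * (2 - δ) - 4 * Real.pi / 3)
      = Real.cos (Real.pi * δ - 2 * Real.pi / 3) := by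
    rw [show Real.pi * (2 - δ) - 4 * Real.pi / 3 = -(Real.pi * δ - 2 * Real.pi / 3) by ring,
      Real.cos_neg]
  have e5 : Real.cos (Real.pi * (2 - δ) - 5 * Real.pi / 3)
      = Real.cos (Real.pi * δ - Real.pi / 3) := by
    rw [show Real.pi * (2 - δ) - 5 * Real.pi / 3 = -(Real.pi * δ - Real.pi / 3) by ring,
      Real.cos_neg]
  have h0 := h.c0
  have h1 := h.c1
  have h2 := h.c2
  have h3 := h.c3
  have h4 := h.c4
  have h5 := h.c5
  refine ⟨by rw [abs_neg]; exact h.b1, by rw [abs_neg]; exact h.b3, h.b4, ?_, ?_, ?_, ?_, ?_, ?_⟩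
  · rw [e0]; nlinarith
  · rw [e1, e2]; linarith
  · rw [e2, e4]; linarith
  · rw [e0]; linarith
  · rw [e4, e2]; linarith
  · rw [e5, e4]; linarith

end MP7e122f.Num
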