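import Pool.Agent.Lib.MP_7e122f_anR.NumBase

namespace MP7e122f.Num

open MP7e122f.R

private theorem numBaseA_toNat {n : Int} {x : ℝ} (h : x ≤ ri n) : x ≤ rv (Int.toNat n) := by
  refine h.trans ?_
  unfold ri rv
  have h1 : (n : ℝ) ≤ ((Int.toNat n : ℕ) : ℝ) := by
    have h2 := Int.self_le_toNat n
    exact_mod_cast h2
  exact div_le_div_of_nonneg_right h1 (by norm_num)

private theorem numBaseA_okE {e : Nat} (h : e ≤ 1099511627776) : okE e e = true := by
  simp only [okE, Bool.and_eq_true, Bool.or_eq_true, Nat.ble_eq]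
  omega

private theorem numBaseA_mulD {a b c : Nat} (h : c * 1099511627776 ≤ a * b) : c ≤ mulD a b := by
  have h1 : mulD a b = a * b / 1099511627776 := by
    show Nat.shiftRight (a * b) 40 = _
    exact Nat.shiftRight_eq_div_pow (a * b) 40
  rw [h1, Nat.le_div_iff_mul_le (by norm_num)]
  exact h

private theorem numBaseA_mulU {a b c : Nat} (h : a * b ≤ c * 1099511627776) :
    mulU a b ≤ c + 1 := by
  have h1 : mulU a b = a * b / 1099511627776 + 1 := by
    show Nat.succ (Nat.shiftRight (a * b) 40) = _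
    rw [show Nat.shiftRight (a * b) 40 = a * b / 1099511627776 from
      Nat.shiftRight_eq_div_pow (a * b) 40]
  rw [h1]
  have h2 : a * b / 1099511627776 ≤ c := by
    calc a * b / 1099511627776 ≤ c * 1099511627776 / 1099511627776 := Nat.div_le_div_right h
      _ = c := Nat.mul_div_cancel c (by norm_num)
  omega

private theorem numBaseA_cmax {el eh : Nat} (h1 : el ≤ eh) (h2 : eh ≤ 1099511627776)
    (h3 : eh ≤ 549755813888 ∨ 549755813888 ≤ el) {e : ℝ} (h4 : rv el ≤ e) (h5 : e ≤ rv eh) :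
    |Real.cos (Real.pi * e)| ≤ rv (cmaxOf el eh) := by
  have hpi := Real.pi_pos
  have e0 : 0 ≤ rv el := rv_nonneg el
  have e1 : rv eh ≤ 1 := by
    rw [← rv_lit]
    exact rv_mono h2
  have hhalf : rv 549755813888 = 1 / 2 := by
    unfold rv
    norm_num
  by_cases hc : eh ≤ 549755813888
  · have hb : Nat.ble eh 549755813888 = true := Nat.ble_eq.mpr hc
    have hcm : cmaxOf el eh = Int.toNat (cosE el el).hi := by
      unfold cmaxOf
      rw [hb]
      rfl
    have e2 : e ≤ 1 / 2 := by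
      rw [← hhalf]
      exact h5.trans (rv_mono hc)
    have p0 : 0 ≤ Real.cos (Real.pi * e) := by
      apply Real.cos_nonneg_of_neg_pi_div_two_le_of_le
      · have : 0 ≤ Real.pi * e := mul_nonneg hpi.le (e0.trans h4)
        linarith
      · have : Real.pi * e ≤ Real.pi * (1 / 2) := mul_le_mul_of_nonneg_left e2 hpi.le
        linarith
    rw [abs_of_nonneg p0, hcm]
    apply numBaseA_toNat
    have hm := cosE_mem (numBaseA_okE (h1.trans h2)) (le_refl (rv el)) (le_refl (rv el))
    refine le_trans ?_ hm.2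
    apply Real.cos_le_cos_of_nonneg_of_le_pi
    · exact mul_nonneg hpi.le e0
    · have : Real.pi * e ≤ Real.pi * 1 := mul_le_mul_of_nonneg_left (h5.trans e1) hpi.le
      linarith
    · exact mul_le_mul_of_nonneg_left h4 hpi.le
  · have hb : Nat.ble eh 549755813888 = false := by
      rw [Bool.eq_false_iff]
      intro h
      exact hc (Nat.ble_eq.mp h)
    have h3' : 549755813888 ≤ el := h3.resolve_left hc
    have hcm : cmaxOf el eh = Int.toNat (SI.neg (cosE eh eh)).hi := by
      unfold cmaxOf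
      rw [hb]
      rfl
    have e2 : 1 / 2 ≤ e := by
      rw [← hhalf]
      exact (rv_mono h3').trans h4
    have p0 : Real.cos (Real.pi * e) ≤ 0 := by
      apply Real.cos_nonpos_of_pi_div_two_le_of_le
      · have : Real.pi * (1 / 2) ≤ Real.pi * e := mul_le_mul_of_nonneg_left e2 hpi.le
        linarith
      · have : Real.pi * e ≤ Real.pi * 1 := mul_le_mul_of_nonneg_left (h5.trans e1) hpi.le
        linarith
    rw [abs_of_nonpos p0, hcm]
    apply numBaseA_toNat
    have hm := (cosE_mem (numBaseA_okE h2) (le_refl (rv eh)) (le_refl (rv eh))).neg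
    refine le_trans ?_ hm.2
    apply neg_le_neg
    apply Real.cos_le_cos_of_nonneg_of_le_pi
    · exact mul_nonneg hpi.le (e0.trans h4)
    · have : Real.pi * rv eh ≤ Real.pi * 1 := mul_le_mul_of_nonneg_left e1 hpi.le
      linarith
    · exact mul_le_mul_of_nonneg_left h5 hpi.le

private theorem numBaseA_chk {dl dh : Nat} (h : slabChk dl dh = true) :
    1099511627776 ≤ dl ∧ dl ≤ dh ∧ dh ≤ 2199023255552 ∧ 1 ≤ (tOf (yOf dl dh)).lo ∧
      (dh ≤ 1649267441664 ∨ 1649267441664 ≤ dl) := by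
  simp only [slabChk, Bool.and_eq_true, Bool.or_eq_true, Nat.ble_eq] at h
  exact h

theorem slab_ok {dl dh z1 z3 n : Nat} {z3n : Bool} (h : slabChk dl dh = true) {δ y : ℝ}
    (h1 : rv dl ≤ δ) (h2 : δ ≤ rv dh) (hy : y = Real.pi * δ / (2 * Real.sqrt 3)) :
    SlabOK (mkSlab dl dh z1 z3n z3 n) y := by
  obtain ⟨c1, c2, c3, c4, c5⟩ := numBaseA_chk h
  have hs3 : Real.sqrt 3 ≠ 0 := by positivity
  have hyy : y = ((1 : ℕ) : ℝ) / (2 : ℕ) * (Real.pi / Real.sqrt 3 * δ) := by
    rw [hy]
    push_cast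
    field_simp
  have hyy' : y = 1 / 2 * (Real.pi / Real.sqrt 3 * δ) := by
    rw [hyy]
    push_cast
    ring
  have hdm : (PI.mk dl dh).Mem δ := ⟨h1, h2⟩
  have my : (yOf dl dh).Mem y := by
    rw [hyy]
    exact PI.Mem.smul 1 2 (by norm_num) (PI.Mem.mul pr3I_mem hdm)
  have ylo : 549755813888 ≤ (yOf dl dh).lo := by
    show 549755813888 ≤ (1 * mulD 1994293491428 dl) / 2
    have hm : 1994293491428 ≤ mulD 1994293491428 dl :=
      numBaseA_mulD (Nat.mul_le_mul_left _ c1)
    omega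
  have yhi : (yOf dl dh).hi ≤ 1994293491430 := by
    show (1 * mulU 1994293491429 dh) / 2 + 1 ≤ 1994293491430
    have hm : mulU 1994293491429 dh ≤ 3988586982858 + 1 :=
      numBaseA_mulU (by
        calc 1994293491429 * dh ≤ 1994293491429 * 2199023255552 := Nat.mul_le_mul_left _ c3
          _ = 3988586982858 * 1099511627776 := by norm_num)
    omega
  have hlo1 : 1 ≤ rv dl := by
    rw [← rv_lit]
    exact rv_mono c1
  have hhi2 : rv dh ≤ 2 := by
    have : rv 2199023255552 = 2 := by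
      unfold rv
      norm_num
    rw [← this]
    exact rv_mono c3
  have y1 : 0.9 ≤ y := by
    have a1 : (1.81 : ℝ) ≤ Real.pi / Real.sqrt 3 := by
      refine le_trans ?_ pr3I_mem.1
      show (1.81 : ℝ) ≤ rv 1994293491428
      unfold rv
      norm_num
    have a2 : 1.81 * 1 ≤ Real.pi / Real.sqrt 3 * δ :=
      mul_le_mul a1 (hlo1.trans h1) (by norm_num) (by linarith)
    rw [hyy']
    linarith
  have y2 : y ≤ 2 := by
    have a1 : Real.pi / Real.sqrt 3 ≤ 1.82 := by
      refine le_trans pr3I_mem.2 ?_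
      show rv 1994293491429 ≤ (1.82 : ℝ)
      unfold rv
      norm_num
    have a2 : Real.pi / Real.sqrt 3 * δ ≤ 1.82 * 2 :=
      mul_le_mul a1 (h2.trans hhi2) (by linarith) (by norm_num)
    rw [hyy']
    linarith
  have mhalf : (PI.smul 1 2 (yOf dl dh)).Mem (y / 2) := by
    have a1 : y / 2 = ((1 : ℕ) : ℝ) / (2 : ℕ) * y := by
      push_cast
      ring
    rw [a1]
    exact PI.Mem.smul 1 2 (by norm_num) my
  have hhalf : (PI.smul 1 2 (yOf dl dh)).hi ≤ 2199023255552 := by
    show (1 * (yOf dl dh).hi) / 2 + 1 ≤ 2199023255552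
    omega
  have me : (exp (PI.smul 1 2 (yOf dl dh))).Mem (Real.exp (y / 2)) := exp_mem mhalf hhalf
  have hpos : 0 < (four (exp (PI.smul 1 2 (yOf dl dh)))).lo := by
    have b1 : 1099511627776 ≤ (exp (PI.smul 1 2 (yOf dl dh))).lo := by
      show 1099511627776 ≤ 1099511627776 + mulD _ _
      exact Nat.le_add_right _ _
    have b2 : 1099511627776 ≤ (PI.sq (exp (PI.smul 1 2 (yOf dl dh)))).lo :=
      numBaseA_mulD (Nat.mul_le_mul b1 b1)
    have b3 : 1099511627776 ≤ (PI.sq (PI.sq (exp (PI.smul 1 2 (yOf dl dh))))).lo :=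
      numBaseA_mulD (Nat.mul_le_mul b2 b2)
    exact lt_of_lt_of_le (by norm_num) b3
  have mt : (tOf (yOf dl dh)).Mem (Real.exp (-(2 * y))) := by
    have b1 : Real.exp (-(2 * y)) = 1 / Real.exp (y / 2) ^ 4 := by
      rw [Real.exp_neg, one_div, ← Real.exp_nat_mul]
      congr 2
      push_cast
      ring
    rw [b1]
    exact PI.Mem.inv (PI.Mem.four me) hpos
  have mt2 : (PI.sq (tOf (yOf dl dh))).Mem (Real.exp (-(2 * y)) ^ 2) := PI.Mem.sq mt
  refine ⟨my, ylo, y1, y2, mt, mt2, ?_, ?_⟩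
  · have b1 : Real.exp (-(2 * y)) ^ 3 = Real.exp (-(2 * y)) ^ 2 * Real.exp (-(2 * y)) := by ring
    rw [b1]
    exact PI.Mem.mul mt2 mt
  · exact c4

theorem slab_u2 {dl dh z1 z3 n : Nat} {z3n : Bool} (h : slabChk dl dh = true) {δ : ℝ}
    (h1 : rv dl ≤ δ) (h2 : δ ≤ rv dh) :
    |2 * Real.cos (Real.pi * δ)| ≤ rv (mkSlab dl dh z1 z3n z3 n).u2 ∧
      |4 * Real.cos (Real.pi * δ) ^ 2 - 1| ≤ rv (mkSlab dl dh z1 z3n z3 n).u3 := by
  obtain ⟨c1, c2, c3, c4, c5⟩ := numBaseA_chk h
  have c1' : 1099511627776 ≤ dh := c1.trans c2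
  have el1 : rv (Nat.sub dl 1099511627776) ≤ δ - 1 := by
    rw [rv_sub_eq c1, rv_lit]
    linarith
  have el2 : δ - 1 ≤ rv (Nat.sub dh 1099511627776) := by
    rw [rv_sub_eq c1', rv_lit]
    linarith
  have hc : |Real.cos (Real.pi * (δ - 1))| ≤
      rv (cmaxOf (Nat.sub dl 1099511627776) (Nat.sub dh 1099511627776)) := by
    refine numBaseA_cmax ?_ ?_ ?_ el1 el2
    · show dl - 1099511627776 ≤ dh - 1099511627776
      omega
    · show dh - 1099511627776 ≤ 1099511627776
      omega
    · show dh - 1099511627776 ≤ 549755813888 ∨ 549755813888 ≤ dl - 1099511627776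
      omega
  have hcos : Real.cos (Real.pi * δ) = -Real.cos (Real.pi * (δ - 1)) := by
    rw [← Real.cos_add_pi]
    congr 1
    ring
  have hu2 : (mkSlab dl dh z1 z3n z3 n).u2 =
      Nat.mul 2 (cmaxOf (Nat.sub dl 1099511627776) (Nat.sub dh 1099511627776)) := by
    dsimp only [mkSlab]
  have hu3 : (mkSlab dl dh z1 z3n z3 n).u3 =
      maxN 1099511627776 (Nat.sub (Nat.mul 4
        (mulU (cmaxOf (Nat.sub dl 1099511627776) (Nat.sub dh 1099511627776))
          (cmaxOf (Nat.sub dl 1099511627776) (Nat.sub dh 1099511627776)))) 1099511627776) := by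
    dsimp only [mkSlab]
  generalize cmaxOf (Nat.sub dl 1099511627776) (Nat.sub dh 1099511627776) = c at hc hu2 hu3
  have habs : |Real.cos (Real.pi * δ)| ≤ rv c := by
    rw [hcos, abs_neg]
    exact hc
  constructor
  · rw [hu2, rv_nmul, abs_mul, abs_of_pos (by norm_num : (0 : ℝ) < 2)]
    push_cast
    exact mul_le_mul_of_nonneg_left habs (by norm_num)
  · rw [hu3, rv_maxN, rv_lit]
    have b1 := rv_sub_le (Nat.mul 4 (mulU c c)) 1099511627776
    rw [rv_nmul, rv_lit] at b1
    have b2 := le_mulU c c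
    have b3 : Real.cos (Real.pi * δ) ^ 2 ≤ rv c * rv c := by
      rw [← sq_abs, sq]
      exact mul_self_le_mul_self (abs_nonneg _) habs
    have b4 : 0 ≤ Real.cos (Real.pi * δ) ^ 2 := sq_nonneg _
    push_cast at b1
    rw [abs_le]
    constructor
    · have b5 := le_max_left (1 : ℝ) (rv (Nat.sub (Nat.mul 4 (mulU c c)) 1099511627776))
      linarith
    · refine le_trans ?_ (le_max_right _ _)
      linarith

end MP7e122f.Num
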