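import Pool.Agent.Lib.MP_7e122f_anR.NumDual
import Pool.Agent.Lib.MP_7e122f_anR.NumBaseA

namespace MP7e122f.Num

open MP7e122f.R

private theorem numDualB_two : rv 2199023255552 = 2 := by
  unfold rv
  norm_num

private theorem numDualB_mulD {a b : Nat} (ha : 1099511627776 ≤ a) (hb : 1099511627776 ≤ b) :
    1099511627776 ≤ mulD a b := by
  unfold mulD
  rw [show Nat.shiftRight (Nat.mul a b) 40 = (a * b) >>> 40 from rfl,
    Nat.shiftRight_eq_div_pow, Nat.le_div_iff_mul_le (by norm_num)]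
  calc 1099511627776 * 2 ^ 40 = 1099511627776 * 1099511627776 := by norm_num
    _ ≤ a * b := Nat.mul_le_mul ha hb

private theorem numDualB_exp_lo (a : PI) : 1099511627776 ≤ (exp a).lo :=
  Nat.le_add_right _ _

private theorem numDualB_hi {dh : Nat} (h : dh ≤ 2199023255552) :
    (PI.smul 1 2 (PI.smul 1 2 (PI.mul pr3I ⟨dh, dh⟩))).hi ≤ 2199023255552 := by
  have h1 : mulU 1994293491429 dh ≤ 3988586982859 := by
    unfold mulU
    rw [show Nat.shiftRight (Nat.mul 1994293491429 dh) 40 = (1994293491429 * dh) >>> 40 from rfl,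
      Nat.shiftRight_eq_div_pow]
    have : 1994293491429 * dh / 2 ^ 40 ≤ 1994293491429 * 2199023255552 / 2 ^ 40 :=
      Nat.div_le_div_right (Nat.mul_le_mul_left _ h)
    have e : 1994293491429 * 2199023255552 / 2 ^ 40 = 3988586982858 := by norm_num
    omega
  have e : (PI.smul 1 2 (PI.smul 1 2 (PI.mul pr3I ⟨dh, dh⟩))).hi =
      1 * ((1 * mulU 1994293491429 dh) / 2 + 1) / 2 + 1 := rfl
  rw [e]
  omega

private theorem numDualB_t {dl dh : Nat} (h : dh ≤ 2199023255552) {δ t : ℝ}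
    (h1 : rv dl ≤ δ) (h2 : δ ≤ rv dh) (ht : t = Real.exp (-(Real.pi / Real.sqrt 3 * δ))) :
    (tOf (yOf dl dh)).Mem t := by
  have hδ : (⟨dl, dh⟩ : PI).Mem δ := ⟨h1, h2⟩
  have hy := PI.Mem.smul 1 2 (by norm_num) (PI.Mem.smul 1 2 (by norm_num)
    (PI.Mem.mul pr3I_mem hδ))
  have hhi : (PI.smul 1 2 (PI.smul 1 2 (PI.mul pr3I ⟨dl, dh⟩))).hi ≤ 2199023255552 :=
    numDualB_hi h
  have hf := PI.Mem.four (exp_mem hy hhi)
  have hlo : 0 < (four (exp (PI.smul 1 2 (PI.smul 1 2 (PI.mul pr3I ⟨dl, dh⟩))))).lo := by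
    have h3 := numDualB_exp_lo (PI.smul 1 2 (PI.smul 1 2 (PI.mul pr3I ⟨dl, dh⟩)))
    have h4 := numDualB_mulD h3 h3
    have h5 := numDualB_mulD h4 h4
    exact lt_of_lt_of_le (by norm_num) h5
  have hi := PI.Mem.inv hf hlo
  have e : 1 / Real.exp (((1 : ℕ) : ℝ) / ((2 : ℕ) : ℝ) * (((1 : ℕ) : ℝ) / ((2 : ℕ) : ℝ) *
      (Real.pi / Real.sqrt 3 * δ))) ^ 4 = t := by
    rw [ht, Real.exp_neg, ← Real.exp_nat_mul, one_div]
    congr 2
    push_cast
    ring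
  rw [e] at hi
  exact hi

private theorem numDualB_cond (mx : Bool) (a b c d : Nat) (x y : ℝ)
    (h1 : mx = true → rv a ≤ x ∧ x ≤ rv c) (h2 : mx = false → rv b ≤ y ∧ y ≤ rv d) :
    rv (cond mx a b) ≤ cond mx x y ∧ cond mx x y ≤ rv (cond mx c d) := by
  cases mx
  · exact h2 rfl
  · exact h1 rfl

private theorem numDualB_e (mx : Bool) {dl dh : Nat} (ha : 1099511627776 ≤ dl) (hb : dl ≤ dh)
    (hc : dh ≤ 2199023255552) {δ : ℝ} (h1 : rv dl ≤ δ) (h2 : δ ≤ rv dh) :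
    rv (elOf mx dl dh) ≤ eOf mx δ ∧ eOf mx δ ≤ rv (ehOf mx dl dh) := by
  have e1 : rv (Nat.sub dl 1099511627776) = rv dl - 1 := by rw [rv_sub_eq ha, rv_lit]
  have e2 : rv (Nat.sub dh 1099511627776) = rv dh - 1 := by rw [rv_sub_eq (ha.trans hb), rv_lit]
  have e3 : rv (Nat.sub 2199023255552 dh) = 2 - rv dh := by rw [rv_sub_eq hc, numDualB_two]
  have e4 : rv (Nat.sub 2199023255552 dl) = 2 - rv dl := by
    rw [rv_sub_eq (hb.trans hc), numDualB_two]
  clear ha hb hc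
  unfold elOf ehOf eOf
  apply numDualB_cond
  · intro _
    rw [e1, e2]
    constructor <;> linarith
  · intro _
    rw [e3, e4]
    constructor <;> linarith

theorem env_ok {mx : Bool} {dl dh : Nat} (h : envChk mx dl dh = true) {δ t : ℝ}
    (h1 : rv dl ≤ δ) (h2 : δ ≤ rv dh) (ht : t = Real.exp (-(Real.pi / Real.sqrt 3 * δ))) :
    EnvOK (mkEnv mx dl dh) mx δ t := by
  unfold envChk at h
  rw [Bool.and_eq_true, Bool.and_eq_true, Bool.and_eq_true] at h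
  obtain ⟨ha, hb, hc, hd⟩ := h
  have ha' : 1099511627776 ≤ dl := Nat.le_of_ble_eq_true ha
  have hb' : dl ≤ dh := Nat.le_of_ble_eq_true hb
  have hc' : dh ≤ 2199023255552 := Nat.le_of_ble_eq_true hc
  have hmt := numDualB_t hc' h1 h2 ht
  have hmt2 := PI.Mem.sq hmt
  have hmt3 := PI.Mem.mul hmt2 hmt
  rw [show t ^ 2 * t = t ^ 3 by ring] at hmt3
  have hmt4 := PI.Mem.sq hmt2
  rw [show (t ^ 2) ^ 2 = t ^ 4 by ring] at hmt4
  have ht0 : 0 ≤ t := PI.Mem.nonneg hmt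
  have hel := numDualB_e mx ha' hb' hc' h1 h2
  have h7 : t ^ 7 ≤ rv (mulU (PI.mul (PI.sq (tOf (yOf dl dh))) (tOf (yOf dl dh))).hi
      (PI.sq (PI.sq (tOf (yOf dl dh)))).hi) := by
    refine le_trans ?_ (le_mulU _ _)
    rw [show t ^ 7 = t ^ 3 * t ^ 4 by ring]
    exact mul_le_mul hmt3.2 hmt4.2 (by positivity) (rv_nonneg _)
  have h9 : t ^ 9 ≤ rv (mulU (mulU (PI.mul (PI.sq (tOf (yOf dl dh))) (tOf (yOf dl dh))).hi
      (PI.sq (PI.sq (tOf (yOf dl dh)))).hi) (PI.sq (tOf (yOf dl dh))).hi) := by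
    refine le_trans ?_ (le_mulU _ _)
    rw [show t ^ 9 = t ^ 7 * t ^ 2 by ring]
    exact mul_le_mul h7 hmt2.2 (by positivity) (rv_nonneg _)
  have hsm : ∀ {a : PI} {x : ℝ}, a.Mem x → (PI.smul 6 1 a).Mem (6 * x) := by
    intro a x hx
    have := PI.Mem.smul 6 1 (by norm_num) hx
    rw [show ((6 : ℕ) : ℝ) / ((1 : ℕ) : ℝ) * x = 6 * x by push_cast; ring] at this
    exact this
  constructor
  · exact cosE_mem hd hel.1 hel.2
  · exact SI.Mem.ofPI (PI.Mem.mul r3I_mem (sinE_mem hd hel.1 hel.2))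
  · exact SI.Mem.ofPI (hsm hmt)
  · exact SI.Mem.ofPI (hsm hmt3)
  · cases mx
    · have := SI.Mem.neg (SI.Mem.ofPI (hsm hmt4))
      rw [show -(6 * t ^ 4) = sg false * (6 * t ^ 4) by simp [sg]] at this
      exact this
    · have := SI.Mem.ofPI (hsm hmt4)
      rw [show 6 * t ^ 4 = sg true * (6 * t ^ 4) by simp [sg]] at this
      exact this
  · show 12 * t ^ 7 + 7 * t ^ 9 ≤ rv (Nat.add (Nat.mul 12 _) (Nat.mul 7 _))
    rw [rv_add, rv_nmul, rv_nmul]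
    push_cast
    linarith

end MP7e122f.Num
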