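import Pool.Agent.Lib.MP_7e122f_anR.NumDual

namespace MP7e122f.Num

open MP7e122f.R

/-! ### auxiliary: trigonometric values -/

private theorem dualc_cos1 (x : ℝ) : Real.cos (x - Real.pi / 3) =
    (Real.cos x + Real.sqrt 3 * Real.sin x) / 2 := by
  rw [Real.cos_sub, Real.cos_pi_div_three, Real.sin_pi_div_three]
  ring

private theorem dualc_cos2 (x : ℝ) : Real.cos (x - 2 * Real.pi / 3) =
    (-Real.cos x + Real.sqrt 3 * Real.sin x) / 2 := by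
  have h1 : x - 2 * Real.pi / 3 = x - (Real.pi - Real.pi / 3) := by ring
  rw [h1, Real.cos_sub, Real.cos_pi_sub, Real.sin_pi_sub, Real.cos_pi_div_three,
    Real.sin_pi_div_three]
  ring

private theorem dualc_cos4 (x : ℝ) : Real.cos (x - 4 * Real.pi / 3) =
    (-Real.cos x - Real.sqrt 3 * Real.sin x) / 2 := by
  have h1 : x - 4 * Real.pi / 3 = x - (Real.pi / 3 + Real.pi) := by ring
  rw [h1, Real.cos_sub, Real.cos_add_pi, Real.sin_add_pi, Real.cos_pi_div_three,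
    Real.sin_pi_div_three]
  ring

private theorem dualc_cos5 (x : ℝ) : Real.cos (x - 5 * Real.pi / 3) =
    (Real.cos x - Real.sqrt 3 * Real.sin x) / 2 := by
  have h1 : x - 5 * Real.pi / 3 = x + Real.pi / 3 - 2 * Real.pi := by ring
  rw [h1, Real.cos_sub_two_pi, Real.cos_add, Real.cos_pi_div_three, Real.sin_pi_div_three]
  ring

private theorem dualc_abs {a b z : ℝ} (h : |a| ≤ b) (hz : |z| ≤ 1) : a * z ≤ b := by
  calc a * z ≤ |a * z| := le_abs_self _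
    _ = |a| * |z| := abs_mul _ _
    _ ≤ |a| * 1 := mul_le_mul_of_nonneg_left hz (abs_nonneg _)
    _ ≤ b := by rw [mul_one]; exact h

private theorem dualc_succ (n : Nat) : rv (Nat.succ n) = rv n + 1 / 1099511627776 := by
  unfold rv
  push_cast
  ring

/-- the dual inequality -/
theorem dual_ineq {E : DEnv} {mx : Bool} {δ t z1 z3 q : ℝ} (hE : EnvOK E mx δ t) (L : Dual)
    (hF : Feas (Real.pi * eOf mx δ) z1 z3 q) :
    ∃ A C : ℝ, (dA E L).Mem A ∧ (dC E L).Mem C ∧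
      6 * rv L.l0 * z1 ^ 2 + A * z1 + C * z3 + ri L.dd * q ≤ rv L.tot := by
  refine ⟨Real.cos (Real.pi * eOf mx δ) * ri L.a1 +
      Real.sqrt 3 * Real.sin (Real.pi * eOf mx δ) * ri L.a2,
    Real.cos (Real.pi * eOf mx δ) * ri L.c1 +
      Real.sqrt 3 * Real.sin (Real.pi * eOf mx δ) * ri L.c2,
    SI.Mem.add (SI.Mem.mulK hE.mc _) (SI.Mem.mulK hE.ms _),
    SI.Mem.add (SI.Mem.mulK hE.mc _) (SI.Mem.mulK hE.ms _), ?_⟩
  have k0 := mul_le_mul_of_nonneg_left hF.c0 (rv_nonneg L.l0)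
  have k1 := mul_le_mul_of_nonneg_left hF.c1 (rv_nonneg L.l1)
  have k2 := mul_le_mul_of_nonneg_left hF.c2 (rv_nonneg L.l2)
  have k3 := mul_le_mul_of_nonneg_left hF.c3 (rv_nonneg L.l3)
  have k4 := mul_le_mul_of_nonneg_left hF.c4 (rv_nonneg L.l4)
  have k5 := mul_le_mul_of_nonneg_left hF.c5 (rv_nonneg L.l5)
  rw [dualc_cos1, dualc_cos2] at k1
  rw [dualc_cos2, dualc_cos4] at k2
  rw [dualc_cos4, dualc_cos2] at k4
  rw [dualc_cos5, dualc_cos4] at k5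
  have e1 : ri L.a1 = 2 * rv L.l0 + (rv L.l1 + rv L.l5) - (2 * rv L.l3 + (rv L.l2 + rv L.l4)) := by
    unfold Dual.a1
    rw [ri_sub, ri_ofNat, ri_ofNat, rv_add, rv_add, rv_add, rv_add, rv_nmul, rv_nmul]
    norm_num
  have e2 : ri L.a2 = (rv L.l1 + rv L.l2) - (rv L.l4 + rv L.l5) := by
    unfold Dual.a2
    rw [ri_sub, ri_ofNat, ri_ofNat, rv_add, rv_add]
  have e3 : ri L.c1 = 2 * (rv L.l0 + rv L.l3) - (rv L.l1 + rv L.l2 + (rv L.l4 + rv L.l5)) := by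
    unfold Dual.c1
    rw [ri_sub, ri_ofNat, ri_ofNat, rv_nmul, rv_add, rv_add, rv_add, rv_add]
    norm_num
  have e4 : ri L.c2 = (rv L.l1 + rv L.l4) - (rv L.l2 + rv L.l5) := by
    unfold Dual.c2
    rw [ri_sub, ri_ofNat, ri_ofNat, rv_add, rv_add]
  have e5 : ri L.dd = (rv L.l1 + (rv L.l3 + rv L.l5)) - (rv L.l0 + (rv L.l2 + rv L.l4)) := by
    unfold Dual.dd
    rw [ri_sub, ri_ofNat, ri_ofNat, rv_add, rv_add, rv_add, rv_add]
  have e6 : rv L.tot = rv L.l0 + (rv L.l1 + (rv L.l2 + (rv L.l3 + (rv L.l4 + rv L.l5)))) := by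
    unfold Dual.tot
    rw [rv_add, rv_add, rv_add, rv_add, rv_add]
  rw [e1, e2, e3, e4, e5, e6]
  generalize Real.cos (Real.pi * eOf mx δ) = c at *
  generalize Real.sqrt 3 * Real.sin (Real.pi * eOf mx δ) = s at *
  linarith

theorem up_ok {E : DEnv} {mx : Bool} {δ t z1 z3 q : ℝ} (hE : EnvOK E mx δ t) {L : Dual}
    {zs hb : Nat} (h : upChk E L zs hb = true) (hF : Feas (Real.pi * eOf mx δ) z1 z3 q) :
    6 * t * z1 + 6 * t ^ 3 * z3 + sg mx * (6 * t ^ 4 * q) + (12 * t ^ 7 + 7 * t ^ 9) < rv hb := by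
  obtain ⟨A, C, hA, hC, hD⟩ := dual_ineq hE L hF
  dsimp only [upChk] at h
  have h1 := ri_mono h
  rw [ri_ofNat, ri_add, ri_add, ri_add, ri_add, ri_ofNat, rv_add, dualc_succ] at h1
  have hq : (SI.mulK (SI.pt (Int.ofNat (Nat.mul 12 L.l0))) (Int.ofNat zs)).Mem
      (12 * rv L.l0 * rv zs) := by
    have := SI.Mem.mulK (SI.Mem.pt (Int.ofNat (Nat.mul 12 L.l0))) (Int.ofNat zs)
    rw [ri_ofNat, ri_ofNat, rv_nmul] at this
    norm_num at this
    exact this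
  have hw : (SI.mulK (SI.mulK (SI.pt (Int.ofNat (Nat.mul 6 L.l0))) (Int.ofNat zs))
      (Int.ofNat zs)).Mem (6 * rv L.l0 * rv zs * rv zs) := by
    have := SI.Mem.mulK (SI.Mem.mulK (SI.Mem.pt (Int.ofNat (Nat.mul 6 L.l0))) (Int.ofNat zs))
      (Int.ofNat zs)
    rw [ri_ofNat, ri_ofNat, rv_nmul] at this
    norm_num at this
    exact this
  have k1 := dualc_abs (SI.Mem.absU (SI.Mem.sub (SI.Mem.sub hE.mt6 hA) hq)) hF.b1
  have k2 := dualc_abs (SI.Mem.absU (SI.Mem.sub hE.mt36 hC)) hF.b3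
  have k3 := dualc_abs (SI.Mem.absU (SI.Mem.sub hE.mt46 (SI.Mem.pt L.dd))) hF.b4
  have k4 := hw.2
  have k5 := hE.mtail
  have k6 : 0 ≤ rv L.l0 * (z1 - rv zs) ^ 2 := mul_nonneg (rv_nonneg _) (sq_nonneg _)
  have k7 : (0 : ℝ) < 1 / 1099511627776 := by norm_num
  nlinarith [k1, k2, k3, k4, k5, k6, k7, h1, hD]

/-- the margin does not depend on the point -/
theorem z1_ok {E : DEnv} {mx : Bool} {δ t : ℝ} (hE : EnvOK E mx δ t) {L : Dual}
    {z1c W : Nat} (h : z1Chk E L z1c W = true) :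
    ∃ η : ℝ, 0 < η ∧ ∀ z1 z3 q : ℝ, Feas (Real.pi * eOf mx δ) z1 z3 q →
      rv W - (12 * t ^ 7 + 7 * t ^ 9) - η <
        6 * t * z1 + 6 * t ^ 3 * z3 + sg mx * (6 * t ^ 4 * q) → rv z1c ≤ z1 := by
  refine ⟨1 / 1099511627776, by norm_num, ?_⟩
  intro z1 z3 q hF hV
  by_contra hcon
  push Not at hcon
  obtain ⟨A, C, hA, hC, hD⟩ := dual_ineq hE L hF
  dsimp only [z1Chk] at h
  rw [Bool.and_eq_true] at h
  obtain ⟨ha, hb⟩ := h
  have h0 := ri_mono ha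
  have h1 := ri_mono hb
  rw [ri_ofNat, ri_add, ri_add, ri_sub, ri_add, ri_ofNat, rv_add, dualc_succ] at h1
  have h00 : ri 0 = 0 := by unfold ri; norm_num
  rw [h00] at h0
  have hq : (SI.mulK (SI.pt (Int.ofNat (Nat.mul 12 L.l0))) (Int.ofNat z1c)).Mem
      (12 * rv L.l0 * rv z1c) := by
    have := SI.Mem.mulK (SI.Mem.pt (Int.ofNat (Nat.mul 12 L.l0))) (Int.ofNat z1c)
    rw [ri_ofNat, ri_ofNat, rv_nmul] at this
    norm_num at this
    exact this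
  have hw : (SI.mulK (SI.mulK (SI.pt (Int.ofNat (Nat.mul 6 L.l0))) (Int.ofNat z1c))
      (Int.ofNat z1c)).Mem (6 * rv L.l0 * rv z1c * rv z1c) := by
    have := SI.Mem.mulK (SI.Mem.mulK (SI.Mem.pt (Int.ofNat (Nat.mul 6 L.l0))) (Int.ofNat z1c))
      (Int.ofNat z1c)
    rw [ri_ofNat, ri_ofNat, rv_nmul] at this
    norm_num at this
    exact this
  have hdz := SI.Mem.mulK (SI.Mem.sub hE.mt6 hA) (Int.ofNat z1c)
  rw [ri_ofNat] at hdz
  have k0 := le_trans h0 (SI.Mem.sub (SI.Mem.sub hE.mt6 hA) hq).1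
  have k2 := dualc_abs (SI.Mem.absU (SI.Mem.sub hE.mt36 hC)) hF.b3
  have k3 := dualc_abs (SI.Mem.absU (SI.Mem.sub hE.mt46 (SI.Mem.pt L.dd))) hF.b4
  have k4 := hw.1
  have k5 := hE.mtail
  have k6 : 0 ≤ rv L.l0 * (z1 - rv z1c) ^ 2 := mul_nonneg (rv_nonneg _) (sq_nonneg _)
  have k7 : 0 ≤ (6 * t - A - 12 * rv L.l0 * rv z1c) * (rv z1c - z1) :=
    mul_nonneg k0 (by linarith)
  have k8 := hdz.2
  nlinarith [k2, k3, k4, k5, k6, k7, k8, h1, hD, hV]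

theorem z3_ok {E : DEnv} {mx : Bool} {δ t z1 z3 q : ℝ} (hE : EnvOK E mx δ t) {L : Dual}
    {z1c : Nat} {z3c : Int} (h : z3Chk E L z1c z3c = true)
    (hF : Feas (Real.pi * eOf mx δ) z1 z3 q) (h1 : rv z1c ≤ z1) : z3 ≤ ri z3c := by
  obtain ⟨A, C, hA, hC, hD⟩ := dual_ineq hE L hF
  dsimp only [z3Chk] at h
  rw [Bool.and_eq_true] at h
  obtain ⟨ha, hb⟩ := h
  have h0 := ri_mono ha
  have h2 := ri_mono hb
  rw [ri_add, ri_sub, ri_sub, ri_add, ri_ofNat] at h2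
  have h00 : ri 0 = 0 := by unfold ri; norm_num
  rw [h00] at h0
  have hq : (SI.mulK (SI.pt (Int.ofNat (Nat.mul 12 L.l0))) (Int.ofNat z1c)).Mem
      (12 * rv L.l0 * rv z1c) := by
    have := SI.Mem.mulK (SI.Mem.pt (Int.ofNat (Nat.mul 12 L.l0))) (Int.ofNat z1c)
    rw [ri_ofNat, ri_ofNat, rv_nmul] at this
    norm_num at this
    exact this
  have hw : (SI.mulK (SI.mulK (SI.pt (Int.ofNat (Nat.mul 6 L.l0))) (Int.ofNat z1c))
      (Int.ofNat z1c)).Mem (6 * rv L.l0 * rv z1c * rv z1c) := by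
    have := SI.Mem.mulK (SI.Mem.mulK (SI.Mem.pt (Int.ofNat (Nat.mul 6 L.l0))) (Int.ofNat z1c))
      (Int.ofNat z1c)
    rw [ri_ofNat, ri_ofNat, rv_nmul] at this
    norm_num at this
    exact this
  have hAz := SI.Mem.mulK hA (Int.ofNat z1c)
  rw [ri_ofNat] at hAz
  have hone : ri 1099511627776 = 1 := by unfold ri; norm_num
  have hCs := SI.Mem.sub (SI.Mem.pt 1099511627776) hC
  rw [hone] at hCs
  have k0 := le_trans h0 (SI.Mem.add hA hq).1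
  have k2 := dualc_abs (SI.Mem.absU hCs) hF.b3
  have hnq : |(-q)| ≤ 1 := by rw [abs_neg]; exact hF.b4
  have k3 := dualc_abs (SI.Mem.absU (SI.Mem.pt L.dd)) hnq
  have k4 := hw.1
  have k6 : 0 ≤ rv L.l0 * (z1 - rv z1c) ^ 2 := mul_nonneg (rv_nonneg _) (sq_nonneg _)
  have k7 : 0 ≤ (A + 12 * rv L.l0 * rv z1c) * (z1 - rv z1c) :=
    mul_nonneg k0 (by linarith)
  have k8 := hAz.1
  nlinarith [k2, k3, k4, k6, k7, k8, h2, hD]

end MP7e122f.Num
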