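import Pool.Agent.Lib.MP_7e122f_anR.Defs

/-!
Test values for the hexagonal lattice.  `H` has weights `cc y y y k = exp(-2 y N(k))`,
`y = πδ/(2√3)`, `δ = 1/det H`, `N = Nf`.  Product states (`TPD.mul`): a state of flux `δ₀`
(`δ₀ = 1, 2, 3/2`, values `ψ₀`), times a hexagonal Gaussian of flux `δ - δ₀`,
`P = (2|δ-δ₀|/√3) (1, 1/2, 1)`, whose values are `exp(-(π/√3)|δ-δ₀| N(k))`
(`tpd_gauss'`), times a character (`tpd_char`) for the value `cos(2π(k.1 - k.2)/3)`.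
So the test value is `∑ ψ₀(k) cos(..) T^N(k)` with `T = exp(-(π/√3)(δ + |δ-δ₀|))`.
The shells: `N=1` (6 vectors, `S1`), `3` (6, `S3`), `4` (6, `S4`), `7` (12), `9` (6), `12` (6), ...
`cos(2π(k.1-k.2)/3)` is `-1/2` on the shells `1, 4, 7` and `1` on the shells `3, 9, 12`
(it is `1` iff `3 ∣ k.1 - k.2` iff `3 ∣ N`).
-/

open MeasureTheory Complex
open scoped ComplexInnerProductSpace ENNReal ComplexOrder

namespace MP7e122f.R

lemma HexTail_nonneg (k : ℤ × ℤ) : 0 ≤ Nf k := by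
  unfold Nf
  nlinarith [sq_nonneg (k.1 + k.2), sq_nonneg k.1, sq_nonneg k.2]

lemma HexTail_box {k : ℤ × ℤ} {n : ℤ} (hn : 0 ≤ n) (h : 4 * Nf k < 3 * (n + 1) ^ 2) :
    k ∈ (Finset.Icc (-n) n ×ˢ Finset.Icc (-n) n : Finset (ℤ × ℤ)) := by
  unfold Nf at h
  rw [Finset.mem_product, Finset.mem_Icc, Finset.mem_Icc]
  have h1 : k.1 ^ 2 < (n + 1) ^ 2 := by nlinarith [sq_nonneg (k.1 + 2 * k.2)]
  have h2 : k.2 ^ 2 < (n + 1) ^ 2 := by nlinarith [sq_nonneg (2 * k.1 + k.2)]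
  have h3 := abs_lt_of_sq_lt_sq' h1 (by linarith)
  have h4 := abs_lt_of_sq_lt_sq' h2 (by linarith)
  omega

lemma HexTail_dec : ∀ a ∈ Finset.Icc (-4 : ℤ) 4, ∀ b ∈ Finset.Icc (-4 : ℤ) 4,
    a ^ 2 + a * b + b ^ 2 ≤ 15 → a ^ 2 + a * b + b ^ 2 ≤ 9 ∨
      a ^ 2 + a * b + b ^ 2 = 12 ∨ a ^ 2 + a * b + b ^ 2 = 13 := by decide

/-- the vectors of norm 12 -/
noncomputable def HexTail_A12 : Finset (ℤ × ℤ) :=
  (Finset.Icc (-4) 4 ×ˢ Finset.Icc (-4) 4 : Finset (ℤ × ℤ)).filter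
    (fun k => k.1 ^ 2 + k.1 * k.2 + k.2 ^ 2 = 12)

/-- the vectors of norm 13 -/
noncomputable def HexTail_A13 : Finset (ℤ × ℤ) :=
  (Finset.Icc (-4) 4 ×ˢ Finset.Icc (-4) 4 : Finset (ℤ × ℤ)).filter
    (fun k => k.1 ^ 2 + k.1 * k.2 + k.2 ^ 2 = 13)

/-- a big box -/
noncomputable def HexTail_B : Finset (ℤ × ℤ) := Finset.Icc (-9) 9 ×ˢ Finset.Icc (-9) 9

lemma HexTail_card12 : HexTail_A12.card = 6 := by decide +kernel

lemma HexTail_card13 : HexTail_A13.card = 12 := by decide +kernel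

lemma HexTail_cardB : HexTail_B.card = 361 := by
  unfold HexTail_B
  rw [Finset.card_product]
  rfl

/-- the majorant -/
noncomputable def HexTail_g (k : ℤ × ℤ) : ℝ :=
  (if k ∈ HexTail_A12 then 1 else 0) + (if k ∈ HexTail_A13 then 1 / 5 else 0) +
    (if k ∈ HexTail_B then 1 / 625 else 0) +
    1 / 125 * ((1 / 5) ^ k.1.natAbs * (1 / 5) ^ k.2.natAbs)

lemma HexTail_ite (A : Finset (ℤ × ℤ)) (c : ℝ) :
    HasSum (fun k => if k ∈ A then c else 0) (A.card * c) := by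
  have h : HasSum (fun k => if k ∈ A then c else 0) (∑ b ∈ A, (if b ∈ A then c else 0)) :=
    hasSum_sum_of_ne_finset_zero (fun b hb => if_neg hb)
  have h2 : ∑ b ∈ A, (if b ∈ A then c else 0) = A.card * c := by
    rw [Finset.sum_congr rfl (fun b hb => if_pos hb), Finset.sum_const, nsmul_eq_mul]
  rw [h2] at h
  exact h

lemma HexTail_hasSum : HasSum HexTail_g
    (6 * 1 + 12 * (1 / 5) + 361 * (1 / 625) + 1 / 125 * ((1 + 1 / 5) / (1 - 1 / 5)) ^ 2) := by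
  have h1 := HexTail_ite HexTail_A12 1
  have h2 := HexTail_ite HexTail_A13 (1 / 5)
  have h3 := HexTail_ite HexTail_B (1 / 625)
  rw [HexTail_card12, Nat.cast_ofNat] at h1
  rw [HexTail_card13, Nat.cast_ofNat] at h2
  rw [HexTail_cardB, Nat.cast_ofNat] at h3
  have h4 := (hasSum_prod_geom (1 / 5) (by norm_num) (by norm_num)).mul_left (1 / 125)
  have h5 := ((h1.add h2).add h3).add h4
  exact h5

lemma HexTail_g_nonneg (k : ℤ × ℤ) : 0 ≤ HexTail_g k := by
  unfold HexTail_g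
  positivity

lemma HexTail_pt (T : ℝ) (h0 : 0 < T) (h1 : T ≤ 1 / 5) (k : ℤ × ℤ) (hk : 10 ≤ Nf k) :
    T ^ (Nf k).toNat ≤ T ^ 12 * HexTail_g k := by
  obtain ⟨n, hn⟩ : ∃ n : ℕ, Nf k = n := ⟨(Nf k).toNat, (Int.toNat_of_nonneg (by omega)).symm⟩
  have hn' : (Nf k).toNat = n := by omega
  rw [hn']
  have hg12 : 0 ≤ (if k ∈ HexTail_A12 then (1 : ℝ) else 0) := by positivity
  have hg13 : 0 ≤ (if k ∈ HexTail_A13 then (1 / 5 : ℝ) else 0) := by positivity
  have hgB : 0 ≤ (if k ∈ HexTail_B then (1 / 625 : ℝ) else 0) := by positivity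
  have hgR : (0 : ℝ) ≤ 1 / 125 * ((1 / 5) ^ k.1.natAbs * (1 / 5) ^ k.2.natAbs) := by positivity
  have hT12 : 0 < T ^ 12 := by positivity
  have hlow : ∀ c : ℝ, c ≤ HexTail_g k → T ^ 12 * c ≤ T ^ 12 * HexTail_g k :=
    fun c hc => mul_le_mul_of_nonneg_left hc hT12.le
  by_cases h15 : Nf k ≤ 15
  · have hbox := HexTail_box (k := k) (n := 4) (by norm_num) (by omega)
    have hb2 := hbox
    rw [Finset.mem_product] at hb2
    have hd := HexTail_dec k.1 hb2.1 k.2 hb2.2 h15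
    have e : Nf k = k.1 ^ 2 + k.1 * k.2 + k.2 ^ 2 := rfl
    rw [← e] at hd
    rcases hd with h | h | h
    · omega
    · have hm : k ∈ HexTail_A12 := by
        unfold HexTail_A12
        rw [Finset.mem_filter]
        exact ⟨hbox, h⟩
      have hn12 : n = 12 := by omega
      subst hn12
      refine le_trans ?_ (hlow 1 ?_)
      · rw [mul_one]
      · unfold HexTail_g
        rw [if_pos hm]
        linarith
    · have hm : k ∈ HexTail_A13 := by
        unfold HexTail_A13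
        rw [Finset.mem_filter]
        exact ⟨hbox, h⟩
      have hn13 : n = 13 := by omega
      subst hn13
      refine le_trans ?_ (hlow (1 / 5) ?_)
      · rw [pow_succ]
        exact mul_le_mul_of_nonneg_left h1 hT12.le
      · unfold HexTail_g
        rw [if_pos hm]
        linarith
  · have h16 : 16 ≤ n := by omega
    obtain ⟨m, rfl⟩ : ∃ m, n = 12 + m := ⟨n - 12, by omega⟩
    have hTm : T ^ m ≤ (1 / 5) ^ m := pow_le_pow_left₀ h0.le h1 m
    rw [pow_add]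
    by_cases hB : k ∈ HexTail_B
    · refine mul_le_mul_of_nonneg_left ?_ hT12.le
      have h2 : ((1 : ℝ) / 5) ^ m ≤ (1 / 5) ^ 4 :=
        pow_le_pow_of_le_one (by norm_num) (by norm_num) (by omega)
      have h3 : ((1 : ℝ) / 5) ^ 4 = 1 / 625 := by norm_num
      unfold HexTail_g
      rw [if_pos hB]
      linarith
    · refine mul_le_mul_of_nonneg_left ?_ hT12.le
      have hs : k.1.natAbs + k.2.natAbs + 3 ≤ m := by
        have h10 : 10 ≤ k.1.natAbs + k.2.natAbs := by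
          by_contra hcon
          apply hB
          unfold HexTail_B
          rw [Finset.mem_product, Finset.mem_Icc, Finset.mem_Icc]
          omega
        have e : ((12 + m : ℕ) : ℤ) = k.1 ^ 2 + k.1 * k.2 + k.2 ^ 2 := hn.symm
        have e1 : (k.1.natAbs : ℤ) ^ 2 = k.1 ^ 2 := Int.natAbs_sq _
        have e2 : (k.2.natAbs : ℤ) ^ 2 = k.2 ^ 2 := Int.natAbs_sq _
        have h11 : (10 : ℤ) ≤ k.1.natAbs + k.2.natAbs := by exact_mod_cast h10
        have goal : ((k.1.natAbs : ℤ) + k.2.natAbs) + 3 ≤ m := by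
          push_cast at e
          set p : ℤ := (k.1.natAbs : ℤ)
          set q : ℤ := (k.2.natAbs : ℤ)
          have h12 : p ^ 2 + q ^ 2 ≤ 2 * (12 + m) := by
            rw [e1, e2, e]
            nlinarith [sq_nonneg (k.1 + k.2)]
          nlinarith [sq_nonneg (p - q)]
        exact_mod_cast goal
      have h2 : ((1 : ℝ) / 5) ^ m ≤ (1 / 5) ^ (k.1.natAbs + k.2.natAbs + 3) :=
        pow_le_pow_of_le_one (by norm_num) (by norm_num) hs
      have h3 : ((1 : ℝ) / 5) ^ (k.1.natAbs + k.2.natAbs + 3) =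
          1 / 125 * ((1 / 5) ^ k.1.natAbs * (1 / 5) ^ k.2.natAbs) := by
        rw [pow_add, pow_add]
        norm_num
        ring
      unfold HexTail_g
      linarith

/-- sums over the hexagonal shells: for `0 ≤ T ≤ 1/5` and `|ψ| ≤ 1`, everything from `N = 12` on
contributes at most `10 T^12`. (`12 T^9·...`: use the finite set of all `k` with `N(k) ≤ 9` and a
geometric tail bound.) -/
theorem hex_tail12 (T : ℝ) (h0 : 0 < T) (h1 : T ≤ 1 / 5) (ψ : ℤ × ℤ → ℝ) (hψ : ∀ k, |ψ k| ≤ 1) :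
    |∑' k, ψ k * T ^ (Nf k).toNat - ∑ k ∈ (Finset.Icc (-3) 3 ×ˢ Finset.Icc (-3) 3 :
      Finset (ℤ × ℤ)).filter (fun k => Nf k ≤ 9), ψ k * T ^ (Nf k).toNat| ≤ 10 * T ^ 12 := by
  set F : Finset (ℤ × ℤ) := (Finset.Icc (-3) 3 ×ˢ Finset.Icc (-3) 3 :
      Finset (ℤ × ℤ)).filter (fun k => Nf k ≤ 9) with hF
  set g : ℤ × ℤ → ℝ := fun k => ψ k * T ^ (Nf k).toNat with hg
  have hT12 : 0 < T ^ 12 := by positivity
  have hout : ∀ k, k ∉ F → 10 ≤ Nf k := by
    intro k hk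
    by_contra hcon
    apply hk
    rw [hF, Finset.mem_filter]
    exact ⟨HexTail_box (k := k) (n := 3) (by norm_num) (by omega), by omega⟩
  have hpt : ∀ k, k ∉ F → |g k| ≤ T ^ 12 * HexTail_g k := by
    intro k hk
    refine le_trans ?_ (HexTail_pt T h0 h1 k (hout k hk))
    rw [hg]
    simp only
    rw [abs_mul, abs_of_pos (show 0 < T ^ (Nf k).toNat by positivity)]
    calc |ψ k| * T ^ (Nf k).toNat ≤ 1 * T ^ (Nf k).toNat :=
          mul_le_mul_of_nonneg_right (hψ k) (by positivity)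
      _ = T ^ (Nf k).toNat := one_mul _
  have hG : Summable fun k => T ^ 12 * HexTail_g k := HexTail_hasSum.summable.mul_left _
  have hgF : Summable fun k : {k : ℤ × ℤ // k ∉ F} => g k :=
    Summable.of_norm_bounded (hG.subtype _) (fun k => hpt k k.2)
  have hgs : Summable g := by
    have := (Finset.summable_compl_iff F (f := g)).1 hgF
    exact this
  have hsplit := hgs.sum_add_tsum_subtype_compl F
  have hg' : Summable fun k : {k : ℤ × ℤ // k ∉ F} => ‖g k‖ := hgs.norm.subtype _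
  have h2 : |∑' k, g k - ∑ k ∈ F, g k| ≤ ∑' k : {k : ℤ × ℤ // k ∉ F}, ‖g k‖ := by
    rw [← hsplit, add_sub_cancel_left, ← Real.norm_eq_abs]
    exact norm_tsum_le_tsum_norm hg'
  have h3 : ∑' k : {k : ℤ × ℤ // k ∉ F}, ‖g k‖ ≤
      ∑' k : {k : ℤ × ℤ // k ∉ F}, T ^ 12 * HexTail_g k :=
    Summable.tsum_le_tsum (fun k => hpt k k.2) hg' (hG.subtype _)
  have h4 : ∑' k : {k : ℤ × ℤ // k ∉ F}, T ^ 12 * HexTail_g k ≤ ∑' k, T ^ 12 * HexTail_g k :=
    hG.tsum_subtype_le (fun k : ℤ × ℤ => T ^ 12 * HexTail_g k) {k | k ∉ F}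
      (fun k => mul_nonneg hT12.le (HexTail_g_nonneg k))
  have h5 : ∑' k, T ^ 12 * HexTail_g k = T ^ 12 * (6 * 1 + 12 * (1 / 5) + 361 * (1 / 625) +
      1 / 125 * ((1 + 1 / 5) / (1 - 1 / 5)) ^ 2) := by
    rw [tsum_mul_left, HexTail_hasSum.tsum_eq]
  have h6 : T ^ 12 * (6 * 1 + 12 * (1 / 5) + 361 * (1 / 625) +
      1 / 125 * ((1 + 1 / 5) / (1 - 1 / 5)) ^ 2) ≤ 10 * T ^ 12 := by
    nlinarith
  linarith

end MP7e122f.R
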