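import Pool.Agent.Lib.MP_7e122f_anR.TPDb
import Pool.Agent.Lib.MP_7e122f_anR.HexTail

/-!
Test values for the hexagonal lattice.  `H` has weights `cc y y y k = exp(-2 y N(k))`,
`y = πδ/(2√3)`, `δ = 1/det H`, `N = Nf`.  Product states (`TPD.mul`): a state of flux `δ₀`
(`δ₀ = 1, 2, 3/2`, values `ψ₀`), times a hexagonal Gaussian of flux `δ - δ₀`,
`P = (2|δ-δ₀|/√3) (1, 1/2, 1)`, whose values are `exp(-(π/√3)|δ-δ₀| N(k))`
(`tpd_gauss'`), times a character (`tpd_char`) for the value `cos(2π(k.1 - k.2)/3)`.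
So the test value is `∑ ψ₀(k) cos(..) T^N(k)` with `T = exp(-(π/√3)(δ + |δ-δ₀|))`.
The shells: `N=1` (6 vectors, `S1`), `3` (6, `S3`), `4` (6, `S4`), `7` (12), `9` (6), `12` (6), ...
`cos(2π(k.1-k.2)/3)` is `-1/2` on the shells `1, 4, 7` and `1` on the shells `3, 9, 12`
(it is `1` iff `3 ∣ k.1 - k.2` iff `3 ∣ N`).
-/
open MeasureTheory Complex
open scoped ComplexInnerProductSpace ENNReal ComplexOrder

namespace MP7e122f.R

section VALAaux

/-- twice the value of the character -/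
private def VALA_ch (k : ℤ × ℤ) : ℤ := if (3 : ℤ) ∣ k.1 - k.2 then 2 else -1

private noncomputable def VALA_F : Finset (ℤ × ℤ) :=
  (Finset.Icc (-3) 3 ×ˢ Finset.Icc (-3) 3 : Finset (ℤ × ℤ)).filter (fun k => Nf k ≤ 9)

private lemma VALA_Nf_nonneg (k : ℤ × ℤ) : 0 ≤ Nf k := by
  unfold Nf
  nlinarith [sq_nonneg (k.1 + k.2), sq_nonneg k.1, sq_nonneg k.2]

private lemma VALA_cos (n : ℤ) :
    Real.cos (2 * Real.pi / 3 * n) = (if (3 : ℤ) ∣ n then 1 else -(1 / 2) : ℝ) := by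
  have h1 : n = 3 * (n / 3) + n % 3 := (Int.mul_ediv_add_emod n 3).symm
  have h2 : n % 3 = 0 ∨ n % 3 = 1 ∨ n % 3 = 2 := by omega
  have h3 : ∀ r : ℤ, n % 3 = r → Real.cos (2 * Real.pi / 3 * n) = Real.cos (2 * Real.pi / 3 * r) := by
    intro r hr
    rw [hr] at h1
    have h4 : 2 * Real.pi / 3 * (n : ℝ) = 2 * Real.pi / 3 * r + ((n / 3 : ℤ) : ℝ) * (2 * Real.pi) := by
      have h5 : (n : ℝ) = 3 * ((n / 3 : ℤ) : ℝ) + r := by exact_mod_cast h1
      rw [h5]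
      ring
    rw [h4, Real.cos_add_int_mul_two_pi]
  rcases h2 with h | h | h
  · rw [h3 0 h, if_pos (by omega)]
    simp
  · rw [h3 1 h, if_neg (by omega)]
    have : 2 * Real.pi / 3 * ((1 : ℤ) : ℝ) = Real.pi - Real.pi / 3 := by
      push_cast
      ring
    rw [this, Real.cos_pi_sub, Real.cos_pi_div_three]
  · rw [h3 2 h, if_neg (by omega)]
    have : 2 * Real.pi / 3 * ((2 : ℤ) : ℝ) = Real.pi / 3 + Real.pi := by
      push_cast
      ring
    rw [this, Real.cos_add_pi, Real.cos_pi_div_three]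

private lemma VALA_ch_eq (k : ℤ × ℤ) :
    ((VALA_ch k : ℤ) : ℝ) / 2 = (cexp (2 * Real.pi * I * (((1 / 3 : ℝ) : ℂ) * k.1
      + ((-(1 / 3) : ℝ) : ℂ) * k.2))).re := by
  have h1 : (2 * Real.pi * I * (((1 / 3 : ℝ) : ℂ) * k.1 + ((-(1 / 3) : ℝ) : ℂ) * k.2))
      = ((2 * Real.pi / 3 * ((k.1 - k.2 : ℤ) : ℝ) : ℝ) : ℂ) * I := by
    push_cast
    ring
  rw [h1, Complex.exp_ofReal_mul_I_re, VALA_cos]
  unfold VALA_ch
  split_ifs <;> norm_num

private lemma VALA_exp_small (x : ℝ) (hx : Real.pi / Real.sqrt 3 ≤ x) : Real.exp (-x) ≤ 1 / 5 := by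
  have h3 : Real.sqrt 3 ≤ 1.74 := by
    rw [Real.sqrt_le_left (by norm_num)]
    norm_num
  have h3' : 0 < Real.sqrt 3 := Real.sqrt_pos.2 (by norm_num)
  have h4 : (1.8 : ℝ) ≤ Real.pi / Real.sqrt 3 := by
    rw [le_div_iff₀ h3']
    have := Real.pi_gt_d2
    nlinarith
  have h5 : (5 : ℝ) ≤ Real.exp x := by
    have h6 : Real.exp 1.8 ≤ Real.exp x := Real.exp_le_exp.2 (h4.trans hx)
    have h7 : Real.exp 1.8 = Real.exp 0.9 * Real.exp 0.9 := by
      rw [← Real.exp_add]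
      norm_num
    have h8 := Real.quadratic_le_exp_of_nonneg (show (0 : ℝ) ≤ 0.9 by norm_num)
    have h9 : (2.305 : ℝ) ≤ Real.exp 0.9 := by linarith
    nlinarith
  rw [Real.exp_neg, one_div]
  exact inv_anti₀ (by norm_num) h5

/-- the finite sum -/
private lemma VALA_fin (a : ℤ × ℤ → ℤ) (c : ℕ → ℤ)
    (hc : ∀ j ∈ Finset.range 10, ∑ k ∈ VALA_F.filter (fun k => (Nf k).toNat = j), a k = c j) (T : ℝ) :
    ∑ k ∈ VALA_F, ((a k : ℤ) : ℝ) * T ^ (Nf k).toNat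
      = ∑ j ∈ Finset.range 10, ((c j : ℤ) : ℝ) * T ^ j := by
  have hmaps : ∀ k ∈ VALA_F, (Nf k).toNat ∈ Finset.range 10 := by
    intro k hk
    have h1 := (Finset.mem_filter.1 hk).2
    rw [Finset.mem_range]
    omega
  rw [← Finset.sum_fiberwise_of_maps_to hmaps]
  refine Finset.sum_congr rfl fun j hj => ?_
  rw [← hc j hj]
  push_cast
  rw [Finset.sum_mul]
  refine Finset.sum_congr rfl fun k hk => ?_
  rw [(Finset.mem_filter.1 hk).2]

/-- evaluation of the test state -/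
private lemma VALA_core (H : Mat) (hH : 0 < H.det)
    (hwH : ∀ k, wt H k = cc (Real.pi / (2 * Real.sqrt 3 * H.det))
      (Real.pi / (2 * Real.sqrt 3 * H.det)) (Real.pi / (2 * Real.sqrt 3 * H.det)) k)
    (δ₀ η : ℝ) (hη : δ₀ + η = 1 / H.det) (s : ℤ × ℤ → ℤ) (hs : TPD δ₀ (fun k => ((s k : ℤ) : ℂ)))
    (hs0 : s (0, 0) = 1) (T : ℝ) (hT : T = Real.exp (-(Real.pi / Real.sqrt 3 * (1 / H.det + |η|)))) :
    (aval H ≤ ∑' k, ((s k : ℤ) : ℝ) * T ^ (Nf k).toNat ∧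
      ∑' k, ((s k : ℤ) : ℝ) * T ^ (Nf k).toNat ≤ bval H) ∧
    (aval H ≤ ∑' k, (((s k : ℤ) : ℝ) * (((VALA_ch k : ℤ) : ℝ) / 2)) * T ^ (Nf k).toNat ∧
      ∑' k, (((s k : ℤ) : ℝ) * (((VALA_ch k : ℤ) : ℝ) / 2)) * T ^ (Nf k).toNat ≤ bval H) := by
  have h3 : 0 < Real.sqrt 3 := Real.sqrt_pos.2 (by norm_num)
  have h3s : Real.sqrt 3 * Real.sqrt 3 = 3 := Real.mul_self_sqrt (by norm_num)
  set P : ℝ × ℝ × ℝ := (2 * |η| / Real.sqrt 3, |η| / Real.sqrt 3, 2 * |η| / Real.sqrt 3) with hP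
  have hP1 : (0 < P.1 ∧ η ≠ 0) ∨ (P = (0, 0, 0) ∧ η = 0) := by
    by_cases h0 : η = 0
    · right
      refine ⟨?_, h0⟩
      rw [hP, h0]
      simp
    · left
      refine ⟨?_, h0⟩
      have : 0 < |η| := abs_pos.2 h0
      change 0 < 2 * |η| / Real.sqrt 3
      positivity
  have hdet : P.1 * P.2.2 - P.2.1 ^ 2 = η ^ 2 := by
    change (2 * |η| / Real.sqrt 3) * (2 * |η| / Real.sqrt 3) - (|η| / Real.sqrt 3) ^ 2 = η ^ 2
    have e1 : (2 * |η| / Real.sqrt 3) * (2 * |η| / Real.sqrt 3) - (|η| / Real.sqrt 3) ^ 2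
        = 3 * |η| ^ 2 / (Real.sqrt 3 * Real.sqrt 3) := by
      field_simp
      ring
    rw [e1, h3s, sq_abs]
    ring
  have hg := tpd_gauss' η P hP1 hdet
  have hqf : ∀ k : ℤ × ℤ, -(Real.pi / 2) * qf P (cst k)
      = -(Real.pi / Real.sqrt 3 * |η|) * ((Nf k : ℤ) : ℝ) := by
    intro k
    unfold qf cst Nf
    rw [hP]
    push_cast
    field_simp
  have hval : ∀ k : ℤ × ℤ, wt H k * Real.exp (-(Real.pi / 2) * qf P (cst k))
      = T ^ (Nf k).toNat := by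
    intro k
    rw [hwH, cc_hex, hqf, ← Real.exp_add, hT, ← Real.exp_nat_mul]
    congr 1
    have e1 : (((Nf k).toNat : ℕ) : ℝ) = ((Nf k : ℤ) : ℝ) := by
      have := Int.toNat_of_nonneg (VALA_Nf_nonneg k)
      exact_mod_cast this
    rw [e1]
    have hHne : H.det ≠ 0 := hH.ne'
    field_simp
    ring
  have hDpos : 0 < 1 / H.det := by positivity
  have hD : H.det = 1 / (1 / H.det) := by rw [one_div_one_div]
  have hNf0 : Nf (0, 0) = 0 := by simp [Nf]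
  constructor
  · have h1 := hs.mul hg
    rw [hη] at h1
    have h2 := h1.adm_re hDpos (by
      have e : (-(Real.pi / 2) * qf P (cst (0, 0))) = 0 := by
        rw [hqf, hNf0]
        simp
      simp only [hs0, e]
      simp)
    have h4 := h2.2 H hH hD
    have h5 : ∀ k, wt H k * ((((s k : ℤ) : ℂ) * ((Real.exp (-(Real.pi / 2) * qf P (cst k)) : ℝ) : ℂ)).re)
        = ((s k : ℤ) : ℝ) * T ^ (Nf k).toNat := by
      intro k
      have e1 : (((s k : ℤ) : ℂ) * ((Real.exp (-(Real.pi / 2) * qf P (cst k)) : ℝ) : ℂ))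
          = ((((s k : ℤ) : ℝ) * Real.exp (-(Real.pi / 2) * qf P (cst k)) : ℝ) : ℂ) := by
        push_cast
        rfl
      rw [e1, Complex.ofReal_re, ← hval k]
      ring
    have h6 : (fun k => wt H k * ((((s k : ℤ) : ℂ) *
        ((Real.exp (-(Real.pi / 2) * qf P (cst k)) : ℝ) : ℂ)).re))
        = fun k => ((s k : ℤ) : ℝ) * T ^ (Nf k).toNat := funext h5
    rw [h6] at h4
    exact h4
  · have h1 := (hs.mul hg).mul (tpd_char (1 / 3, -(1 / 3)))
    rw [hη, add_zero] at h1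
    have h2 := h1.adm_re hDpos (by
      have e : (-(Real.pi / 2) * qf P (cst (0, 0))) = 0 := by
        rw [hqf, hNf0]
        simp
      simp only [hs0, e]
      simp)
    have h4 := h2.2 H hH hD
    have h5 : ∀ k : ℤ × ℤ, wt H k * ((((s k : ℤ) : ℂ) *
        ((Real.exp (-(Real.pi / 2) * qf P (cst k)) : ℝ) : ℂ)
          * cexp (2 * Real.pi * I * ((((1 / 3 : ℝ), (-(1 / 3) : ℝ)) : ℝ × ℝ).1 * k.1
            + (((1 / 3 : ℝ), (-(1 / 3) : ℝ)) : ℝ × ℝ).2 * k.2))).re)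
        = (((s k : ℤ) : ℝ) * (((VALA_ch k : ℤ) : ℝ) / 2)) * T ^ (Nf k).toNat := by
      intro k
      have e1 : (((s k : ℤ) : ℂ) * ((Real.exp (-(Real.pi / 2) * qf P (cst k)) : ℝ) : ℂ))
          = ((((s k : ℤ) : ℝ) * Real.exp (-(Real.pi / 2) * qf P (cst k)) : ℝ) : ℂ) := by
        push_cast
        rfl
      rw [e1, Complex.re_ofReal_mul, VALA_ch_eq, ← hval k]
      ring
    have h6 : (fun k : ℤ × ℤ => wt H k * ((((s k : ℤ) : ℂ) *
        ((Real.exp (-(Real.pi / 2) * qf P (cst k)) : ℝ) : ℂ)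
          * cexp (2 * Real.pi * I * ((((1 / 3 : ℝ), (-(1 / 3) : ℝ)) : ℝ × ℝ).1 * k.1
            + (((1 / 3 : ℝ), (-(1 / 3) : ℝ)) : ℝ × ℝ).2 * k.2))).re))
        = fun k => (((s k : ℤ) : ℝ) * (((VALA_ch k : ℤ) : ℝ) / 2)) * T ^ (Nf k).toNat := funext h5
    rw [h6] at h4
    exact h4

private lemma VALA_tail (T : ℝ) (h0 : 0 < T) (h1 : T ≤ 1 / 5) (a : ℤ × ℤ → ℤ) (ha : ∀ k, |a k| ≤ 2)
    (c : ℕ → ℤ)
    (hc : ∀ j ∈ Finset.range 10, ∑ k ∈ VALA_F.filter (fun k => (Nf k).toNat = j), a k = c j) :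
    |∑' k, (((a k : ℤ) : ℝ) / 2) * T ^ (Nf k).toNat
      - (∑ j ∈ Finset.range 10, ((c j : ℤ) : ℝ) * T ^ j) / 2| ≤ 10 * T ^ 12 := by
  have h2 := hex_tail12 T h0 h1 (fun k => ((a k : ℤ) : ℝ) / 2) (by
    intro k
    rw [abs_div, abs_of_pos (show (0 : ℝ) < 2 by norm_num), div_le_one (by norm_num)]
    exact_mod_cast ha k)
  rw [← VALA_fin a c hc T, Finset.sum_div]
  have h3 : ∑ k ∈ VALA_F, ((a k : ℤ) : ℝ) * T ^ (Nf k).toNat / 2
      = ∑ k ∈ (Finset.Icc (-3) 3 ×ˢ Finset.Icc (-3) 3 :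
      Finset (ℤ × ℤ)).filter (fun k => Nf k ≤ 9), (fun k => ((a k : ℤ) : ℝ) / 2) k * T ^ (Nf k).toNat := by
    refine Finset.sum_congr rfl fun k _ => ?_
    ring
  rw [h3]
  exact h2

private def VALA_cA (j : ℕ) : ℤ :=
  if j = 0 then 2 else if j = 1 then -12 else if j = 3 then -12 else if j = 4 then 12 else
    if j = 7 then -24 else if j = 9 then -12 else 0

private def VALA_cB (j : ℕ) : ℤ :=
  if j = 0 then 2 else if j = 1 then 6 else if j = 3 then -12 else if j = 4 then -6 else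
    if j = 7 then 12 else if j = 9 then -12 else 0

private def VALA_cC (j : ℕ) : ℤ :=
  if j = 0 then 2 else if j = 1 then -6 else if j = 3 then 12 else if j = 4 then -6 else
    if j = 7 then -12 else if j = 9 then 12 else 0

private def VALA_cD (j : ℕ) : ℤ :=
  if j = 0 then 2 else if j = 1 then 12 else if j = 3 then 12 else if j = 4 then 12 else
    if j = 7 then 24 else if j = 9 then 12 else 0

private lemma VALA_decA : ∀ j ∈ Finset.range 10,
    ∑ k ∈ VALA_F.filter (fun k => (Nf k).toNat = j), (2 * sig k) = VALA_cA j := by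
  unfold VALA_F VALA_cA sig Nf
  decide +kernel

private lemma VALA_decB : ∀ j ∈ Finset.range 10,
    ∑ k ∈ VALA_F.filter (fun k => (Nf k).toNat = j), (sig k * VALA_ch k) = VALA_cB j := by
  unfold VALA_F VALA_cB sig Nf VALA_ch
  decide +kernel

private lemma VALA_decC : ∀ j ∈ Finset.range 10,
    ∑ k ∈ VALA_F.filter (fun k => (Nf k).toNat = j), (VALA_ch k) = VALA_cC j := by
  unfold VALA_F VALA_cC Nf VALA_ch
  decide +kernel

private lemma VALA_decD : ∀ j ∈ Finset.range 10,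
    ∑ k ∈ VALA_F.filter (fun k => (Nf k).toNat = j), (2 : ℤ) = VALA_cD j := by
  unfold VALA_F VALA_cD Nf
  decide +kernel

private lemma VALA_abs_sig (k : ℤ × ℤ) : |sig k| = 1 := by
  unfold sig
  split_ifs <;> simp

private lemma VALA_abs_ch (k : ℤ × ℤ) : |VALA_ch k| ≤ 2 := by
  unfold VALA_ch
  split_ifs <;> simp

end VALAaux

/-- flux 1, `sig`, no character -/
theorem V1A (H : Mat) (hH : 0 < H.det) (hδ : H.det < 1)
    (hwH : ∀ k, wt H k = cc (Real.pi / (2 * Real.sqrt 3 * H.det))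
      (Real.pi / (2 * Real.sqrt 3 * H.det)) (Real.pi / (2 * Real.sqrt 3 * H.det)) k)
    (T : ℝ) (hT : T = Real.exp (-(Real.pi / Real.sqrt 3 * (2 / H.det - 1)))) :
    aval H ≤ 1 - 6 * T - 6 * T ^ 3 + 6 * T ^ 4 - 12 * T ^ 7 - 6 * T ^ 9 + 10 * T ^ 12 := by
  have h3 : 0 < Real.sqrt 3 := Real.sqrt_pos.2 (by norm_num)
  have hD : 1 < 1 / H.det := by rw [lt_div_iff₀ hH]; linarith
  have hT0 : 0 < T := by rw [hT]; exact Real.exp_pos _
  have e2 : 2 / H.det = 2 * (1 / H.det) := by ring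
  have hT1 : T ≤ 1 / 5 := by
    rw [hT]
    apply VALA_exp_small
    have : (1 : ℝ) ≤ 2 / H.det - 1 := by rw [e2]; linarith
    calc Real.pi / Real.sqrt 3 = Real.pi / Real.sqrt 3 * 1 := (mul_one _).symm
      _ ≤ Real.pi / Real.sqrt 3 * (2 / H.det - 1) :=
        mul_le_mul_of_nonneg_left this (by positivity)
  have hc := VALA_core H hH hwH 1 (1 / H.det - 1) (by ring) sig tpd_sig (by simp [sig]) T (by
    rw [hT, abs_of_pos (by linarith), e2]
    congr 2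
    ring)
  have ht := VALA_tail T hT0 hT1 (fun k => 2 * sig k) (by
    intro k
    rw [abs_mul, VALA_abs_sig]
    norm_num) VALA_cA VALA_decA
  have e1 : (∑' k, (((2 * sig k : ℤ) : ℝ) / 2) * T ^ (Nf k).toNat)
      = ∑' k, ((sig k : ℤ) : ℝ) * T ^ (Nf k).toNat := by
    refine tsum_congr fun k => ?_
    push_cast
    ring
  rw [e1] at ht
  have h4 := (abs_le.1 ht).2
  simp only [Finset.sum_range_succ, Finset.sum_range_zero, VALA_cA] at h4
  norm_num at h4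
  linarith [hc.1.1]

/-- flux 1, `sig`, with the character -/
theorem V1B (H : Mat) (hH : 0 < H.det) (hδ : H.det < 1)
    (hwH : ∀ k, wt H k = cc (Real.pi / (2 * Real.sqrt 3 * H.det))
      (Real.pi / (2 * Real.sqrt 3 * H.det)) (Real.pi / (2 * Real.sqrt 3 * H.det)) k)
    (T : ℝ) (hT : T = Real.exp (-(Real.pi / Real.sqrt 3 * (2 / H.det - 1)))) :
    1 + 3 * T - 6 * T ^ 3 - 3 * T ^ 4 ≤ bval H := by
  have h3 : 0 < Real.sqrt 3 := Real.sqrt_pos.2 (by norm_num)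
  have hD : 1 < 1 / H.det := by rw [lt_div_iff₀ hH]; linarith
  have hT0 : 0 < T := by rw [hT]; exact Real.exp_pos _
  have e2 : 2 / H.det = 2 * (1 / H.det) := by ring
  have hT1 : T ≤ 1 / 5 := by
    rw [hT]
    apply VALA_exp_small
    have : (1 : ℝ) ≤ 2 / H.det - 1 := by rw [e2]; linarith
    calc Real.pi / Real.sqrt 3 = Real.pi / Real.sqrt 3 * 1 := (mul_one _).symm
      _ ≤ Real.pi / Real.sqrt 3 * (2 / H.det - 1) :=
        mul_le_mul_of_nonneg_left this (by positivity)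
  have hc := VALA_core H hH hwH 1 (1 / H.det - 1) (by ring) sig tpd_sig (by simp [sig]) T (by
    rw [hT, abs_of_pos (by linarith), e2]
    congr 2
    ring)
  have ht := VALA_tail T hT0 hT1 (fun k => sig k * VALA_ch k) (by
    intro k
    rw [abs_mul, VALA_abs_sig, one_mul]
    exact VALA_abs_ch k) VALA_cB VALA_decB
  have e1 : (∑' k, (((sig k * VALA_ch k : ℤ) : ℝ) / 2) * T ^ (Nf k).toNat)
      = ∑' k, (((sig k : ℤ) : ℝ) * (((VALA_ch k : ℤ) : ℝ) / 2)) * T ^ (Nf k).toNat := by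
    refine tsum_congr fun k => ?_
    push_cast
    ring
  rw [e1] at ht
  have h4 := (abs_le.1 ht).1
  simp only [Finset.sum_range_succ, Finset.sum_range_zero, VALA_cB] at h4
  norm_num at h4
  have h5 := hc.2.2
  have h6 : T ^ 9 ≤ 1 / 25 * T ^ 7 := by
    have : T ^ 9 = T ^ 2 * T ^ 7 := by ring
    rw [this]
    apply mul_le_mul_of_nonneg_right _ (by positivity)
    nlinarith
  have h7 : T ^ 12 ≤ 1 / 25 * T ^ 7 := by
    have : T ^ 12 = T ^ 5 * T ^ 7 := by ring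
    rw [this]
    apply mul_le_mul_of_nonneg_right _ (by positivity)
    calc T ^ 5 ≤ (1 / 5) ^ 5 := pow_le_pow_left₀ hT0.le hT1 5
      _ ≤ 1 / 25 := by norm_num
  have h8 : 0 < T ^ 7 := by positivity
  linarith

/-- flux 2 with the character, `1/2 ≤ det H` -/
theorem V2A (H : Mat) (hH : 0 < H.det) (hδ : 1 / 2 ≤ H.det)
    (hwH : ∀ k, wt H k = cc (Real.pi / (2 * Real.sqrt 3 * H.det))
      (Real.pi / (2 * Real.sqrt 3 * H.det)) (Real.pi / (2 * Real.sqrt 3 * H.det)) k)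
    (T : ℝ) (hT : T = Real.exp (-(2 * Real.pi / Real.sqrt 3))) :
    aval H ≤ 1 - 3 * T + 6 * T ^ 3 := by
  have h3 : 0 < Real.sqrt 3 := Real.sqrt_pos.2 (by norm_num)
  have hD : 1 / H.det ≤ 2 := by rw [div_le_iff₀ hH]; linarith
  have hT0 : 0 < T := by rw [hT]; exact Real.exp_pos _
  have hT1 : T ≤ 1 / 5 := by
    rw [hT]
    apply VALA_exp_small
    have : 0 < Real.pi / Real.sqrt 3 := by positivity
    calc Real.pi / Real.sqrt 3 ≤ 2 * (Real.pi / Real.sqrt 3) := by linarith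
      _ = 2 * Real.pi / Real.sqrt 3 := by ring
  have htwo : TPD 2 (fun k : ℤ × ℤ => (((fun _ : ℤ × ℤ => (1 : ℤ)) k : ℤ) : ℂ)) := by
    simpa using tpd_two
  have hc := VALA_core H hH hwH 2 (1 / H.det - 2) (by ring) (fun _ => 1) htwo rfl T (by
    rw [hT, abs_of_nonpos (by linarith)]
    congr 2
    ring)
  have ht := VALA_tail T hT0 hT1 (fun k => VALA_ch k) VALA_abs_ch VALA_cC VALA_decC
  have e1 : (∑' k, (((VALA_ch k : ℤ) : ℝ) / 2) * T ^ (Nf k).toNat)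
      = ∑' k, ((((fun _ : ℤ × ℤ => (1 : ℤ)) k : ℤ) : ℝ) * (((VALA_ch k : ℤ) : ℝ) / 2))
          * T ^ (Nf k).toNat := by
    refine tsum_congr fun k => ?_
    simp
  rw [e1] at ht
  have h4 := (abs_le.1 ht).2
  simp only [Finset.sum_range_succ, Finset.sum_range_zero, VALA_cC] at h4
  norm_num at h4
  have h5 := hc.2.1
  norm_num at h5
  have h6 : T ^ 9 ≤ 1 / 25 * T ^ 7 := by
    have : T ^ 9 = T ^ 2 * T ^ 7 := by ring
    rw [this]
    apply mul_le_mul_of_nonneg_right _ (by positivity)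
    nlinarith
  have h7 : T ^ 12 ≤ 1 / 25 * T ^ 7 := by
    have : T ^ 12 = T ^ 5 * T ^ 7 := by ring
    rw [this]
    apply mul_le_mul_of_nonneg_right _ (by positivity)
    calc T ^ 5 ≤ (1 / 5) ^ 5 := pow_le_pow_left₀ hT0.le hT1 5
      _ ≤ 1 / 25 := by norm_num
  have h8 : 0 < T ^ 7 := by positivity
  have h9 : 0 < T ^ 4 := by positivity
  linarith

/-- flux 2, no character -/
theorem V2B (H : Mat) (hH : 0 < H.det) (hδ : 1 / 2 ≤ H.det)
    (hwH : ∀ k, wt H k = cc (Real.pi / (2 * Real.sqrt 3 * H.det))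
      (Real.pi / (2 * Real.sqrt 3 * H.det)) (Real.pi / (2 * Real.sqrt 3 * H.det)) k)
    (T : ℝ) (hT : T = Real.exp (-(2 * Real.pi / Real.sqrt 3))) :
    1 + 6 * T + 6 * T ^ 3 + 6 * T ^ 4 ≤ bval H := by
  have h3 : 0 < Real.sqrt 3 := Real.sqrt_pos.2 (by norm_num)
  have hD : 1 / H.det ≤ 2 := by rw [div_le_iff₀ hH]; linarith
  have hT0 : 0 < T := by rw [hT]; exact Real.exp_pos _
  have hT1 : T ≤ 1 / 5 := by
    rw [hT]
    apply VALA_exp_small
    have : 0 < Real.pi / Real.sqrt 3 := by positivity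
    calc Real.pi / Real.sqrt 3 ≤ 2 * (Real.pi / Real.sqrt 3) := by linarith
      _ = 2 * Real.pi / Real.sqrt 3 := by ring
  have htwo : TPD 2 (fun k : ℤ × ℤ => (((fun _ : ℤ × ℤ => (1 : ℤ)) k : ℤ) : ℂ)) := by
    simpa using tpd_two
  have hc := VALA_core H hH hwH 2 (1 / H.det - 2) (by ring) (fun _ => 1) htwo rfl T (by
    rw [hT, abs_of_nonpos (by linarith)]
    congr 2
    ring)
  have ht := VALA_tail T hT0 hT1 (fun _ => 2) (by intro _; norm_num) VALA_cD VALA_decD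
  have e1 : (∑' k, (((2 : ℤ) : ℝ) / 2) * T ^ (Nf k).toNat)
      = ∑' k, (((fun _ : ℤ × ℤ => (1 : ℤ)) k : ℤ) : ℝ) * T ^ (Nf k).toNat := by
    refine tsum_congr fun k => ?_
    norm_num
  rw [e1] at ht
  have h4 := (abs_le.1 ht).1
  simp only [Finset.sum_range_succ, Finset.sum_range_zero, VALA_cD] at h4
  norm_num at h4
  have h5 := hc.1.2
  norm_num at h5
  have h7 : T ^ 12 ≤ 1 / 25 * T ^ 7 := by
    have : T ^ 12 = T ^ 5 * T ^ 7 := by ring
    rw [this]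
    apply mul_le_mul_of_nonneg_right _ (by positivity)
    calc T ^ 5 ≤ (1 / 5) ^ 5 := pow_le_pow_left₀ hT0.le hT1 5
      _ ≤ 1 / 25 := by norm_num
  have h8 : 0 < T ^ 7 := by positivity
  have h9 : 0 < T ^ 9 := by positivity
  linarith

end MP7e122f.R
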