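import Pool.Agent.Lib.MP_7e122f_anR.TPDb
import Pool.Agent.Lib.MP_7e122f_anR.HexTail

/-!
Test values for the hexagonal lattice.  `H` has weights `cc y y y k = exp(-2 y N(k))`,
`y = πδ/(2√3)`, `δ = 1/det H`, `N = Nf`.  Product states (`TPD.mul`): a state of flux `δ₀`
(`δ₀ = 1, 2, 3/2`, values `ψ₀`), times a hexagonal Gaussian of flux `δ - δ₀`,
`P = (2|δ-δ₀|/√3) (1, 1/2, 1)`, whose values are `exp(-(π/√3)|δ-δ₀| N(k))`
(`tpd_gauss'`), times a character (`tpd_char`) for the value `cos(2π(k.1 - k.2)/3)`.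
So the test value is `∑ ψ₀(k) cos(..) T^N(k)` with `T = exp(-(π/√3)(δ + |δ-δ₀|))`.
The shells: `N=1` (6 vectors, `S1`), `3` (6, `S3`), `4` (6, `S4`), `7` (12), `9` (6), `12` (6), ...
`cos(2π(k.1-k.2)/3)` is `-1/2` on the shells `1, 4, 7` and `1` on the shells `3, 9, 12`
(it is `1` iff `3 ∣ k.1 - k.2` iff `3 ∣ N`).
-/
open MeasureTheory Complex
open scoped ComplexInnerProductSpace ENNReal ComplexOrder

namespace MP7e122f.R

section VALPaux

private lemma VALP_Nf_nonneg (k : ℤ × ℤ) : 0 ≤ Nf k := by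
  unfold Nf
  nlinarith [sq_nonneg (k.1 + k.2), sq_nonneg k.1, sq_nonneg k.2]

private lemma VALP_exp_small (x : ℝ) (hx : Real.pi / Real.sqrt 3 ≤ x) : Real.exp (-x) ≤ 1 / 5 := by
  have h3 : Real.sqrt 3 ≤ 1.74 := by
    rw [Real.sqrt_le_left (by norm_num)]
    norm_num
  have h3' : 0 < Real.sqrt 3 := Real.sqrt_pos.2 (by norm_num)
  have h4 : (1.8 : ℝ) ≤ Real.pi / Real.sqrt 3 := by
    rw [le_div_iff₀ h3']
    have := Real.pi_gt_d2
    nlinarith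
  have h5 : (5 : ℝ) ≤ Real.exp x := by
    have h6 : Real.exp 1.8 ≤ Real.exp x := Real.exp_le_exp.2 (h4.trans hx)
    have h7 : Real.exp 1.8 = Real.exp 0.9 * Real.exp 0.9 := by
      rw [← Real.exp_add]
      norm_num
    have h8 := Real.quadratic_le_exp_of_nonneg (show (0 : ℝ) ≤ 0.9 by norm_num)
    have h9 : (2.305 : ℝ) ≤ Real.exp 0.9 := by linarith
    nlinarith
  rw [Real.exp_neg, one_div]
  exact inv_anti₀ (by norm_num) h5

/-- evaluation of the test state -/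
private lemma VALP_core (H : Mat) (hH : 0 < H.det)
    (hwH : ∀ k, wt H k = cc (Real.pi / (2 * Real.sqrt 3 * H.det))
      (Real.pi / (2 * Real.sqrt 3 * H.det)) (Real.pi / (2 * Real.sqrt 3 * H.det)) k)
    (δ₀ η : ℝ) (hη : δ₀ + η = 1 / H.det) (ψ : ℤ × ℤ → ℝ) (hs : TPD δ₀ (fun k => (ψ k : ℂ)))
    (hs0 : ψ (0, 0) = 1) (T : ℝ) (hT : T = Real.exp (-(Real.pi / Real.sqrt 3 * (1 / H.det + |η|)))) :
    (aval H ≤ ∑' k, ψ k * T ^ (Nf k).toNat ∧
      ∑' k, ψ k * T ^ (Nf k).toNat ≤ bval H) := by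
  have h3 : 0 < Real.sqrt 3 := Real.sqrt_pos.2 (by norm_num)
  have h3s : Real.sqrt 3 * Real.sqrt 3 = 3 := Real.mul_self_sqrt (by norm_num)
  set P : ℝ × ℝ × ℝ := (2 * |η| / Real.sqrt 3, |η| / Real.sqrt 3, 2 * |η| / Real.sqrt 3) with hP
  have hP1 : (0 < P.1 ∧ η ≠ 0) ∨ (P = (0, 0, 0) ∧ η = 0) := by
    by_cases h0 : η = 0
    · right
      refine ⟨?_, h0⟩
      rw [hP, h0]
      simp
    · left
      refine ⟨?_, h0⟩
      have : 0 < |η| := abs_pos.2 h0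
      change 0 < 2 * |η| / Real.sqrt 3
      positivity
  have hdet : P.1 * P.2.2 - P.2.1 ^ 2 = η ^ 2 := by
    change (2 * |η| / Real.sqrt 3) * (2 * |η| / Real.sqrt 3) - (|η| / Real.sqrt 3) ^ 2 = η ^ 2
    have e1 : (2 * |η| / Real.sqrt 3) * (2 * |η| / Real.sqrt 3) - (|η| / Real.sqrt 3) ^ 2
        = 3 * |η| ^ 2 / (Real.sqrt 3 * Real.sqrt 3) := by
      field_simp
      ring
    rw [e1, h3s, sq_abs]
    ring
  have hg := tpd_gauss' η P hP1 hdet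
  have hqf : ∀ k : ℤ × ℤ, -(Real.pi / 2) * qf P (cst k)
      = -(Real.pi / Real.sqrt 3 * |η|) * ((Nf k : ℤ) : ℝ) := by
    intro k
    unfold qf cst Nf
    rw [hP]
    push_cast
    field_simp
  have hval : ∀ k : ℤ × ℤ, wt H k * Real.exp (-(Real.pi / 2) * qf P (cst k))
      = T ^ (Nf k).toNat := by
    intro k
    rw [hwH, cc_hex, hqf, ← Real.exp_add, hT, ← Real.exp_nat_mul]
    congr 1
    have e1 : (((Nf k).toNat : ℕ) : ℝ) = ((Nf k : ℤ) : ℝ) := by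
      have := Int.toNat_of_nonneg (VALP_Nf_nonneg k)
      exact_mod_cast this
    rw [e1]
    have hHne : H.det ≠ 0 := hH.ne'
    field_simp
    ring
  have hDpos : 0 < 1 / H.det := by positivity
  have hD : H.det = 1 / (1 / H.det) := by rw [one_div_one_div]
  have hNf0 : Nf (0, 0) = 0 := by simp [Nf]
  have h1 := hs.mul hg
  rw [hη] at h1
  have h2 := h1.adm_re hDpos (by
    have e : (-(Real.pi / 2) * qf P (cst (0, 0))) = 0 := by
      rw [hqf, hNf0]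
      simp
    simp only [hs0, e]
    simp)
  have h4 := h2.2 H hH hD
  have h5 : ∀ k, wt H k * (((ψ k : ℂ) * ((Real.exp (-(Real.pi / 2) * qf P (cst k)) : ℝ) : ℂ)).re)
      = ψ k * T ^ (Nf k).toNat := by
    intro k
    have e1 : ((ψ k : ℂ) * ((Real.exp (-(Real.pi / 2) * qf P (cst k)) : ℝ) : ℂ))
        = ((ψ k * Real.exp (-(Real.pi / 2) * qf P (cst k)) : ℝ) : ℂ) := by
      push_cast
      rfl
    rw [e1, Complex.ofReal_re, ← hval k]
    ring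
  have h6 : (fun k => wt H k * (((ψ k : ℂ) *
      ((Real.exp (-(Real.pi / 2) * qf P (cst k)) : ℝ) : ℂ)).re))
      = fun k => ψ k * T ^ (Nf k).toNat := funext h5
  rw [h6] at h4
  exact h4

private lemma VALP_card : (((Finset.Icc (-3) 3 ×ˢ Finset.Icc (-3) 3 :
    Finset (ℤ × ℤ)).filter (fun k => Nf k ≤ 9)) \ F19).card = 18 := by
  unfold F19 S1 S3 S4 Nf
  decide +kernel

private lemma VALP_sub : F19 ⊆ (Finset.Icc (-3) 3 ×ˢ Finset.Icc (-3) 3 :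
    Finset (ℤ × ℤ)).filter (fun k => Nf k ≤ 9) := by
  unfold F19 S1 S3 S4 Nf
  decide +kernel

private lemma VALP_N1 : ∀ k ∈ S1, (Nf k).toNat = 1 := by
  unfold S1 Nf
  decide +kernel

private lemma VALP_N3 : ∀ k ∈ S3, (Nf k).toNat = 3 := by
  unfold S3 Nf
  decide +kernel

private lemma VALP_N4 : ∀ k ∈ S4, (Nf k).toNat = 4 := by
  unfold S4 Nf
  decide +kernel

private lemma VALP_c1 : S1.card = 6 := by
  unfold S1
  decide +kernel

private lemma VALP_c3 : S3.card = 6 := by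
  unfold S3
  decide +kernel

private lemma VALP_c4 : S4.card = 6 := by
  unfold S4
  decide +kernel

private lemma VALP_d4 : Disjoint ({(0, 0)} ∪ S1 ∪ S3) S4 := by
  unfold S1 S3 S4
  decide +kernel

private lemma VALP_d3 : Disjoint ({(0, 0)} ∪ S1) S3 := by
  unfold S1 S3
  decide +kernel

private lemma VALP_d1 : Disjoint ({(0, 0)} : Finset (ℤ × ℤ)) S1 := by
  unfold S1
  decide +kernel

private lemma VALP_const (s : Finset (ℤ × ℤ)) (hs : s.card = 6) (ψ : ℤ × ℤ → ℝ) (a T : ℝ) (n : ℕ)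
    (hψ : ∀ k ∈ s, ψ k = a) (hn : ∀ k ∈ s, (Nf k).toNat = n) :
    ∑ k ∈ s, ψ k * T ^ (Nf k).toNat = 6 * a * T ^ n := by
  have h : ∀ k ∈ s, ψ k * T ^ (Nf k).toNat = a * T ^ n := by
    intro k hk
    rw [hψ k hk, hn k hk]
  rw [Finset.sum_congr rfl h, Finset.sum_const, hs, nsmul_eq_mul]
  push_cast
  ring

private lemma VALP_eval (q : ℝ) (ψ : ℤ × ℤ → ℝ) (h0 : ψ (0, 0) = 1) (hb : ∀ k, |ψ k| ≤ 1)
    (h1 : ∀ k ∈ S1, ψ k = q / Real.sqrt 3) (h3 : ∀ k ∈ S3, ψ k = -(q / Real.sqrt 3))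
    (h4 : ∀ k ∈ S4, ψ k = 1) (T : ℝ) (hT0 : 0 < T) (hT1 : T ≤ 1 / 5) :
    |∑' k, ψ k * T ^ (Nf k).toNat - (1 + 6 * (q / Real.sqrt 3) * T - 6 * (q / Real.sqrt 3) * T ^ 3
      + 6 * T ^ 4)| ≤ 20 * T ^ 7 := by
  have ht := hex_tail12 T hT0 hT1 ψ hb
  rw [← Finset.sum_sdiff VALP_sub] at ht
  have e1 : ∑ k ∈ F19, ψ k * T ^ (Nf k).toNat = 1 + 6 * (q / Real.sqrt 3) * T
      - 6 * (q / Real.sqrt 3) * T ^ 3 + 6 * T ^ 4 := by
    unfold F19
    rw [Finset.sum_union VALP_d4, Finset.sum_union VALP_d3, Finset.sum_union VALP_d1,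
      Finset.sum_singleton, VALP_const S1 VALP_c1 ψ _ T 1 h1 VALP_N1,
      VALP_const S3 VALP_c3 ψ _ T 3 h3 VALP_N3, VALP_const S4 VALP_c4 ψ _ T 4 h4 VALP_N4, h0]
    have : (Nf (0, 0)).toNat = 0 := by simp [Nf]
    rw [this]
    ring
  rw [e1] at ht
  have e2 : |∑ k ∈ ((Finset.Icc (-3) 3 ×ˢ Finset.Icc (-3) 3 :
      Finset (ℤ × ℤ)).filter (fun k => Nf k ≤ 9)) \ F19, ψ k * T ^ (Nf k).toNat| ≤ 18 * T ^ 7 := by
    refine (Finset.abs_sum_le_sum_abs _ _).trans ?_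
    have h5 : ∀ k ∈ ((Finset.Icc (-3) 3 ×ˢ Finset.Icc (-3) 3 :
        Finset (ℤ × ℤ)).filter (fun k => Nf k ≤ 9)) \ F19, |ψ k * T ^ (Nf k).toNat| ≤ T ^ 7 := by
      intro k hk
      have hk2 := (Finset.mem_sdiff.1 hk).2
      have hk3 := Nf_ge_seven hk2
      rw [abs_mul, abs_of_pos (show 0 < T ^ (Nf k).toNat by positivity)]
      have h6 : T ^ (Nf k).toNat ≤ T ^ 7 := by
        apply pow_le_pow_of_le_one hT0.le (by linarith)
        omega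
      calc |ψ k| * T ^ (Nf k).toNat ≤ 1 * T ^ (Nf k).toNat :=
            mul_le_mul_of_nonneg_right (hb k) (by positivity)
        _ ≤ T ^ 7 := by rw [one_mul]; exact h6
    refine (Finset.sum_le_card_nsmul _ _ _ h5).trans ?_
    rw [VALP_card, nsmul_eq_mul]
    norm_num
  have h7 : 10 * T ^ 12 ≤ 2 * T ^ 7 := by
    have e : T ^ 12 = T ^ 5 * T ^ 7 := by ring
    rw [e]
    have h8 : T ^ 5 ≤ 1 / 5 := by
      calc T ^ 5 ≤ (1 / 5) ^ 5 := pow_le_pow_left₀ hT0.le hT1 5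
        _ ≤ 1 / 5 := by norm_num
    have h9 : 0 < T ^ 7 := by positivity
    nlinarith
  rw [abs_le] at ht e2 ⊢
  constructor <;> linarith [ht.1, ht.2, e2.1, e2.2]

private lemma VALP_T (H : Mat) (hH : 0 < H.det)
    (T : ℝ) (hT : T = Real.exp (-(Real.pi / Real.sqrt 3 * (1 / H.det + |1 / H.det - 3 / 2|)))) :
    T ≤ 1 / 5 := by
  have h3 : 0 < Real.sqrt 3 := Real.sqrt_pos.2 (by norm_num)
  rw [hT]
  apply VALP_exp_small
  have h1 : (1 : ℝ) ≤ 1 / H.det + |1 / H.det - 3 / 2| := by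
    have := neg_abs_le (1 / H.det - 3 / 2)
    have h2 : 0 < 1 / H.det := by positivity
    rcases le_total (1 / H.det) (3 / 2) with h | h
    · rw [abs_of_nonpos (by linarith)]
      linarith
    · rw [abs_of_nonneg (by linarith)]
      linarith
  calc Real.pi / Real.sqrt 3 = Real.pi / Real.sqrt 3 * 1 := (mul_one _).symm
    _ ≤ _ := mul_le_mul_of_nonneg_left h1 (by positivity)

end VALPaux

/-- flux 3/2, Pauli state with `q = -1` -/
theorem V3A (H : Mat) (hH : 0 < H.det)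
    (hwH : ∀ k, wt H k = cc (Real.pi / (2 * Real.sqrt 3 * H.det))
      (Real.pi / (2 * Real.sqrt 3 * H.det)) (Real.pi / (2 * Real.sqrt 3 * H.det)) k)
    (T : ℝ) (hT : T = Real.exp (-(Real.pi / Real.sqrt 3 * (1 / H.det + |1 / H.det - 3 / 2|)))) :
    aval H ≤ 1 - 6 / Real.sqrt 3 * T + 6 / Real.sqrt 3 * T ^ 3 + 6 * T ^ 4 + 20 * T ^ 7 := by
  obtain ⟨ψ, hψ, h0, _, hb, h1, h3, h4⟩ := exists_pauli_state (-1) (Or.inr rfl)
  have hT0 : 0 < T := by rw [hT]; exact Real.exp_pos _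
  have hc := VALP_core H hH hwH (3 / 2) (1 / H.det - 3 / 2) (by ring) ψ hψ h0 T hT
  have he := (abs_le.1 (VALP_eval (-1) ψ h0 hb h1 h3 h4 T hT0 (VALP_T H hH T hT))).2
  have e1 : 6 * (-1 / Real.sqrt 3) * T = -(6 / Real.sqrt 3 * T) := by ring
  have e2 : 6 * (-1 / Real.sqrt 3) * T ^ 3 = -(6 / Real.sqrt 3 * T ^ 3) := by ring
  rw [e1, e2] at he
  linarith [hc.1]

/-- flux 3/2, Pauli state with `q = 1` -/
theorem V3B (H : Mat) (hH : 0 < H.det)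
    (hwH : ∀ k, wt H k = cc (Real.pi / (2 * Real.sqrt 3 * H.det))
      (Real.pi / (2 * Real.sqrt 3 * H.det)) (Real.pi / (2 * Real.sqrt 3 * H.det)) k)
    (T : ℝ) (hT : T = Real.exp (-(Real.pi / Real.sqrt 3 * (1 / H.det + |1 / H.det - 3 / 2|)))) :
    1 + 6 / Real.sqrt 3 * T - 6 / Real.sqrt 3 * T ^ 3 + 6 * T ^ 4 - 20 * T ^ 7 ≤ bval H := by
  obtain ⟨ψ, hψ, h0, _, hb, h1, h3, h4⟩ := exists_pauli_state 1 (Or.inl rfl)
  have hT0 : 0 < T := by rw [hT]; exact Real.exp_pos _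
  have hc := VALP_core H hH hwH (3 / 2) (1 / H.det - 3 / 2) (by ring) ψ hψ h0 T hT
  have he := (abs_le.1 (VALP_eval 1 ψ h0 hb h1 h3 h4 T hT0 (VALP_T H hH T hT))).1
  have e1 : 6 * (1 / Real.sqrt 3) * T = 6 / Real.sqrt 3 * T := by ring
  have e2 : 6 * (1 / Real.sqrt 3) * T ^ 3 = 6 / Real.sqrt 3 * T ^ 3 := by ring
  rw [e1, e2] at he
  linarith [hc.2]

end MP7e122f.R
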