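import Pool.Agent.Lib.MP_7e122f_anR.NumVD
import Pool.Agent.Lib.MP_7e122f_anR.NumBaseA
import Pool.Agent.Lib.MP_7e122f_anR.ValA
import Pool.Agent.Lib.MP_7e122f_anR.ValP
import Pool.Agent.Lib.MP_7e122f_anR.Family

/-!
# Numerical bounds for the test values of the hexagonal lattice
-/

open MeasureTheory Complex
open scoped ComplexInnerProductSpace ENNReal ComplexOrder

namespace MP7e122f.Num

open MP7e122f.R

section NumVaux

private theorem NumV_TofD {a : Nat} (ha : a ≤ 4398046511104) {s : ℝ} (hs : s ≤ rv a) :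
    rv (TofD a) ≤ Real.exp (-(Real.pi / Real.sqrt 3 * s)) := by
  have h1 : (PI.mul pr3I ⟨a, a⟩).Mem (Real.pi / Real.sqrt 3 * rv a) :=
    PI.Mem.mul pr3I_mem ⟨le_rfl, le_rfl⟩
  have h2 : (PI.mul pr3I ⟨a, a⟩).hi ≤ 35184372088000 := by
    show Nat.succ (Nat.shiftRight (Nat.mul 1994293491429 a) 40) ≤ 35184372088000
    have e1 : Nat.shiftRight (Nat.mul 1994293491429 a) 40 = 1994293491429 * a / 2 ^ 40 :=
      Nat.shiftRight_eq_div_pow _ _
    rw [e1]
    omega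
  have h3 := (expN_mem h1 h2).1
  refine le_trans h3 ?_
  have h4 : 0 ≤ Real.pi / Real.sqrt 3 := by positivity
  have h5 := mul_le_mul_of_nonneg_left hs h4
  exact Real.exp_le_exp.2 (by linarith)

private theorem NumV_sub2 (a b : Nat) (h : b ≤ 2 * a) :
    rv (Nat.sub (Nat.mul 2 a) b) = 2 * rv a - rv b := by
  have h' : b ≤ Nat.mul 2 a := h
  rw [rv_sub_eq h', rv_nmul]
  norm_num

private theorem NumV_lit : rv 1649267441664 = 3 / 2 := by
  unfold rv
  norm_num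

private theorem NumV_lit2 : rv 2199023255552 = 2 := by
  unfold rv
  norm_num

private theorem NumV_chk {dl dh : Nat} (h : wChk dl dh = true) :
    1099511627776 ≤ dl ∧ dl ≤ dh ∧ dh ≤ 2199023255552 := by
  unfold wChk at h
  simp only [Bool.and_eq_true, Nat.ble_eq] at h
  exact h

private def NumV_F (TD : Nat → Nat) (idx dh : Nat) : Nat :=
  match idx with
  | 1 => TD (Nat.sub (Nat.mul 2 dh) 1099511627776)
  | 2 => TD 2199023255552
  | _ => TD (cond (Nat.ble dh 1649267441664) 1649267441664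
      (Nat.sub (Nat.mul 2 dh) 1649267441664))

private theorem NumV_vT_eq : vT = NumV_F TofD := rfl

private theorem NumV_F1 (TD : Nat → Nat) (dh : Nat) :
    NumV_F TD 1 dh = TD (Nat.sub (Nat.mul 2 dh) 1099511627776) := rfl
private theorem NumV_F2 (TD : Nat → Nat) (dh : Nat) : NumV_F TD 2 dh = TD 2199023255552 := rfl
private theorem NumV_F0 (TD : Nat → Nat) (dh : Nat) :
    NumV_F TD 0 dh = TD (cond (Nat.ble dh 1649267441664) 1649267441664
      (Nat.sub (Nat.mul 2 dh) 1649267441664)) := rfl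
private theorem NumV_F3 (TD : Nat → Nat) (dh n : Nat) :
    NumV_F TD (n + 3) dh = TD (cond (Nat.ble dh 1649267441664) 1649267441664
      (Nat.sub (Nat.mul 2 dh) 1649267441664)) := rfl

private def NumV_G (sub add mul mU mD dD dU : Nat → Nat → Nat) (v : Nat → Nat → Nat) (mx : Bool)
    (idx dh : Nat) : Nat :=
  let T := v idx dh
  let T2 := mU T T
  let T3 := mU T2 T
  let T4 := mU T2 T2
  match idx with
  | 1 => cond mx (sub (mul 3 T) (add (mul 6 T3) (mul 3 T4)))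
      (sub (add (mul 6 T) (mul 6 (mD T (mD T T)))) (mul 6 T4))
  | 2 => cond mx (add (mul 6 T) (mul 6 (mD T (mD T T))))
      (sub (mul 3 T) (mul 6 T3))
  | _ => sub (add (dD (mul 6 T) 1904410002821)
        (cond mx (mul 6 (mD (mD T T) (mD T T))) 0))
      (add (dU (mul 6 T3) 1904410002820)
        (add (mul 20 (mU T3 T4)) (cond mx 0 (mul 6 T4))))

private theorem NumV_wOf_eq :
    wOf = NumV_G Nat.sub Nat.add Nat.mul mulU mulD divD divU vT := rfl

section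
variable (sub add mul mU mD dD dU : Nat → Nat → Nat) (v : Nat → Nat → Nat) (dh n : Nat)

private theorem NumV_G1t : NumV_G sub add mul mU mD dD dU v true 1 dh =
    sub (mul 3 (v 1 dh)) (add (mul 6 (mU (mU (v 1 dh) (v 1 dh)) (v 1 dh)))
      (mul 3 (mU (mU (v 1 dh) (v 1 dh)) (mU (v 1 dh) (v 1 dh))))) := rfl
private theorem NumV_G1f : NumV_G sub add mul mU mD dD dU v false 1 dh =
    sub (add (mul 6 (v 1 dh)) (mul 6 (mD (v 1 dh) (mD (v 1 dh) (v 1 dh)))))
      (mul 6 (mU (mU (v 1 dh) (v 1 dh)) (mU (v 1 dh) (v 1 dh)))) := rfl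
private theorem NumV_G2t : NumV_G sub add mul mU mD dD dU v true 2 dh =
    add (mul 6 (v 2 dh)) (mul 6 (mD (v 2 dh) (mD (v 2 dh) (v 2 dh)))) := rfl
private theorem NumV_G2f : NumV_G sub add mul mU mD dD dU v false 2 dh =
    sub (mul 3 (v 2 dh)) (mul 6 (mU (mU (v 2 dh) (v 2 dh)) (v 2 dh))) := rfl
private theorem NumV_G0t (j : Nat) (hj : j = 0 ∨ ∃ n, j = n + 3) :
    NumV_G sub add mul mU mD dD dU v true j dh =
    sub (add (dD (mul 6 (v j dh)) 1904410002821)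
        (mul 6 (mD (mD (v j dh) (v j dh)) (mD (v j dh) (v j dh)))))
      (add (dU (mul 6 (mU (mU (v j dh) (v j dh)) (v j dh))) 1904410002820)
        (add (mul 20 (mU (mU (mU (v j dh) (v j dh)) (v j dh))
          (mU (mU (v j dh) (v j dh)) (mU (v j dh) (v j dh))))) 0)) := by
  rcases hj with rfl | ⟨n, rfl⟩ <;> rfl
private theorem NumV_G0f (j : Nat) (hj : j = 0 ∨ ∃ n, j = n + 3) :
    NumV_G sub add mul mU mD dD dU v false j dh =
    sub (add (dD (mul 6 (v j dh)) 1904410002821) 0)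
      (add (dU (mul 6 (mU (mU (v j dh) (v j dh)) (v j dh))) 1904410002820)
        (add (mul 20 (mU (mU (mU (v j dh) (v j dh)) (v j dh))
          (mU (mU (v j dh) (v j dh)) (mU (v j dh) (v j dh)))))
          (mul 6 (mU (mU (v j dh) (v j dh)) (mU (v j dh) (v j dh)))))) := by
  rcases hj with rfl | ⟨n, rfl⟩ <;> rfl
end

private theorem NumV_v0 {dl dh : Nat} (h : wChk dl dh = true) {δ : ℝ} (h1 : rv dl ≤ δ)
    (h2 : δ ≤ rv dh) (j : Nat) (hj : j = 0 ∨ ∃ n, j = n + 3) :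
    rv (vT j dh) ≤ Real.exp (-(Real.pi / Real.sqrt 3 * (δ + |δ - 3 / 2|))) := by
  obtain ⟨c1, c2, c3⟩ := NumV_chk h
  have e : vT j dh = TofD (cond (Nat.ble dh 1649267441664) 1649267441664
      (Nat.sub (Nat.mul 2 dh) 1649267441664)) := by
    rw [NumV_vT_eq]
    rcases hj with rfl | ⟨n, rfl⟩
    · exact NumV_F0 _ _
    · exact NumV_F3 _ _ _
  rw [e]
  cases hb : Nat.ble dh 1649267441664
  · rw [cond_false]
    have hlt : 1649267441664 < dh := by
      by_contra hcon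
      have : dh ≤ 1649267441664 := not_lt.1 hcon
      rw [Nat.ble_eq_true_of_le this] at hb
      exact Bool.noConfusion hb
    apply NumV_TofD
    · show 2 * dh - 1649267441664 ≤ 4398046511104
      omega
    · rw [NumV_sub2 _ _ (by omega), NumV_lit]
      have h4 : (3 / 2 : ℝ) ≤ rv dh := by
        rw [← NumV_lit]
        exact rv_mono hlt.le
      rcases abs_cases (δ - 3 / 2) with ⟨e, _⟩ | ⟨e, _⟩ <;> rw [e] <;> linarith
  · rw [cond_true]
    have hle : dh ≤ 1649267441664 := Nat.le_of_ble_eq_true hb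
    apply NumV_TofD
    · norm_num
    · rw [NumV_lit]
      have h4 : rv dh ≤ 3 / 2 := by
        rw [← NumV_lit]
        exact rv_mono hle
      rw [abs_of_nonpos (by linarith)]
      linarith

private theorem NumV_v1 {dl dh : Nat} (h : wChk dl dh = true) {δ : ℝ} (h1 : rv dl ≤ δ)
    (h2 : δ ≤ rv dh) : rv (vT 1 dh) ≤ Real.exp (-(Real.pi / Real.sqrt 3 * (2 * δ - 1))) := by
  obtain ⟨c1, c2, c3⟩ := NumV_chk h
  rw [NumV_vT_eq, NumV_F1]
  apply NumV_TofD
  · show 2 * dh - 1099511627776 ≤ 4398046511104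
    omega
  · rw [NumV_sub2 _ _ (by omega), rv_lit]
    linarith

private theorem NumV_v2 (dh : Nat) :
    rv (vT 2 dh) ≤ Real.exp (-(2 * Real.pi / Real.sqrt 3)) := by
  have e0 : 2 * Real.pi / Real.sqrt 3 = Real.pi / Real.sqrt 3 * 2 := by ring
  rw [NumV_vT_eq, NumV_F2, e0]
  apply NumV_TofD
  · norm_num
  · rw [NumV_lit2]

private theorem NumV_exp_small (x : ℝ) (hx : Real.pi / Real.sqrt 3 ≤ x) :
    Real.exp (-x) ≤ 1 / 5 := by
  have h3 : Real.sqrt 3 ≤ 1.74 := by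
    rw [Real.sqrt_le_left (by norm_num)]
    norm_num
  have h3' : 0 < Real.sqrt 3 := Real.sqrt_pos.2 (by norm_num)
  have h4 : (1.8 : ℝ) ≤ Real.pi / Real.sqrt 3 := by
    rw [le_div_iff₀ h3']
    have := Real.pi_gt_d2
    nlinarith
  have h5 : (5 : ℝ) ≤ Real.exp x := by
    have h6 : Real.exp 1.8 ≤ Real.exp x := Real.exp_le_exp.2 (h4.trans hx)
    have h7 : Real.exp 1.8 = Real.exp 0.9 * Real.exp 0.9 := by
      rw [← Real.exp_add]
      norm_num
    have h8 := Real.quadratic_le_exp_of_nonneg (show (0 : ℝ) ≤ 0.9 by norm_num)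
    have h9 : (2.305 : ℝ) ≤ Real.exp 0.9 := by linarith
    nlinarith
  rw [Real.exp_neg, one_div]
  exact inv_anti₀ (by norm_num) h5

private theorem NumV_T_le (s : ℝ) (hs : 1 ≤ s) :
    Real.exp (-(Real.pi / Real.sqrt 3 * s)) ≤ 1 / 5 := by
  apply NumV_exp_small
  have h4 : 0 ≤ Real.pi / Real.sqrt 3 := by positivity
  nlinarith

private theorem NumV_pow (n : ℕ) {t T : ℝ} (ht : 0 ≤ t) (h : t ≤ T) (hT : T ≤ 1 / 5) :
    T ^ (n + 1) - t ^ (n + 1) ≤ (n + 1) * (1 / 5) ^ n * (T - t) ∧ t ^ (n + 1) ≤ T ^ (n + 1) := by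
  refine ⟨?_, pow_le_pow_left₀ ht h _⟩
  induction n with
  | zero => simp
  | succ n ih =>
    have hT0 : 0 ≤ T := ht.trans h
    have e1 : T ^ (n + 1 + 1) - t ^ (n + 1 + 1) =
        T * (T ^ (n + 1) - t ^ (n + 1)) + t ^ (n + 1) * (T - t) := by ring
    have h0 : 0 ≤ T ^ (n + 1) - t ^ (n + 1) := sub_nonneg.2 (pow_le_pow_left₀ ht h _)
    have h1 : T * (T ^ (n + 1) - t ^ (n + 1)) ≤ 1 / 5 * ((n + 1) * (1 / 5) ^ n * (T - t)) :=
      mul_le_mul hT ih h0 (by norm_num)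
    have h2 : t ^ (n + 1) * (T - t) ≤ (1 / 5) ^ (n + 1) * (T - t) :=
      mul_le_mul_of_nonneg_right (pow_le_pow_left₀ ht (h.trans hT) _) (by linarith)
    rw [e1]
    push_cast
    calc _ ≤ 1 / 5 * ((n + 1) * (1 / 5) ^ n * (T - t)) + (1 / 5) ^ (n + 1) * (T - t) :=
          add_le_add h1 h2
      _ = _ := by ring

/-- the real bounds for the powers computed -/
private theorem NumV_pows (n : Nat) :
    rv n ^ 2 ≤ rv (mulU n n) ∧ rv n ^ 3 ≤ rv (mulU (mulU n n) n) ∧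
    rv n ^ 4 ≤ rv (mulU (mulU n n) (mulU n n)) ∧
    rv n ^ 7 ≤ rv (mulU (mulU (mulU n n) n) (mulU (mulU n n) (mulU n n))) ∧
    rv (mulD n (mulD n n)) ≤ rv n ^ 3 ∧ rv (mulD (mulD n n) (mulD n n)) ≤ rv n ^ 4 := by
  have h0 := rv_nonneg n
  have h2 : rv n ^ 2 ≤ rv (mulU n n) := by
    have := le_mulU n n
    nlinarith
  have h3 : rv n ^ 3 ≤ rv (mulU (mulU n n) n) := by
    have := le_mulU (mulU n n) n
    have h := mul_le_mul_of_nonneg_right h2 h0
    nlinarith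
  have h4 : rv n ^ 4 ≤ rv (mulU (mulU n n) (mulU n n)) := by
    have := le_mulU (mulU n n) (mulU n n)
    have h := mul_le_mul h2 h2 (by positivity) (rv_nonneg _)
    nlinarith
  have h7 : rv n ^ 7 ≤ rv (mulU (mulU (mulU n n) n) (mulU (mulU n n) (mulU n n))) := by
    have := le_mulU (mulU (mulU n n) n) (mulU (mulU n n) (mulU n n))
    have h := mul_le_mul h3 h4 (by positivity) (rv_nonneg _)
    calc rv n ^ 7 = rv n ^ 3 * rv n ^ 4 := by ring
      _ ≤ _ := h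
      _ ≤ _ := this
  have hd2 : rv (mulD n n) ≤ rv n ^ 2 := by
    have := mulD_le n n
    nlinarith
  refine ⟨h2, h3, h4, h7, ?_, ?_⟩
  · have := mulD_le n (mulD n n)
    have h := mul_le_mul_of_nonneg_left hd2 h0
    nlinarith
  · have := mulD_le (mulD n n) (mulD n n)
    have h := mul_le_mul hd2 hd2 (rv_nonneg _) (by positivity)
    nlinarith

private theorem NumV_div {n m : Nat} :
    rv (divD n 1904410002821) ≤ rv n / Real.sqrt 3 ∧
      rv m / Real.sqrt 3 ≤ rv (divU m 1904410002820) := by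
  have h3 : 0 < Real.sqrt 3 := Real.sqrt_pos.2 (by norm_num)
  have hm : rv 1904410002820 ≤ Real.sqrt 3 ∧ Real.sqrt 3 ≤ rv 1904410002821 := r3I_mem
  have hp : 0 < rv 1904410002820 := by
    unfold rv
    norm_num
  constructor
  · refine (divD_le n 1904410002821).trans ?_
    exact div_le_div_of_nonneg_left (rv_nonneg n) h3 hm.2
  · refine le_trans ?_ (le_divU m 1904410002820 (by norm_num))
    exact div_le_div_of_nonneg_left (rv_nonneg m) hp hm.1

private theorem NumV_wt {H : Mat} {δ : ℝ} (hδ0 : 1 < δ) (hHd : H.det = 1 / δ) {y : ℝ}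
    (hy : y = Real.pi * δ / (2 * Real.sqrt 3)) (hwH : ∀ k, wt H k = cc y y y k) :
    (∀ k, wt H k = cc (Real.pi / (2 * Real.sqrt 3 * H.det))
      (Real.pi / (2 * Real.sqrt 3 * H.det)) (Real.pi / (2 * Real.sqrt 3 * H.det)) k) ∧
      1 / H.det = δ ∧ 2 / H.det = 2 * δ := by
  have h3 : 0 < Real.sqrt 3 := Real.sqrt_pos.2 (by norm_num)
  have hδ : 0 < δ := by linarith
  have e : Real.pi / (2 * Real.sqrt 3 * H.det) = y := by
    rw [hy, hHd]
    field_simp
  refine ⟨fun k => by rw [e]; exact hwH k, ?_, ?_⟩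
  · rw [hHd]
    field_simp
  · rw [hHd]
    field_simp

private theorem NumV_sq3 : (3 : ℝ) ≤ 6 / Real.sqrt 3 ∧ 6 / Real.sqrt 3 ≤ 4 := by
  have h3 : 0 < Real.sqrt 3 := Real.sqrt_pos.2 (by norm_num)
  have h1 : Real.sqrt 3 ≤ 2 := by
    rw [Real.sqrt_le_left (by norm_num)]
    norm_num
  have h2 : (1.5 : ℝ) ≤ Real.sqrt 3 := by
    apply Real.le_sqrt_of_sq_le
    norm_num
  constructor
  · rw [le_div_iff₀ h3]
    linarith
  · rw [div_le_iff₀ h3]
    linarith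

/-- the common monotonicity facts -/
private theorem NumV_mono {t T : ℝ} (ht : 0 ≤ t) (h : t ≤ T) (hT : T ≤ 1 / 5) :
    (T ^ 3 - t ^ 3 ≤ 3 / 25 * (T - t) ∧ t ^ 3 ≤ T ^ 3) ∧
    (T ^ 4 - t ^ 4 ≤ 4 / 125 * (T - t) ∧ t ^ 4 ≤ T ^ 4) ∧
    (T ^ 7 - t ^ 7 ≤ 7 / 15625 * (T - t) ∧ t ^ 7 ≤ T ^ 7) := by
  have h3 := NumV_pow 2 ht h hT
  have h4 := NumV_pow 3 ht h hT
  have h7 := NumV_pow 6 ht h hT
  refine ⟨⟨?_, h3.2⟩, ⟨?_, h4.2⟩, ⟨?_, h7.2⟩⟩
  · have e := h3.1
    norm_num at e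
    linarith
  · have e := h4.1
    norm_num at e
    linarith
  · have e := h7.1
    norm_num at e
    linarith

private theorem NumV_other_true (n : Nat) {T : ℝ} (hn : rv n ≤ T) (hT : T ≤ 1 / 5) :
    rv (Nat.sub (Nat.add (divD (Nat.mul 6 n) 1904410002821)
        (Nat.mul 6 (mulD (mulD n n) (mulD n n))))
      (Nat.add (divU (Nat.mul 6 (mulU (mulU n n) n)) 1904410002820)
        (Nat.add (Nat.mul 20 (mulU (mulU (mulU n n) n) (mulU (mulU n n) (mulU n n)))) 0))) ≤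
      6 / Real.sqrt 3 * T - 6 / Real.sqrt 3 * T ^ 3 + 6 * T ^ 4 - 20 * T ^ 7 := by
  obtain ⟨p2, p3, p4, p7, q3, q4⟩ := NumV_pows n
  obtain ⟨m3, m4, m7⟩ := NumV_mono (rv_nonneg n) hn hT
  obtain ⟨s1, s2⟩ := NumV_sq3
  have d := NumV_div (n := Nat.mul 6 n) (m := Nat.mul 6 (mulU (mulU n n) n))
  rw [rv_nmul, rv_nmul] at d
  have hz : rv 0 = 0 := by simp [rv]
  set t := rv n with ht
  have ht0 : 0 ≤ t := rv_nonneg n
  set c := 6 / Real.sqrt 3 with hc
  have e1 : ((6 : ℕ) : ℝ) * t / Real.sqrt 3 = c * t := by rw [hc]; push_cast; ring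
  have e2 : ((6 : ℕ) : ℝ) * rv (mulU (mulU n n) n) / Real.sqrt 3 =
      c * rv (mulU (mulU n n) n) := by rw [hc]; push_cast; ring
  rw [e1, e2] at d
  have hc0 : 0 ≤ c := by linarith
  have k1 : c * (T ^ 3 - t ^ 3) ≤ c * (3 / 25 * (T - t)) := mul_le_mul_of_nonneg_left m3.1 hc0
  have k2 : 3 * (T - t) ≤ c * (T - t) := mul_le_mul_of_nonneg_right s1 (by linarith)
  have k3 : c * t ^ 3 ≤ c * rv (mulU (mulU n n) n) := mul_le_mul_of_nonneg_left p3 hc0
  have hmono : c * t - c * t ^ 3 + 6 * t ^ 4 - 20 * t ^ 7 ≤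
      c * T - c * T ^ 3 + 6 * T ^ 4 - 20 * T ^ 7 := by
    nlinarith [m4.2, m7.1]
  apply rv_sub_of_le
  · rw [rv_add, rv_add, rv_add, rv_nmul, rv_nmul, hz]
    push_cast
    linarith [d.1, d.2, hmono, k3, p7, q4]
  · refine le_trans ?_ hmono
    have g := NumV_mono le_rfl ht0 (hn.trans hT)
    simp only [ne_eq, OfNat.ofNat_ne_zero, not_false_eq_true, zero_pow, sub_zero] at g
    have k4 : c * t ^ 3 ≤ c * (3 / 25 * t) := mul_le_mul_of_nonneg_left g.1.1 hc0
    have k5 : 3 * t ≤ c * t := mul_le_mul_of_nonneg_right s1 ht0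
    nlinarith [g.2.1.2, g.2.2.1]

private theorem NumV_other_false (n : Nat) {T : ℝ} (hn : rv n ≤ T) (hT : T ≤ 1 / 5) :
    rv (Nat.sub (Nat.add (divD (Nat.mul 6 n) 1904410002821) 0)
      (Nat.add (divU (Nat.mul 6 (mulU (mulU n n) n)) 1904410002820)
        (Nat.add (Nat.mul 20 (mulU (mulU (mulU n n) n) (mulU (mulU n n) (mulU n n))))
          (Nat.mul 6 (mulU (mulU n n) (mulU n n)))))) ≤
      6 / Real.sqrt 3 * T - 6 / Real.sqrt 3 * T ^ 3 - 6 * T ^ 4 - 20 * T ^ 7 := by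
  obtain ⟨p2, p3, p4, p7, q3, q4⟩ := NumV_pows n
  obtain ⟨m3, m4, m7⟩ := NumV_mono (rv_nonneg n) hn hT
  obtain ⟨s1, s2⟩ := NumV_sq3
  have d := NumV_div (n := Nat.mul 6 n) (m := Nat.mul 6 (mulU (mulU n n) n))
  rw [rv_nmul, rv_nmul] at d
  have hz : rv 0 = 0 := by simp [rv]
  set t := rv n with ht
  have ht0 : 0 ≤ t := rv_nonneg n
  set c := 6 / Real.sqrt 3 with hc
  have e1 : ((6 : ℕ) : ℝ) * t / Real.sqrt 3 = c * t := by rw [hc]; push_cast; ring
  have e2 : ((6 : ℕ) : ℝ) * rv (mulU (mulU n n) n) / Real.sqrt 3 =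
      c * rv (mulU (mulU n n) n) := by rw [hc]; push_cast; ring
  rw [e1, e2] at d
  have hc0 : 0 ≤ c := by linarith
  have k1 : c * (T ^ 3 - t ^ 3) ≤ c * (3 / 25 * (T - t)) := mul_le_mul_of_nonneg_left m3.1 hc0
  have k2 : 3 * (T - t) ≤ c * (T - t) := mul_le_mul_of_nonneg_right s1 (by linarith)
  have k3 : c * t ^ 3 ≤ c * rv (mulU (mulU n n) n) := mul_le_mul_of_nonneg_left p3 hc0
  have hmono : c * t - c * t ^ 3 - 6 * t ^ 4 - 20 * t ^ 7 ≤
      c * T - c * T ^ 3 - 6 * T ^ 4 - 20 * T ^ 7 := by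
    nlinarith [m4.1, m7.1]
  apply rv_sub_of_le
  · rw [rv_add, rv_add, rv_add, rv_nmul, rv_nmul, hz]
    push_cast
    linarith [d.1, d.2, hmono, k3, p7, p4]
  · refine le_trans ?_ hmono
    have g := NumV_mono le_rfl ht0 (hn.trans hT)
    simp only [ne_eq, OfNat.ofNat_ne_zero, not_false_eq_true, zero_pow, sub_zero] at g
    have k4 : c * t ^ 3 ≤ c * (3 / 25 * t) := mul_le_mul_of_nonneg_left g.1.1 hc0
    have k5 : 3 * t ≤ c * t := mul_le_mul_of_nonneg_right s1 ht0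
    nlinarith [g.2.1.1, g.2.2.1]

private theorem NumV_cases (idx : Nat) :
    idx = 1 ∨ idx = 2 ∨ (idx = 0 ∨ ∃ n, idx = n + 3) := by
  rcases idx with _ | _ | _ | n
  · exact Or.inr (Or.inr (Or.inl rfl))
  · exact Or.inl rfl
  · exact Or.inr (Or.inl rfl)
  · exact Or.inr (Or.inr (Or.inr ⟨n, rfl⟩))

end NumVaux

/-- all the functions of `T` are increasing on `[0, 1/5]`, and `T ≤ exp(-π/√3) ≤ 1/5`;
`T` is decreasing in `δ` -/
theorem wOf_upper {idx dl dh : Nat} (h : wChk dl dh = true) {δ : ℝ} (hδ0 : 1 < δ) (h1 : rv dl ≤ δ)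
    (h2 : δ ≤ rv dh) {H : Mat} (hH : 0 < H.det) (hHd : H.det = 1 / δ) {y : ℝ}
    (hy : y = Real.pi * δ / (2 * Real.sqrt 3)) (hwH : ∀ k, wt H k = cc y y y k) :
    1 + rv (wOf true idx dh) ≤ bval H := by
  obtain ⟨hw, hd1, hd2⟩ := NumV_wt hδ0 hHd hy hwH
  have hδ2 : δ ≤ 2 := by
    refine h2.trans ?_
    rw [← NumV_lit2]
    exact rv_mono (NumV_chk h).2.2
  have hdet1 : H.det < 1 := by
    rw [hHd, div_lt_one (by linarith)]
    exact hδ0
  have hdet2 : 1 / 2 ≤ H.det := by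
    rw [hHd]
    exact one_div_le_one_div_of_le (by linarith) hδ2
  rw [NumV_wOf_eq]
  rcases NumV_cases idx with rfl | rfl | hj
  · have a1 := V1B H hH hdet1 hw _ rfl
    rw [hd2] at a1
    refine le_trans ?_ a1
    have hT' := NumV_v1 h h1 h2
    have hT5' := NumV_T_le (2 * δ - 1) (by linarith)
    rw [NumV_G1t]
    generalize vT 1 dh = n at *
    generalize Real.exp (-(Real.pi / Real.sqrt 3 * (2 * δ - 1))) = T at *
    obtain ⟨p2, p3, p4, p7, q3, q4⟩ := NumV_pows n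
    obtain ⟨m3, m4, m7⟩ := NumV_mono (rv_nonneg n) hT' hT5'
    have hmono : 3 * rv n - 6 * rv n ^ 3 - 3 * rv n ^ 4 ≤ 3 * T - 6 * T ^ 3 - 3 * T ^ 4 := by
      linarith [m3.1, m4.1]
    have key : rv (Nat.sub (Nat.mul 3 n) (Nat.add (Nat.mul 6 (mulU (mulU n n) n))
        (Nat.mul 3 (mulU (mulU n n) (mulU n n))))) ≤ 3 * T - 6 * T ^ 3 - 3 * T ^ 4 := by
      apply rv_sub_of_le
      · rw [rv_add, rv_nmul, rv_nmul, rv_nmul]
        push_cast
        linarith
      · refine le_trans ?_ hmono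
        have g := NumV_mono le_rfl (rv_nonneg n) (hT'.trans hT5')
        simp only [ne_eq, OfNat.ofNat_ne_zero, not_false_eq_true, zero_pow, sub_zero] at g
        linarith [g.1.1, g.2.1.1, rv_nonneg n]
    linarith
  · have a1 := V2B H hH hdet2 hw _ rfl
    refine le_trans ?_ a1
    have hT' := NumV_v2 dh
    have hT5' : Real.exp (-(2 * Real.pi / Real.sqrt 3)) ≤ 1 / 5 := by
      have e0 : 2 * Real.pi / Real.sqrt 3 = Real.pi / Real.sqrt 3 * 2 := by ring
      rw [e0]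
      exact NumV_T_le 2 (by norm_num)
    rw [NumV_G2t]
    generalize vT 2 dh = n at *
    generalize Real.exp (-(2 * Real.pi / Real.sqrt 3)) = T at *
    obtain ⟨p2, p3, p4, p7, q3, q4⟩ := NumV_pows n
    obtain ⟨m3, m4, m7⟩ := NumV_mono (rv_nonneg n) hT' hT5'
    have hp : 0 ≤ rv n ^ 4 := pow_nonneg (rv_nonneg n) _
    rw [rv_add, rv_nmul, rv_nmul]
    push_cast
    linarith [m3.2, m4.2]
  · have a1 := V3B H hH hw _ rfl
    rw [hd1] at a1
    have hT' := NumV_v0 h h1 h2 idx hj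
    have hT5' := NumV_T_le (δ + |δ - 3 / 2|) (by linarith [abs_nonneg (δ - 3 / 2)])
    have a2 := NumV_other_true (vT idx dh) hT' hT5'
    rw [NumV_G0t _ _ _ _ _ _ _ _ _ _ hj]
    linarith

theorem wOf_lower {idx dl dh : Nat} (h : wChk dl dh = true) {δ : ℝ} (hδ0 : 1 < δ) (h1 : rv dl ≤ δ)
    (h2 : δ ≤ rv dh) {H : Mat} (hH : 0 < H.det) (hHd : H.det = 1 / δ) {y : ℝ}
    (hy : y = Real.pi * δ / (2 * Real.sqrt 3)) (hwH : ∀ k, wt H k = cc y y y k) :
    aval H ≤ 1 - rv (wOf false idx dh) := by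
  obtain ⟨hw, hd1, hd2⟩ := NumV_wt hδ0 hHd hy hwH
  have hδ2 : δ ≤ 2 := by
    refine h2.trans ?_
    rw [← NumV_lit2]
    exact rv_mono (NumV_chk h).2.2
  have hdet1 : H.det < 1 := by
    rw [hHd, div_lt_one (by linarith)]
    exact hδ0
  have hdet2 : 1 / 2 ≤ H.det := by
    rw [hHd]
    exact one_div_le_one_div_of_le (by linarith) hδ2
  rw [NumV_wOf_eq]
  rcases NumV_cases idx with rfl | rfl | hj
  · have a1 := V1A H hH hdet1 hw _ rfl
    rw [hd2] at a1
    refine le_trans a1 ?_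
    have hT' := NumV_v1 h h1 h2
    have hT5' := NumV_T_le (2 * δ - 1) (by linarith)
    have hp : 0 < Real.exp (-(Real.pi / Real.sqrt 3 * (2 * δ - 1))) := Real.exp_pos _
    rw [NumV_G1f]
    generalize vT 1 dh = n at *
    generalize Real.exp (-(Real.pi / Real.sqrt 3 * (2 * δ - 1))) = T at *
    obtain ⟨p2, p3, p4, p7, q3, q4⟩ := NumV_pows n
    obtain ⟨m3, m4, m7⟩ := NumV_mono (rv_nonneg n) hT' hT5'
    have hmono : 6 * rv n + 6 * rv n ^ 3 - 6 * rv n ^ 4 ≤ 6 * T + 6 * T ^ 3 - 6 * T ^ 4 := by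
      linarith [m3.2, m4.1]
    have key : rv (Nat.sub (Nat.add (Nat.mul 6 n) (Nat.mul 6 (mulD n (mulD n n))))
        (Nat.mul 6 (mulU (mulU n n) (mulU n n)))) ≤ 6 * T + 6 * T ^ 3 - 6 * T ^ 4 := by
      apply rv_sub_of_le
      · rw [rv_add, rv_nmul, rv_nmul, rv_nmul]
        push_cast
        linarith
      · refine le_trans ?_ hmono
        have g := NumV_mono le_rfl (rv_nonneg n) (hT'.trans hT5')
        simp only [ne_eq, OfNat.ofNat_ne_zero, not_false_eq_true, zero_pow, sub_zero] at g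
        linarith [g.1.2, g.2.1.1, rv_nonneg n, pow_nonneg (rv_nonneg n) 3]
    have h12 : T ^ 12 ≤ T ^ 7 := pow_le_pow_of_le_one hp.le (by linarith) (by norm_num)
    have h7 : 0 ≤ T ^ 7 := pow_nonneg hp.le _
    have h9 : 0 ≤ T ^ 9 := pow_nonneg hp.le _
    linarith
  · have a1 := V2A H hH hdet2 hw _ rfl
    refine le_trans a1 ?_
    have hT' := NumV_v2 dh
    have hT5' : Real.exp (-(2 * Real.pi / Real.sqrt 3)) ≤ 1 / 5 := by
      have e0 : 2 * Real.pi / Real.sqrt 3 = Real.pi / Real.sqrt 3 * 2 := by ring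
      rw [e0]
      exact NumV_T_le 2 (by norm_num)
    rw [NumV_G2f]
    generalize vT 2 dh = n at *
    generalize Real.exp (-(2 * Real.pi / Real.sqrt 3)) = T at *
    obtain ⟨p2, p3, p4, p7, q3, q4⟩ := NumV_pows n
    obtain ⟨m3, m4, m7⟩ := NumV_mono (rv_nonneg n) hT' hT5'
    have hmono : 3 * rv n - 6 * rv n ^ 3 ≤ 3 * T - 6 * T ^ 3 := by
      linarith [m3.1]
    have key : rv (Nat.sub (Nat.mul 3 n) (Nat.mul 6 (mulU (mulU n n) n))) ≤
        3 * T - 6 * T ^ 3 := by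
      apply rv_sub_of_le
      · rw [rv_nmul, rv_nmul]
        push_cast
        linarith
      · refine le_trans ?_ hmono
        have g := NumV_mono le_rfl (rv_nonneg n) (hT'.trans hT5')
        simp only [ne_eq, OfNat.ofNat_ne_zero, not_false_eq_true, zero_pow, sub_zero] at g
        linarith [g.1.1, rv_nonneg n]
    linarith
  · have a1 := V3A H hH hw _ rfl
    rw [hd1] at a1
    have hT' := NumV_v0 h h1 h2 idx hj
    have hT5' := NumV_T_le (δ + |δ - 3 / 2|) (by linarith [abs_nonneg (δ - 3 / 2)])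
    have a2 := NumV_other_false (vT idx dh) hT' hT5'
    have hp : 0 ≤ Real.exp (-(Real.pi / Real.sqrt 3 * (δ + |δ - 3 / 2|))) := (Real.exp_pos _).le
    rw [NumV_G0f _ _ _ _ _ _ _ _ _ _ hj]
    linarith

end MP7e122f.Num
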