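import Pool.Agent.Lib.MP_7e122f_anR.FactsD
import Pool.Agent.Lib.MP_7e122f_anR.NumV
import Pool.Agent.Lib.MP_7e122f_anR.FactsA
import Pool.Agent.Lib.MP_7e122f_anR.NumDualA
import Pool.Agent.Lib.MP_7e122f_anR.NumDualB
import Pool.Agent.Lib.MP_7e122f_anR.NumDualC
import Pool.Agent.Lib.MP_7e122f_anR.ConsSt

/-!
# Facts on the hexagonal lattice of density `δ`
-/

open MeasureTheory Complex
open scoped ComplexInnerProductSpace ENNReal ComplexOrder

namespace MP7e122f.Num

open MP7e122f.R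

/-- the constraints for the values of a state -/
private theorem Facts_cons {δ : ℝ} (hδ : 1 < δ) {H : Mat} (hH : 0 < H.det) (hHd : H.det = 1 / δ)
    (f : L2) (hf : ‖f‖ = 1) :
    Cons δ (rav (st H f) (1, 0)) (rav (st H f) (1, 1)) (rav (st H f) (2, 0)) := by
  have h := cons_st H hH f hf
  have e : 1 / H.det = δ := by
    rw [hHd]
    field_simp
  rwa [e] at h

private theorem Facts_up {mx : Bool} {hb dl d : Nat} {L : Dual} {zs : Nat}
    (he : envChk mx dl d = true) (hu : upChk (mkEnv mx dl d) L zs hb = true) {δ : ℝ} (hδ : 1 < δ)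
    (h1 : rv dl ≤ δ) (h2 : δ ≤ rv d) : FUp mx δ (rv hb) := by
  intro y H hy hH hHd hwH
  obtain ⟨t, ht⟩ : ∃ t, t = Real.exp (-(Real.pi / Real.sqrt 3 * δ)) := ⟨_, rfl⟩
  have hE := env_ok he h1 h2 ht
  cases mx with
  | true =>
    change bval H ≤ 1 + rv hb
    unfold bval
    apply csSup_le (nonempty_TS H)
    rintro _ ⟨f, hf, rfl⟩
    have hv := value_exp hδ hy ht hH hHd hwH f hf
    have hF := feasB (Facts_cons hδ hH hHd f hf)
    have hup := up_ok hE hu hF
    have hs : sg true = 1 := rfl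
    rw [hs] at hup
    rw [abs_le] at hv
    linarith [hv.2]
  | false =>
    change 1 - rv hb ≤ aval H
    unfold aval
    apply le_csInf (nonempty_TS H)
    rintro _ ⟨f, hf, rfl⟩
    have hv := value_exp hδ hy ht hH hHd hwH f hf
    have hF := feasA (Facts_cons hδ hH hHd f hf)
    have hup := up_ok hE hu hF
    have hs : sg false = -1 := rfl
    rw [hs] at hup
    rw [abs_le] at hv
    linarith [hv.1]

theorem ups_ok {mx : Bool} {hb dl dh : Nat} {l : List CU} (h : upsChk mx hb dl dh l = true)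
    {δ : ℝ} (hδ : 1 < δ) (h1 : rv dl ≤ δ) (h2 : δ < rv dh) : FUp mx δ (rv hb) := by
  induction l generalizing dl with
  | nil =>
    have h3 : Nat.ble dh dl = true := h
    exact absurd (rv_le h3) (not_le.2 (lt_of_le_of_lt h1 h2))
  | cons c l ih =>
    have h3 : (envChk mx dl c.d && (upChk (mkEnv mx dl c.d) c.L c.zs hb &&
      upsChk mx hb c.d dh l)) = true := h
    rw [Bool.and_eq_true, Bool.and_eq_true] at h3
    obtain ⟨he, hu, hr⟩ := h3
    rcases lt_or_ge δ (rv c.d) with hlt | hge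
    · exact Facts_up he hu hδ h1 hlt.le
    · exact ih hr hge

private theorem Facts_near {mx : Bool} {z1 : Nat} {z3 : Int} {dl d idx : Nat} {L1 L3 : Dual}
    (he : envChk mx dl d = true) (hz1 : z1Chk (mkEnv mx dl d) L1 z1 (wOf mx idx d) = true)
    (hz3 : z3Chk (mkEnv mx dl d) L3 z1 z3 = true) {δ : ℝ} (hδ : 1 < δ)
    (h1 : rv dl ≤ δ) (h2 : δ ≤ rv d) : FNear mx δ (rv z1) (ri z3) := by
  intro y H hy hH hHd hwH
  obtain ⟨t, ht⟩ : ∃ t, t = Real.exp (-(Real.pi / Real.sqrt 3 * δ)) := ⟨_, rfl⟩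
  have hE := env_ok he h1 h2 ht
  have hw : wChk dl d = true := by
    have h3 : (Nat.ble 1099511627776 dl && (Nat.ble dl d && (Nat.ble d 2199023255552 &&
      okE (elOf mx dl d) (ehOf mx dl d)))) = true := he
    rw [Bool.and_eq_true, Bool.and_eq_true, Bool.and_eq_true] at h3
    obtain ⟨a1, a2, a3, _⟩ := h3
    change (Nat.ble 1099511627776 dl && (Nat.ble dl d && Nat.ble d 2199023255552)) = true
    rw [a1, a2, a3]
    rfl
  obtain ⟨η, hη, hη2⟩ := z1_ok hE hz1
  cases mx with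
  | true =>
    refine ⟨η, hη, ?_⟩
    intro f hf hTS
    have hv := value_exp hδ hy ht hH hHd hwH f hf
    have hF := feasB (Facts_cons hδ hH hHd f hf)
    have hW := wOf_upper (idx := idx) hw hδ h1 h2 hH hHd hy hwH
    have hs : sg true = 1 := rfl
    rw [hs] at hη2
    rw [abs_le] at hv
    have h4 := hη2 _ _ _ hF (by linarith [hv.2])
    exact ⟨h4, z3_ok hE hz3 hF h4⟩
  | false =>
    refine ⟨η, hη, ?_⟩
    intro f hf hTS
    have hv := value_exp hδ hy ht hH hHd hwH f hf
    have hF := feasA (Facts_cons hδ hH hHd f hf)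
    have hW := wOf_lower (idx := idx) hw hδ h1 h2 hH hHd hy hwH
    have hs : sg false = -1 := rfl
    rw [hs] at hη2
    rw [abs_le] at hv
    have h4 := hη2 _ _ _ hF (by linarith [hv.1])
    have h5 := z3_ok hE hz3 hF h4
    exact ⟨by linarith, by linarith⟩

theorem near_ok {mx : Bool} {z1 : Nat} {z3 : Int} {dl dh : Nat} {l : List CN}
    (h : nearChk mx z1 z3 dl dh l = true)
    {δ : ℝ} (hδ : 1 < δ) (h1 : rv dl ≤ δ) (h2 : δ < rv dh) :
    FNear mx δ (rv z1) (ri z3) := by
  induction l generalizing dl with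
  | nil =>
    have h3 : Nat.ble dh dl = true := h
    exact absurd (rv_le h3) (not_le.2 (lt_of_le_of_lt h1 h2))
  | cons c l ih =>
    have h3 : (envChk mx dl c.d && (z1Chk (mkEnv mx dl c.d) c.L1 z1 (wOf mx c.idx c.d) &&
      (z3Chk (mkEnv mx dl c.d) c.L3 z1 z3 && nearChk mx z1 z3 c.d dh l))) = true := h
    rw [Bool.and_eq_true, Bool.and_eq_true, Bool.and_eq_true] at h3
    obtain ⟨he, hz1, hz3, hr⟩ := h3
    rcases lt_or_ge δ (rv c.d) with hlt | hge
    · exact Facts_near he hz1 hz3 hδ h1 hlt.le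
    · exact ih hr hge

end MP7e122f.Num
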