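import Pool.Agent.Lib.MP_7e122f_anR.NumVD

open MeasureTheory Complex
open scoped ComplexInnerProductSpace ENNReal ComplexOrder

namespace MP7e122f.Num

open MP7e122f.R

/-- upper bound -/
def FUp (mx : Bool) (δ hb : ℝ) : Prop :=
  ∀ (y : ℝ) (H : Mat), y = Real.pi * δ / (2 * Real.sqrt 3) → 0 < H.det → H.det = 1 / δ →
    (∀ k, wt H k = cc y y y k) → cond mx (bval H ≤ 1 + hb) (1 - hb ≤ aval H)

/-- values of near-optimal states -/
def FNear (mx : Bool) (δ z1 z3 : ℝ) : Prop :=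
  ∀ (y : ℝ) (H : Mat), y = Real.pi * δ / (2 * Real.sqrt 3) → 0 < H.det → H.det = 1 / δ →
    (∀ k, wt H k = cc y y y k) → cond mx
    (∃ η : ℝ, 0 < η ∧ ∀ f : L2, ‖f‖ = 1 → bval H - η < TS H f →
      z1 ≤ rav (st H f) (1, 0) ∧ rav (st H f) (1, 1) ≤ z3)
    (∃ η : ℝ, 0 < η ∧ ∀ f : L2, ‖f‖ = 1 → TS H f < aval H + η →
      rav (st H f) (1, 0) ≤ -z1 ∧ -z3 ≤ rav (st H f) (1, 1))

/-- one certificate for `FUp`: weights, `zs`, right end point -/
structure CU where
  d : Nat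
  L : Dual
  zs : Nat

/-- chain of certificates covering `[dl, dh]` -/
def upsChk (mx : Bool) (hb : Nat) : Nat → Nat → List CU → Bool
  | dl, dh, [] => Nat.ble dh dl
  | dl, dh, c :: l => and (envChk mx dl c.d) (and (upChk (mkEnv mx dl c.d) c.L c.zs hb)
      (upsChk mx hb c.d dh l))

/-- one certificate for `FNear` -/
structure CN where
  d : Nat
  idx : Nat
  L1 : Dual
  L3 : Dual

def nearChk (mx : Bool) (z1 : Nat) (z3 : Int) : Nat → Nat → List CN → Bool
  | dl, dh, [] => Nat.ble dh dl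
  | dl, dh, c :: l =>
    let E := mkEnv mx dl c.d
    and (envChk mx dl c.d) (and (z1Chk E c.L1 z1 (wOf mx c.idx c.d))
      (and (z3Chk E c.L3 z1 z3) (nearChk mx z1 z3 c.d dh l)))

end MP7e122f.Num
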