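import Pool.Agent.Lib.MP_7e122f_anR.UUf

namespace MP7e122f.R

private lemma farL_term {β b U V z c : ℝ} (hβ : |β| ≤ b) (hU : |U| ≤ V) (hz : |z| ≤ c) :
    |β * U * z| ≤ b * V * c := by
  have hb : 0 ≤ b := (abs_nonneg _).trans hβ
  have hV : 0 ≤ V := (abs_nonneg _).trans hU
  rw [abs_mul, abs_mul]
  exact mul_le_mul (mul_le_mul hβ hU (abs_nonneg _) hb) hz (abs_nonneg _) (mul_nonneg hb hV)

private lemma farL_deriv {δ β1 β2 β3 b1 b2 b3 : ℝ} {f : ℤ × ℤ → ℝ}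
    (hs : Real.sin (Real.pi * δ) ≠ 0) (hf : ∀ k, |f k| ≤ 1) (h1 : |β1| ≤ b1) (h2 : |β2| ≤ b2)
    (h3 : |β3| ≤ b3) (k : ℤ × ℤ) :
    |2 * (β1 * UU δ k.2 * (f (k + (1, 0)) - f (k - (1, 0)))
      + β2 * UU δ (-(k.1 + k.2)) * (f (k + (-1, 1)) - f (k - (-1, 1)))
      + β3 * UU δ k.1 * (f (k + (0, -1)) - f (k - (0, -1))))| ≤ Wb b1 b2 b3 k := by
  have hd : ∀ x y, |f x - f y| ≤ 2 := fun x y => by
    calc |f x - f y| ≤ |f x| + |f y| := abs_sub _ _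
      _ ≤ 2 := by linarith [hf x, hf y]
  have e1 := farL_term h1 (UU_le δ hs k.2) (hd (k + (1, 0)) (k - (1, 0)))
  have e2' : |UU δ (-(k.1 + k.2))| ≤ |((k.1 + k.2 : ℤ) : ℝ)| := by
    rw [UU_neg, abs_neg]
    exact UU_le δ hs _
  have e2 := farL_term h2 e2' (hd (k + (-1, 1)) (k - (-1, 1)))
  have e3 := farL_term h3 (UU_le δ hs k.1) (hd (k + (0, -1)) (k - (0, -1)))
  unfold Wb
  rw [abs_le] at e1 e2 e3 ⊢
  constructor <;> linarith [e1.1, e1.2, e2.1, e2.2, e3.1, e3.2]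

/-- one vector: `|Φ_ν(k) - Φ_0(k)| ≤ |ν| Wb k` -/
theorem fam_lip {δ β1 β2 β3 b1 b2 b3 : ℝ} {Φ : ℝ → ℤ × ℤ → ℝ}
    (hs : Real.sin (Real.pi * δ) ≠ 0) (h : Fam δ β1 β2 β3 Φ) (h1 : |β1| ≤ b1) (h2 : |β2| ≤ b2)
    (h3 : |β3| ≤ b3) (ν : ℝ) (k : ℤ × ℤ) : |Φ ν k - Φ 0 k| ≤ |ν| * Wb b1 b2 b3 k := by
  have hΦ1 : ∀ x k, |Φ x k| ≤ 1 := fun x k => (h.adm x).1 k
  have := Convex.norm_image_sub_le_of_norm_hasDerivWithin_le (f := fun x => Φ x k)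
    (f' := fun x => 2 * (β1 * UU δ k.2 * (Φ x (k + (1, 0)) - Φ x (k - (1, 0)))
      + β2 * UU δ (-(k.1 + k.2)) * (Φ x (k + (-1, 1)) - Φ x (k - (-1, 1)))
      + β3 * UU δ k.1 * (Φ x (k + (0, -1)) - Φ x (k - (0, -1))))) (C := Wb b1 b2 b3 k)
    (s := Set.univ) (x := 0) (y := ν)
    (fun x _ => (h.deriv x k).hasDerivWithinAt)
    (fun x _ => farL_deriv hs (hΦ1 x) h1 h2 h3 k) convex_univ (Set.mem_univ _) (Set.mem_univ _)
  simp only [Real.norm_eq_abs, sub_zero] at this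
  rw [mul_comm]
  exact this

/-- second order bound: with `Φ0'` the derivative at `0`,
`|Φ_ν(k) - Φ_0(k) - ν Φ0'(k)| ≤ ν²/2 Wb k (Wb k + 8 b)`, `b ≥ b1, b2, b3`, `b1 + b2 ≤ 2b`, ....
Proof: `taylor2` with `|Φ'(x) - Φ'(0)| ≤ 2 ∑ b_i |U_i| (|x| Wb(k+u_i) + |x| Wb(k-u_i))` and
`Wb(k ± u_i) ≤ Wb k + 4 (b_j + b_l) ≤ Wb k + 8 b`. -/
theorem fam_second {δ β1 β2 β3 b1 b2 b3 b : ℝ} {Φ : ℝ → ℤ × ℤ → ℝ}
    (hs : Real.sin (Real.pi * δ) ≠ 0) (h : Fam δ β1 β2 β3 Φ) (h1 : |β1| ≤ b1) (h2 : |β2| ≤ b2)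
    (h3 : |β3| ≤ b3) (hb1 : b1 ≤ b) (hb2 : b2 ≤ b) (hb3 : b3 ≤ b) (ν : ℝ) (k : ℤ × ℤ) :
    |Φ ν k - Φ 0 k - ν * (2 * (β1 * UU δ k.2 * (Φ 0 (k + (1, 0)) - Φ 0 (k - (1, 0)))
      + β2 * UU δ (-(k.1 + k.2)) * (Φ 0 (k + (-1, 1)) - Φ 0 (k - (-1, 1)))
      + β3 * UU δ k.1 * (Φ 0 (k + (0, -1)) - Φ 0 (k - (0, -1)))))|
      ≤ ν ^ 2 / 2 * (Wb b1 b2 b3 k * (Wb b1 b2 b3 k + 8 * b)) := by
  have b10 : 0 ≤ b1 := (abs_nonneg _).trans h1
  have b20 : 0 ≤ b2 := (abs_nonneg _).trans h2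
  have b30 : 0 ≤ b3 := (abs_nonneg _).trans h3
  set W := Wb b1 b2 b3 k with hW
  have T := taylor2 (fun x => Φ x k)
    (fun x => 2 * (β1 * UU δ k.2 * (Φ x (k + (1, 0)) - Φ x (k - (1, 0)))
      + β2 * UU δ (-(k.1 + k.2)) * (Φ x (k + (-1, 1)) - Φ x (k - (-1, 1)))
      + β3 * UU δ k.1 * (Φ x (k + (0, -1)) - Φ x (k - (0, -1)))))
    (W * (W + 8 * b)) (fun x => h.deriv x k) ?_ ν
  · refine T.trans (le_of_eq ?_)
    ring
  intro x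
  have L := fun k => fam_lip hs h h1 h2 h3 x k
  -- neighbours
  have ab : ∀ u v : ℝ, |v| ≤ 1 → |u + v| ≤ |u| + 1 := fun u v hv =>
    (abs_add_le _ _).trans (by linarith)
  have N : ∀ (l : ℤ × ℤ) (c1 c2 c3 : ℝ), |((l.2 : ℤ) : ℝ)| ≤ |(k.2 : ℝ)| + c1 →
      |((l.1 + l.2 : ℤ) : ℝ)| ≤ |((k.1 + k.2 : ℤ) : ℝ)| + c2 →
      |((l.1 : ℤ) : ℝ)| ≤ |(k.1 : ℝ)| + c3 →
      Wb b1 b2 b3 l ≤ W + 4 * (b1 * c1 + b2 * c2 + b3 * c3) := by
    intro l c1 c2 c3 e1 e2 e3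
    rw [hW]
    unfold Wb
    have f1 := mul_le_mul_of_nonneg_left e1 b10
    have f2 := mul_le_mul_of_nonneg_left e2 b20
    have f3 := mul_le_mul_of_nonneg_left e3 b30
    linarith
  have tr : ∀ (u v : ℤ), |((u + v : ℤ) : ℝ)| ≤ |(u : ℝ)| + |(v : ℝ)| := fun u v => by
    push_cast
    exact abs_add_le _ _
  have n1 : Wb b1 b2 b3 (k + (1, 0)) ≤ W + 8 * b := by
    refine (N _ 0 1 1 ?_ ?_ ?_).trans (by linarith)
    · simp
    · have := tr (k.1 + k.2) 1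
      simp only [Prod.fst_add, Prod.snd_add]
      rw [show k.1 + 1 + (k.2 + 0) = k.1 + k.2 + 1 by ring]
      simpa using this
    · have := tr k.1 1
      simpa using this
  have n1' : Wb b1 b2 b3 (k - (1, 0)) ≤ W + 8 * b := by
    refine (N _ 0 1 1 ?_ ?_ ?_).trans (by linarith)
    · simp
    · have := tr (k.1 + k.2) (-1)
      simp only [Prod.fst_sub, Prod.snd_sub]
      rw [show k.1 - 1 + (k.2 - 0) = k.1 + k.2 + (-1) by ring]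
      simpa using this
    · have := tr k.1 (-1)
      simp only [Prod.fst_sub]
      rw [sub_eq_add_neg]
      simpa using this
  have n2 : Wb b1 b2 b3 (k + (-1, 1)) ≤ W + 8 * b := by
    refine (N _ 1 0 1 ?_ ?_ ?_).trans (by linarith)
    · have := tr k.2 1
      simpa using this
    · simp only [Prod.fst_add, Prod.snd_add]
      rw [show k.1 + -1 + (k.2 + 1) = k.1 + k.2 by ring]
      simp
    · have := tr k.1 (-1)
      simpa using this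
  have n2' : Wb b1 b2 b3 (k - (-1, 1)) ≤ W + 8 * b := by
    refine (N _ 1 0 1 ?_ ?_ ?_).trans (by linarith)
    · have := tr k.2 (-1)
      simp only [Prod.snd_sub]
      rw [sub_eq_add_neg]
      simpa using this
    · simp only [Prod.fst_sub, Prod.snd_sub]
      rw [show k.1 - -1 + (k.2 - 1) = k.1 + k.2 by ring]
      simp
    · have := tr k.1 1
      simp only [Prod.fst_sub]
      rw [show k.1 - -1 = k.1 + 1 by ring]
      simpa using this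
  have n3 : Wb b1 b2 b3 (k + (0, -1)) ≤ W + 8 * b := by
    refine (N _ 1 1 0 ?_ ?_ ?_).trans (by linarith)
    · have := tr k.2 (-1)
      simpa using this
    · have := tr (k.1 + k.2) (-1)
      simp only [Prod.fst_add, Prod.snd_add]
      rw [show k.1 + 0 + (k.2 + -1) = k.1 + k.2 + (-1) by ring]
      simpa using this
    · simp
  have n3' : Wb b1 b2 b3 (k - (0, -1)) ≤ W + 8 * b := by
    refine (N _ 1 1 0 ?_ ?_ ?_).trans (by linarith)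
    · have := tr k.2 1
      simp only [Prod.snd_sub]
      rw [show k.2 - -1 = k.2 + 1 by ring]
      simpa using this
    · have := tr (k.1 + k.2) 1
      simp only [Prod.fst_sub, Prod.snd_sub]
      rw [show k.1 - 0 + (k.2 - -1) = k.1 + k.2 + 1 by ring]
      simpa using this
    · simp
  have hd : ∀ l m, Wb b1 b2 b3 l ≤ W + 8 * b → Wb b1 b2 b3 m ≤ W + 8 * b →
      |(Φ x l - Φ x m) - (Φ 0 l - Φ 0 m)| ≤ 2 * (|x| * (W + 8 * b)) := by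
    intro l m hl hm
    have e1 := (L l).trans (mul_le_mul_of_nonneg_left hl (abs_nonneg x))
    have e2 := (L m).trans (mul_le_mul_of_nonneg_left hm (abs_nonneg x))
    rw [abs_le] at e1 e2 ⊢
    constructor <;> linarith [e1.1, e1.2, e2.1, e2.2]
  have e1 := farL_term h1 (UU_le δ hs k.2) (hd _ _ n1 n1')
  have e2' : |UU δ (-(k.1 + k.2))| ≤ |((k.1 + k.2 : ℤ) : ℝ)| := by
    rw [UU_neg, abs_neg]
    exact UU_le δ hs _
  have e2 := farL_term h2 e2' (hd _ _ n2 n2')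
  have e3 := farL_term h3 (UU_le δ hs k.1) (hd _ _ n3 n3')
  have id : W * (W + 8 * b) * |x| = 2 * (b1 * |(k.2 : ℝ)| * (2 * (|x| * (W + 8 * b)))
      + b2 * |((k.1 + k.2 : ℤ) : ℝ)| * (2 * (|x| * (W + 8 * b)))
      + b3 * |(k.1 : ℝ)| * (2 * (|x| * (W + 8 * b)))) := by
    have : W = 4 * (b1 * |(k.2 : ℝ)| + b2 * |((k.1 + k.2 : ℤ) : ℝ)| + b3 * |(k.1 : ℝ)|) := rfl
    calc W * (W + 8 * b) * |x|
        = (4 * (b1 * |(k.2 : ℝ)| + b2 * |((k.1 + k.2 : ℤ) : ℝ)| + b3 * |(k.1 : ℝ)|))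
          * (W + 8 * b) * |x| := by rw [← this]
      _ = _ := by ring
  rw [id]
  rw [abs_le] at e1 e2 e3 ⊢
  constructor <;> linarith [e1.1, e1.2, e2.1, e2.2, e3.1, e3.2]

end MP7e122f.R
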