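import Pool.Agent.Lib.MP_7e122f_anR.Defs

open MeasureTheory Complex
open scoped ComplexInnerProductSpace ENNReal ComplexOrder

namespace MP7e122f.R

/-- number of `i < n` with `0 ≤ a + i < n` -/
private def fejerN (n : ℕ) (a : ℤ) : ℕ :=
  ((Finset.range n).filter fun i : ℕ => 0 ≤ a + i ∧ a + i < n).card

private theorem fejerN_le (n : ℕ) (a : ℤ) : fejerN n a ≤ n := by
  unfold fejerN
  exact (Finset.card_filter_le _ _).trans (by simp)

private theorem le_fejerN (n : ℕ) (a : ℤ) : n ≤ fejerN n a + a.natAbs := by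
  have h := Finset.card_filter_add_card_filter_not (s := Finset.range n)
    (fun i : ℕ => 0 ≤ a + i ∧ a + i < n)
  rw [Finset.card_range] at h
  have h2 : ((Finset.range n).filter fun i : ℕ => ¬ (0 ≤ a + i ∧ a + i < n)).card ≤ a.natAbs := by
    rcases le_or_gt 0 a with ha | ha
    · have hs : ((Finset.range n).filter fun i : ℕ => ¬ (0 ≤ a + i ∧ a + i < n)) ⊆
          Finset.Ico (n - a.natAbs) n := by
        intro i hi
        rw [Finset.mem_filter, Finset.mem_range] at hi
        rw [Finset.mem_Ico]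
        refine ⟨?_, hi.1⟩
        by_contra hc
        apply hi.2
        omega
      refine (Finset.card_le_card hs).trans ?_
      rw [Nat.card_Ico]
      omega
    · have hs : ((Finset.range n).filter fun i : ℕ => ¬ (0 ≤ a + i ∧ a + i < n)) ⊆
          Finset.range a.natAbs := by
        intro i hi
        rw [Finset.mem_filter, Finset.mem_range] at hi
        rw [Finset.mem_range]
        by_contra hc
        apply hi.2
        omega
      refine (Finset.card_le_card hs).trans ?_
      simp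
  unfold fejerN
  omega

private theorem fejerN_tendsto (a : ℤ) :
    Filter.Tendsto (fun n : ℕ => (fejerN n a : ℝ) / n) Filter.atTop (nhds 1) := by
  have h1 : Filter.Tendsto (fun n : ℕ => (1 : ℝ) - (a.natAbs : ℝ) / n) Filter.atTop
      (nhds (1 - 0)) := by
    refine Filter.Tendsto.sub tendsto_const_nhds ?_
    exact tendsto_const_div_atTop_nhds_zero_nat _
  rw [sub_zero] at h1
  refine tendsto_of_tendsto_of_tendsto_of_le_of_le' h1 tendsto_const_nhds ?_ ?_
  · filter_upwards [Filter.eventually_gt_atTop 0] with n hn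
    have hn' : (0 : ℝ) < n := by exact_mod_cast hn
    have h := le_fejerN n a
    have h' : (n : ℝ) ≤ fejerN n a + a.natAbs := by exact_mod_cast h
    rw [← sub_nonneg]
    have : (fejerN n a : ℝ) / n - (1 - (a.natAbs : ℝ) / n) =
        (fejerN n a + a.natAbs - n) / n := by
      field_simp
      ring
    rw [this]
    apply div_nonneg _ hn'.le
    linarith
  · filter_upwards [Filter.eventually_gt_atTop 0] with n hn
    have hn' : (0 : ℝ) < n := by exact_mod_cast hn
    rw [div_le_one hn']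
    exact_mod_cast fejerN_le n a

/-- the inclusion -/
private def fejerι : ℕ × ℕ ↪ ℤ × ℤ :=
  ⟨fun l => ((l.1 : ℤ), (l.2 : ℤ)), by
    intro a b h
    simp only [Prod.mk.injEq, Nat.cast_inj] at h
    exact Prod.ext h.1 h.2⟩

private theorem fejer_inner (g : ℤ × ℤ → ℝ) (n : ℕ) (k : ℤ × ℤ) :
    ∑ l ∈ (Finset.range n ×ˢ Finset.range n), g ((l.1 : ℤ) - k.1, (l.2 : ℤ) - k.2) =
      ∑' m : ℤ × ℤ, (if m + k ∈ (Finset.range n ×ˢ Finset.range n).map fejerι then (1 : ℝ) else 0)
        * g m := by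
  have h1 : ∑ l ∈ (Finset.range n ×ˢ Finset.range n), g ((l.1 : ℤ) - k.1, (l.2 : ℤ) - k.2) =
      ∑ l ∈ (Finset.range n ×ˢ Finset.range n).map fejerι, g (l - k) := by
    rw [Finset.sum_map]
    rfl
  rw [h1]
  have h2 : ∑' l : ℤ × ℤ, (if l ∈ (Finset.range n ×ˢ Finset.range n).map fejerι then (1 : ℝ)
      else 0) * g (l - k) = ∑ l ∈ (Finset.range n ×ˢ Finset.range n).map fejerι,
        (if l ∈ (Finset.range n ×ˢ Finset.range n).map fejerι then (1 : ℝ) else 0) * g (l - k) := by
    refine tsum_eq_sum ?_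
    intro l hl
    rw [if_neg hl, zero_mul]
  have h3 : ∑ l ∈ (Finset.range n ×ˢ Finset.range n).map fejerι, g (l - k) =
      ∑ l ∈ (Finset.range n ×ˢ Finset.range n).map fejerι,
        (if l ∈ (Finset.range n ×ˢ Finset.range n).map fejerι then (1 : ℝ) else 0) * g (l - k) := by
    refine Finset.sum_congr rfl ?_
    intro l hl
    rw [if_pos hl, one_mul]
  rw [h3, ← h2, ← (Equiv.addRight k).tsum_eq]
  refine tsum_congr fun m => ?_
  rw [Equiv.coe_addRight, add_sub_cancel_right]

private theorem fejer_card (n : ℕ) (m : ℤ × ℤ) :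
    ∑ k ∈ (Finset.range n ×ˢ Finset.range n), (if m + fejerι k ∈
      (Finset.range n ×ˢ Finset.range n).map fejerι then (1 : ℝ) else 0) =
      (fejerN n m.1 : ℝ) * fejerN n m.2 := by
  have h1 : ∀ k : ℕ × ℕ, (if m + fejerι k ∈
      (Finset.range n ×ˢ Finset.range n).map fejerι then (1 : ℝ) else 0) =
      (if 0 ≤ m.1 + k.1 ∧ m.1 + k.1 < n then (1 : ℝ) else 0) *
        (if 0 ≤ m.2 + k.2 ∧ m.2 + k.2 < n then (1 : ℝ) else 0) := by
    intro k
    have hm : ∀ (P Q : Prop) [Decidable P] [Decidable Q],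
        (if P then (1 : ℝ) else 0) * (if Q then (1 : ℝ) else 0) = if P ∧ Q then (1 : ℝ) else 0 := by
      intro P Q _ _
      by_cases hP : P <;> by_cases hQ : Q <;> simp [hP, hQ]
    rw [hm]
    refine if_congr ?_ rfl rfl
    rw [Finset.mem_map]
    constructor
    · rintro ⟨l, hl, hl2⟩
      rw [Finset.mem_product, Finset.mem_range, Finset.mem_range] at hl
      have e1 : (l.1 : ℤ) = m.1 + k.1 := congrArg Prod.fst hl2
      have e2 : (l.2 : ℤ) = m.2 + k.2 := congrArg Prod.snd hl2
      omega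
    · rintro ⟨⟨a1, a2⟩, b1, b2⟩
      refine ⟨((m.1 + k.1).toNat, (m.2 + k.2).toNat), ?_, ?_⟩
      · rw [Finset.mem_product, Finset.mem_range, Finset.mem_range]
        constructor
        · show (m.1 + k.1).toNat < n
          omega
        · show (m.2 + k.2).toNat < n
          omega
      · refine Prod.ext ?_ ?_
        · show (((m.1 + k.1).toNat : ℕ) : ℤ) = m.1 + k.1
          omega
        · show (((m.2 + k.2).toNat : ℕ) : ℤ) = m.2 + k.2
          omega
  simp only [h1]
  rw [Finset.sum_product, ← Finset.sum_mul_sum (Finset.range n) (Finset.range n)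
    (fun i : ℕ => if 0 ≤ m.1 + (i : ℤ) ∧ m.1 + (i : ℤ) < n then (1 : ℝ) else 0)
    (fun i : ℕ => if 0 ≤ m.2 + (i : ℤ) ∧ m.2 + (i : ℤ) < n then (1 : ℝ) else 0)]
  unfold fejerN
  rw [Finset.card_filter, Finset.card_filter]
  push_cast
  rfl

private theorem fejer_total (g : ℤ × ℤ → ℝ) (hg : Summable g) (n : ℕ) :
    ∑ k ∈ (Finset.range n ×ˢ Finset.range n),
      ∑ l ∈ (Finset.range n ×ˢ Finset.range n), g ((l.1 : ℤ) - k.1, (l.2 : ℤ) - k.2) =
    ∑' m : ℤ × ℤ, ((fejerN n m.1 : ℝ) * fejerN n m.2) * g m := by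
  have h1 : ∀ k ∈ (Finset.range n ×ˢ Finset.range n),
      ∑ l ∈ (Finset.range n ×ˢ Finset.range n), g ((l.1 : ℤ) - k.1, (l.2 : ℤ) - k.2) =
      ∑' m : ℤ × ℤ, (if m + fejerι k ∈ (Finset.range n ×ˢ Finset.range n).map fejerι then (1 : ℝ)
        else 0) * g m := fun k _ => fejer_inner g n (fejerι k)
  rw [Finset.sum_congr rfl h1, ← Summable.tsum_finsetSum]
  · refine tsum_congr fun m => ?_
    rw [← Finset.sum_mul, fejer_card]
  · intro k _
    refine Summable.of_norm_bounded hg.norm ?_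
    intro m
    rw [norm_mul]
    split_ifs
    · simp
    · simp

/-- Fejér: if `g` is summable, and all the sums over pairs of points of boxes are nonnegative,
then `0 ≤ ∑ g`.  (The sum over `[0,n)²` is `∑_m g m (n - |m.1|)⁺ (n - |m.2|)⁺`; divide by `n²`
and let `n → ∞`, `tendsto_tsum_of_dominated_convergence`.) -/
theorem fejer (g : ℤ × ℤ → ℝ) (hg : Summable g)
    (h : ∀ n : ℕ, 0 ≤ ∑ k ∈ (Finset.range n ×ˢ Finset.range n),
      ∑ l ∈ (Finset.range n ×ˢ Finset.range n), g ((l.1 : ℤ) - k.1, (l.2 : ℤ) - k.2)) :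
    0 ≤ ∑' k, g k := by
  have ht : Filter.Tendsto
      (fun n : ℕ => ∑' m : ℤ × ℤ, ((fejerN n m.1 : ℝ) / n * ((fejerN n m.2 : ℝ) / n)) * g m)
      Filter.atTop (nhds (∑' m : ℤ × ℤ, g m)) := by
    refine tendsto_tsum_of_dominated_convergence (bound := fun m => ‖g m‖) hg.norm ?_ ?_
    · intro m
      have h1 := ((fejerN_tendsto m.1).mul (fejerN_tendsto m.2)).mul_const (g m)
      simpa using h1
    · filter_upwards [Filter.eventually_gt_atTop 0] with n hn
      intro m
      have hn' : (0 : ℝ) < n := by exact_mod_cast hn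
      have e : ∀ a : ℤ, 0 ≤ (fejerN n a : ℝ) / n ∧ (fejerN n a : ℝ) / n ≤ 1 := by
        intro a
        refine ⟨by positivity, ?_⟩
        rw [div_le_one hn']
        exact_mod_cast fejerN_le n a
      rw [norm_mul, Real.norm_of_nonneg (mul_nonneg (e _).1 (e _).1)]
      have : (fejerN n m.1 : ℝ) / n * ((fejerN n m.2 : ℝ) / n) ≤ 1 :=
        mul_le_one₀ (e _).2 (e _).1 (e _).2
      calc _ ≤ 1 * ‖g m‖ := mul_le_mul_of_nonneg_right this (norm_nonneg _)
        _ = _ := one_mul _
  refine ge_of_tendsto' ht ?_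
  intro n
  have e1 : ∑' m : ℤ × ℤ, ((fejerN n m.1 : ℝ) / n * ((fejerN n m.2 : ℝ) / n)) * g m =
      (1 / (n : ℝ) ^ 2) * ∑' m : ℤ × ℤ, ((fejerN n m.1 : ℝ) * fejerN n m.2) * g m := by
    rw [← tsum_mul_left]
    refine tsum_congr fun m => ?_
    rw [div_mul_div_comm, ← sq, div_eq_mul_one_div]
    ring
  rw [e1, ← fejer_total g hg n]
  exact mul_nonneg (by positivity) (h n)

end MP7e122f.R
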