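import Pool.Agent.Lib.MP_7e122f_anR.NumG

open MeasureTheory Complex
open scoped ComplexInnerProductSpace ENNReal ComplexOrder

namespace MP7e122f.Num

open MP7e122f.R

/-- the finite set of the terms which are kept -/
private def GSumA_W : Finset (ℤ × ℤ) :=
  {(0, 0), (1, 0), (-1, 0), (0, 1), (0, -1), (1, -1), (-1, 1), (2, -1), (-2, 1), (1, 1), (-1, -1),
    (1, -2), (-1, 2), (2, 0), (-2, 0), (0, 2), (0, -2), (2, -2), (-2, 2), (4, -2), (-4, 2),
    (2, 2), (-2, -2), (2, -4), (-2, 4)}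

private def GSumA_S4 : Finset (ℤ × ℤ) := {(2, 0), (-2, 0), (0, 2), (0, -2)}
private def GSumA_S5 : Finset (ℤ × ℤ) := {(2, -1), (-2, 1), (1, -2), (-1, 2)}
private noncomputable def GSumA_F : Finset (ℤ × ℤ) := Finset.Icc (-1) 1 ×ˢ Finset.Icc (-1) 1

/-- geometric product -/
private noncomputable def GSumA_p (k : ℤ × ℤ) : ℝ := (1 / 10) ^ k.1.natAbs * (1 / 10) ^ k.2.natAbs

/-- the majorant of the remaining terms, as a function of `(b, n)` -/
private noncomputable def GSumA_g (k : ℤ × ℤ) : ℝ :=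
  (if k ∈ GSumA_S4 then 1 else 0) + (if k ∈ GSumA_S5 then 1 / 10 else 0) +
    (GSumA_p k - (if k ∈ GSumA_F then GSumA_p k else 0))

private theorem GSumA_p_nonneg (k : ℤ × ℤ) : 0 ≤ GSumA_p k := by
  unfold GSumA_p
  positivity

private theorem GSumA_g_nonneg (k : ℤ × ℤ) : 0 ≤ GSumA_g k := by
  unfold GSumA_g
  have h := GSumA_p_nonneg k
  have h1 : 0 ≤ GSumA_p k - (if k ∈ GSumA_F then GSumA_p k else 0) := by
    split_ifs <;> linarith
  have h2 : (0 : ℝ) ≤ (if k ∈ GSumA_S4 then 1 else 0) := by positivity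
  have h3 : (0 : ℝ) ≤ (if k ∈ GSumA_S5 then 1 / 10 else 0) := by positivity
  linarith

private theorem GSumA_ite (A : Finset (ℤ × ℤ)) (F : ℤ × ℤ → ℝ) :
    HasSum (fun k => if k ∈ A then F k else 0) (∑ k ∈ A, F k) := by
  have h : HasSum (fun k => if k ∈ A then F k else 0) (∑ b ∈ A, (if b ∈ A then F b else 0)) :=
    hasSum_sum_of_ne_finset_zero (fun b hb => if_neg hb)
  rw [Finset.sum_congr rfl (fun b hb => if_pos hb)] at h
  exact h

private theorem GSumA_hasSum : ∃ c : ℝ, c ≤ 5 ∧ HasSum GSumA_g c := by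
  have h1 := GSumA_ite GSumA_S4 (fun _ => 1)
  have h2 := GSumA_ite GSumA_S5 (fun _ => 1 / 10)
  have h3 := GSumA_ite GSumA_F GSumA_p
  have h4 := hasSum_prod_geom (1 / 10) (by norm_num) (by norm_num)
  have h5 := (h1.add h2).add (h4.sub h3)
  refine ⟨_, ?_, h5⟩
  have c4 : GSumA_S4.card = 4 := by decide
  have c5 : GSumA_S5.card = 4 := by decide
  have cF : ∑ k ∈ GSumA_F, GSumA_p k = 1.44 := by
    unfold GSumA_F GSumA_p
    rw [Finset.sum_product]
    have e : (Finset.Icc (-1) 1 : Finset ℤ) = {-1, 0, 1} := by decide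
    rw [e]
    norm_num [Finset.sum_insert]
  rw [Finset.sum_const, Finset.sum_const, c4, c5, cF]
  norm_num

private def GSumA_F13 : Finset (ℤ × ℤ) :=
  {(0, 0), (0, 1), (0, -1), (1, 0), (-1, 0), (1, 1), (-1, -1), (1, -1), (-1, 1), (2, 1), (-2, -1),
    (1, 2), (-1, -2)}

private theorem GSumA_dec : ∀ b ∈ Finset.Icc (-2 : ℤ) 2, ∀ n ∈ Finset.Icc (-2 : ℤ) 2,
    (b, n) ∉ GSumA_F13 →
      ((b, n) ∈ GSumA_S4 ∧ b.natAbs ^ 2 + n.natAbs ^ 2 = 4) ∨
      ((b, n) ∈ GSumA_S5 ∧ b.natAbs ^ 2 + n.natAbs ^ 2 = 5) ∨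
      4 + (b.natAbs + n.natAbs) ≤ b.natAbs ^ 2 + n.natAbs ^ 2 := by
  decide

/-- pointwise bound outside the finite set -/
private theorem GSumA_pt {Y : ℝ} (h0 : 0 < Y) (h1 : Y ≤ 1 / 10) (b n : ℤ)
    (hex : (b, n) ∉ GSumA_F13) :
    Y ^ (b.natAbs ^ 2 + n.natAbs ^ 2) ≤ Y ^ 4 * GSumA_g (b, n) := by
  have hY4 : 0 < Y ^ 4 := by positivity
  have hp := GSumA_p_nonneg (b, n)
  have hb1 : 0 ≤ GSumA_p (b, n) - (if (b, n) ∈ GSumA_F then GSumA_p (b, n) else 0) := by
    split_ifs <;> linarith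
  have hb2 : (0 : ℝ) ≤ (if (b, n) ∈ GSumA_S4 then 1 else 0) := by positivity
  have hb3 : (0 : ℝ) ≤ (if (b, n) ∈ GSumA_S5 then 1 / 10 else 0) := by positivity
  -- the generic case
  have hgen : 4 + (b.natAbs + n.natAbs) ≤ b.natAbs ^ 2 + n.natAbs ^ 2 →
      Y ^ (b.natAbs ^ 2 + n.natAbs ^ 2) ≤ Y ^ 4 * GSumA_g (b, n) := by
    intro h
    obtain ⟨m, hm⟩ : ∃ m : ℕ, b.natAbs ^ 2 + n.natAbs ^ 2 = 4 + (b.natAbs + n.natAbs) + m :=
      ⟨b.natAbs ^ 2 + n.natAbs ^ 2 - (4 + (b.natAbs + n.natAbs)), by omega⟩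
    have hnF : (b, n) ∉ GSumA_F := by
      intro hF
      unfold GSumA_F at hF
      rw [Finset.mem_product, Finset.mem_Icc, Finset.mem_Icc] at hF
      have h2 : b.natAbs ≤ 1 := by
        have := hF.1
        simp only at this
        omega
      have h3 : n.natAbs ≤ 1 := by
        have := hF.2
        simp only at this
        omega
      have h2' : b.natAbs ^ 2 ≤ b.natAbs := by
        have := Nat.mul_le_mul_left b.natAbs h2
        rw [mul_one, ← pow_two] at this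
        exact this
      have h3' : n.natAbs ^ 2 ≤ n.natAbs := by
        have := Nat.mul_le_mul_left n.natAbs h3
        rw [mul_one, ← pow_two] at this
        exact this
      omega
    have h4 : GSumA_p (b, n) ≤ GSumA_g (b, n) := by
      unfold GSumA_g
      rw [if_neg hnF]
      linarith
    refine le_trans ?_ (mul_le_mul_of_nonneg_left h4 hY4.le)
    rw [hm, pow_add, pow_add, mul_assoc]
    refine mul_le_mul_of_nonneg_left ?_ hY4.le
    have h5 : Y ^ (b.natAbs + n.natAbs) ≤ (1 / 10) ^ (b.natAbs + n.natAbs) :=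
      pow_le_pow_left₀ h0.le h1 _
    have h6 : Y ^ m ≤ 1 := pow_le_one₀ h0.le (by linarith)
    have h7 : GSumA_p (b, n) = (1 / 10) ^ (b.natAbs + n.natAbs) := by
      unfold GSumA_p
      rw [pow_add]
    rw [h7]
    calc Y ^ (b.natAbs + n.natAbs) * Y ^ m ≤ (1 / 10) ^ (b.natAbs + n.natAbs) * 1 :=
          mul_le_mul h5 h6 (by positivity) (by positivity)
      _ = _ := mul_one _
  by_cases hb : b.natAbs ≤ 2 ∧ n.natAbs ≤ 2
  · have hd := GSumA_dec b (by rw [Finset.mem_Icc]; omega) n (by rw [Finset.mem_Icc]; omega) hex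
    rcases hd with ⟨hm, he⟩ | ⟨hm, he⟩ | h
    · rw [he]
      have h4 : 1 ≤ GSumA_g (b, n) := by
        unfold GSumA_g
        rw [if_pos hm]
        linarith
      nlinarith
    · rw [he]
      have h4 : 1 / 10 ≤ GSumA_g (b, n) := by
        unfold GSumA_g
        rw [if_pos hm]
        linarith
      rw [pow_succ]
      exact mul_le_mul_of_nonneg_left (h1.trans h4) hY4.le
    · exact hgen h
  · apply hgen
    rcases Nat.lt_or_ge 2 b.natAbs with h | h
    · nlinarith [Nat.le_self_pow (two_ne_zero) n.natAbs]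
    · have h' : 2 < n.natAbs := by
        by_contra hcon
        exact hb ⟨h, by omega⟩
      nlinarith [Nat.le_self_pow (two_ne_zero) b.natAbs]

private def GSumA_dbl (k : ℤ × ℤ) : ℤ × ℤ := (2 * k.1, 2 * k.2)

private theorem GSumA_dbl_inj : Function.Injective GSumA_dbl := by
  intro k l h
  unfold GSumA_dbl at h
  rw [Prod.mk.injEq] at h
  ext <;> omega

private def GSumA_e : ℤ × ℤ ≃ ℤ × ℤ where
  toFun k := (k.2, k.1 + k.2)
  invFun l := (l.2 - l.1, l.1)
  left_inv k := by ext <;> simp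
  right_inv l := by ext <;> simp

private noncomputable def GSumA_m2 : ℤ × ℤ → ℝ :=
  Function.extend GSumA_dbl (fun k => GSumA_g (GSumA_e k)) 0

private theorem GSumA_m2_hasSum : ∃ c : ℝ, c ≤ 5 ∧ HasSum GSumA_m2 c := by
  obtain ⟨c, hc, h⟩ := GSumA_hasSum
  refine ⟨c, hc, ?_⟩
  unfold GSumA_m2
  rw [hasSum_extend_zero GSumA_dbl_inj]
  exact (GSumA_e.hasSum_iff (f := GSumA_g)).2 h

private theorem GSumA_m2_nonneg (k : ℤ × ℤ) : 0 ≤ GSumA_m2 k := by
  unfold GSumA_m2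
  by_cases h : ∃ a, GSumA_dbl a = k
  · obtain ⟨a, rfl⟩ := h
    rw [GSumA_dbl_inj.extend_apply]
    exact GSumA_g_nonneg _
  · rw [Function.extend_apply' _ _ _ h]
    exact le_rfl

private theorem GSumA_cc_neg (A B C : ℝ) (k : ℤ × ℤ) : cc A B C (-k.1, -k.2) = cc A B C k := by
  unfold cc
  congr 1
  push_cast
  ring

private theorem GSumA_cc_dbl (A B C : ℝ) (a b : ℤ) :
    cc A B C (2 * a, 2 * b) = cc A B C (a, b) ^ 4 := by
  unfold cc
  rw [← Real.exp_nat_mul]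
  congr 1
  push_cast
  ring

private theorem GSumA_notW {k : ℤ × ℤ} (hk : GSumA_dbl k ∉ GSumA_W) :
    GSumA_e k ∉ GSumA_F13 := by
  intro h
  apply hk
  have h1 : ∀ l ∈ GSumA_F13, GSumA_dbl (GSumA_e.symm l) ∈ GSumA_W := by
    decide
  have h2 := h1 _ h
  rw [Equiv.symm_apply_apply] at h2
  exact h2

/-- Upper bound of `∑ sig(k) cc(fA, fB, fC) k`: among the negative terms (not both coordinates
even) keep `± u_i`, `± v_i`; the positive terms are `k = 2k'` : `k' = 0`, `± u_i`, `± v_i` and the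
rest, at most `5 Y⁴`, `Y = exp(-4 f A2) ≤ 1/10` (use `4E(k') ≥ 4 A1 b² + 4 A2 n²`, `b = k'.2`,
`n = k'.1 + k'.2`; the pairs `(b,n)` of `0, ± u_i, ± v_i` are `(0,0)`, `±(0,1)`, `±(1,0)`,
`±(1,1)`, `±(1,-1)`, `±(2,1)`, `±(1,2)`). -/
theorem GA_sum {f A1 A2 A3 : ℝ} (hf : 0 < f) (h12 : A2 ≤ A1) (h23 : A3 ≤ A2) (h3 : 0 ≤ A3)
    (h2 : 0 < A2) (hs : Summable (cc (f * A3) (f * A1) (f * A2)))
    (hY : Real.exp (-(4 * f * A2)) ≤ 1 / 10) :
    ∑' k : ℤ × ℤ, (sig k : ℝ) * cc (f * A3) (f * A1) (f * A2) k ≤ 1 - GAv f A1 A2 A3 := by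
  classical
  set C : ℤ × ℤ → ℝ := cc (f * A3) (f * A1) (f * A2) with hC
  set Y := Real.exp (-(4 * f * A2)) with hYd
  have hY0 : 0 < Y := Real.exp_pos _
  have hC0 : ∀ k, 0 < C k := fun k => by rw [hC]; exact Real.exp_pos _
  obtain ⟨c, hc, hm2⟩ := GSumA_m2_hasSum
  have hm1 := GSumA_ite GSumA_W (fun k => (sig k : ℝ) * C k)
  have hm := hm1.add (hm2.mul_left (Y ^ 4))
  have hsig : Summable (fun k : ℤ × ℤ => (sig k : ℝ) * C k) := by
    refine Summable.of_norm_bounded hs (fun k => ?_)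
    rw [norm_mul, Real.norm_of_nonneg (hC0 k).le]
    have h1 : ‖(sig k : ℝ)‖ = 1 := by
      unfold sig
      split_ifs <;> norm_num
    rw [h1, one_mul]
  have hle : ∀ k, (sig k : ℝ) * C k ≤
      (if k ∈ GSumA_W then (sig k : ℝ) * C k else 0) + Y ^ 4 * GSumA_m2 k := by
    intro k
    have hm2k := GSumA_m2_nonneg k
    have hY4 : 0 < Y ^ 4 := by positivity
    by_cases hW : k ∈ GSumA_W
    · rw [if_pos hW]
      nlinarith
    · rw [if_neg hW, zero_add]
      by_cases hev : Even k.1 ∧ Even k.2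
      · obtain ⟨a, ha⟩ := hev.1
        obtain ⟨b, hb⟩ := hev.2
        have hk : k = GSumA_dbl (a, b) := by
          unfold GSumA_dbl
          ext
          · simp only; omega
          · simp only; omega
        have h13 := GSumA_notW (k := (a, b)) (by rw [← hk]; exact hW)
        have hpt := GSumA_pt hY0 hY b (a + b) h13
        have hs1 : (sig k : ℝ) = 1 := by
          unfold sig
          rw [if_pos hev]
          norm_num
        rw [hs1, one_mul, hk]
        have e1 : GSumA_m2 (GSumA_dbl (a, b)) = GSumA_g (b, a + b) := by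
          unfold GSumA_m2
          rw [GSumA_dbl_inj.extend_apply]
          rfl
        rw [e1]
        refine le_trans ?_ hpt
        rw [hC, hYd, ← Real.exp_nat_mul]
        unfold GSumA_dbl cc
        refine Real.exp_le_exp.2 ?_
        push_cast
        rw [Nat.cast_natAbs, Nat.cast_natAbs, Int.cast_abs, Int.cast_abs, sq_abs, sq_abs]
        push_cast
        have q1 : 0 ≤ f * (A3 * (a : ℝ) ^ 2) := by positivity
        have q2 : 0 ≤ f * ((A1 - A2) * (b : ℝ) ^ 2) := by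
          have : 0 ≤ A1 - A2 := by linarith
          positivity
        nlinarith [q1, q2]
      · have hs1 : (sig k : ℝ) = -1 := by
          unfold sig
          rw [if_neg hev]
          norm_num
        rw [hs1]
        have := hC0 k
        have : 0 ≤ Y ^ 4 * GSumA_m2 k := mul_nonneg hY4.le hm2k
        linarith
  have hmain : ∑' k : ℤ × ℤ, (sig k : ℝ) * C k ≤
      ∑ k ∈ GSumA_W, (sig k : ℝ) * C k + Y ^ 4 * c := by
    rw [← hm.tsum_eq]
    exact hsig.tsum_le_tsum hle hm.summable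
  refine hmain.trans ?_
  -- the values
  set t1 := Real.exp (-(f * (A2 + A3))) with ht1
  set t2 := Real.exp (-(f * (A3 + A1))) with ht2
  set t3 := Real.exp (-(f * (A1 + A2))) with ht3
  set w1 := Real.exp (-(f * (4 * A1 + A2 + A3))) with hw1
  set w2 := Real.exp (-(f * (4 * A2 + A3 + A1))) with hw2
  set w3 := Real.exp (-(f * (4 * A3 + A1 + A2))) with hw3
  have v0 : C (0, 0) = 1 := by rw [hC]; unfold cc; norm_num
  have u1 : C (1, 0) = t1 := by rw [hC, ht1]; unfold cc; congr 1; push_cast; ring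
  have u3 : C (0, 1) = t3 := by rw [hC, ht3]; unfold cc; congr 1; push_cast; ring
  have u2 : C (1, -1) = t2 := by rw [hC, ht2]; unfold cc; congr 1; push_cast; ring
  have x3 : C (2, -1) = w3 := by rw [hC, hw3]; unfold cc; congr 1; push_cast; ring
  have x2 : C (1, 1) = w2 := by rw [hC, hw2]; unfold cc; congr 1; push_cast; ring
  have x1 : C (1, -2) = w1 := by rw [hC, hw1]; unfold cc; congr 1; push_cast; ring
  have hneg : ∀ a b : ℤ, C (-a, -b) = C (a, b) := fun a b => by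
    rw [hC]; exact GSumA_cc_neg _ _ _ (a, b)
  have hdbl : ∀ a b : ℤ, C (2 * a, 2 * b) = C (a, b) ^ 4 := fun a b => by
    rw [hC]; exact GSumA_cc_dbl _ _ _ a b
  have n1 : C (-1, 0) = t1 := by rw [← u1, ← hneg 1 0]; norm_num
  have n3 : C (0, -1) = t3 := by rw [← u3, ← hneg 0 1]; norm_num
  have n2 : C (-1, 1) = t2 := by rw [← u2, ← hneg 1 (-1)]; norm_num
  have y3 : C (-2, 1) = w3 := by rw [← x3, ← hneg 2 (-1)]; norm_num
  have y2 : C (-1, -1) = w2 := by rw [← x2, ← hneg 1 1]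
  have y1 : C (-1, 2) = w1 := by rw [← x1, ← hneg 1 (-2)]; norm_num
  have d1 : C (2, 0) = t1 ^ 4 := by rw [← u1, ← hdbl 1 0]; norm_num
  have d1' : C (-2, 0) = t1 ^ 4 := by rw [← n1, ← hdbl (-1) 0]; norm_num
  have d3 : C (0, 2) = t3 ^ 4 := by rw [← u3, ← hdbl 0 1]; norm_num
  have d3' : C (0, -2) = t3 ^ 4 := by rw [← n3, ← hdbl 0 (-1)]; norm_num
  have d2 : C (2, -2) = t2 ^ 4 := by rw [← u2, ← hdbl 1 (-1)]; norm_num
  have d2' : C (-2, 2) = t2 ^ 4 := by rw [← n2, ← hdbl (-1) 1]; norm_num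
  have z3 : C (4, -2) = w3 ^ 4 := by rw [← x3, ← hdbl 2 (-1)]; norm_num
  have z3' : C (-4, 2) = w3 ^ 4 := by rw [← y3, ← hdbl (-2) 1]; norm_num
  have z2 : C (2, 2) = w2 ^ 4 := by rw [← x2, ← hdbl 1 1]; norm_num
  have z2' : C (-2, -2) = w2 ^ 4 := by rw [← y2, ← hdbl (-1) (-1)]; norm_num
  have z1 : C (2, -4) = w1 ^ 4 := by rw [← x1, ← hdbl 1 (-2)]; norm_num
  have z1' : C (-2, 4) = w1 ^ 4 := by rw [← y1, ← hdbl (-1) 2]; norm_num
  have hsum : ∑ k ∈ GSumA_W, (sig k : ℝ) * C k =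
      1 - 2 * (t1 + t2 + t3) - 2 * (w1 + w2 + w3) + 2 * (t1 ^ 4 + t2 ^ 4 + t3 ^ 4)
        + 2 * (w1 ^ 4 + w2 ^ 4 + w3 ^ 4) := by
    unfold GSumA_W
    repeat rw [Finset.sum_insert (by decide)]
    rw [Finset.sum_singleton]
    rw [v0, u1, u2, u3, n1, n2, n3, x1, x2, x3, y1, y2, y3, d1, d1', d2, d2', d3, d3', z1, z1', z2,
      z2', z3, z3']
    have s0 : ∀ k ∈ ({(0, 0), (2, 0), (-2, 0), (0, 2), (0, -2), (2, -2), (-2, 2), (4, -2),
        (-4, 2), (2, 2), (-2, -2), (2, -4), (-2, 4)} : Finset (ℤ × ℤ)), sig k = 1 := by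
      decide
    have s1 : ∀ k ∈ ({(1, 0), (-1, 0), (0, 1), (0, -1), (1, -1), (-1, 1), (2, -1), (-2, 1),
        (1, 1), (-1, -1), (1, -2), (-1, 2)} : Finset (ℤ × ℤ)), sig k = -1 := by
      decide
    rw [s0 (0, 0) (by decide), s0 (2, 0) (by decide), s0 (-2, 0) (by decide),
      s0 (0, 2) (by decide), s0 (0, -2) (by decide), s0 (2, -2) (by decide),
      s0 (-2, 2) (by decide), s0 (4, -2) (by decide), s0 (-4, 2) (by decide),
      s0 (2, 2) (by decide), s0 (-2, -2) (by decide), s0 (2, -4) (by decide),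
      s0 (-2, 4) (by decide), s1 (1, 0) (by decide), s1 (-1, 0) (by decide),
      s1 (0, 1) (by decide), s1 (0, -1) (by decide), s1 (1, -1) (by decide),
      s1 (-1, 1) (by decide), s1 (2, -1) (by decide), s1 (-2, 1) (by decide),
      s1 (1, 1) (by decide), s1 (-1, -1) (by decide), s1 (1, -2) (by decide),
      s1 (-1, 2) (by decide)]
    push_cast
    ring
  rw [hsum]
  have hG : GAv f A1 A2 A3 = 2 * (t1 + t2 + t3) + 2 * (w1 + w2 + w3)
      - 2 * (t1 ^ 4 + t2 ^ 4 + t3 ^ 4) - 2 * (w1 ^ 4 + w2 ^ 4 + w3 ^ 4) - 5 * Y ^ 4 := rfl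
  rw [hG]
  have hY4 : 0 < Y ^ 4 := by positivity
  nlinarith

end MP7e122f.Num
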