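import Pool.Agent.Lib.MP_7e122f_anR.NumG

open MeasureTheory Complex
open scoped ComplexInnerProductSpace ENNReal ComplexOrder

namespace MP7e122f.Num

open MP7e122f.R

/-- odd part of the one dimensional Gaussian sum -/
private noncomputable def gsb_o (a : ℝ) (b : ℤ) : ℝ :=
  if Odd b then Real.exp (-(a * (b : ℝ) ^ 2)) else 0

/-- the part at `± 1` -/
private noncomputable def gsb_m (a : ℝ) (b : ℤ) : ℝ :=
  if b = 1 ∨ b = -1 then Real.exp (-a) else 0

private lemma gsb_o_nonneg (a : ℝ) (b : ℤ) : 0 ≤ gsb_o a b := by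
  unfold gsb_o
  split_ifs <;> positivity

private lemma gsb_m_nonneg (a : ℝ) (b : ℤ) : 0 ≤ gsb_m a b := by
  unfold gsb_m
  split_ifs <;> positivity

private lemma gsb_m_le (a : ℝ) (b : ℤ) : gsb_m a b ≤ gsb_o a b := by
  unfold gsb_m
  split_ifs with h
  · unfold gsb_o
    rcases h with rfl | rfl
    · simp
    · simp
  · exact gsb_o_nonneg a b

private lemma gsb_o_neg (a : ℝ) (b : ℤ) : gsb_o a (-b) = gsb_o a b := by
  unfold gsb_o
  simp

private lemma gsb_summable (a : ℝ) (ha : 0 < a) : Summable (gsb_o a) := by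
  have h := summable_one a 0 ha
  refine Summable.of_nonneg_of_le (gsb_o_nonneg a) (fun b => ?_) h
  unfold gsb_o
  split_ifs
  · apply le_of_eq
    congr 1
    ring
  · positivity

private lemma gsb_m_hasSum (a : ℝ) : HasSum (gsb_m a) (2 * Real.exp (-a)) := by
  have h : HasSum (gsb_m a) (∑ b ∈ ({1, -1} : Finset ℤ), gsb_m a b) := by
    apply hasSum_sum_of_ne_finset_zero
    intro b hb
    unfold gsb_m
    rw [if_neg]
    simpa using hb
  have e : ∑ b ∈ ({1, -1} : Finset ℤ), gsb_m a b = 2 * Real.exp (-a) := by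
    rw [Finset.sum_pair (by decide)]
    unfold gsb_m
    simp
    ring
  rwa [e] at h

private lemma gsb_o_tsum (a x : ℝ) (ha : 0 < a) (hx : x = Real.exp (-(8 * a))) (hx4 : x ≤ 1 / 4) :
    ∑' b, gsb_o a b ≤ 2 * (Real.exp (-a) * (1 + x + x ^ 3 + 4 / 3 * x ^ 6)) := by
  have hx0 : 0 < x := by rw [hx]; positivity
  have hs := gsb_summable a ha
  have hinj : Function.Injective (fun n : ℕ => (n : ℤ)) := Nat.cast_injective
  have hinj2 : Function.Injective (fun n : ℕ => (-((n : ℤ) + 1))) := by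
    intro m n h
    simp only at h
    omega
  have hs1 : Summable (fun n : ℕ => gsb_o a n) := hs.comp_injective hinj
  have hs2 : Summable (fun n : ℕ => gsb_o a (-((n : ℤ) + 1))) := hs.comp_injective hinj2
  rw [tsum_of_nat_of_neg_add_one hs1 hs2]
  have e1 : ∑' n : ℕ, gsb_o a (-((n : ℤ) + 1)) = ∑' n : ℕ, gsb_o a n := by
    have h0 := hs1.tsum_eq_zero_add
    rw [h0]
    have : gsb_o a ((0 : ℕ) : ℤ) = 0 := by
      unfold gsb_o
      simp
    rw [this, zero_add]
    refine tsum_congr fun n => ?_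
    rw [gsb_o_neg]
    congr 1
  rw [e1]
  have e2 := hs1.sum_add_tsum_nat_add 7
  have e3 : ∑ n ∈ Finset.range 7, gsb_o a (n : ℕ) = Real.exp (-a) * (1 + x + x ^ 3) := by
    have o0 : gsb_o a ((0 : ℕ) : ℤ) = 0 := by
      unfold gsb_o
      simp
    have o1 : gsb_o a ((1 : ℕ) : ℤ) = Real.exp (-a) := by
      unfold gsb_o
      simp
    have o2 : gsb_o a ((2 : ℕ) : ℤ) = 0 := by
      unfold gsb_o
      rw [if_neg (by decide)]
    have o3 : gsb_o a ((3 : ℕ) : ℤ) = Real.exp (-a) * x := by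
      unfold gsb_o
      rw [if_pos (by decide), hx, ← Real.exp_add]
      congr 1
      push_cast
      ring
    have o4 : gsb_o a ((4 : ℕ) : ℤ) = 0 := by
      unfold gsb_o
      rw [if_neg (by decide)]
    have o5 : gsb_o a ((5 : ℕ) : ℤ) = Real.exp (-a) * x ^ 3 := by
      unfold gsb_o
      rw [if_pos (by decide), hx, ← Real.exp_nat_mul, ← Real.exp_add]
      congr 1
      push_cast
      ring
    have o6 : gsb_o a ((6 : ℕ) : ℤ) = 0 := by
      unfold gsb_o
      rw [if_neg (by decide)]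
    simp only [Finset.sum_range_succ, Finset.sum_range_zero]
    rw [o0, o1, o2, o3, o4, o5, o6]
    ring
  have hgeo := (hasSum_geometric_of_lt_one hx0.le (by linarith : x < 1)).mul_left
    (Real.exp (-a) * x ^ 6)
  have hs3 : Summable (fun n : ℕ => gsb_o a ((n + 7 : ℕ) : ℤ)) :=
    hs1.comp_injective (add_left_injective 7)
  have e4 : ∑' n : ℕ, gsb_o a ((n + 7 : ℕ) : ℤ) ≤ Real.exp (-a) * x ^ 6 * (1 - x)⁻¹ := by
    rw [← hgeo.tsum_eq]
    refine hs3.tsum_le_tsum (fun n => ?_) hgeo.summable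
    unfold gsb_o
    split_ifs
    · rw [mul_assoc, ← pow_add, hx, ← Real.exp_nat_mul, ← Real.exp_add]
      apply Real.exp_le_exp.2
      push_cast
      have hn : (0 : ℝ) ≤ n := Nat.cast_nonneg n
      nlinarith [mul_nonneg ha.le (sq_nonneg (n : ℝ)), mul_nonneg ha.le hn]
    · positivity
  have e5 : (1 - x)⁻¹ ≤ 4 / 3 := by
    rw [inv_le_comm₀ (by linarith) (by norm_num)]
    linarith
  have e6 : Real.exp (-a) * x ^ 6 * (1 - x)⁻¹ ≤ Real.exp (-a) * x ^ 6 * (4 / 3) :=
    mul_le_mul_of_nonneg_left e5 (by positivity)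
  have e7 : ∑' n : ℕ, gsb_o a n ≤ Real.exp (-a) * (1 + x + x ^ 3 + 4 / 3 * x ^ 6) := by
    rw [← e2, e3]
    have : Real.exp (-a) * (1 + x + x ^ 3 + 4 / 3 * x ^ 6) =
        Real.exp (-a) * (1 + x + x ^ 3) + Real.exp (-a) * x ^ 6 * (4 / 3) := by ring
    rw [this]
    linarith
  linarith

private lemma gsb_poly (x y : ℝ) (hx0 : 0 ≤ x) (hxy : x ≤ y) (hy : y ≤ 1 / 4) :
    (1 + x + x ^ 3 + 4 / 3 * x ^ 6) * (1 + y + y ^ 3 + 4 / 3 * y ^ 6) - 1 ≤
      2 * y + y ^ 2 + 3 * y ^ 3 := by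
  have hy0 : 0 ≤ y := hx0.trans hxy
  have h3 : x ^ 3 ≤ y ^ 3 := pow_le_pow_left₀ hx0 hxy 3
  have h6 : x ^ 6 ≤ y ^ 6 := pow_le_pow_left₀ hx0 hxy 6
  have hP : 1 + x + x ^ 3 + 4 / 3 * x ^ 6 ≤ 1 + y + y ^ 3 + 4 / 3 * y ^ 6 := by linarith
  have hQ0 : 0 ≤ 1 + y + y ^ 3 + 4 / 3 * y ^ 6 := by positivity
  have h1 := mul_le_mul_of_nonneg_right hP hQ0
  have hy3 : y ^ 3 ≤ 1 / 64 := by
    have := pow_le_pow_left₀ hy0 hy 3
    norm_num at this
    exact this
  have hy30 : 0 ≤ y ^ 3 := by positivity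
  have h2 : 1 + y + y ^ 3 + 4 / 3 * y ^ 6 ≤ 1 + y + 49 / 48 * y ^ 3 := by
    have : y ^ 6 = y ^ 3 * y ^ 3 := by ring
    rw [this]
    nlinarith
  have h4 : (1 + y + y ^ 3 + 4 / 3 * y ^ 6) ^ 2 ≤ (1 + y + 49 / 48 * y ^ 3) ^ 2 :=
    pow_le_pow_left₀ hQ0 h2 2
  have h5 : (1 + y + 49 / 48 * y ^ 3) ^ 2 =
      1 + 2 * y + y ^ 2 + y ^ 3 * (49 / 24 * (1 + y) + (49 / 48) ^ 2 * y ^ 3) := by ring
  have h7 : 49 / 24 * (1 + y) + (49 / 48) ^ 2 * y ^ 3 ≤ 3 := by nlinarith
  have h8 : y ^ 3 * (49 / 24 * (1 + y) + (49 / 48) ^ 2 * y ^ 3) ≤ y ^ 3 * 3 :=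
    mul_le_mul_of_nonneg_left h7 hy30
  nlinarith

/-- change of variables `(k.1, k.2) ↦ (k.2, k.1 + k.2)` -/
private def gsb_e : ℤ × ℤ ≃ ℤ × ℤ where
  toFun k := (k.2, k.1 + k.2)
  invFun k := (k.2 - k.1, k.1)
  left_inv k := by ext <;> simp
  right_inv k := by ext <;> simp

private noncomputable def gsb_R (a a' : ℝ) (q : ℤ × ℤ) : ℝ :=
  gsb_o a q.1 * gsb_o a' q.2 - gsb_m a q.1 * gsb_m a' q.2

private lemma gsb_R_nonneg (a a' : ℝ) (q : ℤ × ℤ) : 0 ≤ gsb_R a a' q := by
  unfold gsb_R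
  have := mul_le_mul (gsb_m_le a q.1) (gsb_m_le a' q.2) (gsb_m_nonneg a' q.2) (gsb_o_nonneg a q.1)
  linarith

private lemma gsb_R_hasSum (a a' : ℝ) (ha : 0 < a) (ha' : 0 < a') :
    HasSum (gsb_R a a') ((∑' b, gsb_o a b) * (∑' b, gsb_o a' b) -
      2 * Real.exp (-a) * (2 * Real.exp (-a'))) := by
  have h1 := (gsb_summable a ha).hasSum.mul (gsb_summable a' ha').hasSum
    ((gsb_summable a ha).mul_of_nonneg (gsb_summable a' ha') (gsb_o_nonneg a) (gsb_o_nonneg a'))
  have h2 := (gsb_m_hasSum a).mul (gsb_m_hasSum a')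
    ((gsb_m_hasSum a).summable.mul_of_nonneg (gsb_m_hasSum a').summable
      (gsb_m_nonneg a) (gsb_m_nonneg a'))
  exact h1.sub h2

private def gsb_P : Finset (ℤ × ℤ) :=
  {(0, 0), (1, 0), (-1, 0), (-1, 1), (1, -1), (-1, 2), (1, -2), (-1, -1), (1, 1), (2, 0), (-2, 0),
    (-2, 2), (2, -2)}

private def gsb_N : Finset (ℤ × ℤ) := {(0, 1), (0, -1), (2, -1), (-2, 1)}

private lemma gsb_P_sig : ∀ k ∈ gsb_P, sigB k = 1 := by decide

private lemma gsb_N_sig : ∀ k ∈ gsb_N, sigB k = -1 := by decide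

private lemma gsb_PN : ∀ k ∈ gsb_P, k ∉ gsb_N := by decide

private lemma gsb_sig_cases (k : ℤ × ℤ) : sigB k = 1 ∨ (sigB k = -1 ∧ Even k.1 ∧ Odd k.2) := by
  unfold sigB
  split_ifs with h
  · right
    exact ⟨rfl, h.1, Int.not_even_iff_odd.1 h.2⟩
  · left
    rfl

private lemma gsb_point {f A1 A2 A3 : ℝ} (hf : 0 < f) (h3 : 0 ≤ A3) (k : ℤ × ℤ) :
    (if k ∈ gsb_P then cc (f * A3) (f * A1) (f * A2) k else 0) -
      (if k ∈ gsb_N then cc (f * A3) (f * A1) (f * A2) k else 0) -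
      gsb_R (f * A1) (f * A2) (gsb_e k) ≤
      (sigB k : ℝ) * cc (f * A3) (f * A1) (f * A2) k := by
  have hR := gsb_R_nonneg (f * A1) (f * A2) (gsb_e k)
  have hc : 0 < cc (f * A3) (f * A1) (f * A2) k := by
    unfold cc
    positivity
  by_cases hP : k ∈ gsb_P
  · rw [if_pos hP, if_neg (gsb_PN k hP), gsb_P_sig k hP]
    push_cast
    linarith
  · rw [if_neg hP]
    by_cases hN : k ∈ gsb_N
    · rw [if_pos hN, gsb_N_sig k hN]
      push_cast
      linarith
    · rw [if_neg hN]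
      rcases gsb_sig_cases k with h | ⟨h, he, ho⟩
      · rw [h]
        push_cast
        linarith
      · rw [h]
        have hm : gsb_m (f * A1) (gsb_e k).1 * gsb_m (f * A2) (gsb_e k).2 = 0 := by
          by_contra hne
          have h1 : gsb_m (f * A1) (gsb_e k).1 ≠ 0 := left_ne_zero_of_mul hne
          have h2 : gsb_m (f * A2) (gsb_e k).2 ≠ 0 := right_ne_zero_of_mul hne
          unfold gsb_m at h1 h2
          rw [ne_eq, ite_eq_right_iff, not_forall] at h1 h2
          obtain ⟨g1, -⟩ := h1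
          obtain ⟨g2, -⟩ := h2
          obtain ⟨i, j⟩ := k
          simp only [gsb_e, Equiv.coe_fn_mk] at g1 g2
          apply hN
          rcases g1 with rfl | rfl <;> rcases g2 with g2 | g2
          · have : i = 0 := by omega
            subst this
            decide
          · have : i = -2 := by omega
            subst this
            decide
          · have : i = 2 := by omega
            subst this
            decide
          · have : i = 0 := by omega
            subst this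
            decide
        have ho2 : Odd (gsb_e k).2 := by
          simp only [gsb_e, Equiv.coe_fn_mk]
          exact he.add_odd ho
        have ho1 : Odd (gsb_e k).1 := ho
        have e : gsb_R (f * A1) (f * A2) (gsb_e k) =
            Real.exp (-(f * A1 * ((k.2 : ℤ) : ℝ) ^ 2)) *
              Real.exp (-(f * A2 * ((k.1 + k.2 : ℤ) : ℝ) ^ 2)) := by
          unfold gsb_R
          rw [hm, sub_zero]
          unfold gsb_o
          rw [if_pos ho1, if_pos ho2]
          rfl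
        have hle : cc (f * A3) (f * A1) (f * A2) k ≤ gsb_R (f * A1) (f * A2) (gsb_e k) := by
          rw [e, ← Real.exp_add]
          unfold cc
          apply Real.exp_le_exp.2
          push_cast
          have : 0 ≤ f * A3 * (k.1 : ℝ) ^ 2 := by positivity
          linarith
        push_cast
        linarith

/-- Lower bound of `∑ sigB(k) cc(fA, fB, fC) k`, sorted case: `A = A3`, `B = A1`, `C = A2`,
`E(k) = A3 k1² + A1 k2² + A2 (k1+k2)²`.  Positive terms: keep `0`, `± u1, ± u2, ± v1, ± v2`,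
`± 2u1, ± 2u2`.  Negative terms are exactly the `k` with `k.1` even, `k.2` odd; put `b = k.2`,
`n = k.1 + k.2` (both odd, any pair of odd numbers occurs): `E ≥ A1 b² + A2 n²`; the pairs
`b, n = ±1` are `± u3, ± v3`; the others contribute at most
`4 e^{-f(A1+A2)} ((1 + X1 + X1³ + ⋯)(1 + X2 + X2³ + ⋯) - 1)`, `X_i = exp(-8 f A_i)`, exponents
`(n² - 1)/8` triangular numbers, `X1 ≤ X2 = X ≤ 1/4`, so at most
`4 e^{-f(A1+A2)} (2X + X² + 3X³)`. -/
theorem GB_sum {f A1 A2 A3 : ℝ} (hf : 0 < f) (h12 : A2 ≤ A1) (h23 : A3 ≤ A2) (h3 : 0 ≤ A3)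
    (h2 : 0 < A2) (hs : Summable (cc (f * A3) (f * A1) (f * A2)))
    (hX : Real.exp (-(8 * f * A2)) ≤ 1 / 4) :
    1 + GBv f A1 A2 A3 ≤ ∑' k : ℤ × ℤ, (sigB k : ℝ) * cc (f * A3) (f * A1) (f * A2) k := by
  have h1 : 0 < A1 := lt_of_lt_of_le h2 h12
  have ha1 : 0 < f * A1 := mul_pos hf h1
  have ha2 : 0 < f * A2 := mul_pos hf h2
  set c : ℤ × ℤ → ℝ := cc (f * A3) (f * A1) (f * A2) with hc
  have hP : HasSum (fun k => if k ∈ gsb_P then c k else 0) (∑ k ∈ gsb_P, c k) := by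
    have h : HasSum (fun k => if k ∈ gsb_P then c k else 0)
        (∑ k ∈ gsb_P, (if k ∈ gsb_P then c k else 0)) :=
      hasSum_sum_of_ne_finset_zero (fun b hb => if_neg hb)
    rwa [Finset.sum_congr rfl (fun k hk => if_pos hk)] at h
  have hN : HasSum (fun k => if k ∈ gsb_N then c k else 0) (∑ k ∈ gsb_N, c k) := by
    have h : HasSum (fun k => if k ∈ gsb_N then c k else 0)
        (∑ k ∈ gsb_N, (if k ∈ gsb_N then c k else 0)) :=
      hasSum_sum_of_ne_finset_zero (fun b hb => if_neg hb)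
    rwa [Finset.sum_congr rfl (fun k hk => if_pos hk)] at h
  have hR := gsb_R_hasSum (f * A1) (f * A2) ha1 ha2
  have hR' : HasSum (fun k => gsb_R (f * A1) (f * A2) (gsb_e k))
      ((∑' b, gsb_o (f * A1) b) * (∑' b, gsb_o (f * A2) b) -
      2 * Real.exp (-(f * A1)) * (2 * Real.exp (-(f * A2)))) := (gsb_e.hasSum_iff).2 hR
  have hsig : Summable (fun k : ℤ × ℤ => (sigB k : ℝ) * c k) := by
    refine Summable.of_norm_bounded hs (fun k => ?_)
    rw [norm_mul, Real.norm_eq_abs, Real.norm_eq_abs]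
    have hc0 : 0 ≤ c k := by
      rw [hc]
      unfold cc
      positivity
    rw [abs_of_nonneg hc0]
    have : |(sigB k : ℝ)| = 1 := by
      rcases gsb_sig_cases k with h | ⟨h, -⟩ <;> rw [h] <;> simp
    rw [this, one_mul]
  have hmain := hasSum_le (fun k => gsb_point (A1 := A1) (A2 := A2) hf h3 k)
    ((hP.sub hN).sub hR') hsig.hasSum
  refine le_trans ?_ hmain
  -- the products of the one dimensional sums
  set X := Real.exp (-(8 * f * A2)) with hXd
  set x := Real.exp (-(8 * (f * A1))) with hxd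
  have hx0 : 0 ≤ x := by positivity
  have hxX : x ≤ X := by
    rw [hxd, hXd]
    apply Real.exp_le_exp.2
    nlinarith [mul_le_mul_of_nonneg_left h12 hf.le]
  have o1 := gsb_o_tsum (f * A1) x ha1 rfl (hxX.trans hX)
  have o2 := gsb_o_tsum (f * A2) X ha2 (by rw [hXd]; congr 1; ring) hX
  have o10 : 0 ≤ ∑' b, gsb_o (f * A1) b := tsum_nonneg (gsb_o_nonneg _)
  have o20 : 0 ≤ ∑' b, gsb_o (f * A2) b := tsum_nonneg (gsb_o_nonneg _)
  have hprod : (∑' b, gsb_o (f * A1) b) * (∑' b, gsb_o (f * A2) b) ≤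
      2 * (Real.exp (-(f * A1)) * (1 + x + x ^ 3 + 4 / 3 * x ^ 6)) *
      (2 * (Real.exp (-(f * A2)) * (1 + X + X ^ 3 + 4 / 3 * X ^ 6))) :=
    mul_le_mul o1 o2 o20 (by positivity)
  have hT : Real.exp (-(f * A1)) * Real.exp (-(f * A2)) = Real.exp (-(f * (A1 + A2))) := by
    rw [← Real.exp_add]
    congr 1
    ring
  have hpoly := gsb_poly x X hx0 hxX hX
  have hT0 : 0 < Real.exp (-(f * (A1 + A2))) := by positivity
  have hRle : (∑' b, gsb_o (f * A1) b) * (∑' b, gsb_o (f * A2) b) -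
      2 * Real.exp (-(f * A1)) * (2 * Real.exp (-(f * A2))) ≤
      4 * (Real.exp (-(f * (A1 + A2))) * (2 * X + X ^ 2 + 3 * X ^ 3)) := by
    have e1 : 2 * (Real.exp (-(f * A1)) * (1 + x + x ^ 3 + 4 / 3 * x ^ 6)) *
        (2 * (Real.exp (-(f * A2)) * (1 + X + X ^ 3 + 4 / 3 * X ^ 6))) =
        4 * (Real.exp (-(f * (A1 + A2))) * ((1 + x + x ^ 3 + 4 / 3 * x ^ 6) *
          (1 + X + X ^ 3 + 4 / 3 * X ^ 6))) := by
      rw [← hT]
      ring
    have e2 : 2 * Real.exp (-(f * A1)) * (2 * Real.exp (-(f * A2))) =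
        4 * Real.exp (-(f * (A1 + A2))) := by
      rw [← hT]
      ring
    rw [e1] at hprod
    rw [e2]
    nlinarith [mul_le_mul_of_nonneg_left hpoly hT0.le]
  have cv : ∀ (i j : ℤ) (v : ℝ), f * A3 * (i : ℝ) ^ 2 + f * A1 * (j : ℝ) ^ 2 +
      f * A2 * ((i : ℝ) + j) ^ 2 = v → c (i, j) = Real.exp (-v) := by
    intro i j v h
    rw [hc, ← h]
    unfold cc
    rfl
  have p4 : ∀ v : ℝ, Real.exp (-v) ^ 4 = Real.exp (-(4 * v)) := by
    intro v
    rw [← Real.exp_nat_mul]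
    congr 1
    push_cast
    ring
  have c0 : c (0, 0) = 1 := by
    rw [cv 0 0 0 (by push_cast; ring)]
    simp
  have c1 : c (1, 0) = Real.exp (-(f * (A2 + A3))) := cv _ _ _ (by push_cast; ring)
  have c1' : c (-1, 0) = Real.exp (-(f * (A2 + A3))) := cv _ _ _ (by push_cast; ring)
  have c2 : c (-1, 1) = Real.exp (-(f * (A3 + A1))) := cv _ _ _ (by push_cast; ring)
  have c2' : c (1, -1) = Real.exp (-(f * (A3 + A1))) := cv _ _ _ (by push_cast; ring)
  have c3 : c (0, 1) = Real.exp (-(f * (A1 + A2))) := cv _ _ _ (by push_cast; ring)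
  have c3' : c (0, -1) = Real.exp (-(f * (A1 + A2))) := cv _ _ _ (by push_cast; ring)
  have d1 : c (-1, 2) = Real.exp (-(f * (4 * A1 + A2 + A3))) := cv _ _ _ (by push_cast; ring)
  have d1' : c (1, -2) = Real.exp (-(f * (4 * A1 + A2 + A3))) := cv _ _ _ (by push_cast; ring)
  have d2 : c (-1, -1) = Real.exp (-(f * (4 * A2 + A3 + A1))) := cv _ _ _ (by push_cast; ring)
  have d2' : c (1, 1) = Real.exp (-(f * (4 * A2 + A3 + A1))) := cv _ _ _ (by push_cast; ring)
  have d3 : c (2, -1) = Real.exp (-(f * (4 * A3 + A1 + A2))) := cv _ _ _ (by push_cast; ring)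
  have d3' : c (-2, 1) = Real.exp (-(f * (4 * A3 + A1 + A2))) := cv _ _ _ (by push_cast; ring)
  have g1 : c (2, 0) = Real.exp (-(f * (A2 + A3))) ^ 4 := by
    rw [p4]
    exact cv _ _ _ (by push_cast; ring)
  have g1' : c (-2, 0) = Real.exp (-(f * (A2 + A3))) ^ 4 := by
    rw [p4]
    exact cv _ _ _ (by push_cast; ring)
  have g2 : c (-2, 2) = Real.exp (-(f * (A3 + A1))) ^ 4 := by
    rw [p4]
    exact cv _ _ _ (by push_cast; ring)
  have g2' : c (2, -2) = Real.exp (-(f * (A3 + A1))) ^ 4 := by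
    rw [p4]
    exact cv _ _ _ (by push_cast; ring)
  have sP : ∑ k ∈ gsb_P, c k = 1 + 2 * Real.exp (-(f * (A2 + A3))) +
      2 * Real.exp (-(f * (A3 + A1))) + 2 * Real.exp (-(f * (4 * A1 + A2 + A3))) +
      2 * Real.exp (-(f * (4 * A2 + A3 + A1))) + 2 * Real.exp (-(f * (A2 + A3))) ^ 4 +
      2 * Real.exp (-(f * (A3 + A1))) ^ 4 := by
    unfold gsb_P
    rw [Finset.sum_insert (by decide), Finset.sum_insert (by decide),
      Finset.sum_insert (by decide), Finset.sum_insert (by decide),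
      Finset.sum_insert (by decide), Finset.sum_insert (by decide),
      Finset.sum_insert (by decide), Finset.sum_insert (by decide),
      Finset.sum_insert (by decide), Finset.sum_insert (by decide),
      Finset.sum_insert (by decide), Finset.sum_insert (by decide), Finset.sum_singleton,
      c0, c1, c1', c2, c2', d1, d1', d2, d2', g1, g1', g2, g2']
    ring
  have sN : ∑ k ∈ gsb_N, c k = 2 * Real.exp (-(f * (A1 + A2))) +
      2 * Real.exp (-(f * (4 * A3 + A1 + A2))) := by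
    unfold gsb_N
    rw [Finset.sum_insert (by decide), Finset.sum_insert (by decide),
      Finset.sum_insert (by decide), Finset.sum_singleton, c3, c3', d3, d3']
    ring
  rw [sP, sN]
  unfold GBv
  rw [← hXd]
  linarith

end MP7e122f.Num
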