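import Pool.Agent.Lib.MP_7e122f_anR.GTest
import Pool.Agent.Lib.MP_7e122f_anR.GSumA
import Pool.Agent.Lib.MP_7e122f_anR.GSumB

/-!
# The Gaussian test sums, bounded by finitely many terms
-/

open MeasureTheory Complex
open scoped ComplexInnerProductSpace ENNReal ComplexOrder

namespace MP7e122f.Num

open MP7e122f.R

private lemma GSum_summable {A1 A2 A3 f : ℝ} (M : Mat) (hM : 0 < M.det)
    (hw : ∀ k, wt M k = cc A3 A1 A2 k) (h12 : A2 ≤ A1) (h23 : A3 ≤ A2) (h3 : 0 ≤ A3)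
    (hf : 1 ≤ f) : Summable (cc (f * A3) (f * A1) (f * A2)) := by
  have s1 := summable_cc A3 A1 A2 M hM hw
  refine Summable.of_nonneg_of_le (fun k => (Real.exp_pos _).le) (fun k => ?_) s1
  unfold cc
  rw [Real.exp_le_exp]
  have h0 : 0 ≤ A3 * (k.1 : ℝ) ^ 2 + A1 * (k.2 : ℝ) ^ 2 + A2 * ((k.1 : ℝ) + k.2) ^ 2 := by
    have h2 : 0 ≤ A2 := h3.trans h23
    have h1 : 0 ≤ A1 := h2.trans h12
    positivity
  nlinarith

private lemma GSum_pos {y A1 A2 A3 : ℝ} (hy : 0 < y)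
    (hdet : A1 * A2 + A2 * A3 + A3 * A1 = 3 * y ^ 2)
    (h23 : A3 ≤ A2) (h3 : 0 ≤ A3) : 0 < A2 := by
  by_contra hcon
  have h1 : A2 = 0 := le_antisymm (not_lt.1 hcon) (h3.trans h23)
  have h2 : A3 = 0 := le_antisymm (h23.trans h1.le) h3
  rw [h1, h2] at hdet
  have : 0 < y ^ 2 := by positivity
  linarith

private lemma GSum_y {δ y : ℝ} (hδ : 1 < δ) (hy : y = Real.pi * δ / (2 * Real.sqrt 3)) :
    0 < y ∧ Real.pi / (2 * Real.sqrt 3 * (1 / δ)) = y := by
  have h1 := Real.pi_pos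
  have h2 : 0 < Real.sqrt 3 := by positivity
  have h3 : 0 < δ := by linarith
  constructor
  · rw [hy]; positivity
  · rw [hy]; field_simp

/-- conclusion for the upper bound: `GB_test`, `AB+BC+CA = 3y²`, `y = π/(2√3 det M)` -/
theorem GB_bval {δ y A1 A2 A3 f : ℝ} (hδ : 1 < δ) (hy : y = Real.pi * δ / (2 * Real.sqrt 3))
    (hf : f = 2 - 1 / δ) (M : Mat) (hM : 0 < M.det) (hMd : M.det = 1 / δ)
    (hw : ∀ k, wt M k = cc A3 A1 A2 k) (hdet : A1 * A2 + A2 * A3 + A3 * A1 = 3 * y ^ 2)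
    (h12 : A2 ≤ A1) (h23 : A3 ≤ A2) (h3 : 0 ≤ A3)
    (hX : Real.exp (-(8 * f * A2)) ≤ 1 / 4) : 1 + GBv f A1 A2 A3 ≤ bval M := by
  obtain ⟨hy0, hyd⟩ := GSum_y hδ hy
  have h2 := GSum_pos hy0 hdet h23 h3
  have hδ1 : 1 / δ < 1 := by
    rw [div_lt_one (by linarith)]; exact hδ
  have hδ0 : 0 < 1 / δ := by
    have : 0 < δ := by linarith
    positivity
  have hf1 : 1 ≤ f := by linarith
  have hs := GSum_summable M hM hw h12 h23 h3 hf1
  refine (GB_sum (by linarith) h12 h23 h3 h2 hs hX).trans ?_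
  refine GB_test M hM (by rw [hMd]; exact hδ1) h3 (by linarith) (by linarith) hw ?_ f
    (by rw [hMd]; exact hf)
  rw [hMd, hyd, ← hdet]
  ring

theorem GA_aval {δ y A1 A2 A3 f : ℝ} (hδ : 1 < δ) (hy : y = Real.pi * δ / (2 * Real.sqrt 3))
    (hf : f = 2 - 1 / δ) (M : Mat) (hM : 0 < M.det) (hMd : M.det = 1 / δ)
    (hw : ∀ k, wt M k = cc A3 A1 A2 k) (hdet : A1 * A2 + A2 * A3 + A3 * A1 = 3 * y ^ 2)
    (h12 : A2 ≤ A1) (h23 : A3 ≤ A2) (h3 : 0 ≤ A3)
    (hY : Real.exp (-(4 * f * A2)) ≤ 1 / 10) : aval M ≤ 1 - GAv f A1 A2 A3 := by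
  obtain ⟨hy0, hyd⟩ := GSum_y hδ hy
  have h2 := GSum_pos hy0 hdet h23 h3
  have hδ1 : 1 / δ < 1 := by
    rw [div_lt_one (by linarith)]; exact hδ
  have hδ0 : 0 < 1 / δ := by
    have : 0 < δ := by linarith
    positivity
  have hf1 : 1 ≤ f := by linarith
  have hs := GSum_summable M hM hw h12 h23 h3 hf1
  refine le_trans ?_ (GA_sum (by linarith) h12 h23 h3 h2 hs hY)
  refine GA_test M hM (by rw [hMd]; exact hδ1) h3 (by linarith) (by linarith) hw ?_ f
    (by rw [hMd]; exact hf)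
  rw [hMd, hyd, ← hdet]
  ring

private lemma GSum_line {A1 A2 A3 : ℝ} (M : Mat) (hM : 0 < M.det)
    (hw : ∀ k, wt M k = cc A3 A1 A2 k) (θ : ℝ) :
    aval M ≤ F1 (A2 + A3) θ ∧ F1 (A2 + A3) θ ≤ bval M := by
  have hQ : Real.pi / 2 * Qf M (1, 0) = A2 + A3 := by
    have := hw (1, 0)
    unfold wt cc at this
    have h2 := Real.exp_injective this
    norm_num at h2
    linarith
  have := line_test M hM θ
  rwa [hQ] at this

/-- one dimensional tests: `E1 = A2 + A3` -/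
theorem line_upper {A1 A2 A3 : ℝ} (M : Mat) (hM : 0 < M.det) (hw : ∀ k, wt M k = cc A3 A1 A2 k)
    (h : 0 < A2 + A3) : 1 + 2 * Real.exp (-(A2 + A3)) ≤ bval M :=
  (F1_zero_lower (A2 + A3) h).trans (GSum_line M hM hw 0).2

private lemma GSum_phi {x X hb : ℝ} (hX0 : 0 < X) (hX2 : X ≤ 0.135) (hXx : X ≤ x) (hx : x ≤ 0.61)
    (hv : hb < 2 * X - 2 * X ^ 4 / (1 - X)) (hb2 : hb ≤ 0.5) :
    hb < 2 * x - 2 * x ^ 4 / (1 - x) := by
  have h1x : 0 < 1 - x := by linarith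
  have h1X : 0 < 1 - X := by linarith
  rcases le_or_gt x 0.4 with h | h
  · have key : x ^ 4 / (1 - x) - X ^ 4 / (1 - X) ≤ x - X := by
      rw [div_sub_div _ _ h1x.ne' h1X.ne', div_le_iff₀ (mul_pos h1x h1X)]
      have e : x ^ 4 * (1 - X) - (1 - x) * X ^ 4 =
          (x - X) * ((x + X) * (x ^ 2 + X ^ 2) - x * X * (x ^ 2 + x * X + X ^ 2)) := by ring
      rw [e]
      refine mul_le_mul_of_nonneg_left ?_ (by linarith)
      have hx0 : 0 < x := by linarith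
      have a1 : (x + X) * (x ^ 2 + X ^ 2) ≤ (0.4 + 0.135) * (0.4 ^ 2 + 0.135 ^ 2) := by
        gcongr
      have a2 : 0 ≤ x * X * (x ^ 2 + x * X + X ^ 2) := by positivity
      have a3 : (1 - 0.4) * (1 - 0.135) ≤ (1 - x) * (1 - X) :=
        mul_le_mul (by linarith) (by linarith) (by norm_num) h1x.le
      norm_num at a1 a3
      linarith
    have e1 : 2 * x ^ 4 / (1 - x) = 2 * (x ^ 4 / (1 - x)) := by ring
    have e2 : 2 * X ^ 4 / (1 - X) = 2 * (X ^ 4 / (1 - X)) := by ring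
    rw [e1]
    rw [e2] at hv
    linarith
  · have hp : x ^ 4 < (x - 0.25) * (1 - x) := by
      have b1 : 0 ≤ (x - 0.4) * (0.61 - x) := mul_nonneg (by linarith) (by linarith)
      have b2 : 0 ≤ (x - 0.4) * (0.61 - x) * x := mul_nonneg b1 (by linarith)
      have b3 : 0 ≤ (x - 0.4) * (0.61 - x) * x ^ 2 := mul_nonneg b1 (by positivity)
      nlinarith
    have h2 : 2 * x ^ 4 / (1 - x) < 2 * (x - 0.25) := by
      rw [div_lt_iff₀ h1x]
      linarith
    linarith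

/-- `exists_scale`, `exists_dup_pow`, `F1_pi_upper` as in `far_compare`; `x - x⁴/(1-x)` is
concave, so its minimum on `[min(e^{-e}, e^{-2}), 0.61]` is at an end point -/
theorem line_lower {A1 A2 A3 e X hb : ℝ} (M : Mat) (hM : 0 < M.det)
    (hw : ∀ k, wt M k = cc A3 A1 A2 k) (h : 0 < A2 + A3) (he : A2 + A3 ≤ e)
    (hX0 : 0 < X) (hX1 : X ≤ Real.exp (-e)) (hX2 : X ≤ 0.135)
    (hv : hb < 2 * X - 2 * X ^ 4 / (1 - X)) (hb2 : hb ≤ 0.5) : aval M < 1 - hb := by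
  obtain ⟨n, hn1, hn2⟩ := exists_scale (A2 + A3) h (1 / 2) (by norm_num)
  obtain ⟨θ, hθ⟩ := exists_dup_pow n (A2 + A3) h Real.pi
  have hb' := F1_pi_upper (4 ^ n * (A2 + A3)) (by positivity) _ rfl
  set x := Real.exp (-(4 ^ n * (A2 + A3))) with hx
  have hx1 : x ≤ 0.61 := by
    refine le_trans ?_ num_half.2
    rw [hx, Real.exp_le_exp]; linarith
  have hXx : X ≤ x := by
    rcases hn2 with rfl | hn2
    · refine hX1.trans ?_
      rw [hx, Real.exp_le_exp]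
      simpa using he
    · have h5 : Real.exp (-2) ≤ x := by
        rw [hx, Real.exp_le_exp]; linarith
      have h6 : (0.135 : ℝ) ≤ Real.exp (-2) := by
        have e1 := Real.exp_one_lt_d9
        have e2 : Real.exp (-2) * (Real.exp 1 * Real.exp 1) = 1 := by
          rw [← Real.exp_add, ← Real.exp_add]; norm_num
        have e3 : Real.exp 1 * Real.exp 1 ≤ 2.7182818286 * 2.7182818286 :=
          mul_le_mul e1.le e1.le (Real.exp_pos _).le (by norm_num)
        by_contra hcon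
        push Not at hcon
        have e4 : Real.exp (-2) * (Real.exp 1 * Real.exp 1) ≤
            0.135 * (2.7182818286 * 2.7182818286) :=
          mul_le_mul hcon.le e3 (by positivity) (by norm_num)
        rw [e2] at e4
        norm_num at e4
      linarith
  have hphi := GSum_phi hX0 hX2 hXx hx1 hv hb2
  have h7 := (GSum_line M hM hw θ).1
  linarith

end MP7e122f.Num
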