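import Pool.Agent.Lib.MP_7e122f_anR.TPDb

/-!
Test values for the hexagonal lattice.  `H` has weights `cc y y y k = exp(-2 y N(k))`,
`y = πδ/(2√3)`, `δ = 1/det H`, `N = Nf`.  Product states (`TPD.mul`): a state of flux `δ₀`
(`δ₀ = 1, 2, 3/2`, values `ψ₀`), times a hexagonal Gaussian of flux `δ - δ₀`,
`P = (2|δ-δ₀|/√3) (1, 1/2, 1)`, whose values are `exp(-(π/√3)|δ-δ₀| N(k))`
(`tpd_gauss'`), times a character (`tpd_char`) for the value `cos(2π(k.1 - k.2)/3)`.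
So the test value is `∑ ψ₀(k) cos(..) T^N(k)` with `T = exp(-(π/√3)(δ + |δ-δ₀|))`.
The shells: `N=1` (6 vectors, `S1`), `3` (6, `S3`), `4` (6, `S4`), `7` (12), `9` (6), `12` (6), ...
`cos(2π(k.1-k.2)/3)` is `-1/2` on the shells `1, 4, 7` and `1` on the shells `3, 9, 12`
(it is `1` iff `3 ∣ k.1 - k.2` iff `3 ∣ N`).
-/

open MeasureTheory Complex
open scoped ComplexInnerProductSpace ENNReal ComplexOrder

namespace MP7e122f.R

/-- the common argument, for any real state of flux `1` -/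
private lemma GTest_adm (M : Mat) (hM : 0 < M.det) (hδ : M.det < 1) {A B C : ℝ} (hA : 0 ≤ A)
    (_hB : 0 ≤ B) (hC : 0 ≤ C)
    (hABC : A * B + B * C + C * A = 3 * (Real.pi / (2 * Real.sqrt 3 * M.det)) ^ 2)
    (s : ℤ × ℤ → ℤ) (hs : TPD 1 (fun k => ((s k : ℤ) : ℂ))) (hs0 : s (0, 0) = 1) :
    Adm M.det (fun k => (s k : ℝ) * Real.exp (-(1 - M.det) *
      (A * (k.1 : ℝ) ^ 2 + B * (k.2 : ℝ) ^ 2 + C * ((k.1 : ℝ) + k.2) ^ 2))) := by
  set D := M.det with hD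
  have hpi := Real.pi_pos
  have h3 : 0 < Real.sqrt 3 := by positivity
  have h33 : Real.sqrt 3 ^ 2 = 3 := Real.sq_sqrt (by norm_num)
  have hpos : 0 < A * B + B * C + C * A := by rw [hABC]; positivity
  have hAC : 0 < A + C := by
    by_contra hcon
    have h1 : A = 0 := by linarith
    have h2 : C = 0 := by linarith
    rw [h1, h2] at hpos
    simp at hpos
  set g := 1 - D with hg
  have hg0 : 0 < g := by linarith
  set P : ℝ × ℝ × ℝ := (2 / Real.pi * g * (A + C), 2 / Real.pi * g * C, 2 / Real.pi * g * (B + C))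
    with hP
  have hP0 : 0 < P.1 := by
    simp only [hP]; positivity
  have hη : 0 < 1 / D - 1 := by
    have : 1 < 1 / D := by rw [lt_div_iff₀ hM]; linarith
    linarith
  have hdet : P.1 * P.2.2 - P.2.1 ^ 2 = (1 / D - 1) ^ 2 := by
    have e : P.1 * P.2.2 - P.2.1 ^ 2 = (2 / Real.pi * g) ^ 2 * (A * B + B * C + C * A) := by
      simp only [hP]; ring
    rw [e, hABC, hg]
    field_simp
    rw [h33]
  have hG := tpd_gauss (1 / D - 1) hη P hP0 hdet
  have hT := hs.mul hG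
  have hfl : 1 + (1 / D - 1) = 1 / D := by ring
  rw [hfl] at hT
  have hD0 : 0 < 1 / D := by positivity
  have hAdm := TPD.adm hD0 (ψ := fun k => (s k : ℝ) * Real.exp (-(1 - D) *
      (A * (k.1 : ℝ) ^ 2 + B * (k.2 : ℝ) ^ 2 + C * ((k.1 : ℝ) + k.2) ^ 2))) ?_ ?_
  · rw [one_div_one_div] at hAdm
    exact hAdm
  · convert hT using 2 with k
    have e : -(1 - D) * (A * (k.1 : ℝ) ^ 2 + B * (k.2 : ℝ) ^ 2 + C * ((k.1 : ℝ) + k.2) ^ 2) =
        -(Real.pi / 2) * qf P (cst k) := by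
      simp only [hP, qf, cst, hg]
      field_simp
      ring
    rw [e]
    push_cast
    ring
  · simp [hs0]

private lemma GTest_prod (M : Mat) {A B C : ℝ} (hw : ∀ k, wt M k = cc A B C k)
    (f : ℝ) (hf : f = 2 - M.det) (s : ℤ × ℤ → ℤ) :
    (fun k : ℤ × ℤ => wt M k * ((s k : ℝ) * Real.exp (-(1 - M.det) *
      (A * (k.1 : ℝ) ^ 2 + B * (k.2 : ℝ) ^ 2 + C * ((k.1 : ℝ) + k.2) ^ 2)))) =
    fun k => (s k : ℝ) * cc (f * A) (f * B) (f * C) k := by
  funext k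
  rw [hw k, mul_left_comm]
  congr 1
  unfold cc
  rw [← Real.exp_add, hf]
  congr 1
  ring

private lemma GTest_sig0 : sig (0, 0) = 1 := by decide
private lemma GTest_sigB0 : sigB (0, 0) = 1 := by decide

/-- the Gaussian of flux `δ - 1` with the shape of `M` itself, times `sig` -/
theorem GA_test (M : Mat) (hM : 0 < M.det) (hδ : M.det < 1) {A B C : ℝ} (hA : 0 ≤ A) (hB : 0 ≤ B)
    (hC : 0 ≤ C) (hw : ∀ k, wt M k = cc A B C k)
    (hABC : A * B + B * C + C * A = 3 * (Real.pi / (2 * Real.sqrt 3 * M.det)) ^ 2)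
    (f : ℝ) (hf : f = 2 - M.det) :
    aval M ≤ ∑' k : ℤ × ℤ, (sig k : ℝ) * cc (f * A) (f * B) (f * C) k := by
  have h := ((GTest_adm M hM hδ hA hB hC hABC sig tpd_sig GTest_sig0).2 M hM rfl).1
  rwa [GTest_prod M hw f hf sig] at h

/-- the same with `sigB` -/
theorem GB_test (M : Mat) (hM : 0 < M.det) (hδ : M.det < 1) {A B C : ℝ} (hA : 0 ≤ A) (hB : 0 ≤ B)
    (hC : 0 ≤ C) (hw : ∀ k, wt M k = cc A B C k)
    (hABC : A * B + B * C + C * A = 3 * (Real.pi / (2 * Real.sqrt 3 * M.det)) ^ 2)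
    (f : ℝ) (hf : f = 2 - M.det) :
    ∑' k : ℤ × ℤ, (sigB k : ℝ) * cc (f * A) (f * B) (f * C) k ≤ bval M := by
  have h := ((GTest_adm M hM hδ hA hB hC hABC sigB tpd_sigB GTest_sigB0).2 M hM rfl).2
  rwa [GTest_prod M hw f hf sigB] at h

end MP7e122f.R
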