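import Pool.Agent.Lib.MP_7e122f_anR.Defs

/-!
# The Gaussian test for the lower bound in the degenerate region: Jacobi's transformation

`Gq s A1 A2 A3 = ∑ sig(k) exp(-s E(k))`, `E(k) = A3 k1² + A1 k2² + A2 (k1+k2)²`, normalised by
`A1 A2 + A2 A3 + A3 A1 = π²/4`.  `E1 = A2 + A3 = E(1,0)`, `a = π²/(4 E1)`.
-/

namespace MP7e122f.R

noncomputable section

def Gq (s A1 A2 A3 : ℝ) : ℝ := ∑' k : ℤ × ℤ, (sig k : ℝ) * cc (s * A3) (s * A1) (s * A2) k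

/-- the terms of the dual sum -/
def Dj (a s e P : ℝ) : ℝ :=
  Real.exp (-(a * (s * e ^ 2 + P ^ 2 / s))) - Real.exp (-(a * (s * P ^ 2 + e ^ 2 / s)))

/-- the majorant; `e = 2 k.1` even, `P = 2 k.2 + 1` odd -/
def JU (a s : ℝ) : ℝ :=
  Real.sqrt (4 * a / (Real.pi * s)) * ∑' k : ℤ × ℤ, |Dj a s (2 * k.1) (2 * k.2 + 1)|

def qj (u : ℝ) : ℝ := (u - 3 / 2) * Real.exp (-u)

/-- the monotonicity criterion -/
def PsiJ (a τ : ℝ) : ℝ :=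
  2 * (qj (a / τ) / τ ^ 2 + qj (a * τ))
  + 4 * ((4 / τ ^ 2 - 1) * qj (a * (τ + 4 / τ)) + (4 - 1 / τ ^ 2) * qj (a * (4 * τ + 1 / τ)))

/-- upper bound of `sinh v / v` for `0 < v ≤ 2` -/
def shp (v : ℝ) : ℝ := 1 + v ^ 2 / 6 + v ^ 4 / 100

end

end MP7e122f.R
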