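import Pool.Agent.Lib.MP_7e122f_anR.JPois

namespace MP7e122f.R

open Finset

/-- geometric factors -/
private noncomputable def UA (k : ℤ) : ℝ := (1 / 16 : ℝ) ^ k.natAbs
private noncomputable def VA (k : ℤ) : ℝ :=
  if 2 ≤ k then (1 / 16 : ℝ) ^ (k - 2).toNat else if k ≤ -3 then (1 / 16 : ℝ) ^ (-3 - k).toNat else 0
private noncomputable def UB (k : ℤ) : ℝ :=
  if 2 ≤ k.natAbs then (1 / 256 : ℝ) ^ (k.natAbs - 2) else 0
private noncomputable def VB (k : ℤ) : ℝ :=
  if k = 0 ∨ k = -1 then 1 / 16 else if k = 1 ∨ k = -2 then 1 else 0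

private theorem geo16 : HasSum (fun n : ℕ => (1 / 16 : ℝ) ^ n) (16 / 15) := by
  have := hasSum_geometric_of_lt_one (r := (1 / 16 : ℝ)) (by norm_num) (by norm_num)
  norm_num at this ⊢
  exact this

private theorem geo256 : HasSum (fun n : ℕ => (1 / 256 : ℝ) ^ n) (256 / 255) := by
  have := hasSum_geometric_of_lt_one (r := (1 / 256 : ℝ)) (by norm_num) (by norm_num)
  norm_num at this ⊢
  exact this

private theorem hasSum_UA : HasSum UA (17 / 15) := by
  have h1 : HasSum (fun n : ℕ => UA n) (16 / 15) := by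
    refine geo16.congr_fun fun n => ?_
    unfold UA
    simp
  have h2 : HasSum (fun n : ℕ => UA (-(n + 1 : ℤ))) (1 / 15) := by
    have h3 := geo16.mul_left (1 / 16)
    have h4 : (1 / 16 : ℝ) * (16 / 15) = 1 / 15 := by norm_num
    rw [h4] at h3
    refine h3.congr_fun fun n => ?_
    unfold UA
    have : (-(n + 1 : ℤ)).natAbs = n + 1 := by omega
    rw [this, pow_succ]
    ring
  have h3 := HasSum.of_nat_of_neg_add_one h1 h2
  have h4 : (16 / 15 : ℝ) + 1 / 15 = 17 / 15 := by norm_num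
  rwa [h4] at h3

private theorem hasSum_VA : HasSum VA (32 / 15) := by
  have hz : ∀ c : ℕ → ℝ, (∀ n, c (n + 2) = (1 / 16 : ℝ) ^ n) → c 0 = 0 → c 1 = 0 →
      HasSum c (16 / 15) := by
    intro c h1 h2 h3
    have h4 : HasSum (fun n => c (n + 2)) (16 / 15) := geo16.congr_fun h1
    have h5 := (hasSum_nat_add_iff 2).1 h4
    rw [Finset.sum_range_succ, Finset.sum_range_succ, Finset.sum_range_zero, h2, h3] at h5
    simpa using h5
  have h1 : HasSum (fun n : ℕ => VA n) (16 / 15) := by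
    apply hz
    · intro n
      unfold VA
      have h2 : (2 : ℤ) ≤ ((n + 2 : ℕ) : ℤ) := by push_cast; omega
      have h3 : (((n + 2 : ℕ) : ℤ) - 2).toNat = n := by push_cast; omega
      rw [if_pos h2, h3]
    · unfold VA; simp
    · unfold VA; simp
  have h2 : HasSum (fun n : ℕ => VA (-(n + 1 : ℤ))) (16 / 15) := by
    apply hz
    · intro n
      unfold VA
      have h2 : ¬ (2 : ℤ) ≤ (-(((n + 2 : ℕ) : ℤ) + 1)) := by push_cast; omega
      have h3 : (-(((n + 2 : ℕ) : ℤ) + 1)) ≤ -3 := by push_cast; omega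
      have h4 : (-3 - (-(((n + 2 : ℕ) : ℤ) + 1))).toNat = n := by push_cast; omega
      rw [if_neg h2, if_pos h3, h4]
    · unfold VA; norm_num
    · unfold VA; norm_num
  have h3 := HasSum.of_nat_of_neg_add_one h1 h2
  have h4 : (16 / 15 : ℝ) + 16 / 15 = 32 / 15 := by norm_num
  rwa [h4] at h3

private theorem hasSum_UB : HasSum UB (512 / 255) := by
  have h1 : HasSum (fun n : ℕ => UB n) (256 / 255) := by
    have h4 : HasSum (fun n : ℕ => UB ((n + 2 : ℕ) : ℤ)) (256 / 255) := by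
      refine geo256.congr_fun fun n => ?_
      unfold UB
      have h2 : (((n + 2 : ℕ) : ℤ)).natAbs = n + 2 := by omega
      rw [h2, if_pos (by omega)]
      congr 1
    have h5 := (hasSum_nat_add_iff (f := fun n : ℕ => UB n) 2).1 h4
    rw [Finset.sum_range_succ, Finset.sum_range_succ, Finset.sum_range_zero] at h5
    have h6 : UB ((0 : ℕ) : ℤ) = 0 := by unfold UB; simp
    have h7 : UB ((1 : ℕ) : ℤ) = 0 := by unfold UB; simp
    rw [h6, h7] at h5
    simpa using h5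
  have h2 : HasSum (fun n : ℕ => UB (-(n + 1 : ℤ))) (256 / 255) := by
    have h4 : HasSum (fun n : ℕ => UB (-(((n + 1 : ℕ) : ℤ) + 1))) (256 / 255) := by
      refine geo256.congr_fun fun n => ?_
      unfold UB
      have h2 : (-(((n + 1 : ℕ) : ℤ) + 1)).natAbs = n + 2 := by omega
      rw [h2, if_pos (by omega)]
      congr 1
    have h5 := (hasSum_nat_add_iff (f := fun n : ℕ => UB (-(n + 1 : ℤ))) 1).1 h4
    rw [Finset.sum_range_succ, Finset.sum_range_zero] at h5
    have h6 : UB (-(((0 : ℕ) : ℤ) + 1)) = 0 := by unfold UB; simp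
    rw [h6] at h5
    simpa using h5
  have h3 := HasSum.of_nat_of_neg_add_one h1 h2
  have h4 : (256 / 255 : ℝ) + 256 / 255 = 512 / 255 := by norm_num
  rwa [h4] at h3

private theorem hasSum_VB : HasSum VB (17 / 8) := by
  have h1 : HasSum VB (∑ k ∈ ({-2, -1, 0, 1} : Finset ℤ), VB k) := by
    apply hasSum_sum_of_ne_finset_zero
    intro k hk
    simp only [Finset.mem_insert, Finset.mem_singleton, not_or] at hk
    unfold VB
    rw [if_neg (by omega), if_neg (by omega)]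
  have h2 : ∑ k ∈ ({-2, -1, 0, 1} : Finset ℤ), VB k = 17 / 8 := by
    unfold VB
    rw [Finset.sum_insert (by decide), Finset.sum_insert (by decide), Finset.sum_insert (by decide),
      Finset.sum_singleton]
    norm_num
  rwa [h2] at h1

private noncomputable def WW (k : ℤ × ℤ) : ℝ := UA k.1 * VA k.2 + UB k.1 * VB k.2

private theorem UA_nonneg (k : ℤ) : 0 ≤ UA k := by unfold UA; positivity
private theorem VA_nonneg (k : ℤ) : 0 ≤ VA k := by unfold VA; split_ifs <;> positivity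
private theorem UB_nonneg (k : ℤ) : 0 ≤ UB k := by unfold UB; split_ifs <;> positivity
private theorem VB_nonneg (k : ℤ) : 0 ≤ VB k := by unfold VB; split_ifs <;> positivity

private theorem hasSum_WW : HasSum WW (17 / 15 * (32 / 15) + 512 / 255 * (17 / 8)) := by
  unfold WW
  exact (hasSum_UA.mul hasSum_VA (hasSum_UA.summable.mul_of_nonneg hasSum_VA.summable
      UA_nonneg VA_nonneg)).add
    (hasSum_UB.mul hasSum_VB (hasSum_UB.summable.mul_of_nonneg hasSum_VB.summable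
      UB_nonneg VB_nonneg))

private theorem WW_nonneg (k : ℤ × ℤ) : 0 ≤ WW k :=
  add_nonneg (mul_nonneg (UA_nonneg _) (VA_nonneg _)) (mul_nonneg (UB_nonneg _) (VB_nonneg _))

/-- the 16 explicit terms -/
private def SS : Finset (ℤ × ℤ) :=
  (({-2, -1, 0, 1, 2} : Finset ℤ) ×ˢ ({-1, 0} : Finset ℤ)) ∪
    (({-1, 0, 1} : Finset ℤ) ×ˢ ({-2, 1} : Finset ℤ))

private theorem not_mem_SS {k : ℤ × ℤ} (hk : k ∉ SS) : 6 ≤ k.1 ^ 2 + k.2 ^ 2 + k.2 := by
  obtain ⟨m, n⟩ := k
  by_contra hcon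
  push Not at hcon
  simp only at hcon
  apply hk
  have hn : 0 ≤ n ^ 2 + n := by
    rcases le_or_gt 0 n with h | h
    · positivity
    · nlinarith
  have hm1 : -3 < m := by nlinarith
  have hm2 : m < 3 := by nlinarith
  have hn1 : -3 < n := by nlinarith [sq_nonneg m]
  have hn2 : n < 2 := by nlinarith [sq_nonneg m]
  interval_cases m <;> interval_cases n <;> first | decide | (exfalso; revert hcon; norm_num)

/-- the exponent of the tail -/
private def NN (k : ℤ × ℤ) : ℕ := (k.1 ^ 2 + k.2 ^ 2 + k.2 - 6).toNat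

private theorem NN_cast {k : ℤ × ℤ} (hk : k ∉ SS) :
    ((2 * (k.1 : ℝ)) ^ 2 + (2 * (k.2 : ℝ) + 1) ^ 2) = 25 + 4 * (NN k : ℝ) := by
  have h1 := not_mem_SS hk
  have h2 : ((NN k : ℕ) : ℤ) = k.1 ^ 2 + k.2 ^ 2 + k.2 - 6 := by
    unfold NN
    rw [Int.toNat_of_nonneg (by linarith)]
  have h3 : ((NN k : ℕ) : ℝ) = (k.1 : ℝ) ^ 2 + (k.2 : ℝ) ^ 2 + k.2 - 6 := by
    exact_mod_cast h2
  rw [h3]
  ring

private theorem le_WW {k : ℤ × ℤ} (hk : k ∉ SS) : (1 / 16 : ℝ) ^ NN k ≤ WW k := by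
  have h1 := not_mem_SS hk
  have h2 : ((NN k : ℕ) : ℤ) = k.1 ^ 2 + k.2 ^ 2 + k.2 - 6 := by
    unfold NN
    rw [Int.toNat_of_nonneg (by linarith)]
  obtain ⟨m, n⟩ := k
  simp only at h1 h2
  set N := NN (m, n) with hN
  have hm : ((m.natAbs : ℕ) : ℤ) = |m| := Int.natCast_natAbs m
  have hm2 : |m| ^ 2 = m ^ 2 := sq_abs m
  have hm0 : 0 ≤ |m| := abs_nonneg m
  unfold WW
  simp only
  by_cases hn2 : 2 ≤ n
  · -- far rows, upper
    have h3 : VA n = (1 / 16 : ℝ) ^ (n - 2).toNat := by unfold VA; rw [if_pos hn2]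
    have h4 : m.natAbs + (n - 2).toNat ≤ N := by
      zify
      rw [Int.toNat_of_nonneg (by linarith), h2, ← hm2]
      have h5 := Int.le_self_sq |m|
      nlinarith
    calc (1 / 16 : ℝ) ^ N ≤ (1 / 16 : ℝ) ^ (m.natAbs + (n - 2).toNat) :=
          pow_le_pow_of_le_one (by norm_num) (by norm_num) h4
      _ = UA m * VA n := by rw [h3, pow_add]; rfl
      _ ≤ UA m * VA n + UB m * VB n :=
          le_add_of_nonneg_right (mul_nonneg (UB_nonneg _) (VB_nonneg _))
  by_cases hn3 : n ≤ -3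
  · have h3 : VA n = (1 / 16 : ℝ) ^ (-3 - n).toNat := by unfold VA; rw [if_neg hn2, if_pos hn3]
    have h4 : m.natAbs + (-3 - n).toNat ≤ N := by
      zify
      rw [Int.toNat_of_nonneg (by linarith), h2, ← hm2]
      have h5 := Int.le_self_sq |m|
      nlinarith
    calc (1 / 16 : ℝ) ^ N ≤ (1 / 16 : ℝ) ^ (m.natAbs + (-3 - n).toNat) :=
          pow_le_pow_of_le_one (by norm_num) (by norm_num) h4
      _ = UA m * VA n := by rw [h3, pow_add]; rfl
      _ ≤ UA m * VA n + UB m * VB n :=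
          le_add_of_nonneg_right (mul_nonneg (UB_nonneg _) (VB_nonneg _))
  have hVA : 0 ≤ UA m * VA n := mul_nonneg (UA_nonneg _) (VA_nonneg _)
  have h256 : ∀ j : ℕ, (1 / 256 : ℝ) ^ j = (1 / 16 : ℝ) ^ (2 * j) := by
    intro j
    rw [pow_mul]
    norm_num
  by_cases hn4 : n = 0 ∨ n = -1
  · have h5 : n ^ 2 + n = 0 := by rcases hn4 with h | h <;> rw [h] <;> norm_num
    have h6 : 3 ≤ |m| := by
      by_contra hcon
      push Not at hcon
      have : |m| ≤ 2 := by linarith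
      nlinarith
    have h7 : 3 ≤ m.natAbs := by zify; exact h6
    have h4 : 2 * (m.natAbs - 2) + 1 ≤ N := by
      zify [show 2 ≤ m.natAbs by omega]
      rw [h2, ← hm2]
      nlinarith
    have h8 : UB m * VB n = (1 / 16 : ℝ) ^ (2 * (m.natAbs - 2) + 1) := by
      unfold UB VB
      rw [if_pos (by omega), if_pos hn4, h256, pow_succ]
    calc (1 / 16 : ℝ) ^ N ≤ (1 / 16 : ℝ) ^ (2 * (m.natAbs - 2) + 1) :=
          pow_le_pow_of_le_one (by norm_num) (by norm_num) h4
      _ = UB m * VB n := h8.symm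
      _ ≤ UA m * VA n + UB m * VB n := le_add_of_nonneg_left hVA
  · have hn5 : n = 1 ∨ n = -2 := by omega
    have h5 : n ^ 2 + n = 2 := by rcases hn5 with h | h <;> rw [h] <;> norm_num
    have h6 : 2 ≤ |m| := by
      by_contra hcon
      push Not at hcon
      have : |m| ≤ 1 := by linarith
      nlinarith
    have h7 : 2 ≤ m.natAbs := by zify; exact h6
    have h4 : 2 * (m.natAbs - 2) ≤ N := by
      zify [h7]
      rw [h2, ← hm2]
      nlinarith
    have h8 : UB m * VB n = (1 / 16 : ℝ) ^ (2 * (m.natAbs - 2)) := by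
      unfold UB VB
      rw [if_pos (by omega), if_neg hn4, if_pos hn5, h256, mul_one]
    calc (1 / 16 : ℝ) ^ N ≤ (1 / 16 : ℝ) ^ (2 * (m.natAbs - 2)) :=
          pow_le_pow_of_le_one (by norm_num) (by norm_num) h4
      _ = UB m * VB n := h8.symm
      _ ≤ UA m * VA n + UB m * VB n := le_add_of_nonneg_left hVA

/-- Comparison of a sum over `ℤ²` with the 16 explicit terms and the tail. -/
private theorem tsum_le_of_tail (f : ℤ × ℤ → ℝ) (hf : ∀ k, 0 ≤ f k) (C : ℝ) (hC : 0 ≤ C)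
    (h : ∀ k, k ∉ SS → f k ≤ C * (1 / 16 : ℝ) ^ NN k) :
    ∑' k, f k ≤ ∑ k ∈ SS, f k + C * 8 := by
  classical
  have h1 : HasSum (fun k => if k ∈ SS then f k else 0) (∑ k ∈ SS, f k) := by
    have h2 : ∑ k ∈ SS, f k = ∑ k ∈ SS, (if k ∈ SS then f k else 0) :=
      Finset.sum_congr rfl fun k hk => by rw [if_pos hk]
    rw [h2]
    apply hasSum_sum_of_ne_finset_zero
    intro k hk
    rw [if_neg hk]
  have h2 := h1.add (hasSum_WW.mul_left C)
  have h3 : ∀ k, f k ≤ (if k ∈ SS then f k else 0) + C * WW k := by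
    intro k
    by_cases hk : k ∈ SS
    · rw [if_pos hk]
      exact le_add_of_nonneg_right (mul_nonneg hC (WW_nonneg k))
    · rw [if_neg hk, zero_add]
      exact (h k hk).trans (mul_le_mul_of_nonneg_left (le_WW hk) hC)
  have hs : Summable f := Summable.of_nonneg_of_le hf h3 h2.summable
  have h4 := hasSum_le h3 hs.hasSum h2
  refine h4.trans ?_
  have : C * (17 / 15 * (32 / 15) + 512 / 255 * (17 / 8)) ≤ C * 8 :=
    mul_le_mul_of_nonneg_left (by norm_num) hC
  linarith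

/-- the term as a function of the squares -/
private noncomputable def FF (a s E P : ℝ) : ℝ :=
  |Real.exp (-(a * (s * E + P / s))) - Real.exp (-(a * (s * P + E / s)))|

private theorem Dj_eq_FF (a s e P : ℝ) : |Dj a s e P| = FF a s (e ^ 2) (P ^ 2) := rfl

private theorem sum_SS (a s : ℝ) :
    ∑ k ∈ SS, |Dj a s (2 * (k.1 : ℝ)) (2 * (k.2 : ℝ) + 1)| =
      2 * FF a s 0 1 + 4 * FF a s 4 1 + 4 * FF a s 16 1 + 2 * FF a s 0 9 + 4 * FF a s 4 9 := by
  simp only [Dj_eq_FF]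
  unfold SS
  rw [Finset.sum_union (by decide), Finset.sum_product, Finset.sum_product]
  rw [Finset.sum_insert (by decide), Finset.sum_insert (by decide), Finset.sum_insert (by decide),
    Finset.sum_insert (by decide), Finset.sum_singleton, Finset.sum_insert (by decide),
    Finset.sum_insert (by decide), Finset.sum_singleton]
  simp only [Finset.sum_insert (show (-1 : ℤ) ∉ ({0} : Finset ℤ) by decide),
    Finset.sum_insert (show (-2 : ℤ) ∉ ({1} : Finset ℤ) by decide), Finset.sum_singleton]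
  norm_num
  ring

private theorem inv_facts {s : ℝ} (hs1 : 1 ≤ s) : 0 < s ∧ 1 / s ≤ s ∧ 0 < 1 / s ∧ s * (1 / s) = 1 := by
  have h0 : 0 < s := by linarith
  refine ⟨h0, ?_, by positivity, by field_simp⟩
  rw [div_le_iff₀ h0]
  nlinarith

private theorem abs_exp_sub_le {X Y Z : ℝ} (hX : Z ≤ X) (hY : Z ≤ Y) :
    |Real.exp (-X) - Real.exp (-Y)| ≤ Real.exp (-Z) := by
  have h1 : Real.exp (-X) ≤ Real.exp (-Z) := Real.exp_le_exp.2 (by linarith)
  have h2 : Real.exp (-Y) ≤ Real.exp (-Z) := Real.exp_le_exp.2 (by linarith)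
  have h3 := Real.exp_pos (-X)
  have h4 := Real.exp_pos (-Y)
  rw [abs_le]
  constructor <;> linarith

private theorem exp_sub_le {X Y : ℝ} : Real.exp (-X) - Real.exp (-Y) ≤ (Y - X) * Real.exp (-X) := by
  have h1 := Real.add_one_le_exp (X - Y)
  have h2 : Real.exp (-Y) = Real.exp (-X) * Real.exp (X - Y) := by
    rw [← Real.exp_add]; congr 1; ring
  have h3 := Real.exp_pos (-X)
  rw [h2]
  nlinarith

private theorem abs_exp_sub_le' {X Y Z : ℝ} (hX : Z ≤ X) (hY : Z ≤ Y) :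
    |Real.exp (-X) - Real.exp (-Y)| ≤ |Y - X| * Real.exp (-Z) := by
  have h1 : Real.exp (-X) ≤ Real.exp (-Z) := Real.exp_le_exp.2 (by linarith)
  have h2 : Real.exp (-Y) ≤ Real.exp (-Z) := Real.exp_le_exp.2 (by linarith)
  rcases le_total X Y with h | h
  · rw [abs_of_nonneg (sub_nonneg.2 (Real.exp_le_exp.2 (by linarith))),
      abs_of_nonneg (sub_nonneg.2 h)]
    exact exp_sub_le.trans (mul_le_mul_of_nonneg_left h1 (sub_nonneg.2 h))
  · rw [abs_sub_comm, abs_sub_comm Y X,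
      abs_of_nonneg (sub_nonneg.2 (Real.exp_le_exp.2 (by linarith))),
      abs_of_nonneg (sub_nonneg.2 h)]
    exact exp_sub_le.trans (mul_le_mul_of_nonneg_left h2 (sub_nonneg.2 h))

private theorem exp_three : Real.exp (-3) ≤ 1 / 20 := by
  have h1 := Real.exp_one_gt_d9
  have h2 : Real.exp 3 = Real.exp 1 ^ 3 := by rw [← Real.exp_nat_mul]; norm_num
  have h3 : (20 : ℝ) ≤ Real.exp 3 := by
    rw [h2]
    have : (2.7182818283 : ℝ) ^ 3 ≤ Real.exp 1 ^ 3 := by gcongr
    refine le_trans ?_ this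
    norm_num
  rw [Real.exp_neg]
  rw [inv_eq_one_div]
  exact one_div_le_one_div_of_le (by norm_num) h3

/-- `q^(e²+P²) = q^25 (q^4)^N` -/
private theorem exp_split (a s : ℝ) (N : ℕ) :
    Real.exp (-((a / s) * (25 + 4 * (N : ℝ)))) =
      Real.exp (-(25 * (a / s))) * Real.exp (-(4 * (a / s))) ^ N := by
  rw [← Real.exp_nat_mul, ← Real.exp_add]
  congr 1
  ring

private theorem mins {a s E P : ℝ} (ha : 0 ≤ a) (hs1 : 1 ≤ s) (hE : 0 ≤ E) (hP : 0 ≤ P) :
    (a / s) * (E + P) ≤ a * (s * E + P / s) ∧ (a / s) * (E + P) ≤ a * (s * P + E / s) := by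
  obtain ⟨h0, h1, h2, h3⟩ := inv_facts hs1
  have e1 : (a / s) * (E + P) = a * ((1 / s) * E + P / s) := by ring
  have e2 : (a / s) * (E + P) = a * ((1 / s) * P + E / s) := by ring
  constructor
  · rw [e1]
    gcongr
  · rw [e2]
    gcongr

/-- Finite upper bound.  The remaining terms satisfy `|Dj| ≤ q^(e²+P²)`, `q = e^{-a/s} ≤ 1/2`,
`e² + P² ≥ 25`; `∑ q^(e²+P²) ≤ 8 q^25` (6 terms with 25, 4 with 29, 4 with 37, ...). -/
theorem JU_le {a s : ℝ} (ha : 1.4 ≤ a) (hs1 : 1 ≤ s) (hs2 : s ≤ 1.8) :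
    JU a s ≤ Real.sqrt (4 * a / (Real.pi * s)) *
      (2 * (Real.exp (-(a / s)) - Real.exp (-(a * s)))
        + 4 * (Real.exp (-(a * (s + 4 / s))) - Real.exp (-(a * (4 * s + 1 / s))))
        + 2 * Real.exp (-(9 * (a / s))) + 4 * Real.exp (-(a * (s + 16 / s)))
        + 4 * Real.exp (-(12 * a)) + 8 * Real.exp (-(25 * (a / s)))) := by
  unfold JU
  apply mul_le_mul_of_nonneg_left _ (Real.sqrt_nonneg _)
  have ha0 : 0 ≤ a := by norm_num at ha; linarith
  obtain ⟨h0, h1, h2, h3⟩ := inv_facts hs1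
  have has : 3 ≤ 4 * (a / s) := by
    rw [← mul_div_assoc, le_div_iff₀ h0]
    norm_num at ha hs2 ⊢
    linarith
  have hx : Real.exp (-(4 * (a / s))) ≤ 1 / 16 :=
    ((Real.exp_le_exp.2 (by linarith)).trans exp_three).trans (by norm_num)
  have htail : ∀ k : ℤ × ℤ, k ∉ SS → |Dj a s (2 * (k.1 : ℝ)) (2 * (k.2 : ℝ) + 1)| ≤
      Real.exp (-(25 * (a / s))) * (1 / 16 : ℝ) ^ NN k := by
    intro k hk
    have hm := mins (E := (2 * (k.1 : ℝ)) ^ 2) (P := (2 * (k.2 : ℝ) + 1) ^ 2) ha0 hs1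
      (sq_nonneg _) (sq_nonneg _)
    rw [NN_cast hk] at hm
    refine (abs_exp_sub_le hm.1 hm.2).trans ?_
    rw [exp_split]
    apply mul_le_mul_of_nonneg_left _ (Real.exp_pos _).le
    exact pow_le_pow_left₀ (Real.exp_pos _).le hx _
  refine (tsum_le_of_tail _ (fun k => abs_nonneg _) _ (Real.exp_pos _).le htail).trans ?_
  rw [sum_SS]
  have t1 : FF a s 0 1 = Real.exp (-(a / s)) - Real.exp (-(a * s)) := by
    unfold FF
    have e1 : a * (s * 0 + 1 / s) = a / s := by ring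
    have e2 : a * (s * 1 + 0 / s) = a * s := by ring
    rw [e1, e2, abs_of_nonneg]
    rw [sub_nonneg]
    apply Real.exp_le_exp.2
    have : a / s ≤ a * s := by
      rw [div_eq_mul_one_div]
      exact mul_le_mul_of_nonneg_left h1 ha0
    linarith
  have t2 : FF a s 4 1 = Real.exp (-(a * (s + 4 / s))) - Real.exp (-(a * (4 * s + 1 / s))) := by
    unfold FF
    have e1 : a * (s * 4 + 1 / s) = a * (4 * s + 1 / s) := by ring
    have e2 : a * (s * 1 + 4 / s) = a * (s + 4 / s) := by ring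
    rw [e1, e2, abs_sub_comm, abs_of_nonneg]
    rw [sub_nonneg]
    apply Real.exp_le_exp.2
    have : a * (s + 4 / s) ≤ a * (4 * s + 1 / s) := by
      apply mul_le_mul_of_nonneg_left _ ha0
      have : 4 / s = 1 / s + 3 * (1 / s) := by ring
      linarith
    linarith
  have t3 : FF a s 16 1 ≤ Real.exp (-(a * (s + 16 / s))) := by
    unfold FF
    apply abs_exp_sub_le
    · apply mul_le_mul_of_nonneg_left _ ha0
      have : 16 / s = 1 / s + 15 * (1 / s) := by ring
      linarith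
    · apply mul_le_mul_of_nonneg_left _ ha0
      linarith
  have t4 : FF a s 0 9 ≤ Real.exp (-(9 * (a / s))) := by
    unfold FF
    have e0 : 9 * (a / s) = a * (9 * (1 / s)) := by ring
    rw [e0]
    apply abs_exp_sub_le
    · apply mul_le_mul_of_nonneg_left _ ha0
      have : 9 / s = 9 * (1 / s) := by ring
      linarith
    · apply mul_le_mul_of_nonneg_left _ ha0
      have : 0 / s = 0 := by ring
      linarith
  have hq : 12 ≤ 4 * s + 9 / s := by
    have : 9 / s = 9 * (1 / s) := by ring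
    rw [this]
    nlinarith [sq_nonneg (2 * s - 3), h2]
  have t5 : FF a s 4 9 ≤ Real.exp (-(12 * a)) := by
    unfold FF
    have e0 : 12 * a = a * 12 := by ring
    rw [e0]
    apply abs_exp_sub_le
    · apply mul_le_mul_of_nonneg_left _ ha0
      linarith
    · apply mul_le_mul_of_nonneg_left _ ha0
      have e3 : 9 / s = 4 / s + 5 * (1 / s) := by ring
      linarith
  rw [t1, t2]
  linarith

/-- `sinh v ≤ v shp v` for `0 ≤ v ≤ 2` -/
theorem sinh_le_shp {v : ℝ} (h0 : 0 ≤ v) (h2 : v ≤ 2) : Real.sinh v ≤ v * shp v := by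
  have h1 := Real.hasSum_sinh v
  have h3 := (hasSum_nat_add_iff' 3).2 h1
  have hv2 : v ^ 2 / 72 ≤ 1 / 18 := by nlinarith
  have hfac : ∀ n : ℕ, (5040 : ℝ) * 72 ^ n ≤ ((2 * (n + 3) + 1).factorial : ℝ) := by
    intro n
    induction n with
    | zero => norm_num [Nat.factorial]
    | succ n ih =>
      have e : (2 * (n + 1 + 3) + 1).factorial =
          (2 * (n + 3) + 3) * ((2 * (n + 3) + 2) * (2 * (n + 3) + 1).factorial) := by
        rw [show 2 * (n + 1 + 3) + 1 = (2 * (n + 3) + 2) + 1 by ring, Nat.factorial_succ,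
          show 2 * (n + 3) + 2 = (2 * (n + 3) + 1) + 1 by ring, Nat.factorial_succ]
      rw [e]
      push_cast
      have hn : (0 : ℝ) ≤ n := Nat.cast_nonneg n
      calc (5040 : ℝ) * 72 ^ (n + 1) = 72 * (5040 * 72 ^ n) := by ring
        _ ≤ 72 * ((2 * (n + 3) + 1).factorial : ℝ) := by gcongr
        _ ≤ ((2 * ((n : ℝ) + 3) + 3) * (2 * ((n : ℝ) + 3) + 2)) *
              ((2 * (n + 3) + 1).factorial : ℝ) := by
            gcongr
            nlinarith
        _ = _ := by ring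
  have hgeo : HasSum (fun n : ℕ => (v ^ 7 / 5040) * (v ^ 2 / 72) ^ n)
      ((v ^ 7 / 5040) * (1 - v ^ 2 / 72)⁻¹) :=
    (hasSum_geometric_of_lt_one (by positivity) (by linarith)).mul_left _
  have hterm : ∀ n : ℕ, v ^ (2 * (n + 3) + 1) / ((2 * (n + 3) + 1).factorial : ℝ) ≤
      (v ^ 7 / 5040) * (v ^ 2 / 72) ^ n := by
    intro n
    have e1 : v ^ (2 * (n + 3) + 1) = v ^ 7 * (v ^ 2) ^ n := by
      rw [← pow_mul, ← pow_add]; congr 1; ring
    have e2 : (v ^ 7 / 5040) * (v ^ 2 / 72) ^ n = v ^ 7 * (v ^ 2) ^ n / (5040 * 72 ^ n) := by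
      rw [div_pow]; field_simp
    rw [e1, e2]
    exact div_le_div_of_nonneg_left (by positivity) (by positivity) (hfac n)
  have h4 := hasSum_le hterm h3 hgeo
  have h5 : ∑ i ∈ Finset.range 3, v ^ (2 * i + 1) / ((2 * i + 1).factorial : ℝ) =
      v + v ^ 3 / 6 + v ^ 5 / 120 := by
    simp [Finset.sum_range_succ, Nat.factorial]
    norm_num
  rw [h5] at h4
  have h6 : (1 - v ^ 2 / 72)⁻¹ ≤ 18 / 17 := by
    rw [inv_le_comm₀ (by linarith) (by norm_num)]
    norm_num
    linarith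
  have h7 : (v ^ 7 / 5040) * (1 - v ^ 2 / 72)⁻¹ ≤ (v ^ 7 / 5040) * (18 / 17) := by gcongr
  have h8 : (v ^ 7 / 5040) * (18 / 17) ≤ v ^ 5 / 600 := by
    have : v ^ 7 = v ^ 5 * v ^ 2 := by ring
    rw [this]
    have hv5 : 0 ≤ v ^ 5 := by positivity
    have hv4 : v ^ 2 ≤ 4 := by nlinarith
    nlinarith
  unfold shp
  have h9 : v * (1 + v ^ 2 / 6 + v ^ 4 / 100) = v + v ^ 3 / 6 + v ^ 5 / 120 + v ^ 5 / 600 := by
    ring
  rw [h9]
  linarith

/-- symmetric form of a difference of exponentials -/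
private theorem exp_sub_eq (M v : ℝ) :
    Real.exp (-(M - v)) - Real.exp (-(M + v)) = 2 * Real.exp (-M) * Real.sinh v := by
  rw [Real.sinh_eq]
  have e1 : Real.exp (-(M - v)) = Real.exp (-M) * Real.exp v := by
    rw [← Real.exp_add]; congr 1; ring
  have e2 : Real.exp (-(M + v)) = Real.exp (-M) * Real.exp (-v) := by
    rw [← Real.exp_add]; congr 1; ring
  rw [e1, e2]
  ring

private theorem abs_exp_sub_shp {X Y M v : ℝ} (hX : X = M - v) (hY : Y = M + v) (hv : 0 ≤ v)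
    (hv2 : v ≤ 2) : |Real.exp (-X) - Real.exp (-Y)| ≤ 2 * v * (Real.exp (-M) * shp v) := by
  rw [hX, hY, exp_sub_eq, abs_of_nonneg (mul_nonneg (by positivity) (Real.sinh_nonneg_iff.2 hv))]
  have := sinh_le_shp hv hv2
  have h1 := Real.exp_pos (-M)
  nlinarith

/-- The same divided by `ε`, `s = 1 + 2ε`, `A = a (s - 1/s) = 2 ε a (1 + 1/s)`:
`|Dj| = 2 exp(-(e²+P²)/2 a (s+1/s)) sinh(|P²-e²|/2 A)` and `|Dj| ≤ |P²-e²| A q^(e²+P²)`. -/
theorem JU_leK {a ε s : ℝ} (ha : 1.4 ≤ a) (ha2 : a ≤ 1.45) (hε0 : 0 < ε) (hε : ε ≤ 0.08)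
    (hs : s = 1 + 2 * ε) :
    JU a s ≤ ε * (Real.sqrt (4 * a / (Real.pi * s)) * (2 * a * (1 + 1 / s)) *
      (2 * (Real.exp (-(1 / 2 * (a * (s + 1 / s)))) * shp (1 / 2 * (a * (s - 1 / s))))
        + 12 * (Real.exp (-(5 / 2 * (a * (s + 1 / s)))) * shp (3 / 2 * (a * (s - 1 / s))))
        + 18 * (Real.exp (-(9 / 2 * (a * (s + 1 / s)))) * shp (9 / 2 * (a * (s - 1 / s))))
        + 60 * Real.exp (-(a * (s + 16 / s))) + 20 * Real.exp (-(12 * a))
        + 200 * Real.exp (-(25 * (a / s))))) := by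
  have ha' : (7 / 5 : ℝ) ≤ a := by norm_num at ha ⊢; linarith
  have ha2' : a ≤ (29 / 20 : ℝ) := by norm_num at ha2 ⊢; linarith
  have hε' : ε ≤ (2 / 25 : ℝ) := by norm_num at hε ⊢; linarith
  have ha0 : 0 ≤ a := by linarith
  have hs1 : 1 ≤ s := by rw [hs]; linarith
  have hs2 : s ≤ 29 / 25 := by rw [hs]; linarith
  obtain ⟨h0, h1, h2, h3⟩ := inv_facts hs1
  set A := a * (s - 1 / s) with hA
  have hA1 : A = ε * (2 * a * (1 + 1 / s)) := by
    have : s - 1 / s = 2 * ε * (1 + 1 / s) := by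
      have h4 : s - 1 / s = (s - 1) * (1 + 1 / s) := by
        have : (s - 1) * (1 + 1 / s) = s - 1 / s + (s * (1 / s) - 1) := by ring
        rw [this, h3]; ring
      rw [h4, hs]; ring
    rw [hA, this]; ring
  have hA0 : 0 ≤ A := mul_nonneg ha0 (by linarith)
  have hA2 : 9 / 2 * A ≤ 2 := by
    have h4 : 25 / 29 ≤ 1 / s := by
      rw [le_div_iff₀ h0]; linarith
    have h5 : s - 1 / s ≤ 29 / 25 - 25 / 29 := by linarith
    have h6 : A ≤ 29 / 20 * (29 / 25 - 25 / 29) := by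
      rw [hA]
      exact mul_le_mul ha2' h5 (by linarith) (by norm_num)
    have h7 : (9 : ℝ) / 2 * (29 / 20 * (29 / 25 - 25 / 29)) ≤ 2 := by norm_num
    linarith
  have hgoal : ∑' k : ℤ × ℤ, |Dj a s (2 * k.1) (2 * k.2 + 1)| ≤ A *
      (2 * (Real.exp (-(1 / 2 * (a * (s + 1 / s)))) * shp (1 / 2 * A))
        + 12 * (Real.exp (-(5 / 2 * (a * (s + 1 / s)))) * shp (3 / 2 * A))
        + 18 * (Real.exp (-(9 / 2 * (a * (s + 1 / s)))) * shp (9 / 2 * A))
        + 60 * Real.exp (-(a * (s + 16 / s))) + 20 * Real.exp (-(12 * a))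
        + 200 * Real.exp (-(25 * (a / s)))) := by
    have has : 3 ≤ 4 * (a / s) := by
      rw [← mul_div_assoc, le_div_iff₀ h0]
      linarith
    have hx : Real.exp (-(4 * (a / s))) ≤ 1 / 20 :=
      ((Real.exp_le_exp.2 (by linarith)).trans exp_three)
    have htail : ∀ k : ℤ × ℤ, k ∉ SS → |Dj a s (2 * (k.1 : ℝ)) (2 * (k.2 : ℝ) + 1)| ≤
        (25 * A * Real.exp (-(25 * (a / s)))) * (1 / 16 : ℝ) ^ NN k := by
      intro k hk
      have hm := mins (E := (2 * (k.1 : ℝ)) ^ 2) (P := (2 * (k.2 : ℝ) + 1) ^ 2) ha0 hs1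
        (sq_nonneg _) (sq_nonneg _)
      have hd : |a * (s * (2 * (k.2 : ℝ) + 1) ^ 2 + (2 * (k.1 : ℝ)) ^ 2 / s) -
          a * (s * (2 * (k.1 : ℝ)) ^ 2 + (2 * (k.2 : ℝ) + 1) ^ 2 / s)| ≤
          A * (25 + 4 * (NN k : ℝ)) := by
        rw [← NN_cast hk]
        have e1 : a * (s * (2 * (k.2 : ℝ) + 1) ^ 2 + (2 * (k.1 : ℝ)) ^ 2 / s) -
          a * (s * (2 * (k.1 : ℝ)) ^ 2 + (2 * (k.2 : ℝ) + 1) ^ 2 / s) =
            A * ((2 * (k.2 : ℝ) + 1) ^ 2 - (2 * (k.1 : ℝ)) ^ 2) := by rw [hA]; ring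
        rw [e1, abs_mul, abs_of_nonneg hA0]
        apply mul_le_mul_of_nonneg_left _ hA0
        rw [abs_le]
        constructor <;> nlinarith [sq_nonneg (2 * (k.2 : ℝ) + 1), sq_nonneg (2 * (k.1 : ℝ))]
      rw [NN_cast hk] at hm
      refine (abs_exp_sub_le' hm.1 hm.2).trans ?_
      rw [exp_split]
      have hb : 1 + (NN k : ℝ) * (4 / 25) ≤ (1 + 4 / 25) ^ NN k :=
        one_add_mul_le_pow (by norm_num) _
      have hx2 : (1 + 4 / 25) * Real.exp (-(4 * (a / s))) ≤ 1 / 16 := by linarith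
      have hpow : ((1 + 4 / 25) * Real.exp (-(4 * (a / s)))) ^ NN k ≤ (1 / 16 : ℝ) ^ NN k :=
        pow_le_pow_left₀ (by positivity) hx2 _
      have hE := Real.exp_pos (-(25 * (a / s)))
      have hE4 : 0 < Real.exp (-(4 * (a / s))) ^ NN k := by positivity
      calc |a * (s * (2 * (k.2 : ℝ) + 1) ^ 2 + (2 * (k.1 : ℝ)) ^ 2 / s) -
          a * (s * (2 * (k.1 : ℝ)) ^ 2 + (2 * (k.2 : ℝ) + 1) ^ 2 / s)| *
            (Real.exp (-(25 * (a / s))) * Real.exp (-(4 * (a / s))) ^ NN k)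
          ≤ (A * (25 + 4 * (NN k : ℝ))) *
            (Real.exp (-(25 * (a / s))) * Real.exp (-(4 * (a / s))) ^ NN k) := by gcongr
        _ = (25 * A * Real.exp (-(25 * (a / s)))) *
            ((1 + (NN k : ℝ) * (4 / 25)) * Real.exp (-(4 * (a / s))) ^ NN k) := by ring
        _ ≤ (25 * A * Real.exp (-(25 * (a / s)))) *
            ((1 + 4 / 25) ^ NN k * Real.exp (-(4 * (a / s))) ^ NN k) := by gcongr
        _ = (25 * A * Real.exp (-(25 * (a / s)))) *
            ((1 + 4 / 25) * Real.exp (-(4 * (a / s)))) ^ NN k := by rw [mul_pow]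
        _ ≤ _ := by gcongr
    refine (tsum_le_of_tail _ (fun k => abs_nonneg _) _ (by positivity) htail).trans ?_
    rw [sum_SS]
    have hA3 : 0 ≤ 1 / 2 * A ∧ 1 / 2 * A ≤ 2 ∧ 0 ≤ 3 / 2 * A ∧ 3 / 2 * A ≤ 2 := by
      refine ⟨by positivity, by linarith, by positivity, by linarith⟩
    have t1 : FF a s 0 1 ≤ A * (Real.exp (-(1 / 2 * (a * (s + 1 / s)))) * shp (1 / 2 * A)) := by
      have := abs_exp_sub_shp (X := a * (s * 0 + 1 / s)) (Y := a * (s * 1 + 0 / s))
        (M := 1 / 2 * (a * (s + 1 / s))) (v := 1 / 2 * A) (by rw [hA]; ring) (by rw [hA]; ring)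
        hA3.1 hA3.2.1
      unfold FF
      refine this.trans (le_of_eq ?_)
      ring
    have t2 : FF a s 4 1 ≤ 3 * A * (Real.exp (-(5 / 2 * (a * (s + 1 / s)))) * shp (3 / 2 * A)) := by
      have := abs_exp_sub_shp (X := a * (s * 1 + 4 / s)) (Y := a * (s * 4 + 1 / s))
        (M := 5 / 2 * (a * (s + 1 / s))) (v := 3 / 2 * A) (by rw [hA]; ring) (by rw [hA]; ring)
        hA3.2.2.1 hA3.2.2.2
      unfold FF
      rw [abs_sub_comm]
      refine this.trans (le_of_eq ?_)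
      ring
    have t4 : FF a s 0 9 ≤ 9 * A * (Real.exp (-(9 / 2 * (a * (s + 1 / s)))) * shp (9 / 2 * A)) := by
      have := abs_exp_sub_shp (X := a * (s * 0 + 9 / s)) (Y := a * (s * 9 + 0 / s))
        (M := 9 / 2 * (a * (s + 1 / s))) (v := 9 / 2 * A) (by rw [hA]; ring) (by rw [hA]; ring)
        (by positivity) hA2
      unfold FF
      refine this.trans (le_of_eq ?_)
      ring
    have t3 : FF a s 16 1 ≤ 15 * A * Real.exp (-(a * (s + 16 / s))) := by
      unfold FF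
      have hm1 : a * (s + 16 / s) ≤ a * (s * 16 + 1 / s) := by
        apply mul_le_mul_of_nonneg_left _ ha0
        have : 16 / s = 1 / s + 15 * (1 / s) := by ring
        linarith
      have hm2 : a * (s + 16 / s) ≤ a * (s * 1 + 16 / s) := by
        apply mul_le_mul_of_nonneg_left _ ha0
        linarith
      refine (abs_exp_sub_le' hm1 hm2).trans (le_of_eq ?_)
      have e1 : a * (s * 1 + 16 / s) - a * (s * 16 + 1 / s) = -(15 * A) := by rw [hA]; ring
      rw [e1, abs_neg, abs_of_nonneg (by positivity)]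
    have hq : 12 ≤ 4 * s + 9 / s := by
      have : 9 / s = 9 * (1 / s) := by ring
      rw [this]
      nlinarith [sq_nonneg (2 * s - 3), h2]
    have t5 : FF a s 4 9 ≤ 5 * A * Real.exp (-(12 * a)) := by
      unfold FF
      have hm1 : 12 * a ≤ a * (s * 4 + 9 / s) := by
        rw [mul_comm 12 a]
        apply mul_le_mul_of_nonneg_left _ ha0
        linarith
      have hm2 : 12 * a ≤ a * (s * 9 + 4 / s) := by
        rw [mul_comm 12 a]
        apply mul_le_mul_of_nonneg_left _ ha0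
        have e3 : 9 / s = 4 / s + 5 * (1 / s) := by ring
        linarith
      refine (abs_exp_sub_le' hm1 hm2).trans (le_of_eq ?_)
      have e1 : a * (s * 9 + 4 / s) - a * (s * 4 + 9 / s) = 5 * A := by rw [hA]; ring
      rw [e1, abs_of_nonneg (by positivity)]
    have e8 : 25 * A * Real.exp (-(25 * (a / s))) * 8 =
        A * (200 * Real.exp (-(25 * (a / s)))) := by ring
    rw [e8]
    nlinarith
  unfold JU
  calc Real.sqrt (4 * a / (Real.pi * s)) * ∑' k : ℤ × ℤ, |Dj a s (2 * k.1) (2 * k.2 + 1)|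
      ≤ Real.sqrt (4 * a / (Real.pi * s)) * (A * _) :=
        mul_le_mul_of_nonneg_left hgoal (Real.sqrt_nonneg _)
    _ = _ := by rw [hA1]; ring

end MP7e122f.R
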