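import Pool.Agent.Lib.MP_7e122f_anR.JPois

namespace MP7e122f.R

/-! ### individual terms -/

private lemma JMono_r_deriv (u : ℝ) :
    HasDerivAt (fun u : ℝ => (u - 1 / 2) * Real.exp (-u)) ((3 / 2 - u) * Real.exp (-u)) u := by
  have h1 : HasDerivAt (fun u : ℝ => u - 1 / 2) 1 u := (hasDerivAt_id u).sub_const _
  have h2 : HasDerivAt (fun u : ℝ => Real.exp (-u)) (Real.exp (-u) * (-1)) u :=
    (hasDerivAt_neg u).exp
  refine (h1.mul h2).congr_deriv ?_
  ring

private lemma JMono_r_anti {u v : ℝ} (hu : 3 / 2 ≤ u) (huv : u ≤ v) :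
    (v - 1 / 2) * Real.exp (-v) ≤ (u - 1 / 2) * Real.exp (-u) := by
  have h : AntitoneOn (fun u : ℝ => (u - 1 / 2) * Real.exp (-u)) (Set.Ici (3 / 2)) := by
    apply antitoneOn_of_deriv_nonpos (convex_Ici _)
    · exact fun x _ => (JMono_r_deriv x).continuousAt.continuousWithinAt
    · exact fun x _ => (JMono_r_deriv x).differentiableAt.differentiableWithinAt
    · intro x hx
      rw [interior_Ici, Set.mem_Ioi] at hx
      rw [(JMono_r_deriv x).deriv]
      have := Real.exp_pos (-x)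
      nlinarith
  exact h hu (hu.trans huv) huv

private lemma JMono_exp_deriv (X a : ℝ) :
    HasDerivAt (fun a : ℝ => Real.exp (-(a * X))) (Real.exp (-(a * X)) * (-X)) a := by
  have h1 : HasDerivAt (fun a : ℝ => -(a * X)) (-(1 * X)) a :=
    ((hasDerivAt_id a).mul_const X).neg
  rw [one_mul] at h1
  exact h1.exp

private lemma JMono_h_deriv (X X' : ℝ) {a : ℝ} (ha : 0 < a) :
    HasDerivAt (fun a : ℝ => Real.sqrt a * (Real.exp (-(a * X)) - Real.exp (-(a * X'))))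
      (-(1 / Real.sqrt a) * ((a * X - 1 / 2) * Real.exp (-(a * X)) -
        (a * X' - 1 / 2) * Real.exp (-(a * X')))) a := by
  have h1 := Real.hasDerivAt_sqrt ha.ne'
  have h2 := (JMono_exp_deriv X a).sub (JMono_exp_deriv X' a)
  refine (h1.mul h2).congr_deriv ?_
  have hs : 0 < Real.sqrt a := Real.sqrt_pos.2 ha
  have hs2 : Real.sqrt a * Real.sqrt a = a := Real.mul_self_sqrt ha.le
  simp only [Pi.sub_apply]
  generalize Real.exp (-(a * X)) = x at *
  generalize Real.exp (-(a * X')) = x' at *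
  generalize hq : Real.sqrt a = q at *
  subst hs2
  field_simp
  ring

private lemma JMono_h_anti {X X' a0 a : ℝ} (ha0 : 0 < a0) (h : a0 ≤ a) (hX : X ≤ X')
    (h3 : 3 / 2 ≤ a0 * X) (hX0 : 0 ≤ X) :
    Real.sqrt a * (Real.exp (-(a * X)) - Real.exp (-(a * X'))) ≤
      Real.sqrt a0 * (Real.exp (-(a0 * X)) - Real.exp (-(a0 * X'))) := by
  have hA : AntitoneOn (fun a : ℝ =>
      Real.sqrt a * (Real.exp (-(a * X)) - Real.exp (-(a * X')))) (Set.Ici a0) := by
    apply antitoneOn_of_deriv_nonpos (convex_Ici _)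
    · exact fun x hx => (JMono_h_deriv X X' (lt_of_lt_of_le ha0 hx)).continuousAt.continuousWithinAt
    · intro x hx
      rw [interior_Ici, Set.mem_Ioi] at hx
      exact (JMono_h_deriv X X' (ha0.trans hx)).differentiableAt.differentiableWithinAt
    · intro x hx
      rw [interior_Ici, Set.mem_Ioi] at hx
      have hx0 : 0 < x := ha0.trans hx
      rw [(JMono_h_deriv X X' hx0).deriv]
      have h4 : 3 / 2 ≤ x * X := h3.trans (mul_le_mul_of_nonneg_right hx.le hX0)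
      have h5 := JMono_r_anti h4 (mul_le_mul_of_nonneg_left hX hx0.le)
      have h6 : 0 < 1 / Real.sqrt x := by
        have := Real.sqrt_pos.2 hx0
        positivity
      nlinarith
  exact hA (Set.mem_Ici.2 le_rfl) (Set.mem_Ici.2 h) h

private lemma JMono_term {X X' a0 a : ℝ} (ha0 : 1.4 ≤ a0) (h : a0 ≤ a) (hX : 5 ≤ X) (hX' : 5 ≤ X') :
    Real.sqrt a * |Real.exp (-(a * X)) - Real.exp (-(a * X'))| ≤
      Real.sqrt a0 * |Real.exp (-(a0 * X)) - Real.exp (-(a0 * X'))| := by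
  have h0 : 0 < a0 := by linarith
  have ha : 0 < a := by linarith
  have key : ∀ Y Y' : ℝ, 5 ≤ Y → Y ≤ Y' →
      Real.sqrt a * |Real.exp (-(a * Y)) - Real.exp (-(a * Y'))| ≤
      Real.sqrt a0 * |Real.exp (-(a0 * Y)) - Real.exp (-(a0 * Y'))| := by
    intro Y Y' hY hYY
    have e1 : 0 ≤ Real.exp (-(a * Y)) - Real.exp (-(a * Y')) := by
      rw [sub_nonneg, Real.exp_le_exp, neg_le_neg_iff]
      exact mul_le_mul_of_nonneg_left hYY ha.le
    have e2 : 0 ≤ Real.exp (-(a0 * Y)) - Real.exp (-(a0 * Y')) := by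
      rw [sub_nonneg, Real.exp_le_exp, neg_le_neg_iff]
      exact mul_le_mul_of_nonneg_left hYY h0.le
    rw [abs_of_nonneg e1, abs_of_nonneg e2]
    exact JMono_h_anti h0 h hYY (by nlinarith) (by linarith)
  rcases le_total X X' with hc | hc
  · exact key X X' hX hc
  · rw [abs_sub_comm, abs_sub_comm (Real.exp (-(a0 * X)))]
    exact key X' X hX' hc

/-! ### the six main terms -/

private noncomputable def JMono_phi (a X : ℝ) : ℝ := a * Real.sqrt a * Real.exp (-(a * X))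

private lemma JMono_phi_deriv (X : ℝ) {a : ℝ} (ha : 0 < a) :
    HasDerivAt (fun a : ℝ => JMono_phi a X) (-(Real.sqrt a * qj (a * X))) a := by
  unfold JMono_phi
  have h1 := (hasDerivAt_id a).mul (Real.hasDerivAt_sqrt ha.ne')
  refine (h1.mul (JMono_exp_deriv X a)).congr_deriv ?_
  unfold qj
  have hs : 0 < Real.sqrt a := Real.sqrt_pos.2 ha
  have hs2 : Real.sqrt a * Real.sqrt a = a := Real.mul_self_sqrt ha.le
  simp only [id_eq, Pi.mul_apply]
  generalize Real.exp (-(a * X)) = x at *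
  generalize hq : Real.sqrt a = q at *
  subst hs2
  field_simp
  ring

/-- `∂_s M` -/
private noncomputable def JMono_N (a τ : ℝ) : ℝ :=
  2 * (1 / τ ^ 2 * JMono_phi a (1 / τ) + JMono_phi a τ)
  + 4 * ((4 / τ ^ 2 - 1) * JMono_phi a (τ + 4 / τ) + (4 - 1 / τ ^ 2) * JMono_phi a (4 * τ + 1 / τ))

private lemma JMono_N_deriv (τ : ℝ) {a : ℝ} (ha : 0 < a) :
    HasDerivAt (fun a : ℝ => JMono_N a τ) (-(Real.sqrt a * PsiJ a τ)) a := by
  unfold JMono_N
  have h1 := ((JMono_phi_deriv (1 / τ) ha).const_mul (1 / τ ^ 2)).add (JMono_phi_deriv τ ha)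
  have h2 := ((JMono_phi_deriv (τ + 4 / τ) ha).const_mul (4 / τ ^ 2 - 1)).add
    ((JMono_phi_deriv (4 * τ + 1 / τ) ha).const_mul (4 - 1 / τ ^ 2))
  refine ((h1.const_mul 2).add (h2.const_mul 4)).congr_deriv ?_
  unfold PsiJ
  have e : a * (1 / τ) = a / τ := by ring
  rw [e]
  ring

private lemma JMono_N_anti {a0 a τ : ℝ} (ha0 : 0 < a0) (h : a0 ≤ a)
    (hΨ : ∀ a', a0 ≤ a' → 0 ≤ PsiJ a' τ) : JMono_N a τ ≤ JMono_N a0 τ := by
  have hA : AntitoneOn (fun a : ℝ => JMono_N a τ) (Set.Ici a0) := by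
    apply antitoneOn_of_deriv_nonpos (convex_Ici _)
    · exact fun x hx => (JMono_N_deriv τ (lt_of_lt_of_le ha0 hx)).continuousAt.continuousWithinAt
    · intro x hx
      rw [interior_Ici, Set.mem_Ioi] at hx
      exact (JMono_N_deriv τ (ha0.trans hx)).differentiableAt.differentiableWithinAt
    · intro x hx
      rw [interior_Ici, Set.mem_Ioi] at hx
      rw [(JMono_N_deriv τ (ha0.trans hx)).deriv]
      have h1 := hΨ x hx.le
      have h2 := Real.sqrt_nonneg x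
      have := mul_nonneg h2 h1
      linarith
  exact hA (Set.mem_Ici.2 le_rfl) (Set.mem_Ici.2 h) h

private noncomputable def JMono_M (a τ : ℝ) : ℝ :=
  Real.sqrt a * (2 * (Real.exp (-(a * (1 / τ))) - Real.exp (-(a * τ)))
    + 4 * (Real.exp (-(a * (τ + 4 / τ))) - Real.exp (-(a * (4 * τ + 1 / τ)))))

private lemma JMono_inv_deriv (c : ℝ) {τ : ℝ} (hτ : 0 < τ) :
    HasDerivAt (fun τ : ℝ => c / τ) (-(c / τ ^ 2)) τ := by
  have h := (hasDerivAt_inv hτ.ne').const_mul c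
  simp only [div_eq_mul_inv]
  refine h.congr_deriv ?_
  ring

private lemma JMono_E_deriv (a : ℝ) {Y : ℝ → ℝ} {Y' τ : ℝ} (hY : HasDerivAt Y Y' τ) :
    HasDerivAt (fun τ : ℝ => Real.exp (-(a * Y τ))) (Real.exp (-(a * Y τ)) * (-(a * Y'))) τ :=
  ((hY.const_mul a).neg).exp

private lemma JMono_M_deriv (a : ℝ) {τ : ℝ} (hτ : 0 < τ) :
    HasDerivAt (fun τ : ℝ => JMono_M a τ) (JMono_N a τ) τ := by
  unfold JMono_M
  have d1 := JMono_E_deriv a (JMono_inv_deriv 1 hτ)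
  have d2 := JMono_E_deriv a (hasDerivAt_id τ)
  have d3 := JMono_E_deriv a ((hasDerivAt_id τ).add (JMono_inv_deriv 4 hτ))
  have d4 := JMono_E_deriv a (((hasDerivAt_id τ).const_mul 4).add (JMono_inv_deriv 1 hτ))
  refine ((((d1.sub d2).const_mul 2).add ((d3.sub d4).const_mul 4)).const_mul
    (Real.sqrt a)).congr_deriv ?_
  unfold JMono_N JMono_phi
  simp only [id_eq, Pi.add_apply]
  ring

private lemma JMono_M_le {a0 a s : ℝ} (ha0 : 0 < a0) (h : a0 ≤ a) (hs1 : 1 ≤ s)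
    (hΨ : ∀ a' τ, a0 ≤ a' → 1 ≤ τ → τ ≤ s → 0 ≤ PsiJ a' τ) : JMono_M a s ≤ JMono_M a0 s := by
  have hd : ∀ τ, 0 < τ → HasDerivAt (fun τ : ℝ => JMono_M a0 τ - JMono_M a τ)
      (JMono_N a0 τ - JMono_N a τ) τ := fun τ hτ => (JMono_M_deriv a0 hτ).sub (JMono_M_deriv a hτ)
  have hmono : MonotoneOn (fun τ : ℝ => JMono_M a0 τ - JMono_M a τ) (Set.Icc 1 s) := by
    apply monotoneOn_of_deriv_nonneg (convex_Icc _ _)
    · exact fun x hx => (hd x (by linarith [hx.1])).continuousAt.continuousWithinAt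
    · intro x hx
      rw [interior_Icc] at hx
      exact (hd x (by linarith [hx.1])).differentiableAt.differentiableWithinAt
    · intro x hx
      rw [interior_Icc] at hx
      rw [(hd x (by linarith [hx.1])).deriv]
      have := JMono_N_anti ha0 h (τ := x) (fun a' ha' => hΨ a' x ha' hx.1.le hx.2.le)
      linarith
  have h1 := hmono (Set.left_mem_Icc.2 hs1) (Set.right_mem_Icc.2 hs1) hs1
  have e : ∀ b : ℝ, JMono_M b 1 = 0 := by
    intro b
    unfold JMono_M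
    norm_num
  simp only [e, sub_zero] at h1
  linarith

/-- the six main indices -/
private def JMono_S : Finset (ℤ × ℤ) := {(0, 0), (0, -1), (1, 0), (1, -1), (-1, 0), (-1, -1)}

private lemma JMono_sum {a s : ℝ} (ha : 0 < a) (hs1 : 1 ≤ s) :
    Real.sqrt a * ∑ k ∈ JMono_S, |Dj a s (2 * k.1) (2 * k.2 + 1)| = JMono_M a s := by
  have hs0 : 0 < s := by linarith
  have hle : 1 / s ≤ s := by
    rw [div_le_iff₀ hs0]
    nlinarith
  have e1 : 0 ≤ Real.exp (-(a * (1 / s))) - Real.exp (-(a * s)) := by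
    rw [sub_nonneg, Real.exp_le_exp, neg_le_neg_iff]
    exact mul_le_mul_of_nonneg_left hle ha.le
  have e2 : 0 ≤ Real.exp (-(a * (s + 4 / s))) - Real.exp (-(a * (4 * s + 1 / s))) := by
    rw [sub_nonneg, Real.exp_le_exp, neg_le_neg_iff]
    refine mul_le_mul_of_nonneg_left ?_ ha.le
    have : 4 / s = 4 * (1 / s) := by ring
    rw [this]
    linarith
  have t1 : ∀ e P : ℝ, e ^ 2 = 0 → P ^ 2 = 1 →
      |Dj a s e P| = Real.exp (-(a * (1 / s))) - Real.exp (-(a * s)) := by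
    intro e P he hP
    unfold Dj
    rw [he, hP]
    have h1 : a * (s * 0 + 1 / s) = a * (1 / s) := by ring
    have h2 : a * (s * 1 + 0 / s) = a * s := by ring
    rw [h1, h2, abs_of_nonneg e1]
  have t2 : ∀ e P : ℝ, e ^ 2 = 4 → P ^ 2 = 1 →
      |Dj a s e P| = Real.exp (-(a * (s + 4 / s))) - Real.exp (-(a * (4 * s + 1 / s))) := by
    intro e P he hP
    unfold Dj
    rw [he, hP]
    have h1 : a * (s * 4 + 1 / s) = a * (4 * s + 1 / s) := by ring
    have h2 : a * (s * 1 + 4 / s) = a * (s + 4 / s) := by ring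
    rw [h1, h2, abs_sub_comm, abs_of_nonneg e2]
  unfold JMono_S
  rw [Finset.sum_insert (by decide), Finset.sum_insert (by decide), Finset.sum_insert (by decide),
    Finset.sum_insert (by decide), Finset.sum_insert (by decide), Finset.sum_singleton]
  rw [t1 _ _ (by norm_num) (by norm_num), t1 _ _ (by norm_num) (by norm_num),
    t2 _ _ (by norm_num) (by norm_num), t2 _ _ (by norm_num) (by norm_num),
    t2 _ _ (by norm_num) (by norm_num), t2 _ _ (by norm_num) (by norm_num)]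
  unfold JMono_M
  ring

private lemma JMono_nine {k : ℤ × ℤ} (hk : k ∉ JMono_S) :
    9 ≤ (2 * k.1) ^ 2 + (2 * k.2 + 1) ^ 2 := by
  obtain ⟨m, n⟩ := k
  by_contra hcon
  push Not at hcon
  simp only at hcon
  have hm1 : m ≤ 1 := by nlinarith [sq_nonneg (2 * n + 1)]
  have hm2 : -1 ≤ m := by nlinarith [sq_nonneg (2 * n + 1)]
  have hn1 : n ≤ 0 := by nlinarith [sq_nonneg (2 * m)]
  have hn2 : -1 ≤ n := by nlinarith [sq_nonneg (2 * m)]
  apply hk
  interval_cases m <;> interval_cases n <;> decide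

private lemma JMono_five {s : ℝ} (hs1 : 1 ≤ s) (hs2 : s ≤ 1.8) (e P : ℝ) (h : 9 ≤ e ^ 2 + P ^ 2) :
    5 ≤ s * e ^ 2 + P ^ 2 / s := by
  have hs0 : 0 < s := by linarith
  have h1 : (e ^ 2 + P ^ 2) / s ≤ s * e ^ 2 + P ^ 2 / s := by
    rw [add_div]
    have : e ^ 2 / s ≤ s * e ^ 2 := by
      rw [div_le_iff₀ hs0]
      nlinarith [sq_nonneg e, mul_nonneg (sub_nonneg.2 hs1) (sq_nonneg e)]
    linarith
  have h2 : 5 ≤ (e ^ 2 + P ^ 2) / s := by
    rw [le_div_iff₀ hs0]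
    norm_num at hs2 ⊢
    linarith
  linarith

/-- Monotonicity of the majorant in `a` (the lattice becomes more degenerate).
All terms except `(e,P) = (0, ±1), (±2, ±1)` are individually decreasing:
`√a (exp(-aX) - exp(-aX'))`, `X < X'`, `a X ≥ 3/2`, because `(u - 1/2) e^{-u}` is decreasing for
`u ≥ 3/2` (here `X ≥ (e²+P²)/s ≥ 9/1.8`).  The other six terms together are
`M(a,s) = √a (2 (e^{-a/s} - e^{-as}) + 4 (e^{-a(s+4/s)} - e^{-a(4s+1/s)}))`;
`M(a,1) = 0`, `∂_s M(a,s) = a^{3/2} (2 (s^{-2} e^{-a/s} + e^{-as})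
+ 4 ((4/s² - 1) e^{-a(s+4/s)} + (4 - 1/s²) e^{-a(4s+1/s)}))`, and the derivative of this in `a` is
`- a^{1/2} PsiJ a s ≤ 0`.  So `∂_s (M(a0,s) - M(a,s)) ≥ 0`. -/
theorem JU_mono {a0 a s : ℝ} (ha0 : 1.4 ≤ a0) (h : a0 ≤ a) (hs1 : 1 ≤ s) (hs2 : s ≤ 1.8)
    (hΨ : ∀ a' τ, a0 ≤ a' → 1 ≤ τ → τ ≤ s → 0 ≤ PsiJ a' τ) : JU a s ≤ JU a0 s := by
  have h0 : 0 < a0 := by linarith
  have ha : 0 < a := by linarith
  have hs0 : 0 < s := by linarith
  have hsq : ∀ b : ℝ, 0 ≤ b → Real.sqrt (4 * b / (Real.pi * s)) =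
      Real.sqrt (4 / (Real.pi * s)) * Real.sqrt b := by
    intro b hb
    rw [← Real.sqrt_mul (by positivity)]
    congr 1
    ring
  unfold JU
  rw [hsq a ha.le, hsq a0 h0.le, mul_assoc, mul_assoc]
  refine mul_le_mul_of_nonneg_left ?_ (Real.sqrt_nonneg _)
  have s1 := (summable_Dj ha hs0).mul_left (Real.sqrt a)
  have s2 := (summable_Dj h0 hs0).mul_left (Real.sqrt a0)
  rw [← tsum_mul_left, ← tsum_mul_left]
  have key := (s2.sub s1).sum_le_tsum JMono_S (fun k hk => by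
    rw [sub_nonneg]
    have h9 := JMono_nine hk
    have h9' : (9 : ℝ) ≤ (2 * (k.1 : ℝ)) ^ 2 + (2 * (k.2 : ℝ) + 1) ^ 2 := by exact_mod_cast h9
    unfold Dj
    exact JMono_term ha0 h (JMono_five hs1 hs2 _ _ h9') (JMono_five hs1 hs2 _ _ (by linarith)))
  rw [(s2.tsum_sub s1), Finset.sum_sub_distrib, ← Finset.mul_sum, ← Finset.mul_sum,
    JMono_sum h0 hs1, JMono_sum ha hs1] at key
  have hM := JMono_M_le h0 h hs1 hΨ
  linarith

/-- for `a ≥ 3τ/2`, `1 ≤ τ ≤ 2` all terms are nonnegative -/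
theorem PsiJ_nonneg {a τ : ℝ} (h1 : 1 ≤ τ) (h2 : τ ≤ 2) (h : 3 / 2 * τ ≤ a) : 0 ≤ PsiJ a τ := by
  have hτ : 0 < τ := by linarith
  have ha : 0 < a := by linarith
  have hq : ∀ u : ℝ, 3 / 2 ≤ u → 0 ≤ qj u := fun u hu =>
    mul_nonneg (by linarith) (Real.exp_pos _).le
  have hτ2 : 0 < τ ^ 2 := by positivity
  have c1 : 0 ≤ 4 / τ ^ 2 - 1 := by
    rw [sub_nonneg, le_div_iff₀ hτ2]
    nlinarith
  have c2 : 0 ≤ 4 - 1 / τ ^ 2 := by
    rw [sub_nonneg, div_le_iff₀ hτ2]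
    nlinarith
  have q1 : 0 ≤ qj (a / τ) := hq _ (by rw [le_div_iff₀ hτ]; exact h)
  have q2 : 0 ≤ qj (a * τ) := hq _ (by nlinarith)
  have q3 : 0 ≤ qj (a * (τ + 4 / τ)) := hq _ (by
    have : 0 < 4 / τ := by positivity
    nlinarith)
  have q4 : 0 ≤ qj (a * (4 * τ + 1 / τ)) := hq _ (by
    have : 0 < 1 / τ := by positivity
    nlinarith)
  unfold PsiJ
  positivity

end MP7e122f.R
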