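import Pool.Agent.Lib.MP_7e122f_anR.NumOps

/-!
# Exponential
-/

namespace MP7e122f.Num

/-- `(exp x - 1)/x`, with the value `1` at `0` -/
noncomputable def psr (x : ℝ) : ℝ := if x = 0 then 1 else (Real.exp x - 1) / x

private theorem ne_hD (n : Nat) (c s : Nat) (S : ℝ) (hc : 0 < c) (h : rv s ≤ S) :
    rv (hD c n s) ≤ 1 + rv n * S / c := by
  unfold hD
  rw [rv_add, rv_lit]
  have hc' : (0 : ℝ) < c := by exact_mod_cast hc
  have h1 := rv_div_le (mulD n s) c
  have h2 := mulD_le n s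
  have h3 : rv n * rv s ≤ rv n * S := mul_le_mul_of_nonneg_left h (rv_nonneg _)
  have h4 : rv (mulD n s) / c ≤ rv n * S / c :=
    div_le_div_of_nonneg_right (h2.trans h3) hc'.le
  linarith

private theorem ne_hU (n : Nat) (c s : Nat) (S : ℝ) (hc : 0 < c) (h : S ≤ rv s) :
    1 + rv n * S / c ≤ rv (hU c n s) := by
  have hc' : (0 : ℝ) < c := by exact_mod_cast hc
  have e : rv (hU c n s) = 1 + rv (Nat.succ (Nat.div (mulU n s) c)) := by
    have b1 : hU c n s = 1099511627777 + Nat.div (mulU n s) c := rfl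
    rw [b1]
    unfold rv
    push_cast
    ring
  rw [e]
  have h1 := le_rv_div (mulU n s) c hc
  have h2 := le_mulU n s
  have h3 : rv n * S ≤ rv n * rv s := mul_le_mul_of_nonneg_left h (rv_nonneg _)
  have h4 : rv n * S / c ≤ rv (mulU n s) / c :=
    div_le_div_of_nonneg_right (h3.trans h2) hc'.le
  linarith

private theorem ne_mulD_ge (n : Nat) (h : 1099511627776 ≤ n) : 1099511627776 ≤ mulD n n := by
  unfold mulD
  have e : Nat.shiftRight (Nat.mul n n) 40 = (n * n) >>> 40 := rfl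
  rw [e, Nat.shiftRight_eq_div_pow, Nat.le_div_iff_mul_le (by positivity)]
  calc 1099511627776 * 2 ^ 40 = 1099511627776 * 1099511627776 := by norm_num
    _ ≤ n * n := Nat.mul_le_mul h h

/-- Taylor bound of the exponential for `0 ≤ x ≤ 2` -/
private theorem ne_exp_bound (x : ℝ) (hx : 0 ≤ x) (hx2 : x ≤ 2) :
    Real.exp x ≤ 1 + x + x ^ 2 / 2 + x ^ 3 / 6 + x ^ 4 / 24 + x ^ 5 / 120 + x ^ 6 / 720 +
      x ^ 7 / 5040 + x ^ 8 / 40320 + x ^ 9 / 362880 + x ^ 10 / 2903040 := by
  have h := Complex.exp_bound' (x := (x : ℂ)) (n := 12) (by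
    rw [Complex.norm_real, Real.norm_eq_abs, abs_of_nonneg hx]
    norm_num
    linarith)
  have e : Complex.exp (x : ℂ) - ∑ m ∈ Finset.range 12, (x : ℂ) ^ m / (m.factorial : ℂ) =
      ((Real.exp x - ∑ m ∈ Finset.range 12, x ^ m / (m.factorial : ℝ) : ℝ) : ℂ) := by
    push_cast
    rfl
  rw [e, Complex.norm_real, Complex.norm_real, Real.norm_eq_abs, Real.norm_eq_abs,
    abs_of_nonneg hx] at h
  have h2 := (le_abs_self _).trans h
  simp only [Finset.sum_range_succ, Finset.sum_range_zero, Nat.factorial] at h2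
  push_cast at h2
  have h10 : 0 ≤ x ^ 10 := by positivity
  have h11 : x ^ 11 ≤ 2 * x ^ 10 := by
    calc x ^ 11 = x * x ^ 10 := by ring
      _ ≤ 2 * x ^ 10 := mul_le_mul_of_nonneg_right hx2 h10
  have h12 : x ^ 12 ≤ 4 * x ^ 10 := by
    calc x ^ 12 = x * x * x ^ 10 := by ring
      _ ≤ 2 * 2 * x ^ 10 := by
        apply mul_le_mul_of_nonneg_right _ h10
        exact mul_le_mul hx2 hx2 hx (by norm_num)
      _ = _ := by ring
  norm_num at h2
  linarith

theorem psr_spec (x : ℝ) : Real.exp x = 1 + x * psr x := by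
  unfold psr
  split_ifs with h
  · rw [h]; simp
  · field_simp
    ring
theorem psr_mono {x y : ℝ} (hx : 0 ≤ x) (h : x ≤ y) : psr x ≤ psr y := by
  rcases eq_or_lt_of_le hx with h0 | h0
  · subst h0
    unfold psr
    rw [if_pos rfl]
    split_ifs with h1
    · exact le_rfl
    · have hy : 0 < y := lt_of_le_of_ne h (Ne.symm h1)
      rw [le_div_iff₀ hy]
      have := Real.add_one_le_exp y
      linarith
  · have hy : 0 < y := lt_of_lt_of_le h0 h
    unfold psr
    rw [if_neg h0.ne', if_neg hy.ne']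
    have h2 := (convexOn_exp).secant_mono (Set.mem_univ (0 : ℝ)) (Set.mem_univ x)
      (Set.mem_univ y) h0.ne' hy.ne' h
    simpa using h2
/-- `ψ(x) = ∑ x^j/(j+1)!`; the partial sum is a lower bound for `x ≥ 0` -/
theorem psD_le (n : Nat) : rv (psD n) ≤ psr (rv n) := by
  have hx : 0 ≤ rv n := rv_nonneg n
  have hs := ne_hD n
  have e9 : rv (Nat.add 1099511627776 (Nat.div n 9)) ≤ 1 + rv n / 9 := by
    rw [rv_add, rv_lit]
    have := rv_div_le n 9
    push_cast at this
    linarith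
  have e8 := hs 8 _ _ (by norm_num) e9
  have e7 := hs 7 _ _ (by norm_num) e8
  have e6 := hs 6 _ _ (by norm_num) e7
  have e5 := hs 5 _ _ (by norm_num) e6
  have e4 := hs 4 _ _ (by norm_num) e5
  have e3 := hs 3 _ _ (by norm_num) e4
  have e2 := hs 2 _ _ (by norm_num) e3
  refine le_trans e2 ?_
  set x := rv n with hxd
  have hexp := Real.sum_le_exp_of_nonneg hx 10
  simp only [Finset.sum_range_succ, Finset.sum_range_zero, Nat.factorial] at hexp
  push_cast at hexp
  unfold psr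
  split_ifs with h
  · rw [h]; norm_num
  · have h0 : 0 < x := lt_of_le_of_ne hx (Ne.symm h)
    rw [le_div_iff₀ h0]
    refine le_trans (le_of_eq ?_) (sub_le_sub_right hexp 1)
    push_cast
    ring
theorem le_psU (n : Nat) (h : n ≤ 2199023255552) : psr (rv n) ≤ rv (psU n) := by
  have hx : 0 ≤ rv n := rv_nonneg n
  have hx2 : rv n ≤ 2 := by
    have h1 := rv_mono h
    have h2 : rv 2199023255552 = 2 := by unfold rv; norm_num
    rwa [h2] at h1
  have hs := ne_hU n
  have e9 : 1 + rv n / 9 + rv n ^ 2 / 72 ≤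
      rv (Nat.add 1099511627778 (Nat.add (Nat.div n 9) (Nat.div (mulU n n) 72))) := by
    have a1 := le_rv_div n 9 (by norm_num)
    have a2 := le_rv_div (mulU n n) 72 (by norm_num)
    have a3 := le_mulU n n
    have a4 : rv (Nat.add 1099511627778 (Nat.add (Nat.div n 9) (Nat.div (mulU n n) 72))) =
        1 + rv (Nat.succ (Nat.div n 9)) + rv (Nat.succ (Nat.div (mulU n n) 72)) := by
      have b1 : Nat.add 1099511627778 (Nat.add (Nat.div n 9) (Nat.div (mulU n n) 72)) =
          1099511627778 + (Nat.div n 9 + Nat.div (mulU n n) 72) := rfl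
      rw [b1]
      unfold rv
      push_cast
      ring
    rw [a4]
    push_cast at a1 a2
    have a5 : rv n ^ 2 / 72 ≤ rv (mulU n n) / 72 := by
      apply div_le_div_of_nonneg_right _ (by norm_num)
      rw [sq]; exact a3
    linarith
  have hpos9 : 0 ≤ 1 + rv n / 9 + rv n ^ 2 / 72 := by positivity
  have e8 := hs 8 _ _ (by norm_num) e9
  have e7 := hs 7 _ _ (by norm_num) e8
  have e6 := hs 6 _ _ (by norm_num) e7
  have e5 := hs 5 _ _ (by norm_num) e6
  have e4 := hs 4 _ _ (by norm_num) e5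
  have e3 := hs 3 _ _ (by norm_num) e4
  have e2 := hs 2 _ _ (by norm_num) e3
  refine le_trans ?_ e2
  set x := rv n with hxd
  have hexp := ne_exp_bound x hx hx2
  unfold psr
  split_ifs with h
  · rw [h]; norm_num
  · have h0 : 0 < x := lt_of_le_of_ne hx (Ne.symm h)
    rw [div_le_iff₀ h0]
    refine le_trans (sub_le_sub_right hexp 1) (le_of_eq ?_)
    push_cast
    ring
theorem psi_mem {a : PI} {x : ℝ} (ha : a.Mem x) (h : a.hi ≤ 2199023255552) :
    (psi a).Mem (psr x) := by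
  refine ⟨?_, ?_⟩
  · exact (psD_le a.lo).trans (psr_mono (rv_nonneg _) ha.1)
  · exact (psr_mono ((rv_nonneg _).trans ha.1) ha.2).trans (le_psU a.hi h)
theorem expOf_mem {a b : PI} {x : ℝ} (ha : a.Mem x) (hb : b.Mem (psr x)) :
    (expOf a b).Mem (Real.exp x) := by
  have hx : 0 ≤ x := ha.nonneg
  have hp : 0 ≤ psr x := hb.nonneg
  rw [psr_spec x]
  refine ⟨?_, ?_⟩
  · show rv (Nat.add 1099511627776 (mulD a.lo b.lo)) ≤ _
    rw [rv_add, rv_lit]
    have h1 := mulD_le a.lo b.lo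
    have h2 : rv a.lo * rv b.lo ≤ x * psr x := mul_le_mul ha.1 hb.1 (rv_nonneg _) hx
    linarith
  · show _ ≤ rv (Nat.add 1099511627776 (mulU a.hi b.hi))
    rw [rv_add, rv_lit]
    have h1 := le_mulU a.hi b.hi
    have h2 : x * psr x ≤ rv a.hi * rv b.hi := mul_le_mul ha.2 hb.2 hp (rv_nonneg _)
    linarith
theorem exp_mem {a : PI} {x : ℝ} (ha : a.Mem x) (h : a.hi ≤ 2199023255552) :
    (exp a).Mem (Real.exp x) := by
  have e : exp a = expOf a (psi a) := rfl
  rw [e]
  exact expOf_mem ha (psi_mem ha h)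
theorem exp_lo_pos (a : PI) : 0 < (exp a).lo := by
  have h1 : 1099511627776 ≤ Nat.add 1099511627776 (mulD a.lo (psD a.lo)) := Nat.le_add_right _ _
  have h2 : 0 < Nat.add 1099511627776 (mulD a.lo (psD a.lo)) := lt_of_lt_of_le (by norm_num) h1
  exact h2
theorem expN_mem {a : PI} {x : ℝ} (ha : a.Mem x) (h : a.hi ≤ 35184372088000) :
    (expN a).Mem (Real.exp (-x)) := by
  have h1 : (PI.smul 1 16 a).Mem ((1 : ℕ) / (16 : ℕ) * x) := PI.Mem.smul 1 16 (by norm_num) ha
  have h2 : (PI.smul 1 16 a).hi ≤ 2199023255552 := by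
    show Nat.succ (Nat.div (Nat.mul 1 a.hi) 16) ≤ 2199023255552
    have e1 : Nat.mul 1 a.hi = 1 * a.hi := rfl
    have e2 : Nat.div (Nat.mul 1 a.hi) 16 = 1 * a.hi / 16 := rfl
    rw [e2, Nat.one_mul, Nat.succ_eq_add_one]
    omega
  have h3 := exp_mem h1 h2
  have h4 := h3.four.four
  have h5 : (Real.exp ((1 : ℕ) / (16 : ℕ) * x) ^ 4) ^ 4 = Real.exp x := by
    rw [← Real.exp_nat_mul, ← Real.exp_nat_mul]
    congr 1
    push_cast
    ring
  rw [h5] at h4
  have h6 : 0 < (four (four (exp (PI.smul 1 16 a)))).lo := by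
    have g0 : 1099511627776 ≤ (exp (PI.smul 1 16 a)).lo := by
      have g01 : ∀ b : PI, 1099511627776 ≤ (exp b).lo := by
        intro b
        have h1 : 1099511627776 ≤ Nat.add 1099511627776 (mulD b.lo (psD b.lo)) := Nat.le_add_right _ _
        exact h1
      exact g01 _
    have g1 : ∀ b : PI, 1099511627776 ≤ b.lo → 1099511627776 ≤ (four b).lo := by
      intro b hb
      exact ne_mulD_ge _ (ne_mulD_ge _ hb)
    exact lt_of_lt_of_le (by norm_num) (g1 _ (g1 _ g0))
  have h7 := h4.inv h6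
  rw [one_div, ← Real.exp_neg] at h7
  exact h7
end MP7e122f.Num
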