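import Pool.Agent.Lib.MP_7e122f_anR.NumSI

/-!
# Cosine and sine of `π e`, `0 ≤ e ≤ 1`
-/

namespace MP7e122f.Num

/-- `1 - x2/c * b`, rounded down (arguments: upper bounds) / up (arguments: lower bounds) -/
def kcD (c x2 b : Nat) : Nat := Nat.sub 1099511627776 (Nat.succ (Nat.div (mulU x2 b) c))
def kcU (c x2 b : Nat) : Nat := Nat.sub 1099511627776 (Nat.div (mulD x2 b) c)

/-- bounds of `(1 - cos x)/(x²/2)`, as functions of `x²` -/
def cosbL (x2 : PI) : Nat :=
  kcD 12 x2.hi (kcU 30 x2.lo (kcD 56 x2.hi (kcU 90 x2.lo (kcD 132 x2.hi 1099511627776))))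
def cosbU (x2 : PI) : Nat :=
  kcU 12 x2.lo (kcD 30 x2.hi (kcU 56 x2.lo (kcD 90 x2.hi 1099511627776)))

/-- bounds of `cos x` and `sin x` for `0 ≤ x ≤ 1` -/
def cosL (x : Nat) : Nat := kcD 2 (mulU x x) (cosbU ⟨mulD x x, mulU x x⟩)
def cosU (x : Nat) : Nat := kcU 2 (mulD x x) (cosbL ⟨mulD x x, mulU x x⟩)
def sinL (x : Nat) : Nat :=
  let a := mulD x x
  let b := mulU x x
  mulD x (kcD 6 b (kcU 20 a (kcD 42 b (kcU 72 a (kcD 110 b 1099511627776)))))
def sinU (x : Nat) : Nat :=
  let a := mulD x x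
  let b := mulU x x
  mulU x (kcU 6 a (kcD 20 b (kcU 42 a (kcD 72 b 1099511627776))))

def cosPI (x : PI) : PI := ⟨cosL x.hi, cosU x.lo⟩
def sinPI (x : PI) : PI := ⟨sinL x.lo, sinU x.hi⟩

/-- `π` -/
def piI : PI := ⟨3454217652357, 3454217652358⟩
/-- `√3` -/
def r3I : PI := ⟨1904410002820, 1904410002821⟩
/-- `π/√3` -/
def pr3I : PI := ⟨1994293491428, 1994293491429⟩

theorem piI_mem : piI.Mem Real.pi := by
  have h1 := Real.pi_gt_d20
  have h2 := Real.pi_lt_d20
  refine ⟨?_, ?_⟩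
  · show rv 3454217652357 ≤ Real.pi
    unfold rv
    refine le_trans ?_ h1.le
    norm_num
  · show Real.pi ≤ rv 3454217652358
    unfold rv
    refine le_trans h2.le ?_
    norm_num
theorem r3I_mem : r3I.Mem (Real.sqrt 3) := by
  refine ⟨?_, ?_⟩
  · show rv 1904410002820 ≤ Real.sqrt 3
    unfold rv
    apply Real.le_sqrt_of_sq_le
    norm_num
  · show Real.sqrt 3 ≤ rv 1904410002821
    unfold rv
    rw [Real.sqrt_le_left (by norm_num)]
    norm_num
theorem pr3I_mem : pr3I.Mem (Real.pi / Real.sqrt 3) := by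
  have h1 := Real.pi_gt_d20
  have h2 := Real.pi_lt_d20
  have h0 : 0 < Real.sqrt 3 := Real.sqrt_pos.2 (by norm_num)
  have h3 : (1.73205080756887729352 : ℝ) ≤ Real.sqrt 3 := by
    apply Real.le_sqrt_of_sq_le
    norm_num
  have h4 : Real.sqrt 3 ≤ 1.73205080756887729353 := by
    rw [Real.sqrt_le_left (by norm_num)]
    norm_num
  refine ⟨?_, ?_⟩
  · show rv 1994293491428 ≤ Real.pi / Real.sqrt 3
    unfold rv
    rw [le_div_iff₀ h0]
    refine le_trans (mul_le_mul_of_nonneg_left h4 (by norm_num)) (le_trans ?_ h1.le)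
    norm_num
  · show Real.pi / Real.sqrt 3 ≤ rv 1994293491429
    unfold rv
    rw [div_le_iff₀ h0]
    refine le_trans (le_trans h2.le ?_) (mul_le_mul_of_nonneg_left h3 (by norm_num))
    norm_num

private theorem nt_T {z T : ℝ} {c : ℝ} (hc : 2 ≤ c) (hz0 : 0 ≤ z) (hz1 : z ≤ 1) (hT : 0 ≤ T ∧ T ≤ 1) :
    0 ≤ 1 - z * T / c ∧ 1 - z * T / c ≤ 1 := by
  have h1 : 0 ≤ z * T := mul_nonneg hz0 hT.1
  have h2 : z * T ≤ 1 := mul_le_one₀ hz1 hT.1 hT.2
  have h3 : 0 ≤ z * T / c := by positivity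
  have h4 : z * T / c ≤ 1 := by
    rw [div_le_one (by linarith)]
    linarith
  exact ⟨by linarith, by linarith⟩

private theorem nt_kD (c X b : Nat) (z T : ℝ) (hc : 0 < c) (hz0 : 0 ≤ z) (hz : z ≤ rv X) (hT0 : 0 ≤ T)
    (hT : T ≤ rv b) (hpos : 0 ≤ 1 - z * T / c) : rv (kcD c X b) ≤ 1 - z * T / c := by
  unfold kcD
  apply rv_sub_of_le _ hpos
  rw [rv_lit]
  have hc' : (0 : ℝ) < c := by exact_mod_cast hc
  have h1 := le_rv_div (mulU X b) c hc
  have h2 := le_mulU X b
  have h3 : z * T ≤ rv X * rv b := mul_le_mul hz hT hT0 (rv_nonneg _)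
  have h4 : z * T / c ≤ rv (mulU X b) / c := div_le_div_of_nonneg_right (h3.trans h2) hc'.le
  linarith

private theorem nt_kU (c X b : Nat) (z T : ℝ) (hc : 0 < c) (hz : rv X ≤ z) (hT : rv b ≤ T)
    (hz0 : 0 ≤ z) : 1 - z * T / c ≤ rv (kcU c X b) := by
  unfold kcU
  refine le_trans ?_ (rv_sub_le _ _)
  rw [rv_lit]
  have hc' : (0 : ℝ) < c := by exact_mod_cast hc
  have h1 := rv_div_le (mulD X b) c
  have h2 := mulD_le X b
  have h3 : rv X * rv b ≤ z * T := mul_le_mul hz hT (rv_nonneg _) hz0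
  have h4 : rv (mulD X b) / c ≤ z * T / c := div_le_div_of_nonneg_right (h2.trans h3) hc'.le
  linarith

private theorem nt_anti (x : ℝ) (h0 : 0 ≤ x) (h1 : x ≤ 1) (r : ℕ) :
    Antitone (fun n : ℕ => x ^ (2 * n + r) / ((2 * n + r).factorial : ℝ)) := by
  apply antitone_nat_of_succ_le
  intro n
  apply div_le_div₀ (by positivity) _ (by positivity) _
  · apply pow_le_pow_of_le_one h0 h1
    omega
  · exact_mod_cast Nat.factorial_le (by omega)

/-- alternating Taylor bounds for the cosine -/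
private theorem nt_cos (x : ℝ) (h0 : 0 ≤ x) (h1 : x ≤ 1) :
    1 - x ^ 2 / 2 + x ^ 4 / 24 - x ^ 6 / 720 + x ^ 8 / 40320 - x ^ 10 / 3628800 ≤ Real.cos x ∧
    Real.cos x ≤ 1 - x ^ 2 / 2 + x ^ 4 / 24 - x ^ 6 / 720 + x ^ 8 / 40320 - x ^ 10 / 3628800 +
      x ^ 12 / 479001600 := by
  have hs := (Real.hasSum_cos x).tendsto_sum_nat
  have hs' : Filter.Tendsto (fun n => ∑ i ∈ Finset.range n, (-1 : ℝ) ^ i *
      (fun n : ℕ => x ^ (2 * n + 0) / ((2 * n + 0).factorial : ℝ)) i) Filter.atTop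
      (nhds (Real.cos x)) := by
    refine hs.congr (fun n => Finset.sum_congr rfl (fun i _ => ?_))
    simp only [Nat.add_zero]
    ring
  have ha := nt_anti x h0 h1 0
  have b1 := ha.alternating_series_le_tendsto hs' 3
  have b2 := ha.tendsto_le_alternating_series hs' 3
  norm_num [Finset.sum_range_succ, Nat.factorial] at b1 b2
  constructor
  · linarith
  · refine le_trans b2 (le_of_eq ?_)
    ring

/-- alternating Taylor bounds for the sine -/
private theorem nt_sin (x : ℝ) (h0 : 0 ≤ x) (h1 : x ≤ 1) :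
    x - x ^ 3 / 6 + x ^ 5 / 120 - x ^ 7 / 5040 + x ^ 9 / 362880 - x ^ 11 / 39916800 ≤ Real.sin x ∧
    Real.sin x ≤ x - x ^ 3 / 6 + x ^ 5 / 120 - x ^ 7 / 5040 + x ^ 9 / 362880 := by
  have hs := (Real.hasSum_sin x).tendsto_sum_nat
  have hs' : Filter.Tendsto (fun n => ∑ i ∈ Finset.range n, (-1 : ℝ) ^ i *
      (fun n : ℕ => x ^ (2 * n + 1) / ((2 * n + 1).factorial : ℝ)) i) Filter.atTop
      (nhds (Real.sin x)) := by
    refine hs.congr (fun n => Finset.sum_congr rfl (fun i _ => ?_))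
    ring
  have ha := nt_anti x h0 h1 1
  have b1 := ha.alternating_series_le_tendsto hs' 3
  have b2 := ha.tendsto_le_alternating_series hs' 2
  norm_num [Finset.sum_range_succ, Nat.factorial] at b1 b2
  constructor
  · linarith
  · refine le_trans b2 (le_of_eq ?_)
    ring

private theorem nt_mulU_le (a b A B : Nat) (ha : a ≤ A) (hb : b ≤ B) :
    mulU a b ≤ A * B / 1099511627776 + 1 := by
  unfold mulU
  have e : Nat.shiftRight (Nat.mul a b) 40 = (a * b) >>> 40 := rfl
  rw [e, Nat.shiftRight_eq_div_pow, Nat.succ_eq_add_one]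
  apply Nat.add_le_add_right
  exact Nat.div_le_div_right (Nat.mul_le_mul ha hb)

private theorem nt_pi_le (m : Nat) (h : m ≤ 274877906944) : mulU 3454217652358 m ≤ 1099511627776 :=
  (nt_mulU_le 3454217652358 m 3454217652358 274877906944 le_rfl h).trans (by norm_num)

/-- alternating Taylor series: for `0 ≤ x ≤ 1`, with `b = (1 - cos x)/(x²/2)` for `x ≠ 0` -/
theorem cosb_bounds {x : ℝ} {x2 : PI} (h0 : 0 < x) (h1 : x ≤ 1) (h : x2.Mem (x ^ 2))
    (h2 : x2.hi ≤ 1099511627778) :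
    rv (cosbL x2) ≤ (1 - Real.cos x) / (x ^ 2 / 2) ∧
      (1 - Real.cos x) / (x ^ 2 / 2) ≤ rv (cosbU x2) := by
  have hz0 : 0 ≤ x ^ 2 := by positivity
  have hz1 : x ^ 2 ≤ 1 := by nlinarith
  have hzl : rv x2.lo ≤ x ^ 2 := h.1
  have hzh : x ^ 2 ≤ rv x2.hi := h.2
  have hU : rv 1099511627776 = 1 := rv_lit
  obtain ⟨c1, c2⟩ := nt_cos x h0.le h1
  set z := x ^ 2 with hz
  have hzp : 0 < z / 2 := by positivity
  -- lower bound
  have t5 : 0 ≤ 1 - z * 1 / 132 ∧ 1 - z * 1 / 132 ≤ 1 := nt_T (by norm_num) hz0 hz1 ⟨by norm_num, le_rfl⟩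
  have t4 : 0 ≤ 1 - z * (1 - z * 1 / 132) / 90 ∧ 1 - z * (1 - z * 1 / 132) / 90 ≤ 1 :=
    nt_T (by norm_num) hz0 hz1 t5
  have t3 := nt_T (c := 56) (by norm_num) hz0 hz1 t4
  have t2 := nt_T (c := 30) (by norm_num) hz0 hz1 t3
  have t1 := nt_T (c := 12) (by norm_num) hz0 hz1 t2
  have l5 := nt_kD 132 x2.hi 1099511627776 z 1 (by norm_num) hz0 hzh (by norm_num) (le_of_eq hU.symm) t5.1
  have l4 := nt_kU 90 x2.lo _ z _ (by norm_num) hzl l5 hz0
  have l3 := nt_kD 56 x2.hi _ z _ (by norm_num) hz0 hzh t4.1 l4 t3.1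
  have l2 := nt_kU 30 x2.lo _ z _ (by norm_num) hzl l3 hz0
  have l1 := nt_kD 12 x2.hi _ z _ (by norm_num) hz0 hzh t2.1 l2 t1.1
  -- upper bound
  have s4 : 0 ≤ 1 - z * 1 / 90 ∧ 1 - z * 1 / 90 ≤ 1 := nt_T (by norm_num) hz0 hz1 ⟨by norm_num, le_rfl⟩
  have s3 := nt_T (c := 56) (by norm_num) hz0 hz1 s4
  have s2 := nt_T (c := 30) (by norm_num) hz0 hz1 s3
  have u4 := nt_kD 90 x2.hi 1099511627776 z 1 (by norm_num) hz0 hzh (by norm_num) (le_of_eq hU.symm) s4.1
  have u3 := nt_kU 56 x2.lo _ z _ (by norm_num) hzl u4 hz0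
  have u2 := nt_kD 30 x2.hi _ z _ (by norm_num) hz0 hzh s3.1 u3 s2.1
  have u1 := nt_kU 12 x2.lo _ z _ (by norm_num) hzl u2 hz0
  refine ⟨?_, ?_⟩
  · rw [le_div_iff₀ hzp]
    refine le_trans (mul_le_mul_of_nonneg_right (show rv (cosbL x2) ≤ _ from l1) hzp.le) ?_
    push_cast
    nlinarith
  · rw [div_le_iff₀ hzp]
    refine le_trans ?_ (mul_le_mul_of_nonneg_right (show _ ≤ rv (cosbU x2) from u1) hzp.le)
    push_cast
    nlinarith
theorem cosPI_mem {a : PI} {x : ℝ} (ha : a.Mem x) (h : a.hi ≤ 1099511627776) :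
    (cosPI a).Mem (Real.cos x) := by
  have hx0 : 0 ≤ x := ha.nonneg
  have hX1 : rv a.hi ≤ 1 := by
    have := rv_mono h
    rwa [rv_lit] at this
  have hU : rv 1099511627776 = 1 := rv_lit
  have hlo1 : rv a.lo ≤ 1 := (ha.1.trans ha.2).trans hX1
  have hsq : ∀ n : Nat, (⟨mulD n n, mulU n n⟩ : PI).Mem (rv n ^ 2) := by
    intro n
    refine ⟨?_, ?_⟩
    · rw [sq]; exact mulD_le n n
    · rw [sq]; exact le_mulU n n
  have hhi : ∀ n : Nat, n ≤ 1099511627776 → mulU n n ≤ 1099511627778 := by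
    intro n hn
    exact (nt_mulU_le n n 1099511627776 1099511627776 hn hn).trans (by norm_num)
  refine ⟨?_, ?_⟩
  · show rv (cosL a.hi) ≤ Real.cos x
    have hcc : Real.cos (rv a.hi) ≤ Real.cos x :=
      Real.cos_le_cos_of_nonneg_of_le_pi hx0 (by linarith [Real.pi_gt_three]) ha.2
    refine le_trans ?_ hcc
    rcases eq_or_lt_of_le (rv_nonneg a.hi) with h0 | h0
    · rw [← h0, Real.cos_zero]
      unfold cosL kcD
      refine le_trans (rv_mono (Nat.sub_le _ _)) (le_of_eq hU)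
    · obtain ⟨b1, b2⟩ := cosb_bounds h0 hX1 (hsq a.hi) (hhi _ h)
      have hb0 : 0 ≤ (1 - Real.cos (rv a.hi)) / (rv a.hi ^ 2 / 2) := by
        apply div_nonneg _ (by positivity)
        linarith [Real.cos_le_one (rv a.hi)]
      have e1 : 1 - rv a.hi ^ 2 * ((1 - Real.cos (rv a.hi)) / (rv a.hi ^ 2 / 2)) / (2 : ℕ) =
          Real.cos (rv a.hi) := by
        have : rv a.hi ≠ 0 := h0.ne'
        field_simp
        push_cast
        ring
      have hc0 : 0 ≤ Real.cos (rv a.hi) := by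
        apply Real.cos_nonneg_of_mem_Icc
        constructor <;> linarith [Real.pi_gt_three]
      have := nt_kD 2 (mulU a.hi a.hi) _ (rv a.hi ^ 2) _ (by norm_num) (by positivity)
        (hsq a.hi).2 hb0 b2 (by rw [e1]; exact hc0)
      rw [e1] at this
      exact this
  · show Real.cos x ≤ rv (cosU a.lo)
    have hcc : Real.cos x ≤ Real.cos (rv a.lo) :=
      Real.cos_le_cos_of_nonneg_of_le_pi (rv_nonneg _) (by linarith [Real.pi_gt_three, ha.2]) ha.1
    refine le_trans hcc ?_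
    rcases eq_or_lt_of_le (rv_nonneg a.lo) with h0 | h0
    · rw [← h0, Real.cos_zero]
      have hn0 : a.lo = 0 := by
        have : rv a.lo = 0 := h0.symm
        unfold rv at this
        have h3 : (a.lo : ℝ) = 0 := by
          rw [div_eq_zero_iff] at this
          rcases this with h | h
          · exact h
          · norm_num at h
        exact_mod_cast h3
      have hm : mulD a.lo a.lo = 0 := by rw [hn0]; rfl
      have := nt_kU 2 (mulD a.lo a.lo) (cosbL ⟨mulD a.lo a.lo, mulU a.lo a.lo⟩) 0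
        (rv (cosbL ⟨mulD a.lo a.lo, mulU a.lo a.lo⟩)) (by norm_num)
        (by rw [hm]; unfold rv; norm_num) le_rfl le_rfl
      refine le_trans (le_of_eq ?_) this
      rw [zero_mul, zero_div, sub_zero]
    · have hlo : a.lo ≤ 1099511627776 := by
        have h3 : rv a.lo ≤ rv 1099511627776 := by rw [hU]; exact hlo1
        unfold rv at h3
        rw [div_le_div_iff_of_pos_right (by norm_num)] at h3
        exact_mod_cast h3
      obtain ⟨b1, b2⟩ := cosb_bounds h0 hlo1 (hsq a.lo) (hhi _ hlo)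
      have e1 : 1 - rv a.lo ^ 2 * ((1 - Real.cos (rv a.lo)) / (rv a.lo ^ 2 / 2)) / (2 : ℕ) =
          Real.cos (rv a.lo) := by
        have : rv a.lo ≠ 0 := h0.ne'
        field_simp
        push_cast
        ring
      have := nt_kU 2 (mulD a.lo a.lo) _ (rv a.lo ^ 2) _ (by norm_num) (hsq a.lo).1 b1 (by positivity)
      rw [e1] at this
      exact this
theorem sinPI_mem {a : PI} {x : ℝ} (ha : a.Mem x) (h : a.hi ≤ 1099511627776) :
    (sinPI a).Mem (Real.sin x) := by
  have hx0 : 0 ≤ x := ha.nonneg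
  have hX1 : rv a.hi ≤ 1 := by
    have := rv_mono h
    rwa [rv_lit] at this
  have hU : rv 1099511627776 = 1 := rv_lit
  have hlo1 : rv a.lo ≤ 1 := (ha.1.trans ha.2).trans hX1
  have hpi := Real.pi_gt_three
  refine ⟨?_, ?_⟩
  · show rv (sinL a.lo) ≤ Real.sin x
    have hcc : Real.sin (rv a.lo) ≤ Real.sin x :=
      Real.sin_le_sin_of_le_of_le_pi_div_two (by linarith [rv_nonneg a.lo]) (by linarith [ha.2]) ha.1
    refine le_trans ?_ hcc
    obtain ⟨c1, c2⟩ := nt_sin (rv a.lo) (rv_nonneg _) hlo1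
    set y := rv a.lo with hy
    have hy0 : 0 ≤ y := rv_nonneg _
    have hz0 : 0 ≤ y ^ 2 := by positivity
    have hz1 : y ^ 2 ≤ 1 := by nlinarith
    have hzl : rv (mulD a.lo a.lo) ≤ y ^ 2 := by rw [sq]; exact mulD_le _ _
    have hzh : y ^ 2 ≤ rv (mulU a.lo a.lo) := by rw [sq]; exact le_mulU _ _
    set z := y ^ 2 with hz
    have t5 : 0 ≤ 1 - z * 1 / 110 ∧ 1 - z * 1 / 110 ≤ 1 := nt_T (by norm_num) hz0 hz1 ⟨by norm_num, le_rfl⟩
    have t4 := nt_T (c := 72) (by norm_num) hz0 hz1 t5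
    have t3 := nt_T (c := 42) (by norm_num) hz0 hz1 t4
    have t2 := nt_T (c := 20) (by norm_num) hz0 hz1 t3
    have t1 := nt_T (c := 6) (by norm_num) hz0 hz1 t2
    have l5 := nt_kD 110 _ 1099511627776 z 1 (by norm_num) hz0 hzh (by norm_num) (le_of_eq hU.symm) t5.1
    have l4 := nt_kU 72 _ _ z _ (by norm_num) hzl l5 hz0
    have l3 := nt_kD 42 _ _ z _ (by norm_num) hz0 hzh t4.1 l4 t3.1
    have l2 := nt_kU 20 _ _ z _ (by norm_num) hzl l3 hz0
    have l1 := nt_kD 6 _ _ z _ (by norm_num) hz0 hzh t2.1 l2 t1.1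
    refine le_trans (show rv (sinL a.lo) ≤ _ from mulD_le _ _) ?_
    refine le_trans (mul_le_mul_of_nonneg_left l1 hy0) (le_trans (le_of_eq ?_) c1)
    rw [hz]
    push_cast
    ring
  · show Real.sin x ≤ rv (sinU a.hi)
    have hcc : Real.sin x ≤ Real.sin (rv a.hi) :=
      Real.sin_le_sin_of_le_of_le_pi_div_two (by linarith) (by linarith) ha.2
    refine le_trans hcc ?_
    obtain ⟨c1, c2⟩ := nt_sin (rv a.hi) (rv_nonneg _) hX1
    set y := rv a.hi with hy
    have hy0 : 0 ≤ y := rv_nonneg _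
    have hz0 : 0 ≤ y ^ 2 := by positivity
    have hz1 : y ^ 2 ≤ 1 := by nlinarith
    have hzl : rv (mulD a.hi a.hi) ≤ y ^ 2 := by rw [sq]; exact mulD_le _ _
    have hzh : y ^ 2 ≤ rv (mulU a.hi a.hi) := by rw [sq]; exact le_mulU _ _
    set z := y ^ 2 with hz
    have t4 : 0 ≤ 1 - z * 1 / 72 ∧ 1 - z * 1 / 72 ≤ 1 := nt_T (by norm_num) hz0 hz1 ⟨by norm_num, le_rfl⟩
    have t3 := nt_T (c := 42) (by norm_num) hz0 hz1 t4
    have t2 := nt_T (c := 20) (by norm_num) hz0 hz1 t3
    have l4 := nt_kD 72 _ 1099511627776 z 1 (by norm_num) hz0 hzh (by norm_num) (le_of_eq hU.symm) t4.1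
    have l3 := nt_kU 42 _ _ z _ (by norm_num) hzl l4 hz0
    have l2 := nt_kD 20 _ _ z _ (by norm_num) hz0 hzh t3.1 l3 t2.1
    have l1 := nt_kU 6 _ _ z _ (by norm_num) hzl l2 hz0
    refine le_trans ?_ (show _ ≤ rv (sinU a.hi) from le_mulU _ _)
    refine le_trans (le_trans c2 (le_of_eq ?_)) (mul_le_mul_of_nonneg_left l1 hy0)
    rw [hz]
    push_cast
    ring

/-- `cos (π e)` for `e ∈ [el, eh] ⊆ [0,1]`, the interval being contained in one of
`[0,1/4], [1/4,1/2], [1/2,3/4], [3/4,1]` -/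
def cosE (el eh : Nat) : SI :=
  cond (Nat.ble eh 274877906944) (SI.ofPI (cosPI (PI.mul piI ⟨el, eh⟩)))
    (cond (Nat.ble eh 549755813888)
      (SI.ofPI (sinPI (PI.mul piI ⟨Nat.sub 549755813888 eh, Nat.sub 549755813888 el⟩)))
      (cond (Nat.ble eh 824633720832)
        (SI.neg (SI.ofPI (sinPI (PI.mul piI ⟨Nat.sub el 549755813888, Nat.sub eh 549755813888⟩))))
        (SI.neg (SI.ofPI (cosPI (PI.mul piI ⟨Nat.sub 1099511627776 eh, Nat.sub 1099511627776 el⟩))))))
def sinE (el eh : Nat) : PI :=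
  cond (Nat.ble eh 274877906944) (sinPI (PI.mul piI ⟨el, eh⟩))
    (cond (Nat.ble eh 549755813888)
      (cosPI (PI.mul piI ⟨Nat.sub 549755813888 eh, Nat.sub 549755813888 el⟩))
      (cond (Nat.ble eh 824633720832)
        (cosPI (PI.mul piI ⟨Nat.sub el 549755813888, Nat.sub eh 549755813888⟩))
        (sinPI (PI.mul piI ⟨Nat.sub 1099511627776 eh, Nat.sub 1099511627776 el⟩))))
/-- admissible interval -/
def okE (el eh : Nat) : Bool :=
  and (Nat.ble el eh) (or (Nat.ble eh 274877906944)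
    (or (and (Nat.ble 274877906944 el) (Nat.ble eh 549755813888))
      (or (and (Nat.ble 549755813888 el) (Nat.ble eh 824633720832))
        (and (Nat.ble 824633720832 el) (Nat.ble eh 1099511627776)))))

private theorem nt_sub_mem (C el eh : Nat) (e c : ℝ) (hc : rv C = c) (h1 : C ≤ el) (h2 : C ≤ eh)
    (he1 : rv el ≤ e) (he2 : e ≤ rv eh) : (⟨Nat.sub el C, Nat.sub eh C⟩ : PI).Mem (e - c) := by
  have g3 := rv_sub_eq h1
  have g4 := rv_sub_eq h2
  rw [hc] at g3 g4
  exact ⟨(le_of_eq g3).trans (by linarith), le_trans (by linarith) (le_of_eq g4.symm)⟩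

private theorem nt_ok {el eh : Nat} (h : okE el eh = true) :
    el ≤ eh ∧ (eh ≤ 274877906944 ∨ (274877906944 ≤ el ∧ eh ≤ 549755813888) ∨
      (549755813888 ≤ el ∧ eh ≤ 824633720832) ∨ (824633720832 ≤ el ∧ eh ≤ 1099511627776)) := by
  unfold okE at h
  simpa only [Bool.and_eq_true, Bool.or_eq_true, Nat.ble_eq] using h

theorem cosE_mem {el eh : Nat} (h : okE el eh = true) {e : ℝ} (h1 : rv el ≤ e) (h2 : e ≤ rv eh) :
    (cosE el eh).Mem (Real.cos (Real.pi * e)) := by
  have hok := nt_ok h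
  have h14 : rv 274877906944 = 1 / 4 := by unfold rv; norm_num
  have h12 : rv 549755813888 = 1 / 2 := by unfold rv; norm_num
  have hU : rv 1099511627776 = 1 := rv_lit
  unfold cosE
  cases c1 : Nat.ble eh 274877906944 with
  | true =>
    rw [cond_true]
    rw [Nat.ble_eq] at c1
    exact SI.Mem.ofPI (cosPI_mem (PI.Mem.mul piI_mem (b := ⟨el, eh⟩) ⟨h1, h2⟩) (nt_pi_le eh c1))
  | false =>
    rw [cond_false]
    have c1' : ¬ eh ≤ 274877906944 := by
      rw [← Nat.ble_eq, c1]; simp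
    cases c2 : Nat.ble eh 549755813888 with
    | true =>
      rw [cond_true]
      rw [Nat.ble_eq] at c2
      have hm : (⟨Nat.sub 549755813888 eh, Nat.sub 549755813888 el⟩ : PI).Mem (1 / 2 - e) := by
        refine ⟨?_, ?_⟩
        · show rv (Nat.sub 549755813888 eh) ≤ _
          rw [rv_sub_eq c2, h12]; linarith
        · show _ ≤ rv (Nat.sub 549755813888 el)
          rw [rv_sub_eq (by omega), h12]; linarith
      have e1 : Real.cos (Real.pi * e) = Real.sin (Real.pi * (1 / 2 - e)) := by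
        rw [← Real.cos_pi_div_two_sub]; congr 1; ring
      rw [e1]
      refine SI.Mem.ofPI (sinPI_mem (PI.Mem.mul piI_mem hm) (nt_pi_le _ ?_))
      show 549755813888 - el ≤ 274877906944
      omega
    | false =>
      rw [cond_false]
      have c2' : ¬ eh ≤ 549755813888 := by
        rw [← Nat.ble_eq, c2]; simp
      cases c3 : Nat.ble eh 824633720832 with
      | true =>
        rw [cond_true]
        rw [Nat.ble_eq] at c3
        have hm : (⟨Nat.sub el 549755813888, Nat.sub eh 549755813888⟩ : PI).Mem (e - 1 / 2) := by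
          exact nt_sub_mem 549755813888 el eh e (1 / 2) h12 (by omega) (by omega) h1 h2
        have e1 : Real.cos (Real.pi * e) = -Real.sin (Real.pi * (e - 1 / 2)) := by
          rw [← Real.sin_neg, ← Real.cos_pi_div_two_sub]
          rw [← Real.cos_neg]
          rw [← Real.cos_neg (Real.pi / 2 - _)]
          rw [show Real.pi * e = Real.pi / 2 - -(Real.pi * (e - 1 / 2)) by ring]
        rw [e1]
        refine SI.Mem.neg (SI.Mem.ofPI (sinPI_mem (PI.Mem.mul piI_mem hm) (nt_pi_le _ ?_)))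
        show eh - 549755813888 ≤ 274877906944
        omega
      | false =>
        rw [cond_false]
        have c3' : ¬ eh ≤ 824633720832 := by
          rw [← Nat.ble_eq, c3]; simp
        have hm : (⟨Nat.sub 1099511627776 eh, Nat.sub 1099511627776 el⟩ : PI).Mem (1 - e) := by
          have g1 : eh ≤ 1099511627776 := by omega
          have g2 : el ≤ 1099511627776 := by omega
          have g3 := rv_sub_eq g1
          have g4 := rv_sub_eq g2
          rw [hU] at g3 g4
          exact ⟨(le_of_eq g3).trans (by linarith), le_trans (by linarith) (le_of_eq g4.symm)⟩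
        have e1 : Real.cos (Real.pi * e) = -Real.cos (Real.pi * (1 - e)) := by
          rw [show Real.pi * (1 - e) = Real.pi - Real.pi * e by ring, Real.cos_pi_sub, neg_neg]
        rw [e1]
        refine SI.Mem.neg (SI.Mem.ofPI (cosPI_mem (PI.Mem.mul piI_mem hm) (nt_pi_le _ ?_)))
        show 1099511627776 - el ≤ 274877906944
        omega
theorem sinE_mem {el eh : Nat} (h : okE el eh = true) {e : ℝ} (h1 : rv el ≤ e) (h2 : e ≤ rv eh) :
    (sinE el eh).Mem (Real.sin (Real.pi * e)) := by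
  have hok := nt_ok h
  have h12 : rv 549755813888 = 1 / 2 := by unfold rv; norm_num
  have hU : rv 1099511627776 = 1 := rv_lit
  unfold sinE
  cases c1 : Nat.ble eh 274877906944 with
  | true =>
    rw [cond_true]
    rw [Nat.ble_eq] at c1
    exact sinPI_mem (PI.Mem.mul piI_mem (b := ⟨el, eh⟩) ⟨h1, h2⟩) (nt_pi_le eh c1)
  | false =>
    rw [cond_false]
    have c1' : ¬ eh ≤ 274877906944 := by
      rw [← Nat.ble_eq, c1]; simp
    cases c2 : Nat.ble eh 549755813888 with
    | true =>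
      rw [cond_true]
      rw [Nat.ble_eq] at c2
      have hm : (⟨Nat.sub 549755813888 eh, Nat.sub 549755813888 el⟩ : PI).Mem (1 / 2 - e) := by
        refine ⟨?_, ?_⟩
        · show rv (Nat.sub 549755813888 eh) ≤ _
          rw [rv_sub_eq c2, h12]; linarith
        · show _ ≤ rv (Nat.sub 549755813888 el)
          rw [rv_sub_eq (by omega), h12]; linarith
      have e1 : Real.sin (Real.pi * e) = Real.cos (Real.pi * (1 / 2 - e)) := by
        rw [← Real.cos_pi_div_two_sub]; congr 1; ring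
      rw [e1]
      refine cosPI_mem (PI.Mem.mul piI_mem hm) (nt_pi_le _ ?_)
      show 549755813888 - el ≤ 274877906944
      omega
    | false =>
      rw [cond_false]
      have c2' : ¬ eh ≤ 549755813888 := by
        rw [← Nat.ble_eq, c2]; simp
      cases c3 : Nat.ble eh 824633720832 with
      | true =>
        rw [cond_true]
        rw [Nat.ble_eq] at c3
        have hm : (⟨Nat.sub el 549755813888, Nat.sub eh 549755813888⟩ : PI).Mem (e - 1 / 2) := by
          exact nt_sub_mem 549755813888 el eh e (1 / 2) h12 (by omega) (by omega) h1 h2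
        have e1 : Real.sin (Real.pi * e) = Real.cos (Real.pi * (e - 1 / 2)) := by
          rw [← Real.cos_pi_div_two_sub, ← Real.cos_neg]
          congr 1; ring
        rw [e1]
        refine cosPI_mem (PI.Mem.mul piI_mem hm) (nt_pi_le _ ?_)
        show eh - 549755813888 ≤ 274877906944
        omega
      | false =>
        rw [cond_false]
        have c3' : ¬ eh ≤ 824633720832 := by
          rw [← Nat.ble_eq, c3]; simp
        have hm : (⟨Nat.sub 1099511627776 eh, Nat.sub 1099511627776 el⟩ : PI).Mem (1 - e) := by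
          have g1 : eh ≤ 1099511627776 := by omega
          have g2 : el ≤ 1099511627776 := by omega
          have g3 := rv_sub_eq g1
          have g4 := rv_sub_eq g2
          rw [hU] at g3 g4
          exact ⟨(le_of_eq g3).trans (by linarith), le_trans (by linarith) (le_of_eq g4.symm)⟩
        have e1 : Real.sin (Real.pi * e) = Real.sin (Real.pi * (1 - e)) := by
          rw [show Real.pi * (1 - e) = Real.pi - Real.pi * e by ring, Real.sin_pi_sub]
        rw [e1]
        refine sinPI_mem (PI.Mem.mul piI_mem hm) (nt_pi_le _ ?_)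
        show 1099511627776 - el ≤ 274877906944
        omega

end MP7e122f.Num
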