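import Pool.Agent.Lib.MP_7e122f_anR.JNumD
import Pool.Agent.Lib.MP_7e122f_anR.NumExp
import Pool.Agent.Lib.MP_7e122f_anR.NumTrig
import Pool.Agent.Lib.MP_7e122f_anR.JMono

namespace MP7e122f.Num

open MP7e122f.R

private theorem jnumA_rv_succ (n : Nat) : rv (Nat.succ n) = rv n + 1 / 1099511627776 := by
  unfold rv; push_cast; ring

private theorem jnumA_mulU_le (a b : Nat) : rv (mulU a b) ≤ rv a * rv b + 1 / 1099511627776 := by
  have h : mulU a b = Nat.succ (mulD a b) := rfl
  rw [h, jnumA_rv_succ]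
  linarith [mulD_le a b]

private theorem jnumA_divU_le (a b : Nat) : rv (divU a b) ≤ rv a / rv b + 1 / 1099511627776 := by
  have h : divU a b = Nat.succ (divD a b) := rfl
  rw [h, jnumA_rv_succ]
  linarith [divD_le a b]

private theorem jnumA_32 : rv 1649267441664 = 3 / 2 := by
  unfold rv; norm_num

private theorem jnumA_gen {c lo hi : Nat} {x : ℝ} (hc : rv c = 3 / 2) (hx1 : rv lo ≤ x) (hx2 : x ≤ rv hi)
    (hhi : hi ≤ 35184372088000) (h32 : 3 / 2 ≤ x) :
    rv (cond (Nat.ble c lo) (mulD (Nat.sub lo c) (expN ⟨hi, hi⟩).lo) 0) ≤ qj x := by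
  rcases Bool.eq_false_or_eq_true (Nat.ble c lo) with hb | hb
  · rw [hb, cond_true]
    have hle : c ≤ lo := Nat.le_of_ble_eq_true hb
    have h1 : rv (Nat.sub lo c) = rv lo - 3 / 2 := by
      rw [rv_sub_eq hle, hc]
    have h2 : rv (expN ⟨hi, hi⟩).lo ≤ Real.exp (-(rv hi)) :=
      (expN_mem (a := ⟨hi, hi⟩) (x := rv hi) ⟨le_rfl, le_rfl⟩ hhi).1
    have h3 : Real.exp (-(rv hi)) ≤ Real.exp (-x) := Real.exp_le_exp.mpr (neg_le_neg hx2)
    have h4 := mulD_le (Nat.sub lo c) (expN ⟨hi, hi⟩).lo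
    refine h4.trans ?_
    unfold qj
    refine mul_le_mul ?_ (h2.trans h3) (rv_nonneg _) (by linarith)
    rw [h1]
    linarith
  · rw [hb, cond_false]
    have h0 : rv 0 = 0 := by unfold rv; norm_num
    rw [h0]
    unfold qj
    exact mul_nonneg (by linarith) (Real.exp_pos _).le

private theorem jnumA_qpos {u : PI} {x : ℝ} (hx : u.Mem x) (hhi : u.hi ≤ 35184372088000) (h32 : 3 / 2 ≤ x) :
    rv (qpos u) ≤ qj x := by
  unfold qpos
  exact jnumA_gen jnumA_32 hx.1 hx.2 hhi h32

private theorem jnumA_q {u : PI} {x : ℝ} (hx : u.Mem x) (hhi : u.hi ≤ 35184372088000) :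
    rv (qpos u) - rv (qneg u) ≤ qj x := by
  rcases le_or_gt (3 / 2) x with h32 | h32
  · have := jnumA_qpos hx hhi h32
    have h2 := rv_nonneg (qneg u)
    linarith
  · have hq : qpos u = 0 := by
      unfold qpos
      rcases Bool.eq_false_or_eq_true (Nat.ble 1649267441664 u.lo) with hb | hb
      · exfalso
        have h1 := rv_le hb
        rw [jnumA_32] at h1
        linarith [hx.1]
      · rw [hb, cond_false]
    have hlo : u.lo ≤ 35184372088000 := (numOps_le_of_rv (hx.1.trans hx.2)).trans hhi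
    have h2 : Real.exp (-(rv u.lo)) ≤ rv (expN ⟨u.lo, u.lo⟩).hi :=
      (expN_mem (a := ⟨u.lo, u.lo⟩) (x := rv u.lo) ⟨le_rfl, le_rfl⟩ hlo).2
    have h3 : Real.exp (-x) ≤ Real.exp (-(rv u.lo)) := Real.exp_le_exp.mpr (neg_le_neg hx.1)
    have h4 := le_mulU (Nat.sub 1649267441664 u.lo) (expN ⟨u.lo, u.lo⟩).hi
    have h5 : 3 / 2 - rv u.lo ≤ rv (Nat.sub 1649267441664 u.lo) := by
      rw [← jnumA_32]; exact rv_sub_le _ _
    have h6 : (3 / 2 - x) * Real.exp (-x) ≤ rv (Nat.sub 1649267441664 u.lo) * rv (expN ⟨u.lo, u.lo⟩).hi :=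
      mul_le_mul (by linarith [hx.1]) (h3.trans h2) (Real.exp_pos _).le (rv_nonneg _)
    have h7 : rv (qneg u) = rv (mulU (Nat.sub 1649267441664 u.lo) (expN ⟨u.lo, u.lo⟩).hi) := rfl
    have h0 : rv 0 = 0 := by unfold rv; norm_num
    rw [hq, h0, h7]
    unfold qj
    have h8 : (x - 3 / 2) * Real.exp (-x) = -((3 / 2 - x) * Real.exp (-x)) := by ring
    rw [h8]
    linarith

private theorem jnumA_cell {al ah tl th : Nat} (h : psiCell al ah tl th = true)
    {a τ : ℝ} (h1 : rv al ≤ a) (h2 : a ≤ rv ah) (h3 : rv tl ≤ τ) (h4 : τ ≤ rv th) : 0 ≤ PsiJ a τ := by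
  unfold psiCell at h
  dsimp only at h
  simp only [Bool.and_eq_true] at h
  obtain ⟨k1, k2, k3, k4, k5⟩ := h
  have e1 : (1 : ℝ) ≤ rv tl := by
    have := rv_le k1
    rwa [rv_lit] at this
  have e2 : rv th ≤ 2 := by
    have := rv_le k2
    have h2 : rv 2199023255552 = 2 := by unfold rv; norm_num
    rwa [h2] at this
  have e3 : 1.4 ≤ a := by
    have := rv_le k3
    have h5 : (1.4 : ℝ) ≤ rv 1539316278888 := by unfold rv; norm_num
    linarith
  have hτ1 : 1 ≤ τ := e1.trans h3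
  have hτ2 : τ ≤ 2 := h4.trans e2
  have hτ0 : 0 < τ := by linarith
  have ha0 : 0 < a := by linarith
  have hth0 : 0 < rv th := by linarith
  have htl0 : 0 < rv tl := by linarith
  have htlN : 0 < tl := by
    rcases Nat.eq_zero_or_pos tl with h0 | h0
    · rw [h0] at htl0; unfold rv at htl0; norm_num at htl0
    · exact h0
  have hthN : 0 < th := by
    rcases Nat.eq_zero_or_pos th with h0 | h0
    · rw [h0] at hth0; unfold rv at hth0; norm_num at hth0
    · exact h0
  -- inverses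
  obtain ⟨il, hil⟩ : ∃ x, x = divD 1099511627776 th := ⟨_, rfl⟩
  obtain ⟨ih, hih⟩ : ∃ x, x = divU 1099511627776 tl := ⟨_, rfl⟩
  have hil1 : rv il ≤ 1 / rv th := by
    rw [hil]; have := divD_le 1099511627776 th; rwa [rv_lit] at this
  have hil2 : rv il ≤ 1 / τ := hil1.trans (one_div_le_one_div_of_le hτ0 h4)
  have hih1 : 1 / rv tl ≤ rv ih := by
    rw [hih]; have := le_divU 1099511627776 tl htlN; rwa [rv_lit] at this
  have hih2 : 1 / τ ≤ rv ih := (one_div_le_one_div_of_le htl0 h3).trans hih1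
  have hih3 : rv ih ≤ 1 / rv tl + 1 / 1099511627776 := by
    rw [hih]; have := jnumA_divU_le 1099511627776 tl; rwa [rv_lit] at this
  have hτi : 0 < 1 / τ := by positivity
  -- u4 inner
  have hv1 : rv (divD 1099511627776 tl) ≤ 1 / rv tl := by
    have := divD_le 1099511627776 tl; rwa [rv_lit] at this
  have hv2 : 1 / rv th ≤ rv (divU 1099511627776 th) := by
    have := le_divU 1099511627776 th hthN; rwa [rv_lit] at this
  rw [← hil, ← hih] at k5
  -- monotonicity of 4 t + 1 / t on [1, ∞) and t + 4 / t on [1, 2]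
  have mono4 : ∀ x y : ℝ, 1 ≤ x → x ≤ y → 4 * x + 1 / x ≤ 4 * y + 1 / y := by
    intro x y hx hxy
    have hx0 : 0 < x := by linarith
    have hy0 : 0 < y := by linarith
    have : 4 * y + 1 / y - (4 * x + 1 / x) = (y - x) * (4 - 1 / (x * y)) := by
      field_simp; ring
    have h5 : 1 / (x * y) ≤ 1 := by
      rw [div_le_one (by positivity)]; nlinarith
    have : 0 ≤ (y - x) * (4 - 1 / (x * y)) := mul_nonneg (by linarith) (by linarith)
    linarith
  have mono3 : ∀ x y : ℝ, 1 ≤ x → x ≤ y → y ≤ 2 → y + 4 / y ≤ x + 4 / x := by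
    intro x y hx hxy hy2
    have hx0 : 0 < x := by linarith
    have hy0 : 0 < y := by linarith
    have : x + 4 / x - (y + 4 / y) = (y - x) * (4 / (x * y) - 1) := by
      field_simp; ring
    have h5 : 1 ≤ 4 / (x * y) := by
      rw [le_div_iff₀ (by positivity)]; nlinarith
    have : 0 ≤ (y - x) * (4 / (x * y) - 1) := mul_nonneg (by linarith) (by linarith)
    linarith
  -- membership
  have m1 : (PI.mk (mulD al il) (mulU ah ih)).Mem (a / τ) := by
    constructor
    · refine (mulD_le al il).trans ?_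
      rw [div_eq_mul_one_div]
      exact mul_le_mul h1 hil2 (rv_nonneg _) ha0.le
    · refine le_trans ?_ (le_mulU ah ih)
      rw [div_eq_mul_one_div]
      exact mul_le_mul h2 hih2 hτi.le (rv_nonneg _)
  have m2 : (PI.mk (mulD al tl) (mulU ah th)).Mem (a * τ) := by
    constructor
    · refine (mulD_le al tl).trans ?_
      exact mul_le_mul h1 h3 (rv_nonneg _) ha0.le
    · refine le_trans ?_ (le_mulU ah th)
      exact mul_le_mul h2 h4 hτ0.le (rv_nonneg _)
  have m3 : (PI.mk (mulD al (Nat.add th (Nat.mul 4 il))) (mulU ah (Nat.add tl (Nat.mul 4 ih)))).Mem (a * (τ + 4 / τ)) := by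
    constructor
    · refine (mulD_le al _).trans ?_
      refine mul_le_mul h1 ?_ (rv_nonneg _) ha0.le
      rw [rv_add, rv_nmul]
      push_cast
      have := mono3 τ (rv th) hτ1 h4 e2
      have h6 : 4 * rv il ≤ 4 / rv th := by
        have := mul_le_mul_of_nonneg_left hil1 (show (0:ℝ) ≤ 4 by norm_num)
        rwa [← mul_div_assoc, mul_one] at this
      linarith
    · refine le_trans ?_ (le_mulU ah _)
      refine mul_le_mul h2 ?_ (by positivity) (rv_nonneg _)
      rw [rv_add, rv_nmul]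
      push_cast
      have := mono3 (rv tl) τ e1 h3 hτ2
      have h6 : 4 / rv tl ≤ 4 * rv ih := by
        have := mul_le_mul_of_nonneg_left hih1 (show (0:ℝ) ≤ 4 by norm_num)
        rwa [← mul_div_assoc, mul_one] at this
      linarith
  have m4 : (PI.mk (mulD al (Nat.add (Nat.mul 4 tl) (divD 1099511627776 tl)))
      (mulU ah (Nat.add (Nat.mul 4 th) (divU 1099511627776 th)))).Mem (a * (4 * τ + 1 / τ)) := by
    constructor
    · refine (mulD_le al _).trans ?_
      refine mul_le_mul h1 ?_ (rv_nonneg _) ha0.le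
      rw [rv_add, rv_nmul]
      push_cast
      have := mono4 (rv tl) τ e1 h3
      linarith
    · refine le_trans ?_ (le_mulU ah _)
      refine mul_le_mul h2 ?_ (by positivity) (rv_nonneg _)
      rw [rv_add, rv_nmul]
      push_cast
      have := mono4 τ (rv th) hτ1 h4
      linarith
  -- the upper bounds of the intervals
  have hB : rv 35184372000000 < 32 - 1 / 100000000 := by unfold rv; norm_num
  have hB2 : (32 : ℝ) - 1 / 1000000000 ≤ rv 35184372088000 := by unfold rv; norm_num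
  have hah0 : 0 ≤ rv ah := rv_nonneg _
  have k4' : rv (mulU ah (Nat.add (Nat.mul 4 th) (divU 1099511627776 th))) ≤ rv 35184372000000 := rv_le k4
  have hin4 : 5 ≤ rv (Nat.add (Nat.mul 4 th) (divU 1099511627776 th)) := by
    rw [rv_add, rv_nmul]
    push_cast
    have := mono4 1 (rv th) le_rfl (by linarith)
    norm_num at this
    have h7 : (1 : ℝ) / rv th = (rv th)⁻¹ := one_div _
    linarith
  have hah5 : 5 * rv ah ≤ rv 35184372000000 := by
    have h8 := (le_mulU ah (Nat.add (Nat.mul 4 th) (divU 1099511627776 th))).trans k4'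
    nlinarith
  have hahb : rv ah ≤ 7 := by linarith
  have hbd : ∀ n : Nat, rv (mulU ah n) ≤ 5 * rv ah + 8 * (5 / 1099511627776) → mulU ah n ≤ 35184372088000 := by
    intro n hn
    apply numOps_le_of_rv
    have : (8 : ℝ) * (5 / 1099511627776) ≤ 1 / 1000000000 := by norm_num
    have h9 : (1 : ℝ) / 1000000000 + 1 / 1000000000 ≤ 1 / 100000000 := by norm_num
    linarith
  have htli : 1 / rv tl ≤ 1 := by rw [div_le_one htl0]; exact e1
  have b1 : mulU ah ih ≤ 35184372088000 := by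
    apply hbd
    refine (jnumA_mulU_le ah ih).trans ?_
    have : rv ih ≤ 2 := by
      have : (1 : ℝ) / 1099511627776 ≤ 1 := by norm_num
      linarith
    have h10 : rv ah * rv ih ≤ 5 * rv ah := by nlinarith
    have : (1 : ℝ) / 1099511627776 ≤ 8 * (5 / 1099511627776) := by norm_num
    linarith
  have b2 : mulU ah th ≤ 35184372088000 := by
    apply hbd
    refine (jnumA_mulU_le ah th).trans ?_
    have h10 : rv ah * rv th ≤ 5 * rv ah := by nlinarith
    have : (1 : ℝ) / 1099511627776 ≤ 8 * (5 / 1099511627776) := by norm_num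
    linarith
  have b3 : mulU ah (Nat.add tl (Nat.mul 4 ih)) ≤ 35184372088000 := by
    apply hbd
    refine (jnumA_mulU_le ah _).trans ?_
    rw [rv_add, rv_nmul]
    push_cast
    have hh := mono3 1 (rv tl) le_rfl e1 (by linarith)
    norm_num at hh
    have h11 : 4 * rv ih ≤ 4 / rv tl + 4 / 1099511627776 := by
      have := mul_le_mul_of_nonneg_left hih3 (show (0:ℝ) ≤ 4 by norm_num)
      calc 4 * rv ih ≤ 4 * (1 / rv tl + 1 / 1099511627776) := this
        _ = 4 / rv tl + 4 / 1099511627776 := by ring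
    have h12 : rv ah * (rv tl + 4 * rv ih) ≤ rv ah * (5 + 4 / 1099511627776) :=
      mul_le_mul_of_nonneg_left (by linarith) hah0
    have h13 : rv ah * (4 / 1099511627776) ≤ 7 * (4 / 1099511627776) :=
      mul_le_mul_of_nonneg_right hahb (by norm_num)
    have h14 : (7 : ℝ) * (4 / 1099511627776) + 1 / 1099511627776 ≤ 8 * (5 / 1099511627776) := by norm_num
    nlinarith
  have b4 : mulU ah (Nat.add (Nat.mul 4 th) (divU 1099511627776 th)) ≤ 35184372088000 :=
    (Nat.le_of_ble_eq_true k4).trans (by norm_num)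
  -- the four values
  have q1 := jnumA_q m1 b1
  have q2 := jnumA_q m2 b2
  have x3 : 3 / 2 ≤ a * (τ + 4 / τ) := by
    have h15 : 4 ≤ τ + 4 / τ := by
      have := mono3 τ 2 hτ1 hτ2 le_rfl
      norm_num at this
      linarith
    nlinarith
  have x4 : 3 / 2 ≤ a * (4 * τ + 1 / τ) := by
    have h15 : 4 ≤ 4 * τ + 1 / τ := by nlinarith
    nlinarith
  have q3 := jnumA_qpos m3 b3 x3
  have q4 := jnumA_qpos m4 b4 x4
  -- the weights
  have w1l : rv (mulD il il) ≤ 1 / τ ^ 2 := by
    refine (mulD_le il il).trans ?_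
    have : 1 / τ ^ 2 = 1 / τ * (1 / τ) := by field_simp
    rw [this]
    exact mul_le_mul hil2 hil2 (rv_nonneg _) hτi.le
  have w1u : 1 / τ ^ 2 ≤ rv (mulU ih ih) := by
    refine le_trans ?_ (le_mulU ih ih)
    have : 1 / τ ^ 2 = 1 / τ * (1 / τ) := by field_simp
    rw [this]
    exact mul_le_mul hih2 hih2 hτi.le (rv_nonneg _)
  have hsq4 : 1 ≤ 4 / τ ^ 2 := by
    rw [le_div_iff₀ (by positivity)]; nlinarith
  have hsq1 : 1 / τ ^ 2 ≤ 1 := by
    rw [div_le_one (by positivity)]; nlinarith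
  have w3 : rv (Nat.sub (Nat.mul 4 (mulD il il)) 1099511627776) ≤ 4 / τ ^ 2 - 1 := by
    apply rv_sub_of_le
    · rw [rv_nmul, rv_lit]
      push_cast
      have : 4 / τ ^ 2 = 4 * (1 / τ ^ 2) := by ring
      rw [this]
      linarith
    · linarith
  have w4 : rv (Nat.sub 4398046511104 (mulU ih ih)) ≤ 4 - 1 / τ ^ 2 := by
    apply rv_sub_of_le
    · have : rv 4398046511104 = 4 := by unfold rv; norm_num
      rw [this]
      linarith
    · linarith
  -- final inequality
  have hfin := rv_le k5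
  rw [rv_add, rv_add, rv_add, rv_nmul, rv_add] at hfin
  push_cast at hfin
  set Q1 := qpos (PI.mk (mulD al il) (mulU ah ih))
  set N1 := qneg (PI.mk (mulD al il) (mulU ah ih))
  set Q2 := qpos (PI.mk (mulD al tl) (mulU ah th))
  set N2 := qneg (PI.mk (mulD al tl) (mulU ah th))
  set Q3 := qpos (PI.mk (mulD al (Nat.add th (Nat.mul 4 il))) (mulU ah (Nat.add tl (Nat.mul 4 ih))))
  set Q4 := qpos (PI.mk (mulD al (Nat.add (Nat.mul 4 tl) (divD 1099511627776 tl)))
      (mulU ah (Nat.add (Nat.mul 4 th) (divU 1099511627776 th))))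
  have f1 : rv (mulD (mulD il il) Q1) ≤ 1 / τ ^ 2 * rv Q1 :=
    (mulD_le _ _).trans (mul_le_mul_of_nonneg_right w1l (rv_nonneg _))
  have f2 : 1 / τ ^ 2 * rv N1 ≤ rv (mulU (mulU ih ih) N1) :=
    le_trans (mul_le_mul_of_nonneg_right w1u (rv_nonneg _)) (le_mulU _ _)
  have f3 : rv (mulD (Nat.sub (Nat.mul 4 (mulD il il)) 1099511627776) Q3) ≤ (4 / τ ^ 2 - 1) * qj (a * (τ + 4 / τ)) :=
    (mulD_le _ _).trans (mul_le_mul w3 q3 (rv_nonneg _) (by linarith))
  have f4 : rv (mulD (Nat.sub 4398046511104 (mulU ih ih)) Q4) ≤ (4 - 1 / τ ^ 2) * qj (a * (4 * τ + 1 / τ)) :=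
    (mulD_le _ _).trans (mul_le_mul w4 q4 (rv_nonneg _) (by linarith))
  have f5 : 1 / τ ^ 2 * rv Q1 - 1 / τ ^ 2 * rv N1 ≤ qj (a / τ) / τ ^ 2 := by
    have h16 : 0 ≤ 1 / τ ^ 2 := by positivity
    have := mul_le_mul_of_nonneg_left q1 h16
    calc 1 / τ ^ 2 * rv Q1 - 1 / τ ^ 2 * rv N1 = 1 / τ ^ 2 * (rv Q1 - rv N1) := by ring
      _ ≤ 1 / τ ^ 2 * qj (a / τ) := this
      _ = qj (a / τ) / τ ^ 2 := by ring
  unfold PsiJ
  linarith

theorem psiChk_ok {T : Tr} {al ah tl th : Nat} (h : psiChk T al ah tl th = true)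
    (ha : al ≤ ah) (ht : tl ≤ th) {a τ : ℝ} (h1 : rv al ≤ a) (h2 : a ≤ rv ah) (h3 : rv tl ≤ τ)
    (h4 : τ ≤ rv th) : 0 ≤ PsiJ a τ := by
  induction T generalizing al ah tl th with
  | e => exact jnumA_cell h h1 h2 h3 h4
  | g => exact absurd h (by simp [psiChk])
  | o =>
    simp only [psiChk, Bool.and_eq_true] at h
    obtain ⟨k1, k2, k3⟩ := h
    have e1 : (1 : ℝ) ≤ rv tl := by
      have := rv_le k2
      rwa [rv_lit] at this
    have e2 : rv th ≤ 2 := by
      have := rv_le k3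
      have h2 : rv 2199023255552 = 2 := by unfold rv; norm_num
      rwa [h2] at this
    have e3 := rv_le k1
    rw [rv_nmul, rv_nmul] at e3
    push_cast at e3
    exact PsiJ_nonneg (e1.trans h3) (h4.trans e2) (by linarith)
  | r A B ihA ihB =>
    simp only [psiChk, Bool.and_eq_true] at h
    obtain ⟨k1, k2⟩ := h
    have e1 : Nat.div (Nat.add al ah) 2 = (al + ah) / 2 := rfl
    have hm1 : al ≤ Nat.div (Nat.add al ah) 2 := by rw [e1]; omega
    have hm2 : Nat.div (Nat.add al ah) 2 ≤ ah := by rw [e1]; omega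
    rcases le_total a (rv (Nat.div (Nat.add al ah) 2)) with hc | hc
    · exact ihA k1 hm1 ht h1 hc h3 h4
    · exact ihB k2 hm2 ht hc h2 h3 h4
  | p A B ihA ihB =>
    simp only [psiChk, Bool.and_eq_true] at h
    obtain ⟨k1, k2⟩ := h
    have e1 : Nat.div (Nat.add tl th) 2 = (tl + th) / 2 := rfl
    have hm1 : tl ≤ Nat.div (Nat.add tl th) 2 := by rw [e1]; omega
    have hm2 : Nat.div (Nat.add tl th) 2 ≤ th := by rw [e1]; omega
    rcases le_total τ (rv (Nat.div (Nat.add tl th) 2)) with hc | hc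
    · exact ihA k1 ha hm1 h1 h2 h3 hc
    · exact ihB k2 ha hm2 h1 h2 hc h4

end MP7e122f.Num
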