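import Pool.Agent.Lib.MP_7e122f_anR.JNumA

namespace MP7e122f.Num

open MP7e122f.R

private theorem jnumB_aux {l : List CP} {tl : Nat} (h : stairChk tl l = true) (htl : 1 ≤ rv tl) {th al : Nat}
    (h' : stairTo th al l = true) {a τ : ℝ} (h1 : rv al ≤ a) (h2 : rv tl ≤ τ) (h3 : τ ≤ rv th) :
    0 ≤ PsiJ a τ := by
  induction l generalizing tl with
  | nil => exact absurd h' (by simp [stairTo])
  | cons c l ih =>
    simp only [stairChk, Bool.and_eq_true] at h
    obtain ⟨k1, k2, k3, k4, k5, k6⟩ := h
    simp only [stairTo, Bool.and_eq_true] at h'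
    obtain ⟨g1, g2⟩ := h'
    have e2 : rv c.th ≤ 2 := by
      have := rv_le k5
      have h2 : rv 2199023255552 = 2 := by unfold rv; norm_num
      rwa [h2] at this
    rcases le_or_gt τ (rv c.th) with hτ | hτ
    · rcases le_or_gt a (rv c.ah) with hac | hac
      · exact psiChk_ok k1 (Nat.le_of_ble_eq_true k3) (Nat.le_of_ble_eq_true k2) ((rv_le g1).trans h1) hac h2 hτ
      · have e3 := rv_le k4
        rw [rv_nmul, rv_nmul] at e3
        push_cast at e3
        exact PsiJ_nonneg (htl.trans h2) (hτ.trans e2) (by linarith)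
    · cases hb : Nat.ble th c.th with
      | true =>
        exfalso
        have := rv_le hb
        linarith
      | false =>
        rw [hb] at g2
        exact ih k6 (htl.trans (rv_le k2)) g2 hτ.le

/-- if the strips up to `τ = rv th` have lower bounds `≤ al`, then `PsiJ ≥ 0` for all
`a ≥ rv al`, `1 ≤ τ ≤ rv th` -/
theorem stair_ok {l : List CP} (h : stairChk 1099511627776 l = true) {th al : Nat}
    (h' : stairTo th al l = true) {a τ : ℝ} (h1 : rv al ≤ a) (h2 : 1 ≤ τ) (h3 : τ ≤ rv th) :
    0 ≤ PsiJ a τ :=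
  jnumB_aux h rv_lit.ge h' h1 (rv_lit.le.trans h2) h3

end MP7e122f.Num
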