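import Pool.Agent.Lib.MP_7e122f_anR.JNumD
import Pool.Agent.Lib.MP_7e122f_anR.NumExp
import Pool.Agent.Lib.MP_7e122f_anR.NumTrig
import Pool.Agent.Lib.MP_7e122f_anR.JFin

namespace MP7e122f.Num

open MP7e122f.R

private theorem jnc_one : rv 1 = 1 / 1099511627776 := by
  unfold rv; norm_num

private theorem jnc_succ (n : Nat) : rv (Nat.succ n) = rv n + rv 1 := by
  unfold rv
  push_cast
  ring

private theorem jnc_mulU (a b : Nat) : rv (mulU a b) ≤ rv a * rv b + rv 1 := by
  have h : rv (mulU a b) = rv (mulD a b) + rv 1 := jnc_succ _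
  rw [h]
  have := mulD_le a b
  linarith

private theorem jnc_mul (a b : PI) : rv (a.mul b).hi ≤ rv a.hi * rv b.hi + rv 1 := jnc_mulU _ _

private theorem jnc_smul (m : Nat) (a : PI) : rv (a.smul m 1).hi ≤ m * rv a.hi + rv 1 := by
  have h : rv (a.smul m 1).hi = rv (Nat.div (Nat.mul m a.hi) 1) + rv 1 := jnc_succ _
  rw [h]
  have h2 := rv_div_le (Nat.mul m a.hi) 1
  rw [rv_nmul] at h2
  push_cast at h2
  linarith

private theorem jnc_add (a b : PI) : rv (a.add b).hi = rv a.hi + rv b.hi := rv_add _ _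

private theorem jnc_inv (n : Nat) (hn : 0 < n) :
    rv (PI.inv ⟨n, n⟩).hi ≤ 1 / rv n + rv 1 := by
  have h : rv (PI.inv ⟨n, n⟩).hi = rv (Nat.div 1208925819614629174706176 n) + rv 1 := jnc_succ _
  rw [h]
  have h2 := rv_div_le 1208925819614629174706176 n
  have e : rv 1208925819614629174706176 / (n : ℝ) = 1 / rv n := by
    have hn' : (n : ℝ) ≠ 0 := by exact_mod_cast hn.ne'
    unfold rv
    push_cast
    field_simp
    norm_num
  rw [e] at h2
  linarith

private theorem jnc_hi {x : Nat} (h : rv x ≤ 31.99) : x ≤ 35184372088000 := by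
  apply numOps_le_of_rv
  refine h.trans ?_
  unfold rv
  norm_num

/-- the last comparison of `jdChk` -/
private def jncFin (a : PI) (sl sh hb : Nat) : Bool :=
  let S : PI := ⟨sh, sh⟩
  let is := PI.inv S
  let ai := PI.mul a is
  let e1 := (expN ai).hi
  let e2 := (expN (PI.mul a S)).lo
  let e3 := (expN (PI.mul a (PI.add S (PI.smul 4 1 is)))).hi
  let e4 := (expN (PI.mul a (PI.add (PI.smul 4 1 S) is))).lo
  let e5 := (expN (PI.smul 9 1 ai)).hi
  let e6 := (expN (PI.mul a (PI.add S (PI.smul 16 1 is)))).hi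
  let e7 := (expN (PI.smul 12 1 a)).hi
  let e8 := mulU e5 e5
  let pre := sqU (divU (Nat.mul 4 a.hi) (mulD 3454217652357 sl))
  let pos := Nat.add (Nat.add (Nat.mul 2 (Nat.sub e1 e2)) (Nat.mul 4 (Nat.sub e3 e4)))
    (Nat.add (Nat.add (Nat.mul 2 e5) (Nat.mul 4 e6)) (Nat.add (Nat.mul 4 e7) (Nat.mul 8 e8)))
  Nat.ble (Nat.succ (Nat.add (mulU pre pos) hb)) 1099511627776

private theorem jnc_core {A : PI} {sl sh hb : Nat} (c6 : jncFin A sl sh hb = true) {a s : ℝ}
    (ha : A.Mem a) (a1 : 1.4 ≤ a) (a2 : rv A.hi ≤ 1.875) (s1 : 1 ≤ s) (s2 : s ≤ 1.8)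
    (sS : s ≤ rv sh) (sL : rv sl ≤ s) (L1 : 1 ≤ rv sl) (S1 : 1 ≤ rv sh) (S2 : rv sh ≤ 1.8) :
    JU a s < 1 - rv hb := by
  unfold jncFin at c6
  simp only [] at c6
  have a0 : 0 < a := by linarith
  have s0 : 0 < s := by linarith
  have shpos : 0 < sh := by
    rcases Nat.eq_zero_or_pos sh with h0 | h0
    · rw [h0] at S1
      unfold rv at S1
      norm_num at S1
    · exact h0
  have slpos : 0 < sl := by
    rcases Nat.eq_zero_or_pos sl with h0 | h0
    · rw [h0] at L1
      unfold rv at L1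
      norm_num at L1
    · exact h0
  -- membership
  obtain ⟨σ, hσ⟩ : ∃ σ : ℝ, σ = rv sh := ⟨_, rfl⟩
  rw [← hσ] at sS S1 S2
  have σ0 : 0 < σ := by linarith
  have mS : PI.Mem ⟨sh, sh⟩ σ := by rw [hσ]; exact ⟨le_rfl, le_rfl⟩
  have mis : PI.Mem (PI.inv ⟨sh, sh⟩) (1 / σ) := mS.inv shpos
  have eps : rv 1 ≤ 1 / 10 ^ 9 := by rw [jnc_one]; norm_num
  have eps0 : 0 ≤ rv 1 := rv_nonneg 1
  have uis : rv (PI.inv ⟨sh, sh⟩).hi ≤ 1 / σ + rv 1 := by rw [hσ]; exact jnc_inv sh shpos
  have uS : rv (PI.mk sh sh).hi = σ := hσ.symm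
  generalize hISd : PI.inv ⟨sh, sh⟩ = IS at c6 mis uis
  generalize hSd : PI.mk sh sh = SS at c6 mS uS
  have ah0 : 0 ≤ rv A.hi := rv_nonneg _
  have iσ1 : 1 / σ ≤ 1 := by
    rw [div_le_one σ0]; exact S1
  have iσ0 : 0 < 1 / σ := by positivity
  have mai : PI.Mem (PI.mul A IS) (a / σ) := by
    have := ha.mul mis
    rwa [mul_one_div] at this
  have uai : rv (PI.mul A IS).hi ≤ 1.8751 := by
    have h3 := jnc_mul A IS
    have h4 : rv A.hi * rv IS.hi ≤ 1.875 * (1 + 1 / 10 ^ 9) := by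
      apply mul_le_mul a2 (by linarith) (rv_nonneg _) (by norm_num)
    norm_num at h4 eps ⊢
    linarith
  generalize hai : PI.mul A IS = ai at c6 mai uai
  have m1 : PI.Mem (expN ai) (Real.exp (-(a / σ))) := expN_mem mai (jnc_hi (by linarith))
  have m2 : PI.Mem (expN (PI.mul A SS)) (Real.exp (-(a * σ))) := by
    apply expN_mem (ha.mul mS)
    apply jnc_hi
    have h3 := jnc_mul A SS
    rw [uS] at h3
    have h4 : rv A.hi * σ ≤ 1.875 * 1.8 := mul_le_mul a2 S2 σ0.le (by norm_num)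
    norm_num at h4 eps ⊢
    linarith
  have m3 : PI.Mem (expN (PI.mul A (PI.add SS (PI.smul 4 1 IS)))) (Real.exp (-(a * (σ + 4 / σ)))) := by
    have e : σ + 4 / σ = σ + ((4 : ℕ) : ℝ) / ((1 : ℕ) : ℝ) * (1 / σ) := by push_cast; ring
    rw [e]
    apply expN_mem (ha.mul (mS.add (mis.smul 4 1 one_pos)))
    apply jnc_hi
    have h3 := jnc_mul A (PI.add SS (PI.smul 4 1 IS))
    have h5 := jnc_smul 4 IS
    rw [jnc_add, uS] at h3
    push_cast at h5
    have h4 : rv A.hi * (σ + rv (PI.smul 4 1 IS).hi) ≤ 1.875 * 5.9 := by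
      apply mul_le_mul a2 _ (add_nonneg σ0.le (rv_nonneg _)) (by norm_num)
      norm_num at eps S2 ⊢
      linarith
    norm_num at h4 eps ⊢
    linarith
  have m4 : PI.Mem (expN (PI.mul A (PI.add (PI.smul 4 1 SS) IS))) (Real.exp (-(a * (4 * σ + 1 / σ)))) := by
    have e : 4 * σ + 1 / σ = ((4 : ℕ) : ℝ) / ((1 : ℕ) : ℝ) * σ + 1 / σ := by push_cast; ring
    rw [e]
    apply expN_mem (ha.mul ((mS.smul 4 1 one_pos).add mis))
    apply jnc_hi
    have h3 := jnc_mul A (PI.add (PI.smul 4 1 SS) IS)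
    have h5 := jnc_smul 4 SS
    rw [jnc_add] at h3
    rw [uS] at h5
    push_cast at h5
    have h4 : rv A.hi * (rv (PI.smul 4 1 SS).hi + rv IS.hi) ≤ 1.875 * 8.3 := by
      apply mul_le_mul a2 _ (add_nonneg (rv_nonneg _) (rv_nonneg _)) (by norm_num)
      norm_num at eps S2 ⊢
      linarith
    norm_num at h4 eps ⊢
    linarith
  have m5 : PI.Mem (expN (PI.smul 9 1 ai)) (Real.exp (-(9 * (a / σ)))) := by
    have e : 9 * (a / σ) = ((9 : ℕ) : ℝ) / ((1 : ℕ) : ℝ) * (a / σ) := by push_cast; ring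
    rw [e]
    apply expN_mem (mai.smul 9 1 one_pos)
    apply jnc_hi
    have h5 := jnc_smul 9 ai
    push_cast at h5
    norm_num at eps uai ⊢
    linarith
  have m6 : PI.Mem (expN (PI.mul A (PI.add SS (PI.smul 16 1 IS)))) (Real.exp (-(a * (σ + 16 / σ)))) := by
    have e : σ + 16 / σ = σ + ((16 : ℕ) : ℝ) / ((1 : ℕ) : ℝ) * (1 / σ) := by push_cast; ring
    rw [e]
    apply expN_mem (ha.mul (mS.add (mis.smul 16 1 one_pos)))
    apply jnc_hi
    have h3 := jnc_mul A (PI.add SS (PI.smul 16 1 IS))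
    have h5 := jnc_smul 16 IS
    rw [jnc_add, uS] at h3
    push_cast at h5
    have h17 : σ + 16 * (1 / σ) ≤ 17 := by
      have h6 : σ * (1 / σ) = 1 := by field_simp
      nlinarith
    have h4 : rv A.hi * (σ + rv (PI.smul 16 1 IS).hi) ≤ 1.875 * 17.001 := by
      apply mul_le_mul a2 _ (add_nonneg σ0.le (rv_nonneg _)) (by norm_num)
      norm_num at eps S2 ⊢
      linarith
    norm_num at h4 eps ⊢
    linarith
  have m7 : PI.Mem (expN (PI.smul 12 1 A)) (Real.exp (-(12 * a))) := by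
    have e : 12 * a = ((12 : ℕ) : ℝ) / ((1 : ℕ) : ℝ) * a := by push_cast; ring
    rw [e]
    apply expN_mem (ha.smul 12 1 one_pos)
    apply jnc_hi
    have h5 := jnc_smul 12 A
    push_cast at h5
    norm_num at eps a2 ⊢
    linarith
  generalize expN ai = E1 at c6 m1
  generalize expN (PI.mul A SS) = E2 at c6 m2
  generalize expN (PI.mul A (PI.add SS (PI.smul 4 1 IS))) = E3 at c6 m3
  generalize expN (PI.mul A (PI.add (PI.smul 4 1 SS) IS)) = E4 at c6 m4
  generalize expN (PI.smul 9 1 ai) = E5 at c6 m5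
  generalize expN (PI.mul A (PI.add SS (PI.smul 16 1 IS))) = E6 at c6 m6
  generalize expN (PI.smul 12 1 A) = E7 at c6 m7
  generalize hpre : sqU (divU (Nat.mul 4 A.hi) (mulD 3454217652357 sl)) = pre at c6
  generalize hpos : Nat.add (Nat.add (Nat.mul 2 (Nat.sub E1.hi E2.lo)) (Nat.mul 4 (Nat.sub E3.hi E4.lo)))
    (Nat.add (Nat.add (Nat.mul 2 E5.hi) (Nat.mul 4 E6.hi)) (Nat.add (Nat.mul 4 E7.hi)
      (Nat.mul 8 (mulU E5.hi E5.hi)))) = pos at c6
  -- the prefactor
  have hπ := Real.pi_pos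
  have bpre : Real.sqrt (4 * a / (Real.pi * s)) ≤ rv pre := by
    rw [← hpre]
    refine le_trans ?_ (le_sqU _)
    apply Real.sqrt_le_sqrt
    have hm0 : 0 < mulD 3454217652357 sl := by
      have h3 : sl = sl := rfl
      have h4 : 1099511627776 ≤ sl := by
        apply numOps_le_of_rv
        rw [rv_lit]; exact L1
      unfold mulD
      rw [numOps_shr]
      show 0 < (3454217652357 * sl) / 1099511627776
      apply Nat.div_pos _ (by norm_num)
      omega
    have h5 := le_divU (Nat.mul 4 A.hi) (mulD 3454217652357 sl) hm0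
    refine le_trans ?_ h5
    have h6 := mulD_le 3454217652357 sl
    have h7 : rv 3454217652357 ≤ Real.pi := piI_mem.1
    have h8 : rv (mulD 3454217652357 sl) ≤ Real.pi * s := by
      refine h6.trans ?_
      apply mul_le_mul h7 sL (rv_nonneg _) hπ.le
    have h9 : 0 < rv (mulD 3454217652357 sl) := numOps_rv_pos hm0
    rw [rv_nmul]
    push_cast
    apply div_le_div₀ (by positivity) _ h9 h8
    have := ha.2
    linarith
  -- the bracket
  have hpos0 : 0 ≤ rv pos := rv_nonneg _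
  have bpos : 2 * (Real.exp (-(a / s)) - Real.exp (-(a * s)))
        + 4 * (Real.exp (-(a * (s + 4 / s))) - Real.exp (-(a * (4 * s + 1 / s))))
        + 2 * Real.exp (-(9 * (a / s))) + 4 * Real.exp (-(a * (s + 16 / s)))
        + 4 * Real.exp (-(12 * a)) + 8 * Real.exp (-(25 * (a / s))) ≤ rv pos := by
    have is : 1 / σ ≤ 1 / s := one_div_le_one_div_of_le s0 sS
    have i1 : a / σ ≤ a / s := div_le_div_of_nonneg_left a0.le s0 sS
    have t1 : Real.exp (-(a / s)) ≤ rv E1.hi :=
      (Real.exp_le_exp.2 (by linarith)).trans m1.2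
    have t2 : rv E2.lo ≤ Real.exp (-(a * s)) :=
      m2.1.trans (Real.exp_le_exp.2 (by
        have := mul_le_mul_of_nonneg_left sS a0.le
        linarith))
    have key : ∀ c : ℝ, 4 ≤ c → σ + c / σ ≤ s + c / s := by
      intro c hc
      have e : s + c / s - (σ + c / σ) = (σ - s) * (c - s * σ) / (s * σ) := by
        field_simp
        ring
      have hs4 : s * σ ≤ 4 := by nlinarith
      have : 0 ≤ (σ - s) * (c - s * σ) / (s * σ) := by
        apply div_nonneg (mul_nonneg (by linarith) (by linarith)) (by positivity)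
      linarith
    have t3 : Real.exp (-(a * (s + 4 / s))) ≤ rv E3.hi := by
      refine (Real.exp_le_exp.2 ?_).trans m3.2
      have := mul_le_mul_of_nonneg_left (key 4 le_rfl) a0.le
      linarith
    have t4 : rv E4.lo ≤ Real.exp (-(a * (4 * s + 1 / s))) := by
      refine m4.1.trans (Real.exp_le_exp.2 ?_)
      have h3 : 4 * s + 1 / s ≤ 4 * σ + 1 / σ := by
        have e : 4 * σ + 1 / σ - (4 * s + 1 / s) = (σ - s) * (4 * (s * σ) - 1) / (s * σ) := by
          field_simp
          ring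
        have hs4 : 1 ≤ s * σ := by nlinarith
        have : 0 ≤ (σ - s) * (4 * (s * σ) - 1) / (s * σ) := by
          apply div_nonneg (mul_nonneg (by linarith) (by linarith)) (by positivity)
        linarith
      have := mul_le_mul_of_nonneg_left h3 a0.le
      linarith
    have t5 : Real.exp (-(9 * (a / s))) ≤ rv E5.hi :=
      (Real.exp_le_exp.2 (by linarith)).trans m5.2
    have t6 : Real.exp (-(a * (s + 16 / s))) ≤ rv E6.hi := by
      refine (Real.exp_le_exp.2 ?_).trans m6.2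
      have := mul_le_mul_of_nonneg_left (key 16 (by norm_num)) a0.le
      linarith
    have t7 : Real.exp (-(12 * a)) ≤ rv E7.hi := m7.2
    have t8 : Real.exp (-(25 * (a / s))) ≤ rv (mulU E5.hi E5.hi) := by
      refine le_trans ?_ (le_mulU _ _)
      have ias : 0 ≤ a / s := by positivity
      calc Real.exp (-(25 * (a / s))) ≤ Real.exp (-(9 * (a / s)) + -(9 * (a / s))) :=
            Real.exp_le_exp.2 (by linarith)
        _ = Real.exp (-(9 * (a / s))) * Real.exp (-(9 * (a / s))) := Real.exp_add _ _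
        _ ≤ rv E5.hi * rv E5.hi :=
            mul_le_mul t5 t5 (Real.exp_pos _).le (rv_nonneg _)
    have u1 := rv_sub_le E1.hi E2.lo
    have u2 := rv_sub_le E3.hi E4.lo
    have epos : rv pos = 2 * rv (Nat.sub E1.hi E2.lo) + 4 * rv (Nat.sub E3.hi E4.lo)
        + (2 * rv E5.hi + 4 * rv E6.hi + (4 * rv E7.hi + 8 * rv (mulU E5.hi E5.hi))) := by
      rw [← hpos]
      simp only [rv_add, rv_nmul]
      push_cast
      ring
    rw [epos]
    linarith
  have hJ := JU_le a1 s1 s2
  have hlast := rv_lt c6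
  rw [rv_add, rv_lit] at hlast
  have hmu := le_mulU pre pos
  have hfin : JU a s ≤ rv pre * rv pos := by
    refine hJ.trans ?_
    calc _ ≤ Real.sqrt (4 * a / (Real.pi * s)) * rv pos :=
          mul_le_mul_of_nonneg_left bpos (Real.sqrt_nonneg _)
      _ ≤ rv pre * rv pos := mul_le_mul_of_nonneg_right bpre hpos0
  linarith

/-- the bracket is increasing in `s`, `√(4a/(πs))` decreasing; use `JU_le` -/
theorem jdChk_ok {A : PI} {dl dh hb : Nat} (h : jdChk A dl dh hb = true) {a δ : ℝ} (ha : A.Mem a)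
    (h1 : rv dl ≤ δ) (h2 : δ ≤ rv dh) : JU a (2 * δ - 1) < 1 - rv hb := by
  have h' : and (Nat.ble 1099511627776 dl) (and (Nat.ble dl dh) (and (Nat.ble dh 1539316278886)
    (and (Nat.ble 1539316278888 A.lo) (and (Nat.ble A.hi 2061584302080)
      (jncFin A (Nat.sub (Nat.mul 2 dl) 1099511627776) (Nat.sub (Nat.mul 2 dh) 1099511627776)
        hb))))) = true := h
  simp only [Bool.and_eq_true] at h'
  obtain ⟨c1, c2, c3, c4, c5, c6⟩ := h'
  have d1 : 1 ≤ rv dl := by have := rv_le c1; rwa [rv_lit] at this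
  have d2 : rv dl ≤ rv dh := rv_le c2
  have d3 : rv dh ≤ 1.4 := by
    have := rv_le c3
    refine this.trans ?_
    unfold rv
    norm_num
  have a1 : 1.4 ≤ a := by
    have := rv_le c4
    refine le_trans ?_ (this.trans ha.1)
    unfold rv
    norm_num
  have a2 : rv A.hi ≤ 1.875 := by
    have := rv_le c5
    refine this.trans ?_
    unfold rv
    norm_num
  have esl : rv (Nat.sub (Nat.mul 2 dl) 1099511627776) = 2 * rv dl - 1 := by
    have hle : 1099511627776 ≤ Nat.mul 2 dl := by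
      have := Nat.le_of_ble_eq_true c1
      show 1099511627776 ≤ 2 * dl
      omega
    rw [rv_sub_eq hle, rv_nmul, rv_lit]
    push_cast
    ring
  have esh : rv (Nat.sub (Nat.mul 2 dh) 1099511627776) = 2 * rv dh - 1 := by
    have hle : 1099511627776 ≤ Nat.mul 2 dh := by
      have := Nat.le_of_ble_eq_true c1
      have := Nat.le_of_ble_eq_true c2
      show 1099511627776 ≤ 2 * dh
      omega
    rw [rv_sub_eq hle, rv_nmul, rv_lit]
    push_cast
    ring
  apply jnc_core c6 ha a1 a2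
  · linarith
  · linarith
  · rw [esh]; linarith
  · rw [esl]; linarith
  · rw [esl]; linarith
  · rw [esh]; linarith
  · rw [esh]; linarith

end MP7e122f.Num
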