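import Pool.Agent.Lib.MP_7e122f_anR.NumBase

/-!
# The Gaussian criteria on a cell
-/

namespace MP7e122f.Num

open MP7e122f.R

/-- sub-slab data for the Gaussian tests: `y`, `f = 2 - 1/δ`, bound `hb` -/
structure GS where
  y : PI
  f : PI
  hb : Nat

def fOf (dl dh : Nat) : PI :=
  ⟨Nat.sub 2199023255552 (divU 1099511627776 dl), Nat.sub 2199023255552 (divD 1099511627776 dh)⟩

structure Ws where
  t1 : PI
  t2 : PI
  t3 : PI
  w1 : PI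
  w2 : PI
  w3 : PI
  A2 : PI

/-- `t_i^f`, `ω_i^f`, `A2` -/
def mkWs (f : PI) (B : Base) : Ws :=
  let m2 := PI.smul 2 1 B.mu
  let m6 := PI.smul 6 1 B.mu
  let x1 := PI.smul 1 3 ⟨mulD (Nat.add 1099511627776 B.p.lo) B.r.lo,
    mulU (Nat.add 1099511627776 B.p.hi) B.r.hi⟩
  let x3 := PI.smul 1 3 ⟨mulD (Nat.sub 2199023255552 B.p.hi) B.r.lo,
    mulU (Nat.sub 2199023255552 B.p.lo) B.r.hi⟩
  let up := PI.smul 1 3 ⟨mulD (Nat.sub 1099511627776 (Nat.mul 2 B.p.hi)) B.r.lo,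
    mulU (Nat.sub 1099511627776 (Nat.mul 2 B.p.lo)) B.r.hi⟩
  let vp := PI.smul 1 3 ⟨mulD (Nat.sub (Nat.mul 2 B.p.lo) 1099511627776) B.r.lo,
    mulU (Nat.sub (Nat.mul 2 B.p.hi) 1099511627776) B.r.hi⟩
  { t1 := expN (PI.mul f (PI.sub m2 x1)),
    t2 := expN (PI.mul f (PI.sub (PI.add m2 vp) up)),
    t3 := expN (PI.mul f (PI.add m2 x3)),
    w1 := expN (PI.mul f (PI.add m6 (PI.smul 3 1 x1))),
    w2 := expN (PI.mul f (PI.sub (PI.add m6 (PI.smul 3 1 up)) (PI.smul 3 1 vp))),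
    w3 := expN (PI.mul f (PI.sub m6 (PI.smul 3 1 x3))),
    A2 := PI.sub (PI.add B.mu up) vp }

structure WsOK (W : Ws) (f y r p : ℝ) : Prop where
  t1 : W.t1.Mem (Real.exp (-(f * (AA2 y r p + AA3 y r p))))
  t2 : W.t2.Mem (Real.exp (-(f * (AA3 y r p + AA1 y r p))))
  t3 : W.t3.Mem (Real.exp (-(f * (AA1 y r p + AA2 y r p))))
  w1 : W.w1.Mem (Real.exp (-(f * (4 * AA1 y r p + AA2 y r p + AA3 y r p))))
  w2 : W.w2.Mem (Real.exp (-(f * (4 * AA2 y r p + AA3 y r p + AA1 y r p))))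
  w3 : W.w3.Mem (Real.exp (-(f * (4 * AA3 y r p + AA1 y r p + AA2 y r p))))
  A2 : W.A2.Mem (AA2 y r p)

/-- all six exponents are at most `32` -/
def wsChk (f : PI) (B : Base) : Bool :=
  Nat.ble (mulU f.hi (Nat.add (Nat.mul 6 B.mu.hi) (Nat.mul 4 B.r.hi))) 35184372000000

/-- criterion for the upper bound -/
def gcheckB (G : GS) (B : Base) : Bool :=
  let W := mkWs G.f B
  let X := (expN (PI.mul G.f (PI.smul 8 1 ⟨W.A2.lo, W.A2.lo⟩))).hi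
  let pos := Nat.add (Nat.mul 2 (Nat.add W.t1.lo W.t2.lo)) (Nat.add (Nat.mul 2 (Nat.add W.w1.lo W.w2.lo))
    (Nat.mul 2 (Nat.add (mulD (mulD W.t1.lo W.t1.lo) (mulD W.t1.lo W.t1.lo))
      (mulD (mulD W.t2.lo W.t2.lo) (mulD W.t2.lo W.t2.lo)))))
  let X2 := mulU X X
  let neg := Nat.add (Nat.mul 2 W.t3.hi) (Nat.add (Nat.mul 2 W.w3.hi)
    (Nat.mul 4 (mulU W.t3.hi (Nat.add (Nat.mul 2 X) (Nat.add X2 (Nat.mul 3 (mulU X X2)))))))
  and (wsChk G.f B) (and (Nat.ble (mulU G.f.hi (Nat.mul 8 W.A2.lo)) 35184372000000)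
    (and (Nat.ble X 274877906944) (Nat.ble (Nat.succ (Nat.add neg G.hb)) pos)))

/-- the value of the Gaussian test function minus 1, from below -/
noncomputable def GBv (f A1 A2 A3 : ℝ) : ℝ :=
  2 * (Real.exp (-(f * (A2 + A3))) + Real.exp (-(f * (A3 + A1))) - Real.exp (-(f * (A1 + A2))))
  + 2 * (Real.exp (-(f * (4 * A1 + A2 + A3))) + Real.exp (-(f * (4 * A2 + A3 + A1)))
    - Real.exp (-(f * (4 * A3 + A1 + A2))))
  + 2 * (Real.exp (-(f * (A2 + A3))) ^ 4 + Real.exp (-(f * (A3 + A1))) ^ 4)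
  - 4 * (Real.exp (-(f * (A1 + A2))) * (2 * Real.exp (-(8 * f * A2))
    + Real.exp (-(8 * f * A2)) ^ 2 + 3 * Real.exp (-(8 * f * A2)) ^ 3))

/-- `x - x⁴` at the lower end point -/
def g4D (x : PI) : Nat := Nat.sub x.lo (mulU (mulU x.lo x.lo) (mulU x.lo x.lo))

/-- criterion for the lower bound -/
def gcheckA (G : GS) (B : Base) : Bool :=
  let W := mkWs G.f B
  let Y := (expN (PI.mul G.f (PI.smul 4 1 ⟨W.A2.lo, W.A2.lo⟩))).hi
  let Y4 := mulU (mulU Y Y) (mulU Y Y)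
  let pos := Nat.mul 2 (Nat.add (Nat.add (g4D W.t1) (Nat.add (g4D W.t2) (g4D W.t3)))
    (Nat.add (g4D W.w1) (Nat.add (g4D W.w2) (g4D W.w3))))
  and (wsChk G.f B) (and (Nat.ble (mulU G.f.hi (Nat.mul 4 W.A2.lo)) 35184372000000)
    (and (Nat.ble Y 109951162777) (and (Nat.ble W.t1.hi 681697209221)
      (Nat.ble (Nat.succ (Nat.add (Nat.mul 5 Y4) G.hb)) pos))))

/-- 1 minus the value of the Gaussian test function, from below -/
noncomputable def GAv (f A1 A2 A3 : ℝ) : ℝ :=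
  2 * (Real.exp (-(f * (A2 + A3))) + Real.exp (-(f * (A3 + A1))) + Real.exp (-(f * (A1 + A2))))
  + 2 * (Real.exp (-(f * (4 * A1 + A2 + A3))) + Real.exp (-(f * (4 * A2 + A3 + A1)))
    + Real.exp (-(f * (4 * A3 + A1 + A2))))
  - 2 * (Real.exp (-(f * (A2 + A3))) ^ 4 + Real.exp (-(f * (A3 + A1))) ^ 4
    + Real.exp (-(f * (A1 + A2))) ^ 4)
  - 2 * (Real.exp (-(f * (4 * A1 + A2 + A3))) ^ 4 + Real.exp (-(f * (4 * A2 + A3 + A1))) ^ 4
    + Real.exp (-(f * (4 * A3 + A1 + A2))) ^ 4)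
  - 5 * Real.exp (-(4 * f * A2)) ^ 4

end MP7e122f.Num
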