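import Pool.Agent.Lib.MP_7e122f_anR.NumE
import Pool.Agent.Lib.MP_7e122f_anR.NumG

/-!
# Trees of cells
-/

namespace MP7e122f.Num

open MP7e122f.R

/-- certificate tree: leaves `e` (second order criterion), `g` (Gaussian criterion),
`o` (outside of the domain), nodes: bisection of `r` or `p` -/
inductive Tr
  | e : Tr
  | g : Tr
  | o : Tr
  | r : Tr → Tr → Tr
  | p : Tr → Tr → Tr

/-- `A3 < 0` or `A2 + A3 < eth` on the whole cell -/
def outChk (eth : Nat) (B : Base) : Bool :=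
  or (Nat.ble (Nat.succ (Nat.mul 3 B.mu.hi)) (mulD (Nat.sub 2199023255552 B.p.hi) B.r.lo))
    (Nat.ble (Nat.succ (Nat.mul 6 B.mu.hi))
      (Nat.add (Nat.mul 3 eth) (mulD (Nat.add 1099511627776 B.p.lo) B.r.lo)))

def gleaf (mx : Bool) (rl rh pl ph : Nat) (G : GS) : Bool :=
  let B := mkBase G.y rl rh pl ph
  and (Nat.ble B.h.hi 2199023255552) (cond mx (gcheckB G B) (gcheckA G B))

def tchk (mx : Bool) (S : Slab) (eth : Nat) (gs : List GS) : Tr → Nat → Nat → Nat → Nat → Bool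
  | Tr.e, rl, rh, pl, ph => echeck S (mkBase S.y rl rh pl ph)
  | Tr.g, rl, rh, pl, ph => List.all gs (gleaf mx rl rh pl ph)
  | Tr.o, rl, rh, pl, ph =>
    let B := mkBase S.y rl rh pl ph
    and (Nat.ble B.h.hi 2199023255552) (outChk eth B)
  | Tr.r a b, rl, rh, pl, ph =>
    let m := Nat.div (Nat.add rl rh) 2
    and (tchk mx S eth gs a rl m pl ph) (tchk mx S eth gs b m rh pl ph)
  | Tr.p a b, rl, rh, pl, ph =>
    let m := Nat.div (Nat.add pl ph) 2
    and (tchk mx S eth gs a rl rh pl m) (tchk mx S eth gs b rl rh m ph)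

/-- what a successful Gaussian test means -/
def GConc (mx : Bool) (G : GS) (φ A1 A2 A3 : ℝ) : Prop :=
  cond mx (rv G.hb < GBv φ A1 A2 A3 ∧ Real.exp (-(8 * φ * A2)) ≤ 1 / 4)
    (rv G.hb < GAv φ A1 A2 A3 ∧ Real.exp (-(4 * φ * A2)) ≤ 1 / 10)

end MP7e122f.Num
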