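import Pool.Agent.Lib.MP_7e122f_anR.FactsD
import Pool.Agent.Lib.MP_7e122f_anR.NumTree
import Pool.Agent.Lib.MP_7e122f_anR.JDefs

/-!
# Numerical checks for the Jacobi part
-/

namespace MP7e122f.Num

open MP7e122f.R

/-- `a = π²/(4 eJ)` -/
def aOf (eJ : Nat) : PI := PI.smul 1 4 (PI.div (PI.sq piI) ⟨eJ, eJ⟩)

/-- lower bound of `|u - 3/2| e^{-u}` if `u ≥ 3/2` on the interval, otherwise `0` -/
def qpos (u : PI) : Nat :=
  cond (Nat.ble 1649267441664 u.lo) (mulD (Nat.sub u.lo 1649267441664) (expN ⟨u.hi, u.hi⟩).lo) 0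
/-- upper bound of `(3/2 - u) e^{-u}`, `0` if `u ≥ 3/2` -/
def qneg (u : PI) : Nat := mulU (Nat.sub 1649267441664 u.lo) (expN ⟨u.lo, u.lo⟩).hi

/-- `PsiJ ≥ 0` on the cell `a ∈ [al, ah]`, `τ ∈ [tl, th]` -/
def psiCell (al ah tl th : Nat) : Bool :=
  let il := divD 1099511627776 th
  let ih := divU 1099511627776 tl
  let u1 : PI := ⟨mulD al il, mulU ah ih⟩
  let u2 : PI := ⟨mulD al tl, mulU ah th⟩
  let u3 : PI := ⟨mulD al (Nat.add th (Nat.mul 4 il)), mulU ah (Nat.add tl (Nat.mul 4 ih))⟩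
  let u4 : PI := ⟨mulD al (Nat.add (Nat.mul 4 tl) (divD 1099511627776 tl)),
    mulU ah (Nat.add (Nat.mul 4 th) (divU 1099511627776 th))⟩
  let il2 := mulD il il
  let ih2 := mulU ih ih
  let w3 := Nat.sub (Nat.mul 4 il2) 1099511627776
  let w4 := Nat.sub 4398046511104 ih2
  and (Nat.ble 1099511627776 tl) (and (Nat.ble th 2199023255552) (and (Nat.ble 1539316278888 al)
    (and (Nat.ble u4.hi 35184372000000) (Nat.ble (Nat.add (mulU ih2 (qneg u1)) (qneg u2))
      (Nat.add (Nat.add (mulD il2 (qpos u1)) (qpos u2))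
        (Nat.mul 2 (Nat.add (mulD w3 (qpos u3)) (mulD w4 (qpos u4)))))))))

/-- tree over `(a, τ)`; leaf `o` : `a ≥ 3τ/2` on the whole cell -/
def psiChk : Tr → Nat → Nat → Nat → Nat → Bool
  | Tr.e, al, ah, tl, th => psiCell al ah tl th
  | Tr.g, _, _, _, _ => false
  | Tr.o, al, _, tl, th => and (Nat.ble (Nat.mul 3 th) (Nat.mul 2 al))
      (and (Nat.ble 1099511627776 tl) (Nat.ble th 2199023255552))
  | Tr.r a b, al, ah, tl, th =>
    let m := Nat.div (Nat.add al ah) 2
    and (psiChk a al m tl th) (psiChk b m ah tl th)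
  | Tr.p a b, al, ah, tl, th =>
    let m := Nat.div (Nat.add tl th) 2
    and (psiChk a al ah tl m) (psiChk b al ah m th)

/-- staircase: strips `τ ∈ [tl, c.th]` with the lower bound `c.al` for `a` -/
structure CP where
  th : Nat
  al : Nat
  ah : Nat
  tree : Tr

def stairChk : Nat → List CP → Bool
  | _, [] => true
  | tl, c :: l => and (psiChk c.tree c.al c.ah tl c.th) (and (Nat.ble tl c.th)
      (and (Nat.ble c.al c.ah) (and (Nat.ble (Nat.mul 3 c.th) (Nat.mul 2 c.ah))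
        (and (Nat.ble c.th 2199023255552) (stairChk c.th l)))))

/-- `alpha l τ` : smallest admissible `a` for the strips up to the one ending at `th` -/
def stairTo (th al : Nat) : List CP → Bool
  | [] => false
  | c :: l => and (Nat.ble c.al al) (cond (Nat.ble th c.th) true (stairTo th al l))

/-- the direct comparison `JU (a, s) < 1 - hb` for `s ∈ [2dl-1, 2dh-1]` -/
def jdChk (a : PI) (dl dh hb : Nat) : Bool :=
  let sl := Nat.sub (Nat.mul 2 dl) 1099511627776
  let sh := Nat.sub (Nat.mul 2 dh) 1099511627776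
  let S : PI := ⟨sh, sh⟩
  let is := PI.inv S
  let ai := PI.mul a is
  let e1 := (expN ai).hi
  let e2 := (expN (PI.mul a S)).lo
  let e3 := (expN (PI.mul a (PI.add S (PI.smul 4 1 is)))).hi
  let e4 := (expN (PI.mul a (PI.add (PI.smul 4 1 S) is))).lo
  let e5 := (expN (PI.smul 9 1 ai)).hi
  let e6 := (expN (PI.mul a (PI.add S (PI.smul 16 1 is)))).hi
  let e7 := (expN (PI.smul 12 1 a)).hi
  let e8 := mulU e5 e5
  let pre := sqU (divU (Nat.mul 4 a.hi) (mulD 3454217652357 sl))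
  let pos := Nat.add (Nat.add (Nat.mul 2 (Nat.sub e1 e2)) (Nat.mul 4 (Nat.sub e3 e4)))
    (Nat.add (Nat.add (Nat.mul 2 e5) (Nat.mul 4 e6)) (Nat.add (Nat.mul 4 e7) (Nat.mul 8 e8)))
  and (Nat.ble 1099511627776 dl) (and (Nat.ble dl dh) (and (Nat.ble dh 1539316278886)
    (and (Nat.ble 1539316278888 a.lo) (and (Nat.ble a.hi 2061584302080)
      (Nat.ble (Nat.succ (Nat.add (mulU pre pos) hb)) 1099511627776)))))

/-- certificates for a `J` slab: right end point, weights, `zs`, bound `hb` -/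
structure CJ where
  d : Nat
  L : Dual
  zs : Nat
  hb : Nat

def jsChk (a : PI) : Nat → Nat → List CJ → Bool
  | dl, dh, [] => Nat.ble dh dl
  | dl, dh, c :: l => and (envChk false dl c.d) (and (upChk (mkEnv false dl c.d) c.L c.zs c.hb)
      (and (jdChk a dl c.d c.hb) (jsChk a c.d dh l)))

/-- the checks for one `J` slab `[dl, dh]` with threshold `eJ` and staircase `l` -/
def jslabChk (l : List CP) (eJ dl dh : Nat) (cs : List CJ) : Bool :=
  let a := aOf eJ
  and (Nat.ble 1 eJ) (and (jsChk a dl dh cs)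
    (stairTo (Nat.sub (Nat.mul 2 dh) 1099511627776) a.lo l))

end MP7e122f.Num
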