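import Pool.Agent.Lib.MP_7e122f_anR.JPoisA

namespace MP7e122f.R

/-! ### auxiliary facts on sums over `ℤ × ℤ` -/

private theorem JPois_gauss {x : ℝ} (hx : 0 < x) :
    Summable fun n : ℤ => Real.exp (-(x * (n : ℝ) ^ 2)) := by
  have h := summable_shifted_gauss hx 0
  simpa using h

private theorem JPois_gauss2 {x y : ℝ} (hx : 0 < x) (hy : 0 < y) :
    Summable fun k : ℤ × ℤ => Real.exp (-(x * (k.1 : ℝ) ^ 2 + y * (k.2 : ℝ) ^ 2)) := by
  have h := Summable.mul_of_nonneg (JPois_gauss hx) (JPois_gauss hy)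
    (fun n => (Real.exp_pos _).le) (fun n => (Real.exp_pos _).le)
  refine h.congr (fun k => ?_)
  rw [← Real.exp_add]
  congr 1
  ring

/-- splitting in the second variable -/
private theorem JPois_split2 {G : ℤ × ℤ → ℝ} (hG : Summable G) :
    ∑' k : ℤ × ℤ, G k = ∑' k : ℤ × ℤ, G (k.1, 2 * k.2) + ∑' k : ℤ × ℤ, G (k.1, 2 * k.2 + 1) := by
  have i0 : Function.Injective (fun k : ℤ × ℤ => (k.1, 2 * k.2)) := by
    intro k l h
    simp only [Prod.mk.injEq] at h
    ext <;> omega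
  have i1 : Function.Injective (fun k : ℤ × ℤ => (k.1, 2 * k.2 + 1)) := by
    intro k l h
    simp only [Prod.mk.injEq] at h
    ext <;> omega
  have s0 : Summable (fun k : ℤ × ℤ => G (k.1, 2 * k.2)) := hG.comp_injective i0
  have s1 : Summable (fun k : ℤ × ℤ => G (k.1, 2 * k.2 + 1)) := hG.comp_injective i1
  rw [hG.tsum_prod, s0.tsum_prod, s1.tsum_prod, ← Summable.tsum_add s0.prod s1.prod]
  refine tsum_congr (fun n => ?_)
  exact tsum_even_odd (hG.prod_factor n)

/-- splitting in the first variable -/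
private theorem JPois_split1 {G : ℤ × ℤ → ℝ} (hG : Summable G) :
    ∑' k : ℤ × ℤ, G k = ∑' k : ℤ × ℤ, G (2 * k.1, k.2) + ∑' k : ℤ × ℤ, G (2 * k.1 + 1, k.2) := by
  have hs : Summable (fun k : ℤ × ℤ => G (k.2, k.1)) :=
    (Equiv.prodComm ℤ ℤ).summable_iff.2 hG
  have h := JPois_split2 hs
  have e : ∀ F : ℤ × ℤ → ℝ, ∑' k : ℤ × ℤ, F (k.2, k.1) = ∑' k : ℤ × ℤ, F k := fun F =>
    (Equiv.prodComm ℤ ℤ).tsum_eq F
  rw [e G] at h
  rw [h]
  congr 1
  · exact e (fun k => G (2 * k.1, k.2))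
  · exact e (fun k => G (2 * k.1 + 1, k.2))

/-- the family of the terms is absolutely summable -/
theorem summable_Dj {a s : ℝ} (ha : 0 < a) (hs : 0 < s) :
    Summable fun k : ℤ × ℤ => |Dj a s (2 * k.1) (2 * k.2 + 1)| := by
  have h1 := JPois_gauss2 (x := a * s) (y := a / s) (by positivity) (by positivity)
  have h2 := JPois_gauss2 (x := a / s) (y := a * s) (by positivity) (by positivity)
  have i1 : Function.Injective (fun k : ℤ × ℤ => (2 * k.1, 2 * k.2 + 1)) := by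
    intro k l h
    simp only [Prod.mk.injEq] at h
    ext <;> omega
  have g1 := h1.comp_injective i1
  have g2 := h2.comp_injective i1
  refine Summable.of_nonneg_of_le (fun k => abs_nonneg _) (fun k => ?_) (g1.add g2)
  unfold Dj
  have e1 : Real.exp (-(a * (s * (2 * (k.1 : ℝ)) ^ 2 + (2 * (k.2 : ℝ) + 1) ^ 2 / s))) =
      Real.exp (-(a * s * (((2 * k.1 : ℤ)) : ℝ) ^ 2 + a / s * (((2 * k.2 + 1 : ℤ)) : ℝ) ^ 2)) := by
    congr 1
    push_cast
    field_simp
  have e2 : Real.exp (-(a * (s * (2 * (k.2 : ℝ) + 1) ^ 2 + (2 * (k.1 : ℝ)) ^ 2 / s))) =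
      Real.exp (-(a / s * (((2 * k.1 : ℤ)) : ℝ) ^ 2 + a * s * (((2 * k.2 + 1 : ℤ)) : ℝ) ^ 2)) := by
    congr 1
    push_cast
    field_simp
    ring
  rw [e1, e2]
  refine (abs_sub _ _).trans ?_
  rw [abs_of_pos (Real.exp_pos _), abs_of_pos (Real.exp_pos _)]
  exact le_rfl

private theorem JPois_E1 {A1 A2 A3 : ℝ} (h3 : 0 ≤ A3) (h23 : A3 ≤ A2)
    (hdet : A1 * A2 + A2 * A3 + A3 * A1 = Real.pi ^ 2 / 4) : 0 < A2 + A3 := by
  have hpi : 0 < Real.pi ^ 2 / 4 := by positivity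
  by_contra hcon
  have h2 : A2 = 0 := by linarith
  have h3' : A3 = 0 := by linarith
  rw [h2, h3'] at hdet
  simp only [mul_zero, zero_mul, add_zero] at hdet
  linarith

/-- Jacobi's transformation in the variable `k1`.  With `c = A2/E1`,
`E(k) = E1 (k1 + c k2)² + (π²/4)/E1 k2²`.  `G = 2 ∑_{k1,k2 even} - ∑_{all}`; Poisson summation
(`Complex.tsum_exp_neg_quadratic` or `Real.tsum_exp_neg_mul_int_sq` type formulas) gives
`∑_{k1 even} exp(-s E1 (k1 + c k2)²) = √(π/(4 s E1)) ∑_m exp(-π² m²/(4 s E1)) cos(π m c k2)` and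
`∑_{k1} exp(-s E1 (k1 + c k2)²) = √(π/(s E1)) ∑_m exp(-π² m²/(s E1)) cos(2π m c k2)`.
In the difference the terms with both frequencies even cancel. -/
theorem Gq_jacobi {s A1 A2 A3 : ℝ} (hs : 0 < s) (h3 : 0 ≤ A3) (h23 : A3 ≤ A2) (h12 : A2 ≤ A1)
    (hdet : A1 * A2 + A2 * A3 + A3 * A1 = Real.pi ^ 2 / 4) (a : ℝ)
    (ha : a = Real.pi ^ 2 / (4 * (A2 + A3))) :
    Gq s A1 A2 A3 = Real.sqrt (4 * a / (Real.pi * s)) *
      ∑' k : ℤ × ℤ, Real.cos (Real.pi * (2 * k.1) * (2 * k.2 + 1) * (A2 / (A2 + A3))) *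
        Dj a s (2 * k.1) (2 * k.2 + 1) := by
  have hE1 := JPois_E1 h3 h23 hdet
  set E1 := A2 + A3 with hE1d
  set c := A2 / E1 with hc
  have hpi := Real.pi_pos
  have ha0 : 0 < a := by rw [ha]; positivity
  have hx : 0 < s * E1 := mul_pos hs hE1
  -- the summands
  set H : ℤ × ℤ → ℝ := fun k =>
    Real.exp (-(s * a * (k.1 : ℝ) ^ 2)) * Real.exp (-(s * E1 * ((k.2 : ℝ) + c * k.1) ^ 2)) with hH
  set F : ℤ × ℤ → ℝ := fun k =>
    Real.exp (-(a * (s * (k.1 : ℝ) ^ 2 + (k.2 : ℝ) ^ 2 / s))) *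
      Real.cos (Real.pi * k.2 * c * k.1) with hF
  have hH0 : ∀ k, 0 ≤ H k := fun k => by rw [hH]; positivity
  have hccH : ∀ k : ℤ × ℤ, cc (s * A3) (s * A1) (s * A2) (k.2, k.1) = H k := by
    intro k
    rw [hH]
    simp only
    unfold cc
    rw [← Real.exp_add]
    congr 1
    have e1 : a = (A1 + A2) - A2 ^ 2 / E1 := by
      rw [ha]
      field_simp
      rw [hE1d]
      nlinarith
    rw [e1, hc]
    simp only
    field_simp
    rw [hE1d]
    ring
  -- Poisson summation for the inner sums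
  have hinner : ∀ n : ℤ, ∑' j : ℤ, H (n, j) = Real.sqrt (Real.pi / (s * E1)) *
      ∑' m : ℤ, F (n, 2 * m) := by
    intro n
    rw [hH, hF]
    simp only
    rw [tsum_mul_left, poisson_gauss hx (c * n), ← mul_assoc, mul_comm (Real.exp _), mul_assoc,
      ← tsum_mul_left]
    congr 1
    refine tsum_congr (fun m => ?_)
    rw [← mul_assoc, ← Real.exp_add]
    congr 1
    · congr 1
      rw [ha]
      push_cast
      field_simp
      ring
    · congr 1
      push_cast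
      ring
  have hinner2 : ∀ n : ℤ, ∑' j : ℤ, H (n, 2 * j) = Real.sqrt (Real.pi / (4 * (s * E1))) *
      ∑' m : ℤ, F (n, m) := by
    intro n
    have hp := poisson_gauss_even hx (c * n)
    rw [hH, hF]
    simp only
    push_cast
    rw [tsum_mul_left, hp, ← mul_assoc, mul_comm (Real.exp _), mul_assoc,
      ← tsum_mul_left]
    congr 1
    refine tsum_congr (fun m => ?_)
    rw [← mul_assoc, ← Real.exp_add]
    congr 1
    · congr 1
      rw [ha]
      field_simp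
      ring
    · congr 1
      ring
  -- summability
  have hFs : Summable F := by
    have h1 := JPois_gauss2 (x := a * s) (y := a / s) (by positivity) (by positivity)
    refine Summable.of_norm_bounded h1 (fun k => ?_)
    rw [hF]
    simp only
    rw [norm_mul, Real.norm_of_nonneg (Real.exp_pos _).le, Real.norm_eq_abs]
    have e : Real.exp (-(a * (s * (k.1 : ℝ) ^ 2 + (k.2 : ℝ) ^ 2 / s))) =
        Real.exp (-(a * s * (k.1 : ℝ) ^ 2 + a / s * (k.2 : ℝ) ^ 2)) := by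
      congr 1
      field_simp
    rw [e]
    exact mul_le_of_le_one_right (Real.exp_pos _).le (Real.abs_cos_le_one _)
  have iF : Function.Injective (fun k : ℤ × ℤ => (k.1, 2 * k.2)) := by
    intro k l h
    simp only [Prod.mk.injEq] at h
    ext <;> omega
  have iF' : Function.Injective (fun k : ℤ × ℤ => (2 * k.1, k.2)) := by
    intro k l h
    simp only [Prod.mk.injEq] at h
    ext <;> omega
  have i22 : Function.Injective (fun k : ℤ × ℤ => (2 * k.1, 2 * k.2)) := by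
    intro k l h
    simp only [Prod.mk.injEq] at h
    ext <;> omega
  have hF2 : Summable (fun k : ℤ × ℤ => F (k.1, 2 * k.2)) := hFs.comp_injective iF
  have hF1 : Summable (fun k : ℤ × ℤ => F (2 * k.1, k.2)) := hFs.comp_injective iF'
  have hHs : Summable H := by
    rw [summable_prod_of_nonneg hH0]
    refine ⟨fun n => ?_, ?_⟩
    · rw [hH]
      simp only
      exact (summable_shifted_gauss hx (c * n)).mul_left _
    · have h1 : (fun n : ℤ => ∑' j : ℤ, H (n, j)) =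
          fun n : ℤ => Real.sqrt (Real.pi / (s * E1)) * ∑' m : ℤ, F (n, 2 * m) :=
        funext hinner
      rw [h1]
      exact (hF2.prod).mul_left _
  have hH2 : Summable (fun k : ℤ × ℤ => H (2 * k.1, 2 * k.2)) := hHs.comp_injective i22
  -- the two sums
  have hS1 : ∑' k : ℤ × ℤ, H k =
      Real.sqrt (Real.pi / (s * E1)) * ∑' k : ℤ × ℤ, F (k.1, 2 * k.2) := by
    rw [hHs.tsum_prod, hF2.tsum_prod, ← tsum_mul_left]
    exact tsum_congr hinner
  have hS2 : ∑' k : ℤ × ℤ, H (2 * k.1, 2 * k.2) =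
      Real.sqrt (Real.pi / (4 * (s * E1))) * ∑' k : ℤ × ℤ, F (2 * k.1, k.2) := by
    rw [hH2.tsum_prod, hF1.tsum_prod, ← tsum_mul_left]
    exact tsum_congr (fun n => hinner2 (2 * n))
  -- the sum with signs
  have hG : Gq s A1 A2 A3 = 2 * ∑' k : ℤ × ℤ, H (2 * k.1, 2 * k.2) - ∑' k : ℤ × ℤ, H k := by
    have e1 : Gq s A1 A2 A3 = ∑' k : ℤ × ℤ, (sig (k.2, k.1) : ℝ) * H k := by
      unfold Gq
      rw [← (Equiv.prodComm ℤ ℤ).tsum_eq]
      refine tsum_congr (fun k => ?_)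
      rw [← hccH k]
      rfl
    have hind : Summable (fun k : ℤ × ℤ => (if Even k.1 ∧ Even k.2 then H k else 0)) := by
      refine Summable.of_nonneg_of_le (fun k => ?_) (fun k => ?_) hHs
      · split_ifs
        · exact hH0 k
        · exact le_rfl
      · split_ifs
        · exact le_rfl
        · exact hH0 k
    have e2 : ∑' k : ℤ × ℤ, H (2 * k.1, 2 * k.2) =
        ∑' k : ℤ × ℤ, (if Even k.1 ∧ Even k.2 then H k else 0) := by
      rw [← Function.Injective.tsum_eq i22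
        (f := fun k : ℤ × ℤ => (if Even k.1 ∧ Even k.2 then H k else 0))]
      · refine tsum_congr (fun k => ?_)
        rw [if_pos ⟨even_two_mul _, even_two_mul _⟩]
      · intro k hk
        rw [Function.mem_support] at hk
        have hev : Even k.1 ∧ Even k.2 := by
          by_contra hcon
          rw [if_neg hcon] at hk
          exact hk rfl
        obtain ⟨⟨b, hb⟩, ⟨d, hd⟩⟩ := hev
        refine ⟨(b, d), ?_⟩
        ext
        · simp only; omega
        · simp only; omega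
    rw [e1, e2, ← tsum_mul_left, ← Summable.tsum_sub (hind.mul_left 2) hHs]
    refine tsum_congr (fun k => ?_)
    unfold sig
    simp only
    by_cases hev : Even k.1 ∧ Even k.2
    · rw [if_pos hev, if_pos hev.symm]
      push_cast
      ring
    · rw [if_neg hev, if_neg (fun h => hev h.symm)]
      push_cast
      ring
  -- parity splitting of the dual sums
  have hP2 := JPois_split2 hF1
  have hP1 := JPois_split1 hF2
  simp only at hP1 hP2
  have hsw : ∑' k : ℤ × ℤ, F (2 * k.1 + 1, 2 * k.2) = ∑' k : ℤ × ℤ, F (2 * k.2 + 1, 2 * k.1) :=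
    ((Equiv.prodComm ℤ ℤ).tsum_eq (fun k : ℤ × ℤ => F (2 * k.1 + 1, 2 * k.2))).symm
  have ieo : Function.Injective (fun k : ℤ × ℤ => (2 * k.1, 2 * k.2 + 1)) := by
    intro k l h
    simp only [Prod.mk.injEq] at h
    ext <;> omega
  have ioe : Function.Injective (fun k : ℤ × ℤ => (2 * k.2 + 1, 2 * k.1)) := by
    intro k l h
    simp only [Prod.mk.injEq] at h
    ext <;> omega
  have heo : Summable (fun k : ℤ × ℤ => F (2 * k.1, 2 * k.2 + 1)) := hFs.comp_injective ieo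
  have hoe : Summable (fun k : ℤ × ℤ => F (2 * k.2 + 1, 2 * k.1)) := hFs.comp_injective ioe
  have hsqrt : Real.sqrt (Real.pi / (s * E1)) = 2 * Real.sqrt (Real.pi / (4 * (s * E1))) := by
    have e : Real.pi / (s * E1) = 2 ^ 2 * (Real.pi / (4 * (s * E1))) := by
      field_simp
      norm_num
    rw [e, Real.sqrt_mul (by positivity), Real.sqrt_sq (by norm_num)]
  have hsqrt2 : Real.sqrt (4 * a / (Real.pi * s)) =
      2 * Real.sqrt (Real.pi / (4 * (s * E1))) := by
    have e : 4 * a / (Real.pi * s) = 2 ^ 2 * (Real.pi / (4 * (s * E1))) := by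
      rw [ha]
      field_simp
      norm_num
    rw [e, Real.sqrt_mul (by positivity), Real.sqrt_sq (by norm_num)]
  rw [hG, hS1, hS2, hsqrt, hsqrt2, hP1, hP2, hsw]
  have hterm : ∑' k : ℤ × ℤ, Real.cos (Real.pi * (2 * k.1) * (2 * k.2 + 1) * c) *
        Dj a s (2 * k.1) (2 * k.2 + 1) =
      ∑' k : ℤ × ℤ, F (2 * k.1, 2 * k.2 + 1) - ∑' k : ℤ × ℤ, F (2 * k.2 + 1, 2 * k.1) := by
    rw [← Summable.tsum_sub heo hoe]
    refine tsum_congr (fun k => ?_)
    rw [hF]
    simp only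
    unfold Dj
    push_cast
    have c1 : Real.pi * (2 * (k.2 : ℝ) + 1) * c * (2 * (k.1 : ℝ)) =
        Real.pi * (2 * (k.1 : ℝ)) * (2 * (k.2 : ℝ) + 1) * c := by ring
    have c2 : Real.pi * (2 * (k.1 : ℝ)) * c * (2 * (k.2 : ℝ) + 1) =
        Real.pi * (2 * (k.1 : ℝ)) * (2 * (k.2 : ℝ) + 1) * c := by ring
    rw [c1, c2]
    ring
  rw [hterm]
  ring

theorem Gq_le_JU {s A1 A2 A3 : ℝ} (hs : 0 < s) (h3 : 0 ≤ A3) (h23 : A3 ≤ A2) (h12 : A2 ≤ A1)
    (hdet : A1 * A2 + A2 * A3 + A3 * A1 = Real.pi ^ 2 / 4) (a : ℝ)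
    (ha : a = Real.pi ^ 2 / (4 * (A2 + A3))) : Gq s A1 A2 A3 ≤ JU a s := by
  have hE1 := JPois_E1 h3 h23 hdet
  have hpi := Real.pi_pos
  have ha0 : 0 < a := by rw [ha]; positivity
  have hsum := summable_Dj ha0 hs
  rw [Gq_jacobi hs h3 h23 h12 hdet a ha]
  unfold JU
  refine mul_le_mul_of_nonneg_left ?_ (Real.sqrt_nonneg _)
  have hb : ∀ k : ℤ × ℤ, |Real.cos (Real.pi * (2 * k.1) * (2 * k.2 + 1) * (A2 / (A2 + A3))) *
      Dj a s (2 * k.1) (2 * k.2 + 1)| ≤ |Dj a s (2 * k.1) (2 * k.2 + 1)| := by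
    intro k
    rw [abs_mul]
    exact mul_le_of_le_one_left (abs_nonneg _) (Real.abs_cos_le_one _)
  refine Summable.tsum_le_tsum (fun k => (le_abs_self _).trans (hb k)) ?_ hsum
  exact Summable.of_norm_bounded hsum (fun k => by rw [Real.norm_eq_abs]; exact hb k)

/-- at `s = 1` all terms vanish -/
theorem Gq_one {A1 A2 A3 : ℝ} (h3 : 0 ≤ A3) (h23 : A3 ≤ A2) (h12 : A2 ≤ A1)
    (hdet : A1 * A2 + A2 * A3 + A3 * A1 = Real.pi ^ 2 / 4) : Gq 1 A1 A2 A3 = 0 := by
  rw [Gq_jacobi one_pos h3 h23 h12 hdet _ rfl]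
  have h0 : ∀ k : ℤ × ℤ, Real.cos (Real.pi * (2 * k.1) * (2 * k.2 + 1) * (A2 / (A2 + A3))) *
      Dj (Real.pi ^ 2 / (4 * (A2 + A3))) 1 (2 * k.1) (2 * k.2 + 1) = 0 := by
    intro k
    have : Dj (Real.pi ^ 2 / (4 * (A2 + A3))) 1 (2 * k.1) (2 * k.2 + 1) = 0 := by
      unfold Dj
      rw [sub_eq_zero]
      congr 1
      ring
    rw [this, mul_zero]
  simp only [h0, tsum_zero, mul_zero]

end MP7e122f.R
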