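import Pool.Agent.Lib.MP_7e122f_anR.JDefs

namespace MP7e122f.R

theorem summable_shifted_gauss {x : ℝ} (hx : 0 < x) (c : ℝ) :
    Summable fun n : ℤ => Real.exp (-(x * (n + c) ^ 2)) := by
  have h := HurwitzKernelBounds.summable_f_int 0 c (t := x / Real.pi) (by positivity)
  refine h.congr fun n => ?_
  unfold HurwitzKernelBounds.f_int
  rw [pow_zero, one_mul]
  congr 1
  field_simp

/-- Poisson summation for a shifted Gaussian (from `Complex.tsum_exp_neg_quadratic`) -/
theorem poisson_gauss {x : ℝ} (hx : 0 < x) (c : ℝ) :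
    ∑' n : ℤ, Real.exp (-(x * (n + c) ^ 2)) = Real.sqrt (Real.pi / x) *
      ∑' m : ℤ, Real.exp (-(Real.pi ^ 2 / x * m ^ 2)) * Real.cos (2 * Real.pi * m * c) := by
  have hpi := Real.pi_pos
  set a : ℝ := Real.pi / x with ha
  have ha0 : 0 < a := by positivity
  have hxa : Real.pi / a = x := by rw [ha]; field_simp
  have hpa : Real.pi * a = Real.pi ^ 2 / x := by rw [ha]; ring
  have h := Complex.tsum_exp_neg_quadratic (a := (a : ℂ)) (by simpa using ha0) (-(Complex.I * c))
  -- right hand side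
  have e1 : ∀ n : ℤ, Complex.exp (-Real.pi / (a : ℂ) * (n + Complex.I * (-(Complex.I * c))) ^ 2) =
      ((Real.exp (-(x * (n + c) ^ 2)) : ℝ) : ℂ) := by
    intro n
    rw [Complex.ofReal_exp]
    congr 1
    have : (n : ℂ) + Complex.I * (-(Complex.I * c)) = n + c := by
      rw [mul_neg, ← mul_assoc, Complex.I_mul_I]
      ring
    rw [this, ← hxa]
    push_cast
    ring
  simp only [e1] at h
  rw [← Complex.ofReal_tsum] at h
  -- left hand side
  have e2 : ∀ n : ℤ, Complex.exp (-Real.pi * (a : ℂ) * n ^ 2 + 2 * Real.pi * (-(Complex.I * c)) * n) =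
      ((Real.exp (-(Real.pi ^ 2 / x * n ^ 2)) : ℝ) : ℂ) *
        Complex.exp (((-(2 * Real.pi * n * c) : ℝ) : ℂ) * Complex.I) := by
    intro n
    rw [Complex.ofReal_exp, ← Complex.exp_add]
    congr 1
    rw [← hpa]
    push_cast
    ring
  have hsum : Summable fun n : ℤ => ((Real.exp (-(Real.pi ^ 2 / x * n ^ 2)) : ℝ) : ℂ) *
        Complex.exp (((-(2 * Real.pi * n * c) : ℝ) : ℂ) * Complex.I) := by
    refine Summable.of_norm ?_
    have h0 := summable_shifted_gauss (x := Real.pi ^ 2 / x) (by positivity) 0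
    refine h0.congr fun n => ?_
    rw [norm_mul, Complex.norm_exp_ofReal_mul_I, mul_one, Complex.norm_real, Real.norm_eq_abs,
      abs_of_pos (Real.exp_pos _), add_zero]
  simp only [e2] at h
  have h3 := congrArg Complex.re h
  rw [Complex.re_tsum hsum] at h3
  have e3 : ∀ n : ℤ, (((Real.exp (-(Real.pi ^ 2 / x * n ^ 2)) : ℝ) : ℂ) *
        Complex.exp (((-(2 * Real.pi * n * c) : ℝ) : ℂ) * Complex.I)).re =
      Real.exp (-(Real.pi ^ 2 / x * n ^ 2)) * Real.cos (2 * Real.pi * n * c) := by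
    intro n
    rw [Complex.re_ofReal_mul, Complex.exp_ofReal_mul_I_re, Real.cos_neg]
  simp only [e3] at h3
  have e4 : (1 : ℂ) / (a : ℂ) ^ (1 / 2 : ℂ) = ((1 / Real.sqrt a : ℝ) : ℂ) := by
    rw [Real.sqrt_eq_rpow]
    push_cast
    rw [Complex.ofReal_cpow ha0.le]
    push_cast
    rfl
  rw [e4, ← Complex.ofReal_mul, Complex.ofReal_re] at h3
  rw [h3]
  have hs : 0 < Real.sqrt a := Real.sqrt_pos.2 ha0
  field_simp

/-- the same for even integers `2n` -/
theorem poisson_gauss_even {x : ℝ} (hx : 0 < x) (c : ℝ) :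
    ∑' n : ℤ, Real.exp (-(x * (2 * n + c) ^ 2)) = Real.sqrt (Real.pi / (4 * x)) *
      ∑' m : ℤ, Real.exp (-(Real.pi ^ 2 / (4 * x) * m ^ 2)) * Real.cos (Real.pi * m * c) := by
  have h := poisson_gauss (x := 4 * x) (by positivity) (c / 2)
  have e1 : ∀ n : ℤ, Real.exp (-(4 * x * (n + c / 2) ^ 2)) = Real.exp (-(x * (2 * n + c) ^ 2)) := by
    intro n
    congr 1
    ring
  have e2 : ∀ m : ℤ, Real.cos (2 * Real.pi * m * (c / 2)) = Real.cos (Real.pi * m * c) := by
    intro m
    congr 1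
    ring
  simp only [e1, e2] at h
  exact h

/-- splitting of a sum over `ℤ` into even and odd integers -/
theorem tsum_even_odd {f : ℤ → ℝ} (hf : Summable f) :
    ∑' n : ℤ, f n = ∑' n : ℤ, f (2 * n) + ∑' n : ℤ, f (2 * n + 1) := by
  have h1 : Function.Injective (fun n : ℤ => 2 * n) := mul_right_injective₀ (two_ne_zero' ℤ)
  have h2 : Function.Injective (fun n : ℤ => 2 * n + 1) := (add_left_injective 1).comp h1
  have he : HasSum (fun n : ℤ => f (2 * n)) (∑' n : ℤ, f (2 * n)) :=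
    (hf.comp_injective h1).hasSum
  have ho : HasSum (fun n : ℤ => f (2 * n + 1)) (∑' n : ℤ, f (2 * n + 1)) :=
    (hf.comp_injective h2).hasSum
  have ho' := h2.hasSum_range_iff.2 ho
  have he' := h1.hasSum_range_iff.2 he
  refine HasSum.tsum_eq (he'.add_isCompl ?_ ho')
  simpa [Function.comp_def] using Int.isCompl_even_odd

end MP7e122f.R
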