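import Pool.Agent.Lib.MP_7e122f_anR.Tails

/-!
# The three tail bounds

`S = (A1+A2+A3)/3`, `H = 2 S`, `x_i = A_i - S`, `ρ² = (2/3) ∑ x_i²`.  For every `k`,
`E(k) = A1 n1² + A2 n2² + A3 n3² = N H + d(k)`, `d = ∑ x_i n_i²`, with `n1 = k.2`,
`n2 = k.1 + k.2`, `n3 = k.1`, `∑ n_i² = 2 N`, `∑ n_i⁴ = 2 N²`, so `|d| ≤ N ρ` (Cauchy-Schwarz,
`∑ (n_i² - 2N/3)² = (2/3) N²`), and over the three rotations `∑ d = 0`, `∑ d² = (3/2) N² ρ²`.
`ϖ = exp(-(H - ρ))`, `h = H - 2y ≥ 0`, `t = exp(-2y)`, `h ≤ ρ` (so `t ≤ ϖ`).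
-/

namespace MP7e122f.R

/-- the hypotheses on the parameters -/
structure TP (y A1 A2 A3 H ρ x t : ℝ) : Prop where
  hy : 0 < y
  det : A1 * A2 + A2 * A3 + A3 * A1 = 3 * y ^ 2
  h12 : A2 ≤ A1
  h23 : A3 ≤ A2
  hH : H = 2 / 3 * (A1 + A2 + A3)
  hρ0 : 0 ≤ ρ
  hρ : ρ ^ 2 = 2 / 3 * ((A1 - H / 2) ^ 2 + (A2 - H / 2) ^ 2 + (A3 - H / 2) ^ 2)
  hx : x = Real.exp (-(H - ρ))
  hx2 : x ≤ 1 / 2
  ht : t = Real.exp (-(2 * y))
  ht2 : t ≤ 17 / 100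
  hle : H - 2 * y ≤ ρ

theorem TP.h_nonneg {y A1 A2 A3 H ρ x t : ℝ} (P : TP y A1 A2 A3 H ρ x t) (hH : 0 ≤ H) :
    0 ≤ H - 2 * y := by
  have h1 := P.det
  have h2 := P.hH
  have hy := P.hy
  have h3 : (2 * y) ^ 2 ≤ H ^ 2 := by
    rw [h2]
    nlinarith [sq_nonneg (A1 - A2), sq_nonneg (A2 - A3), sq_nonneg (A3 - A1)]
  have h4 := sq_le_sq.1 h3
  rw [abs_of_nonneg hH, abs_of_nonneg (by linarith)] at h4
  linarith

private theorem tpb_Nf_real (k : ℤ × ℤ) :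
    (Nf k : ℝ) = (k.1 : ℝ) ^ 2 + k.1 * k.2 + (k.2 : ℝ) ^ 2 := by
  unfold Nf; push_cast; ring

private theorem tpb_Nf_nonneg (k : ℤ × ℤ) : 0 ≤ (Nf k : ℝ) := by
  rw [tpb_Nf_real]
  nlinarith [sq_nonneg ((k.1 : ℝ) + k.2), sq_nonneg (k.1 : ℝ), sq_nonneg (k.2 : ℝ)]

private theorem tpb_toNat (k : ℤ × ℤ) : (((Nf k).toNat : ℕ) : ℝ) = (Nf k : ℝ) := by
  have h : 0 ≤ Nf k := by exact_mod_cast tpb_Nf_nonneg k
  have h2 : (((Nf k).toNat : ℕ) : ℤ) = Nf k := Int.toNat_of_nonneg h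
  exact_mod_cast h2

/-- Cauchy-Schwarz for the linear form, with the three coefficients in any order -/
private theorem tpb_lin {x1 x2 x3 ρ : ℝ} (hs : x1 + x2 + x3 = 0) (hρ0 : 0 ≤ ρ)
    (hρ : ρ ^ 2 = 2 / 3 * (x1 ^ 2 + x2 ^ 2 + x3 ^ 2)) (k : ℤ × ℤ) :
    |x1 * (k.2 : ℝ) ^ 2 + x2 * ((k.1 : ℝ) + k.2) ^ 2 + x3 * (k.1 : ℝ) ^ 2| ≤ ρ * Nf k := by
  have hN := tpb_Nf_nonneg k
  have h0 : 0 ≤ ρ * Nf k := mul_nonneg hρ0 hN
  rw [← abs_of_nonneg h0]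
  apply sq_le_sq.1
  rw [mul_pow, hρ, tpb_Nf_real]
  obtain ⟨a, ha⟩ : ∃ a : ℝ, a = k.1 := ⟨_, rfl⟩
  obtain ⟨b, hb⟩ : ∃ b : ℝ, b = k.2 := ⟨_, rfl⟩
  rw [← ha, ← hb]
  have hx3 : x3 = -x1 - x2 := by linarith
  subst hx3
  have key : 2 / 3 * (x1 ^ 2 + x2 ^ 2 + (-x1 - x2) ^ 2) * (a ^ 2 + a * b + b ^ 2) ^ 2 -
      (x1 * b ^ 2 + x2 * (a + b) ^ 2 + (-x1 - x2) * a ^ 2) ^ 2 =
      1 / 3 * (x1 * (2 * (a + b) ^ 2 - (b ^ 2 + a ^ 2)) - x2 * (2 * b ^ 2 - ((a + b) ^ 2 + a ^ 2))) ^ 2 := by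
    ring
  nlinarith [sq_nonneg (x1 * (2 * (a + b) ^ 2 - (b ^ 2 + a ^ 2)) - x2 * (2 * b ^ 2 - ((a + b) ^ 2 + a ^ 2)))]

private theorem TP.sum0 {y A1 A2 A3 H ρ x t : ℝ} (P : TP y A1 A2 A3 H ρ x t) :
    (A1 - H / 2) + (A2 - H / 2) + (A3 - H / 2) = 0 := by
  have := P.hH; linarith

/-- `N (H - ρ) ≤ E(k) ≤ N (H + ρ)` -/
theorem TP.energy {y A1 A2 A3 H ρ x t : ℝ} (P : TP y A1 A2 A3 H ρ x t) (k : ℤ × ℤ) :
    |A3 * k.1 ^ 2 + A1 * k.2 ^ 2 + A2 * (k.1 + k.2) ^ 2 - H * Nf k| ≤ ρ * Nf k := by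
  have h := tpb_lin P.sum0 P.hρ0 P.hρ k
  have e : A3 * (k.1 : ℝ) ^ 2 + A1 * (k.2 : ℝ) ^ 2 + A2 * ((k.1 : ℝ) + k.2) ^ 2 - H * Nf k =
      (A1 - H / 2) * (k.2 : ℝ) ^ 2 + (A2 - H / 2) * ((k.1 : ℝ) + k.2) ^ 2 + (A3 - H / 2) * (k.1 : ℝ) ^ 2 := by
    rw [tpb_Nf_real]; ring
  rw [e]
  exact h

private theorem TP.xpow {y A1 A2 A3 H ρ x t : ℝ} (P : TP y A1 A2 A3 H ρ x t) (k : ℤ × ℤ) :
    x ^ (Nf k).toNat = Real.exp (-(Nf k * (H - ρ))) := by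
  rw [P.hx, ← Real.exp_nat_mul, tpb_toNat]
  congr 1
  ring

private theorem TP.tpow {y A1 A2 A3 H ρ x t : ℝ} (P : TP y A1 A2 A3 H ρ x t) (k : ℤ × ℤ) :
    t ^ (Nf k).toNat = Real.exp (-(Nf k * (2 * y))) := by
  rw [P.ht, ← Real.exp_nat_mul, tpb_toNat]
  congr 1
  ring

private theorem tpb_ccy (y : ℝ) (k : ℤ × ℤ) : cc y y y k = Real.exp (-(Nf k * (2 * y))) := by
  unfold cc
  congr 1
  rw [tpb_Nf_real]
  ring

theorem TP.cc_le {y A1 A2 A3 H ρ x t : ℝ} (P : TP y A1 A2 A3 H ρ x t) (k : ℤ × ℤ) :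
    cc A3 A1 A2 k ≤ x ^ (Nf k).toNat ∧ cc y y y k = t ^ (Nf k).toNat := by
  refine ⟨?_, by rw [P.tpow, tpb_ccy]⟩
  rw [P.xpow]
  unfold cc
  apply Real.exp_le_exp.2
  have h := (abs_le.1 (P.energy k)).1
  nlinarith

/-- `(1 + s) exp (-s) ≥ 1 - s²/2` -/
private theorem tpb_aux1 {s : ℝ} (hs : 0 ≤ s) : 1 - (1 + s) * Real.exp (-s) ≤ s ^ 2 / 2 := by
  have hd : ∀ u : ℝ, HasDerivAt (fun u : ℝ => (1 + u) * Real.exp (-u) + u ^ 2 / 2)
      (u * (1 - Real.exp (-u))) u := by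
    intro u
    have h1 : HasDerivAt (fun u : ℝ => 1 + u) 1 u := (hasDerivAt_id u).const_add 1
    have h2 : HasDerivAt (fun u : ℝ => Real.exp (-u)) (Real.exp (-u) * (-1)) u :=
      ((hasDerivAt_id u).neg).exp
    have h3 : HasDerivAt (fun u : ℝ => u ^ 2 / 2) (2 * u ^ 1 / 2) u := by
      simpa using (hasDerivAt_pow 2 u).div_const 2
    refine ((h1.mul h2).add h3).congr_deriv ?_
    ring
  have hmono : MonotoneOn (fun u : ℝ => (1 + u) * Real.exp (-u) + u ^ 2 / 2) (Set.Ici 0) := by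
    apply monotoneOn_of_deriv_nonneg (convex_Ici 0)
    · exact fun u _ => (hd u).continuousAt.continuousWithinAt
    · exact fun u _ => (hd u).differentiableAt.differentiableWithinAt
    · intro u hu
      rw [interior_Ici] at hu
      rw [(hd u).deriv]
      have : Real.exp (-u) ≤ 1 := Real.exp_le_one_iff.2 (by have := Set.mem_Ioi.1 hu; linarith)
      exact mul_nonneg (le_of_lt hu) (by linarith)
  have h := hmono (Set.mem_Ici.2 (le_refl 0)) (Set.mem_Ici.2 hs) hs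
  simp only [add_zero, neg_zero, Real.exp_zero, mul_one] at h
  norm_num at h
  linarith

/-- `exp (θ s) - 1 - θ s ≤ θ² (exp s - 1 - s)` for `0 ≤ θ ≤ 1`, `0 ≤ s` -/
private theorem tpb_aux2 {θ s : ℝ} (hθ : 0 ≤ θ) (hθ1 : θ ≤ 1) (hs : 0 ≤ s) :
    Real.exp (θ * s) - 1 - θ * s ≤ θ ^ 2 * (Real.exp s - 1 - s) := by
  have hd : ∀ u : ℝ, HasDerivAt
      (fun u : ℝ => θ ^ 2 * (Real.exp u - 1 - u) - (Real.exp (θ * u) - 1 - θ * u))
      (θ ^ 2 * (Real.exp u - 1) - (Real.exp (θ * u) * θ - θ)) u := by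
    intro u
    have h1 : HasDerivAt (fun u : ℝ => Real.exp u - 1 - u) (Real.exp u - 1) u :=
      ((Real.hasDerivAt_exp u).sub_const 1).sub (hasDerivAt_id u)
    have h0 : HasDerivAt (fun u : ℝ => θ * u) θ u := by
      simpa using (hasDerivAt_id u).const_mul θ
    have h2 : HasDerivAt (fun u : ℝ => Real.exp (θ * u) - 1 - θ * u) (Real.exp (θ * u) * θ - θ) u :=
      ((h0.exp).sub_const 1).sub h0
    exact (h1.const_mul (θ ^ 2)).sub h2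
  have hmono : MonotoneOn
      (fun u : ℝ => θ ^ 2 * (Real.exp u - 1 - u) - (Real.exp (θ * u) - 1 - θ * u)) (Set.Ici 0) := by
    apply monotoneOn_of_deriv_nonneg (convex_Ici 0)
    · exact fun u _ => (hd u).continuousAt.continuousWithinAt
    · exact fun u _ => (hd u).differentiableAt.differentiableWithinAt
    · intro u hu
      rw [interior_Ici] at hu
      rw [(hd u).deriv]
      have hc := convexOn_exp.2 (Set.mem_univ (0 : ℝ)) (Set.mem_univ u)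
        (by linarith : 0 ≤ 1 - θ) hθ (by ring)
      simp only [smul_eq_mul, mul_zero, zero_add, Real.exp_zero, mul_one] at hc
      nlinarith
  have h := hmono (Set.mem_Ici.2 (le_refl 0)) (Set.mem_Ici.2 hs) hs
  simp only [mul_zero, Real.exp_zero] at h
  norm_num at h
  linarith

/-- `(exp (-d) - 1 + d) s² ≤ d² (exp s - 1 - s)` for `|d| ≤ s` -/
private theorem tpb_aux3 {d s : ℝ} (hd : |d| ≤ s) (hs : 0 < s) :
    Real.exp (-d) - 1 + d ≤ d ^ 2 / s ^ 2 * (Real.exp s - 1 - s) := by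
  have h1 : Real.exp (-d) - 1 + d ≤ Real.exp |d| - 1 - |d| := by
    rcases le_total 0 d with h0 | h0
    · rw [abs_of_nonneg h0]
      have h := Real.self_le_sinh_iff.2 h0
      rw [Real.sinh_eq] at h
      linarith
    · rw [abs_of_nonpos h0]
      linarith
  have h2 := tpb_aux2 (θ := |d| / s) (s := s) (by positivity) ((div_le_one hs).2 hd) hs.le
  rw [div_mul_cancel₀ _ hs.ne', div_pow, sq_abs] at h2
  linarith

/-- the sum over one orbit -/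
private theorem tpb_orb {d1 d2 d3 s : ℝ} (h0 : d1 + d2 + d3 = 0)
    (h2 : d1 ^ 2 + d2 ^ 2 + d3 ^ 2 = 3 / 2 * s ^ 2) (hs : 0 ≤ s) (b1 : |d1| ≤ s) (b2 : |d2| ≤ s)
    (b3 : |d3| ≤ s) :
    0 ≤ Real.exp (-d1) + Real.exp (-d2) + Real.exp (-d3) - 3 ∧
    Real.exp (-d1) + Real.exp (-d2) + Real.exp (-d3) - 3 ≤
      3 / 2 * (Real.exp s * min 1 (s ^ 2 / 2)) := by
  constructor
  · have e1 := Real.add_one_le_exp (-d1)
    have e2 := Real.add_one_le_exp (-d2)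
    have e3 := Real.add_one_le_exp (-d3)
    linarith
  · rcases hs.eq_or_lt with hs0 | hs0
    · subst hs0
      have z1 : d1 = 0 := abs_nonpos_iff.1 b1
      have z2 : d2 = 0 := abs_nonpos_iff.1 b2
      have z3 : d3 = 0 := abs_nonpos_iff.1 b3
      rw [z1, z2, z3]
      norm_num
    · have e1 := tpb_aux3 b1 hs0
      have e2 := tpb_aux3 b2 hs0
      have e3 := tpb_aux3 b3 hs0
      have hsum : d1 ^ 2 / s ^ 2 * (Real.exp s - 1 - s) + d2 ^ 2 / s ^ 2 * (Real.exp s - 1 - s) +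
          d3 ^ 2 / s ^ 2 * (Real.exp s - 1 - s) = 3 / 2 * (Real.exp s - 1 - s) := by
        have : d1 ^ 2 / s ^ 2 * (Real.exp s - 1 - s) + d2 ^ 2 / s ^ 2 * (Real.exp s - 1 - s) +
          d3 ^ 2 / s ^ 2 * (Real.exp s - 1 - s) =
            (d1 ^ 2 + d2 ^ 2 + d3 ^ 2) / s ^ 2 * (Real.exp s - 1 - s) := by ring
        rw [this, h2, mul_div_assoc, div_self (by positivity), mul_one]
      have hE : Real.exp s - 1 - s = Real.exp s * (1 - (1 + s) * Real.exp (-s)) := by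
        have : Real.exp s * Real.exp (-s) = 1 := by rw [← Real.exp_add, add_neg_cancel, Real.exp_zero]
        linear_combination (-1) * (1 + s) * (-this)
      have hm : 1 - (1 + s) * Real.exp (-s) ≤ min 1 (s ^ 2 / 2) := by
        refine le_min ?_ (tpb_aux1 hs)
        have : 0 ≤ (1 + s) * Real.exp (-s) := by positivity
        linarith
      have hfin : Real.exp s - 1 - s ≤ Real.exp s * min 1 (s ^ 2 / 2) := by
        rw [hE]; exact mul_le_mul_of_nonneg_left hm (Real.exp_pos s).le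
      linarith

/-- one rotation orbit; use `(exp s - 1 - s)/s²` increasing: for `|d_j| ≤ s`, `∑ d_j = 0`,
`∑ d_j² = (3/2) s²` (`s = Nρ`): `∑ exp(-d_j) - 3 ≤ (3/2)(exp s - 1 - s)`, and
`1 - (1+s) exp(-s) ≤ min(1, s²/2)`.  Lower bound: `≥ 3 (exp(-NH) - exp(-2yN)) ≥ -3 t^N N h`. -/
theorem TP.orbit {y A1 A2 A3 H ρ x t : ℝ} (P : TP y A1 A2 A3 H ρ x t) (hH : 0 ≤ H) (k : ℤ × ℤ) :
    |cc A3 A1 A2 k + cc A3 A1 A2 (e3 k) + cc A3 A1 A2 (e3.symm k) - 3 * cc y y y k| ≤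
      3 / 2 * (x ^ (Nf k).toNat * min 1 ((Nf k * ρ) ^ 2 / 2))
        + 3 * (t ^ (Nf k).toNat * (Nf k * (H - 2 * y))) := by
  have hh := P.h_nonneg hH
  have hN := tpb_Nf_nonneg k
  rw [cc_e3, cc_e3_symm, P.xpow, P.tpow, tpb_ccy]
  obtain ⟨x1, hx1⟩ : ∃ x1, x1 = A1 - H / 2 := ⟨_, rfl⟩
  obtain ⟨x2, hx2⟩ : ∃ x2, x2 = A2 - H / 2 := ⟨_, rfl⟩
  obtain ⟨x3, hx3⟩ : ∃ x3, x3 = A3 - H / 2 := ⟨_, rfl⟩
  have hs : x1 + x2 + x3 = 0 := by rw [hx1, hx2, hx3]; exact P.sum0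
  have hr : ρ ^ 2 = 2 / 3 * (x1 ^ 2 + x2 ^ 2 + x3 ^ 2) := by rw [hx1, hx2, hx3]; exact P.hρ
  have hρ0 := P.hρ0
  obtain ⟨d1, hd1⟩ : ∃ d1, d1 = x1 * (k.2 : ℝ) ^ 2 + x2 * ((k.1 : ℝ) + k.2) ^ 2 + x3 * (k.1 : ℝ) ^ 2 :=
    ⟨_, rfl⟩
  obtain ⟨d2, hd2⟩ : ∃ d2, d2 = x2 * (k.2 : ℝ) ^ 2 + x3 * ((k.1 : ℝ) + k.2) ^ 2 + x1 * (k.1 : ℝ) ^ 2 :=
    ⟨_, rfl⟩
  obtain ⟨d3, hd3⟩ : ∃ d3, d3 = x3 * (k.2 : ℝ) ^ 2 + x1 * ((k.1 : ℝ) + k.2) ^ 2 + x2 * (k.1 : ℝ) ^ 2 :=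
    ⟨_, rfl⟩
  have b1 : |d1| ≤ ρ * Nf k := by rw [hd1]; exact tpb_lin hs hρ0 hr k
  have b2 : |d2| ≤ ρ * Nf k := by
    rw [hd2]; exact tpb_lin (by linarith) hρ0 (by rw [hr]; ring) k
  have b3 : |d3| ≤ ρ * Nf k := by
    rw [hd3]; exact tpb_lin (by linarith) hρ0 (by rw [hr]; ring) k
  have hsum : d1 + d2 + d3 = 0 := by
    rw [hd1, hd2, hd3]
    linear_combination ((k.2 : ℝ) ^ 2 + ((k.1 : ℝ) + k.2) ^ 2 + (k.1 : ℝ) ^ 2) * hs
  have hsq : d1 ^ 2 + d2 ^ 2 + d3 ^ 2 = 3 / 2 * (Nf k * ρ) ^ 2 := by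
    rw [mul_pow, hr, tpb_Nf_real, hd1, hd2, hd3]
    have hx3' : x3 = -x1 - x2 := by linarith
    rw [hx3']
    ring
  have key := tpb_orb hsum hsq (s := Nf k * ρ) (by positivity) (by rw [mul_comm]; exact b1)
    (by rw [mul_comm]; exact b2) (by rw [mul_comm]; exact b3)
  have c1 : cc A3 A1 A2 k = Real.exp (-(Nf k * H)) * Real.exp (-d1) := by
    unfold cc
    rw [← Real.exp_add, tpb_Nf_real, hd1, hx1, hx2, hx3]
    congr 1
    ring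
  have c2 : cc A1 A2 A3 k = Real.exp (-(Nf k * H)) * Real.exp (-d2) := by
    unfold cc
    rw [← Real.exp_add, tpb_Nf_real, hd2, hx1, hx2, hx3]
    congr 1
    ring
  have c3 : cc A2 A3 A1 k = Real.exp (-(Nf k * H)) * Real.exp (-d3) := by
    unfold cc
    rw [← Real.exp_add, tpb_Nf_real, hd3, hx1, hx2, hx3]
    congr 1
    ring
  rw [c1, c2, c3]
  have hxe : Real.exp (-(Nf k * (H - ρ))) = Real.exp (-(Nf k * H)) * Real.exp (Nf k * ρ) := by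
    rw [← Real.exp_add]; congr 1; ring
  rw [hxe]
  have hte : Real.exp (-(Nf k * H)) = Real.exp (-(Nf k * (2 * y))) * Real.exp (-(Nf k * (H - 2 * y))) := by
    rw [← Real.exp_add]; congr 1; ring
  have hE0 := Real.exp_pos (-((Nf k : ℝ) * H))
  have hT0 := Real.exp_pos (-((Nf k : ℝ) * (2 * y)))
  have hq0 : 0 ≤ (Nf k : ℝ) * (H - 2 * y) := mul_nonneg hN hh
  have u1 : Real.exp (-(Nf k * H)) ≤ Real.exp (-(Nf k * (2 * y))) := by
    apply Real.exp_le_exp.2; nlinarith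
  have u2 : Real.exp (-(Nf k * (2 * y))) - Real.exp (-(Nf k * H)) ≤
      Real.exp (-(Nf k * (2 * y))) * (Nf k * (H - 2 * y)) := by
    have h := Real.one_sub_le_exp_neg ((Nf k : ℝ) * (H - 2 * y))
    have h' := mul_le_mul_of_nonneg_left h hT0.le
    rw [← hte] at h'
    linarith
  have k1 := mul_nonneg hE0.le key.1
  have k2 := mul_le_mul_of_nonneg_left key.2 hE0.le
  have w0 : 0 ≤ Real.exp (-(Nf k * (2 * y))) * (Nf k * (H - 2 * y)) := mul_nonneg hT0.le hq0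
  have w1 : 0 ≤ Real.exp (-(Nf k * H)) * Real.exp (Nf k * ρ) * min 1 ((Nf k * ρ) ^ 2 / 2) := by
    positivity
  rw [abs_le]
  constructor
  · linarith
  · linarith

/-- `|w - wH| ≤ ϖ^N min(1, N (ρ + h))` -/
theorem TP.diff {y A1 A2 A3 H ρ x t : ℝ} (P : TP y A1 A2 A3 H ρ x t) (hH : 0 ≤ H) (k : ℤ × ℤ) :
    |cc A3 A1 A2 k - cc y y y k| ≤ x ^ (Nf k).toNat * min 1 (Nf k * (ρ + (H - 2 * y))) := by
  have hh := P.h_nonneg hH
  have hN := tpb_Nf_nonneg k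
  have hE := P.energy k
  rw [P.xpow, tpb_ccy]
  unfold cc
  obtain ⟨E, hEd⟩ : ∃ E : ℝ, E = A3 * (k.1 : ℝ) ^ 2 + A1 * (k.2 : ℝ) ^ 2 + A2 * ((k.1 : ℝ) + k.2) ^ 2 :=
    ⟨_, rfl⟩
  rw [← hEd] at hE ⊢
  have hle := P.hle
  have e1 : Nf k * (H - ρ) ≤ E := by have := (abs_le.1 hE).1; nlinarith
  have e2 : Nf k * (H - ρ) ≤ Nf k * (2 * y) := mul_le_mul_of_nonneg_left (by linarith) hN
  have p1 := Real.exp_le_exp.2 (neg_le_neg e1)
  have p2 := Real.exp_le_exp.2 (neg_le_neg e2)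
  have q0 := Real.exp_pos (-((Nf k : ℝ) * (H - ρ)))
  have q1 := Real.exp_pos (-E)
  have q2 := Real.exp_pos (-((Nf k : ℝ) * (2 * y)))
  have hdist : |E - Nf k * (2 * y)| ≤ Nf k * (ρ + (H - 2 * y)) := by
    have f : E - Nf k * (2 * y) = (E - H * Nf k) + Nf k * (H - 2 * y) := by ring
    rw [f]
    refine (abs_add_le _ _).trans ?_
    rw [abs_of_nonneg (mul_nonneg hN hh)]
    linarith
  have gen : ∀ a b : ℝ, a ≤ b → Real.exp (-a) - Real.exp (-b) ≤ Real.exp (-a) * (b - a) := by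
    intro a b hab
    have h := Real.one_sub_le_exp_neg (b - a)
    have h' := mul_le_mul_of_nonneg_left h (Real.exp_pos (-a)).le
    have e : Real.exp (-a) * Real.exp (-(b - a)) = Real.exp (-b) := by
      rw [← Real.exp_add]; congr 1; ring
    rw [e] at h'
    linarith
  rw [mul_min_of_nonneg _ _ q0.le]
  refine le_min ?_ ?_
  · rw [mul_one, abs_le]
    constructor <;> linarith
  · have hfin : |Real.exp (-E) - Real.exp (-(Nf k * (2 * y)))| ≤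
        Real.exp (-(Nf k * (H - ρ))) * |E - Nf k * (2 * y)| := by
      rcases le_total E (Nf k * (2 * y)) with h | h
      · have g := gen _ _ h
        have m := Real.exp_le_exp.2 (neg_le_neg h)
        rw [abs_of_nonneg (by linarith), abs_of_nonpos (by linarith)]
        refine g.trans ?_
        have := mul_le_mul_of_nonneg_right p1 (by linarith : 0 ≤ Nf k * (2 * y) - E)
        linarith
      · have g := gen _ _ h
        have m := Real.exp_le_exp.2 (neg_le_neg h)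
        rw [abs_of_nonpos (by linarith), abs_of_nonneg (by linarith)]
        have := mul_le_mul_of_nonneg_right p2 (by linarith : 0 ≤ E - Nf k * (2 * y))
        linarith
    exact hfin.trans (mul_le_mul_of_nonneg_left hdist q0.le)

end MP7e122f.R
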