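import Pool.Agent.Lib.MP_7e122f_anR.NDefs
import Pool.Agent.Lib.MP_7e122f_anR.TPb

namespace MP7e122f.R

private theorem NormA_kap (p : ℝ) : 0 < kap p := by
  unfold kap
  nlinarith [sq_nonneg (p - 1 / 2)]

private theorem NormA_chh_sq {y r p : ℝ} (hy : 0 < y) :
    chh y r p ^ 2 = 1 + kap p * r ^ 2 / (9 * y ^ 2) := by
  have hk := NormA_kap p
  unfold chh
  exact Real.sq_sqrt (by positivity)

private theorem NormA_chh_ge {y r p : ℝ} (hy : 0 < y) : 1 ≤ chh y r p := by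
  have hk := NormA_kap p
  unfold chh
  rw [Real.one_le_sqrt]
  have : 0 ≤ kap p * r ^ 2 / (9 * y ^ 2) := by positivity
  linarith

/-- `A1A2+A2A3+A3A1 = 3y²`, order, `2 y ch - 2 y = hh` -/
theorem AA_basic {y r p : ℝ} (hy : 0 < y) (hr : 0 < r) (hp0 : 0 ≤ p) (hp1 : p ≤ 1) :
    AA1 y r p * AA2 y r p + AA2 y r p * AA3 y r p + AA3 y r p * AA1 y r p = 3 * y ^ 2 ∧
    AA2 y r p ≤ AA1 y r p ∧ AA3 y r p ≤ AA2 y r p ∧
    2 * y * chh y r p - 2 * y = hh y r p ∧ 0 < g0 y r p ∧ 0 < kap p ∧ 1 ≤ chh y r p := by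
  have hk := NormA_kap p
  have hc := NormA_chh_ge (r := r) (p := p) hy
  have hc2 := NormA_chh_sq (r := r) (p := p) hy
  have hy0 : y ≠ 0 := hy.ne'
  have hc3 : y ^ 2 * chh y r p ^ 2 = y ^ 2 + kap p * r ^ 2 / 9 := by
    rw [hc2]
    field_simp
  refine ⟨?_, ?_, ?_, ?_, ?_, hk, hc⟩
  · have e : AA1 y r p * AA2 y r p + AA2 y r p * AA3 y r p + AA3 y r p * AA1 y r p =
        3 * (y ^ 2 * chh y r p ^ 2) - kap p * r ^ 2 / 3 := by
      unfold AA1 AA2 AA3 xx1 xx2 xx3 kap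
      ring
    rw [e, hc3]
    ring
  · unfold AA1 AA2 xx1 xx2
    nlinarith [mul_nonneg hp0 hr.le]
  · unfold AA2 AA3 xx2 xx3
    nlinarith [mul_nonneg (sub_nonneg.2 hp1) hr.le]
  · unfold hh g0
    have h1 : y * (chh y r p + 1) ≠ 0 := by positivity
    rw [div_mul_eq_mul_div, eq_div_iff h1]
    have e : (2 * y * chh y r p - 2 * y) * (y * (chh y r p + 1)) =
        2 * (y ^ 2 * chh y r p ^ 2) - 2 * y ^ 2 := by ring
    rw [e, hc3]
    ring
  · unfold g0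
    positivity

/-- every non-constant sorted nonnegative triple is of this form -/
theorem exists_rp {y A1 A2 A3 : ℝ} (hy : 0 < y) (h12 : A2 ≤ A1) (h23 : A3 ≤ A2) (h3 : 0 ≤ A3)
    (hne : A3 ≠ A1) (hdet : A1 * A2 + A2 * A3 + A3 * A1 = 3 * y ^ 2) :
    ∃ r p : ℝ, 0 < r ∧ 0 ≤ p ∧ p ≤ 1 ∧ A1 = AA1 y r p ∧ A2 = AA2 y r p ∧ A3 = AA3 y r p := by
  have hr : 0 < A1 - A3 := by
    have h1 : A3 ≤ A1 := h23.trans h12
    have h2 : A3 < A1 := lt_of_le_of_ne h1 hne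
    linarith
  have hr0 : A1 - A3 ≠ 0 := hr.ne'
  have hpr : (A1 - A2) / (A1 - A3) * (A1 - A3) = A1 - A2 := by field_simp
  obtain ⟨p, hp⟩ : ∃ p, p = (A1 - A2) / (A1 - A3) := ⟨_, rfl⟩
  rw [← hp] at hpr
  have hy0 : y ≠ 0 := hy.ne'
  have hchh : y * chh y (A1 - A3) p = (A1 + A2 + A3) / 3 := by
    have hS : 0 ≤ (A1 + A2 + A3) / 3 := by linarith
    have hk : kap p * (A1 - A3) ^ 2 = (A1 - A3) ^ 2 - (A1 - A2) * (A1 - A3) + (A1 - A2) ^ 2 := by
      have e : kap p * (A1 - A3) ^ 2 = (A1 - A3) ^ 2 - (p * (A1 - A3)) * (A1 - A3)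
          + (p * (A1 - A3)) ^ 2 := by
        unfold kap
        ring
      rw [e, hpr]
    have h1 : 1 + kap p * (A1 - A3) ^ 2 / (9 * y ^ 2) = ((A1 + A2 + A3) / (3 * y)) ^ 2 := by
      rw [hk]
      field_simp
      linear_combination -27 * hdet
    unfold chh
    rw [h1, Real.sqrt_sq (div_nonneg (by linarith) (by positivity))]
    field_simp
  refine ⟨A1 - A3, p, hr, ?_, ?_, ?_, ?_, ?_⟩
  · rw [hp]
    exact div_nonneg (by linarith) hr.le
  · rw [hp, div_le_one hr]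
    linarith
  · unfold AA1 xx1
    rw [hchh]
    linear_combination -(1 / 3) * hpr
  · unfold AA2 xx2
    rw [hchh]
    linear_combination (2 / 3) * hpr
  · unfold AA3 xx3
    rw [hchh]
    linear_combination -(1 / 3) * hpr

private theorem NormA_exp : Real.exp (-(9 / 5 : ℝ)) ≤ 17 / 100 := by
  rw [Real.exp_neg]
  have h1 : (100 / 17 : ℝ) ≤ Real.exp (9 / 5) := by
    have h2 : (100 / 17 : ℝ) ^ 5 ≤ Real.exp (9 / 5) ^ 5 := by
      rw [← Real.exp_nat_mul]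
      have h3 : ((5 : ℕ) : ℝ) * (9 / 5) = ((9 : ℕ) : ℝ) * 1 := by norm_num
      rw [h3, Real.exp_nat_mul]
      have h4 : (2.718 : ℝ) ≤ Real.exp 1 := by
        have := Real.exp_one_gt_d9
        linarith
      calc (100 / 17 : ℝ) ^ 5 ≤ 2.718 ^ 9 := by norm_num
        _ ≤ Real.exp 1 ^ 9 := pow_le_pow_left₀ (by norm_num) h4 9
    exact le_of_pow_le_pow_left₀ (by norm_num) (Real.exp_pos _).le h2
  rw [inv_le_comm₀ (Real.exp_pos _) (by norm_num)]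
  calc (17 / 100 : ℝ)⁻¹ = 100 / 17 := by norm_num
    _ ≤ _ := h1

theorem TP_norm {y r p : ℝ} (hy : 0.9 ≤ y) (hr : 0 < r) (hp0 : 0 ≤ p) (hp1 : p ≤ 1)
    (hvp : vpi y r p ≤ 1 / 2) (hle : hh y r p ≤ rho r p) :
    TP y (AA1 y r p) (AA2 y r p) (AA3 y r p) (2 * y * chh y r p) (rho r p) (vpi y r p)
      (Real.exp (-(2 * y))) := by
  have hy' : (9 / 10 : ℝ) ≤ y := by
    have : (0.9 : ℝ) = 9 / 10 := by norm_num
    linarith
  have hy0 : 0 < y := by linarith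
  obtain ⟨b1, b2, b3, b4, b5, b6, b7⟩ := AA_basic hy0 hr hp0 hp1
  refine ⟨hy0, b1, b2, b3, ?_, ?_, ?_, rfl, hvp, rfl, ?_, ?_⟩
  · unfold AA1 AA2 AA3 xx1 xx2 xx3
    ring
  · unfold rho
    positivity
  · have e1 : AA1 y r p - 2 * y * chh y r p / 2 = xx1 r p := by unfold AA1; ring
    have e2 : AA2 y r p - 2 * y * chh y r p / 2 = xx2 r p := by unfold AA2; ring
    have e3 : AA3 y r p - 2 * y * chh y r p / 2 = xx3 r p := by unfold AA3; ring
    rw [e1, e2, e3]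
    unfold rho
    rw [mul_pow, mul_pow, Real.sq_sqrt b6.le]
    unfold xx1 xx2 xx3 kap
    ring
  · refine le_trans ?_ NormA_exp
    exact Real.exp_le_exp.2 (by linarith)
  · rw [b4]
    exact hle

end MP7e122f.R
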