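import Pool.Agent.Lib.MP_7e122f_anR.KDefs
import Pool.Agent.Lib.MP_7e122f_anR.JPois
import Pool.Agent.Lib.MP_7e122f_anR.NormA

/-!
# Derivative of `Gq` in `s`

`AA_i (σ y) (σ r) p = σ AA_i y r p`, `chh (σ y) (σ r) p = chh y r p`, so for `A_i = AA_i y1c r1 p`,
`σ d/dσ Gq σ A1 A2 A3 = -∑ sig (σ E) exp(-σ E)`.  With `F(σ) = Gq σ A1 A2 A3 - Gq σ y1c y1c y1c`:
`σ F'(σ) = -SG (σ y1c) (σ r1) p ≤ - m σ`, `F(1) = 0` (`Gq_one` twice; `AA1 AA2 + AA2 AA3 + AA3 AA1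
= 3 y1c² = π²/4`, `AA3 ≤ AA2 ≤ AA1`), hence `F(δ) ≤ -(δ-1) m`.  The forms are positive definite
(`det = 3 y²`), which gives locally uniform summability for the termwise derivative
(`hasDerivAt_tsum_of_isPreconnected` or similar, for `σ` in an open interval around `[1, 1.2]`).
-/

namespace MP7e122f.R

private theorem KDer_gauss {c : ℝ} (hc : 0 < c) :
    Summable fun k : ℤ × ℤ => Real.exp (-(c * ((k.1 : ℝ) ^ 2 + (k.2 : ℝ) ^ 2))) := by
  have h := summable_shifted_gauss hc 0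
  have h2 := h.mul_of_nonneg h (fun n => (Real.exp_pos _).le) (fun n => (Real.exp_pos _).le)
  refine h2.congr fun k => ?_
  rw [← Real.exp_add]
  congr 1
  ring

private theorem KDer_exp {c : ℝ} (hc : 0 < c) {E : ℤ × ℤ → ℝ}
    (hE : ∀ k, c * ((k.1 : ℝ) ^ 2 + (k.2 : ℝ) ^ 2) ≤ E k) {s : ℝ} (hs : 0 < s) :
    Summable fun k : ℤ × ℤ => Real.exp (-(s * E k)) := by
  have h := KDer_gauss (c := s * c) (by positivity)
  refine Summable.of_nonneg_of_le (fun k => (Real.exp_pos _).le) (fun k => ?_) h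
  rw [Real.exp_le_exp]
  have := mul_le_mul_of_nonneg_left (hE k) hs.le
  linarith

private theorem KDer_bd {x s : ℝ} (hx : 0 ≤ x) (hs : 1 / 2 ≤ s) :
    x * Real.exp (-(s * x)) ≤ 4 * Real.exp (-(1 / 4 * x)) := by
  have h1 : Real.exp (-(s * x)) ≤ Real.exp (-(1 / 2 * x)) := by
    rw [Real.exp_le_exp]
    nlinarith
  have h2 : x / 4 ≤ Real.exp (x / 4) := by
    have := Real.add_one_le_exp (x / 4)
    linarith
  have h3 : Real.exp (-(1 / 2 * x)) = Real.exp (-(1 / 4 * x)) * Real.exp (-(x / 4)) := by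
    rw [← Real.exp_add]
    congr 1
    ring
  have h4 : x * Real.exp (-(x / 4)) ≤ 4 := by
    have h5 : x ≤ 4 * Real.exp (x / 4) := by linarith
    have h6 := mul_le_mul_of_nonneg_right h5 (Real.exp_pos (-(x / 4))).le
    rw [mul_assoc, ← Real.exp_add, add_neg_cancel, Real.exp_zero, mul_one] at h6
    exact h6
  calc x * Real.exp (-(s * x)) ≤ x * Real.exp (-(1 / 2 * x)) := mul_le_mul_of_nonneg_left h1 hx
    _ = (x * Real.exp (-(x / 4))) * Real.exp (-(1 / 4 * x)) := by rw [h3]; ring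
    _ ≤ 4 * Real.exp (-(1 / 4 * x)) := mul_le_mul_of_nonneg_right h4 (Real.exp_pos _).le

private theorem KDer_sig (k : ℤ × ℤ) : |(sig k : ℝ)| = 1 := by
  unfold sig
  split_ifs <;> simp

private theorem KDer_summ {c : ℝ} (hc : 0 < c) {E : ℤ × ℤ → ℝ}
    (hE : ∀ k, c * ((k.1 : ℝ) ^ 2 + (k.2 : ℝ) ^ 2) ≤ E k) {s : ℝ} (hs : 1 / 2 ≤ s) :
    Summable fun k : ℤ × ℤ => (sig k : ℝ) * (E k * Real.exp (-(s * E k))) := by
  have h := (KDer_exp hc hE (s := 1 / 4) (by norm_num)).mul_left 4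
  refine Summable.of_norm_bounded h fun k => ?_
  have hk : 0 ≤ E k := le_trans (by positivity) (hE k)
  rw [Real.norm_eq_abs, abs_mul, KDer_sig, one_mul, abs_of_nonneg (by positivity)]
  exact KDer_bd hk hs

private theorem KDer_deriv {c : ℝ} (hc : 0 < c) {E : ℤ × ℤ → ℝ}
    (hE : ∀ k, c * ((k.1 : ℝ) ^ 2 + (k.2 : ℝ) ^ 2) ≤ E k) {s : ℝ} (hs : 1 / 2 < s) :
    HasDerivAt (fun s => ∑' k : ℤ × ℤ, (sig k : ℝ) * Real.exp (-(s * E k)))
      (∑' k : ℤ × ℤ, -((sig k : ℝ) * (E k * Real.exp (-(s * E k))))) s := by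
  have hu := (KDer_exp hc hE (s := 1 / 4) (by norm_num)).mul_left 4
  refine hasDerivAt_tsum_of_isPreconnected (𝕜 := ℝ) (F := ℝ) (t := Set.Ioi (1 / 2 : ℝ)) (y₀ := s)
    (g := fun (k : ℤ × ℤ) (s : ℝ) => (sig k : ℝ) * Real.exp (-(s * E k)))
    (g' := fun (k : ℤ × ℤ) (s : ℝ) => -((sig k : ℝ) * (E k * Real.exp (-(s * E k))))) hu isOpen_Ioi
    isPreconnected_Ioi ?_ ?_ hs ?_ hs
  · intro k x hx
    have h1 : HasDerivAt (fun x : ℝ => -(x * E k)) (-(1 * E k)) x :=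
      ((hasDerivAt_id' x).mul_const (E k)).fun_neg
    have h2 := (h1.exp).const_mul (sig k : ℝ)
    refine h2.congr_deriv ?_
    ring
  · intro k x hx
    have hk : 0 ≤ E k := le_trans (by positivity) (hE k)
    rw [norm_neg, Real.norm_eq_abs, abs_mul, KDer_sig, one_mul, abs_of_nonneg (by positivity)]
    exact KDer_bd hk (le_of_lt hx)
  · refine Summable.of_norm_bounded (KDer_exp hc hE (s := s) (by linarith)) fun k => ?_
    rw [Real.norm_eq_abs, abs_mul, KDer_sig, one_mul, abs_of_pos (Real.exp_pos _)]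

private theorem KDer_Gq (s A1 A2 A3 : ℝ) : Gq s A1 A2 A3 = ∑' k : ℤ × ℤ, (sig k : ℝ) *
    Real.exp (-(s * (A3 * k.1 ^ 2 + A1 * k.2 ^ 2 + A2 * (k.1 + k.2) ^ 2))) := by
  unfold Gq cc
  refine tsum_congr fun k => ?_
  congr 2
  ring

theorem gq_diff {δ r1 p m : ℝ} (hδ : 1 < δ) (hδ2 : δ ≤ 1.2) (hr : 0 < r1) (hp0 : 0 ≤ p)
    (hp1 : p ≤ 1) (h3 : 0 ≤ AA3 y1c r1 p)
    (h : ∀ σ, 1 ≤ σ → σ ≤ δ → m * σ ≤ SG (σ * y1c) (σ * r1) p) :
    Gq δ (AA1 y1c r1 p) (AA2 y1c r1 p) (AA3 y1c r1 p) - Gq δ y1c y1c y1c ≤ -((δ - 1) * m) := by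
  have _ := hδ2
  have hy : 0 < y1c := by
    unfold y1c
    positivity
  have hy2 : 3 * y1c ^ 2 = Real.pi ^ 2 / 4 := by
    unfold y1c
    rw [div_pow, mul_pow, Real.sq_sqrt (by norm_num : (0 : ℝ) ≤ 3)]
    ring
  obtain ⟨hdet, h12, h23, -, -, -, -⟩ := AA_basic (y := y1c) (r := r1) (p := p) hy hr hp0 hp1
  set A1 := AA1 y1c r1 p with hA1
  set A2 := AA2 y1c r1 p with hA2
  set A3 := AA3 y1c r1 p with hA3
  have hA2pos : 0 < A2 := by
    rcases lt_or_eq_of_le (h3.trans h23) with h0 | h0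
    · exact h0
    · exfalso
      have h30 : A3 = 0 := le_antisymm (by rw [h0]; exact h23) h3
      rw [← h0, h30] at hdet
      have : 0 < 3 * y1c ^ 2 := by positivity
      linarith [hdet, this]
  set E : ℤ × ℤ → ℝ := fun k => A3 * k.1 ^ 2 + A1 * k.2 ^ 2 + A2 * (k.1 + k.2) ^ 2 with hE
  set EH : ℤ × ℤ → ℝ := fun k => y1c * k.1 ^ 2 + y1c * k.2 ^ 2 + y1c * (k.1 + k.2) ^ 2 with hEH
  have hEb : ∀ k : ℤ × ℤ, A2 / 3 * ((k.1 : ℝ) ^ 2 + (k.2 : ℝ) ^ 2) ≤ E k := by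
    intro k
    have e1 : 0 ≤ A3 * (k.1 : ℝ) ^ 2 := mul_nonneg h3 (sq_nonneg _)
    have e2 : A2 * (k.2 : ℝ) ^ 2 ≤ A1 * (k.2 : ℝ) ^ 2 := mul_le_mul_of_nonneg_right h12 (sq_nonneg _)
    have e3 : (1 / 3 : ℝ) * ((k.1 : ℝ) ^ 2 + (k.2 : ℝ) ^ 2) ≤ (k.2 : ℝ) ^ 2 + ((k.1 : ℝ) + k.2) ^ 2 := by
      nlinarith [sq_nonneg ((k.1 : ℝ) + 3 / 2 * k.2), sq_nonneg (k.2 : ℝ)]
    have e4 := mul_le_mul_of_nonneg_left e3 hA2pos.le
    simp only [hE]
    linarith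
  have hHb : ∀ k : ℤ × ℤ, y1c * ((k.1 : ℝ) ^ 2 + (k.2 : ℝ) ^ 2) ≤ EH k := by
    intro k
    have : 0 ≤ y1c * ((k.1 : ℝ) + k.2) ^ 2 := by positivity
    simp only [hEH]
    linarith
  have hG : ∀ s, Gq s A1 A2 A3 = ∑' k : ℤ × ℤ, (sig k : ℝ) * Real.exp (-(s * E k)) := fun s =>
    KDer_Gq s A1 A2 A3
  have hGH : ∀ s, Gq s y1c y1c y1c = ∑' k : ℤ × ℤ, (sig k : ℝ) * Real.exp (-(s * EH k)) := fun s =>
    KDer_Gq s y1c y1c y1c
  have hc3 : 0 < A2 / 3 := by positivity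
  have hF : ∀ s, 1 / 2 < s → HasDerivAt (fun s => Gq s A1 A2 A3 - Gq s y1c y1c y1c)
      ((∑' k : ℤ × ℤ, -((sig k : ℝ) * (E k * Real.exp (-(s * E k))))) -
        ∑' k : ℤ × ℤ, -((sig k : ℝ) * (EH k * Real.exp (-(s * EH k))))) s := by
    intro s hs
    have h1 := (KDer_deriv hc3 hEb hs).sub (KDer_deriv hy hHb hs)
    have e : (fun s => Gq s A1 A2 A3 - Gq s y1c y1c y1c) =
        (fun s => ∑' k : ℤ × ℤ, (sig k : ℝ) * Real.exp (-(s * E k))) -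
          fun s => ∑' k : ℤ × ℤ, (sig k : ℝ) * Real.exp (-(s * EH k)) := by
      funext s
      rw [Pi.sub_apply, hG, hGH]
    rw [e]
    exact h1
  have hscale : ∀ s, 0 < s → chh (s * y1c) (s * r1) p = chh y1c r1 p := by
    intro s hs
    unfold chh
    congr 2
    field_simp
  have hSG : ∀ s, 1 ≤ s → SG (s * y1c) (s * r1) p = -(s *
      ((∑' k : ℤ × ℤ, -((sig k : ℝ) * (E k * Real.exp (-(s * E k))))) -
        ∑' k : ℤ × ℤ, -((sig k : ℝ) * (EH k * Real.exp (-(s * EH k)))))) := by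
    intro s hs
    have hs0 : 0 < s := by linarith
    have s1 := KDer_summ hc3 hEb (s := s) (by linarith)
    have s2 := KDer_summ hy hHb (s := s) (by linarith)
    rw [tsum_neg, tsum_neg, neg_sub_neg, ← s2.tsum_sub s1, ← tsum_mul_left, ← tsum_neg]
    unfold SG
    refine tsum_congr fun k => ?_
    have e1 : Eq (s * y1c) (s * r1) p k = s * E k := by
      unfold Eq AA1 AA2 AA3
      rw [hscale s hs0]
      simp only [hE, hA1, hA2, hA3]
      unfold AA1 AA2 AA3 xx1 xx2 xx3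
      ring
    have e2 : 2 * (s * y1c) * (Nf k : ℝ) = s * EH k := by
      unfold Nf
      simp only [hEH]
      push_cast
      ring
    rw [e1, e2]
    ring
  have hF1 : Gq 1 A1 A2 A3 - Gq 1 y1c y1c y1c = 0 := by
    rw [Gq_one h3 h23 h12 (by rw [hdet, hy2]), Gq_one hy.le le_rfl le_rfl (by rw [← hy2]; ring), sub_zero]
  obtain ⟨c, hc, hc'⟩ := exists_hasDerivAt_eq_slope (fun s => Gq s A1 A2 A3 - Gq s y1c y1c y1c)
    (fun s => (∑' k : ℤ × ℤ, -((sig k : ℝ) * (E k * Real.exp (-(s * E k))))) -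
        ∑' k : ℤ × ℤ, -((sig k : ℝ) * (EH k * Real.exp (-(s * EH k))))) hδ
    (fun s hs => (hF s (by linarith [hs.1])).continuousAt.continuousWithinAt)
    (fun s hs => hF s (by linarith [hs.1]))
  have hcs := hSG c hc.1.le
  have hcm := h c hc.1.le hc.2.le
  simp only [hF1, sub_zero] at hc'
  rw [hcs, hc'] at hcm
  have hd : 0 < δ - 1 := by linarith
  have hc0 : 0 < c := by linarith [hc.1]
  have h5 : m ≤ -((Gq δ A1 A2 A3 - Gq δ y1c y1c y1c) / (δ - 1)) := by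
    have h6 : c * m ≤ c * (-((Gq δ A1 A2 A3 - Gq δ y1c y1c y1c) / (δ - 1))) := by linarith
    exact le_of_mul_le_mul_left h6 hc0
  have h7 : (Gq δ A1 A2 A3 - Gq δ y1c y1c y1c) / (δ - 1) ≤ -m := by linarith
  rw [div_le_iff₀ hd] at h7
  linarith

end MP7e122f.R
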