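import Pool.Agent.Lib.MP_7e122f_anR.KGam

/-!
# Lower bound of `SG` (conclusion; see the comments in `KGam`)

`S7 ∪ ...`: sum over the shells `N ≤ 9` explicitly, the rest by orbits: `SG = (1/3) ∑ (orbit sum)`
(the summand composed with `e3`, `e3.symm` has the same sum), so only a bound of the orbit sums is
needed for `N ≥ 10`, `N ∉ {0,1,3,4,7,9}`.
-/

namespace MP7e122f.R

private lemma KGam2_mem (k : ℤ × ℤ) : k ∈ F19 ↔ Nf k < 7 := by
  constructor
  · intro h
    have h' : ∀ k ∈ F19, Nf k < 7 := by decide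
    exact h' k h
  · intro h
    by_contra hk
    have := Nf_ge_seven hk
    omega

private lemma KGam2_Nf_e3 (k : ℤ × ℤ) : Nf (e3 k) = Nf k := by
  simp only [Nf, e3, Equiv.coe_fn_mk]
  ring

private lemma KGam2_Nf_e3s (k : ℤ × ℤ) : Nf (e3.symm k) = Nf k := by
  simp only [Nf, e3, Equiv.coe_fn_symm_mk]
  ring

private lemma KGam2_sig (k : ℤ × ℤ) : sig k = if Even (Nf k) then 1 else -1 := by
  unfold sig
  have h : (Even k.1 ∧ Even k.2) ↔ Even (Nf k) := by
    unfold Nf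
    constructor
    · rintro ⟨h1, h2⟩
      have a : Even (k.1 ^ 2) := h1.pow_of_ne_zero (by norm_num)
      have b : Even (k.1 * k.2) := h1.mul_right _
      have c : Even (k.2 ^ 2) := h2.pow_of_ne_zero (by norm_num)
      exact (a.add b).add c
    · intro h
      rcases Int.even_or_odd k.1 with h1 | h1 <;> rcases Int.even_or_odd k.2 with h2 | h2
      · exact ⟨h1, h2⟩
      · exfalso
        have a : Even (k.1 ^ 2) := h1.pow_of_ne_zero (by norm_num)
        have b : Even (k.1 * k.2) := h1.mul_right _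
        have c : Odd (k.2 ^ 2) := h2.pow
        exact (Int.not_even_iff_odd.2 ((a.add b).add_odd c)) h
      · exfalso
        have a : Odd (k.1 ^ 2) := h1.pow
        have b : Even (k.1 * k.2) := h2.mul_left _
        have c : Even (k.2 ^ 2) := h2.pow_of_ne_zero (by norm_num)
        exact (Int.not_even_iff_odd.2 ((a.add_even b).add_even c)) h
      · exfalso
        have a : Odd (k.1 ^ 2) := h1.pow
        have b : Odd (k.1 * k.2) := h1.mul h2
        have c : Odd (k.2 ^ 2) := h2.pow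
        exact (Int.not_even_iff_odd.2 ((a.add_odd b).add_odd c)) h
  simp only [h]

private lemma KGam2_Nf_nonneg (k : ℤ × ℤ) : 0 ≤ Nf k := by
  unfold Nf
  nlinarith [sq_nonneg (2 * k.1 + k.2), sq_nonneg k.2]

private lemma KGam2_two_pow (n : ℕ) (hn : 19 ≤ n) : (n : ℝ) ≤ 19 / 2 ^ 19 * 2 ^ n := by
  induction n, hn using Nat.le_induction with
  | base => norm_num
  | succ n hn ih =>
    have hn' : (19 : ℝ) ≤ n := by exact_mod_cast hn
    push_cast
    rw [pow_succ (2 : ℝ) n]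
    linarith

private lemma KGam2_shell_exact {y r p : ℝ} (hy : 0 < y) (hr : 0 < r) (hp0 : 0 ≤ p)
    (hp1 : p ≤ 1) :
    ∑ k ∈ F19, (sig k : ℝ) * (Eq y r p k * Real.exp (-(Eq y r p k))
      - 2 * y * Nf k * Real.exp (-(2 * y * Nf k))) = kap p * r ^ 2 * GamN y r p := by
  obtain ⟨-, -, -, hHy, -, hk0, -⟩ := AA_basic hy hr hp0 hp1
  obtain ⟨H, hH⟩ : ∃ H, H = 2 * y * chh y r p := ⟨_, rfl⟩
  obtain ⟨h, hh'⟩ : ∃ h, h = hh y r p := ⟨_, rfl⟩
  obtain ⟨K, hK⟩ : ∃ K, K = kap p * r ^ 2 := ⟨_, rfl⟩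
  have hK0 : 0 < K := by rw [hK]; positivity
  have hK0' : K ≠ 0 := hK0.ne'
  have hHh : H = 2 * y + h := by rw [hH, hh']; linarith
  have a23 : AA3 y r p + AA2 y r p = H - xx1 r p := by
    rw [hH]; unfold AA3 AA2 xx1 xx2 xx3; ring
  have a31 : AA3 y r p + AA1 y r p = H - xx2 r p := by
    rw [hH]; unfold AA3 AA1 xx1 xx2 xx3; ring
  have a12 : AA1 y r p + AA2 y r p = H - xx3 r p := by
    rw [hH]; unfold AA1 AA2 xx1 xx2 xx3; ring
  have a1 : AA1 y r p = H / 2 + xx1 r p := by rw [hH]; unfold AA1; ring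
  have a2 : AA2 y r p = H / 2 + xx2 r p := by rw [hH]; unfold AA2; ring
  have a3 : AA3 y r p = H / 2 + xx3 r p := by rw [hH]; unfold AA3; ring
  have hs : xx1 r p + xx2 r p + xx3 r p = 0 := by unfold xx1 xx2 xx3; ring
  obtain ⟨t, ht⟩ : ∃ t, t = Real.exp (-(2 * y)) := ⟨_, rfl⟩
  -- exponentials
  have eT : ∀ x T : ℝ, T = Real.exp (x - h) → Real.exp (-(H - x)) = t * T := by
    intro x T hT
    rw [hT, ht, ← Real.exp_add, hHh]; congr 1; ring
  have eO : ∀ x T : ℝ, T = Real.exp (-(3 * (x + h))) → Real.exp (-(3 * (H + x))) = t ^ 3 * T := by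
    intro x T hT
    rw [hT, ht, ← Real.exp_nat_mul, ← Real.exp_add, hHh]; congr 1; push_cast; ring
  have eT4 : ∀ x T : ℝ, T = Real.exp (x - h) → Real.exp (-(4 * (H - x))) = t ^ 4 * T ^ 4 := by
    intro x T hT
    rw [hT, ht, ← Real.exp_nat_mul, ← Real.exp_nat_mul, ← Real.exp_add, hHh]
    congr 1; push_cast; ring
  have hT1 : T1 y r p = Real.exp (xx1 r p - h) := by rw [hh']; rfl
  have hT2 : T2 y r p = Real.exp (xx2 r p - h) := by rw [hh']; rfl
  have hT3 : T3 y r p = Real.exp (xx3 r p - h) := by rw [hh']; rfl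
  have hO1 : O1 y r p = Real.exp (-(3 * (xx1 r p + h))) := by rw [hh']; rfl
  have hO2 : O2 y r p = Real.exp (-(3 * (xx2 r p + h))) := by rw [hh']; rfl
  have hO3 : O3 y r p = Real.exp (-(3 * (xx3 r p + h))) := by rw [hh']; rfl
  have t3 : Real.exp (-(2 * y * 3)) = t ^ 3 := by
    rw [ht, ← Real.exp_nat_mul]; congr 1; push_cast; ring
  have t4 : Real.exp (-(2 * y * 4)) = t ^ 4 := by
    rw [ht, ← Real.exp_nat_mul]; congr 1; push_cast; ring
  have t1 : Real.exp (-(2 * y * 1)) = t := by rw [ht]; congr 1; ring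
  -- the summand as a function of `sig`, `E`, `N`
  obtain ⟨g, hg⟩ : ∃ g : ℤ × ℤ → ℝ, g = fun k => (sig k : ℝ) * (Eq y r p k * Real.exp (-(Eq y r p k))
      - 2 * y * Nf k * Real.exp (-(2 * y * Nf k))) := ⟨_, rfl⟩
  have gval : ∀ (k : ℤ × ℤ) (s N : ℤ) (E : ℝ), sig k = s → Nf k = N → Eq y r p k = E →
      g k = (s : ℝ) * (E * Real.exp (-E) - 2 * y * N * Real.exp (-(2 * y * N))) := by
    intro k s N E h1 h2 h3
    rw [hg]
    simp only [h1, h2, h3]
  have E1 : ∀ k : ℤ × ℤ, Eq y r p k = (H / 2 + xx3 r p) * k.1 ^ 2 + (H / 2 + xx1 r p) * k.2 ^ 2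
      + (H / 2 + xx2 r p) * (k.1 + k.2) ^ 2 := by
    intro k
    unfold Eq
    rw [← a1, ← a2, ← a3]
  have x2e : xx2 r p = -xx1 r p - xx3 r p := by linarith
  have v00 : g (0, 0) = 0 := by
    rw [gval (0, 0) 1 0 0 (by decide) (by decide) (by rw [E1]; push_cast; ring)]
    push_cast
    ring
  have v1 : ∀ k : ℤ × ℤ, k = (1, 0) ∨ k = (-1, 0) → g k = -((H - xx1 r p) * (t * T1 y r p) - 2 * y * t) := by
    rintro k (rfl | rfl)
    · rw [gval (1, 0) (-1) 1 (H - xx1 r p) (by decide) (by decide)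
        (by rw [E1, x2e]; push_cast; ring), eT _ _ hT1]
      push_cast
      rw [t1]
      ring
    · rw [gval (-1, 0) (-1) 1 (H - xx1 r p) (by decide) (by decide)
        (by rw [E1, x2e]; push_cast; ring), eT _ _ hT1]
      push_cast
      rw [t1]
      ring
  have v2 : ∀ k : ℤ × ℤ, k = (0, 1) ∨ k = (0, -1) → g k = -((H - xx3 r p) * (t * T3 y r p) - 2 * y * t) := by
    rintro k (rfl | rfl)
    · rw [gval (0, 1) (-1) 1 (H - xx3 r p) (by decide) (by decide)
        (by rw [E1, x2e]; push_cast; ring), eT _ _ hT3]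
      push_cast
      rw [t1]
      ring
    · rw [gval (0, -1) (-1) 1 (H - xx3 r p) (by decide) (by decide)
        (by rw [E1, x2e]; push_cast; ring), eT _ _ hT3]
      push_cast
      rw [t1]
      ring
  have v3 : ∀ k : ℤ × ℤ, k = (1, -1) ∨ k = (-1, 1) → g k = -((H - xx2 r p) * (t * T2 y r p) - 2 * y * t) := by
    rintro k (rfl | rfl)
    · rw [gval (1, -1) (-1) 1 (H - xx2 r p) (by decide) (by decide)
        (by rw [E1, x2e]; push_cast; ring), eT _ _ hT2]
      push_cast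
      rw [t1]
      ring
    · rw [gval (-1, 1) (-1) 1 (H - xx2 r p) (by decide) (by decide)
        (by rw [E1, x2e]; push_cast; ring), eT _ _ hT2]
      push_cast
      rw [t1]
      ring
  have w1 : ∀ k : ℤ × ℤ, k = (1, 1) ∨ k = (-1, -1) →
      g k = -(3 * (H + xx2 r p) * (t ^ 3 * O2 y r p) - 6 * y * t ^ 3) := by
    rintro k (rfl | rfl)
    · rw [gval (1, 1) (-1) 3 (3 * (H + xx2 r p)) (by decide) (by decide)
        (by rw [E1, x2e]; push_cast; ring), eO _ _ hO2]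
      push_cast
      rw [t3]
      ring
    · rw [gval (-1, -1) (-1) 3 (3 * (H + xx2 r p)) (by decide) (by decide)
        (by rw [E1, x2e]; push_cast; ring), eO _ _ hO2]
      push_cast
      rw [t3]
      ring
  have w2 : ∀ k : ℤ × ℤ, k = (1, -2) ∨ k = (-1, 2) →
      g k = -(3 * (H + xx1 r p) * (t ^ 3 * O1 y r p) - 6 * y * t ^ 3) := by
    rintro k (rfl | rfl)
    · rw [gval (1, -2) (-1) 3 (3 * (H + xx1 r p)) (by decide) (by decide)
        (by rw [E1, x2e]; push_cast; ring), eO _ _ hO1]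
      push_cast
      rw [t3]
      ring
    · rw [gval (-1, 2) (-1) 3 (3 * (H + xx1 r p)) (by decide) (by decide)
        (by rw [E1, x2e]; push_cast; ring), eO _ _ hO1]
      push_cast
      rw [t3]
      ring
  have w3 : ∀ k : ℤ × ℤ, k = (2, -1) ∨ k = (-2, 1) →
      g k = -(3 * (H + xx3 r p) * (t ^ 3 * O3 y r p) - 6 * y * t ^ 3) := by
    rintro k (rfl | rfl)
    · rw [gval (2, -1) (-1) 3 (3 * (H + xx3 r p)) (by decide) (by decide)
        (by rw [E1, x2e]; push_cast; ring), eO _ _ hO3]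
      push_cast
      rw [t3]
      ring
    · rw [gval (-2, 1) (-1) 3 (3 * (H + xx3 r p)) (by decide) (by decide)
        (by rw [E1, x2e]; push_cast; ring), eO _ _ hO3]
      push_cast
      rw [t3]
      ring
  have z1 : ∀ k : ℤ × ℤ, k = (2, 0) ∨ k = (-2, 0) →
      g k = 4 * (H - xx1 r p) * (t ^ 4 * T1 y r p ^ 4) - 8 * y * t ^ 4 := by
    rintro k (rfl | rfl)
    · rw [gval (2, 0) 1 4 (4 * (H - xx1 r p)) (by decide) (by decide)
        (by rw [E1, x2e]; push_cast; ring), eT4 _ _ hT1]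
      push_cast
      rw [t4]
      ring
    · rw [gval (-2, 0) 1 4 (4 * (H - xx1 r p)) (by decide) (by decide)
        (by rw [E1, x2e]; push_cast; ring), eT4 _ _ hT1]
      push_cast
      rw [t4]
      ring
  have z2 : ∀ k : ℤ × ℤ, k = (0, 2) ∨ k = (0, -2) →
      g k = 4 * (H - xx3 r p) * (t ^ 4 * T3 y r p ^ 4) - 8 * y * t ^ 4 := by
    rintro k (rfl | rfl)
    · rw [gval (0, 2) 1 4 (4 * (H - xx3 r p)) (by decide) (by decide)
        (by rw [E1, x2e]; push_cast; ring), eT4 _ _ hT3]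
      push_cast
      rw [t4]
      ring
    · rw [gval (0, -2) 1 4 (4 * (H - xx3 r p)) (by decide) (by decide)
        (by rw [E1, x2e]; push_cast; ring), eT4 _ _ hT3]
      push_cast
      rw [t4]
      ring
  have z3 : ∀ k : ℤ × ℤ, k = (2, -2) ∨ k = (-2, 2) →
      g k = 4 * (H - xx2 r p) * (t ^ 4 * T2 y r p ^ 4) - 8 * y * t ^ 4 := by
    rintro k (rfl | rfl)
    · rw [gval (2, -2) 1 4 (4 * (H - xx2 r p)) (by decide) (by decide)
        (by rw [E1, x2e]; push_cast; ring), eT4 _ _ hT2]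
      push_cast
      rw [t4]
      ring
    · rw [gval (-2, 2) 1 4 (4 * (H - xx2 r p)) (by decide) (by decide)
        (by rw [E1, x2e]; push_cast; ring), eT4 _ _ hT2]
      push_cast
      rw [t4]
      ring
  have hS1 : ∑ k ∈ S1, g k = g (1, 0) + g (-1, 0) + g (0, 1) + g (0, -1) + g (1, -1) + g (-1, 1) := by
    unfold S1
    rw [Finset.sum_insert (by decide), Finset.sum_insert (by decide), Finset.sum_insert (by decide),
      Finset.sum_insert (by decide), Finset.sum_insert (by decide), Finset.sum_singleton]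
    ring
  have hS3 : ∑ k ∈ S3, g k = g (1, 1) + g (-1, -1) + g (1, -2) + g (-1, 2) + g (2, -1) + g (-2, 1) := by
    unfold S3
    rw [Finset.sum_insert (by decide), Finset.sum_insert (by decide), Finset.sum_insert (by decide),
      Finset.sum_insert (by decide), Finset.sum_insert (by decide), Finset.sum_singleton]
    ring
  have hS4 : ∑ k ∈ S4, g k = g (2, 0) + g (-2, 0) + g (0, 2) + g (0, -2) + g (2, -2) + g (-2, 2) := by
    unfold S4
    rw [Finset.sum_insert (by decide), Finset.sum_insert (by decide), Finset.sum_insert (by decide),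
      Finset.sum_insert (by decide), Finset.sum_insert (by decide), Finset.sum_singleton]
    ring
  have hsum := sum_F19 g
  rw [hS1, hS3, hS4, v00, v1 _ (Or.inl rfl), v1 _ (Or.inr rfl), v2 _ (Or.inl rfl),
    v2 _ (Or.inr rfl), v3 _ (Or.inl rfl), v3 _ (Or.inr rfl), w1 _ (Or.inl rfl), w1 _ (Or.inr rfl),
    w2 _ (Or.inl rfl), w2 _ (Or.inr rfl), w3 _ (Or.inl rfl), w3 _ (Or.inr rfl),
    z1 _ (Or.inl rfl), z1 _ (Or.inr rfl), z2 _ (Or.inl rfl), z2 _ (Or.inr rfl),
    z3 _ (Or.inl rfl), z3 _ (Or.inr rfl)] at hsum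
  rw [hg] at hsum
  rw [hsum]
  -- the right-hand side
  have c1 : K * X1 y r p = xx1 r p * T1 y r p + xx2 r p * T2 y r p + xx3 r p * T3 y r p := by
    unfold X1; rw [← hK]; field_simp
  have c3 : K * X3 y r p = -(xx1 r p * O1 y r p + xx2 r p * O2 y r p + xx3 r p * O3 y r p) := by
    unfold X3; rw [← hK]; field_simp
  have c4 : K * X4 y r p = xx1 r p * T1 y r p ^ 4 + xx2 r p * T2 y r p ^ 4 + xx3 r p * T3 y r p ^ 4 := by
    unfold X4; rw [← hK]; field_simp
  have d1 : K * D1 y r p = T1 y r p + T2 y r p + T3 y r p - 3 := by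
    unfold D1; rw [← hK]; field_simp
  have d3 : K * D3 y r p = O1 y r p + O2 y r p + O3 y r p - 3 := by
    unfold D3; rw [← hK]; field_simp
  have d4 : K * D4 y r p = T1 y r p ^ 4 + T2 y r p ^ 4 + T3 y r p ^ 4 - 3 := by
    unfold D4; rw [← hK]; field_simp
  have hg0 : K * g0 y r p = h := by rw [hh', hK]; unfold hh; ring
  have hHH : HH y r p = H := by rw [hH]; rfl
  rw [← hK]
  have e : K * GamN y r p = 2 * t * (K * X1 y r p - 3 * (K * g0 y r p) - H * (K * D1 y r p))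
      + 6 * t ^ 3 * (K * X3 y r p - 3 * (K * g0 y r p) - H * (K * D3 y r p))
      + 8 * t ^ 4 * (H * (K * D4 y r p) - K * X4 y r p + 3 * (K * g0 y r p)) := by
    unfold GamN
    rw [hHH, ← ht]
    ring
  rw [e, c1, c3, c4, d1, d3, d4, hg0, hHh]
  ring

theorem SG_lower {y r p : ℝ} (hy : 0.9 ≤ y) (hy2 : y ≤ 1.1) (hr : 0 < r) (hp0 : 0 ≤ p)
    (hp1 : p ≤ 1) (hle : hh y r p ≤ rho r p) (hv : vpi y r p ≤ 1 / 4) :
    kap p * r ^ 2 * (GamN y r p - GamR y r p) ≤ SG y r p := by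
  have hy0 : 0 < y := by
    have : (0.9 : ℝ) = 9 / 10 := by norm_num
    linarith
  obtain ⟨-, -, -, hHy, hg00, hk0, hc1⟩ := AA_basic hy0 hr hp0 hp1
  have P := TP_norm hy hr hp0 hp1 (by linarith) hle
  have ht2 := P.ht2
  have hgs := summable_SG hy hy2 hr hp0 hp1 hle hv
  have hex := KGam2_shell_exact hy0 hr hp0 hp1
  obtain ⟨K, hK⟩ : ∃ K, K = kap p * r ^ 2 := ⟨_, rfl⟩
  have hK0 : 0 < K := by rw [hK]; positivity
  obtain ⟨v, hvd⟩ : ∃ v, v = vpi y r p := ⟨_, rfl⟩
  have hv0 : 0 < v := by rw [hvd]; exact Real.exp_pos _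
  obtain ⟨t, ht⟩ : ∃ t, t = Real.exp (-(2 * y)) := ⟨_, rfl⟩
  have ht0 : 0 < t := by rw [ht]; exact Real.exp_pos _
  obtain ⟨Δ, hΔ⟩ : ∃ Δ, Δ = HH y r p - rho r p := ⟨_, rfl⟩
  have hΔ0 : 0 ≤ Δ := by
    rw [hΔ]
    by_contra hc
    push Not at hc
    have h1 : 1 ≤ vpi y r p := by
      unfold vpi
      apply Real.one_le_exp
      unfold HH at hc
      linarith
    linarith
  rw [← ht] at ht2
  rw [← hvd] at hv
  obtain ⟨g, hg⟩ : ∃ g : ℤ × ℤ → ℝ, g = fun k => (sig k : ℝ) * (Eq y r p k * Real.exp (-(Eq y r p k))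
      - 2 * y * Nf k * Real.exp (-(2 * y * Nf k))) := ⟨_, rfl⟩
  rw [← hg] at hgs
  have hex' : ∑ k ∈ F19, g k = K * GamN y r p := by
    rw [hg, hK]; exact hex
  have hSG : SG y r p = ∑' k, g k := by rw [hg]; rfl
  obtain ⟨F, hF⟩ : ∃ F : ℤ × ℤ → ℝ, F = fun k => if k ∈ F19 then 0 else g k := ⟨_, rfl⟩
  have hfin : HasSum (fun k : ℤ × ℤ => if k ∈ F19 then g k else 0) (∑ k ∈ F19, g k) := by
    have h : HasSum (fun k : ℤ × ℤ => if k ∈ F19 then g k else 0)
      (∑ k ∈ F19, (if k ∈ F19 then g k else 0)) :=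
      hasSum_sum_of_ne_finset_zero (fun k hk => if_neg hk)
    have e : ∑ k ∈ F19, (if k ∈ F19 then g k else 0) = ∑ k ∈ F19, g k :=
      Finset.sum_congr rfl fun k hk => if_pos hk
    rwa [e] at h
  have hFs : Summable F := by
    have h := hgs.sub hfin.summable
    refine h.congr (fun k => ?_)
    rw [hF]
    by_cases hk : k ∈ F19 <;> simp [hk]
  have hsplit : ∑' k, g k = K * GamN y r p + ∑' k, F k := by
    rw [← hex', ← hfin.tsum_eq, ← Summable.tsum_add hfin.summable hFs]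
    congr 1
    funext k
    rw [hF]
    by_cases hk : k ∈ F19 <;> simp [hk]
  have h1 : ∑' k, F (e3 k) = ∑' k, F k := Equiv.tsum_eq e3 F
  have h2 : ∑' k, F (e3.symm k) = ∑' k, F k := Equiv.tsum_eq e3.symm F
  have s1 : Summable fun k => F (e3 k) := (Equiv.summable_iff e3).2 hFs
  have s2 : Summable fun k => F (e3.symm k) := (Equiv.summable_iff e3.symm).2 hFs
  have h3 : 3 * ∑' k, F k = ∑' k, (F k + F (e3 k) + F (e3.symm k)) := by
    rw [Summable.tsum_add (hFs.add s1) s2, Summable.tsum_add hFs s1, h1, h2]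
    ring
  obtain ⟨G1, hG1⟩ : ∃ G1 : ℤ × ℤ → ℝ, G1 = fun k => if Even (Nf k) then 0 else
      1 / 3 * (Nf k : ℝ) ^ 3 * K * Δ * v ^ (Nf k).toNat := ⟨_, rfl⟩
  obtain ⟨G2, hG2⟩ : ∃ G2 : ℤ × ℤ → ℝ, G2 = fun k => if Even (Nf k) then
      3 * Nf k * (g0 y r p * K) * (2 * y * Nf k) * t ^ (Nf k).toNat else 0 := ⟨_, rfl⟩
  have hNr : ∀ k : ℤ × ℤ, (0 : ℝ) ≤ Nf k := fun k => by exact_mod_cast KGam2_Nf_nonneg k
  have hG10 : ∀ k, 0 ≤ G1 k := by
    intro k
    have := hNr k
    simp only [hG1]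
    split_ifs <;> positivity
  have hG20 : ∀ k, 0 ≤ G2 k := by
    intro k
    have := hNr k
    simp only [hG2]
    split_ifs <;> positivity
  have hb : ∀ k, -((if k ∈ F19 then 0 else G1 k) + (if k ∈ F19 then 0 else G2 k)) ≤
      F k + F (e3 k) + F (e3.symm k) := by
    intro k
    have e1 : e3 k ∈ F19 ↔ k ∈ F19 := by rw [KGam2_mem, KGam2_mem, KGam2_Nf_e3]
    have e2 : e3.symm k ∈ F19 ↔ k ∈ F19 := by rw [KGam2_mem, KGam2_mem, KGam2_Nf_e3s]
    by_cases hk : k ∈ F19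
    · simp only [hF, if_pos hk, if_pos (e1.2 hk), if_pos (e2.2 hk)]
      simp
    · simp only [hF, if_neg hk, if_neg (fun hh => hk (e1.1 hh)), if_neg (fun hh => hk (e2.1 hh))]
      have hN7 := Nf_ge_seven hk
      have hu := orbit_f_upper hy hy2 hr hp0 hp1 hle (by rw [← hvd]; exact hv) k hN7
      have hl := orbit_f_lower hy hy2 hr hp0 hp1 hle (by rw [← hvd]; exact hv) k hN7
      rw [← hK, ← hΔ, ← hvd] at hu
      rw [← hK, ← ht] at hl
      simp only [hg, KGam2_sig, KGam2_Nf_e3, KGam2_Nf_e3s, hG1, hG2]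
      by_cases hev : Even (Nf k)
      · simp only [if_pos hev]
        push_cast
        linarith
      · simp only [if_neg hev]
        push_cast
        linarith
  -- the first sum
  have b1 := shells_sum G1 (1 / 3 * 343 * K * Δ * v ^ 7) (1 / 3 * 729 * K * Δ * v ^ 9) 0
    (1 / 3 * 2197 * K * Δ * v ^ 13) 0 (1 / 3 * K * Δ * (19 / 2 ^ 19)) (2 * v) (by positivity)
    (by positivity) (by linarith) hG10
    (fun k hk => by
      simp only [hG1, hk]
      have hz : ((7 : ℤ).toNat) = 7 := rfl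
      rw [hz, if_neg (by decide)]
      push_cast; apply le_of_eq; ring)
    (fun k hk => by
      simp only [hG1, hk]
      have hz : ((9 : ℤ).toNat) = 9 := rfl
      rw [hz, if_neg (by decide)]
      push_cast; apply le_of_eq; ring)
    (fun k hk => by
      simp only [hG1, hk]
      rw [if_pos (by decide)])
    (fun k hk => by
      simp only [hG1, hk]
      have hz : ((13 : ℤ).toNat) = 13 := rfl
      rw [hz, if_neg (by decide)]
      push_cast; apply le_of_eq; ring)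
    (fun k hk => by
      simp only [hG1, hk]
      rw [if_pos (by decide)])
    (fun k hk => by
      have hN0 := hNr k
      have hn : 19 ≤ (Nf k).toNat := by omega
      have h2 := KGam2_two_pow _ hn
      have hcast : (((Nf k).toNat : ℕ) : ℝ) = (Nf k : ℝ) := by
        have h2 : (((Nf k).toNat : ℕ) : ℤ) = Nf k := Int.toNat_of_nonneg (KGam2_Nf_nonneg k)
        exact_mod_cast h2
      rw [hcast] at h2
      have h3 : (Nf k : ℝ) * v ^ (Nf k).toNat ≤ 19 / 2 ^ 19 * (2 * v) ^ (Nf k).toNat := by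
        rw [mul_pow, ← mul_assoc]
        exact mul_le_mul_of_nonneg_right h2 (by positivity)
      have h4 : 1 / 3 * (Nf k : ℝ) ^ 3 * K * Δ * v ^ (Nf k).toNat ≤
          1 / 3 * K * Δ * (19 / 2 ^ 19) * ((Nf k : ℝ) ^ 2 * (2 * v) ^ (Nf k).toNat) := by
        calc 1 / 3 * (Nf k : ℝ) ^ 3 * K * Δ * v ^ (Nf k).toNat =
              1 / 3 * K * Δ * (Nf k : ℝ) ^ 2 * ((Nf k : ℝ) * v ^ (Nf k).toNat) := by ring
          _ ≤ 1 / 3 * K * Δ * (Nf k : ℝ) ^ 2 * (19 / 2 ^ 19 * (2 * v) ^ (Nf k).toNat) :=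
              mul_le_mul_of_nonneg_left h3 (by positivity)
          _ = _ := by ring
      simp only [hG1]
      split_ifs
      · positivity
      · exact h4)
  have b2 := shells_sum G2 0 0 (3 * 144 * (g0 y r p * K) * (2 * y) * t ^ 12) 0
    (3 * 256 * (g0 y r p * K) * (2 * y) * t ^ 16) (3 * (g0 y r p * K) * (2 * y)) t (by positivity)
    ht0.le (by linarith) hG20
    (fun k hk => by
      simp only [hG2, hk]
      rw [if_neg (by decide)])
    (fun k hk => by
      simp only [hG2, hk]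
      rw [if_neg (by decide)])
    (fun k hk => by
      simp only [hG2, hk]
      have hz : ((12 : ℤ).toNat) = 12 := rfl
      rw [hz, if_pos (by decide)]
      push_cast; apply le_of_eq; ring)
    (fun k hk => by
      simp only [hG2, hk]
      rw [if_neg (by decide)])
    (fun k hk => by
      simp only [hG2, hk]
      have hz : ((16 : ℤ).toNat) = 16 := rfl
      rw [hz, if_pos (by decide)]
      push_cast; apply le_of_eq; ring)
    (fun k hk => by
      have hN0 := hNr k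
      simp only [hG2]
      split_ifs
      · apply le_of_eq; ring
      · positivity)
  obtain ⟨c1, b1⟩ := b1
  obtain ⟨c2, b2⟩ := b2
  have h4 : -(∑' k, (if k ∈ F19 then 0 else G1 k) + ∑' k, (if k ∈ F19 then 0 else G2 k)) ≤
      ∑' k, (F k + F (e3 k) + F (e3.symm k)) := by
    rw [← Summable.tsum_add c1 c2, ← tsum_neg]
    exact Summable.tsum_le_tsum hb (c1.add c2).neg ((hFs.add s1).add s2)
  rw [← h3] at h4
  -- numerics
  have hv19 : v ^ 19 ≤ v ^ 13 / 4096 := by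
    have : v ^ 19 = v ^ 6 * v ^ 13 := by ring
    rw [this]
    have h6 : v ^ 6 ≤ (1 / 4) ^ 6 := pow_le_pow_left₀ hv0.le hv 6
    have h13 : 0 ≤ v ^ 13 := by positivity
    have := mul_le_mul_of_nonneg_right h6 h13
    refine this.trans (le_of_eq ?_)
    ring
  have hy2g : g0 y r p * (2 * y) ≤ 2 / 9 := by
    unfold g0
    rw [div_mul_eq_mul_div, div_le_iff₀ (by positivity)]
    nlinarith
  have hyg0 : 0 ≤ g0 y r p * (2 * y) := by positivity
  have p12 : t ^ 12 ≤ (17 / 100) ^ 12 := pow_le_pow_left₀ ht0.le ht2 12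
  have p16 : t ^ 16 ≤ (17 / 100) ^ 16 := pow_le_pow_left₀ ht0.le ht2 16
  have p19 : t ^ 19 ≤ (17 / 100) ^ 19 := pow_le_pow_left₀ ht0.le ht2 19
  have hS1 : ∑' k, (if k ∈ F19 then 0 else G1 k) ≤
      3 * (K * (Δ * (458 * v ^ 7 + 486 * v ^ 9 + 3300 * v ^ 13))) := by
    refine b1.trans ?_
    have hKD : 0 ≤ K * Δ := mul_nonneg hK0.le hΔ0
    have m7 : 0 ≤ K * Δ * v ^ 7 := by positivity
    have m13 : 0 ≤ K * Δ * v ^ 13 := by positivity
    have m19 : K * Δ * v ^ 19 ≤ K * Δ * v ^ 13 / 4096 := by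
      have := mul_le_mul_of_nonneg_left hv19 hKD
      linarith
    have e1 : 1 / 3 * K * Δ * (19 / 2 ^ 19) * (7776 * (2 * v) ^ 19) =
        1 / 3 * 19 * 7776 * (K * Δ * v ^ 19) := by
      rw [mul_pow]; ring
    rw [e1]
    nlinarith
  have hS2 : ∑' k, (if k ∈ F19 then 0 else G2 k) ≤ 3 * (K * (1 / 10 ^ 6)) := by
    refine b2.trans ?_
    have e1 : 12 * 0 + 6 * 0 + 6 * (3 * 144 * (g0 y r p * K) * (2 * y) * t ^ 12) + 12 * 0 +
        6 * (3 * 256 * (g0 y r p * K) * (2 * y) * t ^ 16) +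
        3 * (g0 y r p * K) * (2 * y) * (7776 * t ^ 19) =
        3 * K * ((g0 y r p * (2 * y)) * (864 * t ^ 12 + 1536 * t ^ 16 + 7776 * t ^ 19)) := by ring
    rw [e1]
    have e2 : 864 * t ^ 12 + 1536 * t ^ 16 + 7776 * t ^ 19 ≤ 1 / 10 ^ 6 := by
      have : (864 : ℝ) * (17 / 100) ^ 12 + 1536 * (17 / 100) ^ 16 + 7776 * (17 / 100) ^ 19 ≤ 1 / 10 ^ 6 := by
        norm_num
      linarith
    have e3 : (g0 y r p * (2 * y)) * (864 * t ^ 12 + 1536 * t ^ 16 + 7776 * t ^ 19) ≤ 1 * (1 / 10 ^ 6) := by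
      apply mul_le_mul (by linarith) e2 (by positivity) (by norm_num)
    have := mul_le_mul_of_nonneg_left e3 (show 0 ≤ 3 * K by positivity)
    linarith
  rw [hSG, hsplit, ← hK]
  have hGR : GamR y r p = Δ * (458 * v ^ 7 + 486 * v ^ 9 + 3300 * v ^ 13) + 1 / 10 ^ 6 := by
    unfold GamR
    rw [← hΔ, ← hvd]
  rw [hGR]
  have e : K * (GamN y r p - (Δ * (458 * v ^ 7 + 486 * v ^ 9 + 3300 * v ^ 13) + 1 / 10 ^ 6)) =
      K * GamN y r p - K * (Δ * (458 * v ^ 7 + 486 * v ^ 9 + 3300 * v ^ 13)) - K * (1 / 10 ^ 6) := by ring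
  rw [e]
  linarith

end MP7e122f.R
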