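import Pool.Agent.Lib.MP_7e122f_anR.KVal

/-!
# Near optimal states: real form of the checks
-/

open MeasureTheory Complex
open scoped ComplexInnerProductSpace ENNReal ComplexOrder

namespace MP7e122f.R

private lemma knr_arg {ε : ℝ} (hε : 0 < ε) (hε1 : ε ≤ 1 / 10) :
    0 ≤ Real.pi * ε ∧ Real.pi * ε ≤ Real.pi / 3 := by
  have hpi := Real.pi_pos
  refine ⟨by positivity, ?_⟩
  nlinarith

private lemma knr_kc {ε : ℝ} (hε : 0 < ε) (hε1 : ε ≤ 1 / 10) : 1 / 2 ≤ kc ε := by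
  obtain ⟨h0, h1⟩ := knr_arg hε hε1
  unfold kc
  rw [← Real.cos_pi_div_three]
  apply Real.cos_le_cos_of_nonneg_of_le_pi h0 _ h1
  have := Real.pi_pos
  linarith

private lemma knr_kc1 (ε : ℝ) : kc ε ≤ 1 := by
  unfold kc
  exact Real.cos_le_one _

private lemma knr_ks {ε : ℝ} (hε : 0 < ε) (hε1 : ε ≤ 1 / 10) : 0 ≤ ks ε := by
  obtain ⟨h0, h1⟩ := knr_arg hε hε1
  unfold ks
  apply Real.sin_nonneg_of_nonneg_of_le_pi h0
  have := Real.pi_pos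
  linarith

/-- lower bound for `κ1` : `g(κ) = κ (A - 3 ε κ)` is increasing for `6 ε κ ≤ A`,
`A = 6 + √3 s - 3/(2c) ≥ 4`; `KC.k1` says `C ≤ g(κ1)`. -/
theorem k1_lower {ε κ1 κ3 κ4 k : ℝ} (hε : 0 < ε) (hε1 : ε ≤ 1 / 10) (h : KC ε κ1 κ3 κ4)
    (hk : 0 ≤ k) (hk3 : k ≤ 3)
    (hc : k * (6 + Real.sqrt 3 * ks ε - 3 / 2 / kc ε - 3 * ε * k) <
      Real.sqrt 3 * ksk ε + Real.sqrt 3 / 2 * ksk ε / kc ε - 3 / 2 * kvk ε / kc ε) : k ≤ κ1 := by
  by_contra hlt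
  push Not at hlt
  have h0 := h.h1
  have hK := h.k1 hε hε1
  have hkc := knr_kc hε hε1
  have hks := knr_ks hε hε1
  have hdiv : 3 / 2 / kc ε ≤ 3 := by
    rw [div_le_iff₀ (by linarith)]
    linarith
  have hs3 : 0 ≤ Real.sqrt 3 * ks ε := mul_nonneg (Real.sqrt_nonneg _) hks
  set A := 6 + Real.sqrt 3 * ks ε - 3 / 2 / kc ε with hA
  have hA3 : 3 ≤ A := by rw [hA]; linarith
  have h2 : k * (A - 3 * ε * k) < κ1 * (A - 3 * ε * κ1) := lt_of_lt_of_le hc hK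
  have h3 : 0 ≤ (k - κ1) * (A - 3 * ε * (k + κ1)) := by
    apply mul_nonneg (by linarith)
    have : ε * (k + κ1) ≤ 1 / 10 * 6 := by
      apply mul_le_mul hε1 (by linarith) (by linarith) (by norm_num)
    nlinarith
  nlinarith

theorem klow_of {ε k1l lb : ℝ} (hε : 0 < ε) (hε1 : ε ≤ 1 / 10) (hk : 0 ≤ k1l) (hk3 : k1l ≤ 3)
    (hc : k1l * (6 + Real.sqrt 3 * ks ε - 3 / 2 / kc ε - 3 * ε * k1l) <
      Real.sqrt 3 * ksk ε + Real.sqrt 3 / 2 * ksk ε / kc ε - 3 / 2 * kvk ε / kc ε)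
    (hlb : lb ≤ KHf ε - 1 / 10 ^ 7 + LLf ε k1l) : KLow ε lb := by
  intro y H hy hH hHd hwH
  unfold aval
  apply le_csInf (nonempty_TS H)
  rintro _ ⟨f, hf, rfl⟩
  have hf' : ‖f‖ = 1 := hf
  have hv := kval_lower hε hε1 hy hH hHd hwH f hf'
  have hKC := kc_rav H hH hε hHd f hf'
  have h1 := k1_lower hε hε1 hKC hk hk3 hc
  have hm := LLf_mono hε hε1 hk h1
  have hKH := KH_lower hε (by linarith : ε ≤ 1 / 5)
  have h2 : ε * lb ≤ ε * (KHf ε - 1 / 10 ^ 7 + LLf ε k1l) :=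
    mul_le_mul_of_nonneg_left hlb hε.le
  have h3 : ε * LLf ε k1l ≤ ε * LLf ε (kapF ε (rav (st H f)) (1, 0)) :=
    mul_le_mul_of_nonneg_left hm hε.le
  linarith

theorem knear_of {ε k1l k1h k3h k4l k7h : ℝ} (hε : 0 < ε) (hε1 : ε ≤ 1 / 10) (hk : 0 ≤ k1l)
    (hk3 : k1l ≤ 3) (hkh : 0 ≤ k1h) (hkh3 : k1h ≤ 3) (hk3h : 0 ≤ k3h)
    (hc : k1l * (6 + Real.sqrt 3 * ks ε - 3 / 2 / kc ε - 3 * ε * k1l) <
      Real.sqrt 3 * ksk ε + Real.sqrt 3 / 2 * ksk ε / kc ε - 3 / 2 * kvk ε / kc ε)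
    (h1 : 2 * (KHf (2 * ε) + 9 / 10 ^ 6) - (KHf ε - 1 / 10 ^ 7) < LLf ε k1h)
    (hcs : Real.sqrt 3 * ks ε < kc ε)
    (h3 : k1h * (12 - 3 * kc ε + Real.sqrt 3 * ks ε) - 6 * ε * k1h ^ 2 - 4 * kvk ε
      - 2 * Real.sqrt 3 * ksk ε ≤ k3h * (kc ε - Real.sqrt 3 * ks ε))
    (h4 : k4l ≤ 2 * Real.sqrt 3 * ksk ε + k1l * (kc ε - Real.sqrt 3 * ks ε)
      - k3h * (kc ε + Real.sqrt 3 * ks ε))
    (h7 : (Real.sqrt k3h + Real.sqrt k1h + Real.pi * Real.sqrt (ε / 2)) ^ 2 ≤ k7h) :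
    KNear ε k1l k1h k3h k4l k7h := by
  intro y H hy hH hHd hwH
  refine ⟨ε * (LLf ε k1h - (2 * (KHf (2 * ε) + 9 / 10 ^ 6) - (KHf ε - 1 / 10 ^ 7))),
    mul_pos hε (by linarith), ?_⟩
  intro f hf hTS
  have hv := kval_lower hε hε1 hy hH hHd hwH f hf
  have hKC := kc_rav H hH hε hHd f hf
  have hKS := kstate_rav H hH hε hHd f hf
  have hkc := knr_kc hε hε1
  have hkc1 := knr_kc1 ε
  have hks := knr_ks hε hε1
  have hs3 : 0 ≤ Real.sqrt 3 * ks ε := mul_nonneg (Real.sqrt_nonneg _) hks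
  have hlow := k1_lower hε hε1 hKC hk hk3 hc
  have hKH := KH_lower hε (by linarith : ε ≤ 1 / 5)
  have hKU := KH_upper (by linarith : 0 < 2 * ε) (by linarith : 2 * ε ≤ 1 / 5)
  have hav := aval_le_Gq hε hε1 hy hH hHd hwH
  have hup : kapF ε (rav (st H f)) (1, 0) ≤ k1h := by
    by_contra hlt
    push Not at hlt
    have hm := LLf_mono hε hε1 hkh hlt.le
    have hm' := mul_le_mul_of_nonneg_left hm hε.le
    linarith
  have hk30 := hKC.h3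
  have hk10 := hKC.h1
  have h3hi := hKC.k3hi
  have h3up : kapF ε (rav (st H f)) (1, 1) ≤ k3h := by
    have hpos : 0 < kc ε - Real.sqrt 3 * ks ε := by linarith
    have hmono : kapF ε (rav (st H f)) (1, 0) * (12 - 3 * kc ε + Real.sqrt 3 * ks ε)
        - 6 * ε * kapF ε (rav (st H f)) (1, 0) ^ 2 ≤
        k1h * (12 - 3 * kc ε + Real.sqrt 3 * ks ε) - 6 * ε * k1h ^ 2 := by
      have hnn : 0 ≤ (k1h - kapF ε (rav (st H f)) (1, 0)) *
          (12 - 3 * kc ε + Real.sqrt 3 * ks ε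
            - 6 * ε * (k1h + kapF ε (rav (st H f)) (1, 0))) := by
        apply mul_nonneg (by linarith)
        have : ε * (k1h + kapF ε (rav (st H f)) (1, 0)) ≤ 1 / 10 * 6 := by
          apply mul_le_mul hε1 (by linarith) (by linarith) (by norm_num)
        nlinarith
      nlinarith
    have hfin : kapF ε (rav (st H f)) (1, 1) * (kc ε - Real.sqrt 3 * ks ε) ≤
        k3h * (kc ε - Real.sqrt 3 * ks ε) := by linarith
    exact le_of_mul_le_mul_right hfin hpos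
  have h4lo : k4l ≤ kapF ε (rav (st H f)) (2, 0) := by
    have hb := hKC.b
    have e1 : k1l * (kc ε - Real.sqrt 3 * ks ε) ≤
        kapF ε (rav (st H f)) (1, 0) * (kc ε - Real.sqrt 3 * ks ε) :=
      mul_le_mul_of_nonneg_right hlow (by linarith)
    have e2 : kapF ε (rav (st H f)) (1, 1) * (kc ε + Real.sqrt 3 * ks ε) ≤
        k3h * (kc ε + Real.sqrt 3 * ks ε) :=
      mul_le_mul_of_nonneg_right h3up (by linarith)
    linarith
  refine ⟨hlow, hup, h3up, h4lo, ?_⟩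
  intro k hk7
  refine (hKS.seven hk7).trans (le_trans ?_ h7)
  have hs1 : Real.sqrt (kapF ε (rav (st H f)) (1, 1)) ≤ Real.sqrt k3h := Real.sqrt_le_sqrt h3up
  have hs2 : Real.sqrt (kapF ε (rav (st H f)) (1, 0)) ≤ Real.sqrt k1h := Real.sqrt_le_sqrt hup
  have hpi : 0 ≤ Real.pi * Real.sqrt (ε / 2) := mul_nonneg Real.pi_pos.le (Real.sqrt_nonneg _)
  have hn1 := Real.sqrt_nonneg (kapF ε (rav (st H f)) (1, 1))
  have hn2 := Real.sqrt_nonneg (kapF ε (rav (st H f)) (1, 0))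
  apply pow_le_pow_left₀ (by linarith)
  linarith

end MP7e122f.R
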