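import Pool.Agent.Lib.MP_7e122f_anR.KP2
import Pool.Agent.Lib.MP_7e122f_anR.KDer
import Pool.Agent.Lib.MP_7e122f_anR.KGam2
import Pool.Agent.Lib.MP_7e122f_anR.KNearR

/-!
# The nondegenerate region, `δ = 1 + ε`

`f` near optimal for `H`, `φ = rav (st H f)`, `κ = kapF ε φ`.  `φ` is admissible (`tpd_rav`,
`TPD.adm`, or the family at `ν = 0`), so `aval M ≤ ∑ w φ`.  By `kap_split` (for `M` and for `H`)
`∑ w φ - TS H f = (Gq δ AA' - Gq δ y1c) - ε ∑ (w - w^H) sig κ`, where `AA' = AA_i y1c r1 p`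
(`δ AA' = AA_i (δ y1c) (δ r1) p`), `≤ - ε κ r1² G - ε κ r² PPf`
`= - ε κ r² (G/δ² + PPf) < 0`, uniformly in `f`
(`SG (σ y1c) (σ r1) p ≥ κ σ² r1² (GamN - GamR) ≥ σ κ r1² G`; `PPf` is affine in `κ1, κ3, κ4` and
the values lie in `[k1l,k1h] × [0,k3h] × [k4l, 2/ε]`, a compact set, so the infimum is positive).
-/

open MeasureTheory Complex
open scoped ComplexInnerProductSpace ENNReal ComplexOrder

namespace MP7e122f.R

private theorem KA1_kap (p : ℝ) : 0 < kap p := by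
  unfold kap
  nlinarith [sq_nonneg (p - 1 / 2)]

private theorem KA1_sig (k : ℤ × ℤ) : (sig k : ℝ) * sig k = 1 ∧ |(sig k : ℝ)| ≤ 1 := by
  unfold sig
  split_ifs <;> simp

private theorem KA1_y1c : 0.9 ≤ y1c ∧ y1c ≤ 0.91 := by
  have h3 : Real.sqrt 3 * Real.sqrt 3 = 3 := Real.mul_self_sqrt (by norm_num)
  have hs0 : 0 < Real.sqrt 3 := Real.sqrt_pos.2 (by norm_num)
  have h1 : Real.sqrt 3 ≤ 1.7321 := by
    rw [Real.sqrt_le_left (by norm_num)]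
    norm_num
  have h2 : 1.732 ≤ Real.sqrt 3 := Real.le_sqrt_of_sq_le (by norm_num)
  have hp := Real.pi_gt_d4
  have hp' := Real.pi_lt_d4
  unfold y1c
  constructor
  · rw [le_div_iff₀ (by positivity)]
    linarith
  · rw [div_le_iff₀ (by positivity)]
    linarith

private theorem KA1_lo {σ y : ℝ} (h : 1 ≤ σ) (hy : 0.9 ≤ y) : 0.9 ≤ σ * y :=
  hy.trans (le_mul_of_one_le_left (by linarith) h)

private theorem KA1_hi {σ y : ℝ} (h : σ ≤ 1.08) (hy : 0.9 ≤ y) (hy2 : y ≤ 0.91) :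
    σ * y ≤ 1.1 := by
  calc σ * y ≤ 1.08 * y := mul_le_mul_of_nonneg_right h (by linarith)
    _ ≤ 1.1 := by linarith

private theorem KA1_chh (σ y r p : ℝ) (hσ : σ ≠ 0) : chh (σ * y) (σ * r) p = chh y r p := by
  unfold chh
  congr 2
  rcases eq_or_ne y 0 with h | h
  · rw [h]
    simp
  · field_simp

private theorem KA1_AA (σ y r p : ℝ) (hσ : σ ≠ 0) :
    AA1 (σ * y) (σ * r) p = σ * AA1 y r p ∧ AA2 (σ * y) (σ * r) p = σ * AA2 y r p ∧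
      AA3 (σ * y) (σ * r) p = σ * AA3 y r p := by
  unfold AA1 AA2 AA3 xx1 xx2 xx3
  rw [KA1_chh σ y r p hσ]
  refine ⟨?_, ?_, ?_⟩ <;> ring

private theorem KA1_adm (H : Mat) (hH : 0 < H.det) (f : L2) (hf : ‖f‖ = 1) :
    Adm H.det (rav (st H f)) := by
  have h1 := adm_st H hH f hf
  have h2 := adm_rot H hH R3 det_R3 f hf
  have h3 := adm_rot H hH R32 det_R32 f hf
  have h4 := adm_avg3 h1 h2 h3
  have e : (fun k => (st H f k + st H f (actZ R3 k) + st H f (actZ R32 k)) / 3) =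
      rav (st H f) := by
    funext k
    rw [actZ_R3, actZ_R32]
    rfl
  rw [e] at h4
  exact h4

private theorem KA1_summable (M : Mat) (hM : 0 < M.det) {ε : ℝ} (hε : 0 < ε) {φ : ℤ × ℤ → ℝ}
    (hφ : ∀ k, |φ k| ≤ 1) : Summable fun k => wt M k * ((sig k : ℝ) * kapF ε φ k) := by
  have h1 := summable_wt_mul M hM (fun k => (sig k : ℝ)) (fun k => (KA1_sig k).2)
  have h2 := summable_wt_mul M hM φ hφ
  refine ((h1.sub h2).div_const ε).congr fun k => ?_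
  unfold kapF
  have h3 := (KA1_sig k).1
  field_simp
  linear_combination (wt M k * φ k) * h3

/-- the uniform lower bound -/
private theorem KA1_inf {ε k1l k1h k3h k4l k7 y r p G : ℝ}
    (h : ∀ κ1 κ3 κ4, k1l ≤ κ1 → κ1 ≤ k1h → 0 ≤ κ3 → κ3 ≤ k3h → k4l ≤ κ4 →
      0 < G / (1 + ε) ^ 2 + PPf y r p κ1 κ3 κ4 k7) :
    ∃ m : ℝ, 0 < m ∧ ∀ κ1 κ3 κ4, k1l ≤ κ1 → κ1 ≤ k1h → 0 ≤ κ3 → κ3 ≤ k3h → k4l ≤ κ4 →
      κ4 ≤ 2 / ε → m ≤ G / (1 + ε) ^ 2 + PPf y r p κ1 κ3 κ4 k7 := by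
  have hK : IsCompact (Set.Icc k1l k1h ×ˢ (Set.Icc (0 : ℝ) k3h ×ˢ Set.Icc k4l (2 / ε))) :=
    isCompact_Icc.prod (isCompact_Icc.prod isCompact_Icc)
  have hc : Continuous (fun q : ℝ × ℝ × ℝ =>
      G / (1 + ε) ^ 2 + PPf y r p q.1 q.2.1 q.2.2 k7) := by
    unfold PPf
    fun_prop
  obtain ⟨m, hm, hall⟩ := hK.exists_forall_le' hc.continuousOn (a := 0) (by
    rintro ⟨κ1, κ3, κ4⟩ ⟨⟨h1, h2⟩, ⟨h3, h4⟩, h5, h6⟩
    exact h κ1 κ3 κ4 h1 h2 h3 h4 h5)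
  exact ⟨m, hm, fun κ1 κ3 κ4 h1 h2 h3 h4 h5 h6 => hall (κ1, κ3, κ4) ⟨⟨h1, h2⟩, ⟨h3, h4⟩, h5, h6⟩⟩

theorem A1_final {ε k1l k1h k3h k4l k7h r1 p : ℝ} (hε : 0 < ε) (hε1 : ε ≤ 0.08)
    (hk : k1h ≤ 2.4) (hr : 0 < r1) (hp0 : 0 ≤ p) (hp1 : p ≤ 1) (h3 : 0 ≤ AA3 y1c r1 p)
    (hN : KNear ε k1l k1h k3h k4l k7h) (hA : A1ok ε k1l k1h k3h k4l k7h r1 p)
    {M H : Mat} (hM : 0 < M.det) (hMd : M.det = 1 / (1 + ε)) (hHd : H.det = M.det)
    (hwM : ∀ k, wt M k = cc (AA3 ((1 + ε) * y1c) ((1 + ε) * r1) p)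
      (AA1 ((1 + ε) * y1c) ((1 + ε) * r1) p) (AA2 ((1 + ε) * y1c) ((1 + ε) * r1) p) k)
    (hwH : ∀ k, wt H k = cc ((1 + ε) * y1c) ((1 + ε) * y1c) ((1 + ε) * y1c) k) :
    aval M < aval H := by
  obtain ⟨hle, hvp, G, hG0, hG, hpos⟩ := hA
  obtain ⟨hy1, hy2⟩ := KA1_y1c
  have hδ0 : 0 < 1 + ε := by linarith
  have hkap := KA1_kap p
  have hH : 0 < H.det := by rw [hHd]; exact hM
  have hHd' : H.det = 1 / (1 + ε) := hHd.trans hMd
  obtain ⟨m0, hm0, hinf⟩ := KA1_inf hpos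
  obtain ⟨η, hη, hnear⟩ := hN ((1 + ε) * y1c) H (by unfold y1c; ring) hH hHd' hwH
  set K : ℝ := ε * (kap p * ((1 + ε) * r1) ^ 2) * m0 with hK
  have hK0 : 0 < K := by positivity
  obtain ⟨f, hf, hfa⟩ := exists_near_aval H (min η K) (lt_min hη hK0)
  have hmin1 := min_le_left η K
  have hmin2 := min_le_right η K
  obtain ⟨n1, n2, n3, n4, n7⟩ := hnear f hf (by linarith)
  have hKS := kstate_rav H hH hε hHd' f hf
  set φ := rav (st H f) with hφ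
  have hadm : Adm H.det φ := KA1_adm H hH f hf
  have hφ1 := hadm.1
  have haM := (hadm.2 M hM hHd.symm).1
  have hTS : ∑' k, wt H k * φ k = TS H f := rav_value H hH hwH f hf
  have hsM := kap_split M hM hε hφ1
  have hsH := kap_split H hH hε hφ1
  obtain ⟨a1, a2, a3⟩ := KA1_AA (1 + ε) y1c r1 p hδ0.ne'
  have hGM : ∑' k, wt M k * (sig k : ℝ) =
      Gq (1 + ε) (AA1 y1c r1 p) (AA2 y1c r1 p) (AA3 y1c r1 p) := by
    unfold Gq
    refine tsum_congr fun k => ?_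
    rw [hwM, a1, a2, a3, mul_comm]
  have hGH : ∑' k, wt H k * (sig k : ℝ) = Gq (1 + ε) y1c y1c y1c := by
    unfold Gq
    refine tsum_congr fun k => ?_
    rw [hwH, mul_comm]
  -- the difference of the two Gaussian sums
  have hgq : Gq (1 + ε) (AA1 y1c r1 p) (AA2 y1c r1 p) (AA3 y1c r1 p) - Gq (1 + ε) y1c y1c y1c ≤
      -((1 + ε - 1) * (kap p * r1 ^ 2 * G)) := by
    refine gq_diff (by linarith) (by linarith) hr hp0 hp1 h3 ?_
    intro σ hσ1 hσ2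
    obtain ⟨b1, b2, b3⟩ := hG σ hσ1 hσ2
    have hσ0 : 0 < σ := by linarith
    have h4 := SG_lower (y := σ * y1c) (r := σ * r1) (p := p) (KA1_lo hσ1 hy1)
      (KA1_hi (hσ2.trans (by linarith)) hy1 hy2) (by positivity) hp0 hp1 b1 b2
    refine le_trans ?_ h4
    have h5 : kap p * (σ * r1) ^ 2 * (GamN (σ * y1c) (σ * r1) p - GamR (σ * y1c) (σ * r1) p) =
        kap p * r1 ^ 2 * σ * (σ * (GamN (σ * y1c) (σ * r1) p - GamR (σ * y1c) (σ * r1) p)) := by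
      ring
    rw [h5]
    have h6 : kap p * r1 ^ 2 * G * σ = kap p * r1 ^ 2 * σ * G := by ring
    rw [h6]
    exact mul_le_mul_of_nonneg_left b3 (by positivity)
  -- the `κ` part
  have hkp := kp_lower (ε := ε) (k7 := k7h) (y := (1 + ε) * y1c) (r := (1 + ε) * r1) (p := p)
    (κ := kapF ε φ) hKS hε hε1 (n2.trans hk) n7 (KA1_lo (by linarith) hy1)
    (KA1_hi (by linarith) hy1 hy2) (by positivity) hp0 hp1 hle hvp
  have hsplit : ∑' k : ℤ × ℤ, (cc (AA3 ((1 + ε) * y1c) ((1 + ε) * r1) p)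
      (AA1 ((1 + ε) * y1c) ((1 + ε) * r1) p) (AA2 ((1 + ε) * y1c) ((1 + ε) * r1) p) k
        - cc ((1 + ε) * y1c) ((1 + ε) * y1c) ((1 + ε) * y1c) k) * ((sig k : ℝ) * kapF ε φ k) =
      ∑' k, wt M k * ((sig k : ℝ) * kapF ε φ k) - ∑' k, wt H k * ((sig k : ℝ) * kapF ε φ k) := by
    rw [← (KA1_summable M hM hε hφ1).tsum_sub (KA1_summable H hH hε hφ1)]
    refine tsum_congr fun k => ?_
    rw [hwM, hwH]
    ring
  rw [hsplit] at hkp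
  have hPP := hinf (kapF ε φ (1, 0)) (kapF ε φ (1, 1)) (kapF ε φ (2, 0)) n1 n2
    (hKS.nonneg (1, 1)) n3 n4 (hKS.le (2, 0))
  -- conclusion
  have hKr : 0 < ε * (kap p * ((1 + ε) * r1) ^ 2) := by positivity
  have hPP' := mul_le_mul_of_nonneg_left hPP hKr.le
  have hkp' := mul_le_mul_of_nonneg_left hkp hε.le
  have e1 : ε * (kap p * ((1 + ε) * r1) ^ 2) * (G / (1 + ε) ^ 2 +
      PPf ((1 + ε) * y1c) ((1 + ε) * r1) p (kapF ε φ (1, 0)) (kapF ε φ (1, 1)) (kapF ε φ (2, 0)) k7h) =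
      ε * (kap p * r1 ^ 2 * G) + ε * (kap p * ((1 + ε) * r1) ^ 2 *
        PPf ((1 + ε) * y1c) ((1 + ε) * r1) p (kapF ε φ (1, 0)) (kapF ε φ (1, 1)) (kapF ε φ (2, 0))
          k7h) := by
    field_simp
  rw [e1] at hPP'
  rw [hGM] at hsM
  rw [hGH] at hsH
  have e2 : (1 + ε - 1) * (kap p * r1 ^ 2 * G) = ε * (kap p * r1 ^ 2 * G) := by ring
  rw [e2] at hgq
  rw [mul_sub] at hkp'
  rw [← hK] at hPP'
  linarith

end MP7e122f.R
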