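import Pool.Agent.Lib.MP_7e122f_anR.KDefs

/-!
# Consequences of the growth inequality

Every `k` is `± e3^j` of some `(a,b)` with `a, b ≥ 0`; then `Nf k = a² + ab + b²`,
`√κ(k) ≤ √κ(a,0) + √κ(0,b) + π√(ε/2) ab ≤ (a+b) √κ(1,0) + π√(ε/2) ab` (`wdg` of parallel vectors
is `0`; `κ(0,1) = κ(1,0)`), `(a+b)² ≤ (4/3) N`, `ab ≤ N/3`, and `(x+y)² ≤ 2x² + 2y²`.
-/

namespace MP7e122f.R

private lemma KBound_sym {ε : ℝ} {κ : ℤ × ℤ → ℝ} (h : KState ε κ) (k : ℤ × ℤ) :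
    κ (e3.symm k) = κ k := by
  have := h.rot (e3.symm k)
  rw [Equiv.apply_symm_apply] at this
  exact this.symm

private lemma KBound_r {ε : ℝ} {κ : ℤ × ℤ → ℝ} (h : KState ε κ) (m n : ℤ) :
    κ (-m - n, m) = κ (m, n) := h.rot (m, n)

private lemma KBound_s {ε : ℝ} {κ : ℤ × ℤ → ℝ} (h : KState ε κ) (m n : ℤ) :
    κ (n, -m - n) = κ (m, n) := KBound_sym h (m, n)

private lemma KBound_n {ε : ℝ} {κ : ℤ × ℤ → ℝ} (h : KState ε κ) (m n : ℤ) :
    κ (-m, -n) = κ (m, n) := h.neg (m, n)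

/-- reduction to the first sextant -/
private lemma KBound_red {ε : ℝ} {κ : ℤ × ℤ → ℝ} (h : KState ε κ) (k : ℤ × ℤ) :
    ∃ a b : ℕ, Nf k = (a : ℤ) ^ 2 + a * b + (b : ℤ) ^ 2 ∧ κ k = κ ((a : ℤ), (b : ℤ)) := by
  obtain ⟨m, n⟩ := k
  have key : ∃ a b : ℤ, 0 ≤ a ∧ 0 ≤ b ∧ Nf (m, n) = a ^ 2 + a * b + b ^ 2 ∧ κ (m, n) = κ (a, b) := by
    unfold Nf
    rcases le_total 0 m with hm | hm
    · rcases le_total 0 n with hn | hn
      · exact ⟨m, n, hm, hn, rfl, rfl⟩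
      · rcases le_total 0 (m + n) with hs | hs
        · refine ⟨-n, m + n, by omega, hs, by simp only; ring, ?_⟩
          rw [← KBound_s h m n, ← KBound_n h n (-m - n)]
          congr 2
          ring
        · refine ⟨-m - n, m, by omega, hm, by simp only; ring, ?_⟩
          rw [← KBound_r h m n]
    · rcases le_total 0 n with hn | hn
      · rcases le_total 0 (m + n) with hs | hs
        · refine ⟨m + n, -m, hs, by omega, by simp only; ring, ?_⟩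
          rw [← KBound_r h m n, ← KBound_n h (-m - n) m]
          congr 2
          ring
        · refine ⟨n, -m - n, hn, by omega, by simp only; ring, ?_⟩
          rw [← KBound_s h m n]
      · refine ⟨-m, -n, by omega, by omega, by simp only; ring, ?_⟩
        rw [KBound_n h m n]
  obtain ⟨a, b, ha, hb, h1, h2⟩ := key
  refine ⟨a.toNat, b.toNat, ?_, ?_⟩
  · rw [Int.toNat_of_nonneg ha, Int.toNat_of_nonneg hb]
    exact h1
  · rw [Int.toNat_of_nonneg ha, Int.toNat_of_nonneg hb]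
    exact h2

private lemma KBound_01 {ε : ℝ} {κ : ℤ × ℤ → ℝ} (h : KState ε κ) : κ (0, 1) = κ (1, 0) := by
  have h1 := KBound_n h 0 1
  have h2 := KBound_r h 0 (-1)
  norm_num at h1 h2
  rw [← h1, ← h2]

private lemma KBound_a0 {ε : ℝ} {κ : ℤ × ℤ → ℝ} (h : KState ε κ) (a : ℕ) :
    Real.sqrt (κ ((a : ℤ), 0)) ≤ a * Real.sqrt (κ (1, 0)) := by
  induction a with
  | zero =>
    have h0 : κ (((0 : ℕ) : ℤ), 0) = 0 := by
      have := h.zero
      simpa using this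
    rw [h0]
    simp
  | succ a ih =>
    have h1 := h.grow ((a : ℤ), 0) (1, 0)
    have h2 : (((a : ℤ), (0 : ℤ)) + (1, 0) : ℤ × ℤ) = (((a + 1 : ℕ) : ℤ), 0) := by
      ext <;> simp
    have h3 : wdg ((a : ℤ), 0) (1, 0) = 0 := by simp [wdg]
    rw [h2, h3] at h1
    simp only [Int.cast_zero, abs_zero, mul_zero, add_zero] at h1
    push_cast
    push_cast at h1
    linarith

private lemma KBound_0b {ε : ℝ} {κ : ℤ × ℤ → ℝ} (h : KState ε κ) (b : ℕ) :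
    Real.sqrt (κ (0, (b : ℤ))) ≤ b * Real.sqrt (κ (1, 0)) := by
  induction b with
  | zero =>
    have h0 : κ (0, ((0 : ℕ) : ℤ)) = 0 := by
      have := h.zero
      simpa using this
    rw [h0]
    simp
  | succ b ih =>
    have h1 := h.grow (0, (b : ℤ)) (0, 1)
    have h2 : (((0 : ℤ), (b : ℤ)) + (0, 1) : ℤ × ℤ) = (0, ((b + 1 : ℕ) : ℤ)) := by
      ext <;> simp
    have h3 : wdg (0, (b : ℤ)) (0, 1) = 0 := by simp [wdg]
    rw [h2, h3, KBound_01 h] at h1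
    simp only [Int.cast_zero, abs_zero, mul_zero, add_zero] at h1
    push_cast
    push_cast at h1
    linarith

private lemma KBound_ab {ε : ℝ} {κ : ℤ × ℤ → ℝ} (h : KState ε κ) (a b : ℕ) :
    Real.sqrt (κ ((a : ℤ), (b : ℤ))) ≤ (a + b) * Real.sqrt (κ (1, 0))
      + Real.pi * Real.sqrt (ε / 2) * (a * b) := by
  have h1 := h.grow ((a : ℤ), 0) (0, (b : ℤ))
  have h2 : (((a : ℤ), (0 : ℤ)) + (0, (b : ℤ)) : ℤ × ℤ) = ((a : ℤ), (b : ℤ)) := by
    ext <;> simp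
  have h3 : |((wdg ((a : ℤ), 0) (0, (b : ℤ)) : ℤ) : ℝ)| = a * b := by
    have : wdg ((a : ℤ), 0) (0, (b : ℤ)) = (a : ℤ) * b := by simp [wdg]
    rw [this]
    push_cast
    exact abs_of_nonneg (by positivity)
  rw [h2, h3] at h1
  have h4 := KBound_a0 h a
  have h5 := KBound_0b h b
  linarith

theorem KState.bound {ε : ℝ} {κ : ℤ × ℤ → ℝ} (h : KState ε κ) (hε : 0 ≤ ε) (k : ℤ × ℤ) :
    κ k ≤ 8 / 3 * Nf k * κ (1, 0) + Real.pi ^ 2 * ε * (Nf k) ^ 2 / 9 := by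
  obtain ⟨a, b, hN, hk⟩ := KBound_red h k
  have hN' : ((Nf k : ℤ) : ℝ) = (a : ℝ) ^ 2 + a * b + (b : ℝ) ^ 2 := by
    rw [hN]
    push_cast
    ring
  have ha : (0 : ℝ) ≤ a := Nat.cast_nonneg a
  have hb : (0 : ℝ) ≤ b := Nat.cast_nonneg b
  have h1 := KBound_ab h a b
  have hk0 : 0 ≤ κ (1, 0) := h.nonneg _
  have e1 : Real.sqrt (κ (1, 0)) ^ 2 = κ (1, 0) := Real.sq_sqrt hk0
  have e2 : Real.sqrt (ε / 2) ^ 2 = ε / 2 := Real.sq_sqrt (by linarith)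
  have e3' : Real.sqrt (κ ((a : ℤ), (b : ℤ))) ^ 2 = κ ((a : ℤ), (b : ℤ)) := Real.sq_sqrt (h.nonneg _)
  have h2 : κ ((a : ℤ), (b : ℤ)) ≤ ((a + b) * Real.sqrt (κ (1, 0))
      + Real.pi * Real.sqrt (ε / 2) * (a * b)) ^ 2 := by
    rw [← e3']
    exact pow_le_pow_left₀ (Real.sqrt_nonneg _) h1 2
  have h3 : ((a + b) * Real.sqrt (κ (1, 0)) + Real.pi * Real.sqrt (ε / 2) * (a * b)) ^ 2 ≤
      2 * ((a : ℝ) + b) ^ 2 * κ (1, 0) + Real.pi ^ 2 * ε * ((a : ℝ) * b) ^ 2 := by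
    have h4 := add_sq_le (a := ((a : ℝ) + b) * Real.sqrt (κ (1, 0)))
      (b := Real.pi * Real.sqrt (ε / 2) * (a * b))
    have h5 : 2 * ((((a : ℝ) + b) * Real.sqrt (κ (1, 0))) ^ 2 +
        (Real.pi * Real.sqrt (ε / 2) * (a * b)) ^ 2) =
        2 * ((a : ℝ) + b) ^ 2 * κ (1, 0) + Real.pi ^ 2 * ε * ((a : ℝ) * b) ^ 2 := by
      rw [mul_pow, mul_pow, mul_pow, e1, e2]
      ring
    linarith
  have hab : 3 * ((a : ℝ) * b) ≤ (a : ℝ) ^ 2 + a * b + (b : ℝ) ^ 2 := by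
    nlinarith [sq_nonneg ((a : ℝ) - b)]
  have h6 : 2 * ((a : ℝ) + b) ^ 2 ≤ 8 / 3 * Nf k := by
    rw [hN']
    nlinarith
  have h7 : ((a : ℝ) * b) ^ 2 ≤ (Nf k : ℝ) ^ 2 / 9 := by
    rw [hN']
    have h8 : ((a : ℝ) * b) ≤ ((a : ℝ) ^ 2 + a * b + (b : ℝ) ^ 2) / 3 := by linarith
    have h9 : 0 ≤ (a : ℝ) * b := mul_nonneg ha hb
    have := pow_le_pow_left₀ h9 h8 2
    calc ((a : ℝ) * b) ^ 2 ≤ (((a : ℝ) ^ 2 + a * b + (b : ℝ) ^ 2) / 3) ^ 2 := this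
      _ = _ := by ring
  have h10 : 2 * ((a : ℝ) + b) ^ 2 * κ (1, 0) ≤ 8 / 3 * Nf k * κ (1, 0) :=
    mul_le_mul_of_nonneg_right h6 hk0
  have h11 : Real.pi ^ 2 * ε * ((a : ℝ) * b) ^ 2 ≤ Real.pi ^ 2 * ε * ((Nf k : ℝ) ^ 2 / 9) :=
    mul_le_mul_of_nonneg_left h7 (by positivity)
  rw [hk]
  calc κ ((a : ℤ), (b : ℤ)) ≤ 8 / 3 * Nf k * κ (1, 0) + Real.pi ^ 2 * ε * ((Nf k : ℝ) ^ 2 / 9) := by
        linarith
    _ = _ := by ring

private lemma KBound_cases {a b : ℕ} {N : ℤ} (hN : N = (a : ℤ) ^ 2 + a * b + (b : ℤ) ^ 2)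
    (h9 : N ≤ 9) : a ≤ 3 ∧ b ≤ 3 := by
  constructor
  · by_contra hc
    push Not at hc
    have : (4 : ℤ) ≤ a := by exact_mod_cast hc
    have hb : (0 : ℤ) ≤ b := Int.natCast_nonneg b
    nlinarith
  · by_contra hc
    push Not at hc
    have : (4 : ℤ) ≤ b := by exact_mod_cast hc
    have ha : (0 : ℤ) ≤ a := Int.natCast_nonneg a
    nlinarith

/-- the twelve vectors of norm 7 are (norm 3) + (norm 1) with `wdg = ±1` -/
theorem KState.seven {ε : ℝ} {κ : ℤ × ℤ → ℝ} (h : KState ε κ) {k : ℤ × ℤ} (hk : Nf k = 7) :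
    κ k ≤ (Real.sqrt (κ (1, 1)) + Real.sqrt (κ (1, 0)) + Real.pi * Real.sqrt (ε / 2)) ^ 2 := by
  obtain ⟨a, b, hN, hk'⟩ := KBound_red h k
  obtain ⟨ha, hb⟩ := KBound_cases hN (by omega)
  rw [hk] at hN
  have hab : (a = 2 ∧ b = 1) ∨ (a = 1 ∧ b = 2) := by
    clear hk' hk
    interval_cases a <;> interval_cases b <;> first | (left; decide) | (right; decide) | (exfalso; revert hN; decide)
  have key : Real.sqrt (κ k) ≤ Real.sqrt (κ (1, 1)) + Real.sqrt (κ (1, 0))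
      + Real.pi * Real.sqrt (ε / 2) := by
    rw [hk']
    rcases hab with ⟨rfl, rfl⟩ | ⟨rfl, rfl⟩
    · have h1 := h.grow (1, 1) (1, 0)
      have h2 : wdg ((1 : ℤ), (1 : ℤ)) (1, 0) = -1 := by decide
      have h3 : (((1 : ℤ), (1 : ℤ)) + (1, 0) : ℤ × ℤ) = (((2 : ℕ) : ℤ), ((1 : ℕ) : ℤ)) := by decide
      rw [h2, h3] at h1
      have h4 : |((-1 : ℤ) : ℝ)| = 1 := by norm_num
      rw [h4, mul_one] at h1
      exact h1
    · have h1 := h.grow (1, 1) (0, 1)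
      have h2 : wdg ((1 : ℤ), (1 : ℤ)) (0, 1) = 1 := by decide
      have h3 : (((1 : ℤ), (1 : ℤ)) + (0, 1) : ℤ × ℤ) = (((1 : ℕ) : ℤ), ((2 : ℕ) : ℤ)) := by decide
      rw [h2, h3, KBound_01 h] at h1
      have h4 : |((1 : ℤ) : ℝ)| = 1 := by norm_num
      rw [h4, mul_one] at h1
      exact h1
  have h2 := pow_le_pow_left₀ (Real.sqrt_nonneg _) key 2
  rwa [Real.sq_sqrt (h.nonneg k)] at h2

/-- the six vectors of norm 9 are the `3u`, `Nf u = 1` -/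
theorem KState.nine {ε : ℝ} {κ : ℤ × ℤ → ℝ} (h : KState ε κ) {k : ℤ × ℤ} (hk : Nf k = 9) :
    κ k ≤ 9 * κ (1, 0) := by
  obtain ⟨a, b, hN, hk'⟩ := KBound_red h k
  obtain ⟨ha, hb⟩ := KBound_cases hN (by omega)
  rw [hk] at hN
  have hab : (a = 3 ∧ b = 0) ∨ (a = 0 ∧ b = 3) := by
    clear hk' hk
    interval_cases a <;> interval_cases b <;> first | (left; decide) | (right; decide) | (exfalso; revert hN; decide)
  have key : Real.sqrt (κ k) ≤ 3 * Real.sqrt (κ (1, 0)) := by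
    rw [hk']
    rcases hab with ⟨rfl, rfl⟩ | ⟨rfl, rfl⟩
    · have h1 := KBound_a0 h 3
      exact_mod_cast h1
    · have h1 := KBound_0b h 3
      exact_mod_cast h1
  have h2 := pow_le_pow_left₀ (Real.sqrt_nonneg _) key 2
  rw [Real.sq_sqrt (h.nonneg k), mul_pow, Real.sq_sqrt (h.nonneg _)] at h2
  linarith

/-- values on the first shells -/
theorem KState.shell {ε : ℝ} {κ : ℤ × ℤ → ℝ} (h : KState ε κ) (k : ℤ × ℤ) :
    (k ∈ S1 → κ k = κ (1, 0)) ∧ (k ∈ S3 → κ k = κ (1, 1)) ∧ (k ∈ S4 → κ k = κ (2, 0)) := by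
  refine ⟨fun hk => ?_, fun hk => ?_, fun hk => ?_⟩
  · have h1 : κ (-1, 0) = κ (1, 0) := h.neg (1, 0)
    have h2 : κ (0, 1) = κ (1, 0) := KBound_01 h
    have h3 : κ (0, -1) = κ (0, 1) := h.neg (0, 1)
    have h4 : κ (-1, 1) = κ (1, 0) := h.rot (1, 0)
    have h5 : κ (1, -1) = κ (-1, 1) := by simpa using KBound_n h (-1) 1
    simp only [S1, Finset.mem_insert, Finset.mem_singleton] at hk
    rcases hk with rfl | rfl | rfl | rfl | rfl | rfl
    · rfl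
    · exact h1
    · exact h2
    · rw [h3, h2]
    · rw [h5, h4]
    · exact h4
  · have h1 : κ (-1, -1) = κ (1, 1) := h.neg (1, 1)
    have h2 : κ (-2, 1) = κ (1, 1) := h.rot (1, 1)
    have h3 : κ (1, -2) = κ (-2, 1) := by
      have := KBound_r h (-2) 1
      norm_num at this
      exact this
    have h4 : κ (2, -1) = κ (-2, 1) := by simpa using KBound_n h (-2) 1
    have h5 : κ (-1, 2) = κ (1, -2) := by simpa using KBound_n h 1 (-2)
    simp only [S3, Finset.mem_insert, Finset.mem_singleton] at hk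
    rcases hk with rfl | rfl | rfl | rfl | rfl | rfl
    · rfl
    · exact h1
    · rw [h3, h2]
    · rw [h5, h3, h2]
    · rw [h4, h2]
    · exact h2
  · have h1 : κ (-2, 0) = κ (2, 0) := h.neg (2, 0)
    have h2 : κ (-2, 2) = κ (2, 0) := h.rot (2, 0)
    have h3 : κ (2, -2) = κ (-2, 2) := by simpa using KBound_n h (-2) 2
    have h4 : κ (0, -2) = κ (-2, 2) := by
      have := KBound_r h (-2) 2
      norm_num at this
      exact this
    have h5 : κ (0, 2) = κ (0, -2) := by simpa using KBound_n h 0 (-2)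
    simp only [S4, Finset.mem_insert, Finset.mem_singleton] at hk
    rcases hk with rfl | rfl | rfl | rfl | rfl | rfl
    · rfl
    · exact h1
    · rw [h5, h4, h2]
    · rw [h4, h2]
    · rw [h3, h2]
    · exact h2

end MP7e122f.R
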