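import Pool.Agent.Lib.MP_7e122f_anR.KDefs
import Pool.Agent.Lib.MP_7e122f_anR.ConsSt

/-!
# The linear constraints in the variables `κ`

`cos(π(1+ε)) = -c`, `cos(π(1+ε) - π/3) = -(c/2 + √3/2 s)`, `cos(π(1+ε) - 2π/3) = c/2 - √3/2 s`,
`cos(π(1+ε) + 2π/3) = c/2 + √3/2 s`, `cos(π(1+ε) + π/3) = -(c/2 - √3/2 s)`, and
`s1 = -1 + ε κ1`, `s3 = -1 + ε κ3`, `s4 = 1 - ε κ4` (`sig(1,0) = sig(1,1) = -1`, `sig(2,0) = 1`).
`c0` gives `a`, `c5` gives `b`, `c4` gives `d`.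
-/

open MeasureTheory Complex
open scoped ComplexInnerProductSpace ENNReal ComplexOrder

namespace MP7e122f.R

private theorem KCons_cos_two : Real.cos (2 * Real.pi / 3) = -(1 / 2) := by
  have h : (2 * Real.pi / 3 : ℝ) = Real.pi - Real.pi / 3 := by ring
  rw [h, Real.cos_pi_sub, Real.cos_pi_div_three]

private theorem KCons_sin_two : Real.sin (2 * Real.pi / 3) = Real.sqrt 3 / 2 := by
  have h : (2 * Real.pi / 3 : ℝ) = Real.pi - Real.pi / 3 := by ring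
  rw [h, Real.sin_pi_sub, Real.sin_pi_div_three]

private theorem KCons_cos (ε : ℝ) : Real.cos (Real.pi * (1 + ε)) = -kc ε := by
  have h : Real.pi * (1 + ε) = Real.pi * ε + Real.pi := by ring
  rw [h, Real.cos_add_pi]
  rfl

private theorem KCons_sin (ε : ℝ) : Real.sin (Real.pi * (1 + ε)) = -ks ε := by
  have h : Real.pi * (1 + ε) = Real.pi * ε + Real.pi := by ring
  rw [h, Real.sin_add_pi]
  rfl

private theorem KCons_x {ε : ℝ} (hε0 : 0 ≤ ε) (hε1 : ε ≤ 1 / 10) :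
    0 ≤ Real.pi * ε ∧ Real.pi * ε ≤ 0.31416 := by
  have h1 := Real.pi_pos
  have h2 := Real.pi_lt_d6
  refine ⟨by positivity, ?_⟩
  nlinarith

private theorem KCons_kc {ε : ℝ} (hε0 : 0 ≤ ε) (hε1 : ε ≤ 1 / 10) :
    0.9506 ≤ kc ε ∧ kc ε ≤ 1 := by
  obtain ⟨h1, h2⟩ := KCons_x hε0 hε1
  refine ⟨?_, Real.cos_le_one _⟩
  have := Real.one_sub_sq_div_two_le_cos (x := Real.pi * ε)
  unfold kc
  nlinarith

private theorem KCons_ks {ε : ℝ} (hε0 : 0 ≤ ε) (hε1 : ε ≤ 1 / 10) :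
    0 ≤ ks ε ∧ ks ε ≤ 0.31416 := by
  obtain ⟨h1, h2⟩ := KCons_x hε0 hε1
  refine ⟨Real.sin_nonneg_of_nonneg_of_le_pi h1 ?_, ?_⟩
  · have := Real.pi_gt_three
    linarith
  · exact (Real.sin_le h1).trans h2

private theorem KCons_sqrt : 1.732 ≤ Real.sqrt 3 ∧ Real.sqrt 3 ≤ 1.7321 ∧
    Real.sqrt 3 * Real.sqrt 3 = 3 := by
  refine ⟨Real.le_sqrt_of_sq_le (by norm_num), ?_, Real.mul_self_sqrt (by norm_num)⟩
  rw [Real.sqrt_le_left (by norm_num)]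
  norm_num

theorem kc_of_cons {ε s1 s3 s4 : ℝ} (hε : 0 < ε) (h : Cons (1 + ε) s1 s3 s4) :
    KC ε ((1 + s1) / ε) ((1 + s3) / ε) ((1 - s4) / ε) := by
  obtain ⟨κ1, h1⟩ : ∃ κ1, κ1 = (1 + s1) / ε := ⟨_, rfl⟩
  obtain ⟨κ3, h3⟩ : ∃ κ3, κ3 = (1 + s3) / ε := ⟨_, rfl⟩
  obtain ⟨κ4, h4⟩ : ∃ κ4, κ4 = (1 - s4) / ε := ⟨_, rfl⟩
  obtain ⟨sk, hsk⟩ : ∃ sk, sk = ksk ε := ⟨_, rfl⟩
  obtain ⟨v, hv⟩ : ∃ v, v = kvk ε := ⟨_, rfl⟩
  have e1 : s1 = -1 + ε * κ1 := by rw [h1]; field_simp; ring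
  have e3 : s3 = -1 + ε * κ3 := by rw [h3]; field_simp; ring
  have e4 : s4 = 1 - ε * κ4 := by rw [h4]; field_simp; ring
  have esk : ks ε = ε * sk := by rw [hsk]; unfold ksk ks; field_simp
  have ev : kc ε = 1 - ε * v := by rw [hv]; unfold kvk kc; field_simp; ring
  have b1 := (abs_le.1 h.b1).1
  have b3 := (abs_le.1 h.b3).1
  have b4 := (abs_le.1 h.b4).2
  have c0 := h.c0
  have c4 := h.c4
  have c5 := h.c5
  rw [KCons_cos] at c0
  rw [Real.cos_add, Real.cos_sub, KCons_cos, KCons_sin, KCons_cos_two, KCons_sin_two] at c4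
  rw [Real.cos_add, Real.cos_add, KCons_cos, KCons_sin, KCons_cos_two, KCons_sin_two,
    Real.cos_pi_div_three, Real.sin_pi_div_three] at c5
  rw [← h1, ← h3, ← h4]
  rw [e1] at b1 c0 c4 c5
  rw [e3] at b3 c0 c4 c5
  rw [e4] at b4 c0 c4 c5
  rw [esk] at c4 c5
  constructor
  · by_contra hc
    have := mul_neg_of_pos_of_neg hε (not_le.1 hc)
    linarith
  · by_contra hc
    have := mul_neg_of_pos_of_neg hε (not_le.1 hc)
    linarith
  · by_contra hc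
    have := mul_neg_of_pos_of_neg hε (not_le.1 hc)
    linarith
  · rw [← hv]
    refine le_of_mul_le_mul_left ?_ hε
    have e5 : ε * (4 * v) = 4 - 4 * kc ε := by rw [ev]; ring
    linear_combination c0 + e5
  · rw [← hsk, esk]
    refine le_of_mul_le_mul_left ?_ hε
    linear_combination c5
  · rw [← hv, esk]
    refine le_of_mul_le_mul_left ?_ hε
    have e5 : ε * (2 * v) = 2 - 2 * kc ε := by rw [ev]; ring
    linear_combination c4 - e5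

theorem kc_rav (H : Mat) (hH : 0 < H.det) {ε : ℝ} (hε : 0 < ε) (hHd : H.det = 1 / (1 + ε))
    (f : L2) (hf : ‖f‖ = 1) : KC ε (kapF ε (rav (st H f)) (1, 0)) (kapF ε (rav (st H f)) (1, 1))
      (kapF ε (rav (st H f)) (2, 0)) := by
  have h := cons_st H hH f hf
  have hδ : 1 / H.det = 1 + ε := by rw [hHd, one_div_one_div]
  rw [hδ] at h
  have h2 := kc_of_cons hε h
  have g1 : sig (1, 0) = -1 := by decide
  have g3 : sig (1, 1) = -1 := by decide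
  have g4 : sig (2, 0) = 1 := by decide
  have e1 : kapF ε (rav (st H f)) (1, 0) = (1 + rav (st H f) (1, 0)) / ε := by
    unfold kapF
    rw [g1]
    push_cast
    ring
  have e3 : kapF ε (rav (st H f)) (1, 1) = (1 + rav (st H f) (1, 1)) / ε := by
    unfold kapF
    rw [g3]
    push_cast
    ring
  have e4 : kapF ε (rav (st H f)) (2, 0) = (1 - rav (st H f) (2, 0)) / ε := by
    unfold kapF
    rw [g4]
    push_cast
    ring
  rw [e1, e3, e4]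
  exact h2

/-- `b` and `d` -/
theorem KC.k3lo {ε κ1 κ3 κ4 : ℝ} (h : KC ε κ1 κ3 κ4) :
    Real.sqrt 3 * ksk ε - kvk ε - Real.sqrt 3 * ks ε * κ1 ≤ kc ε * κ3 := by
  have hb := h.b
  have hd := h.d
  linarith

/-- `a` and `b` -/
theorem KC.k3hi {ε κ1 κ3 κ4 : ℝ} (h : KC ε κ1 κ3 κ4) :
    κ3 * (kc ε - Real.sqrt 3 * ks ε) ≤ κ1 * (12 - 3 * kc ε + Real.sqrt 3 * ks ε)
      - 6 * ε * κ1 ^ 2 - 4 * kvk ε - 2 * Real.sqrt 3 * ksk ε := by
  have ha := h.a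
  have hb := h.b
  linarith

/-- `a`, `b` and `k3lo` (multiplied by `(c - √3 s)/c ≥ 0`); use `s² = (1-c)(1+c)`, i.e.
`ks ε * ksk ε = (1 + kc ε) * kvk ε`, `ks ε * kvk ε = ksk ε * (1 - kc ε)` -/
theorem KC.k1 {ε κ1 κ3 κ4 : ℝ} (h : KC ε κ1 κ3 κ4) (hε : 0 < ε) (hε1 : ε ≤ 1 / 10) :
    Real.sqrt 3 * ksk ε + Real.sqrt 3 / 2 * ksk ε / kc ε - 3 / 2 * kvk ε / kc ε ≤
      κ1 * (6 + Real.sqrt 3 * ks ε - 3 / 2 / kc ε - 3 * ε * κ1) := by
  have hlo := h.k3lo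
  have hhi := h.k3hi
  obtain ⟨hc1, hc2⟩ := KCons_kc hε.le hε1
  obtain ⟨hs1, hs2⟩ := KCons_ks hε.le hε1
  obtain ⟨hq1, hq2, hq3⟩ := KCons_sqrt
  have hc0 : 0 < kc ε := by linarith
  have hpos : 0 ≤ (kc ε - Real.sqrt 3 * ks ε) / kc ε := by
    refine div_nonneg ?_ hc0.le
    nlinarith
  have hsq : ks ε ^ 2 = (1 + kc ε) * (1 - kc ε) := by
    have := Real.sin_sq_add_cos_sq (Real.pi * ε)
    unfold ks kc
    linarith
  have esk : ksk ε = ks ε / ε := rfl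
  have ev : kvk ε = (1 - kc ε) / ε := rfl
  have i1 : ks ε * ksk ε = (1 + kc ε) * kvk ε := by
    rw [esk, ev, ← mul_div_assoc, ← mul_div_assoc, ← hsq, sq]
  have i2 : ks ε * kvk ε = ksk ε * (1 - kc ε) := by
    rw [esk, ev]
    ring
  have i3 : ks ε * ks ε = 1 - kc ε * kc ε := by linarith
  have hm := mul_le_mul_of_nonneg_left hlo hpos
  obtain ⟨w, hw⟩ : ∃ w, w = (kc ε)⁻¹ := ⟨_, rfl⟩
  have hwc : w * kc ε = 1 := by rw [hw]; exact inv_mul_cancel₀ hc0.ne'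
  have e1 : (kc ε - Real.sqrt 3 * ks ε) / kc ε * (kc ε * κ3) =
      κ3 * (kc ε - Real.sqrt 3 * ks ε) := by
    field_simp
  rw [e1] at hm
  have e2 : (kc ε - Real.sqrt 3 * ks ε) / kc ε = 1 - Real.sqrt 3 * ks ε * w := by
    rw [div_eq_mul_inv, ← hw]
    linear_combination hwc
  rw [e2] at hm
  have hm2 := hm.trans hhi
  rw [div_eq_mul_inv _ (kc ε), div_eq_mul_inv _ (kc ε), div_eq_mul_inv _ (kc ε), ← hw]
  set q := Real.sqrt 3 with hq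
  set c := kc ε with hcdef
  set s := ks ε with hsdef
  set v := kvk ε with hvdef
  set k := ksk ε with hkdef
  have e3 : (1 - q * s * w) * (q * k - v - q * s * κ1) =
      q * k - v - q * s * κ1 - 3 * ((1 + c) * v) * w + q * (k * (1 - c)) * w
        + 3 * (1 - c * c) * w * κ1 := by
    linear_combination (-s * w * k + s * s * w * κ1) * hq3 - 3 * w * i1 + q * w * i2
      + 3 * w * κ1 * i3
  rw [e3] at hm2
  linear_combination (1 / 2) * hm2 + (3 / 2 * v + q * k / 2 + 3 / 2 * c * κ1) * hwc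

/-- `a` and `k3lo` -/
theorem KC.LL {ε κ1 κ3 κ4 : ℝ} (h : KC ε κ1 κ3 κ4) (hε : 0 < ε) (hε1 : ε ≤ 1 / 10) :
    LLf ε κ1 ≤ 6 * kt ε * κ1 + 6 * kt ε ^ 3 * κ3 - 6 * kt ε ^ 4 * κ4
      - 1 / 10 ^ 6 * (κ1 + 1) := by
  obtain ⟨hc1, hc2⟩ := KCons_kc hε.le hε1
  have hc0 : 0 < kc ε := by linarith
  have ht : 0 < kt ε := Real.exp_pos _
  have hlo := h.k3lo
  have ha := h.a
  have hlo2 : (Real.sqrt 3 * ksk ε - kvk ε - Real.sqrt 3 * ks ε * κ1) / kc ε ≤ κ3 := by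
    rw [div_le_iff₀ hc0]
    linarith
  have hm1 := mul_le_mul_of_nonneg_left hlo2
    (show 0 ≤ 6 * kt ε ^ 3 + 12 * kt ε ^ 4 * kc ε by positivity)
  have hm2 := mul_le_mul_of_nonneg_left ha (show 0 ≤ 6 * kt ε ^ 4 by positivity)
  unfold LLf
  have e1 : (6 * kt ε ^ 3 + 12 * kt ε ^ 4 * kc ε) *
      ((Real.sqrt 3 * ksk ε - kvk ε - Real.sqrt 3 * ks ε * κ1) / kc ε) =
      (6 * kt ε ^ 3 + 12 * kt ε ^ 4 * kc ε) * (Real.sqrt 3 * ksk ε - kvk ε) / kc ε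
      - (6 * kt ε ^ 3 + 12 * kt ε ^ 4 * kc ε) * Real.sqrt 3 * (ks ε / kc ε) * κ1 := by
    ring
  rw [e1] at hm1
  linarith

/-- `LLf` is increasing in `κ` (`kt ε ≤ 0.17`, `tan πε ≤ 0.33`) -/
theorem LLf_mono {ε κ κ' : ℝ} (hε : 0 < ε) (hε1 : ε ≤ 1 / 10) (h0 : 0 ≤ κ) (h : κ ≤ κ') :
    LLf ε κ ≤ LLf ε κ' := by
  obtain ⟨hc1, hc2⟩ := KCons_kc hε.le hε1
  obtain ⟨hs1, hs2⟩ := KCons_ks hε.le hε1
  obtain ⟨hq1, hq2, hq3⟩ := KCons_sqrt
  have hc0 : 0 < kc ε := by linarith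
  have hpi1 := Real.pi_gt_d6
  have hpi2 := Real.pi_lt_d6
  have ht0 : 0 < kt ε := Real.exp_pos _
  have hqpos : 0 < Real.sqrt 3 := by linarith
  have hpq1 : 1.8 ≤ Real.pi / Real.sqrt 3 := by
    rw [le_div_iff₀ hqpos]
    nlinarith
  have hpq2 : Real.pi / Real.sqrt 3 ≤ 1.815 := by
    rw [div_le_iff₀ hqpos]
    nlinarith
  have ht1 : kt ε ≤ 1 / 5 := by
    unfold kt
    have h1 : -(Real.pi / Real.sqrt 3 * (1 + ε)) ≤ -1.8 := by nlinarith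
    have h2 : Real.exp (-1.8) ≤ 1 / 5 := by
      have h3 : (5 : ℝ) ≤ Real.exp 1.8 := by
        have h4 : (1 + 0.9 + 0.9 ^ 2 / 2 : ℝ) ≤ Real.exp 0.9 :=
          Real.quadratic_le_exp_of_nonneg (by norm_num)
        have h5 : Real.exp 1.8 = Real.exp 0.9 * Real.exp 0.9 := by
          rw [← Real.exp_add]
          norm_num
        rw [h5]
        nlinarith [Real.exp_pos (0.9 : ℝ)]
      rw [Real.exp_neg, ← one_div]
      exact one_div_le_one_div_of_le (by norm_num) h3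
    exact (Real.exp_le_exp.2 h1).trans h2
  have ht2 : 1 / 10 ≤ kt ε := by
    unfold kt
    have h1 : (-2 : ℝ) ≤ -(Real.pi / Real.sqrt 3 * (1 + ε)) := by nlinarith
    have h2 : (1 / 10 : ℝ) ≤ Real.exp (-2) := by
      have h3 : Real.exp 2 ≤ 10 := by
        have h5 : Real.exp 2 = Real.exp 1 * Real.exp 1 := by
          rw [← Real.exp_add]
          norm_num
        rw [h5]
        have := Real.exp_one_lt_d9
        nlinarith [Real.exp_pos (1 : ℝ)]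
      rw [Real.exp_neg, ← one_div]
      exact one_div_le_one_div_of_le (Real.exp_pos _) h3
    exact h2.trans (Real.exp_le_exp.2 h1)
  have htan1 : 0 ≤ ks ε / kc ε := div_nonneg hs1 hc0.le
  have htan : ks ε / kc ε ≤ 0.34 := by
    rw [div_le_iff₀ hc0]
    linarith
  set t := kt ε with htdef
  have hq4 : Real.sqrt 3 * (ks ε / kc ε) ≤ 0.6 := by nlinarith
  have hq5 : 0 ≤ Real.sqrt 3 * (ks ε / kc ε) := by positivity
  have t2 : t ^ 2 ≤ 1 / 25 := by nlinarith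
  have t3 : t ^ 3 ≤ 1 / 25 * t := by nlinarith [sq_nonneg t]
  have t4 : t ^ 4 ≤ 1 / 125 * t := by nlinarith [sq_nonneg t, pow_pos ht0 3]
  have t3' : 0 < t ^ 3 := by positivity
  have t4' : 0 < t ^ 4 := by positivity
  have hcoef : 0 ≤ 6 * t - 72 * t ^ 4 + 12 * t ^ 4 * kc ε
      - (6 * t ^ 3 + 12 * t ^ 4 * kc ε) * Real.sqrt 3 * (ks ε / kc ε) - 1 / 10 ^ 6 := by
    have h1 : (6 * t ^ 3 + 12 * t ^ 4 * kc ε) * Real.sqrt 3 * (ks ε / kc ε) ≤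
        (6 * t ^ 3 + 12 * t ^ 4) * 0.6 := by
      have h2 : 6 * t ^ 3 + 12 * t ^ 4 * kc ε ≤ 6 * t ^ 3 + 12 * t ^ 4 := by nlinarith
      calc (6 * t ^ 3 + 12 * t ^ 4 * kc ε) * Real.sqrt 3 * (ks ε / kc ε)
          = (6 * t ^ 3 + 12 * t ^ 4 * kc ε) * (Real.sqrt 3 * (ks ε / kc ε)) := by ring
        _ ≤ (6 * t ^ 3 + 12 * t ^ 4) * 0.6 :=
          mul_le_mul h2 hq4 hq5 (by positivity)
    have h3 : 0 ≤ 12 * t ^ 4 * kc ε := by positivity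
    linarith
  have hsq : κ ^ 2 ≤ κ' ^ 2 := by nlinarith
  have hA := mul_le_mul_of_nonneg_left h hcoef
  have hB := mul_le_mul_of_nonneg_left hsq (show 0 ≤ 36 * t ^ 4 * ε by positivity)
  unfold LLf
  rw [← htdef]
  linarith

end MP7e122f.R
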