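import Pool.Agent.Lib.MP_7e122f_anR.NDefs
import Pool.Agent.Lib.MP_7e122f_anR.JDefs
import Pool.Agent.Lib.MP_7e122f_anR.NumExp

/-!
# The lower bound for `δ = 1 + ε`, `0 < ε ≤ 0.07`: definitions

For a state `φ` of flux `1 + ε` write `φ = sig (1 - ε κ)`, `κ = kapF ε φ ≥ 0`.  The hexagonal
lattice of covolume `1/(1+ε)` has `y = (1+ε) y1`, `y1 = π/(2√3)`.
-/

namespace MP7e122f.R

open MP7e122f.Num (psr)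

noncomputable section

/-- `κ` with `φ = sig (1 - ε κ)` -/
def kapF (ε : ℝ) (φ : ℤ × ℤ → ℝ) (k : ℤ × ℤ) : ℝ := (1 - (sig k : ℝ) * φ k) / ε

structure KState (ε : ℝ) (κ : ℤ × ℤ → ℝ) : Prop where
  nonneg : ∀ k, 0 ≤ κ k
  le : ∀ k, κ k ≤ 2 / ε
  zero : κ (0, 0) = 0
  neg : ∀ k, κ (-k) = κ k
  rot : ∀ k, κ (e3 k) = κ k
  grow : ∀ k l, Real.sqrt (κ (k + l)) ≤ Real.sqrt (κ k) + Real.sqrt (κ l)
    + Real.pi * Real.sqrt (ε / 2) * |(wdg k l : ℝ)|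

/-- `cos πε`, `sin πε`, `(sin πε)/ε`, `(1 - cos πε)/ε` -/
def kc (ε : ℝ) : ℝ := Real.cos (Real.pi * ε)
def ks (ε : ℝ) : ℝ := Real.sin (Real.pi * ε)
def ksk (ε : ℝ) : ℝ := Real.sin (Real.pi * ε) / ε
def kvk (ε : ℝ) : ℝ := (1 - Real.cos (Real.pi * ε)) / ε
/-- `exp (-2y)`, `y = (1+ε) y1` -/
def kt (ε : ℝ) : ℝ := Real.exp (-(Real.pi / Real.sqrt 3 * (1 + ε)))

/-- constraints between `κ1 = κ(1,0)`, `κ3 = κ(1,1)`, `κ4 = κ(2,0)` -/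
structure KC (ε κ1 κ3 κ4 : ℝ) : Prop where
  h1 : 0 ≤ κ1
  h3 : 0 ≤ κ3
  h4 : 0 ≤ κ4
  a : κ4 ≤ 12 * κ1 - 2 * kc ε * (κ1 + κ3) - 6 * ε * κ1 ^ 2 - 4 * kvk ε
  b : 2 * Real.sqrt 3 * ksk ε + κ1 * (kc ε - Real.sqrt 3 * ks ε)
    - κ3 * (kc ε + Real.sqrt 3 * ks ε) ≤ κ4
  d : κ4 ≤ 2 * kvk ε + κ1 * (kc ε + Real.sqrt 3 * ks ε) + κ3 * (kc ε - Real.sqrt 3 * ks ε)

/-- lower bound of `(TS H f - Gq δ y1 y1 y1)/ε` as a function of `κ1` -/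
def LLf (ε κ : ℝ) : ℝ :=
  (6 * kt ε - 72 * kt ε ^ 4 + 12 * kt ε ^ 4 * kc ε
      - (6 * kt ε ^ 3 + 12 * kt ε ^ 4 * kc ε) * Real.sqrt 3 * (ks ε / kc ε)) * κ
    + (6 * kt ε ^ 3 + 12 * kt ε ^ 4 * kc ε) * (Real.sqrt 3 * ksk ε - kvk ε) / kc ε
    + 24 * kt ε ^ 4 * kvk ε + 36 * kt ε ^ 4 * ε * κ ^ 2 - 1 / 10 ^ 6 * (κ + 1)

/-- main part of `Gq (1+u) y1 y1 y1 / u` -/
def KHf (u : ℝ) : ℝ :=
  Real.pi / Real.sqrt 3 *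
    (6 * Real.exp (-(Real.pi / Real.sqrt 3)) * psr (-(Real.pi / Real.sqrt 3 * u))
      + 18 * Real.exp (-(Real.pi / Real.sqrt 3)) ^ 3 * psr (-(3 * (Real.pi / Real.sqrt 3 * u)))
      - 24 * Real.exp (-(Real.pi / Real.sqrt 3)) ^ 4 * psr (-(4 * (Real.pi / Real.sqrt 3 * u)))
      + 84 * Real.exp (-(Real.pi / Real.sqrt 3)) ^ 7 * psr (-(7 * (Real.pi / Real.sqrt 3 * u))))

def y1c : ℝ := Real.pi / (2 * Real.sqrt 3)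

/-- quadratic form of the weights -/
def Eq (y r p : ℝ) (k : ℤ × ℤ) : ℝ :=
  AA3 y r p * k.1 ^ 2 + AA1 y r p * k.2 ^ 2 + AA2 y r p * (k.1 + k.2) ^ 2

/-- `∑ sig (E e^{-E} - E_H e^{-E_H})`, `E_H = 2 y N` -/
def SG (y r p : ℝ) : ℝ :=
  ∑' k : ℤ × ℤ, (sig k : ℝ) * (Eq y r p k * Real.exp (-(Eq y r p k))
    - 2 * y * Nf k * Real.exp (-(2 * y * Nf k)))

/-- `(∑ x_i T_i)/(κ r²)` etc. -/
def X1 (y r p : ℝ) : ℝ :=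
  (xx1 r p * T1 y r p + xx2 r p * T2 y r p + xx3 r p * T3 y r p) / (kap p * r ^ 2)
def X3 (y r p : ℝ) : ℝ :=
  -((xx1 r p * O1 y r p + xx2 r p * O2 y r p + xx3 r p * O3 y r p) / (kap p * r ^ 2))
def X4 (y r p : ℝ) : ℝ :=
  (xx1 r p * T1 y r p ^ 4 + xx2 r p * T2 y r p ^ 4 + xx3 r p * T3 y r p ^ 4) / (kap p * r ^ 2)

def HH (y r p : ℝ) : ℝ := 2 * y * chh y r p

/-- main part of `SG/(κ r²)` -/
def GamN (y r p : ℝ) : ℝ :=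
  2 * Real.exp (-(2 * y)) * (X1 y r p - 3 * g0 y r p - HH y r p * D1 y r p)
    + 6 * Real.exp (-(2 * y)) ^ 3 * (X3 y r p - 3 * g0 y r p - HH y r p * D3 y r p)
    + 8 * Real.exp (-(2 * y)) ^ 4 * (HH y r p * D4 y r p - X4 y r p + 3 * g0 y r p)

/-- the tail of `SG/(κ r²)` -/
def GamR (y r p : ℝ) : ℝ :=
  (HH y r p - rho r p) * (458 * vpi y r p ^ 7 + 486 * vpi y r p ^ 9 + 3300 * vpi y r p ^ 13)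
    + 1 / 10 ^ 6

/-- lower bound of `∑ (w - w_H) sig κ / (κ r²)` -/
def PPf (y r p κ1 κ3 κ4 k7 : ℝ) : ℝ :=
  -(2 * Real.exp (-(2 * y)) * κ1 * D1 y r p) - 2 * Real.exp (-(2 * y)) ^ 3 * κ3 * D3 y r p
    + 2 * Real.exp (-(2 * y)) ^ 4 * κ4 * D4 y r p
    - 6 * k7 * (98 / 9 / (1 + 14 / 3 * rho r p)) * vpi y r p ^ 7
    - 486 * κ1 * vpi y r p ^ 9 - 20000 * vpi y r p ^ 12

/-- the facts about near optimal states on the hexagonal lattice of density `1 + ε` -/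
def KNear (ε k1l k1h k3h k4l k7h : ℝ) : Prop :=
  ∀ (y : ℝ) (H : Mat), y = Real.pi * (1 + ε) / (2 * Real.sqrt 3) → 0 < H.det →
    H.det = 1 / (1 + ε) → (∀ k, wt H k = cc y y y k) →
    ∃ η : ℝ, 0 < η ∧ ∀ f : L2, ‖f‖ = 1 → TS H f < aval H + η →
      k1l ≤ kapF ε (rav (st H f)) (1, 0) ∧ kapF ε (rav (st H f)) (1, 0) ≤ k1h ∧
      kapF ε (rav (st H f)) (1, 1) ≤ k3h ∧ k4l ≤ kapF ε (rav (st H f)) (2, 0) ∧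
      ∀ k, Nf k = 7 → kapF ε (rav (st H f)) k ≤ k7h

/-- lower bound for `aval H / ε` -/
def KLow (ε lb : ℝ) : Prop :=
  ∀ (y : ℝ) (H : Mat), y = Real.pi * (1 + ε) / (2 * Real.sqrt 3) → 0 < H.det →
    H.det = 1 / (1 + ε) → (∀ k, wt H k = cc y y y k) → ε * lb ≤ aval H

/-- the criterion in the nondegenerate region -/
def A1ok (ε k1l k1h k3h k4l k7h r1 p : ℝ) : Prop :=
  hh ((1 + ε) * y1c) ((1 + ε) * r1) p ≤ rho ((1 + ε) * r1) p ∧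
  vpi ((1 + ε) * y1c) ((1 + ε) * r1) p ≤ 22 / 100 ∧ ∃ G : ℝ, 0 ≤ G ∧
    (∀ σ, 1 ≤ σ → σ ≤ 1 + ε → hh (σ * y1c) (σ * r1) p ≤ rho (σ * r1) p ∧
      vpi (σ * y1c) (σ * r1) p ≤ 1 / 4 ∧
      G ≤ σ * (GamN (σ * y1c) (σ * r1) p - GamR (σ * y1c) (σ * r1) p)) ∧
    ∀ κ1 κ3 κ4, k1l ≤ κ1 → κ1 ≤ k1h → 0 ≤ κ3 → κ3 ≤ k3h → k4l ≤ κ4 →
      0 < G / (1 + ε) ^ 2 + PPf ((1 + ε) * y1c) ((1 + ε) * r1) p κ1 κ3 κ4 k7h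

end

end MP7e122f.R
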