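import Pool.Agent.Lib.MP_7e122f_anR.EDefs

namespace MP7e122f.R

noncomputable section

/-- the remainder in the second order expansion -/
def remA (A1 A2 A3 H y ρ x t ν t1 t2 t3 w1 w2 w3 u2 u3 : ℝ) : ℝ :=
  (3 * (2 * x ^ 7 * min 1 ((7 * ρ) ^ 2 / 2) + x ^ 9 * min 1 ((9 * ρ) ^ 2 / 2)
        + min 1 ((12 * ρ) ^ 2 / 2) * (x ^ 12 + 2.35 * x ^ 13 + 1.8 * x ^ 16 + 18 * x ^ 19))
      + 100 * (H - 2 * y) * t ^ 7)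
  + |ν| * (16 * (|Real.exp (-(4 * (A2 + A3))) - t ^ 4| * ((t1 - t3) + (t1 - t2))
        + |Real.exp (-(4 * (A3 + A1))) - t ^ 4| * ((t1 - t2) + (t2 - t3))
        + |Real.exp (-(4 * (A1 + A2))) - t ^ 4| * ((t2 - t3) + (t1 - t3)))
      + (t1 - t3) * (240 * x ^ 7 * min 1 (7 * (ρ + (H - 2 * y)))
        + 144 * x ^ 9 * min 1 (9 * (ρ + (H - 2 * y)))
        + 920 * x ^ 12 * min 1 (13 * (ρ + (H - 2 * y)))))
  + ν ^ 2 / 2 * (128 * t ^ 4 * (((t1 - t3) + (t1 - t2)) * ((t1 - t3) + (t1 - t2) + (t1 - t3))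
        + ((t1 - t2) + (t2 - t3)) * ((t1 - t2) + (t2 - t3) + (t1 - t3))
        + ((t2 - t3) + (t1 - t3)) * ((t2 - t3) + (t1 - t3) + (t1 - t3)))
        + 8736 * (t1 - t3) ^ 2 * t ^ 7)
  + 2 * ν ^ 2 * n2g w1 w2 w3 (t2 - t3) (t1 - t3) (t1 - t2) u2 u3
  + 4 / 3 * |ν| ^ 3 * n3v t1 t2 t3 u2 u3

end

end MP7e122f.R
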