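import Pool.Agent.Lib.MP_7e122f_anR.NDefs
import Pool.Agent.Lib.MP_7e122f_anR.RemA

namespace MP7e122f.R

private theorem NormB_kap (p : ℝ) : 0 < kap p := by
  unfold kap
  nlinarith [sq_nonneg (p - 1 / 2)]

private theorem NormB_hh {y r p : ℝ} (hy : 0 < y) :
    2 * y * chh y r p - 2 * y = hh y r p := by
  have hk := NormB_kap p
  have hc : 0 ≤ chh y r p := Real.sqrt_nonneg _
  have hc2 : chh y r p ^ 2 = 1 + kap p * r ^ 2 / (9 * y ^ 2) := by
    unfold chh
    exact Real.sq_sqrt (by positivity)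
  have hy0 : y ≠ 0 := hy.ne'
  have hc3 : y ^ 2 * chh y r p ^ 2 = y ^ 2 + kap p * r ^ 2 / 9 := by
    rw [hc2]
    field_simp
  unfold hh g0
  have h1 : y * (chh y r p + 1) ≠ 0 := by positivity
  rw [div_mul_eq_mul_div, eq_div_iff h1]
  have e : (2 * y * chh y r p - 2 * y) * (y * (chh y r p + 1)) =
      2 * (y ^ 2 * chh y r p ^ 2) - 2 * y ^ 2 := by ring
  rw [e, hc3]
  ring

/-- `K min(1/K, c) = min(1, c K)` -/
private theorem NormB_min {K c : ℝ} (hK : 0 < K) : min 1 (c * K) = K * min (1 / K) c := by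
  rw [mul_min_of_nonneg _ _ hK.le]
  congr 1
  · field_simp
  · ring

private theorem NormB_exp {y r p t : ℝ} (hy : 0 < y) (ht : t = Real.exp (-(2 * y)))
    (x T : ℝ) (hT : T = Real.exp (x - hh y r p)) :
    |Real.exp (-(4 * (2 * y * chh y r p - x))) - t ^ 4| = t ^ 4 * |T ^ 4 - 1| := by
  have e : Real.exp (-(4 * (2 * y * chh y r p - x))) = t ^ 4 * T ^ 4 := by
    rw [ht, hT, ← mul_pow, ← Real.exp_add, ← Real.exp_nat_mul]
    congr 1
    have := NormB_hh (y := y) (r := r) (p := p) hy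
    push_cast
    linear_combination 4 * this * (-1)
  rw [e]
  have ht0 : 0 < t := by rw [ht]; exact Real.exp_pos _
  have e2 : t ^ 4 * T ^ 4 - t ^ 4 = t ^ 4 * (T ^ 4 - 1) := by ring
  rw [e2, abs_mul, abs_of_pos (by positivity)]

private theorem NormB_n2g (c s O1 O2 O3 b1 b2 b3 u2 u3 : ℝ) :
    n2g (c * O1) (c * O2) (c * O3) (s * b1) (s * b2) (s * b3) u2 u3 =
      c * s ^ 2 * n2g O1 O2 O3 b1 b2 b3 u2 u3 := by
  unfold n2g nHp nHm nR nS
  ring

private theorem NormB_n3g (t r D T1 T2 T3 b1 b2 b3 g1 g2 g3 u2 u3 : ℝ) :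
    n3g (t ^ 2 * (r ^ 2 * D)) (t * T1) (t * T2) (t * T3) (t * r * b1) (t * r * b2) (t * r * b3)
      (t ^ 2 * r * g1) (t ^ 2 * r * g2) (t ^ 2 * r * g3) u2 u3 =
      t ^ 4 * r ^ 3 * n3g D T1 T2 T3 b1 b2 b3 g1 g2 g3 u2 u3 := by
  unfold n3g nHp nHm nR nS nW
  ring

/-- scaling of the remainder: `remA = t κ r² remN` with `ν = n / t` -/
theorem remA_eq {y r p n u2 u3 : ℝ} (hy : 0 < y) (hr : 0 < r) (hp0 : 0 ≤ p) (hp1 : p ≤ 1)
    (hn : 0 ≤ n) (t : ℝ) (ht : t = Real.exp (-(2 * y))) :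
    remA (AA1 y r p) (AA2 y r p) (AA3 y r p) (2 * y * chh y r p) y (rho r p) (vpi y r p) t (n / t)
      (t * T1 y r p) (t * T2 y r p) (t * T3 y r p)
      (t ^ 3 * O1 y r p) (t ^ 3 * O2 y r p) (t ^ 3 * O3 y r p) u2 u3
      = t * (kap p * r ^ 2) * remN y r p n u2 u3 := by
  have hk := NormB_kap p
  have hk0 : kap p ≠ 0 := hk.ne'
  have hr0 : r ≠ 0 := hr.ne'
  have ht0 : 0 < t := by rw [ht]; exact Real.exp_pos _
  have ht0' : t ≠ 0 := ht0.ne'
  have hK : 0 < kap p * r ^ 2 := mul_pos hk (pow_pos hr 2)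
  have hhh := NormB_hh (y := y) (r := r) (p := p) hy
  have hrho2 : rho r p ^ 2 = 4 / 9 * (kap p * r ^ 2) := by
    unfold rho
    rw [mul_pow, mul_pow, Real.sq_sqrt hk.le]
    ring
  -- differences
  have d13 : t * T1 y r p - t * T3 y r p = t * r * bb2 y r p := by
    unfold bb2
    field_simp
  have d12 : t * T1 y r p - t * T2 y r p = t * r * bb3 y r p := by
    unfold bb3
    field_simp
  have d23 : t * T2 y r p - t * T3 y r p = t * r * bb1 y r p := by
    unfold bb1
    field_simp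
  -- part 0
  have p0 : 3 * (2 * vpi y r p ^ 7 * min 1 ((7 * rho r p) ^ 2 / 2)
        + vpi y r p ^ 9 * min 1 ((9 * rho r p) ^ 2 / 2)
        + min 1 ((12 * rho r p) ^ 2 / 2) * (vpi y r p ^ 12 + 2.35 * vpi y r p ^ 13
          + 1.8 * vpi y r p ^ 16 + 18 * vpi y r p ^ 19))
      + 100 * (2 * y * chh y r p - 2 * y) * t ^ 7 = t * (kap p * r ^ 2) * rem0 y r p := by
    have m7 : min 1 ((7 * rho r p) ^ 2 / 2) =
        kap p * r ^ 2 * min (1 / (kap p * r ^ 2)) (98 / 9) := by
      rw [← NormB_min hK]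
      congr 1
      rw [mul_pow, hrho2]
      ring
    have m9 : min 1 ((9 * rho r p) ^ 2 / 2) =
        kap p * r ^ 2 * min (1 / (kap p * r ^ 2)) 18 := by
      rw [← NormB_min hK]
      congr 1
      rw [mul_pow, hrho2]
      ring
    have m12 : min 1 ((12 * rho r p) ^ 2 / 2) =
        kap p * r ^ 2 * min (1 / (kap p * r ^ 2)) 32 := by
      rw [← NormB_min hK]
      congr 1
      rw [mul_pow, hrho2]
      ring
    rw [m7, m9, m12, hhh]
    unfold rem0 hh
    rw [← ht]
    field_simp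
  -- part 1
  have p1 : |n / t| * (16 * (|Real.exp (-(4 * (AA2 y r p + AA3 y r p))) - t ^ 4|
          * ((t * T1 y r p - t * T3 y r p) + (t * T1 y r p - t * T2 y r p))
        + |Real.exp (-(4 * (AA3 y r p + AA1 y r p))) - t ^ 4|
          * ((t * T1 y r p - t * T2 y r p) + (t * T2 y r p - t * T3 y r p))
        + |Real.exp (-(4 * (AA1 y r p + AA2 y r p))) - t ^ 4|
          * ((t * T2 y r p - t * T3 y r p) + (t * T1 y r p - t * T3 y r p)))
      + (t * T1 y r p - t * T3 y r p) *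
        (240 * vpi y r p ^ 7 * min 1 (7 * (rho r p + (2 * y * chh y r p - 2 * y)))
        + 144 * vpi y r p ^ 9 * min 1 (9 * (rho r p + (2 * y * chh y r p - 2 * y)))
        + 920 * vpi y r p ^ 12 * min 1 (13 * (rho r p + (2 * y * chh y r p - 2 * y)))))
      = t * (kap p * r ^ 2) * rem1 y r p n := by
    have a1 : AA2 y r p + AA3 y r p = 2 * y * chh y r p - xx1 r p := by
      unfold AA2 AA3 xx1 xx2 xx3
      ring
    have a2 : AA3 y r p + AA1 y r p = 2 * y * chh y r p - xx2 r p := by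
      unfold AA1 AA3 xx1 xx2 xx3
      ring
    have a3 : AA1 y r p + AA2 y r p = 2 * y * chh y r p - xx3 r p := by
      unfold AA1 AA2 xx1 xx2 xx3
      ring
    have mm : ∀ c : ℝ, min 1 (c * (rho r p + (2 * y * chh y r p - 2 * y))) =
        r * min (1 / r) (c * (2 / 3 * Real.sqrt (kap p) + g0 y r p * kap p * r)) := by
      intro c
      rw [← NormB_min hr, hhh]
      congr 1
      unfold rho hh
      ring
    rw [a1, a2, a3, NormB_exp hy ht (xx1 r p) (T1 y r p) rfl,
      NormB_exp hy ht (xx2 r p) (T2 y r p) rfl, NormB_exp hy ht (xx3 r p) (T3 y r p) rfl,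
      mm, mm, mm, d13, d12, d23, abs_of_nonneg (div_nonneg hn ht0.le)]
    unfold rem1
    rw [← ht]
    field_simp
  -- part 2
  have p2 : (n / t) ^ 2 / 2 * (128 * t ^ 4 *
        (((t * T1 y r p - t * T3 y r p) + (t * T1 y r p - t * T2 y r p))
            * ((t * T1 y r p - t * T3 y r p) + (t * T1 y r p - t * T2 y r p)
              + (t * T1 y r p - t * T3 y r p))
        + ((t * T1 y r p - t * T2 y r p) + (t * T2 y r p - t * T3 y r p))
            * ((t * T1 y r p - t * T2 y r p) + (t * T2 y r p - t * T3 y r p)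
              + (t * T1 y r p - t * T3 y r p))
        + ((t * T2 y r p - t * T3 y r p) + (t * T1 y r p - t * T3 y r p))
            * ((t * T2 y r p - t * T3 y r p) + (t * T1 y r p - t * T3 y r p)
              + (t * T1 y r p - t * T3 y r p)))
        + 8736 * (t * T1 y r p - t * T3 y r p) ^ 2 * t ^ 7)
      = t * (kap p * r ^ 2) * rem2 y r p n := by
    rw [d13, d12, d23]
    unfold rem2
    rw [← ht]
    field_simp
    ring
  -- part 2b
  have p2b : 2 * (n / t) ^ 2 * n2g (t ^ 3 * O1 y r p) (t ^ 3 * O2 y r p) (t ^ 3 * O3 y r p)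
      (t * T2 y r p - t * T3 y r p) (t * T1 y r p - t * T3 y r p) (t * T1 y r p - t * T2 y r p)
      u2 u3 = t * (kap p * r ^ 2) * rem2b y r p n u2 u3 := by
    rw [d13, d12, d23, NormB_n2g]
    unfold rem2b
    rw [← ht]
    field_simp
  -- part 3
  have p3 : 4 / 3 * |n / t| ^ 3 * n3v (t * T1 y r p) (t * T2 y r p) (t * T3 y r p) u2 u3
      = t * (kap p * r ^ 2) * rem3 y r p n u2 u3 := by
    have eD : Dq (t * T1 y r p) (t * T2 y r p) (t * T3 y r p) =
        t ^ 2 * (r ^ 2 * (kap p * Dl y r p)) := by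
      unfold Dl Dq
      field_simp
    have g1 : ga1 (t * T1 y r p) (t * T2 y r p) (t * T3 y r p) = t ^ 2 * r * gg1 y r p := by
      unfold gg1 ga1
      field_simp
    have g2 : ga2 (t * T1 y r p) (t * T2 y r p) (t * T3 y r p) = t ^ 2 * r * gg2 y r p := by
      have e : ga2 (t * T1 y r p) (t * T2 y r p) (t * T3 y r p) =
          t ^ 2 * ga2 (T1 y r p) (T2 y r p) (T3 y r p) := by
        unfold ga2
        rw [← abs_of_pos (pow_pos ht0 2), ← abs_mul]
        congr 1
        ring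
      rw [e]
      unfold gg2
      field_simp
    have g3 : ga3 (t * T1 y r p) (t * T2 y r p) (t * T3 y r p) = t ^ 2 * r * gg3 y r p := by
      unfold gg3 ga3
      field_simp
    unfold n3v
    rw [eD, g1, g2, g3, d13, d12, d23, NormB_n3g, abs_of_nonneg (div_nonneg hn ht0.le)]
    unfold rem3
    field_simp
  unfold remA remN
  rw [p0, p1, p2, p2b, p3]
  ring

end MP7e122f.R
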