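import Pool.Agent.Lib.MP_7e122f_anR.KDefs
import Pool.Agent.Lib.MP_7e122f_anR.TPb
import Pool.Agent.Lib.MP_7e122f_anR.NormA
import Pool.Agent.Lib.MP_7e122f_anR.NormB

/-!
# Lower bound of `SG`

`E(k) = N H + L(k)` with `L(k) = ∑ x_i n_i²`, `|L| ≤ N ρ`, and for the three rotations
`∑ L = 0`, `∑ L² = (2/3) N² κ r² = (3/2) N² ρ²` (see `TPb`).  `f(E) = E e^{-E}` is decreasing for
`E ≥ 1`, `f'' = (E-2) e^{-E}` is `≥ 0` for `E ≥ 2`, and `f''(E) ≤ E e^{-E}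
≤ N (H-ρ) ϖ^N` on `[N(H-ρ), N(H+ρ)]` (`ϖ = e^{-(H-ρ)} ≤ 1/4`, so `N(H-ρ) ≥ 9` for `N ≥ 7`).
Per orbit of three vectors, `f(2yN) ≥ f(NH)` (`H ≥ 2y`):
* `sig = -1`: `-(∑ f(E) - 3 f(2yN)) ≥ -(∑ f(E) - 3 f(NH)) ≥ -(1/3) N³ κ r² (H-ρ) ϖ^N`;
* `sig = 1`: `∑ f(E) - 3 f(2yN) ≥ 3 (f(NH) - f(2yN)) ≥ -3 N h (2yN) e^{-2yN}`, `h = H - 2y
  = g0 κ r²`.
The shells `0, 1, 3, 4` give exactly `κ r² GamN` (`E(u_i) = H - x_i`, `E(v_i) = 3(H + x_i)`,
`E(2u_i) = 4(H - x_i)`); `N = 7`: 4 orbits, `(4/3) 343 ≤ 458`; `N = 9`: 2 orbits,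
`(2/3) 729 = 486`; `N = 13` (4 orbits, `2929`), `19, 21, 25, ...`: together `≤ 3300 ϖ^13`;
`N = 12, 16, 28, ...` (`sig = 1`): together `≥ -1e-6 κ r²` (`g0 ≤ 0.13`, `e^{-2y} ≤ 0.17`).
-/

namespace MP7e122f.R

/-- `f(E) = E e^{-E}` -/
private noncomputable def kgf (E : ℝ) : ℝ := E * Real.exp (-E)

private noncomputable def kgf' (E : ℝ) : ℝ := (1 - E) * Real.exp (-E)

private theorem kgf_deriv (E : ℝ) : HasDerivAt kgf (kgf' E) E := by
  have h1 : HasDerivAt (fun u : ℝ => u) 1 E := hasDerivAt_id E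
  have h2 : HasDerivAt (fun u : ℝ => Real.exp (-u)) (Real.exp (-E) * (-1)) E :=
    ((hasDerivAt_id E).neg).exp
  refine (h1.mul h2).congr_deriv ?_
  unfold kgf'
  ring

private theorem kgf'_deriv (E : ℝ) : HasDerivAt kgf' ((E - 2) * Real.exp (-E)) E := by
  have h1 : HasDerivAt (fun u : ℝ => 1 - u) (-1) E := (hasDerivAt_id E).const_sub 1
  have h2 : HasDerivAt (fun u : ℝ => Real.exp (-u)) (Real.exp (-E) * (-1)) E :=
    ((hasDerivAt_id E).neg).exp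
  refine (h1.mul h2).congr_deriv ?_
  ring

/-- tangent line inequality -/
private theorem kg_tangent {F F' : ℝ → ℝ} {c : ℝ} (hF : ∀ u, HasDerivAt F (F' u) u)
    (hm : MonotoneOn F' (Set.Ici c)) {x z : ℝ} (hx : c ≤ x) (hz : c ≤ z) :
    F x + F' x * (z - x) ≤ F z := by
  rcases lt_trichotomy x z with h | h | h
  · obtain ⟨ξ, hξ, he⟩ := exists_hasDerivAt_eq_slope F F' h
      (fun u _ => (hF u).continuousAt.continuousWithinAt) (fun u _ => hF u)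
    have h1 := hm (Set.mem_Ici.2 hx) (Set.mem_Ici.2 (hx.trans hξ.1.le)) hξ.1.le
    have h2 : 0 < z - x := by linarith
    rw [eq_div_iff h2.ne'] at he
    nlinarith
  · subst h
    simp
  · obtain ⟨ξ, hξ, he⟩ := exists_hasDerivAt_eq_slope F F' h
      (fun u _ => (hF u).continuousAt.continuousWithinAt) (fun u _ => hF u)
    have h1 := hm (Set.mem_Ici.2 (hz.trans hξ.1.le)) (Set.mem_Ici.2 hx) hξ.2.le
    have h2 : 0 < x - z := by linarith
    rw [eq_div_iff h2.ne'] at he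
    nlinarith

/-- `u e^{-u} ≤ L e^{-L}` for `1 ≤ L ≤ u` -/
private theorem kgf_anti {L u : ℝ} (hL : 1 ≤ L) (hu : L ≤ u) : kgf u ≤ kgf L := by
  unfold kgf
  have h1 : u ≤ L * Real.exp (u - L) := by
    have h2 := Real.add_one_le_exp (u - L)
    have h3 : L * (u - L + 1) ≤ L * Real.exp (u - L) :=
      mul_le_mul_of_nonneg_left h2 (by linarith)
    nlinarith
  have h4 := mul_le_mul_of_nonneg_right h1 (Real.exp_pos (-u)).le
  refine h4.trans (le_of_eq ?_)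
  rw [mul_assoc, ← Real.exp_add]
  congr 2
  ring

private theorem kgf_mono : MonotoneOn kgf' (Set.Ici 2) := by
  apply monotoneOn_of_deriv_nonneg (convex_Ici 2)
  · exact fun u _ => (kgf'_deriv u).continuousAt.continuousWithinAt
  · exact fun u _ => (kgf'_deriv u).differentiableAt.differentiableWithinAt
  · intro u hu
    rw [interior_Ici] at hu
    rw [(kgf'_deriv u).deriv]
    exact mul_nonneg (by linarith [Set.mem_Ioi.1 hu]) (Real.exp_pos _).le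

/-- convexity -/
private theorem kgf_lower {b z : ℝ} (hb : 2 ≤ b) (hz : 2 ≤ z) :
    kgf b + kgf' b * (z - b) ≤ kgf z :=
  kg_tangent kgf_deriv kgf_mono hb hz

/-- second order upper bound -/
private theorem kgf_upper {L b z : ℝ} (hL : 1 ≤ L) (hb : L ≤ b) (hz : L ≤ z) :
    kgf z ≤ kgf b + kgf' b * (z - b) + kgf L * (z - b) ^ 2 / 2 := by
  have hF : ∀ u : ℝ, HasDerivAt (fun u => kgf L * u ^ 2 / 2 - kgf u)
      (kgf L * u - kgf' u) u := by
    intro u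
    have h3 : HasDerivAt (fun u : ℝ => kgf L * u ^ 2 / 2) (kgf L * (2 * u ^ 1) / 2) u := by
      simpa using ((hasDerivAt_pow 2 u).const_mul (kgf L)).div_const 2
    refine (h3.sub (kgf_deriv u)).congr_deriv ?_
    ring
  have hF' : ∀ u : ℝ, HasDerivAt (fun u => kgf L * u - kgf' u)
      (kgf L - (u - 2) * Real.exp (-u)) u := by
    intro u
    have h3 : HasDerivAt (fun u : ℝ => kgf L * u) (kgf L) u := by
      simpa using (hasDerivAt_id u).const_mul (kgf L)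
    exact h3.sub (kgf'_deriv u)
  have hm : MonotoneOn (fun u => kgf L * u - kgf' u) (Set.Ici L) := by
    apply monotoneOn_of_deriv_nonneg (convex_Ici L)
    · exact fun u _ => (hF' u).continuousAt.continuousWithinAt
    · exact fun u _ => (hF' u).differentiableAt.differentiableWithinAt
    · intro u hu
      rw [interior_Ici] at hu
      rw [(hF' u).deriv]
      have h4 := kgf_anti hL (le_of_lt (Set.mem_Ioi.1 hu))
      have h5 : kgf u = u * Real.exp (-u) := rfl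
      have h6 := (Real.exp_pos (-u))
      rw [h5] at h4
      nlinarith
  have h : kgf L * b ^ 2 / 2 - kgf b + (kgf L * b - kgf' b) * (z - b) ≤
      kgf L * z ^ 2 / 2 - kgf z := kg_tangent hF hm hb hz
  have h9 : kgf L * (z - b) ^ 2 / 2 = kgf L * z ^ 2 / 2 - kgf L * b ^ 2 / 2
      - kgf L * b * (z - b) := by ring
  have h10 : (kgf L * b - kgf' b) * (z - b) = kgf L * b * (z - b) - kgf' b * (z - b) := by ring
  linarith

private theorem kg_Nf_real (k : ℤ × ℤ) :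
    (Nf k : ℝ) = (k.1 : ℝ) ^ 2 + k.1 * k.2 + (k.2 : ℝ) ^ 2 := by
  unfold Nf; push_cast; ring

private theorem kg_Nf_nonneg (k : ℤ × ℤ) : 0 ≤ (Nf k : ℝ) := by
  rw [kg_Nf_real]
  nlinarith [sq_nonneg ((k.1 : ℝ) + k.2), sq_nonneg (k.1 : ℝ), sq_nonneg (k.2 : ℝ)]

private theorem kg_toNat (k : ℤ × ℤ) : (((Nf k).toNat : ℕ) : ℝ) = (Nf k : ℝ) := by
  have h : 0 ≤ Nf k := by exact_mod_cast kg_Nf_nonneg k
  have h2 : (((Nf k).toNat : ℕ) : ℤ) = Nf k := Int.toNat_of_nonneg h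
  exact_mod_cast h2

/-- everything about the parameters -/
private theorem kg_basic {y r p : ℝ} (hy : 0.9 ≤ y) (hr : 0 < r) (hp0 : 0 ≤ p)
    (hp1 : p ≤ 1) (hle : hh y r p ≤ rho r p) (hv : vpi y r p ≤ 1 / 4) :
    0 ≤ rho r p ∧ 1 ≤ HH y r p - rho r p ∧ HH y r p - 2 * y = hh y r p ∧ 0 ≤ hh y r p ∧
      HH y r p - rho r p ≤ 2 * y ∧ rho r p ^ 2 = 4 / 9 * (kap p * r ^ 2) ∧
      hh y r p = g0 y r p * (kap p * r ^ 2) := by
  have hy0 : 0 < y := by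
    have : (0 : ℝ) < 0.9 := by norm_num
    linarith
  obtain ⟨b1, b2, b3, b4, b5, b6, b7⟩ := AA_basic hy0 hr hp0 hp1
  have hH : HH y r p = 2 * y * chh y r p := rfl
  have hr0 : 0 ≤ rho r p := by
    unfold rho
    positivity
  have h1 : 1 ≤ HH y r p - rho r p := by
    have h2 : Real.exp (-(HH y r p - rho r p)) ≤ 1 / 4 := hv
    have h3 : (1 / 4 : ℝ) < Real.exp (-1) := by
      rw [Real.exp_neg, ← one_div]
      apply one_div_lt_one_div_of_lt (Real.exp_pos 1)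
      have := Real.exp_one_lt_d9
      linarith
    have h4 := Real.exp_lt_exp.1 (lt_of_le_of_lt h2 h3)
    linarith
  have hhd : hh y r p = g0 y r p * (kap p * r ^ 2) := rfl
  refine ⟨hr0, h1, by rw [hH]; exact b4, ?_, ?_, ?_, hhd⟩
  · rw [hhd]
    positivity
  · rw [hH]
    linarith
  · unfold rho
    rw [mul_pow, mul_pow, Real.sq_sqrt b6.le]
    ring

private theorem kg_vpow (y r p : ℝ) (k : ℤ × ℤ) :
    vpi y r p ^ (Nf k).toNat = Real.exp (-(Nf k * (HH y r p - rho r p))) := by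
  unfold vpi
  rw [← Real.exp_nat_mul, kg_toNat]
  congr 1
  unfold HH
  ring

private theorem kg_energy {y r p : ℝ} (hy : 0.9 ≤ y) (hr : 0 < r) (hp0 : 0 ≤ p)
    (hp1 : p ≤ 1) (hle : hh y r p ≤ rho r p) (hv : vpi y r p ≤ 1 / 4) (k : ℤ × ℤ) :
    |Eq y r p k - HH y r p * Nf k| ≤ rho r p * Nf k := by
  have P := TP_norm hy hr hp0 hp1 (by linarith) hle
  exact P.energy k

private theorem kg_e3 (k : ℤ × ℤ) : Nf (e3 k) = Nf k := by
  unfold Nf e3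
  simp only [Equiv.coe_fn_mk]
  ring

private theorem kg_e3s (k : ℤ × ℤ) : Nf (e3.symm k) = Nf k := by
  unfold Nf e3
  simp only [Equiv.coe_fn_symm_mk]
  ring

/-- sum and sum of squares of the deviations over an orbit -/
private theorem kg_orb {y r p : ℝ} (k : ℤ × ℤ) :
    (Eq y r p k - HH y r p * Nf k) + (Eq y r p (e3 k) - HH y r p * Nf k)
      + (Eq y r p (e3.symm k) - HH y r p * Nf k) = 0 ∧
    (Eq y r p k - HH y r p * Nf k) ^ 2 + (Eq y r p (e3 k) - HH y r p * Nf k) ^ 2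
      + (Eq y r p (e3.symm k) - HH y r p * Nf k) ^ 2 = 2 / 3 * (Nf k) ^ 2 * (kap p * r ^ 2) := by
  obtain ⟨c, hc⟩ : ∃ c, c = y * chh y r p := ⟨_, rfl⟩
  have hH : HH y r p = 2 * c := by unfold HH; rw [hc]; ring
  rw [hH, kg_Nf_real]
  unfold Eq AA1 AA2 AA3 xx1 xx2 xx3 e3 kap
  rw [← hc]
  simp only [Equiv.coe_fn_mk, Equiv.coe_fn_symm_mk]
  push_cast
  constructor <;> ring

theorem summable_SG {y r p : ℝ} (hy : 0.9 ≤ y) (hy2 : y ≤ 1.1) (hr : 0 < r) (hp0 : 0 ≤ p)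
    (hp1 : p ≤ 1) (hle : hh y r p ≤ rho r p) (hv : vpi y r p ≤ 1 / 4) :
    Summable fun k : ℤ × ℤ => (sig k : ℝ) * (Eq y r p k * Real.exp (-(Eq y r p k))
      - 2 * y * Nf k * Real.exp (-(2 * y * Nf k))) := by
  obtain ⟨c1, c2, c3, c4, c5, c6, c7⟩ := kg_basic hy hr hp0 hp1 hle hv
  have hy0 : 0 < y := by
    have : (0 : ℝ) < 0.9 := by norm_num
    linarith
  obtain ⟨D, hD⟩ : ∃ D, D = HH y r p - rho r p := ⟨_, rfl⟩
  rw [← hD] at c2 c5
  -- the two values are between 0 and `N D ϖ^N`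
  have hval : ∀ (k : ℤ × ℤ) (E : ℝ), D * Nf k ≤ E → (Nf k = 0 → E = 0) →
      0 ≤ E * Real.exp (-E) ∧ E * Real.exp (-E) ≤ Nf k * D * vpi y r p ^ (Nf k).toNat := by
    intro k E hE h0
    have hN := kg_Nf_nonneg k
    have hDN : 0 ≤ D * Nf k := mul_nonneg (by linarith) hN
    refine ⟨mul_nonneg (hDN.trans hE) (Real.exp_pos _).le, ?_⟩
    by_cases hk : Nf k = 0
    · rw [h0 hk, hk]
      simp
    · have hk1 : 1 ≤ Nf k := by
        have : 0 ≤ Nf k := by exact_mod_cast hN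
        omega
      have hk1' : (1 : ℝ) ≤ Nf k := by exact_mod_cast hk1
      have hL : 1 ≤ D * Nf k := by nlinarith
      have h1 := kgf_anti hL hE
      unfold kgf at h1
      rw [kg_vpow, ← hD]
      calc E * Real.exp (-E) ≤ D * Nf k * Real.exp (-(D * Nf k)) := h1
        _ = Nf k * D * Real.exp (-(Nf k * D)) := by rw [mul_comm D]
  have hpt : ∀ k : ℤ × ℤ, ‖(sig k : ℝ) * (Eq y r p k * Real.exp (-(Eq y r p k))
      - 2 * y * Nf k * Real.exp (-(2 * y * Nf k)))‖ ≤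
      D * ((3 / 4) ^ k.1.natAbs * (3 / 4) ^ k.2.natAbs) := by
    intro k
    have hN := kg_Nf_nonneg k
    have hE := kg_energy hy hr hp0 hp1 hle hv k
    have h1 := hval k (Eq y r p k) (by
      have := (abs_le.1 hE).1
      rw [hD]
      linarith) (by
      intro h0
      rw [h0] at hE
      simpa using hE)
    have h2 := hval k (2 * y * Nf k) (by
      exact mul_le_mul_of_nonneg_right c5 hN) (by
      intro h0
      rw [h0]
      simp)
    have hs : |(sig k : ℝ)| = 1 := by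
      unfold sig
      split_ifs <;> simp
    rw [norm_mul, Real.norm_eq_abs, Real.norm_eq_abs, hs, one_mul]
    have h3 : |Eq y r p k * Real.exp (-(Eq y r p k)) - 2 * y * Nf k * Real.exp (-(2 * y * Nf k))|
        ≤ Nf k * D * vpi y r p ^ (Nf k).toNat := by
      rw [abs_le]
      constructor <;> linarith [h1.1, h1.2, h2.1, h2.2]
    refine h3.trans ?_
    have hv0 : 0 < vpi y r p := by unfold vpi; exact Real.exp_pos _
    obtain ⟨n, hn⟩ : ∃ n : ℕ, n = (Nf k).toNat := ⟨_, rfl⟩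
    have hnN : (n : ℝ) = Nf k := by rw [hn, kg_toNat]
    rw [← hn, ← hnN]
    have h4 : vpi y r p ^ n ≤ (1 / 4) ^ n := pow_le_pow_left₀ hv0.le hv n
    have h5 : (n : ℝ) ≤ 2 ^ n := by exact_mod_cast (Nat.lt_two_pow_self).le
    have h6 : (n : ℝ) * vpi y r p ^ n ≤ (9 / 16) ^ n := by
      calc (n : ℝ) * vpi y r p ^ n ≤ 2 ^ n * (1 / 4) ^ n :=
            mul_le_mul h5 h4 (by positivity) (by positivity)
        _ = (1 / 2) ^ n := by rw [← mul_pow]; norm_num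
        _ ≤ (9 / 16) ^ n := pow_le_pow_left₀ (by norm_num) (by norm_num) n
    have h7 : ((9 : ℝ) / 16) ^ n = (3 / 4) ^ (2 * n) := by rw [pow_mul]; norm_num
    have h8 : k.1.natAbs + k.2.natAbs ≤ 2 * n := by
      have e1 : (k.1.natAbs : ℤ) ^ 2 = k.1 ^ 2 := Int.natAbs_sq _
      have e2 : (k.2.natAbs : ℤ) ^ 2 = k.2 ^ 2 := Int.natAbs_sq _
      have e3 : (n : ℤ) = k.1 ^ 2 + k.1 * k.2 + k.2 ^ 2 := by
        have : ((n : ℤ) : ℝ) = ((Nf k : ℤ) : ℝ) := by push_cast; exact hnN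
        have h := Int.cast_injective this
        rw [h]
        rfl
      have hq1 : (k.1.natAbs : ℤ) ≤ (k.1.natAbs : ℤ) ^ 2 := by
        rcases Nat.eq_zero_or_pos k.1.natAbs with h | h
        · rw [h]; simp
        · have : (1 : ℤ) ≤ k.1.natAbs := by exact_mod_cast h
          nlinarith
      have hq2 : (k.2.natAbs : ℤ) ≤ (k.2.natAbs : ℤ) ^ 2 := by
        rcases Nat.eq_zero_or_pos k.2.natAbs with h | h
        · rw [h]; simp
        · have : (1 : ℤ) ≤ k.2.natAbs := by exact_mod_cast h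
          nlinarith
      have h9 : (k.1.natAbs : ℤ) + k.2.natAbs ≤ 2 * n := by
        rw [e3]
        nlinarith [sq_nonneg (k.1 + k.2)]
      exact_mod_cast h9
    have h10 : ((3 : ℝ) / 4) ^ (2 * n) ≤ (3 / 4) ^ (k.1.natAbs + k.2.natAbs) :=
      pow_le_pow_of_le_one (by norm_num) (by norm_num) h8
    rw [← pow_add]
    have hD0 : 0 ≤ D := by linarith
    calc (n : ℝ) * D * vpi y r p ^ n = D * ((n : ℝ) * vpi y r p ^ n) := by ring
      _ ≤ D * (3 / 4) ^ (k.1.natAbs + k.2.natAbs) :=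
        mul_le_mul_of_nonneg_left (by rw [h7] at h6; exact h6.trans h10) hD0
  exact Summable.of_norm_bounded
    ((hasSum_prod_geom (3 / 4) (by norm_num) (by norm_num)).summable.mul_left D) hpt

/-- one orbit, `sig = -1` -/
theorem orbit_f_upper {y r p : ℝ} (hy : 0.9 ≤ y) (hy2 : y ≤ 1.1) (hr : 0 < r) (hp0 : 0 ≤ p)
    (hp1 : p ≤ 1) (hle : hh y r p ≤ rho r p) (hv : vpi y r p ≤ 1 / 4) (k : ℤ × ℤ)
    (hk : 7 ≤ Nf k) :
    Eq y r p k * Real.exp (-(Eq y r p k)) + Eq y r p (e3 k) * Real.exp (-(Eq y r p (e3 k)))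
      + Eq y r p (e3.symm k) * Real.exp (-(Eq y r p (e3.symm k)))
      - 3 * (2 * y * Nf k * Real.exp (-(2 * y * Nf k))) ≤
      1 / 3 * (Nf k) ^ 3 * (kap p * r ^ 2) * (HH y r p - rho r p)
        * vpi y r p ^ (Nf k).toNat := by
  obtain ⟨c1, c2, c3, c4, c5, c6, c7⟩ := kg_basic hy hr hp0 hp1 hle hv
  obtain ⟨o1, o2⟩ := kg_orb (y := y) (r := r) (p := p) k
  have e1 := kg_energy hy hr hp0 hp1 hle hv k
  have e2 := kg_energy hy hr hp0 hp1 hle hv (e3 k)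
  have e3' := kg_energy hy hr hp0 hp1 hle hv (e3.symm k)
  rw [kg_e3] at e2
  rw [kg_e3s] at e3'
  have hN7 : (7 : ℝ) ≤ Nf k := by exact_mod_cast hk
  have hy0 : (0.9 : ℝ) ≤ y := hy
  rw [kg_vpow]
  obtain ⟨N, hN⟩ : ∃ N : ℝ, N = Nf k := ⟨_, rfl⟩
  obtain ⟨E1, hE1⟩ : ∃ E : ℝ, E = Eq y r p k := ⟨_, rfl⟩
  obtain ⟨E2, hE2⟩ : ∃ E : ℝ, E = Eq y r p (e3 k) := ⟨_, rfl⟩
  obtain ⟨E3, hE3⟩ : ∃ E : ℝ, E = Eq y r p (e3.symm k) := ⟨_, rfl⟩
  obtain ⟨H, hH⟩ : ∃ H : ℝ, H = HH y r p := ⟨_, rfl⟩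
  obtain ⟨ρ, hρ⟩ : ∃ ρ : ℝ, ρ = rho r p := ⟨_, rfl⟩
  obtain ⟨κ, hκ⟩ : ∃ κ : ℝ, κ = kap p * r ^ 2 := ⟨_, rfl⟩
  rw [← hN, ← hH, ← hE1, ← hE2, ← hE3] at o1 o2
  rw [← hκ] at o2
  rw [← hN, ← hH, ← hE1, ← hρ] at e1
  rw [← hN, ← hH, ← hE2, ← hρ] at e2
  rw [← hN, ← hH, ← hE3, ← hρ] at e3'
  rw [← hH] at c2 c3 c5
  rw [← hρ] at c1 c2 c5 c6
  rw [← hκ] at c6
  rw [← hN] at hN7
  rw [← hN, ← hE1, ← hE2, ← hE3, ← hκ, ← hH, ← hρ]
  have hN0 : 0 ≤ N := by linarith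
  have hL : 1 ≤ N * (H - ρ) := by
    have := mul_le_mul_of_nonneg_left c2 hN0
    linarith
  have hρN : 0 ≤ N * ρ := mul_nonneg hN0 c1
  have hb : N * (H - ρ) ≤ H * N := by linarith
  have u1 := kgf_upper hL hb (z := E1) (by linarith [(abs_le.1 e1).1])
  have u2 := kgf_upper hL hb (z := E2) (by linarith [(abs_le.1 e2).1])
  have u3 := kgf_upper hL hb (z := E3) (by linarith [(abs_le.1 e3').1])
  have hH2 : 2 * y ≤ H := by linarith
  have h2y : 1 ≤ 2 * y * N := by nlinarith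
  have h2yH : 2 * y * N ≤ H * N := mul_le_mul_of_nonneg_right hH2 hN0
  have u4 := kgf_anti h2y h2yH
  have f1 : E1 * Real.exp (-E1) = kgf E1 := rfl
  have f2 : E2 * Real.exp (-E2) = kgf E2 := rfl
  have f3 : E3 * Real.exp (-E3) = kgf E3 := rfl
  have f4 : 2 * y * N * Real.exp (-(2 * y * N)) = kgf (2 * y * N) := rfl
  have f5 : kgf (N * (H - ρ)) = N * (H - ρ) * Real.exp (-(N * (H - ρ))) := rfl
  rw [f1, f2, f3, f4]
  have f6 : 1 / 3 * N ^ 3 * κ * (H - ρ) * Real.exp (-(N * (H - ρ))) =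
      kgf (N * (H - ρ)) * (2 / 3 * N ^ 2 * κ) / 2 := by
    rw [f5]
    ring
  rw [f6, ← o2]
  have f7 : kgf' (H * N) * (E1 - H * N) + kgf' (H * N) * (E2 - H * N)
      + kgf' (H * N) * (E3 - H * N) = 0 := by
    have : kgf' (H * N) * (E1 - H * N) + kgf' (H * N) * (E2 - H * N)
      + kgf' (H * N) * (E3 - H * N) = kgf' (H * N) * ((E1 - H * N) + (E2 - H * N)
      + (E3 - H * N)) := by ring
    rw [this, o1, mul_zero]
  linarith

/-- one orbit, `sig = 1` -/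
theorem orbit_f_lower {y r p : ℝ} (hy : 0.9 ≤ y) (hy2 : y ≤ 1.1) (hr : 0 < r) (hp0 : 0 ≤ p)
    (hp1 : p ≤ 1) (hle : hh y r p ≤ rho r p) (hv : vpi y r p ≤ 1 / 4) (k : ℤ × ℤ)
    (hk : 7 ≤ Nf k) :
    -(3 * Nf k * (g0 y r p * (kap p * r ^ 2)) * (2 * y * Nf k) * Real.exp (-(2 * y)) ^ (Nf k).toNat)
      ≤ Eq y r p k * Real.exp (-(Eq y r p k)) + Eq y r p (e3 k) * Real.exp (-(Eq y r p (e3 k)))
      + Eq y r p (e3.symm k) * Real.exp (-(Eq y r p (e3.symm k)))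
      - 3 * (2 * y * Nf k * Real.exp (-(2 * y * Nf k))) := by
  obtain ⟨c1, c2, c3, c4, c5, c6, c7⟩ := kg_basic hy hr hp0 hp1 hle hv
  obtain ⟨o1, o2⟩ := kg_orb (y := y) (r := r) (p := p) k
  have e1 := kg_energy hy hr hp0 hp1 hle hv k
  have e2 := kg_energy hy hr hp0 hp1 hle hv (e3 k)
  have e3' := kg_energy hy hr hp0 hp1 hle hv (e3.symm k)
  rw [kg_e3] at e2
  rw [kg_e3s] at e3'
  have hN7 : (7 : ℝ) ≤ Nf k := by exact_mod_cast hk
  have hy0 : (0.9 : ℝ) ≤ y := hy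
  have htp : Real.exp (-(2 * y)) ^ (Nf k).toNat = Real.exp (-(2 * y * Nf k)) := by
    rw [← Real.exp_nat_mul, kg_toNat]
    congr 1
    ring
  rw [htp, ← c7]
  obtain ⟨N, hN⟩ : ∃ N : ℝ, N = Nf k := ⟨_, rfl⟩
  obtain ⟨E1, hE1⟩ : ∃ E : ℝ, E = Eq y r p k := ⟨_, rfl⟩
  obtain ⟨E2, hE2⟩ : ∃ E : ℝ, E = Eq y r p (e3 k) := ⟨_, rfl⟩
  obtain ⟨E3, hE3⟩ : ∃ E : ℝ, E = Eq y r p (e3.symm k) := ⟨_, rfl⟩
  obtain ⟨H, hH⟩ : ∃ H : ℝ, H = HH y r p := ⟨_, rfl⟩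
  obtain ⟨ρ, hρ⟩ : ∃ ρ : ℝ, ρ = rho r p := ⟨_, rfl⟩
  obtain ⟨h, hh'⟩ : ∃ h : ℝ, h = hh y r p := ⟨_, rfl⟩
  rw [← hN, ← hH, ← hE1, ← hE2, ← hE3] at o1
  rw [← hN, ← hH, ← hE1, ← hρ] at e1
  rw [← hN, ← hH, ← hE2, ← hρ] at e2
  rw [← hN, ← hH, ← hE3, ← hρ] at e3'
  rw [← hH] at c2 c3 c5
  rw [← hρ] at c1 c2 c5
  rw [← hh'] at c3 c4
  rw [← hN] at hN7
  rw [← hN, ← hE1, ← hE2, ← hE3, ← hh']
  have hN0 : 0 ≤ N := by linarith
  have hL : 2 ≤ N * (H - ρ) := by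
    have := mul_le_mul_of_nonneg_left c2 hN0
    linarith
  have hρN : 0 ≤ N * ρ := mul_nonneg hN0 c1
  have hb : 2 ≤ H * N := by linarith
  have u1 := kgf_lower hb (z := E1) (by linarith [(abs_le.1 e1).1])
  have u2 := kgf_lower hb (z := E2) (by linarith [(abs_le.1 e2).1])
  have u3 := kgf_lower hb (z := E3) (by linarith [(abs_le.1 e3').1])
  have f1 : E1 * Real.exp (-E1) = kgf E1 := rfl
  have f2 : E2 * Real.exp (-E2) = kgf E2 := rfl
  have f3 : E3 * Real.exp (-E3) = kgf E3 := rfl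
  have f7 : kgf' (H * N) * (E1 - H * N) + kgf' (H * N) * (E2 - H * N)
      + kgf' (H * N) * (E3 - H * N) = 0 := by
    have : kgf' (H * N) * (E1 - H * N) + kgf' (H * N) * (E2 - H * N)
      + kgf' (H * N) * (E3 - H * N) = kgf' (H * N) * ((E1 - H * N) + (E2 - H * N)
      + (E3 - H * N)) := by ring
    rw [this, o1, mul_zero]
  -- `f(NH) ≥ f(2yN) - N h (2yN) e^{-2yN}`
  have hs0 : 0 ≤ N * h := mul_nonneg (by linarith) c4
  have ha0 : 0 ≤ 2 * y * N := by nlinarith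
  have hHN : H * N = 2 * y * N + N * h := by rw [← c3]; ring
  have g1 : 2 * y * N * Real.exp (-(2 * y * N)) - N * h * (2 * y * N) * Real.exp (-(2 * y * N))
      ≤ kgf (H * N) := by
    unfold kgf
    rw [hHN, neg_add, Real.exp_add]
    have g2 := Real.one_sub_le_exp_neg (N * h)
    have g3 := Real.exp_pos (-(2 * y * N))
    have g4 := Real.exp_pos (-(N * h))
    have g5 : (2 * y * N) * Real.exp (-(2 * y * N)) * (1 - N * h) ≤
        (2 * y * N) * Real.exp (-(2 * y * N)) * Real.exp (-(N * h)) :=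
      mul_le_mul_of_nonneg_left g2 (mul_nonneg ha0 g3.le)
    obtain ⟨A, hA⟩ : ∃ A : ℝ, A = Real.exp (-(2 * y * N)) := ⟨_, rfl⟩
    obtain ⟨B, hB⟩ : ∃ B : ℝ, B = Real.exp (-(N * h)) := ⟨_, rfl⟩
    rw [← hA] at g3
    rw [← hB] at g4
    rw [← hA, ← hB] at g5
    rw [← hA, ← hB]
    have g6 : 0 ≤ N * h * (A * B) := mul_nonneg hs0 (mul_nonneg g3.le g4.le)
    have g7 : (2 * y * N + N * h) * (A * B) = 2 * y * N * A * B + N * h * (A * B) := by ring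
    have g8 : 2 * y * N * A * (1 - N * h) = 2 * y * N * A - N * h * (2 * y * N) * A := by ring
    rw [g8] at g5
    rw [g7]
    linarith
  rw [f1, f2, f3]
  have g9 : 3 * N * h * (2 * y * N) * Real.exp (-(2 * y * N)) =
      3 * (N * h * (2 * y * N) * Real.exp (-(2 * y * N))) := by ring
  rw [g9]
  linarith

end MP7e122f.R
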