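import Pool.Agent.Lib.MP_7e122f_anR.KTpd

/-!
# Growth of `κ`

Let `φ` be real, `φ(0) = 1`, `TPD (1+ε) φ`.  The three vectors `a = v_0`, `b = sig(l) v_l`,
`c = sig(k+l) v_{k+l}` of a Gram representation (`TPD` of the finite set `{0, l, k+l}`) are unit
vectors with `⟪a,b⟫ = sig(l) φ(l) = 1 - ε κ(l)`, `⟪a,c⟫ = 1 - ε κ(k+l)` (the phases
`exp(π i δ (0 ∧ l))` are `1`) and `⟪b,c⟫ = sig(l) sig(k+l) exp(π i (1+ε) (l∧k)) φ(k)
= exp(π i ε (l∧k)) (1 - ε κ(k))`, because `sig(k) sig(l) sig(k+l) = (-1)^(k∧l)`.  Hence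
`‖a - b‖² = 2 ε κ(l)`, `‖a - c‖² = 2 ε κ(k+l)`, and with `z = exp(-π i ε (l∧k))`,
`‖b - z c‖² = 2 ε κ(k)` (or `z` replaced by its conjugate), `‖z c - c‖ = |z - 1| ≤ π ε |k∧l|`.
The triangle inequality divided by `√(2ε)` is the claim.  Instead of a Gram representation one may
use the positive semidefinite `3×3` matrix directly (`Matrix.posSemidef_iff_eq_conjTranspose_mul_self`
or similar gives the representation).  `|φ| ≤ 1` follows from the `2×2` matrix of `{0, k}`.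
-/

open MeasureTheory Complex
open scoped ComplexInnerProductSpace ENNReal ComplexOrder

namespace MP7e122f.R

/-- Gram representation of a positive semidefinite matrix -/
private theorem kgrow_gram {ι : Type*} [Finite ι] {M : Matrix ι ι ℂ} (h : M.PosSemidef) :
    ∃ (m : ℕ) (v : ι → EuclideanSpace ℂ (Fin m)), ∀ i j, ⟪v i, v j⟫ = M i j := by
  obtain ⟨m, u, hu⟩ := Matrix.posSemidef_iff_eq_sum_vecMulVec.1 h
  refine ⟨m, fun i => WithLp.toLp 2 fun a => (starRingEnd ℂ) (u a i), fun i j => ?_⟩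
  rw [PiLp.inner_apply, hu, Matrix.sum_apply]
  refine Finset.sum_congr rfl fun a _ => ?_
  rw [RCLike.inner_apply, Matrix.vecMulVec_apply]
  simp only [Pi.star_apply, RCLike.star_def, Complex.conj_conj]
  ring

private theorem kgrow_sub_sq {E : Type*} [NormedAddCommGroup E] [InnerProductSpace ℂ E] (a b : E)
    (ha : ‖a‖ = 1) (hb : ‖b‖ = 1) : ‖a - b‖ ^ 2 = 2 - 2 * (⟪a, b⟫).re := by
  have h := norm_sub_sq (𝕜 := ℂ) a b
  rw [ha, hb] at h
  have h' : RCLike.re (⟪a, b⟫) = (⟪a, b⟫).re := rfl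
  rw [h, h']
  ring

private theorem kgrow_sig_sq (k : ℤ × ℤ) : ((sig k : ℤ) : ℝ) * ((sig k : ℤ) : ℝ) = 1 := by
  unfold sig
  split_ifs <;> norm_num

private theorem kgrow_sig_abs (k : ℤ × ℤ) : |((sig k : ℤ) : ℝ)| = 1 := by
  unfold sig
  split_ifs <;> norm_num

/-- `sig l sig (k + l) = (-1)^(l ∧ k) sig k` -/
private theorem kgrow_sig_mul (k l : ℤ × ℤ) :
    ((sig l : ℤ) : ℂ) * ((sig (k + l) : ℤ) : ℂ) = cexp (-(Real.pi * I * (wdg l k : ℤ))) * ((sig k : ℤ) : ℂ) := by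
  have h1 : cexp (-(Real.pi * I * (wdg l k : ℤ))) = if Even (wdg l k) then 1 else -1 := by
    have h1 : (-(Real.pi * I * (wdg l k : ℤ)) : ℂ) = ((-(wdg l k) : ℤ) : ℂ) * (Real.pi * I) := by
      push_cast
      ring
    rw [h1, Complex.exp_int_mul, Complex.exp_pi_mul_I]
    split_ifs with h
    · exact (Even.neg h).neg_one_zpow
    · exact (Odd.neg (Int.not_even_iff_odd.mp h)).neg_one_zpow
  rw [h1]
  simp only [sig, wdg, Prod.fst_add, Prod.snd_add, Int.even_sub, Int.even_mul, Int.even_add]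
  by_cases h1 : Even k.1 <;> by_cases h2 : Even k.2 <;> by_cases h3 : Even l.1 <;>
    by_cases h4 : Even l.2 <;> simp [h1, h2, h3, h4]

/-- Gram representation of a state on three points -/
private theorem kgrow_rep {δ : ℝ} {φ : ℤ × ℤ → ℝ} (h : TPD δ (fun k => (φ k : ℂ))) (s : Finset (ℤ × ℤ)) :
    ∃ (m : ℕ) (v : s → EuclideanSpace ℂ (Fin m)), ∀ i j : s, ⟪v i, v j⟫ =
      cexp (Real.pi * I * δ * (wdg i j : ℤ)) * (φ ((j : ℤ × ℤ) - i) : ℂ) := by
  obtain ⟨m, v, hv⟩ := kgrow_gram (h s)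
  exact ⟨m, v, fun i j => (hv i j).trans rfl⟩

private theorem kgrow_norm {E : Type*} [NormedAddCommGroup E] [InnerProductSpace ℂ E] {v : E} (h : ⟪v, v⟫ = 1) : ‖v‖ = 1 := by
  have h1 := inner_self_eq_norm_sq_to_K (𝕜 := ℂ) v
  rw [h] at h1
  have h2 : (‖v‖ : ℝ) ^ 2 = 1 := by
    have : ((‖v‖ ^ 2 : ℝ) : ℂ) = ((1 : ℝ) : ℂ) := by
      rw [Complex.ofReal_pow]
      exact h1.symm.trans (by simp)
    exact_mod_cast this
  nlinarith [norm_nonneg v]

theorem tpd_abs_le {δ : ℝ} {φ : ℤ × ℤ → ℝ} (h : TPD δ (fun k => (φ k : ℂ)))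
    (h0 : φ (0, 0) = 1) (k : ℤ × ℤ) : |φ k| ≤ 1 := by
  have h00 : φ 0 = 1 := h0
  obtain ⟨m, v, hv⟩ := kgrow_rep h {0, k}
  have n1 : ∀ i : (({0, k} : Finset (ℤ × ℤ)) : Type), ‖v i‖ = 1 := by
    intro i
    apply kgrow_norm
    rw [hv, sub_self, show wdg (i : ℤ × ℤ) i = 0 by unfold wdg; ring, h00]
    simp
  have h1 := norm_inner_le_norm (𝕜 := ℂ) (v ⟨0, by simp⟩) (v ⟨k, by simp⟩)
  rw [n1, n1, hv, sub_zero, show wdg (0 : ℤ × ℤ) k = 0 by unfold wdg; simp] at h1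
  simpa using h1

private theorem kgrow_main {ε : ℝ} (hε : 0 < ε) {φ : ℤ × ℤ → ℝ}
    (h : TPD (1 + ε) (fun k => (φ k : ℂ))) (h0 : φ 0 = 1) (k l : ℤ × ℤ) :
    Real.sqrt (2 - 2 * ((sig (k + l) : ℤ) * φ (k + l))) ≤ Real.sqrt (2 - 2 * ((sig k : ℤ) * φ k)) +
      Real.sqrt (2 - 2 * ((sig l : ℤ) * φ l)) + Real.pi * ε * |(wdg l k : ℝ)| := by
  obtain ⟨m, v, hv⟩ := kgrow_rep h {0, l, k + l}
  have n1 : ∀ i : (({0, l, k + l} : Finset (ℤ × ℤ)) : Type), ‖v i‖ = 1 := by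
    intro i
    apply kgrow_norm
    rw [hv, sub_self, show wdg (i : ℤ × ℤ) i = 0 by unfold wdg; ring, h0]
    simp
  have hm0 : (0 : ℤ × ℤ) ∈ ({0, l, k + l} : Finset (ℤ × ℤ)) := by simp
  have hm1 : l ∈ ({0, l, k + l} : Finset (ℤ × ℤ)) := by simp
  have hm2 : k + l ∈ ({0, l, k + l} : Finset (ℤ × ℤ)) := by simp
  set a := v ⟨0, hm0⟩ with ha
  set b := (((sig l : ℤ) : ℝ) : ℂ) • v ⟨l, hm1⟩ with hb
  set c := (((sig (k + l) : ℤ) : ℝ) : ℂ) • v ⟨k + l, hm2⟩ with hc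
  set z := cexp (-(Real.pi * I * ε * (wdg l k : ℤ))) with hz
  have na : ‖a‖ = 1 := n1 _
  have nb : ‖b‖ = 1 := by
    rw [hb, norm_smul, n1, Complex.norm_real, Real.norm_eq_abs, kgrow_sig_abs, mul_one]
  have nc : ‖c‖ = 1 := by
    rw [hc, norm_smul, n1, Complex.norm_real, Real.norm_eq_abs, kgrow_sig_abs, mul_one]
  have nz : ‖z‖ = 1 := by
    rw [hz, show (-(Real.pi * I * ε * (wdg l k : ℤ)) : ℂ) = ((-(Real.pi * ε * (wdg l k : ℝ)) : ℝ) : ℂ) * I by push_cast; ring]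
    exact Complex.norm_exp_ofReal_mul_I _
  have nzc : ‖z • c‖ = 1 := by rw [norm_smul, nz, nc, mul_one]
  have hab : ‖a - b‖ ^ 2 = 2 - 2 * ((sig l : ℤ) * φ l) := by
    rw [kgrow_sub_sq a b na nb, hb, inner_smul_right, ha, hv, sub_zero, show wdg (0 : ℤ × ℤ) l = 0 by unfold wdg; simp]
    simp
  have hac : ‖a - c‖ ^ 2 = 2 - 2 * ((sig (k + l) : ℤ) * φ (k + l)) := by
    rw [kgrow_sub_sq a c na nc, hc, inner_smul_right, ha, hv, sub_zero,
      show wdg (0 : ℤ × ℤ) (k + l) = 0 by unfold wdg; simp]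
    simp
  have hbc : ‖b - z • c‖ ^ 2 = 2 - 2 * ((sig k : ℤ) * φ k) := by
    rw [kgrow_sub_sq b (z • c) nb nzc, hb, hc, inner_smul_right, inner_smul_right, inner_smul_left, hv,
      show (((k + l : ℤ × ℤ)) - l) = k by abel]
    have e1 : z * ((((sig (k + l) : ℤ) : ℝ) : ℂ) * ((starRingEnd ℂ) (((sig l : ℤ) : ℝ) : ℂ) *
        (cexp (Real.pi * I * ((1 + ε : ℝ) : ℂ) * (wdg l (k + l) : ℤ)) * (φ k : ℂ)))) = (((sig k : ℤ) : ℝ) * φ k : ℝ) := by
      rw [Complex.conj_ofReal]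
      have e2 := kgrow_sig_mul k l
      have e3 : wdg l (k + l) = wdg l k := by
        unfold wdg
        simp only [Prod.fst_add, Prod.snd_add]
        ring
      rw [e3]
      have e4 : z * cexp (Real.pi * I * ((1 + ε : ℝ) : ℂ) * (wdg l k : ℤ)) * cexp (-(Real.pi * I * (wdg l k : ℤ))) = 1 := by
        rw [hz, ← Complex.exp_add, ← Complex.exp_add, Complex.exp_eq_one_iff]
        refine ⟨0, ?_⟩
        push_cast
        ring
      calc _ = z * cexp (Real.pi * I * ((1 + ε : ℝ) : ℂ) * (wdg l k : ℤ)) * (((sig l : ℤ) : ℂ) * ((sig (k + l) : ℤ) : ℂ)) * (φ k : ℂ) := by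
            push_cast
            ring
        _ = (z * cexp (Real.pi * I * ((1 + ε : ℝ) : ℂ) * (wdg l k : ℤ)) * cexp (-(Real.pi * I * (wdg l k : ℤ)))) * ((sig k : ℤ) : ℂ) * (φ k : ℂ) := by
            rw [e2]
            ring
        _ = _ := by
            rw [e4]
            push_cast
            ring
    have e5 := congrArg Complex.re e1
    rw [Complex.ofReal_re] at e5
    rw [← e5]
  have hzc : ‖z • c - c‖ ≤ Real.pi * ε * |(wdg l k : ℝ)| := by
    have e1 : z • c - c = (z - 1) • c := by rw [sub_smul, one_smul]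
    rw [e1, norm_smul, nc, mul_one, hz,
      show (-(Real.pi * I * ε * (wdg l k : ℤ)) : ℂ) = I * ((-(Real.pi * ε * (wdg l k : ℝ)) : ℝ) : ℂ) by push_cast; ring]
    refine (Real.norm_exp_I_mul_ofReal_sub_one_le).trans ?_
    rw [Real.norm_eq_abs, abs_neg, abs_mul, abs_of_pos (mul_pos Real.pi_pos hε)]
  have htri : ‖a - c‖ ≤ ‖a - b‖ + ‖b - z • c‖ + ‖z • c - c‖ := by
    have e1 : a - c = (a - b) + (b - z • c) + (z • c - c) := by abel
    rw [e1]
    exact norm_add₃_le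
  rw [← hab, ← hac, ← hbc, Real.sqrt_sq (norm_nonneg _), Real.sqrt_sq (norm_nonneg _), Real.sqrt_sq (norm_nonneg _)]
  linarith

theorem kstate_of_tpd {ε : ℝ} (hε : 0 < ε) {φ : ℤ × ℤ → ℝ}
    (h : TPD (1 + ε) (fun k => (φ k : ℂ))) (h0 : φ (0, 0) = 1) (hneg : ∀ k, φ (-k) = φ k)
    (hrot : ∀ k, φ (e3 k) = φ k) : KState ε (kapF ε φ) := by
  have habs : ∀ k, |((sig k : ℤ) : ℝ) * φ k| ≤ 1 := by
    intro k
    rw [abs_mul, kgrow_sig_abs, one_mul]
    exact tpd_abs_le h h0 k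
  refine ⟨fun k => ?_, fun k => ?_, ?_, fun k => ?_, fun k => ?_, fun k l => ?_⟩
  · unfold kapF
    have := (abs_le.1 (habs k)).2
    exact div_nonneg (by linarith) hε.le
  · unfold kapF
    have := (abs_le.1 (habs k)).1
    exact div_le_div_of_nonneg_right (by linarith) hε.le
  · unfold kapF
    rw [h0]
    simp [sig]
  · unfold kapF
    rw [hneg, show sig (-k) = sig k by simp [sig]]
  · unfold kapF
    rw [hrot, show sig (e3 k) = sig k by
      unfold sig e3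
      simp only [Equiv.coe_fn_mk, Int.even_sub, even_neg]
      by_cases h1 : Even k.1 <;> by_cases h2 : Even k.2 <;> simp [h1, h2]]
  · have hm := kgrow_main hε h h0 k l
    have e : ∀ k, 2 - 2 * (((sig k : ℤ) : ℝ) * φ k) = (2 * ε) * kapF ε φ k := by
      intro k
      unfold kapF
      field_simp
    have hsm : ∀ x, Real.sqrt ((2 * ε) * x) = Real.sqrt (2 * ε) * Real.sqrt x := fun x => Real.sqrt_mul (by positivity) x
    rw [e, e, e, hsm, hsm, hsm] at hm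
    have hs : 0 < Real.sqrt (2 * ε) := Real.sqrt_pos.2 (by positivity)
    have e2 : Real.pi * ε = Real.sqrt (2 * ε) * (Real.pi * Real.sqrt (ε / 2)) := by
      have : Real.sqrt (2 * ε) * Real.sqrt (ε / 2) = ε := by
        rw [← Real.sqrt_mul (by positivity), show 2 * ε * (ε / 2) = ε * ε by ring, Real.sqrt_mul_self hε.le]
      calc Real.pi * ε = Real.pi * (Real.sqrt (2 * ε) * Real.sqrt (ε / 2)) := by rw [this]
        _ = _ := by ring
    have e3 : |(wdg l k : ℝ)| = |(wdg k l : ℝ)| := by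
      have : (wdg l k : ℝ) = -(wdg k l : ℝ) := by
        unfold wdg
        push_cast
        ring
      rw [this, abs_neg]
    rw [e2, e3] at hm
    refine le_of_mul_le_mul_left ?_ hs
    linarith

theorem kstate_rav (H : Mat) (hH : 0 < H.det) {ε : ℝ} (hε : 0 < ε) (hHd : H.det = 1 / (1 + ε))
    (f : L2) (hf : ‖f‖ = 1) : KState ε (kapF ε (rav (st H f))) := by
  have h1 := tpd_rav H hH f
  rw [hHd, one_div_one_div] at h1
  refine kstate_of_tpd hε h1 ?_ (fun k => ?_) (fun k => ?_)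
  · unfold rav
    have e1 : e3 (0, 0) = (0, 0) := by simp [e3]
    have e2 : e3.symm (0, 0) = (0, 0) := by simp [e3]
    rw [e1, e2, st_zero H f hf]
    norm_num
  · unfold rav
    have e1 : e3 (-k) = -(e3 k) := by
      ext
      · simp [e3]
        ring
      · simp [e3]
    have e2 : e3.symm (-k) = -(e3.symm k) := by
      ext
      · simp [e3]
      · simp [e3]
        ring
    rw [e1, e2, st_neg, st_neg, st_neg]
  · unfold rav
    have e1 : e3 (e3 k) = e3.symm k := by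
      ext
      · simp [e3]
      · simp [e3]
    rw [e1, Equiv.symm_apply_apply]
    ring

end MP7e122f.R
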