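import Pool.Agent.Lib.MP_7e122f_anR.KDefs
import Pool.Agent.Lib.MP_7e122f_anR.JPois
import Pool.Agent.Lib.MP_7e122f_anR.HexTail

/-!
# The hexagonal signed theta function near `s = 1`

`Gq s y1 y1 y1 = ∑ sig(k) exp(-2 y1 s N(k))`, `2 y1 = π/√3`, `Gq 1 y1 y1 y1 = 0` (`Gq_one`), so
with `x = 2 y1 u`, `t = exp(-2 y1)`:
`Gq (1+u) y1 y1 y1 = ∑ sig(k) t^N (exp(-N x) - 1) = - ∑ sig(k) t^N N x psr(-N x)`.
Shells: `N=1` (6, sig -1), `3` (6, -), `4` (6, +), `7` (12, -), `9` (6, -), `12` (6, +), `13`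
(12, -), ... ; `0 ≤ psr(-v) ≤ 1`.  `2y1 · 54 t⁹ = 8.0e-6`, `2 y1 ∑_{N ≥ 12} N t^N ≤ 1e-7`.
-/

namespace MP7e122f.R

open MP7e122f.Num (psr psr_spec)

/-- the vectors with `N ≤ 9` -/
noncomputable def KHb_S : Finset (ℤ × ℤ) := (Finset.Icc (-3) 3 ×ˢ Finset.Icc (-3) 3 :
      Finset (ℤ × ℤ)).filter (fun k => Nf k ≤ 9)

theorem KHb_psr_bounds {v : ℝ} (hv : 0 ≤ v) : 0 ≤ psr (-v) ∧ psr (-v) ≤ 1 := by
  rcases hv.eq_or_lt with h | h
  · rw [← h, neg_zero]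
    unfold psr
    rw [if_pos rfl]
    exact ⟨zero_le_one, le_rfl⟩
  · have h1 := psr_spec (-v)
    have h2 := Real.add_one_le_exp (-v)
    have h3 : Real.exp (-v) ≤ 1 := Real.exp_le_one_iff.2 (by linarith)
    constructor
    · by_contra hcon
      push Not at hcon
      nlinarith
    · by_contra hcon
      push Not at hcon
      nlinarith

theorem KHb_root : (1.7320508 : ℝ) < Real.sqrt 3 ∧ Real.sqrt 3 < 1.7320509 := by
  constructor
  · rw [Real.lt_sqrt (by norm_num)]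
    norm_num
  · rw [Real.sqrt_lt' (by norm_num)]
    norm_num

theorem KHb_c_bounds : (1.81374 : ℝ) ≤ Real.pi / Real.sqrt 3 ∧
    Real.pi / Real.sqrt 3 ≤ 1.81381 := by
  have h1 := KHb_root.1
  have h2 := KHb_root.2
  have h3 := Real.pi_gt_d4
  have h4 := Real.pi_lt_d4
  have h0 : 0 < Real.sqrt 3 := by linarith
  constructor
  · rw [le_div_iff₀ h0]
    nlinarith
  · rw [div_le_iff₀ h0]
    nlinarith

theorem KHb_t_le : Real.exp (-(Real.pi / Real.sqrt 3)) ≤ 0.1631 := by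
  have h1 := KHb_c_bounds.1
  have h2 : Real.exp (-(Real.pi / Real.sqrt 3)) ≤ Real.exp (-1.81374) :=
    Real.exp_le_exp.2 (by linarith)
  refine h2.trans ?_
  have h3 := Real.sum_le_exp_of_nonneg (x := 0.81374) (by norm_num) 7
  have h4 : (2.2562 : ℝ) ≤ Real.exp 0.81374 := by
    refine le_trans ?_ h3
    simp only [Finset.sum_range_succ, Finset.sum_range_zero, Nat.factorial]
    norm_num
  have h5 := Real.exp_one_gt_d9
  have h6 : Real.exp 1.81374 = Real.exp 1 * Real.exp 0.81374 := by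
    rw [← Real.exp_add]
    norm_num
  have h7 : (6.1315 : ℝ) ≤ Real.exp 1.81374 := by
    rw [h6]
    nlinarith
  rw [Real.exp_neg, inv_le_comm₀ (Real.exp_pos _) (by norm_num)]
  refine le_trans ?_ h7
  norm_num

theorem KHb_summable {t : ℝ} (h0 : 0 < t) (h1 : t ≤ 1 / 5) :
    Summable fun k : ℤ × ℤ => t ^ (Nf k).toNat := by
  have hG : Summable fun k => t ^ 12 * HexTail_g k := HexTail_hasSum.summable.mul_left _
  have hgF : Summable fun k : {k : ℤ × ℤ // k ∉ KHb_S} => t ^ (Nf (k : ℤ × ℤ)).toNat := by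
    refine Summable.of_norm_bounded (hG.subtype _) (fun k => ?_)
    rw [Real.norm_of_nonneg (by positivity)]
    apply HexTail_pt t h0 h1
    by_contra hcon
    exact k.2 (Finset.mem_filter.2
      ⟨HexTail_box (k := (k : ℤ × ℤ)) (n := 3) (by norm_num) (by omega), by omega⟩)
  exact (Finset.summable_compl_iff KHb_S (f := fun k : ℤ × ℤ => t ^ (Nf k).toNat)).1 hgF

theorem KHb_cc (s : ℝ) (k : ℤ × ℤ) : cc (s * y1c) (s * y1c) (s * y1c) k =
    Real.exp (-(Real.pi / Real.sqrt 3 * s)) ^ (Nf k).toNat := by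
  have hN : ((Nf k).toNat : ℝ) = ((Nf k : ℤ) : ℝ) := by
    have h := Int.toNat_of_nonneg (HexTail_nonneg k)
    exact_mod_cast congrArg (fun z : ℤ => (z : ℝ)) h
  have h0 : Real.sqrt 3 ≠ 0 := by positivity
  unfold cc
  rw [← Real.exp_nat_mul, hN]
  congr 1
  unfold y1c Nf
  push_cast
  field_simp
  ring

/-- the sum over the first shells -/
theorem KHb_sumS (G : ℕ → ℝ) : ∑ k ∈ KHb_S, (sig k : ℝ) * G (Nf k).toNat =
    G 0 - 6 * G 1 - 6 * G 3 + 6 * G 4 - 12 * G 7 - 6 * G 9 := by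
  have hmaps : ∀ k ∈ KHb_S, (Nf k).toNat ∈ Finset.range 10 := by
    intro k hk
    rw [KHb_S, Finset.mem_filter] at hk
    rw [Finset.mem_range]
    omega
  rw [← Finset.sum_fiberwise_of_maps_to hmaps]
  have hin : ∀ n, ∑ k ∈ KHb_S with (Nf k).toNat = n, (sig k : ℝ) * G (Nf k).toNat =
      ((∑ k ∈ KHb_S with (Nf k).toNat = n, sig k : ℤ) : ℝ) * G n := by
    intro n
    rw [Int.cast_sum, Finset.sum_mul]
    refine Finset.sum_congr rfl fun k hk => ?_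
    rw [Finset.mem_filter] at hk
    rw [hk.2]
  simp only [hin]
  have c0 : (∑ k ∈ KHb_S with (Nf k).toNat = 0, sig k : ℤ) = 1 := by decide +kernel
  have c1 : (∑ k ∈ KHb_S with (Nf k).toNat = 1, sig k : ℤ) = -6 := by decide +kernel
  have c2 : (∑ k ∈ KHb_S with (Nf k).toNat = 2, sig k : ℤ) = 0 := by decide +kernel
  have c3 : (∑ k ∈ KHb_S with (Nf k).toNat = 3, sig k : ℤ) = -6 := by decide +kernel
  have c4 : (∑ k ∈ KHb_S with (Nf k).toNat = 4, sig k : ℤ) = 6 := by decide +kernel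
  have c5 : (∑ k ∈ KHb_S with (Nf k).toNat = 5, sig k : ℤ) = 0 := by decide +kernel
  have c6 : (∑ k ∈ KHb_S with (Nf k).toNat = 6, sig k : ℤ) = 0 := by decide +kernel
  have c7 : (∑ k ∈ KHb_S with (Nf k).toNat = 7, sig k : ℤ) = -12 := by decide +kernel
  have c8 : (∑ k ∈ KHb_S with (Nf k).toNat = 8, sig k : ℤ) = 0 := by decide +kernel
  have c9 : (∑ k ∈ KHb_S with (Nf k).toNat = 9, sig k : ℤ) = -6 := by decide +kernel
  simp only [Finset.sum_range_succ, Finset.sum_range_zero, c0, c1, c2, c3, c4, c5, c6, c7, c8, c9]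
  push_cast
  ring

theorem KHb_abs_sig (k : ℤ × ℤ) : |(sig k : ℝ)| ≤ 1 := by
  unfold sig
  split_ifs <;> simp

/-- `N r^N ≤ 10 r^10` for `N ≥ 10` -/
theorem KHb_mono {r : ℝ} (h0 : 0 ≤ r) (h1 : r ≤ 10 / 11) (m : ℕ) :
    ((10 + m : ℕ) : ℝ) * r ^ (10 + m) ≤ 10 * r ^ 10 := by
  induction m with
  | zero => simp
  | succ m ih =>
    have h2 : ((10 + (m + 1) : ℕ) : ℝ) * r ≤ ((10 + m : ℕ) : ℝ) := by
      push_cast
      have hm : (0 : ℝ) ≤ m := Nat.cast_nonneg m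
      nlinarith
    calc ((10 + (m + 1) : ℕ) : ℝ) * r ^ (10 + (m + 1))
        = (((10 + (m + 1) : ℕ) : ℝ) * r) * r ^ (10 + m) := by
          rw [← add_assoc 10 m 1, pow_succ]; ring
      _ ≤ ((10 + m : ℕ) : ℝ) * r ^ (10 + m) := mul_le_mul_of_nonneg_right h2 (by positivity)
      _ ≤ _ := ih

/-- the expansion with the tail bound -/
theorem KHb_expand {u : ℝ} (hu : 0 < u) (t x : ℝ)
    (ht : t = Real.exp (-(Real.pi / Real.sqrt 3))) (hx : x = Real.pi / Real.sqrt 3 * u) :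
    |Gq (1 + u) y1c y1c y1c - (u * KHf u + 54 * t ^ 9 * x * psr (-(9 * x)))| ≤ 4 * t ^ 10 * x := by
  have ht0 : 0 < t := ht ▸ Real.exp_pos _
  have ht1 : t ≤ 0.1631 := ht ▸ KHb_t_le
  have hc0 : 0 < Real.pi / Real.sqrt 3 := by positivity
  have hx0 : 0 < x := hx ▸ mul_pos hc0 hu
  have hS3 : Real.sqrt 3 ^ 2 = 3 := Real.sq_sqrt (by norm_num)
  have hy0 : 0 ≤ y1c := by unfold y1c; positivity
  have hone : Gq 1 y1c y1c y1c = 0 := by
    apply Gq_one hy0 le_rfl le_rfl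
    unfold y1c
    have h0 : Real.sqrt 3 ≠ 0 := by positivity
    field_simp
    rw [hS3]
    ring
  -- the terms
  obtain ⟨G, hG⟩ : ∃ G : ℕ → ℝ, G = fun n : ℕ => t ^ n * (Real.exp (-((n : ℝ) * x)) - 1) := ⟨_, rfl⟩
  have hGb : ∀ n : ℕ, |G n| ≤ t ^ n * min 1 (n * x) := by
    intro n
    rw [hG]
    simp only
    rw [abs_mul, abs_of_pos (pow_pos ht0 n)]
    apply mul_le_mul_of_nonneg_left _ (pow_pos ht0 n).le
    have h1 : Real.exp (-(n * x)) ≤ 1 := Real.exp_le_one_iff.2 (by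
      have : 0 ≤ (n : ℝ) * x := by positivity
      linarith)
    have h2 := Real.add_one_le_exp (-(n * x))
    have h3 := Real.exp_pos (-(n * x))
    rw [abs_sub_comm, abs_of_nonneg (by linarith)]
    exact le_min (by linarith) (by linarith)
  have hGeq : ∀ n : ℕ, G n = t ^ n * (-(n * x) * psr (-(n * x))) := by
    intro n
    rw [hG]
    simp only
    rw [psr_spec (-(n * x))]
    ring
  have hterm : ∀ k : ℤ × ℤ, (sig k : ℝ) * cc ((1 + u) * y1c) ((1 + u) * y1c) ((1 + u) * y1c) k -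
      (sig k : ℝ) * cc (1 * y1c) (1 * y1c) (1 * y1c) k = (sig k : ℝ) * G (Nf k).toNat := by
    intro k
    rw [KHb_cc, KHb_cc, hG]
    simp only
    rw [← mul_sub]
    congr 1
    rw [mul_one, ← ht, mul_sub, mul_one, ← Real.exp_nat_mul, ht, ← Real.exp_nat_mul,
      ← Real.exp_add, hx]
    congr 2
    ring
  have hsum1 : Summable fun k : ℤ × ℤ => (sig k : ℝ) * cc (1 * y1c) (1 * y1c) (1 * y1c) k := by
    refine Summable.of_norm_bounded (KHb_summable ht0 (by linarith)) (fun k => ?_)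
    rw [KHb_cc, mul_one, ← ht, norm_mul, Real.norm_eq_abs, Real.norm_of_nonneg (by positivity)]
    have := KHb_abs_sig k
    nlinarith [pow_pos ht0 (Nf k).toNat]
  have hsumG : Summable fun k : ℤ × ℤ => (sig k : ℝ) * G (Nf k).toNat := by
    refine Summable.of_norm_bounded (KHb_summable ht0 (by linarith)) (fun k => ?_)
    rw [norm_mul, Real.norm_eq_abs, Real.norm_eq_abs]
    have h1 := KHb_abs_sig k
    have h2 := hGb (Nf k).toNat
    have h3 : t ^ (Nf k).toNat * min 1 ((Nf k).toNat * x) ≤ t ^ (Nf k).toNat * 1 :=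
      mul_le_mul_of_nonneg_left (min_le_left _ _) (pow_pos ht0 _).le
    calc |(sig k : ℝ)| * |G (Nf k).toNat| ≤ 1 * (t ^ (Nf k).toNat * 1) :=
          mul_le_mul h1 (h2.trans h3) (abs_nonneg _) zero_le_one
      _ = t ^ (Nf k).toNat := by ring
  have hsum2 : Summable fun k : ℤ × ℤ =>
      (sig k : ℝ) * cc ((1 + u) * y1c) ((1 + u) * y1c) ((1 + u) * y1c) k := by
    have h := hsumG.add hsum1
    refine h.congr fun k => ?_
    rw [← hterm k]
    ring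
  have hdiff : Gq (1 + u) y1c y1c y1c = ∑' k : ℤ × ℤ, (sig k : ℝ) * G (Nf k).toNat := by
    have h1 : Gq (1 + u) y1c y1c y1c = Gq (1 + u) y1c y1c y1c - Gq 1 y1c y1c y1c := by
      rw [hone, sub_zero]
    rw [h1]
    unfold Gq
    rw [← Summable.tsum_sub hsum2 hsum1]
    exact tsum_congr hterm
  -- the tail
  obtain ⟨C, hC⟩ : ∃ C : ℝ, C = 10 * (5 * t) ^ 10 * x := ⟨_, rfl⟩
  have hC0 : 0 < C := by rw [hC]; positivity
  obtain ⟨ψ, hψ⟩ : ∃ ψ : ℤ × ℤ → ℝ, ψ = fun k => if k ∈ KHb_S then 0 else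
    (sig k : ℝ) * G (Nf k).toNat * 5 ^ (Nf k).toNat / C := ⟨_, rfl⟩
  have hout : ∀ k : ℤ × ℤ, k ∉ KHb_S → 10 ≤ Nf k := by
    intro k hk
    by_contra hcon
    apply hk
    rw [KHb_S, Finset.mem_filter]
    exact ⟨HexTail_box (k := k) (n := 3) (by norm_num) (by omega), by omega⟩
  have hψb : ∀ k, |ψ k| ≤ 1 := by
    intro k
    rw [hψ]
    simp only
    split_ifs with hk
    · simp
    · have h10 := hout k hk
      obtain ⟨m, hm⟩ : ∃ m : ℕ, (Nf k).toNat = 10 + m := ⟨(Nf k).toNat - 10, by omega⟩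
      rw [hm, abs_div, abs_of_pos hC0, div_le_one hC0, abs_mul, abs_mul,
        abs_of_pos (by positivity : (0 : ℝ) < 5 ^ (10 + m))]
      have h1 := KHb_abs_sig k
      have h2 := hGb (10 + m)
      have h3 : t ^ (10 + m) * min 1 (((10 + m : ℕ) : ℝ) * x) ≤
          t ^ (10 + m) * (((10 + m : ℕ) : ℝ) * x) :=
        mul_le_mul_of_nonneg_left (min_le_right _ _) (pow_pos ht0 _).le
      have h4 := KHb_mono (r := 5 * t) (by positivity) (by linarith) m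
      calc |(sig k : ℝ)| * |G (10 + m)| * 5 ^ (10 + m)
          ≤ 1 * (t ^ (10 + m) * (((10 + m : ℕ) : ℝ) * x)) * 5 ^ (10 + m) := by
            apply mul_le_mul_of_nonneg_right _ (by positivity)
            exact mul_le_mul h1 (h2.trans h3) (abs_nonneg _) zero_le_one
        _ = (((10 + m : ℕ) : ℝ) * (5 * t) ^ (10 + m)) * x := by
            rw [mul_pow]; ring
        _ ≤ (10 * (5 * t) ^ 10) * x := mul_le_mul_of_nonneg_right h4 hx0.le
        _ = C := by rw [hC]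
  have htail := hex_tail12 (1 / 5) (by norm_num) le_rfl ψ hψb
  have hfin0 : ∑ k ∈ (Finset.Icc (-3) 3 ×ˢ Finset.Icc (-3) 3 :
      Finset (ℤ × ℤ)).filter (fun k => Nf k ≤ 9), ψ k * (1 / 5 : ℝ) ^ (Nf k).toNat = 0 := by
    apply Finset.sum_eq_zero
    intro k hk
    have hk' : k ∈ KHb_S := hk
    rw [hψ]
    simp only
    rw [if_pos hk', zero_mul]
  rw [hfin0, sub_zero] at htail
  have hψG : ∀ k, ψ k * (1 / 5 : ℝ) ^ (Nf k).toNat =
      C⁻¹ * (if k ∈ KHb_S then 0 else (sig k : ℝ) * G (Nf k).toNat) := by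
    intro k
    rw [hψ]
    simp only
    split_ifs with hk
    · simp
    · rw [one_div, inv_pow]
      have h5 : (5 : ℝ) ^ (Nf k).toNat ≠ 0 := by positivity
      field_simp
  simp only [hψG] at htail
  rw [tsum_mul_left, abs_mul, abs_of_pos (inv_pos.2 hC0), inv_mul_le_iff₀ hC0] at htail
  -- splitting
  have hsplit : ∑' k : ℤ × ℤ, (sig k : ℝ) * G (Nf k).toNat =
      ∑ k ∈ KHb_S, (sig k : ℝ) * G (Nf k).toNat +
        ∑' k : ℤ × ℤ, (if k ∈ KHb_S then 0 else (sig k : ℝ) * G (Nf k).toNat) := by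
    have h1 : HasSum (fun k : ℤ × ℤ => if k ∈ KHb_S then (sig k : ℝ) * G (Nf k).toNat else 0)
        (∑ k ∈ KHb_S, (sig k : ℝ) * G (Nf k).toNat) := by
      have h : HasSum (fun k : ℤ × ℤ => if k ∈ KHb_S then (sig k : ℝ) * G (Nf k).toNat else 0)
          (∑ k ∈ KHb_S, if k ∈ KHb_S then (sig k : ℝ) * G (Nf k).toNat else 0) :=
        hasSum_sum_of_ne_finset_zero (fun k hk => if_neg hk)
      have h2 : (∑ k ∈ KHb_S, if k ∈ KHb_S then (sig k : ℝ) * G (Nf k).toNat else 0) =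
          ∑ k ∈ KHb_S, (sig k : ℝ) * G (Nf k).toNat :=
        Finset.sum_congr rfl fun k hk => if_pos hk
      rw [h2] at h
      exact h
    have h3 : ∀ k : ℤ × ℤ, (sig k : ℝ) * G (Nf k).toNat -
        (if k ∈ KHb_S then (sig k : ℝ) * G (Nf k).toNat else 0) =
        (if k ∈ KHb_S then 0 else (sig k : ℝ) * G (Nf k).toNat) := by
      intro k
      split_ifs <;> ring
    have h4 := hsumG.tsum_sub h1.summable
    rw [h1.tsum_eq] at h4
    simp only [h3] at h4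
    linarith
  rw [hdiff, hsplit, KHb_sumS]
  have hG0 : G 0 = 0 := by rw [hG]; simp
  have hmain : G 0 - 6 * G 1 - 6 * G 3 + 6 * G 4 - 12 * G 7 - 6 * G 9 =
      u * KHf u + 54 * t ^ 9 * x * psr (-(9 * x)) := by
    rw [hG0, hGeq 1, hGeq 3, hGeq 4, hGeq 7, hGeq 9]
    unfold KHf
    rw [← ht, ← hx]
    have e : u * (Real.pi / Real.sqrt 3 *
        (6 * t * psr (-x) + 18 * t ^ 3 * psr (-(3 * x)) - 24 * t ^ 4 * psr (-(4 * x)) +
          84 * t ^ 7 * psr (-(7 * x)))) = x *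
        (6 * t * psr (-x) + 18 * t ^ 3 * psr (-(3 * x)) - 24 * t ^ 4 * psr (-(4 * x)) +
          84 * t ^ 7 * psr (-(7 * x))) := by
      rw [hx]; ring
    rw [e]
    push_cast
    rw [one_mul]
    ring
  rw [hmain, add_sub_cancel_left]
  refine htail.trans (le_of_eq ?_)
  rw [hC, mul_pow]
  norm_num
  ring

theorem KH_lower {u : ℝ} (h0 : 0 < u) (_h1 : u ≤ 1 / 5) :
    u * (KHf u - 1 / 10 ^ 7) ≤ Gq (1 + u) y1c y1c y1c := by
  have hmain := KHb_expand h0 _ _ rfl rfl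
  have ht0 : 0 < Real.exp (-(Real.pi / Real.sqrt 3)) := Real.exp_pos _
  have ht1 := KHb_t_le
  have hc1 := KHb_c_bounds.2
  have hc0 : 0 < Real.pi / Real.sqrt 3 := by positivity
  obtain ⟨t, ht⟩ : ∃ t : ℝ, t = Real.exp (-(Real.pi / Real.sqrt 3)) := ⟨_, rfl⟩
  obtain ⟨c, hc⟩ : ∃ c : ℝ, c = Real.pi / Real.sqrt 3 := ⟨_, rfl⟩
  rw [← ht] at ht0 ht1 hmain
  rw [← hc] at hc1 hc0 hmain
  have hp := (KHb_psr_bounds (v := 9 * (c * u)) (by positivity)).1
  have h10 : t ^ 10 ≤ (0.1631 : ℝ) ^ 10 := pow_le_pow_left₀ ht0.le ht1 10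
  have h2 : 4 * t ^ 10 * c ≤ 1 / 10 ^ 7 := by
    calc 4 * t ^ 10 * c ≤ 4 * (0.1631 : ℝ) ^ 10 * 1.81381 :=
          mul_le_mul (mul_le_mul_of_nonneg_left h10 (by norm_num)) hc1 hc0.le (by positivity)
      _ ≤ 1 / 10 ^ 7 := by norm_num
  have h3 : 0 ≤ 54 * t ^ 9 * (c * u) * psr (-(9 * (c * u))) := by positivity
  have h4 : 4 * t ^ 10 * (c * u) ≤ u * (1 / 10 ^ 7) := by nlinarith
  rw [abs_le] at hmain
  linarith [hmain.1]

theorem KH_upper {u : ℝ} (h0 : 0 < u) (_h1 : u ≤ 1 / 5) :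
    Gq (1 + u) y1c y1c y1c ≤ u * (KHf u + 9 / 10 ^ 6) := by
  have hmain := KHb_expand h0 _ _ rfl rfl
  have ht0 : 0 < Real.exp (-(Real.pi / Real.sqrt 3)) := Real.exp_pos _
  have ht1 := KHb_t_le
  have hc1 := KHb_c_bounds.2
  have hc0 : 0 < Real.pi / Real.sqrt 3 := by positivity
  obtain ⟨t, ht⟩ : ∃ t : ℝ, t = Real.exp (-(Real.pi / Real.sqrt 3)) := ⟨_, rfl⟩
  obtain ⟨c, hc⟩ : ∃ c : ℝ, c = Real.pi / Real.sqrt 3 := ⟨_, rfl⟩
  rw [← ht] at ht0 ht1 hmain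
  rw [← hc] at hc1 hc0 hmain
  have hp := KHb_psr_bounds (v := 9 * (c * u)) (by positivity)
  have h10 : t ^ 10 ≤ (0.1631 : ℝ) ^ 10 := pow_le_pow_left₀ ht0.le ht1 10
  have h9 : t ^ 9 ≤ (0.1631 : ℝ) ^ 9 := pow_le_pow_left₀ ht0.le ht1 9
  have h2 : 4 * t ^ 10 * c ≤ 1 / 10 ^ 7 := by
    calc 4 * t ^ 10 * c ≤ 4 * (0.1631 : ℝ) ^ 10 * 1.81381 :=
          mul_le_mul (mul_le_mul_of_nonneg_left h10 (by norm_num)) hc1 hc0.le (by positivity)
      _ ≤ 1 / 10 ^ 7 := by norm_num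
  have h3 : 54 * t ^ 9 * c ≤ 89 / 10 ^ 7 := by
    calc 54 * t ^ 9 * c ≤ 54 * (0.1631 : ℝ) ^ 9 * 1.81381 :=
          mul_le_mul (mul_le_mul_of_nonneg_left h9 (by norm_num)) hc1 hc0.le (by positivity)
      _ ≤ 89 / 10 ^ 7 := by norm_num
  have h4 : 54 * t ^ 9 * (c * u) * psr (-(9 * (c * u))) ≤ 54 * t ^ 9 * (c * u) * 1 :=
    mul_le_mul_of_nonneg_left hp.2 (by positivity)
  have h5 : 4 * t ^ 10 * (c * u) ≤ u * (1 / 10 ^ 7) := by nlinarith
  have h6 : 54 * t ^ 9 * (c * u) * 1 ≤ u * (89 / 10 ^ 7) := by nlinarith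
  rw [abs_le] at hmain
  have h7 : u * (KHf u + 9 / 10 ^ 6) = u * KHf u + u * (1 / 10 ^ 7) + u * (89 / 10 ^ 7) := by ring
  rw [h7]
  linarith [hmain.2]

end MP7e122f.R
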