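import Pool.Agent.Lib.MP_7e122f_anR.KDefs
import Pool.Agent.Lib.MP_7e122f_anR.NormA

/-!
# The parts of `GamN` (real identities)

`T_i = exp(x_i) exp(-h)`, `O_i = exp(-3 x_i) exp(-3h)`, `h = g0 κ r²`, `HH = 2 y chh = 2y + h`,
`psr(-v) = (1 - e^{-v})/v`.
-/

namespace MP7e122f.R

open MP7e122f.Num (psr)

noncomputable section

def gD1p (y r p : ℝ) : ℝ := Real.exp (-(hh y r p)) *
  ((Real.exp (xx1 r p) + Real.exp (xx2 r p) + Real.exp (xx3 r p) - 3) / (kap p * r ^ 2))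
def gD1n (y r p : ℝ) : ℝ := 3 * (g0 y r p * psr (-(hh y r p)))
def gD3p (y r p : ℝ) : ℝ := Real.exp (-(3 * hh y r p)) *
  ((Real.exp (-(3 * xx1 r p)) + Real.exp (-(3 * xx2 r p)) + Real.exp (-(3 * xx3 r p)) - 3)
    / (kap p * r ^ 2))
def gD3n (y r p : ℝ) : ℝ := 9 * (g0 y r p * psr (-(3 * hh y r p)))
def gD4p (y r p : ℝ) : ℝ := Real.exp (-(4 * hh y r p)) *
  ((Real.exp (4 * xx1 r p) + Real.exp (4 * xx2 r p) + Real.exp (4 * xx3 r p) - 3)
    / (kap p * r ^ 2))
def gD4n (y r p : ℝ) : ℝ := 12 * (g0 y r p * psr (-(4 * hh y r p)))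
def gc1 (r p : ℝ) : ℝ := (xx1 r p * Real.exp (xx1 r p) + xx2 r p * Real.exp (xx2 r p)
  + xx3 r p * Real.exp (xx3 r p)) / (kap p * r ^ 2)
def gc3 (r p : ℝ) : ℝ := -((xx1 r p * Real.exp (-(3 * xx1 r p))
  + xx2 r p * Real.exp (-(3 * xx2 r p)) + xx3 r p * Real.exp (-(3 * xx3 r p)))
    / (kap p * r ^ 2))
def gc4 (r p : ℝ) : ℝ := (xx1 r p * Real.exp (4 * xx1 r p) + xx2 r p * Real.exp (4 * xx2 r p)
  + xx3 r p * Real.exp (4 * xx3 r p)) / (kap p * r ^ 2)
def gm1 (y r p : ℝ) : ℝ := 2 * y * psr (-(hh y r p)) - Real.exp (-(hh y r p))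
def gm3 (y r p : ℝ) : ℝ := 6 * y * psr (-(3 * hh y r p)) - Real.exp (-(3 * hh y r p))
def gm4 (y r p : ℝ) : ℝ := 8 * y * psr (-(4 * hh y r p)) - Real.exp (-(4 * hh y r p))

end

variable {y r p : ℝ}

private theorem KNormG_psr (x : ℝ) : x * psr x = Real.exp x - 1 := by
  unfold psr
  by_cases h : x = 0
  · simp [h]
  · rw [if_neg h]
    field_simp

private theorem KNormG_kap (p : ℝ) : 0 < kap p := by
  unfold kap
  nlinarith [sq_nonneg (p - 1 / 2)]

private theorem KNormG_g0 (hy : 0 < y) : 0 < g0 y r p := by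
  have hk := KNormG_kap p
  have hc : 0 ≤ chh y r p := Real.sqrt_nonneg _
  unfold g0
  positivity

private theorem KNormG_HH (hy : 0 < y) : HH y r p = 2 * y + hh y r p := by
  have hk := KNormG_kap p
  have hc : 0 ≤ chh y r p := Real.sqrt_nonneg _
  have hc2 : chh y r p ^ 2 = 1 + kap p * r ^ 2 / (9 * y ^ 2) := by
    unfold chh
    exact Real.sq_sqrt (by positivity)
  have hc3 : y ^ 2 * chh y r p ^ 2 = y ^ 2 + kap p * r ^ 2 / 9 := by
    rw [hc2]
    field_simp
  have e : hh y r p = 2 * y * chh y r p - 2 * y := by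
    unfold hh g0
    have h1 : y * (chh y r p + 1) ≠ 0 := by positivity
    symm
    rw [div_mul_eq_mul_div, eq_div_iff h1]
    have e : (2 * y * chh y r p - 2 * y) * (y * (chh y r p + 1)) =
        2 * (y ^ 2 * chh y r p ^ 2) - 2 * y ^ 2 := by ring
    rw [e, hc3]
    ring
  unfold HH
  linarith

/-- `g0 κ r² psr(-h) = 1 - e^{-h}` and multiples -/
private theorem KNormG_g (c : ℝ) : c * (g0 y r p * (kap p * r ^ 2)) * psr (-(c * hh y r p)) =
    1 - Real.exp (-(c * hh y r p)) := by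
  have h := KNormG_psr (-(c * hh y r p))
  have e : c * (g0 y r p * (kap p * r ^ 2)) = c * hh y r p := rfl
  rw [e]
  linarith

private theorem KNormG_T (x h : ℝ) : Real.exp (x - h) = Real.exp (-h) * Real.exp x := by
  rw [← Real.exp_add]
  congr 1
  ring

private theorem KNormG_T4 (x h : ℝ) :
    Real.exp (x - h) ^ 4 = Real.exp (-(4 * h)) * Real.exp (4 * x) := by
  rw [← Real.exp_nat_mul, ← Real.exp_add]
  congr 1
  push_cast
  ring

private theorem KNormG_O (x h : ℝ) :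
    Real.exp (-(3 * (x + h))) = Real.exp (-(3 * h)) * Real.exp (-(3 * x)) := by
  rw [← Real.exp_add]
  congr 1
  ring

theorem gD1_eq (hy : 0 < y) (hr : 0 < r) : R.D1 y r p = gD1p y r p - gD1n y r p := by
  have hk := KNormG_kap p
  have hq : kap p * r ^ 2 ≠ 0 := by positivity
  have h1 := KNormG_g (y := y) (r := r) (p := p) 1
  rw [one_mul, one_mul] at h1
  unfold D1 gD1p gD1n T1 T2 T3
  rw [KNormG_T, KNormG_T, KNormG_T, div_eq_iff hq, sub_mul, mul_assoc, div_mul_cancel₀ _ hq]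
  linear_combination 3 * h1
theorem gD3_eq (hy : 0 < y) (hr : 0 < r) : R.D3 y r p = gD3p y r p - gD3n y r p := by
  have hk := KNormG_kap p
  have hq : kap p * r ^ 2 ≠ 0 := by positivity
  have h1 := KNormG_g (y := y) (r := r) (p := p) 3
  unfold D3 gD3p gD3n O1 O2 O3
  rw [KNormG_O, KNormG_O, KNormG_O, div_eq_iff hq, sub_mul, mul_assoc, div_mul_cancel₀ _ hq]
  linear_combination 3 * h1
theorem gD4_eq (hy : 0 < y) (hr : 0 < r) : R.D4 y r p = gD4p y r p - gD4n y r p := by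
  have hk := KNormG_kap p
  have hq : kap p * r ^ 2 ≠ 0 := by positivity
  have h1 := KNormG_g (y := y) (r := r) (p := p) 4
  unfold D4 gD4p gD4n T1 T2 T3
  rw [KNormG_T4, KNormG_T4, KNormG_T4, div_eq_iff hq, sub_mul, mul_assoc,
    div_mul_cancel₀ _ hq]
  linear_combination 3 * h1

/-- the three brackets of `GamN` -/
theorem gam1_eq (hy : 0 < y) (hr : 0 < r) :
    X1 y r p - 3 * g0 y r p - HH y r p * R.D1 y r p =
      (Real.exp (-(hh y r p)) * gc1 r p + 3 * (g0 y r p * gm1 y r p))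
        - HH y r p * gD1p y r p := by
  have hX : X1 y r p = Real.exp (-(hh y r p)) * gc1 r p := by
    unfold X1 gc1 T1 T2 T3
    rw [KNormG_T, KNormG_T, KNormG_T, mul_div_assoc']
    congr 1
    ring
  have h1 := KNormG_psr (-(hh y r p))
  rw [gD1_eq hy hr, hX, KNormG_HH hy]
  unfold gm1 gD1n
  linear_combination (-3 * g0 y r p) * h1
theorem gam3_eq (hy : 0 < y) (hr : 0 < r) :
    X3 y r p - 3 * g0 y r p - HH y r p * R.D3 y r p =
      (Real.exp (-(3 * hh y r p)) * gc3 r p + 3 * (g0 y r p * gm3 y r p))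
        - HH y r p * gD3p y r p := by
  have hX : X3 y r p = Real.exp (-(3 * hh y r p)) * gc3 r p := by
    unfold X3 gc3 O1 O2 O3
    rw [KNormG_O, KNormG_O, KNormG_O, mul_neg, mul_div_assoc']
    congr 2
    ring
  have h1 := KNormG_psr (-(3 * hh y r p))
  rw [gD3_eq hy hr, hX, KNormG_HH hy]
  unfold gm3 gD3n
  linear_combination (-3 * g0 y r p) * h1
theorem gam4_eq (hy : 0 < y) (hr : 0 < r) :
    HH y r p * R.D4 y r p - X4 y r p + 3 * g0 y r p = HH y r p * gD4p y r p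
      - (Real.exp (-(4 * hh y r p)) * gc4 r p + 3 * (g0 y r p * gm4 y r p)) := by
  have hX : X4 y r p = Real.exp (-(4 * hh y r p)) * gc4 r p := by
    unfold X4 gc4 T1 T2 T3
    rw [KNormG_T4, KNormG_T4, KNormG_T4, mul_div_assoc']
    congr 1
    ring
  have h1 := KNormG_psr (-(4 * hh y r p))
  rw [gD4_eq hy hr, hX, KNormG_HH hy]
  unfold gm4 gD4n
  linear_combination (3 * g0 y r p) * h1

private theorem KNormG_x (r p : ℝ) : xx1 r p = xx2 r p + p * r ∧
    xx2 r p = xx3 r p + (1 - p) * r ∧ xx1 r p = xx3 r p + r ∧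
    xx1 r p + xx2 r p + xx3 r p = 0 := by
  unfold xx1 xx2 xx3
  refine ⟨by ring, by ring, by ring, by ring⟩

/-- `∑ x_i f_i` for `∑ x_i = 0` -/
private theorem KNormG_sum (x1 x2 x3 f1 f2 f3 : ℝ) (h : x1 + x2 + x3 = 0) :
    3 * (x1 * f1 + x2 * f2 + x3 * f3) =
      (x1 - x2) * (f1 - f2) + (x2 - x3) * (f2 - f3) + (x1 - x3) * (f1 - f3) := by
  linear_combination (f1 + f2 + f3) * h

/-- symmetric formulas for `gc` (`∑ x_i = 0`, `x1 - x2 = p r`, `x2 - x3 = (1-p) r`,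
`x1 - x3 = r`): `∑ x_i f(x_i) = (1/3) ∑_{i<j} (x_i - x_j)(f(x_i) - f(x_j))` -/
theorem gc1_eq (hr : 0 < r) : gc1 r p = 1 / 3 * ((p ^ 2 * (Real.exp (xx2 r p) * psr (p * r))
    + (1 - p) ^ 2 * (Real.exp (xx3 r p) * psr ((1 - p) * r)) + Real.exp (xx3 r p) * psr r)
      / kap p) := by
  have hk := KNormG_kap p
  obtain ⟨a1, a2, a3, a4⟩ := KNormG_x r p
  have hs := KNormG_sum _ _ _ (Real.exp (xx1 r p)) (Real.exp (xx2 r p)) (Real.exp (xx3 r p)) a4
  have b1 : Real.exp (xx1 r p) - Real.exp (xx2 r p)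
      = Real.exp (xx2 r p) * (p * r * psr (p * r)) := by
    rw [KNormG_psr, a1, Real.exp_add]
    ring
  have b2 : Real.exp (xx2 r p) - Real.exp (xx3 r p)
      = Real.exp (xx3 r p) * ((1 - p) * r * psr ((1 - p) * r)) := by
    rw [KNormG_psr, a2, Real.exp_add]
    ring
  have b3 : Real.exp (xx1 r p) - Real.exp (xx3 r p)
      = Real.exp (xx3 r p) * (r * psr r) := by
    rw [KNormG_psr, a3, Real.exp_add]
    ring
  have c1 : xx1 r p - xx2 r p = p * r := by linarith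
  have c2 : xx2 r p - xx3 r p = (1 - p) * r := by linarith
  have c3 : xx1 r p - xx3 r p = r := by linarith
  rw [b1, b2, b3, c1, c2, c3] at hs
  have hk0 := hk.ne'
  have hr0 := hr.ne'
  unfold gc1
  rw [← mul_div_assoc, div_eq_div_iff (by positivity) hk0]
  linear_combination (kap p / 3) * hs
theorem gc3_eq (hr : 0 < r) : gc3 r p =
    (p ^ 2 * (Real.exp (-(3 * xx1 r p)) * psr (3 * (p * r)))
    + (1 - p) ^ 2 * (Real.exp (-(3 * xx2 r p)) * psr (3 * ((1 - p) * r)))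
    + Real.exp (-(3 * xx1 r p)) * psr (3 * r)) / kap p := by
  have hk := KNormG_kap p
  obtain ⟨a1, a2, a3, a4⟩ := KNormG_x r p
  have hs := KNormG_sum _ _ _ (Real.exp (-(3 * xx1 r p))) (Real.exp (-(3 * xx2 r p)))
    (Real.exp (-(3 * xx3 r p))) a4
  have b1 : Real.exp (-(3 * xx1 r p)) - Real.exp (-(3 * xx2 r p))
      = -(Real.exp (-(3 * xx1 r p)) * (3 * (p * r) * psr (3 * (p * r)))) := by
    have e : -(3 * xx2 r p) = -(3 * xx1 r p) + 3 * (p * r) := by rw [a1]; ring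
    rw [KNormG_psr, e, Real.exp_add]
    ring
  have b2 : Real.exp (-(3 * xx2 r p)) - Real.exp (-(3 * xx3 r p))
      = -(Real.exp (-(3 * xx2 r p)) * (3 * ((1 - p) * r) * psr (3 * ((1 - p) * r)))) := by
    have e : -(3 * xx3 r p) = -(3 * xx2 r p) + 3 * ((1 - p) * r) := by rw [a2]; ring
    rw [KNormG_psr, e, Real.exp_add]
    ring
  have b3 : Real.exp (-(3 * xx1 r p)) - Real.exp (-(3 * xx3 r p))
      = -(Real.exp (-(3 * xx1 r p)) * (3 * r * psr (3 * r))) := by
    have e : -(3 * xx3 r p) = -(3 * xx1 r p) + 3 * r := by rw [a3]; ring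
    rw [KNormG_psr, e, Real.exp_add]
    ring
  have c1 : xx1 r p - xx2 r p = p * r := by linarith
  have c2 : xx2 r p - xx3 r p = (1 - p) * r := by linarith
  have c3 : xx1 r p - xx3 r p = r := by linarith
  rw [b1, b2, b3, c1, c2, c3] at hs
  have hk0 := hk.ne'
  have hr0 := hr.ne'
  unfold gc3
  rw [← neg_div, div_eq_div_iff (by positivity) hk0]
  linear_combination (-(kap p) / 3) * hs
theorem gc4_eq (hr : 0 < r) : gc4 r p =
    4 / 3 * ((p ^ 2 * (Real.exp (4 * xx2 r p) * psr (4 * (p * r)))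
    + (1 - p) ^ 2 * (Real.exp (4 * xx3 r p) * psr (4 * ((1 - p) * r)))
    + Real.exp (4 * xx3 r p) * psr (4 * r)) / kap p) := by
  have hk := KNormG_kap p
  obtain ⟨a1, a2, a3, a4⟩ := KNormG_x r p
  have hs := KNormG_sum _ _ _ (Real.exp (4 * xx1 r p)) (Real.exp (4 * xx2 r p))
    (Real.exp (4 * xx3 r p)) a4
  have b1 : Real.exp (4 * xx1 r p) - Real.exp (4 * xx2 r p)
      = Real.exp (4 * xx2 r p) * (4 * (p * r) * psr (4 * (p * r))) := by
    have e : 4 * xx1 r p = 4 * xx2 r p + 4 * (p * r) := by rw [a1]; ring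
    rw [KNormG_psr, e, Real.exp_add]
    ring
  have b2 : Real.exp (4 * xx2 r p) - Real.exp (4 * xx3 r p)
      = Real.exp (4 * xx3 r p) * (4 * ((1 - p) * r) * psr (4 * ((1 - p) * r))) := by
    have e : 4 * xx2 r p = 4 * xx3 r p + 4 * ((1 - p) * r) := by rw [a2]; ring
    rw [KNormG_psr, e, Real.exp_add]
    ring
  have b3 : Real.exp (4 * xx1 r p) - Real.exp (4 * xx3 r p)
      = Real.exp (4 * xx3 r p) * (4 * r * psr (4 * r)) := by
    have e : 4 * xx1 r p = 4 * xx3 r p + 4 * r := by rw [a3]; ring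
    rw [KNormG_psr, e, Real.exp_add]
    ring
  have c1 : xx1 r p - xx2 r p = p * r := by linarith
  have c2 : xx2 r p - xx3 r p = (1 - p) * r := by linarith
  have c3 : xx1 r p - xx3 r p = r := by linarith
  rw [b1, b2, b3, c1, c2, c3] at hs
  have hk0 := hk.ne'
  have hr0 := hr.ne'
  unfold gc4
  rw [← mul_div_assoc, div_eq_div_iff (by positivity) hk0]
  linear_combination (kap p / 3) * hs

/-- `psr(-v) ≥ e^{-v}` -/
theorem gm_nonneg (hy : 1 / 2 ≤ y) (hr : 0 < r) :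
    0 ≤ gm1 y r p ∧ 0 ≤ gm3 y r p ∧ 0 ≤ gm4 y r p := by
  have hy0 : 0 < y := by linarith
  have hk := KNormG_kap p
  have hg := KNormG_g0 (r := r) (p := p) hy0
  have hh0 : 0 ≤ hh y r p := by
    unfold hh
    positivity
  have key : ∀ v : ℝ, 0 ≤ v → Real.exp (-v) ≤ psr (-v) := by
    intro v hv
    rcases hv.eq_or_lt with h | h
    · rw [← h]
      simp [psr]
    · have h1 := KNormG_psr (-v)
      have h2 : v + 1 ≤ Real.exp v := Real.add_one_le_exp v
      have h3 : Real.exp (-v) * Real.exp v = 1 := by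
        rw [← Real.exp_add]
        simp
      have h4 := Real.exp_pos (-v)
      have h5 : v * Real.exp (-v) ≤ v * psr (-v) := by nlinarith
      exact le_of_mul_le_mul_left h5 h
  have main : ∀ c v : ℝ, 1 ≤ c → 0 ≤ v → 0 ≤ c * psr (-v) - Real.exp (-v) := by
    intro c v hc hv
    have h1 := key v hv
    have h2 := Real.exp_pos (-v)
    nlinarith
  refine ⟨?_, ?_, ?_⟩
  · exact main _ _ (by linarith) hh0
  · exact main _ _ (by linarith) (by linarith)
  · exact main _ _ (by linarith) (by linarith)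

end MP7e122f.R
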