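import Pool.Agent.Lib.MP_7e122f_anR.NumBase

namespace MP7e122f.Num

open MP7e122f.R

private theorem NumBaseB_rvpos {n : Nat} (h : 0 < n) : 0 < rv n := by
  unfold rv
  have : (0 : ℝ) < (n : ℝ) := Nat.cast_pos.2 h
  positivity

private theorem NumBaseB_kpos (x : ℝ) : 0 < kap x := by
  unfold kap
  nlinarith [sq_nonneg (x - 1 / 2)]

private theorem NumBaseB_ksymm (x : ℝ) : kap (1 - x) = kap x := by
  unfold kap
  ring

private theorem NumBaseB_mono1 {a b : ℝ} (ha : 0 ≤ a) (hab : a ≤ b) (hb : b ≤ 1) :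
    a / kap a ≤ b / kap b := by
  rw [div_le_div_iff₀ (NumBaseB_kpos a) (NumBaseB_kpos b)]
  have h1 : a * b ≤ 1 := by nlinarith
  have h2 := mul_nonneg (sub_nonneg.2 hab) (sub_nonneg.2 h1)
  unfold kap
  nlinarith [h2]

private theorem NumBaseB_mono2 {a b : ℝ} (ha : 0 ≤ a) (hab : a ≤ b) (hb : b ≤ 1) :
    a ^ 2 / kap a ≤ b ^ 2 / kap b := by
  rw [div_le_div_iff₀ (NumBaseB_kpos a) (NumBaseB_kpos b)]
  have h1 : 0 ≤ a + b - a * b := by nlinarith
  have h2 := mul_nonneg (sub_nonneg.2 hab) h1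
  unfold kap
  nlinarith [h2]

private theorem NumBaseB_kapD_le {n : Nat} (hn : n ≤ 1099511627776) :
    rv (kapD n) ≤ kap (rv n) := by
  unfold kapD
  have h1 : n ≤ Nat.add 1099511627776 (mulD n n) := le_trans hn (Nat.le_add_right _ _)
  rw [rv_sub_eq h1, rv_add, rv_lit]
  have h2 := mulD_le n n
  unfold kap
  nlinarith [h2]

private theorem NumBaseB_le_kapU {n : Nat} (hn : n ≤ 1099511627776) :
    kap (rv n) ≤ rv (kapU n) := by
  unfold kapU
  have h1 : n ≤ Nat.add 1099511627776 (mulU n n) := le_trans hn (Nat.le_add_right _ _)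
  rw [rv_sub_eq h1, rv_add, rv_lit]
  have h2 := le_mulU n n
  unfold kap
  nlinarith [h2]

private theorem NumBaseB_kapD_pos {n : Nat} (hn : n ≤ 1099511627776) : 0 < kapD n := by
  rcases Nat.lt_or_ge n 1099511627776 with h | h
  · have h1 : kapD n = 1099511627776 + mulD n n - n := rfl
    rw [h1]
    omega
  · have h2 : n = 1099511627776 := le_antisymm hn h
    rw [h2]
    decide

private theorem NumBaseB_quo {n1 n2 k1 k2 : Nat} {x x1 κ1 x2 κ2 : ℝ}
    (h1 : rv n1 ≤ x1) (h1' : κ1 ≤ rv k1) (hκ1 : 0 < κ1) (hx1 : 0 ≤ x1) (h : x1 / κ1 ≤ x)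
    (h2 : x2 ≤ rv n2) (h2' : rv k2 ≤ κ2) (hk2 : 0 < k2) (h' : x ≤ x2 / κ2) :
    (⟨divD n1 k1, divU n2 k2⟩ : PI).Mem x := by
  refine ⟨?_, ?_⟩
  · exact (divD_le n1 k1).trans ((div_le_div₀ hx1 h1 hκ1 h1').trans h)
  · exact h'.trans ((div_le_div₀ (rv_nonneg n2) h2 (NumBaseB_rvpos hk2) h2').trans
      (le_divU n2 k2 hk2))

private theorem NumBaseB_mulU_le {a b A B : Nat} (ha : a ≤ A) (hb : b ≤ B) :
    mulU a b ≤ A * B / 1099511627776 + 1 := by
  have h1 : mulU a b = Nat.shiftRight (a * b) 40 + 1 := rfl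
  have h2 : Nat.shiftRight (a * b) 40 = (a * b) / 2 ^ 40 := Nat.shiftRight_eq_div_pow _ _
  rw [h1, h2]
  have h3 : a * b ≤ A * B := Nat.mul_le_mul ha hb
  have h4 : (a * b) / 2 ^ 40 ≤ (A * B) / 2 ^ 40 := Nat.div_le_div_right h3
  have h5 : (2 : ℕ) ^ 40 = 1099511627776 := by norm_num
  rw [h5] at h4 ⊢
  omega

private theorem NumBaseB_le_mulD {a b A B : Nat} (ha : A ≤ a) (hb : B ≤ b) :
    A * B / 1099511627776 ≤ mulD a b := by
  have h1 : mulD a b = Nat.shiftRight (a * b) 40 := rfl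
  have h2 : Nat.shiftRight (a * b) 40 = (a * b) / 2 ^ 40 := Nat.shiftRight_eq_div_pow _ _
  rw [h1, h2]
  have h3 : A * B ≤ a * b := Nat.mul_le_mul ha hb
  have h4 : (A * B) / 2 ^ 40 ≤ (a * b) / 2 ^ 40 := Nat.div_le_div_right h3
  have h5 : (2 : ℕ) ^ 40 = 1099511627776 := by norm_num
  rw [h5] at h4 ⊢
  exact h4

private theorem NumBaseB_mem {a b : Nat} {x : ℝ} (h1 : rv a ≤ x) (h2 : x ≤ rv b) :
    (⟨a, b⟩ : PI).Mem x := ⟨h1, h2⟩

private theorem NumBaseB_mem_mul {a b c d : Nat} {x y : ℝ} (h : (⟨a, b⟩ : PI).Mem x)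
    (h' : (⟨c, d⟩ : PI).Mem y) : (⟨mulD a c, mulU b d⟩ : PI).Mem (x * y) := by
  have h1 : rv a ≤ x := h.1
  have h2 : x ≤ rv b := h.2
  have h3 : rv c ≤ y := h'.1
  have h4 : y ≤ rv d := h'.2
  have x0 : 0 ≤ x := (rv_nonneg a).trans h1
  refine NumBaseB_mem ?_ ?_
  · exact (mulD_le a c).trans (mul_le_mul h1 h3 (rv_nonneg _) x0)
  · exact (mul_le_mul h2 h4 ((rv_nonneg c).trans h3) (rv_nonneg _)).trans (le_mulU b d)

private theorem NumBaseB_hi_le (a b N : Nat) (h : b ≤ N) : (⟨a, b⟩ : PI).hi ≤ N := h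

private theorem NumBaseB_smul_hi {m d : Nat} (a : PI) {N : Nat} (h : a.hi ≤ N) :
    (PI.smul m d a).hi ≤ m * N / d + 1 := by
  have h1 : (PI.smul m d a).hi = (m * a.hi) / d + 1 := rfl
  rw [h1]
  have h2 : m * a.hi ≤ m * N := Nat.mul_le_mul_left _ h
  have h3 := Nat.div_le_div_right (c := d) h2
  omega

/-- Monotonicity used: `p²/κ`, `p/κ` are increasing, `(1-p)²/κ`, `(1-p)/κ` decreasing on `[0,1]`;
`κ` is convex with minimum `3/4` at `1/2`. All arguments of `psi`, `exp` are `≤ 2`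
(`r ≤ 5`, and `hh2` for `h`). -/
theorem base_ok {yI : PI} {y r p : ℝ} (hy : yI.Mem y) (hylo : 549755813888 ≤ yI.lo)
    {rl rh pl ph : Nat} (hc : cellChk rl rh pl ph = true)
    (hh2 : Nat.ble (mkBase yI rl rh pl ph).h.hi 2199023255552 = true)
    (hr0 : 0 < r) (hr1 : rv rl ≤ r) (hr2 : r ≤ rv rh) (hp1 : rv pl ≤ p) (hp2 : p ≤ rv ph) :
    BaseOK (mkBase yI rl rh pl ph) y r p := by
  -- the checks
  have hc' : rl ≤ rh ∧ rh ≤ 5497558138880 ∧ pl ≤ ph ∧ ph ≤ 1099511627776 := by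
    have h := hc
    simp only [cellChk, Bool.and_eq_true, Nat.ble_eq] at h
    exact ⟨h.1, h.2.1, h.2.2.1, h.2.2.2⟩
  obtain ⟨hrr, hrh, hpp, hph⟩ := hc'
  have hpl : pl ≤ 1099511627776 := hpp.trans hph
  have hhi : (mkBase yI rl rh pl ph).h.hi ≤ 2199023255552 := Nat.le_of_ble_eq_true hh2
  have rpl0 := rv_nonneg pl
  have rph1 : rv ph ≤ 1 := by
    have := rv_mono hph
    rwa [rv_lit] at this
  have p0 : 0 ≤ p := rpl0.trans hp1
  have p1 : p ≤ 1 := hp2.trans rph1
  have rpl1 : rv pl ≤ 1 := hp1.trans p1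
  have rph0 := rv_nonneg ph
  -- `r`, `p`, `1 - p`
  have mr : (⟨rl, rh⟩ : PI).Mem r := ⟨hr1, hr2⟩
  have mp : (⟨pl, ph⟩ : PI).Mem p := ⟨hp1, hp2⟩
  have q1l : rv (Nat.sub 1099511627776 ph) = 1 - rv ph := by rw [rv_sub_eq hph, rv_lit]
  have q1h : rv (Nat.sub 1099511627776 pl) = 1 - rv pl := by rw [rv_sub_eq hpl, rv_lit]
  have mp1 : (⟨Nat.sub 1099511627776 ph, Nat.sub 1099511627776 pl⟩ : PI).Mem (1 - p) := by
    refine ⟨?_, ?_⟩
    · show rv (Nat.sub 1099511627776 ph) ≤ 1 - p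
      rw [q1l]
      linarith
    · show 1 - p ≤ rv (Nat.sub 1099511627776 pl)
      rw [q1h]
      linarith
  -- `κ`
  have kaD := NumBaseB_kapD_le hpl
  have kbD := NumBaseB_kapD_le hph
  have kaU := NumBaseB_le_kapU hpl
  have kbU := NumBaseB_le_kapU hph
  have kaDp := NumBaseB_kapD_pos hpl
  have kbDp := NumBaseB_kapD_pos hph
  have mkap : (⟨cond (Nat.ble ph 549755813888) (kapD ph)
      (cond (Nat.ble 549755813888 pl) (kapD pl) 824633720832),
      maxN (kapU pl) (kapU ph)⟩ : PI).Mem (kap p) := by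
    refine ⟨?_, ?_⟩
    · show rv (cond (Nat.ble ph 549755813888) (kapD ph)
        (cond (Nat.ble 549755813888 pl) (kapD pl) 824633720832)) ≤ kap p
      cases h1 : Nat.ble ph 549755813888 with
      | true =>
        show rv (kapD ph) ≤ kap p
        have h2 := rv_le h1
        have h3 : rv 549755813888 = 1 / 2 := by unfold rv; norm_num
        rw [h3] at h2
        refine kbD.trans ?_
        unfold kap
        nlinarith [mul_nonneg (sub_nonneg.2 hp2) (show (0 : ℝ) ≤ 1 - p - rv ph by linarith)]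
      | false =>
        cases h4 : Nat.ble 549755813888 pl with
        | true =>
          show rv (kapD pl) ≤ kap p
          have h2 := rv_le h4
          have h3 : rv 549755813888 = 1 / 2 := by unfold rv; norm_num
          rw [h3] at h2
          refine kaD.trans ?_
          unfold kap
          nlinarith [mul_nonneg (sub_nonneg.2 hp1) (show (0 : ℝ) ≤ p + rv pl - 1 by linarith)]
        | false =>
          show rv 824633720832 ≤ kap p
          have h3 : rv 824633720832 = 3 / 4 := by unfold rv; norm_num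
          rw [h3]
          unfold kap
          nlinarith [sq_nonneg (p - 1 / 2)]
    · show kap p ≤ rv (maxN (kapU pl) (kapU ph))
      rw [rv_maxN]
      rcases le_total (p + rv pl) 1 with h | h
      · refine le_trans ?_ (kaU.trans (le_max_left _ _))
        unfold kap
        nlinarith [mul_nonneg (sub_nonneg.2 hp1) (sub_nonneg.2 h)]
      · refine le_trans ?_ (kbU.trans (le_max_right _ _))
        unfold kap
        nlinarith [mul_nonneg (sub_nonneg.2 hp2) (show (0 : ℝ) ≤ p + rv ph - 1 by linarith)]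
  have kap0 : 0 < (⟨cond (Nat.ble ph 549755813888) (kapD ph)
      (cond (Nat.ble 549755813888 pl) (kapD pl) 824633720832),
      maxN (kapU pl) (kapU ph)⟩ : PI).lo := by
    show 0 < cond (Nat.ble ph 549755813888) (kapD ph)
      (cond (Nat.ble 549755813888 pl) (kapD pl) 824633720832)
    cases Nat.ble ph 549755813888 with
    | true => exact kbDp
    | false =>
      cases Nat.ble 549755813888 pl with
      | true => exact kaDp
      | false => show 0 < 824633720832; norm_num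
  have mWc := PI.Mem.inv mkap kap0
  -- quotients by `κ`
  have ssl : rv (mulD pl pl) ≤ rv pl ^ 2 := by rw [sq]; exact mulD_le pl pl
  have ssh : rv ph ^ 2 ≤ rv (mulU ph ph) := by rw [sq]; exact le_mulU ph ph
  have mWa : (⟨divD (mulD pl pl) (kapU pl), divU (mulU ph ph) (kapD ph)⟩ : PI).Mem
      (p ^ 2 / kap p) :=
    NumBaseB_quo ssl kaU (NumBaseB_kpos _) (sq_nonneg _) (NumBaseB_mono2 rpl0 hp1 p1)
      ssh kbD kbDp (NumBaseB_mono2 p0 hp2 rph1)
  have mpk : (⟨divD pl (kapU pl), divU ph (kapD ph)⟩ : PI).Mem (p / kap p) :=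
    NumBaseB_quo le_rfl kaU (NumBaseB_kpos _) rpl0 (NumBaseB_mono1 rpl0 hp1 p1)
      le_rfl kbD kbDp (NumBaseB_mono1 p0 hp2 rph1)
  have kbU' : kap (1 - rv ph) ≤ rv (kapU ph) := by rw [NumBaseB_ksymm]; exact kbU
  have kaD' : rv (kapD pl) ≤ kap (1 - rv pl) := by rw [NumBaseB_ksymm]; exact kaD
  have q0 : 0 ≤ 1 - rv ph := by linarith
  have mWb : (⟨divD (mulD (Nat.sub 1099511627776 ph) (Nat.sub 1099511627776 ph)) (kapU ph),
      divU (mulU (Nat.sub 1099511627776 pl) (Nat.sub 1099511627776 pl)) (kapD pl)⟩ : PI).Mem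
      ((1 - p) ^ 2 / kap p) := by
    have e1 : rv (mulD (Nat.sub 1099511627776 ph) (Nat.sub 1099511627776 ph)) ≤
        (1 - rv ph) ^ 2 := by
      rw [← q1l, sq]
      exact mulD_le _ _
    have e2 : (1 - rv pl) ^ 2 ≤
        rv (mulU (Nat.sub 1099511627776 pl) (Nat.sub 1099511627776 pl)) := by
      rw [← q1h, sq]
      exact le_mulU _ _
    rw [← NumBaseB_ksymm p]
    exact NumBaseB_quo e1 kbU' (NumBaseB_kpos _) (sq_nonneg _)
      (NumBaseB_mono2 q0 (by linarith) (by linarith)) e2 kaD' kaDp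
      (NumBaseB_mono2 (by linarith) (by linarith) (by linarith))
  have mp1k : (⟨divD (Nat.sub 1099511627776 ph) (kapU ph),
      divU (Nat.sub 1099511627776 pl) (kapD pl)⟩ : PI).Mem ((1 - p) / kap p) := by
    rw [← NumBaseB_ksymm p]
    exact NumBaseB_quo q1l.le kbU' (NumBaseB_kpos _) q0
      (NumBaseB_mono1 q0 (by linarith) (by linarith)) q1h.ge kaD' kaDp
      (NumBaseB_mono1 (by linarith) (by linarith) (by linarith))
  -- `ch`, `g0`, `h`
  have y0 : 0 < y := by
    have h1 : (1 : ℝ) / 2 ≤ rv yI.lo := by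
      have h2 := rv_mono hylo
      have h3 : rv 549755813888 = 1 / 2 := by unfold rv; norm_num
      rwa [h3] at h2
    linarith [hy.1]
  have mkr2 := PI.Mem.mul mkap (PI.Mem.sq mr)
  have sqlo : 0 < (PI.sq yI).lo := by
    show 0 < mulD yI.lo yI.lo
    have h1 := NumBaseB_le_mulD hylo hylo
    have h2 : (549755813888 * 549755813888 / 1099511627776 : ℕ) = 274877906944 := by norm_num
    rw [h2] at h1
    omega
  have mch := sqrtPI_mem (PI.Mem.add PI.Mem.one
    (PI.Mem.smul 1 9 (by norm_num) (PI.Mem.div mkr2 (PI.Mem.sq hy) sqlo)))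
  have ech : Real.sqrt (1 + ((1 : ℕ) : ℝ) / ((9 : ℕ) : ℝ) * (kap p * r ^ 2 / y ^ 2)) =
      chh y r p := by
    unfold chh
    congr 1
    push_cast
    field_simp
  rw [ech] at mch
  have mmu := PI.Mem.mul hy mch
  have mden := PI.Mem.mul hy (PI.Mem.add mch PI.Mem.one)
  have hden : ∀ c : PI, 0 < (PI.mul yI (PI.add c PI.one)).lo := by
    intro c
    show 0 < mulD yI.lo (Nat.add c.lo 1099511627776)
    have h0 : 1099511627776 ≤ Nat.add c.lo 1099511627776 := Nat.le_add_left _ _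
    have h1 := NumBaseB_le_mulD hylo h0
    have h2 : (549755813888 * 1099511627776 / 1099511627776 : ℕ) = 549755813888 := by norm_num
    rw [h2] at h1
    omega
  have mg0 := PI.Mem.smul 2 9 (by norm_num) (PI.Mem.inv mden (hden _))
  have eg0 : ((2 : ℕ) : ℝ) / ((9 : ℕ) : ℝ) * (1 / (y * (chh y r p + 1))) = g0 y r p := by
    unfold g0
    push_cast
    ring
  rw [eg0] at mg0
  have mh := PI.Mem.mul mg0 mkr2
  have meh := PI.Mem.inv (exp_mem mh hhi) (exp_lo_pos _)
  have eeh : 1 / Real.exp (g0 y r p * (kap p * r ^ 2)) = Real.exp (-(hh y r p)) := by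
    unfold hh
    rw [Real.exp_neg, one_div]
  rw [eeh] at meh
  -- `f1`
  have m1p : (⟨Nat.add 1099511627776 pl, Nat.add 1099511627776 ph⟩ : PI).Mem (1 + p) :=
    PI.Mem.add PI.Mem.one mp
  have mf1 := exp_mem (PI.Mem.smul 1 9 (by norm_num) (PI.Mem.mul m1p mr)) (by
    have h1 : (PI.mul ⟨Nat.add 1099511627776 pl, Nat.add 1099511627776 ph⟩ ⟨rl, rh⟩).hi ≤
        10995116277761 := by
      show mulU (Nat.add 1099511627776 ph) rh ≤ 10995116277761
      have h2 : Nat.add 1099511627776 ph ≤ 2199023255552 := by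
        show 1099511627776 + ph ≤ 2199023255552
        omega
      have h3 := NumBaseB_mulU_le h2 hrh
      have h4 : (2199023255552 * 5497558138880 / 1099511627776 + 1 : ℕ) = 10995116277761 := by
        norm_num
      rwa [h4] at h3
    have h5 := NumBaseB_smul_hi (m := 1) (d := 9) _ h1
    refine h5.trans ?_
    norm_num)
  have ef1 : ((1 : ℕ) : ℝ) / ((9 : ℕ) : ℝ) * ((1 + p) * r) = xx1 r p / 3 := by
    unfold xx1
    push_cast
    ring
  rw [ef1] at mf1
  -- `f3`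
  have m2p : (⟨Nat.sub 2199023255552 ph, Nat.sub 2199023255552 pl⟩ : PI).Mem (2 - p) := by
    have e2 : rv 2199023255552 = 2 := by unfold rv; norm_num
    refine ⟨?_, ?_⟩
    · show rv (Nat.sub 2199023255552 ph) ≤ 2 - p
      rw [rv_sub_eq (by omega), e2]
      linarith
    · show 2 - p ≤ rv (Nat.sub 2199023255552 pl)
      rw [rv_sub_eq (by omega), e2]
      linarith
  have mf3 := PI.Mem.inv (exp_mem (PI.Mem.smul 1 9 (by norm_num) (PI.Mem.mul m2p mr)) (by
    have h1 : (PI.mul ⟨Nat.sub 2199023255552 ph, Nat.sub 2199023255552 pl⟩ ⟨rl, rh⟩).hi ≤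
        10995116277761 := by
      show mulU (Nat.sub 2199023255552 pl) rh ≤ 10995116277761
      have h2 : Nat.sub 2199023255552 pl ≤ 2199023255552 := Nat.sub_le _ _
      have h3 := NumBaseB_mulU_le h2 hrh
      have h4 : (2199023255552 * 5497558138880 / 1099511627776 + 1 : ℕ) = 10995116277761 := by
        norm_num
      rwa [h4] at h3
    have h5 := NumBaseB_smul_hi (m := 1) (d := 9) _ h1
    refine h5.trans ?_
    norm_num)) (exp_lo_pos _)
  have ef3 : 1 / Real.exp (((1 : ℕ) : ℝ) / ((9 : ℕ) : ℝ) * ((2 - p) * r)) =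
      Real.exp (xx3 r p / 3) := by
    rw [one_div, ← Real.exp_neg]
    congr 1
    unfold xx3
    push_cast
    ring
  rw [ef3] at mf3
  -- `f2`
  have h2ph : rv (Nat.mul 2 ph) = 2 * rv ph := by rw [rv_nmul]; norm_num
  have h2pl : rv (Nat.mul 2 pl) = 2 * rv pl := by rw [rv_nmul]; norm_num
  have mu2 : (⟨Nat.sub 1099511627776 (Nat.mul 2 ph), Nat.sub 1099511627776 (Nat.mul 2 pl)⟩ :
      PI).Mem (max (1 - 2 * p) 0) := by
    refine NumBaseB_mem ?_ ?_
    · refine rv_sub_of_le ?_ (le_max_right _ _)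
      rw [rv_lit, h2ph]
      refine le_trans ?_ (le_max_left _ _)
      linarith
    · refine max_le ?_ (rv_nonneg _)
      refine le_trans ?_ (rv_sub_le _ _)
      rw [rv_lit, h2pl]
      linarith
  have mv2 : (⟨Nat.sub (Nat.mul 2 pl) 1099511627776, Nat.sub (Nat.mul 2 ph) 1099511627776⟩ :
      PI).Mem (max (2 * p - 1) 0) := by
    refine NumBaseB_mem ?_ ?_
    · refine rv_sub_of_le ?_ (le_max_right _ _)
      rw [rv_lit, h2pl]
      refine le_trans ?_ (le_max_left _ _)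
      linarith
    · refine max_le ?_ (rv_nonneg _)
      refine le_trans ?_ (rv_sub_le _ _)
      rw [rv_lit, h2ph]
      linarith
  have h10 : (2199023255552 * 5497558138880 / 1099511627776 + 1 : ℕ) = 10995116277761 := by
    norm_num
  have hu2 : Nat.sub 1099511627776 (Nat.mul 2 pl) ≤ 2199023255552 :=
    (Nat.sub_le _ _).trans (by norm_num)
  have hv2 : Nat.sub (Nat.mul 2 ph) 1099511627776 ≤ 2199023255552 := by
    refine (Nat.sub_le _ _).trans ?_
    show 2 * ph ≤ 2199023255552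
    omega
  have hu3 := NumBaseB_mulU_le hu2 hrh
  have hv3 := NumBaseB_mulU_le hv2 hrh
  rw [h10] at hu3 hv3
  have h11 : (1 * 10995116277761 / 9 + 1 : ℕ) ≤ 2199023255552 := by norm_num
  have mf2 := PI.Mem.div
    (exp_mem (PI.Mem.smul 1 9 (by norm_num) (NumBaseB_mem_mul mu2 mr))
      ((NumBaseB_smul_hi _ (NumBaseB_hi_le _ _ _ hu3)).trans h11))
    (exp_mem (PI.Mem.smul 1 9 (by norm_num) (NumBaseB_mem_mul mv2 mr))
      ((NumBaseB_smul_hi _ (NumBaseB_hi_le _ _ _ hv3)).trans h11)) (exp_lo_pos _)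
  have ef2 : Real.exp (((1 : ℕ) : ℝ) / ((9 : ℕ) : ℝ) * (max (1 - 2 * p) 0 * r)) /
      Real.exp (((1 : ℕ) : ℝ) / ((9 : ℕ) : ℝ) * (max (2 * p - 1) 0 * r)) =
      Real.exp (xx2 r p / 3) := by
    rw [← Real.exp_sub]
    congr 1
    have h1 : max (1 - 2 * p) 0 - max (2 * p - 1) 0 = 1 - 2 * p := by
      rcases le_total (1 - 2 * p) 0 with h | h
      · rw [max_eq_right h, max_eq_left (by linarith)]
        ring
      · rw [max_eq_left h, max_eq_right (by linarith)]
        ring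
    unfold xx2
    push_cast
    have h2 : (1 : ℝ) / 9 * (max (1 - 2 * p) 0 * r) - 1 / 9 * (max (2 * p - 1) 0 * r) =
        (max (1 - 2 * p) 0 - max (2 * p - 1) 0) * r / 9 := by ring
    rw [h2, h1]
    ring
  rw [ef2] at mf2
  -- `psi`
  have ma3 := PI.Mem.smul 1 3 (by norm_num) (PI.Mem.mul mp mr)
  have mb3 := PI.Mem.smul 1 3 (by norm_num) (PI.Mem.mul mp1 mr)
  have mr3 := PI.Mem.smul 1 3 (by norm_num) mr
  have ea3 : ((1 : ℕ) : ℝ) / ((3 : ℕ) : ℝ) * (p * r) = p * r / 3 := by push_cast; ring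
  have eb3 : ((1 : ℕ) : ℝ) / ((3 : ℕ) : ℝ) * ((1 - p) * r) = (1 - p) * r / 3 := by
    push_cast; ring
  have er3 : ((1 : ℕ) : ℝ) / ((3 : ℕ) : ℝ) * r = r / 3 := by push_cast; ring
  rw [ea3] at ma3
  rw [eb3] at mb3
  rw [er3] at mr3
  have ha3 : (PI.smul 1 3 (PI.mul ⟨pl, ph⟩ ⟨rl, rh⟩)).hi ≤ 2199023255552 := by
    have h1 : (PI.mul ⟨pl, ph⟩ ⟨rl, rh⟩).hi ≤ 5497558138881 := by
      show mulU ph rh ≤ 5497558138881
      have h3 := NumBaseB_mulU_le hph hrh
      have h4 : (1099511627776 * 5497558138880 / 1099511627776 + 1 : ℕ) = 5497558138881 := by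
        norm_num
      rwa [h4] at h3
    have h5 := NumBaseB_smul_hi (m := 1) (d := 3) _ h1
    refine h5.trans ?_
    norm_num
  have hb3 : (PI.smul 1 3 (PI.mul ⟨Nat.sub 1099511627776 ph, Nat.sub 1099511627776 pl⟩
      ⟨rl, rh⟩)).hi ≤ 2199023255552 := by
    have h1 : (PI.mul ⟨Nat.sub 1099511627776 ph, Nat.sub 1099511627776 pl⟩ ⟨rl, rh⟩).hi ≤
        5497558138881 := by
      show mulU (Nat.sub 1099511627776 pl) rh ≤ 5497558138881
      have h2 : Nat.sub 1099511627776 pl ≤ 1099511627776 := Nat.sub_le _ _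
      have h3 := NumBaseB_mulU_le h2 hrh
      have h4 : (1099511627776 * 5497558138880 / 1099511627776 + 1 : ℕ) = 5497558138881 := by
        norm_num
      rwa [h4] at h3
    have h5 := NumBaseB_smul_hi (m := 1) (d := 3) _ h1
    refine h5.trans ?_
    norm_num
  have hr3 : (PI.smul 1 3 ⟨rl, rh⟩).hi ≤ 2199023255552 := by
    have h5 := NumBaseB_smul_hi (m := 1) (d := 3) ⟨rl, rh⟩ hrh
    refine h5.trans ?_
    norm_num
  have mPa := psi_mem ma3 ha3
  have mPb := psi_mem mb3 hb3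
  have mPr := psi_mem mr3 hr3
  have mEa := expOf_mem ma3 mPa
  have mEb := expOf_mem mb3 mPb
  have mEr := expOf_mem mr3 mPr
  exact { mr := mr, mp := mp, mp1 := mp1, mkap := mkap, mWa := mWa, mWb := mWb, mWc := mWc,
          mpk := mpk, mp1k := mp1k, mmu := mmu, mg0 := mg0, mh := mh, meh := meh, mf1 := mf1,
          mf2 := mf2, mf3 := mf3, mPa := mPa, mPb := mPb, mPr := mPr, mEa := mEa, mEb := mEb,
          mEr := mEr }

end MP7e122f.Num
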