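import Pool.Agent.Lib.MP_7e122f_anR.KNumGB
import Pool.Agent.Lib.MP_7e122f_anR.NumBaseB
import Pool.Agent.Lib.MP_7e122f_anR.NumBaseA

namespace MP7e122f.Num

open MP7e122f.R

/-- `hh ≤ rho` on the cells: `g0 ≤ 1/(9y)`, `g0 √κ r ≤ 2/3` for `y ≥ 0.9`, `r ≤ 5` -/
theorem hh_le_rho {y r p : ℝ} (hy : 0.9 ≤ y) (hr : 0 < r) (hr5 : r ≤ 5) (hp0 : 0 ≤ p)
    (hp1 : p ≤ 1) : hh y r p ≤ R.rho r p := by
  have hy0 : 0 < y := by linarith
  have hk : 0 < kap p := by unfold kap; nlinarith [sq_nonneg (2 * p - 1)]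
  set q : ℝ := Real.sqrt (kap p) * r with hq
  have hq0 : 0 < q := mul_pos (Real.sqrt_pos.2 hk) hr
  have hq2 : q ^ 2 = kap p * r ^ 2 := by rw [hq, mul_pow, Real.sq_sqrt hk.le]
  have hc : q / (3 * y) ≤ chh y r p := by
    unfold chh
    apply Real.le_sqrt_of_sq_le
    rw [div_pow, hq2]
    have : kap p * r ^ 2 / (3 * y) ^ 2 = kap p * r ^ 2 / (9 * y ^ 2) := by ring_nf
    rw [this]
    linarith
  have hyc : q / 3 ≤ y * (chh y r p + 1) := by
    have h1 : y * (q / (3 * y)) ≤ y * chh y r p := mul_le_mul_of_nonneg_left hc hy0.le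
    have h2 : y * (q / (3 * y)) = q / 3 := by field_simp
    rw [h2] at h1
    linarith [mul_add y (chh y r p) 1]
  have hd : 0 < y * (chh y r p + 1) := lt_of_lt_of_le (by positivity) hyc
  have h1 : hh y r p = 2 / 9 / (y * (chh y r p + 1)) * q ^ 2 := by
    unfold hh g0
    rw [hq2]
  have h2 : R.rho r p = 2 / 3 * q := by
    unfold R.rho
    rw [hq]
    ring
  rw [h1, h2, div_mul_eq_mul_div, div_le_iff₀ hd]
  have h3 : 2 / 3 * q * (q / 3) ≤ 2 / 3 * q * (y * (chh y r p + 1)) :=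
    mul_le_mul_of_nonneg_left hyc (by positivity)
  nlinarith

private theorem KNumAC_cell {S : Slab} {a b rl rh pl ph vmax : Nat}
    (hc : cellChk (mulD rl a) (mulU rh b) pl ph = true)
    (hg : gcellChk S (mkBase S.y (mulD rl a) (mulU rh b) pl ph) vmax = true)
    {r1 p σ : ℝ} (hS : SlabOK S (σ * y1c)) (hr0 : 0 < r1) (hr1 : rv rl ≤ r1)
    (hr2 : r1 ≤ rv rh) (hp1 : rv pl ≤ p)
    (hp2 : p ≤ rv ph) (hσ0 : 0 < σ) (hσ1 : rv a ≤ σ) (hσ2 : σ ≤ rv b) :
    BaseOK (mkBase S.y (mulD rl a) (mulU rh b) pl ph) (σ * y1c)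
      (σ * r1) p ∧ 0 ≤ p ∧ p ≤ 1 ∧ hh (σ * y1c) (σ * r1) p ≤ R.rho (σ * r1) p ∧
    vpi (σ * y1c) (σ * r1) p ≤ rv (vpU S (mkBase S.y (mulD rl a) (mulU rh b) pl ph)) ∧
    vpi (σ * y1c) (σ * r1) p ≤ rv vmax := by
  have hc' : mulD rl a ≤ mulU rh b ∧ mulU rh b ≤ 5497558138880 ∧ pl ≤ ph ∧
      ph ≤ 1099511627776 := by
    have h := hc
    simp only [cellChk, Bool.and_eq_true, Nat.ble_eq] at h
    exact ⟨h.1, h.2.1, h.2.2.1, h.2.2.2⟩
  have q0 : 0 ≤ p := (rv_nonneg pl).trans hp1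
  have q1 : p ≤ 1 := by
    refine hp2.trans ?_
    rw [← rv_lit]
    exact rv_mono hc'.2.2.2
  have hr : 0 < σ * r1 := mul_pos hσ0 hr0
  have l1 : rv (mulD rl a) ≤ σ * r1 := by
    refine (mulD_le rl a).trans ?_
    rw [mul_comm σ r1]
    exact mul_le_mul hr1 hσ1 (rv_nonneg a) hr0.le
  have l2 : σ * r1 ≤ rv (mulU rh b) := by
    refine le_trans ?_ (le_mulU rh b)
    rw [mul_comm σ r1]
    exact mul_le_mul hr2 hσ2 hσ0.le (rv_nonneg rh)
  have hbase := base_ok (r := σ * r1) (p := p) hS.my hS.ylo hc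
  generalize mkBase S.y (mulD rl a) (mulU rh b) pl ph = B at hg hbase ⊢
  unfold gcellChk at hg
  rw [Bool.and_eq_true, Bool.and_eq_true, Bool.and_eq_true] at hg
  obtain ⟨-, hg2, hg3, hg4⟩ := hg
  have hB : BaseOK B (σ * y1c) (σ * r1) p :=
    hbase (Nat.ble_eq_true_of_le ((Nat.le_of_ble_eq_true hg2).trans (by norm_num))) hr l1 l2
      hp1 hp2
  have h5 : σ * r1 ≤ 5 := by
    refine l2.trans ?_
    have : rv 5497558138880 = 5 := by
      unfold rv
      norm_num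
    rw [← this]
    exact rv_mono hc'.2.1
  have hv := vpU_ok hS hB hr q0 q1 hg3
  exact ⟨hB, q0, q1, hh_le_rho hS.y1 hr h5 q0 q1, hv, hv.trans (rv_le hg4)⟩

private theorem KNumAC_slab {a b : Nat} (h : slabChk a b = true) :
    1099511627776 ≤ a ∧ a ≤ b := by
  simp only [slabChk, Bool.and_eq_true, Nat.ble_eq] at h
  exact ⟨h.1, h.2.1⟩

private theorem KNumAC_min (a b : Nat) : minN a b ≤ b := by
  unfold minN
  cases hb : Nat.ble a b with
  | true => exact Nat.le_of_ble_eq_true hb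
  | false => exact le_refl _

private theorem KNumAC_gm (rl rh pl ph : Nat) (q : SGI) (l : List SGI) :
    gamMin rl rh pl ph (q :: l) =
      cond (and (cellChk (mulD rl q.a) (mulU rh q.b) pl ph)
        (and (gcellChk q.S (mkBase q.S.y (mulD rl q.a) (mulU rh q.b) pl ph) 274877906944)
          (Nat.ble (gamPN q.S (mkBase q.S.y (mulD rl q.a) (mulU rh q.b) pl ph)).2
            (gamPN q.S (mkBase q.S.y (mulD rl q.a) (mulU rh q.b) pl ph)).1)))
      (minN (mulD q.a (Nat.sub (gamPN q.S (mkBase q.S.y (mulD rl q.a) (mulU rh q.b) pl ph)).1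
            (gamPN q.S (mkBase q.S.y (mulD rl q.a) (mulU rh q.b) pl ph)).2))
        (gamMin rl rh pl ph l)) 0 := rfl

private theorem KNumAC_sg (a b : Nat) (l : List Nat) :
    ∃ q : SGI, sgis a (b :: l) = q :: sgis b l ∧ q.S = mkSlab a b 0 false 0 0 ∧ q.a = a ∧
      q.b = b := ⟨⟨mkSlab a b 0 false 0 0, a, b⟩, rfl, rfl, rfl, rfl⟩

theorem gamMin_ok {l : List Nat} {a e : Nat} {rl rh pl ph : Nat} (ha : 1099511627776 ≤ a)
    (hs : sgisChk a e l = true) (hg : 1 ≤ gamMin rl rh pl ph (sgis a l)) {r1 p σ : ℝ}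
    (hr0 : 0 < r1) (hr1 : rv rl ≤ r1) (hr2 : r1 ≤ rv rh) (hp1 : rv pl ≤ p) (hp2 : p ≤ rv ph)
    (hσ1 : rv a ≤ σ) (hσ2 : σ ≤ rv e) (hae : rv a < rv e) :
    hh (σ * y1c) (σ * r1) p ≤ R.rho (σ * r1) p ∧ vpi (σ * y1c) (σ * r1) p ≤ 1 / 4 ∧
      rv (gamMin rl rh pl ph (sgis a l)) ≤
        σ * (GamN (σ * y1c) (σ * r1) p - GamR (σ * y1c) (σ * r1) p) := by
  induction l generalizing a with
  | nil =>
    have h3 : Nat.ble e a = true := hs
    exact absurd (rv_le h3) (not_le.2 hae)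
  | cons b l ih =>
    have h3 : (slabChk a b && sgisChk b e l) = true := hs
    rw [Bool.and_eq_true] at h3
    obtain ⟨hsl, hrest⟩ := h3
    obtain ⟨hua, hab⟩ := KNumAC_slab hsl
    have hσ0 : 0 < σ := by
      have : (1 : ℝ) ≤ rv a := by
        rw [← rv_lit]
        exact rv_mono hua
      linarith
    obtain ⟨q, hq, hqS, hqa, hqb⟩ := KNumAC_sg a b l
    have hSl : σ ≤ rv b → SlabOK q.S (σ * y1c) := by
      intro hlt
      rw [hqS]
      exact slab_ok hsl hσ1 hlt (by unfold y1c; ring)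
    rw [hq, KNumAC_gm, hqa, hqb] at hg ⊢
    clear hqS hq
    generalize q.S = S at hg hSl ⊢
    generalize hBd : mkBase S.y (mulD rl a) (mulU rh b) pl ph = B at hg ⊢
    generalize hpn : gamPN S B = pn at hg ⊢
    generalize hgl : gamMin rl rh pl ph (sgis b l) = gl at hg ⊢
    cases hcc : (and (cellChk (mulD rl a) (mulU rh b) pl ph)
          (and (gcellChk S B 274877906944) (Nat.ble pn.2 pn.1))) with
    | false =>
      rw [hcc] at hg
      exact absurd hg (by simp)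
    | true =>
      rw [hcc] at hg
      rw [cond_true] at hg ⊢
      rw [Bool.and_eq_true, Bool.and_eq_true] at hcc
      obtain ⟨hc1, hc2, hc3⟩ := hcc
      have hmin := rv_minN (mulD a (Nat.sub pn.1 pn.2)) gl
      rw [hmin]
      rcases le_or_gt σ (rv b) with hlt | hgt
      · rw [← hBd] at hc2
        have hS := hSl hlt
        obtain ⟨hB, q0, q1, hh1, hv1, hv2⟩ :=
          KNumAC_cell hc1 hc2 hS hr0 hr1 hr2 hp1 hp2 hσ0 hσ1 hlt
        have hpn' := gamPN_ok hS hB (mul_pos hσ0 hr0) q0 q1 hc2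
        rw [hBd, hpn] at hpn'
        refine ⟨hh1, ?_, ?_⟩
        · refine hv2.trans (le_of_eq ?_)
          unfold rv
          norm_num
        · refine (min_le_left _ _).trans ((mulD_le _ _).trans ?_)
          rw [rv_sub_eq (Nat.le_of_ble_eq_true hc3)]
          have h0 : 0 ≤ rv pn.1 - rv pn.2 := sub_nonneg.2 (rv_le hc3)
          exact mul_le_mul hσ1 hpn' h0 hσ0.le
      · have hgl1 : 1 ≤ gl := hg.trans (KNumAC_min _ _)
        have h6 := ih (a := b) (hua.trans hab) hrest (by rw [hgl]; exact hgl1) hgt.le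
          (lt_of_lt_of_le hgt hσ2)
        rw [hgl] at h6
        exact ⟨h6.1, h6.2.1, (min_le_right _ _).trans h6.2.2⟩

/-- one signed term: `w κ D`, `D ≤ P - N` -/
private theorem KNumAC_term {w k D : ℝ} {wl wh kl kh P N : Nat} (hw1 : rv wl ≤ w)
    (hw2 : w ≤ rv wh) (hk1 : rv kl ≤ k) (hk2 : k ≤ rv kh) (hD : D ≤ rv P - rv N) :
    w * k * D ≤ rv (mulU wh (mulU kh (Nat.sub P N))) -
      rv (mulD wl (mulD kl (Nat.sub N P))) := by
  have hw0 : 0 ≤ w := (rv_nonneg _).trans hw1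
  have hk0 : 0 ≤ k := (rv_nonneg _).trans hk1
  have hwk : 0 ≤ w * k := mul_nonneg hw0 hk0
  rcases le_total N P with h | h
  · -- `P ≥ N`
    have e1 : rv (Nat.sub P N) = rv P - rv N := rv_sub_eq h
    have e2 : Nat.sub N P = 0 := Nat.sub_eq_zero_of_le h
    have e3 : rv (mulD wl (mulD kl (Nat.sub N P))) ≤ 0 := by
      rw [e2]
      have z : rv 0 = 0 := by unfold rv; norm_num
      have h1 : rv (mulD kl 0) ≤ 0 := by
        refine (mulD_le kl 0).trans ?_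
        rw [z, mul_zero]
      refine (mulD_le wl (mulD kl 0)).trans ?_
      exact mul_nonpos_of_nonneg_of_nonpos (rv_nonneg _) h1
    have e4 : w * k * D ≤ rv (mulU wh (mulU kh (Nat.sub P N))) := by
      have h1 : 0 ≤ rv (Nat.sub P N) := rv_nonneg _
      calc w * k * D ≤ w * k * rv (Nat.sub P N) := by
            rw [e1]
            exact mul_le_mul_of_nonneg_left hD hwk
        _ = w * (k * rv (Nat.sub P N)) := by ring
        _ ≤ rv wh * rv (mulU kh (Nat.sub P N)) := by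
            refine mul_le_mul hw2 ?_ (mul_nonneg hk0 h1) (rv_nonneg _)
            exact (mul_le_mul_of_nonneg_right hk2 h1).trans (le_mulU _ _)
        _ ≤ _ := le_mulU _ _
    linarith
  · have e1 : rv (Nat.sub N P) = rv N - rv P := rv_sub_eq h
    have e3 : 0 ≤ rv (mulU wh (mulU kh (Nat.sub P N))) := rv_nonneg _
    have e4 : rv (mulD wl (mulD kl (Nat.sub N P))) ≤ w * k * rv (Nat.sub N P) := by
      calc rv (mulD wl (mulD kl (Nat.sub N P))) ≤ rv wl * rv (mulD kl (Nat.sub N P)) :=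
            mulD_le _ _
        _ ≤ w * (k * rv (Nat.sub N P)) := by
            refine mul_le_mul hw1 ?_ (rv_nonneg _) hw0
            exact (mulD_le _ _).trans (mul_le_mul_of_nonneg_right hk1 (rv_nonneg _))
        _ = _ := by ring
    have e5 : w * k * D ≤ -(w * k * rv (Nat.sub N P)) := by
      rw [e1]
      have := mul_le_mul_of_nonneg_left hD hwk
      linarith
    linarith

private theorem KNumAC_mul {a b : ℝ} {m n : Nat} (ha : a ≤ rv m) (hb : b ≤ rv n)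
    (hb0 : 0 ≤ b) : a * b ≤ rv (mulU m n) :=
  (mul_le_mul ha hb hb0 (rv_nonneg m)).trans (le_mulU m n)

private theorem KNumAC_a1 {L : List SGI} {S : Slab} {el eh : Nat} {K : KB}
    {rl rh pl ph : Nat} (h : a1Cell L S K el eh rl rh pl ph = true) {ε r1 p : ℝ}
    (hS : SlabOK S ((1 + ε) * y1c)) (h0 : 0 < ε) (h1 : rv el ≤ ε) (h2 : ε ≤ rv eh)
    (hr0 : 0 < r1) (hr1 : rv rl ≤ r1) (hr2 : r1 ≤ rv rh) (hp1 : rv pl ≤ p) (hp2 : p ≤ rv ph) :
    1 ≤ gamMin rl rh pl ph L ∧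
    hh ((1 + ε) * y1c) ((1 + ε) * r1) p ≤ R.rho ((1 + ε) * r1) p ∧
    vpi ((1 + ε) * y1c) ((1 + ε) * r1) p ≤ 22 / 100 ∧
    ∀ κ1 κ3 κ4, rv K.k1l ≤ κ1 → κ1 ≤ rv K.k1h → 0 ≤ κ3 → κ3 ≤ rv K.k3h → rv K.k4l ≤ κ4 →
      0 < rv (gamMin rl rh pl ph L) / (1 + ε) ^ 2 +
        PPf ((1 + ε) * y1c) ((1 + ε) * r1) p κ1 κ3 κ4 (rv K.k7h) := by
  unfold a1Cell at h
  extract_lets D1 D2 g r1' r2' B G vp vp2 vp4 vp7 vp9 vp12 t4 fac pos neg at h
  rw [Bool.and_eq_true, Bool.and_eq_true, Bool.and_eq_true, Bool.and_eq_true] at h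
  obtain ⟨hg1, hcell, hgc, hd4, hfin⟩ := h
  have hD1 : rv D1 = 1 + rv el := by
    change rv (Nat.add 1099511627776 el) = _
    rw [rv_add, rv_lit]
  have hD2 : rv D2 = 1 + rv eh := by
    change rv (Nat.add 1099511627776 eh) = _
    rw [rv_add, rv_lit]
  have e0 : (0 : ℝ) < 1 + ε := by linarith
  -- equations for the local definitions
  have qg : gamMin rl rh pl ph L = g := rfl
  have qr1 : mulD rl D1 = r1' := rfl
  have qr2 : mulU rh D2 = r2' := rfl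
  have qB : mkBase S.y r1' r2' pl ph = B := rfl
  have qG : mkGm S.y B = G := rfl
  have qvp : vpU S B = vp := rfl
  have qvp2 : mulU vp vp = vp2 := rfl
  have qvp4 : mulU vp2 vp2 = vp4 := rfl
  have qvp7 : mulU vp4 (mulU vp2 vp) = vp7 := rfl
  have qvp9 : mulU vp7 vp2 = vp9 := rfl
  have qvp12 : mulU vp9 (mulU vp2 vp) = vp12 := rfl
  have qt4 : PI.sq S.t2 = t4 := rfl
  have qfac : divU 11972459946895 (Nat.add 1099511627776 (Nat.div (Nat.mul 14 (rhoL B)) 3)) =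
    fac := rfl
  have qpos : Nat.add (divD (divD g D2) D2)
    (Nat.add (Nat.mul 2 (mulD S.t.lo (mulD K.k1l (Nat.sub G.D1n.lo G.D1p.hi))))
      (Nat.mul 2 (mulD t4.lo (mulD K.k4l (Nat.sub G.D4p.lo G.D4n.hi))))) = pos := rfl
  have qneg : Nat.add (Nat.mul 2 (mulU S.t.hi (mulU K.k1h (Nat.sub G.D1p.hi G.D1n.lo))))
    (Nat.add (Nat.mul 2 (mulU S.t3.hi (mulU K.k3h (Nat.sub G.D3p.hi G.D3n.lo))))
      (Nat.add (Nat.mul 6 (mulU K.k7h (mulU fac vp7)))
        (Nat.add (Nat.mul 486 (mulU K.k1h vp9)) (Nat.mul 20000 vp12)))) = neg := rfl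
  clear_value pos neg fac t4 vp12 vp9 vp7 vp4 vp2 vp G B r2' r1' g D2 D1
  rw [qg]
  rw [← qB, ← qr1, ← qr2] at hgc
  rw [← qr1, ← qr2] at hcell
  obtain ⟨hB, q0, q1, hh1, hv1, hv2⟩ :=
    KNumAC_cell hcell hgc hS hr0 hr1 hr2 hp1 hp2 e0 (by rw [hD1]; linarith)
      (by rw [hD2]; linarith)
  rw [qr1, qr2, qB] at hB hv1 hgc
  rw [qvp] at hv1
  have hmid : midChk B = true := by
    have hx := hgc
    unfold gcellChk at hx
    rw [Bool.and_eq_true] at hx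
    exact hx.1
  have hr : 0 < (1 + ε) * r1 := mul_pos e0 hr0
  have hy12 : 1 / 2 ≤ (1 + ε) * y1c := by linarith [hS.y1]
  have hy0 : 0 < (1 + ε) * y1c := by linarith
  have hG : GmOK G ((1 + ε) * y1c) ((1 + ε) * r1) p := by
    rw [← qG]
    exact mkGm_ok hS.my hy12 hr q0 q1 hB hmid
  have hrho : rv (rhoL B) ≤ R.rho ((1 + ε) * r1) p := rhoL_ok hB hr
  refine ⟨Nat.le_of_ble_eq_true hg1, hh1, ?_, ?_⟩
  · refine hv2.trans ?_
    unfold rv
    norm_num
  intro κ1 κ3 κ4 a1 a2 a3 a4 a5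
  set y := (1 + ε) * y1c with hydef
  set r := (1 + ε) * r1 with hrdef
  have hlt : rv neg < rv pos := rv_lt hfin
  -- the term with `G`
  have k0 : rv (divD (divD g D2) D2) ≤ rv g / (1 + ε) ^ 2 := by
    have hD2p : 0 < rv D2 := by rw [hD2]; linarith
    have hle : 1 + ε ≤ rv D2 := by rw [hD2]; linarith
    calc rv (divD (divD g D2) D2) ≤ rv (divD g D2) / rv D2 := divD_le _ _
      _ ≤ rv g / rv D2 / rv D2 := by
          exact div_le_div_of_nonneg_right (divD_le _ _) hD2p.le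
      _ = rv g / rv D2 ^ 2 := by rw [div_div, pow_two]
      _ ≤ rv g / (1 + ε) ^ 2 :=
          div_le_div_of_nonneg_left (rv_nonneg g) (by positivity)
            (pow_le_pow_left₀ e0.le hle 2)
  have hd1 : R.D1 y r p ≤ rv G.D1p.hi - rv G.D1n.lo := by
    rw [gD1_eq hy0 hr]
    linarith [hG.D1p.2, hG.D1n.1]
  have hd3 : R.D3 y r p ≤ rv G.D3p.hi - rv G.D3n.lo := by
    rw [gD3_eq hy0 hr]
    linarith [hG.D3p.2, hG.D3n.1]
  have hd4' : rv (Nat.sub G.D4p.lo G.D4n.hi) ≤ R.D4 y r p := by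
    rw [gD4_eq hy0 hr, rv_sub_eq (Nat.le_of_ble_eq_true hd4)]
    linarith [hG.D4p.1, hG.D4n.2]
  have k1 := KNumAC_term hS.mt.1 hS.mt.2 a1 a2 hd1
  have z0 : rv 0 ≤ κ3 := by
    have z : rv 0 = 0 := by unfold rv; norm_num
    rw [z]
    exact a3
  have k3 := KNumAC_term hS.mt3.1 hS.mt3.2 z0 a4 hd3
  have k3' : Real.exp (-(2 * y)) ^ 3 * κ3 * R.D3 y r p ≤
      rv (mulU S.t3.hi (mulU K.k3h (Nat.sub G.D3p.hi G.D3n.lo))) := by
    have := rv_nonneg (mulD S.t3.lo (mulD 0 (Nat.sub G.D3n.lo G.D3p.hi)))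
    linarith
  have mt4 : t4.Mem (Real.exp (-(2 * y)) ^ 4) := by
    have e := PI.Mem.sq hS.mt2
    have e' : (Real.exp (-(2 * y)) ^ 2) ^ 2 = Real.exp (-(2 * y)) ^ 4 := by ring
    rw [e', qt4] at e
    exact e
  have k4 : rv (mulD t4.lo (mulD K.k4l (Nat.sub G.D4p.lo G.D4n.hi))) ≤
      Real.exp (-(2 * y)) ^ 4 * κ4 * R.D4 y r p := by
    calc rv (mulD t4.lo (mulD K.k4l (Nat.sub G.D4p.lo G.D4n.hi)))
        ≤ rv t4.lo * rv (mulD K.k4l (Nat.sub G.D4p.lo G.D4n.hi)) := mulD_le _ _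
      _ ≤ Real.exp (-(2 * y)) ^ 4 * (κ4 * R.D4 y r p) := by
          refine mul_le_mul mt4.1 ?_ (rv_nonneg _) (by positivity)
          exact (mulD_le _ _).trans (mul_le_mul a5 hd4' (rv_nonneg _)
            ((rv_nonneg _).trans a5))
      _ = _ := by ring
  have v0 : 0 ≤ vpi y r p := (Real.exp_pos _).le
  have v2 : vpi y r p ^ 2 ≤ rv vp2 := by
    rw [pow_two, ← qvp2]
    exact KNumAC_mul hv1 hv1 v0
  have v4 : vpi y r p ^ 4 ≤ rv vp4 := by
    have : vpi y r p ^ 4 = vpi y r p ^ 2 * vpi y r p ^ 2 := by ring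
    rw [this, ← qvp4]
    exact KNumAC_mul v2 v2 (by positivity)
  have v7 : vpi y r p ^ 7 ≤ rv vp7 := by
    have : vpi y r p ^ 7 = vpi y r p ^ 4 * (vpi y r p ^ 2 * vpi y r p) := by ring
    rw [this, ← qvp7]
    exact KNumAC_mul v4 (KNumAC_mul v2 hv1 v0) (by positivity)
  have v9 : vpi y r p ^ 9 ≤ rv vp9 := by
    have : vpi y r p ^ 9 = vpi y r p ^ 7 * vpi y r p ^ 2 := by ring
    rw [this, ← qvp9]
    exact KNumAC_mul v7 v2 (by positivity)
  have v12 : vpi y r p ^ 12 ≤ rv vp12 := by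
    have : vpi y r p ^ 12 = vpi y r p ^ 9 * (vpi y r p ^ 2 * vpi y r p) := by ring
    rw [this, ← qvp12]
    exact KNumAC_mul v9 (KNumAC_mul v2 hv1 v0) (by positivity)
  have hrho0 : 0 ≤ R.rho r p := (rv_nonneg _).trans hrho
  have hfac : 98 / 9 / (1 + 14 / 3 * R.rho r p) ≤ rv fac := by
    have hle : 1099511627776 ≤ Nat.add 1099511627776 (Nat.div (Nat.mul 14 (rhoL B)) 3) :=
      Nat.le_add_right _ _
    have b1 : rv (Nat.add 1099511627776 (Nat.div (Nat.mul 14 (rhoL B)) 3)) ≤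
        1 + 14 / 3 * R.rho r p := by
      rw [rv_add, rv_lit]
      have b2 := rv_div_le (Nat.mul 14 (rhoL B)) 3
      rw [rv_nmul] at b2
      push_cast at b2
      linarith
    rw [← qfac]
    generalize Nat.add 1099511627776 (Nat.div (Nat.mul 14 (rhoL B)) 3) = dn at hle b1 ⊢
    have hden : 0 < dn := lt_of_lt_of_le (by norm_num) hle
    refine le_trans ?_ (le_divU 11972459946895 _ hden)
    have b3 : (98 : ℝ) / 9 ≤ rv 11972459946895 := by
      unfold rv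
      norm_num
    exact div_le_div₀ (rv_nonneg _) b3 (numOps_rv_pos hden) b1
  have hfac0 : 0 ≤ 98 / 9 / (1 + 14 / 3 * R.rho r p) := by positivity
  have k7 : rv K.k7h * (98 / 9 / (1 + 14 / 3 * R.rho r p)) * vpi y r p ^ 7 ≤
      rv (mulU K.k7h (mulU fac vp7)) := by
    have := KNumAC_mul (le_refl (rv K.k7h)) (KNumAC_mul hfac v7 (by positivity))
      (by positivity)
    calc _ = rv K.k7h * (98 / 9 / (1 + 14 / 3 * R.rho r p) * vpi y r p ^ 7) := by ring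
      _ ≤ _ := this
  have k9 : κ1 * vpi y r p ^ 9 ≤ rv (mulU K.k1h vp9) := KNumAC_mul a2 v9 (by positivity)
  have hpos : rv pos = rv (divD (divD g D2) D2) +
      (2 * rv (mulD S.t.lo (mulD K.k1l (Nat.sub G.D1n.lo G.D1p.hi))) +
        2 * rv (mulD t4.lo (mulD K.k4l (Nat.sub G.D4p.lo G.D4n.hi)))) := by
    rw [← qpos, rv_add, rv_add, rv_nmul, rv_nmul]
    push_cast
    rfl
  have hneg : rv neg = 2 * rv (mulU S.t.hi (mulU K.k1h (Nat.sub G.D1p.hi G.D1n.lo))) +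
      (2 * rv (mulU S.t3.hi (mulU K.k3h (Nat.sub G.D3p.hi G.D3n.lo))) +
        (6 * rv (mulU K.k7h (mulU fac vp7)) +
          (486 * rv (mulU K.k1h vp9) + 20000 * rv vp12))) := by
    rw [← qneg, rv_add, rv_add, rv_add, rv_add, rv_nmul, rv_nmul, rv_nmul, rv_nmul, rv_nmul]
    push_cast
    rfl
  rw [hpos, hneg] at hlt
  have hPP : PPf y r p κ1 κ3 κ4 (rv K.k7h) =
      -(2 * (Real.exp (-(2 * y)) * κ1 * R.D1 y r p))
      - 2 * (Real.exp (-(2 * y)) ^ 3 * κ3 * R.D3 y r p)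
      + 2 * (Real.exp (-(2 * y)) ^ 4 * κ4 * R.D4 y r p)
      - 6 * (rv K.k7h * (98 / 9 / (1 + 14 / 3 * R.rho r p)) * vpi y r p ^ 7)
      - 486 * (κ1 * vpi y r p ^ 9) - 20000 * vpi y r p ^ 12 := by
    unfold PPf
    ring
  rw [hPP]
  linarith

theorem a1Cell_ok {l : List Nat} {el eh : Nat} {K : KB} {rl rh pl ph : Nat}
    (hs : sgisChk 1099511627776 (Nat.add 1099511627776 eh) l = true)
    (hsl : slabChk (Nat.add 1099511627776 el) (Nat.add 1099511627776 eh) = true)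
    (h : a1Cell (sgis 1099511627776 l) (mkSlab (Nat.add 1099511627776 el)
      (Nat.add 1099511627776 eh) 0 false 0 0) K el eh rl rh pl ph = true) {ε r1 p : ℝ}
    (h0 : 0 < ε) (h1 : rv el ≤ ε) (h2 : ε ≤ rv eh)
    (hr0 : 0 < r1) (hr1 : rv rl ≤ r1) (hr2 : r1 ≤ rv rh) (hp1 : rv pl ≤ p) (hp2 : p ≤ rv ph) :
    A1ok ε (rv K.k1l) (rv K.k1h) (rv K.k3h) (rv K.k4l) (rv K.k7h) r1 p := by
  have hS : SlabOK (mkSlab (Nat.add 1099511627776 el)
      (Nat.add 1099511627776 eh) 0 false 0 0) ((1 + ε) * y1c) :=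
    slab_ok (δ := 1 + ε) hsl (by rw [rv_add, rv_lit]; linarith)
      (by rw [rv_add, rv_lit]; linarith) (by unfold y1c; ring)
  obtain ⟨g1, g2, g3, g4⟩ := KNumAC_a1 h hS h0 h1 h2 hr0 hr1 hr2 hp1 hp2
  refine ⟨g2, g3, rv (gamMin rl rh pl ph (sgis 1099511627776 l)), rv_nonneg _, ?_, g4⟩
  intro σ hσ1 hσ2
  refine gamMin_ok (le_refl _) hs g1 hr0 hr1 hr2 hp1 hp2 (by rw [rv_lit]; exact hσ1)
    (by rw [rv_add, rv_lit]; linarith) ?_
  rw [rv_add, rv_lit]
  linarith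

end MP7e122f.Num
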