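import Pool.Agent.Lib.MP_7e122f_anR.NumMid

/-!
# Numerical evaluation on a cell: the remainder
-/

namespace MP7e122f.Num

open MP7e122f.R

/-- upper bound of `ρ/4`, `ρ = (2/3) √κ r` -/
def vpRR (B : Base) : Nat := Nat.succ (Nat.div (mulU (sqU B.kap.hi) B.r.hi) 6)

/-- upper bound of `ϖ = t e^{-h} (e^{ρ/4})⁴` -/
def vpU (S : Slab) (B : Base) : Nat :=
  let rr := vpRR B
  let er := Nat.add 1099511627776 (mulU rr (psU rr))
  let er2 := mulU er er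
  mulU S.t.hi (mulU B.eh.hi (mulU er2 er2))

/-- upper bound of `1/r`, used only if `r.lo > 0.02` -/
def irU (B : Base) : Nat := divU 1099511627776 B.r.lo
/-- minimum, the first argument being ignored if `r.lo ≤ 0.02` -/
def minI (B : Base) (a b : Nat) : Nat := cond (Nat.ble B.r.lo 21990232555) b (minN a b)

/-- upper bound of `rem0` -/
def rem0U (S : Slab) (B : Base) (vp : Nat) : Nat :=
  let ir := irU B
  let irk := mulU (mulU ir ir) B.Wc.hi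
  let m7 := minI B irk 11972459946895
  let m9 := minI B irk 19791209299968
  let m12 := minI B irk 35184372088832
  let vp2 := mulU vp vp
  let vp4 := mulU vp2 vp2
  let vp5 := mulU vp vp4
  let vp7 := mulU vp2 vp5
  let tail := Nat.add (Nat.add 1099511627776 (Nat.succ (Nat.div (Nat.mul 47 vp) 20)))
    (Nat.add (Nat.succ (Nat.div (Nat.mul 9 vp4) 5)) (Nat.mul 18 vp7))
  Nat.add (Nat.mul 3 (mulU (divU 1099511627776 S.t.lo) (mulU vp7 (Nat.add (Nat.mul 2 m7)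
      (Nat.add (mulU vp2 m9) (mulU (mulU vp5 m12) tail))))))
    (Nat.mul 100 (mulU B.g0.hi (mulU S.t3.hi S.t3.hi)))

/-- upper bounds of `b_i = (T_j - T_k)/r` and `g_i` -/
structure Bs where
  b1 : Nat
  b2 : Nat
  b3 : Nat
  ga1 : Nat
  ga2 : Nat
  ga3 : Nat

def mkBs (B : Base) (M : Mid) : Bs :=
  let b3 := mulU B.p.hi M.F1.hi
  let b1 := mulU B.p1.hi M.F2.hi
  let b2 := minN M.F3.hi (Nat.add b1 b3)
  { b1 := b1, b2 := b2, b3 := b3,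
    ga1 := Nat.add (mulU M.T2.hi b3) (mulU M.T3.hi b2),
    ga2 := maxN (Nat.sub (mulU M.T1.hi b3) (mulD M.T3.lo (mulD B.p1.lo M.F2.lo)))
      (Nat.sub (mulU M.T3.hi b1) (mulD M.T1.lo (mulD B.p.lo M.F1.lo))),
    ga3 := Nat.add (mulU M.T1.hi b2) (mulU M.T2.hi b1) }

/-- upper bound of `|T⁴ - 1|/r` -/
def d4U (B : Base) (T : PI) (xr : Nat) : Nat :=
  let T4 := four T
  minI B (mulU (maxN (Nat.sub T4.hi 1099511627776) (Nat.sub 1099511627776 T4.lo)) (irU B))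
    (Nat.mul 4 (mulU (maxN T4.hi 1099511627776)
      (Nat.add xr (mulU B.g0.hi (mulU B.kap.hi B.r.hi)))))

def rem1U (S : Slab) (B : Base) (M : Mid) (b : Bs) (vp : Nat) : Nat :=
  let s23 := Nat.add b.b2 b.b3
  let s13 := Nat.add b.b1 b.b3
  let s12 := Nat.add b.b1 b.b2
  let x1r := Nat.succ (Nat.div (Nat.add 1099511627776 B.p.hi) 3)
  let x2r := Nat.succ (Nat.div (maxN (Nat.sub 1099511627776 (Nat.mul 2 B.p.lo))
    (Nat.sub (Nat.mul 2 B.p.hi) 1099511627776)) 3)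
  let x3r := Nat.succ (Nat.div (Nat.sub 2199023255552 B.p.lo) 3)
  let e4 := Nat.add (mulU (d4U B M.T1 x1r) s23) (Nat.add (mulU (d4U B M.T2 x2r) s13)
    (mulU (d4U B M.T3 x3r) s12))
  let R1a := mulU (Nat.mul 16 S.n) (mulU S.t3.hi (mulU B.Wc.hi e4))
  let hr := mulU B.g0.hi (mulU B.kap.hi B.r.hi)
  let rs := Nat.add (Nat.succ (Nat.div (Nat.mul 2 (sqU B.kap.hi)) 3)) hr
  let ir := irU B
  let d7 := minI B ir (Nat.mul 7 rs)
  let d9 := minI B ir (Nat.mul 9 rs)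
  let d12 := minI B ir (Nat.mul 13 rs)
  let vp2 := mulU vp vp
  let vp4 := mulU vp2 vp2
  let vp5 := mulU vp vp4
  let vp7 := mulU vp2 vp5
  let R1b := mulU (Nat.mul 2 S.n) (mulU (divU 1099511627776 S.t.lo) (mulU vp7
    (mulU (mulU b.b2 B.Wc.hi) (Nat.add (Nat.mul 120 d7) (Nat.add (mulU vp2 (Nat.mul 72 d9))
      (mulU vp5 (Nat.mul 460 d12)))))))
  Nat.add R1a R1b

/-- `rem2 + rem2b` -/
def rem2U (S : Slab) (B : Base) (M : Mid) (b : Bs) : Nat :=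
  let s23 := Nat.add b.b2 b.b3
  let s13 := Nat.add b.b1 b.b3
  let s12 := Nat.add b.b1 b.b2
  let ub1 := mulU S.u2 b.b1
  let ub2 := mulU S.u2 b.b2
  let ub3 := mulU S.u2 b.b3
  let vb1 := mulU S.u3 b.b1
  let vb2 := mulU S.u3 b.b2
  let vb3 := mulU S.u3 b.b3
  let n2s := mulU S.n S.n
  let i1 := mulU M.o1.hi (Nat.add (mulU b.b2 (Nat.add b.b2 (Nat.add ub3 vb1)))
    (mulU b.b3 (Nat.add b.b3 (Nat.add ub2 vb1))))
  let i2 := mulU M.o2.hi (Nat.add (mulU b.b3 (Nat.add b.b3 (Nat.add ub1 vb2)))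
    (mulU b.b1 (Nat.add b.b1 (Nat.add ub3 vb2))))
  let i3 := mulU M.o3.hi (Nat.add (mulU b.b1 (Nat.add b.b1 (Nat.add ub2 vb3)))
    (mulU b.b2 (Nat.add b.b2 (Nat.add ub1 vb3))))
  let ob1 := mulU M.o1.hi b.b1
  let ob2 := mulU M.o2.hi b.b2
  let ob3 := mulU M.o3.hi b.b3
  let jS := mulU (mulU S.u2 S.u2) (Nat.add (mulU (Nat.add ob2 ob3) s23)
    (Nat.add (mulU (Nat.add ob1 ob3) s13) (mulU (Nat.add ob1 ob2) s12)))
  let jR := Nat.add (mulU (Nat.add (mulU M.o2.hi b.b3) (mulU M.o3.hi b.b2)) s23)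
    (Nat.add (mulU (Nat.add (mulU M.o3.hi b.b1) (mulU M.o1.hi b.b3)) s13)
      (mulU (Nat.add (mulU M.o1.hi b.b2) (mulU M.o2.hi b.b1)) s12))
  let n2 := mulU B.Wc.hi (Nat.add (Nat.add i1 (Nat.add i2 i3)) (Nat.add jS jR))
  let R2a := mulU (Nat.mul 8 n2s) (mulU S.t2.hi n2)
  let s4 := Nat.mul 32 (Nat.add (mulU s23 (Nat.add s23 b.b2))
    (Nat.add (mulU s13 (Nat.add s13 b.b2)) (mulU s12 (Nat.add s12 b.b2))))
  let R2b := mulU (Nat.mul 2 n2s) (mulU B.Wc.hi (Nat.add (mulU S.t3.hi s4)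
    (Nat.mul 2184 (mulU (mulU S.t3.hi S.t3.hi) (mulU b.b2 b.b2)))))
  Nat.add R2a R2b

def rem3U (S : Slab) (B : Base) (M : Mid) (b : Bs) : Nat :=
  let s23 := Nat.add b.b2 b.b3
  let s13 := Nat.add b.b1 b.b3
  let s12 := Nat.add b.b1 b.b2
  let ub1 := mulU S.u2 b.b1
  let ub2 := mulU S.u2 b.b2
  let ub3 := mulU S.u2 b.b3
  let vb1 := mulU S.u3 b.b1
  let vb2 := mulU S.u3 b.b2
  let vb3 := mulU S.u3 b.b3
  let dT := Nat.add (mulU M.T1.hi (Nat.add (Nat.mul 3 s23) ub1))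
    (Nat.add (mulU M.T2.hi (Nat.add (Nat.mul 3 s13) ub2))
      (mulU M.T3.hi (Nat.add (Nat.mul 3 s12) ub3)))
  let bg1 := mulU b.b1 b.ga1
  let bg2 := mulU b.b2 b.ga2
  let bg3 := mulU b.b3 b.ga3
  let sT := mulU (mulU S.u2 S.u2) (Nat.add (mulU (Nat.add bg2 bg3) s23)
    (Nat.add (mulU (Nat.add bg1 bg3) s13) (mulU (Nat.add bg1 bg2) s12)))
  let hT1 := mulU b.ga1 (Nat.add (mulU b.b2 (Nat.add b.b2 (Nat.add ub3 vb1)))
    (mulU b.b3 (Nat.add b.b3 (Nat.add ub2 vb1))))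
  let hT2 := mulU b.ga2 (Nat.add (mulU b.b3 (Nat.add b.b3 (Nat.add ub1 vb2)))
    (mulU b.b1 (Nat.add b.b1 (Nat.add ub3 vb2))))
  let hT3 := mulU b.ga3 (Nat.add (mulU b.b1 (Nat.add b.b1 (Nat.add ub2 vb3)))
    (mulU b.b2 (Nat.add b.b2 (Nat.add ub1 vb3))))
  let n3 := Nat.add (mulU M.Dl.hi dT) (mulU B.Wc.hi (Nat.add sT (Nat.add hT1 (Nat.add hT2 hT3))))
  Nat.succ (Nat.div (Nat.mul 16 (mulU (mulU (mulU S.n S.n) S.n) (mulU n3 B.r.hi))) 3)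

/-- what `Bs` means -/
structure BsOK (b : Bs) (y r p : ℝ) : Prop where
  b1 : bb1 y r p ≤ rv b.b1
  b2 : bb2 y r p ≤ rv b.b2
  b3 : bb3 y r p ≤ rv b.b3
  g1 : gg1 y r p ≤ rv b.ga1
  g2 : gg2 y r p ≤ rv b.ga2
  g3 : gg3 y r p ≤ rv b.ga3

end MP7e122f.Num
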