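import Pool.Agent.Lib.MP_7e122f_anR.KDefs
import Pool.Agent.Lib.MP_7e122f_anR.JNumD
import Pool.Agent.Lib.MP_7e122f_anR.NumRem

/-!
# Numerical checks for `0 < ε ≤ 0.07`
-/

namespace MP7e122f.Num

open MP7e122f.R

/-- bounds of `sin x / x` as a function of `x²` -/
def sincL (x2 : PI) : Nat :=
  kcD 6 x2.hi (kcU 20 x2.lo (kcD 42 x2.hi (kcU 72 x2.lo (kcD 110 x2.hi 1099511627776))))
def sincU (x2 : PI) : Nat :=
  kcU 6 x2.lo (kcD 20 x2.hi (kcU 42 x2.lo (kcD 72 x2.hi 1099511627776)))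

/-- `ε ∈ [el, eh]` : `cos πε`, `sin πε`, `1/cos πε`, `ksk`, `kvk`, `kt`, `kt³`, `kt⁴` -/
structure KEnv where
  el : Nat
  eh : Nat
  c : PI
  s : PI
  ic : PI
  sk : PI
  vk : PI
  t : PI
  t3 : PI
  t4 : PI

def mkKEnv (el eh : Nat) : KEnv :=
  let e : PI := ⟨el, eh⟩
  let th := PI.mul piI e
  let x2 := PI.sq th
  let c := cosPI th
  let t := tOf (yOf (Nat.add 1099511627776 el) (Nat.add 1099511627776 eh))
  let t2 := PI.sq t
  { el := el, eh := eh, c := c, s := sinPI th, ic := PI.inv c,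
    sk := PI.mul piI ⟨sincL x2, sincU x2⟩,
    vk := PI.mul (PI.smul 1 2 (PI.mul (PI.sq piI) e)) ⟨cosbL x2, cosbU x2⟩,
    t := t, t3 := PI.mul t2 t, t4 := PI.sq t2 }

structure KEnvOK (K : KEnv) (ε : ℝ) : Prop where
  e0 : 0 < ε
  e1 : ε ≤ 0.075
  el : rv K.el ≤ ε
  eh : ε ≤ rv K.eh
  c : K.c.Mem (kc ε)
  s : K.s.Mem (ks ε)
  ic : K.ic.Mem (1 / kc ε)
  sk : K.sk.Mem (ksk ε)
  vk : K.vk.Mem (kvk ε)
  t : K.t.Mem (kt ε)
  t3 : K.t3.Mem (kt ε ^ 3)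
  t4 : K.t4.Mem (kt ε ^ 4)

/-- admissible interval, `eh ≤ 0.075` -/
def kenvChk (el eh : Nat) : Bool := and (Nat.ble el eh) (Nat.ble eh 82463372083)

/-- `psr(-x)` at the end points (decreasing) -/
def psmI (x : PI) : PI :=
  ⟨mulD (psD x.hi) (PI.inv (exp ⟨x.hi, x.hi⟩)).lo, mulU (psU x.lo) (PI.inv (exp ⟨x.lo, x.lo⟩)).hi⟩

/-- `exp (-π/√3)` -/
def t1I : PI := expN pr3I

/-- enclosure of `KHf u`, `u ∈ u` -/
def KHn (u : PI) : PI :=
  let x := PI.mul pr3I u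
  let t := t1I
  let t2 := PI.sq t
  let t3 := PI.mul t2 t
  let t4 := PI.sq t2
  let t7 := PI.mul t3 t4
  PI.mul pr3I (PI.sub
    (PI.add (PI.smul 6 1 (PI.mul t (psmI (PI.smul 1 1 x))))
      (PI.add (PI.smul 18 1 (PI.mul t3 (psmI (PI.smul 3 1 x))))
        (PI.smul 84 1 (PI.mul t7 (psmI (PI.smul 7 1 x))))))
    (PI.smul 24 1 (PI.mul t4 (psmI (PI.smul 4 1 x)))))

/-- `k (6 + √3 s - 3/(2c) - 3 ε k) < C` -/
def k1lChk (K : KEnv) (k : Nat) : Bool :=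
  let rs := PI.mul r3I K.sk
  let rhs := Nat.add (Nat.sub (Nat.add rs.lo (Nat.div (mulD rs.lo K.ic.lo) 2))
    (Nat.succ (Nat.div (Nat.mul 3 (mulU K.vk.hi K.ic.hi)) 2)))
    (Nat.mul 3 (mulD K.el (mulD k k)))
  let a := Nat.sub (Nat.add 6597069766656 (mulU 1904410002821 K.s.hi))
    (Nat.div (Nat.mul 3 K.ic.lo) 2)
  and (Nat.ble k 3298534883328)
    (and (Nat.ble (Nat.succ (Nat.div (Nat.mul 3 (mulU K.vk.hi K.ic.hi)) 2))
      (Nat.add rs.lo (Nat.div (mulD rs.lo K.ic.lo) 2)))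
      (Nat.ble (Nat.succ (mulU k a)) rhs))

/-- positive and negative part of the coefficient of `κ` in `LLf` -/
def llAp (K : KEnv) : Nat := Nat.add (Nat.mul 6 K.t.lo) (Nat.mul 12 (mulD K.t4.lo K.c.lo))
def llAn (K : KEnv) : Nat :=
  Nat.add (Nat.mul 72 K.t4.hi)
    (Nat.add (mulU (Nat.add (Nat.mul 6 K.t3.hi) (Nat.mul 12 (mulU K.t4.hi K.c.hi)))
      (mulU 1904410002821 (mulU K.s.hi K.ic.hi))) 1099512)

/-- lower bound of `LLf ε k` -/
def LLlo (K : KEnv) (k : Nat) : Nat :=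
  let c3l := Nat.add (Nat.mul 6 K.t3.lo) (Nat.mul 12 (mulD K.t4.lo K.c.lo))
  let q := Nat.sub (mulD 1904410002820 K.sk.lo) K.vk.hi
  Nat.sub (Nat.add (mulD k (Nat.sub (llAp K) (llAn K))) (Nat.add (mulD (mulD c3l K.ic.lo) q)
    (Nat.add (Nat.mul 24 (mulD K.t4.lo K.vk.lo))
      (Nat.mul 36 (mulD K.t4.lo (mulD K.el (mulD k k))))))) 1099512
def llChk (K : KEnv) : Bool :=
  and (Nat.ble (llAn K) (llAp K)) (Nat.ble K.vk.hi (mulD 1904410002820 K.sk.lo))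

/-- `2 (KHf (2ε) + 9e-6) - (KHf ε - 1e-7) < LLf ε k` -/
def k1hChk (K : KEnv) (k : Nat) : Bool :=
  let K2 := KHn ⟨Nat.mul 2 K.el, Nat.mul 2 K.eh⟩
  let K1 := KHn ⟨K.el, K.eh⟩
  let R := Nat.sub (Nat.mul 2 (Nat.add K2.hi 9895605)) (Nat.sub K1.lo 109952)
  and (llChk K) (and (Nat.ble k 2638827906662) (and (Nat.ble 109952 K1.lo)
    (Nat.ble (Nat.add R 2) (LLlo K k))))

def k3hChk (K : KEnv) (k1h k3h : Nat) : Bool :=
  let rs := PI.mul r3I K.s
  let lhs := mulD k3h (Nat.sub K.c.lo rs.hi)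
  let a := mulU k1h (Nat.sub (Nat.add 13194139533312 rs.hi) (Nat.mul 3 K.c.lo))
  let b := Nat.add (Nat.mul 6 (mulD K.el (mulD k1h k1h)))
    (Nat.add (Nat.mul 4 K.vk.lo) (Nat.mul 2 (mulD 1904410002820 K.sk.lo)))
  and (Nat.ble (Nat.succ (Nat.sub a b)) lhs) (Nat.ble (Nat.succ rs.hi) K.c.lo)

def k4lChk (K : KEnv) (k1l k3h k4l : Nat) : Bool :=
  let rs := PI.mul r3I K.s
  let p := Nat.add (Nat.mul 2 (mulD 1904410002820 K.sk.lo)) (mulD k1l (Nat.sub K.c.lo rs.hi))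
  let n := mulU k3h (Nat.add K.c.hi rs.hi)
  Nat.ble (Nat.succ (Nat.add n k4l)) p

def k7hChk (eh k1h k3h k7h : Nat) : Bool :=
  let s := Nat.add (Nat.add (sqU k3h) (sqU k1h))
    (mulU 3454217652358 (sqU (Nat.succ (Nat.div eh 2))))
  Nat.ble (mulU s s) k7h

structure KB where
  k1l : Nat
  k1h : Nat
  k3h : Nat
  k4l : Nat
  k7h : Nat

/-- all facts on `[el, eh]` -/
def kfChk (B : KB) (el eh : Nat) : Bool :=
  let K := mkKEnv el eh
  and (kenvChk el eh) (and (k1lChk K B.k1l) (and (k1hChk K B.k1h) (and (k3hChk K B.k1h B.k3h)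
    (and (k4lChk K B.k1l B.k3h B.k4l) (k7hChk eh B.k1h B.k3h B.k7h)))))

/-- chain of sub-slabs -/
def kfsChk (B : KB) : Nat → Nat → List Nat → Bool
  | el, eh, [] => Nat.ble eh el
  | el, eh, e :: l => and (kfChk B el e) (kfsChk B e eh l)

/-- `shp v` rounded up -/
def shpU (v : Nat) : Nat :=
  let v2 := mulU v v
  Nat.add 1099511627776 (Nat.add (Nat.succ (Nat.div v2 6)) (Nat.succ (Nat.div (mulU v2 v2) 100)))

/-- upper bound of the right hand side of `JU_leK` divided by `ε` -/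
def jkU (a : PI) (el eh : Nat) : Nat :=
  let sl := Nat.add 1099511627776 (Nat.mul 2 el)
  let sh := Nat.add 1099511627776 (Nat.mul 2 eh)
  let is := PI.inv ⟨sl, sh⟩
  let ih := (PI.inv ⟨sh, sh⟩).lo
  let spl := Nat.add sl (PI.inv ⟨sl, sl⟩).lo
  let smh := Nat.sub sh ih
  let am := mulU a.hi smh
  let al := mulD a.lo spl
  let x1 := Nat.div al 2
  let x5 := Nat.div (Nat.mul 5 al) 2
  let x9 := Nat.div (Nat.mul 9 al) 2
  let e1 := (expN ⟨x1, x1⟩).hi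
  let e5 := (expN ⟨x5, x5⟩).hi
  let e9 := (expN ⟨x9, x9⟩).hi
  let b16 := mulD a.lo (Nat.add sh (Nat.mul 16 ih))
  let e16 := (expN ⟨b16, b16⟩).hi
  let a12 := Nat.mul 12 a.lo
  let e12 := (expN ⟨a12, a12⟩).hi
  let a18 := Nat.mul 18 (mulD a.lo is.lo)
  let e25 := (expN ⟨a18, a18⟩).hi
  let pre := mulU (sqU (divU (Nat.mul 4 a.hi) (mulD 3454217652357 sl)))
    (mulU (Nat.mul 2 a.hi) (Nat.add 1099511627776 is.hi))
  let br := Nat.add (Nat.mul 2 (mulU e1 (shpU (Nat.succ (Nat.div am 2)))))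
    (Nat.add (Nat.mul 12 (mulU e5 (shpU (Nat.succ (Nat.div (Nat.mul 3 am) 2)))))
    (Nat.add (Nat.mul 18 (mulU e9 (shpU (Nat.succ (Nat.div (Nat.mul 9 am) 2)))))
    (Nat.add (Nat.mul 60 e16) (Nat.add (Nat.mul 20 e12) (Nat.mul 200 e25)))))
  mulU pre br

/-- one sub-slab of the degenerate region -/
def jkChk (a : PI) (el eh k1l : Nat) : Bool :=
  let K := mkKEnv el eh
  let K1 := KHn ⟨el, eh⟩
  let L := LLlo K k1l
  and (kenvChk el eh) (and (k1lChk K k1l) (and (llChk K) (and (Nat.ble 109952 K1.lo)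
    (and (Nat.ble 1 L)
      (Nat.ble (Nat.succ (jkU a el eh)) (Nat.add (Nat.sub K1.lo 109952) L))))))

/-- `1.4 ≤ a ≤ 1.45` -/
def jaChk (a : PI) : Bool := and (Nat.ble 1539316278888 a.lo) (Nat.ble a.hi 1594291860275)

/-- constant part of the degenerate region: `eJ`, staircase, `ε ≤ emax` -/
def kjAll (l : List CP) (eJ emax : Nat) : Bool :=
  and (Nat.ble 1 eJ) (and (jaChk (aOf eJ))
    (stairTo (Nat.add 1099511627776 (Nat.mul 2 emax)) (aOf eJ).lo l))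

/-- chain; the elements are `(right end point, k1l)` -/
structure KJ where
  e : Nat
  k : Nat
def jksChk (a : PI) : Nat → Nat → List KJ → Bool
  | el, eh, [] => Nat.ble eh el
  | el, eh, c :: l => and (jkChk a el c.e c.k) (jksChk a c.e eh l)

/-! ## The cells of the nondegenerate region -/

structure Gm where
  D1p : PI
  D1n : PI
  D3p : PI
  D3n : PI
  D4p : PI
  D4n : PI
  c1 : PI
  c3 : PI
  c4 : PI
  m1 : PI
  m3 : PI
  m4 : PI
  H : PI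
  eh3 : PI
  eh4 : PI

def mkGm (y : PI) (B : Base) : Gm :=
  let e1 := cube B.f1
  let e2 := cube B.f2
  let e3 := cube B.f3
  let Qa := tri B.Pa B.Ea
  let Qb := tri B.Pb B.Eb
  let Qr := tri B.Pr B.Er
  let v1 := PI.inv e1
  let v2 := PI.inv e2
  let v3 := PI.inv e3
  let eh3 := cube B.eh
  let eh4 := PI.mul eh3 B.eh
  let g1 := g1Of B.h
  let g3 := tri g1 B.eh
  let g4 := quad g1 B.eh
  let w1 := PI.mul B.f1 e1
  let w2 := PI.mul B.f2 e2
  let w3 := PI.mul B.f3 e3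
  let a3 := cube B.Ea
  let b3 := cube B.Eb
  let r3 := cube B.Er
  let f2 := four e2
  let f3 := four e3
  let y2 := PI.smul 2 1 y
  { D1p := PI.smul 1 18 (PI.mul (PI.mul B.eh (PI.add B.f1 (PI.add B.f2 B.f3)))
      (wavg B (PI.sq (PI.mul B.f2 B.Pa)) (PI.sq (PI.mul B.f3 B.Pb)) (PI.sq (PI.mul B.f3 B.Pr)))),
    D1n := PI.smul 3 1 (PI.mul B.g0 g1),
    D3p := PI.smul 1 2 (PI.mul (PI.mul eh3 (PI.add v1 (PI.add v2 v3)))
      (wavg B (PI.sq (PI.mul v1 Qa)) (PI.sq (PI.mul v2 Qb)) (PI.sq (PI.mul v1 Qr)))),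
    D3n := PI.smul 9 1 (PI.mul B.g0 g3),
    D4p := PI.smul 8 9 (PI.mul (PI.mul eh4 (PI.add w1 (PI.add w2 w3)))
      (wavg B (PI.sq (PI.mul w2 (quad B.Pa B.Ea))) (PI.sq (PI.mul w3 (quad B.Pb B.Eb)))
        (PI.sq (PI.mul w3 (quad B.Pr B.Er))))),
    D4n := PI.smul 12 1 (PI.mul B.g0 g4),
    c1 := PI.smul 1 3 (wavg B (PI.mul e2 Qa) (PI.mul e3 Qb) (PI.mul e3 Qr)),
    c3 := wavg B (PI.mul (cube v1) (tri Qa a3)) (PI.mul (cube v2) (tri Qb b3))
      (PI.mul (cube v1) (tri Qr r3)),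
    c4 := PI.smul 4 3 (wavg B (PI.mul f2 (quad Qa a3)) (PI.mul f3 (quad Qb b3))
      (PI.mul f3 (quad Qr r3))),
    m1 := PI.sub (PI.mul y2 g1) B.eh,
    m3 := PI.sub (PI.smul 3 1 (PI.mul y2 g3)) eh3,
    m4 := PI.sub (PI.smul 4 1 (PI.mul y2 g4)) eh4,
    H := PI.smul 2 1 B.mu, eh3 := eh3, eh4 := eh4 }

/-- lower bound of `ρ` -/
def rhoL (B : Base) : Nat := Nat.div (Nat.mul 2 (mulD (sqrtPI B.kap).lo B.r.lo)) 3

/-- `GamN - GamR ≥ rv pos - rv neg` -/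
def gamPN (S : Slab) (B : Base) : Nat × Nat :=
  let G := mkGm S.y B
  let P1 := PI.add (PI.mul B.eh G.c1) (PI.smul 3 1 (PI.mul B.g0 G.m1))
  let N1 := PI.mul G.H G.D1p
  let P3 := PI.add (PI.mul G.eh3 G.c3) (PI.smul 3 1 (PI.mul B.g0 G.m3))
  let N3 := PI.mul G.H G.D3p
  let P4 := PI.mul G.H G.D4p
  let N4 := PI.add (PI.mul G.eh4 G.c4) (PI.smul 3 1 (PI.mul B.g0 G.m4))
  let vp := vpU S B
  let vp2 := mulU vp vp
  let vp4 := mulU vp2 vp2
  let vp7 := mulU vp4 (mulU vp2 vp)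
  let vp9 := mulU vp7 vp2
  let vp13 := mulU vp9 vp4
  let t4 := PI.sq S.t2
  let Hr := Nat.sub G.H.hi (rhoL B)
  let tail := Nat.add (mulU Hr (Nat.add (Nat.mul 458 vp7)
    (Nat.add (Nat.mul 486 vp9) (Nat.mul 3300 vp13)))) 1099512
  (Nat.add (Nat.mul 2 (mulD S.t.lo (Nat.sub P1.lo N1.hi)))
      (Nat.add (Nat.mul 6 (mulD S.t3.lo (Nat.sub P3.lo N3.hi)))
        (Nat.mul 8 (mulD t4.lo (Nat.sub P4.lo N4.hi)))),
    Nat.add (Nat.mul 2 (mulU S.t.hi (Nat.sub N1.hi P1.lo)))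
      (Nat.add (Nat.mul 6 (mulU S.t3.hi (Nat.sub N3.hi P3.lo)))
        (Nat.add (Nat.mul 8 (mulU t4.hi (Nat.sub N4.hi P4.lo))) tail)))

/-- side conditions for a cell -/
def gcellChk (S : Slab) (B : Base) (vmax : Nat) : Bool :=
  and (midChk B) (and (Nat.ble B.h.hi 549755813888) (and (Nat.ble (vpRR B) 2199023255552)
    (Nat.ble (vpU S B) vmax)))

/-- sub-intervals `[a, b]` of `σ` -/
structure SGI where
  S : Slab
  a : Nat
  b : Nat

/-- lower bound of `σ (GamN - GamR)` over all sub-intervals, `0` if a check fails -/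
def gamMin (rl rh pl ph : Nat) : List SGI → Nat
  | [] => 4398046511104
  | q :: l =>
    let r1 := mulD rl q.a
    let r2 := mulU rh q.b
    let B := mkBase q.S.y r1 r2 pl ph
    let pn := gamPN q.S B
    cond (and (cellChk r1 r2 pl ph) (and (gcellChk q.S B 274877906944) (Nat.ble pn.2 pn.1)))
      (minN (mulD q.a (Nat.sub pn.1 pn.2)) (gamMin rl rh pl ph l)) 0

/-- the final inequality of a cell -/
def a1Cell (L : List SGI) (S : Slab) (K : KB) (el eh : Nat) (rl rh pl ph : Nat) : Bool :=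
  let D1 := Nat.add 1099511627776 el
  let D2 := Nat.add 1099511627776 eh
  let g := gamMin rl rh pl ph L
  let r1 := mulD rl D1
  let r2 := mulU rh D2
  let B := mkBase S.y r1 r2 pl ph
  let G := mkGm S.y B
  let vp := vpU S B
  let vp2 := mulU vp vp
  let vp4 := mulU vp2 vp2
  let vp7 := mulU vp4 (mulU vp2 vp)
  let vp9 := mulU vp7 vp2
  let vp12 := mulU vp9 (mulU vp2 vp)
  let t4 := PI.sq S.t2
  let fac := divU 11972459946895 (Nat.add 1099511627776 (Nat.div (Nat.mul 14 (rhoL B)) 3))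
  let pos := Nat.add (divD (divD g D2) D2)
    (Nat.add (Nat.mul 2 (mulD S.t.lo (mulD K.k1l (Nat.sub G.D1n.lo G.D1p.hi))))
      (Nat.mul 2 (mulD t4.lo (mulD K.k4l (Nat.sub G.D4p.lo G.D4n.hi)))))
  let neg := Nat.add (Nat.mul 2 (mulU S.t.hi (mulU K.k1h (Nat.sub G.D1p.hi G.D1n.lo))))
    (Nat.add (Nat.mul 2 (mulU S.t3.hi (mulU K.k3h (Nat.sub G.D3p.hi G.D3n.lo))))
      (Nat.add (Nat.mul 6 (mulU K.k7h (mulU fac vp7)))
        (Nat.add (Nat.mul 486 (mulU K.k1h vp9)) (Nat.mul 20000 vp12))))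
  and (Nat.ble 1 g) (and (cellChk r1 r2 pl ph) (and (gcellChk S B 241892558110)
    (and (Nat.ble G.D4n.hi G.D4p.lo) (Nat.ble (Nat.succ neg) pos))))

/-- the domain: `AA3 < 0` or `AA2 + AA3 < eJ` at scale 1 -/
def a1Out (eJ : Nat) (rl rh pl ph : Nat) : Bool :=
  let B := mkBase (yOf 1099511627776 1099511627776) rl rh pl ph
  and (Nat.ble B.h.hi 2199023255552) (outChk eJ B)

def a1Tree (L : List SGI) (S : Slab) (K : KB) (el eh eJ : Nat) : Tr → Nat → Nat → Nat → Nat → Bool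
  | Tr.e, rl, rh, pl, ph => a1Cell L S K el eh rl rh pl ph
  | Tr.g, _, _, _, _ => false
  | Tr.o, rl, rh, pl, ph => a1Out eJ rl rh pl ph
  | Tr.r a b, rl, rh, pl, ph =>
    let m := Nat.div (Nat.add rl rh) 2
    and (a1Tree L S K el eh eJ a rl m pl ph) (a1Tree L S K el eh eJ b m rh pl ph)
  | Tr.p a b, rl, rh, pl, ph =>
    let m := Nat.div (Nat.add pl ph) 2
    and (a1Tree L S K el eh eJ a rl rh pl m) (a1Tree L S K el eh eJ b rl rh m ph)

/-- the list of sub-intervals with end points `l` -/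
def sgis : Nat → List Nat → List SGI
  | _, [] => []
  | a, b :: l => ⟨mkSlab a b 0 false 0 0, a, b⟩ :: sgis b l
def sgisChk : Nat → Nat → List Nat → Bool
  | a, e, [] => Nat.ble e a
  | a, e, b :: l => and (slabChk a b) (sgisChk b e l)

/-- certificate for an `ε`-slab -/
structure KCert where
  el : Nat
  eh : Nat
  B : KB
  ks : List Nat
  sg : List Nat
  tree : Tr

def kcChk (C : KCert) : Bool :=
  let D1 := Nat.add 1099511627776 C.el
  let D2 := Nat.add 1099511627776 C.eh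
  and (kfsChk C.B C.el C.eh C.ks) (and (sgisChk 1099511627776 D2 C.sg)
    (and (slabChk D1 D2) (and (Nat.ble C.eh 82463372083) (Nat.ble C.B.k1h 2638827906662))))

def kcTree (C : KCert) (eJ : Nat) : Bool :=
  let D1 := Nat.add 1099511627776 C.el
  let D2 := Nat.add 1099511627776 C.eh
  a1Tree (sgis 1099511627776 C.sg) (mkSlab D1 D2 0 false 0 0) C.B C.el C.eh eJ C.tree
    0 1649267441664 0 1099511627776

end MP7e122f.Num
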