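import Pool.Agent.Lib.MP_7e122f_anR.KNumD
import Pool.Agent.Lib.MP_7e122f_anR.NumBaseA

namespace MP7e122f.Num

open MP7e122f.R

private theorem KNumEnv_T {z T : ℝ} {c : ℝ} (hc : 2 ≤ c) (hz0 : 0 ≤ z) (hz1 : z ≤ 1)
    (hT : 0 ≤ T ∧ T ≤ 1) : 0 ≤ 1 - z * T / c ∧ 1 - z * T / c ≤ 1 := by
  have h1 : 0 ≤ z * T := mul_nonneg hz0 hT.1
  have h2 : z * T ≤ 1 := mul_le_one₀ hz1 hT.1 hT.2
  have h3 : 0 ≤ z * T / c := by positivity
  have h4 : z * T / c ≤ 1 := by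
    rw [div_le_one (by linarith)]
    linarith
  exact ⟨by linarith, by linarith⟩

private theorem KNumEnv_kD (c X b : Nat) (z T : ℝ) (hc : 0 < c) (hz0 : 0 ≤ z) (hz : z ≤ rv X)
    (hT0 : 0 ≤ T) (hT : T ≤ rv b) (hpos : 0 ≤ 1 - z * T / c) :
    rv (kcD c X b) ≤ 1 - z * T / c := by
  unfold kcD
  apply rv_sub_of_le _ hpos
  rw [rv_lit]
  have hc' : (0 : ℝ) < c := by exact_mod_cast hc
  have h1 := le_rv_div (mulU X b) c hc
  have h2 := le_mulU X b
  have h3 : z * T ≤ rv X * rv b := mul_le_mul hz hT hT0 (rv_nonneg _)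
  have h4 : z * T / c ≤ rv (mulU X b) / c := div_le_div_of_nonneg_right (h3.trans h2) hc'.le
  linarith

private theorem KNumEnv_kU (c X b : Nat) (z T : ℝ) (hc : 0 < c) (hz : rv X ≤ z) (hT : rv b ≤ T)
    (hz0 : 0 ≤ z) : 1 - z * T / c ≤ rv (kcU c X b) := by
  unfold kcU
  refine le_trans ?_ (rv_sub_le _ _)
  rw [rv_lit]
  have hc' : (0 : ℝ) < c := by exact_mod_cast hc
  have h1 := rv_div_le (mulD X b) c
  have h2 := mulD_le X b
  have h3 : rv X * rv b ≤ z * T := mul_le_mul hz hT (rv_nonneg _) hz0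
  have h4 : rv (mulD X b) / c ≤ z * T / c := div_le_div_of_nonneg_right (h2.trans h3) hc'.le
  linarith

private theorem KNumEnv_anti (x : ℝ) (h0 : 0 ≤ x) (h1 : x ≤ 1) (r : ℕ) :
    Antitone (fun n : ℕ => x ^ (2 * n + r) / ((2 * n + r).factorial : ℝ)) := by
  apply antitone_nat_of_succ_le
  intro n
  apply div_le_div₀ (by positivity) _ (by positivity) _
  · apply pow_le_pow_of_le_one h0 h1
    omega
  · exact_mod_cast Nat.factorial_le (by omega)

/-- alternating Taylor bounds for the sine -/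
private theorem KNumEnv_sin (x : ℝ) (h0 : 0 ≤ x) (h1 : x ≤ 1) :
    x - x ^ 3 / 6 + x ^ 5 / 120 - x ^ 7 / 5040 + x ^ 9 / 362880 - x ^ 11 / 39916800 ≤ Real.sin x ∧
    Real.sin x ≤ x - x ^ 3 / 6 + x ^ 5 / 120 - x ^ 7 / 5040 + x ^ 9 / 362880 := by
  have hs := (Real.hasSum_sin x).tendsto_sum_nat
  have hs' : Filter.Tendsto (fun n => ∑ i ∈ Finset.range n, (-1 : ℝ) ^ i *
      (fun n : ℕ => x ^ (2 * n + 1) / ((2 * n + 1).factorial : ℝ)) i) Filter.atTop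
      (nhds (Real.sin x)) := by
    refine hs.congr (fun n => Finset.sum_congr rfl (fun i _ => ?_))
    ring
  have ha := KNumEnv_anti x h0 h1 1
  have b1 := ha.alternating_series_le_tendsto hs' 3
  have b2 := ha.tendsto_le_alternating_series hs' 2
  norm_num [Finset.sum_range_succ, Nat.factorial] at b1 b2
  constructor
  · linarith
  · refine le_trans b2 (le_of_eq ?_)
    ring

private theorem KNumEnv_mulU_le (a b A B : Nat) (ha : a ≤ A) (hb : b ≤ B) :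
    mulU a b ≤ A * B / 1099511627776 + 1 := by
  unfold mulU
  have e : Nat.shiftRight (Nat.mul a b) 40 = (a * b) >>> 40 := rfl
  rw [e, Nat.shiftRight_eq_div_pow, Nat.succ_eq_add_one]
  apply Nat.add_le_add_right
  exact Nat.div_le_div_right (Nat.mul_le_mul ha hb)

/-- alternating Taylor series (as `cosb_bounds` in `NumTrig`) -/
theorem sinc_bounds {x : ℝ} {x2 : PI} (h0 : 0 < x) (h1 : x ≤ 1) (h : x2.Mem (x ^ 2))
    (h2 : x2.hi ≤ 1099511627778) :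
    rv (sincL x2) ≤ Real.sin x / x ∧ Real.sin x / x ≤ rv (sincU x2) := by
  have hz0 : 0 ≤ x ^ 2 := by positivity
  have hz1 : x ^ 2 ≤ 1 := by nlinarith
  have hzl : rv x2.lo ≤ x ^ 2 := h.1
  have hzh : x ^ 2 ≤ rv x2.hi := h.2
  have hU : rv 1099511627776 = 1 := rv_lit
  obtain ⟨c1, c2⟩ := KNumEnv_sin x h0.le h1
  set z := x ^ 2 with hz
  -- lower bound
  have t5 : 0 ≤ 1 - z * 1 / 110 ∧ 1 - z * 1 / 110 ≤ 1 :=
    KNumEnv_T (by norm_num) hz0 hz1 ⟨by norm_num, le_rfl⟩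
  have t4 := KNumEnv_T (c := 72) (by norm_num) hz0 hz1 t5
  have t3 := KNumEnv_T (c := 42) (by norm_num) hz0 hz1 t4
  have t2 := KNumEnv_T (c := 20) (by norm_num) hz0 hz1 t3
  have t1 := KNumEnv_T (c := 6) (by norm_num) hz0 hz1 t2
  have l5 := KNumEnv_kD 110 x2.hi 1099511627776 z 1 (by norm_num) hz0 hzh (by norm_num)
    (le_of_eq hU.symm) t5.1
  have l4 := KNumEnv_kU 72 x2.lo _ z _ (by norm_num) hzl l5 hz0
  have l3 := KNumEnv_kD 42 x2.hi _ z _ (by norm_num) hz0 hzh t4.1 l4 t3.1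
  have l2 := KNumEnv_kU 20 x2.lo _ z _ (by norm_num) hzl l3 hz0
  have l1 := KNumEnv_kD 6 x2.hi _ z _ (by norm_num) hz0 hzh t2.1 l2 t1.1
  -- upper bound
  have s4 : 0 ≤ 1 - z * 1 / 72 ∧ 1 - z * 1 / 72 ≤ 1 :=
    KNumEnv_T (by norm_num) hz0 hz1 ⟨by norm_num, le_rfl⟩
  have s3 := KNumEnv_T (c := 42) (by norm_num) hz0 hz1 s4
  have s2 := KNumEnv_T (c := 20) (by norm_num) hz0 hz1 s3
  have u4 := KNumEnv_kD 72 x2.hi 1099511627776 z 1 (by norm_num) hz0 hzh (by norm_num)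
    (le_of_eq hU.symm) s4.1
  have u3 := KNumEnv_kU 42 x2.lo _ z _ (by norm_num) hzl u4 hz0
  have u2 := KNumEnv_kD 20 x2.hi _ z _ (by norm_num) hz0 hzh s3.1 u3 s2.1
  have u1 := KNumEnv_kU 6 x2.lo _ z _ (by norm_num) hzl u2 hz0
  refine ⟨?_, ?_⟩
  · rw [le_div_iff₀ h0]
    refine le_trans (mul_le_mul_of_nonneg_right (show rv (sincL x2) ≤ _ from l1) h0.le)
      (le_trans (le_of_eq ?_) c1)
    rw [hz]
    push_cast
    ring
  · rw [div_le_iff₀ h0]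
    refine le_trans (le_trans c2 (le_of_eq ?_))
      (mul_le_mul_of_nonneg_right (show _ ≤ rv (sincU x2) from u1) h0.le)
    rw [hz]
    push_cast
    ring

private theorem KNumEnv_cosL_pos (x : Nat) (h : x ≤ 274877906944) : 0 < cosL x := by
  unfold cosL kcD
  have hb : cosbU ⟨mulD x x, mulU x x⟩ ≤ 1099511627776 := by
    unfold cosbU
    exact Nat.sub_le _ _
  generalize cosbU ⟨mulD x x, mulU x x⟩ = b at hb ⊢
  have hm : mulU x x ≤ 68719476737 :=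
    (KNumEnv_mulU_le x x 274877906944 274877906944 h h).trans (by norm_num)
  generalize mulU x x = m at hm ⊢
  have hn : mulU m b ≤ 68719476738 :=
    (KNumEnv_mulU_le m b 68719476737 1099511627776 hm hb).trans (by norm_num)
  generalize mulU m b = n at hn ⊢
  have e : Nat.sub 1099511627776 (Nat.succ (Nat.div n 2)) = 1099511627776 - (n / 2 + 1) := rfl
  rw [e]
  omega

private theorem KNumEnv_yhi {dl dh : Nat} (c3 : dh ≤ 2199023255552) :
    (yOf dl dh).hi ≤ 1994293491430 := by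
  show (1 * mulU 1994293491429 dh) / 2 + 1 ≤ 1994293491430
  have hm : mulU 1994293491429 dh ≤ 3988586982858 + 1 :=
    (KNumEnv_mulU_le 1994293491429 dh 1994293491429 2199023255552 le_rfl c3).trans (by norm_num)
  omega

private theorem KNumEnv_mulD {a b c : Nat} (h : c * 1099511627776 ≤ a * b) : c ≤ mulD a b := by
  have h1 : mulD a b = a * b / 1099511627776 := by
    show Nat.shiftRight (a * b) 40 = _
    exact Nat.shiftRight_eq_div_pow (a * b) 40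
  rw [h1, Nat.le_div_iff_mul_le (by norm_num)]
  exact h

private theorem KNumEnv_t {dl dh : Nat} {δ : ℝ} (hd : (⟨dl, dh⟩ : PI).Mem δ)
    (c3 : dh ≤ 2199023255552) :
    (tOf (yOf dl dh)).Mem (Real.exp (-(Real.pi / Real.sqrt 3 * δ))) := by
  have my : (yOf dl dh).Mem (((1 : ℕ) : ℝ) / (2 : ℕ) * (Real.pi / Real.sqrt 3 * δ)) :=
    PI.Mem.smul 1 2 (by norm_num) (PI.Mem.mul pr3I_mem hd)
  have yhi := KNumEnv_yhi (dl := dl) c3
  have mhalf : (PI.smul 1 2 (yOf dl dh)).Mem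
      (((1 : ℕ) : ℝ) / (2 : ℕ) * (((1 : ℕ) : ℝ) / (2 : ℕ) * (Real.pi / Real.sqrt 3 * δ))) :=
    PI.Mem.smul 1 2 (by norm_num) my
  have hhalf : (PI.smul 1 2 (yOf dl dh)).hi ≤ 2199023255552 := by
    show (1 * (yOf dl dh).hi) / 2 + 1 ≤ 2199023255552
    omega
  have me := exp_mem mhalf hhalf
  have hpos : 0 < (four (exp (PI.smul 1 2 (yOf dl dh)))).lo := by
    have b1 : 1099511627776 ≤ (exp (PI.smul 1 2 (yOf dl dh))).lo := by
      show 1099511627776 ≤ 1099511627776 + mulD _ _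
      exact Nat.le_add_right _ _
    have b2 : 1099511627776 ≤ (PI.sq (exp (PI.smul 1 2 (yOf dl dh)))).lo :=
      KNumEnv_mulD (Nat.mul_le_mul b1 b1)
    have b3 : 1099511627776 ≤ (PI.sq (PI.sq (exp (PI.smul 1 2 (yOf dl dh))))).lo :=
      KNumEnv_mulD (Nat.mul_le_mul b2 b2)
    exact lt_of_lt_of_le (by norm_num) b3
  have b1 : Real.exp (-(Real.pi / Real.sqrt 3 * δ)) = 1 / Real.exp
      (((1 : ℕ) : ℝ) / (2 : ℕ) * (((1 : ℕ) : ℝ) / (2 : ℕ) * (Real.pi / Real.sqrt 3 * δ))) ^ 4 := by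
    rw [Real.exp_neg, one_div, ← Real.exp_nat_mul]
    congr 2
    push_cast
    ring
  rw [b1]
  exact PI.Mem.inv (PI.Mem.four me) hpos

private theorem KNumEnv_dh {eh : Nat} (h : eh ≤ 82463372083) :
    Nat.add 1099511627776 eh ≤ 2199023255552 := by
  show 1099511627776 + eh ≤ 2199023255552
  omega

/-- `ksk ε = π (sin x/x)`, `kvk ε = (π² ε/2) ((1 - cos x)/(x²/2))`, `x = π ε ≤ 0.24` -/
theorem kenv_ok {el eh : Nat} (h : kenvChk el eh = true) {ε : ℝ} (h0 : 0 < ε)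
    (h1 : rv el ≤ ε) (h2 : ε ≤ rv eh) : KEnvOK (mkKEnv el eh) ε := by
  have hc : el ≤ eh ∧ eh ≤ 82463372083 := by
    simp only [kenvChk, Bool.and_eq_true, Nat.ble_eq] at h
    exact h
  obtain ⟨-, hc2⟩ := hc
  have e1 : ε ≤ 0.075 := by
    refine h2.trans ((rv_mono hc2).trans ?_)
    unfold rv
    norm_num
  have he : (⟨el, eh⟩ : PI).Mem ε := ⟨h1, h2⟩
  have hth : (PI.mul piI ⟨el, eh⟩).Mem (Real.pi * ε) := PI.Mem.mul piI_mem he
  have hthhi : (PI.mul piI ⟨el, eh⟩).hi ≤ 259066323927 := by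
    show mulU 3454217652358 eh ≤ 259066323927
    exact (KNumEnv_mulU_le 3454217652358 eh 3454217652358 82463372083 le_rfl hc2).trans
      (by norm_num)
  have hx0 : 0 < Real.pi * ε := mul_pos Real.pi_pos h0
  have hx1 : Real.pi * ε ≤ 1 := by
    have := Real.pi_lt_d2
    nlinarith
  have hcpos : 0 < Real.cos (Real.pi * ε) := by
    apply Real.cos_pos_of_mem_Ioo
    constructor <;> linarith [Real.pi_gt_three]
  have mc : (cosPI (PI.mul piI ⟨el, eh⟩)).Mem (kc ε) :=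
    cosPI_mem hth (hthhi.trans (by norm_num))
  have ms : (sinPI (PI.mul piI ⟨el, eh⟩)).Mem (ks ε) :=
    sinPI_mem hth (hthhi.trans (by norm_num))
  have mic : (PI.inv (cosPI (PI.mul piI ⟨el, eh⟩))).Mem (1 / kc ε) := by
    refine PI.Mem.inv mc ?_
    exact KNumEnv_cosL_pos _ (hthhi.trans (by norm_num))
  have mx2 : (PI.sq (PI.mul piI ⟨el, eh⟩)).Mem ((Real.pi * ε) ^ 2) := hth.sq
  have hx2hi : (PI.sq (PI.mul piI ⟨el, eh⟩)).hi ≤ 1099511627778 := by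
    show mulU (PI.mul piI ⟨el, eh⟩).hi (PI.mul piI ⟨el, eh⟩).hi ≤ 1099511627778
    exact (KNumEnv_mulU_le _ _ 259066323927 259066323927 hthhi hthhi).trans (by norm_num)
  have hsinc : (⟨sincL (PI.sq (PI.mul piI ⟨el, eh⟩)), sincU (PI.sq (PI.mul piI ⟨el, eh⟩))⟩ :
      PI).Mem (Real.sin (Real.pi * ε) / (Real.pi * ε)) := sinc_bounds hx0 hx1 mx2 hx2hi
  have hcosb : (⟨cosbL (PI.sq (PI.mul piI ⟨el, eh⟩)), cosbU (PI.sq (PI.mul piI ⟨el, eh⟩))⟩ :
      PI).Mem ((1 - Real.cos (Real.pi * ε)) / ((Real.pi * ε) ^ 2 / 2)) :=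
    cosb_bounds hx0 hx1 mx2 hx2hi
  have msk : (PI.mul piI ⟨sincL (PI.sq (PI.mul piI ⟨el, eh⟩)),
      sincU (PI.sq (PI.mul piI ⟨el, eh⟩))⟩).Mem (ksk ε) := by
    have e2 : ksk ε = Real.pi * (Real.sin (Real.pi * ε) / (Real.pi * ε)) := by
      unfold ksk
      field_simp
    rw [e2]
    exact PI.Mem.mul piI_mem hsinc
  have mvk : (PI.mul (PI.smul 1 2 (PI.mul (PI.sq piI) ⟨el, eh⟩))
      ⟨cosbL (PI.sq (PI.mul piI ⟨el, eh⟩)), cosbU (PI.sq (PI.mul piI ⟨el, eh⟩))⟩).Mem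
      (kvk ε) := by
    have e2 : kvk ε = (((1 : ℕ) : ℝ) / (2 : ℕ) * (Real.pi ^ 2 * ε)) *
        ((1 - Real.cos (Real.pi * ε)) / ((Real.pi * ε) ^ 2 / 2)) := by
      unfold kvk
      push_cast
      field_simp
    rw [e2]
    exact PI.Mem.mul (PI.Mem.smul 1 2 (by norm_num) (PI.Mem.mul piI_mem.sq he)) hcosb
  have hd : (⟨Nat.add 1099511627776 el, Nat.add 1099511627776 eh⟩ : PI).Mem (1 + ε) := by
    constructor
    · change rv (Nat.add 1099511627776 el) ≤ 1 + ε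
      rw [rv_add, rv_lit]
      linarith
    · change 1 + ε ≤ rv (Nat.add 1099511627776 eh)
      rw [rv_add, rv_lit]
      linarith
  have mt : (tOf (yOf (Nat.add 1099511627776 el) (Nat.add 1099511627776 eh))).Mem (kt ε) :=
    KNumEnv_t hd (KNumEnv_dh hc2)
  have mt2 := mt.sq
  have mt3 : (PI.mul (PI.sq (tOf (yOf (Nat.add 1099511627776 el) (Nat.add 1099511627776 eh))))
      (tOf (yOf (Nat.add 1099511627776 el) (Nat.add 1099511627776 eh)))).Mem (kt ε ^ 3) := by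
    have e2 : kt ε ^ 3 = kt ε ^ 2 * kt ε := by ring
    rw [e2]
    exact PI.Mem.mul mt2 mt
  have mt4 : (PI.sq (PI.sq (tOf (yOf (Nat.add 1099511627776 el)
      (Nat.add 1099511627776 eh))))).Mem (kt ε ^ 4) := by
    have e2 : kt ε ^ 4 = (kt ε ^ 2) ^ 2 := by ring
    rw [e2]
    exact mt2.sq
  exact ⟨h0, e1, h1, h2, mc, ms, mic, msk, mvk, mt, mt3, mt4⟩

end MP7e122f.Num
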