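import Pool.Agent.Lib.MP_7e122f_anR.NumMidA

namespace MP7e122f.Num

open MP7e122f.R

private lemma NumMidC_kap (p : ℝ) : 0 < kap p := by
  unfold kap; nlinarith [sq_nonneg (2 * p - 1)]

private lemma NumMidC_cube (x : ℝ) : Real.exp (x / 3) ^ 3 = Real.exp x := by
  rw [← Real.exp_nat_mul]
  congr 1
  push_cast
  ring

private lemma NumMidC_chk {B : Base} (hc : midChk B = true) :
    0 < (cube B.f1).lo ∧ 0 < (cube B.f2).lo ∧ 0 < (cube B.f3).lo := by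
  unfold midChk at hc
  rw [Bool.and_eq_true, Bool.and_eq_true] at hc
  exact ⟨Nat.le_of_ble_eq_true hc.1, Nat.le_of_ble_eq_true hc.2.1, Nat.le_of_ble_eq_true hc.2.2⟩

/-- the identity behind the three computations -/
private lemma NumMidC_id (a b c A B' C u v w E s κ r p : ℝ) (hκ : 0 < κ) (hr : 0 < r)
    (habc : a * b * c = 1) (h1 : a - b = s * (p * r) * A) (h2 : b - c = s * ((1 - p) * r) * B')
    (h3 : a - c = s * r * C) (hu : u = E * a ^ 3) (hv : v = E * b ^ 3) (hw : w = E * c ^ 3) :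
    (u + v + w - 3) / (κ * r ^ 2) =
      s ^ 2 / 2 * ((E * (a + (b + c))) * ((p ^ 2 * A ^ 2 + (1 - p) ^ 2 * B' ^ 2 + C ^ 2) / κ)) -
        3 * (1 - E) / (κ * r ^ 2) := by
  have e : a ^ 3 + b ^ 3 + c ^ 3 - 3 = (a + b + c) / 2 *
      ((s * (p * r) * A) ^ 2 + (s * ((1 - p) * r) * B') ^ 2 + (s * r * C) ^ 2) := by
    rw [← h1, ← h2, ← h3]
    linear_combination 3 * habc
  have e2 : u + v + w - 3 = E * (a ^ 3 + b ^ 3 + c ^ 3 - 3) - 3 * (1 - E) := by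
    rw [hu, hv, hw]; ring
  rw [e2, e]
  field_simp
  ring

private lemma NumMidC_e {x y t q : ℝ} (h : x = y + t * q) (ht : t ≠ 0) :
    Real.exp (x / t) = Real.exp (y / t) * Real.exp q := by
  rw [← Real.exp_add, h]
  congr 1
  field_simp

private lemma NumMidC_abs {A C : PI} {a c : ℝ} (ha : A.Mem a) (hc : C.Mem c) :
    |a - c| ≤ rv (maxN (Nat.sub A.hi C.lo) (Nat.sub C.hi A.lo)) := by
  rw [rv_maxN]
  have h1 := rv_sub_le A.hi C.lo
  have h2 := rv_sub_le C.hi A.lo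
  obtain ⟨a1, a2⟩ := ha
  obtain ⟨c1, c2⟩ := hc
  rw [abs_le]
  constructor
  · have := le_max_right (rv (Nat.sub A.hi C.lo)) (rv (Nat.sub C.hi A.lo))
    linarith
  · have := le_max_left (rv (Nat.sub A.hi C.lo)) (rv (Nat.sub C.hi A.lo))
    linarith

/-- Formulas.  With `f_i = exp(x_i/3)`, `f1 f2 f3 = 1`,
`∑ e^{x_i} - 3 = (∑ f_i)/2 ∑_{i<j} (f_i - f_j)²`, `f1 - f2 = f2 (pr/3) ψ(pr/3)` etc., so
`D1 = D1p - D1n`, `D1p = e^{-h} (∑ f)/18 wavg(...)`, `D1n = 3 (1 - e^{-h})/(κ r²) = 3 g0 ψ(-h)`.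
In the same way `D3` with `v_i = exp(-x_i)` and `D4` with `w_i = exp(4x_i/3)`.
`T1 - T2 = T2 (exp(pr) - 1) = p r F1`, `T2 - T3 = (1-p) r F2`, `T1 - T3 = r F3`,
`Dq = ∑_{i<j} (T_i - T_j)²`; `O2 - O1 = O1 (exp(3pr) - 1) = p r C12` etc.,
`Cov = (O2-O1)(T1-T2) + (O3-O2)(T2-T3) + (O3-O1)(T1-T3)`,
`P3 = (O2-O1)(T1-T2) + (O3-O1)(T2-T3)`, `Q3 = (O3-O1)(T1-T2) + (O3-O2)(T2-T3)`. -/
theorem mid_D1 {B : Base} {y r p : ℝ} (hy : 0 < y) (hr : 0 < r) (hp0 : 0 ≤ p) (hp1 : p ≤ 1)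
    (hB : BaseOK B y r p) (hc : midChk B = true) :
    ∃ a b, (mkMid B).D1p.Mem a ∧ (mkMid B).D1n.Mem b ∧ R.D1 y r p = a - b := by
  have hk := NumMidC_kap p
  have m1 := PI.Mem.smul 1 18 (by norm_num) (PI.Mem.mul (PI.Mem.mul hB.meh
    (PI.Mem.add hB.mf1 (PI.Mem.add hB.mf2 hB.mf3)))
    (wavg_mem hB (PI.Mem.sq (PI.Mem.mul hB.mf2 hB.mPa)) (PI.Mem.sq (PI.Mem.mul hB.mf3 hB.mPb))
      (PI.Mem.sq (PI.Mem.mul hB.mf3 hB.mPr))))
  have m2 := PI.Mem.smul 3 1 (by norm_num) (PI.Mem.mul hB.mg0 (g1Of_mem hB.mh))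
  refine ⟨_, _, m1, m2, ?_⟩
  have h1 : Real.exp (xx1 r p / 3) - Real.exp (xx2 r p / 3) =
      1 / 3 * (p * r) * (Real.exp (xx2 r p / 3) * psr (p * r / 3)) := by
    have : Real.exp (xx1 r p / 3) = Real.exp (xx2 r p / 3) * Real.exp (p * r / 3) := by
      rw [← Real.exp_add]; congr 1; unfold xx1 xx2; ring
    rw [this, psr_spec (p * r / 3)]; ring
  have h2 : Real.exp (xx2 r p / 3) - Real.exp (xx3 r p / 3) =
      1 / 3 * ((1 - p) * r) * (Real.exp (xx3 r p / 3) * psr ((1 - p) * r / 3)) := by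
    have : Real.exp (xx2 r p / 3) = Real.exp (xx3 r p / 3) * Real.exp ((1 - p) * r / 3) := by
      rw [← Real.exp_add]; congr 1; unfold xx2 xx3; ring
    rw [this, psr_spec ((1 - p) * r / 3)]; ring
  have h3 : Real.exp (xx1 r p / 3) - Real.exp (xx3 r p / 3) =
      1 / 3 * r * (Real.exp (xx3 r p / 3) * psr (r / 3)) := by
    have : Real.exp (xx1 r p / 3) = Real.exp (xx3 r p / 3) * Real.exp (r / 3) := by
      rw [← Real.exp_add]; congr 1; unfold xx1 xx3; ring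
    rw [this, psr_spec (r / 3)]; ring
  have habc : Real.exp (xx1 r p / 3) * Real.exp (xx2 r p / 3) * Real.exp (xx3 r p / 3) = 1 := by
    rw [← Real.exp_add, ← Real.exp_add, ← Real.exp_zero]
    congr 1
    unfold xx1 xx2 xx3; ring
  have hT : ∀ x : ℝ, Real.exp (x - hh y r p) =
      Real.exp (-(hh y r p)) * Real.exp (x / 3) ^ 3 := by
    intro x
    rw [NumMidC_cube, ← Real.exp_add]
    congr 1; ring
  have key := NumMidC_id _ _ _ _ _ _ (T1 y r p) (T2 y r p) (T3 y r p) (Real.exp (-(hh y r p)))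
    (1 / 3) (kap p) r p hk hr habc h1 h2 h3 (hT _) (hT _) (hT _)
  have hE : 3 * (1 - Real.exp (-(hh y r p))) / (kap p * r ^ 2) =
      ((3 : ℕ) : ℝ) / ((1 : ℕ) : ℝ) * (g0 y r p * psr (-(hh y r p))) := by
    rw [psr_spec (-(hh y r p)), div_eq_iff (by positivity)]
    have : hh y r p = g0 y r p * (kap p * r ^ 2) := rfl
    rw [this]
    push_cast
    ring
  unfold R.D1
  rw [key, hE]
  push_cast
  ring

theorem mid_D3 {B : Base} {y r p : ℝ} (hy : 0 < y) (hr : 0 < r) (hp0 : 0 ≤ p) (hp1 : p ≤ 1)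
    (hB : BaseOK B y r p) (hc : midChk B = true) :
    ∃ a b, (mkMid B).D3p.Mem a ∧ (mkMid B).D3n.Mem b ∧ R.D3 y r p = a - b := by
  have hk := NumMidC_kap p
  obtain ⟨c1, c2, c3⟩ := NumMidC_chk hc
  have e1 : (cube B.f1).Mem (Real.exp (xx1 r p)) := by
    rw [← NumMidC_cube]; exact PI.Mem.cube hB.mf1
  have e2 : (cube B.f2).Mem (Real.exp (xx2 r p)) := by
    rw [← NumMidC_cube]; exact PI.Mem.cube hB.mf2
  have e3 : (cube B.f3).Mem (Real.exp (xx3 r p)) := by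
    rw [← NumMidC_cube]; exact PI.Mem.cube hB.mf3
  have v1 := PI.Mem.inv e1 c1
  have v2 := PI.Mem.inv e2 c2
  have v3 := PI.Mem.inv e3 c3
  have hQa : (tri B.Pa B.Ea).Mem (psr (p * r)) := by
    have := tri_mem hB.mPa hB.mEa
    have e : 3 * (p * r / 3) = p * r := by ring
    rwa [e] at this
  have hQb : (tri B.Pb B.Eb).Mem (psr ((1 - p) * r)) := by
    have := tri_mem hB.mPb hB.mEb
    have e : 3 * ((1 - p) * r / 3) = (1 - p) * r := by ring
    rwa [e] at this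
  have hQr : (tri B.Pr B.Er).Mem (psr r) := by
    have := tri_mem hB.mPr hB.mEr
    have e : 3 * (r / 3) = r := by ring
    rwa [e] at this
  have m1 := PI.Mem.smul 1 2 (by norm_num) (PI.Mem.mul (PI.Mem.mul (PI.Mem.cube hB.meh)
    (PI.Mem.add v1 (PI.Mem.add v2 v3)))
    (wavg_mem hB (PI.Mem.sq (PI.Mem.mul v1 hQa)) (PI.Mem.sq (PI.Mem.mul v2 hQb))
      (PI.Mem.sq (PI.Mem.mul v1 hQr))))
  have m2 := PI.Mem.smul 9 1 (by norm_num) (PI.Mem.mul hB.mg0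
    (tri_mem (g1Of_mem hB.mh) hB.meh))
  refine ⟨_, _, m1, m2, ?_⟩
  simp only [one_div, ← Real.exp_neg]
  have h1 : Real.exp (-xx1 r p) - Real.exp (-xx2 r p) =
      (-1) * (p * r) * (Real.exp (-xx1 r p) * psr (p * r)) := by
    have : Real.exp (-xx2 r p) = Real.exp (-xx1 r p) * Real.exp (p * r) := by
      rw [← Real.exp_add]; congr 1; unfold xx1 xx2; ring
    rw [this, psr_spec (p * r)]; ring
  have h2 : Real.exp (-xx2 r p) - Real.exp (-xx3 r p) =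
      (-1) * ((1 - p) * r) * (Real.exp (-xx2 r p) * psr ((1 - p) * r)) := by
    have : Real.exp (-xx3 r p) = Real.exp (-xx2 r p) * Real.exp ((1 - p) * r) := by
      rw [← Real.exp_add]; congr 1; unfold xx2 xx3; ring
    rw [this, psr_spec ((1 - p) * r)]; ring
  have h3 : Real.exp (-xx1 r p) - Real.exp (-xx3 r p) =
      (-1) * r * (Real.exp (-xx1 r p) * psr r) := by
    have : Real.exp (-xx3 r p) = Real.exp (-xx1 r p) * Real.exp r := by
      rw [← Real.exp_add]; congr 1; unfold xx1 xx3; ring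
    rw [this, psr_spec r]; ring
  have habc : Real.exp (-xx1 r p) * Real.exp (-xx2 r p) * Real.exp (-xx3 r p) = 1 := by
    rw [← Real.exp_add, ← Real.exp_add, ← Real.exp_zero]
    congr 1
    unfold xx1 xx2 xx3; ring
  have hT : ∀ x : ℝ, Real.exp (-(3 * (x + hh y r p))) =
      Real.exp (-(hh y r p)) ^ 3 * Real.exp (-x) ^ 3 := by
    intro x
    rw [← mul_pow, ← Real.exp_add, ← Real.exp_nat_mul]
    congr 1; push_cast; ring
  have key := NumMidC_id _ _ _ _ _ _ (O1 y r p) (O2 y r p) (O3 y r p)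
    (Real.exp (-(hh y r p)) ^ 3) (-1) (kap p) r p hk hr habc h1 h2 h3 (hT _) (hT _) (hT _)
  have hE : 3 * (1 - Real.exp (-(hh y r p)) ^ 3) / (kap p * r ^ 2) =
      ((9 : ℕ) : ℝ) / ((1 : ℕ) : ℝ) * (g0 y r p * psr (3 * -(hh y r p))) := by
    have h0 : Real.exp (-(hh y r p)) ^ 3 = Real.exp (3 * -(hh y r p)) := by
      rw [← Real.exp_nat_mul]; congr 1
    rw [h0, psr_spec (3 * -(hh y r p)), div_eq_iff (by positivity)]
    have : hh y r p = g0 y r p * (kap p * r ^ 2) := rfl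
    rw [this]
    push_cast
    ring
  unfold R.D3
  rw [key, hE]
  push_cast
  ring

theorem mid_D4 {B : Base} {y r p : ℝ} (hy : 0 < y) (hr : 0 < r) (hp0 : 0 ≤ p) (hp1 : p ≤ 1)
    (hB : BaseOK B y r p) (hc : midChk B = true) :
    |R.D4 y r p| ≤ rv (mkMid B).D4u := by
  have hk := NumMidC_kap p
  have w1 := PI.Mem.mul hB.mf1 (PI.Mem.cube hB.mf1)
  have w2 := PI.Mem.mul hB.mf2 (PI.Mem.cube hB.mf2)
  have w3 := PI.Mem.mul hB.mf3 (PI.Mem.cube hB.mf3)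
  have qa := quad_mem hB.mPa hB.mEa
  have qb := quad_mem hB.mPb hB.mEb
  have qr := quad_mem hB.mPr hB.mEr
  have m1 := PI.Mem.smul 8 9 (by norm_num) (PI.Mem.mul (PI.Mem.mul
    (PI.Mem.mul (PI.Mem.cube hB.meh) hB.meh) (PI.Mem.add w1 (PI.Mem.add w2 w3)))
    (wavg_mem hB (PI.Mem.sq (PI.Mem.mul w2 qa)) (PI.Mem.sq (PI.Mem.mul w3 qb))
      (PI.Mem.sq (PI.Mem.mul w3 qr))))
  have m2 := PI.Mem.smul 12 1 (by norm_num) (PI.Mem.mul hB.mg0
    (quad_mem (g1Of_mem hB.mh) hB.meh))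
  have hw : ∀ x : ℝ, Real.exp (x / 3) * Real.exp (x / 3) ^ 3 = Real.exp (4 * (x / 3)) := by
    intro x
    rw [← Real.exp_nat_mul, ← Real.exp_add]
    congr 1; push_cast; ring
  rw [hw, hw, hw] at m1
  have h1 : Real.exp (4 * (xx1 r p / 3)) - Real.exp (4 * (xx2 r p / 3)) =
      4 / 3 * (p * r) * (Real.exp (4 * (xx2 r p / 3)) * psr (4 * (p * r / 3))) := by
    have : Real.exp (4 * (xx1 r p / 3)) = Real.exp (4 * (xx2 r p / 3)) *
        Real.exp (4 * (p * r / 3)) := by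
      rw [← Real.exp_add]; congr 1; unfold xx1 xx2; ring
    rw [this, psr_spec (4 * (p * r / 3))]; ring
  have h2 : Real.exp (4 * (xx2 r p / 3)) - Real.exp (4 * (xx3 r p / 3)) =
      4 / 3 * ((1 - p) * r) *
        (Real.exp (4 * (xx3 r p / 3)) * psr (4 * ((1 - p) * r / 3))) := by
    have : Real.exp (4 * (xx2 r p / 3)) = Real.exp (4 * (xx3 r p / 3)) *
        Real.exp (4 * ((1 - p) * r / 3)) := by
      rw [← Real.exp_add]; congr 1; unfold xx2 xx3; ring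
    rw [this, psr_spec (4 * ((1 - p) * r / 3))]; ring
  have h3 : Real.exp (4 * (xx1 r p / 3)) - Real.exp (4 * (xx3 r p / 3)) =
      4 / 3 * r * (Real.exp (4 * (xx3 r p / 3)) * psr (4 * (r / 3))) := by
    have : Real.exp (4 * (xx1 r p / 3)) = Real.exp (4 * (xx3 r p / 3)) *
        Real.exp (4 * (r / 3)) := by
      rw [← Real.exp_add]; congr 1; unfold xx1 xx3; ring
    rw [this, psr_spec (4 * (r / 3))]; ring
  have habc : Real.exp (4 * (xx1 r p / 3)) * Real.exp (4 * (xx2 r p / 3)) *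
      Real.exp (4 * (xx3 r p / 3)) = 1 := by
    rw [← Real.exp_add, ← Real.exp_add, ← Real.exp_zero]
    congr 1
    unfold xx1 xx2 xx3; ring
  have hT : ∀ x : ℝ, Real.exp (x - hh y r p) ^ 4 =
      (Real.exp (-(hh y r p)) ^ 3 * Real.exp (-(hh y r p))) * Real.exp (4 * (x / 3)) ^ 3 := by
    intro x
    rw [← Real.exp_nat_mul, ← Real.exp_nat_mul, ← Real.exp_nat_mul, ← Real.exp_add,
      ← Real.exp_add]
    congr 1; push_cast; ring
  have key := NumMidC_id _ _ _ _ _ _ (T1 y r p ^ 4) (T2 y r p ^ 4) (T3 y r p ^ 4)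
    (Real.exp (-(hh y r p)) ^ 3 * Real.exp (-(hh y r p))) (4 / 3) (kap p) r p hk hr habc
    h1 h2 h3 (hT _) (hT _) (hT _)
  have hE : 3 * (1 - Real.exp (-(hh y r p)) ^ 3 * Real.exp (-(hh y r p))) / (kap p * r ^ 2) =
      ((12 : ℕ) : ℝ) / ((1 : ℕ) : ℝ) * (g0 y r p * psr (4 * -(hh y r p))) := by
    have h0 : Real.exp (-(hh y r p)) ^ 3 * Real.exp (-(hh y r p)) =
        Real.exp (4 * -(hh y r p)) := by
      rw [← Real.exp_nat_mul, ← Real.exp_add]; congr 1; push_cast; ring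
    rw [h0, psr_spec (4 * -(hh y r p)), div_eq_iff (by positivity)]
    have : hh y r p = g0 y r p * (kap p * r ^ 2) := rfl
    rw [this]
    push_cast
    ring
  have hD : R.D4 y r p = (((8 : ℕ) : ℝ) / ((9 : ℕ) : ℝ) *
      (Real.exp (-(hh y r p)) ^ 3 * Real.exp (-(hh y r p)) *
        (Real.exp (4 * (xx1 r p / 3)) + (Real.exp (4 * (xx2 r p / 3)) +
          Real.exp (4 * (xx3 r p / 3)))) *
        ((p ^ 2 * (Real.exp (4 * (xx2 r p / 3)) * psr (4 * (p * r / 3))) ^ 2 +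
          (1 - p) ^ 2 * (Real.exp (4 * (xx3 r p / 3)) * psr (4 * ((1 - p) * r / 3))) ^ 2 +
          (Real.exp (4 * (xx3 r p / 3)) * psr (4 * (r / 3))) ^ 2) / kap p))) -
      ((12 : ℕ) : ℝ) / ((1 : ℕ) : ℝ) * (g0 y r p * psr (4 * -(hh y r p))) := by
    unfold R.D4
    rw [key, hE]
    push_cast
    ring
  rw [hD]
  exact NumMidC_abs m1 m2

end MP7e122f.Num
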