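import Pool.Agent.Lib.MP_7e122f_anR.KNumD
import Pool.Agent.Lib.MP_7e122f_anR.KNormG
import Pool.Agent.Lib.MP_7e122f_anR.NumMidC

namespace MP7e122f.Num

open MP7e122f.R

/-- what the fields of `Gm` mean -/
structure GmOK (G : Gm) (y r p : ℝ) : Prop where
  D1p : G.D1p.Mem (gD1p y r p)
  D1n : G.D1n.Mem (gD1n y r p)
  D3p : G.D3p.Mem (gD3p y r p)
  D3n : G.D3n.Mem (gD3n y r p)
  D4p : G.D4p.Mem (gD4p y r p)
  D4n : G.D4n.Mem (gD4n y r p)
  c1 : G.c1.Mem (gc1 r p)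
  c3 : G.c3.Mem (gc3 r p)
  c4 : G.c4.Mem (gc4 r p)
  m1 : G.m1.Mem (gm1 y r p)
  m3 : G.m3.Mem (gm3 y r p)
  m4 : G.m4.Mem (gm4 y r p)
  H : G.H.Mem (HH y r p)
  eh3 : G.eh3.Mem (Real.exp (-(3 * hh y r p)))
  eh4 : G.eh4.Mem (Real.exp (-(4 * hh y r p)))

private lemma KNumGA_kap (p : ℝ) : 0 < kap p := by
  unfold kap; nlinarith [sq_nonneg (2 * p - 1)]

private lemma KNumGA_cube (x : ℝ) : Real.exp (x / 3) ^ 3 = Real.exp x := by
  rw [← Real.exp_nat_mul]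
  congr 1
  push_cast
  ring

private lemma KNumGA_chk {B : Base} (hc : midChk B = true) :
    0 < (cube B.f1).lo ∧ 0 < (cube B.f2).lo ∧ 0 < (cube B.f3).lo := by
  unfold midChk at hc
  rw [Bool.and_eq_true, Bool.and_eq_true] at hc
  exact ⟨Nat.le_of_ble_eq_true hc.1, Nat.le_of_ble_eq_true hc.2.1, Nat.le_of_ble_eq_true hc.2.2⟩

/-- the identity behind the three computations -/
private lemma KNumGA_id (a b c A B' C E s κ r p : ℝ) (hκ : 0 < κ) (hr : 0 < r)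
    (habc : a * b * c = 1) (h1 : a - b = s * (p * r) * A) (h2 : b - c = s * ((1 - p) * r) * B')
    (h3 : a - c = s * r * C) :
    E * ((a ^ 3 + b ^ 3 + c ^ 3 - 3) / (κ * r ^ 2)) =
      s ^ 2 / 2 *
        ((E * (a + (b + c))) * ((p ^ 2 * A ^ 2 + (1 - p) ^ 2 * B' ^ 2 + C ^ 2) / κ)) := by
  have e : a ^ 3 + b ^ 3 + c ^ 3 - 3 = (a + b + c) / 2 *
      ((s * (p * r) * A) ^ 2 + (s * ((1 - p) * r) * B') ^ 2 + (s * r * C) ^ 2) := by
    rw [← h1, ← h2, ← h3]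
    linear_combination 3 * habc
  rw [e]
  field_simp
  ring

private lemma KNumGA_eh3 {B : Base} {y r p : ℝ} (hB : BaseOK B y r p) :
    (cube B.eh).Mem (Real.exp (-(3 * hh y r p))) := by
  have h := PI.Mem.cube hB.meh
  have e : Real.exp (-(hh y r p)) ^ 3 = Real.exp (-(3 * hh y r p)) := by
    rw [← Real.exp_nat_mul]; congr 1; push_cast; ring
  rwa [e] at h

private lemma KNumGA_eh4 {B : Base} {y r p : ℝ} (hB : BaseOK B y r p) :
    (PI.mul (cube B.eh) B.eh).Mem (Real.exp (-(4 * hh y r p))) := by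
  have h := PI.Mem.mul (KNumGA_eh3 hB) hB.meh
  have e : Real.exp (-(3 * hh y r p)) * Real.exp (-(hh y r p)) = Real.exp (-(4 * hh y r p)) := by
    rw [← Real.exp_add]; congr 1; ring
  rwa [e] at h

private lemma KNumGA_g3 {B : Base} {y r p : ℝ} (hB : BaseOK B y r p) :
    (tri (g1Of B.h) B.eh).Mem (psr (-(3 * hh y r p))) := by
  have h := tri_mem (g1Of_mem hB.mh) hB.meh
  have e : 3 * -(hh y r p) = -(3 * hh y r p) := by ring
  rwa [e] at h

private lemma KNumGA_g4 {B : Base} {y r p : ℝ} (hB : BaseOK B y r p) :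
    (quad (g1Of B.h) B.eh).Mem (psr (-(4 * hh y r p))) := by
  have h := quad_mem (g1Of_mem hB.mh) hB.meh
  have e : 4 * -(hh y r p) = -(4 * hh y r p) := by ring
  rwa [e] at h

private lemma KNumGA_Q {B : Base} {y r p : ℝ} (hB : BaseOK B y r p) :
    (tri B.Pa B.Ea).Mem (psr (p * r)) ∧ (tri B.Pb B.Eb).Mem (psr ((1 - p) * r)) ∧
      (tri B.Pr B.Er).Mem (psr r) := by
  refine ⟨?_, ?_, ?_⟩
  · have := tri_mem hB.mPa hB.mEa
    have e : 3 * (p * r / 3) = p * r := by ring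
    rwa [e] at this
  · have := tri_mem hB.mPb hB.mEb
    have e : 3 * ((1 - p) * r / 3) = (1 - p) * r := by ring
    rwa [e] at this
  · have := tri_mem hB.mPr hB.mEr
    have e : 3 * (r / 3) = r := by ring
    rwa [e] at this

private lemma KNumGA_a3 {B : Base} {y r p : ℝ} (hB : BaseOK B y r p) :
    (cube B.Ea).Mem (Real.exp (p * r)) ∧ (cube B.Eb).Mem (Real.exp ((1 - p) * r)) ∧
      (cube B.Er).Mem (Real.exp r) := by
  refine ⟨?_, ?_, ?_⟩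
  · have h := PI.Mem.cube hB.mEa
    rwa [KNumGA_cube] at h
  · have h := PI.Mem.cube hB.mEb
    rwa [KNumGA_cube] at h
  · have h := PI.Mem.cube hB.mEr
    rwa [KNumGA_cube] at h

private lemma KNumGA_e {B : Base} {y r p : ℝ} (hB : BaseOK B y r p) :
    (cube B.f1).Mem (Real.exp (xx1 r p)) ∧ (cube B.f2).Mem (Real.exp (xx2 r p)) ∧
      (cube B.f3).Mem (Real.exp (xx3 r p)) := by
  refine ⟨?_, ?_, ?_⟩
  · rw [← KNumGA_cube]; exact PI.Mem.cube hB.mf1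
  · rw [← KNumGA_cube]; exact PI.Mem.cube hB.mf2
  · rw [← KNumGA_cube]; exact PI.Mem.cube hB.mf3

private lemma KNumGA_D1p {B : Base} {y r p : ℝ} (hr : 0 < r) (hB : BaseOK B y r p) :
    (PI.smul 1 18 (PI.mul (PI.mul B.eh (PI.add B.f1 (PI.add B.f2 B.f3)))
      (wavg B (PI.sq (PI.mul B.f2 B.Pa)) (PI.sq (PI.mul B.f3 B.Pb))
        (PI.sq (PI.mul B.f3 B.Pr))))).Mem (gD1p y r p) := by
  have hk := KNumGA_kap p
  have m1 := PI.Mem.smul 1 18 (by norm_num) (PI.Mem.mul (PI.Mem.mul hB.meh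
    (PI.Mem.add hB.mf1 (PI.Mem.add hB.mf2 hB.mf3)))
    (wavg_mem hB (PI.Mem.sq (PI.Mem.mul hB.mf2 hB.mPa)) (PI.Mem.sq (PI.Mem.mul hB.mf3 hB.mPb))
      (PI.Mem.sq (PI.Mem.mul hB.mf3 hB.mPr))))
  have h1 : Real.exp (xx1 r p / 3) - Real.exp (xx2 r p / 3) =
      1 / 3 * (p * r) * (Real.exp (xx2 r p / 3) * psr (p * r / 3)) := by
    have : Real.exp (xx1 r p / 3) = Real.exp (xx2 r p / 3) * Real.exp (p * r / 3) := by
      rw [← Real.exp_add]; congr 1; unfold xx1 xx2; ring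
    rw [this, psr_spec (p * r / 3)]; ring
  have h2 : Real.exp (xx2 r p / 3) - Real.exp (xx3 r p / 3) =
      1 / 3 * ((1 - p) * r) * (Real.exp (xx3 r p / 3) * psr ((1 - p) * r / 3)) := by
    have : Real.exp (xx2 r p / 3) = Real.exp (xx3 r p / 3) * Real.exp ((1 - p) * r / 3) := by
      rw [← Real.exp_add]; congr 1; unfold xx2 xx3; ring
    rw [this, psr_spec ((1 - p) * r / 3)]; ring
  have h3 : Real.exp (xx1 r p / 3) - Real.exp (xx3 r p / 3) =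
      1 / 3 * r * (Real.exp (xx3 r p / 3) * psr (r / 3)) := by
    have : Real.exp (xx1 r p / 3) = Real.exp (xx3 r p / 3) * Real.exp (r / 3) := by
      rw [← Real.exp_add]; congr 1; unfold xx1 xx3; ring
    rw [this, psr_spec (r / 3)]; ring
  have habc : Real.exp (xx1 r p / 3) * Real.exp (xx2 r p / 3) * Real.exp (xx3 r p / 3) = 1 := by
    rw [← Real.exp_add, ← Real.exp_add, ← Real.exp_zero]
    congr 1
    unfold xx1 xx2 xx3; ring
  have key := KNumGA_id _ _ _ _ _ _ (Real.exp (-(hh y r p)))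
    (1 / 3) (kap p) r p hk hr habc h1 h2 h3
  rw [KNumGA_cube, KNumGA_cube, KNumGA_cube] at key
  unfold gD1p
  rw [key]
  have e : ((1 / 3 : ℝ) ^ 2 / 2) = ((1 : ℕ) : ℝ) / ((18 : ℕ) : ℝ) := by norm_num
  rw [e]
  exact m1

private lemma KNumGA_D3p {B : Base} {y r p : ℝ} (hr : 0 < r) (hB : BaseOK B y r p)
    (hc : midChk B = true) :
    (PI.smul 1 2 (PI.mul (PI.mul (cube B.eh) (PI.add (PI.inv (cube B.f1))
      (PI.add (PI.inv (cube B.f2)) (PI.inv (cube B.f3)))))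
      (wavg B (PI.sq (PI.mul (PI.inv (cube B.f1)) (tri B.Pa B.Ea)))
        (PI.sq (PI.mul (PI.inv (cube B.f2)) (tri B.Pb B.Eb)))
        (PI.sq (PI.mul (PI.inv (cube B.f1)) (tri B.Pr B.Er)))))).Mem (gD3p y r p) := by
  have hk := KNumGA_kap p
  obtain ⟨c1, c2, c3⟩ := KNumGA_chk hc
  obtain ⟨e1, e2, e3⟩ := KNumGA_e hB
  obtain ⟨hQa, hQb, hQr⟩ := KNumGA_Q hB
  have v1 := PI.Mem.inv e1 c1
  have v2 := PI.Mem.inv e2 c2
  have v3 := PI.Mem.inv e3 c3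
  have m1 := PI.Mem.smul 1 2 (by norm_num) (PI.Mem.mul (PI.Mem.mul (KNumGA_eh3 hB)
    (PI.Mem.add v1 (PI.Mem.add v2 v3)))
    (wavg_mem hB (PI.Mem.sq (PI.Mem.mul v1 hQa)) (PI.Mem.sq (PI.Mem.mul v2 hQb))
      (PI.Mem.sq (PI.Mem.mul v1 hQr))))
  simp only [one_div, ← Real.exp_neg] at m1
  have h1 : Real.exp (-xx1 r p) - Real.exp (-xx2 r p) =
      (-1) * (p * r) * (Real.exp (-xx1 r p) * psr (p * r)) := by
    have : Real.exp (-xx2 r p) = Real.exp (-xx1 r p) * Real.exp (p * r) := by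
      rw [← Real.exp_add]; congr 1; unfold xx1 xx2; ring
    rw [this, psr_spec (p * r)]; ring
  have h2 : Real.exp (-xx2 r p) - Real.exp (-xx3 r p) =
      (-1) * ((1 - p) * r) * (Real.exp (-xx2 r p) * psr ((1 - p) * r)) := by
    have : Real.exp (-xx3 r p) = Real.exp (-xx2 r p) * Real.exp ((1 - p) * r) := by
      rw [← Real.exp_add]; congr 1; unfold xx2 xx3; ring
    rw [this, psr_spec ((1 - p) * r)]; ring
  have h3 : Real.exp (-xx1 r p) - Real.exp (-xx3 r p) =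
      (-1) * r * (Real.exp (-xx1 r p) * psr r) := by
    have : Real.exp (-xx3 r p) = Real.exp (-xx1 r p) * Real.exp r := by
      rw [← Real.exp_add]; congr 1; unfold xx1 xx3; ring
    rw [this, psr_spec r]; ring
  have habc : Real.exp (-xx1 r p) * Real.exp (-xx2 r p) * Real.exp (-xx3 r p) = 1 := by
    rw [← Real.exp_add, ← Real.exp_add, ← Real.exp_zero]
    congr 1
    unfold xx1 xx2 xx3; ring
  have key := KNumGA_id _ _ _ _ _ _ (Real.exp (-(3 * hh y r p))) (-1) (kap p) r p hk hr habc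
    h1 h2 h3
  have hT : ∀ x : ℝ, Real.exp (-x) ^ 3 = Real.exp (-(3 * x)) := by
    intro x
    rw [← Real.exp_nat_mul]
    congr 1; push_cast; ring
  rw [hT, hT, hT] at key
  unfold gD3p
  rw [key]
  have e : (((-1 : ℝ)) ^ 2 / 2) = ((1 : ℕ) : ℝ) / ((2 : ℕ) : ℝ) := by norm_num
  rw [e]
  simp only [one_div, Nat.cast_one] at m1 ⊢
  exact m1

private lemma KNumGA_D4p {B : Base} {y r p : ℝ} (hr : 0 < r) (hB : BaseOK B y r p) :
    (PI.smul 8 9 (PI.mul (PI.mul (PI.mul (cube B.eh) B.eh)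
      (PI.add (PI.mul B.f1 (cube B.f1)) (PI.add (PI.mul B.f2 (cube B.f2))
        (PI.mul B.f3 (cube B.f3)))))
      (wavg B (PI.sq (PI.mul (PI.mul B.f2 (cube B.f2)) (quad B.Pa B.Ea)))
        (PI.sq (PI.mul (PI.mul B.f3 (cube B.f3)) (quad B.Pb B.Eb)))
        (PI.sq (PI.mul (PI.mul B.f3 (cube B.f3)) (quad B.Pr B.Er)))))).Mem (gD4p y r p) := by
  have hk := KNumGA_kap p
  have w1 := PI.Mem.mul hB.mf1 (PI.Mem.cube hB.mf1)
  have w2 := PI.Mem.mul hB.mf2 (PI.Mem.cube hB.mf2)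
  have w3 := PI.Mem.mul hB.mf3 (PI.Mem.cube hB.mf3)
  have qa := quad_mem hB.mPa hB.mEa
  have qb := quad_mem hB.mPb hB.mEb
  have qr := quad_mem hB.mPr hB.mEr
  have m1 := PI.Mem.smul 8 9 (by norm_num) (PI.Mem.mul (PI.Mem.mul
    (KNumGA_eh4 hB) (PI.Mem.add w1 (PI.Mem.add w2 w3)))
    (wavg_mem hB (PI.Mem.sq (PI.Mem.mul w2 qa)) (PI.Mem.sq (PI.Mem.mul w3 qb))
      (PI.Mem.sq (PI.Mem.mul w3 qr))))
  have hw : ∀ x : ℝ, Real.exp (x / 3) * Real.exp (x / 3) ^ 3 = Real.exp (4 * (x / 3)) := by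
    intro x
    rw [← Real.exp_nat_mul, ← Real.exp_add]
    congr 1; push_cast; ring
  rw [hw, hw, hw] at m1
  have h1 : Real.exp (4 * (xx1 r p / 3)) - Real.exp (4 * (xx2 r p / 3)) =
      4 / 3 * (p * r) * (Real.exp (4 * (xx2 r p / 3)) * psr (4 * (p * r / 3))) := by
    have : Real.exp (4 * (xx1 r p / 3)) = Real.exp (4 * (xx2 r p / 3)) *
        Real.exp (4 * (p * r / 3)) := by
      rw [← Real.exp_add]; congr 1; unfold xx1 xx2; ring
    rw [this, psr_spec (4 * (p * r / 3))]; ring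
  have h2 : Real.exp (4 * (xx2 r p / 3)) - Real.exp (4 * (xx3 r p / 3)) =
      4 / 3 * ((1 - p) * r) *
        (Real.exp (4 * (xx3 r p / 3)) * psr (4 * ((1 - p) * r / 3))) := by
    have : Real.exp (4 * (xx2 r p / 3)) = Real.exp (4 * (xx3 r p / 3)) *
        Real.exp (4 * ((1 - p) * r / 3)) := by
      rw [← Real.exp_add]; congr 1; unfold xx2 xx3; ring
    rw [this, psr_spec (4 * ((1 - p) * r / 3))]; ring
  have h3 : Real.exp (4 * (xx1 r p / 3)) - Real.exp (4 * (xx3 r p / 3)) =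
      4 / 3 * r * (Real.exp (4 * (xx3 r p / 3)) * psr (4 * (r / 3))) := by
    have : Real.exp (4 * (xx1 r p / 3)) = Real.exp (4 * (xx3 r p / 3)) *
        Real.exp (4 * (r / 3)) := by
      rw [← Real.exp_add]; congr 1; unfold xx1 xx3; ring
    rw [this, psr_spec (4 * (r / 3))]; ring
  have habc : Real.exp (4 * (xx1 r p / 3)) * Real.exp (4 * (xx2 r p / 3)) *
      Real.exp (4 * (xx3 r p / 3)) = 1 := by
    rw [← Real.exp_add, ← Real.exp_add, ← Real.exp_zero]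
    congr 1
    unfold xx1 xx2 xx3; ring
  have key := KNumGA_id _ _ _ _ _ _ (Real.exp (-(4 * hh y r p))) (4 / 3) (kap p) r p hk hr habc
    h1 h2 h3
  have hT : ∀ x : ℝ, Real.exp (4 * (x / 3)) ^ 3 = Real.exp (4 * x) := by
    intro x
    rw [← Real.exp_nat_mul]
    congr 1; push_cast; ring
  rw [hT, hT, hT] at key
  unfold gD4p
  rw [key]
  have e : ((4 / 3 : ℝ) ^ 2 / 2) = ((8 : ℕ) : ℝ) / ((9 : ℕ) : ℝ) := by norm_num
  rw [e]
  exact m1

private lemma KNumGA_c1 {B : Base} {y r p : ℝ} (hr : 0 < r) (hB : BaseOK B y r p) :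
    (PI.smul 1 3 (wavg B (PI.mul (cube B.f2) (tri B.Pa B.Ea)) (PI.mul (cube B.f3) (tri B.Pb B.Eb))
      (PI.mul (cube B.f3) (tri B.Pr B.Er)))).Mem (gc1 r p) := by
  obtain ⟨e1, e2, e3⟩ := KNumGA_e hB
  obtain ⟨hQa, hQb, hQr⟩ := KNumGA_Q hB
  have m := PI.Mem.smul 1 3 (by norm_num) (wavg_mem hB (PI.Mem.mul e2 hQa) (PI.Mem.mul e3 hQb)
    (PI.Mem.mul e3 hQr))
  rw [gc1_eq hr]
  have e : (1 / 3 : ℝ) = ((1 : ℕ) : ℝ) / ((3 : ℕ) : ℝ) := by norm_num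
  rw [e]
  exact m

private lemma KNumGA_c3 {B : Base} {y r p : ℝ} (hr : 0 < r) (hB : BaseOK B y r p)
    (hc : midChk B = true) :
    (wavg B (PI.mul (cube (PI.inv (cube B.f1))) (tri (tri B.Pa B.Ea) (cube B.Ea)))
      (PI.mul (cube (PI.inv (cube B.f2))) (tri (tri B.Pb B.Eb) (cube B.Eb)))
      (PI.mul (cube (PI.inv (cube B.f1))) (tri (tri B.Pr B.Er) (cube B.Er)))).Mem (gc3 r p) := by
  obtain ⟨c1, c2, c3⟩ := KNumGA_chk hc
  obtain ⟨e1, e2, e3⟩ := KNumGA_e hB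
  obtain ⟨hQa, hQb, hQr⟩ := KNumGA_Q hB
  obtain ⟨ha, hb, hr3⟩ := KNumGA_a3 hB
  have hT : ∀ x : ℝ, (1 / Real.exp x) ^ 3 = Real.exp (-(3 * x)) := by
    intro x
    rw [one_div, ← Real.exp_neg, ← Real.exp_nat_mul]
    congr 1; push_cast; ring
  have v1 := PI.Mem.cube (PI.Mem.inv e1 c1)
  have v2 := PI.Mem.cube (PI.Mem.inv e2 c2)
  rw [hT] at v1 v2
  rw [gc3_eq hr]
  exact wavg_mem hB (PI.Mem.mul v1 (tri_mem hQa ha)) (PI.Mem.mul v2 (tri_mem hQb hb))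
    (PI.Mem.mul v1 (tri_mem hQr hr3))

private lemma KNumGA_c4 {B : Base} {y r p : ℝ} (hr : 0 < r) (hB : BaseOK B y r p) :
    (PI.smul 4 3 (wavg B (PI.mul (four (cube B.f2)) (quad (tri B.Pa B.Ea) (cube B.Ea)))
      (PI.mul (four (cube B.f3)) (quad (tri B.Pb B.Eb) (cube B.Eb)))
      (PI.mul (four (cube B.f3)) (quad (tri B.Pr B.Er) (cube B.Er))))).Mem (gc4 r p) := by
  obtain ⟨e1, e2, e3⟩ := KNumGA_e hB
  obtain ⟨hQa, hQb, hQr⟩ := KNumGA_Q hB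
  obtain ⟨ha, hb, hr3⟩ := KNumGA_a3 hB
  have hT : ∀ x : ℝ, (Real.exp x ^ 2) ^ 2 = Real.exp (4 * x) := by
    intro x
    rw [← pow_mul, ← Real.exp_nat_mul]
    congr 1
  have f2 : (four (cube B.f2)).Mem (Real.exp (4 * xx2 r p)) := by
    rw [← hT]; exact PI.Mem.sq (PI.Mem.sq e2)
  have f3 : (four (cube B.f3)).Mem (Real.exp (4 * xx3 r p)) := by
    rw [← hT]; exact PI.Mem.sq (PI.Mem.sq e3)
  have m := PI.Mem.smul 4 3 (by norm_num) (wavg_mem hB (PI.Mem.mul f2 (quad_mem hQa ha))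
    (PI.Mem.mul f3 (quad_mem hQb hb)) (PI.Mem.mul f3 (quad_mem hQr hr3)))
  rw [gc4_eq hr]
  have e : (4 / 3 : ℝ) = ((4 : ℕ) : ℝ) / ((3 : ℕ) : ℝ) := by norm_num
  rw [e]
  exact m

/-- The formulas for `D1p`, `D3p`, `D4p` are those of `mkMid` (see the proofs in `NumMidC`:
`e^{x1} + e^{x2} + e^{x3} - 3 = (f1+f2+f3) (1/2) ∑ (f_i - f_j)²`, `f_i = e^{x_i/3}`, etc.);
`c1, c3, c4` by `gc1_eq`, `gc3_eq`, `gc4_eq`; `tri`, `quad` give `psr(3x)`, `psr(4x)`. -/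
theorem mkGm_ok {yI : PI} {B : Base} {y r p : ℝ} (hyI : yI.Mem y) (hy : 1 / 2 ≤ y) (hr : 0 < r)
    (hp0 : 0 ≤ p) (hp1 : p ≤ 1) (hB : BaseOK B y r p) (hc : midChk B = true) :
    GmOK (mkGm yI B) y r p := by
  obtain ⟨gm1n, gm3n, gm4n⟩ := gm_nonneg (p := p) hy hr
  unfold gm1 at gm1n
  unfold gm3 at gm3n
  unfold gm4 at gm4n
  have hy2 : (PI.smul 2 1 yI).Mem (2 * y) := by
    have h := PI.Mem.smul 2 1 (by norm_num) hyI
    have e : ((2 : ℕ) : ℝ) / ((1 : ℕ) : ℝ) * y = 2 * y := by norm_num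
    rwa [e] at h
  have c1 : (3 : ℝ) = ((3 : ℕ) : ℝ) / ((1 : ℕ) : ℝ) := by norm_num
  constructor
  · exact KNumGA_D1p hr hB
  · have h := PI.Mem.smul 3 1 (by norm_num) (PI.Mem.mul hB.mg0 (g1Of_mem hB.mh))
    unfold gD1n
    rw [c1]
    exact h
  · exact KNumGA_D3p hr hB hc
  · have h := PI.Mem.smul 9 1 (by norm_num) (PI.Mem.mul hB.mg0 (KNumGA_g3 hB))
    have e : gD3n y r p = ((9 : ℕ) : ℝ) / ((1 : ℕ) : ℝ) *
        (g0 y r p * psr (-(3 * hh y r p))) := by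
      unfold gD3n
      norm_num
    rw [e]
    exact h
  · exact KNumGA_D4p hr hB
  · have h := PI.Mem.smul 12 1 (by norm_num) (PI.Mem.mul hB.mg0 (KNumGA_g4 hB))
    have e : gD4n y r p = ((12 : ℕ) : ℝ) / ((1 : ℕ) : ℝ) *
        (g0 y r p * psr (-(4 * hh y r p))) := by
      unfold gD4n
      norm_num
    rw [e]
    exact h
  · exact KNumGA_c1 hr hB
  · exact KNumGA_c3 hr hB hc
  · exact KNumGA_c4 hr hB
  · exact PI.Mem.sub (PI.Mem.mul hy2 (g1Of_mem hB.mh)) hB.meh (sub_nonneg.1 gm1n)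
  · have h := PI.Mem.smul 3 1 (by norm_num) (PI.Mem.mul hy2 (KNumGA_g3 hB))
    have e : ((3 : ℕ) : ℝ) / ((1 : ℕ) : ℝ) * (2 * y * psr (-(3 * hh y r p))) =
        6 * y * psr (-(3 * hh y r p)) := by
      push_cast
      ring
    rw [e] at h
    exact PI.Mem.sub h (KNumGA_eh3 hB) (sub_nonneg.1 gm3n)
  · have h := PI.Mem.smul 4 1 (by norm_num) (PI.Mem.mul hy2 (KNumGA_g4 hB))
    have e : ((4 : ℕ) : ℝ) / ((1 : ℕ) : ℝ) * (2 * y * psr (-(4 * hh y r p))) =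
        8 * y * psr (-(4 * hh y r p)) := by
      push_cast
      ring
    rw [e] at h
    exact PI.Mem.sub h (KNumGA_eh4 hB) (sub_nonneg.1 gm4n)
  · have h := PI.Mem.smul 2 1 (by norm_num) hB.mmu
    have e : ((2 : ℕ) : ℝ) / ((1 : ℕ) : ℝ) * (y * chh y r p) = HH y r p := by
      unfold HH
      push_cast
      ring
    rw [e] at h
    exact h
  · exact KNumGA_eh3 hB
  · exact KNumGA_eh4 hB

end MP7e122f.Num
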