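import Pool.Agent.Lib.MP_7e122f_anR.NumRem
import Pool.Agent.Lib.MP_7e122f_anR.NormA

namespace MP7e122f.Num

open MP7e122f.R

variable {S : Slab} {B : Base} {M : Mid} {y r p : ℝ}

private theorem NumRemA_mul {a b : ℝ} {m n : Nat} (ha : a ≤ rv m) (hb : b ≤ rv n)
    (hb0 : 0 ≤ b) : a * b ≤ rv (mulU m n) :=
  (mul_le_mul ha hb hb0 (rv_nonneg m)).trans (le_mulU m n)

private theorem NumRemA_add {a b : ℝ} {m n : Nat} (ha : a ≤ rv m) (hb : b ≤ rv n) :
    a + b ≤ rv (Nat.add m n) := by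
  rw [rv_add]
  exact add_le_add ha hb

private theorem NumRemA_nmul {a c : ℝ} {k m : Nat} (hc : c = (k : ℝ)) (ha : a ≤ rv m) :
    c * a ≤ rv (Nat.mul k m) := by
  rw [rv_nmul, hc]
  exact mul_le_mul_of_nonneg_left ha (Nat.cast_nonneg k)

theorem vpU_ok (hS : SlabOK S y) (hB : BaseOK B y r p) (hr : 0 < r) (hp0 : 0 ≤ p) (hp1 : p ≤ 1)
    (hrr : Nat.ble (vpRR B) 2199023255552 = true) :
    vpi y r p ≤ rv (vpU S B) := by
  have hy : 0 < y := by linarith [hS.y1]
  obtain ⟨-, -, -, hh1, -, hk, -⟩ := AA_basic (r := r) (p := p) hy hr hp0 hp1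
  -- the exponent
  have h1 : R.rho r p / 4 ≤ rv (vpRR B) := by
    have e1 : Real.sqrt (kap p) ≤ rv (sqU B.kap.hi) :=
      (Real.sqrt_le_sqrt hB.mkap.2).trans (le_sqU _)
    have e2 : Real.sqrt (kap p) * r ≤ rv (mulU (sqU B.kap.hi) B.r.hi) :=
      NumRemA_mul e1 hB.mr.2 hr.le
    have e3 := le_rv_div (mulU (sqU B.kap.hi) B.r.hi) 6 (by norm_num)
    have e4 : R.rho r p / 4 = Real.sqrt (kap p) * r / 6 := by unfold R.rho; ring
    rw [e4]
    refine le_trans ?_ e3
    push_cast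
    exact div_le_div_of_nonneg_right e2 (by norm_num)
  set rr := vpRR B with hrrdef
  have h2 : Real.exp (R.rho r p / 4) ≤ rv (Nat.add 1099511627776 (mulU rr (psU rr))) := by
    refine (Real.exp_le_exp.2 h1).trans ?_
    rw [psr_spec, rv_add, rv_lit]
    have e1 := le_psU rr (Nat.le_of_ble_eq_true hrr)
    have e2 : rv rr * psr (rv rr) ≤ rv rr * rv (psU rr) :=
      mul_le_mul_of_nonneg_left e1 (rv_nonneg rr)
    have e3 := le_mulU rr (psU rr)
    linarith
  set er := Nat.add 1099511627776 (mulU rr (psU rr)) with her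
  have h3 : Real.exp (R.rho r p / 4) * Real.exp (R.rho r p / 4) ≤ rv (mulU er er) :=
    NumRemA_mul h2 h2 (Real.exp_pos _).le
  set er2 := mulU er er with her2
  have h4 : (Real.exp (R.rho r p / 4) * Real.exp (R.rho r p / 4)) *
      (Real.exp (R.rho r p / 4) * Real.exp (R.rho r p / 4)) ≤ rv (mulU er2 er2) :=
    NumRemA_mul h3 h3 (by positivity)
  have h5 : (Real.exp (R.rho r p / 4) * Real.exp (R.rho r p / 4)) *
      (Real.exp (R.rho r p / 4) * Real.exp (R.rho r p / 4)) = Real.exp (R.rho r p) := by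
    rw [← Real.exp_add, ← Real.exp_add]
    congr 1
    ring
  rw [h5] at h4
  have h6 : vpi y r p = Real.exp (-(2 * y)) * (Real.exp (-(hh y r p)) * Real.exp (R.rho r p)) := by
    unfold vpi
    rw [← Real.exp_add, ← Real.exp_add]
    congr 1
    linarith
  rw [h6]
  have h7 : Real.exp (-(hh y r p)) * Real.exp (R.rho r p) ≤ rv (mulU B.eh.hi (mulU er2 er2)) :=
    NumRemA_mul hB.meh.2 h4 (Real.exp_pos _).le
  exact NumRemA_mul hS.mt.2 h7 (by positivity)

theorem irU_ok (hB : BaseOK B y r p) (hr : 0 < r) (h : ¬ B.r.lo ≤ 21990232555) :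
    1 / r ≤ rv (irU B) := by
  have h0 : 0 < B.r.lo := by omega
  have h1 := le_divU 1099511627776 B.r.lo h0
  rw [rv_lit] at h1
  refine le_trans ?_ h1
  have h2 : 0 < rv B.r.lo := by
    unfold rv
    have : (0 : ℝ) < (B.r.lo : ℝ) := by exact_mod_cast h0
    positivity
  exact one_div_le_one_div_of_le h2 hB.mr.1

private theorem NumRemA_minI {a b : ℝ} {m n : Nat} (ha : ¬ B.r.lo ≤ 21990232555 → a ≤ rv m)
    (hb : b ≤ rv n) : min a b ≤ rv (minI B m n) := by
  unfold minI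
  by_cases h : B.r.lo ≤ 21990232555
  · rw [Nat.ble_eq_true_of_le h]
    exact (min_le_right a b).trans hb
  · have h1 : Nat.ble B.r.lo 21990232555 = false := by
      rw [Bool.eq_false_iff]
      intro h2
      exact h (Nat.le_of_ble_eq_true h2)
    rw [h1]
    show min a b ≤ rv (minN m n)
    rw [rv_minN]
    exact min_le_min (ha h) hb

theorem rem0U_ok (hS : SlabOK S y) (hB : BaseOK B y r p) (hr : 0 < r) (hp0 : 0 ≤ p)
    (hp1 : p ≤ 1) {vp : Nat} (hv : vpi y r p ≤ rv vp) : rem0 y r p ≤ rv (rem0U S B vp) := by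
  have hy : 0 < y := by linarith [hS.y1]
  obtain ⟨-, -, -, -, hg0, hk, -⟩ := AA_basic (r := r) (p := p) hy hr hp0 hp1
  set v := vpi y r p with hvdef
  have hv0 : 0 ≤ v := (Real.exp_pos _).le
  have hirk : ¬ B.r.lo ≤ 21990232555 →
      1 / (kap p * r ^ 2) ≤ rv (mulU (mulU (irU B) (irU B)) B.Wc.hi) := by
    intro h
    have h1 := irU_ok hB hr h
    have h2 : 1 / r * (1 / r) ≤ rv (mulU (irU B) (irU B)) :=
      NumRemA_mul h1 h1 (by positivity)
    have h3 : 1 / r * (1 / r) * (1 / kap p) ≤ rv (mulU (mulU (irU B) (irU B)) B.Wc.hi) :=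
      NumRemA_mul h2 hB.mWc.2 (by positivity)
    refine le_trans (le_of_eq ?_) h3
    field_simp
  have hc7 : (98 / 9 : ℝ) ≤ rv 11972459946895 := by
    unfold rv
    norm_num
  have hc9 : (18 : ℝ) ≤ rv 19791209299968 := by
    unfold rv
    norm_num
  have hc12 : (32 : ℝ) ≤ rv 35184372088832 := by
    unfold rv
    norm_num
  have hm7 := NumRemA_minI (B := B) hirk hc7
  have hm9 := NumRemA_minI (B := B) hirk hc9
  have hm12 := NumRemA_minI (B := B) hirk hc12
  set K := 1 / (kap p * r ^ 2) with hK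
  have hK0 : 0 ≤ K := by positivity
  have hm7' : 0 ≤ min K (98 / 9) := le_min hK0 (by norm_num)
  have hm9' : 0 ≤ min K 18 := le_min hK0 (by norm_num)
  have hm12' : 0 ≤ min K 32 := le_min hK0 (by norm_num)
  have hv2 : v ^ 2 ≤ rv (mulU vp vp) := by
    rw [sq]; exact NumRemA_mul hv hv hv0
  have hv4 : v ^ 4 ≤ rv (mulU (mulU vp vp) (mulU vp vp)) := by
    have : v ^ 4 = v ^ 2 * v ^ 2 := by ring
    rw [this]; exact NumRemA_mul hv2 hv2 (by positivity)
  have hv5 : v ^ 5 ≤ rv (mulU vp (mulU (mulU vp vp) (mulU vp vp))) := by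
    have : v ^ 5 = v * v ^ 4 := by ring
    rw [this]; exact NumRemA_mul hv hv4 (by positivity)
  have hv7 : v ^ 7 ≤ rv (mulU (mulU vp vp) (mulU vp (mulU (mulU vp vp) (mulU vp vp)))) := by
    have : v ^ 7 = v ^ 2 * v ^ 5 := by ring
    rw [this]; exact NumRemA_mul hv2 hv5 (by positivity)
  unfold rem0U
  simp only []
  set vp2 := mulU vp vp with hvp2
  set vp4 := mulU vp2 vp2 with hvp4
  set vp5 := mulU vp vp4 with hvp5
  set vp7 := mulU vp2 vp5 with hvp7
  set m7 := minI B (mulU (mulU (irU B) (irU B)) B.Wc.hi) 11972459946895 with hm7d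
  set m9 := minI B (mulU (mulU (irU B) (irU B)) B.Wc.hi) 19791209299968 with hm9d
  set m12 := minI B (mulU (mulU (irU B) (irU B)) B.Wc.hi) 35184372088832 with hm12d
  have htail : (1 + 47 * v / 20) + (9 * v ^ 4 / 5 + 18 * v ^ 7) ≤
      rv (Nat.add (Nat.add 1099511627776 (Nat.succ (Nat.div (Nat.mul 47 vp) 20)))
        (Nat.add (Nat.succ (Nat.div (Nat.mul 9 vp4) 5)) (Nat.mul 18 vp7))) := by
    refine NumRemA_add (NumRemA_add ?_ ?_) (NumRemA_add ?_ ?_)
    · rw [rv_lit]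
    · have e1 := le_rv_div (Nat.mul 47 vp) 20 (by norm_num)
      have e2 : 47 * v ≤ rv (Nat.mul 47 vp) := NumRemA_nmul (by norm_num) hv
      refine le_trans ?_ e1
      push_cast
      exact div_le_div_of_nonneg_right e2 (by norm_num)
    · have e1 := le_rv_div (Nat.mul 9 vp4) 5 (by norm_num)
      have e2 : 9 * v ^ 4 ≤ rv (Nat.mul 9 vp4) := NumRemA_nmul (by norm_num) hv4
      refine le_trans ?_ e1
      push_cast
      exact div_le_div_of_nonneg_right e2 (by norm_num)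
    · exact NumRemA_nmul (by norm_num) hv7
  set tail := Nat.add (Nat.add 1099511627776 (Nat.succ (Nat.div (Nat.mul 47 vp) 20)))
        (Nat.add (Nat.succ (Nat.div (Nat.mul 9 vp4) 5)) (Nat.mul 18 vp7)) with htl
  -- the bracket
  have hbr : 2 * min K (98 / 9) + (v ^ 2 * min K 18 +
      v ^ 5 * min K 32 * ((1 + 47 * v / 20) + (9 * v ^ 4 / 5 + 18 * v ^ 7))) ≤
      rv (Nat.add (Nat.mul 2 m7) (Nat.add (mulU vp2 m9) (mulU (mulU vp5 m12) tail))) := by
    refine NumRemA_add (NumRemA_nmul (by norm_num) hm7) (NumRemA_add ?_ ?_)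
    · exact NumRemA_mul hv2 hm9 hm9'
    · exact NumRemA_mul (NumRemA_mul hv5 hm12 hm12') htail (by positivity)
  have hbr0 : 0 ≤ 2 * min K (98 / 9) + (v ^ 2 * min K 18 +
      v ^ 5 * min K 32 * ((1 + 47 * v / 20) + (9 * v ^ 4 / 5 + 18 * v ^ 7))) := by positivity
  have ht0 : 0 < Real.exp (-(2 * y)) := Real.exp_pos _
  have htl0 : 0 < rv S.t.lo := by
    unfold rv
    have : (0 : ℝ) < (S.t.lo : ℝ) := by exact_mod_cast hS.tlo
    positivity
  have hit : 1 / Real.exp (-(2 * y)) ≤ rv (divU 1099511627776 S.t.lo) := by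
    have e1 := le_divU 1099511627776 S.t.lo hS.tlo
    rw [rv_lit] at e1
    refine le_trans ?_ e1
    exact one_div_le_one_div_of_le htl0 hS.mt.1
  have hA : 3 * (1 / Real.exp (-(2 * y)) * (v ^ 7 * (2 * min K (98 / 9) + (v ^ 2 * min K 18 +
      v ^ 5 * min K 32 * ((1 + 47 * v / 20) + (9 * v ^ 4 / 5 + 18 * v ^ 7)))))) ≤
      rv (Nat.mul 3 (mulU (divU 1099511627776 S.t.lo) (mulU vp7 (Nat.add (Nat.mul 2 m7)
        (Nat.add (mulU vp2 m9) (mulU (mulU vp5 m12) tail)))))) := by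
    refine NumRemA_nmul (by norm_num) ?_
    refine NumRemA_mul hit ?_ (by positivity)
    exact NumRemA_mul hv7 hbr hbr0
  have hBd : 100 * (g0 y r p * (Real.exp (-(2 * y)) ^ 3 * Real.exp (-(2 * y)) ^ 3)) ≤
      rv (Nat.mul 100 (mulU B.g0.hi (mulU S.t3.hi S.t3.hi))) := by
    refine NumRemA_nmul (by norm_num) ?_
    refine NumRemA_mul hB.mg0.2 ?_ (by positivity)
    exact NumRemA_mul hS.mt3.2 hS.mt3.2 (by positivity)
  have hfin := NumRemA_add hA hBd
  refine le_trans (le_of_eq ?_) hfin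
  unfold rem0
  rw [← hvdef, ← hK]
  ring

end MP7e122f.Num
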