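import Pool.Agent.Lib.MP_7e122f_anR.KNumGA
import Pool.Agent.Lib.MP_7e122f_anR.NumRemA

namespace MP7e122f.Num

open MP7e122f.R

private theorem KNumGB_mul {a b : ℝ} {m n : Nat} (ha : a ≤ rv m) (hb : b ≤ rv n)
    (hb0 : 0 ≤ b) : a * b ≤ rv (mulU m n) :=
  (mul_le_mul ha hb hb0 (rv_nonneg m)).trans (le_mulU m n)

private theorem KNumGB_add {a b : ℝ} {m n : Nat} (ha : a ≤ rv m) (hb : b ≤ rv n) :
    a + b ≤ rv (Nat.add m n) := by
  rw [rv_add]
  exact add_le_add ha hb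

private theorem KNumGB_nmul {a c : ℝ} {k m : Nat} (hc : c = (k : ℝ)) (ha : a ≤ rv m) :
    c * a ≤ rv (Nat.mul k m) := by
  rw [rv_nmul, hc]
  exact mul_le_mul_of_nonneg_left ha (Nat.cast_nonneg k)

private theorem KNumGB_smul {k : Nat} {x : PI} {v w : ℝ} (hw : w = (k : ℝ) * v) (hx : x.Mem v) :
    (PI.smul k 1 x).Mem w := by
  have h := PI.Mem.smul k 1 (by norm_num) hx
  rw [hw]
  have e : ((k : ℕ) : ℝ) / ((1 : ℕ) : ℝ) * v = (k : ℝ) * v := by
    push_cast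
    ring
  rw [e] at h
  exact h

theorem rhoL_ok {B : Base} {y r p : ℝ} (hB : BaseOK B y r p) (hr : 0 < r) :
    rv (rhoL B) ≤ R.rho r p := by
  unfold rhoL
  refine (rv_div_le _ _).trans ?_
  rw [rv_nmul]
  have h1 := sqrtPI_mem hB.mkap
  have h2 : rv (mulD (sqrtPI B.kap).lo B.r.lo) ≤ Real.sqrt (kap p) * r :=
    (mulD_le _ _).trans (mul_le_mul h1.1 hB.mr.1 (rv_nonneg _) (Real.sqrt_nonneg _))
  unfold R.rho
  push_cast
  rw [div_le_iff₀ (by norm_num : (0 : ℝ) < 3)]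
  calc 2 * rv (mulD (sqrtPI B.kap).lo B.r.lo) ≤ 2 * (Real.sqrt (kap p) * r) :=
        mul_le_mul_of_nonneg_left h2 (by norm_num)
    _ = 2 / 3 * Real.sqrt (kap p) * r * 3 := by ring

private theorem KNumGB_br {W P N : PI} {w a b : ℝ} (hW : W.Mem w) (hP : P.Mem a)
    (hN : N.Mem b) :
    rv (mulD W.lo (Nat.sub P.lo N.hi)) - rv (mulU W.hi (Nat.sub N.hi P.lo)) ≤ w * (a - b) := by
  have hw : 0 ≤ w := hW.nonneg
  rcases le_total N.hi P.lo with h | h
  · have h1 := mulD_le W.lo (Nat.sub P.lo N.hi)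
    rw [rv_sub_eq h] at h1
    have h2 := rv_nonneg (mulU W.hi (Nat.sub N.hi P.lo))
    have h3 : 0 ≤ rv P.lo - rv N.hi := by
      have := rv_mono h
      linarith
    have h4 : rv W.lo * (rv P.lo - rv N.hi) ≤ w * (a - b) :=
      mul_le_mul hW.1 (by linarith [hP.1, hN.2]) h3 hw
    linarith
  · have h1 := le_mulU W.hi (Nat.sub N.hi P.lo)
    rw [rv_sub_eq h] at h1
    have h0 : Nat.sub P.lo N.hi = 0 := Nat.sub_eq_zero_of_le h
    have h2 := mulD_le W.lo (Nat.sub P.lo N.hi)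
    have h2' : rv (Nat.sub P.lo N.hi) = 0 := by
      rw [h0]
      unfold rv
      norm_num
    rw [h2', mul_zero] at h2
    have h3 : 0 ≤ rv N.hi - rv P.lo := by
      have := rv_mono h
      linarith
    have h4 : w * (b - a) ≤ rv W.hi * (rv N.hi - rv P.lo) := by
      have h5 : w * (b - a) ≤ w * (rv N.hi - rv P.lo) :=
        mul_le_mul_of_nonneg_left (by linarith [hP.1, hN.2]) hw
      exact h5.trans (mul_le_mul_of_nonneg_right hW.2 h3)
    have h6 : w * (b - a) = -(w * (a - b)) := by ring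
    linarith

/-- the tail -/
private theorem KNumGB_tail {Hh rl vp : Nat} {H ρ v : ℝ} (hH : H ≤ rv Hh) (hρ : rv rl ≤ ρ)
    (hv : v ≤ rv vp) (hv0 : 0 ≤ v) :
    (H - ρ) * (458 * v ^ 7 + 486 * v ^ 9 + 3300 * v ^ 13) + 1 / 10 ^ 6 ≤
      rv (Nat.add (mulU (Nat.sub Hh rl) (Nat.add (Nat.mul 458
        (mulU (mulU (mulU vp vp) (mulU vp vp)) (mulU (mulU vp vp) vp)))
        (Nat.add (Nat.mul 486 (mulU (mulU (mulU (mulU vp vp) (mulU vp vp)) (mulU (mulU vp vp) vp))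
          (mulU vp vp)))
          (Nat.mul 3300 (mulU (mulU (mulU (mulU (mulU vp vp) (mulU vp vp)) (mulU (mulU vp vp) vp))
            (mulU vp vp)) (mulU (mulU vp vp) (mulU vp vp))))))) 1099512) := by
  have hv2 : v ^ 2 ≤ rv (mulU vp vp) := by
    rw [sq]; exact KNumGB_mul hv hv hv0
  generalize mulU vp vp = vp2 at hv2 ⊢
  have hv4 : v ^ 4 ≤ rv (mulU vp2 vp2) := by
    have : v ^ 4 = v ^ 2 * v ^ 2 := by ring
    rw [this]; exact KNumGB_mul hv2 hv2 (by positivity)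
  generalize mulU vp2 vp2 = vp4 at hv4 ⊢
  have hv3 : v ^ 3 ≤ rv (mulU vp2 vp) := by
    have : v ^ 3 = v ^ 2 * v := by ring
    rw [this]; exact KNumGB_mul hv2 hv hv0
  generalize mulU vp2 vp = vp3 at hv3 ⊢
  have hv7 : v ^ 7 ≤ rv (mulU vp4 vp3) := by
    have : v ^ 7 = v ^ 4 * v ^ 3 := by ring
    rw [this]; exact KNumGB_mul hv4 hv3 (by positivity)
  generalize mulU vp4 vp3 = vp7 at hv7 ⊢
  have hv9 : v ^ 9 ≤ rv (mulU vp7 vp2) := by
    have : v ^ 9 = v ^ 7 * v ^ 2 := by ring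
    rw [this]; exact KNumGB_mul hv7 hv2 (by positivity)
  generalize mulU vp7 vp2 = vp9 at hv9 ⊢
  have hv13 : v ^ 13 ≤ rv (mulU vp9 vp4) := by
    have : v ^ 13 = v ^ 9 * v ^ 4 := by ring
    rw [this]; exact KNumGB_mul hv9 hv4 (by positivity)
  generalize mulU vp9 vp4 = vp13 at hv13 ⊢
  refine KNumGB_add (KNumGB_mul ?_ ?_ (by positivity)) ?_
  · have := rv_sub_le Hh rl
    linarith
  · rw [add_assoc]
    exact KNumGB_add (KNumGB_nmul (by norm_num) hv7)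
      (KNumGB_add (KNumGB_nmul (by norm_num) hv9) (KNumGB_nmul (by norm_num) hv13))
  · unfold rv
    norm_num

/-- for each bracket `w (P - N)`, `P.lo - N.hi ≤ P - N`: a lower bound is
`w.lo (P.lo - N.hi)⁺ - w.hi (N.hi - P.lo)⁺` -/
theorem gamPN_ok {S : Slab} {B : Base} {y r p : ℝ} {vmax : Nat} (hS : SlabOK S y)
    (hB : BaseOK B y r p) (hr : 0 < r) (hp0 : 0 ≤ p) (hp1 : p ≤ 1)
    (hg : gcellChk S B vmax = true) :
    rv (gamPN S B).1 - rv (gamPN S B).2 ≤ GamN y r p - GamR y r p := by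
  unfold gcellChk at hg
  rw [Bool.and_eq_true, Bool.and_eq_true, Bool.and_eq_true] at hg
  obtain ⟨hmid, -, hrr, -⟩ := hg
  have hy12 : 1 / 2 ≤ y := by
    have := hS.y1
    norm_num at this
    linarith
  have hy : 0 < y := by linarith
  have hG := mkGm_ok hS.my hy12 hr hp0 hp1 hB hmid
  have hv := vpU_ok hS hB hr hp0 hp1 hrr
  have hv0 : 0 ≤ vpi y r p := (Real.exp_pos _).le
  have hρ := rhoL_ok hB hr
  -- memberships
  have mP1 := (hB.meh.mul hG.c1).add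
    (KNumGB_smul (k := 3) (w := 3 * (g0 y r p * gm1 y r p)) (by push_cast; ring)
      (hB.mg0.mul hG.m1))
  have mN1 := hG.H.mul hG.D1p
  have mP3 := (hG.eh3.mul hG.c3).add
    (KNumGB_smul (k := 3) (w := 3 * (g0 y r p * gm3 y r p)) (by push_cast; ring)
      (hB.mg0.mul hG.m3))
  have mN3 := hG.H.mul hG.D3p
  have mP4 := hG.H.mul hG.D4p
  have mN4 := (hG.eh4.mul hG.c4).add
    (KNumGB_smul (k := 3) (w := 3 * (g0 y r p * gm4 y r p)) (by push_cast; ring)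
      (hB.mg0.mul hG.m4))
  have mt4 : (PI.sq S.t2).Mem (Real.exp (-(2 * y)) ^ 4) := by
    have e : Real.exp (-(2 * y)) ^ 4 = (Real.exp (-(2 * y)) ^ 2) ^ 2 := by ring
    rw [e]
    exact hS.mt2.sq
  have b1 := KNumGB_br hS.mt mP1 mN1
  have b3 := KNumGB_br hS.mt3 mP3 mN3
  have b4 := KNumGB_br mt4 mP4 mN4
  have bt := KNumGB_tail hG.H.2 hρ hv hv0
  rw [← gam1_eq hy hr] at b1
  rw [← gam3_eq hy hr] at b3
  rw [← gam4_eq hy hr] at b4
  unfold gamPN
  dsimp only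
  rw [rv_add, rv_add, rv_add, rv_add, rv_add, rv_nmul, rv_nmul, rv_nmul, rv_nmul, rv_nmul,
    rv_nmul]
  unfold GamN GamR
  push_cast
  linarith

end MP7e122f.Num
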