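import Pool.Agent.Lib.MP_7e122f_anR.KNumD

namespace MP7e122f.Num

open MP7e122f.R

private theorem KNumH_psr_ne {x : ℝ} (h : x ≠ 0) : psr x = (Real.exp x - 1) / x := by
  unfold psr
  rw [if_neg h]

private theorem KNumH_psr_zero : psr 0 = 1 := by
  unfold psr
  rw [if_pos rfl]

private theorem KNumH_psr_mono {x y : ℝ} (h : x ≤ y) : psr x ≤ psr y := by
  have hsec : ∀ {u v : ℝ}, u ≠ 0 → v ≠ 0 → u ≤ v →
      (Real.exp u - 1) / u ≤ (Real.exp v - 1) / v := by
    intro u v hu hv huv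
    have h1 := convexOn_exp.secant_mono (a := 0) (x := u) (y := v) (Set.mem_univ _)
      (Set.mem_univ _) (Set.mem_univ _) hu hv huv
    simpa using h1
  by_cases hx : x = 0
  · subst hx
    by_cases hy : y = 0
    · subst hy; exact le_refl _
    · have hy0 : 0 < y := lt_of_le_of_ne h (Ne.symm hy)
      rw [KNumH_psr_zero, KNumH_psr_ne hy, le_div_iff₀ hy0]
      have := Real.add_one_le_exp y
      linarith
  · by_cases hy : y = 0
    · subst hy
      have hx0 : x < 0 := lt_of_le_of_ne h hx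
      rw [KNumH_psr_zero, KNumH_psr_ne hx, div_le_iff_of_neg hx0]
      have := Real.add_one_le_exp x
      linarith
    · rw [KNumH_psr_ne hx, KNumH_psr_ne hy]
      exact hsec hx hy h

private theorem KNumH_psr_nonneg (x : ℝ) : 0 ≤ psr x := by
  by_cases hx : x = 0
  · subst hx
    rw [KNumH_psr_zero]
    norm_num
  · rw [KNumH_psr_ne hx]
    rcases lt_or_gt_of_ne hx with h | h
    · apply div_nonneg_of_nonpos
      · have := Real.exp_le_one_iff.2 h.le
        linarith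
      · exact h.le
    · apply div_nonneg
      · have := Real.one_le_exp h.le
        linarith
      · exact h.le

private theorem KNumH_psr_neg (x : ℝ) : psr (-x) = psr x * Real.exp (-x) := by
  by_cases hx : x = 0
  · subst hx
    rw [neg_zero, KNumH_psr_zero, Real.exp_zero, mul_one]
  · rw [KNumH_psr_ne hx, KNumH_psr_ne (neg_ne_zero.2 hx), Real.exp_neg]
    have h : Real.exp x ≠ 0 := (Real.exp_pos x).ne'
    field_simp
    ring

theorem t1I_mem : t1I.Mem (Real.exp (-(Real.pi / Real.sqrt 3))) := by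
  unfold t1I
  exact expN_mem pr3I_mem (by show 1994293491429 ≤ 35184372088000; norm_num)

private theorem KNumH_pt (n : Nat) : (⟨n, n⟩ : PI).Mem (rv n) := ⟨le_rfl, le_rfl⟩

private theorem KNumH_inv (n : Nat) (h : n ≤ 2199023255552) :
    (PI.inv (exp ⟨n, n⟩)).Mem (Real.exp (-(rv n))) := by
  have h1 : (exp ⟨n, n⟩).Mem (Real.exp (rv n)) := exp_mem (KNumH_pt n) h
  have h2 := h1.inv (exp_lo_pos _)
  rw [one_div, ← Real.exp_neg] at h2
  exact h2

/-- `psr(-x) = psr(x) e^{-x} = (1 - e^{-x})/x` is decreasing for `x ≥ 0` -/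
theorem psmI_mem {x : PI} {v : ℝ} (hx : x.Mem v) (h : x.hi ≤ 2199023255552) :
    (psmI x).Mem (psr (-v)) := by
  have hlo : x.lo ≤ x.hi := numOps_le_of_rv (hx.1.trans hx.2)
  have hlo2 : x.lo ≤ 2199023255552 := hlo.trans h
  constructor
  · change rv (mulD (psD x.hi) (PI.inv (exp ⟨x.hi, x.hi⟩)).lo) ≤ _
    refine (mulD_le _ _).trans ?_
    refine (mul_le_mul (psD_le x.hi) (KNumH_inv x.hi h).1 (rv_nonneg _)
      (KNumH_psr_nonneg _)).trans ?_
    rw [← KNumH_psr_neg]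
    exact KNumH_psr_mono (neg_le_neg hx.2)
  · change _ ≤ rv (mulU (psU x.lo) (PI.inv (exp ⟨x.lo, x.lo⟩)).hi)
    refine le_trans ?_ (le_mulU _ _)
    refine le_trans ?_ (mul_le_mul (le_psU x.lo hlo2) (KNumH_inv x.lo hlo2).2
      (Real.exp_pos _).le (rv_nonneg _))
    rw [← KNumH_psr_neg]
    exact KNumH_psr_mono (neg_le_neg hx.1)

private theorem KNumH_mulU_le (a b A B : Nat) (ha : a ≤ A) (hb : b ≤ B) :
    mulU a b ≤ A * B / 1099511627776 + 1 := by
  unfold mulU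
  have e : Nat.shiftRight (Nat.mul a b) 40 = (a * b) >>> 40 := rfl
  rw [e, Nat.shiftRight_eq_div_pow, Nat.succ_eq_add_one]
  apply Nat.add_le_add_right
  exact Nat.div_le_div_right (Nat.mul_le_mul ha hb)

private theorem KNumH_smul_hi {k : Nat} {x : PI} (hk : k ≤ 7) (h : x.hi ≤ 299144023800) :
    (PI.smul k 1 x).hi ≤ 2199023255552 := by
  show Nat.succ (Nat.div (Nat.mul k x.hi) 1) ≤ 2199023255552
  have e : Nat.succ (Nat.div (Nat.mul k x.hi) 1) = (k * x.hi) / 1 + 1 := rfl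
  rw [e, Nat.div_one]
  have h2 : k * x.hi ≤ 7 * 299144023800 := Nat.mul_le_mul hk h
  omega

private theorem KNumH_smul {k : Nat} {x : PI} {v w : ℝ} (hw : w = (k : ℝ) * v) (hx : x.Mem v) :
    (PI.smul k 1 x).Mem w := by
  have h := PI.Mem.smul k 1 (by norm_num) hx
  rw [hw]
  have e : ((k : ℕ) : ℝ) / ((1 : ℕ) : ℝ) * v = (k : ℝ) * v := by
    push_cast
    ring
  rw [e] at h
  exact h

/-- `7 (π/√3) 0.15 ≤ 2`; for `PI.sub` use `psr(-4x) ≤ psr(-x) ≤ 1`, `t1 ≤ 0.17` -/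
theorem KHn_mem {u : PI} {v : ℝ} (hu : u.Mem v) (h0 : 0 < v) (h : u.hi ≤ 164926744168) :
    (KHn u).Mem (KHf v) := by
  have mx : (PI.mul pr3I u).Mem (Real.pi / Real.sqrt 3 * v) := PI.Mem.mul pr3I_mem hu
  have hxhi : (PI.mul pr3I u).hi ≤ 299144023800 := by
    show mulU 1994293491429 u.hi ≤ 299144023800
    exact (KNumH_mulU_le _ _ 1994293491429 164926744168 le_rfl h).trans (by norm_num)
  set X : ℝ := Real.pi / Real.sqrt 3 * v with hX
  have hX0 : 0 ≤ X := by positivity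
  have mt := t1I_mem
  have ht3 : Real.exp (-(Real.pi / Real.sqrt 3)) ≤ 1 / 2 := by
    have h1 : (1 : ℝ) ≤ Real.pi / Real.sqrt 3 := by
      refine le_trans ?_ pr3I_mem.1
      show (1 : ℝ) ≤ rv 1994293491428
      unfold rv
      norm_num
    have h2 : Real.exp (-(Real.pi / Real.sqrt 3)) ≤ Real.exp (-1) :=
      Real.exp_le_exp.2 (neg_le_neg h1)
    refine h2.trans ?_
    rw [Real.exp_neg, inv_eq_one_div]
    apply one_div_le_one_div_of_le (by norm_num)
    have := Real.add_one_le_exp (1 : ℝ)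
    linarith
  have ht0 : 0 < Real.exp (-(Real.pi / Real.sqrt 3)) := Real.exp_pos _
  set t : ℝ := Real.exp (-(Real.pi / Real.sqrt 3)) with ht
  have mt2 : (PI.sq t1I).Mem (t ^ 2) := mt.sq
  have mt3 : (PI.mul (PI.sq t1I) t1I).Mem (t ^ 3) := by
    have e : t ^ 3 = t ^ 2 * t := by ring
    rw [e]
    exact mt2.mul mt
  have mt4 : (PI.sq (PI.sq t1I)).Mem (t ^ 4) := by
    have e : t ^ 4 = (t ^ 2) ^ 2 := by ring
    rw [e]
    exact mt2.sq
  have mt7 : (PI.mul (PI.mul (PI.sq t1I) t1I) (PI.sq (PI.sq t1I))).Mem (t ^ 7) := by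
    have e : t ^ 7 = t ^ 3 * t ^ 4 := by ring
    rw [e]
    exact mt3.mul mt4
  have p1 : (psmI (PI.smul 1 1 (PI.mul pr3I u))).Mem (psr (-X)) :=
    psmI_mem (KNumH_smul (by push_cast; ring) mx) (KNumH_smul_hi (by norm_num) hxhi)
  have p3 : (psmI (PI.smul 3 1 (PI.mul pr3I u))).Mem (psr (-(3 * X))) :=
    psmI_mem (KNumH_smul (by push_cast; ring) mx) (KNumH_smul_hi (by norm_num) hxhi)
  have p4 : (psmI (PI.smul 4 1 (PI.mul pr3I u))).Mem (psr (-(4 * X))) :=
    psmI_mem (KNumH_smul (by push_cast; ring) mx) (KNumH_smul_hi (by norm_num) hxhi)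
  have p7 : (psmI (PI.smul 7 1 (PI.mul pr3I u))).Mem (psr (-(7 * X))) :=
    psmI_mem (KNumH_smul (by push_cast; ring) mx) (KNumH_smul_hi (by norm_num) hxhi)
  have q1 := KNumH_smul (k := 6) (w := 6 * (t * psr (-X))) (by push_cast; ring) (mt.mul p1)
  have q3 := KNumH_smul (k := 18) (w := 18 * (t ^ 3 * psr (-(3 * X)))) (by push_cast; ring)
    (mt3.mul p3)
  have q4 := KNumH_smul (k := 24) (w := 24 * (t ^ 4 * psr (-(4 * X)))) (by push_cast; ring)
    (mt4.mul p4)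
  have q7 := KNumH_smul (k := 84) (w := 84 * (t ^ 7 * psr (-(7 * X)))) (by push_cast; ring)
    (mt7.mul p7)
  have hle : 24 * (t ^ 4 * psr (-(4 * X))) ≤
      6 * (t * psr (-X)) + (18 * (t ^ 3 * psr (-(3 * X))) + 84 * (t ^ 7 * psr (-(7 * X)))) := by
    have a1 : psr (-(4 * X)) ≤ psr (-X) := KNumH_psr_mono (by linarith)
    have a2 : 0 ≤ psr (-(4 * X)) := KNumH_psr_nonneg _
    have a3 : 0 ≤ psr (-(3 * X)) := KNumH_psr_nonneg _
    have a7 : 0 ≤ psr (-(7 * X)) := KNumH_psr_nonneg _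
    have b3 : 0 ≤ 18 * (t ^ 3 * psr (-(3 * X))) := by positivity
    have b7 : 0 ≤ 84 * (t ^ 7 * psr (-(7 * X))) := by positivity
    have c1 : 4 * t ^ 3 ≤ 1 := by
      have : t ^ 3 ≤ (1 / 2 : ℝ) ^ 3 := pow_le_pow_left₀ ht0.le ht3 3
      norm_num at this
      linarith
    have c2 : 24 * t ^ 4 ≤ 6 * t := by
      have e : 24 * t ^ 4 = 6 * t * (4 * t ^ 3) := by ring
      rw [e]
      have : 6 * t * (4 * t ^ 3) ≤ 6 * t * 1 := mul_le_mul_of_nonneg_left c1 (by positivity)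
      linarith
    have c3 : 24 * t ^ 4 * psr (-(4 * X)) ≤ 6 * t * psr (-X) :=
      mul_le_mul c2 a1 a2 (by positivity)
    linarith
  have hfin := pr3I_mem.mul ((q1.add (q3.add q7)).sub q4 hle)
  have e : KHf v = Real.pi / Real.sqrt 3 * (6 * (t * psr (-X)) + (18 * (t ^ 3 * psr (-(3 * X))) +
      84 * (t ^ 7 * psr (-(7 * X)))) - 24 * (t ^ 4 * psr (-(4 * X)))) := by
    unfold KHf
    rw [← ht, ← hX]
    ring
  rw [e]
  exact hfin

end MP7e122f.Num
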