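import Pool.Agent.Lib.MP_7e122f_anR.NumTree
import Pool.Agent.Lib.MP_7e122f_anR.FactsD

/-!
# Slab certificates
-/

open MeasureTheory Complex
open scoped ComplexInnerProductSpace ENNReal ComplexOrder

namespace MP7e122f.Num

open MP7e122f.R

/-- sub-slab for the Gaussian tests, with certificates for its bound -/
structure GC where
  d : Nat
  hb : Nat
  ups : List CU

structure SlabCert where
  dl : Nat
  dh : Nat
  z1 : Nat
  z3n : Bool
  z3 : Nat
  n : Nat
  eth : Nat
  rm : Nat
  hb : Nat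
  near : List CN
  ups : List CU
  gcs : List GC
  tree : Tr

/-- the data of the Gaussian tests: consecutive sub-slabs starting at `dl` -/
def gsOf : Nat → List GC → List GS
  | _, [] => []
  | dl, c :: l => ⟨yOf dl c.d, fOf dl c.d, c.hb⟩ :: gsOf c.d l

def gcsChk (mx : Bool) : Nat → Nat → List GC → Bool
  | dl, dh, [] => Nat.ble dh dl
  | dl, dh, c :: l => and (upsChk mx c.hb dl c.d c.ups) (and (Nat.ble dl c.d)
      (and (Nat.ble c.d 2199023255552) (gcsChk mx c.d dh l)))

def z3i (z3n : Bool) (z3 : Nat) : Int := cond z3n (Int.neg (Int.ofNat z3)) (Int.ofNat z3)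

def certSlab (C : SlabCert) : Slab := mkSlab C.dl C.dh C.z1 C.z3n C.z3 C.n

/-- scalar part -/
def scalChk (mx : Bool) (C : SlabCert) : Bool :=
  let y := yOf C.dl C.dh
  and (slabChk C.dl C.dh) (and (cellChk 0 C.rm 0 1099511627776)
    (and (nearChk mx C.z1 (z3i C.z3n C.z3) C.dl C.dh C.near)
      (and (upsChk mx C.hb C.dl C.dh C.ups)
        (and (Nat.ble (Nat.mul 3 (mulU y.hi y.hi)) (mulD C.eth C.rm))
          (and (Nat.ble 1 C.eth) (Nat.ble C.eth 8796093022208))))))

/-- the tree part -/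
def treeChk (mx : Bool) (C : SlabCert) : Bool :=
  tchk mx (certSlab C) C.eth (gsOf C.dl C.gcs) C.tree 0 C.rm 0 1099511627776

/-- hypotheses on the pair of lattices -/
structure Pair (δ y A1 A2 A3 : ℝ) (M H : Mat) : Prop where
  hδ : 1 < δ
  hδ2 : δ < 2
  hy : y = Real.pi * δ / (2 * Real.sqrt 3)
  hM : 0 < M.det
  hMd : M.det = 1 / δ
  hHd : H.det = M.det
  hwM : ∀ k, wt M k = cc A3 A1 A2 k
  hwH : ∀ k, wt H k = cc y y y k
  det : A1 * A2 + A2 * A3 + A3 * A1 = 3 * y ^ 2
  h12 : A2 ≤ A1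
  h23 : A3 ≤ A2
  h3 : 0 ≤ A3
  hne : A3 ≠ A1

/-- upper bound: the Gaussian data list has one element `(dh, hb)` with the same bound -/
def chkB (C : SlabCert) : Bool :=
  and (scalChk true C) (and (gcsChk true C.dl C.dh C.gcs)
    (Nat.ble (Nat.succ C.hb) (Nat.mul 2 (expN ⟨C.eth, C.eth⟩).lo)))

/-- lower bound with the old one dimensional test for `E1 < eth` -/
def chkA (C : SlabCert) : Bool :=
  let X := minN (expN ⟨C.eth, C.eth⟩).lo 148434069749
  let X2 := mulU X X
  and (scalChk false C) (and (gcsChk false C.dl C.dh C.gcs) (and (Nat.ble C.hb 549755813888)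
    (and (Nat.ble 1 X) (Nat.ble (Nat.succ (Nat.add C.hb
      (Nat.mul 2 (divU (mulU X2 X2) (Nat.sub 1099511627776 X))))) (Nat.mul 2 X)))))

/-- lower bound, the part `E1 ≥ eth` only -/
def chkA' (C : SlabCert) : Bool :=
  and (scalChk false C) (gcsChk false C.dl C.dh C.gcs)

end MP7e122f.Num
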