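import Pool.Agent.Lib.MP_7e122f_anR.JNumB
import Pool.Agent.Lib.MP_7e122f_anR.JNumC
import Pool.Agent.Lib.MP_7e122f_anR.Slab
import Pool.Agent.Lib.MP_7e122f_anR.Facts
import Pool.Agent.Lib.MP_7e122f_anR.GTest

namespace MP7e122f.Num

open MP7e122f.R

theorem aOf_mem {eJ : Nat} (h : 1 ≤ eJ) : (aOf eJ).Mem (Real.pi ^ 2 / (4 * rv eJ)) := by
  have h1 : (PI.div (PI.sq piI) ⟨eJ, eJ⟩).Mem (Real.pi ^ 2 / rv eJ) :=
    PI.Mem.div (PI.Mem.sq piI_mem) (PI.Mem.pt eJ) h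
  have h2 := PI.Mem.smul 1 4 (by norm_num) h1
  have h3 : Real.pi ^ 2 / (4 * rv eJ) = ((1 : Nat) : ℝ) / ((4 : Nat) : ℝ) * (Real.pi ^ 2 / rv eJ) := by
    have h4 : rv eJ ≠ 0 := (numOps_rv_pos h).ne'
    push_cast
    field_simp
  rw [h3]
  exact h2

/-- each certificate of the list gives `FUp`, the direct comparison and the range -/
private theorem SlabJ_js {A : PI} {dl dh : Nat} {cs : List CJ} (h : jsChk A dl dh cs = true)
    {a δ : ℝ} (ha : A.Mem a) (hδ : 1 < δ) (h1 : rv dl ≤ δ) (h2 : δ < rv dh) :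
    ∃ hb : Nat, FUp false δ (rv hb) ∧ JU a (2 * δ - 1) < 1 - rv hb ∧ 1.4 ≤ rv A.lo ∧ δ ≤ 1.4 := by
  induction cs generalizing dl with
  | nil =>
    have h3 : Nat.ble dh dl = true := h
    exact absurd (rv_le h3) (not_le.2 (lt_of_le_of_lt h1 h2))
  | cons c l ih =>
    have h3 : (envChk false dl c.d && (upChk (mkEnv false dl c.d) c.L c.zs c.hb &&
      (jdChk A dl c.d c.hb && jsChk A c.d dh l))) = true := h
    rw [Bool.and_eq_true, Bool.and_eq_true, Bool.and_eq_true] at h3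
    obtain ⟨he, hu, hj, hr⟩ := h3
    rcases lt_or_ge δ (rv c.d) with hlt | hge
    · have h4 : upsChk false c.hb dl c.d [⟨c.d, c.L, c.zs⟩] = true := by
        change (envChk false dl c.d && (upChk (mkEnv false dl c.d) c.L c.zs c.hb &&
          Nat.ble c.d c.d)) = true
        rw [he, hu, Nat.ble_eq_true_of_le (le_refl c.d)]
        rfl
      have h5 := ups_ok h4 hδ h1 hlt
      have h6 := jdChk_ok hj ha h1 hlt.le
      unfold jdChk at hj
      simp only [Bool.and_eq_true] at hj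
      obtain ⟨-, -, hj1, hj2, -, -⟩ := hj
      refine ⟨c.hb, h5, h6, ?_, ?_⟩
      · refine le_trans ?_ (rv_le hj2)
        unfold rv
        norm_num
      · refine hlt.le.trans ((rv_le hj1).trans ?_)
        unfold rv
        norm_num
    · exact ih hr hge

/-- each certificate of the list gives `FUp` and the direct comparison -/
theorem jsChk_ok {A : PI} {dl dh : Nat} {cs : List CJ} (h : jsChk A dl dh cs = true) {a δ : ℝ}
    (ha : A.Mem a) (hδ : 1 < δ) (h1 : rv dl ≤ δ) (h2 : δ < rv dh) :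
    ∃ hb : Nat, FUp false δ (rv hb) ∧ JU a (2 * δ - 1) < 1 - rv hb := by
  obtain ⟨hb, h3, h4, -, -⟩ := SlabJ_js h ha hδ h1 h2
  exact ⟨hb, h3, h4⟩

/-- The degenerate region, lower bound.  `GA_test` gives `aval M ≤ Gq s (A1/δ) (A2/δ) (A3/δ)`,
`s = 2δ - 1` (since `(2 - 1/δ) A = s (A/δ)`), which is `≤ JU a s ≤ JU a0 s` for
`a = π² δ/(4(A2+A3)) ≥ a0 = π²/(4 eJ)` (`stair_ok`, `JU_mono`), and `< 1 - hb ≤ aval H`. -/
theorem slabJ {l : List CP} (hl : stairChk 1099511627776 l = true) {eJ dl dh : Nat}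
    {cs : List CJ} (h : jslabChk l eJ dl dh cs = true)
    {δ y A1 A2 A3 : ℝ} {M H : Mat} (P : Pair δ y A1 A2 A3 M H) (h1 : rv dl ≤ δ)
    (h2 : δ < rv dh) (hE : A2 + A3 ≤ rv eJ * δ) : aval M < aval H := by
  have h3 : (Nat.ble 1 eJ && (jsChk (aOf eJ) dl dh cs &&
    stairTo (Nat.sub (Nat.mul 2 dh) 1099511627776) (aOf eJ).lo l)) = true := h
  rw [Bool.and_eq_true, Bool.and_eq_true] at h3
  obtain ⟨he, hjs, hst⟩ := h3
  have he1 : 1 ≤ eJ := Nat.le_of_ble_eq_true he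
  have hA0 := aOf_mem he1
  obtain ⟨a0, ha0⟩ : ∃ a0 : ℝ, a0 = Real.pi ^ 2 / (4 * rv eJ) := ⟨_, rfl⟩
  rw [← ha0] at hA0
  obtain ⟨hb, hFU, hJ, hr1, hr2⟩ := SlabJ_js hjs hA0 P.hδ h1 h2
  have hδ0 : 0 < δ := lt_trans one_pos P.hδ
  have hδne : δ ≠ 0 := hδ0.ne'
  have heJ : 0 < rv eJ := numOps_rv_pos he1
  have hpi := Real.pi_pos
  -- the normalised parameters
  have hMd : M.det = 1 / δ := P.hMd
  have hHd : H.det = 1 / δ := by rw [P.hHd, hMd]
  have hM1 : M.det < 1 := by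
    rw [hMd, div_lt_one hδ0]
    exact P.hδ
  have hs3 : Real.sqrt 3 ^ 2 = 3 := Real.sq_sqrt (by norm_num)
  have hs30 : 0 < Real.sqrt 3 := Real.sqrt_pos.2 (by norm_num)
  have hy2 : 3 * y ^ 2 = Real.pi ^ 2 * δ ^ 2 / 4 := by
    rw [P.hy, div_pow, mul_pow, mul_pow, hs3]
    ring
  have hdet := P.det
  rw [hy2] at hdet
  have hA20 : 0 ≤ A2 := P.h3.trans P.h23
  have hA10 : 0 ≤ A1 := hA20.trans P.h12
  have hdet' : A1 / δ * (A2 / δ) + A2 / δ * (A3 / δ) + A3 / δ * (A1 / δ) = Real.pi ^ 2 / 4 := by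
    have e1 : A1 / δ * (A2 / δ) + A2 / δ * (A3 / δ) + A3 / δ * (A1 / δ) =
        (A1 * A2 + A2 * A3 + A3 * A1) / δ ^ 2 := by
      field_simp
    rw [e1, hdet]
    field_simp
  have hpos : 0 < A2 + A3 := by
    by_contra hcon
    have e1 : A2 = 0 := by linarith [P.h3]
    have e2 : A3 = 0 := by linarith [P.h3]
    rw [e1, e2] at hdet
    have e3 : 0 < Real.pi ^ 2 * δ ^ 2 / 4 := by positivity
    rw [← hdet] at e3
    simp at e3
  have hposd : 0 < A2 / δ + A3 / δ := by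
    rw [← add_div]
    exact div_pos hpos hδ0
  have hEd : A2 / δ + A3 / δ ≤ rv eJ := by
    rw [← add_div, div_le_iff₀ hδ0]
    exact hE
  -- the Gaussian test
  have hG : aval M ≤ Gq (2 * δ - 1) (A1 / δ) (A2 / δ) (A3 / δ) := by
    have h4 := GA_test M P.hM hM1 P.h3 hA10 hA20 P.hwM (by
      have e1 : 3 * (Real.pi / (2 * Real.sqrt 3 * M.det)) ^ 2 = Real.pi ^ 2 * δ ^ 2 / 4 := by
        rw [hMd, div_pow, mul_pow, mul_pow, hs3]
        field_simp
        ring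
      rw [e1, ← hdet]
      ring) (2 - M.det) rfl
    refine h4.trans (le_of_eq ?_)
    unfold Gq
    have e2 : ∀ A : ℝ, (2 - M.det) * A = (2 * δ - 1) * (A / δ) := by
      intro A
      rw [hMd]
      field_simp
    rw [e2 A1, e2 A2, e2 A3]
  have hs0 : 0 < 2 * δ - 1 := by linarith [P.hδ]
  have hGJ : Gq (2 * δ - 1) (A1 / δ) (A2 / δ) (A3 / δ) ≤
      JU (Real.pi ^ 2 / (4 * (A2 / δ + A3 / δ))) (2 * δ - 1) :=
    Gq_le_JU hs0 (div_nonneg P.h3 hδ0.le) (div_le_div_of_nonneg_right P.h23 hδ0.le)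
      (div_le_div_of_nonneg_right P.h12 hδ0.le) hdet' _ rfl
  -- monotonicity
  have ha0' : 1.4 ≤ a0 := hr1.trans hA0.1
  have haa : a0 ≤ Real.pi ^ 2 / (4 * (A2 / δ + A3 / δ)) := by
    rw [ha0]
    apply div_le_div_of_nonneg_left (by positivity) (by positivity)
    linarith
  have hdh : 2 * δ - 1 ≤ rv (Nat.sub (Nat.mul 2 dh) 1099511627776) := by
    have e1 := rv_sub_le (Nat.mul 2 dh) 1099511627776
    rw [rv_nmul, rv_lit] at e1
    push_cast at e1
    linarith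
  have hmono : JU (Real.pi ^ 2 / (4 * (A2 / δ + A3 / δ))) (2 * δ - 1) ≤ JU a0 (2 * δ - 1) := by
    apply JU_mono ha0' haa (by linarith [P.hδ]) (by linarith)
    intro a' τ h5 h6 h7
    exact stair_ok hl hst (hA0.1.trans h5) h6 (h7.trans hdh)
  have hH : 1 - rv hb ≤ aval H := hFU y H P.hy (by
    rw [hHd]
    positivity) hHd P.hwH
  linarith

end MP7e122f.Num
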