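import Pool.Agent.Lib.MP_7e122f_anR.KNumK
import Pool.Agent.Lib.MP_7e122f_anR.JFin
import Pool.Agent.Lib.MP_7e122f_anR.SlabJ

/-!
# The degenerate region for `ε ≤ 0.07`
-/

namespace MP7e122f.Num

open MP7e122f.R

private theorem knj_one : rv 1 = 1 / 1099511627776 := by
  unfold rv; norm_num

private theorem knj_hi {x : Nat} (h : rv x ≤ 31) : x ≤ 35184372088000 := by
  apply numOps_le_of_rv
  refine h.trans ?_
  unfold rv
  norm_num

/-- `exp(-y) ≤` the computed value, if `rv x ≤ y` and `x` is not too large -/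
private theorem knj_exp {x : Nat} {y : ℝ} (h : rv x ≤ y) (hx : rv x ≤ 31) :
    Real.exp (-y) ≤ rv (expN ⟨x, x⟩).hi :=
  (Real.exp_le_exp.2 (neg_le_neg h)).trans
    (expN_mem (a := ⟨x, x⟩) (x := rv x) ⟨le_rfl, le_rfl⟩ (knj_hi hx)).2

/-- `shp` -/
private theorem knj_shp {x : ℝ} {n : Nat} (h0 : 0 ≤ x) (h : x ≤ rv n) : shp x ≤ rv (shpU n) := by
  have h1 : x ^ 2 ≤ rv (mulU n n) := by
    refine le_trans ?_ (le_mulU n n)
    rw [pow_two]
    exact mul_le_mul h h h0 (rv_nonneg _)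
  have h2 : x ^ 4 ≤ rv (mulU (mulU n n) (mulU n n)) := by
    refine le_trans ?_ (le_mulU _ _)
    have e : x ^ 4 = x ^ 2 * x ^ 2 := by ring
    rw [e]
    exact mul_le_mul h1 h1 (sq_nonneg _) (rv_nonneg _)
  have h3 := le_rv_div (mulU n n) 6 (by norm_num)
  have h4 := le_rv_div (mulU (mulU n n) (mulU n n)) 100 (by norm_num)
  have h5 : rv (shpU n) = rv 1099511627776 + (rv (Nat.succ (Nat.div (mulU n n) 6)) +
      rv (Nat.succ (Nat.div (mulU (mulU n n) (mulU n n)) 100))) := by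
    unfold shpU
    rw [rv_add, rv_add]
  rw [h5, rv_lit]
  unfold shp
  push_cast at h3 h4
  linarith

private theorem knj_shp_nonneg {x : ℝ} : 0 ≤ shp x := by
  unfold shp
  positivity

/-- a product of upper bounds -/
private theorem knj_mul {x y : ℝ} {a b : Nat} (hx : x ≤ rv a) (hy0 : 0 ≤ y) (hy : y ≤ rv b) :
    x * y ≤ rv (mulU a b) :=
  (mul_le_mul hx hy hy0 (rv_nonneg _)).trans (le_mulU _ _)

private theorem knj_halfU (m v : Nat) {x : ℝ} (h : x ≤ (m : ℝ) / 2 * rv v) :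
    x ≤ rv (Nat.succ (Nat.div (Nat.mul m v) 2)) := by
  have h1 := le_rv_div (Nat.mul m v) 2 (by norm_num)
  rw [rv_nmul] at h1
  push_cast at h1
  linarith

private theorem knj_halfD (m v : Nat) {x : ℝ} (h : (m : ℝ) / 2 * rv v ≤ x) :
    rv (Nat.div (Nat.mul m v) 2) ≤ x := by
  have h1 := rv_div_le (Nat.mul m v) 2
  rw [rv_nmul] at h1
  push_cast at h1
  linarith

/-- the bracket -/
private theorem knj_br {A s : ℝ} {al am b16 a12 a18 : Nat}
    (hal : rv al ≤ A * (s + 1 / s)) (hal2 : rv al ≤ 4)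
    (ham0 : 0 ≤ A * (s - 1 / s)) (ham : A * (s - 1 / s) ≤ rv am)
    (h16 : rv b16 ≤ A * (s + 16 / s)) (h16' : rv b16 ≤ 30)
    (h12 : rv a12 ≤ 12 * A) (h12' : rv a12 ≤ 30)
    (h18 : rv a18 ≤ 25 * (A / s)) (h18' : rv a18 ≤ 30) :
    2 * (Real.exp (-(1 / 2 * (A * (s + 1 / s)))) * shp (1 / 2 * (A * (s - 1 / s))))
        + 12 * (Real.exp (-(5 / 2 * (A * (s + 1 / s)))) * shp (3 / 2 * (A * (s - 1 / s))))
        + 18 * (Real.exp (-(9 / 2 * (A * (s + 1 / s)))) * shp (9 / 2 * (A * (s - 1 / s))))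
        + 60 * Real.exp (-(A * (s + 16 / s))) + 20 * Real.exp (-(12 * A))
        + 200 * Real.exp (-(25 * (A / s))) ≤
      rv (Nat.add (Nat.mul 2 (mulU (expN ⟨Nat.div al 2, Nat.div al 2⟩).hi
          (shpU (Nat.succ (Nat.div am 2)))))
        (Nat.add (Nat.mul 12 (mulU (expN ⟨Nat.div (Nat.mul 5 al) 2, Nat.div (Nat.mul 5 al) 2⟩).hi
          (shpU (Nat.succ (Nat.div (Nat.mul 3 am) 2)))))
        (Nat.add (Nat.mul 18 (mulU (expN ⟨Nat.div (Nat.mul 9 al) 2, Nat.div (Nat.mul 9 al) 2⟩).hi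
          (shpU (Nat.succ (Nat.div (Nat.mul 9 am) 2)))))
        (Nat.add (Nat.mul 60 (expN ⟨b16, b16⟩).hi) (Nat.add (Nat.mul 20 (expN ⟨a12, a12⟩).hi)
          (Nat.mul 200 (expN ⟨a18, a18⟩).hi)))))) := by
  have hal0 := rv_nonneg al
  have x1 : rv (Nat.div al 2) ≤ 1 / 2 * rv al := by
    have := rv_div_le al 2
    push_cast at this
    linarith
  have x5 : rv (Nat.div (Nat.mul 5 al) 2) ≤ 5 / 2 * rv al := by
    apply knj_halfD
    push_cast
    exact le_rfl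
  have x9 : rv (Nat.div (Nat.mul 9 al) 2) ≤ 9 / 2 * rv al := by
    apply knj_halfD
    push_cast
    exact le_rfl
  have E1 : Real.exp (-(1 / 2 * (A * (s + 1 / s)))) ≤
      rv (expN ⟨Nat.div al 2, Nat.div al 2⟩).hi :=
    knj_exp (by linarith) (by linarith)
  have E5 : Real.exp (-(5 / 2 * (A * (s + 1 / s)))) ≤
      rv (expN ⟨Nat.div (Nat.mul 5 al) 2, Nat.div (Nat.mul 5 al) 2⟩).hi :=
    knj_exp (by linarith) (by linarith)
  have E9 : Real.exp (-(9 / 2 * (A * (s + 1 / s)))) ≤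
      rv (expN ⟨Nat.div (Nat.mul 9 al) 2, Nat.div (Nat.mul 9 al) 2⟩).hi :=
    knj_exp (by linarith) (by linarith)
  have E16 : Real.exp (-(A * (s + 16 / s))) ≤ rv (expN ⟨b16, b16⟩).hi :=
    knj_exp h16 (by linarith)
  have E12 : Real.exp (-(12 * A)) ≤ rv (expN ⟨a12, a12⟩).hi :=
    knj_exp h12 (by linarith)
  have E18 : Real.exp (-(25 * (A / s))) ≤ rv (expN ⟨a18, a18⟩).hi :=
    knj_exp h18 (by linarith)
  have S1 : shp (1 / 2 * (A * (s - 1 / s))) ≤ rv (shpU (Nat.succ (Nat.div am 2))) := by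
    apply knj_shp (by linarith)
    have := le_rv_div am 2 (by norm_num)
    push_cast at this
    linarith
  have S3 : shp (3 / 2 * (A * (s - 1 / s))) ≤ rv (shpU (Nat.succ (Nat.div (Nat.mul 3 am) 2))) := by
    apply knj_shp (by linarith)
    apply knj_halfU
    push_cast
    linarith
  have S9 : shp (9 / 2 * (A * (s - 1 / s))) ≤ rv (shpU (Nat.succ (Nat.div (Nat.mul 9 am) 2))) := by
    apply knj_shp (by linarith)
    apply knj_halfU
    push_cast
    linarith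
  have P1 := knj_mul E1 knj_shp_nonneg S1
  have P3 := knj_mul E5 knj_shp_nonneg S3
  have P9 := knj_mul E9 knj_shp_nonneg S9
  simp only [rv_add, rv_nmul]
  push_cast
  linarith

/-- the prefactor -/
private theorem knj_pre {a : PI} {A s : ℝ} {sl ih : Nat} (ha : a.Mem A) (hA0 : 0 ≤ A)
    (hs0 : 0 < s) (hsl : rv sl ≤ s) (hsl1 : 1099511627776 ≤ sl) (hih : 1 / s ≤ rv ih) :
    Real.sqrt (4 * A / (Real.pi * s)) * (2 * A * (1 + 1 / s)) ≤
      rv (mulU (sqU (divU (Nat.mul 4 a.hi) (mulD 3454217652357 sl)))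
        (mulU (Nat.mul 2 a.hi) (Nat.add 1099511627776 ih))) := by
  have hπ := Real.pi_pos
  have hi0 : 0 < 1 / s := by positivity
  have hm0 : 0 < mulD 3454217652357 sl := by
    unfold mulD
    rw [numOps_shr]
    change 0 < (3454217652357 * sl) / 1099511627776
    apply Nat.div_pos _ (by norm_num)
    omega
  have h1 : Real.sqrt (4 * A / (Real.pi * s)) ≤
      rv (sqU (divU (Nat.mul 4 a.hi) (mulD 3454217652357 sl))) := by
    refine le_trans ?_ (le_sqU _)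
    apply Real.sqrt_le_sqrt
    have h5 := le_divU (Nat.mul 4 a.hi) (mulD 3454217652357 sl) hm0
    refine le_trans ?_ h5
    have h6 := mulD_le 3454217652357 sl
    have h7 : rv 3454217652357 ≤ Real.pi := piI_mem.1
    have h8 : rv (mulD 3454217652357 sl) ≤ Real.pi * s := by
      refine h6.trans ?_
      apply mul_le_mul h7 hsl (rv_nonneg _) hπ.le
    have h9 : 0 < rv (mulD 3454217652357 sl) := numOps_rv_pos hm0
    rw [rv_nmul]
    push_cast
    apply div_le_div₀ (by have := rv_nonneg a.hi; positivity) _ h9 h8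
    have := ha.2
    linarith
  refine knj_mul h1 (by positivity) ?_
  refine knj_mul ?_ (by positivity) ?_
  · rw [rv_nmul]
    push_cast
    have := ha.2
    linarith
  · rw [rv_add, rv_lit]
    linarith

private theorem knj_monoP {x y : ℝ} (hx : 1 ≤ x) (hxy : x ≤ y) : x + 1 / x ≤ y + 1 / y := by
  have hx0 : 0 < x := by linarith
  have hy0 : 0 < y := by linarith
  have e : y + 1 / y - (x + 1 / x) = (y - x) * (x * y - 1) / (x * y) := by
    field_simp
    ring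
  have : 0 ≤ (y - x) * (x * y - 1) / (x * y) :=
    div_nonneg (mul_nonneg (by linarith) (by nlinarith)) (by positivity)
  linarith

private theorem knj_mono16 {x y : ℝ} (hx : 1 ≤ x) (hxy : x ≤ y) (hy : y ≤ 4) :
    y + 16 * (1 / y) ≤ x + 16 / x := by
  have hx0 : 0 < x := by linarith
  have hy0 : 0 < y := by linarith
  have e : x + 16 / x - (y + 16 * (1 / y)) = (y - x) * (16 - x * y) / (x * y) := by
    field_simp
    ring
  have : 0 ≤ (y - x) * (16 - x * y) / (x * y) :=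
    div_nonneg (mul_nonneg (by linarith) (by nlinarith)) (by positivity)
  linarith

/-- `JU_leK`: `s = 1 + 2ε ∈ [sl, sh]`; `s + 1/s` is increasing (`al` = lower bound of
`a (s + 1/s)`), `s - 1/s` increasing (`am` = upper bound of `a (s - 1/s)`), `s + 16/s` decreasing,
`exp(-25 a/s) ≤ exp(-18 a/s)`, `shp` increasing. -/
theorem jkU_ok {a : PI} {A ε : ℝ} {el eh : Nat} (ha : a.Mem A) (hj : jaChk a = true)
    (hc : kenvChk el eh = true) (h0 : 0 < ε) (h1 : rv el ≤ ε) (h2 : ε ≤ rv eh) :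
    JU A (1 + 2 * ε) ≤ ε * rv (jkU a el eh) := by
  unfold jaChk at hj
  rw [Bool.and_eq_true] at hj
  obtain ⟨j1, j2⟩ := hj
  unfold kenvChk at hc
  rw [Bool.and_eq_true] at hc
  obtain ⟨c1, c2⟩ := hc
  have hA1 : 1.4 ≤ A := by
    refine le_trans ?_ ((rv_le j1).trans ha.1)
    unfold rv
    norm_num
  have hahi : rv a.hi ≤ 1.45 := by
    refine (rv_le j2).trans ?_
    unfold rv
    norm_num
  have hA2 : A ≤ 1.45 := ha.2.trans hahi
  have heh : rv eh ≤ 0.0751 := by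
    refine (rv_le c2).trans ?_
    unfold rv
    norm_num
  have hJ := JU_leK (a := A) (ε := ε) (s := 1 + 2 * ε) hA1 hA2 h0 (by norm_num at heh ⊢; linarith) rfl
  refine hJ.trans (mul_le_mul_of_nonneg_left ?_ h0.le)
  clear hJ
  norm_num at hA1 hA2 heh hahi
  have hA0 : 0 ≤ A := by linarith
  obtain ⟨s, hs⟩ : ∃ s : ℝ, s = 1 + 2 * ε := ⟨_, rfl⟩
  rw [← hs]
  have hs1 : 1 ≤ s := by linarith
  have hs0 : 0 < s := by linarith
  obtain ⟨sl, hsl⟩ : ∃ x, x = Nat.add 1099511627776 (Nat.mul 2 el) := ⟨_, rfl⟩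
  obtain ⟨sh, hsh⟩ : ∃ x, x = Nat.add 1099511627776 (Nat.mul 2 eh) := ⟨_, rfl⟩
  have rsl : rv sl = 1 + 2 * rv el := by
    rw [hsl, rv_add, rv_nmul, rv_lit]
    push_cast
    ring
  have rsh : rv sh = 1 + 2 * rv eh := by
    rw [hsh, rv_add, rv_nmul, rv_lit]
    push_cast
    ring
  have hel0 := rv_nonneg el
  have hslge : 1099511627776 ≤ sl := by
    apply numOps_le_of_rv
    rw [rv_lit, rsl]
    linarith
  have hslpos : 0 < sl := lt_of_lt_of_le (by norm_num) hslge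
  have hshpos : 0 < sh := by
    rcases Nat.eq_zero_or_pos sh with h | h
    · rw [h] at rsh
      unfold rv at rsh
      have := rv_nonneg eh
      unfold rv at this
      norm_num at rsh
      linarith
    · exact h
  have hsls : rv sl ≤ s := by rw [rsl, hs]; linarith
  have hssh : s ≤ rv sh := by rw [rsh, hs]; linarith
  have hsl1 : 1 ≤ rv sl := by rw [rsl]; linarith
  have hsh1 : 1 ≤ rv sh := by linarith
  have hsh2 : rv sh ≤ 1.2 := by rw [rsh]; norm_num; linarith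
  norm_num at hsh2
  have mis : PI.Mem (PI.inv ⟨sl, sh⟩) (1 / s) :=
    PI.Mem.inv (a := ⟨sl, sh⟩) (x := s) ⟨hsls, hssh⟩ hslpos
  have mih : PI.Mem (PI.inv ⟨sh, sh⟩) (1 / rv sh) :=
    PI.Mem.inv (a := ⟨sh, sh⟩) (x := rv sh) ⟨le_rfl, le_rfl⟩ hshpos
  have mil : PI.Mem (PI.inv ⟨sl, sl⟩) (1 / rv sl) :=
    PI.Mem.inv (a := ⟨sl, sl⟩) (x := rv sl) ⟨le_rfl, le_rfl⟩ hslpos
  have uiv : ∀ x : ℝ, 1 ≤ x → 1 / x ≤ 1 := by
    intro x hx
    rw [div_le_one (by linarith)]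
    exact hx
  have his0 : 0 < 1 / s := by positivity
  have hi2 := uiv s hs1
  have hi3 := uiv _ hsh1
  have hi4 := uiv _ hsl1
  have hssi : 1 / rv sh ≤ 1 / s := one_div_le_one_div_of_le hs0 hssh
  unfold jkU
  dsimp only
  rw [← hsl, ← hsh]
  generalize PI.inv ⟨sl, sh⟩ = IS at mis ⊢
  generalize PI.inv ⟨sh, sh⟩ = IH at mih ⊢
  generalize PI.inv ⟨sl, sl⟩ = IL at mil ⊢
  have halo : rv a.lo ≤ 29 / 20 := (ha.1.trans ha.2).trans hahi
  have halo0 := rv_nonneg a.lo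
  have hahi0 := rv_nonneg a.hi
  refine (mul_le_mul (knj_pre ha hA0 hs0 hsls hslge mis.2) (knj_br ?_ ?_ ?_ ?_ ?_ ?_ ?_ ?_ ?_ ?_)
    ?_ (rv_nonneg _)).trans (le_mulU _ _)
  · -- al
    refine (mulD_le _ _).trans ?_
    rw [rv_add]
    refine mul_le_mul ha.1 ?_ (add_nonneg (rv_nonneg _) (rv_nonneg _)) hA0
    have := knj_monoP hsl1 hsls
    linarith [mil.1]
  · refine (mulD_le _ _).trans ?_
    rw [rv_add]
    have h3 : rv a.lo * (rv sl + rv IL.lo) ≤ 29 / 20 * (6 / 5 + 1) := by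
      refine mul_le_mul halo ?_ (add_nonneg (rv_nonneg _) (rv_nonneg _)) (by norm_num)
      linarith [mil.1]
    linarith
  · exact mul_nonneg hA0 (by linarith)
  · -- am
    refine le_trans ?_ (le_mulU _ _)
    refine mul_le_mul ha.2 ?_ (by linarith) hahi0
    have h3 := rv_sub_le sh IH.lo
    linarith [mih.1]
  · -- b16
    refine (mulD_le _ _).trans ?_
    rw [rv_add, rv_nmul]
    push_cast
    refine mul_le_mul ha.1 ?_ (by have := rv_nonneg sh; have := rv_nonneg IH.lo; positivity) hA0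
    have := knj_mono16 hs1 hssh (by linarith)
    linarith [mih.1]
  · refine (mulD_le _ _).trans ?_
    rw [rv_add, rv_nmul]
    push_cast
    have h3 : rv a.lo * (rv sh + 16 * rv IH.lo) ≤ 29 / 20 * (6 / 5 + 16) := by
      refine mul_le_mul halo ?_ (by have := rv_nonneg sh; have := rv_nonneg IH.lo; positivity)
        (by norm_num)
      linarith [mih.1]
    linarith
  · rw [rv_nmul]
    push_cast
    linarith [ha.1]
  · rw [rv_nmul]
    push_cast
    linarith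
  · rw [rv_nmul]
    push_cast
    have h3 : rv (mulD a.lo IS.lo) ≤ A * (1 / s) :=
      (mulD_le _ _).trans (mul_le_mul ha.1 mis.1 (rv_nonneg _) hA0)
    have h4 : A * (1 / s) = A / s := by ring
    have h5 : 0 ≤ A / s := by positivity
    rw [h4] at h3
    linarith
  · rw [rv_nmul]
    push_cast
    have h3 : rv (mulD a.lo IS.lo) ≤ 29 / 20 * 1 :=
      (mulD_le _ _).trans (mul_le_mul halo (mis.1.trans hi2) (rv_nonneg _) (by norm_num))
    linarith
  · have h3 := knj_shp_nonneg (x := 1 / 2 * (A * (s - 1 / s)))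
    have h4 := knj_shp_nonneg (x := 3 / 2 * (A * (s - 1 / s)))
    have h5 := knj_shp_nonneg (x := 9 / 2 * (A * (s - 1 / s)))
    positivity

/-- one sub-slab -/
private theorem knj_jk {a : PI} {A ε : ℝ} {el eh k : Nat} (ha : a.Mem A)
    (hj : jaChk a = true) (h : jkChk a el eh k = true) (h0 : 0 < ε) (h1 : rv el ≤ ε)
    (h2 : ε ≤ rv eh) : ∃ lb : ℝ, KLow ε lb ∧ JU A (1 + 2 * ε) < ε * lb ∧ ε ≤ 0.08 := by
  unfold jkChk at h
  dsimp only at h
  rw [Bool.and_eq_true, Bool.and_eq_true, Bool.and_eq_true, Bool.and_eq_true,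
    Bool.and_eq_true] at h
  obtain ⟨c1, c2, c3, c4, c5, c6⟩ := h
  have hJ := jkU_ok ha hj c1 h0 h1 h2
  have hK := kenv_ok c1 h0 h1 h2
  obtain ⟨k1, k2⟩ := k1lChk_ok hK c2
  have hL := LLlo_ok hK c3 (Nat.le_of_ble_eq_true c5)
  unfold kenvChk at c1
  rw [Bool.and_eq_true] at c1
  obtain ⟨c0, c1⟩ := c1
  have heh : rv eh ≤ 0.0751 := by
    refine (rv_le c1).trans ?_
    unfold rv
    norm_num
  norm_num at heh
  have hH := KHn_mem (u := ⟨el, eh⟩) (v := ε) ⟨h1, h2⟩ h0 (by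
    have h3 := Nat.le_of_ble_eq_true c1
    change eh ≤ 164926744168
    omega)
  have hs : rv (Nat.sub (KHn ⟨el, eh⟩).lo 109952) = rv (KHn ⟨el, eh⟩).lo - rv 109952 :=
    rv_sub_eq (Nat.le_of_ble_eq_true c4)
  have hlit : (1 : ℝ) / 10 ^ 7 ≤ rv 109952 := by
    unfold rv
    norm_num
  have hlt := rv_lt c6
  rw [rv_add, hs] at hlt
  refine ⟨rv (KHn ⟨el, eh⟩).lo - rv 109952 + rv (LLlo (mkKEnv el eh) k), ?_, ?_, ?_⟩
  · refine klow_of h0 (by norm_num; linarith) (rv_nonneg k) k1 k2 ?_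
    linarith [hH.1]
  · exact lt_of_le_of_lt hJ (mul_lt_mul_of_pos_left hlt h0)
  · norm_num
    linarith

private theorem knj_js {a : PI} {A ε : ℝ} {el eh : Nat} {l : List KJ} (ha : a.Mem A)
    (hj : jaChk a = true) (h : jksChk a el eh l = true) (h0 : 0 < ε) (h1 : rv el ≤ ε)
    (h2 : ε < rv eh) : ∃ lb : ℝ, KLow ε lb ∧ JU A (1 + 2 * ε) < ε * lb ∧ ε ≤ 0.08 := by
  induction l generalizing el with
  | nil =>
    have h3 : Nat.ble eh el = true := h
    exact absurd (rv_le h3) (not_le.2 (lt_of_le_of_lt h1 h2))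
  | cons c l ih =>
    have h3 : (jkChk a el c.e c.k && jksChk a c.e eh l) = true := h
    rw [Bool.and_eq_true] at h3
    rcases lt_or_ge ε (rv c.e) with hlt | hge
    · exact knj_jk ha hj h3.1 h0 h1 hlt.le
    · exact ih h3.2 hge

theorem jks_ok {a : PI} {A ε : ℝ} {el eh : Nat} {l : List KJ} (ha : a.Mem A)
    (hj : jaChk a = true) (h : jksChk a el eh l = true) (h0 : 0 < ε) (h1 : rv el ≤ ε)
    (h2 : ε < rv eh) : ∃ lb : ℝ, KLow ε lb ∧ JU A (1 + 2 * ε) < ε * lb := by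
  obtain ⟨lb, h3, h4, -⟩ := knj_js ha hj h h0 h1 h2
  exact ⟨lb, h3, h4⟩

/-- as `slabJ`: `aval M ≤ JU a s ≤ JU a0 s < ε lb ≤ aval H` -/
theorem slabKJ {l : List CP} (hl : stairChk 1099511627776 l = true) {eJ emax el eh : Nat}
    {L : List KJ} (hk : kjAll l eJ emax = true) (hm : Nat.ble eh emax = true)
    (h : jksChk (aOf eJ) el eh L = true)
    {δ y A1 A2 A3 : ℝ} {M H : Mat} (P : Pair δ y A1 A2 A3 M H) (h1 : 1 + rv el ≤ δ)
    (h2 : δ < 1 + rv eh) (hE : A2 + A3 ≤ rv eJ * δ) : aval M < aval H := by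
  unfold kjAll at hk
  rw [Bool.and_eq_true, Bool.and_eq_true] at hk
  obtain ⟨he, hja, hst⟩ := hk
  have he1 : 1 ≤ eJ := Nat.le_of_ble_eq_true he
  have hA0 := aOf_mem he1
  obtain ⟨a0, ha0⟩ : ∃ a0 : ℝ, a0 = Real.pi ^ 2 / (4 * rv eJ) := ⟨_, rfl⟩
  rw [← ha0] at hA0
  obtain ⟨ε, hε⟩ : ∃ ε : ℝ, ε = δ - 1 := ⟨_, rfl⟩
  have hδε : δ = 1 + ε := by rw [hε]; ring
  have hε0 : 0 < ε := by rw [hε]; linarith [P.hδ]
  obtain ⟨lb, hKL, hJ, hr2⟩ := knj_js hA0 hja h hε0 (by rw [hε]; linarith) (by rw [hε]; linarith)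
  norm_num at hr2
  have hr1 : 1.4 ≤ rv (aOf eJ).lo := by
    unfold jaChk at hja
    rw [Bool.and_eq_true] at hja
    refine le_trans ?_ (rv_le hja.1)
    unfold rv
    norm_num
  have hδ0 : 0 < δ := lt_trans one_pos P.hδ
  have hδne : δ ≠ 0 := hδ0.ne'
  have heJ : 0 < rv eJ := numOps_rv_pos he1
  have hpi := Real.pi_pos
  -- the normalised parameters
  have hMd : M.det = 1 / δ := P.hMd
  have hHd : H.det = 1 / δ := by rw [P.hHd, hMd]
  have hM1 : M.det < 1 := by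
    rw [hMd, div_lt_one hδ0]
    exact P.hδ
  have hs3 : Real.sqrt 3 ^ 2 = 3 := Real.sq_sqrt (by norm_num)
  have hs30 : 0 < Real.sqrt 3 := Real.sqrt_pos.2 (by norm_num)
  have hy2 : 3 * y ^ 2 = Real.pi ^ 2 * δ ^ 2 / 4 := by
    rw [P.hy, div_pow, mul_pow, mul_pow, hs3]
    ring
  have hdet := P.det
  rw [hy2] at hdet
  have hA20 : 0 ≤ A2 := P.h3.trans P.h23
  have hA10 : 0 ≤ A1 := hA20.trans P.h12
  have hdet' : A1 / δ * (A2 / δ) + A2 / δ * (A3 / δ) + A3 / δ * (A1 / δ) = Real.pi ^ 2 / 4 := by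
    have e1 : A1 / δ * (A2 / δ) + A2 / δ * (A3 / δ) + A3 / δ * (A1 / δ) =
        (A1 * A2 + A2 * A3 + A3 * A1) / δ ^ 2 := by
      field_simp
    rw [e1, hdet]
    field_simp
  have hpos : 0 < A2 + A3 := by
    by_contra hcon
    have e1 : A2 = 0 := by linarith [P.h3]
    have e2 : A3 = 0 := by linarith [P.h3]
    rw [e1, e2] at hdet
    have e3 : 0 < Real.pi ^ 2 * δ ^ 2 / 4 := by positivity
    rw [← hdet] at e3
    simp at e3
  have hposd : 0 < A2 / δ + A3 / δ := by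
    rw [← add_div]
    exact div_pos hpos hδ0
  have hEd : A2 / δ + A3 / δ ≤ rv eJ := by
    rw [← add_div, div_le_iff₀ hδ0]
    exact hE
  -- the Gaussian test
  have hG : aval M ≤ Gq (2 * δ - 1) (A1 / δ) (A2 / δ) (A3 / δ) := by
    have h4 := GA_test M P.hM hM1 P.h3 hA10 hA20 P.hwM (by
      have e1 : 3 * (Real.pi / (2 * Real.sqrt 3 * M.det)) ^ 2 = Real.pi ^ 2 * δ ^ 2 / 4 := by
        rw [hMd, div_pow, mul_pow, mul_pow, hs3]
        field_simp
        ring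
      rw [e1, ← hdet]
      ring) (2 - M.det) rfl
    refine h4.trans (le_of_eq ?_)
    unfold Gq
    have e2 : ∀ A : ℝ, (2 - M.det) * A = (2 * δ - 1) * (A / δ) := by
      intro A
      rw [hMd]
      field_simp
    rw [e2 A1, e2 A2, e2 A3]
  have hs0 : 0 < 2 * δ - 1 := by linarith [P.hδ]
  have hGJ : Gq (2 * δ - 1) (A1 / δ) (A2 / δ) (A3 / δ) ≤
      JU (Real.pi ^ 2 / (4 * (A2 / δ + A3 / δ))) (2 * δ - 1) :=
    Gq_le_JU hs0 (div_nonneg P.h3 hδ0.le) (div_le_div_of_nonneg_right P.h23 hδ0.le)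
      (div_le_div_of_nonneg_right P.h12 hδ0.le) hdet' _ rfl
  -- monotonicity
  have ha0' : 1.4 ≤ a0 := hr1.trans hA0.1
  have haa : a0 ≤ Real.pi ^ 2 / (4 * (A2 / δ + A3 / δ)) := by
    rw [ha0]
    apply div_le_div_of_nonneg_left (by positivity) (by positivity)
    linarith
  have hdh : 2 * δ - 1 ≤ rv (Nat.add 1099511627776 (Nat.mul 2 emax)) := by
    rw [rv_add, rv_nmul, rv_lit]
    push_cast
    have := rv_le hm
    linarith
  have hmono : JU (Real.pi ^ 2 / (4 * (A2 / δ + A3 / δ))) (2 * δ - 1) ≤ JU a0 (2 * δ - 1) := by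
    apply JU_mono ha0' haa (by linarith [P.hδ]) (by norm_num; linarith)
    intro a' τ h5 h6 h7
    exact stair_ok hl hst (hA0.1.trans h5) h6 (h7.trans hdh)
  have hH : ε * lb ≤ aval H := hKL y H (by rw [P.hy, hδε]) (by
    rw [hHd]
    positivity) (by rw [hHd, hδε]) P.hwH
  have hs : 2 * δ - 1 = 1 + 2 * ε := by rw [hε]; ring
  rw [hs] at hmono hGJ hG
  linarith

end MP7e122f.Num
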