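import Pool.Agent.Lib.MP_7e122f_anR.KNumEnv
import Pool.Agent.Lib.MP_7e122f_anR.KNumH
import Pool.Agent.Lib.MP_7e122f_anR.KNearR

namespace MP7e122f.Num

open MP7e122f.R

private theorem KNumK_and {a b : Bool} (h : and a b = true) : a = true ∧ b = true := by
  cases a <;> cases b <;> first | exact ⟨rfl, rfl⟩ | exact absurd h (by decide)

private theorem KNumK_rv_succ (a : Nat) : rv a ≤ rv (Nat.succ a) := rv_mono (Nat.le_succ a)

/-- `rv n` is the real number, for numerals -/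
private theorem KNumK_3 : rv 3298534883328 = 3 := by unfold rv; norm_num
private theorem KNumK_6 : rv 6597069766656 = 6 := by unfold rv; norm_num
private theorem KNumK_12 : rv 13194139533312 = 12 := by unfold rv; norm_num
private theorem KNumK_m6 : 1 / 10 ^ 6 ≤ rv 1099512 := by unfold rv; norm_num
private theorem KNumK_9m6 : 9 / 10 ^ 6 ≤ rv 9895605 := by unfold rv; norm_num
private theorem KNumK_m7 : 1 / 10 ^ 7 ≤ rv 109952 := by unfold rv; norm_num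
private theorem KNumK_24 : rv 2638827906662 ≤ 2.4 := by unfold rv; norm_num
private theorem KNumK_r3h : Real.sqrt 3 ≤ rv 1904410002821 := r3I_mem.2
private theorem KNumK_r3l : rv 1904410002820 ≤ Real.sqrt 3 := r3I_mem.1
private theorem KNumK_pih : Real.pi ≤ rv 3454217652358 := piI_mem.2

private theorem KNumK_mulD {a b : Nat} {x y : ℝ} (ha : rv a ≤ x) (hb : rv b ≤ y) :
    rv (mulD a b) ≤ x * y :=
  (mulD_le a b).trans (mul_le_mul ha hb (rv_nonneg _) ((rv_nonneg _).trans ha))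

private theorem KNumK_mulU {a b : Nat} {x y : ℝ} (hy : 0 ≤ y) (ha : x ≤ rv a) (hb : y ≤ rv b) :
    x * y ≤ rv (mulU a b) :=
  (mul_le_mul ha hb hy (rv_nonneg _)).trans (le_mulU a b)

private theorem KNumK_nmul (m a : Nat) : rv (Nat.mul m a) = m * rv a := rv_nmul m a

/-- generic form of the check `k1lChk`; all numerals are variables -/
private theorem KNumK_k1l {k u6 r3h sh icl rslo vh ich el : Nat}
    {x s ic rs v e : ℝ} (h6 : rv u6 = 6) (hx : 0 ≤ x) (hs : 0 ≤ s) (hv : 0 ≤ v) (hic : 0 ≤ ic)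
    (hr3 : x ≤ rv r3h) (hsh : s ≤ rv sh) (hicl : rv icl ≤ ic) (hrs : rv rslo ≤ rs)
    (hvh : v ≤ rv vh) (hich : ic ≤ rv ich) (hel : rv el ≤ e)
    (h1 : Nat.ble (Nat.succ (Nat.div (Nat.mul 3 (mulU vh ich)) 2))
      (Nat.add rslo (Nat.div (mulD rslo icl) 2)) = true)
    (h2 : Nat.ble (Nat.succ (mulU k (Nat.sub (Nat.add u6 (mulU r3h sh))
      (Nat.div (Nat.mul 3 icl) 2))))
      (Nat.add (Nat.sub (Nat.add rslo (Nat.div (mulD rslo icl) 2))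
        (Nat.succ (Nat.div (Nat.mul 3 (mulU vh ich)) 2)))
        (Nat.mul 3 (mulD el (mulD k k)))) = true) :
    rv k * (6 + x * s - 3 / 2 * ic - 3 * e * rv k) < rs + rs * ic / 2 - 3 / 2 * (v * ic) := by
  have a1 := rv_lt h2
  have a2 := le_mulU k (Nat.sub (Nat.add u6 (mulU r3h sh)) (Nat.div (Nat.mul 3 icl) 2))
  have a3 := rv_sub_le (Nat.add u6 (mulU r3h sh)) (Nat.div (Nat.mul 3 icl) 2)
  rw [rv_add, h6] at a3
  have a4 := KNumK_mulU hs hr3 hsh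
  have a5 := rv_div_le (Nat.mul 3 icl) 2
  rw [rv_nmul] at a5
  have a6 : 6 + x * s - 3 / 2 * ic ≤ rv (Nat.sub (Nat.add u6 (mulU r3h sh))
      (Nat.div (Nat.mul 3 icl) 2)) := by
    push_cast at a5
    linarith
  have a7 := mul_le_mul_of_nonneg_left a6 (rv_nonneg k)
  rw [rv_add, rv_sub_eq (Nat.le_of_ble_eq_true h1), rv_add, rv_nmul] at a1
  have a8 := rv_div_le (mulD rslo icl) 2
  have a9 := KNumK_mulD hrs hicl
  have a10 := le_rv_div (Nat.mul 3 (mulU vh ich)) 2 (by norm_num)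
  rw [rv_nmul] at a10
  have a11 := KNumK_mulU hic hvh hich
  have a12 := KNumK_mulD hel (mulD_le k k)
  push_cast at a1 a8 a10
  have e1 : rv k * (6 + x * s - 3 / 2 * ic - 3 * e * rv k) =
      rv k * (6 + x * s - 3 / 2 * ic) - 3 * (e * (rv k * rv k)) := by ring
  rw [e1]
  linarith

private theorem KNumK_s0 {K : KEnv} {ε : ℝ} (hK : KEnvOK K ε) : 0 ≤ ks ε := hK.s.nonneg
private theorem KNumK_sk0 {K : KEnv} {ε : ℝ} (hK : KEnvOK K ε) : 0 ≤ ksk ε := hK.sk.nonneg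
private theorem KNumK_vk0 {K : KEnv} {ε : ℝ} (hK : KEnvOK K ε) : 0 ≤ kvk ε := hK.vk.nonneg
private theorem KNumK_ic0 {K : KEnv} {ε : ℝ} (hK : KEnvOK K ε) : 0 ≤ 1 / kc ε := hK.ic.nonneg

theorem k1lChk_ok {K : KEnv} {ε : ℝ} {k : Nat} (hK : KEnvOK K ε) (h : k1lChk K k = true) :
    rv k ≤ 3 ∧ rv k * (6 + Real.sqrt 3 * ks ε - 3 / 2 / kc ε - 3 * ε * rv k) <
      Real.sqrt 3 * ksk ε + Real.sqrt 3 / 2 * ksk ε / kc ε - 3 / 2 * kvk ε / kc ε := by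
  unfold k1lChk at h
  obtain ⟨h1, h2⟩ := KNumK_and h
  obtain ⟨h2, h3⟩ := KNumK_and h2
  refine ⟨(rv_le h1).trans_eq KNumK_3, ?_⟩
  have hrs : rv (PI.mul r3I K.sk).lo ≤ Real.sqrt 3 * ksk ε := (r3I_mem.mul hK.sk).1
  have key := KNumK_k1l (k := k) KNumK_6 (Real.sqrt_nonneg 3) (KNumK_s0 hK) (KNumK_vk0 hK)
    (KNumK_ic0 hK) KNumK_r3h hK.s.2 hK.ic.1 hrs hK.vk.2 hK.ic.2 hK.el h2 h3
  have e1 : 3 / 2 / kc ε = 3 / 2 * (1 / kc ε) := by ring
  have e2 : Real.sqrt 3 / 2 * ksk ε / kc ε = Real.sqrt 3 * ksk ε * (1 / kc ε) / 2 := by ring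
  have e3 : 3 / 2 * kvk ε / kc ε = 3 / 2 * (kvk ε * (1 / kc ε)) := by ring
  rw [e1, e2, e3]
  exact key

/-- generic truncated subtraction with positive result -/
private theorem KNumK_sub_pos {a b : Nat} (h : 1 ≤ Nat.sub a b) :
    rv (Nat.sub a b) = rv a - rv b := by
  apply rv_sub_eq
  by_contra hc
  have h0 : Nat.sub a b = 0 := Nat.sub_eq_zero_of_le (le_of_lt (not_le.1 hc))
  rw [h0] at h
  exact absurd h (by decide)

private theorem KNumK_c3l {K : KEnv} {ε : ℝ} (hK : KEnvOK K ε) :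
    rv (Nat.add (Nat.mul 6 K.t3.lo) (Nat.mul 12 (mulD K.t4.lo K.c.lo))) ≤
      6 * kt ε ^ 3 + 12 * kt ε ^ 4 * kc ε := by
  rw [rv_add, rv_nmul, rv_nmul]
  have h1 := hK.t3.1
  have h2 := KNumK_mulD hK.t4.1 hK.c.1
  push_cast
  linarith

private theorem KNumK_c3h {K : KEnv} {ε : ℝ} (hK : KEnvOK K ε) :
    6 * kt ε ^ 3 + 12 * kt ε ^ 4 * kc ε ≤
      rv (Nat.add (Nat.mul 6 K.t3.hi) (Nat.mul 12 (mulU K.t4.hi K.c.hi))) := by
  rw [rv_add, rv_nmul, rv_nmul]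
  have h1 := hK.t3.2
  have h2 := KNumK_mulU hK.c.nonneg hK.t4.2 hK.c.2
  push_cast
  linarith

private theorem KNumK_Ap {K : KEnv} {ε : ℝ} (hK : KEnvOK K ε) :
    rv (llAp K) ≤ 6 * kt ε + 12 * kt ε ^ 4 * kc ε := by
  rw [llAp, rv_add, rv_nmul, rv_nmul]
  have h1 := hK.t.1
  have h2 := KNumK_mulD hK.t4.1 hK.c.1
  push_cast
  linarith

private theorem KNumK_An {K : KEnv} {ε : ℝ} (hK : KEnvOK K ε) :
    72 * kt ε ^ 4 + (6 * kt ε ^ 3 + 12 * kt ε ^ 4 * kc ε) * (Real.sqrt 3 * (ks ε / kc ε))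
      + 1 / 10 ^ 6 ≤ rv (llAn K) := by
  rw [llAn, rv_add, rv_nmul, rv_add]
  have h1 := hK.t4.2
  have h2 := KNumK_c3h hK
  have e : ks ε / kc ε = ks ε * (1 / kc ε) := by ring
  have h3 := KNumK_mulU (KNumK_ic0 hK) hK.s.2 hK.ic.2
  rw [← e] at h3
  have h30 : 0 ≤ ks ε / kc ε := by
    rw [e]; exact mul_nonneg (KNumK_s0 hK) (KNumK_ic0 hK)
  have h4 := KNumK_mulU h30 KNumK_r3h h3
  have h40 : 0 ≤ Real.sqrt 3 * (ks ε / kc ε) := mul_nonneg (Real.sqrt_nonneg _) h30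
  have h5 := KNumK_mulU h40 h2 h4
  have h6 := KNumK_m6
  push_cast
  linarith

/-- generic form of the lower bound `LLlo` -/
private theorem KNumK_LL {k ap an c3l icl r3l skl vh t4l vl el m6 : Nat}
    {A B c3 ic x sk v t4 e m : ℝ} (hap : rv ap ≤ A) (han : B ≤ rv an) (hc3 : rv c3l ≤ c3)
    (hic : rv icl ≤ ic) (hx : rv r3l ≤ x) (hsk : rv skl ≤ sk) (hvh : v ≤ rv vh)
    (ht4 : rv t4l ≤ t4) (hvl : rv vl ≤ v) (hel : rv el ≤ e) (hm : m ≤ rv m6)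
    (h1 : Nat.ble an ap = true) (h2 : Nat.ble vh (mulD r3l skl) = true)
    (h3 : 1 ≤ Nat.sub (Nat.add (mulD k (Nat.sub ap an)) (Nat.add (mulD (mulD c3l icl)
      (Nat.sub (mulD r3l skl) vh))
      (Nat.add (Nat.mul 24 (mulD t4l vl)) (Nat.mul 36 (mulD t4l (mulD el (mulD k k))))))) m6) :
    rv (Nat.sub (Nat.add (mulD k (Nat.sub ap an)) (Nat.add (mulD (mulD c3l icl)
      (Nat.sub (mulD r3l skl) vh))
      (Nat.add (Nat.mul 24 (mulD t4l vl)) (Nat.mul 36 (mulD t4l (mulD el (mulD k k))))))) m6) ≤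
      rv k * (A - B) + (c3 * ic * (x * sk - v) + (24 * (t4 * v) +
        36 * (t4 * (e * (rv k * rv k))))) - m := by
  rw [KNumK_sub_pos h3, rv_add, rv_add, rv_add, rv_nmul, rv_nmul]
  have a1 : rv (Nat.sub ap an) ≤ A - B := by
    rw [rv_sub_eq (Nat.le_of_ble_eq_true h1)]; linarith
  have a2 := KNumK_mulD (le_refl (rv k)) a1
  have a3 := KNumK_mulD hx hsk
  have a4 : rv (Nat.sub (mulD r3l skl) vh) ≤ x * sk - v := by
    rw [rv_sub_eq (Nat.le_of_ble_eq_true h2)]; linarith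
  have a5 := KNumK_mulD (KNumK_mulD hc3 hic) a4
  have a6 := KNumK_mulD ht4 hvl
  have a7 := KNumK_mulD ht4 (KNumK_mulD hel (mulD_le k k))
  push_cast
  linarith

theorem LLlo_ok {K : KEnv} {ε : ℝ} {k : Nat} (hK : KEnvOK K ε) (h : llChk K = true)
    (h1 : 1 ≤ LLlo K k) : rv (LLlo K k) ≤ LLf ε (rv k) := by
  unfold llChk at h
  obtain ⟨h2, h3⟩ := KNumK_and h
  have key := KNumK_LL (k := k) (KNumK_Ap hK) (KNumK_An hK) (KNumK_c3l hK) hK.ic.1 KNumK_r3l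
    hK.sk.1 hK.vk.2 hK.t4.1 hK.vk.1 hK.el KNumK_m6 h2 h3 h1
  refine key.trans (le_of_eq ?_)
  unfold LLf
  ring

private theorem KNumK_two {a b c : Nat} (h : Nat.ble (Nat.add a 2) b = true)
    (hc : c ≤ Nat.add a 1) : c ≤ b ∧ rv a < rv b := by
  have h1 : a + 2 ≤ b := Nat.le_of_ble_eq_true h
  have h2 : c ≤ a + 1 := hc
  refine ⟨by omega, ?_⟩
  apply rv_lt
  apply Nat.ble_eq_true_of_le
  show a + 1 ≤ b
  omega

/-- generic form of the comparison in `k1hChk` -/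
private theorem KNumK_k1h {k2h m9 k1l m7 L : Nat} {K2 K1 z9 z7 z : ℝ} (h2 : K2 ≤ rv k2h)
    (h9 : z9 ≤ rv m9) (h1 : rv k1l ≤ K1) (h7 : z7 ≤ rv m7)
    (hb : Nat.ble m7 k1l = true)
    (h : Nat.ble (Nat.add (Nat.sub (Nat.mul 2 (Nat.add k2h m9)) (Nat.sub k1l m7)) 2) L = true)
    (hL : rv L ≤ z) : 2 * (K2 + z9) - (K1 - z7) < z := by
  have a1 := (KNumK_two (c := 1) h (Nat.le_add_left 1 _)).2
  have a2 := rv_sub_le (Nat.mul 2 (Nat.add k2h m9)) (Nat.sub k1l m7)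
  rw [rv_nmul, rv_add, rv_sub_eq (Nat.le_of_ble_eq_true hb)] at a2
  push_cast at a2
  linarith

private theorem KNumK_two_mul {el eh : Nat} {ε : ℝ} (h1 : rv el ≤ ε) (h2 : ε ≤ rv eh) :
    (PI.mk (Nat.mul 2 el) (Nat.mul 2 eh)).Mem (2 * ε) := by
  constructor
  · change rv (Nat.mul 2 el) ≤ _
    rw [rv_nmul]; push_cast; linarith
  · change _ ≤ rv (Nat.mul 2 eh)
    rw [rv_nmul]; push_cast; linarith

private theorem KNumK_le2 {a : Nat} (h : a ≤ 82463372083) : Nat.mul 2 a ≤ 164926744168 := by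
  have h1 : 2 * a ≤ 164926744168 := by omega
  exact h1

private theorem KNumK_le1 {a : Nat} (h : a ≤ 82463372083) : a ≤ 164926744168 := by omega

theorem k1hChk_ok {K : KEnv} {ε : ℝ} {k : Nat} (hK : KEnvOK K ε) (hel : K.eh ≤ 82463372083)
    (h : k1hChk K k = true) : rv k ≤ 2.4 ∧
      2 * (KHf (2 * ε) + 9 / 10 ^ 6) - (KHf ε - 1 / 10 ^ 7) < LLf ε (rv k) := by
  unfold k1hChk at h
  obtain ⟨hl, h⟩ := KNumK_and h
  obtain ⟨hk, h⟩ := KNumK_and h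
  obtain ⟨hb, h⟩ := KNumK_and h
  refine ⟨(rv_le hk).trans KNumK_24, ?_⟩
  have he0 := hK.e0
  have hK2 := KHn_mem (KNumK_two_mul hK.el hK.eh) (by linarith) (KNumK_le2 hel)
  have hK1 := KHn_mem (u := ⟨K.el, K.eh⟩) ⟨hK.el, hK.eh⟩ he0 (KNumK_le1 hel)
  have hL1 := (KNumK_two (c := 1) h (Nat.le_add_left 1 _)).1
  have hLL := LLlo_ok hK hl hL1
  exact KNumK_k1h hK2.2 KNumK_9m6 hK1.1 KNumK_m7 hb h hLL

/-- generic form of `k3hChk` -/
private theorem KNumK_k3h {k1h k3h cl rsh u12 el vl skl r3l : Nat} {c rs e v sk x : ℝ}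
    (h12 : rv u12 = 12) (hc : rv cl ≤ c) (hrs : rs ≤ rv rsh) (hel : rv el ≤ e)
    (hvl : rv vl ≤ v) (hsk : rv skl ≤ sk) (hx : rv r3l ≤ x)
    (h1 : Nat.ble (Nat.succ (Nat.sub (mulU k1h (Nat.sub (Nat.add u12 rsh) (Nat.mul 3 cl)))
      (Nat.add (Nat.mul 6 (mulD el (mulD k1h k1h)))
      (Nat.add (Nat.mul 4 vl) (Nat.mul 2 (mulD r3l skl)))))) (mulD k3h (Nat.sub cl rsh)) = true)
    (h2 : Nat.ble (Nat.succ rsh) cl = true) : rs < c ∧
      rv k1h * (12 - 3 * c + rs) - 6 * (e * (rv k1h * rv k1h)) - 4 * v - 2 * (x * sk) ≤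
        rv k3h * (c - rs) := by
  have b1 := rv_lt h2
  refine ⟨by linarith, ?_⟩
  have a1 := rv_lt h1
  have a2 := rv_sub_le (mulU k1h (Nat.sub (Nat.add u12 rsh) (Nat.mul 3 cl)))
    (Nat.add (Nat.mul 6 (mulD el (mulD k1h k1h)))
      (Nat.add (Nat.mul 4 vl) (Nat.mul 2 (mulD r3l skl))))
  rw [rv_add, rv_add, rv_nmul, rv_nmul, rv_nmul] at a2
  have a3 := le_mulU k1h (Nat.sub (Nat.add u12 rsh) (Nat.mul 3 cl))
  have a4 := rv_sub_le (Nat.add u12 rsh) (Nat.mul 3 cl)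
  rw [rv_add, rv_nmul, h12] at a4
  have a5 : 12 - 3 * c + rs ≤ rv (Nat.sub (Nat.add u12 rsh) (Nat.mul 3 cl)) := by
    push_cast at a4
    linarith
  have a6 := mul_le_mul_of_nonneg_left a5 (rv_nonneg k1h)
  have a7 := KNumK_mulD hel (mulD_le k1h k1h)
  have a8 := KNumK_mulD hx hsk
  have hle : rsh ≤ cl := (Nat.le_succ rsh).trans (Nat.le_of_ble_eq_true h2)
  have a9 : rv (Nat.sub cl rsh) ≤ c - rs := by
    rw [rv_sub_eq hle]; linarith
  have a10 := KNumK_mulD (le_refl (rv k3h)) a9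
  push_cast at a2
  linarith

theorem k3hChk_ok {K : KEnv} {ε : ℝ} {k1h k3h : Nat} (hK : KEnvOK K ε)
    (h : k3hChk K k1h k3h = true) : Real.sqrt 3 * ks ε < kc ε ∧
      rv k1h * (12 - 3 * kc ε + Real.sqrt 3 * ks ε) - 6 * ε * rv k1h ^ 2 - 4 * kvk ε
      - 2 * Real.sqrt 3 * ksk ε ≤ rv k3h * (kc ε - Real.sqrt 3 * ks ε) := by
  unfold k3hChk at h
  obtain ⟨h1, h2⟩ := KNumK_and h
  have hrs : Real.sqrt 3 * ks ε ≤ rv (PI.mul r3I K.s).hi := (r3I_mem.mul hK.s).2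
  have key := KNumK_k3h KNumK_12 hK.c.1 hrs hK.el hK.vk.1 hK.sk.1 KNumK_r3l h1 h2
  refine ⟨key.1, le_trans (le_of_eq ?_) key.2⟩
  ring

/-- generic form of `k4lChk` -/
private theorem KNumK_k4l {k1l k3h k4l cl ch rsh skl r3l : Nat} {c rs sk x : ℝ}
    (hc : rv cl ≤ c) (hc' : c ≤ rv ch) (hc0 : 0 ≤ c) (hrs0 : 0 ≤ rs) (hrs : rs ≤ rv rsh)
    (hlt : rs < c) (hsk : rv skl ≤ sk) (hx : rv r3l ≤ x)
    (h : Nat.ble (Nat.succ (Nat.add (mulU k3h (Nat.add ch rsh)) k4l))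
      (Nat.add (Nat.mul 2 (mulD r3l skl)) (mulD k1l (Nat.sub cl rsh))) = true) :
    rv k4l ≤ 2 * (x * sk) + rv k1l * (c - rs) - rv k3h * (c + rs) := by
  have a1 := rv_lt h
  rw [rv_add, rv_add, rv_nmul] at a1
  have a2 := le_mulU k3h (Nat.add ch rsh)
  rw [rv_add] at a2
  have a3 : rv k3h * (c + rs) ≤ rv k3h * (rv ch + rv rsh) :=
    mul_le_mul_of_nonneg_left (by linarith) (rv_nonneg _)
  have a4 := KNumK_mulD hx hsk
  have a5 : rv (Nat.sub cl rsh) ≤ c - rs := rv_sub_of_le (by linarith) (by linarith)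
  have a6 := KNumK_mulD (le_refl (rv k1l)) a5
  push_cast at a1
  linarith

theorem k4lChk_ok {K : KEnv} {ε : ℝ} {k1l k3h k4l : Nat} (hK : KEnvOK K ε)
    (h3 : Real.sqrt 3 * ks ε < kc ε) (h : k4lChk K k1l k3h k4l = true) :
    rv k4l ≤ 2 * Real.sqrt 3 * ksk ε + rv k1l * (kc ε - Real.sqrt 3 * ks ε)
      - rv k3h * (kc ε + Real.sqrt 3 * ks ε) := by
  unfold k4lChk at h
  have hrs : Real.sqrt 3 * ks ε ≤ rv (PI.mul r3I K.s).hi := (r3I_mem.mul hK.s).2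
  have hrs0 : 0 ≤ Real.sqrt 3 * ks ε := mul_nonneg (Real.sqrt_nonneg _) (KNumK_s0 hK)
  have key := KNumK_k4l hK.c.1 hK.c.2 hK.c.nonneg hrs0 hrs h3 hK.sk.1 KNumK_r3l h
  refine key.trans (le_of_eq ?_)
  ring

/-- generic form of `k7hChk` -/
private theorem KNumK_k7h {eh k1h k3h k7h pih : Nat} {ε p : ℝ} (hp : p ≤ rv pih) (hp0 : 0 ≤ p)
    (h1 : ε ≤ rv eh)
    (h : Nat.ble (mulU (Nat.add (Nat.add (sqU k3h) (sqU k1h)) (mulU pih (sqU (Nat.succ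
      (Nat.div eh 2))))) (Nat.add (Nat.add (sqU k3h) (sqU k1h)) (mulU pih (sqU (Nat.succ
      (Nat.div eh 2)))))) k7h = true) :
    (Real.sqrt (rv k3h) + Real.sqrt (rv k1h) + p * Real.sqrt (ε / 2)) ^ 2 ≤ rv k7h := by
  obtain ⟨s, hs⟩ : ∃ s : Nat, s = Nat.add (Nat.add (sqU k3h) (sqU k1h)) (mulU pih (sqU (Nat.succ
      (Nat.div eh 2)))) := ⟨_, rfl⟩
  rw [← hs] at h
  have a1 := le_sqU k3h
  have a2 := le_sqU k1h
  have a3 : ε / 2 ≤ rv (Nat.succ (Nat.div eh 2)) := by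
    have := le_rv_div eh 2 (by norm_num)
    push_cast at this
    linarith
  have a4 := (Real.sqrt_le_sqrt a3).trans (le_sqU _)
  have a5 := KNumK_mulU (Real.sqrt_nonneg _) hp a4
  have a6 : Real.sqrt (rv k3h) + Real.sqrt (rv k1h) + p * Real.sqrt (ε / 2) ≤ rv s := by
    rw [hs, rv_add, rv_add]
    linarith
  have a7 : 0 ≤ Real.sqrt (rv k3h) + Real.sqrt (rv k1h) + p * Real.sqrt (ε / 2) := by positivity
  rw [pow_two]
  exact (KNumK_mulU a7 a6 a6).trans (rv_le h)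

theorem k7hChk_ok {eh k1h k3h k7h : Nat} {ε : ℝ} (h0 : 0 ≤ ε) (h1 : ε ≤ rv eh)
    (h : k7hChk eh k1h k3h k7h = true) :
    (Real.sqrt (rv k3h) + Real.sqrt (rv k1h) + Real.pi * Real.sqrt (ε / 2)) ^ 2 ≤ rv k7h := by
  unfold k7hChk at h
  exact KNumK_k7h KNumK_pih Real.pi_pos.le h1 h

theorem kf_ok {B : KB} {el eh : Nat} (h : kfChk B el eh = true) {ε : ℝ} (h0 : 0 < ε)
    (h1 : rv el ≤ ε) (h2 : ε ≤ rv eh) :
    KNear ε (rv B.k1l) (rv B.k1h) (rv B.k3h) (rv B.k4l) (rv B.k7h) := by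
  unfold kfChk at h
  obtain ⟨ha, h⟩ := KNumK_and h
  obtain ⟨hb, h⟩ := KNumK_and h
  obtain ⟨hc, h⟩ := KNumK_and h
  obtain ⟨hd, h⟩ := KNumK_and h
  obtain ⟨he, hf⟩ := KNumK_and h
  have hK := kenv_ok ha h0 h1 h2
  have heh : eh ≤ 82463372083 := by
    unfold kenvChk at ha
    exact Nat.le_of_ble_eq_true (KNumK_and ha).2
  have heh' : (mkKEnv el eh).eh ≤ 82463372083 := heh
  obtain ⟨hk3, r1⟩ := k1lChk_ok hK hb
  obtain ⟨hk24, r2⟩ := k1hChk_ok hK heh' hc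
  obtain ⟨r3, r4⟩ := k3hChk_ok hK hd
  have r5 := k4lChk_ok hK r3 he
  have r6 := k7hChk_ok h0.le h2 hf
  have e1 := hK.e1
  exact knear_of h0 (by linarith) (rv_nonneg _) hk3 (rv_nonneg _) (by linarith) (rv_nonneg _)
    r1 r2 r3 r4 r5 r6

theorem kfs_ok {B : KB} {el eh : Nat} {l : List Nat} (h : kfsChk B el eh l = true) {ε : ℝ}
    (h0 : 0 < ε) (h1 : rv el ≤ ε) (h2 : ε < rv eh) :
    KNear ε (rv B.k1l) (rv B.k1h) (rv B.k3h) (rv B.k4l) (rv B.k7h) := by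
  induction l generalizing el with
  | nil =>
    have h3 := rv_le (show Nat.ble eh el = true from h)
    linarith
  | cons e l ih =>
    obtain ⟨ha, hb⟩ := KNumK_and (show and (kfChk B el e) (kfsChk B e eh l) = true from h)
    rcases le_total ε (rv e) with h3 | h3
    · exact kf_ok ha h0 h1 h3
    · exact ih hb h3

end MP7e122f.Num
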