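import Pool.Agent.Lib.MP_7e122f_anR.KBound
import Pool.Agent.Lib.MP_7e122f_anR.TPb
import Pool.Agent.Lib.MP_7e122f_anR.NormA
import Pool.Agent.Lib.MP_7e122f_anR.NormB

/-!
# The `κ` part

`w_k = cc (AA3) (AA1) (AA2) k`, `w_k^H = cc y y y k = t^N`.  `κ` is constant on the orbits of `e3`
and even.
`N = 7` (`sig = -1`, 4 orbits of three): `∑_orbit w - 3 w^H ≤ e^{-NH} ∑ (e^{-L} - 1 + L)
≤ ∑ L² e^{-NH} g(7ρ)`, `g(v) = (e^v - 1 - v)/v²`, `g(v) ≤ e^v/(2 (1 + 2v/3))` (power series,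
`orbit_g`), so `≤ (1/2) (2/3) 49 κ r² ϖ⁷/(1 + 14/3 ρ)`; `4 · 49/3 = 6 · 98/9`.
-/

namespace MP7e122f.R

private theorem KP_mono {f f' : ℝ → ℝ} (hd : ∀ u, HasDerivAt f (f' u) u) (h0 : f 0 = 0)
    (hf : ∀ u, 0 ≤ u → 0 ≤ f' u) {v : ℝ} (hv : 0 ≤ v) : 0 ≤ f v := by
  have hmono : MonotoneOn f (Set.Ici 0) := by
    apply monotoneOn_of_deriv_nonneg (convex_Ici 0)
    · exact fun u _ => (hd u).continuousAt.continuousWithinAt
    · exact fun u _ => (hd u).differentiableAt.differentiableWithinAt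
    · intro u hu
      rw [interior_Ici] at hu
      rw [(hd u).deriv]
      exact hf u (le_of_lt hu)
  have h := hmono (Set.mem_Ici.2 (le_refl 0)) (Set.mem_Ici.2 hv) hv
  rwa [h0] at h

theorem orbit_g {v : ℝ} (hv : 0 ≤ v) :
    (Real.exp v - 1 - v) * (2 + 4 / 3 * v) ≤ v ^ 2 * Real.exp v := by
  -- third derivative
  have hpoly : ∀ (a b c u : ℝ), HasDerivAt (fun u : ℝ => Real.exp u * (a * u ^ 2 + b * u + c))
      (Real.exp u * (a * u ^ 2 + (b + 2 * a) * u + (c + b))) u := by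
    intro a b c u
    have h1 : HasDerivAt (fun u : ℝ => a * u ^ 2 + b * u + c) (a * (2 * u) + b) u := by
      have h2 : HasDerivAt (fun u : ℝ => a * u ^ 2) (a * (2 * u)) u := by
        simpa using (hasDerivAt_pow 2 u).const_mul a
      have h3 : HasDerivAt (fun u : ℝ => b * u) b u := by
        simpa using (hasDerivAt_id u).const_mul b
      exact (h2.add h3).add_const c
    refine ((Real.hasDerivAt_exp u).mul h1).congr_deriv ?_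
    ring
  have hlin : ∀ (a b u : ℝ), HasDerivAt (fun u : ℝ => a * u + b) a u := by
    intro a b u
    have h3 : HasDerivAt (fun u : ℝ => a * u) a u := by
      simpa using (hasDerivAt_id u).const_mul a
    exact h3.add_const b
  have hquad : ∀ (a b c u : ℝ), HasDerivAt (fun u : ℝ => a * u ^ 2 + b * u + c) (2 * a * u + b) u := by
    intro a b c u
    have h2 : HasDerivAt (fun u : ℝ => a * u ^ 2) (a * (2 * u)) u := by
      simpa using (hasDerivAt_pow 2 u).const_mul a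
    have h3 : HasDerivAt (fun u : ℝ => b * u) b u := by
      simpa using (hasDerivAt_id u).const_mul b
    refine ((h2.add h3).add_const c).congr_deriv ?_
    ring
  -- F'' ≥ 0
  have s2 : ∀ u : ℝ, 0 ≤ u → 0 ≤ Real.exp u * (1 * u ^ 2 + 8 / 3 * u + (-(8 / 3))) + 8 / 3 := by
    intro u hu
    refine KP_mono (f := fun u => Real.exp u * (1 * u ^ 2 + 8 / 3 * u + (-(8 / 3))) + 8 / 3)
      (f' := fun u => Real.exp u * (1 * u ^ 2 + (8 / 3 + 2 * 1) * u + (-(8 / 3) + 8 / 3))) ?_ ?_ ?_ hu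
    · intro u
      exact (hpoly 1 (8 / 3) (-(8 / 3)) u).add_const _
    · norm_num
    · intro u hu
      have := Real.exp_pos u
      have h1 : 1 * u ^ 2 + (8 / 3 + 2 * 1) * u + (-(8 / 3) + 8 / 3) = u ^ 2 + 14 / 3 * u := by ring
      rw [h1]
      positivity
  -- F' ≥ 0
  have s1 : ∀ u : ℝ, 0 ≤ u → 0 ≤ Real.exp u * (1 * u ^ 2 + 2 / 3 * u + (-(10 / 3))) + (8 / 3 * u + 10 / 3) := by
    intro u hu
    refine KP_mono (f := fun u => Real.exp u * (1 * u ^ 2 + 2 / 3 * u + (-(10 / 3))) + (8 / 3 * u + 10 / 3))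
      (f' := fun u => Real.exp u * (1 * u ^ 2 + (2 / 3 + 2 * 1) * u + (-(10 / 3) + 2 / 3)) + 8 / 3) ?_ ?_ ?_ hu
    · intro u
      exact (hpoly 1 (2 / 3) (-(10 / 3)) u).add (hlin (8 / 3) (10 / 3) u)
    · norm_num
    · intro u hu
      have h1 := s2 u hu
      have h2 : Real.exp u * (1 * u ^ 2 + (2 / 3 + 2 * 1) * u + (-(10 / 3) + 2 / 3)) + 8 / 3 =
          Real.exp u * (1 * u ^ 2 + 8 / 3 * u + (-(8 / 3))) + 8 / 3 := by ring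
      rw [h2]
      exact h1
  -- F ≥ 0, `F u = u² e^u - (e^u - 1 - u)(2 + 4u/3)`
  have s0 : 0 ≤ Real.exp v * (1 * v ^ 2 + (-(4 / 3)) * v + (-2)) + (4 / 3 * v ^ 2 + 10 / 3 * v + 2) := by
    refine KP_mono (f := fun u => Real.exp u * (1 * u ^ 2 + (-(4 / 3)) * u + (-2)) + (4 / 3 * u ^ 2 + 10 / 3 * u + 2))
      (f' := fun u => Real.exp u * (1 * u ^ 2 + (-(4 / 3) + 2 * 1) * u + (-2 + -(4 / 3))) + (2 * (4 / 3) * u + 10 / 3)) ?_ ?_ ?_ hv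
    · intro u
      exact (hpoly 1 (-(4 / 3)) (-2) u).add (hquad (4 / 3) (10 / 3) 2 u)
    · norm_num
    · intro u hu
      have h1 := s1 u hu
      have h2 : Real.exp u * (1 * u ^ 2 + (-(4 / 3) + 2 * 1) * u + (-2 + -(4 / 3))) + (2 * (4 / 3) * u + 10 / 3) =
          Real.exp u * (1 * u ^ 2 + 2 / 3 * u + (-(10 / 3))) + (8 / 3 * u + 10 / 3) := by ring
      rw [h2]
      exact h1
  nlinarith [s0]

/-- `exp (θ s) - 1 - θ s ≤ θ² (exp s - 1 - s)` for `0 ≤ θ ≤ 1`, `0 ≤ s` -/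
private theorem KP_aux2 {θ s : ℝ} (hθ : 0 ≤ θ) (hθ1 : θ ≤ 1) (hs : 0 ≤ s) :
    Real.exp (θ * s) - 1 - θ * s ≤ θ ^ 2 * (Real.exp s - 1 - s) := by
  have h := KP_mono (f := fun u : ℝ => θ ^ 2 * (Real.exp u - 1 - u) - (Real.exp (θ * u) - 1 - θ * u))
    (f' := fun u => θ ^ 2 * (Real.exp u - 1) - (Real.exp (θ * u) * θ - θ)) ?_ ?_ ?_ hs
  · linarith
  · intro u
    have h1 : HasDerivAt (fun u : ℝ => Real.exp u - 1 - u) (Real.exp u - 1) u :=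
      ((Real.hasDerivAt_exp u).sub_const 1).sub (hasDerivAt_id u)
    have h0 : HasDerivAt (fun u : ℝ => θ * u) θ u := by
      simpa using (hasDerivAt_id u).const_mul θ
    have h2 : HasDerivAt (fun u : ℝ => Real.exp (θ * u) - 1 - θ * u) (Real.exp (θ * u) * θ - θ) u :=
      ((h0.exp).sub_const 1).sub h0
    exact (h1.const_mul (θ ^ 2)).sub h2
  · norm_num
  · intro u _
    have hc := convexOn_exp.2 (Set.mem_univ (0 : ℝ)) (Set.mem_univ u)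
      (by linarith : 0 ≤ 1 - θ) hθ (by ring)
    simp only [smul_eq_mul, mul_zero, zero_add, Real.exp_zero, mul_one] at hc
    nlinarith

/-- `(exp (-d) - 1 + d) s² ≤ d² (exp s - 1 - s)` for `|d| ≤ s` -/
private theorem KP_aux3 {d s : ℝ} (hd : |d| ≤ s) (hs : 0 < s) :
    Real.exp (-d) - 1 + d ≤ d ^ 2 / s ^ 2 * (Real.exp s - 1 - s) := by
  have h1 : Real.exp (-d) - 1 + d ≤ Real.exp |d| - 1 - |d| := by
    rcases le_total 0 d with h0 | h0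
    · rw [abs_of_nonneg h0]
      have h := Real.self_le_sinh_iff.2 h0
      rw [Real.sinh_eq] at h
      linarith
    · rw [abs_of_nonpos h0]
      linarith
  have h2 := KP_aux2 (θ := |d| / s) (s := s) (by positivity) ((div_le_one hs).2 hd) hs.le
  rw [div_mul_cancel₀ _ hs.ne', div_pow, sq_abs] at h2
  linarith

private theorem KP_orb {d1 d2 d3 s : ℝ} (h0 : d1 + d2 + d3 = 0)
    (h2 : d1 ^ 2 + d2 ^ 2 + d3 ^ 2 = 3 / 2 * s ^ 2) (hs : 0 ≤ s) (b1 : |d1| ≤ s) (b2 : |d2| ≤ s)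
    (b3 : |d3| ≤ s) :
    Real.exp (-d1) + Real.exp (-d2) + Real.exp (-d3) - 3 ≤
      3 / 4 * s ^ 2 * Real.exp s / (1 + 2 / 3 * s) := by
  have hden : 0 < 1 + 2 / 3 * s := by positivity
  rcases hs.eq_or_lt with hs0 | hs0
  · subst hs0
    have z1 : d1 = 0 := abs_nonpos_iff.1 b1
    have z2 : d2 = 0 := abs_nonpos_iff.1 b2
    have z3 : d3 = 0 := abs_nonpos_iff.1 b3
    rw [z1, z2, z3]
    norm_num
  · have e1 := KP_aux3 b1 hs0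
    have e2 := KP_aux3 b2 hs0
    have e3 := KP_aux3 b3 hs0
    have hsum : d1 ^ 2 / s ^ 2 * (Real.exp s - 1 - s) + d2 ^ 2 / s ^ 2 * (Real.exp s - 1 - s) +
        d3 ^ 2 / s ^ 2 * (Real.exp s - 1 - s) = 3 / 2 * (Real.exp s - 1 - s) := by
      have : d1 ^ 2 / s ^ 2 * (Real.exp s - 1 - s) + d2 ^ 2 / s ^ 2 * (Real.exp s - 1 - s) +
        d3 ^ 2 / s ^ 2 * (Real.exp s - 1 - s) =
          (d1 ^ 2 + d2 ^ 2 + d3 ^ 2) / s ^ 2 * (Real.exp s - 1 - s) := by ring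
      rw [this, h2, mul_div_assoc, div_self (by positivity), mul_one]
    have hg := orbit_g hs
    have hfin : 3 / 2 * (Real.exp s - 1 - s) ≤ 3 / 4 * s ^ 2 * Real.exp s / (1 + 2 / 3 * s) := by
      rw [le_div_iff₀ hden]
      linarith
    linarith

private theorem KP_Nf_real (k : ℤ × ℤ) :
    (Nf k : ℝ) = (k.1 : ℝ) ^ 2 + k.1 * k.2 + (k.2 : ℝ) ^ 2 := by
  unfold Nf; push_cast; ring

private theorem KP_Nf_nonneg (k : ℤ × ℤ) : 0 ≤ (Nf k : ℝ) := by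
  rw [KP_Nf_real]
  nlinarith [sq_nonneg ((k.1 : ℝ) + k.2), sq_nonneg (k.1 : ℝ), sq_nonneg (k.2 : ℝ)]

private theorem KP_toNat (k : ℤ × ℤ) : (((Nf k).toNat : ℕ) : ℝ) = (Nf k : ℝ) := by
  have h : 0 ≤ Nf k := by exact_mod_cast KP_Nf_nonneg k
  have h2 : (((Nf k).toNat : ℕ) : ℤ) = Nf k := Int.toNat_of_nonneg h
  exact_mod_cast h2

/-- Cauchy-Schwarz for the linear form, with the three coefficients in any order -/
private theorem KP_lin {x1 x2 x3 ρ : ℝ} (hs : x1 + x2 + x3 = 0) (hρ0 : 0 ≤ ρ)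
    (hρ : ρ ^ 2 = 2 / 3 * (x1 ^ 2 + x2 ^ 2 + x3 ^ 2)) (k : ℤ × ℤ) :
    |x1 * (k.2 : ℝ) ^ 2 + x2 * ((k.1 : ℝ) + k.2) ^ 2 + x3 * (k.1 : ℝ) ^ 2| ≤ Nf k * ρ := by
  have hN := KP_Nf_nonneg k
  have h0 : 0 ≤ Nf k * ρ := mul_nonneg hN hρ0
  rw [← abs_of_nonneg h0]
  apply sq_le_sq.1
  rw [mul_pow, hρ, KP_Nf_real]
  obtain ⟨a, ha⟩ : ∃ a : ℝ, a = k.1 := ⟨_, rfl⟩
  obtain ⟨b, hb⟩ : ∃ b : ℝ, b = k.2 := ⟨_, rfl⟩
  rw [← ha, ← hb]
  have hx3 : x3 = -x1 - x2 := by linarith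
  subst hx3
  have key : (a ^ 2 + a * b + b ^ 2) ^ 2 * (2 / 3 * (x1 ^ 2 + x2 ^ 2 + (-x1 - x2) ^ 2)) -
      (x1 * b ^ 2 + x2 * (a + b) ^ 2 + (-x1 - x2) * a ^ 2) ^ 2 =
      1 / 3 * (x1 * (2 * (a + b) ^ 2 - (b ^ 2 + a ^ 2)) - x2 * (2 * b ^ 2 - ((a + b) ^ 2 + a ^ 2))) ^ 2 := by
    ring
  have h1 := sq_nonneg (x1 * (2 * (a + b) ^ 2 - (b ^ 2 + a ^ 2)) - x2 * (2 * b ^ 2 - ((a + b) ^ 2 + a ^ 2)))
  linarith

/-- one sided orbit bound -/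
theorem orbit_w_upper {y r p : ℝ} (hy : 0.9 ≤ y) (hy2 : y ≤ 1.1) (hr : 0 < r) (hp0 : 0 ≤ p)
    (hp1 : p ≤ 1) (hle : hh y r p ≤ rho r p) (hv : vpi y r p ≤ 1 / 4) (k : ℤ × ℤ) :
    cc (AA3 y r p) (AA1 y r p) (AA2 y r p) k + cc (AA3 y r p) (AA1 y r p) (AA2 y r p) (e3 k)
      + cc (AA3 y r p) (AA1 y r p) (AA2 y r p) (e3.symm k) - 3 * cc y y y k ≤
      1 / 3 * (Nf k) ^ 2 * (kap p * r ^ 2) * vpi y r p ^ (Nf k).toNat
        / (1 + 2 / 3 * (Nf k * rho r p)) := by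
  have P := TP_norm hy hr hp0 hp1 (by linarith) hle
  have hy0 := P.hy
  obtain ⟨_, _, _, b4, b5, b6, b7⟩ := AA_basic hy0 hr hp0 hp1
  have hhpos : 0 ≤ hh y r p := by
    unfold hh
    positivity
  have hN := KP_Nf_nonneg k
  have hρ0 := P.hρ0
  obtain ⟨H, hHd⟩ : ∃ H : ℝ, H = 2 * y * chh y r p := ⟨_, rfl⟩
  obtain ⟨ρ, hρd⟩ : ∃ ρ : ℝ, ρ = rho r p := ⟨_, rfl⟩
  have hρ := P.hρ
  have hHeq := P.hH
  have hx := P.hx
  rw [← hHd] at hρ hHeq hx b4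
  rw [← hρd] at hρ hρ0 hx ⊢
  have hH2 : 2 * y ≤ H := by linarith
  have hkr : kap p * r ^ 2 = 9 / 4 * ρ ^ 2 := by
    rw [hρd]
    unfold rho
    rw [mul_pow, mul_pow, Real.sq_sqrt b6.le]
    ring
  rw [cc_e3, cc_e3_symm]
  obtain ⟨A1, hA1⟩ : ∃ A : ℝ, A = AA1 y r p := ⟨_, rfl⟩
  obtain ⟨A2, hA2⟩ : ∃ A : ℝ, A = AA2 y r p := ⟨_, rfl⟩
  obtain ⟨A3, hA3⟩ : ∃ A : ℝ, A = AA3 y r p := ⟨_, rfl⟩
  rw [← hA1, ← hA2, ← hA3] at hρ hHeq ⊢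
  obtain ⟨x1, hx1⟩ : ∃ x1, x1 = A1 - H / 2 := ⟨_, rfl⟩
  obtain ⟨x2, hx2⟩ : ∃ x2, x2 = A2 - H / 2 := ⟨_, rfl⟩
  obtain ⟨x3, hx3⟩ : ∃ x3, x3 = A3 - H / 2 := ⟨_, rfl⟩
  have hs : x1 + x2 + x3 = 0 := by rw [hx1, hx2, hx3]; linarith
  have hr' : ρ ^ 2 = 2 / 3 * (x1 ^ 2 + x2 ^ 2 + x3 ^ 2) := by rw [hx1, hx2, hx3]; exact hρ
  obtain ⟨d1, hd1⟩ : ∃ d1, d1 = x1 * (k.2 : ℝ) ^ 2 + x2 * ((k.1 : ℝ) + k.2) ^ 2 + x3 * (k.1 : ℝ) ^ 2 :=
    ⟨_, rfl⟩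
  obtain ⟨d2, hd2⟩ : ∃ d2, d2 = x2 * (k.2 : ℝ) ^ 2 + x3 * ((k.1 : ℝ) + k.2) ^ 2 + x1 * (k.1 : ℝ) ^ 2 :=
    ⟨_, rfl⟩
  obtain ⟨d3, hd3⟩ : ∃ d3, d3 = x3 * (k.2 : ℝ) ^ 2 + x1 * ((k.1 : ℝ) + k.2) ^ 2 + x2 * (k.1 : ℝ) ^ 2 :=
    ⟨_, rfl⟩
  have c1 : |d1| ≤ Nf k * ρ := by rw [hd1]; exact KP_lin hs hρ0 hr' k
  have c2 : |d2| ≤ Nf k * ρ := by
    rw [hd2]; exact KP_lin (by linarith) hρ0 (by rw [hr']; ring) k
  have c3 : |d3| ≤ Nf k * ρ := by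
    rw [hd3]; exact KP_lin (by linarith) hρ0 (by rw [hr']; ring) k
  have hsum : d1 + d2 + d3 = 0 := by
    rw [hd1, hd2, hd3]
    linear_combination ((k.2 : ℝ) ^ 2 + ((k.1 : ℝ) + k.2) ^ 2 + (k.1 : ℝ) ^ 2) * hs
  have hsq : d1 ^ 2 + d2 ^ 2 + d3 ^ 2 = 3 / 2 * (Nf k * ρ) ^ 2 := by
    rw [mul_pow, hr', KP_Nf_real, hd1, hd2, hd3]
    have hx3' : x3 = -x1 - x2 := by linarith
    rw [hx3']
    ring
  have key := KP_orb hsum hsq (s := Nf k * ρ) (by positivity) c1 c2 c3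
  have e1 : cc A3 A1 A2 k = Real.exp (-(Nf k * H)) * Real.exp (-d1) := by
    unfold cc
    rw [← Real.exp_add, KP_Nf_real, hd1, hx1, hx2, hx3]
    congr 1
    ring
  have e2 : cc A1 A2 A3 k = Real.exp (-(Nf k * H)) * Real.exp (-d2) := by
    unfold cc
    rw [← Real.exp_add, KP_Nf_real, hd2, hx1, hx2, hx3]
    congr 1
    ring
  have e3' : cc A2 A3 A1 k = Real.exp (-(Nf k * H)) * Real.exp (-d3) := by
    unfold cc
    rw [← Real.exp_add, KP_Nf_real, hd3, hx1, hx2, hx3]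
    congr 1
    ring
  have e4 : cc y y y k = Real.exp (-(Nf k * (2 * y))) := by
    unfold cc
    congr 1
    rw [KP_Nf_real]
    ring
  have e5 : vpi y r p ^ (Nf k).toNat = Real.exp (-(Nf k * H)) * Real.exp (Nf k * ρ) := by
    rw [hx, ← Real.exp_nat_mul, KP_toNat, ← Real.exp_add]
    congr 1
    ring
  rw [e1, e2, e3', e4, e5, hkr]
  have hE0 := Real.exp_pos (-((Nf k : ℝ) * H))
  have u1 : Real.exp (-(Nf k * H)) ≤ Real.exp (-(Nf k * (2 * y))) := by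
    apply Real.exp_le_exp.2
    have := mul_le_mul_of_nonneg_left hH2 hN
    linarith
  have k1 := mul_le_mul_of_nonneg_left key hE0.le
  have e6 : 1 / 3 * (Nf k : ℝ) ^ 2 * (9 / 4 * ρ ^ 2) * (Real.exp (-(Nf k * H)) * Real.exp (Nf k * ρ))
        / (1 + 2 / 3 * (Nf k * ρ)) =
      Real.exp (-(Nf k * H)) * (3 / 4 * (Nf k * ρ) ^ 2 * Real.exp (Nf k * ρ) / (1 + 2 / 3 * (Nf k * ρ))) := by
    ring
  rw [e6]
  linarith

end MP7e122f.R
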