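import Pool.Agent.Lib.MP_7e122f_anR.KP

/-!
# The `κ` part (conclusion; see the comments in `KP`)
-/

namespace MP7e122f.R

private lemma KP2_mem (k : ℤ × ℤ) : k ∈ F19 ↔ Nf k < 7 := by
  constructor
  · intro h
    have h' : ∀ k ∈ F19, Nf k < 7 := by decide
    exact h' k h
  · intro h
    by_contra hk
    have := Nf_ge_seven hk
    omega

private lemma KP2_Nf_e3 (k : ℤ × ℤ) : Nf (e3 k) = Nf k := by
  simp only [Nf, e3, Equiv.coe_fn_mk]
  ring

private lemma KP2_Nf_e3s (k : ℤ × ℤ) : Nf (e3.symm k) = Nf k := by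
  simp only [Nf, e3, Equiv.coe_fn_symm_mk]
  ring

private lemma KP2_sig (k : ℤ × ℤ) : sig k = if Even (Nf k) then 1 else -1 := by
  unfold sig
  have h : (Even k.1 ∧ Even k.2) ↔ Even (Nf k) := by
    unfold Nf
    constructor
    · rintro ⟨h1, h2⟩
      have a : Even (k.1 ^ 2) := h1.pow_of_ne_zero (by norm_num)
      have b : Even (k.1 * k.2) := h1.mul_right _
      have c : Even (k.2 ^ 2) := h2.pow_of_ne_zero (by norm_num)
      exact (a.add b).add c
    · intro h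
      rcases Int.even_or_odd k.1 with h1 | h1 <;> rcases Int.even_or_odd k.2 with h2 | h2
      · exact ⟨h1, h2⟩
      · exfalso
        have a : Even (k.1 ^ 2) := h1.pow_of_ne_zero (by norm_num)
        have b : Even (k.1 * k.2) := h1.mul_right _
        have c : Odd (k.2 ^ 2) := h2.pow
        exact (Int.not_even_iff_odd.2 ((a.add b).add_odd c)) h
      · exfalso
        have a : Odd (k.1 ^ 2) := h1.pow
        have b : Even (k.1 * k.2) := h2.mul_left _
        have c : Even (k.2 ^ 2) := h2.pow_of_ne_zero (by norm_num)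
        exact (Int.not_even_iff_odd.2 ((a.add_even b).add_even c)) h
      · exfalso
        have a : Odd (k.1 ^ 2) := h1.pow
        have b : Odd (k.1 * k.2) := h1.mul h2
        have c : Odd (k.2 ^ 2) := h2.pow
        exact (Int.not_even_iff_odd.2 ((a.add_odd b).add_odd c)) h
  simp only [h]

private lemma KP2_Nf_nonneg (k : ℤ × ℤ) : 0 ≤ Nf k := by
  unfold Nf
  nlinarith [sq_nonneg (2 * k.1 + k.2), sq_nonneg k.2]

private lemma KP2_two_pow (n : ℕ) (hn : 19 ≤ n) : (n : ℝ) ^ 2 ≤ 361 / 2 ^ 19 * 2 ^ n := by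
  induction n, hn using Nat.le_induction with
  | base => norm_num
  | succ n hn ih =>
    have hn' : (19 : ℝ) ≤ n := by exact_mod_cast hn
    push_cast
    rw [pow_succ (2 : ℝ) n]
    nlinarith

private lemma KP2_shell_exact {y r p : ℝ} (hy : 0 < y) (hr : 0 < r) (hp0 : 0 ≤ p)
    (hp1 : p ≤ 1) (κ : ℤ × ℤ → ℝ) (κ1 κ3 κ4 : ℝ) (k1 : ∀ k ∈ S1, κ k = κ1)
    (k3 : ∀ k ∈ S3, κ k = κ3) (k4 : ∀ k ∈ S4, κ k = κ4) :
    ∑ k ∈ F19, (cc (AA3 y r p) (AA1 y r p) (AA2 y r p) k - cc y y y k) * ((sig k : ℝ) * κ k) =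
      kap p * r ^ 2 * (-(2 * Real.exp (-(2 * y)) * κ1 * D1 y r p)
        - 2 * Real.exp (-(2 * y)) ^ 3 * κ3 * D3 y r p
        + 2 * Real.exp (-(2 * y)) ^ 4 * κ4 * D4 y r p) := by
  obtain ⟨-, -, -, hHy, -, hk0, -⟩ := AA_basic hy hr hp0 hp1
  obtain ⟨H, hH⟩ : ∃ H, H = 2 * y * chh y r p := ⟨_, rfl⟩
  obtain ⟨h, hh'⟩ : ∃ h, h = hh y r p := ⟨_, rfl⟩
  obtain ⟨K, hK⟩ : ∃ K, K = kap p * r ^ 2 := ⟨_, rfl⟩
  have hK0 : 0 < K := by rw [hK]; positivity
  have hK0' : K ≠ 0 := hK0.ne'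
  have hHh : H = 2 * y + h := by rw [hH, hh']; linarith
  have a1 : AA1 y r p = H / 2 + xx1 r p := by rw [hH]; unfold AA1; ring
  have a2 : AA2 y r p = H / 2 + xx2 r p := by rw [hH]; unfold AA2; ring
  have a3 : AA3 y r p = H / 2 + xx3 r p := by rw [hH]; unfold AA3; ring
  have x2e : xx2 r p = -xx1 r p - xx3 r p := by unfold xx1 xx2 xx3; ring
  obtain ⟨t, ht⟩ : ∃ t, t = Real.exp (-(2 * y)) := ⟨_, rfl⟩
  have eT : ∀ x T : ℝ, T = Real.exp (x - h) → Real.exp (-(H - x)) = t * T := by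
    intro x T hT
    rw [hT, ht, ← Real.exp_add, hHh]; congr 1; ring
  have eO : ∀ x T : ℝ, T = Real.exp (-(3 * (x + h))) → Real.exp (-(3 * (H + x))) = t ^ 3 * T := by
    intro x T hT
    rw [hT, ht, ← Real.exp_nat_mul, ← Real.exp_add, hHh]; congr 1; push_cast; ring
  have eT4 : ∀ x T : ℝ, T = Real.exp (x - h) → Real.exp (-(4 * (H - x))) = t ^ 4 * T ^ 4 := by
    intro x T hT
    rw [hT, ht, ← Real.exp_nat_mul, ← Real.exp_nat_mul, ← Real.exp_add, hHh]
    congr 1; push_cast; ring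
  have hT1 : T1 y r p = Real.exp (xx1 r p - h) := by rw [hh']; rfl
  have hT2 : T2 y r p = Real.exp (xx2 r p - h) := by rw [hh']; rfl
  have hT3 : T3 y r p = Real.exp (xx3 r p - h) := by rw [hh']; rfl
  have hO1 : O1 y r p = Real.exp (-(3 * (xx1 r p + h))) := by rw [hh']; rfl
  have hO2 : O2 y r p = Real.exp (-(3 * (xx2 r p + h))) := by rw [hh']; rfl
  have hO3 : O3 y r p = Real.exp (-(3 * (xx3 r p + h))) := by rw [hh']; rfl
  have t3 : Real.exp (-(6 * y)) = t ^ 3 := by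
    rw [ht, ← Real.exp_nat_mul]; congr 1; push_cast; ring
  have t4 : Real.exp (-(8 * y)) = t ^ 4 := by
    rw [ht, ← Real.exp_nat_mul]; congr 1; push_cast; ring
  obtain ⟨g, hg⟩ : ∃ g : ℤ × ℤ → ℝ, g = fun k =>
    (cc (AA3 y r p) (AA1 y r p) (AA2 y r p) k - cc y y y k) * ((sig k : ℝ) * κ k) := ⟨_, rfl⟩
  have gval : ∀ (k : ℤ × ℤ) (s : ℤ) (c E E' : ℝ), sig k = s → κ k = c →
      (H / 2 + xx3 r p) * k.1 ^ 2 + (H / 2 + xx1 r p) * k.2 ^ 2
        + (H / 2 + xx2 r p) * (k.1 + k.2) ^ 2 = E →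
      y * k.1 ^ 2 + y * k.2 ^ 2 + y * (k.1 + k.2) ^ 2 = E' →
      g k = (Real.exp (-E) - Real.exp (-E')) * ((s : ℝ) * c) := by
    intro k s c E E' h1 h2 h3 h4
    rw [hg]
    simp only [h1, h2]
    unfold cc
    rw [a1, a2, a3, h3, h4]
  have v00 : g (0, 0) = 0 := by
    rw [gval (0, 0) 1 (κ (0, 0)) 0 0 (by decide) rfl (by push_cast; ring) (by push_cast; ring)]
    ring
  have v1 : ∀ k : ℤ × ℤ, k = (1, 0) ∨ k = (-1, 0) → g k = -((t * T1 y r p - t) * κ1) := by
    rintro k (rfl | rfl)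
    · rw [gval (1, 0) (-1) κ1 (H - xx1 r p) (2 * y) (by decide) (k1 _ (by decide))
        (by rw [x2e]; push_cast; ring) (by push_cast; ring), eT _ _ hT1, ← ht]
      push_cast
      ring
    · rw [gval (-1, 0) (-1) κ1 (H - xx1 r p) (2 * y) (by decide) (k1 _ (by decide))
        (by rw [x2e]; push_cast; ring) (by push_cast; ring), eT _ _ hT1, ← ht]
      push_cast
      ring
  have v2 : ∀ k : ℤ × ℤ, k = (0, 1) ∨ k = (0, -1) → g k = -((t * T3 y r p - t) * κ1) := by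
    rintro k (rfl | rfl)
    · rw [gval (0, 1) (-1) κ1 (H - xx3 r p) (2 * y) (by decide) (k1 _ (by decide))
        (by rw [x2e]; push_cast; ring) (by push_cast; ring), eT _ _ hT3, ← ht]
      push_cast
      ring
    · rw [gval (0, -1) (-1) κ1 (H - xx3 r p) (2 * y) (by decide) (k1 _ (by decide))
        (by rw [x2e]; push_cast; ring) (by push_cast; ring), eT _ _ hT3, ← ht]
      push_cast
      ring
  have v3 : ∀ k : ℤ × ℤ, k = (1, -1) ∨ k = (-1, 1) → g k = -((t * T2 y r p - t) * κ1) := by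
    rintro k (rfl | rfl)
    · rw [gval (1, -1) (-1) κ1 (H - xx2 r p) (2 * y) (by decide) (k1 _ (by decide))
        (by rw [x2e]; push_cast; ring) (by push_cast; ring), eT _ _ hT2, ← ht]
      push_cast
      ring
    · rw [gval (-1, 1) (-1) κ1 (H - xx2 r p) (2 * y) (by decide) (k1 _ (by decide))
        (by rw [x2e]; push_cast; ring) (by push_cast; ring), eT _ _ hT2, ← ht]
      push_cast
      ring
  have w1 : ∀ k : ℤ × ℤ, k = (1, 1) ∨ k = (-1, -1) → g k = -((t ^ 3 * O2 y r p - t ^ 3) * κ3) := by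
    rintro k (rfl | rfl)
    · rw [gval (1, 1) (-1) κ3 (3 * (H + xx2 r p)) (6 * y) (by decide) (k3 _ (by decide))
        (by rw [x2e]; push_cast; ring) (by push_cast; ring), eO _ _ hO2, t3]
      push_cast
      ring
    · rw [gval (-1, -1) (-1) κ3 (3 * (H + xx2 r p)) (6 * y) (by decide) (k3 _ (by decide))
        (by rw [x2e]; push_cast; ring) (by push_cast; ring), eO _ _ hO2, t3]
      push_cast
      ring
  have w2 : ∀ k : ℤ × ℤ, k = (1, -2) ∨ k = (-1, 2) → g k = -((t ^ 3 * O1 y r p - t ^ 3) * κ3) := by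
    rintro k (rfl | rfl)
    · rw [gval (1, -2) (-1) κ3 (3 * (H + xx1 r p)) (6 * y) (by decide) (k3 _ (by decide))
        (by rw [x2e]; push_cast; ring) (by push_cast; ring), eO _ _ hO1, t3]
      push_cast
      ring
    · rw [gval (-1, 2) (-1) κ3 (3 * (H + xx1 r p)) (6 * y) (by decide) (k3 _ (by decide))
        (by rw [x2e]; push_cast; ring) (by push_cast; ring), eO _ _ hO1, t3]
      push_cast
      ring
  have w3 : ∀ k : ℤ × ℤ, k = (2, -1) ∨ k = (-2, 1) → g k = -((t ^ 3 * O3 y r p - t ^ 3) * κ3) := by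
    rintro k (rfl | rfl)
    · rw [gval (2, -1) (-1) κ3 (3 * (H + xx3 r p)) (6 * y) (by decide) (k3 _ (by decide))
        (by rw [x2e]; push_cast; ring) (by push_cast; ring), eO _ _ hO3, t3]
      push_cast
      ring
    · rw [gval (-2, 1) (-1) κ3 (3 * (H + xx3 r p)) (6 * y) (by decide) (k3 _ (by decide))
        (by rw [x2e]; push_cast; ring) (by push_cast; ring), eO _ _ hO3, t3]
      push_cast
      ring
  have z1 : ∀ k : ℤ × ℤ, k = (2, 0) ∨ k = (-2, 0) → g k = (t ^ 4 * T1 y r p ^ 4 - t ^ 4) * κ4 := by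
    rintro k (rfl | rfl)
    · rw [gval (2, 0) 1 κ4 (4 * (H - xx1 r p)) (8 * y) (by decide) (k4 _ (by decide))
        (by rw [x2e]; push_cast; ring) (by push_cast; ring), eT4 _ _ hT1, t4]
      push_cast
      ring
    · rw [gval (-2, 0) 1 κ4 (4 * (H - xx1 r p)) (8 * y) (by decide) (k4 _ (by decide))
        (by rw [x2e]; push_cast; ring) (by push_cast; ring), eT4 _ _ hT1, t4]
      push_cast
      ring
  have z2 : ∀ k : ℤ × ℤ, k = (0, 2) ∨ k = (0, -2) → g k = (t ^ 4 * T3 y r p ^ 4 - t ^ 4) * κ4 := by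
    rintro k (rfl | rfl)
    · rw [gval (0, 2) 1 κ4 (4 * (H - xx3 r p)) (8 * y) (by decide) (k4 _ (by decide))
        (by rw [x2e]; push_cast; ring) (by push_cast; ring), eT4 _ _ hT3, t4]
      push_cast
      ring
    · rw [gval (0, -2) 1 κ4 (4 * (H - xx3 r p)) (8 * y) (by decide) (k4 _ (by decide))
        (by rw [x2e]; push_cast; ring) (by push_cast; ring), eT4 _ _ hT3, t4]
      push_cast
      ring
  have z3 : ∀ k : ℤ × ℤ, k = (2, -2) ∨ k = (-2, 2) → g k = (t ^ 4 * T2 y r p ^ 4 - t ^ 4) * κ4 := by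
    rintro k (rfl | rfl)
    · rw [gval (2, -2) 1 κ4 (4 * (H - xx2 r p)) (8 * y) (by decide) (k4 _ (by decide))
        (by rw [x2e]; push_cast; ring) (by push_cast; ring), eT4 _ _ hT2, t4]
      push_cast
      ring
    · rw [gval (-2, 2) 1 κ4 (4 * (H - xx2 r p)) (8 * y) (by decide) (k4 _ (by decide))
        (by rw [x2e]; push_cast; ring) (by push_cast; ring), eT4 _ _ hT2, t4]
      push_cast
      ring
  have hS1 : ∑ k ∈ S1, g k = g (1, 0) + g (-1, 0) + g (0, 1) + g (0, -1) + g (1, -1) + g (-1, 1) := by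
    unfold S1
    rw [Finset.sum_insert (by decide), Finset.sum_insert (by decide), Finset.sum_insert (by decide),
      Finset.sum_insert (by decide), Finset.sum_insert (by decide), Finset.sum_singleton]
    ring
  have hS3 : ∑ k ∈ S3, g k = g (1, 1) + g (-1, -1) + g (1, -2) + g (-1, 2) + g (2, -1) + g (-2, 1) := by
    unfold S3
    rw [Finset.sum_insert (by decide), Finset.sum_insert (by decide), Finset.sum_insert (by decide),
      Finset.sum_insert (by decide), Finset.sum_insert (by decide), Finset.sum_singleton]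
    ring
  have hS4 : ∑ k ∈ S4, g k = g (2, 0) + g (-2, 0) + g (0, 2) + g (0, -2) + g (2, -2) + g (-2, 2) := by
    unfold S4
    rw [Finset.sum_insert (by decide), Finset.sum_insert (by decide), Finset.sum_insert (by decide),
      Finset.sum_insert (by decide), Finset.sum_insert (by decide), Finset.sum_singleton]
    ring
  have hsum := sum_F19 g
  rw [hS1, hS3, hS4, v00, v1 _ (Or.inl rfl), v1 _ (Or.inr rfl), v2 _ (Or.inl rfl),
    v2 _ (Or.inr rfl), v3 _ (Or.inl rfl), v3 _ (Or.inr rfl), w1 _ (Or.inl rfl), w1 _ (Or.inr rfl),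
    w2 _ (Or.inl rfl), w2 _ (Or.inr rfl), w3 _ (Or.inl rfl), w3 _ (Or.inr rfl),
    z1 _ (Or.inl rfl), z1 _ (Or.inr rfl), z2 _ (Or.inl rfl), z2 _ (Or.inr rfl),
    z3 _ (Or.inl rfl), z3 _ (Or.inr rfl)] at hsum
  rw [hg] at hsum
  rw [hsum]
  have d1 : K * D1 y r p = T1 y r p + T2 y r p + T3 y r p - 3 := by
    unfold D1; rw [← hK]; field_simp
  have d3 : K * D3 y r p = O1 y r p + O2 y r p + O3 y r p - 3 := by
    unfold D3; rw [← hK]; field_simp
  have d4 : K * D4 y r p = T1 y r p ^ 4 + T2 y r p ^ 4 + T3 y r p ^ 4 - 3 := by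
    unfold D4; rw [← hK]; field_simp
  rw [← hK, ← ht]
  have e : K * (-(2 * t * κ1 * D1 y r p) - 2 * t ^ 3 * κ3 * D3 y r p + 2 * t ^ 4 * κ4 * D4 y r p) =
      -(2 * t * κ1 * (K * D1 y r p)) - 2 * t ^ 3 * κ3 * (K * D3 y r p)
        + 2 * t ^ 4 * κ4 * (K * D4 y r p) := by ring
  rw [e, d1, d3, d4]
  ring

theorem kp_lower {ε k7 y r p : ℝ} {κ : ℤ × ℤ → ℝ} (hK : KState ε κ) (hε : 0 < ε)
    (hε1 : ε ≤ 0.08) (hκ1 : κ (1, 0) ≤ 2.4) (h7 : ∀ k, Nf k = 7 → κ k ≤ k7)
    (hy : 0.9 ≤ y) (hy2 : y ≤ 1.1) (hr : 0 < r) (hp0 : 0 ≤ p) (hp1 : p ≤ 1)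
    (hle : hh y r p ≤ rho r p) (hv : vpi y r p ≤ 22 / 100) :
    kap p * r ^ 2 * PPf y r p (κ (1, 0)) (κ (1, 1)) (κ (2, 0)) k7 ≤
      ∑' k : ℤ × ℤ, (cc (AA3 y r p) (AA1 y r p) (AA2 y r p) k - cc y y y k)
        * ((sig k : ℝ) * κ k) := by
  have hy' : (9 / 10 : ℝ) ≤ y := by
    have : (0.9 : ℝ) = 9 / 10 := by norm_num
    linarith
  have hy0 : 0 < y := by linarith
  have hε1' : ε ≤ 8 / 100 := by
    have : (0.08 : ℝ) = 8 / 100 := by norm_num
    linarith
  have hκ1' : κ (1, 0) ≤ 24 / 10 := by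
    have : (2.4 : ℝ) = 24 / 10 := by norm_num
    linarith
  obtain ⟨-, -, -, hHy, hg00, hk0, hc1⟩ := AA_basic hy0 hr hp0 hp1
  have P := TP_norm hy hr hp0 hp1 (by linarith) hle
  have hex := KP2_shell_exact hy0 hr hp0 hp1 κ (κ (1, 0)) (κ (1, 1)) (κ (2, 0))
    (fun k hk => (hK.shell k).1 hk) (fun k hk => (hK.shell k).2.1 hk) (fun k hk => (hK.shell k).2.2 hk)
  obtain ⟨K, hKd⟩ : ∃ K, K = kap p * r ^ 2 := ⟨_, rfl⟩
  have hK0 : 0 < K := by rw [hKd]; positivity
  obtain ⟨v, hvd⟩ : ∃ v, v = vpi y r p := ⟨_, rfl⟩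
  have hv0 : 0 < v := by rw [hvd]; exact Real.exp_pos _
  obtain ⟨t, ht⟩ : ∃ t, t = Real.exp (-(2 * y)) := ⟨_, rfl⟩
  have ht0 : 0 < t := by rw [ht]; exact Real.exp_pos _
  obtain ⟨ρ, hρd⟩ : ∃ ρ, ρ = rho r p := ⟨_, rfl⟩
  have hρ0 : 0 ≤ ρ := by rw [hρd]; exact P.hρ0
  have hH0 : 0 ≤ 2 * y * chh y r p := by positivity
  have hρK : ρ ^ 2 = 4 / 9 * K := by
    rw [hρd, hKd]
    unfold rho
    rw [mul_pow, mul_pow, Real.sq_sqrt hk0.le]
    ring
  have htv : t ≤ v := by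
    rw [ht, hvd]
    unfold vpi
    apply Real.exp_le_exp.2
    have := P.hle
    linarith
  obtain ⟨W, hW⟩ : ∃ W : ℤ × ℤ → ℝ, W = fun k =>
    cc (AA3 y r p) (AA1 y r p) (AA2 y r p) k - cc y y y k := ⟨_, rfl⟩
  obtain ⟨g, hg⟩ : ∃ g : ℤ × ℤ → ℝ, g = fun k => W k * ((sig k : ℝ) * κ k) := ⟨_, rfl⟩
  have hNr : ∀ k : ℤ × ℤ, (0 : ℝ) ≤ Nf k := fun k => by exact_mod_cast KP2_Nf_nonneg k
  have hsabs : ∀ k, |(sig k : ℝ)| ≤ 1 := by
    intro k
    rw [KP2_sig]
    split_ifs <;> norm_num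
  -- summability
  have hgs : Summable g := by
    have hs := (tail19 v hv0.le (by linarith)).1.mul_left (2 / ε)
    refine Summable.of_norm_bounded hs ?_
    intro k
    have hd := P.diff hH0 k
    rw [Real.norm_eq_abs, hg]
    simp only
    rw [abs_mul, abs_mul]
    have hκa : |κ k| ≤ 2 / ε := by
      rw [abs_of_nonneg (hK.nonneg k)]; exact hK.le k
    have h2e : 0 ≤ 2 / ε := by positivity
    have hsk : |(sig k : ℝ)| * |κ k| ≤ 2 / ε := by
      calc |(sig k : ℝ)| * |κ k| ≤ 1 * (2 / ε) :=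
            mul_le_mul (hsabs k) hκa (abs_nonneg _) zero_le_one
        _ = 2 / ε := one_mul _
    have hWk : |W k| ≤ (Nf k : ℝ) ^ 2 * v ^ (Nf k).toNat := by
      by_cases h0 : Nf k = 0
      · have hz : k = (0, 0) := by
          have h1 : k ∈ F19 := (KP2_mem k).2 (by omega)
          have h2 : ∀ k ∈ F19, Nf k = 0 → k = (0, 0) := by decide
          exact h2 k h1 h0
        rw [hW, hz]
        simp [cc, Nf]
      · have h1 : (1 : ℝ) ≤ Nf k := by
          have := KP2_Nf_nonneg k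
          exact_mod_cast (by omega : (1 : ℤ) ≤ Nf k)
        have h2 : |W k| ≤ v ^ (Nf k).toNat := by
          rw [hW]
          simp only
          rw [← hvd] at hd
          refine hd.trans ?_
          exact mul_le_of_le_one_right (by positivity) (min_le_left _ _)
        refine h2.trans ?_
        exact le_mul_of_one_le_left (by positivity) (by nlinarith)
    calc |W k| * (|(sig k : ℝ)| * |κ k|) ≤ ((Nf k : ℝ) ^ 2 * v ^ (Nf k).toNat) * (2 / ε) :=
          mul_le_mul hWk hsk (by positivity) (by positivity)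
      _ = 2 / ε * ((Nf k : ℝ) ^ 2 * v ^ (Nf k).toNat) := by ring
  -- bound of the orbits
  have hrot' : ∀ k, κ (e3.symm k) = κ k := by
    intro k
    have := hK.rot (e3.symm k)
    rw [Equiv.apply_symm_apply] at this
    exact this.symm
  have horb : ∀ k, W k + W (e3 k) + W (e3.symm k) =
      cc (AA3 y r p) (AA1 y r p) (AA2 y r p) k + cc (AA3 y r p) (AA1 y r p) (AA2 y r p) (e3 k)
      + cc (AA3 y r p) (AA1 y r p) (AA2 y r p) (e3.symm k) - 3 * cc y y y k := by
    intro k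
    have hy1 : cc y y y (e3 k) = cc y y y k := cc_e3 y y y k
    have hy2 : cc y y y (e3.symm k) = cc y y y k := cc_e3_symm y y y k
    rw [hW]
    simp only [hy1, hy2]
    ring
  obtain ⟨Q, hQ⟩ : ∃ Q : ℝ, Q = 1 + 14 / 3 * ρ := ⟨_, rfl⟩
  have hQ0 : 0 < Q := by rw [hQ]; positivity
  obtain ⟨G, hG⟩ : ∃ G : ℤ × ℤ → ℝ, G = fun k => if Nf k = 7 then k7 * (49 / 3 * K * v ^ 7 / Q)
    else if Nf k = 9 then 9 * κ (1, 0) * (27 * K * v ^ 9)
    else 23 / 100 * K * (Nf k : ℝ) ^ 4 * v ^ (Nf k).toNat := ⟨_, rfl⟩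
  have hk70 : 0 ≤ k7 := (hK.nonneg (2, 1)).trans (h7 (2, 1) (by decide))
  have hκ10 := hK.nonneg (1, 0)
  have hG0 : ∀ k, 0 ≤ G k := by
    intro k
    have := hNr k
    simp only [hG]
    split_ifs <;> positivity
  have hg0 : g0 y r p ≤ 10 / 81 := by
    unfold g0
    rw [div_le_iff₀ (by positivity)]
    nlinarith
  have hpi : Real.pi ^ 2 ≤ 988 / 100 := by
    have h1 := Real.pi_lt_d4
    have h0 := Real.pi_pos
    nlinarith
  have hbig : ∀ k, 12 ≤ Nf k → |(W k + W (e3 k) + W (e3.symm k)) * ((sig k : ℝ) * κ k)| ≤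
      23 / 100 * K * (Nf k : ℝ) ^ 4 * v ^ (Nf k).toNat := by
    intro k hk
    have hN12 : (12 : ℝ) ≤ Nf k := by exact_mod_cast hk
    have hN0 : (0 : ℝ) ≤ Nf k := by linarith
    have ho := P.orbit hH0 k
    rw [← horb k, ← hvd, ← hρd, ← ht, hHy] at ho
    have hmin : min 1 ((Nf k * ρ) ^ 2 / 2) ≤ 2 / 9 * K * (Nf k : ℝ) ^ 2 := by
      refine (min_le_right _ _).trans (le_of_eq ?_)
      rw [mul_pow, hρK]
      ring
    have hhh : hh y r p = g0 y r p * K := by rw [hKd]; rfl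
    rw [hhh] at ho
    have ho2 : |W k + W (e3 k) + W (e3.symm k)| ≤ (3643 / 10000) * K * (Nf k : ℝ) ^ 2 * v ^ (Nf k).toNat := by
      refine ho.trans ?_
      have hvN : 0 ≤ v ^ (Nf k).toNat := by positivity
      have htN : t ^ (Nf k).toNat ≤ v ^ (Nf k).toNat := pow_le_pow_left₀ ht0.le htv _
      have u1 : 3 / 2 * (v ^ (Nf k).toNat * min 1 ((Nf k * ρ) ^ 2 / 2)) ≤
          3 / 2 * (v ^ (Nf k).toNat * (2 / 9 * K * (Nf k : ℝ) ^ 2)) := by gcongr
      have u2 : 3 * (t ^ (Nf k).toNat * (Nf k * (g0 y r p * K))) ≤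
          3 * (v ^ (Nf k).toNat * (Nf k * (10 / 81 * K))) := by gcongr
      have u3 : (Nf k : ℝ) ≤ (Nf k : ℝ) ^ 2 / 12 := by nlinarith
      have u4 : v ^ (Nf k).toNat * (Nf k * (10 / 81 * K)) ≤
          v ^ (Nf k).toNat * ((Nf k : ℝ) ^ 2 / 12 * (10 / 81 * K)) := by gcongr
      have e : (3643 / 10000) * K * (Nf k : ℝ) ^ 2 * v ^ (Nf k).toNat =
          (3643 / 10000) * (v ^ (Nf k).toNat * (K * (Nf k : ℝ) ^ 2)) := by ring
      have hnn : 0 ≤ v ^ (Nf k).toNat * (K * (Nf k : ℝ) ^ 2) := by positivity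
      rw [e]
      nlinarith
    have hκk : |(sig k : ℝ) * κ k| ≤ 63 / 100 * (Nf k : ℝ) ^ 2 := by
      rw [abs_mul, abs_of_nonneg (hK.nonneg k)]
      have hb := hK.bound hε.le k
      have h1 : 8 / 3 * (Nf k : ℝ) * κ (1, 0) ≤ 64 / 10 * Nf k := by nlinarith
      have h2 : Real.pi ^ 2 * ε * (Nf k : ℝ) ^ 2 / 9 ≤ (988 / 100) * (8 / 100) * (Nf k : ℝ) ^ 2 / 9 := by
        gcongr
      have h3 : κ k ≤ 63 / 100 * (Nf k : ℝ) ^ 2 := by nlinarith
      have h4 : |(sig k : ℝ)| * κ k ≤ 1 * κ k := mul_le_mul_of_nonneg_right (hsabs k) (hK.nonneg k)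
      linarith
    rw [abs_mul]
    calc |W k + W (e3 k) + W (e3.symm k)| * |(sig k : ℝ) * κ k| ≤
          ((3643 / 10000) * K * (Nf k : ℝ) ^ 2 * v ^ (Nf k).toNat) * (63 / 100 * (Nf k : ℝ) ^ 2) :=
          mul_le_mul ho2 hκk (abs_nonneg _) (by positivity)
      _ = (3643 / 10000 * (63 / 100)) * (K * (Nf k : ℝ) ^ 4 * v ^ (Nf k).toNat) := by ring
      _ ≤ 23 / 100 * (K * (Nf k : ℝ) ^ 4 * v ^ (Nf k).toNat) := by
          apply mul_le_mul_of_nonneg_right (by norm_num) (by positivity)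
      _ = _ := by ring
  have hup : ∀ k, W k + W (e3 k) + W (e3.symm k) ≤
      1 / 3 * (Nf k : ℝ) ^ 2 * K * v ^ (Nf k).toNat / (1 + 2 / 3 * (Nf k * ρ)) := by
    intro k
    have := orbit_w_upper hy hy2 hr hp0 hp1 hle (by linarith) k
    rw [← horb k, ← hKd, ← hvd, ← hρd] at this
    exact this
  have hSplit7 : ∀ k, 7 ≤ Nf k → Nf k < 12 → Nf k = 7 ∨ Nf k = 9 := by
    intro k h1 h2
    have hbox : -3 ≤ k.1 ∧ k.1 ≤ 3 ∧ -3 ≤ k.2 ∧ k.2 ≤ 3 := by
      obtain ⟨m, n⟩ := k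
      unfold Nf at h2
      simp only at h2 ⊢
      have hm : 3 * m ^ 2 ≤ 44 := by nlinarith [sq_nonneg (m + 2 * n)]
      have hn : 3 * n ^ 2 ≤ 44 := by nlinarith [sq_nonneg (2 * m + n)]
      refine ⟨?_, ?_, ?_, ?_⟩ <;> by_contra hh <;> push Not at hh <;> nlinarith
    obtain ⟨m, n⟩ := k
    simp only at hbox
    obtain ⟨b1, b2, b3, b4⟩ := hbox
    unfold Nf at h1 h2 ⊢
    simp only at h1 h2 ⊢
    interval_cases m <;> interval_cases n <;> omega
  obtain ⟨F, hF⟩ : ∃ F : ℤ × ℤ → ℝ, F = fun k => if k ∈ F19 then 0 else g k := ⟨_, rfl⟩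
  have hex' : ∑ k ∈ F19, g k = K * (-(2 * t * κ (1, 0) * D1 y r p)
        - 2 * t ^ 3 * κ (1, 1) * D3 y r p + 2 * t ^ 4 * κ (2, 0) * D4 y r p) := by
    rw [hg, hW, hKd, ht]; exact hex
  have hfin : HasSum (fun k : ℤ × ℤ => if k ∈ F19 then g k else 0) (∑ k ∈ F19, g k) := by
    have h : HasSum (fun k : ℤ × ℤ => if k ∈ F19 then g k else 0)
      (∑ k ∈ F19, (if k ∈ F19 then g k else 0)) :=
      hasSum_sum_of_ne_finset_zero (fun k hk => if_neg hk)
    have e : ∑ k ∈ F19, (if k ∈ F19 then g k else 0) = ∑ k ∈ F19, g k :=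
      Finset.sum_congr rfl fun k hk => if_pos hk
    rwa [e] at h
  have hFs : Summable F := by
    have h := hgs.sub hfin.summable
    refine h.congr (fun k => ?_)
    rw [hF]
    by_cases hk : k ∈ F19 <;> simp [hk]
  have hsplit : ∑' k, g k = ∑ k ∈ F19, g k + ∑' k, F k := by
    rw [← hfin.tsum_eq, ← Summable.tsum_add hfin.summable hFs]
    congr 1
    funext k
    rw [hF]
    by_cases hk : k ∈ F19 <;> simp [hk]
  have h1 : ∑' k, F (e3 k) = ∑' k, F k := Equiv.tsum_eq e3 F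
  have h2 : ∑' k, F (e3.symm k) = ∑' k, F k := Equiv.tsum_eq e3.symm F
  have s1 : Summable fun k => F (e3 k) := (Equiv.summable_iff e3).2 hFs
  have s2 : Summable fun k => F (e3.symm k) := (Equiv.summable_iff e3.symm).2 hFs
  have h3 : 3 * ∑' k, F k = ∑' k, (F k + F (e3 k) + F (e3.symm k)) := by
    rw [Summable.tsum_add (hFs.add s1) s2, Summable.tsum_add hFs s1, h1, h2]
    ring
  have hb : ∀ k, -(if k ∈ F19 then 0 else G k) ≤ F k + F (e3 k) + F (e3.symm k) := by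
    intro k
    have e1 : e3 k ∈ F19 ↔ k ∈ F19 := by rw [KP2_mem, KP2_mem, KP2_Nf_e3]
    have e2 : e3.symm k ∈ F19 ↔ k ∈ F19 := by rw [KP2_mem, KP2_mem, KP2_Nf_e3s]
    by_cases hk : k ∈ F19
    · simp only [hF, if_pos hk, if_pos (e1.2 hk), if_pos (e2.2 hk)]
      simp
    · simp only [hF, if_neg hk, if_neg (fun hh => hk (e1.1 hh)), if_neg (fun hh => hk (e2.1 hh))]
      have hN7 := Nf_ge_seven hk
      have hsg1 : sig (e3 k) = sig k := by rw [KP2_sig, KP2_sig, KP2_Nf_e3]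
      have hsg2 : sig (e3.symm k) = sig k := by rw [KP2_sig, KP2_sig, KP2_Nf_e3s]
      have e : g k + g (e3 k) + g (e3.symm k) = (W k + W (e3 k) + W (e3.symm k)) * ((sig k : ℝ) * κ k) := by
        rw [hg]
        simp only [hsg1, hsg2, hK.rot, hrot']
        ring
      rw [e]
      by_cases h12 : 12 ≤ Nf k
      · have hh := (abs_le.1 (hbig k h12)).1
        have hGk : G k = 23 / 100 * K * (Nf k : ℝ) ^ 4 * v ^ (Nf k).toNat := by
          simp only [hG]
          rw [if_neg (by omega), if_neg (by omega)]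
        rw [hGk]
        exact hh
      · push Not at h12
        have hu := hup k
        rcases hSplit7 k hN7 h12 with h | h
        · have hs : sig k = -1 := by
            rw [KP2_sig, h]; decide
          have hGk : G k = k7 * (49 / 3 * K * v ^ 7 / Q) := by
            simp only [hG]
            rw [if_pos h]
          rw [hGk, hs]
          have hU : W k + W (e3 k) + W (e3.symm k) ≤ 49 / 3 * K * v ^ 7 / Q := by
            refine hu.trans (le_of_eq ?_)
            rw [h, hQ]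
            have hz : ((7 : ℤ).toNat) = 7 := rfl
            rw [hz]
            push_cast
            congr 1
            · ring
            · ring
          have hκ7 := h7 k h
          have hκ0 := hK.nonneg k
          have hU0 : 0 ≤ 49 / 3 * K * v ^ 7 / Q := by positivity
          have m1 : (W k + W (e3 k) + W (e3.symm k)) * κ k ≤ (49 / 3 * K * v ^ 7 / Q) * κ k :=
            mul_le_mul_of_nonneg_right hU hκ0
          have m2 : (49 / 3 * K * v ^ 7 / Q) * κ k ≤ (49 / 3 * K * v ^ 7 / Q) * k7 :=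
            mul_le_mul_of_nonneg_left hκ7 hU0
          push_cast
          linarith
        · have hs : sig k = -1 := by
            rw [KP2_sig, h]; decide
          have hGk : G k = 9 * κ (1, 0) * (27 * K * v ^ 9) := by
            simp only [hG]
            rw [if_neg (by omega), if_pos h]
          rw [hGk, hs]
          have hU : W k + W (e3 k) + W (e3.symm k) ≤ 27 * K * v ^ 9 := by
            refine hu.trans ?_
            rw [h]
            have hz : ((9 : ℤ).toNat) = 9 := rfl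
            rw [hz]
            push_cast
            have hD : 1 ≤ 1 + 2 / 3 * (9 * ρ) := by linarith
            rw [div_le_iff₀ (by linarith)]
            have : 27 * K * v ^ 9 * 1 ≤ 27 * K * v ^ 9 * (1 + 2 / 3 * (9 * ρ)) :=
              mul_le_mul_of_nonneg_left hD (by positivity)
            linarith
          have hκ9 := hK.nine h
          have hκ0 := hK.nonneg k
          have hU0 : 0 ≤ 27 * K * v ^ 9 := by positivity
          have m1 : (W k + W (e3 k) + W (e3.symm k)) * κ k ≤ (27 * K * v ^ 9) * κ k :=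
            mul_le_mul_of_nonneg_right hU hκ0
          have m2 : (27 * K * v ^ 9) * κ k ≤ (27 * K * v ^ 9) * (9 * κ (1, 0)) :=
            mul_le_mul_of_nonneg_left hκ9 hU0
          push_cast
          linarith
  have b1 := shells_sum G (k7 * (49 / 3 * K * v ^ 7 / Q)) (9 * κ (1, 0) * (27 * K * v ^ 9))
    (23 / 100 * K * 12 ^ 4 * v ^ 12) (23 / 100 * K * 13 ^ 4 * v ^ 13)
    (23 / 100 * K * 16 ^ 4 * v ^ 16) (23 / 100 * K * (361 / 2 ^ 19)) (2 * v) (by positivity)
    (by positivity) (by linarith) hG0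
    (fun k hk => by
      simp only [hG]
      rw [if_pos hk])
    (fun k hk => by
      simp only [hG]
      rw [if_neg (by omega), if_pos hk])
    (fun k hk => by
      simp only [hG, hk]
      have hz : ((12 : ℤ).toNat) = 12 := rfl
      rw [hz, if_neg (by decide), if_neg (by decide)]
      push_cast; exact le_rfl)
    (fun k hk => by
      simp only [hG, hk]
      have hz : ((13 : ℤ).toNat) = 13 := rfl
      rw [hz, if_neg (by decide), if_neg (by decide)]
      push_cast; exact le_rfl)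
    (fun k hk => by
      simp only [hG, hk]
      have hz : ((16 : ℤ).toNat) = 16 := rfl
      rw [hz, if_neg (by decide), if_neg (by decide)]
      push_cast; exact le_rfl)
    (fun k hk => by
      have hN0 := hNr k
      have hn : 19 ≤ (Nf k).toNat := by omega
      have h2 := KP2_two_pow _ hn
      have hcast : (((Nf k).toNat : ℕ) : ℝ) = (Nf k : ℝ) := by
        have h2 : (((Nf k).toNat : ℕ) : ℤ) = Nf k := Int.toNat_of_nonneg (KP2_Nf_nonneg k)
        exact_mod_cast h2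
      rw [hcast] at h2
      have h3 : (Nf k : ℝ) ^ 2 * v ^ (Nf k).toNat ≤ 361 / 2 ^ 19 * (2 * v) ^ (Nf k).toNat := by
        rw [mul_pow, ← mul_assoc]
        exact mul_le_mul_of_nonneg_right h2 (by positivity)
      simp only [hG]
      rw [if_neg (by omega), if_neg (by omega)]
      calc 23 / 100 * K * (Nf k : ℝ) ^ 4 * v ^ (Nf k).toNat =
            23 / 100 * K * (Nf k : ℝ) ^ 2 * ((Nf k : ℝ) ^ 2 * v ^ (Nf k).toNat) := by ring
        _ ≤ 23 / 100 * K * (Nf k : ℝ) ^ 2 * (361 / 2 ^ 19 * (2 * v) ^ (Nf k).toNat) :=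
            mul_le_mul_of_nonneg_left h3 (by positivity)
        _ = _ := by ring)
  obtain ⟨c1, b1⟩ := b1
  have h4 : -(∑' k, (if k ∈ F19 then 0 else G k)) ≤ ∑' k, (F k + F (e3 k) + F (e3.symm k)) := by
    rw [← tsum_neg]
    exact Summable.tsum_le_tsum hb c1.neg ((hFs.add s1).add s2)
  rw [← h3] at h4
  -- numerics
  have hv12 : 0 ≤ K * v ^ 12 := by positivity
  rw [← hvd] at hv
  have e13 : K * v ^ 13 ≤ 22 / 100 * (K * v ^ 12) := by
    have : K * v ^ 13 = v * (K * v ^ 12) := by ring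
    rw [this]
    exact mul_le_mul_of_nonneg_right hv hv12
  have e16 : K * v ^ 16 ≤ (22 / 100) ^ 4 * (K * v ^ 12) := by
    have : K * v ^ 16 = v ^ 4 * (K * v ^ 12) := by ring
    rw [this]
    exact mul_le_mul_of_nonneg_right (pow_le_pow_left₀ hv0.le hv 4) hv12
  have e19 : K * v ^ 19 ≤ (22 / 100) ^ 7 * (K * v ^ 12) := by
    have : K * v ^ 19 = v ^ 7 * (K * v ^ 12) := by ring
    rw [this]
    exact mul_le_mul_of_nonneg_right (pow_le_pow_left₀ hv0.le hv 7) hv12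
  have hS : ∑' k, (if k ∈ F19 then 0 else G k) ≤
      3 * (6 * k7 * (98 / 9 / Q) * (K * v ^ 7) + 486 * κ (1, 0) * (K * v ^ 9)
        + 20000 * (K * v ^ 12)) := by
    refine b1.trans ?_
    have f7 : 12 * (k7 * (49 / 3 * K * v ^ 7 / Q)) = 3 * (6 * k7 * (98 / 9 / Q) * (K * v ^ 7)) := by
      ring
    have f9 : 6 * (9 * κ (1, 0) * (27 * K * v ^ 9)) = 3 * (486 * κ (1, 0) * (K * v ^ 9)) := by ring
    have f12 : 6 * (23 / 100 * K * 12 ^ 4 * v ^ 12) = 6 * (23 / 100) * 12 ^ 4 * (K * v ^ 12) := by ring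
    have f13 : 12 * (23 / 100 * K * 13 ^ 4 * v ^ 13) = 12 * (23 / 100) * 13 ^ 4 * (K * v ^ 13) := by ring
    have f16 : 6 * (23 / 100 * K * 16 ^ 4 * v ^ 16) = 6 * (23 / 100) * 16 ^ 4 * (K * v ^ 16) := by ring
    have f19 : 23 / 100 * K * (361 / 2 ^ 19) * (7776 * (2 * v) ^ 19) =
        23 / 100 * 361 * 7776 * (K * v ^ 19) := by rw [mul_pow]; ring
    rw [f7, f9, f12, f13, f16, f19]
    linarith
  have hfinal : K * PPf y r p (κ (1, 0)) (κ (1, 1)) (κ (2, 0)) k7 =
      ∑ k ∈ F19, g k - (6 * k7 * (98 / 9 / Q) * (K * v ^ 7) + 486 * κ (1, 0) * (K * v ^ 9)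
        + 20000 * (K * v ^ 12)) := by
    rw [hex']
    unfold PPf
    rw [← ht, ← hvd, ← hρd, ← hQ]
    ring
  rw [← hKd, hfinal]
  have hgoal : ∑' k : ℤ × ℤ, (cc (AA3 y r p) (AA1 y r p) (AA2 y r p) k - cc y y y k)
        * ((sig k : ℝ) * κ k) = ∑' k, g k := by rw [hg, hW]
  rw [hgoal, hsplit]
  linarith

end MP7e122f.R
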