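import Pool.Agent.Lib.MP_7e122f_anR.Weyl

open MeasureTheory Complex
open scoped ComplexInnerProductSpace ENNReal ComplexOrder

namespace MP7e122f.R

/-- Gram matrices -/
theorem tpd_of_gram {E : Type*} [NormedAddCommGroup E] [InnerProductSpace ℂ E] {δ : ℝ}
    {ψ : ℤ × ℤ → ℂ} (v : ℤ × ℤ → E)
    (h : ∀ k l, ⟪v k, v l⟫ = cexp (Real.pi * I * δ * (wdg k l : ℤ)) * ψ (l - k)) : TPD δ ψ := by
  intro s
  have h1 := Matrix.posSemidef_gram ℂ (fun k : s => v (k : ℤ × ℤ))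
  have h2 : Matrix.gram ℂ (fun k : s => v (k : ℤ × ℤ)) =
      (Matrix.of fun k l : s => cexp (Real.pi * I * δ * (wdg k l : ℤ)) *
        ψ ((l : ℤ × ℤ) - k)) := by
    ext k l
    rw [Matrix.gram_apply, Matrix.of_apply, h]
  rw [← h2]
  exact h1

/-- Schur product (`Matrix.PosSemidef.hadamard`) -/
theorem TPD.mul {δ δ' : ℝ} {ψ ψ' : ℤ × ℤ → ℂ} (h : TPD δ ψ) (h' : TPD δ' ψ') :
    TPD (δ + δ') (fun k => ψ k * ψ' k) := by
  intro s
  have h1 := Matrix.PosSemidef.hadamard (h s) (h' s)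
  have h2 : Matrix.hadamard
      (Matrix.of fun k l : s => cexp (Real.pi * I * δ * (wdg k l : ℤ)) * ψ ((l : ℤ × ℤ) - k))
      (Matrix.of fun k l : s => cexp (Real.pi * I * δ' * (wdg k l : ℤ)) * ψ' ((l : ℤ × ℤ) - k)) =
      (Matrix.of fun k l : s => cexp (Real.pi * I * ((δ + δ' : ℝ) : ℂ) * (wdg k l : ℤ)) *
        (ψ ((l : ℤ × ℤ) - k) * ψ' ((l : ℤ × ℤ) - k))) := by
    ext k l
    rw [Matrix.hadamard_apply, Matrix.of_apply, Matrix.of_apply, Matrix.of_apply]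
    have h3 : Real.pi * I * ((δ + δ' : ℝ) : ℂ) * (wdg k l : ℤ) =
        Real.pi * I * δ * (wdg k l : ℤ) + Real.pi * I * δ' * (wdg k l : ℤ) := by
      push_cast
      ring
    rw [h3, Complex.exp_add]
    ring
  rw [← h2]
  exact h1

/-- entrywise complex conjugation -/
theorem TPD.conj {δ : ℝ} {ψ : ℤ × ℤ → ℂ} (h : TPD δ ψ) :
    TPD (-δ) (fun k => (starRingEnd ℂ) (ψ k)) := by
  intro s
  have h1 := (h s).transpose
  have h0 := (h s).isHermitian
  have h2 : Matrix.transpose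
      (Matrix.of fun k l : s => cexp (Real.pi * I * δ * (wdg k l : ℤ)) * ψ ((l : ℤ × ℤ) - k)) =
      (Matrix.of fun k l : s => cexp (Real.pi * I * ((-δ : ℝ) : ℂ) * (wdg k l : ℤ)) *
        (starRingEnd ℂ) (ψ ((l : ℤ × ℤ) - k))) := by
    ext k l
    have h3 := h0.apply l k
    rw [Matrix.transpose_apply, ← h3, Matrix.of_apply, Matrix.of_apply, star_mul']
    have h4 : (starRingEnd ℂ) (Real.pi * I * δ * (wdg k l : ℤ)) =
        Real.pi * I * ((-δ : ℝ) : ℂ) * (wdg k l : ℤ) := by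
      simp
    congr 1
    · change (starRingEnd ℂ) _ = _
      rw [← Complex.exp_conj, h4]
  rw [← h2]
  exact h1

/-- characters: flux 0 -/
theorem tpd_char (θ : ℝ × ℝ) :
    TPD 0 (fun k => cexp (2 * Real.pi * I * (θ.1 * k.1 + θ.2 * k.2))) := by
  apply tpd_of_gram (E := ℂ) (fun k => cexp (2 * Real.pi * I * (θ.1 * k.1 + θ.2 * k.2)))
  intro k l
  rw [RCLike.inner_apply, ← Complex.exp_conj, ← Complex.exp_add, ← Complex.exp_add]
  congr 1
  have h2 : (starRingEnd ℂ) (2 : ℂ) = 2 := map_ofNat _ 2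
  simp only [map_mul, map_add, Complex.conj_ofReal, Complex.conj_I, h2, map_intCast,
    Prod.fst_sub, Prod.snd_sub, Complex.ofReal_zero]
  push_cast
  ring

private theorem TPDa_exp (n : ℤ) :
    cexp (Real.pi * I * ((1 : ℝ) : ℂ) * n) = if Even n then 1 else -1 := by
  have h1 : (Real.pi * I * ((1 : ℝ) : ℂ) * n : ℂ) = n * (Real.pi * I) := by
    push_cast
    ring
  rw [h1, Complex.exp_int_mul, Complex.exp_pi_mul_I]
  split_ifs with h
  · exact h.neg_one_zpow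
  · exact (Int.not_even_iff_odd.mp h).neg_one_zpow

/-- flux 2 is trivial -/
theorem tpd_two : TPD 2 (fun _ => 1) := by
  apply tpd_of_gram (E := ℂ) (fun _ => 1)
  intro k l
  rw [RCLike.inner_apply, map_one, one_mul, mul_one]
  rw [eq_comm, Complex.exp_eq_one_iff]
  exact ⟨wdg k l, by push_cast; ring⟩

/-- `sig` is a state of flux 1 : `sig (l - k) = (-1)^(k∧l) sig k sig l`
(use `tpd_of_gram` with `E = ℂ`, `v k = sig k`) -/
theorem tpd_sig : TPD 1 (fun k => ((sig k : ℤ) : ℂ)) := by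
  apply tpd_of_gram (E := ℂ) (fun k => ((sig k : ℤ) : ℂ))
  intro k l
  rw [RCLike.inner_apply, TPDa_exp]
  simp only [sig, wdg, Prod.fst_sub, Prod.snd_sub, Int.even_sub, Int.even_mul]
  by_cases h1 : Even k.1 <;> by_cases h2 : Even k.2 <;> by_cases h3 : Even l.1 <;>
    by_cases h4 : Even l.2 <;> simp [h1, h2, h3, h4]

/-- `sigB = sig` times the character `(-1)^(k.1)`... (check: `sigB k = sig k * (-1)^k.1`) -/
theorem tpd_sigB : TPD 1 (fun k => ((sigB k : ℤ) : ℂ)) := by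
  apply tpd_of_gram (E := ℂ) (fun k => ((sigB k : ℤ) : ℂ))
  intro k l
  rw [RCLike.inner_apply, TPDa_exp]
  simp only [sigB, wdg, Prod.fst_sub, Prod.snd_sub, Int.even_sub, Int.even_mul]
  by_cases h1 : Even k.1 <;> by_cases h2 : Even k.2 <;> by_cases h3 : Even l.1 <;>
    by_cases h4 : Even l.2 <;> simp [h1, h2, h3, h4]

end MP7e122f.R
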