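import Pool.Agent.Lib.MP_7e122f_anR.KDefs
import Pool.Agent.Lib.MP_7e122f_anR.TPDa
import Pool.Agent.Lib.MP_7e122f_anR.ConsSt
import Pool.Agent.Lib.MP_7e122f_anR.Family

/-!
# The averaged state is twisted positive definite

`⟪f, ρ_k f⟫` is `TPD` of flux `δ = 1/det H` (`tpd_of_gram` with `v k = ρ_k f`,
`⟪ρ_k f, ρ_l f⟫ = ⟪f, ρ_{-k} ρ_l f⟫ = exp(π i δ k∧l) ⟪f, ρ_{l-k} f⟫`, see the lemmas of `ConsSt`,
`Family`).  `TPD δ` is preserved by `k ↦ -k` and `k ↦ e3 k` (both preserve `wdg`), by sums and by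
positive multiples; `st H f k = (⟪f, ρ_k f⟫ + ⟪f, ρ_{-k} f⟫)/2`.
-/

open MeasureTheory Complex
open scoped ComplexInnerProductSpace ENNReal ComplexOrder

namespace MP7e122f.R

theorem TPD.add {δ : ℝ} {ψ ψ' : ℤ × ℤ → ℂ} (h : TPD δ ψ) (h' : TPD δ ψ') :
    TPD δ (fun k => ψ k + ψ' k) := by
  intro s
  have h1 := (h s).add (h' s)
  have h2 : (Matrix.of fun k l : s => cexp (Real.pi * I * δ * (wdg k l : ℤ)) * ψ ((l : ℤ × ℤ) - k)) +
      (Matrix.of fun k l : s => cexp (Real.pi * I * δ * (wdg k l : ℤ)) * ψ' ((l : ℤ × ℤ) - k)) =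
      (Matrix.of fun k l : s => cexp (Real.pi * I * δ * (wdg k l : ℤ)) *
        (ψ ((l : ℤ × ℤ) - k) + ψ' ((l : ℤ × ℤ) - k))) := by
    ext k l
    rw [Matrix.add_apply, Matrix.of_apply, Matrix.of_apply, Matrix.of_apply]
    ring
  rw [← h2]
  exact h1

theorem TPD.smul {δ c : ℝ} (hc : 0 ≤ c) {ψ : ℤ × ℤ → ℂ} (h : TPD δ ψ) :
    TPD δ (fun k => (c : ℂ) * ψ k) := by
  intro s
  have hc' : (0 : ℂ) ≤ (c : ℂ) := by exact_mod_cast hc
  have h1 := (h s).smul hc'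
  have h2 : (c : ℂ) • (Matrix.of fun k l : s => cexp (Real.pi * I * δ * (wdg k l : ℤ)) * ψ ((l : ℤ × ℤ) - k)) =
      (Matrix.of fun k l : s => cexp (Real.pi * I * δ * (wdg k l : ℤ)) *
        ((c : ℂ) * ψ ((l : ℤ × ℤ) - k))) := by
    ext k l
    rw [Matrix.smul_apply, Matrix.of_apply, Matrix.of_apply, smul_eq_mul]
    ring
  rw [← h2]
  exact h1

/-- precomposition with an additive bijection preserving `wdg` -/
theorem TPD.comp {δ : ℝ} {ψ : ℤ × ℤ → ℂ} (h : TPD δ ψ) (e : ℤ × ℤ ≃ ℤ × ℤ)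
    (hs : ∀ k l, e (l - k) = e l - e k) (hw : ∀ k l, wdg (e k) (e l) = wdg k l) :
    TPD δ (fun k => ψ (e k)) := by
  classical
  intro s
  have h1 := (h (s.map e.toEmbedding)).submatrix
    (fun k : s => (⟨e k, Finset.mem_map_of_mem _ k.2⟩ : (s.map e.toEmbedding : Finset (ℤ × ℤ))))
  have h2 : (Matrix.of fun k l : (s.map e.toEmbedding : Finset (ℤ × ℤ)) =>
        cexp (Real.pi * I * δ * (wdg k l : ℤ)) * ψ ((l : ℤ × ℤ) - k)).submatrix
      (fun k : s => (⟨e k, Finset.mem_map_of_mem _ k.2⟩ : (s.map e.toEmbedding : Finset (ℤ × ℤ))))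
      (fun k : s => (⟨e k, Finset.mem_map_of_mem _ k.2⟩ : (s.map e.toEmbedding : Finset (ℤ × ℤ)))) =
      (Matrix.of fun k l : s => cexp (Real.pi * I * δ * (wdg k l : ℤ)) *
        ψ (e ((l : ℤ × ℤ) - k))) := by
    ext k l
    rw [Matrix.submatrix_apply, Matrix.of_apply, Matrix.of_apply, hs, hw]
  rw [← h2]
  exact h1

private theorem KTpd_base (H : Mat) (hH : 0 < H.det) (f : L2) :
    TPD (1 / H.det) (fun k => ⟪f, MP7e122f.rho (zet H k) f⟫) := by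
  apply tpd_of_gram (fun k => MP7e122f.rho (zet H k) f)
  intro k l
  rw [inner_zet H hH]
  push_cast
  rfl

private theorem KTpd_e3_sub (k l : ℤ × ℤ) : e3 (l - k) = e3 l - e3 k := by
  unfold e3
  ext
  · simp only [Equiv.coe_fn_mk, Prod.fst_sub, Prod.snd_sub]
    ring
  · simp only [Equiv.coe_fn_mk, Prod.fst_sub, Prod.snd_sub]

private theorem KTpd_e3_wdg (k l : ℤ × ℤ) : wdg (e3 k) (e3 l) = wdg k l := by
  unfold e3 wdg
  simp only [Equiv.coe_fn_mk]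
  ring

private theorem KTpd_e3s_sub (k l : ℤ × ℤ) : e3.symm (l - k) = e3.symm l - e3.symm k := by
  unfold e3
  ext
  · simp only [Equiv.coe_fn_symm_mk, Prod.fst_sub, Prod.snd_sub]
  · simp only [Equiv.coe_fn_symm_mk, Prod.fst_sub, Prod.snd_sub]
    ring

private theorem KTpd_e3s_wdg (k l : ℤ × ℤ) : wdg (e3.symm k) (e3.symm l) = wdg k l := by
  unfold e3 wdg
  simp only [Equiv.coe_fn_symm_mk]
  ring

private theorem KTpd_st (H : Mat) (f : L2) (k : ℤ × ℤ) :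
    ((st H f k : ℝ) : ℂ) = (1 / 2) * (⟪f, MP7e122f.rho (zet H k) f⟫ + ⟪f, MP7e122f.rho (zet H (-k)) f⟫) := by
  have h1 : ⟪f, MP7e122f.rho (zet H (-k)) f⟫ = (starRingEnd ℂ) ⟪f, MP7e122f.rho (zet H k) f⟫ := by
    rw [zet_neg, ← rho_adj, inner_conj_symm]
  rw [h1, Complex.add_conj]
  unfold st
  push_cast
  ring

private theorem KTpd_sttpd (H : Mat) (hH : 0 < H.det) (f : L2) :
    TPD (1 / H.det) (fun k => ((st H f k : ℝ) : ℂ)) := by
  have h1 := KTpd_base H hH f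
  have h2 := h1.comp (Equiv.neg (ℤ × ℤ)) (by
    intro k l
    simp only [Equiv.neg_apply]
    abel) (by
    intro k l
    simp only [Equiv.neg_apply, wdg, Prod.fst_neg, Prod.snd_neg]
    ring)
  have h3 := (h1.add h2).smul (c := 1 / 2) (by norm_num)
  have h4 : (fun k => (((1 / 2 : ℝ)) : ℂ) * (⟪f, MP7e122f.rho (zet H k) f⟫ + ⟪f, MP7e122f.rho (zet H ((Equiv.neg (ℤ × ℤ)) k)) f⟫)) =
      fun k => ((st H f k : ℝ) : ℂ) := by
    funext k
    rw [KTpd_st, Equiv.neg_apply]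
    push_cast
    rfl
  rw [← h4]
  exact h3

theorem tpd_rav (H : Mat) (hH : 0 < H.det) (f : L2) :
    TPD (1 / H.det) (fun k => ((rav (st H f) k : ℝ) : ℂ)) := by
  have h1 := KTpd_sttpd H hH f
  have h2 := h1.comp e3 KTpd_e3_sub KTpd_e3_wdg
  have h3 := h1.comp e3.symm KTpd_e3s_sub KTpd_e3s_wdg
  have h4 := ((h1.add h2).add h3).smul (c := 1 / 3) (by norm_num)
  have h5 : (fun k => (((1 / 3 : ℝ)) : ℂ) * (((st H f k : ℝ) : ℂ) + ((st H f (e3 k) : ℝ) : ℂ) + ((st H f (e3.symm k) : ℝ) : ℂ))) =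
      fun k => ((rav (st H f) k : ℝ) : ℂ) := by
    funext k
    unfold rav
    push_cast
    ring
  rw [← h5]
  exact h4

end MP7e122f.R
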