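import Pool.Agent.Lib.MP_7e122f_anR.KHb
import Pool.Agent.Lib.MP_7e122f_anR.KCons
import Pool.Agent.Lib.MP_7e122f_anR.KBound
import Pool.Agent.Lib.MP_7e122f_anR.KGrow
import Pool.Agent.Lib.MP_7e122f_anR.GTest

/-!
# Values of states on the hexagonal lattice of density `1 + ε`
-/

open MeasureTheory Complex
open scoped ComplexInnerProductSpace ENNReal ComplexOrder

namespace MP7e122f.R

private theorem KVal_sig_sq (k : ℤ × ℤ) : (sig k : ℝ) * (sig k : ℝ) = 1 := by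
  unfold sig
  split_ifs <;> simp

/-- `N² r^N ≤ 100 r^10` for `N ≥ 10` -/
private theorem KVal_mono {r : ℝ} (h0 : 0 ≤ r) (h1 : r ≤ 82 / 100) (m : ℕ) :
    ((10 + m : ℕ) : ℝ) ^ 2 * r ^ (10 + m) ≤ 100 * r ^ 10 := by
  induction m with
  | zero => norm_num
  | succ m ih =>
    have hm : (0 : ℝ) ≤ m := Nat.cast_nonneg m
    have h2 : ((10 + (m + 1) : ℕ) : ℝ) ^ 2 * r ≤ ((10 + m : ℕ) : ℝ) ^ 2 := by
      push_cast
      have h3 : (10 + ((m : ℝ) + 1)) ^ 2 * r ≤ (10 + ((m : ℝ) + 1)) ^ 2 * (82 / 100) :=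
        mul_le_mul_of_nonneg_left h1 (by positivity)
      nlinarith
    calc ((10 + (m + 1) : ℕ) : ℝ) ^ 2 * r ^ (10 + (m + 1))
        = (((10 + (m + 1) : ℕ) : ℝ) ^ 2 * r) * r ^ (10 + m) := by
          rw [← add_assoc 10 m 1, pow_succ]; ring
      _ ≤ ((10 + m : ℕ) : ℝ) ^ 2 * r ^ (10 + m) := mul_le_mul_of_nonneg_right h2 (by positivity)
      _ ≤ _ := ih

/-- any weights: `∑ w φ = Gq - ε ∑ w sig κ` (`φ = sig (1 - ε κ)`; all sums absolutely
convergent).  Here `w = cc A3 A1 A2`, and `Gq 1`-type sum is `∑ sig w`. -/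
theorem kap_split (M : Mat) (hM : 0 < M.det) {ε : ℝ} (hε : 0 < ε) {φ : ℤ × ℤ → ℝ}
    (hφ : ∀ k, |φ k| ≤ 1) :
    ∑' k, wt M k * φ k = ∑' k, wt M k * (sig k : ℝ)
      - ε * ∑' k, wt M k * ((sig k : ℝ) * kapF ε φ k) := by
  have s1 := summable_wt_mul M hM (fun k => (sig k : ℝ)) KHb_abs_sig
  have s2 := summable_wt_mul M hM φ hφ
  have hterm : ∀ k, wt M k * ((sig k : ℝ) * kapF ε φ k) =
      ε⁻¹ * (wt M k * (sig k : ℝ) - wt M k * φ k) := by
    intro k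
    have h := KVal_sig_sq k
    have h2 : (sig k : ℝ) * (1 - (sig k : ℝ) * φ k) = (sig k : ℝ) - φ k := by
      linear_combination -(φ k) * h
    unfold kapF
    calc wt M k * ((sig k : ℝ) * ((1 - (sig k : ℝ) * φ k) / ε)) =
        ε⁻¹ * (wt M k * ((sig k : ℝ) * (1 - (sig k : ℝ) * φ k))) := by ring
      _ = _ := by rw [h2]; ring
  simp only [hterm]
  rw [tsum_mul_left, Summable.tsum_sub s1 s2, ← mul_assoc, mul_inv_cancel₀ hε.ne']
  ring

/-- the sum with the state, for the weights `t^N` -/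
private theorem KVal_sum {ε t : ℝ} {κ : ℤ × ℤ → ℝ} (hK : KState ε κ) (hε : 0 < ε)
    (hε1 : ε ≤ 1 / 10) (ht0 : 0 < t) (ht1 : t ≤ 0.1631)
    (hsum : Summable fun k : ℤ × ℤ => t ^ (Nf k).toNat * ((sig k : ℝ) * κ k)) :
    ∑' k : ℤ × ℤ, t ^ (Nf k).toNat * ((sig k : ℝ) * κ k) ≤
      -(6 * t * κ (1, 0)) - 6 * t ^ 3 * κ (1, 1) + 6 * t ^ 4 * κ (2, 0)
        + 1 / 10 ^ 6 * (κ (1, 0) + 1) := by
  have hk1 := hK.nonneg (1, 0)
  -- the tail
  obtain ⟨C, hC⟩ : ∃ C : ℝ, C = 100 * (5 * t) ^ 10 * (κ (1, 0) + 1) := ⟨_, rfl⟩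
  have hC0 : 0 < C := by rw [hC]; positivity
  obtain ⟨ψ, hψ⟩ : ∃ ψ : ℤ × ℤ → ℝ, ψ = fun k => if k ∈ KHb_S then 0 else
    t ^ (Nf k).toNat * ((sig k : ℝ) * κ k) * 5 ^ (Nf k).toNat / C := ⟨_, rfl⟩
  have hout : ∀ k : ℤ × ℤ, k ∉ KHb_S → 10 ≤ Nf k := by
    intro k hk
    by_contra hcon
    apply hk
    rw [KHb_S, Finset.mem_filter]
    exact ⟨HexTail_box (k := k) (n := 3) (by norm_num) (by omega), by omega⟩
  have hψb : ∀ k, |ψ k| ≤ 1 := by
    intro k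
    rw [hψ]
    simp only
    split_ifs with hk
    · simp
    · have h10 := hout k hk
      obtain ⟨m, hm⟩ : ∃ m : ℕ, (Nf k).toNat = 10 + m := ⟨(Nf k).toNat - 10, by omega⟩
      have hN : ((Nf k : ℤ) : ℝ) = ((10 + m : ℕ) : ℝ) := by
        have h := Int.toNat_of_nonneg (HexTail_nonneg k)
        rw [hm] at h
        exact_mod_cast congrArg (fun z : ℤ => (z : ℝ)) h.symm
      have hb := hK.bound hε.le k
      rw [hN] at hb
      have hn10 : (10 : ℝ) ≤ ((10 + m : ℕ) : ℝ) := by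
        push_cast
        have : (0 : ℝ) ≤ m := Nat.cast_nonneg m
        linarith
      rw [hm, abs_div, abs_of_pos hC0, div_le_one hC0, abs_mul, abs_mul, abs_mul,
        abs_of_pos (by positivity : (0 : ℝ) < 5 ^ (10 + m)),
        abs_of_pos (by positivity : (0 : ℝ) < t ^ (10 + m)), abs_of_nonneg (hK.nonneg k)]
      have h1 := KHb_abs_sig k
      have h4 := KVal_mono (r := 5 * t) (by positivity) (by linarith) m
      obtain ⟨n, hn⟩ : ∃ n : ℝ, n = ((10 + m : ℕ) : ℝ) := ⟨_, rfl⟩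
      rw [← hn] at hb hn10 h4
      have hpi2 : Real.pi ^ 2 ≤ 10 := by
        have := Real.pi_lt_d4
        have := Real.pi_pos
        nlinarith
      have h5 : κ k ≤ n ^ 2 * (κ (1, 0) + 1) := by
        have e1 : 8 / 3 * n * κ (1, 0) ≤ n ^ 2 * κ (1, 0) := by
          apply mul_le_mul_of_nonneg_right _ hk1
          nlinarith
        have e2 : Real.pi ^ 2 * ε * n ^ 2 / 9 ≤ n ^ 2 * 1 := by
          have e3 : Real.pi ^ 2 * ε ≤ 10 * (1 / 10) := by
            apply mul_le_mul hpi2 hε1 hε.le (by norm_num)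
          have e4 : Real.pi ^ 2 * ε * n ^ 2 ≤ 10 * (1 / 10) * n ^ 2 :=
            mul_le_mul_of_nonneg_right e3 (by positivity)
          have e5 : 0 ≤ n ^ 2 := by positivity
          linarith
        linarith
      calc t ^ (10 + m) * (|(sig k : ℝ)| * κ k) * 5 ^ (10 + m)
          ≤ t ^ (10 + m) * (1 * (n ^ 2 * (κ (1, 0) + 1))) * 5 ^ (10 + m) := by
            apply mul_le_mul_of_nonneg_right _ (by positivity)
            apply mul_le_mul_of_nonneg_left _ (by positivity)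
            exact mul_le_mul h1 h5 (hK.nonneg k) zero_le_one
        _ = (n ^ 2 * (5 * t) ^ (10 + m)) * (κ (1, 0) + 1) := by
            rw [mul_pow]; ring
        _ ≤ (100 * (5 * t) ^ 10) * (κ (1, 0) + 1) :=
            mul_le_mul_of_nonneg_right h4 (by linarith)
        _ = C := by rw [hC]
  have htail := hex_tail12 (1 / 5) (by norm_num) le_rfl ψ hψb
  have hfin0 : ∑ k ∈ (Finset.Icc (-3) 3 ×ˢ Finset.Icc (-3) 3 :
      Finset (ℤ × ℤ)).filter (fun k => Nf k ≤ 9), ψ k * (1 / 5 : ℝ) ^ (Nf k).toNat = 0 := by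
    apply Finset.sum_eq_zero
    intro k hk
    have hk' : k ∈ KHb_S := hk
    rw [hψ]
    simp only
    rw [if_pos hk', zero_mul]
  rw [hfin0, sub_zero] at htail
  have hψG : ∀ k, ψ k * (1 / 5 : ℝ) ^ (Nf k).toNat =
      C⁻¹ * (if k ∈ KHb_S then 0 else t ^ (Nf k).toNat * ((sig k : ℝ) * κ k)) := by
    intro k
    rw [hψ]
    simp only
    split_ifs with hk
    · simp
    · rw [one_div, inv_pow]
      have h5 : (5 : ℝ) ^ (Nf k).toNat ≠ 0 := by positivity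
      field_simp
  simp only [hψG] at htail
  rw [tsum_mul_left, abs_mul, abs_of_pos (inv_pos.2 hC0), inv_mul_le_iff₀ hC0] at htail
  -- splitting
  have hsplit : ∑' k : ℤ × ℤ, t ^ (Nf k).toNat * ((sig k : ℝ) * κ k) =
      ∑ k ∈ KHb_S, t ^ (Nf k).toNat * ((sig k : ℝ) * κ k) +
        ∑' k : ℤ × ℤ, (if k ∈ KHb_S then 0 else t ^ (Nf k).toNat * ((sig k : ℝ) * κ k)) := by
    have h1 : HasSum (fun k : ℤ × ℤ => if k ∈ KHb_S then
        t ^ (Nf k).toNat * ((sig k : ℝ) * κ k) else 0)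
        (∑ k ∈ KHb_S, t ^ (Nf k).toNat * ((sig k : ℝ) * κ k)) := by
      have h : HasSum (fun k : ℤ × ℤ => if k ∈ KHb_S then
          t ^ (Nf k).toNat * ((sig k : ℝ) * κ k) else 0)
          (∑ k ∈ KHb_S, if k ∈ KHb_S then t ^ (Nf k).toNat * ((sig k : ℝ) * κ k) else 0) :=
        hasSum_sum_of_ne_finset_zero (fun k hk => if_neg hk)
      have h2 : (∑ k ∈ KHb_S, if k ∈ KHb_S then t ^ (Nf k).toNat * ((sig k : ℝ) * κ k) else 0) =
          ∑ k ∈ KHb_S, t ^ (Nf k).toNat * ((sig k : ℝ) * κ k) :=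
        Finset.sum_congr rfl fun k hk => if_pos hk
      rw [h2] at h
      exact h
    have h3 : ∀ k : ℤ × ℤ, t ^ (Nf k).toNat * ((sig k : ℝ) * κ k) -
        (if k ∈ KHb_S then t ^ (Nf k).toNat * ((sig k : ℝ) * κ k) else 0) =
        (if k ∈ KHb_S then 0 else t ^ (Nf k).toNat * ((sig k : ℝ) * κ k)) := by
      intro k
      split_ifs <;> ring
    have h4 := hsum.tsum_sub h1.summable
    rw [h1.tsum_eq] at h4
    simp only [h3] at h4
    linarith
  -- the first shells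
  have hsub : F19 ⊆ KHb_S := by decide +kernel
  have hdiff : ∀ k ∈ KHb_S \ F19, sig k = -1 := by decide +kernel
  have hfirst : ∑ k ∈ KHb_S, t ^ (Nf k).toNat * ((sig k : ℝ) * κ k) ≤
      ∑ k ∈ F19, t ^ (Nf k).toNat * ((sig k : ℝ) * κ k) := by
    rw [← Finset.sum_sdiff hsub]
    have h : ∑ k ∈ KHb_S \ F19, t ^ (Nf k).toNat * ((sig k : ℝ) * κ k) ≤ 0 := by
      apply Finset.sum_nonpos
      intro k hk
      rw [hdiff k hk]
      have h1 := hK.nonneg k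
      have h2 : 0 ≤ t ^ (Nf k).toNat * κ k := by positivity
      push_cast
      linarith
    linarith
  have hS1 : ∀ k ∈ S1, (Nf k).toNat = 1 ∧ sig k = -1 := by decide +kernel
  have hS3 : ∀ k ∈ S3, (Nf k).toNat = 3 ∧ sig k = -1 := by decide +kernel
  have hS4 : ∀ k ∈ S4, (Nf k).toNat = 4 ∧ sig k = 1 := by decide +kernel
  have c1 : S1.card = 6 := by decide +kernel
  have c3 : S3.card = 6 := by decide +kernel
  have c4 : S4.card = 6 := by decide +kernel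
  have e1 : ∑ k ∈ S1, t ^ (Nf k).toNat * ((sig k : ℝ) * κ k) = -(6 * t * κ (1, 0)) := by
    rw [Finset.sum_congr rfl (g := fun _ => t ^ 1 * ((((-1 : ℤ)) : ℝ) * κ (1, 0)))]
    · rw [Finset.sum_const, c1, nsmul_eq_mul]
      push_cast
      ring
    · intro k hk
      rw [(hS1 k hk).1, (hS1 k hk).2, (hK.shell k).1 hk]
  have e3' : ∑ k ∈ S3, t ^ (Nf k).toNat * ((sig k : ℝ) * κ k) = -(6 * t ^ 3 * κ (1, 1)) := by
    rw [Finset.sum_congr rfl (g := fun _ => t ^ 3 * ((((-1 : ℤ)) : ℝ) * κ (1, 1)))]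
    · rw [Finset.sum_const, c3, nsmul_eq_mul]
      push_cast
      ring
    · intro k hk
      rw [(hS3 k hk).1, (hS3 k hk).2, (hK.shell k).2.1 hk]
  have e4 : ∑ k ∈ S4, t ^ (Nf k).toNat * ((sig k : ℝ) * κ k) = 6 * t ^ 4 * κ (2, 0) := by
    rw [Finset.sum_congr rfl (g := fun _ => t ^ 4 * ((((1 : ℤ)) : ℝ) * κ (2, 0)))]
    · rw [Finset.sum_const, c4, nsmul_eq_mul]
      push_cast
      ring
    · intro k hk
      rw [(hS4 k hk).1, (hS4 k hk).2, (hK.shell k).2.2 hk]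
  have hF := sum_F19 (fun k => t ^ (Nf k).toNat * ((sig k : ℝ) * κ k))
  rw [e1, e3', e4, hK.zero, mul_zero, mul_zero, zero_add] at hF
  -- the tail constant
  have h10 : t ^ 10 ≤ (0.1631 : ℝ) ^ 10 := pow_le_pow_left₀ ht0.le ht1 10
  have hCle : C * (10 * (1 / 5) ^ 12) ≤ 1 / 10 ^ 6 * (κ (1, 0) + 1) := by
    rw [hC, mul_pow]
    have e : 100 * ((5 : ℝ) ^ 10 * t ^ 10) * (κ (1, 0) + 1) * (10 * (1 / 5) ^ 12) =
        40 * t ^ 10 * (κ (1, 0) + 1) := by
      norm_num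
      ring
    rw [e]
    apply mul_le_mul_of_nonneg_right _ (by linarith)
    calc 40 * t ^ 10 ≤ 40 * (0.1631 : ℝ) ^ 10 := by linarith
      _ ≤ 1 / 10 ^ 6 := by norm_num
  have htail2 := (abs_le.1 htail).2
  rw [hsplit]
  linarith

private theorem KVal_y {ε y : ℝ} (hy : y = Real.pi * (1 + ε) / (2 * Real.sqrt 3)) :
    y = (1 + ε) * y1c := by
  rw [hy]
  unfold y1c
  ring

private theorem KVal_kt {ε : ℝ} (hε : 0 < ε) : 0 < kt ε ∧ kt ε ≤ 0.1631 := by
  refine ⟨Real.exp_pos _, le_trans ?_ KHb_t_le⟩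
  unfold kt
  apply Real.exp_le_exp.2
  have hc0 : 0 < Real.pi / Real.sqrt 3 := by positivity
  nlinarith

/-- `TS H f = ∑ w φ`, `φ = rav (st H f)` (`rav_value`), `∑ w sig = Gq (1+ε) y1c y1c y1c`,
`-∑ w sig κ ≥ 6 t κ1 + 6 t³ κ3 - 6 t⁴ κ4 - ∑_{N ≥ 12} t^N κ`, and the last sum is at most
`1e-6 (κ1 + 1)` by `KState.bound` (`t ≤ 0.1631`); then `KC.LL`. -/
theorem kval_lower {ε y : ℝ} (hε : 0 < ε) (hε1 : ε ≤ 1 / 10)
    (hy : y = Real.pi * (1 + ε) / (2 * Real.sqrt 3)) {H : Mat} (hH : 0 < H.det)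
    (hHd : H.det = 1 / (1 + ε)) (hwH : ∀ k, wt H k = cc y y y k) (f : L2) (hf : ‖f‖ = 1) :
    Gq (1 + ε) y1c y1c y1c + ε * LLf ε (kapF ε (rav (st H f)) (1, 0)) ≤ TS H f := by
  have hK := kstate_rav H hH hε hHd f hf
  have hKC := kc_rav H hH hε hHd f hf
  have hLL := hKC.LL hε hε1
  have hyy := KVal_y hy
  obtain ⟨ht0, ht1⟩ := KVal_kt hε
  have b1 : ∀ k, |st H f k| ≤ 1 := abs_st_le H f hf
  have hφ : ∀ k, |rav (st H f) k| ≤ 1 := by
    intro k
    unfold rav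
    rw [abs_div, abs_of_pos (by norm_num : (0 : ℝ) < 3), div_le_one (by norm_num)]
    have h1 := abs_add_three (st H f k) (st H f (e3 k)) (st H f (e3.symm k))
    have h2 := b1 k
    have h3 := b1 (e3 k)
    have h4 := b1 (e3.symm k)
    linarith
  have hwt : ∀ k, wt H k = kt ε ^ (Nf k).toNat := by
    intro k
    rw [hwH, hyy, KHb_cc]
    rfl
  have hsplit := kap_split H hH hε hφ
  rw [rav_value H hH hwH f hf] at hsplit
  have hGq : ∑' k, wt H k * (sig k : ℝ) = Gq (1 + ε) y1c y1c y1c := by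
    unfold Gq
    refine tsum_congr fun k => ?_
    rw [hwH, hyy, mul_comm]
  have hsum : Summable fun k : ℤ × ℤ =>
      kt ε ^ (Nf k).toNat * ((sig k : ℝ) * kapF ε (rav (st H f)) k) := by
    have s1 := summable_wt_mul H hH (fun k => (sig k : ℝ)) KHb_abs_sig
    have s2 := summable_wt_mul H hH (rav (st H f)) hφ
    have s3 := (s1.sub s2).mul_left ε⁻¹
    refine s3.congr fun k => ?_
    have h := KVal_sig_sq k
    have h2 : (sig k : ℝ) * (1 - (sig k : ℝ) * rav (st H f) k) =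
        (sig k : ℝ) - rav (st H f) k := by
      linear_combination -(rav (st H f) k) * h
    rw [← hwt]
    unfold kapF
    calc ε⁻¹ * (wt H k * (sig k : ℝ) - wt H k * rav (st H f) k) =
        ε⁻¹ * (wt H k * ((sig k : ℝ) - rav (st H f) k)) := by ring
      _ = ε⁻¹ * (wt H k * ((sig k : ℝ) * (1 - (sig k : ℝ) * rav (st H f) k))) := by rw [h2]
      _ = _ := by ring
  have hmain := KVal_sum hK hε hε1 ht0 ht1 hsum
  rw [hGq] at hsplit
  simp only [hwt] at hsplit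
  rw [hsplit]
  have h5 : LLf ε (kapF ε (rav (st H f)) (1, 0)) ≤
      -∑' k : ℤ × ℤ, kt ε ^ (Nf k).toNat * ((sig k : ℝ) * kapF ε (rav (st H f)) k) := by
    linarith
  have h6 := mul_le_mul_of_nonneg_left h5 hε.le
  linarith

/-- `GA_test` for the hexagonal lattice, `(2 - 1/δ) y = (1 + 2ε) y1` -/
theorem aval_le_Gq {ε y : ℝ} (hε : 0 < ε) (hε1 : ε ≤ 1 / 10)
    (hy : y = Real.pi * (1 + ε) / (2 * Real.sqrt 3)) {H : Mat} (hH : 0 < H.det)
    (hHd : H.det = 1 / (1 + ε)) (hwH : ∀ k, wt H k = cc y y y k) :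
    aval H ≤ Gq (1 + 2 * ε) y1c y1c y1c := by
  have h3 : Real.sqrt 3 ≠ 0 := by positivity
  have h33 : Real.sqrt 3 ^ 2 = 3 := Real.sq_sqrt (by norm_num)
  have h1ε : (1 + ε) ≠ 0 := by positivity
  have hy0 : 0 ≤ y := by rw [hy]; positivity
  have hd1 : H.det < 1 := by
    rw [hHd, div_lt_one (by linarith)]
    linarith
  have h := GA_test H hH hd1 hy0 hy0 hy0 hwH (by
    rw [hHd, hy]
    field_simp
    ring) (2 - H.det) rfl
  have hfy : (2 - H.det) * y = (1 + 2 * ε) * y1c := by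
    rw [hHd, hy]
    unfold y1c
    field_simp
    ring
  rw [hfy] at h
  exact h

end MP7e122f.R
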