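import Pool.Agent.Lib.MP_7e122f_anR.EDefs

/-!
# Normalised quantities

Parameters `y > 0`, `r > 0`, `0 ≤ p ≤ 1`; `κ = 1 - p + p²`,
`x1 = (1+p) r/3 ≥ x2 = (1-2p) r/3 ≥ x3 = -(2-p) r/3`, `∑ x = 0`, `∑ x² = (2/3) κ r²`,
`ch = √(1 + κ r²/(9 y²))`, `A_i = y ch + x_i`, so that `A1A2 + A2A3 + A3A1 = 3 y²`,
`H = 2 y ch`, `h = H - 2y = g0 κ r²`, `g0 = (2/9)/(y (ch + 1))`,
`T_i = exp(x_i - h)` (so `t_i = t T_i`, `t = exp(-2y)`), `O_i = exp(-3(x_i + h))`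
(so `w_i = t³ O_i`), `ρ = (2/3) √κ r`, `ϖ = exp(-(H - ρ))`.
-/

namespace MP7e122f.R

noncomputable section

def kap (p : ℝ) : ℝ := 1 - p + p ^ 2
def xx1 (r p : ℝ) : ℝ := (1 + p) * r / 3
def xx2 (r p : ℝ) : ℝ := (1 - 2 * p) * r / 3
def xx3 (r p : ℝ) : ℝ := -((2 - p) * r / 3)
def chh (y r p : ℝ) : ℝ := Real.sqrt (1 + kap p * r ^ 2 / (9 * y ^ 2))
def g0 (y r p : ℝ) : ℝ := 2 / 9 / (y * (chh y r p + 1))
def hh (y r p : ℝ) : ℝ := g0 y r p * (kap p * r ^ 2)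
def AA1 (y r p : ℝ) : ℝ := y * chh y r p + xx1 r p
def AA2 (y r p : ℝ) : ℝ := y * chh y r p + xx2 r p
def AA3 (y r p : ℝ) : ℝ := y * chh y r p + xx3 r p
def T1 (y r p : ℝ) : ℝ := Real.exp (xx1 r p - hh y r p)
def T2 (y r p : ℝ) : ℝ := Real.exp (xx2 r p - hh y r p)
def T3 (y r p : ℝ) : ℝ := Real.exp (xx3 r p - hh y r p)
def O1 (y r p : ℝ) : ℝ := Real.exp (-(3 * (xx1 r p + hh y r p)))
def O2 (y r p : ℝ) : ℝ := Real.exp (-(3 * (xx2 r p + hh y r p)))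
def O3 (y r p : ℝ) : ℝ := Real.exp (-(3 * (xx3 r p + hh y r p)))
/-- `∑ T - 3`, `∑ O - 3`, `∑ T⁴ - 3` divided by `κ r²` -/
def D1 (y r p : ℝ) : ℝ := (T1 y r p + T2 y r p + T3 y r p - 3) / (kap p * r ^ 2)
def D3 (y r p : ℝ) : ℝ := (O1 y r p + O2 y r p + O3 y r p - 3) / (kap p * r ^ 2)
def D4 (y r p : ℝ) : ℝ := (T1 y r p ^ 4 + T2 y r p ^ 4 + T3 y r p ^ 4 - 3) / (kap p * r ^ 2)
def XX (y r p : ℝ) : ℝ := T1 y r p + T2 y r p + T3 y r p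
def Dl (y r p : ℝ) : ℝ := Dq (T1 y r p) (T2 y r p) (T3 y r p) / (kap p * r ^ 2)
def CovN (y r p : ℝ) : ℝ :=
  Cov (T1 y r p) (T2 y r p) (T3 y r p) (O1 y r p) (O2 y r p) (O3 y r p) / (kap p * r ^ 2)
def P3N (y r p : ℝ) : ℝ :=
  P3 (T1 y r p) (T2 y r p) (T3 y r p) (O1 y r p) (O2 y r p) (O3 y r p) / (kap p * r ^ 2)
def Q3N (y r p : ℝ) : ℝ :=
  Q3 (T1 y r p) (T2 y r p) (T3 y r p) (O1 y r p) (O2 y r p) (O3 y r p) / (kap p * r ^ 2)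
def bb1 (y r p : ℝ) : ℝ := (T2 y r p - T3 y r p) / r
def bb2 (y r p : ℝ) : ℝ := (T1 y r p - T3 y r p) / r
def bb3 (y r p : ℝ) : ℝ := (T1 y r p - T2 y r p) / r
def gg1 (y r p : ℝ) : ℝ := ga1 (T1 y r p) (T2 y r p) (T3 y r p) / r
def gg2 (y r p : ℝ) : ℝ := ga2 (T1 y r p) (T2 y r p) (T3 y r p) / r
def gg3 (y r p : ℝ) : ℝ := ga3 (T1 y r p) (T2 y r p) (T3 y r p) / r
def rho (r p : ℝ) : ℝ := 2 / 3 * Real.sqrt (kap p) * r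
def vpi (y r p : ℝ) : ℝ := Real.exp (-(2 * y * chh y r p - rho r p))

/-- main term, all divided by `t κ r²`; `n = ν t` -/
def mainN (y r p n z1 z3 : ℝ) : ℝ :=
  z1 * (2 * D1 y r p + 4 * n * (Real.exp (-(2 * y)) ^ 2 * CovN y r p + Dl y r p)
      - 8 * n ^ 2 * XX y r p * Dl y r p)
  + z3 * (2 * Real.exp (-(2 * y)) ^ 2 * D3 y r p - 4 * n * Dl y r p
      + 4 * n ^ 2 * XX y r p * Dl y r p)
  - 2 * Real.exp (-(2 * y)) ^ 3 * |D4 y r p|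
  - |2 * n ^ 2 * XX y r p * Dl y r p - 4 * n * Real.exp (-(2 * y)) ^ 2 * P3N y r p|
  - |2 * n ^ 2 * XX y r p * Dl y r p - 4 * n * Real.exp (-(2 * y)) ^ 2 * Q3N y r p|

/-- coefficient of `z1` -/
def c1N (y r p n : ℝ) : ℝ :=
  2 * D1 y r p + 4 * n * (Real.exp (-(2 * y)) ^ 2 * CovN y r p + Dl y r p)
      - 8 * n ^ 2 * XX y r p * Dl y r p

/-- the five parts of the remainder -/
def rem0 (y r p : ℝ) : ℝ :=
  3 / Real.exp (-(2 * y)) * (2 * vpi y r p ^ 7 * min (1 / (kap p * r ^ 2)) (98 / 9)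
    + vpi y r p ^ 9 * min (1 / (kap p * r ^ 2)) 18
    + min (1 / (kap p * r ^ 2)) 32 * (vpi y r p ^ 12 + 2.35 * vpi y r p ^ 13
      + 1.8 * vpi y r p ^ 16 + 18 * vpi y r p ^ 19))
  + 100 * g0 y r p * Real.exp (-(2 * y)) ^ 6

def rem1 (y r p n : ℝ) : ℝ :=
  16 * n * Real.exp (-(2 * y)) ^ 3 / kap p *
    (|T1 y r p ^ 4 - 1| / r * (bb2 y r p + bb3 y r p)
      + |T2 y r p ^ 4 - 1| / r * (bb3 y r p + bb1 y r p)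
      + |T3 y r p ^ 4 - 1| / r * (bb1 y r p + bb2 y r p))
  + n * bb2 y r p / (Real.exp (-(2 * y)) * kap p) *
    (240 * vpi y r p ^ 7 * min (1 / r) (7 * (2 / 3 * Real.sqrt (kap p) + g0 y r p * kap p * r))
      + 144 * vpi y r p ^ 9 * min (1 / r) (9 * (2 / 3 * Real.sqrt (kap p) + g0 y r p * kap p * r))
      + 920 * vpi y r p ^ 12 *
        min (1 / r) (13 * (2 / 3 * Real.sqrt (kap p) + g0 y r p * kap p * r)))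

def rem2 (y r p n : ℝ) : ℝ :=
  64 * n ^ 2 * Real.exp (-(2 * y)) ^ 3 / kap p *
    ((bb2 y r p + bb3 y r p) * (bb2 y r p + bb3 y r p + bb2 y r p)
      + (bb3 y r p + bb1 y r p) * (bb3 y r p + bb1 y r p + bb2 y r p)
      + (bb1 y r p + bb2 y r p) * (bb1 y r p + bb2 y r p + bb2 y r p))
  + 4368 * n ^ 2 * Real.exp (-(2 * y)) ^ 6 * bb2 y r p ^ 2 / kap p

def rem2b (y r p n u2 u3 : ℝ) : ℝ :=
  2 * n ^ 2 * Real.exp (-(2 * y)) ^ 2 / kap p *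
    n2g (O1 y r p) (O2 y r p) (O3 y r p) (bb1 y r p) (bb2 y r p) (bb3 y r p) u2 u3

def rem3 (y r p n u2 u3 : ℝ) : ℝ :=
  4 / 3 * n ^ 3 * r *
    n3g (kap p * Dl y r p) (T1 y r p) (T2 y r p) (T3 y r p) (bb1 y r p) (bb2 y r p) (bb3 y r p)
      (gg1 y r p) (gg2 y r p) (gg3 y r p) u2 u3 / kap p

def remN (y r p n u2 u3 : ℝ) : ℝ :=
  rem0 y r p + rem1 y r p n + rem2 y r p n + rem2b y r p n u2 u3 + rem3 y r p n u2 u3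

/-- The criterion: `z1 ≥ z1c`, `-1 ≤ z3 ≤ z3c` implies `mainN > remN`. -/
structure ECrit (y r p n z1 z3 u2 u3 : ℝ) : Prop where
  hn0 : 0 ≤ n
  hz1 : 0 ≤ z1
  vp : vpi y r p ≤ 1 / 2
  hle : hh y r p ≤ rho r p
  c1 : 0 ≤ c1N y r p n
  a : remN y r p n u2 u3 < mainN y r p n z1 z3
  b : remN y r p n u2 u3 < mainN y r p n z1 (-1)

end

end MP7e122f.R
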