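import Pool.Agent.Lib.MP_7e122f_anR.NDefs

namespace MP7e122f.R

private theorem NormC_kap (p : ℝ) : 0 < kap p := by
  unfold kap
  nlinarith [sq_nonneg (p - 1 / 2)]

private theorem NormC_sign {σ z s : ℝ} (hσ : σ = 1 ∨ σ = -1) (h : |z| ≤ 1) :
    -|s| ≤ σ * (z * s) := by
  have h1 : |σ * (z * s)| ≤ |s| := by
    rw [abs_mul, abs_mul]
    have h2 : |σ| = 1 := by
      rcases hσ with rfl | rfl
      · exact abs_one
      · rw [abs_neg, abs_one]
    rw [h2, one_mul]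
    exact mul_le_of_le_one_left (abs_nonneg s) h
  have h3 := neg_abs_le (σ * (z * s))
  linarith

/-- scaling of the main term (with the absolute values as in `mainN`): for `s1 = σ z1` etc. -/
theorem main_eq {y r p n : ℝ} (hy : 0 < y) (hr : 0 < r) (hp0 : 0 ≤ p) (hp1 : p ≤ 1)
    (hn : 0 ≤ n) (t : ℝ) (ht : t = Real.exp (-(2 * y))) (σ z1 z3 s4 s7 s7' : ℝ)
    (hσ : σ = 1 ∨ σ = -1) (h4 : |s4| ≤ 1) (h7 : |s7| ≤ 1) (h7' : |s7'| ≤ 1) :
    t * (kap p * r ^ 2) * mainN y r p n z1 z3 ≤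
      σ * ((σ * z1) * (2 * (t * T1 y r p + t * T2 y r p + t * T3 y r p - 3 * t)
            + 4 * (n / t) * (Cov (t * T1 y r p) (t * T2 y r p) (t * T3 y r p)
                (t ^ 3 * O1 y r p) (t ^ 3 * O2 y r p) (t ^ 3 * O3 y r p)
              + Dq (t * T1 y r p) (t * T2 y r p) (t * T3 y r p))
            - 8 * (n / t) ^ 2 * (t * T1 y r p + t * T2 y r p + t * T3 y r p)
              * Dq (t * T1 y r p) (t * T2 y r p) (t * T3 y r p))
        + (σ * z3) * (2 * (t ^ 3 * O1 y r p + t ^ 3 * O2 y r p + t ^ 3 * O3 y r p - 3 * t ^ 3)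
            - 4 * (n / t) * Dq (t * T1 y r p) (t * T2 y r p) (t * T3 y r p)
            + 4 * (n / t) ^ 2 * (t * T1 y r p + t * T2 y r p + t * T3 y r p)
              * Dq (t * T1 y r p) (t * T2 y r p) (t * T3 y r p))
        + s4 * (2 * ((t * T1 y r p) ^ 4 + (t * T2 y r p) ^ 4 + (t * T3 y r p) ^ 4 - 3 * t ^ 4))
        + s7 * (2 * (n / t) ^ 2 * (t * T1 y r p + t * T2 y r p + t * T3 y r p)
              * Dq (t * T1 y r p) (t * T2 y r p) (t * T3 y r p)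
            - 4 * (n / t) * P3 (t * T1 y r p) (t * T2 y r p) (t * T3 y r p)
                (t ^ 3 * O1 y r p) (t ^ 3 * O2 y r p) (t ^ 3 * O3 y r p))
        + s7' * (2 * (n / t) ^ 2 * (t * T1 y r p + t * T2 y r p + t * T3 y r p)
              * Dq (t * T1 y r p) (t * T2 y r p) (t * T3 y r p)
            - 4 * (n / t) * Q3 (t * T1 y r p) (t * T2 y r p) (t * T3 y r p)
                (t ^ 3 * O1 y r p) (t ^ 3 * O2 y r p) (t ^ 3 * O3 y r p))) := by
  have ht0 : 0 < t := by rw [ht]; exact Real.exp_pos _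
  have hk0 : kap p ≠ 0 := (NormC_kap p).ne'
  have hK : 0 < kap p * r ^ 2 := mul_pos (NormC_kap p) (pow_pos hr 2)
  have hσ2 : σ * σ = 1 := by
    rcases hσ with rfl | rfl <;> norm_num
  -- the normalised quantities
  have e1 : T1 y r p + T2 y r p + T3 y r p - 3 = kap p * r ^ 2 * D1 y r p := by
    unfold D1
    field_simp
  have e3 : O1 y r p + O2 y r p + O3 y r p - 3 = kap p * r ^ 2 * D3 y r p := by
    unfold D3
    field_simp
  have e4 : T1 y r p ^ 4 + T2 y r p ^ 4 + T3 y r p ^ 4 - 3 = kap p * r ^ 2 * D4 y r p := by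
    unfold D4
    field_simp
  have eD : Dq (t * T1 y r p) (t * T2 y r p) (t * T3 y r p) =
      t ^ 2 * (kap p * r ^ 2 * Dl y r p) := by
    have : Dq (T1 y r p) (T2 y r p) (T3 y r p) = kap p * r ^ 2 * Dl y r p := by
      unfold Dl
      field_simp
    rw [← this]
    unfold Dq
    ring
  have eC : Cov (t * T1 y r p) (t * T2 y r p) (t * T3 y r p)
      (t ^ 3 * O1 y r p) (t ^ 3 * O2 y r p) (t ^ 3 * O3 y r p) =
      t ^ 4 * (kap p * r ^ 2 * CovN y r p) := by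
    have : Cov (T1 y r p) (T2 y r p) (T3 y r p) (O1 y r p) (O2 y r p) (O3 y r p) =
        kap p * r ^ 2 * CovN y r p := by
      unfold CovN
      field_simp
    rw [← this]
    unfold Cov
    ring
  have eP : P3 (t * T1 y r p) (t * T2 y r p) (t * T3 y r p)
      (t ^ 3 * O1 y r p) (t ^ 3 * O2 y r p) (t ^ 3 * O3 y r p) =
      t ^ 4 * (kap p * r ^ 2 * P3N y r p) := by
    have : P3 (T1 y r p) (T2 y r p) (T3 y r p) (O1 y r p) (O2 y r p) (O3 y r p) =
        kap p * r ^ 2 * P3N y r p := by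
      unfold P3N
      field_simp
    rw [← this]
    unfold P3
    ring
  have eQ : Q3 (t * T1 y r p) (t * T2 y r p) (t * T3 y r p)
      (t ^ 3 * O1 y r p) (t ^ 3 * O2 y r p) (t ^ 3 * O3 y r p) =
      t ^ 4 * (kap p * r ^ 2 * Q3N y r p) := by
    have : Q3 (T1 y r p) (T2 y r p) (T3 y r p) (O1 y r p) (O2 y r p) (O3 y r p) =
        kap p * r ^ 2 * Q3N y r p := by
      unfold Q3N
      field_simp
    rw [← this]
    unfold Q3
    ring
  have eX : t * T1 y r p + t * T2 y r p + t * T3 y r p = t * XX y r p := by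
    unfold XX
    ring
  have f1 : 2 * (t * T1 y r p + t * T2 y r p + t * T3 y r p - 3 * t) =
      t * (kap p * r ^ 2) * (2 * D1 y r p) := by
    have : 2 * (t * T1 y r p + t * T2 y r p + t * T3 y r p - 3 * t) =
        2 * t * (T1 y r p + T2 y r p + T3 y r p - 3) := by ring
    rw [this, e1]
    ring
  have f3 : 2 * (t ^ 3 * O1 y r p + t ^ 3 * O2 y r p + t ^ 3 * O3 y r p - 3 * t ^ 3) =
      t * (kap p * r ^ 2) * (2 * t ^ 2 * D3 y r p) := by
    have : 2 * (t ^ 3 * O1 y r p + t ^ 3 * O2 y r p + t ^ 3 * O3 y r p - 3 * t ^ 3) =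
        2 * t ^ 3 * (O1 y r p + O2 y r p + O3 y r p - 3) := by ring
    rw [this, e3]
    ring
  have f4 : 2 * ((t * T1 y r p) ^ 4 + (t * T2 y r p) ^ 4 + (t * T3 y r p) ^ 4 - 3 * t ^ 4) =
      t * (kap p * r ^ 2) * (2 * t ^ 3 * D4 y r p) := by
    have : 2 * ((t * T1 y r p) ^ 4 + (t * T2 y r p) ^ 4 + (t * T3 y r p) ^ 4 - 3 * t ^ 4) =
        2 * t ^ 4 * (T1 y r p ^ 4 + T2 y r p ^ 4 + T3 y r p ^ 4 - 3) := by ring
    rw [this, e4]
    ring
  rw [f1, f3, f4, eD, eC, eP, eQ, eX]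
  -- the five coefficients
  have c1 : t * (kap p * r ^ 2) * (2 * D1 y r p)
      + 4 * (n / t) * (t ^ 4 * (kap p * r ^ 2 * CovN y r p) + t ^ 2 * (kap p * r ^ 2 * Dl y r p))
      - 8 * (n / t) ^ 2 * (t * XX y r p) * (t ^ 2 * (kap p * r ^ 2 * Dl y r p)) =
      t * (kap p * r ^ 2) * (2 * D1 y r p + 4 * n * (t ^ 2 * CovN y r p + Dl y r p)
        - 8 * n ^ 2 * XX y r p * Dl y r p) := by
    field_simp
  have c3 : t * (kap p * r ^ 2) * (2 * t ^ 2 * D3 y r p)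
      - 4 * (n / t) * (t ^ 2 * (kap p * r ^ 2 * Dl y r p))
      + 4 * (n / t) ^ 2 * (t * XX y r p) * (t ^ 2 * (kap p * r ^ 2 * Dl y r p)) =
      t * (kap p * r ^ 2) * (2 * t ^ 2 * D3 y r p - 4 * n * Dl y r p
        + 4 * n ^ 2 * XX y r p * Dl y r p) := by
    field_simp
  have c7 : ∀ R : ℝ, 2 * (n / t) ^ 2 * (t * XX y r p) * (t ^ 2 * (kap p * r ^ 2 * Dl y r p))
      - 4 * (n / t) * (t ^ 4 * (kap p * r ^ 2 * R)) =
      t * (kap p * r ^ 2) * (2 * n ^ 2 * XX y r p * Dl y r p - 4 * n * t ^ 2 * R) := by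
    intro R
    field_simp
  rw [c1, c3, c7, c7]
  have g4 := NormC_sign (s := 2 * t ^ 3 * D4 y r p) hσ h4
  have g7 := NormC_sign (s := 2 * n ^ 2 * XX y r p * Dl y r p - 4 * n * t ^ 2 * P3N y r p) hσ h7
  have g7' := NormC_sign (s := 2 * n ^ 2 * XX y r p * Dl y r p - 4 * n * t ^ 2 * Q3N y r p) hσ h7'
  have h5 : |2 * t ^ 3 * D4 y r p| = 2 * t ^ 3 * |D4 y r p| := by
    rw [abs_mul, abs_of_pos (by positivity)]
  rw [h5] at g4
  have hmain : mainN y r p n z1 z3 ≤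
      z1 * (2 * D1 y r p + 4 * n * (t ^ 2 * CovN y r p + Dl y r p)
        - 8 * n ^ 2 * XX y r p * Dl y r p)
      + z3 * (2 * t ^ 2 * D3 y r p - 4 * n * Dl y r p + 4 * n ^ 2 * XX y r p * Dl y r p)
      + σ * (s4 * (2 * t ^ 3 * D4 y r p))
      + σ * (s7 * (2 * n ^ 2 * XX y r p * Dl y r p - 4 * n * t ^ 2 * P3N y r p))
      + σ * (s7' * (2 * n ^ 2 * XX y r p * Dl y r p - 4 * n * t ^ 2 * Q3N y r p)) := by
    unfold mainN
    rw [← ht]
    linarith only [g4, g7, g7']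
  refine (mul_le_mul_of_nonneg_left hmain (mul_pos ht0 hK).le).trans (le_of_eq ?_)
  have z1' : ∀ c : ℝ, z1 * c = σ * σ * (z1 * c) := fun c => by rw [hσ2, one_mul]
  have z3' : ∀ c : ℝ, z3 * c = σ * σ * (z3 * c) := fun c => by rw [hσ2, one_mul]
  rw [z1', z3']
  ring

/-- monotonicity in `z1`, linearity in `z3` -/
theorem ECrit.all {y r p n z1 z3 u2 u3 : ℝ} (h : ECrit y r p n z1 z3 u2 u3) :
    ∃ m : ℝ, 0 < m ∧ ∀ s1 s3 : ℝ, z1 ≤ s1 → -1 ≤ s3 → s3 ≤ z3 →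
      remN y r p n u2 u3 + m ≤ mainN y r p n s1 s3 := by
  have hc1 := h.c1
  have ha := h.a
  have hb := h.b
  obtain ⟨c3, hc3⟩ : ∃ c3 : ℝ, c3 = 2 * Real.exp (-(2 * y)) ^ 2 * D3 y r p - 4 * n * Dl y r p
      + 4 * n ^ 2 * XX y r p * Dl y r p := ⟨_, rfl⟩
  obtain ⟨e, he⟩ : ∃ e : ℝ, e = 2 * Real.exp (-(2 * y)) ^ 3 * |D4 y r p|
      + |2 * n ^ 2 * XX y r p * Dl y r p - 4 * n * Real.exp (-(2 * y)) ^ 2 * P3N y r p|
      + |2 * n ^ 2 * XX y r p * Dl y r p - 4 * n * Real.exp (-(2 * y)) ^ 2 * Q3N y r p| := ⟨_, rfl⟩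
  have hmain : ∀ a b : ℝ, mainN y r p n a b = a * c1N y r p n + b * c3 - e := by
    intro a b
    rw [hc3, he]
    unfold mainN c1N
    ring
  rw [hmain] at ha hb
  refine ⟨min (z1 * c1N y r p n + z3 * c3 - e - remN y r p n u2 u3)
    (z1 * c1N y r p n + -1 * c3 - e - remN y r p n u2 u3), ?_, ?_⟩
  · exact lt_min (by linarith) (by linarith)
  · intro s1 s3 h1 h2 h3
    rw [hmain]
    have k1 : z1 * c1N y r p n ≤ s1 * c1N y r p n := mul_le_mul_of_nonneg_right h1 hc1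
    rcases le_total 0 c3 with h0 | h0
    · have k2 : -1 * c3 ≤ s3 * c3 := mul_le_mul_of_nonneg_right h2 h0
      have k3 := min_le_right (z1 * c1N y r p n + z3 * c3 - e - remN y r p n u2 u3)
        (z1 * c1N y r p n + -1 * c3 - e - remN y r p n u2 u3)
      linarith
    · have k2 : z3 * c3 ≤ s3 * c3 := mul_le_mul_of_nonpos_right h3 h0
      have k3 := min_le_left (z1 * c1N y r p n + z3 * c3 - e - remN y r p n u2 u3)
        (z1 * c1N y r p n + -1 * c3 - e - remN y r p n u2 u3)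
      linarith

end MP7e122f.R
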