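import Pool.Agent.Lib.MP_7e122f_anR.NormA
import Pool.Agent.Lib.MP_7e122f_anR.NormB
import Pool.Agent.Lib.MP_7e122f_anR.NormC
import Pool.Agent.Lib.MP_7e122f_anR.Core
import Pool.Agent.Lib.MP_7e122f_anR.Family
import Pool.Agent.Lib.MP_7e122f_anR.ConsSt

open MeasureTheory Complex
open scoped ComplexInnerProductSpace ENNReal ComplexOrder

namespace MP7e122f.R

private theorem NormD_sin {δ : ℝ} (hδ : 1 < δ) (hδ2 : δ < 2) : Real.sin (Real.pi * δ) ≠ 0 := by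
  have hpi := Real.pi_pos
  have h1 : 0 < Real.sin (Real.pi * δ - Real.pi) := by
    refine Real.sin_pos_of_pos_of_lt_pi ?_ ?_ <;> nlinarith
  rw [Real.sin_sub_pi] at h1
  linarith

private theorem NormD_y {δ y : ℝ} (hδ : 1 < δ) (hy : y = Real.pi * δ / (2 * Real.sqrt 3)) :
    0.9 ≤ y := by
  have h3 : Real.sqrt 3 ≤ 1.7321 := by
    rw [Real.sqrt_le_iff]
    norm_num
  have h30 : 0 < Real.sqrt 3 := Real.sqrt_pos.2 (by norm_num)
  have hpi := Real.pi_gt_d2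
  rw [hy, le_div_iff₀ (by positivity)]
  nlinarith

private theorem NormD_key {δ y r p n u2 u3 : ℝ} (hδ : 1 < δ) (hδ2 : δ < 2)
    (hy : y = Real.pi * δ / (2 * Real.sqrt 3)) (hr : 0 < r) (hp0 : 0 ≤ p) (hp1 : p ≤ 1)
    (M H : Mat) (hM : 0 < M.det) (hMd : M.det = 1 / δ) (hHd : H.det = M.det)
    (hwM : ∀ k, wt M k = cc (AA3 y r p) (AA1 y r p) (AA2 y r p) k)
    (hwH : ∀ k, wt H k = cc y y y k)
    (hu2 : |2 * Real.cos (Real.pi * δ)| ≤ u2) (hu3 : |4 * Real.cos (Real.pi * δ) ^ 2 - 1| ≤ u3)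
    (hn : 0 ≤ n) (hvp : vpi y r p ≤ 1 / 2) (hle : hh y r p ≤ rho r p)
    (f : L2) (hf : ‖f‖ = 1) (σ : ℝ) (hσ : σ = 1 ∨ σ = -1) :
    |rav (st H f) (1, 1)| ≤ 1 ∧ ∃ X : ℝ, aval M ≤ X ∧ X ≤ bval M ∧
      Real.exp (-(2 * y)) * (kap p * r ^ 2) *
        (mainN y r p n (σ * rav (st H f) (1, 0)) (σ * rav (st H f) (1, 1)) -
          remN y r p n u2 u3) ≤ σ * (X - TS H f) := by
  have hs := NormD_sin hδ hδ2
  have hy9 := NormD_y hδ hy
  have hy0 : 0 < y := by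
    have : (0 : ℝ) < 0.9 := by norm_num
    linarith
  have hδ0 : δ ≠ 0 := by linarith
  have hH : 0 < H.det := by rw [hHd]; exact hM
  have hHδ : 1 / H.det = δ := by rw [hHd, hMd, one_div_one_div]
  obtain ⟨b1, b2, b3, b4, b5, b6, b7⟩ := AA_basic hy0 hr hp0 hp1
  obtain ⟨t, ht⟩ : ∃ t, t = Real.exp (-(2 * y)) := ⟨_, rfl⟩
  have ht0 : 0 < t := by rw [ht]; exact Real.exp_pos _
  have P := TP_norm hy9 hr hp0 hp1 hvp hle
  rw [← ht] at P ⊢
  obtain ⟨Φ, hΦ, hΦ0⟩ := exists_family H hH (by rw [hHδ]; exact hs) f hf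
    (t * T2 y r p - t * T3 y r p) (t * T3 y r p - t * T1 y r p) (t * T1 y r p - t * T2 y r p)
  rw [hHδ] at hΦ
  have hb : ∀ ν k, |Φ ν k| ≤ 1 := fun ν k => (hΦ.adm ν).1 k
  have x23 : AA2 y r p + AA3 y r p = 2 * y + hh y r p - xx1 r p := by
    rw [← b4]; unfold AA2 AA3 xx1 xx2 xx3; ring
  have x31 : AA3 y r p + AA1 y r p = 2 * y + hh y r p - xx2 r p := by
    rw [← b4]; unfold AA1 AA3 xx1 xx2 xx3; ring
  have x12 : AA1 y r p + AA2 y r p = 2 * y + hh y r p - xx3 r p := by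
    rw [← b4]; unfold AA1 AA2 xx1 xx2 xx3; ring
  have z1 : 4 * AA1 y r p + AA2 y r p + AA3 y r p = 6 * y + 3 * (xx1 r p + hh y r p) := by
    rw [← b4]; unfold AA1 AA2 AA3 xx1 xx2 xx3; ring
  have z2 : 4 * AA2 y r p + AA3 y r p + AA1 y r p = 6 * y + 3 * (xx2 r p + hh y r p) := by
    rw [← b4]; unfold AA1 AA2 AA3 xx1 xx2 xx3; ring
  have z3 : 4 * AA3 y r p + AA1 y r p + AA2 y r p = 6 * y + 3 * (xx3 r p + hh y r p) := by
    rw [← b4]; unfold AA1 AA2 AA3 xx1 xx2 xx3; ring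
  have et1 : t * T1 y r p = Real.exp (-(AA2 y r p + AA3 y r p)) := by
    rw [x23, ht]; unfold T1; rw [← Real.exp_add]; congr 1; ring
  have et2 : t * T2 y r p = Real.exp (-(AA3 y r p + AA1 y r p)) := by
    rw [x31, ht]; unfold T2; rw [← Real.exp_add]; congr 1; ring
  have et3 : t * T3 y r p = Real.exp (-(AA1 y r p + AA2 y r p)) := by
    rw [x12, ht]; unfold T3; rw [← Real.exp_add]; congr 1; ring
  have ht3 : t ^ 3 = Real.exp (-(6 * y)) := by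
    rw [ht, ← Real.exp_nat_mul]; congr 1; push_cast; ring
  have ew1 : t ^ 3 * O1 y r p = Real.exp (-(4 * AA1 y r p + AA2 y r p + AA3 y r p)) := by
    rw [z1, ht3]; unfold O1; rw [← Real.exp_add]; congr 1; ring
  have ew2 : t ^ 3 * O2 y r p = Real.exp (-(4 * AA2 y r p + AA3 y r p + AA1 y r p)) := by
    rw [z2, ht3]; unfold O2; rw [← Real.exp_add]; congr 1; ring
  have ew3 : t ^ 3 * O3 y r p = Real.exp (-(4 * AA3 y r p + AA1 y r p + AA2 y r p)) := by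
    rw [z3, ht3]; unfold O3; rw [← Real.exp_add]; congr 1; ring
  have hwS : Summable (cc (AA3 y r p) (AA1 y r p) (AA2 y r p)) :=
    (summable_wt M hM.ne').congr hwM
  have hwHS : Summable (cc y y y) := (summable_wt H hH.ne').congr hwH
  have hc := E_core (ν := n / t) (u2 := u2) (u3 := u3) hs P (by positivity) hΦ et1 et2 et3
    ew1 ew2 ew3 (by rw [UU_two δ hs]; exact hu2) (by rw [UU_three δ hs]; exact hu3) hwS hwHS
  rw [remA_eq hy0 hr hp0 hp1 hn t ht] at hc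
  have hm := main_eq (y := y) (r := r) (p := p) (n := n) hy0 hr hp0 hp1 hn t ht σ
    (σ * Φ 0 (1, 0)) (σ * Φ 0 (1, 1)) (Φ 0 (2, 0)) (Φ 0 (-2, 3)) (Φ 0 (-1, 3)) hσ (hb _ _)
    (hb _ _) (hb _ _)
  have hσσ : ∀ z : ℝ, σ * (σ * z) = z := by
    intro z
    rcases hσ with rfl | rfl <;> ring
  rw [hσσ, hσσ] at hm
  have eH : ∑' k, cc y y y k * Φ 0 k = TS H f := by
    rw [← rav_value H hH hwH f hf]
    refine tsum_congr ?_
    intro k
    rw [hwH, hΦ0]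
  have eM : ∑' k, cc (AA3 y r p) (AA1 y r p) (AA2 y r p) k * Φ (n / t) k =
      ∑' k, wt M k * Φ (n / t) k := tsum_congr (fun k => by rw [hwM])
  rw [eH, eM] at hc
  have hadm := (hΦ.adm (n / t)).2 M hM hMd
  refine ⟨by rw [← hΦ0]; exact hb _ _, _, hadm.1, hadm.2, ?_⟩
  rw [← hΦ0, ← hΦ0]
  obtain ⟨Mn, hMn⟩ : ∃ Mn : ℝ, Mn = Φ 0 (1, 0) * (2 * (t * T1 y r p + t * T2 y r p + t * T3 y r p - 3 * t)
            + 4 * (n / t) * (Cov (t * T1 y r p) (t * T2 y r p) (t * T3 y r p)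
                (t ^ 3 * O1 y r p) (t ^ 3 * O2 y r p) (t ^ 3 * O3 y r p)
              + Dq (t * T1 y r p) (t * T2 y r p) (t * T3 y r p))
            - 8 * (n / t) ^ 2 * (t * T1 y r p + t * T2 y r p + t * T3 y r p)
              * Dq (t * T1 y r p) (t * T2 y r p) (t * T3 y r p))
        + Φ 0 (1, 1) * (2 * (t ^ 3 * O1 y r p + t ^ 3 * O2 y r p + t ^ 3 * O3 y r p - 3 * t ^ 3)
            - 4 * (n / t) * Dq (t * T1 y r p) (t * T2 y r p) (t * T3 y r p)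
            + 4 * (n / t) ^ 2 * (t * T1 y r p + t * T2 y r p + t * T3 y r p)
              * Dq (t * T1 y r p) (t * T2 y r p) (t * T3 y r p))
        + Φ 0 (2, 0) * (2 * ((t * T1 y r p) ^ 4 + (t * T2 y r p) ^ 4 + (t * T3 y r p) ^ 4 - 3 * t ^ 4))
        + Φ 0 (-2, 3) * (2 * (n / t) ^ 2 * (t * T1 y r p + t * T2 y r p + t * T3 y r p)
              * Dq (t * T1 y r p) (t * T2 y r p) (t * T3 y r p)
            - 4 * (n / t) * P3 (t * T1 y r p) (t * T2 y r p) (t * T3 y r p)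
                (t ^ 3 * O1 y r p) (t ^ 3 * O2 y r p) (t ^ 3 * O3 y r p))
        + Φ 0 (-1, 3) * (2 * (n / t) ^ 2 * (t * T1 y r p + t * T2 y r p + t * T3 y r p)
              * Dq (t * T1 y r p) (t * T2 y r p) (t * T3 y r p)
            - 4 * (n / t) * Q3 (t * T1 y r p) (t * T2 y r p) (t * T3 y r p)
                (t ^ 3 * O1 y r p) (t ^ 3 * O2 y r p) (t ^ 3 * O3 y r p)) := ⟨_, rfl⟩
  rw [← hMn] at hc hm
  obtain ⟨X, hX⟩ : ∃ X, X = ∑' k, wt M k * Φ (n / t) k := ⟨_, rfl⟩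
  rw [← hX] at hc ⊢
  have h1 : -|X - TS H f - Mn| ≤ σ * (X - TS H f - Mn) := by
    rcases hσ with rfl | rfl
    · rw [one_mul]
      exact neg_abs_le _
    · have := le_abs_self (X - TS H f - Mn)
      linarith
  have h2 : σ * (X - TS H f - Mn) = σ * (X - TS H f) - σ * Mn := by ring
  rw [h2] at h1
  rw [mul_sub]
  linarith

/-- Conclusion for the upper bound.  Take `f` with `bval H - η < TS H f`, the family
`exists_family` with `β1 = t2 - t3`, ..., and compare `∑ wt M Φ_ν ≤ bval M` (`Fam.adm`) with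
`∑ wt H Φ_0 = TS H f` (`rav_value`) by `E_core`, `remA_eq`, `main_eq` (`σ = 1`), `ECrit.all`. -/
theorem E_upper {δ y r p n z1 z3 u2 u3 : ℝ} (hδ : 1 < δ) (hδ2 : δ < 2)
    (hy : y = Real.pi * δ / (2 * Real.sqrt 3)) (hr : 0 < r) (hp0 : 0 ≤ p) (hp1 : p ≤ 1)
    (M H : Mat) (hM : 0 < M.det) (hMd : M.det = 1 / δ) (hHd : H.det = M.det)
    (hwM : ∀ k, wt M k = cc (AA3 y r p) (AA1 y r p) (AA2 y r p) k)
    (hwH : ∀ k, wt H k = cc y y y k)
    (hu2 : |2 * Real.cos (Real.pi * δ)| ≤ u2) (hu3 : |4 * Real.cos (Real.pi * δ) ^ 2 - 1| ≤ u3)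
    (hc : ECrit y r p n z1 z3 u2 u3)
    (hz : ∃ η : ℝ, 0 < η ∧ ∀ f : L2, ‖f‖ = 1 → bval H - η < TS H f →
      z1 ≤ rav (st H f) (1, 0) ∧ rav (st H f) (1, 1) ≤ z3) :
    bval H < bval M := by
  obtain ⟨η, hη, hz⟩ := hz
  obtain ⟨m, hm, hall⟩ := hc.all
  have hkap : 0 < kap p := by
    unfold kap
    nlinarith [sq_nonneg (p - 1 / 2)]
  have hK : 0 < Real.exp (-(2 * y)) * (kap p * r ^ 2) * m :=
    mul_pos (mul_pos (Real.exp_pos _) (mul_pos hkap (pow_pos hr 2))) hm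
  obtain ⟨f, hf, hfb⟩ := exists_near_bval H (min η (Real.exp (-(2 * y)) * (kap p * r ^ 2) * m))
    (lt_min hη hK)
  have h1 := min_le_left η (Real.exp (-(2 * y)) * (kap p * r ^ 2) * m)
  have h2 := min_le_right η (Real.exp (-(2 * y)) * (kap p * r ^ 2) * m)
  obtain ⟨hz1, hz3⟩ := hz f hf (by linarith)
  obtain ⟨hb, X, hX1, hX2, hX3⟩ := NormD_key hδ hδ2 hy hr hp0 hp1 M H hM hMd hHd hwM hwH hu2 hu3
    hc.hn0 hc.vp hc.hle f hf 1 (Or.inl rfl)
  rw [one_mul, one_mul, one_mul] at hX3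
  have h3 := hall _ _ hz1 (abs_le.1 hb).1 hz3
  have h4 : Real.exp (-(2 * y)) * (kap p * r ^ 2) * m ≤
      Real.exp (-(2 * y)) * (kap p * r ^ 2) *
        (mainN y r p n (rav (st H f) (1, 0)) (rav (st H f) (1, 1)) - remN y r p n u2 u3) := by
    refine mul_le_mul_of_nonneg_left (by linarith) ?_
    exact (mul_pos (Real.exp_pos _) (mul_pos hkap (pow_pos hr 2))).le
  linarith

/-- Conclusion for the lower bound (`σ = -1`). -/
theorem E_lower {δ y r p n z1 z3 u2 u3 : ℝ} (hδ : 1 < δ) (hδ2 : δ < 2)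
    (hy : y = Real.pi * δ / (2 * Real.sqrt 3)) (hr : 0 < r) (hp0 : 0 ≤ p) (hp1 : p ≤ 1)
    (M H : Mat) (hM : 0 < M.det) (hMd : M.det = 1 / δ) (hHd : H.det = M.det)
    (hwM : ∀ k, wt M k = cc (AA3 y r p) (AA1 y r p) (AA2 y r p) k)
    (hwH : ∀ k, wt H k = cc y y y k)
    (hu2 : |2 * Real.cos (Real.pi * δ)| ≤ u2) (hu3 : |4 * Real.cos (Real.pi * δ) ^ 2 - 1| ≤ u3)
    (hc : ECrit y r p n z1 z3 u2 u3)
    (hz : ∃ η : ℝ, 0 < η ∧ ∀ f : L2, ‖f‖ = 1 → TS H f < aval H + η →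
      rav (st H f) (1, 0) ≤ -z1 ∧ -z3 ≤ rav (st H f) (1, 1)) :
    aval M < aval H := by
  obtain ⟨η, hη, hz⟩ := hz
  obtain ⟨m, hm, hall⟩ := hc.all
  have hkap : 0 < kap p := by
    unfold kap
    nlinarith [sq_nonneg (p - 1 / 2)]
  have hK : 0 < Real.exp (-(2 * y)) * (kap p * r ^ 2) * m :=
    mul_pos (mul_pos (Real.exp_pos _) (mul_pos hkap (pow_pos hr 2))) hm
  obtain ⟨f, hf, hfb⟩ := exists_near_aval H (min η (Real.exp (-(2 * y)) * (kap p * r ^ 2) * m))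
    (lt_min hη hK)
  have h1 := min_le_left η (Real.exp (-(2 * y)) * (kap p * r ^ 2) * m)
  have h2 := min_le_right η (Real.exp (-(2 * y)) * (kap p * r ^ 2) * m)
  obtain ⟨hz1, hz3⟩ := hz f hf (by linarith)
  obtain ⟨hb, X, hX1, hX2, hX3⟩ := NormD_key hδ hδ2 hy hr hp0 hp1 M H hM hMd hHd hwM hwH hu2 hu3
    hc.hn0 hc.vp hc.hle f hf (-1) (Or.inr rfl)
  have h3 := hall (-1 * rav (st H f) (1, 0)) (-1 * rav (st H f) (1, 1)) (by linarith)
    (by linarith [(abs_le.1 hb).2]) (by linarith)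
  have h4 : Real.exp (-(2 * y)) * (kap p * r ^ 2) * m ≤
      Real.exp (-(2 * y)) * (kap p * r ^ 2) *
        (mainN y r p n (-1 * rav (st H f) (1, 0)) (-1 * rav (st H f) (1, 1)) -
          remN y r p n u2 u3) := by
    refine mul_le_mul_of_nonneg_left (by linarith) ?_
    exact (mul_pos (Real.exp_pos _) (mul_pos hkap (pow_pos hr 2))).le
  linarith

end MP7e122f.R
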