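import Pool.Agent.Lib.MP_7e122f_anR.NumExp
import Pool.Agent.Lib.MP_7e122f_anR.NumTrig
import Pool.Agent.Lib.MP_7e122f_anR.NDefs

/-!
# Numerical evaluation on a cell `r ∈ [rl, rh]`, `p ∈ [pl, ph]`: the basic quantities
-/

namespace MP7e122f.Num

open MP7e122f.R

/-- slab data -/
structure Slab where
  y : PI
  t : PI
  t2 : PI
  t3 : PI
  z1 : Nat
  z3n : Bool
  z3 : Nat
  u2 : Nat
  u3 : Nat
  n : Nat

/-- the value of `y` for `δ ∈ [dl, dh]` : `y = (π/√3) δ / 2` -/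
def yOf (dl dh : Nat) : PI := PI.smul 1 2 (PI.mul pr3I ⟨dl, dh⟩)
/-- `exp (-2y)` -/
def tOf (y : PI) : PI := PI.inv (four (exp (PI.smul 1 2 y)))
/-- upper bound of `|cos π δ|`, `δ = 1 + e`, `e ∈ [el, eh]` (both `[0,1/2]` or both `[1/2,1]`) -/
def cmaxOf (el eh : Nat) : Nat :=
  cond (Nat.ble eh 549755813888) (Int.toNat (cosE el el).hi) (Int.toNat (SI.neg (cosE eh eh)).hi)

/-- the real number belonging to the code `(z3n, z3)` -/
noncomputable def z3r (S : Slab) : ℝ := cond S.z3n (-(rv S.z3)) (rv S.z3)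

def mkSlab (dl dh z1 : Nat) (z3n : Bool) (z3 n : Nat) : Slab :=
  let y := yOf dl dh
  let t := tOf y
  let t2 := PI.sq t
  let c := cmaxOf (Nat.sub dl 1099511627776) (Nat.sub dh 1099511627776)
  { y := y, t := t, t2 := t2, t3 := PI.mul t2 t, z1 := z1, z3n := z3n, z3 := z3,
    u2 := Nat.mul 2 c, u3 := maxN 1099511627776 (Nat.sub (Nat.mul 4 (mulU c c)) 1099511627776),
    n := n }

structure SlabOK (S : Slab) (y : ℝ) : Prop where
  my : S.y.Mem y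
  ylo : 549755813888 ≤ S.y.lo
  y1 : 0.9 ≤ y
  y2 : y ≤ 2
  mt : S.t.Mem (Real.exp (-(2 * y)))
  mt2 : S.t2.Mem (Real.exp (-(2 * y)) ^ 2)
  mt3 : S.t3.Mem (Real.exp (-(2 * y)) ^ 3)
  tlo : 0 < S.t.lo

/-- numerical validity of the slab -/
def slabChk (dl dh : Nat) : Bool :=
  and (Nat.ble 1099511627776 dl) (and (Nat.ble dl dh) (and (Nat.ble dh 2199023255552)
    (and (Nat.ble 1 (tOf (yOf dl dh)).lo)
      (or (Nat.ble dh 1649267441664) (Nat.ble 1649267441664 dl)))))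

structure Base where
  r : PI
  p : PI
  p1 : PI
  kap : PI
  Wa : PI
  Wb : PI
  Wc : PI
  pk : PI
  p1k : PI
  mu : PI
  g0 : PI
  h : PI
  eh : PI
  f1 : PI
  f2 : PI
  f3 : PI
  Pa : PI
  Pb : PI
  Pr : PI
  Ea : PI
  Eb : PI
  Er : PI

/-- lower bound of `κ(p) = 1 - p + p²` at a point -/
def kapD (p : Nat) : Nat := Nat.sub (Nat.add 1099511627776 (mulD p p)) p
def kapU (p : Nat) : Nat := Nat.sub (Nat.add 1099511627776 (mulU p p)) p

def mkBase (y : PI) (rl rh pl ph : Nat) : Base :=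
  let r : PI := ⟨rl, rh⟩
  let q1l := Nat.sub 1099511627776 ph
  let q1h := Nat.sub 1099511627776 pl
  let ka := kapU pl
  let kaD := kapD pl
  let kb := kapU ph
  let kbD := kapD ph
  let kl := cond (Nat.ble ph 549755813888) kbD (cond (Nat.ble 549755813888 pl) kaD 824633720832)
  let kh := maxN ka kb
  let kap : PI := ⟨kl, kh⟩
  let kr2 := PI.mul kap (PI.sq r)
  let ch := sqrtPI (PI.add PI.one (PI.smul 1 9 (PI.div kr2 (PI.sq y))))
  let g0 := PI.smul 2 9 (PI.inv (PI.mul y (PI.add ch PI.one)))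
  let h := PI.mul g0 kr2
  let up : PI := ⟨mulD (Nat.sub 1099511627776 (Nat.mul 2 ph)) rl,
    mulU (Nat.sub 1099511627776 (Nat.mul 2 pl)) rh⟩
  let vp : PI := ⟨mulD (Nat.sub (Nat.mul 2 pl) 1099511627776) rl,
    mulU (Nat.sub (Nat.mul 2 ph) 1099511627776) rh⟩
  let a3 := PI.smul 1 3 ⟨mulD pl rl, mulU ph rh⟩
  let b3 := PI.smul 1 3 ⟨mulD q1l rl, mulU q1h rh⟩
  let r3 := PI.smul 1 3 r
  let Pa := psi a3
  let Pb := psi b3
  let Pr := psi r3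
  { r := r, p := ⟨pl, ph⟩, p1 := ⟨q1l, q1h⟩, kap := kap,
    Wa := ⟨divD (mulD pl pl) ka, divU (mulU ph ph) kbD⟩,
    Wb := ⟨divD (mulD q1l q1l) kb, divU (mulU q1h q1h) kaD⟩,
    Wc := PI.inv kap,
    pk := ⟨divD pl ka, divU ph kbD⟩,
    p1k := ⟨divD q1l kb, divU q1h kaD⟩,
    mu := PI.mul y ch, g0 := g0, h := h, eh := PI.inv (exp h),
    f1 := exp (PI.smul 1 9 ⟨mulD (Nat.add 1099511627776 pl) rl, mulU (Nat.add 1099511627776 ph) rh⟩),
    f2 := PI.div (exp (PI.smul 1 9 up)) (exp (PI.smul 1 9 vp)),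
    f3 := PI.inv (exp (PI.smul 1 9
      ⟨mulD (Nat.sub 2199023255552 ph) rl, mulU (Nat.sub 2199023255552 pl) rh⟩)),
    Pa := Pa, Pb := Pb, Pr := Pr, Ea := expOf a3 Pa, Eb := expOf b3 Pb, Er := expOf r3 Pr }

/-- the cell is admissible: `0 ≤ pl ≤ ph ≤ 1`, `rl ≤ rh ≤ 5` -/
def cellChk (rl rh pl ph : Nat) : Bool :=
  and (Nat.ble rl rh) (and (Nat.ble rh 5497558138880) (and (Nat.ble pl ph)
    (Nat.ble ph 1099511627776)))

/-- what the fields mean -/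
structure BaseOK (B : Base) (y r p : ℝ) : Prop where
  mr : B.r.Mem r
  mp : B.p.Mem p
  mp1 : B.p1.Mem (1 - p)
  mkap : B.kap.Mem (kap p)
  mWa : B.Wa.Mem (p ^ 2 / kap p)
  mWb : B.Wb.Mem ((1 - p) ^ 2 / kap p)
  mWc : B.Wc.Mem (1 / kap p)
  mpk : B.pk.Mem (p / kap p)
  mp1k : B.p1k.Mem ((1 - p) / kap p)
  mmu : B.mu.Mem (y * chh y r p)
  mg0 : B.g0.Mem (g0 y r p)
  mh : B.h.Mem (hh y r p)
  meh : B.eh.Mem (Real.exp (-(hh y r p)))
  mf1 : B.f1.Mem (Real.exp (xx1 r p / 3))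
  mf2 : B.f2.Mem (Real.exp (xx2 r p / 3))
  mf3 : B.f3.Mem (Real.exp (xx3 r p / 3))
  mPa : B.Pa.Mem (psr (p * r / 3))
  mPb : B.Pb.Mem (psr ((1 - p) * r / 3))
  mPr : B.Pr.Mem (psr (r / 3))
  mEa : B.Ea.Mem (Real.exp (p * r / 3))
  mEb : B.Eb.Mem (Real.exp ((1 - p) * r / 3))
  mEr : B.Er.Mem (Real.exp (r / 3))

end MP7e122f.Num
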