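import Pool.Agent.Lib.MP_7e122f_anR.NumBase

/-!
# Scalar facts by dual certificates

`(z1, z3, q)` are the values of a state on the hexagonal lattice (up to sign), `x = π e`,
`e = δ - 1` (upper bound, `mx = true`) or `e = 2 - δ` (lower bound, `mx = false`, `z = -s`).
The constraints are `c0 : 6 z1² + 2 cos x (z1 + z3) - q ≤ 1`,
`c_m : 2 z1 cos(x - πm/3) + 2 z3 cos(x - 2πm/3) - (-1)^m q ≤ 1`, `m = 1..5`.
A nonnegative combination with weights `λ` (`Dual`) gives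
`6 λ0 z1² + A z1 + C z3 + D q ≤ Λ = ∑ λ`.
-/

namespace MP7e122f.Num

open MP7e122f.R

structure Feas (x z1 z3 q : ℝ) : Prop where
  b1 : |z1| ≤ 1
  b3 : |z3| ≤ 1
  b4 : |q| ≤ 1
  c0 : 6 * z1 ^ 2 + 2 * Real.cos x * (z1 + z3) - q ≤ 1
  c1 : 2 * z1 * Real.cos (x - Real.pi / 3) + 2 * z3 * Real.cos (x - 2 * Real.pi / 3) + q ≤ 1
  c2 : 2 * z1 * Real.cos (x - 2 * Real.pi / 3) + 2 * z3 * Real.cos (x - 4 * Real.pi / 3) - q ≤ 1
  c3 : -(2 * z1 * Real.cos x) + 2 * z3 * Real.cos x + q ≤ 1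
  c4 : 2 * z1 * Real.cos (x - 4 * Real.pi / 3) + 2 * z3 * Real.cos (x - 2 * Real.pi / 3) - q ≤ 1
  c5 : 2 * z1 * Real.cos (x - 5 * Real.pi / 3) + 2 * z3 * Real.cos (x - 4 * Real.pi / 3) + q ≤ 1

structure Dual where
  l0 : Nat
  l1 : Nat
  l2 : Nat
  l3 : Nat
  l4 : Nat
  l5 : Nat

namespace Dual
def a1 (L : Dual) : Int := Int.sub (Int.ofNat (Nat.add (Nat.mul 2 L.l0) (Nat.add L.l1 L.l5)))
  (Int.ofNat (Nat.add (Nat.mul 2 L.l3) (Nat.add L.l2 L.l4)))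
def a2 (L : Dual) : Int := Int.sub (Int.ofNat (Nat.add L.l1 L.l2)) (Int.ofNat (Nat.add L.l4 L.l5))
def c1 (L : Dual) : Int := Int.sub (Int.ofNat (Nat.mul 2 (Nat.add L.l0 L.l3)))
  (Int.ofNat (Nat.add (Nat.add L.l1 L.l2) (Nat.add L.l4 L.l5)))
def c2 (L : Dual) : Int := Int.sub (Int.ofNat (Nat.add L.l1 L.l4)) (Int.ofNat (Nat.add L.l2 L.l5))
def dd (L : Dual) : Int := Int.sub (Int.ofNat (Nat.add L.l1 (Nat.add L.l3 L.l5)))
  (Int.ofNat (Nat.add L.l0 (Nat.add L.l2 L.l4)))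
def tot (L : Dual) : Nat :=
  Nat.add L.l0 (Nat.add L.l1 (Nat.add L.l2 (Nat.add L.l3 (Nat.add L.l4 L.l5))))
end Dual

/-- intervals for `cos x`, `√3 sin x`, `6t`, `6t³`, `±6t⁴`; upper bound of `12t⁷+7t⁹` -/
structure DEnv where
  c : SI
  s : SI
  t6 : SI
  t36 : SI
  t46 : SI
  tail : Nat

def elOf (mx : Bool) (dl dh : Nat) : Nat :=
  cond mx (Nat.sub dl 1099511627776) (Nat.sub 2199023255552 dh)
def ehOf (mx : Bool) (dl dh : Nat) : Nat :=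
  cond mx (Nat.sub dh 1099511627776) (Nat.sub 2199023255552 dl)

def mkEnv (mx : Bool) (dl dh : Nat) : DEnv :=
  let t := tOf (yOf dl dh)
  let t2 := PI.sq t
  let t3 := PI.mul t2 t
  let t4 := PI.sq t2
  let t7 := mulU t3.hi t4.hi
  let q4 := SI.ofPI (PI.smul 6 1 t4)
  { c := cosE (elOf mx dl dh) (ehOf mx dl dh),
    s := SI.ofPI (PI.mul r3I (sinE (elOf mx dl dh) (ehOf mx dl dh))),
    t6 := SI.ofPI (PI.smul 6 1 t), t36 := SI.ofPI (PI.smul 6 1 t3),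
    t46 := cond mx q4 (SI.neg q4),
    tail := Nat.add (Nat.mul 12 t7) (Nat.mul 7 (mulU t7 t2.hi)) }

def envChk (mx : Bool) (dl dh : Nat) : Bool :=
  and (Nat.ble 1099511627776 dl) (and (Nat.ble dl dh) (and (Nat.ble dh 2199023255552)
    (okE (elOf mx dl dh) (ehOf mx dl dh))))

def dA (E : DEnv) (L : Dual) : SI := SI.add (SI.mulK E.c L.a1) (SI.mulK E.s L.a2)
def dC (E : DEnv) (L : Dual) : SI := SI.add (SI.mulK E.c L.c1) (SI.mulK E.s L.c2)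

/-- `6t z1 + 6t³ z3 ± 6t⁴ q + tail < hb` for all feasible points -/
def upChk (E : DEnv) (L : Dual) (zs hb : Nat) : Bool :=
  let z := Int.ofNat zs
  let q := SI.mulK (SI.pt (Int.ofNat (Nat.mul 12 L.l0))) z
  let e1 := SI.absU (SI.sub (SI.sub E.t6 (dA E L)) q)
  let e2 := SI.absU (SI.sub E.t36 (dC E L))
  let e3 := SI.absU (SI.sub E.t46 (SI.pt L.dd))
  let w := (SI.mulK (SI.mulK (SI.pt (Int.ofNat (Nat.mul 6 L.l0))) z) z).hi
  ile (Int.add (Int.add (Int.add (Int.ofNat (Nat.add L.tot (Nat.succ E.tail))) w) e1)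
    (Int.add e2 e3)) (Int.ofNat hb)

/-- value `≥ W - tail` implies `z1 > z1c` -/
def z1Chk (E : DEnv) (L : Dual) (z1 W : Nat) : Bool :=
  let z := Int.ofNat z1
  let q := SI.mulK (SI.pt (Int.ofNat (Nat.mul 12 L.l0))) z
  let d := SI.sub E.t6 (dA E L)
  let e2 := SI.absU (SI.sub E.t36 (dC E L))
  let e3 := SI.absU (SI.sub E.t46 (SI.pt L.dd))
  let w := (SI.mulK (SI.mulK (SI.pt (Int.ofNat (Nat.mul 6 L.l0))) z) z).lo
  and (ile 0 (SI.sub d q).lo)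
    (ile (Int.add (Int.add (Int.sub (Int.ofNat (Nat.add L.tot (Nat.succ E.tail))) w)
      (SI.mulK d z).hi) (Int.add e2 e3)) (Int.ofNat W))

/-- `z1 ≥ z1c` implies `z3 ≤ z3c` -/
def z3Chk (E : DEnv) (L : Dual) (z1 : Nat) (z3 : Int) : Bool :=
  let z := Int.ofNat z1
  let q := SI.mulK (SI.pt (Int.ofNat (Nat.mul 12 L.l0))) z
  let A := dA E L
  let e2 := SI.absU (SI.sub (SI.pt 1099511627776) (dC E L))
  let e3 := SI.absU (SI.pt L.dd)
  let w := (SI.mulK (SI.mulK (SI.pt (Int.ofNat (Nat.mul 6 L.l0))) z) z).lo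
  and (ile 0 (SI.add A q).lo)
    (ile (Int.add (Int.sub (Int.sub (Int.ofNat L.tot) w) (SI.mulK A z).lo) (Int.add e2 e3)) z3)

/-- the sign of the `q`-term -/
noncomputable def sg (mx : Bool) : ℝ := cond mx 1 (-1)
noncomputable def eOf (mx : Bool) (δ : ℝ) : ℝ := cond mx (δ - 1) (2 - δ)

/-- the meaning of the environment -/
structure EnvOK (E : DEnv) (mx : Bool) (δ t : ℝ) : Prop where
  mc : E.c.Mem (Real.cos (Real.pi * eOf mx δ))
  ms : E.s.Mem (Real.sqrt 3 * Real.sin (Real.pi * eOf mx δ))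
  mt6 : E.t6.Mem (6 * t)
  mt36 : E.t36.Mem (6 * t ^ 3)
  mt46 : E.t46.Mem (sg mx * (6 * t ^ 4))
  mtail : 12 * t ^ 7 + 7 * t ^ 9 ≤ rv E.tail

end MP7e122f.Num
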