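import Pool.Agent.Lib.MP_7e122f_anR.NumRem

/-!
# The second order criterion on a cell
-/

namespace MP7e122f.Num

open MP7e122f.R

/-- positive and negative parts (without the remainder) of the criterion -/
structure Parts where
  c1 : Bool
  posA : Nat
  negA : Nat
  posB : Nat
  negB : Nat

def mkParts (S : Slab) (M : Mid) : Parts :=
  let nP := PI.pt S.n
  let nX := PI.mul nP M.X
  let m1 := PI.sub PI.one nX
  let m2 := PI.sub m1 nX
  let z1m2 := PI.mul (PI.pt S.z1) m2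
  let z3m1 := PI.mul (PI.pt S.z3) m1
  let nDl := PI.smul 4 1 (PI.mul nP M.Dl)
  let XD := PI.smul 1 2 (PI.mul nX nDl)
  let tP := PI.smul 4 1 (PI.mul nP (PI.mul S.t2 M.P3))
  let tQ := PI.smul 4 1 (PI.mul nP (PI.mul S.t2 M.Q3))
  let tC := PI.smul 4 1 (PI.mul nP (PI.mul S.t2 M.Cov))
  let D3pt := PI.smul 2 1 (PI.mul S.t2 M.D3p)
  let D3nt := PI.smul 2 1 (PI.mul S.t2 M.D3n)
  let posC := Nat.add (Nat.mul 2 (mulD S.z1 M.D1p.lo)) (mulD S.z1 tC.lo)
  let negC := Nat.mul 2 (mulU S.z1 M.D1n.hi)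
  let cp := cond S.z3n (Nat.add z1m2.lo z3m1.lo) z1m2.lo
  let cn := cond S.z3n 0 z3m1.hi
  let D4t := mulU (Nat.mul 2 S.t3.hi) M.D4u
  let c7a := maxN (Nat.sub XD.hi tP.lo) (Nat.sub tP.hi XD.lo)
  let c7b := maxN (Nat.sub XD.hi tQ.lo) (Nat.sub tQ.hi XD.lo)
  let neg := Nat.add negC (Nat.add D4t (Nat.add c7a c7b))
  { c1 := and (Nat.ble (Nat.add (Nat.mul 2 M.D1n.hi) (Nat.mul 4 XD.hi))
        (Nat.add (Nat.mul 2 M.D1p.lo) (Nat.add tC.lo nDl.lo)))
      (Nat.ble nX.hi 549755813888),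
    posA := Nat.add posC (Nat.add (mulD nDl.lo (Nat.sub cp cn))
      (cond S.z3n (mulD S.z3 D3nt.lo) (mulD S.z3 D3pt.lo))),
    negA := Nat.add neg (Nat.add (mulU nDl.hi (Nat.sub cn cp))
      (cond S.z3n (mulU S.z3 D3pt.hi) (mulU S.z3 D3nt.hi))),
    posB := Nat.add posC (Nat.add (mulD nDl.lo (Nat.add z1m2.lo m1.lo)) D3nt.lo),
    negB := Nat.add neg D3pt.hi }

/-- the numerical form of `ECrit` on a cell -/
def echeck (S : Slab) (B : Base) : Bool :=
  let M := mkMid B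
  let P := mkParts S M
  let vp := vpU S B
  let b := mkBs B M
  let R := Nat.add (rem0U S B vp) (Nat.add (rem1U S B M b vp)
    (Nat.add (rem2U S B M b) (rem3U S B M b)))
  and (Nat.ble B.h.hi 2199023255552) (and (Nat.ble (vpRR B) 2199023255552)
    (and (midChk B) (and P.c1 (and (Nat.ble vp 549755813888)
      (and (Nat.ble (Nat.succ (Nat.add R P.negA)) P.posA)
        (Nat.ble (Nat.succ (Nat.add R P.negB)) P.posB))))))

end MP7e122f.Num
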