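import Pool.Agent.Lib.MP_7e122f_anR.NumE

namespace MP7e122f.Num

open MP7e122f.R

private theorem numEA_half : rv 549755813888 = 1 / 2 := by
  unfold rv
  norm_num

private theorem numEA_mulD {m : Nat} {k : Nat} {z x : ℝ} (h0 : rv m = z) (h : rv k ≤ x) :
    rv (mulD m k) ≤ z * x := by
  subst h0
  exact (mulD_le m k).trans (mul_le_mul_of_nonneg_left h (rv_nonneg m))

private theorem numEA_mulU {m : Nat} {k : Nat} {z x : ℝ} (h0 : rv m = z) (h : x ≤ rv k) :
    z * x ≤ rv (mulU m k) := by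
  subst h0
  exact (mul_le_mul_of_nonneg_left h (rv_nonneg m)).trans (le_mulU m k)

/-- bound of the absolute value of a difference -/
private theorem numEA_abs {a b : PI} {x y : ℝ} (ha : a.Mem x) (hb : b.Mem y) :
    |x - y| ≤ rv (maxN (Nat.sub a.hi b.lo) (Nat.sub b.hi a.lo)) := by
  rw [rv_maxN, abs_le]
  obtain ⟨ha1, ha2⟩ := ha
  obtain ⟨hb1, hb2⟩ := hb
  have h1 := rv_sub_le a.hi b.lo
  have h2 := rv_sub_le b.hi a.lo
  have h3 := le_max_left (rv (Nat.sub a.hi b.lo)) (rv (Nat.sub b.hi a.lo))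
  have h4 := le_max_right (rv (Nat.sub a.hi b.lo)) (rv (Nat.sub b.hi a.lo))
  constructor <;> linarith

/-- lower bound of a product with a signed factor -/
private theorem numEA_signed {a : PI} {x v : ℝ} (ha : a.Mem x) {cp cn : Nat}
    (hv : rv cp - rv cn ≤ v) :
    rv (mulD a.lo (Nat.sub cp cn)) - rv (mulU a.hi (Nat.sub cn cp)) ≤ x * v := by
  have hx0 : 0 ≤ x := PI.Mem.nonneg ha
  obtain ⟨ha1, ha2⟩ := ha
  have h1 := mulD_le a.lo (Nat.sub cp cn)
  have h2 := le_mulU a.hi (Nat.sub cn cp)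
  have hlo := rv_nonneg a.lo
  have hA : x * (rv cp - rv cn) ≤ x * v := mul_le_mul_of_nonneg_left hv hx0
  rcases Nat.le_total cn cp with h | h
  · have e1 : rv (Nat.sub cp cn) = rv cp - rv cn := rv_sub_eq h
    have e2 : 0 ≤ rv (Nat.sub cn cp) := rv_nonneg _
    have e3 : 0 ≤ rv cp - rv cn := by rw [← e1]; exact rv_nonneg _
    have e4 : 0 ≤ rv (mulU a.hi (Nat.sub cn cp)) := rv_nonneg _
    have e5 : rv a.lo * (rv cp - rv cn) ≤ x * (rv cp - rv cn) :=
      mul_le_mul_of_nonneg_right ha1 e3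
    rw [e1] at h1
    linarith
  · have e1 : rv (Nat.sub cn cp) = rv cn - rv cp := rv_sub_eq h
    have e2 : Nat.sub cp cn = 0 := Nat.sub_eq_zero_of_le h
    have e3 : 0 ≤ rv cn - rv cp := by rw [← e1]; exact rv_nonneg _
    have e4 : rv (Nat.sub cp cn) = 0 := by rw [e2]; unfold rv; norm_num
    rw [e1] at h2
    rw [e4, mul_zero] at h1
    have e5 : x * (rv cn - rv cp) ≤ rv a.hi * (rv cn - rv cp) :=
      mul_le_mul_of_nonneg_right ha2 e3
    have e6 : x * (rv cp - rv cn) = -(x * (rv cn - rv cp)) := by ring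
    linarith

theorem parts_ok {S : Slab} {M : Mid} {y r p : ℝ} (hS : SlabOK S y) (hM : MidOK M y r p)
    (hc : (mkParts S M).c1 = true) :
    0 ≤ c1N y r p (rv S.n) ∧
    rv (mkParts S M).posA - rv (mkParts S M).negA ≤ mainN y r p (rv S.n) (rv S.z1) (z3r S) ∧
    rv (mkParts S M).posB - rv (mkParts S M).negB ≤ mainN y r p (rv S.n) (rv S.z1) (-1) := by
  obtain ⟨a1, b1, ha1, hb1, hD1⟩ := hM.mD1
  obtain ⟨a3, b3, ha3, hb3, hD3⟩ := hM.mD3
  have hX := hM.mX
  have hDl := hM.mDl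
  have hCov := hM.mCov
  have hP3 := hM.mP3
  have hQ3 := hM.mQ3
  have hD4 := hM.mD4
  have ht2 := hS.mt2
  have ht3 := hS.mt3
  -- names for the real quantities
  generalize hXe : XX y r p = X at hX
  generalize hDe : Dl y r p = D at hDl
  generalize hCe : CovN y r p = C at hCov
  generalize hPe : P3N y r p = P at hP3
  generalize hQe : Q3N y r p = Q at hQ3
  generalize h4e : R.D4 y r p = d4 at hD4
  generalize hte : Real.exp (-(2 * y)) = t at ht2 ht3
  generalize hz : rv S.z1 = z1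
  generalize hn : rv S.n = n
  have hz0 : 0 ≤ z1 := by rw [← hz]; exact rv_nonneg _
  have hn0 : 0 ≤ n := by rw [← hn]; exact rv_nonneg _
  have hnP : (PI.pt S.n).Mem n := by rw [← hn]; exact PI.Mem.pt _
  have hzP : (PI.pt S.z1).Mem z1 := by rw [← hz]; exact PI.Mem.pt _
  have hz3P : (PI.pt S.z3).Mem (rv S.z3) := PI.Mem.pt _
  have hnX := PI.Mem.mul hnP hX
  -- the two checks
  dsimp only [mkParts] at hc
  rw [Bool.and_eq_true] at hc
  obtain ⟨hc1, hc2⟩ := hc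
  have hnXh : n * X ≤ 1 / 2 := by
    have := rv_le hc2
    rw [numEA_half] at this
    exact hnX.2.trans this
  have hm1 := PI.Mem.sub PI.Mem.one hnX (by linarith)
  have hm2 := PI.Mem.sub hm1 hnX (by linarith)
  have hz1m2 := PI.Mem.mul hzP hm2
  have hz3m1 := PI.Mem.mul hz3P hm1
  have hnDl := PI.Mem.smul 4 1 (by norm_num) (PI.Mem.mul hnP hDl)
  rw [show ((4 : ℕ) : ℝ) / ((1 : ℕ) : ℝ) * (n * D) = 4 * n * D by push_cast; ring] at hnDl
  have hXD := PI.Mem.smul 1 2 (by norm_num) (PI.Mem.mul hnX hnDl)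
  rw [show ((1 : ℕ) : ℝ) / ((2 : ℕ) : ℝ) * (n * X * (4 * n * D)) = 2 * n ^ 2 * X * D by
    push_cast; ring] at hXD
  have htP := PI.Mem.smul 4 1 (by norm_num) (PI.Mem.mul hnP (PI.Mem.mul ht2 hP3))
  rw [show ((4 : ℕ) : ℝ) / ((1 : ℕ) : ℝ) * (n * (t ^ 2 * P)) = 4 * n * t ^ 2 * P by
    push_cast; ring] at htP
  have htQ := PI.Mem.smul 4 1 (by norm_num) (PI.Mem.mul hnP (PI.Mem.mul ht2 hQ3))
  rw [show ((4 : ℕ) : ℝ) / ((1 : ℕ) : ℝ) * (n * (t ^ 2 * Q)) = 4 * n * t ^ 2 * Q by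
    push_cast; ring] at htQ
  have htC := PI.Mem.smul 4 1 (by norm_num) (PI.Mem.mul hnP (PI.Mem.mul ht2 hCov))
  rw [show ((4 : ℕ) : ℝ) / ((1 : ℕ) : ℝ) * (n * (t ^ 2 * C)) = 4 * n * t ^ 2 * C by
    push_cast; ring] at htC
  have hD3p := PI.Mem.smul 2 1 (by norm_num) (PI.Mem.mul ht2 ha3)
  rw [show ((2 : ℕ) : ℝ) / ((1 : ℕ) : ℝ) * (t ^ 2 * a3) = 2 * t ^ 2 * a3 by
    push_cast; ring] at hD3p
  have hD3n := PI.Mem.smul 2 1 (by norm_num) (PI.Mem.mul ht2 hb3)
  rw [show ((2 : ℕ) : ℝ) / ((1 : ℕ) : ℝ) * (t ^ 2 * b3) = 2 * t ^ 2 * b3 by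
    push_cast; ring] at hD3n
  have hposC1 := numEA_mulD hz ha1.1
  have hposC2 := numEA_mulD hz htC.1
  have hnegC := numEA_mulU hz hb1.2
  have hc7a := numEA_abs hXD htP
  have hc7b := numEA_abs hXD htQ
  have hD4t : 2 * t ^ 3 * |d4| ≤ rv (mulU (Nat.mul 2 S.t3.hi) M.D4u) := by
    refine le_trans ?_ (le_mulU _ _)
    have h1 : (2 : ℝ) * t ^ 3 ≤ rv (Nat.mul 2 S.t3.hi) := by
      rw [rv_nmul]
      push_cast
      linarith [ht3.2]
    have h0 : 0 ≤ t ^ 3 := PI.Mem.nonneg ht3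
    exact mul_le_mul h1 hD4 (abs_nonneg _) (rv_nonneg _)
  refine ⟨?_, ?_, ?_⟩
  · unfold c1N
    rw [hD1, hXe, hDe, hCe, hte]
    have h := rv_le hc1
    simp only [rv_add, rv_nmul] at h
    push_cast at h
    have h1 := ha1.1
    have h2 := hb1.2
    have h3 := htC.1
    have h4 := hnDl.1
    have h5 := hXD.2
    have e : 2 * (a1 - b1) + 4 * n * (t ^ 2 * C + D) - 8 * n ^ 2 * X * D =
        2 * a1 - 2 * b1 + 4 * n * t ^ 2 * C + 4 * n * D - 4 * (2 * n ^ 2 * X * D) := by ring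
    rw [e]
    linarith
  · have emain : mainN y r p n z1 (z3r S) = z1 * a1 * 2 - z1 * b1 * 2 + z1 * (4 * n * t ^ 2 * C)
        + 4 * n * D * (z1 * (1 - n * X - n * X) - z3r S * (1 - n * X))
        + z3r S * (2 * t ^ 2 * a3 - 2 * t ^ 2 * b3) - 2 * t ^ 3 * |d4|
        - |2 * n ^ 2 * X * D - 4 * n * t ^ 2 * P| - |2 * n ^ 2 * X * D - 4 * n * t ^ 2 * Q| := by
      unfold mainN
      rw [hD1, hD3, hXe, hDe, hCe, hPe, hQe, h4e, hte]
      ring
    rw [emain]
    dsimp only [mkParts]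
    cases hb : S.z3n with
    | true =>
      have ez : z3r S = -(rv S.z3) := by
        unfold z3r
        rw [hb]
        rfl
      rw [ez]
      simp only [cond_true, rv_add, rv_nmul]
      push_cast
      have hs := numEA_signed hnDl (cp := Nat.add (PI.mul (PI.pt S.z1)
        (PI.sub (PI.sub PI.one (PI.mul (PI.pt S.n) M.X)) (PI.mul (PI.pt S.n) M.X))).lo
        (PI.mul (PI.pt S.z3) (PI.sub PI.one (PI.mul (PI.pt S.n) M.X))).lo) (cn := 0)
        (v := z1 * (1 - n * X - n * X) - -(rv S.z3) * (1 - n * X)) (by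
          rw [rv_add]
          have h1 := hz1m2.1
          have h2 := hz3m1.1
          have h3 := rv_nonneg 0
          linarith)
      have h1 := numEA_mulD (rfl : rv S.z3 = rv S.z3) hD3n.1
      have h2 := numEA_mulU (rfl : rv S.z3 = rv S.z3) hD3p.2
      linarith
    | false =>
      have ez : z3r S = rv S.z3 := by
        unfold z3r
        rw [hb]
        rfl
      rw [ez]
      simp only [cond_false, rv_add, rv_nmul]
      push_cast
      have hs := numEA_signed hnDl (cp := (PI.mul (PI.pt S.z1)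
        (PI.sub (PI.sub PI.one (PI.mul (PI.pt S.n) M.X)) (PI.mul (PI.pt S.n) M.X))).lo)
        (cn := (PI.mul (PI.pt S.z3) (PI.sub PI.one (PI.mul (PI.pt S.n) M.X))).hi)
        (v := z1 * (1 - n * X - n * X) - rv S.z3 * (1 - n * X)) (by
          have h1 := hz1m2.1
          have h2 := hz3m1.2
          linarith)
      have h1 := numEA_mulD (rfl : rv S.z3 = rv S.z3) hD3p.1
      have h2 := numEA_mulU (rfl : rv S.z3 = rv S.z3) hD3n.2
      linarith
  · have emain : mainN y r p n z1 (-1) = z1 * a1 * 2 - z1 * b1 * 2 + z1 * (4 * n * t ^ 2 * C)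
        + 4 * n * D * (z1 * (1 - n * X - n * X) + (1 - n * X))
        - (2 * t ^ 2 * a3 - 2 * t ^ 2 * b3) - 2 * t ^ 3 * |d4|
        - |2 * n ^ 2 * X * D - 4 * n * t ^ 2 * P| - |2 * n ^ 2 * X * D - 4 * n * t ^ 2 * Q| := by
      unfold mainN
      rw [hD1, hD3, hXe, hDe, hCe, hPe, hQe, h4e, hte]
      ring
    rw [emain]
    dsimp only [mkParts]
    simp only [rv_add, rv_nmul]
    push_cast
    have hs : rv (mulD (PI.smul 4 1 (PI.mul (PI.pt S.n) M.Dl)).lo (Nat.add (PI.mul (PI.pt S.z1)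
        (PI.sub (PI.sub PI.one (PI.mul (PI.pt S.n) M.X)) (PI.mul (PI.pt S.n) M.X))).lo
        (PI.sub PI.one (PI.mul (PI.pt S.n) M.X)).lo)) ≤
        4 * n * D * (z1 * (1 - n * X - n * X) + (1 - n * X)) := by
      refine (mulD_le _ _).trans ?_
      rw [rv_add]
      exact mul_le_mul hnDl.1 (add_le_add hz1m2.1 hm1.1) (add_nonneg (rv_nonneg _) (rv_nonneg _))
        (PI.Mem.nonneg hnDl)
    have h1 := hD3n.1
    have h2 := hD3p.2
    linarith

end MP7e122f.Num
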