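import Pool.Agent.Lib.MP_7e122f_anR.NumMidA

namespace MP7e122f.Num

open MP7e122f.R

private lemma NumMidD_cube (x : ℝ) : Real.exp (x / 3) ^ 3 = Real.exp x := by
  rw [← Real.exp_nat_mul]
  congr 1
  push_cast
  ring

private lemma NumMidD_chk {B : Base} (hc : midChk B = true) :
    0 < (cube B.f1).lo ∧ 0 < (cube B.f2).lo ∧ 0 < (cube B.f3).lo := by
  unfold midChk at hc
  rw [Bool.and_eq_true, Bool.and_eq_true] at hc
  exact ⟨Nat.le_of_ble_eq_true hc.1, Nat.le_of_ble_eq_true hc.2.1, Nat.le_of_ble_eq_true hc.2.2⟩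

private lemma NumMidD_T12 (y r p : ℝ) :
    T1 y r p - T2 y r p = p * r * (T2 y r p * psr (p * r)) := by
  have h : T1 y r p = T2 y r p * Real.exp (p * r) := by
    unfold T1 T2 xx1 xx2
    rw [← Real.exp_add]
    congr 1
    ring
  rw [h, psr_spec (p * r)]
  ring

private lemma NumMidD_T23 (y r p : ℝ) :
    T2 y r p - T3 y r p = (1 - p) * r * (T3 y r p * psr ((1 - p) * r)) := by
  have h : T2 y r p = T3 y r p * Real.exp ((1 - p) * r) := by
    unfold T2 T3 xx2 xx3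
    rw [← Real.exp_add]
    congr 1
    ring
  rw [h, psr_spec ((1 - p) * r)]
  ring

private lemma NumMidD_T13 (y r p : ℝ) :
    T1 y r p - T3 y r p = r * (T3 y r p * psr r) := by
  have h : T1 y r p = T3 y r p * Real.exp r := by
    unfold T1 T3 xx1 xx3
    rw [← Real.exp_add]
    congr 1
    ring
  rw [h, psr_spec r]
  ring

private lemma NumMidD_O12 (y r p : ℝ) :
    O2 y r p - O1 y r p = p * r * (3 * (O1 y r p * psr (3 * (p * r)))) := by
  have h : O2 y r p = O1 y r p * Real.exp (3 * (p * r)) := by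
    unfold O1 O2 xx1 xx2
    rw [← Real.exp_add]
    congr 1
    ring
  rw [h, psr_spec (3 * (p * r))]
  ring

private lemma NumMidD_O23 (y r p : ℝ) :
    O3 y r p - O2 y r p = (1 - p) * r * (3 * (O2 y r p * psr (3 * ((1 - p) * r)))) := by
  have h : O3 y r p = O2 y r p * Real.exp (3 * ((1 - p) * r)) := by
    unfold O2 O3 xx2 xx3
    rw [← Real.exp_add]
    congr 1
    ring
  rw [h, psr_spec (3 * ((1 - p) * r))]
  ring

private lemma NumMidD_O13 (y r p : ℝ) :
    O3 y r p - O1 y r p = r * (3 * (O1 y r p * psr (3 * r))) := by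
  have h : O3 y r p = O1 y r p * Real.exp (3 * r) := by
    unfold O1 O3 xx1 xx3
    rw [← Real.exp_add]
    congr 1
    ring
  rw [h, psr_spec (3 * r)]
  ring

/-- Formulas.  With `f_i = exp(x_i/3)`, `f1 f2 f3 = 1`,
`∑ e^{x_i} - 3 = (∑ f_i)/2 ∑_{i<j} (f_i - f_j)²`, `f1 - f2 = f2 (pr/3) ψ(pr/3)` etc., so
`D1 = D1p - D1n`, `D1p = e^{-h} (∑ f)/18 wavg(...)`, `D1n = 3 (1 - e^{-h})/(κ r²) = 3 g0 ψ(-h)`.
In the same way `D3` with `v_i = exp(-x_i)` and `D4` with `w_i = exp(4x_i/3)`.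
`T1 - T2 = T2 (exp(pr) - 1) = p r F1`, `T2 - T3 = (1-p) r F2`, `T1 - T3 = r F3`,
`Dq = ∑_{i<j} (T_i - T_j)²`; `O2 - O1 = O1 (exp(3pr) - 1) = p r C12` etc.,
`Cov = (O2-O1)(T1-T2) + (O3-O2)(T2-T3) + (O3-O1)(T1-T3)`,
`P3 = (O2-O1)(T1-T2) + (O3-O1)(T2-T3)`, `Q3 = (O3-O1)(T1-T2) + (O3-O2)(T2-T3)`. -/
theorem mid_Cov {B : Base} {y r p : ℝ} (hy : 0 < y) (hr : 0 < r) (hp0 : 0 ≤ p) (hp1 : p ≤ 1)
    (hB : BaseOK B y r p) (hc : midChk B = true) :
    (mkMid B).Cov.Mem (CovN y r p) ∧ (mkMid B).P3.Mem (P3N y r p) ∧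
    (mkMid B).Q3.Mem (Q3N y r p) := by
  have hk : 0 < kap p := by unfold kap; nlinarith [sq_nonneg (2 * p - 1)]
  obtain ⟨c1, c2, c3⟩ := NumMidD_chk hc
  have e1 : (cube B.f1).Mem (Real.exp (xx1 r p)) := by
    rw [← NumMidD_cube]; exact PI.Mem.cube hB.mf1
  have e2 : (cube B.f2).Mem (Real.exp (xx2 r p)) := by
    rw [← NumMidD_cube]; exact PI.Mem.cube hB.mf2
  have e3 : (cube B.f3).Mem (Real.exp (xx3 r p)) := by
    rw [← NumMidD_cube]; exact PI.Mem.cube hB.mf3
  have hT2 : (PI.mul B.eh (cube B.f2)).Mem (T2 y r p) := by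
    have := PI.Mem.mul hB.meh e2
    have e : Real.exp (-(hh y r p)) * Real.exp (xx2 r p) = T2 y r p := by
      unfold T2; rw [← Real.exp_add]; congr 1; ring
    rwa [e] at this
  have hT3 : (PI.mul B.eh (cube B.f3)).Mem (T3 y r p) := by
    have := PI.Mem.mul hB.meh e3
    have e : Real.exp (-(hh y r p)) * Real.exp (xx3 r p) = T3 y r p := by
      unfold T3; rw [← Real.exp_add]; congr 1; ring
    rwa [e] at this
  have hQa : (tri B.Pa B.Ea).Mem (psr (p * r)) := by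
    have := tri_mem hB.mPa hB.mEa
    have e : 3 * (p * r / 3) = p * r := by ring
    rwa [e] at this
  have hQb : (tri B.Pb B.Eb).Mem (psr ((1 - p) * r)) := by
    have := tri_mem hB.mPb hB.mEb
    have e : 3 * ((1 - p) * r / 3) = (1 - p) * r := by ring
    rwa [e] at this
  have hQr : (tri B.Pr B.Er).Mem (psr r) := by
    have := tri_mem hB.mPr hB.mEr
    have e : 3 * (r / 3) = r := by ring
    rwa [e] at this
  have hEa : (cube B.Ea).Mem (Real.exp (p * r)) := by
    rw [← NumMidD_cube (p * r)]; exact PI.Mem.cube hB.mEa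
  have hEb : (cube B.Eb).Mem (Real.exp ((1 - p) * r)) := by
    rw [← NumMidD_cube ((1 - p) * r)]; exact PI.Mem.cube hB.mEb
  have hEr : (cube B.Er).Mem (Real.exp r) := by
    rw [← NumMidD_cube r]; exact PI.Mem.cube hB.mEr
  have ho : ∀ x : ℝ, (Real.exp (-(hh y r p)) * (1 / Real.exp x)) ^ 3 =
      Real.exp (-(3 * (x + hh y r p))) := by
    intro x
    rw [one_div, ← Real.exp_neg, ← Real.exp_add, ← Real.exp_nat_mul]
    congr 1
    push_cast
    ring
  have ho1 : (cube (PI.mul B.eh (PI.inv (cube B.f1)))).Mem (O1 y r p) := by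
    have := PI.Mem.cube (PI.Mem.mul hB.meh (PI.Mem.inv e1 c1))
    rw [ho] at this
    exact this
  have ho2 : (cube (PI.mul B.eh (PI.inv (cube B.f2)))).Mem (O2 y r p) := by
    have := PI.Mem.cube (PI.Mem.mul hB.meh (PI.Mem.inv e2 c2))
    rw [ho] at this
    exact this
  have hF1 := PI.Mem.mul hT2 hQa
  have hF2 := PI.Mem.mul hT3 hQb
  have hF3 := PI.Mem.mul hT3 hQr
  have hC12 := PI.Mem.smul 3 1 (by norm_num) (PI.Mem.mul ho1 (tri_mem hQa hEa))
  have hC23 := PI.Mem.smul 3 1 (by norm_num) (PI.Mem.mul ho2 (tri_mem hQb hEb))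
  have hC13 := PI.Mem.smul 3 1 (by norm_num) (PI.Mem.mul ho1 (tri_mem hQr hEr))
  have h31 : ((3 : ℕ) : ℝ) / ((1 : ℕ) : ℝ) = 3 := by norm_num
  rw [h31] at hC12 hC23 hC13
  have hG1 := PI.Mem.mul hC12 hF1
  have hG2 := PI.Mem.mul hC23 hF2
  have t12 := NumMidD_T12 y r p
  have t23 := NumMidD_T23 y r p
  have t13 := NumMidD_T13 y r p
  have o12 := NumMidD_O12 y r p
  have o23 := NumMidD_O23 y r p
  have o13 := NumMidD_O13 y r p
  refine ⟨?_, ?_, ?_⟩
  · have h := wavg_mem hB hG1 hG2 (PI.Mem.mul hC13 hF3)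
    have e : CovN y r p = (p ^ 2 * (3 * (O1 y r p * psr (3 * (p * r))) * (T2 y r p * psr (p * r)))
        + (1 - p) ^ 2 * (3 * (O2 y r p * psr (3 * ((1 - p) * r))) *
          (T3 y r p * psr ((1 - p) * r)))
        + 3 * (O1 y r p * psr (3 * r)) * (T3 y r p * psr r)) / kap p := by
      unfold CovN
      have : Cov (T1 y r p) (T2 y r p) (T3 y r p) (O1 y r p) (O2 y r p) (O3 y r p) =
          (O2 y r p - O1 y r p) * (T1 y r p - T2 y r p) +
          (O3 y r p - O2 y r p) * (T2 y r p - T3 y r p) +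
          (O3 y r p - O1 y r p) * (T1 y r p - T3 y r p) := by
        unfold Cov; ring
      rw [this, t12, t23, t13, o12, o23, o13, div_eq_div_iff (by positivity) hk.ne']
      ring
    rw [← e] at h
    exact h
  · have h := PI.Mem.add (PI.Mem.mul hB.mWa hG1) (PI.Mem.mul hB.mp1k (PI.Mem.mul hC13 hF2))
    have e : P3N y r p = p ^ 2 / kap p *
          (3 * (O1 y r p * psr (3 * (p * r))) * (T2 y r p * psr (p * r))) +
        (1 - p) / kap p * (3 * (O1 y r p * psr (3 * r)) * (T3 y r p * psr ((1 - p) * r))) := by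
      unfold P3N
      have : P3 (T1 y r p) (T2 y r p) (T3 y r p) (O1 y r p) (O2 y r p) (O3 y r p) =
          (O2 y r p - O1 y r p) * (T1 y r p - T2 y r p) +
          (O3 y r p - O1 y r p) * (T2 y r p - T3 y r p) := by
        unfold P3; ring
      rw [this, t12, t23, o12, o13]
      field_simp
    rw [← e] at h
    exact h
  · have h := PI.Mem.add (PI.Mem.mul hB.mpk (PI.Mem.mul hC13 hF1)) (PI.Mem.mul hB.mWb hG2)
    have e : Q3N y r p = p / kap p * (3 * (O1 y r p * psr (3 * r)) * (T2 y r p * psr (p * r))) +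
        (1 - p) ^ 2 / kap p * (3 * (O2 y r p * psr (3 * ((1 - p) * r))) *
          (T3 y r p * psr ((1 - p) * r))) := by
      unfold Q3N
      have : Q3 (T1 y r p) (T2 y r p) (T3 y r p) (O1 y r p) (O2 y r p) (O3 y r p) =
          (O3 y r p - O1 y r p) * (T1 y r p - T2 y r p) +
          (O3 y r p - O2 y r p) * (T2 y r p - T3 y r p) := by
        unfold Q3; ring
      rw [this, t12, t23, o13, o23]
      field_simp
    rw [← e] at h
    exact h

end MP7e122f.Num
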