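import Pool.Agent.Lib.MP_7e122f_anR.NumMidB
import Pool.Agent.Lib.MP_7e122f_anR.NumMidC
import Pool.Agent.Lib.MP_7e122f_anR.NumMidD

namespace MP7e122f.Num

open MP7e122f.R

/-- assemble -/
theorem mid_ok {B : Base} {y r p : ℝ} (hy : 0 < y) (hr : 0 < r) (hp0 : 0 ≤ p) (hp1 : p ≤ 1)
    (hB : BaseOK B y r p) (hc : midChk B = true) :
    MidOK (mkMid B) y r p := by
  obtain ⟨h1, h2, h3, h4, h5, h6, h7, h8, h9, h10⟩ := mid_T hy hr hp0 hp1 hB hc
  obtain ⟨k1, k2, k3⟩ := mid_Cov hy hr hp0 hp1 hB hc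
  exact
    { mT1 := h1
      mT2 := h2
      mT3 := h3
      mX := h4
      mF1 := h5
      mF2 := h6
      mF3 := h7
      mDl := mid_Dl hy hr hp0 hp1 hB hc
      mD1 := mid_D1 hy hr hp0 hp1 hB hc
      mD3 := mid_D3 hy hr hp0 hp1 hB hc
      mD4 := mid_D4 hy hr hp0 hp1 hB hc
      mo1 := h8
      mo2 := h9
      mo3 := h10
      mCov := k1
      mP3 := k2
      mQ3 := k3 }

end MP7e122f.Num
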