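import Pool.Agent.Lib.MP_7e122f_anR.NumRem
import Pool.Agent.Lib.MP_7e122f_anR.NumRemA

namespace MP7e122f.Num

open MP7e122f.R

variable {S : Slab} {B : Base} {M : Mid} {y r p : ℝ}

private theorem NumRemB_mulU_le {a b : Nat} {x z : ℝ} (hx : x ≤ rv a) (hz : z ≤ rv b)
    (hz0 : 0 ≤ z) : x * z ≤ rv (mulU a b) := by
  have h1 : x * z ≤ rv a * rv b :=
    le_trans (mul_le_mul_of_nonneg_right hx hz0) (mul_le_mul_of_nonneg_left hz (rv_nonneg a))
  exact h1.trans (le_mulU a b)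

private theorem NumRemB_mulU_le' {a b : Nat} {x z : ℝ} (hx : x ≤ rv a) (hz : z ≤ rv b)
    (hx0 : 0 ≤ x) : x * z ≤ rv (mulU a b) := by
  have h1 : x * z ≤ rv a * rv b :=
    le_trans (mul_le_mul_of_nonneg_left hz hx0) (mul_le_mul_of_nonneg_right hx (rv_nonneg b))
  exact h1.trans (le_mulU a b)

private theorem NumRemB_mulD_le {a b : Nat} {x z : ℝ} (hx : rv a ≤ x) (hz : rv b ≤ z) :
    rv (mulD a b) ≤ x * z := by
  have h1 : rv a * rv b ≤ x * z :=
    mul_le_mul hx hz (rv_nonneg b) ((rv_nonneg a).trans hx)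
  exact (mulD_le a b).trans h1

private theorem NumRemB_add_le {a b : Nat} {x z : ℝ} (hx : x ≤ rv a) (hz : z ≤ rv b) :
    x + z ≤ rv (Nat.add a b) := by
  rw [rv_add]; exact add_le_add hx hz

private theorem NumRemB_nmul {k a : Nat} {x : ℝ} (h : x ≤ rv a) :
    (k : ℝ) * x ≤ rv (Nat.mul k a) := by
  rw [rv_nmul]; exact mul_le_mul_of_nonneg_left h (Nat.cast_nonneg _)

private theorem NumRemB_exp_sub (a b : ℝ) :
    Real.exp a - Real.exp b = Real.exp b * psr (a - b) * (a - b) := by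
  have h : Real.exp a = Real.exp b * Real.exp (a - b) := by
    rw [← Real.exp_add]; congr 1; ring
  have h2 := psr_spec (a - b)
  rw [h, h2]
  ring

private theorem NumRemB_xx12 : (xx1 r p - hh y r p) - (xx2 r p - hh y r p) = p * r := by
  unfold xx1 xx2; ring

private theorem NumRemB_xx23 : (xx2 r p - hh y r p) - (xx3 r p - hh y r p) = (1 - p) * r := by
  unfold xx2 xx3; ring

private theorem NumRemB_xx13 : (xx1 r p - hh y r p) - (xx3 r p - hh y r p) = r := by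
  unfold xx1 xx3; ring

private theorem NumRemB_bb3 (hr : 0 < r) :
    bb3 y r p = p * (T2 y r p * psr (p * r)) := by
  have h := NumRemB_exp_sub (xx1 r p - hh y r p) (xx2 r p - hh y r p)
  rw [NumRemB_xx12] at h
  unfold bb3 T1 T2
  rw [h]
  field_simp

private theorem NumRemB_bb1 (hr : 0 < r) :
    bb1 y r p = (1 - p) * (T3 y r p * psr ((1 - p) * r)) := by
  have h := NumRemB_exp_sub (xx2 r p - hh y r p) (xx3 r p - hh y r p)
  rw [NumRemB_xx23] at h
  unfold bb1 T2 T3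
  rw [h]
  field_simp

private theorem NumRemB_bb2 (hr : 0 < r) :
    bb2 y r p = T3 y r p * psr r := by
  have h := NumRemB_exp_sub (xx1 r p - hh y r p) (xx3 r p - hh y r p)
  rw [NumRemB_xx13] at h
  unfold bb2 T1 T3
  rw [h]
  field_simp

private theorem NumRemB_bb2' : bb2 y r p = bb1 y r p + bb3 y r p := by
  unfold bb2 bb1 bb3
  ring

private theorem NumRemB_bb1_nonneg (hr : 0 < r) (hp1 : p ≤ 1) : 0 ≤ bb1 y r p := by
  unfold bb1 T2 T3
  apply div_nonneg _ hr.le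
  have h : xx3 r p - hh y r p ≤ xx2 r p - hh y r p := by
    have h1 := NumRemB_xx23 (y := y) (r := r) (p := p)
    have h2 : 0 ≤ (1 - p) * r := mul_nonneg (by linarith) hr.le
    linarith
  have := Real.exp_le_exp.mpr h
  linarith

private theorem NumRemB_bb3_nonneg (hr : 0 < r) (hp0 : 0 ≤ p) : 0 ≤ bb3 y r p := by
  unfold bb3 T1 T2
  apply div_nonneg _ hr.le
  have h : xx2 r p - hh y r p ≤ xx1 r p - hh y r p := by
    have h1 := NumRemB_xx12 (y := y) (r := r) (p := p)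
    have h2 : 0 ≤ p * r := mul_nonneg hp0 hr.le
    linarith
  have := Real.exp_le_exp.mpr h
  linarith

private theorem NumRemB_T_pos : 0 < T1 y r p ∧ 0 < T2 y r p ∧ 0 < T3 y r p :=
  ⟨Real.exp_pos _, Real.exp_pos _, Real.exp_pos _⟩

private theorem NumRemB_gg1 : gg1 y r p = T2 y r p * bb3 y r p + T3 y r p * bb2 y r p := by
  unfold gg1 ga1 bb3 bb2
  ring

private theorem NumRemB_gg3 : gg3 y r p = T1 y r p * bb2 y r p + T2 y r p * bb1 y r p := by
  unfold gg3 ga3 bb1 bb2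
  ring

private theorem NumRemB_gg2 (hr : 0 < r) :
    gg2 y r p = |T1 y r p * bb3 y r p - T3 y r p * bb1 y r p| := by
  unfold gg2 ga2 bb1 bb3
  rw [show T1 y r p * ((T1 y r p - T2 y r p) / r) - T3 y r p * ((T2 y r p - T3 y r p) / r)
    = (T1 y r p * (T1 y r p - T2 y r p) - T3 y r p * (T2 y r p - T3 y r p)) / r by ring]
  rw [abs_div, abs_of_pos hr]

/-- `bb3 = p F1`, `bb1 = (1-p) F2`, `bb2 = F3 = bb1 + bb3` -/
theorem bs_ok (hB : BaseOK B y r p) (hM : MidOK M y r p) (hr : 0 < r) (hp0 : 0 ≤ p)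
    (hp1 : p ≤ 1) : BsOK (mkBs B M) y r p := by
  have hT := NumRemB_T_pos (y := y) (r := r) (p := p)
  have hF1 : 0 ≤ T2 y r p * psr (p * r) := hM.mF1.nonneg
  have hF2 : 0 ≤ T3 y r p * psr ((1 - p) * r) := hM.mF2.nonneg
  have hF3 : 0 ≤ T3 y r p * psr r := hM.mF3.nonneg
  have e3 := NumRemB_bb3 (y := y) (p := p) hr
  have e1 := NumRemB_bb1 (y := y) (p := p) hr
  have e2 := NumRemB_bb2 (y := y) (p := p) hr
  have n1 := NumRemB_bb1_nonneg (y := y) hr hp1
  have n3 := NumRemB_bb3_nonneg (y := y) hr hp0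
  have n2 : 0 ≤ bb2 y r p := by rw [NumRemB_bb2']; exact add_nonneg n1 n3
  have hb3 : bb3 y r p ≤ rv (mulU B.p.hi M.F1.hi) := by
    rw [e3]; exact NumRemB_mulU_le' hB.mp.2 hM.mF1.2 hp0
  have hb1 : bb1 y r p ≤ rv (mulU B.p1.hi M.F2.hi) := by
    rw [e1]; exact NumRemB_mulU_le' hB.mp1.2 hM.mF2.2 (by linarith)
  have lb3 : rv (mulD B.p.lo M.F1.lo) ≤ bb3 y r p := by
    rw [e3]; exact NumRemB_mulD_le hB.mp.1 hM.mF1.1
  have lb1 : rv (mulD B.p1.lo M.F2.lo) ≤ bb1 y r p := by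
    rw [e1]; exact NumRemB_mulD_le hB.mp1.1 hM.mF2.1
  have hb2 : bb2 y r p ≤ rv (minN M.F3.hi (Nat.add (mulU B.p1.hi M.F2.hi)
      (mulU B.p.hi M.F1.hi))) := by
    rw [rv_minN]
    apply le_min
    · rw [e2]; exact hM.mF3.2
    · rw [NumRemB_bb2']; exact NumRemB_add_le hb1 hb3
  refine ⟨hb1, hb2, hb3, ?_, ?_, ?_⟩
  · rw [NumRemB_gg1]
    exact NumRemB_add_le (NumRemB_mulU_le' hM.mT2.2 hb3 hT.2.1.le)
      (NumRemB_mulU_le' hM.mT3.2 hb2 hT.2.2.le)
  · rw [NumRemB_gg2 hr]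
    show _ ≤ rv (maxN _ _)
    rw [rv_maxN]
    have u1 : T1 y r p * bb3 y r p ≤ rv (mulU M.T1.hi (mulU B.p.hi M.F1.hi)) :=
      NumRemB_mulU_le' hM.mT1.2 hb3 hT.1.le
    have u3 : T3 y r p * bb1 y r p ≤ rv (mulU M.T3.hi (mulU B.p1.hi M.F2.hi)) :=
      NumRemB_mulU_le' hM.mT3.2 hb1 hT.2.2.le
    have l1 : rv (mulD M.T1.lo (mulD B.p.lo M.F1.lo)) ≤ T1 y r p * bb3 y r p :=
      NumRemB_mulD_le hM.mT1.1 lb3
    have l3 : rv (mulD M.T3.lo (mulD B.p1.lo M.F2.lo)) ≤ T3 y r p * bb1 y r p :=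
      NumRemB_mulD_le hM.mT3.1 lb1
    rw [abs_le']
    refine ⟨le_trans ?_ (le_max_left _ _), le_trans ?_ (le_max_right _ _)⟩
    · refine le_trans ?_ (rv_sub_le _ _)
      linarith
    · refine le_trans ?_ (rv_sub_le _ _)
      linarith
  · rw [NumRemB_gg3]
    exact NumRemB_add_le (NumRemB_mulU_le' hM.mT1.2 hb2 hT.1.le)
      (NumRemB_mulU_le' hM.mT2.2 hb1 hT.2.1.le)

private theorem NumRemB_minI {a b : Nat} {x : ℝ} (hb : x ≤ rv b)
    (ha : ¬ B.r.lo ≤ 21990232555 → x ≤ rv a) : x ≤ rv (minI B a b) := by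
  unfold minI
  cases h : Nat.ble B.r.lo 21990232555 with
  | true => simpa using hb
  | false =>
    simp only [cond_false]
    rw [rv_minN]
    refine le_min (ha ?_) hb
    intro h'
    have := Nat.ble_eq_true_of_le h'
    rw [this] at h
    exact absurd h (by simp)

private theorem NumRemB_abs_exp (u : ℝ) : |Real.exp u - 1| ≤ |u| * max (Real.exp u) 1 := by
  rcases le_total 0 u with h | h
  · rw [abs_of_nonneg h, abs_of_nonneg (by linarith [Real.one_le_exp h])]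
    have h1 : Real.exp u * Real.exp (-u) = 1 := by rw [← Real.exp_add]; simp
    have h2 : 1 - u ≤ Real.exp (-u) := by linarith [Real.add_one_le_exp (-u)]
    have h3 : Real.exp u - 1 ≤ u * Real.exp u := by
      nlinarith [Real.exp_pos u]
    exact h3.trans (mul_le_mul_of_nonneg_left (le_max_left _ _) h)
  · rw [abs_of_nonpos h, abs_of_nonpos (by linarith [Real.exp_le_one_iff.mpr h])]
    have h3 : -(Real.exp u - 1) ≤ -u := by linarith [Real.add_one_le_exp u]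
    calc -(Real.exp u - 1) ≤ -u := h3
      _ = -u * 1 := by ring
      _ ≤ -u * max (Real.exp u) 1 := mul_le_mul_of_nonneg_left (le_max_right _ _) (by linarith)

private theorem NumRemB_hhr (hB : BaseOK B y r p) (hr : 0 < r) :
    0 ≤ hh y r p ∧ hh y r p / r = g0 y r p * (kap p * r) ∧
      g0 y r p * (kap p * r) ≤ rv (mulU B.g0.hi (mulU B.kap.hi B.r.hi)) := by
  have hg := hB.mg0.nonneg
  have hk := hB.mkap.nonneg
  refine ⟨?_, ?_, ?_⟩
  · unfold hh; positivity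
  · unfold hh; field_simp
  · exact NumRemB_mulU_le' hB.mg0.2 (NumRemB_mulU_le' hB.mkap.2 hB.mr.2 hk) hg

private theorem NumRemB_d4 (hB : BaseOK B y r p) (hr : 0 < r) {T : PI} {x : ℝ} {xr : Nat}
    (hT : T.Mem (Real.exp (x - hh y r p))) (hx : |x| / r ≤ rv xr) :
    |Real.exp (x - hh y r p) ^ 4 - 1| / r ≤ rv (d4U B T xr) := by
  have hT4 := hT.four
  obtain ⟨hh0, hhr, hhb⟩ := NumRemB_hhr hB hr
  unfold d4U
  apply NumRemB_minI
  · rw [rv_nmul]
    have h1 : Real.exp (x - hh y r p) ^ 4 = Real.exp (4 * (x - hh y r p)) := by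
      rw [← Real.exp_nat_mul]; norm_num
    have h2 := NumRemB_abs_exp (4 * (x - hh y r p))
    rw [← h1] at h2
    have h3 : |4 * (x - hh y r p)| ≤ 4 * (|x| + hh y r p) := by
      rw [abs_mul, abs_of_pos (by norm_num : (0 : ℝ) < 4)]
      apply mul_le_mul_of_nonneg_left _ (by norm_num)
      calc |x - hh y r p| ≤ |x| + |hh y r p| := abs_sub _ _
        _ = |x| + hh y r p := by rw [abs_of_nonneg hh0]
    have h4 : 0 ≤ max (Real.exp (x - hh y r p) ^ 4) 1 := le_trans zero_le_one (le_max_right _ _)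
    have h5 : max (Real.exp (x - hh y r p) ^ 4) 1 ≤ rv (maxN (four T).hi 1099511627776) := by
      rw [rv_maxN, rv_lit]
      exact max_le_max hT4.2 le_rfl
    have h6 : (|x| + hh y r p) / r ≤ rv (Nat.add xr (mulU B.g0.hi (mulU B.kap.hi B.r.hi))) := by
      rw [add_div, hhr]
      exact NumRemB_add_le hx hhb
    have h7 : 0 ≤ (|x| + hh y r p) / r := by positivity
    have h8 := NumRemB_mulU_le' h5 h6 h4
    calc |Real.exp (x - hh y r p) ^ 4 - 1| / r
        ≤ (4 * (|x| + hh y r p) * max (Real.exp (x - hh y r p) ^ 4) 1) / r := by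
          apply div_le_div_of_nonneg_right _ hr.le
          exact h2.trans (mul_le_mul_of_nonneg_right h3 h4)
      _ = 4 * (max (Real.exp (x - hh y r p) ^ 4) 1 * ((|x| + hh y r p) / r)) := by ring
      _ ≤ 4 * rv (mulU (maxN (four T).hi 1099511627776)
          (Nat.add xr (mulU B.g0.hi (mulU B.kap.hi B.r.hi)))) :=
          mul_le_mul_of_nonneg_left h8 (by norm_num)
      _ = _ := by norm_num
  · intro hlo
    have hir := irU_ok hB hr hlo
    have h1 : |Real.exp (x - hh y r p) ^ 4 - 1| ≤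
        rv (maxN (Nat.sub (four T).hi 1099511627776) (Nat.sub 1099511627776 (four T).lo)) := by
      rw [rv_maxN, abs_le']
      refine ⟨le_trans ?_ (le_max_left _ _), le_trans ?_ (le_max_right _ _)⟩
      · refine le_trans ?_ (rv_sub_le _ _)
        rw [rv_lit]; linarith [hT4.2]
      · refine le_trans ?_ (rv_sub_le _ _)
        rw [rv_lit]; linarith [hT4.1]
    have h2 := NumRemB_mulU_le' h1 hir (abs_nonneg _)
    calc _ = |Real.exp (x - hh y r p) ^ 4 - 1| * (1 / r) := by ring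
      _ ≤ _ := h2

private theorem NumRemB_x1 (hB : BaseOK B y r p) (hr : 0 < r) (hp0 : 0 ≤ p) :
    |xx1 r p| / r ≤ rv (Nat.succ (Nat.div (Nat.add 1099511627776 B.p.hi) 3)) := by
  have h1 : |xx1 r p| / r = (1 + p) / ((3 : ℕ) : ℝ) := by
    unfold xx1
    rw [abs_of_nonneg (by positivity)]
    push_cast
    field_simp
  rw [h1]
  refine le_trans ?_ (le_rv_div _ 3 (by norm_num))
  apply div_le_div_of_nonneg_right _ (by norm_num)
  exact NumRemB_add_le rv_lit.ge hB.mp.2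

private theorem NumRemB_x2 (hB : BaseOK B y r p) (hr : 0 < r) :
    |xx2 r p| / r ≤ rv (Nat.succ (Nat.div (maxN (Nat.sub 1099511627776 (Nat.mul 2 B.p.lo))
    (Nat.sub (Nat.mul 2 B.p.hi) 1099511627776)) 3)) := by
  have h1 : |xx2 r p| / r = |1 - 2 * p| / ((3 : ℕ) : ℝ) := by
    unfold xx2
    rw [abs_div, abs_mul, abs_of_pos hr]
    push_cast
    rw [abs_of_pos (by norm_num : (0 : ℝ) < 3)]
    field_simp
  rw [h1]
  refine le_trans ?_ (le_rv_div _ 3 (by norm_num))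
  apply div_le_div_of_nonneg_right _ (by norm_num)
  rw [rv_maxN, abs_le']
  refine ⟨le_trans ?_ (le_max_left _ _), le_trans ?_ (le_max_right _ _)⟩
  · refine le_trans ?_ (rv_sub_le _ _)
    rw [rv_lit, rv_nmul]
    push_cast
    linarith [hB.mp.1]
  · refine le_trans ?_ (rv_sub_le _ _)
    rw [rv_lit, rv_nmul]
    push_cast
    linarith [hB.mp.2]

private theorem NumRemB_rv2 : rv 2199023255552 = 2 := by
  unfold rv; norm_num

private theorem NumRemB_x3 (hB : BaseOK B y r p) (hr : 0 < r) (hp1 : p ≤ 1) :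
    |xx3 r p| / r ≤ rv (Nat.succ (Nat.div (Nat.sub 2199023255552 B.p.lo) 3)) := by
  have h1 : |xx3 r p| / r = (2 - p) / ((3 : ℕ) : ℝ) := by
    unfold xx3
    have h2 : 0 ≤ 2 - p := by linarith
    rw [abs_neg, abs_of_nonneg (by positivity)]
    push_cast
    field_simp
  rw [h1]
  refine le_trans ?_ (le_rv_div _ 3 (by norm_num))
  apply div_le_div_of_nonneg_right _ (by norm_num)
  refine le_trans ?_ (rv_sub_le _ _)
  rw [NumRemB_rv2]
  linarith [hB.mp.1]

private theorem NumRemB_rs (hB : BaseOK B y r p) (hr : 0 < r) :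
    2 / 3 * Real.sqrt (kap p) + g0 y r p * kap p * r ≤
      rv (Nat.add (Nat.succ (Nat.div (Nat.mul 2 (sqU B.kap.hi)) 3))
        (mulU B.g0.hi (mulU B.kap.hi B.r.hi))) := by
  obtain ⟨_, _, hhb⟩ := NumRemB_hhr hB hr
  apply NumRemB_add_le
  · refine le_trans ?_ (le_rv_div _ 3 (by norm_num))
    rw [rv_nmul]
    have h1 : Real.sqrt (kap p) ≤ rv (sqU B.kap.hi) :=
      (Real.sqrt_le_sqrt hB.mkap.2).trans (le_sqU _)
    push_cast
    linarith
  · calc _ = g0 y r p * (kap p * r) := by ring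
      _ ≤ _ := hhb

private theorem NumRemB_dk (hB : BaseOK B y r p) (hr : 0 < r) (k : ℕ) :
    min (1 / r) ((k : ℝ) * (2 / 3 * Real.sqrt (kap p) + g0 y r p * kap p * r)) ≤
      rv (minI B (irU B) (Nat.mul k (Nat.add (Nat.succ (Nat.div (Nat.mul 2 (sqU B.kap.hi)) 3))
        (mulU B.g0.hi (mulU B.kap.hi B.r.hi))))) := by
  apply NumRemB_minI
  · refine (min_le_right _ _).trans ?_
    rw [rv_nmul]
    exact mul_le_mul_of_nonneg_left (NumRemB_rs hB hr) (Nat.cast_nonneg _)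
  · intro hlo
    exact (min_le_left _ _).trans (irU_ok hB hr hlo)

private theorem NumRemB_t (hS : SlabOK S y) :
    1 / Real.exp (-(2 * y)) ≤ rv (divU 1099511627776 S.t.lo) := by
  refine le_trans ?_ (le_divU _ _ hS.tlo)
  rw [rv_lit]
  have h : 0 < rv S.t.lo := by
    unfold rv
    have := hS.tlo
    positivity
  exact one_div_le_one_div_of_le h hS.mt.1

/-- `|T⁴ - 1| = |exp(4(x - h)) - 1| ≤ 4 max(T⁴,1) (|x| + h)` -/
theorem rem1U_ok (hS : SlabOK S y) (hB : BaseOK B y r p) (hM : MidOK M y r p) {b : Bs}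
    (hb : BsOK b y r p) (hr : 0 < r) (hp0 : 0 ≤ p) (hp1 : p ≤ 1) {vp : Nat}
    (hv : vpi y r p ≤ rv vp) : rem1 y r p (rv S.n) ≤ rv (rem1U S B M b vp) := by
  have n1 := NumRemB_bb1_nonneg (y := y) hr hp1
  have n3 := NumRemB_bb3_nonneg (y := y) hr hp0
  have n2 : 0 ≤ bb2 y r p := by rw [NumRemB_bb2']; exact add_nonneg n1 n3
  have hv0 : 0 ≤ vpi y r p := (Real.exp_pos _).le
  have ht := NumRemB_t hS
  have hk := hB.mWc.nonneg
  have hg := hB.mg0.nonneg
  have hkap := hB.mkap.nonneg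
  have s23 : bb2 y r p + bb3 y r p ≤ rv (Nat.add b.b2 b.b3) := NumRemB_add_le hb.b2 hb.b3
  have s13 : bb3 y r p + bb1 y r p ≤ rv (Nat.add b.b1 b.b3) := by
    rw [add_comm]; exact NumRemB_add_le hb.b1 hb.b3
  have s12 : bb1 y r p + bb2 y r p ≤ rv (Nat.add b.b1 b.b2) := NumRemB_add_le hb.b1 hb.b2
  have d1 : |T1 y r p ^ 4 - 1| / r ≤ _ := NumRemB_d4 hB hr hM.mT1 (NumRemB_x1 hB hr hp0)
  have d2 : |T2 y r p ^ 4 - 1| / r ≤ _ := NumRemB_d4 hB hr hM.mT2 (NumRemB_x2 hB hr)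
  have d3 : |T3 y r p ^ 4 - 1| / r ≤ _ := NumRemB_d4 hB hr hM.mT3 (NumRemB_x3 hB hr hp1)
  have d10 : 0 ≤ |T1 y r p ^ 4 - 1| / r := div_nonneg (abs_nonneg _) hr.le
  have d20 : 0 ≤ |T2 y r p ^ 4 - 1| / r := div_nonneg (abs_nonneg _) hr.le
  have d30 : 0 ≤ |T3 y r p ^ 4 - 1| / r := div_nonneg (abs_nonneg _) hr.le
  have e4 := NumRemB_add_le (NumRemB_mulU_le' d1 s23 d10)
    (NumRemB_add_le (NumRemB_mulU_le' d2 s13 d20) (NumRemB_mulU_le' d3 s12 d30))
  have e40 : 0 ≤ |T1 y r p ^ 4 - 1| / r * (bb2 y r p + bb3 y r p)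
      + (|T2 y r p ^ 4 - 1| / r * (bb3 y r p + bb1 y r p)
      + |T3 y r p ^ 4 - 1| / r * (bb1 y r p + bb2 y r p)) := by positivity
  have t30 : 0 ≤ Real.exp (-(2 * y)) ^ 3 := by positivity
  have n16 : (16 : ℝ) * rv S.n ≤ rv (Nat.mul 16 S.n) := by rw [rv_nmul]; norm_num
  have nn2 : (2 : ℝ) * rv S.n ≤ rv (Nat.mul 2 S.n) := by rw [rv_nmul]; norm_num
  have n160 : 0 ≤ (16 : ℝ) * rv S.n := by have := rv_nonneg S.n; positivity
  have nn20 : 0 ≤ (2 : ℝ) * rv S.n := by have := rv_nonneg S.n; positivity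
  have R1a := NumRemB_mulU_le' n16 (NumRemB_mulU_le' hS.mt3.2
    (NumRemB_mulU_le' hB.mWc.2 e4 hk) t30) n160
  have d7 := NumRemB_dk hB hr 7
  have d9 := NumRemB_dk hB hr 9
  have d12 := NumRemB_dk hB hr 13
  have vp2 := NumRemB_mulU_le' hv hv hv0
  have vp20 : 0 ≤ vpi y r p * vpi y r p := by positivity
  have vp4 := NumRemB_mulU_le' vp2 vp2 vp20
  have vp5 := NumRemB_mulU_le' hv vp4 hv0
  have vp50 : 0 ≤ vpi y r p * (vpi y r p * vpi y r p * (vpi y r p * vpi y r p)) := by positivity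
  have vp7 := NumRemB_mulU_le' vp2 vp5 vp20
  have vp70 : 0 ≤ vpi y r p * vpi y r p *
    (vpi y r p * (vpi y r p * vpi y r p * (vpi y r p * vpi y r p))) := by positivity
  have ht0 : 0 ≤ 1 / Real.exp (-(2 * y)) := by positivity
  have m7 := NumRemB_nmul (k := 120) d7
  have m9 := NumRemB_nmul (k := 72) d9
  have m12 := NumRemB_nmul (k := 460) d12
  have bk : bb2 y r p * (1 / kap p) ≤ rv (mulU b.b2 B.Wc.hi) :=
    NumRemB_mulU_le' hb.b2 hB.mWc.2 n2
  have bk0 : 0 ≤ bb2 y r p * (1 / kap p) := mul_nonneg n2 hk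
  have R1b := NumRemB_mulU_le' nn2 (NumRemB_mulU_le' ht (NumRemB_mulU_le' vp7
    (NumRemB_mulU_le' bk (NumRemB_add_le m7 (NumRemB_add_le (NumRemB_mulU_le' vp2 m9 vp20)
      (NumRemB_mulU_le' vp5 m12 vp50))) bk0) vp70) ht0) nn20
  have key := NumRemB_add_le R1a R1b
  refine le_trans (le_of_eq ?_) key
  unfold rem1
  push_cast
  ring

end MP7e122f.Num
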