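import Pool.Agent.Lib.MP_7e122f_anR.NumRem

namespace MP7e122f.Num

open MP7e122f.R

variable {S : Slab} {B : Base} {M : Mid} {y r p : ℝ}

/-- `n` represents an upper bound of the nonnegative number `x` -/
private def NRCub (x : ℝ) (n : Nat) : Prop := 0 ≤ x ∧ x ≤ rv n

private theorem nrc_mul {x z : ℝ} {a b : Nat} (hx : NRCub x a) (hz : NRCub z b) :
    NRCub (x * z) (mulU a b) :=
  ⟨mul_nonneg hx.1 hz.1,
    (mul_le_mul hx.2 hz.2 hz.1 (le_trans hx.1 hx.2)).trans (le_mulU a b)⟩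

private theorem nrc_add {x z : ℝ} {a b : Nat} (hx : NRCub x a) (hz : NRCub z b) :
    NRCub (x + z) (Nat.add a b) :=
  ⟨add_nonneg hx.1 hz.1, by rw [rv_add]; exact add_le_add hx.2 hz.2⟩

private theorem nrc_nmul (k : Nat) {x : ℝ} {a : Nat} (hx : NRCub x a) :
    NRCub ((k : ℝ) * x) (Nat.mul k a) :=
  ⟨mul_nonneg (Nat.cast_nonneg k) hx.1, by
    rw [rv_nmul]; exact mul_le_mul_of_nonneg_left hx.2 (Nat.cast_nonneg k)⟩

private theorem nrc_rv (n : Nat) : NRCub (rv n) n := ⟨rv_nonneg n, le_refl _⟩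

theorem rem2U_ok (hS : SlabOK S y) (hB : BaseOK B y r p) (hM : MidOK M y r p) {b : Bs}
    (hb : BsOK b y r p) (hr : 0 < r) (hp0 : 0 ≤ p) (hp1 : p ≤ 1) :
    rem2 y r p (rv S.n) + rem2b y r p (rv S.n) (rv S.u2) (rv S.u3) ≤ rv (rem2U S B M b) := by
  have hk : 0 < kap p := by
    unfold kap
    nlinarith [sq_nonneg (p - 1 / 2)]
  have hT12 : T2 y r p ≤ T1 y r p := by
    unfold T1 T2
    apply Real.exp_le_exp.2
    unfold xx1 xx2
    nlinarith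
  have hT23 : T3 y r p ≤ T2 y r p := by
    unfold T3 T2
    apply Real.exp_le_exp.2
    unfold xx3 xx2
    nlinarith
  have c1 : NRCub (bb1 y r p) b.b1 := ⟨div_nonneg (by linarith) hr.le, hb.b1⟩
  have c2 : NRCub (bb2 y r p) b.b2 := ⟨div_nonneg (by linarith) hr.le, hb.b2⟩
  have c3 : NRCub (bb3 y r p) b.b3 := ⟨div_nonneg (by linarith) hr.le, hb.b3⟩
  have o1 : NRCub (O1 y r p) M.o1.hi := ⟨(Real.exp_pos _).le, hM.mo1.2⟩
  have o2 : NRCub (O2 y r p) M.o2.hi := ⟨(Real.exp_pos _).le, hM.mo2.2⟩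
  have o3 : NRCub (O3 y r p) M.o3.hi := ⟨(Real.exp_pos _).le, hM.mo3.2⟩
  have w : NRCub (1 / kap p) B.Wc.hi := ⟨by positivity, hB.mWc.2⟩
  have t2 : NRCub (Real.exp (-(2 * y)) ^ 2) S.t2.hi := ⟨by positivity, hS.mt2.2⟩
  have t3 : NRCub (Real.exp (-(2 * y)) ^ 3) S.t3.hi := ⟨by positivity, hS.mt3.2⟩
  have n := nrc_rv S.n
  have u := nrc_rv S.u2
  have v := nrc_rv S.u3
  have s23 := nrc_add c2 c3
  have s13 := nrc_add c1 c3
  have s12 := nrc_add c1 c2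
  have ub1 := nrc_mul u c1
  have ub2 := nrc_mul u c2
  have ub3 := nrc_mul u c3
  have vb1 := nrc_mul v c1
  have vb2 := nrc_mul v c2
  have vb3 := nrc_mul v c3
  have n2s := nrc_mul n n
  have i1 := nrc_mul o1 (nrc_add (nrc_mul c2 (nrc_add c2 (nrc_add ub3 vb1)))
    (nrc_mul c3 (nrc_add c3 (nrc_add ub2 vb1))))
  have i2 := nrc_mul o2 (nrc_add (nrc_mul c3 (nrc_add c3 (nrc_add ub1 vb2)))
    (nrc_mul c1 (nrc_add c1 (nrc_add ub3 vb2))))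
  have i3 := nrc_mul o3 (nrc_add (nrc_mul c1 (nrc_add c1 (nrc_add ub2 vb3)))
    (nrc_mul c2 (nrc_add c2 (nrc_add ub1 vb3))))
  have ob1 := nrc_mul o1 c1
  have ob2 := nrc_mul o2 c2
  have ob3 := nrc_mul o3 c3
  have jS := nrc_mul (nrc_mul u u) (nrc_add (nrc_mul (nrc_add ob2 ob3) s23)
    (nrc_add (nrc_mul (nrc_add ob1 ob3) s13) (nrc_mul (nrc_add ob1 ob2) s12)))
  have jR := nrc_add (nrc_mul (nrc_add (nrc_mul o2 c3) (nrc_mul o3 c2)) s23)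
    (nrc_add (nrc_mul (nrc_add (nrc_mul o3 c1) (nrc_mul o1 c3)) s13)
      (nrc_mul (nrc_add (nrc_mul o1 c2) (nrc_mul o2 c1)) s12))
  have n2 := nrc_mul w (nrc_add (nrc_add i1 (nrc_add i2 i3)) (nrc_add jS jR))
  have R2a := nrc_mul (nrc_nmul 8 n2s) (nrc_mul t2 n2)
  have s4 := nrc_nmul 32 (nrc_add (nrc_mul s23 (nrc_add s23 c2))
    (nrc_add (nrc_mul s13 (nrc_add s13 c2)) (nrc_mul s12 (nrc_add s12 c2))))
  have R2b := nrc_mul (nrc_nmul 2 n2s) (nrc_mul w (nrc_add (nrc_mul t3 s4)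
    (nrc_nmul 2184 (nrc_mul (nrc_mul t3 t3) (nrc_mul c2 c2)))))
  have hfin := (nrc_add R2a R2b).2
  refine le_trans (le_of_eq ?_) hfin
  unfold rem2 rem2b n2g nHp nHm nR nS
  push_cast
  ring

end MP7e122f.Num
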