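import Pool.Agent.Lib.MP_7e122f_anR.NumRem

namespace MP7e122f.Num

open MP7e122f.R

variable {S : Slab} {B : Base} {M : Mid} {y r p : ℝ}

/-- `x` is nonnegative and bounded by the number `n` represents -/
private def NumRemD_UB (x : ℝ) (n : Nat) : Prop := 0 ≤ x ∧ x ≤ rv n

private theorem NumRemD_add {x z : ℝ} {a b : Nat} (hx : NumRemD_UB x a) (hz : NumRemD_UB z b) :
    NumRemD_UB (x + z) (Nat.add a b) := by
  refine ⟨add_nonneg hx.1 hz.1, ?_⟩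
  rw [rv_add]
  exact add_le_add hx.2 hz.2

private theorem NumRemD_mul {x z : ℝ} {a b : Nat} (hx : NumRemD_UB x a) (hz : NumRemD_UB z b) :
    NumRemD_UB (x * z) (mulU a b) :=
  ⟨mul_nonneg hx.1 hz.1, (mul_le_mul hx.2 hz.2 hz.1 (rv_nonneg a)).trans (le_mulU a b)⟩

private theorem NumRemD_nmul {x : ℝ} {a : Nat} (k : Nat) (hx : NumRemD_UB x a) :
    NumRemD_UB ((k : ℝ) * x) (Nat.mul k a) := by
  refine ⟨mul_nonneg (Nat.cast_nonneg k) hx.1, ?_⟩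
  rw [rv_nmul]
  exact mul_le_mul_of_nonneg_left hx.2 (Nat.cast_nonneg k)

private theorem NumRemD_rv (n : Nat) : NumRemD_UB (rv n) n := ⟨rv_nonneg n, le_refl _⟩

private theorem NumRemD_mem {a : PI} {x : ℝ} (h : a.Mem x) : NumRemD_UB x a.hi :=
  ⟨PI.Mem.nonneg h, h.2⟩

private theorem NumRemD_kap (p : ℝ) : 0 < kap p := by
  unfold kap
  nlinarith [sq_nonneg (p - 1 / 2)]

private theorem NumRemD_T12 (hr : 0 < r) (hp0 : 0 ≤ p) : T2 y r p ≤ T1 y r p := by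
  unfold T1 T2
  apply Real.exp_le_exp.2
  unfold xx1 xx2
  nlinarith [mul_nonneg hp0 hr.le]

private theorem NumRemD_T23 (hr : 0 < r) (hp1 : p ≤ 1) : T3 y r p ≤ T2 y r p := by
  unfold T2 T3
  apply Real.exp_le_exp.2
  unfold xx2 xx3
  nlinarith [mul_nonneg (sub_nonneg.2 hp1) hr.le]

private theorem NumRemD_n3g (κ D t1 t2 t3 b1 b2 b3 g1 g2 g3 u2 u3 : ℝ) (hκ : κ ≠ 0) :
    n3g (κ * D) t1 t2 t3 b1 b2 b3 g1 g2 g3 u2 u3 / κ =
      4 * (D * (t1 * (3 * (b2 + b3) + u2 * b1) + (t2 * (3 * (b1 + b3) + u2 * b2)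
          + t3 * (3 * (b1 + b2) + u2 * b3)))
        + 1 / κ * (u2 * u2 * ((b2 * g2 + b3 * g3) * (b2 + b3) + ((b1 * g1 + b3 * g3) * (b1 + b3)
            + (b1 * g1 + b2 * g2) * (b1 + b2)))
          + (g1 * (b2 * (b2 + (u2 * b3 + u3 * b1)) + b3 * (b3 + (u2 * b2 + u3 * b1)))
            + (g2 * (b3 * (b3 + (u2 * b1 + u3 * b2)) + b1 * (b1 + (u2 * b3 + u3 * b2)))
            + g3 * (b1 * (b1 + (u2 * b2 + u3 * b3)) + b2 * (b2 + (u2 * b1 + u3 * b3))))))) := by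
  unfold n3g nR nW nS nHp nHm
  field_simp
  ring

theorem rem3U_ok (hS : SlabOK S y) (hB : BaseOK B y r p) (hM : MidOK M y r p) {b : Bs}
    (hb : BsOK b y r p) (hr : 0 < r) (hp0 : 0 ≤ p) (hp1 : p ≤ 1) :
    rem3 y r p (rv S.n) (rv S.u2) (rv S.u3) ≤ rv (rem3U S B M b) := by
  have hκ := NumRemD_kap p
  have h12 := NumRemD_T12 (y := y) hr hp0
  have h23 := NumRemD_T23 (y := y) hr hp1
  have hT1 : NumRemD_UB (T1 y r p) M.T1.hi := NumRemD_mem hM.mT1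
  have hT2 : NumRemD_UB (T2 y r p) M.T2.hi := NumRemD_mem hM.mT2
  have hT3 : NumRemD_UB (T3 y r p) M.T3.hi := NumRemD_mem hM.mT3
  have hb1 : NumRemD_UB (bb1 y r p) b.b1 :=
    ⟨div_nonneg (by linarith) hr.le, hb.b1⟩
  have hb2 : NumRemD_UB (bb2 y r p) b.b2 :=
    ⟨div_nonneg (by linarith) hr.le, hb.b2⟩
  have hb3 : NumRemD_UB (bb3 y r p) b.b3 :=
    ⟨div_nonneg (by linarith) hr.le, hb.b3⟩
  have hg1 : NumRemD_UB (gg1 y r p) b.ga1 := by
    refine ⟨div_nonneg ?_ hr.le, hb.g1⟩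
    unfold ga1
    exact add_nonneg (mul_nonneg hT3.1 (by linarith)) (mul_nonneg hT2.1 (by linarith))
  have hg2 : NumRemD_UB (gg2 y r p) b.ga2 := by
    refine ⟨div_nonneg ?_ hr.le, hb.g2⟩
    unfold ga2
    exact abs_nonneg _
  have hg3 : NumRemD_UB (gg3 y r p) b.ga3 := by
    refine ⟨div_nonneg ?_ hr.le, hb.g3⟩
    unfold ga3
    exact add_nonneg (mul_nonneg hT2.1 (by linarith)) (mul_nonneg hT1.1 (by linarith))
  have hDl : NumRemD_UB (Dl y r p) M.Dl.hi := NumRemD_mem hM.mDl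
  have hWc : NumRemD_UB (1 / kap p) B.Wc.hi := NumRemD_mem hB.mWc
  have hrr : NumRemD_UB r B.r.hi := NumRemD_mem hB.mr
  have hn := NumRemD_rv S.n
  have hu2 := NumRemD_rv S.u2
  have hu3 := NumRemD_rv S.u3
  have s23 := NumRemD_add hb2 hb3
  have s13 := NumRemD_add hb1 hb3
  have s12 := NumRemD_add hb1 hb2
  have ub1 := NumRemD_mul hu2 hb1
  have ub2 := NumRemD_mul hu2 hb2
  have ub3 := NumRemD_mul hu2 hb3
  have vb1 := NumRemD_mul hu3 hb1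
  have vb2 := NumRemD_mul hu3 hb2
  have vb3 := NumRemD_mul hu3 hb3
  have dT := NumRemD_add (NumRemD_mul hT1 (NumRemD_add (NumRemD_nmul 3 s23) ub1))
    (NumRemD_add (NumRemD_mul hT2 (NumRemD_add (NumRemD_nmul 3 s13) ub2))
      (NumRemD_mul hT3 (NumRemD_add (NumRemD_nmul 3 s12) ub3)))
  have bg1 := NumRemD_mul hb1 hg1
  have bg2 := NumRemD_mul hb2 hg2
  have bg3 := NumRemD_mul hb3 hg3
  have sT := NumRemD_mul (NumRemD_mul hu2 hu2) (NumRemD_add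
    (NumRemD_mul (NumRemD_add bg2 bg3) s23)
    (NumRemD_add (NumRemD_mul (NumRemD_add bg1 bg3) s13)
      (NumRemD_mul (NumRemD_add bg1 bg2) s12)))
  have hT1' := NumRemD_mul hg1 (NumRemD_add
    (NumRemD_mul hb2 (NumRemD_add hb2 (NumRemD_add ub3 vb1)))
    (NumRemD_mul hb3 (NumRemD_add hb3 (NumRemD_add ub2 vb1))))
  have hT2' := NumRemD_mul hg2 (NumRemD_add
    (NumRemD_mul hb3 (NumRemD_add hb3 (NumRemD_add ub1 vb2)))
    (NumRemD_mul hb1 (NumRemD_add hb1 (NumRemD_add ub3 vb2))))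
  have hT3' := NumRemD_mul hg3 (NumRemD_add
    (NumRemD_mul hb1 (NumRemD_add hb1 (NumRemD_add ub2 vb3)))
    (NumRemD_mul hb2 (NumRemD_add hb2 (NumRemD_add ub1 vb3))))
  have n3 := NumRemD_add (NumRemD_mul hDl dT)
    (NumRemD_mul hWc (NumRemD_add sT (NumRemD_add hT1' (NumRemD_add hT2' hT3'))))
  have fin := NumRemD_nmul 16 (NumRemD_mul (NumRemD_mul (NumRemD_mul hn hn) hn)
    (NumRemD_mul n3 hrr))
  have h3 : (0 : ℝ) < ((3 : ℕ) : ℝ) := by norm_num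
  refine le_trans (le_trans (le_of_eq ?_) (div_le_div_of_nonneg_right fin.2 h3.le))
    (le_rv_div _ 3 (by norm_num))
  unfold rem3
  rw [mul_div_assoc, NumRemD_n3g _ _ _ _ _ _ _ _ _ _ _ _ _ hκ.ne']
  push_cast
  ring

end MP7e122f.Num
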