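import Pool.Agent.Lib.MP_7e122f_anR.NumEA
import Pool.Agent.Lib.MP_7e122f_anR.NumRemA
import Pool.Agent.Lib.MP_7e122f_anR.NumRemB
import Pool.Agent.Lib.MP_7e122f_anR.NumRemC
import Pool.Agent.Lib.MP_7e122f_anR.NumRemD
import Pool.Agent.Lib.MP_7e122f_anR.NumMidE
import Pool.Agent.Lib.MP_7e122f_anR.NumBaseB

namespace MP7e122f.Num

open MP7e122f.R

/-- `hh ≤ rho` always holds -/
theorem NumEB_hle {y r p : ℝ} (hy : 0 < y) (hr : 0 < r) : hh y r p ≤ R.rho r p := by
  have hk : 0 < kap p := by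
    unfold kap
    nlinarith [sq_nonneg (p - 1 / 2)]
  set s : ℝ := Real.sqrt (kap p) with hs
  have hs0 : 0 < s := Real.sqrt_pos.2 hk
  have hs2 : s ^ 2 = kap p := Real.sq_sqrt hk.le
  have hc : s * r / (3 * y) ≤ chh y r p := by
    unfold chh
    apply Real.le_sqrt_of_sq_le
    have e : (s * r / (3 * y)) ^ 2 = kap p * r ^ 2 / (9 * y ^ 2) := by
      rw [div_pow, mul_pow, hs2]
      congr 1
      ring
    rw [e]
    linarith
  have hd : s * r / 3 ≤ y * (chh y r p + 1) := by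
    have h1 : y * (s * r / (3 * y)) = s * r / 3 := by
      field_simp
    have h2 : y * (s * r / (3 * y)) ≤ y * chh y r p := mul_le_mul_of_nonneg_left hc hy.le
    linarith
  have hsr : 0 < s * r / 3 := by positivity
  unfold hh g0 R.rho
  rw [← hs, ← hs2]
  calc 2 / 9 / (y * (chh y r p + 1)) * (s ^ 2 * r ^ 2)
      ≤ 2 / 9 / (s * r / 3) * (s ^ 2 * r ^ 2) := by
        apply mul_le_mul_of_nonneg_right _ (by positivity)
        exact div_le_div_of_nonneg_left (by norm_num) hsr hd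
    _ = 2 / 3 * s * r := by
        field_simp
        ring

/-- soundness; `hh ≤ rho` always holds -/
theorem echeck_ok {S : Slab} {y r p : ℝ} {rl rh pl ph : Nat} (hS : SlabOK S y)
    (hc : cellChk rl rh pl ph = true) (h : echeck S (mkBase S.y rl rh pl ph) = true)
    (hr0 : 0 < r) (hr1 : rv rl ≤ r) (hr2 : r ≤ rv rh) (hp1 : rv pl ≤ p) (hp2 : p ≤ rv ph) :
    ECrit y r p (rv S.n) (rv S.z1) (z3r S) (rv S.u2) (rv S.u3) := by
  have hy0 : 0 < y := by linarith [hS.y1]
  have hp0 : 0 ≤ p := (rv_nonneg pl).trans hp1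
  have hp1' : p ≤ 1 := by
    have hc' := hc
    unfold cellChk at hc'
    rw [Bool.and_eq_true, Bool.and_eq_true, Bool.and_eq_true] at hc'
    have h1 := rv_le hc'.2.2.2
    rw [rv_lit] at h1
    linarith
  generalize hBdef : mkBase S.y rl rh pl ph = B at h
  unfold echeck at h
  simp only [Bool.and_eq_true] at h
  obtain ⟨h1, h2, h3, h4, h5, h6, h7⟩ := h
  have hB : BaseOK B y r p := by
    rw [← hBdef]
    rw [← hBdef] at h1
    exact base_ok hS.my hS.ylo hc h1 hr0 hr1 hr2 hp1 hp2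
  have hM : MidOK (mkMid B) y r p := mid_ok hy0 hr0 hp0 hp1' hB h3
  obtain ⟨c1, cA, cB⟩ := parts_ok hS hM h4
  have hv : vpi y r p ≤ rv (vpU S B) := vpU_ok hS hB hr0 hp0 hp1' h2
  have hb : BsOK (mkBs B (mkMid B)) y r p := bs_ok hB hM hr0 hp0 hp1'
  have r0 := rem0U_ok hS hB hr0 hp0 hp1' hv
  have r1 := rem1U_ok hS hB hM hb hr0 hp0 hp1' hv
  have r2 := rem2U_ok hS hB hM hb hr0 hp0 hp1'
  have r3 := rem3U_ok hS hB hM hb hr0 hp0 hp1'
  have hR : remN y r p (rv S.n) (rv S.u2) (rv S.u3) ≤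
      rv (Nat.add (rem0U S B (vpU S B)) (Nat.add (rem1U S B (mkMid B) (mkBs B (mkMid B)) (vpU S B))
        (Nat.add (rem2U S B (mkMid B) (mkBs B (mkMid B)))
          (rem3U S B (mkMid B) (mkBs B (mkMid B)))))) := by
    rw [rv_add, rv_add, rv_add]
    unfold remN
    linarith
  refine ⟨rv_nonneg _, rv_nonneg _, ?_, NumEB_hle hy0 hr0, c1, ?_, ?_⟩
  · refine hv.trans ((rv_le h5).trans ?_)
    unfold rv
    norm_num
  · have e := rv_lt h6
    rw [rv_add] at e
    linarith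
  · have e := rv_lt h7
    rw [rv_add] at e
    linarith

end MP7e122f.Num
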