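import Pool.Agent.Lib.MP_7e122f_anR.NumG

namespace MP7e122f.Num

open MP7e122f.R

private lemma NumGA_mulU (a b : Nat) : mulU a b = a * b / 1099511627776 + 1 := by
  unfold mulU
  have h : Nat.shiftRight (Nat.mul a b) 40 = a * b / 1099511627776 := by
    have := Nat.shiftRight_eq_div_pow (a * b) 40
    norm_num at this
    exact this
  rw [h]

private lemma NumGA_bnd (a b N : Nat) (hN : 3298534883328 ≤ N) (h : mulU a N ≤ 35184372000000)
    (hb : b ≤ N + 10) : mulU a b ≤ 35184372088000 := by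
  rw [NumGA_mulU] at h ⊢
  have h1 : a * b ≤ a * (N + 10) := Nat.mul_le_mul_left a hb
  have h2 : a * (N + 10) = a * N + 10 * a := by ring
  have h3 : a * 3298534883328 ≤ a * N := Nat.mul_le_mul_left a hN
  omega

private lemma NumGA_mulU_le (a R k : Nat) (h : a ≤ k * 1099511627776) :
    mulU a R ≤ k * R + 1 := by
  rw [NumGA_mulU]
  have h1 : a * R ≤ (k * 1099511627776) * R := Nat.mul_le_mul_right R h
  have h2 : (k * 1099511627776) * R = (k * R) * 1099511627776 := by ring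
  have h3 : a * R / 1099511627776 ≤ k * R := by
    apply Nat.div_le_of_le_mul
    rw [h2] at h1
    linarith
  omega

private lemma NumGA_expN {f E : PI} {φ x : ℝ} (hf : f.Mem φ) (hE : E.Mem x) (N : Nat)
    (hN : 3298534883328 ≤ N) (h : mulU f.hi N ≤ 35184372000000) (hb : E.hi ≤ N + 10) :
    (expN (PI.mul f E)).Mem (Real.exp (-(φ * x))) :=
  expN_mem (PI.Mem.mul hf hE) (NumGA_bnd f.hi E.hi N hN h hb)

private lemma NumGA_third {a : PI} {x : ℝ} (ha : a.Mem x) : (PI.smul 1 3 a).Mem (x / 3) := by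
  have h := PI.Mem.smul 1 3 (by norm_num) ha
  have e : ((1 : ℕ) : ℝ) / ((3 : ℕ) : ℝ) * x = x / 3 := by push_cast; ring
  rw [e] at h
  exact h

private lemma NumGA_int {a : PI} {x : ℝ} (k : Nat) (ha : a.Mem x) :
    (PI.smul k 1 a).Mem (k * x) := by
  have h := PI.Mem.smul k 1 (by norm_num) ha
  have e : ((k : ℕ) : ℝ) / ((1 : ℕ) : ℝ) * x = k * x := by push_cast; ring
  rw [e] at h
  exact h

private lemma NumGA_int_hi (k : Nat) (a : PI) : (PI.smul k 1 a).hi = k * a.hi + 1 := by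
  have e : (PI.smul k 1 a).hi = Nat.succ (Nat.div (Nat.mul k a.hi) 1) := rfl
  have : Nat.div (Nat.mul k a.hi) 1 = k * a.hi := Nat.div_one _
  rw [e, this]

private lemma NumGA_third_hi (a : PI) : (PI.smul 1 3 a).hi = a.hi / 3 + 1 := by
  have e : (PI.smul 1 3 a).hi = Nat.succ (Nat.div (Nat.mul 1 a.hi) 3) := rfl
  have h : Nat.div (Nat.mul 1 a.hi) 3 = a.hi / 3 := by
    have : Nat.mul 1 a.hi = a.hi := Nat.one_mul _
    rw [this]
    rfl
  rw [e, h]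

private lemma NumGA_hi3 (a b c R k : Nat) (h : b ≤ k * 1099511627776) :
    (PI.smul 1 3 ⟨mulD a c, mulU b R⟩).hi ≤ (k * R + 1) / 3 + 1 := by
  rw [NumGA_third_hi]
  have h1 := NumGA_mulU_le b R k h
  have h2 : mulU b R / 3 ≤ (k * R + 1) / 3 := Nat.div_le_div_right h1
  change mulU b R / 3 + 1 ≤ _
  omega

private lemma NumGA_nadd (a b : Nat) : Nat.add a b = a + b := rfl
private lemma NumGA_nsub (a b : Nat) : Nat.sub a b = a - b := rfl
private lemma NumGA_nmul (a b : Nat) : Nat.mul a b = a * b := rfl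

private lemma NumGA_gm1 (a b : Nat) (R : PI) :
    PI.mul ⟨a, b⟩ R = ⟨mulD a R.lo, mulU b R.hi⟩ := rfl

private lemma NumGA_gm3 {a b : Nat} {R : PI} {x r : ℝ} (h : PI.Mem ⟨a, b⟩ x) (hR : R.Mem r) :
    PI.Mem ⟨mulD a R.lo, mulU b R.hi⟩ (x * r) := by
  rw [← NumGA_gm1]
  exact PI.Mem.mul h hR

private lemma NumGA_gmul {a b : Nat} {R : PI} {x r : ℝ} (h : PI.Mem ⟨a, b⟩ x) (hR : R.Mem r) :
    (PI.smul 1 3 ⟨mulD a R.lo, mulU b R.hi⟩).Mem (x * r / 3) := by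
  have h1 := NumGA_gm3 h hR
  exact NumGA_third h1

private lemma NumGA_gadd (n : Nat) {P : PI} {p : ℝ} (hP : P.Mem p) :
    PI.Mem ⟨Nat.add n P.lo, Nat.add n P.hi⟩ (rv n + p) :=
  PI.Mem.add (PI.Mem.pt n) hP

private lemma NumGA_gsub (n : Nat) {P : PI} {p : ℝ} (hP : P.Mem p) (h : p ≤ rv n) :
    PI.Mem ⟨Nat.sub n P.hi, Nat.sub n P.lo⟩ (rv n - p) :=
  PI.Mem.sub (PI.Mem.pt n) hP h

private lemma NumGA_x1 {P R : PI} {p r : ℝ} (hP : P.Mem p) (hR : R.Mem r)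
    (hph : P.hi ≤ 1099511627776) :
    (PI.smul 1 3 ⟨mulD (Nat.add 1099511627776 P.lo) R.lo,
      mulU (Nat.add 1099511627776 P.hi) R.hi⟩).Mem ((1 + p) * r / 3) ∧
    (PI.smul 1 3 ⟨mulD (Nat.add 1099511627776 P.lo) R.lo,
      mulU (Nat.add 1099511627776 P.hi) R.hi⟩).hi ≤ (2 * R.hi + 1) / 3 + 1 := by
  constructor
  · apply NumGA_gmul _ hR
    have h := NumGA_gadd 1099511627776 hP
    rw [rv_lit] at h
    exact h
  · apply NumGA_hi3
    rw [NumGA_nadd]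
    omega

private lemma NumGA_x3 {P R : PI} {p r : ℝ} (hP : P.Mem p) (hR : R.Mem r) (hp1 : p ≤ 1) :
    (PI.smul 1 3 ⟨mulD (Nat.sub 2199023255552 P.hi) R.lo,
      mulU (Nat.sub 2199023255552 P.lo) R.hi⟩).Mem ((2 - p) * r / 3) ∧
    (PI.smul 1 3 ⟨mulD (Nat.sub 2199023255552 P.hi) R.lo,
      mulU (Nat.sub 2199023255552 P.lo) R.hi⟩).hi ≤ (2 * R.hi + 1) / 3 + 1 := by
  have hr2 : rv 2199023255552 = 2 := by unfold rv; norm_num
  constructor
  · apply NumGA_gmul _ hR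
    have h := NumGA_gsub 2199023255552 hP (by rw [hr2]; linarith)
    rw [hr2] at h
    exact h
  · apply NumGA_hi3
    rw [NumGA_nsub]
    omega

private lemma NumGA_two {P : PI} {p : ℝ} (hP : P.Mem p) :
    rv (Nat.mul 2 P.lo) ≤ 2 * p ∧ 2 * p ≤ rv (Nat.mul 2 P.hi) := by
  rw [rv_nmul, rv_nmul]
  have h1 := hP.1
  have h2 := hP.2
  push_cast
  constructor <;> linarith

private lemma NumGA_maxl {n a b : Nat} {x u : ℝ} (hn : rv n = u) (h1 : rv a ≤ x)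
    (h2 : x ≤ rv b) : PI.Mem ⟨Nat.sub n b, Nat.sub n a⟩ (max (u - x) 0) := by
  constructor
  · apply rv_sub_of_le _ (le_max_right _ _)
    rw [hn]
    exact le_trans (by linarith) (le_max_left _ _)
  · apply max_le
    · have h := rv_sub_le n a
      rw [hn] at h
      exact le_trans (by linarith) h
    · exact rv_nonneg _

private lemma NumGA_maxr {n a b : Nat} {x u : ℝ} (hn : rv n = u) (h1 : rv a ≤ x)
    (h2 : x ≤ rv b) : PI.Mem ⟨Nat.sub a n, Nat.sub b n⟩ (max (x - u) 0) := by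
  constructor
  · apply rv_sub_of_le _ (le_max_right _ _)
    rw [hn]
    exact le_trans (by linarith) (le_max_left _ _)
  · apply max_le
    · have h := rv_sub_le b n
      rw [hn] at h
      exact le_trans (by linarith) h
    · exact rv_nonneg _

private lemma NumGA_up {P R : PI} {p r : ℝ} (hP : P.Mem p) (hR : R.Mem r) :
    (PI.smul 1 3 ⟨mulD (Nat.sub 1099511627776 (Nat.mul 2 P.hi)) R.lo,
      mulU (Nat.sub 1099511627776 (Nat.mul 2 P.lo)) R.hi⟩).Mem (max (1 - 2 * p) 0 * r / 3) ∧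
    (PI.smul 1 3 ⟨mulD (Nat.sub 1099511627776 (Nat.mul 2 P.hi)) R.lo,
      mulU (Nat.sub 1099511627776 (Nat.mul 2 P.lo)) R.hi⟩).hi ≤ (1 * R.hi + 1) / 3 + 1 := by
  obtain ⟨h2lo, h2hi⟩ := NumGA_two hP
  constructor
  · exact NumGA_gmul (NumGA_maxl rv_lit h2lo h2hi) hR
  · apply NumGA_hi3
    rw [NumGA_nsub]
    omega

private lemma NumGA_vp {P R : PI} {p r : ℝ} (hP : P.Mem p) (hR : R.Mem r)
    (hph : P.hi ≤ 1099511627776) :
    (PI.smul 1 3 ⟨mulD (Nat.sub (Nat.mul 2 P.lo) 1099511627776) R.lo,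
      mulU (Nat.sub (Nat.mul 2 P.hi) 1099511627776) R.hi⟩).Mem (max (2 * p - 1) 0 * r / 3) ∧
    (PI.smul 1 3 ⟨mulD (Nat.sub (Nat.mul 2 P.lo) 1099511627776) R.lo,
      mulU (Nat.sub (Nat.mul 2 P.hi) 1099511627776) R.hi⟩).hi ≤ (1 * R.hi + 1) / 3 + 1 := by
  obtain ⟨h2lo, h2hi⟩ := NumGA_two hP
  constructor
  · exact NumGA_gmul (NumGA_maxr rv_lit h2lo h2hi) hR
  · apply NumGA_hi3
    rw [NumGA_nsub, NumGA_nmul]
    omega

private lemma NumGA_sub_hi (a b : PI) : (PI.sub a b).hi ≤ a.hi := Nat.sub_le _ _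

private lemma NumGA_add_hi (a b : PI) : (PI.add a b).hi = a.hi + b.hi := rfl

private lemma NumGA_main {f Mu X1 X3 UP VP : PI} {φ μ a1 a3 au av A1 A2 A3 : ℝ} {Rh : Nat}
    (hf : f.Mem φ) (hmu : Mu.Mem μ) (hx1 : X1.Mem a1) (hx3 : X3.Mem a3) (hup : UP.Mem au)
    (hvp : VP.Mem av) (hau0 : 0 ≤ au) (hav0 : 0 ≤ av) (h3 : 0 ≤ A3) (h32 : A3 ≤ A2)
    (h21 : A2 ≤ A1) (e1 : A1 = μ + a1) (e2 : A2 = μ + (au - av)) (e3 : A3 = μ - a3)
    (hs : a1 + (au - av) - a3 = 0)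
    (hN3 : 3298534883328 ≤ 6 * Mu.hi + 4 * Rh)
    (hchk : mulU f.hi (6 * Mu.hi + 4 * Rh) ≤ 35184372000000)
    (b1 : X1.hi ≤ (2 * Rh + 1) / 3 + 1) (b3 : X3.hi ≤ (2 * Rh + 1) / 3 + 1)
    (bu : UP.hi ≤ (1 * Rh + 1) / 3 + 1) (bv : VP.hi ≤ (1 * Rh + 1) / 3 + 1) :
    (expN (PI.mul f (PI.sub (PI.smul 2 1 Mu) X1))).Mem (Real.exp (-(φ * (A2 + A3)))) ∧
    (expN (PI.mul f (PI.sub (PI.add (PI.smul 2 1 Mu) VP) UP))).Mem
      (Real.exp (-(φ * (A3 + A1)))) ∧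
    (expN (PI.mul f (PI.add (PI.smul 2 1 Mu) X3))).Mem (Real.exp (-(φ * (A1 + A2)))) ∧
    (expN (PI.mul f (PI.add (PI.smul 6 1 Mu) (PI.smul 3 1 X1)))).Mem
      (Real.exp (-(φ * (4 * A1 + A2 + A3)))) ∧
    (expN (PI.mul f (PI.sub (PI.add (PI.smul 6 1 Mu) (PI.smul 3 1 UP)) (PI.smul 3 1 VP)))).Mem
      (Real.exp (-(φ * (4 * A2 + A3 + A1)))) ∧
    (expN (PI.mul f (PI.sub (PI.smul 6 1 Mu) (PI.smul 3 1 X3)))).Mem
      (Real.exp (-(φ * (4 * A3 + A1 + A2)))) ∧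
    (PI.sub (PI.add Mu UP) VP).Mem A2 := by
  have hm2 := NumGA_int 2 hmu
  have hm6 := NumGA_int 6 hmu
  have h31 := NumGA_int 3 hx1
  have h3u := NumGA_int 3 hup
  have h3v := NumGA_int 3 hvp
  have h33 := NumGA_int 3 hx3
  push_cast at hm2 hm6 h31 h3u h3v h33
  refine ⟨?_, ?_, ?_, ?_, ?_, ?_, ?_⟩
  · have h := NumGA_expN hf (PI.Mem.sub hm2 hx1 (by linarith)) _ hN3 hchk
      ((NumGA_sub_hi _ _).trans (by rw [NumGA_int_hi]; omega))
    have e : A2 + A3 = 2 * μ - a1 := by linarith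
    rw [e]
    exact h
  · have h := NumGA_expN hf (PI.Mem.sub (PI.Mem.add hm2 hvp) hup (by linarith)) _ hN3 hchk
      ((NumGA_sub_hi _ _).trans (by rw [NumGA_add_hi, NumGA_int_hi]; omega))
    have e : A3 + A1 = 2 * μ + av - au := by linarith
    rw [e]
    exact h
  · have h := NumGA_expN hf (PI.Mem.add hm2 hx3) _ hN3 hchk
      (by rw [NumGA_add_hi, NumGA_int_hi]; omega)
    have e : A1 + A2 = 2 * μ + a3 := by linarith
    rw [e]
    exact h
  · have h := NumGA_expN hf (PI.Mem.add hm6 h31) _ hN3 hchk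
      (by rw [NumGA_add_hi, NumGA_int_hi, NumGA_int_hi]; omega)
    have e : 4 * A1 + A2 + A3 = 6 * μ + 3 * a1 := by linarith
    rw [e]
    exact h
  · have h := NumGA_expN hf (PI.Mem.sub (PI.Mem.add hm6 h3u) h3v (by linarith)) _ hN3 hchk
      ((NumGA_sub_hi _ _).trans (by rw [NumGA_add_hi, NumGA_int_hi, NumGA_int_hi]; omega))
    have e : 4 * A2 + A3 + A1 = 6 * μ + 3 * au - 3 * av := by linarith
    rw [e]
    exact h
  · have h := NumGA_expN hf (PI.Mem.sub hm6 h33 (by linarith)) _ hN3 hchk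
      ((NumGA_sub_hi _ _).trans (by rw [NumGA_int_hi]; omega))
    have e : 4 * A3 + A1 + A2 = 6 * μ - 3 * a3 := by linarith
    rw [e]
    exact h
  · have h := PI.Mem.sub (PI.Mem.add hmu hup) hvp (by linarith)
    have e : A2 = μ + au - av := by linarith
    rw [e]
    exact h

private lemma NumGA_mu {Mu : PI} {μ : ℝ} (h : Mu.Mem μ) (hμ : 1 / 2 ≤ μ) :
    549755813888 ≤ Mu.hi := by
  have h1 : (1 : ℝ) / 2 ≤ rv Mu.hi := hμ.trans h.2
  unfold rv at h1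
  rw [div_le_div_iff₀ (by norm_num) (by norm_num)] at h1
  have h2 : (549755813888 : ℝ) ≤ (Mu.hi : ℝ) := by linarith
  exact_mod_cast h2

/-- `ws_ok`; the hypotheses `hph` and `hy2` exclude degenerate cells. -/
theorem ws_ok {f : PI} {φ : ℝ} (hf : f.Mem φ) {B : Base} {y r p : ℝ} (hB : BaseOK B y r p)
    (hr : 0 < r) (hp0 : 0 ≤ p) (hp1 : p ≤ 1) (h3 : 0 ≤ AA3 y r p) (hc : wsChk f B = true)
    (hph : B.p.hi ≤ 1099511627776) (hy2 : 1 / 2 ≤ y) :
    WsOK (mkWs f B) φ y r p := by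
  have hch : 1 ≤ chh y r p := by
    unfold chh
    rw [Real.one_le_sqrt]
    have : 0 ≤ kap p * r ^ 2 / (9 * y ^ 2) := by
      have : 0 ≤ kap p := by
        unfold kap
        nlinarith [sq_nonneg (p - 1 / 2)]
      positivity
    linarith
  have hμ2 : 1 / 2 ≤ y * chh y r p := by nlinarith
  have hM := NumGA_mu hB.mmu hμ2
  have hchk : mulU f.hi (6 * B.mu.hi + 4 * B.r.hi) ≤ 35184372000000 := by
    unfold wsChk at hc
    exact Nat.le_of_ble_eq_true hc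
  obtain ⟨hx1, b1⟩ := NumGA_x1 hB.mp hB.mr hph
  obtain ⟨hx3, b3⟩ := NumGA_x3 hB.mp hB.mr hp1
  obtain ⟨hup, bu⟩ := NumGA_up hB.mp hB.mr
  obtain ⟨hvp, bv⟩ := NumGA_vp hB.mp hB.mr hph
  have hau0 : 0 ≤ max (1 - 2 * p) 0 * r / 3 := by
    have := le_max_right (1 - 2 * p) 0
    positivity
  have hav0 : 0 ≤ max (2 * p - 1) 0 * r / 3 := by
    have := le_max_right (2 * p - 1) 0
    positivity
  have h32 : AA3 y r p ≤ AA2 y r p := by
    unfold AA3 AA2 xx2 xx3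
    have : 0 ≤ (1 - p) * r := mul_nonneg (by linarith) hr.le
    linarith
  have h21 : AA2 y r p ≤ AA1 y r p := by
    unfold AA2 AA1 xx2 xx1
    have : 0 ≤ p * r := mul_nonneg hp0 hr.le
    linarith
  have hmm : max (1 - 2 * p) 0 * r / 3 - max (2 * p - 1) 0 * r / 3 = (1 - 2 * p) * r / 3 := by
    rcases le_total (2 * p) 1 with h | h
    · rw [max_eq_left (by linarith), max_eq_right (by linarith)]; ring
    · rw [max_eq_right (by linarith), max_eq_left (by linarith)]; ring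
  have e1 : AA1 y r p = y * chh y r p + (1 + p) * r / 3 := rfl
  have e2 : AA2 y r p = y * chh y r p +
      (max (1 - 2 * p) 0 * r / 3 - max (2 * p - 1) 0 * r / 3) := by
    rw [hmm]; rfl
  have e3 : AA3 y r p = y * chh y r p - (2 - p) * r / 3 := by unfold AA3 xx3; ring
  have hs : (1 + p) * r / 3 + (max (1 - 2 * p) 0 * r / 3 - max (2 * p - 1) 0 * r / 3) -
      (2 - p) * r / 3 = 0 := by
    rw [hmm]; ring
  obtain ⟨k1, k2, k3, k4, k5, k6, k7⟩ := NumGA_main hf hB.mmu hx1 hx3 hup hvp hau0 hav0 h3 h32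
    h21 e1 e2 e3 hs (by omega) hchk b1 b3 bu bv
  exact ⟨k1, k2, k3, k4, k5, k6, k7⟩

end MP7e122f.Num
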