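import Pool.Agent.Lib.MP_7e122f_anR.NumGA
import Pool.Agent.Lib.MP_7e122f_anR.NumBaseB

namespace MP7e122f.Num

open MP7e122f.R

private theorem gb_and {a b : Bool} (h : and a b = true) : a = true ∧ b = true := by
  revert h; cases a <;> cases b <;> simp

/-- range facts on `p` -/
private theorem gb_p {rl rh pl ph : Nat} {p : ℝ} (hc : cellChk rl rh pl ph = true)
    (hp1 : rv pl ≤ p) (hp2 : p ≤ rv ph) : 0 ≤ p ∧ p ≤ 1 := by
  obtain ⟨-, hc⟩ := gb_and hc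
  obtain ⟨-, hc⟩ := gb_and hc
  obtain ⟨-, hc⟩ := gb_and hc
  refine ⟨(rv_nonneg _).trans hp1, hp2.trans ?_⟩
  have := rv_le hc
  rwa [rv_lit] at this

private theorem gb_mkp (y : PI) (rl rh pl ph : Nat) : (mkBase y rl rh pl ph).p.hi = ph := rfl

/-- range of the interval of `p` -/
private theorem gb_ph {y : PI} {rl rh pl ph : Nat} (hc : cellChk rl rh pl ph = true) :
    (mkBase y rl rh pl ph).p.hi ≤ 1099511627776 := by
  obtain ⟨-, hc⟩ := gb_and hc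
  obtain ⟨-, hc⟩ := gb_and hc
  obtain ⟨-, hc⟩ := gb_and hc
  rw [gb_mkp]
  exact Nat.le_of_ble_eq_true hc

private theorem gb_ch {y r p : ℝ} (hp0 : 0 ≤ p) (hp1 : p ≤ 1) : 1 ≤ chh y r p := by
  unfold chh
  rw [show (1:ℝ) = Real.sqrt 1 by simp]
  apply Real.sqrt_le_sqrt
  have : 0 ≤ kap p := by unfold kap; nlinarith
  have h2 : 0 ≤ kap p * r ^ 2 / (9 * y ^ 2) := by positivity
  simp only [Real.sqrt_one]
  linarith

/-- exponential of a multiple of the lower end of `A2` -/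
private theorem gb_X {f : PI} {φ a : ℝ} (hf : f.Mem φ) {l k : Nat} (hl : rv l ≤ a)
    (hfb : f.hi ≤ 12094627905536)
    (h : Nat.ble (mulU f.hi (Nat.mul k l)) 35184372000000 = true) :
    Real.exp (-(k * φ * a)) ≤ rv (expN (PI.mul f (PI.smul k 1 ⟨l, l⟩))).hi := by
  have hφ : 0 ≤ φ := hf.nonneg
  have hm : (PI.mul f (PI.smul k 1 ⟨l, l⟩)).Mem (φ * ((k : ℝ) / (1 : ℕ) * rv l)) :=
    PI.Mem.mul hf (PI.Mem.smul k 1 one_pos (PI.Mem.pt l))
  have hb : (PI.mul f (PI.smul k 1 ⟨l, l⟩)).hi ≤ 35184372088000 := by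
    have h1 := Nat.le_of_ble_eq_true h
    have e1 : (PI.mul f (PI.smul k 1 ⟨l, l⟩)).hi = mulU f.hi (k * l / 1 + 1) := rfl
    have e2 : mulU f.hi (Nat.mul k l) = (f.hi * (k * l)) / 2 ^ 40 + 1 := by
      show Nat.succ (Nat.shiftRight (Nat.mul f.hi (Nat.mul k l)) 40) = _
      have : Nat.shiftRight (Nat.mul f.hi (Nat.mul k l)) 40 = (f.hi * (k * l)) / 2 ^ 40 :=
        Nat.shiftRight_eq_div_pow _ _
      rw [this]
    have e3 : mulU f.hi (k * l / 1 + 1) = (f.hi * (k * l + 1)) / 2 ^ 40 + 1 := by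
      rw [Nat.div_one]
      show Nat.succ (Nat.shiftRight (Nat.mul f.hi (k * l + 1)) 40) = _
      have : Nat.shiftRight (Nat.mul f.hi (k * l + 1)) 40 = (f.hi * (k * l + 1)) / 2 ^ 40 :=
        Nat.shiftRight_eq_div_pow _ _
      rw [this]
    rw [e1, e3]
    rw [e2] at h1
    have e4 : f.hi * (k * l + 1) ≤ f.hi * (k * l) + 11 * 2 ^ 40 := by
      rw [Nat.mul_add, Nat.mul_one]
      have : f.hi ≤ 11 * 2 ^ 40 := by omega
      omega
    have e5 : (f.hi * (k * l + 1)) / 2 ^ 40 ≤ (f.hi * (k * l) + 11 * 2 ^ 40) / 2 ^ 40 :=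
      Nat.div_le_div_right e4
    have e6 : (f.hi * (k * l) + 11 * 2 ^ 40) / 2 ^ 40 = (f.hi * (k * l)) / 2 ^ 40 + 11 :=
      Nat.add_mul_div_right _ _ (by norm_num)
    omega
  refine le_trans ?_ (expN_mem hm hb).2
  apply Real.exp_le_exp.mpr
  have : (k : ℝ) * φ * rv l ≤ (k : ℝ) * φ * a :=
    mul_le_mul_of_nonneg_left hl (by positivity)
  have e : φ * ((k : ℝ) / (1 : ℕ) * rv l) = (k : ℝ) * φ * rv l := by
    push_cast; ring
  rw [e]
  linarith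

/-- `f.hi` is bounded -/
private theorem gb_f {f : PI} {B : Base} {y r p : ℝ} (hB : BaseOK B y r p) (hy : 1 / 2 ≤ y)
    (hp0 : 0 ≤ p) (hp1 : p ≤ 1) (hc : wsChk f B = true) : f.hi ≤ 12094627905536 := by
  have h1 := Nat.le_of_ble_eq_true hc
  have hch := gb_ch (y := y) (r := r) hp0 hp1
  have hm : (1:ℝ) / 2 ≤ rv B.mu.hi := by
    refine le_trans ?_ hB.mmu.2
    nlinarith
  have hm2 : 549755813888 ≤ B.mu.hi := by
    have : (549755813888 : ℝ) ≤ (B.mu.hi : ℝ) := by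
      have h := hm
      unfold rv at h
      rw [le_div_iff₀ (by norm_num)] at h
      linarith
    exact_mod_cast this
  have e2 : mulU f.hi (Nat.add (Nat.mul 6 B.mu.hi) (Nat.mul 4 B.r.hi))
      = (f.hi * (6 * B.mu.hi + 4 * B.r.hi)) / 2 ^ 40 + 1 := by
    show Nat.succ (Nat.shiftRight (Nat.mul f.hi (6 * B.mu.hi + 4 * B.r.hi)) 40) = _
    have : Nat.shiftRight (Nat.mul f.hi (6 * B.mu.hi + 4 * B.r.hi)) 40
        = (f.hi * (6 * B.mu.hi + 4 * B.r.hi)) / 2 ^ 40 :=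
      Nat.shiftRight_eq_div_pow _ _
    rw [this]
  rw [e2] at h1
  have e3 : f.hi * (3 * 2 ^ 40) ≤ f.hi * (6 * B.mu.hi + 4 * B.r.hi) :=
    Nat.mul_le_mul_left _ (by omega)
  have e4 : (f.hi * (3 * 2 ^ 40)) / 2 ^ 40 ≤ (f.hi * (6 * B.mu.hi + 4 * B.r.hi)) / 2 ^ 40 :=
    Nat.div_le_div_right e3
  have e5 : (f.hi * (3 * 2 ^ 40)) / 2 ^ 40 = f.hi * 3 := by
    rw [← Nat.mul_assoc]
    exact Nat.mul_div_cancel _ (by norm_num)
  omega

private theorem gb_y {yI : PI} {y : ℝ} (hy : yI.Mem y) (hylo : 549755813888 ≤ yI.lo) :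
    1 / 2 ≤ y := by
  refine le_trans ?_ hy.1
  have : (549755813888 : ℝ) ≤ (yI.lo : ℝ) := by exact_mod_cast hylo
  unfold rv
  rw [le_div_iff₀ (by norm_num)]
  linarith

private theorem gb_four_le {l : Nat} {x : ℝ} (h : rv l ≤ x) :
    rv (mulD (mulD l l) (mulD l l)) ≤ x ^ 4 := by
  have h0 := rv_nonneg l
  have h1 : rv (mulD l l) ≤ x ^ 2 := by
    refine (mulD_le l l).trans ?_
    nlinarith
  have h2 := rv_nonneg (mulD l l)
  refine (mulD_le _ _).trans ?_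
  have : x ^ 4 = x ^ 2 * x ^ 2 := by ring
  rw [this]
  exact mul_le_mul h1 h1 h2 (by positivity)

private theorem gb_le_four {l : Nat} {x : ℝ} (hx : 0 ≤ x) (h : x ≤ rv l) :
    x ^ 4 ≤ rv (mulU (mulU l l) (mulU l l)) := by
  have h1 : x ^ 2 ≤ rv (mulU l l) := by
    refine le_trans ?_ (le_mulU l l)
    nlinarith
  refine le_trans ?_ (le_mulU _ _)
  have : x ^ 4 = x ^ 2 * x ^ 2 := by ring
  rw [this]
  exact mul_le_mul h1 h1 (by positivity) (rv_nonneg _)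

private theorem gb_lt {a b : Nat} (h : Nat.ble (Nat.succ a) b = true) : rv a < rv b := rv_lt h

theorem gcheckB_ok {G : GS} {φ y r p : ℝ} {rl rh pl ph : Nat} (hy : G.y.Mem y)
    (hylo : 549755813888 ≤ G.y.lo) (hf : G.f.Mem φ) (hc : cellChk rl rh pl ph = true)
    (hh2 : Nat.ble (mkBase G.y rl rh pl ph).h.hi 2199023255552 = true)
    (h : gcheckB G (mkBase G.y rl rh pl ph) = true) (h3 : 0 ≤ AA3 y r p)
    (hr0 : 0 < r) (hr1 : rv rl ≤ r) (hr2 : r ≤ rv rh) (hp1 : rv pl ≤ p) (hp2 : p ≤ rv ph) :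
    rv G.hb < GBv φ (AA1 y r p) (AA2 y r p) (AA3 y r p) ∧
      Real.exp (-(8 * φ * AA2 y r p)) ≤ 1 / 4 := by
  have hB := base_ok hy hylo hc hh2 hr0 hr1 hr2 hp1 hp2
  obtain ⟨q0, q1⟩ := gb_p hc hp1 hp2
  have hph := gb_ph (y := G.y) hc
  generalize mkBase G.y rl rh pl ph = B at hB h hph
  obtain ⟨k1, h⟩ := gb_and h
  obtain ⟨k2, h⟩ := gb_and h
  obtain ⟨k3, h⟩ := gb_and h
  have hW := ws_ok hf hB hr0 q0 q1 h3 k1 hph (gb_y hy hylo)
  have hfb := gb_f hB (gb_y hy hylo) q0 q1 k1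
  generalize mkWs G.f B = W at hW h k2 k3
  have hX := gb_X (k := 8) hf hW.A2.1 hfb k2
  set X := (expN (PI.mul G.f (PI.smul 8 1 ⟨W.A2.lo, W.A2.lo⟩))).hi with hXdef
  have hlt := rv_lt h
  have k3' : rv X ≤ 1 / 4 := by
    refine (rv_le k3).trans ?_
    unfold rv
    norm_num
  push_cast at hX
  refine ⟨?_, hX.trans k3'⟩
  unfold GBv
  set E := Real.exp (-(8 * φ * AA2 y r p)) with hE
  have hE0 : 0 ≤ E := (Real.exp_pos _).le
  obtain ⟨t1a, t1b⟩ := hW.t1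
  obtain ⟨t2a, t2b⟩ := hW.t2
  obtain ⟨t3a, t3b⟩ := hW.t3
  obtain ⟨w1a, w1b⟩ := hW.w1
  obtain ⟨w2a, w2b⟩ := hW.w2
  obtain ⟨w3a, w3b⟩ := hW.w3
  have e3 : 0 ≤ Real.exp (-(φ * (AA1 y r p + AA2 y r p))) := (Real.exp_pos _).le
  set a1 := Real.exp (-(φ * (AA2 y r p + AA3 y r p)))
  set a2 := Real.exp (-(φ * (AA3 y r p + AA1 y r p)))
  set a3 := Real.exp (-(φ * (AA1 y r p + AA2 y r p)))
  set b1 := Real.exp (-(φ * (4 * AA1 y r p + AA2 y r p + AA3 y r p)))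
  set b2 := Real.exp (-(φ * (4 * AA2 y r p + AA3 y r p + AA1 y r p)))
  set b3 := Real.exp (-(φ * (4 * AA3 y r p + AA1 y r p + AA2 y r p)))
  have f1 := gb_four_le t1a
  have f2 := gb_four_le t2a
  -- powers of X
  have x2 : E ^ 2 ≤ rv (mulU X X) := by
    refine le_trans ?_ (le_mulU X X)
    nlinarith
  have x3 : E ^ 3 ≤ rv (mulU X (mulU X X)) := by
    refine le_trans ?_ (le_mulU _ _)
    have : E ^ 3 = E * E ^ 2 := by ring
    rw [this]
    exact mul_le_mul hX x2 (by positivity) (rv_nonneg _)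
  have hsum : a3 * (2 * E + E ^ 2 + 3 * E ^ 3) ≤ rv (mulU W.t3.hi
      (Nat.add (Nat.mul 2 X) (Nat.add (mulU X X) (Nat.mul 3 (mulU X (mulU X X)))))) := by
    refine le_trans ?_ (le_mulU _ _)
    refine mul_le_mul t3b ?_ (by positivity) (rv_nonneg _)
    rw [rv_add, rv_add, rv_nmul, rv_nmul]
    push_cast
    linarith
  have hneg := rv_add (Nat.add (Nat.mul 2 W.t3.hi) (Nat.add (Nat.mul 2 W.w3.hi)
    (Nat.mul 4 (mulU W.t3.hi
      (Nat.add (Nat.mul 2 X) (Nat.add (mulU X X) (Nat.mul 3 (mulU X (mulU X X))))))))) G.hb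
  change rv (Nat.add (Nat.add (Nat.mul 2 W.t3.hi) (Nat.add (Nat.mul 2 W.w3.hi)
    (Nat.mul 4 (mulU W.t3.hi
      (Nat.add (Nat.mul 2 X) (Nat.add (mulU X X) (Nat.mul 3 (mulU X (mulU X X))))))))) G.hb) <
    rv (Nat.add (Nat.mul 2 (Nat.add W.t1.lo W.t2.lo)) (Nat.add (Nat.mul 2 (Nat.add W.w1.lo W.w2.lo))
    (Nat.mul 2 (Nat.add (mulD (mulD W.t1.lo W.t1.lo) (mulD W.t1.lo W.t1.lo))
      (mulD (mulD W.t2.lo W.t2.lo) (mulD W.t2.lo W.t2.lo)))))) at hlt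
  rw [hneg] at hlt
  simp only [rv_add, rv_nmul] at hlt hsum
  push_cast at hlt hsum
  linarith

/-- `x - x⁴` from below -/
private theorem gb_g4 {x : PI} {z : ℝ} (hx : x.Mem z) (hz : z ≤ 0.62) :
    rv (g4D x) ≤ z - z ^ 4 := by
  have h0 := rv_nonneg x.lo
  have hz0 : 0 ≤ z := h0.trans hx.1
  have h4 := gb_le_four h0 (le_refl (rv x.lo))
  have z3 : z ^ 3 ≤ 0.25 := by
    calc z ^ 3 ≤ (0.62:ℝ) ^ 3 := by gcongr
      _ ≤ 0.25 := by norm_num
  apply rv_sub_of_le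
  · refine le_trans (sub_le_sub_left h4 _) ?_
    set l := rv x.lo
    have hl : l ≤ z := hx.1
    have : z - z ^ 4 - (l - l ^ 4) = (z - l) * (1 - (z ^ 3 + z ^ 2 * l + z * l ^ 2 + l ^ 3)) := by
      ring
    have h2 : z ^ 2 * l ≤ z ^ 3 := by
      have : z ^ 3 = z ^ 2 * z := by ring
      rw [this]; gcongr
    have h5 : z * l ^ 2 ≤ z ^ 3 := by
      have : z ^ 3 = z * z ^ 2 := by ring
      rw [this]; gcongr
    have h6 : l ^ 3 ≤ z ^ 3 := by gcongr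
    have h7 : 0 ≤ (z - l) * (1 - (z ^ 3 + z ^ 2 * l + z * l ^ 2 + l ^ 3)) := by
      apply mul_nonneg
      · linarith
      · linarith
    linarith
  · have : z ^ 4 = z * z ^ 3 := by ring
    nlinarith

/-- all six numbers are at most `t1 ≤ 0.62`, and `x - x⁴` is increasing on `[0, 0.62]` -/
theorem gcheckA_ok {G : GS} {φ y r p : ℝ} {rl rh pl ph : Nat} (hy : G.y.Mem y)
    (hylo : 549755813888 ≤ G.y.lo) (hf : G.f.Mem φ) (hφ : 0 ≤ φ) (hc : cellChk rl rh pl ph = true)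
    (hh2 : Nat.ble (mkBase G.y rl rh pl ph).h.hi 2199023255552 = true)
    (h : gcheckA G (mkBase G.y rl rh pl ph) = true) (h3 : 0 ≤ AA3 y r p)
    (hr0 : 0 < r) (hr1 : rv rl ≤ r) (hr2 : r ≤ rv rh) (hp1 : rv pl ≤ p) (hp2 : p ≤ rv ph) :
    rv G.hb < GAv φ (AA1 y r p) (AA2 y r p) (AA3 y r p) ∧
      Real.exp (-(4 * φ * AA2 y r p)) ≤ 1 / 10 := by
  have hB := base_ok hy hylo hc hh2 hr0 hr1 hr2 hp1 hp2
  obtain ⟨q0, q1⟩ := gb_p hc hp1 hp2
  have hph := gb_ph (y := G.y) hc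
  generalize mkBase G.y rl rh pl ph = B at hB h hph
  obtain ⟨k1, h⟩ := gb_and h
  obtain ⟨k2, h⟩ := gb_and h
  obtain ⟨k3, h⟩ := gb_and h
  obtain ⟨k4, h⟩ := gb_and h
  have hW := ws_ok hf hB hr0 q0 q1 h3 k1 hph (gb_y hy hylo)
  have hfb := gb_f hB (gb_y hy hylo) q0 q1 k1
  generalize mkWs G.f B = W at hW h k2 k3 k4
  have hX := gb_X (k := 4) hf hW.A2.1 hfb k2
  set Y := (expN (PI.mul G.f (PI.smul 4 1 ⟨W.A2.lo, W.A2.lo⟩))).hi with hYdef
  have hlt := rv_lt h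
  have k3' : rv Y ≤ 1 / 10 := by
    refine (rv_le k3).trans ?_
    unfold rv
    norm_num
  have k4' : rv W.t1.hi ≤ 0.62 := by
    refine (rv_le k4).trans ?_
    unfold rv
    norm_num
  push_cast at hX
  refine ⟨?_, hX.trans k3'⟩
  -- ordering
  have h23 : AA3 y r p ≤ AA2 y r p := by
    unfold AA3 AA2 xx3 xx2
    nlinarith [mul_nonneg (sub_nonneg.mpr q1) hr0.le]
  have h12 : AA2 y r p ≤ AA1 y r p := by
    unfold AA1 AA2 xx1 xx2
    nlinarith [mul_nonneg q0 hr0.le]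
  have hA2 : 0 ≤ AA2 y r p := h3.trans h23
  have hA1 : 0 ≤ AA1 y r p := hA2.trans h12
  have ht1 : Real.exp (-(φ * (AA2 y r p + AA3 y r p))) ≤ 0.62 := hW.t1.2.trans k4'
  have key : ∀ s, AA2 y r p + AA3 y r p ≤ s → Real.exp (-(φ * s)) ≤ 0.62 := by
    intro s hs
    refine le_trans ?_ ht1
    apply Real.exp_le_exp.mpr
    have := mul_le_mul_of_nonneg_left hs hφ
    linarith
  have g1 := gb_g4 hW.t1 ht1
  have g2 := gb_g4 hW.t2 (key _ (by linarith))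
  have g3 := gb_g4 hW.t3 (key _ (by linarith))
  have g4 := gb_g4 hW.w1 (key _ (by linarith))
  have g5 := gb_g4 hW.w2 (key _ (by linarith))
  have g6 := gb_g4 hW.w3 (key _ (by linarith))
  unfold GAv
  have hE0 : 0 ≤ Real.exp (-(4 * φ * AA2 y r p)) := (Real.exp_pos _).le
  have e4 := gb_le_four hE0 hX
  change rv (Nat.add (Nat.mul 5 (mulU (mulU Y Y) (mulU Y Y))) G.hb) <
    rv (Nat.mul 2 (Nat.add (Nat.add (g4D W.t1) (Nat.add (g4D W.t2) (g4D W.t3)))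
    (Nat.add (g4D W.w1) (Nat.add (g4D W.w2) (g4D W.w3))))) at hlt
  simp only [rv_add, rv_nmul] at hlt
  push_cast at hlt
  linarith

end MP7e122f.Num
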