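import Pool.Agent.Lib.MP_7e122f_anR.NumBase

/-!
# Numerical evaluation on a cell: the main quantities
-/

namespace MP7e122f.Num

open MP7e122f.R

/-- `P (1+E+E²)/3` : from `ψ(x)`, `exp x` to `ψ(3x)` -/
def tri (P E : PI) : PI := PI.smul 1 3 (PI.mul P (PI.add (PI.add PI.one E) (PI.sq E)))
/-- `P (1+E)(1+E²)/4` : from `ψ(x)`, `exp x` to `ψ(4x)` -/
def quad (P E : PI) : PI :=
  PI.smul 1 4 (PI.mul P (PI.mul (PI.add PI.one E) (PI.add PI.one (PI.sq E))))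

/-- `(p² F1 + (1-p)² F2 + F3)/κ` -/
def wavg (B : Base) (F1 F2 F3 : PI) : PI :=
  let c := minN F1.lo (minN F2.lo F3.lo)
  ⟨Nat.add (Nat.mul 2 c) (Nat.add (mulD B.Wa.lo (Nat.sub F1.lo c))
      (Nat.add (mulD B.Wb.lo (Nat.sub F2.lo c)) (mulD B.Wc.lo (Nat.sub F3.lo c)))),
    Nat.add (Nat.mul 2 c) (Nat.add (mulU B.Wa.hi (Nat.sub F1.hi c))
      (Nat.add (mulU B.Wb.hi (Nat.sub F2.hi c)) (mulU B.Wc.hi (Nat.sub F3.hi c))))⟩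

/-- `(1 - exp (-h))/h` -/
def g1Of (h : PI) : PI :=
  ⟨Nat.sub 1099511627776 (Nat.succ (Nat.div h.hi 2)),
    Nat.succ (Nat.add (Nat.sub 1099511627776 (Nat.div h.lo 2)) (Nat.div (mulU h.lo h.lo) 6))⟩

structure Mid where
  T1 : PI
  T2 : PI
  T3 : PI
  X : PI
  F1 : PI
  F2 : PI
  F3 : PI
  Dl : PI
  D1p : PI
  D1n : PI
  D3p : PI
  D3n : PI
  D4u : Nat
  o1 : PI
  o2 : PI
  o3 : PI
  Cov : PI
  P3 : PI
  Q3 : PI

def mkMid (B : Base) : Mid :=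
  let e1 := cube B.f1
  let e2 := cube B.f2
  let e3 := cube B.f3
  let T1 := PI.mul B.eh e1
  let T2 := PI.mul B.eh e2
  let T3 := PI.mul B.eh e3
  let Qa := tri B.Pa B.Ea
  let Qb := tri B.Pb B.Eb
  let Qr := tri B.Pr B.Er
  let F1 := PI.mul T2 Qa
  let F2 := PI.mul T3 Qb
  let F3 := PI.mul T3 Qr
  let D1p := PI.smul 1 18 (PI.mul (PI.mul B.eh (PI.add B.f1 (PI.add B.f2 B.f3)))
    (wavg B (PI.sq (PI.mul B.f2 B.Pa)) (PI.sq (PI.mul B.f3 B.Pb)) (PI.sq (PI.mul B.f3 B.Pr))))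
  let g1 := g1Of B.h
  let v1 := PI.inv e1
  let v2 := PI.inv e2
  let v3 := PI.inv e3
  let eh3 := cube B.eh
  let D3p := PI.smul 1 2 (PI.mul (PI.mul eh3 (PI.add v1 (PI.add v2 v3)))
    (wavg B (PI.sq (PI.mul v1 Qa)) (PI.sq (PI.mul v2 Qb)) (PI.sq (PI.mul v1 Qr))))
  let w1 := PI.mul B.f1 e1
  let w2 := PI.mul B.f2 e2
  let w3 := PI.mul B.f3 e3
  let D4p := PI.smul 8 9 (PI.mul (PI.mul (PI.mul eh3 B.eh) (PI.add w1 (PI.add w2 w3)))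
    (wavg B (PI.sq (PI.mul w2 (quad B.Pa B.Ea))) (PI.sq (PI.mul w3 (quad B.Pb B.Eb)))
      (PI.sq (PI.mul w3 (quad B.Pr B.Er)))))
  let D4n := PI.smul 12 1 (PI.mul B.g0 (quad g1 B.eh))
  let o1 := cube (PI.mul B.eh v1)
  let o2 := cube (PI.mul B.eh v2)
  let o3 := cube (PI.mul B.eh v3)
  let C12 := PI.smul 3 1 (PI.mul o1 (tri Qa (cube B.Ea)))
  let C23 := PI.smul 3 1 (PI.mul o2 (tri Qb (cube B.Eb)))
  let C13 := PI.smul 3 1 (PI.mul o1 (tri Qr (cube B.Er)))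
  let G1 := PI.mul C12 F1
  let G2 := PI.mul C23 F2
  { T1 := T1, T2 := T2, T3 := T3, X := PI.add T1 (PI.add T2 T3), F1 := F1, F2 := F2, F3 := F3,
    Dl := wavg B (PI.sq F1) (PI.sq F2) (PI.sq F3),
    D1p := D1p, D1n := PI.smul 3 1 (PI.mul B.g0 g1),
    D3p := D3p, D3n := PI.smul 9 1 (PI.mul B.g0 (tri g1 B.eh)),
    D4u := maxN (Nat.sub D4p.hi D4n.lo) (Nat.sub D4n.hi D4p.lo),
    o1 := o1, o2 := o2, o3 := o3,
    Cov := wavg B G1 G2 (PI.mul C13 F3),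
    P3 := PI.add (PI.mul B.Wa G1) (PI.mul B.p1k (PI.mul C13 F2)),
    Q3 := PI.add (PI.mul B.pk (PI.mul C13 F1)) (PI.mul B.Wb G2) }

/-- the denominators are positive -/
def midChk (B : Base) : Bool :=
  and (Nat.ble 1 (cube B.f1).lo) (and (Nat.ble 1 (cube B.f2).lo) (Nat.ble 1 (cube B.f3).lo))

/-- what the fields of `Mid` mean -/
structure MidOK (M : Mid) (y r p : ℝ) : Prop where
  mT1 : M.T1.Mem (T1 y r p)
  mT2 : M.T2.Mem (T2 y r p)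
  mT3 : M.T3.Mem (T3 y r p)
  mX : M.X.Mem (XX y r p)
  mF1 : M.F1.Mem (T2 y r p * psr (p * r))
  mF2 : M.F2.Mem (T3 y r p * psr ((1 - p) * r))
  mF3 : M.F3.Mem (T3 y r p * psr r)
  mDl : M.Dl.Mem (Dl y r p)
  mD1 : ∃ a b, M.D1p.Mem a ∧ M.D1n.Mem b ∧ R.D1 y r p = a - b
  mD3 : ∃ a b, M.D3p.Mem a ∧ M.D3n.Mem b ∧ R.D3 y r p = a - b
  mD4 : |R.D4 y r p| ≤ rv M.D4u
  mo1 : M.o1.Mem (O1 y r p)
  mo2 : M.o2.Mem (O2 y r p)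
  mo3 : M.o3.Mem (O3 y r p)
  mCov : M.Cov.Mem (CovN y r p)
  mP3 : M.P3.Mem (P3N y r p)
  mQ3 : M.Q3.Mem (Q3N y r p)

end MP7e122f.Num
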