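import Pool.Agent.Lib.MP_7e122f_anR.NumMid

namespace MP7e122f.Num

open MP7e122f.R

private theorem nma_psr_of_ne {x : ℝ} (h : x ≠ 0) : psr x = (Real.exp x - 1) / x := by
  unfold psr
  rw [if_neg h]

private theorem nma_psr_zero : psr 0 = 1 := by
  unfold psr
  rw [if_pos rfl]

private theorem nma_psr_mono {x y : ℝ} (h : x ≤ y) : psr x ≤ psr y := by
  have hsec : ∀ {u v : ℝ}, u ≠ 0 → v ≠ 0 → u ≤ v →
      (Real.exp u - 1) / u ≤ (Real.exp v - 1) / v := by
    intro u v hu hv huv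
    have h1 := convexOn_exp.secant_mono (a := 0) (x := u) (y := v) (Set.mem_univ _)
      (Set.mem_univ _) (Set.mem_univ _) hu hv huv
    simpa using h1
  by_cases hx : x = 0
  · subst hx
    by_cases hy : y = 0
    · subst hy; exact le_refl _
    · have hy0 : 0 < y := lt_of_le_of_ne h (Ne.symm hy)
      rw [nma_psr_zero, nma_psr_of_ne hy, le_div_iff₀ hy0]
      have := Real.add_one_le_exp y
      linarith
  · by_cases hy : y = 0
    · subst hy
      have hx0 : x < 0 := lt_of_le_of_ne h hx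
      rw [nma_psr_zero, nma_psr_of_ne hx, div_le_iff_of_neg hx0]
      have := Real.add_one_le_exp x
      linarith
    · rw [nma_psr_of_ne hx, nma_psr_of_ne hy]
      exact hsec hx hy h

/-- `exp (-h) ≤ 1 - h + h²/2` -/
private theorem nma_exp_neg_le {h : ℝ} (hh : 0 ≤ h) : Real.exp (-h) ≤ 1 - h + h ^ 2 / 2 := by
  have h1 := Real.quadratic_le_exp_of_nonneg hh
  have h2 : 0 < 1 + h + h ^ 2 / 2 := by positivity
  rw [Real.exp_neg]
  calc (Real.exp h)⁻¹ ≤ (1 + h + h ^ 2 / 2)⁻¹ := inv_anti₀ h2 h1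
    _ ≤ 1 - h + h ^ 2 / 2 := by
      rw [inv_le_iff_one_le_mul₀ h2]
      nlinarith [sq_nonneg (h ^ 2)]

private theorem nma_le_exp_neg {l : ℝ} (hl : 0 ≤ l) :
    1 - l + l ^ 2 / 2 - l ^ 3 / 6 ≤ Real.exp (-l) := by
  have hd : ∀ x : ℝ, HasDerivAt (fun t : ℝ => Real.exp (-t) - (1 - t + t ^ 2 / 2 - t ^ 3 / 6))
      (-Real.exp (-x) + (1 - x + x ^ 2 / 2)) x := by
    intro x
    have h1 : HasDerivAt (fun t : ℝ => Real.exp (-t)) (-Real.exp (-x)) x := by
      have := (Real.hasDerivAt_exp (-x)).comp x (hasDerivAt_neg x)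
      simpa [Function.comp_def] using this
    have h2 : HasDerivAt (fun t : ℝ => 1 - t + t ^ 2 / 2 - t ^ 3 / 6)
        (0 - 1 + (2 * x ^ 1) / 2 - (3 * x ^ 2) / 6) x := by
      have ha : HasDerivAt (fun t : ℝ => t ^ 2 / 2) ((2 * x ^ 1) / 2) x := by
        have := (hasDerivAt_pow 2 x).div_const 2
        simpa using this
      have hb : HasDerivAt (fun t : ℝ => t ^ 3 / 6) ((3 * x ^ 2) / 6) x := by
        have := (hasDerivAt_pow 3 x).div_const 6
        simpa using this
      exact (((hasDerivAt_const x (1 : ℝ)).sub (hasDerivAt_id x)).add ha).sub hb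
    have h3 := h1.sub h2
    have h4 : -Real.exp (-x) + (1 - x + x ^ 2 / 2) =
        -Real.exp (-x) - (0 - 1 + (2 * x ^ 1) / 2 - (3 * x ^ 2) / 6) := by ring
    rw [h4]
    exact h3
  have hmono : MonotoneOn (fun t : ℝ => Real.exp (-t) - (1 - t + t ^ 2 / 2 - t ^ 3 / 6))
      (Set.Ici 0) := by
    apply monotoneOn_of_deriv_nonneg (convex_Ici 0)
    · exact fun x _ => (hd x).continuousAt.continuousWithinAt
    · exact fun x _ => (hd x).differentiableAt.differentiableWithinAt
    · intro x hx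
      rw [interior_Ici] at hx
      rw [(hd x).deriv]
      have := nma_exp_neg_le (le_of_lt hx)
      linarith
  have h4 := hmono (Set.mem_Ici.2 le_rfl) (Set.mem_Ici.2 hl) hl
  simp only [neg_zero, Real.exp_zero] at h4
  norm_num at h4
  linarith

private theorem nma_psr_neg_ge {h : ℝ} (hh : 0 ≤ h) : 1 - h / 2 ≤ psr (-h) := by
  by_cases h0 : h = 0
  · subst h0
    rw [neg_zero, nma_psr_zero]
    norm_num
  · have hpos : 0 < h := lt_of_le_of_ne hh (Ne.symm h0)
    rw [nma_psr_of_ne (neg_ne_zero.2 h0), div_neg, ← neg_div, neg_sub, le_div_iff₀ hpos]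
    have := nma_exp_neg_le hh
    nlinarith

private theorem nma_psr_neg_le {l : ℝ} (hl : 0 ≤ l) : psr (-l) ≤ 1 - l / 2 + l ^ 2 / 6 := by
  by_cases h0 : l = 0
  · subst h0
    rw [neg_zero, nma_psr_zero]
    norm_num
  · have hpos : 0 < l := lt_of_le_of_ne hl (Ne.symm h0)
    rw [nma_psr_of_ne (neg_ne_zero.2 h0), div_neg, ← neg_div, neg_sub, div_le_iff₀ hpos]
    have := nma_le_exp_neg hl
    nlinarith

private theorem nma_psr_nonneg (x : ℝ) : 0 ≤ psr x := by
  by_cases hx : x = 0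
  · subst hx
    rw [nma_psr_zero]
    norm_num
  · rw [nma_psr_of_ne hx]
    rcases lt_or_gt_of_ne hx with h | h
    · apply div_nonneg_of_nonpos
      · have := Real.exp_le_one_iff.2 h.le
        linarith
      · exact h.le
    · apply div_nonneg
      · have := Real.one_le_exp h.le
        linarith
      · exact h.le

private theorem nma_minN_le_left (a b : Nat) : minN a b ≤ a := by
  unfold minN
  cases h : Nat.ble a b
  · have h1 : ¬ a ≤ b := fun h2 => by
      rw [Nat.ble_eq_true_of_le h2] at h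
      exact absurd h (by decide)
    show b ≤ a
    omega
  · exact le_refl _

private theorem nma_minN_le_right (a b : Nat) : minN a b ≤ b := by
  unfold minN
  cases h : Nat.ble a b
  · exact le_refl _
  · exact Nat.le_of_ble_eq_true h

theorem wavg_mem {B : Base} {y r p : ℝ} (hB : BaseOK B y r p) {F1 F2 F3 : PI} {a b c : ℝ}
    (h1 : F1.Mem a) (h2 : F2.Mem b) (h3 : F3.Mem c) :
    (wavg B F1 F2 F3).Mem ((p ^ 2 * a + (1 - p) ^ 2 * b + c) / kap p) := by
  have hk : 0 < kap p := by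
    unfold kap
    nlinarith [sq_nonneg (p - 1 / 2)]
  set m : Nat := minN F1.lo (minN F2.lo F3.lo) with hm
  have hm1 : m ≤ F1.lo := nma_minN_le_left _ _
  have hm2 : m ≤ F2.lo := (nma_minN_le_right _ _).trans (nma_minN_le_left _ _)
  have hm3 : m ≤ F3.lo := (nma_minN_le_right _ _).trans (nma_minN_le_right _ _)
  have hid : (p ^ 2 * a + (1 - p) ^ 2 * b + c) / kap p =
      2 * rv m + (p ^ 2 / kap p * (a - rv m) + ((1 - p) ^ 2 / kap p * (b - rv m) +
        1 / kap p * (c - rv m))) := by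
    field_simp
    unfold kap
    ring
  have hlo : ∀ {W F : PI} {w x : ℝ}, W.Mem w → F.Mem x → m ≤ F.lo →
      rv (mulD W.lo (Nat.sub F.lo m)) ≤ w * (x - rv m) := by
    intro W F w x hW hF hmF
    refine (mulD_le _ _).trans ?_
    rw [rv_sub_eq hmF]
    apply mul_le_mul hW.1
    · linarith [hF.1]
    · have := rv_mono hmF
      linarith
    · exact hW.nonneg
  have hhi : ∀ {W F : PI} {w x : ℝ}, W.Mem w → F.Mem x → m ≤ F.lo →
      w * (x - rv m) ≤ rv (mulU W.hi (Nat.sub F.hi m)) := by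
    intro W F w x hW hF hmF
    refine le_trans ?_ (le_mulU _ _)
    apply mul_le_mul hW.2
    · refine le_trans ?_ (rv_sub_le _ _)
      linarith [hF.2]
    · have := rv_mono hmF
      linarith [hF.1]
    · exact rv_nonneg _
  rw [hid]
  constructor
  · show rv (Nat.add (Nat.mul 2 m) (Nat.add (mulD B.Wa.lo (Nat.sub F1.lo m))
      (Nat.add (mulD B.Wb.lo (Nat.sub F2.lo m)) (mulD B.Wc.lo (Nat.sub F3.lo m))))) ≤ _
    rw [rv_add, rv_add, rv_add, rv_nmul]
    have e1 := hlo hB.mWa h1 hm1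
    have e2 := hlo hB.mWb h2 hm2
    have e3 := hlo hB.mWc h3 hm3
    push_cast
    linarith
  · show _ ≤ rv (Nat.add (Nat.mul 2 m) (Nat.add (mulU B.Wa.hi (Nat.sub F1.hi m))
      (Nat.add (mulU B.Wb.hi (Nat.sub F2.hi m)) (mulU B.Wc.hi (Nat.sub F3.hi m)))))
    rw [rv_add, rv_add, rv_add, rv_nmul]
    have e1 := hhi hB.mWa h1 hm1
    have e2 := hhi hB.mWb h2 hm2
    have e3 := hhi hB.mWc h3 hm3
    push_cast
    linarith

theorem tri_mem {P E : PI} {x : ℝ} (hP : P.Mem (psr x)) (hE : E.Mem (Real.exp x)) :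
    (tri P E).Mem (psr (3 * x)) := by
  have h := PI.Mem.smul 1 3 (by norm_num)
    (PI.Mem.mul hP (PI.Mem.add (PI.Mem.add PI.Mem.one hE) (PI.Mem.sq hE)))
  have he : psr (3 * x) = ((1 : ℕ) : ℝ) / ((3 : ℕ) : ℝ) *
      (psr x * (1 + Real.exp x + Real.exp x ^ 2)) := by
    by_cases hx : x = 0
    · subst hx
      rw [mul_zero, nma_psr_zero, Real.exp_zero]
      norm_num
    · rw [nma_psr_of_ne hx, nma_psr_of_ne (mul_ne_zero (by norm_num) hx)]
      have h3 : Real.exp (3 * x) = Real.exp x ^ 3 := by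
        rw [← Real.exp_nat_mul]
        norm_num
      rw [h3]
      push_cast
      field_simp
      ring
  rw [he]
  exact h

theorem quad_mem {P E : PI} {x : ℝ} (hP : P.Mem (psr x)) (hE : E.Mem (Real.exp x)) :
    (quad P E).Mem (psr (4 * x)) := by
  have h := PI.Mem.smul 1 4 (by norm_num)
    (PI.Mem.mul hP (PI.Mem.mul (PI.Mem.add PI.Mem.one hE) (PI.Mem.add PI.Mem.one (PI.Mem.sq hE))))
  have he : psr (4 * x) = ((1 : ℕ) : ℝ) / ((4 : ℕ) : ℝ) *
      (psr x * ((1 + Real.exp x) * (1 + Real.exp x ^ 2))) := by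
    by_cases hx : x = 0
    · subst hx
      rw [mul_zero, nma_psr_zero, Real.exp_zero]
      norm_num
    · rw [nma_psr_of_ne hx, nma_psr_of_ne (mul_ne_zero (by norm_num) hx)]
      have h3 : Real.exp (4 * x) = Real.exp x ^ 4 := by
        rw [← Real.exp_nat_mul]
        norm_num
      rw [h3]
      push_cast
      field_simp
      ring
  rw [he]
  exact h

/-- `(1 - exp (-h))/h = psr (-h)` is between `1 - h/2` and `1 - h/2 + h²/6` and decreasing -/
theorem g1Of_mem {H : PI} {h : ℝ} (hh : H.Mem h) : (g1Of H).Mem (psr (-h)) := by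
  have h0 : 0 ≤ h := hh.nonneg
  constructor
  · show rv (Nat.sub 1099511627776 (Nat.succ (Nat.div H.hi 2))) ≤ psr (-h)
    apply rv_sub_of_le _ (nma_psr_nonneg _)
    rw [rv_lit]
    have h1 := le_rv_div H.hi 2 (by norm_num)
    push_cast at h1
    have h2 := hh.2
    have h3 := nma_psr_neg_ge h0
    linarith
  · show psr (-h) ≤ rv (Nat.succ (Nat.add (Nat.sub 1099511627776 (Nat.div H.lo 2))
      (Nat.div (mulU H.lo H.lo) 6)))
    have hl0 : 0 ≤ rv H.lo := rv_nonneg _
    have h1 : psr (-h) ≤ psr (-(rv H.lo)) := nma_psr_mono (neg_le_neg hh.1)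
    have h2 := nma_psr_neg_le hl0
    have h3 : Nat.succ (Nat.add (Nat.sub 1099511627776 (Nat.div H.lo 2))
        (Nat.div (mulU H.lo H.lo) 6)) = Nat.add (Nat.sub 1099511627776 (Nat.div H.lo 2))
        (Nat.succ (Nat.div (mulU H.lo H.lo) 6)) := rfl
    rw [h3, rv_add]
    have h4 := rv_sub_le 1099511627776 (Nat.div H.lo 2)
    rw [rv_lit] at h4
    have h5 := rv_div_le H.lo 2
    have h6 := le_rv_div (mulU H.lo H.lo) 6 (by norm_num)
    have h7 := le_mulU H.lo H.lo
    push_cast at h5 h6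
    have h8 : rv H.lo ^ 2 / 6 ≤ rv (mulU H.lo H.lo) / 6 := by
      apply div_le_div_of_nonneg_right _ (by norm_num)
      rw [pow_two]
      exact h7
    linarith

end MP7e122f.Num
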