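import Pool.Agent.Lib.MP_7e122f_anR.NumMidA

namespace MP7e122f.Num

open MP7e122f.R

private lemma NumMidB_x12 (r p : ℝ) : xx1 r p = xx2 r p + p * r := by unfold xx1 xx2; ring
private lemma NumMidB_x23 (r p : ℝ) : xx2 r p = xx3 r p + (1 - p) * r := by unfold xx2 xx3; ring
private lemma NumMidB_x13 (r p : ℝ) : xx1 r p = xx3 r p + r := by unfold xx1 xx3; ring

private lemma NumMidB_T12 (y r p : ℝ) :
    T1 y r p - T2 y r p = p * r * (T2 y r p * psr (p * r)) := by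
  have h : T1 y r p = T2 y r p * Real.exp (p * r) := by
    unfold T1 T2
    rw [← Real.exp_add, NumMidB_x12]
    congr 1
    ring
  rw [h, psr_spec (p * r)]
  ring

private lemma NumMidB_T23 (y r p : ℝ) :
    T2 y r p - T3 y r p = (1 - p) * r * (T3 y r p * psr ((1 - p) * r)) := by
  have h : T2 y r p = T3 y r p * Real.exp ((1 - p) * r) := by
    unfold T2 T3
    rw [← Real.exp_add, NumMidB_x23]
    congr 1
    ring
  rw [h, psr_spec ((1 - p) * r)]
  ring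

private lemma NumMidB_T13 (y r p : ℝ) :
    T1 y r p - T3 y r p = r * (T3 y r p * psr r) := by
  have h : T1 y r p = T3 y r p * Real.exp r := by
    unfold T1 T3
    rw [← Real.exp_add, NumMidB_x13]
    congr 1
    ring
  rw [h, psr_spec r]
  ring

private lemma NumMidB_cube (x : ℝ) : Real.exp (x / 3) ^ 3 = Real.exp x := by
  rw [← Real.exp_nat_mul]
  congr 1
  push_cast
  ring

private lemma NumMidB_chk {B : Base} (hc : midChk B = true) :
    0 < (cube B.f1).lo ∧ 0 < (cube B.f2).lo ∧ 0 < (cube B.f3).lo := by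
  unfold midChk at hc
  rw [Bool.and_eq_true, Bool.and_eq_true] at hc
  exact ⟨Nat.le_of_ble_eq_true hc.1, Nat.le_of_ble_eq_true hc.2.1, Nat.le_of_ble_eq_true hc.2.2⟩

/-- Formulas.  With `f_i = exp(x_i/3)`, `f1 f2 f3 = 1`,
`∑ e^{x_i} - 3 = (∑ f_i)/2 ∑_{i<j} (f_i - f_j)²`, `f1 - f2 = f2 (pr/3) ψ(pr/3)` etc., so
`D1 = D1p - D1n`, `D1p = e^{-h} (∑ f)/18 wavg(...)`, `D1n = 3 (1 - e^{-h})/(κ r²) = 3 g0 ψ(-h)`.
In the same way `D3` with `v_i = exp(-x_i)` and `D4` with `w_i = exp(4x_i/3)`.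
`T1 - T2 = T2 (exp(pr) - 1) = p r F1`, `T2 - T3 = (1-p) r F2`, `T1 - T3 = r F3`,
`Dq = ∑_{i<j} (T_i - T_j)²`; `O2 - O1 = O1 (exp(3pr) - 1) = p r C12` etc.,
`Cov = (O2-O1)(T1-T2) + (O3-O2)(T2-T3) + (O3-O1)(T1-T3)`,
`P3 = (O2-O1)(T1-T2) + (O3-O1)(T2-T3)`, `Q3 = (O3-O1)(T1-T2) + (O3-O2)(T2-T3)`. -/
theorem mid_T {B : Base} {y r p : ℝ} (hy : 0 < y) (hr : 0 < r) (hp0 : 0 ≤ p) (hp1 : p ≤ 1)
    (hB : BaseOK B y r p) (hc : midChk B = true) :
    (mkMid B).T1.Mem (T1 y r p) ∧ (mkMid B).T2.Mem (T2 y r p) ∧ (mkMid B).T3.Mem (T3 y r p) ∧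
    (mkMid B).X.Mem (XX y r p) ∧ (mkMid B).F1.Mem (T2 y r p * psr (p * r)) ∧
    (mkMid B).F2.Mem (T3 y r p * psr ((1 - p) * r)) ∧ (mkMid B).F3.Mem (T3 y r p * psr r) ∧
    (mkMid B).o1.Mem (O1 y r p) ∧ (mkMid B).o2.Mem (O2 y r p) ∧ (mkMid B).o3.Mem (O3 y r p) := by
  obtain ⟨c1, c2, c3⟩ := NumMidB_chk hc
  have e1 : (cube B.f1).Mem (Real.exp (xx1 r p)) := by
    rw [← NumMidB_cube]; exact PI.Mem.cube hB.mf1
  have e2 : (cube B.f2).Mem (Real.exp (xx2 r p)) := by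
    rw [← NumMidB_cube]; exact PI.Mem.cube hB.mf2
  have e3 : (cube B.f3).Mem (Real.exp (xx3 r p)) := by
    rw [← NumMidB_cube]; exact PI.Mem.cube hB.mf3
  have hT1 : (PI.mul B.eh (cube B.f1)).Mem (T1 y r p) := by
    have := PI.Mem.mul hB.meh e1
    have e : Real.exp (-(hh y r p)) * Real.exp (xx1 r p) = T1 y r p := by
      unfold T1; rw [← Real.exp_add]; congr 1; ring
    rwa [e] at this
  have hT2 : (PI.mul B.eh (cube B.f2)).Mem (T2 y r p) := by
    have := PI.Mem.mul hB.meh e2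
    have e : Real.exp (-(hh y r p)) * Real.exp (xx2 r p) = T2 y r p := by
      unfold T2; rw [← Real.exp_add]; congr 1; ring
    rwa [e] at this
  have hT3 : (PI.mul B.eh (cube B.f3)).Mem (T3 y r p) := by
    have := PI.Mem.mul hB.meh e3
    have e : Real.exp (-(hh y r p)) * Real.exp (xx3 r p) = T3 y r p := by
      unfold T3; rw [← Real.exp_add]; congr 1; ring
    rwa [e] at this
  have hQa : (tri B.Pa B.Ea).Mem (psr (p * r)) := by
    have := tri_mem hB.mPa hB.mEa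
    have e : 3 * (p * r / 3) = p * r := by ring
    rwa [e] at this
  have hQb : (tri B.Pb B.Eb).Mem (psr ((1 - p) * r)) := by
    have := tri_mem hB.mPb hB.mEb
    have e : 3 * ((1 - p) * r / 3) = (1 - p) * r := by ring
    rwa [e] at this
  have hQr : (tri B.Pr B.Er).Mem (psr r) := by
    have := tri_mem hB.mPr hB.mEr
    have e : 3 * (r / 3) = r := by ring
    rwa [e] at this
  have ho : ∀ x : ℝ, (Real.exp (-(hh y r p)) * (1 / Real.exp x)) ^ 3 =
      Real.exp (-(3 * (x + hh y r p))) := by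
    intro x
    rw [one_div, ← Real.exp_neg, ← Real.exp_add, ← Real.exp_nat_mul]
    congr 1
    push_cast
    ring
  refine ⟨hT1, hT2, hT3, ?_, PI.Mem.mul hT2 hQa, PI.Mem.mul hT3 hQb, PI.Mem.mul hT3 hQr,
    ?_, ?_, ?_⟩
  · have := PI.Mem.add hT1 (PI.Mem.add hT2 hT3)
    have e : T1 y r p + (T2 y r p + T3 y r p) = XX y r p := by unfold XX; ring
    rw [e] at this
    exact this
  · have := PI.Mem.cube (PI.Mem.mul hB.meh (PI.Mem.inv e1 c1))
    rw [ho] at this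
    exact this
  · have := PI.Mem.cube (PI.Mem.mul hB.meh (PI.Mem.inv e2 c2))
    rw [ho] at this
    exact this
  · have := PI.Mem.cube (PI.Mem.mul hB.meh (PI.Mem.inv e3 c3))
    rw [ho] at this
    exact this

theorem mid_Dl {B : Base} {y r p : ℝ} (hy : 0 < y) (hr : 0 < r) (hp0 : 0 ≤ p) (hp1 : p ≤ 1)
    (hB : BaseOK B y r p) (hc : midChk B = true) :
    (mkMid B).Dl.Mem (Dl y r p) := by
  obtain ⟨-, -, -, -, hF1, hF2, hF3, -, -, -⟩ := mid_T hy hr hp0 hp1 hB hc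
  have h := wavg_mem hB (PI.Mem.sq hF1) (PI.Mem.sq hF2) (PI.Mem.sq hF3)
  have hk : 0 < kap p := by unfold kap; nlinarith [sq_nonneg (2 * p - 1)]
  have e : (p ^ 2 * (T2 y r p * psr (p * r)) ^ 2 +
      (1 - p) ^ 2 * (T3 y r p * psr ((1 - p) * r)) ^ 2 + (T3 y r p * psr r) ^ 2) / kap p =
      Dl y r p := by
    have h1 := NumMidB_T12 y r p
    have h2 := NumMidB_T23 y r p
    have h3 := NumMidB_T13 y r p
    have hD : Dq (T1 y r p) (T2 y r p) (T3 y r p) =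
        (p * r * (T2 y r p * psr (p * r))) ^ 2 +
        ((1 - p) * r * (T3 y r p * psr ((1 - p) * r))) ^ 2 + (r * (T3 y r p * psr r)) ^ 2 := by
      rw [← h1, ← h2, ← h3]
      unfold Dq
      ring
    unfold Dl
    rw [hD, div_eq_div_iff hk.ne' (by positivity)]
    ring
  rw [e] at h
  exact h

end MP7e122f.Num
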