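import Mathlib

/-!
# Fixed point interval arithmetic for the numerical part (kernel-friendly)

All numbers are naturals scaled by `2^40`; `rv n = n / 2^40`.  `PI` is a pair (lower bound, upper
bound) of a nonnegative real number.
-/

namespace MP7e122f.Num

/-- the unit `2^40` -/
def U : Nat := 1099511627776

/-- the real number represented by `n` -/
noncomputable def rv (n : Nat) : ℝ := (n : ℝ) / 1099511627776

/-- product rounded down / up -/
def mulD (a b : Nat) : Nat := Nat.shiftRight (Nat.mul a b) 40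
def mulU (a b : Nat) : Nat := Nat.succ (Nat.shiftRight (Nat.mul a b) 40)
/-- quotient rounded down / up -/
def divD (a b : Nat) : Nat := Nat.div (Nat.shiftLeft a 40) b
def divU (a b : Nat) : Nat := Nat.succ (Nat.div (Nat.shiftLeft a 40) b)
def maxN (a b : Nat) : Nat := cond (Nat.ble a b) b a
def minN (a b : Nat) : Nat := cond (Nat.ble a b) a b

/-- nonnegative interval -/
structure PI where
  lo : Nat
  hi : Nat

/-- `x` lies in the interval -/
def PI.Mem (a : PI) (x : ℝ) : Prop := rv a.lo ≤ x ∧ x ≤ rv a.hi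

namespace PI
def add (a b : PI) : PI := ⟨Nat.add a.lo b.lo, Nat.add a.hi b.hi⟩
def mul (a b : PI) : PI := ⟨mulD a.lo b.lo, mulU a.hi b.hi⟩
def sq (a : PI) : PI := ⟨mulD a.lo a.lo, mulU a.hi a.hi⟩
/-- truncated subtraction; correct if the difference is nonnegative -/
def sub (a b : PI) : PI := ⟨Nat.sub a.lo b.hi, Nat.sub a.hi b.lo⟩
/-- multiplication by the rational `m / d` -/
def smul (m d : Nat) (a : PI) : PI :=
  ⟨Nat.div (Nat.mul m a.lo) d, Nat.succ (Nat.div (Nat.mul m a.hi) d)⟩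
def inv (a : PI) : PI :=
  ⟨Nat.div 1208925819614629174706176 a.hi, Nat.succ (Nat.div 1208925819614629174706176 a.lo)⟩
def div (a b : PI) : PI := ⟨divD a.lo b.hi, divU a.hi b.lo⟩
def one : PI := ⟨1099511627776, 1099511627776⟩
/-- a point -/
def pt (n : Nat) : PI := ⟨n, n⟩
end PI

def cube (a : PI) : PI := PI.mul a (PI.sq a)
def four (a : PI) : PI := PI.sq (PI.sq a)

def hD (c x s : Nat) : Nat := Nat.add 1099511627776 (Nat.div (mulD x s) c)
def hU (c x s : Nat) : Nat := Nat.add 1099511627777 (Nat.div (mulU x s) c)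

/-- lower bound of `(exp x - 1)/x = ∑ x^j/(j+1)!` -/
def psD (x : Nat) : Nat :=
  hD 2 x (hD 3 x (hD 4 x (hD 5 x (hD 6 x (hD 7 x (hD 8 x (Nat.add 1099511627776 (Nat.div x 9))))))))

/-- upper bound, valid for `x ≤ 2` : the last factor `1 + x/9` is replaced by `1 + x/9 + x²/72` -/
def psU (x : Nat) : Nat :=
  hU 2 x (hU 3 x (hU 4 x (hU 5 x (hU 6 x (hU 7 x (hU 8 x
    (Nat.add 1099511627778 (Nat.add (Nat.div x 9) (Nat.div (mulU x x) 72)))))))))

def psi (x : PI) : PI := ⟨psD x.lo, psU x.hi⟩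
/-- `exp x = 1 + x ψ(x)` given `ψ` -/
def expOf (x ps : PI) : PI :=
  ⟨Nat.add 1099511627776 (mulD x.lo ps.lo), Nat.add 1099511627776 (mulU x.hi ps.hi)⟩
def exp (x : PI) : PI :=
  ⟨Nat.add 1099511627776 (mulD x.lo (psD x.lo)), Nat.add 1099511627776 (mulU x.hi (psU x.hi))⟩

/-- `exp (-x)`, valid for `x ≤ 32` -/
def expN (x : PI) : PI := PI.inv (four (four (exp (PI.smul 1 16 x))))

/-- sqrt upper bound by Newton steps -/
def sqU (N : Nat) : Nat :=
  let x := Nat.succ (Nat.div (Nat.add N U) 2)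
  let x := Nat.succ (Nat.div (Nat.add x (divU N x)) 2)
  let x := Nat.succ (Nat.div (Nat.add x (divU N x)) 2)
  Nat.succ (Nat.div (Nat.add x (divU N x)) 2)
def sqrtPI (N : PI) : PI := ⟨divD N.lo (sqU N.lo), sqU N.hi⟩

/-! ## Soundness -/

theorem rv_nonneg (n : Nat) : 0 ≤ rv n := by
  unfold rv; positivity
theorem rv_add (a b : Nat) : rv (Nat.add a b) = rv a + rv b := by
  unfold rv
  rw [Nat.add_eq, Nat.cast_add, add_div]
theorem rv_U : rv U = 1 := by
  unfold rv U; norm_num
theorem rv_lit : rv 1099511627776 = 1 := by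
  unfold rv; norm_num
theorem rv_mono {a b : Nat} (h : a ≤ b) : rv a ≤ rv b := by
  unfold rv
  have : (a : ℝ) ≤ b := by exact_mod_cast h
  exact div_le_div_of_nonneg_right this (by norm_num)
theorem rv_le {a b : Nat} (h : Nat.ble a b = true) : rv a ≤ rv b := by
  exact rv_mono (Nat.le_of_ble_eq_true h)
theorem rv_lt {a b : Nat} (h : Nat.ble (Nat.succ a) b = true) : rv a < rv b := by
  have h1 : a + 1 ≤ b := Nat.le_of_ble_eq_true h
  unfold rv
  have : (a : ℝ) < b := by exact_mod_cast h1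
  exact div_lt_div_of_pos_right this (by norm_num)
theorem numOps_le_of_rv {a b : Nat} (h : rv a ≤ rv b) : a ≤ b := by
  unfold rv at h
  have : (a : ℝ) ≤ b := by
    rwa [div_le_div_iff_of_pos_right (by norm_num)] at h
  exact_mod_cast this
theorem rv_nmul (k a : Nat) : rv (Nat.mul k a) = k * rv a := by
  unfold rv
  rw [Nat.mul_eq, Nat.cast_mul, mul_div_assoc]
theorem rv_sub_eq {a b : Nat} (h : b ≤ a) : rv (Nat.sub a b) = rv a - rv b := by
  unfold rv
  rw [Nat.sub_eq, Nat.cast_sub h, sub_div]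
theorem rv_sub_le (a b : Nat) : rv a - rv b ≤ rv (Nat.sub a b) := by
  rcases le_total b a with h | h
  · rw [rv_sub_eq h]
  · have := rv_mono h
    have := rv_nonneg (Nat.sub a b)
    linarith
/-- lower bounds by truncated subtraction -/
theorem rv_sub_of_le {a b : Nat} {x : ℝ} (h : rv a - rv b ≤ x) (hx : 0 ≤ x) :
    rv (Nat.sub a b) ≤ x := by
  rcases le_total b a with h' | h'
  · rw [rv_sub_eq h']; exact h
  · have : Nat.sub a b = 0 := Nat.sub_eq_zero_of_le h'
    rw [this]
    unfold rv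
    simpa using hx
theorem rv_div_le (a d : Nat) : rv (Nat.div a d) ≤ rv a / d := by
  unfold rv
  have h : ((Nat.div a d : Nat) : ℝ) ≤ (a : ℝ) / d := Nat.cast_div_le
  calc ((Nat.div a d : Nat) : ℝ) / 1099511627776 ≤ ((a : ℝ) / d) / 1099511627776 :=
        div_le_div_of_nonneg_right h (by norm_num)
    _ = (a : ℝ) / 1099511627776 / d := by rw [div_right_comm]
theorem numOps_div_lt (a d : Nat) (hd : 0 < d) :
    (a : ℝ) / d ≤ ((Nat.succ (Nat.div a d) : Nat) : ℝ) := by
  have h : a < d * (Nat.div a d + 1) := Nat.lt_mul_div_succ a hd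
  have h2 : (a : ℝ) ≤ d * ((Nat.succ (Nat.div a d) : Nat) : ℝ) := by exact_mod_cast h.le
  have hd' : (0 : ℝ) < d := by exact_mod_cast hd
  rw [div_le_iff₀ hd', mul_comm]
  exact h2
theorem le_rv_div (a d : Nat) (hd : 0 < d) : rv a / d ≤ rv (Nat.succ (Nat.div a d)) := by
  unfold rv
  rw [div_right_comm]
  exact div_le_div_of_nonneg_right (numOps_div_lt a d hd) (by norm_num)
theorem numOps_shr (n : Nat) : Nat.shiftRight n 40 = Nat.div n 1099511627776 := by
  have := Nat.shiftRight_eq_div_pow n 40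
  have h2 : (2 : Nat) ^ 40 = 1099511627776 := by norm_num
  rw [h2] at this
  exact this
theorem numOps_shl (n : Nat) : Nat.shiftLeft n 40 = n * 1099511627776 := by
  have := Nat.shiftLeft_eq n 40
  have h2 : (2 : Nat) ^ 40 = 1099511627776 := by norm_num
  rw [h2] at this
  exact this
theorem numOps_rv_mul (a b : Nat) : rv (Nat.mul a b) / ((1099511627776 : Nat) : ℝ) =
    rv a * rv b := by
  unfold rv
  rw [Nat.mul_eq, Nat.cast_mul]
  push_cast
  ring
theorem mulD_le (a b : Nat) : rv (mulD a b) ≤ rv a * rv b := by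
  unfold mulD
  rw [numOps_shr, ← numOps_rv_mul]
  exact rv_div_le _ _
theorem le_mulU (a b : Nat) : rv a * rv b ≤ rv (mulU a b) := by
  unfold mulU
  rw [numOps_shr, ← numOps_rv_mul]
  exact le_rv_div _ _ (by norm_num)
theorem numOps_rv_div (a b : Nat) : rv (a * 1099511627776) / (b : ℝ) = rv a / rv b := by
  unfold rv
  push_cast
  rcases eq_or_ne (b : ℝ) 0 with h | h
  · rw [h]; simp
  · field_simp
theorem divD_le (a b : Nat) : rv (divD a b) ≤ rv a / rv b := by
  unfold divD
  rw [numOps_shl, ← numOps_rv_div]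
  exact rv_div_le _ _
theorem le_divU (a b : Nat) (hb : 0 < b) : rv a / rv b ≤ rv (divU a b) := by
  unfold divU
  rw [numOps_shl, ← numOps_rv_div]
  exact le_rv_div _ _ hb
theorem rv_maxN (a b : Nat) : rv (maxN a b) = max (rv a) (rv b) := by
  unfold maxN
  cases h : Nat.ble a b with
  | true =>
    rw [max_eq_right (rv_le h)]; rfl
  | false =>
    have h1 : b ≤ a := by
      by_contra hc
      have : Nat.ble a b = true := Nat.ble_eq_true_of_le (not_le.1 hc).le
      rw [this] at h; exact absurd h (by decide)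
    rw [max_eq_left (rv_mono h1)]; rfl
theorem rv_minN (a b : Nat) : rv (minN a b) = min (rv a) (rv b) := by
  unfold minN
  cases h : Nat.ble a b with
  | true =>
    rw [min_eq_left (rv_le h)]; rfl
  | false =>
    have h1 : b ≤ a := by
      by_contra hc
      have : Nat.ble a b = true := Nat.ble_eq_true_of_le (not_le.1 hc).le
      rw [this] at h; exact absurd h (by decide)
    rw [min_eq_right (rv_mono h1)]; rfl
theorem numOps_rv_pos {n : Nat} (h : 0 < n) : 0 < rv n := by
  unfold rv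
  have : (0 : ℝ) < n := by exact_mod_cast h
  positivity

namespace PI.Mem
theorem nonneg {a : PI} {x : ℝ} (h : a.Mem x) : 0 ≤ x := (rv_nonneg _).trans h.1
theorem pt (n : Nat) : (PI.pt n).Mem (rv n) := ⟨le_rfl, le_rfl⟩
theorem one : PI.one.Mem 1 := ⟨rv_lit.le, rv_lit.ge⟩
theorem add {a b : PI} {x y : ℝ} (ha : a.Mem x) (hb : b.Mem y) : (a.add b).Mem (x + y) := by
  constructor
  · change rv (Nat.add a.lo b.lo) ≤ _
    rw [rv_add]; exact add_le_add ha.1 hb.1
  · change _ ≤ rv (Nat.add a.hi b.hi)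
    rw [rv_add]; exact add_le_add ha.2 hb.2
theorem mul {a b : PI} {x y : ℝ} (ha : a.Mem x) (hb : b.Mem y) : (a.mul b).Mem (x * y) := by
  constructor
  · change rv (mulD a.lo b.lo) ≤ _
    exact (mulD_le _ _).trans (mul_le_mul ha.1 hb.1 (rv_nonneg _) ha.nonneg)
  · change _ ≤ rv (mulU a.hi b.hi)
    exact (mul_le_mul ha.2 hb.2 hb.nonneg (rv_nonneg _)).trans (le_mulU _ _)
theorem sq {a : PI} {x : ℝ} (ha : a.Mem x) : a.sq.Mem (x ^ 2) := by
  rw [pow_two]
  exact mul ha ha
theorem sub {a b : PI} {x y : ℝ} (ha : a.Mem x) (hb : b.Mem y) (h : y ≤ x) :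
    (a.sub b).Mem (x - y) := by
  constructor
  · change rv (Nat.sub a.lo b.hi) ≤ _
    apply rv_sub_of_le
    · linarith [ha.1, hb.2]
    · linarith
  · change _ ≤ rv (Nat.sub a.hi b.lo)
    have := rv_sub_le a.hi b.lo
    linarith [ha.2, hb.1]
theorem smul (m d : Nat) (hd : 0 < d) {a : PI} {x : ℝ} (ha : a.Mem x) :
    (a.smul m d).Mem ((m : ℝ) / d * x) := by
  have hd' : (0 : ℝ) < d := by exact_mod_cast hd
  have hm : (0 : ℝ) ≤ m := Nat.cast_nonneg m
  have e : (m : ℝ) / d * x = (m * x) / d := by ring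
  constructor
  · change rv (Nat.div (Nat.mul m a.lo) d) ≤ _
    refine (rv_div_le _ _).trans ?_
    rw [rv_nmul, e]
    exact div_le_div_of_nonneg_right (mul_le_mul_of_nonneg_left ha.1 hm) hd'.le
  · change _ ≤ rv (Nat.succ (Nat.div (Nat.mul m a.hi) d))
    refine le_trans ?_ (le_rv_div _ _ hd)
    rw [rv_nmul, e]
    exact div_le_div_of_nonneg_right (mul_le_mul_of_nonneg_left ha.2 hm) hd'.le
theorem inv {a : PI} {x : ℝ} (ha : a.Mem x) (h : 0 < a.lo) : a.inv.Mem (1 / x) := by
  have hlo : 0 < rv a.lo := numOps_rv_pos h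
  have hx : 0 < x := lt_of_lt_of_le hlo ha.1
  have hhi : 0 < rv a.hi := lt_of_lt_of_le hx ha.2
  have e : ∀ n : Nat, 0 < rv n → rv 1208925819614629174706176 / (n : ℝ) = 1 / rv n := by
    intro n hn
    have hn' : (n : ℝ) ≠ 0 := by
      intro h0; unfold rv at hn; rw [h0] at hn; simp at hn
    unfold rv
    push_cast
    field_simp
    norm_num
  constructor
  · change rv (Nat.div 1208925819614629174706176 a.hi) ≤ _
    refine (rv_div_le _ _).trans ?_
    rw [e _ hhi]
    exact one_div_le_one_div_of_le hx ha.2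
  · change _ ≤ rv (Nat.succ (Nat.div 1208925819614629174706176 a.lo))
    refine le_trans ?_ (le_rv_div _ _ h)
    rw [e _ hlo]
    exact one_div_le_one_div_of_le hlo ha.1
theorem div {a b : PI} {x y : ℝ} (ha : a.Mem x) (hb : b.Mem y) (h : 0 < b.lo) :
    (a.div b).Mem (x / y) := by
  have hlo : 0 < rv b.lo := numOps_rv_pos h
  have hy : 0 < y := lt_of_lt_of_le hlo hb.1
  constructor
  · change rv (divD a.lo b.hi) ≤ _
    exact (divD_le _ _).trans (div_le_div₀ ha.nonneg ha.1 hy hb.2)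
  · change _ ≤ rv (divU a.hi b.lo)
    exact (div_le_div₀ (rv_nonneg _) ha.2 hlo hb.1).trans (le_divU _ _ h)
theorem cube {a : PI} {x : ℝ} (ha : a.Mem x) : (cube a).Mem (x ^ 3) := by
  have : x ^ 3 = x * x ^ 2 := by ring
  rw [this]
  exact mul ha (sq ha)
theorem four {a : PI} {x : ℝ} (ha : a.Mem x) : (four a).Mem (x ^ 4) := by
  have : x ^ 4 = (x ^ 2) ^ 2 := by ring
  rw [this]
  exact sq (sq ha)
end PI.Mem

theorem numOps_newton (N x : Nat) (hx : 0 < x) :
    Real.sqrt (rv N) ≤ rv (Nat.succ (Nat.div (Nat.add x (divU N x)) 2)) := by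
  have h1 := le_rv_div (Nat.add x (divU N x)) 2 (by norm_num)
  rw [rv_add] at h1
  have h2 := le_divU N x hx
  have hxp : 0 < rv x := numOps_rv_pos hx
  have h3 : Real.sqrt (rv N) ≤ (rv x + rv N / rv x) / 2 := by
    apply Real.sqrt_le_iff.2
    have hN := rv_nonneg N
    refine ⟨by positivity, ?_⟩
    have e : ((rv x + rv N / rv x) / 2) ^ 2 - rv N = ((rv x - rv N / rv x) / 2) ^ 2 := by
      field_simp
      ring
    nlinarith [sq_nonneg ((rv x - rv N / rv x) / 2)]
  push_cast at h1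
  linarith

/-- Newton iteration from above (AM-GM) -/
theorem le_sqU (N : Nat) : Real.sqrt (rv N) ≤ rv (sqU N) := by
  unfold sqU
  exact numOps_newton N _ (Nat.succ_pos _)
theorem sqU_pos (N : Nat) : 0 < sqU N := by
  unfold sqU
  exact Nat.succ_pos _
theorem sqrtPI_mem {a : PI} {x : ℝ} (ha : a.Mem x) : (sqrtPI a).Mem (Real.sqrt x) := by
  constructor
  · change rv (divD a.lo (sqU a.lo)) ≤ _
    refine (divD_le _ _).trans (le_trans ?_ (Real.sqrt_le_sqrt ha.1))
    have h1 := le_sqU a.lo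
    have h2 := numOps_rv_pos (sqU_pos a.lo)
    rw [div_le_iff₀ h2]
    have h3 := Real.mul_self_sqrt (rv_nonneg a.lo)
    calc rv a.lo = Real.sqrt (rv a.lo) * Real.sqrt (rv a.lo) := h3.symm
      _ ≤ Real.sqrt (rv a.lo) * rv (sqU a.lo) :=
        mul_le_mul_of_nonneg_left h1 (Real.sqrt_nonneg _)
  · change _ ≤ rv (sqU a.hi)
    exact (Real.sqrt_le_sqrt ha.2).trans (le_sqU _)

end MP7e122f.Num
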