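import Pool.Agent.Lib.MP_7e122f_anR.NumOps

namespace MP7e122f.Num

/-! ## Signed intervals -/

/-- signed interval, scaled by `2^40` -/
structure SI where
  lo : Int
  hi : Int

noncomputable def ri (n : Int) : ℝ := (n : ℝ) / 1099511627776

def SI.Mem (a : SI) (x : ℝ) : Prop := ri a.lo ≤ x ∧ x ≤ ri a.hi

def ile (a b : Int) : Bool :=
  match Int.sub b a with
  | Int.ofNat _ => true
  | Int.negSucc _ => false
def imin (a b : Int) : Int := cond (ile a b) a b
def imax (a b : Int) : Int := cond (ile a b) b a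

namespace SI
def ofPI (a : PI) : SI := ⟨Int.ofNat a.lo, Int.ofNat a.hi⟩
def pt (n : Int) : SI := ⟨n, n⟩
def add (a b : SI) : SI := ⟨Int.add a.lo b.lo, Int.add a.hi b.hi⟩
def neg (a : SI) : SI := ⟨Int.neg a.hi, Int.neg a.lo⟩
def sub (a b : SI) : SI := ⟨Int.sub a.lo b.hi, Int.sub a.hi b.lo⟩
/-- multiplication by the number `k / 2^40` -/
def mulK (a : SI) (k : Int) : SI :=
  let p := Int.mul a.lo k
  let q := Int.mul a.hi k
  ⟨Int.ediv (imin p q) 1099511627776, Int.add (Int.ediv (imax p q) 1099511627776) 1⟩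
/-- upper bound of the absolute value -/
def absU (a : SI) : Int := imax (Int.neg a.lo) a.hi
/-- product -/
def mul (a b : SI) : SI :=
  let p := Int.mul a.lo b.lo
  let q := Int.mul a.lo b.hi
  let r := Int.mul a.hi b.lo
  let s := Int.mul a.hi b.hi
  ⟨Int.ediv (imin (imin p q) (imin r s)) 1099511627776,
    Int.add (Int.ediv (imax (imax p q) (imax r s)) 1099511627776) 1⟩
end SI

theorem ri_ofNat (n : Nat) : ri (Int.ofNat n) = rv n := by
  unfold ri rv
  simp
theorem ri_add (a b : Int) : ri (Int.add a b) = ri a + ri b := by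
  unfold ri
  have : Int.add a b = a + b := rfl
  rw [this]
  push_cast
  ring
theorem ri_sub (a b : Int) : ri (Int.sub a b) = ri a - ri b := by
  unfold ri
  have : Int.sub a b = a - b := rfl
  rw [this]
  push_cast
  ring
theorem ri_neg (a : Int) : ri (Int.neg a) = -ri a := by
  unfold ri
  have : Int.neg a = -a := rfl
  rw [this]
  push_cast
  ring
theorem ile_iff (a b : Int) : ile a b = true ↔ a ≤ b := by
  unfold ile
  have e : Int.sub b a = b - a := rfl
  rw [e]
  constructor
  · intro h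
    cases hc : b - a with
    | ofNat n =>
      have : (0 : Int) ≤ b - a := by rw [hc]; exact Int.natCast_nonneg n
      omega
    | negSucc n =>
      rw [hc] at h
      exact absurd h (by simp)
  · intro h
    cases hc : b - a with
    | ofNat n => rfl
    | negSucc n =>
      exfalso
      have h1 : (0 : Int) ≤ b - a := by omega
      rw [hc] at h1
      exact absurd (Int.negSucc_lt_zero n) (not_lt.2 h1)
theorem ri_mono {a b : Int} (h : ile a b = true) : ri a ≤ ri b := by
  rw [ile_iff] at h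
  unfold ri
  have : (a : ℝ) ≤ b := by exact_mod_cast h
  linarith
theorem ri_lt {a b : Int} (h : ile (Int.add a 1) b = true) : ri a < ri b := by
  rw [ile_iff] at h
  unfold ri
  have h' : a + 1 ≤ b := h
  have : (a : ℝ) + 1 ≤ b := by exact_mod_cast h'
  linarith
theorem ri_imin (a b : Int) : ri (imin a b) = min (ri a) (ri b) := by
  unfold imin
  cases hc : ile a b with
  | true =>
    rw [cond_true, min_eq_left (ri_mono hc)]
  | false =>
    have h1 : ¬ a ≤ b := by
      rw [← ile_iff, hc]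
      simp
    have h2 : ile b a = true := by
      rw [ile_iff]
      omega
    rw [cond_false, min_eq_right (ri_mono h2)]
theorem ri_imax (a b : Int) : ri (imax a b) = max (ri a) (ri b) := by
  unfold imax
  cases hc : ile a b with
  | true =>
    rw [cond_true, max_eq_right (ri_mono hc)]
  | false =>
    have h1 : ¬ a ≤ b := by
      rw [← ile_iff, hc]
      simp
    have h2 : ile b a = true := by
      rw [ile_iff]
      omega
    rw [cond_false, max_eq_left (ri_mono h2)]
/-- floor and ceiling of products: `p = a b` -/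
theorem ri_ediv_le (p : Int) : ri (Int.ediv p 1099511627776) ≤ (p : ℝ) / 1099511627776 ^ 2 := by
  unfold ri
  have e : Int.ediv p 1099511627776 = p / 1099511627776 := rfl
  rw [e]
  have h1 : p / 1099511627776 * 1099511627776 ≤ p := Int.ediv_mul_le p (by norm_num)
  have h2 : ((p / 1099511627776 : Int) : ℝ) * 1099511627776 ≤ p := by exact_mod_cast h1
  rw [div_le_div_iff₀ (by norm_num) (by norm_num)]
  nlinarith
theorem le_ri_ediv (p : Int) :
    (p : ℝ) / 1099511627776 ^ 2 ≤ ri (Int.add (Int.ediv p 1099511627776) 1) := by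
  unfold ri
  have e : Int.add (Int.ediv p 1099511627776) 1 = p / 1099511627776 + 1 := rfl
  rw [e]
  have h1 : p < (p / 1099511627776 + 1) * 1099511627776 :=
    Int.lt_ediv_add_one_mul_self p (by norm_num)
  have h2 : (p : ℝ) ≤ ((p / 1099511627776 + 1 : Int) : ℝ) * 1099511627776 := by
    exact_mod_cast h1.le
  rw [div_le_div_iff₀ (by norm_num) (by norm_num)]
  nlinarith

private theorem si_mul_div (u v : Int) :
    ((Int.mul u v : Int) : ℝ) / 1099511627776 ^ 2 = ri u * ri v := by
  have e : Int.mul u v = u * v := rfl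
  rw [e]
  unfold ri
  push_cast
  ring

private theorem si_imin_div (u v : Int) : ((imin u v : Int) : ℝ) / 1099511627776 ^ 2 =
    min ((u : ℝ) / 1099511627776 ^ 2) ((v : ℝ) / 1099511627776 ^ 2) := by
  have h := ri_imin u v
  unfold ri at h
  have h1 : ∀ w : ℝ, w / 1099511627776 ^ 2 = w / 1099511627776 * (1 / 1099511627776) := by
    intro w; ring
  rw [h1, h1 (u : ℝ), h1 (v : ℝ), h, min_mul_of_nonneg _ _ (by norm_num)]

private theorem si_imax_div (u v : Int) : ((imax u v : Int) : ℝ) / 1099511627776 ^ 2 =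
    max ((u : ℝ) / 1099511627776 ^ 2) ((v : ℝ) / 1099511627776 ^ 2) := by
  have h := ri_imax u v
  unfold ri at h
  have h1 : ∀ w : ℝ, w / 1099511627776 ^ 2 = w / 1099511627776 * (1 / 1099511627776) := by
    intro w; ring
  rw [h1, h1 (u : ℝ), h1 (v : ℝ), h, max_mul_of_nonneg _ _ (by norm_num)]

private theorem si_mul_bounds {a b c d x y : ℝ} (h1 : a ≤ x) (h2 : x ≤ b) (h3 : c ≤ y) (h4 : y ≤ d) :
    min (min (a * c) (a * d)) (min (b * c) (b * d)) ≤ x * y ∧
      x * y ≤ max (max (a * c) (a * d)) (max (b * c) (b * d)) := by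
  have k1 : min (a * c) (a * d) ≤ a * y ∧ a * y ≤ max (a * c) (a * d) := by
    rcases le_total 0 a with h | h
    · exact ⟨(min_le_left _ _).trans (mul_le_mul_of_nonneg_left h3 h),
        (mul_le_mul_of_nonneg_left h4 h).trans (le_max_right _ _)⟩
    · exact ⟨(min_le_right _ _).trans (mul_le_mul_of_nonpos_left h4 h),
        (mul_le_mul_of_nonpos_left h3 h).trans (le_max_left _ _)⟩
  have k2 : min (b * c) (b * d) ≤ b * y ∧ b * y ≤ max (b * c) (b * d) := by
    rcases le_total 0 b with h | h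
    · exact ⟨(min_le_left _ _).trans (mul_le_mul_of_nonneg_left h3 h),
        (mul_le_mul_of_nonneg_left h4 h).trans (le_max_right _ _)⟩
    · exact ⟨(min_le_right _ _).trans (mul_le_mul_of_nonpos_left h4 h),
        (mul_le_mul_of_nonpos_left h3 h).trans (le_max_left _ _)⟩
  have k3 : min (a * y) (b * y) ≤ x * y ∧ x * y ≤ max (a * y) (b * y) := by
    rcases le_total 0 y with h | h
    · exact ⟨(min_le_left _ _).trans (mul_le_mul_of_nonneg_right h1 h),
        (mul_le_mul_of_nonneg_right h2 h).trans (le_max_right _ _)⟩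
    · exact ⟨(min_le_right _ _).trans (mul_le_mul_of_nonpos_right h2 h),
        (mul_le_mul_of_nonpos_right h1 h).trans (le_max_left _ _)⟩
  exact ⟨(min_le_min k1.1 k2.1).trans k3.1, k3.2.trans (max_le_max k1.2 k2.2)⟩

namespace SI.Mem
theorem ofPI {a : PI} {x : ℝ} (h : a.Mem x) : (SI.ofPI a).Mem x := by
  refine ⟨?_, ?_⟩
  · show ri (Int.ofNat a.lo) ≤ x
    rw [ri_ofNat]
    exact h.1
  · show x ≤ ri (Int.ofNat a.hi)
    rw [ri_ofNat]
    exact h.2
theorem pt (n : Int) : (SI.pt n).Mem (ri n) := by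
  exact ⟨le_rfl, le_rfl⟩
theorem add {a b : SI} {x y : ℝ} (ha : a.Mem x) (hb : b.Mem y) : (a.add b).Mem (x + y) := by
  refine ⟨?_, ?_⟩
  · show ri (Int.add a.lo b.lo) ≤ x + y
    rw [ri_add]
    exact add_le_add ha.1 hb.1
  · show x + y ≤ ri (Int.add a.hi b.hi)
    rw [ri_add]
    exact add_le_add ha.2 hb.2
theorem sub {a b : SI} {x y : ℝ} (ha : a.Mem x) (hb : b.Mem y) : (a.sub b).Mem (x - y) := by
  refine ⟨?_, ?_⟩
  · show ri (Int.sub a.lo b.hi) ≤ x - y
    rw [ri_sub]
    exact sub_le_sub ha.1 hb.2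
  · show x - y ≤ ri (Int.sub a.hi b.lo)
    rw [ri_sub]
    exact sub_le_sub ha.2 hb.1
theorem neg {a : SI} {x : ℝ} (ha : a.Mem x) : a.neg.Mem (-x) := by
  refine ⟨?_, ?_⟩
  · show ri (Int.neg a.hi) ≤ -x
    rw [ri_neg]
    exact neg_le_neg ha.2
  · show -x ≤ ri (Int.neg a.lo)
    rw [ri_neg]
    exact neg_le_neg ha.1
theorem mulK {a : SI} {x : ℝ} (ha : a.Mem x) (k : Int) : (a.mulK k).Mem (x * ri k) := by
  have e1 : ∀ u v : Int, ((Int.mul u v : Int) : ℝ) / 1099511627776 ^ 2 = ri u * ri v :=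
    fun u v => si_mul_div u v
  refine ⟨?_, ?_⟩
  · show ri (Int.ediv (imin (Int.mul a.lo k) (Int.mul a.hi k)) 1099511627776) ≤ x * ri k
    refine (ri_ediv_le _).trans ?_
    rw [si_imin_div, e1, e1]
    rcases le_total 0 (ri k) with h | h
    · exact (min_le_left _ _).trans (mul_le_mul_of_nonneg_right ha.1 h)
    · exact (min_le_right _ _).trans (mul_le_mul_of_nonpos_right ha.2 h)
  · show x * ri k ≤ ri (Int.add (Int.ediv (imax (Int.mul a.lo k) (Int.mul a.hi k)) 1099511627776) 1)
    refine le_trans ?_ (le_ri_ediv _)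
    rw [si_imax_div, e1, e1]
    rcases le_total 0 (ri k) with h | h
    · exact (mul_le_mul_of_nonneg_right ha.2 h).trans (le_max_right _ _)
    · exact (mul_le_mul_of_nonpos_right ha.1 h).trans (le_max_left _ _)
theorem mul {a b : SI} {x y : ℝ} (ha : a.Mem x) (hb : b.Mem y) : (a.mul b).Mem (x * y) := by
  have e1 : ∀ u v : Int, ((Int.mul u v : Int) : ℝ) / 1099511627776 ^ 2 = ri u * ri v :=
    fun u v => si_mul_div u v
  obtain ⟨g1, g2⟩ := si_mul_bounds ha.1 ha.2 hb.1 hb.2
  refine ⟨?_, ?_⟩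
  · show ri (Int.ediv (imin (imin (Int.mul a.lo b.lo) (Int.mul a.lo b.hi))
      (imin (Int.mul a.hi b.lo) (Int.mul a.hi b.hi))) 1099511627776) ≤ x * y
    refine (ri_ediv_le _).trans ?_
    rw [si_imin_div, si_imin_div, si_imin_div, e1, e1, e1, e1]
    exact g1
  · show x * y ≤ ri (Int.add (Int.ediv (imax (imax (Int.mul a.lo b.lo) (Int.mul a.lo b.hi))
      (imax (Int.mul a.hi b.lo) (Int.mul a.hi b.hi))) 1099511627776) 1)
    refine le_trans ?_ (le_ri_ediv _)
    rw [si_imax_div, si_imax_div, si_imax_div, e1, e1, e1, e1]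
    exact g2
theorem absU {a : SI} {x : ℝ} (ha : a.Mem x) : |x| ≤ ri a.absU := by
  show |x| ≤ ri (imax (Int.neg a.lo) a.hi)
  rw [ri_imax, ri_neg]
  have h1 := ha.1
  have h2 := ha.2
  rcases abs_cases x with ⟨h3, _⟩ | ⟨h3, _⟩
  · rw [h3]
    exact h2.trans (le_max_right _ _)
  · rw [h3]
    exact (neg_le_neg h1).trans (le_max_left _ _)
end SI.Mem

end MP7e122f.Num
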