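import Pool.Agent.Lib.MP_7e122f_anR.NumTree
import Pool.Agent.Lib.MP_7e122f_anR.NumEB
import Pool.Agent.Lib.MP_7e122f_anR.NumGB

namespace MP7e122f.Num

open MP7e122f.R

private theorem cell_iff {rl rh pl ph : Nat} :
    cellChk rl rh pl ph = true ↔ rl ≤ rh ∧ rh ≤ 5497558138880 ∧ pl ≤ ph ∧ ph ≤ 1099511627776 := by
  unfold cellChk
  rw [Bool.and_eq_true, Bool.and_eq_true, Bool.and_eq_true, Nat.ble_eq, Nat.ble_eq, Nat.ble_eq,
    Nat.ble_eq]

private theorem tchk_eq_e {mx : Bool} {S : Slab} {eth : Nat} {gs : List GS} {rl rh pl ph : Nat} :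
    tchk mx S eth gs Tr.e rl rh pl ph = echeck S (mkBase S.y rl rh pl ph) := by
  rw [tchk]

private theorem tchk_eq_g {mx : Bool} {S : Slab} {eth : Nat} {gs : List GS} {rl rh pl ph : Nat} :
    tchk mx S eth gs Tr.g rl rh pl ph = List.all gs (gleaf mx rl rh pl ph) := by
  rw [tchk]

private theorem tchk_eq_o {mx : Bool} {S : Slab} {eth : Nat} {gs : List GS} {rl rh pl ph : Nat} :
    tchk mx S eth gs Tr.o rl rh pl ph =
      and (Nat.ble (mkBase S.y rl rh pl ph).h.hi 2199023255552)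
        (outChk eth (mkBase S.y rl rh pl ph)) := by
  rw [tchk]

private theorem tchk_eq_r {mx : Bool} {S : Slab} {eth : Nat} {gs : List GS} {a b : Tr}
    {rl rh pl ph : Nat} : tchk mx S eth gs (Tr.r a b) rl rh pl ph =
      and (tchk mx S eth gs a rl (Nat.div (Nat.add rl rh) 2) pl ph)
        (tchk mx S eth gs b (Nat.div (Nat.add rl rh) 2) rh pl ph) := by
  rw [tchk]

private theorem tchk_eq_p {mx : Bool} {S : Slab} {eth : Nat} {gs : List GS} {a b : Tr}
    {rl rh pl ph : Nat} : tchk mx S eth gs (Tr.p a b) rl rh pl ph =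
      and (tchk mx S eth gs a rl rh pl (Nat.div (Nat.add pl ph) 2))
        (tchk mx S eth gs b rl rh (Nat.div (Nat.add pl ph) 2) ph) := by
  rw [tchk]

private theorem gleaf_eq {mx : Bool} {rl rh pl ph : Nat} {G : GS} : gleaf mx rl rh pl ph G =
    and (Nat.ble (mkBase G.y rl rh pl ph).h.hi 2199023255552)
      (cond mx (gcheckB G (mkBase G.y rl rh pl ph)) (gcheckA G (mkBase G.y rl rh pl ph))) := by
  rw [gleaf]

private theorem tree_out {mx : Bool} {S : Slab} {eth : Nat} {gs : List GS} {rl rh pl ph : Nat}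
    {y r p : ℝ} (hS : SlabOK S y) (hc : cellChk rl rh pl ph = true)
    (h : tchk mx S eth gs Tr.o rl rh pl ph = true) (h3 : 0 ≤ AA3 y r p)
    (hE : rv eth ≤ AA2 y r p + AA3 y r p)
    (hr0 : 0 < r) (hr1 : rv rl ≤ r) (hr2 : r ≤ rv rh) (hp1 : rv pl ≤ p) (hp2 : p ≤ rv ph) :
    False := by
  obtain ⟨h1, h2⟩ : Nat.ble (mkBase S.y rl rh pl ph).h.hi 2199023255552 = true ∧
      outChk eth (mkBase S.y rl rh pl ph) = true := by
    rwa [tchk_eq_o, Bool.and_eq_true] at h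
  have hB := base_ok hS.my hS.ylo hc h1 hr0 hr1 hr2 hp1 hp2
  generalize mkBase S.y rl rh pl ph = B at h1 h2 hB
  obtain ⟨-, -, -, hph⟩ := cell_iff.1 hc
  have hp3 : p ≤ 1 := by
    have := rv_mono hph
    rw [rv_lit] at this
    linarith
  have hp0 : 0 ≤ p := le_trans (rv_nonneg pl) hp1
  have e2 : rv 2199023255552 = 2 := by unfold rv; norm_num
  have hA3 : 0 ≤ y * chh y r p - (2 - p) * r / 3 := by
    have := h3
    unfold AA3 xx3 at this
    linarith
  have hA23 : rv eth ≤ 2 * (y * chh y r p) - (1 + p) * r / 3 := by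
    have := hE
    unfold AA2 AA3 xx2 xx3 at this
    nlinarith [this]
  have hmu := hB.mmu.2
  have hr := hB.mr
  have hp := hB.mp
  unfold outChk at h2
  rw [Bool.or_eq_true] at h2
  rcases h2 with h2 | h2
  · have q1 := rv_lt h2
    rw [rv_nmul] at q1
    have q2 := mulD_le (Nat.sub 2199023255552 B.p.hi) B.r.lo
    have q3 : rv (Nat.sub 2199023255552 B.p.hi) ≤ 2 - p :=
      rv_sub_of_le (by rw [e2]; linarith [hp.2]) (by linarith)
    have q4 : rv (Nat.sub 2199023255552 B.p.hi) * rv B.r.lo ≤ (2 - p) * r :=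
      mul_le_mul q3 hr.1 (rv_nonneg _) (by linarith)
    push_cast at q1
    linarith
  · have q1 := rv_lt h2
    rw [rv_nmul, rv_add, rv_nmul] at q1
    have q2 := mulD_le (Nat.add 1099511627776 B.p.lo) B.r.lo
    rw [rv_add, rv_lit] at q2
    have q4 : (1 + rv B.p.lo) * rv B.r.lo ≤ (1 + p) * r :=
      mul_le_mul (by linarith [hp.1]) hr.1 (rv_nonneg _) (by linarith)
    push_cast at q1
    linarith

theorem tchk_ok {mx : Bool} {S : Slab} {eth : Nat} {gs : List GS} {T : Tr} {rl rh pl ph : Nat}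
    {y r p : ℝ} (hS : SlabOK S y) (hc : cellChk rl rh pl ph = true)
    (h : tchk mx S eth gs T rl rh pl ph = true) (h3 : 0 ≤ AA3 y r p)
    (hE : rv eth ≤ AA2 y r p + AA3 y r p)
    (hr0 : 0 < r) (hr1 : rv rl ≤ r) (hr2 : r ≤ rv rh) (hp1 : rv pl ≤ p) (hp2 : p ≤ rv ph) :
    ECrit y r p (rv S.n) (rv S.z1) (z3r S) (rv S.u2) (rv S.u3) ∨
    ∀ G ∈ gs, ∀ φ : ℝ, G.y.Mem y → 549755813888 ≤ G.y.lo → G.f.Mem φ →
      GConc mx G φ (AA1 y r p) (AA2 y r p) (AA3 y r p) := by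
  induction T generalizing rl rh pl ph with
  | e =>
    rw [tchk_eq_e] at h
    exact Or.inl (echeck_ok hS hc h hr0 hr1 hr2 hp1 hp2)
  | g =>
    right
    intro G hG φ hy hylo hf
    rw [tchk_eq_g, List.all_eq_true] at h
    have hg := h G hG
    rw [gleaf_eq, Bool.and_eq_true] at hg
    obtain ⟨g1, g2⟩ := hg
    cases mx with
    | true =>
      rw [cond_true] at g2
      unfold GConc
      rw [cond_true]
      exact gcheckB_ok hy hylo hf hc g1 g2 h3 hr0 hr1 hr2 hp1 hp2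
    | false =>
      rw [cond_false] at g2
      unfold GConc
      rw [cond_false]
      exact gcheckA_ok hy hylo hf hf.nonneg hc g1 g2 h3 hr0 hr1 hr2 hp1 hp2
  | o => exact (tree_out hS hc h h3 hE hr0 hr1 hr2 hp1 hp2).elim
  | r a b iha ihb =>
    rw [tchk_eq_r, Bool.and_eq_true] at h
    obtain ⟨ha, hb⟩ := h
    have hm : Nat.div (Nat.add rl rh) 2 = (rl + rh) / 2 := rfl
    obtain ⟨c1, c2, c3, c4⟩ := cell_iff.1 hc
    rcases le_total r (rv (Nat.div (Nat.add rl rh) 2)) with hle | hle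
    · exact iha (cell_iff.2 ⟨by rw [hm]; omega, by rw [hm]; omega, c3, c4⟩) ha hr1 hle hp1 hp2
    · exact ihb (cell_iff.2 ⟨by rw [hm]; omega, by omega, c3, c4⟩) hb hle hr2 hp1 hp2
  | p a b iha ihb =>
    rw [tchk_eq_p, Bool.and_eq_true] at h
    obtain ⟨ha, hb⟩ := h
    have hm : Nat.div (Nat.add pl ph) 2 = (pl + ph) / 2 := rfl
    obtain ⟨c1, c2, c3, c4⟩ := cell_iff.1 hc
    rcases le_total p (rv (Nat.div (Nat.add pl ph) 2)) with hle | hle
    · exact iha (cell_iff.2 ⟨c1, c2, by rw [hm]; omega, by rw [hm]; omega⟩) ha hr1 hr2 hp1 hle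
    · exact ihb (cell_iff.2 ⟨c1, c2, by rw [hm]; omega, c4⟩) hb hr1 hr2 hle hp2

/-- `r ≤ 3 y²/(A2+A3)`: outside of the root rectangle `A2 + A3 < eth` -/
theorem root_r {y r p e R : ℝ} (hy : 0 < y) (hr : 0 < r) (hp0 : 0 ≤ p) (hp1 : p ≤ 1)
    (h3 : 0 ≤ AA3 y r p) (he : 0 < e) (hR : 3 * y ^ 2 ≤ e * R) (hE : e ≤ AA2 y r p + AA3 y r p) :
    r ≤ R := by
  have hk : 0 ≤ kap p := by unfold kap; nlinarith [sq_nonneg p]
  have hch : chh y r p ^ 2 = 1 + kap p * r ^ 2 / (9 * y ^ 2) := by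
    unfold chh
    rw [Real.sq_sqrt]
    positivity
  have hmu : (y * chh y r p) ^ 2 = y ^ 2 + kap p * r ^ 2 / 9 := by
    rw [mul_pow, hch]
    field_simp
  have h12 : AA1 y r p * (AA2 y r p + AA3 y r p) + AA2 y r p * AA3 y r p = 3 * y ^ 2 := by
    unfold AA1 AA2 AA3 xx1 xx2 xx3
    unfold kap at hmu
    generalize y * chh y r p = m at hmu ⊢
    linear_combination 3 * hmu
  have h32 : AA2 y r p = AA3 y r p + (1 - p) * r := by
    unfold AA2 AA3 xx2 xx3; ring
  have h31 : AA1 y r p = AA3 y r p + r := by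
    unfold AA1 AA3 xx1 xx3; ring
  have h2 : 0 ≤ AA2 y r p := by
    rw [h32]
    have : 0 ≤ (1 - p) * r := mul_nonneg (by linarith) hr.le
    linarith
  have h1 : 0 ≤ AA1 y r p := by rw [h31]; linarith
  have q1 : AA1 y r p * e ≤ 3 * y ^ 2 := by
    have := mul_le_mul_of_nonneg_left hE h1
    have := mul_nonneg h2 h3
    linarith
  have q2 : e * AA1 y r p ≤ e * R := by linarith
  have q3 := le_of_mul_le_mul_left q2 he
  linarith

end MP7e122f.Num
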