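import Pool.Agent.Lib.MP_7e122f_anR.NumDual

namespace MP7e122f.Num

open MP7e122f.R

/-- lower bound of `exp (-(π/√3) a)`, `a ≤ 4` -/
def TofD (a : Nat) : Nat := (expN (PI.mul pr3I ⟨a, a⟩)).lo

/-- `T` for the three kinds of test states; `idx = 1, 2`, other = Pauli -/
def vT (idx dh : Nat) : Nat :=
  match idx with
  | 1 => TofD (Nat.sub (Nat.mul 2 dh) 1099511627776)
  | 2 => TofD 2199023255552
  | _ => TofD (cond (Nat.ble dh 1649267441664) 1649267441664
      (Nat.sub (Nat.mul 2 dh) 1649267441664))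

/-- lower bound of `bval H - 1` (`mx = true`) or of `1 - aval H` (`mx = false`) -/
def wOf (mx : Bool) (idx dh : Nat) : Nat :=
  let T := vT idx dh
  let T2 := mulU T T
  let T3 := mulU T2 T
  let T4 := mulU T2 T2
  match idx with
  | 1 => cond mx (Nat.sub (Nat.mul 3 T) (Nat.add (Nat.mul 6 T3) (Nat.mul 3 T4)))
      (Nat.sub (Nat.add (Nat.mul 6 T) (Nat.mul 6 (mulD T (mulD T T)))) (Nat.mul 6 T4))
  | 2 => cond mx (Nat.add (Nat.mul 6 T) (Nat.mul 6 (mulD T (mulD T T))))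
      (Nat.sub (Nat.mul 3 T) (Nat.mul 6 T3))
  | _ => Nat.sub (Nat.add (divD (Nat.mul 6 T) 1904410002821)
        (cond mx (Nat.mul 6 (mulD (mulD T T) (mulD T T))) 0))
      (Nat.add (divU (Nat.mul 6 T3) 1904410002820)
        (Nat.add (Nat.mul 20 (mulU T3 T4)) (cond mx 0 (Nat.mul 6 T4))))

def wChk (dl dh : Nat) : Bool :=
  and (Nat.ble 1099511627776 dl) (and (Nat.ble dl dh) (Nat.ble dh 2199023255552))

end MP7e122f.Num
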