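import Pool.Agent.Lib.MP_7e122f_anR.Defs

open MeasureTheory Complex
open scoped ComplexInnerProductSpace ENNReal ComplexOrder

namespace MP7e122f.R

/-- the mirror image of a lattice, with the two basis vectors exchanged -/
def reflM (M : Mat) : Mat := !![M 0 1, M 0 0; -(M 1 1), -(M 1 0)]

theorem det_reflM (M : Mat) : (reflM M).det = M.det := by
  rw [Matrix.det_fin_two, Matrix.det_fin_two]
  simp [reflM]
  ring

lemma zet_reflM (M : Mat) (k : ℤ × ℤ) :
    zet (reflM M) k = ((zet M (k.2, k.1)).1, -(zet M (k.2, k.1)).2) := by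
  unfold zet
  rw [det_reflM]
  simp only [lam, act, cst, reflM]
  ext
  · simp
    ring
  · simp
    ring

theorem wt_reflM (M : Mat) (k : ℤ × ℤ) : wt (reflM M) k = wt M (k.2, k.1) := by
  unfold wt Qf
  rw [zet_reflM]
  simp

/-- complex conjugation on `L2` -/
noncomputable def reflConj (f : L2) : L2 :=
  (Complex.conjCLE : ℂ →L[ℝ] ℂ).compLp f

lemma reflConj_coe (f : L2) : (reflConj f : ℝ → ℂ) =ᵐ[volume] fun t => (starRingEnd ℂ) (f t) := by
  have := (Complex.conjCLE : ℂ →L[ℝ] ℂ).coeFn_compLp' f
  filter_upwards [this] with t a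
  unfold reflConj
  rw [a]
  simp

lemma norm_reflConj (f : L2) : ‖reflConj f‖ = ‖f‖ := by
  apply le_antisymm
  · apply Lp.norm_le_norm_of_ae_le
    filter_upwards [reflConj_coe f] with t a
    rw [a]; simp
  · apply Lp.norm_le_norm_of_ae_le
    filter_upwards [reflConj_coe f] with t a
    rw [a]; simp

lemma reflConj_reflConj (f : L2) : reflConj (reflConj f) = f := by
  apply Lp.ext
  filter_upwards [reflConj_coe f, reflConj_coe (reflConj f)] with t a b
  rw [b, a]; simp

lemma inner_reflConj (f g : L2) : ⟪reflConj f, reflConj g⟫ = (starRingEnd ℂ) ⟪f, g⟫ := by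
  rw [L2.inner_def, L2.inner_def, ← integral_conj]
  apply integral_congr_ae
  filter_upwards [reflConj_coe f, reflConj_coe g] with t a b
  rw [a, b, RCLike.inner_apply, RCLike.inner_apply]
  simp

lemma rho_reflConj (z : ℝ × ℝ) (f : L2) :
    rho (z.1, -z.2) (reflConj f) = reflConj (rho z f) := by
  apply Lp.ext
  have h1 := reflConj_coe f
  have h2 := (measurePreserving_sub_right (volume : Measure ℝ) z.1).quasiMeasurePreserving.ae_eq_comp h1
  filter_upwards [rho_coe (z.1, -z.2) (reflConj f), rho_coe z f, reflConj_coe (rho z f), h2]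
    with t a b c d
  have d' : (reflConj f : ℝ → ℂ) (t - z.1) = (starRingEnd ℂ) (f (t - z.1)) := d
  rw [a, c, b, map_mul]
  rw [d']
  congr 1
  unfold ef
  rw [← Complex.exp_conj]
  congr 1
  simp only [map_mul, map_neg, map_sub, map_ofNat, Complex.conj_ofReal, Complex.conj_I, map_div₀]
  push_cast
  ring

lemma st_reflConj (M : Mat) (f : L2) (k : ℤ × ℤ) :
    st (reflM M) (reflConj f) k = st M f (k.2, k.1) := by
  unfold st
  rw [zet_reflM, rho_reflConj (zet M (k.2, k.1)) f, inner_reflConj, Complex.conj_re]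

lemma TS_reflConj (M : Mat) (f : L2) : TS (reflM M) (reflConj f) = TS M f := by
  unfold TS
  rw [← (Equiv.prodComm ℤ ℤ).tsum_eq (fun k => wt M k * st M f k)]
  apply tsum_congr
  intro k
  rw [st_reflConj, wt_reflM]
  rfl

lemma image_reflM (M : Mat) : TS (reflM M) '' {f | ‖f‖ = 1} = TS M '' {f | ‖f‖ = 1} := by
  ext x
  constructor
  · rintro ⟨f, hf, rfl⟩
    refine ⟨reflConj f, ?_, ?_⟩
    · simp only [Set.mem_ofPred_eq] at *
      rw [norm_reflConj, hf]
    · rw [← TS_reflConj M (reflConj f), reflConj_reflConj]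
  · rintro ⟨f, hf, rfl⟩
    refine ⟨reflConj f, ?_, TS_reflConj M f⟩
    simp only [Set.mem_ofPred_eq] at *
    rw [norm_reflConj, hf]

/-- The mirror image has the same optimal constants.  Proof: for `f : L2` let `f'` be the complex
conjugate of `f` (for instance `(Complex.conjCLE : ℂ →L[ℝ] ℂ).compLp f`); then
`conj (rho (x, ω) f) = rho (x, -ω) (conj f)` (look at `rho_coe`), hence
`st (reflM M) f' k = st M f (k.2, k.1)` and `TS (reflM M) f' = TS M f` (reindex the sum by the
swap of coordinates). The map `f ↦ f'` is an involution of the unit sphere. -/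
theorem val_reflM (M : Mat) (hM : 0 < M.det) :
    aval (reflM M) = aval M ∧ bval (reflM M) = bval M := by
  unfold aval bval
  rw [image_reflM]
  exact ⟨rfl, rfl⟩

end MP7e122f.R
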