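import Pool.Agent.Lib.MP_7e122f_anR.SlabB
import Pool.Agent.Lib.MP_7e122f_anR.SlabJ

namespace MP7e122f.Num

open MP7e122f.R

theorem slabAJ {C : SlabCert} {l : List CP} {eJ : Nat} {cs : List CJ}
    (hl : stairChk 1099511627776 l = true) (h : chkA' C = true) (hT : treeChk false C = true)
    (hj : jslabChk l eJ C.dl C.dh cs = true) (he : Nat.ble C.eth (mulD eJ C.dl) = true)
    {δ y A1 A2 A3 : ℝ} {M H : Mat} (P : Pair δ y A1 A2 A3 M H) (h1 : rv C.dl ≤ δ)
    (h2 : δ < rv C.dh) : aval M < aval H := by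
  rcases le_total (rv C.eth) (A2 + A3) with hE | hE
  · exact slabA' h hT P h1 h2 hE
  · refine slabJ hl hj P h1 h2 ?_
    have e1 := rv_le he
    have e2 := mulD_le eJ C.dl
    have e3 : rv eJ * rv C.dl ≤ rv eJ * δ := mul_le_mul_of_nonneg_left h1 (rv_nonneg _)
    linarith

end MP7e122f.Num
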