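import Pool.Agent.Lib.MP_7e122f_anR.Slab
import Pool.Agent.Lib.MP_7e122f_anR.NumTreeA
import Pool.Agent.Lib.MP_7e122f_anR.NumBaseA
import Pool.Agent.Lib.MP_7e122f_anR.Facts
import Pool.Agent.Lib.MP_7e122f_anR.GSum
import Pool.Agent.Lib.MP_7e122f_anR.NormD

open MeasureTheory Complex
open scoped ComplexInnerProductSpace ENNReal ComplexOrder

namespace MP7e122f.Num

open MP7e122f.R

private theorem SlabB_rv2 : rv 2199023255552 = 2 := by
  unfold rv
  norm_num

private theorem SlabB_y_mem {dl dh : Nat} {δ y : ℝ} (h1 : rv dl ≤ δ) (h2 : δ ≤ rv dh)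
    (hy : y = Real.pi * δ / (2 * Real.sqrt 3)) : (yOf dl dh).Mem y := by
  have hm := PI.Mem.smul 1 2 (by norm_num) (PI.Mem.mul pr3I_mem
    (show (PI.mk dl dh).Mem δ from ⟨h1, h2⟩))
  have e : y = ((1 : ℕ) : ℝ) / ((2 : ℕ) : ℝ) * (Real.pi / Real.sqrt 3 * δ) := by
    rw [hy]
    have h3 : Real.sqrt 3 ≠ 0 := by positivity
    field_simp
    push_cast
    ring
  rw [e]
  exact hm

private theorem SlabB_ylo {dl dh : Nat} (h : 1099511627776 ≤ dl) :
    549755813888 ≤ (yOf dl dh).lo := by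
  show 549755813888 ≤ (1 * ((1994293491428 * dl) >>> 40)) / 2
  rw [Nat.shiftRight_eq_div_pow]
  omega

private theorem SlabB_f_mem {dl dh : Nat} {δ : ℝ} (hδ : 1 < δ) (h1 : rv dl ≤ δ)
    (h2 : δ ≤ rv dh) (hd : 1099511627776 ≤ dl) : (fOf dl dh).Mem (2 - 1 / δ) := by
  have hδ0 : 0 < δ := by linarith
  have hdl : 0 < rv dl := by
    have := rv_mono hd
    rw [rv_lit] at this
    linarith
  have hdh : 0 < rv dh := by linarith
  have h10 : 1 / δ ≤ 1 := by
    rw [div_le_one hδ0]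
    exact hδ.le
  constructor
  · show rv (Nat.sub 2199023255552 (divU 1099511627776 dl)) ≤ _
    apply rv_sub_of_le
    · have h3 := le_divU 1099511627776 dl (by omega)
      rw [rv_lit] at h3
      have h4 : 1 / δ ≤ 1 / rv dl := one_div_le_one_div_of_le hdl h1
      rw [SlabB_rv2]
      linarith
    · linarith
  · show _ ≤ rv (Nat.sub 2199023255552 (divD 1099511627776 dh))
    have h3 := divD_le 1099511627776 dh
    rw [rv_lit] at h3
    have h4 : 1 / rv dh ≤ 1 / δ := one_div_le_one_div_of_le hδ0 h2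
    have h5 := rv_sub_le 2199023255552 (divD 1099511627776 dh)
    rw [SlabB_rv2] at h5
    linarith

private theorem SlabB_gs {mx : Bool} {dh : Nat} {δ y : ℝ} (hδ : 1 < δ)
    (h2 : δ < rv dh) (hy : y = Real.pi * δ / (2 * Real.sqrt 3)) :
    ∀ (gcs : List GC) (dl : Nat), gcsChk mx dl dh gcs = true → 1099511627776 ≤ dl →
      rv dl ≤ δ → ∃ G ∈ gsOf dl gcs, G.y.Mem y ∧ 549755813888 ≤ G.y.lo ∧
        G.f.Mem (2 - 1 / δ) ∧ FUp mx δ (rv G.hb) := by
  intro gcs
  induction gcs with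
  | nil =>
    intro dl h _ h1
    exact absurd (rv_le (show Nat.ble dh dl = true from h)) (by linarith)
  | cons c l ih =>
    intro dl h hd h1
    simp only [gcsChk, Bool.and_eq_true] at h
    obtain ⟨hu, ha, -, hr⟩ := h
    have hdc : dl ≤ c.d := Nat.le_of_ble_eq_true ha
    by_cases hc : δ < rv c.d
    · refine ⟨⟨yOf dl c.d, fOf dl c.d, c.hb⟩, List.mem_cons_self, SlabB_y_mem h1 hc.le hy,
        SlabB_ylo hd, SlabB_f_mem hδ h1 hc.le hd, ups_ok hu hδ h1 hc⟩
    · obtain ⟨G, hG, hG2⟩ := ih c.d hr (hd.trans hdc) (not_lt.1 hc)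
      exact ⟨G, List.mem_cons_of_mem _ hG, hG2⟩

private theorem SlabB_sum_pos {δ y A1 A2 A3 : ℝ} {M H : Mat} (P : Pair δ y A1 A2 A3 M H) :
    0 < A2 + A3 := by
  by_contra hc
  have h3 := P.h3
  have h23 := P.h23
  have hA3 : A3 = 0 := by linarith
  have hA2 : A2 = 0 := by linarith
  have hd := P.det
  rw [hA3, hA2] at hd
  have hy : 0 < y := by
    rw [P.hy]
    have := P.hδ
    have hp := Real.pi_pos
    positivity
  have : 0 < y ^ 2 := by positivity
  linarith

/-- the consequences of `scalChk` -/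
private theorem SlabB_scal {mx : Bool} {C : SlabCert} (h : scalChk mx C = true) :
    slabChk C.dl C.dh = true ∧ cellChk 0 C.rm 0 1099511627776 = true ∧
    nearChk mx C.z1 (z3i C.z3n C.z3) C.dl C.dh C.near = true ∧
    upsChk mx C.hb C.dl C.dh C.ups = true ∧
    3 * rv (yOf C.dl C.dh).hi ^ 2 ≤ rv C.eth * rv C.rm ∧ 0 < rv C.eth ∧
    C.eth ≤ 8796093022208 ∧ 1099511627776 ≤ C.dl := by
  simp only [scalChk, Bool.and_eq_true] at h
  obtain ⟨a1, a2, a3, a4, a5, a6, a7⟩ := h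
  have b : 1099511627776 ≤ C.dl := by
    have := a1
    simp only [slabChk, Bool.and_eq_true] at this
    exact Nat.le_of_ble_eq_true this.1
  refine ⟨a1, a2, a3, a4, ?_, ?_, Nat.le_of_ble_eq_true a7, b⟩
  · have h1 := rv_le a5
    rw [rv_nmul] at h1
    have h2 := le_mulU (yOf C.dl C.dh).hi (yOf C.dl C.dh).hi
    have h3 := mulD_le C.eth C.rm
    push_cast at h1
    rw [pow_two]
    linarith
  · have h1 : Nat.ble (Nat.succ 0) C.eth = true := a6
    have h2 := rv_lt h1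
    have h3 : rv 0 = 0 := by unfold rv; norm_num
    rw [h3] at h2
    exact h2

private theorem SlabB_z3 (C : SlabCert) : ri (z3i C.z3n C.z3) = z3r (certSlab C) := by
  have h1 : (certSlab C).z3n = C.z3n := rfl
  have h2 : (certSlab C).z3 = C.z3 := rfl
  unfold z3r z3i
  rw [h1, h2]
  cases C.z3n
  · exact ri_ofNat _
  · show ri (Int.neg (Int.ofNat C.z3)) = -(rv C.z3)
    rw [ri_neg, ri_ofNat]

/-- the part `A2 + A3 ≥ eth` -/
private theorem SlabB_main {mx : Bool} {C : SlabCert} (hs : scalChk mx C = true)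
    (hg : gcsChk mx C.dl C.dh C.gcs = true) (hT : treeChk mx C = true)
    {δ y A1 A2 A3 : ℝ} {M H : Mat} (P : Pair δ y A1 A2 A3 M H) (h1 : rv C.dl ≤ δ)
    (h2 : δ < rv C.dh) (hE : rv C.eth ≤ A2 + A3) :
    cond mx (bval H < bval M) (aval M < aval H) := by
  obtain ⟨a1, a2, a3, a4, a5, a6, a7, a8⟩ := SlabB_scal hs
  have hSl := slab_ok (z1 := C.z1) (z3 := C.z3) (n := C.n) (z3n := C.z3n) a1 h1 h2.le P.hy
  have hSu := slab_u2 (z1 := C.z1) (z3 := C.z3) (n := C.n) (z3n := C.z3n) a1 h1 h2.le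
  have hy9 := hSl.y1
  have hy0 : 0 < y := by
    have : (0 : ℝ) < 0.9 := by norm_num
    linarith
  obtain ⟨r, p, hr, hp0, hp1, e1, e2, e3⟩ := exists_rp hy0 P.h12 P.h23 P.h3 P.hne P.det
  have hym : (yOf C.dl C.dh).Mem y := SlabB_y_mem h1 h2.le P.hy
  have hyhi := hym.2
  have hR : 3 * y ^ 2 ≤ rv C.eth * rv C.rm := by
    have : y ^ 2 ≤ rv (yOf C.dl C.dh).hi ^ 2 := pow_le_pow_left₀ hy0.le hyhi 2
    linarith
  have h3' : 0 ≤ AA3 y r p := by rw [← e3]; exact P.h3
  have hE' : rv C.eth ≤ AA2 y r p + AA3 y r p := by rw [← e2, ← e3]; exact hE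
  have hrr := root_r hy0 hr hp0 hp1 h3' a6 hR hE'
  have h00 : rv 0 = 0 := by unfold rv; norm_num
  have ht := tchk_ok (S := certSlab C) (y := y) (r := r) (p := p) hSl a2 hT h3' hE' hr
    (by rw [h00]; exact hr.le) hrr (by rw [h00]; exact hp0) (by rw [rv_lit]; exact hp1)
  have hwM : ∀ k, wt M k = cc (AA3 y r p) (AA1 y r p) (AA2 y r p) k := by
    rw [← e1, ← e2, ← e3]
    exact P.hwM
  have hH : 0 < H.det := by rw [P.hHd]; exact P.hM
  have hHδ : H.det = 1 / δ := by rw [P.hHd, P.hMd]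
  rcases ht with ht | ht
  · have hn := near_ok a3 P.hδ h1 h2 y H P.hy hH hHδ P.hwH
    rw [SlabB_z3] at hn
    cases mx
    · exact E_lower P.hδ P.hδ2 P.hy hr hp0 hp1 M H P.hM P.hMd P.hHd hwM P.hwH hSu.1 hSu.2 ht hn
    · exact E_upper P.hδ P.hδ2 P.hy hr hp0 hp1 M H P.hM P.hMd P.hHd hwM P.hwH hSu.1 hSu.2 ht hn
  · obtain ⟨G, hG, g1, g2, g3, g4⟩ := SlabB_gs P.hδ h2 P.hy C.gcs C.dl hg a8 h1
    have hGc := ht G hG (2 - 1 / δ) g1 g2 g3
    rw [← e1, ← e2, ← e3] at hGc
    have hF := g4 y H P.hy hH hHδ P.hwH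
    cases mx
    · have hGc' : rv G.hb < GAv (2 - 1 / δ) A1 A2 A3 ∧
        Real.exp (-(4 * (2 - 1 / δ) * A2)) ≤ 1 / 10 := hGc
      have hF' : 1 - rv G.hb ≤ aval H := hF
      have := GA_aval P.hδ P.hy rfl M P.hM P.hMd P.hwM P.det P.h12 P.h23 P.h3 hGc'.2
      show aval M < aval H
      linarith [hGc'.1]
    · have hGc' : rv G.hb < GBv (2 - 1 / δ) A1 A2 A3 ∧
        Real.exp (-(8 * (2 - 1 / δ) * A2)) ≤ 1 / 4 := hGc
      have hF' : bval H ≤ 1 + rv G.hb := hF
      have := GB_bval P.hδ P.hy rfl M P.hM P.hMd P.hwM P.det P.h12 P.h23 P.h3 hGc'.2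
      show bval H < bval M
      linarith [hGc'.1]

private theorem SlabB_expN {e : Nat} (he : e ≤ 8796093022208) :
    rv (expN ⟨e, e⟩).lo ≤ Real.exp (-(rv e)) := by
  have := expN_mem (a := ⟨e, e⟩) (x := rv e) ⟨le_refl _, le_refl _⟩
    (show e ≤ 35184372088000 by omega)
  exact this.1

theorem slabB {C : SlabCert} (h : chkB C = true) (hT : treeChk true C = true)
    {δ y A1 A2 A3 : ℝ} {M H : Mat} (P : Pair δ y A1 A2 A3 M H) (h1 : rv C.dl ≤ δ)
    (h2 : δ < rv C.dh) : bval H < bval M := by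
  simp only [chkB, Bool.and_eq_true] at h
  obtain ⟨hs, hg, hl⟩ := h
  by_cases hE : rv C.eth ≤ A2 + A3
  · exact SlabB_main hs hg hT P h1 h2 hE
  · obtain ⟨a1, a2, a3, a4, a5, a6, a7, a8⟩ := SlabB_scal hs
    have hp := SlabB_sum_pos P
    have hH : 0 < H.det := by rw [P.hHd]; exact P.hM
    have hHδ : H.det = 1 / δ := by rw [P.hHd, P.hMd]
    have hup : bval H ≤ 1 + rv C.hb := ups_ok a4 P.hδ h1 h2 y H P.hy hH hHδ P.hwH
    have hline := line_upper M P.hM P.hwM hp
    have h3 := rv_lt hl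
    rw [rv_nmul] at h3
    have h4 := SlabB_expN a7
    have h5 : Real.exp (-(rv C.eth)) ≤ Real.exp (-(A2 + A3)) := by
      apply Real.exp_le_exp.2
      linarith
    push_cast at h3
    linarith

theorem slabA {C : SlabCert} (h : chkA C = true) (hT : treeChk false C = true)
    {δ y A1 A2 A3 : ℝ} {M H : Mat} (P : Pair δ y A1 A2 A3 M H) (h1 : rv C.dl ≤ δ)
    (h2 : δ < rv C.dh) : aval M < aval H := by
  simp only [chkA, Bool.and_eq_true] at h
  obtain ⟨hs, hg, hb5, hX1, hl⟩ := h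
  by_cases hE : rv C.eth ≤ A2 + A3
  · exact SlabB_main hs hg hT P h1 h2 hE
  · obtain ⟨a1, a2, a3, a4, a5, a6, a7, a8⟩ := SlabB_scal hs
    have hp := SlabB_sum_pos P
    have hH : 0 < H.det := by rw [P.hHd]; exact P.hM
    have hHδ : H.det = 1 / δ := by rw [P.hHd, P.hMd]
    have hup : 1 - rv C.hb ≤ aval H := ups_ok a4 P.hδ h1 h2 y H P.hy hH hHδ P.hwH
    set X : Nat := minN (expN ⟨C.eth, C.eth⟩).lo 148434069749 with hX
    have hXv : rv X = min (rv (expN ⟨C.eth, C.eth⟩).lo) (rv 148434069749) := rv_minN _ _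
    have hXe : rv X ≤ Real.exp (-(rv C.eth)) := by
      rw [hXv]
      exact (min_le_left _ _).trans (SlabB_expN a7)
    have hX135 : rv X ≤ 0.135 := by
      rw [hXv]
      refine (min_le_right _ _).trans ?_
      unfold rv
      norm_num
    have hX0 : 0 < rv X := by
      have h3 : Nat.ble (Nat.succ 0) X = true := hX1
      have h4 := rv_lt h3
      have h5 : rv 0 = 0 := by unfold rv; norm_num
      rw [h5] at h4
      exact h4
    have hXn : X < 1099511627776 := by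
      by_contra hc
      have h3 := rv_mono (not_lt.1 hc)
      rw [rv_lit] at h3
      have : (0.135 : ℝ) < 1 := by norm_num
      linarith
    have hb05 : rv C.hb ≤ 0.5 := by
      have h3 := rv_le hb5
      have h4 : rv 549755813888 = 0.5 := by unfold rv; norm_num
      rw [h4] at h3
      exact h3
    have h3 := rv_lt hl
    rw [rv_nmul] at h3
    have h4 : rv (Nat.add C.hb (Nat.mul 2 (divU (mulU (mulU X X) (mulU X X))
        (Nat.sub 1099511627776 X)))) = rv C.hb + 2 * rv (divU (mulU (mulU X X) (mulU X X))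
        (Nat.sub 1099511627776 X)) := by
      rw [rv_add, rv_nmul]
      push_cast
      ring
    rw [h4] at h3
    have h5 := le_divU (mulU (mulU X X) (mulU X X)) (Nat.sub 1099511627776 X)
      (Nat.sub_pos_of_lt hXn)
    have h6 : rv (Nat.sub 1099511627776 X) = 1 - rv X := by
      rw [rv_sub_eq hXn.le, rv_lit]
    rw [h6] at h5
    have h7 : rv X ^ 4 ≤ rv (mulU (mulU X X) (mulU X X)) := by
      have b1 := le_mulU X X
      have b2 := le_mulU (mulU X X) (mulU X X)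
      have b3 : (rv X * rv X) * (rv X * rv X) ≤ rv (mulU X X) * rv (mulU X X) :=
        mul_le_mul b1 b1 (by positivity) (rv_nonneg _)
      calc rv X ^ 4 = (rv X * rv X) * (rv X * rv X) := by ring
        _ ≤ _ := b3.trans b2
    have h8 : 0 < 1 - rv X := by
      have : (0.135 : ℝ) < 1 := by norm_num
      linarith
    have h9 : rv X ^ 4 / (1 - rv X) ≤
        rv (mulU (mulU X X) (mulU X X)) / (1 - rv X) := by
      gcongr
    have h10 : rv C.hb < 2 * rv X - 2 * rv X ^ 4 / (1 - rv X) := by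
      have e : 2 * rv X ^ 4 / (1 - rv X) = 2 * (rv X ^ 4 / (1 - rv X)) := by ring
      rw [e]
      push_cast at h3
      linarith
    have := line_lower M P.hM P.hwM hp (not_le.1 hE).le hX0 hXe hX135 h10 hb05
    linarith

theorem slabA' {C : SlabCert} (h : chkA' C = true) (hT : treeChk false C = true)
    {δ y A1 A2 A3 : ℝ} {M H : Mat} (P : Pair δ y A1 A2 A3 M H) (h1 : rv C.dl ≤ δ)
    (h2 : δ < rv C.dh) (hE : rv C.eth ≤ A2 + A3) : aval M < aval H := by
  simp only [chkA', Bool.and_eq_true] at h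
  exact SlabB_main h.1 h.2 hT P h1 h2 hE

end MP7e122f.Num
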