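import Pool.Agent.Lib.MP_7e122f_anR.KNumAC
import Pool.Agent.Lib.MP_7e122f_anR.KNumJ
import Pool.Agent.Lib.MP_7e122f_anR.KA1
import Pool.Agent.Lib.MP_7e122f_anR.NumTreeA

namespace MP7e122f.Num

open MP7e122f.R

private theorem SlabK_cell_iff {rl rh pl ph : Nat} :
    cellChk rl rh pl ph = true ↔ rl ≤ rh ∧ rh ≤ 5497558138880 ∧ pl ≤ ph ∧ ph ≤ 1099511627776 := by
  unfold cellChk
  rw [Bool.and_eq_true, Bool.and_eq_true, Bool.and_eq_true, Nat.ble_eq, Nat.ble_eq, Nat.ble_eq,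
    Nat.ble_eq]

private theorem SlabK_eq_e {L : List SGI} {S : Slab} {K : KB} {el eh eJ rl rh pl ph : Nat} :
    a1Tree L S K el eh eJ Tr.e rl rh pl ph = a1Cell L S K el eh rl rh pl ph := by
  rw [a1Tree]

private theorem SlabK_eq_g {L : List SGI} {S : Slab} {K : KB} {el eh eJ rl rh pl ph : Nat} :
    a1Tree L S K el eh eJ Tr.g rl rh pl ph = false := by
  rw [a1Tree]

private theorem SlabK_eq_o {L : List SGI} {S : Slab} {K : KB} {el eh eJ rl rh pl ph : Nat} :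
    a1Tree L S K el eh eJ Tr.o rl rh pl ph = a1Out eJ rl rh pl ph := by
  rw [a1Tree]

private theorem SlabK_eq_r {L : List SGI} {S : Slab} {K : KB} {el eh eJ rl rh pl ph : Nat}
    {a b : Tr} : a1Tree L S K el eh eJ (Tr.r a b) rl rh pl ph =
      and (a1Tree L S K el eh eJ a rl (Nat.div (Nat.add rl rh) 2) pl ph)
        (a1Tree L S K el eh eJ b (Nat.div (Nat.add rl rh) 2) rh pl ph) := by
  rw [a1Tree]

private theorem SlabK_eq_p {L : List SGI} {S : Slab} {K : KB} {el eh eJ rl rh pl ph : Nat}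
    {a b : Tr} : a1Tree L S K el eh eJ (Tr.p a b) rl rh pl ph =
      and (a1Tree L S K el eh eJ a rl rh pl (Nat.div (Nat.add pl ph) 2))
        (a1Tree L S K el eh eJ b rl rh (Nat.div (Nat.add pl ph) 2) ph) := by
  rw [a1Tree]

private theorem SlabK_y1c_mem :
    (yOf 1099511627776 1099511627776).Mem y1c := by
  have h1 : (PI.mk 1099511627776 1099511627776).Mem (1 : ℝ) := by
    constructor
    · show rv 1099511627776 ≤ 1
      rw [rv_lit]
    · show (1 : ℝ) ≤ rv 1099511627776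
      rw [rv_lit]
  have hm := PI.Mem.smul 1 2 (by norm_num) (PI.Mem.mul pr3I_mem h1)
  have e : y1c = ((1 : ℕ) : ℝ) / ((2 : ℕ) : ℝ) * (Real.pi / Real.sqrt 3 * 1) := by
    unfold y1c
    have h3 : Real.sqrt 3 ≠ 0 := by positivity
    field_simp
    push_cast
    ring
  rw [e]
  exact hm

private theorem SlabK_ylo : 549755813888 ≤ (yOf 1099511627776 1099511627776).lo := by
  show 549755813888 ≤ (1 * ((1994293491428 * 1099511627776) >>> 40)) / 2
  rw [Nat.shiftRight_eq_div_pow]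
  norm_num

private theorem SlabK_out {eJ : Nat} {rl rh pl ph : Nat}
    {r p : ℝ} (hc : cellChk rl rh pl ph = true)
    (h : a1Out eJ rl rh pl ph = true) (h3 : 0 ≤ AA3 y1c r p)
    (hE : rv eJ ≤ AA2 y1c r p + AA3 y1c r p)
    (hr0 : 0 < r) (hr1 : rv rl ≤ r) (hr2 : r ≤ rv rh) (hp1 : rv pl ≤ p) (hp2 : p ≤ rv ph) :
    False := by
  obtain ⟨h1, h2⟩ : Nat.ble (mkBase (yOf 1099511627776 1099511627776) rl rh pl ph).h.hi
      2199023255552 = true ∧
      outChk eJ (mkBase (yOf 1099511627776 1099511627776) rl rh pl ph) = true := by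
    rw [a1Out, Bool.and_eq_true] at h
    exact h
  have hB := base_ok SlabK_y1c_mem SlabK_ylo hc h1 hr0 hr1 hr2 hp1 hp2
  generalize mkBase (yOf 1099511627776 1099511627776) rl rh pl ph = B at h1 h2 hB
  obtain ⟨-, -, -, hph⟩ := SlabK_cell_iff.1 hc
  have hp3 : p ≤ 1 := by
    have := rv_mono hph
    rw [rv_lit] at this
    linarith
  have hp0 : 0 ≤ p := le_trans (rv_nonneg pl) hp1
  have e2 : rv 2199023255552 = 2 := by unfold rv; norm_num
  have hA3 : 0 ≤ y1c * chh y1c r p - (2 - p) * r / 3 := by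
    have := h3
    unfold AA3 xx3 at this
    linarith
  have hA23 : rv eJ ≤ 2 * (y1c * chh y1c r p) - (1 + p) * r / 3 := by
    have := hE
    unfold AA2 AA3 xx2 xx3 at this
    nlinarith [this]
  have hmu := hB.mmu.2
  have hr := hB.mr
  have hp := hB.mp
  unfold outChk at h2
  rw [Bool.or_eq_true] at h2
  rcases h2 with h2 | h2
  · have q1 := rv_lt h2
    rw [rv_nmul] at q1
    have q2 := mulD_le (Nat.sub 2199023255552 B.p.hi) B.r.lo
    have q3 : rv (Nat.sub 2199023255552 B.p.hi) ≤ 2 - p :=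
      rv_sub_of_le (by rw [e2]; linarith [hp.2]) (by linarith)
    have q4 : rv (Nat.sub 2199023255552 B.p.hi) * rv B.r.lo ≤ (2 - p) * r :=
      mul_le_mul q3 hr.1 (rv_nonneg _) (by linarith)
    push_cast at q1
    linarith
  · have q1 := rv_lt h2
    rw [rv_nmul, rv_add, rv_nmul] at q1
    have q2 := mulD_le (Nat.add 1099511627776 B.p.lo) B.r.lo
    rw [rv_add, rv_lit] at q2
    have q4 : (1 + rv B.p.lo) * rv B.r.lo ≤ (1 + p) * r :=
      mul_le_mul (by linarith [hp.1]) hr.1 (rv_nonneg _) (by linarith)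
    push_cast at q1
    linarith

/-- the tree (as `tchk_ok` of `NumTreeA`; leaf `o`: `outChk` contradicts `h3` or `hE`) -/
theorem a1Tree_ok {T : Tr} {l : List Nat} {el eh eJ : Nat} {K : KB} {rl rh pl ph : Nat}
    (hc : cellChk rl rh pl ph = true)
    (hs : sgisChk 1099511627776 (Nat.add 1099511627776 eh) l = true)
    (hsl : slabChk (Nat.add 1099511627776 el) (Nat.add 1099511627776 eh) = true)
    (h : a1Tree (sgis 1099511627776 l) (mkSlab (Nat.add 1099511627776 el)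
      (Nat.add 1099511627776 eh) 0 false 0 0) K el eh eJ T rl rh pl ph = true) {ε r1 p : ℝ}
    (h0 : 0 < ε) (h1 : rv el ≤ ε) (h2 : ε ≤ rv eh)
    (hr0 : 0 < r1) (hr1 : rv rl ≤ r1) (hr2 : r1 ≤ rv rh) (hp1 : rv pl ≤ p) (hp2 : p ≤ rv ph)
    (h3 : 0 ≤ AA3 y1c r1 p) (hE : rv eJ ≤ AA2 y1c r1 p + AA3 y1c r1 p) :
    A1ok ε (rv K.k1l) (rv K.k1h) (rv K.k3h) (rv K.k4l) (rv K.k7h) r1 p := by
  induction T generalizing rl rh pl ph with
  | e =>
    rw [SlabK_eq_e] at h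
    exact a1Cell_ok hs hsl h h0 h1 h2 hr0 hr1 hr2 hp1 hp2
  | g =>
    rw [SlabK_eq_g] at h
    exact absurd h Bool.false_ne_true
  | o =>
    rw [SlabK_eq_o] at h
    exact (SlabK_out hc h h3 hE hr0 hr1 hr2 hp1 hp2).elim
  | r a b iha ihb =>
    rw [SlabK_eq_r, Bool.and_eq_true] at h
    obtain ⟨ha, hb⟩ := h
    have hm : Nat.div (Nat.add rl rh) 2 = (rl + rh) / 2 := rfl
    obtain ⟨c1, c2, c3, c4⟩ := SlabK_cell_iff.1 hc
    rcases le_total r1 (rv (Nat.div (Nat.add rl rh) 2)) with hle | hle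
    · exact iha (SlabK_cell_iff.2 ⟨by rw [hm]; omega, by rw [hm]; omega, c3, c4⟩) ha hr1 hle
        hp1 hp2
    · exact ihb (SlabK_cell_iff.2 ⟨by rw [hm]; omega, by omega, c3, c4⟩) hb hle hr2 hp1 hp2
  | p a b iha ihb =>
    rw [SlabK_eq_p, Bool.and_eq_true] at h
    obtain ⟨ha, hb⟩ := h
    have hm : Nat.div (Nat.add pl ph) 2 = (pl + ph) / 2 := rfl
    obtain ⟨c1, c2, c3, c4⟩ := SlabK_cell_iff.1 hc
    rcases le_total p (rv (Nat.div (Nat.add pl ph) 2)) with hle | hle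
    · exact iha (SlabK_cell_iff.2 ⟨c1, c2, by rw [hm]; omega, by rw [hm]; omega⟩) ha hr1 hr2
        hp1 hle
    · exact ihb (SlabK_cell_iff.2 ⟨c1, c2, by rw [hm]; omega, c4⟩) hb hr1 hr2 hle hp2

private theorem SlabK_chh (σ y r p : ℝ) (hσ : σ ≠ 0) : chh (σ * y) (σ * r) p = chh y r p := by
  unfold chh
  congr 2
  rcases eq_or_ne y 0 with h | h
  · rw [h]
    simp
  · field_simp

private theorem SlabK_AA (σ y r p : ℝ) (hσ : σ ≠ 0) :
    AA1 (σ * y) (σ * r) p = σ * AA1 y r p ∧ AA2 (σ * y) (σ * r) p = σ * AA2 y r p ∧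
      AA3 (σ * y) (σ * r) p = σ * AA3 y r p := by
  unfold AA1 AA2 AA3 xx1 xx2 xx3
  rw [SlabK_chh σ y r p hσ]
  refine ⟨?_, ?_, ?_⟩ <;> ring

/-- `exists_rp` gives `(r, p)` for `A_i`, `y = δ y1c`; `r1 = r/δ`, `AA_i (δ y1c) (δ r1) p
= δ AA_i y1c r1 p`; `r1 ≤ 3/2` by `root_r` (`3 y1c² = π²/4 ≤ 1.65 · 3/2`). -/
theorem slabK {C : KCert} {eJ : Nat} (h : kcChk C = true) (hT : kcTree C eJ = true)
    (hJ : Nat.ble 1814194185831 eJ = true)
    {δ y A1 A2 A3 : ℝ} {M H : Mat} (P : Pair δ y A1 A2 A3 M H) (h1 : 1 + rv C.el ≤ δ)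
    (h2 : δ < 1 + rv C.eh) (hE : rv eJ * δ ≤ A2 + A3) : aval M < aval H := by
  rw [kcChk, Bool.and_eq_true, Bool.and_eq_true, Bool.and_eq_true, Bool.and_eq_true] at h
  obtain ⟨hk, hsg, hsl, heh, hk1h⟩ := h
  rw [kcTree] at hT
  obtain ⟨ε, hε⟩ : ∃ ε, ε = δ - 1 := ⟨_, rfl⟩
  have hδε : δ = 1 + ε := by linarith
  have hε0 : 0 < ε := by
    have := P.hδ
    linarith
  have he1 : rv C.el ≤ ε := by linarith
  have he2 : ε < rv C.eh := by linarith
  have hδ0 : 0 < δ := by linarith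
  have hδne : δ ≠ 0 := hδ0.ne'
  have heh' : ε ≤ 0.08 := by
    have h5 := rv_le heh
    have h6 : rv 82463372083 ≤ 0.08 := by unfold rv; norm_num
    linarith
  have hk1 : rv C.B.k1h ≤ 2.4 := by
    refine (rv_le hk1h).trans ?_
    unfold rv
    norm_num
  have hs3 : Real.sqrt 3 ^ 2 = 3 := Real.sq_sqrt (by norm_num)
  have hs30 : 0 < Real.sqrt 3 := Real.sqrt_pos.2 (by norm_num)
  have hpi := Real.pi_pos
  have hy1 : y = δ * y1c := by
    rw [P.hy]
    unfold y1c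
    ring
  have hy1c0 : 0 < y1c := by
    unfold y1c
    positivity
  have hy0 : 0 < y := by
    rw [hy1]
    positivity
  obtain ⟨r, p, hr, hp0, hp1, e1, e2, e3⟩ := exists_rp hy0 P.h12 P.h23 P.h3 P.hne P.det
  obtain ⟨r1, hr1⟩ : ∃ r1, r1 = r / δ := ⟨_, rfl⟩
  have hr1' : r = δ * r1 := by
    rw [hr1]
    field_simp
  have hr10 : 0 < r1 := by
    rw [hr1]
    positivity
  obtain ⟨a1, a2, a3⟩ := SlabK_AA δ y1c r1 p hδne
  rw [hy1, hr1'] at e1 e2 e3
  have h3' : 0 ≤ AA3 y1c r1 p := by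
    have h5 := P.h3
    rw [e3, a3] at h5
    exact nonneg_of_mul_nonneg_right h5 hδ0
  have hE' : rv eJ ≤ AA2 y1c r1 p + AA3 y1c r1 p := by
    have h5 := hE
    rw [e2, e3, a2, a3] at h5
    have h6 : δ * rv eJ ≤ δ * (AA2 y1c r1 p + AA3 y1c r1 p) := by
      linarith
    exact le_of_mul_le_mul_left h6 hδ0
  have hJ1 : 1.65 ≤ rv eJ := by
    refine le_trans ?_ (rv_le hJ)
    unfold rv
    norm_num
  have heJ0 : 0 < rv eJ := by
    have : (0 : ℝ) < 1.65 := by norm_num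
    linarith
  have hR : 3 * y1c ^ 2 ≤ rv eJ * (3 / 2) := by
    have h5 : 3 * y1c ^ 2 = Real.pi ^ 2 / 4 := by
      unfold y1c
      rw [div_pow, mul_pow, hs3]
      ring
    rw [h5]
    have h6 := Real.pi_lt_d4
    have h7 : Real.pi ^ 2 ≤ 3.1416 ^ 2 := pow_le_pow_left₀ hpi.le h6.le 2
    have h8 : (3.1416 : ℝ) ^ 2 / 4 ≤ 1.65 * (3 / 2) := by norm_num
    linarith
  have hrr := root_r hy1c0 hr10 hp0 hp1 h3' heJ0 hR hE'
  have h00 : rv 0 = 0 := by unfold rv; norm_num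
  have h15 : rv 1649267441664 = 3 / 2 := by unfold rv; norm_num
  have hc : cellChk 0 1649267441664 0 1099511627776 = true :=
    SlabK_cell_iff.2 ⟨by norm_num, by norm_num, by norm_num, by norm_num⟩
  have hA := a1Tree_ok (T := C.tree) (l := C.sg) (el := C.el) (eh := C.eh) (eJ := eJ) (K := C.B)
    hc hsg hsl hT hε0 he1 he2.le hr10 (by rw [h00]; exact hr10.le) (by rw [h15]; exact hrr)
    (by rw [h00]; exact hp0) (by rw [rv_lit]; exact hp1) h3' hE'
  have hN := kfs_ok hk hε0 he1 he2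
  refine A1_final (r1 := r1) (p := p) hε0 heh' hk1 hr10 hp0 hp1 h3' hN hA P.hM ?_ P.hHd ?_ ?_
  · rw [P.hMd, hδε]
  · rw [← hδε, ← e1, ← e2, ← e3]
    exact P.hwM
  · rw [← hδε, ← hy1]
    exact P.hwH

end MP7e122f.Num
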