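import Pool.Agent.Lib.MP_7e122f_anR.Slab
import Pool.Agent.Lib.MP_7e122f_anR.Refl

/-!
# Reduction to sorted parameters

`wt (mulZ M R3) k = cc B C A k` if `wt M k = cc A B C k` (`wt_mulZ`, `actZ_R3`, `cc_e3`, see
`selling_compare` in `Lib/MP_7e122f_an/Selling.lean`), the same with `R32`; and
`wt (reflM M) k = wt M (k.2, k.1) = cc B A C k`.  `Pair δ y A1 A2 A3 M H` needs
`wt M k = cc A3 A1 A2 k`, `A3 ≤ A2 ≤ A1`.
-/

open MeasureTheory Complex
open scoped ComplexInnerProductSpace ENNReal ComplexOrder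

namespace MP7e122f.Num

open MP7e122f.R

/-- `M'` has the same determinant and the same optimal constants as `M` -/
private def SortR_Eq (M M' : Mat) : Prop :=
  M'.det = M.det ∧ aval M' = aval M ∧ bval M' = bval M

private theorem SortR_refl (M : Mat) : SortR_Eq M M := ⟨rfl, rfl, rfl⟩

private theorem SortR_R3 (M : Mat) : SortR_Eq M (mulZ M R3) :=
  ⟨det_mulZ M R3 det_R3, aval_mulZ M R3 det_R3, bval_mulZ M R3 det_R3⟩

private theorem SortR_R32 (M : Mat) : SortR_Eq M (mulZ M R32) :=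
  ⟨det_mulZ M R32 det_R32, aval_mulZ M R32 det_R32, bval_mulZ M R32 det_R32⟩

private theorem SortR_mir {M M' : Mat} (hM : 0 < M.det) (h : SortR_Eq M M') :
    SortR_Eq M (reflM M') := by
  obtain ⟨h1, h2, h3⟩ := h
  obtain ⟨h4, h5⟩ := val_reflM M' (by rw [h1]; exact hM)
  exact ⟨(det_reflM M').trans h1, h4.trans h2, h5.trans h3⟩

private theorem SortR_wR3 {M : Mat} {A B C : ℝ} (h : ∀ k, wt M k = cc A B C k) (k : ℤ × ℤ) :
    wt (mulZ M R3) k = cc B C A k := by
  rw [wt_mulZ M R3 det_R3, actZ_R3, h, cc_e3]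

private theorem SortR_wR32 {M : Mat} {A B C : ℝ} (h : ∀ k, wt M k = cc A B C k) (k : ℤ × ℤ) :
    wt (mulZ M R32) k = cc C A B k := by
  rw [wt_mulZ M R32 det_R32, actZ_R32, h, cc_e3_symm]

private theorem SortR_wmir {M : Mat} {A B C : ℝ} (h : ∀ k, wt M k = cc A B C k) (k : ℤ × ℤ) :
    wt (reflM M) k = cc B A C k := by
  rw [wt_reflM, h]
  unfold cc
  congr 1
  push_cast
  ring

private theorem SortR_main {δ y A1 A2 A3 : ℝ} {M M' H : Mat} (hδ : 1 < δ) (hδ2 : δ < 2)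
    (hy : y = Real.pi * δ / (2 * Real.sqrt 3)) (hM : 0 < M.det) (hMd : M.det = 1 / δ)
    (hHd : H.det = M.det) (hwH : ∀ k, wt H k = cc y y y k)
    (hS : ∀ (A1 A2 A3 : ℝ) (M' : Mat), Pair δ y A1 A2 A3 M' H →
      aval M' < aval H ∧ bval H < bval M')
    (he : SortR_Eq M M') (hw : ∀ k, wt M' k = cc A3 A1 A2 k)
    (hd : A1 * A2 + A2 * A3 + A3 * A1 = 3 * y ^ 2) (h12 : A2 ≤ A1) (h23 : A3 ≤ A2)
    (h3 : 0 ≤ A3) (hne : A3 ≠ A1) : aval M < aval H ∧ bval H < bval M := by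
  obtain ⟨e1, e2, e3⟩ := he
  have h := hS A1 A2 A3 M' ⟨hδ, hδ2, hy, by rw [e1]; exact hM, by rw [e1]; exact hMd,
    by rw [e1]; exact hHd, hw, hwH, hd, h12, h23, h3, hne⟩
  rw [e2, e3] at h
  exact h

theorem compare_any {δ y A B C : ℝ} {M H : Mat} (hδ : 1 < δ) (hδ2 : δ < 2)
    (hy : y = Real.pi * δ / (2 * Real.sqrt 3)) (hM : 0 < M.det) (hMd : M.det = 1 / δ)
    (hHd : H.det = M.det) (hwM : ∀ k, wt M k = cc A B C k) (hwH : ∀ k, wt H k = cc y y y k)
    (hA : 0 ≤ A) (hB : 0 ≤ B) (hC : 0 ≤ C) (hABC : A * B + B * C + C * A = 3 * y ^ 2)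
    (hne : ¬ (A = B ∧ B = C))
    (hS : ∀ (A1 A2 A3 : ℝ) (M' : Mat), Pair δ y A1 A2 A3 M' H →
      aval M' < aval H ∧ bval H < bval M') : aval M < aval H ∧ bval H < bval M := by
  rcases le_total A B with hab | hab <;> rcases le_total B C with hbc | hbc <;>
    rcases le_total A C with hac | hac
  · -- A ≤ B ≤ C : the parameters (A, C, B)
    exact SortR_main hδ hδ2 hy hM hMd hHd hwH hS (SortR_mir hM (SortR_R32 M))
      (SortR_wmir (SortR_wR32 hwM)) (by linarith) hbc hab hA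
      (fun h => hne ⟨by linarith, by linarith⟩)
  · exact absurd ⟨by linarith, by linarith⟩ hne
  · -- A ≤ C ≤ B : the parameters (A, B, C)
    exact SortR_main hδ hδ2 hy hM hMd hHd hwH hS (SortR_refl M)
      hwM (by linarith) hbc hac hA (fun h => hne ⟨by linarith, by linarith⟩)
  · -- C ≤ A ≤ B : the parameters (C, B, A)
    exact SortR_main hδ hδ2 hy hM hMd hHd hwH hS (SortR_mir hM (SortR_R3 M))
      (SortR_wmir (SortR_wR3 hwM)) (by linarith) hab hac hC
      (fun h => hne ⟨by linarith, by linarith⟩)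
  · -- B ≤ A ≤ C : the parameters (B, C, A)
    exact SortR_main hδ hδ2 hy hM hMd hHd hwH hS (SortR_R3 M)
      (SortR_wR3 hwM) (by linarith) hac hab hB (fun h => hne ⟨by linarith, by linarith⟩)
  · -- B ≤ C ≤ A : the parameters (B, A, C)
    exact SortR_main hδ hδ2 hy hM hMd hHd hwH hS (SortR_mir hM (SortR_refl M))
      (SortR_wmir hwM) (by linarith) hac hbc hB (fun h => hne ⟨by linarith, by linarith⟩)
  · exact absurd ⟨by linarith, by linarith⟩ hne
  · -- C ≤ B ≤ A : the parameters (C, A, B)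
    exact SortR_main hδ hδ2 hy hM hMd hHd hwH hS (SortR_R32 M)
      (SortR_wR32 hwM) (by linarith) hab hbc hC (fun h => hne ⟨by linarith, by linarith⟩)

end MP7e122f.Num
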