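import Pool.Agent.Lib.MP_7e122f_anR.TPDa

open MeasureTheory Complex
open scoped ComplexInnerProductSpace ENNReal ComplexOrder

namespace MP7e122f.R

/-- Gaussian states, flux `η > 0`: choose `M` with `det M = 1/η` and `f = gv α β hα (zr M 0)`
from `exists_gauss`; `kern_eq` (with `y = y' = 0`) computes `⟪f, rho (zet M k) f⟫`, and
`inner_zet` gives the Gram form with `v k = rho (zet M k) f`. -/
theorem tpd_gauss (η : ℝ) (hη : 0 < η) (P : ℝ × ℝ × ℝ) (hP : 0 < P.1)
    (hdet : P.1 * P.2.2 - P.2.1 ^ 2 = η ^ 2) :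
    TPD η (fun k => ((Real.exp (-(Real.pi / 2) * qf P (cst k)) : ℝ) : ℂ)) := by
  obtain ⟨M, hMd⟩ : ∃ M : Mat, M.det = 1 / η := by
    refine ⟨!![1, 0; 0, 1 / η], ?_⟩
    rw [Matrix.det_fin_two]
    simp
  have hM : 0 < M.det := by rw [hMd]; positivity
  have hinv : 1 / M.det = η := by rw [hMd]; field_simp
  obtain ⟨α, β, hα, hE⟩ := exists_gauss M hM P hP (by rw [hinv]; exact hdet)
  refine tpd_of_gram (fun k => rho (zet M k) (gv α β hα (zr M (0, 0)))) fun k l => ?_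
  have h1 := inner_zet M hM k l (gv α β hα (zr M (0, 0)))
  have h2 := kern_eq M hM P α β hα hE (0, 0) (l - k) (0, 0)
  have hinvC : (1 / (M.det : ℂ)) = (η : ℂ) := by
    rw [← hinv]; push_cast; ring
  rw [hinvC] at h1
  rw [h1, h2]
  congr 1
  unfold Kern
  rw [Complex.ofReal_exp]
  simp only [ofReal_zero, mul_zero, zero_mul, sub_zero, add_zero, Complex.exp_zero, one_mul]
  congr 1
  unfold qf cst
  push_cast
  ring

/-- the same with the opposite sign of the flux, and the degenerate case -/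
theorem tpd_gauss' (η : ℝ) (P : ℝ × ℝ × ℝ) (hP : (0 < P.1 ∧ η ≠ 0) ∨ (P = (0, 0, 0) ∧ η = 0))
    (hdet : P.1 * P.2.2 - P.2.1 ^ 2 = η ^ 2) :
    TPD η (fun k => ((Real.exp (-(Real.pi / 2) * qf P (cst k)) : ℝ) : ℂ)) := by
  rcases hP with ⟨h1, h2⟩ | ⟨rfl, rfl⟩
  · rcases lt_or_gt_of_ne h2 with h | h
    · have h3 := (tpd_gauss (-η) (by linarith) P h1 (by rw [hdet]; ring)).conj
      rw [neg_neg] at h3
      have e : (fun k => (starRingEnd ℂ) ((Real.exp (-(Real.pi / 2) * qf P (cst k)) : ℝ) : ℂ)) =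
          fun k => ((Real.exp (-(Real.pi / 2) * qf P (cst k)) : ℝ) : ℂ) := by
        funext k
        rw [Complex.conj_ofReal]
      rwa [e] at h3
    · exact tpd_gauss η h P h1 hdet
  · have h := tpd_char (0, 0)
    have e : (fun k : ℤ × ℤ => cexp (2 * Real.pi * I *
        (((0, 0) : ℝ × ℝ).1 * k.1 + ((0, 0) : ℝ × ℝ).2 * k.2))) =
        fun k => ((Real.exp (-(Real.pi / 2) * qf (0, 0, 0) (cst k)) : ℝ) : ℂ) := by
      funext k
      simp [qf]
    rwa [e] at h

end MP7e122f.R
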