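import Pool.Agent.Lib.MP_7e122f_anR.TPDa

open MeasureTheory Complex
open scoped ComplexInnerProductSpace ENNReal ComplexOrder

namespace MP7e122f.R

private def tpX (a : ℤ) : Matrix (Fin 2) (Fin 2) ℂ := if Even a then 1 else !![0, 1; 1, 0]
private noncomputable def tpY (a : ℤ) : Matrix (Fin 2) (Fin 2) ℂ := if Even a then 1 else !![0, -I; I, 0]

private lemma tpX_add (a b : ℤ) : tpX a * tpX b = tpX (a + b) := by
  unfold tpX
  by_cases ha : Even a <;> by_cases hb : Even b <;> simp [ha, hb, Int.even_add, Matrix.one_fin_two]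

private lemma tpY_add (a b : ℤ) : tpY a * tpY b = tpY (a + b) := by
  unfold tpY
  by_cases ha : Even a <;> by_cases hb : Even b <;> simp [ha, hb, Int.even_add, Matrix.one_fin_two]

private lemma tpX_neg (a : ℤ) : tpX (-a) = tpX a := by unfold tpX; simp
private lemma tpY_neg (a : ℤ) : tpY (-a) = tpY a := by unfold tpY; simp

private lemma tpX_ct (a : ℤ) : (tpX a).conjTranspose = tpX a := by
  unfold tpX
  by_cases ha : Even a
  · simp [ha]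
  · simp only [ha, if_false]
    ext i j; fin_cases i <;> fin_cases j <;> simp [Matrix.conjTranspose_apply]
private lemma tpY_ct (a : ℤ) : (tpY a).conjTranspose = tpY a := by
  unfold tpY
  by_cases ha : Even a
  · simp [ha]
  · simp only [ha, if_false]
    ext i j; fin_cases i <;> fin_cases j <;> simp [Matrix.conjTranspose_apply]

private lemma tpYX (a b : ℤ) : tpY b * tpX a = (I ^ (2 * (a * b))) • (tpX a * tpY b) := by
  have h2 : (I : ℂ) ^ (2 : ℤ) = -1 := by rw [zpow_ofNat, I_sq]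
  rw [zpow_mul, h2]
  unfold tpX tpY
  by_cases ha : Even a
  · have : Even (a * b) := ha.mul_right b
    simp [ha, this.neg_one_zpow]
  · by_cases hb : Even b
    · have : Even (a * b) := hb.mul_left a
      simp [hb, this.neg_one_zpow]
    · have : Odd (a * b) := (Int.not_even_iff_odd.1 ha).mul (Int.not_even_iff_odd.1 hb)
      simp [ha, hb, this.neg_one_zpow]

private noncomputable def tpP (k : ℤ × ℤ) : Matrix (Fin 2) (Fin 2) ℂ :=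
  I ^ (-((k.1 + k.2) * k.2)) • (tpX (k.1 + k.2) * tpY k.2)

private lemma tp_I4 (n : ℤ) : (I : ℂ) ^ (4 * n) = 1 := by
  rw [zpow_mul]
  have : (I : ℂ) ^ (4 : ℤ) = 1 := by rw [zpow_ofNat, I_pow_four]
  rw [this, one_zpow]

private lemma tp_Ieq {m n : ℤ} (t : ℤ) (h : m = n + 4 * t) : (I : ℂ) ^ m = I ^ n := by
  rw [h, zpow_add₀ I_ne_zero, tp_I4, mul_one]

private lemma tpP_mul (k l : ℤ × ℤ) : tpP k * tpP l = I ^ (wdg k l) • tpP (k + l) := by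
  unfold tpP
  rw [Matrix.smul_mul, Matrix.mul_smul, smul_smul, smul_smul, ← zpow_add₀ I_ne_zero,
    ← zpow_add₀ I_ne_zero]
  have e1 : tpX (k.1 + k.2) * tpY k.2 * (tpX (l.1 + l.2) * tpY l.2)
      = I ^ (2 * ((l.1 + l.2) * k.2)) • (tpX ((k + l).1 + (k + l).2) * tpY (k + l).2) := by
    have : tpX (k.1 + k.2) * tpY k.2 * (tpX (l.1 + l.2) * tpY l.2)
      = tpX (k.1 + k.2) * (tpY k.2 * tpX (l.1 + l.2)) * tpY l.2 := by
      simp only [Matrix.mul_assoc]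
    rw [this, tpYX, Matrix.mul_smul, Matrix.smul_mul]
    congr 1
    have : tpX (k.1 + k.2) * (tpX (l.1 + l.2) * tpY k.2) * tpY l.2
      = (tpX (k.1 + k.2) * tpX (l.1 + l.2)) * (tpY k.2 * tpY l.2) := by
      simp only [Matrix.mul_assoc]
    rw [this, tpX_add, tpY_add]
    congr 2
    simp only [Prod.fst_add, Prod.snd_add]; ring
  rw [e1, smul_smul, ← zpow_add₀ I_ne_zero]
  congr 1
  apply tp_Ieq ((l.1 + l.2) * k.2)
  simp only [wdg, Prod.fst_add, Prod.snd_add]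
  ring

private lemma tpP_neg (k : ℤ × ℤ) : tpP (-k) = tpP k := by
  unfold tpP
  have h1 : (-k).1 + (-k).2 = -(k.1 + k.2) := by simp only [Prod.fst_neg, Prod.snd_neg]; ring
  rw [h1, tpX_neg]
  have h2 : (-k).2 = -k.2 := rfl
  rw [h2, tpY_neg]
  congr 2
  ring

private lemma tpP_ct (k : ℤ × ℤ) : (tpP k).conjTranspose = tpP k := by
  unfold tpP
  rw [Matrix.conjTranspose_smul, Matrix.conjTranspose_mul, tpX_ct, tpY_ct, tpYX, smul_smul]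
  congr 1
  have : star ((I : ℂ) ^ (-((k.1 + k.2) * k.2))) = I ^ ((k.1 + k.2) * k.2) := by
    rw [star_zpow₀]
    have hI : star (I : ℂ) = I⁻¹ := by simp
    rw [hI, inv_zpow, zpow_neg, inv_inv]
  rw [this, ← zpow_add₀ I_ne_zero]
  apply tp_Ieq ((k.1 + k.2) * k.2)
  ring

/-- The Pauli representation of flux 3/2 : matrices `PR k` with
`PR k * PR l = i^(k∧l) PR (k+l)`.  With `X, Y, Z` the Pauli matrices,
`PR (a u1 + b u2) = i^(-ab) X^a Y^b`; here `k = (k1,k2) = a u1 + b u2` with `b = k2`, `a = k1+k2`.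
So `PR u1 = X`, `PR u2 = Y`, `PR u3 = Z`, `PR (2k) = 1`. -/
theorem exists_pauli : ∃ PR : ℤ × ℤ → Matrix (Fin 2) (Fin 2) ℂ,
    (∀ k l, PR k * PR l = I ^ (wdg k l) • PR (k + l)) ∧
    (∀ k, (PR k).conjTranspose = PR (-k)) ∧
    PR (0, 0) = 1 ∧ PR (1, 0) = !![0, 1; 1, 0] ∧ PR (-1, 1) = !![0, -I; I, 0] ∧
    PR (0, -1) = !![1, 0; 0, -1] ∧
    PR (-1, 2) = -(!![0, 1; 1, 0]) ∧ PR (-1, -1) = -(!![0, -I; I, 0]) ∧
    PR (2, -1) = -(!![1, 0; 0, -1]) ∧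
    PR (2, 0) = 1 ∧ PR (-2, 2) = 1 ∧ PR (0, -2) = 1 := by
  refine ⟨tpP, tpP_mul, fun k => by rw [tpP_ct, tpP_neg], ?_, ?_, ?_, ?_, ?_, ?_, ?_, ?_, ?_, ?_⟩
  · simp [tpP, tpX, tpY]
  · simp [tpP, tpX, tpY]
  · simp [tpP, tpX, tpY]
  · simp [tpP, tpX, tpY]
  · simp [tpP, tpX, tpY]
  · simp [tpP, tpX, tpY]
  · simp [tpP, tpX, tpY]
  · simp [tpP, tpX, tpY]
  · simp [tpP, tpX, tpY]
  · simp [tpP, tpX, tpY]

private lemma tp_tpd (PR : ℤ × ℤ → Matrix (Fin 2) (Fin 2) ℂ)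
    (hm : ∀ k l, PR k * PR l = I ^ (wdg k l) • PR (k + l))
    (hc : ∀ k, (PR k).conjTranspose = PR (-k)) (e : Fin 2 → ℂ) :
    TPD (3 / 2) (fun k => star e ⬝ᵥ (PR k).mulVec e) := by
  intro s
  set B : Matrix (Fin 2) s ℂ := Matrix.of fun i (k : s) => (PR (k : ℤ × ℤ)).mulVec e i with hB
  have h := Matrix.posSemidef_conjTranspose_mul_self B
  convert h using 1
  ext k l
  have e1 : (B.conjTranspose * B) k l
      = star ((PR (k : ℤ × ℤ)).mulVec e) ⬝ᵥ ((PR (l : ℤ × ℤ)).mulVec e) := by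
    simp only [Matrix.mul_apply, Matrix.conjTranspose_apply, hB, Matrix.of_apply, dotProduct,
      Pi.star_apply]
  rw [e1, Matrix.star_mulVec, ← Matrix.dotProduct_mulVec, Matrix.mulVec_mulVec, hc, hm,
    Matrix.smul_mulVec, dotProduct_smul, Matrix.of_apply, smul_eq_mul]
  have e2 : (-(k : ℤ × ℤ) + (l : ℤ × ℤ)) = (l : ℤ × ℤ) - k := by abel
  rw [e2]
  congr 1
  have e3 : wdg (-(k : ℤ × ℤ)) l = - wdg k l := by
    simp only [wdg, Prod.fst_neg, Prod.snd_neg]; ring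
  rw [e3]
  have e4 : (I : ℂ) = cexp (Real.pi / 2 * I) := by rw [Complex.exp_pi_div_two_mul_I]
  have e5 : (I : ℂ) ^ (-wdg (k : ℤ × ℤ) l) = I ^ (3 * wdg (k : ℤ × ℤ) l) := by
    apply tp_Ieq (-wdg (k : ℤ × ℤ) l); ring
  rw [e5]
  conv_rhs => rw [e4]
  rw [← Complex.exp_int_mul]
  congr 1
  push_cast
  ring

private lemma tp_herm (PR : ℤ × ℤ → Matrix (Fin 2) (Fin 2) ℂ) (k : ℤ × ℤ)
    (hc : (PR k).conjTranspose = PR k) (e : Fin 2 → ℂ) :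
    (((star e ⬝ᵥ (PR k).mulVec e).re : ℝ) : ℂ) = star e ⬝ᵥ (PR k).mulVec e := by
  apply Complex.conj_eq_iff_re.1
  have : (starRingEnd ℂ) (star e ⬝ᵥ (PR k).mulVec e) = star (star e ⬝ᵥ (PR k).mulVec e) := rfl
  rw [this, ← Matrix.star_dotProduct, Matrix.star_mulVec, hc]
  rw [← Matrix.dotProduct_mulVec]

private noncomputable def tpe (q : ℝ) : Fin 2 → ℂ :=
  ![((1 / Real.sqrt (3 - q * Real.sqrt 3) : ℝ) : ℂ),
    (((-1 + q * Real.sqrt 3) / 2 / Real.sqrt (3 - q * Real.sqrt 3) : ℝ) : ℂ) * (1 + I)]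

private lemma tp_pos (q : ℝ) (hq : q = 1 ∨ q = -1) : 0 < 3 - q * Real.sqrt 3 := by
  have h3 : Real.sqrt 3 < 3 := by
    rw [Real.sqrt_lt' (by norm_num)]; norm_num
  have h3' := Real.sqrt_nonneg 3
  rcases hq with rfl | rfl <;> linarith

private lemma tp_gen (a b : ℝ) :
    star (![(a : ℂ), (b : ℂ) * (1 + I)]) ⬝ᵥ (1 : Matrix (Fin 2) (Fin 2) ℂ).mulVec ![(a : ℂ), (b : ℂ) * (1 + I)]
      = ((a ^ 2 + 2 * b ^ 2 : ℝ) : ℂ) ∧
    star (![(a : ℂ), (b : ℂ) * (1 + I)]) ⬝ᵥ (!![0, 1; 1, 0] : Matrix (Fin 2) (Fin 2) ℂ).mulVec ![(a : ℂ), (b : ℂ) * (1 + I)]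
      = ((2 * (a * b) : ℝ) : ℂ) ∧
    star (![(a : ℂ), (b : ℂ) * (1 + I)]) ⬝ᵥ (!![0, -I; I, 0] : Matrix (Fin 2) (Fin 2) ℂ).mulVec ![(a : ℂ), (b : ℂ) * (1 + I)]
      = ((2 * (a * b) : ℝ) : ℂ) ∧
    star (![(a : ℂ), (b : ℂ) * (1 + I)]) ⬝ᵥ (!![1, 0; 0, -1] : Matrix (Fin 2) (Fin 2) ℂ).mulVec ![(a : ℂ), (b : ℂ) * (1 + I)]
      = ((a ^ 2 - 2 * b ^ 2 : ℝ) : ℂ) := by
  have hI : (I : ℂ) ^ 2 = -1 := I_sq
  refine ⟨?_, ?_, ?_, ?_⟩ <;>
  · simp [dotProduct, Fin.sum_univ_two, Matrix.mulVec]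
    ring_nf
    try rw [hI]
    try ring_nf

private lemma tp_vals (q : ℝ) (hq : q = 1 ∨ q = -1) :
    star (tpe q) ⬝ᵥ (1 : Matrix (Fin 2) (Fin 2) ℂ).mulVec (tpe q) = 1 ∧
    star (tpe q) ⬝ᵥ (!![0, 1; 1, 0] : Matrix (Fin 2) (Fin 2) ℂ).mulVec (tpe q) = ((q / Real.sqrt 3 : ℝ) : ℂ) ∧
    star (tpe q) ⬝ᵥ (!![0, -I; I, 0] : Matrix (Fin 2) (Fin 2) ℂ).mulVec (tpe q) = ((q / Real.sqrt 3 : ℝ) : ℂ) ∧
    star (tpe q) ⬝ᵥ (!![1, 0; 0, -1] : Matrix (Fin 2) (Fin 2) ℂ).mulVec (tpe q) = ((q / Real.sqrt 3 : ℝ) : ℂ) := by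
  have hpos := tp_pos q hq
  have hr2 : Real.sqrt (3 - q * Real.sqrt 3) ^ 2 = 3 - q * Real.sqrt 3 := Real.sq_sqrt hpos.le
  have hrpos : 0 < Real.sqrt (3 - q * Real.sqrt 3) := Real.sqrt_pos.2 hpos
  have hq2 : q ^ 2 = 1 := by rcases hq with rfl | rfl <;> norm_num
  have hs2 : Real.sqrt 3 ^ 2 = 3 := Real.sq_sqrt (by norm_num)
  have hspos : 0 < Real.sqrt 3 := Real.sqrt_pos.2 (by norm_num)
  unfold tpe
  set r := Real.sqrt (3 - q * Real.sqrt 3) with hr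
  set t := Real.sqrt 3 with ht
  have key : (-1 + q * t) / (r ^ 2) = q / t := by
    rw [hr2, div_eq_div_iff hpos.ne' hspos.ne']
    linear_combination q * hs2 + t * hq2
  obtain ⟨h1, h2, h3, h4⟩ := tp_gen (1 / r) ((-1 + q * t) / 2 / r)
  have hr2' : r ^ 2 ≠ 0 := by positivity
  refine ⟨h1.trans ?_, h2.trans ?_, h3.trans ?_, h4.trans ?_⟩
  · rw [← Complex.ofReal_one]
    congr 1
    field_simp
    linear_combination (-2) * hr2 + (t ^ 2) * hq2 + hs2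
  · rw [← key]; congr 1; field_simp
  · rw [← key]; congr 1; field_simp
  · rw [← key]; congr 1; field_simp
    linear_combination (-t^2) * hq2 - hs2

private lemma tp_abs (e : Fin 2 → ℂ) (v1 : star e ⬝ᵥ (1 : Matrix (Fin 2) (Fin 2) ℂ).mulVec e = 1)
    (k : ℤ × ℤ) : |(star e ⬝ᵥ (tpP k).mulVec e).re| ≤ 1 := by
  have hreal : (((star e ⬝ᵥ (tpP k).mulVec e).re : ℝ) : ℂ) = star e ⬝ᵥ (tpP k).mulVec e :=
    tp_herm tpP k (tpP_ct k) e
  have h0 : tpP (0, 0) = 1 := by simp [tpP, tpX, tpY]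
  generalize hcdef : (star e ⬝ᵥ (tpP k).mulVec e).re = c at hreal ⊢
  have hc1 : star e ⬝ᵥ (tpP k).mulVec e = (c : ℂ) := hreal.symm
  have hc2 : star ((tpP k).mulVec e) ⬝ᵥ e = (c : ℂ) := by
    rw [Matrix.star_mulVec, tpP_ct, ← Matrix.dotProduct_mulVec, hc1]
  have hc3 : star ((tpP k).mulVec e) ⬝ᵥ (tpP k).mulVec e = 1 := by
    rw [Matrix.star_mulVec, tpP_ct, ← Matrix.dotProduct_mulVec, Matrix.mulVec_mulVec]
    have : tpP k * tpP k = 1 := by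
      have h1 := tpP_mul k (-k)
      rw [tpP_neg] at h1
      rw [h1]
      have h2 : k + -k = (0, 0) := by rw [add_neg_cancel]; rfl
      have h3 : wdg k (-k) = 0 := by simp only [wdg, Prod.fst_neg, Prod.snd_neg]; ring
      rw [h2, h3, h0]; simp
    rw [this, v1]
  have hc4 : star e ⬝ᵥ e = 1 := by rw [Matrix.one_mulVec] at v1; exact v1
  have hnn : 0 ≤ star ((tpP k).mulVec e - (c : ℂ) • e) ⬝ᵥ ((tpP k).mulVec e - (c : ℂ) • e) :=
    dotProduct_star_self_nonneg _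
  have hexp : star ((tpP k).mulVec e - (c : ℂ) • e) ⬝ᵥ ((tpP k).mulVec e - (c : ℂ) • e)
      = ((1 - c ^ 2 : ℝ) : ℂ) := by
    have hsc : star (c : ℂ) = (c : ℂ) := Complex.conj_ofReal c
    rw [star_sub, star_smul, sub_dotProduct, dotProduct_sub, dotProduct_sub, smul_dotProduct,
      smul_dotProduct, dotProduct_smul, dotProduct_smul, hc1, hc2, hc3, hc4, hsc]
    simp only [smul_eq_mul]
    push_cast; ring
  rw [hexp] at hnn
  have hnn' : (0 : ℝ) ≤ 1 - c ^ 2 := by exact_mod_cast hnn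
  exact (sq_le_one_iff_abs_le_one c).1 (by linarith)

/-- The Pauli state: `ψ k = ⟨e, PR k e⟩` with a unit vector `e` for which `X, Y, Z` have the
expectation `q/√3`, `q = 1` or `q = -1`. -/
theorem exists_pauli_state (q : ℝ) (hq : q = 1 ∨ q = -1) : ∃ ψ : ℤ × ℤ → ℝ,
    TPD (3 / 2) (fun k => (ψ k : ℂ)) ∧ ψ (0, 0) = 1 ∧ (∀ k, ψ (-k) = ψ k) ∧ (∀ k, |ψ k| ≤ 1) ∧
    (∀ k ∈ S1, ψ k = q / Real.sqrt 3) ∧ (∀ k ∈ S3, ψ k = -(q / Real.sqrt 3)) ∧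
    (∀ k ∈ S4, ψ k = 1) := by
  obtain ⟨e, v1, vX, vY, vZ⟩ : ∃ e : Fin 2 → ℂ,
      star e ⬝ᵥ (1 : Matrix (Fin 2) (Fin 2) ℂ).mulVec e = 1 ∧
      star e ⬝ᵥ (!![0, 1; 1, 0] : Matrix (Fin 2) (Fin 2) ℂ).mulVec e = ((q / Real.sqrt 3 : ℝ) : ℂ) ∧
      star e ⬝ᵥ (!![0, -I; I, 0] : Matrix (Fin 2) (Fin 2) ℂ).mulVec e
        = ((q / Real.sqrt 3 : ℝ) : ℂ) ∧
      star e ⬝ᵥ (!![1, 0; 0, -1] : Matrix (Fin 2) (Fin 2) ℂ).mulVec e
        = ((q / Real.sqrt 3 : ℝ) : ℂ) := ⟨tpe q, tp_vals q hq⟩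
  have h0 : tpP (0, 0) = 1 := by simp [tpP, tpX, tpY]
  have hX : tpP (1, 0) = !![0, 1; 1, 0] := by simp [tpP, tpX, tpY]
  have hY : tpP (-1, 1) = !![0, -I; I, 0] := by simp [tpP, tpX, tpY]
  have hZ : tpP (0, -1) = !![1, 0; 0, -1] := by simp [tpP, tpX, tpY]
  have hX' : tpP (-1, 2) = -(!![0, 1; 1, 0]) := by simp [tpP, tpX, tpY]
  have hY' : tpP (-1, -1) = -(!![0, -I; I, 0]) := by simp [tpP, tpX, tpY]
  have hZ' : tpP (2, -1) = -(!![1, 0; 0, -1]) := by simp [tpP, tpX, tpY]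
  have h4a : tpP (2, 0) = 1 := by simp [tpP, tpX, tpY]
  have h4b : tpP (-2, 2) = 1 := by simp [tpP, tpX, tpY]
  have h4c : tpP (0, -2) = 1 := by simp [tpP, tpX, tpY]
  have hreal : ∀ k, (((star e ⬝ᵥ (tpP k).mulVec e).re : ℝ) : ℂ) = star e ⬝ᵥ (tpP k).mulVec e :=
    fun k => tp_herm tpP k (tpP_ct k) e
  obtain ⟨ψ, hψ⟩ : ∃ ψ : ℤ × ℤ → ℝ, ∀ k, ψ k = (star e ⬝ᵥ (tpP k).mulVec e).re :=
    ⟨fun k => (star e ⬝ᵥ (tpP k).mulVec e).re, fun _ => rfl⟩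
  have hneg : ∀ k : ℤ × ℤ, ψ (-k) = ψ k := fun k => by rw [hψ, hψ, tpP_neg]
  have w0 : ψ (0, 0) = 1 := by rw [hψ, h0, v1]; simp
  have wX : ψ (1, 0) = q / Real.sqrt 3 := by rw [hψ, hX, vX, Complex.ofReal_re]
  have wY : ψ (-1, 1) = q / Real.sqrt 3 := by rw [hψ, hY, vY, Complex.ofReal_re]
  have wZ : ψ (0, -1) = q / Real.sqrt 3 := by rw [hψ, hZ, vZ, Complex.ofReal_re]
  have wX' : ψ (-1, 2) = -(q / Real.sqrt 3) := by
    rw [hψ, hX', Matrix.neg_mulVec, dotProduct_neg, vX, Complex.neg_re, Complex.ofReal_re]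
  have wY' : ψ (-1, -1) = -(q / Real.sqrt 3) := by
    rw [hψ, hY', Matrix.neg_mulVec, dotProduct_neg, vY, Complex.neg_re, Complex.ofReal_re]
  have wZ' : ψ (2, -1) = -(q / Real.sqrt 3) := by
    rw [hψ, hZ', Matrix.neg_mulVec, dotProduct_neg, vZ, Complex.neg_re, Complex.ofReal_re]
  have wa : ψ (2, 0) = 1 := by rw [hψ, h4a, v1]; simp
  have wb : ψ (-2, 2) = 1 := by rw [hψ, h4b, v1]; simp
  have wc : ψ (0, -2) = 1 := by rw [hψ, h4c, v1]; simp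
  have hT : TPD (3 / 2) (fun k => (ψ k : ℂ)) := by
    have h := tp_tpd tpP tpP_mul (fun k => by rw [tpP_ct, tpP_neg]) e
    have h2 : (fun k : ℤ × ℤ => ((ψ k : ℝ) : ℂ))
        = fun k => star e ⬝ᵥ (tpP k).mulVec e := funext fun k => by rw [hψ]; exact hreal k
    rw [h2]
    exact h
  have hA : ∀ k, |ψ k| ≤ 1 := fun k => by rw [hψ]; exact tp_abs e v1 k
  clear hψ hreal h0 hX hY hZ hX' hY' hZ' h4a h4b h4c v1 vX vY vZ
  have n1 : ψ (-1, 0) = q / Real.sqrt 3 := by rw [← wX, ← hneg (1, 0)]; rfl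
  have n2 : ψ (0, 1) = q / Real.sqrt 3 := by rw [← wZ, ← hneg (0, -1)]; rfl
  have n3 : ψ (1, -1) = q / Real.sqrt 3 := by rw [← wY, ← hneg (-1, 1)]; rfl
  have n4 : ψ (1, 1) = -(q / Real.sqrt 3) := by rw [← wY', ← hneg (-1, -1)]; rfl
  have n5 : ψ (1, -2) = -(q / Real.sqrt 3) := by rw [← wX', ← hneg (-1, 2)]; rfl
  have n6 : ψ (-2, 1) = -(q / Real.sqrt 3) := by rw [← wZ', ← hneg (2, -1)]; rfl
  have n7 : ψ (-2, 0) = 1 := by rw [← wa, ← hneg (2, 0)]; rfl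
  have n8 : ψ (0, 2) = 1 := by rw [← wc, ← hneg (0, -2)]; rfl
  have n9 : ψ (2, -2) = 1 := by rw [← wb, ← hneg (-2, 2)]; rfl
  refine ⟨ψ, hT, w0, hneg, hA, ?_, ?_, ?_⟩
  · intro k hk
    simp only [S1, Finset.mem_insert, Finset.mem_singleton] at hk
    rcases hk with rfl | rfl | rfl | rfl | rfl | rfl
    exacts [wX, n1, n2, wZ, n3, wY]
  · intro k hk
    simp only [S3, Finset.mem_insert, Finset.mem_singleton] at hk
    rcases hk with rfl | rfl | rfl | rfl | rfl | rfl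
    exacts [n4, wY', n5, wX', wZ', n6]
  · intro k hk
    simp only [S4, Finset.mem_insert, Finset.mem_singleton] at hk
    rcases hk with rfl | rfl | rfl | rfl | rfl | rfl
    exacts [wa, n7, n8, wc, n9, wb]

end MP7e122f.R
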