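import Pool.Agent.Lib.MP_7e122f_anR.Weyl
import Pool.Agent.Lib.MP_7e122f_anR.AvgPh

open MeasureTheory Complex
open scoped ComplexInnerProductSpace ENNReal ComplexOrder

namespace MP7e122f.R

private theorem trpos_comm (z w : ℝ × ℝ) (f : L2) :
    rho z (rho w f) = cexp (2 * Real.pi * I * (z.2 * w.1 - z.1 * w.2)) • rho w (rho z f) := by
  rw [rho_rho, rho_rho, smul_smul, ← Complex.exp_add, add_comm w z]
  congr 2
  ring

private theorem trpos_iso (z : ℝ × ℝ) (f g : L2) : ⟪rho z f, rho z g⟫ = ⟪f, g⟫ := by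
  rw [rho_adj, rho_rho, neg_add_cancel]
  have h1 : rho (0 : ℝ × ℝ) g = g := rho_zero g
  have h2 : (Real.pi * I * (((-z).2 : ℝ) * (z.1 : ℝ) - ((-z).1 : ℝ) * (z.2 : ℝ)) : ℂ) = 0 := by
    simp only [Prod.snd_neg, Prod.fst_neg]
    push_cast
    ring
  rw [h1, h2, Complex.exp_zero, one_smul]

/-- conjugation by a shift produces a character -/
private theorem trpos_phase (M : Mat) (hM : 0 < M.det) (n : ℕ) (hn : 0 < n) (j : ℕ × ℕ)
    (m : ℤ × ℤ) (f : L2) :
    ⟪rho (zr M (M.det * ((j.2 : ℝ) / n), -(M.det * ((j.1 : ℝ) / n)))) f,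
      rho (zet M m) (rho (zr M (M.det * ((j.2 : ℝ) / n), -(M.det * ((j.1 : ℝ) / n)))) f)⟫ =
    ⟪f, rho (zet M m) f⟫ * cexp (2 * Real.pi * I * (j.1 * m.1 + j.2 * m.2) / n) := by
  rw [trpos_comm, inner_smul_right, trpos_iso, mul_comm]
  congr 2
  have hn' : (n : ℂ) ≠ 0 := by exact_mod_cast hn.ne'
  have hD : (M.det : ℂ) ≠ 0 := by exact_mod_cast hM.ne'
  have hd : (M.det : ℂ) = M 0 0 * M 1 1 - M 0 1 * M 1 0 := by
    rw [Matrix.det_fin_two]; push_cast; ring
  unfold zet lam zr act cst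
  simp only
  push_cast
  have key : ((M 1 0 : ℂ) * m.1 + M 1 1 * m.2) / M.det *
      ((M 0 0 * (M.det * ((j.2 : ℂ) / n)) + M 0 1 * (-(M.det * ((j.1 : ℂ) / n)))) / M.det) -
      ((M 0 0 : ℂ) * m.1 + M 0 1 * m.2) / M.det *
      ((M 1 0 * (M.det * ((j.2 : ℂ) / n)) + M 1 1 * (-(M.det * ((j.1 : ℂ) / n)))) / M.det) =
      ((j.1 : ℂ) * m.1 + j.2 * m.2) / n := by
    have e : ((M 1 0 : ℂ) * m.1 + M 1 1 * m.2) / M.det *
      ((M 0 0 * (M.det * ((j.2 : ℂ) / n)) + M 0 1 * (-(M.det * ((j.1 : ℂ) / n)))) / M.det) -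
      ((M 0 0 : ℂ) * m.1 + M 0 1 * m.2) / M.det *
      ((M 1 0 * (M.det * ((j.2 : ℂ) / n)) + M 1 1 * (-(M.det * ((j.1 : ℂ) / n)))) / M.det) =
      ((M 0 0 * M 1 1 - M 0 1 * M 1 0 : ℂ) / M.det) * (((j.1 : ℂ) * m.1 + j.2 * m.2) / n) := by
      generalize (M.det : ℂ) = D at *
      field_simp
      ring
    rw [e, ← hd, div_self hD, one_mul]
  rw [key]
  ring

private noncomputable def trposW (M : Mat) (k l m : ℤ × ℤ) : ℂ :=
  cexp (-(Real.pi * I * (1 / M.det) * (wdg m l : ℤ))) *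
    cexp (Real.pi * I * (1 / M.det) * (wdg k (m + l) : ℤ))

private theorem trpos_normW (M : Mat) (k l m : ℤ × ℤ) : ‖trposW M k l m‖ = 1 := by
  unfold trposW
  rw [← Complex.exp_add]
  have : (-(Real.pi * I * (1 / M.det) * (wdg m l : ℤ)) +
      Real.pi * I * (1 / M.det) * (wdg k (m + l) : ℤ) : ℂ) =
      ((-(Real.pi * (1 / M.det) * (wdg m l : ℤ)) +
      Real.pi * (1 / M.det) * (wdg k (m + l) : ℤ) : ℝ) : ℂ) * I := by
    push_cast
    ring
  rw [this, Complex.norm_exp_ofReal_mul_I]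

private theorem trpos_inner (M : Mat) (hM : 0 < M.det) (k l m : ℤ × ℤ) (f : L2) :
    ⟪rho (zet M k) f, rho (zet M m) (rho (zet M l) f)⟫ =
      trposW M k l m * ⟪f, rho (zet M (m + l - k)) f⟫ := by
  unfold trposW
  rw [rho_zet M hM, inner_smul_right, inner_zet M hM]
  ring

/-- the vector `A f` -/
private noncomputable def trposG (M : Mat) {s : Finset (ℤ × ℤ)} (x : s → ℂ) (f : L2) : L2 :=
  ∑ l : s, x l • rho (zet M l) f

private theorem trpos_innerG (M : Mat) (hM : 0 < M.det) {s : Finset (ℤ × ℤ)} (x : s → ℂ)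
    (f : L2) (m : ℤ × ℤ) :
    ⟪trposG M x f, rho (zet M m) (trposG M x f)⟫ =
      ∑ k : s, ∑ l : s, star (x k) * x l *
        (trposW M k l m * ⟪f, rho (zet M (m + l - k)) f⟫) := by
  unfold trposG
  rw [sum_inner]
  refine Finset.sum_congr rfl fun k _ => ?_
  rw [map_sum, inner_sum]
  refine Finset.sum_congr rfl fun l _ => ?_
  rw [map_smul, inner_smul_left, inner_smul_right, trpos_inner M hM]
  simp only [starRingEnd_apply]
  ring

private theorem trpos_norm_inner (z : ℝ × ℝ) (f : L2) (hf : ‖f‖ = 1) : ‖⟪f, rho z f⟫‖ ≤ 1 := by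
  calc ‖⟪f, rho z f⟫‖ ≤ ‖f‖ * ‖rho z f‖ := norm_inner_le_norm _ _
    _ ≤ ‖f‖ * ‖f‖ := mul_le_mul_of_nonneg_left (norm_rho_le _ _) (norm_nonneg _)
    _ = 1 := by rw [hf]; norm_num

private theorem trpos_norm (z : ℝ × ℝ) (f : L2) : ‖rho z f‖ = ‖f‖ := by
  have h := trpos_iso z f f
  rw [inner_self_eq_norm_sq_to_K, inner_self_eq_norm_sq_to_K] at h
  have h2 : ‖rho z f‖ ^ 2 = ‖f‖ ^ 2 := by exact_mod_cast h
  exact (pow_left_inj₀ (norm_nonneg _) (norm_nonneg _) two_ne_zero).1 h2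

/-- expansion of the quadratic form -/
private theorem trpos_expand (M : Mat) (hM : 0 < M.det) (c : ℤ × ℤ → ℝ)
    (hc : Summable fun m => |c m|) {s : Finset (ℤ × ℤ)} (x : s → ℂ) (f : L2) (hf : ‖f‖ = 1) :
    ∑' m, (c m : ℂ) * ⟪trposG M x f, rho (zet M m) (trposG M x f)⟫ =
      ∑ k : s, ∑ l : s, star (x k) * x l *
        ∑' m : ℤ × ℤ, ((c (m + ((k : ℤ × ℤ) - l)) : ℂ) * trposW M k l (m + ((k : ℤ × ℤ) - l))) *
          ⟪f, rho (zet M m) f⟫ := by
  have hs : ∀ k l : ℤ × ℤ, Summable fun m : ℤ × ℤ => (c m : ℂ) * (trposW M k l m *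
      ⟪f, rho (zet M (m + l - k)) f⟫) := by
    intro k l
    refine Summable.of_norm_bounded hc fun m => ?_
    rw [norm_mul, norm_mul, trpos_normW, one_mul, Complex.norm_real, Real.norm_eq_abs]
    exact mul_le_of_le_one_right (abs_nonneg _) (trpos_norm_inner _ f hf)
  have e1 : ∀ m, (c m : ℂ) * ⟪trposG M x f, rho (zet M m) (trposG M x f)⟫ =
      ∑ k : s, ∑ l : s, star (x k) * x l * ((c m : ℂ) * (trposW M k l m *
      ⟪f, rho (zet M (m + l - k)) f⟫)) := by
    intro m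
    rw [trpos_innerG M hM, Finset.mul_sum]
    refine Finset.sum_congr rfl fun k _ => ?_
    rw [Finset.mul_sum]
    refine Finset.sum_congr rfl fun l _ => ?_
    ring
  simp_rw [e1]
  rw [Summable.tsum_finsetSum]
  · refine Finset.sum_congr rfl fun k _ => ?_
    rw [Summable.tsum_finsetSum]
    · refine Finset.sum_congr rfl fun l _ => ?_
      rw [tsum_mul_left]
      congr 1
      rw [← (Equiv.addRight ((k : ℤ × ℤ) - l)).tsum_eq]
      apply tsum_congr
      intro m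
      simp only [Equiv.coe_addRight]
      have : m + ((k : ℤ × ℤ) - l) + l - k = m := by abel
      rw [this, mul_assoc]
    · intro l _
      exact (hs k l).mul_left _
  · intro k _
    apply summable_sum
    intro l _
    exact (hs k l).mul_left _

private theorem trpos_swap {ι κ : Type} [Fintype κ] (R : Finset ι) (A : ι → κ → κ → ℂ) :
    ∑ j ∈ R, ∑ k, ∑ l, A j k l = ∑ k, ∑ l, ∑ j ∈ R, A j k l := by
  rw [Finset.sum_comm]
  exact Finset.sum_congr rfl fun k _ => Finset.sum_comm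

private theorem trpos_gen (M : Mat) (hM : 0 < M.det) (c : ℤ × ℤ → ℝ)
    (hc : Summable fun m => |c m|) (hneg : ∀ m, c (-m) = c m)
    (hpos : ∀ f : L2, 0 ≤ (∑' m, (c m : ℂ) * ⟪f, rho (zet M m) f⟫).re) (s : Finset (ℤ × ℤ)) :
    (Matrix.of fun k l : s => cexp (-(Real.pi * I * (1 / M.det) * (wdg k l : ℤ))) *
      (c ((k : ℤ × ℤ) - l) : ℂ)).PosSemidef := by
  have hherm : (Matrix.of fun k l : s => cexp (-(Real.pi * I * (1 / M.det) * (wdg k l : ℤ))) *
      (c ((k : ℤ × ℤ) - l) : ℂ)).IsHermitian := by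
    ext k l
    simp only [Matrix.conjTranspose_apply, Matrix.of_apply, star_mul', RCLike.star_def,
      Complex.conj_ofReal, ← Complex.exp_conj]
    have h1 : c ((l : ℤ × ℤ) - k) = c ((k : ℤ × ℤ) - l) := by
      rw [← hneg, neg_sub]
    rw [h1]
    congr 2
    simp only [map_neg, map_mul, map_div₀, map_one, Complex.conj_ofReal, Complex.conj_I,
      map_intCast]
    unfold wdg
    push_cast
    ring
  refine Matrix.PosSemidef.of_dotProduct_mulVec_nonneg hherm fun x => ?_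
  obtain ⟨f, hf⟩ := unit_exists
  have hval : star x ⬝ᵥ ((Matrix.of fun k l : s =>
      cexp (-(Real.pi * I * (1 / M.det) * (wdg k l : ℤ))) *
      (c ((k : ℤ × ℤ) - l) : ℂ)).mulVec x) =
      ∑ k : s, ∑ l : s, star (x k) * x l *
        (((c ((0 : ℤ × ℤ) + ((k : ℤ × ℤ) - l)) : ℂ) *
          trposW M k l ((0 : ℤ × ℤ) + ((k : ℤ × ℤ) - l))) * ⟪f, rho (zet M 0) f⟫) := by
    simp only [dotProduct, Matrix.mulVec, Matrix.of_apply, Pi.star_apply]
    refine Finset.sum_congr rfl fun k _ => ?_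
    rw [Finset.mul_sum]
    refine Finset.sum_congr rfl fun l _ => ?_
    have h0 : ⟪f, rho (zet M 0) f⟫ = 1 := by
      have h := inner_self_zet M f
      rw [hf] at h
      have h3 : ((0 : ℤ × ℤ)) = ((0, 0) : ℤ × ℤ) := rfl
      rw [h3, h]
      norm_num
    rw [h0, mul_one, zero_add]
    have hW : trposW M k l ((k : ℤ × ℤ) - l) =
        cexp (-(Real.pi * I * (1 / M.det) * (wdg k l : ℤ))) := by
      unfold trposW
      rw [← Complex.exp_add]
      congr 1
      unfold wdg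
      simp only [Prod.fst_sub, Prod.snd_sub, Prod.fst_add, Prod.snd_add]
      push_cast
      ring
    rw [hW]
    ring
  have hlim : Filter.Tendsto (fun n : ℕ => ∑ k : s, ∑ l : s, star (x k) * x l *
      ((1 / (n : ℂ) ^ 2) * ∑ j ∈ Finset.range n ×ˢ Finset.range n,
        ∑' m : ℤ × ℤ, ((c (m + ((k : ℤ × ℤ) - l)) : ℂ) *
          trposW M k l (m + ((k : ℤ × ℤ) - l))) * ⟪f, rho (zet M m) f⟫ *
          cexp (2 * Real.pi * I * (j.1 * m.1 + j.2 * m.2) / n))) Filter.atTop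
      (nhds (∑ k : s, ∑ l : s, star (x k) * x l *
        (((c ((0 : ℤ × ℤ) + ((k : ℤ × ℤ) - l)) : ℂ) *
          trposW M k l ((0 : ℤ × ℤ) + ((k : ℤ × ℤ) - l))) * ⟪f, rho (zet M 0) f⟫))) := by
    apply tendsto_finsetSum
    intro k _
    apply tendsto_finsetSum
    intro l _
    apply Filter.Tendsto.const_mul
    apply avg_phase (fun m => (c (m + ((k : ℤ × ℤ) - l)) : ℂ) *
          trposW M k l (m + ((k : ℤ × ℤ) - l))) (fun m => ⟪f, rho (zet M m) f⟫)
    · have h1 : Summable fun m : ℤ × ℤ => |c (m + ((k : ℤ × ℤ) - l))| :=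
        (Equiv.addRight ((k : ℤ × ℤ) - l)).summable_iff.2 hc
      refine h1.congr fun m => ?_
      rw [norm_mul, trpos_normW, mul_one, Complex.norm_real, Real.norm_eq_abs]
    · intro m
      exact trpos_norm_inner _ f hf
  have hre : ∀ n : ℕ, 0 ≤ (∑ k : s, ∑ l : s, star (x k) * x l *
      ((1 / (n : ℂ) ^ 2) * ∑ j ∈ Finset.range n ×ˢ Finset.range n,
        ∑' m : ℤ × ℤ, ((c (m + ((k : ℤ × ℤ) - l)) : ℂ) *
          trposW M k l (m + ((k : ℤ × ℤ) - l))) * ⟪f, rho (zet M m) f⟫ *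
          cexp (2 * Real.pi * I * (j.1 * m.1 + j.2 * m.2) / n))).re := by
    intro n
    rcases Nat.eq_zero_or_pos n with hn | hn
    · subst hn
      simp
    have e : (∑ k : s, ∑ l : s, star (x k) * x l *
      ((1 / (n : ℂ) ^ 2) * ∑ j ∈ Finset.range n ×ˢ Finset.range n,
        ∑' m : ℤ × ℤ, ((c (m + ((k : ℤ × ℤ) - l)) : ℂ) *
          trposW M k l (m + ((k : ℤ × ℤ) - l))) * ⟪f, rho (zet M m) f⟫ *
          cexp (2 * Real.pi * I * (j.1 * m.1 + j.2 * m.2) / n))) =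
        (((1 / (n : ℝ) ^ 2 : ℝ)) : ℂ) * ∑ j ∈ Finset.range n ×ˢ Finset.range n,
          ∑' m, (c m : ℂ) * ⟪trposG M x
            (rho (zr M (M.det * ((j.2 : ℝ) / n), -(M.det * ((j.1 : ℝ) / n)))) f),
            rho (zet M m) (trposG M x
            (rho (zr M (M.det * ((j.2 : ℝ) / n), -(M.det * ((j.1 : ℝ) / n)))) f))⟫ := by
      have e2 : ∀ j : ℕ × ℕ, ∑' m, (c m : ℂ) * ⟪trposG M x
            (rho (zr M (M.det * ((j.2 : ℝ) / n), -(M.det * ((j.1 : ℝ) / n)))) f),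
            rho (zet M m) (trposG M x
            (rho (zr M (M.det * ((j.2 : ℝ) / n), -(M.det * ((j.1 : ℝ) / n)))) f))⟫ =
          ∑ k : s, ∑ l : s, star (x k) * x l *
            ∑' m : ℤ × ℤ, ((c (m + ((k : ℤ × ℤ) - l)) : ℂ) *
            trposW M k l (m + ((k : ℤ × ℤ) - l))) * ⟪f, rho (zet M m) f⟫ *
            cexp (2 * Real.pi * I * (j.1 * m.1 + j.2 * m.2) / n) := by
        intro j
        rw [trpos_expand M hM c hc x _ (by rw [trpos_norm]; exact hf)]
        refine Finset.sum_congr rfl fun k _ => Finset.sum_congr rfl fun l _ => ?_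
        congr 1
        apply tsum_congr
        intro m
        rw [trpos_phase M hM n hn j m f]
        ring
      simp_rw [e2]
      rw [trpos_swap, Finset.mul_sum]
      refine Finset.sum_congr rfl fun k _ => ?_
      rw [Finset.mul_sum]
      refine Finset.sum_congr rfl fun l _ => ?_
      rw [← Finset.mul_sum]
      push_cast
      ring
    rw [e, Complex.re_ofReal_mul, Complex.re_sum]
    apply mul_nonneg (by positivity)
    apply Finset.sum_nonneg
    intro j _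
    exact hpos _
  rw [hval, Complex.nonneg_iff]
  constructor
  · exact ge_of_tendsto' ((Complex.continuous_re.tendsto _).comp hlim) hre
  · rw [← hval]
    have := hherm.im_star_dotProduct_mulVec_self x
    exact this.symm

private theorem trpos_TS (M : Mat) (hM : 0 < M.det) (f : L2) :
    TS M f = (⟪f, Top M f⟫).re := by
  unfold TS
  have h := Complex.hasSum_re (hasSum_inner_Top M hM.ne' f f)
  rw [← h.tsum_eq]
  congr 1
  funext k
  rw [Complex.re_ofReal_mul]; rfl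

private theorem trpos_scale (M : Mat) (f : L2) (hf : f ≠ 0) :
    (⟪f, Top M f⟫).re = ‖f‖ ^ 2 * (⟪((‖f‖⁻¹ : ℝ) : ℂ) • f, Top M (((‖f‖⁻¹ : ℝ) : ℂ) • f)⟫).re := by
  have h0 : ‖f‖ ≠ 0 := norm_ne_zero_iff.2 hf
  rw [map_smul, inner_smul_left, inner_smul_right, Complex.conj_ofReal, ← mul_assoc,
    ← Complex.ofReal_mul, Complex.re_ofReal_mul]
  field_simp

private theorem trpos_unit (f : L2) (hf : f ≠ 0) : ‖((‖f‖⁻¹ : ℝ) : ℂ) • f‖ = 1 := by
  have h0 : ‖f‖ ≠ 0 := norm_ne_zero_iff.2 hf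
  rw [norm_smul, Complex.norm_real, Real.norm_eq_abs, abs_of_nonneg (by positivity),
    inv_mul_cancel₀ h0]

private theorem trpos_low (M : Mat) (hM : 0 < M.det) (f : L2) :
    aval M * ‖f‖ ^ 2 ≤ (⟪f, Top M f⟫).re := by
  by_cases hf : f = 0
  · subst hf
    simp
  · have h1 := aval_le M hM _ (trpos_unit f hf)
    rw [trpos_TS M hM] at h1
    rw [trpos_scale M f hf, mul_comm]
    exact mul_le_mul_of_nonneg_left h1 (by positivity)

private theorem trpos_up (M : Mat) (hM : 0 < M.det) (f : L2) :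
    (⟪f, Top M f⟫).re ≤ bval M * ‖f‖ ^ 2 := by
  by_cases hf : f = 0
  · subst hf
    simp
  · have h1 := le_bval M hM _ (trpos_unit f hf)
    rw [trpos_TS M hM] at h1
    rw [trpos_scale M f hf, mul_comm (bval M)]
    exact mul_le_mul_of_nonneg_left h1 (by positivity)

private theorem trpos_wt_neg (M : Mat) (m : ℤ × ℤ) : wt M (-m) = wt M m := by
  unfold wt
  congr 2
  rw [Qf_eq, Qf_eq]
  simp only [Prod.fst_neg, Prod.snd_neg]
  push_cast
  ring

private theorem trpos_hasSum (M : Mat) (hM : 0 < M.det) (a : ℝ) (f : L2) :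
    HasSum (fun m => (((wt M m - if m = 0 then a else 0 : ℝ)) : ℂ) * ⟪f, rho (zet M m) f⟫)
      (⟪f, Top M f⟫ - ((a * ‖f‖ ^ 2 : ℝ) : ℂ)) := by
  have h1 := hasSum_inner_Top M hM.ne' f f
  have h2 := hasSum_ite_eq (0 : ℤ × ℤ) ((a * ‖f‖ ^ 2 : ℝ) : ℂ)
  have h3 := h1.sub h2
  refine h3.congr_fun ?_
  intro m
  by_cases hm : m = 0
  · subst hm
    have h4 := inner_self_zet M f
    have h5 : ((0 : ℤ × ℤ)) = ((0, 0) : ℤ × ℤ) := rfl
    rw [← h5] at h4
    rw [if_pos rfl, if_pos rfl, h4]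
    push_cast
    ring
  · rw [if_neg hm, if_neg hm]
    push_cast
    ring

private theorem trpos_summable (M : Mat) (hM : 0 < M.det) (a : ℝ) :
    Summable fun m : ℤ × ℤ => |wt M m - if m = 0 then a else 0| := by
  have h1 := summable_wt M hM.ne'
  have h2 := (hasSum_ite_eq (0 : ℤ × ℤ) a).summable
  exact (h1.sub h2).abs

private theorem trpos_neg (M : Mat) (a : ℝ) (m : ℤ × ℤ) :
    (wt M (-m) - if -m = 0 then a else 0) = wt M m - if m = 0 then a else 0 := by
  rw [trpos_wt_neg]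
  by_cases hm : m = 0
  · subst hm
    simp
  · rw [if_neg hm, if_neg (by simpa using hm)]

theorem trace_pos_lower (M : Mat) (hM : 0 < M.det) (s : Finset (ℤ × ℤ)) :
    (Matrix.of fun k l : s => cexp (-(Real.pi * I * (1 / M.det) * (wdg k l : ℤ))) *
      (((wt M ((k : ℤ × ℤ) - l) - if (k : ℤ × ℤ) = l then aval M else 0 : ℝ)) : ℂ)).PosSemidef := by
  have h := trpos_gen M hM (fun m => wt M m - if m = 0 then aval M else 0)
    (trpos_summable M hM _) (trpos_neg M _) (fun f => by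
      rw [(trpos_hasSum M hM (aval M) f).tsum_eq, Complex.sub_re, Complex.ofReal_re]
      linarith [trpos_low M hM f]) s
  have e : (Matrix.of fun k l : s => cexp (-(Real.pi * I * (1 / M.det) * (wdg k l : ℤ))) *
      (((wt M ((k : ℤ × ℤ) - l) - if (k : ℤ × ℤ) = l then aval M else 0 : ℝ)) : ℂ)) =
      (Matrix.of fun k l : s => cexp (-(Real.pi * I * (1 / M.det) * (wdg k l : ℤ))) *
      (((wt M ((k : ℤ × ℤ) - l) - if (k : ℤ × ℤ) - l = 0 then aval M else 0 : ℝ)) : ℂ)) := by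
    ext k l
    rw [Matrix.of_apply, Matrix.of_apply]
    by_cases hkl : (k : ℤ × ℤ) = l
    · rw [if_pos hkl, if_pos (sub_eq_zero.2 hkl)]
    · rw [if_neg hkl, if_neg (fun h => hkl (sub_eq_zero.1 h))]
  rw [e]
  exact h

theorem trace_pos_upper (M : Mat) (hM : 0 < M.det) (s : Finset (ℤ × ℤ)) :
    (Matrix.of fun k l : s => cexp (-(Real.pi * I * (1 / M.det) * (wdg k l : ℤ))) *
      ((((if (k : ℤ × ℤ) = l then bval M else 0) - wt M ((k : ℤ × ℤ) - l) : ℝ)) : ℂ)).PosSemidef := by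
  have hs : Summable fun m : ℤ × ℤ => |(-(wt M m - if m = 0 then bval M else 0))| := by
    refine (trpos_summable M hM (bval M)).congr fun m => ?_
    rw [abs_neg]
  have h := trpos_gen M hM (fun m => -(wt M m - if m = 0 then bval M else 0))
    hs (fun m => by rw [trpos_neg M]) (fun f => by
      have h1 := (trpos_hasSum M hM (bval M) f).neg
      have h2 : HasSum (fun m => ((-(wt M m - if m = 0 then bval M else 0) : ℝ) : ℂ) *
          ⟪f, rho (zet M m) f⟫) (-(⟪f, Top M f⟫ - ((bval M * ‖f‖ ^ 2 : ℝ) : ℂ))) := by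
        refine h1.congr_fun fun m => ?_
        rw [Complex.ofReal_neg, neg_mul]
      rw [h2.tsum_eq, Complex.neg_re, Complex.sub_re, Complex.ofReal_re]
      linarith [trpos_up M hM f]) s
  have e : (Matrix.of fun k l : s => cexp (-(Real.pi * I * (1 / M.det) * (wdg k l : ℤ))) *
      ((((if (k : ℤ × ℤ) = l then bval M else 0) - wt M ((k : ℤ × ℤ) - l) : ℝ)) : ℂ)) =
      (Matrix.of fun k l : s => cexp (-(Real.pi * I * (1 / M.det) * (wdg k l : ℤ))) *
      (((-(wt M ((k : ℤ × ℤ) - l) - if (k : ℤ × ℤ) - l = 0 then bval M else 0) : ℝ)) : ℂ)) := by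
    ext k l
    rw [Matrix.of_apply, Matrix.of_apply]
    by_cases hkl : (k : ℤ × ℤ) = l
    · rw [if_pos hkl, if_pos (sub_eq_zero.2 hkl), neg_sub]
    · rw [if_neg hkl, if_neg (fun h => hkl (sub_eq_zero.1 h)), neg_sub]
  rw [e]
  exact h

end MP7e122f.R
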