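import Pool.Agent.Lib.MP_7e122f_anR.Adm
import Pool.Agent.Lib.MP_7e122f_anR.TPDa
import Pool.Agent.Lib.MP_7e122f_anR.TPDg
import Pool.Agent.Lib.MP_7e122f_anR.TPDp
import Pool.Agent.Lib.MP_7e122f_anR.TrPos
import Pool.Agent.Lib.MP_7e122f_anR.Fejer

open MeasureTheory Complex
open scoped ComplexInnerProductSpace ENNReal ComplexOrder

namespace MP7e122f.R

private lemma tpdb_psd {s : Finset (ℤ × ℤ)} {A : ℤ × ℤ → ℤ × ℤ → ℂ}
    (h : (Matrix.of fun k l : s => A k l).PosSemidef) (x : ℤ × ℤ → ℝ) :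
    0 ≤ ∑ k ∈ s, ∑ l ∈ s, x k * x l * (A k l).re := by
  have h1 := h.dotProduct_mulVec_nonneg (fun k : s => ((x k : ℝ) : ℂ))
  have h2 := (Complex.le_def.1 h1).1
  simp only [dotProduct, Matrix.mulVec, Matrix.of_apply, Pi.star_apply, RCLike.star_def,
    Complex.conj_ofReal, Complex.zero_re, Complex.re_sum] at h2
  rw [← Finset.sum_coe_sort s]
  refine le_of_le_of_eq h2 (Finset.sum_congr rfl (fun k _ => ?_))
  rw [← Finset.sum_coe_sort s, Complex.re_ofReal_mul, Complex.re_sum, Finset.mul_sum]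
  refine Finset.sum_congr rfl (fun l _ => ?_)
  rw [Complex.re_mul_ofReal]
  ring

private lemma tpdb_main {δ : ℝ} {ψ : ℤ × ℤ → ℂ} (h : TPD δ ψ) (c : ℤ × ℤ → ℝ)
    (hc : Summable c) (hψ : ∀ k, |(ψ k).re| ≤ 1) (hneg : ∀ k, c (-k) = c k)
    (hB : ∀ s : Finset (ℤ × ℤ), (Matrix.of fun k l : s =>
      cexp (-(Real.pi * I * δ * (wdg k l : ℤ))) * ((c ((k : ℤ × ℤ) - l) : ℝ) : ℂ)).PosSemidef) :
    0 ≤ ∑' k, c k * (ψ k).re := by
  have hsum : Summable fun k => c k * (ψ k).re := by
    refine Summable.of_norm_bounded (g := fun k => |c k|) hc.abs fun k => ?_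
    rw [norm_mul, Real.norm_eq_abs, Real.norm_eq_abs]
    exact mul_le_of_le_one_right (abs_nonneg _) (hψ k)
  refine fejer _ hsum (fun n => ?_)
  set ι : ℕ × ℕ → ℤ × ℤ := fun k => ((k.1 : ℤ), (k.2 : ℤ)) with hι
  have hinj : Function.Injective ι := by
    intro a b hab
    simp only [hι, Prod.mk.injEq, Nat.cast_inj] at hab
    exact Prod.ext hab.1 hab.2
  set s : Finset (ℤ × ℤ) := (Finset.range n ×ˢ Finset.range n).map ⟨ι, hinj⟩ with hs
  have h1 := (h s).hadamard (hB s)
  have h2 : ((Matrix.of fun k l : s => cexp (Real.pi * I * δ * (wdg k l : ℤ)) *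
      ψ ((l : ℤ × ℤ) - k)).hadamard (Matrix.of fun k l : s =>
      cexp (-(Real.pi * I * δ * (wdg k l : ℤ))) * ((c ((k : ℤ × ℤ) - l) : ℝ) : ℂ))) =
      Matrix.of fun k l : s => (fun k l : ℤ × ℤ => ((c (l - k) : ℝ) : ℂ) * ψ (l - k)) k l := by
    ext k l
    simp only [Matrix.hadamard_apply, Matrix.of_apply]
    have h3 : c ((k : ℤ × ℤ) - l) = c ((l : ℤ × ℤ) - k) := by
      rw [← hneg ((k : ℤ × ℤ) - l), neg_sub]
    rw [h3]
    have h4 : cexp (Real.pi * I * δ * (wdg k l : ℤ)) *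
        cexp (-(Real.pi * I * δ * (wdg k l : ℤ))) = 1 := by
      rw [← Complex.exp_add, add_neg_cancel, Complex.exp_zero]
    calc cexp (Real.pi * I * δ * (wdg k l : ℤ)) * ψ ((l : ℤ × ℤ) - k) *
        (cexp (-(Real.pi * I * δ * (wdg k l : ℤ))) * ((c ((l : ℤ × ℤ) - k) : ℝ) : ℂ))
        = (cexp (Real.pi * I * δ * (wdg k l : ℤ)) *
          cexp (-(Real.pi * I * δ * (wdg k l : ℤ)))) *
          (((c ((l : ℤ × ℤ) - k) : ℝ) : ℂ) * ψ ((l : ℤ × ℤ) - k)) := by ring
      _ = _ := by rw [h4, one_mul]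
  rw [h2] at h1
  have h5 := tpdb_psd (A := fun k l : ℤ × ℤ => ((c (l - k) : ℝ) : ℂ) * ψ (l - k)) h1 (fun _ => 1)
  rw [hs, Finset.sum_map] at h5
  refine le_of_le_of_eq h5 (Finset.sum_congr rfl (fun k _ => ?_))
  rw [Finset.sum_map]
  refine Finset.sum_congr rfl (fun l _ => ?_)
  simp only [Function.Embedding.coeFn_mk, hι, one_mul, Prod.mk_sub_mk, Complex.re_ofReal_mul]

private lemma tpdb_bound {δ : ℝ} {ψ : ℤ × ℤ → ℂ} (h : TPD δ ψ) (h0 : ψ (0, 0) = 1)
    (k : ℤ × ℤ) : |(ψ k).re| ≤ 1 := by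
  by_cases hk : k = (0, 0)
  · rw [hk, h0]; simp
  · have h1 := h {(0, 0), k}
    have hne : ((0, 0) : ℤ × ℤ) ∉ ({k} : Finset (ℤ × ℤ)) := by
      rw [Finset.mem_singleton]; exact fun h => hk h.symm
    have hz : (0, 0) ∈ ({(0, 0), k} : Finset (ℤ × ℤ)) := by simp
    have hkm : k ∈ ({(0, 0), k} : Finset (ℤ × ℤ)) := by simp
    have h2 := h1.1.apply ⟨(0, 0), hz⟩ ⟨k, hkm⟩
    simp only [Matrix.of_apply, RCLike.star_def] at h2
    have hw1 : wdg (0, 0) k = 0 := by simp [wdg]
    have hw2 : wdg k (0, 0) = 0 := by simp [wdg]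
    have hw3 : wdg k k = 0 := by unfold wdg; ring
    have hw4 : wdg (0, 0) (0, 0) = 0 := by simp [wdg]
    have h00 : ((0, 0) : ℤ × ℤ) = 0 := rfl
    rw [hw1, hw2] at h2
    simp only [Int.cast_zero, mul_zero, Complex.exp_zero, one_mul] at h2
    have h3 : (ψ ((0, 0) - k)).re = (ψ k).re := by
      have h4 := congrArg Complex.re h2
      rw [Complex.conj_re] at h4
      rw [h00] at h4 ⊢
      simpa using h4
    have hquad : ∀ b : ℝ, 0 ≤ 1 + b ^ 2 + 2 * b * (ψ k).re := by
      intro b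
      have h5 := tpdb_psd (A := fun k l => cexp (Real.pi * I * δ * (wdg k l : ℤ)) * ψ (l - k)) h1
        (fun m => if m = (0, 0) then 1 else b)
      rw [Finset.sum_insert hne, Finset.sum_singleton, Finset.sum_insert hne,
        Finset.sum_singleton, Finset.sum_insert hne, Finset.sum_singleton] at h5
      simp only [hw1, hw2, hw3, hw4, Int.cast_zero, mul_zero, Complex.exp_zero, one_mul,
        if_true, if_neg hk, sub_self] at h5
      rw [h3] at h5
      have h6 : (ψ 0).re = 1 := by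
        rw [← h00, h0]; simp
      have h7 : k - (0, 0) = k := by rw [h00, sub_zero]
      rw [h7] at h5
      rw [h6] at h5
      linarith
    rw [abs_le]
    constructor
    · have := hquad 1
      linarith
    · have := hquad (-1)
      linarith

private lemma tpdb_wt_neg (M : Mat) (k : ℤ × ℤ) : wt M (-k) = wt M k := by
  unfold wt
  rw [Qf_eq, Qf_eq]
  congr 1
  simp only [Prod.fst_neg, Prod.snd_neg, Int.cast_neg]
  ring

private lemma tpdb_adm_re {δ : ℝ} (hδ : 0 < δ) {ψ : ℤ × ℤ → ℂ} (h : TPD δ ψ)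
    (h0 : ψ (0, 0) = 1) : Adm (1 / δ) (fun k => (ψ k).re) := by
  have hb := tpdb_bound h h0
  refine ⟨hb, ?_⟩
  intro M hM hD
  have hdet : (1 : ℂ) / (M.det : ℂ) = (δ : ℂ) := by
    rw [hD]
    push_cast
    have : (δ : ℂ) ≠ 0 := by exact_mod_cast hδ.ne'
    field_simp
  have hS1 : Summable fun k => wt M k * (ψ k).re := summable_wt_mul M hM _ hb
  have hwt : Summable (wt M) := summable_wt M hM.ne'
  have hsingle : ∀ a : ℝ, HasSum (fun k : ℤ × ℤ => (if k = 0 then a else 0)) a := by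
    intro a
    exact hasSum_ite_eq 0 a
  have hsingle2 : ∀ a : ℝ, HasSum (fun k : ℤ × ℤ => (if k = 0 then a else 0) * (ψ k).re) a := by
    intro a
    have h1 : (fun k : ℤ × ℤ => (if k = 0 then a else 0) * (ψ k).re) =
        fun k : ℤ × ℤ => (if k = 0 then a else 0) := by
      funext k
      by_cases hk : k = 0
      · rw [if_pos hk, hk]
        have : (ψ 0).re = 1 := by
          have h00 : ((0, 0) : ℤ × ℤ) = 0 := rfl
          rw [← h00, h0]; simp
        rw [this, mul_one]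
      · rw [if_neg hk, zero_mul]
    rw [h1]
    exact hsingle a
  constructor
  · have h1 := tpdb_main h (fun k => wt M k - if k = 0 then aval M else 0)
      (hwt.sub (hsingle _).summable) hb
      (fun k => by
        simp only [neg_eq_zero]
        rw [tpdb_wt_neg]) (fun s => by
        have h2 := trace_pos_lower M hM s
        rw [hdet] at h2
        have h3 : (Matrix.of fun k l : s => cexp (-(Real.pi * I * δ * (wdg k l : ℤ))) *
          (((wt M ((k : ℤ × ℤ) - l) - if (k : ℤ × ℤ) = l then aval M else 0 : ℝ)) : ℂ)) =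
          (Matrix.of fun k l : s => cexp (-(Real.pi * I * δ * (wdg k l : ℤ))) *
          (((fun k : ℤ × ℤ => wt M k - if k = 0 then aval M else 0) ((k : ℤ × ℤ) - l) : ℝ) :
            ℂ)) := by
          ext k l
          simp only [Matrix.of_apply, sub_eq_zero]
        rw [← h3]
        exact h2)
    have h4 : ∑' k, (wt M k - if k = 0 then aval M else 0) * (ψ k).re =
        ∑' k, wt M k * (ψ k).re - aval M := by
      rw [← (hsingle2 (aval M)).tsum_eq, ← hS1.tsum_sub (hsingle2 (aval M)).summable,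
        (hsingle2 (aval M)).tsum_eq]
      exact tsum_congr (fun k => by ring)
    rw [h4] at h1
    linarith
  · have h1 := tpdb_main h (fun k => (if k = 0 then bval M else 0) - wt M k)
      ((hsingle _).summable.sub hwt) hb
      (fun k => by
        simp only [neg_eq_zero]
        rw [tpdb_wt_neg]) (fun s => by
        have h2 := trace_pos_upper M hM s
        rw [hdet] at h2
        have h3 : (Matrix.of fun k l : s => cexp (-(Real.pi * I * δ * (wdg k l : ℤ))) *
          ((((if (k : ℤ × ℤ) = l then bval M else 0) - wt M ((k : ℤ × ℤ) - l) : ℝ)) : ℂ)) =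
          (Matrix.of fun k l : s => cexp (-(Real.pi * I * δ * (wdg k l : ℤ))) *
          (((fun k : ℤ × ℤ => (if k = 0 then bval M else 0) - wt M k) ((k : ℤ × ℤ) - l) : ℝ) :
            ℂ)) := by
          ext k l
          simp only [Matrix.of_apply, sub_eq_zero]
        rw [← h3]
        exact h2)
    have h4 : ∑' k, ((if k = 0 then bval M else 0) - wt M k) * (ψ k).re =
        bval M - ∑' k, wt M k * (ψ k).re := by
      have h5 : ∑' k, ((if k = 0 then bval M else 0) - wt M k) * (ψ k).re =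
          ∑' k : ℤ × ℤ, ((if k = 0 then bval M else 0) * (ψ k).re - wt M k * (ψ k).re) :=
        tsum_congr (fun k => by ring)
      rw [h5, (hsingle2 (bval M)).summable.tsum_sub hS1, (hsingle2 (bval M)).tsum_eq]
    rw [h4] at h1
    linarith

/-- Every twisted positive definite function is admissible.  Proof: the Schur product of
`trace_pos_lower` with the matrix of `TPD` has entries `c(k-l) ψ(l-k)`, `wt` is even, `ψ` is real;
apply it to the all-one vector on boxes and use `fejer`.  `|ψ k| ≤ 1` from the 2×2 matrix on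
`{0, k}`. -/
theorem TPD.adm {δ : ℝ} (hδ : 0 < δ) {ψ : ℤ × ℤ → ℝ} (h : TPD δ (fun k => (ψ k : ℂ)))
    (h0 : ψ (0, 0) = 1) : Adm (1 / δ) ψ := by
  have h1 := tpdb_adm_re hδ h (by rw [h0]; simp)
  have h2 : (fun k => (((ψ k : ℝ) : ℂ)).re) = ψ := by
    funext k
    exact Complex.ofReal_re _
  rwa [h2] at h1

/-- the real part of a complex one (average with the reflected one) -/
theorem TPD.adm_re {δ : ℝ} (hδ : 0 < δ) {ψ : ℤ × ℤ → ℂ} (h : TPD δ ψ) (h0 : ψ (0, 0) = 1) :
    Adm (1 / δ) (fun k => (ψ k).re) :=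
  tpdb_adm_re hδ h h0

end MP7e122f.R
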