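import Pool.Agent.Lib.MP_7e122f_anR.EDefs

/-!
# Sums over the hexagonal shells `N ≥ 7`

The shells: `N = 7` (12 vectors), `9` (6), `12` (6), `13` (12), `16` (6), `19` (12), `21` (12),
`25` (6), `27` (6), `28` (12), ...
-/

namespace MP7e122f.R

/-- the vectors with `7 ≤ N ≤ 16` are in the box `|k.i| ≤ 4` -/
def F16 : Finset (ℤ × ℤ) :=
  ((Finset.range 9 ×ˢ Finset.range 9).image fun p => ((p.1 : ℤ) - 4, (p.2 : ℤ) - 4)).filter
    (fun k => 7 ≤ Nf k ∧ Nf k ≤ 16)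

private theorem box_of_Nf {k : ℤ × ℤ} (B c : ℤ) (hB : 0 ≤ B) (hc : 4 * c < 3 * (B + 1) ^ 2)
    (h : Nf k ≤ c) :
    -B ≤ k.1 ∧ k.1 ≤ B ∧ -B ≤ k.2 ∧ k.2 ≤ B := by
  obtain ⟨m, n⟩ := k
  unfold Nf at h
  simp only at h ⊢
  have hm : 3 * m ^ 2 ≤ 4 * c := by nlinarith [sq_nonneg (m + 2 * n)]
  have hn : 3 * n ^ 2 ≤ 4 * c := by nlinarith [sq_nonneg (2 * m + n)]
  refine ⟨?_, ?_, ?_, ?_⟩ <;> by_contra hh <;> push Not at hh <;> nlinarith

private theorem mem_F16_of {k : ℤ × ℤ} (h7 : 7 ≤ Nf k) (h16 : Nf k ≤ 16) : k ∈ F16 := by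
  obtain ⟨h1, h2, h3, h4⟩ := box_of_Nf 4 16 (by norm_num) (by norm_num) h16
  unfold F16
  rw [Finset.mem_filter]
  refine ⟨?_, h7, h16⟩
  rw [Finset.mem_image]
  refine ⟨((k.1 + 4).toNat, (k.2 + 4).toNat), ?_, ?_⟩
  · rw [Finset.mem_product]
    simp only [Finset.mem_range]
    omega
  · apply Prod.ext
    · simp only
      omega
    · simp only
      omega

theorem Nf_ge_19 {k : ℤ × ℤ} (hk : k ∉ F19) (hk' : k ∉ F16) : 19 ≤ Nf k := by
  by_contra h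
  push Not at h
  have h7 := Nf_ge_seven hk
  have h16 : ¬ Nf k ≤ 16 := fun h16 => hk' (mem_F16_of h7 h16)
  push Not at h16
  obtain ⟨h1, h2, h3, h4⟩ := box_of_Nf 4 18 (by norm_num) (by norm_num) (show Nf k ≤ 18 by omega)
  obtain ⟨m, n⟩ := k
  unfold Nf at h h16
  simp only at h h16 h1 h2 h3 h4
  interval_cases m <;> interval_cases n <;> revert h h16 <;> decide

private theorem sq_two_thirds (N : ℕ) : (N : ℝ) ^ 2 * (2 / 3) ^ N ≤ 4 := by
  rcases Nat.lt_or_ge N 5 with h | h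
  · interval_cases N <;> norm_num
  · induction N, h using Nat.le_induction with
    | base => norm_num
    | succ n hn ih =>
      refine le_trans ?_ ih
      have hn' : (5 : ℝ) ≤ n := by exact_mod_cast hn
      have h1 : ((n + 1 : ℕ) : ℝ) ^ 2 * (2 / 3) ≤ (n : ℝ) ^ 2 := by
        push_cast
        nlinarith
      calc ((n + 1 : ℕ) : ℝ) ^ 2 * (2 / 3) ^ (n + 1)
          = (((n + 1 : ℕ) : ℝ) ^ 2 * (2 / 3)) * (2 / 3) ^ n := by rw [pow_succ]; ring
        _ ≤ (n : ℝ) ^ 2 * (2 / 3) ^ n := by gcongr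

private theorem sq_two_thirds' (N : ℕ) (h : 61 ≤ N) : (N : ℝ) ^ 2 * (2 / 3) ^ N ≤ 1 / 10 ^ 7 := by
  induction N, h using Nat.le_induction with
    | base => norm_num
    | succ n hn ih =>
      refine le_trans ?_ ih
      have hn' : (61 : ℝ) ≤ n := by exact_mod_cast hn
      have h1 : ((n + 1 : ℕ) : ℝ) ^ 2 * (2 / 3) ≤ (n : ℝ) ^ 2 := by
        push_cast
        nlinarith
      calc ((n + 1 : ℕ) : ℝ) ^ 2 * (2 / 3) ^ (n + 1)
          = (((n + 1 : ℕ) : ℝ) ^ 2 * (2 / 3)) * (2 / 3) ^ n := by rw [pow_succ]; ring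
        _ ≤ (n : ℝ) ^ 2 * (2 / 3) ^ n := by gcongr

private theorem Nf_nonneg (k : ℤ × ℤ) : 0 ≤ Nf k := by
  unfold Nf
  nlinarith [sq_nonneg (k.1 + k.2), sq_nonneg k.1, sq_nonneg k.2]

private theorem toNat_cast (k : ℤ × ℤ) : (((Nf k).toNat : ℕ) : ℝ) = (Nf k : ℝ) := by
  have h := Int.toNat_of_nonneg (Nf_nonneg k)
  exact_mod_cast h

private theorem three_quarters (k : ℤ × ℤ) :
    (3 / 4 : ℝ) ^ (Nf k).toNat ≤ 4 / 3 * ((3 / 4) ^ k.1.natAbs * (3 / 4) ^ k.2.natAbs) := by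
  have h1 : k.1.natAbs + k.2.natAbs ≤ (Nf k).toNat + 1 := by
    have h := Int.toNat_of_nonneg (Nf_nonneg k)
    zify
    rw [h]
    unfold Nf
    have e1 : |k.1| ^ 2 = k.1 ^ 2 := sq_abs _
    have e2 : |k.2| ^ 2 = k.2 ^ 2 := sq_abs _
    nlinarith [sq_nonneg (k.1 + k.2), sq_nonneg (|k.1| - 1), sq_nonneg (|k.2| - 1)]
  have h2 : (3 / 4 : ℝ) ^ ((Nf k).toNat + 1) ≤ (3 / 4) ^ (k.1.natAbs + k.2.natAbs) :=
    pow_le_pow_of_le_one (by norm_num) (by norm_num) h1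
  rw [pow_succ, pow_add] at h2
  linarith

private theorem geo : HasSum (fun k : ℤ × ℤ => (3 / 4 : ℝ) ^ k.1.natAbs * (3 / 4) ^ k.2.natAbs) 49 := by
  have h := hasSum_prod_geom (3 / 4) (by norm_num) (by norm_num)
  have e : ((1 + (3 / 4 : ℝ)) / (1 - 3 / 4)) ^ 2 = 49 := by norm_num
  rwa [e] at h

private theorem summ (x : ℝ) (h0 : 0 ≤ x) (h1 : x ≤ 1 / 2) :
    Summable fun k : ℤ × ℤ => ((Nf k : ℝ) ^ 2) * x ^ (Nf k).toNat := by
  refine Summable.of_nonneg_of_le (fun k => by positivity) (fun k => ?_)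
    ((geo.summable.mul_left (4 / 3)).mul_left 4)
  have h2 := sq_two_thirds (Nf k).toNat
  rw [toNat_cast] at h2
  have h3 := three_quarters k
  calc (Nf k : ℝ) ^ 2 * x ^ (Nf k).toNat ≤ (Nf k : ℝ) ^ 2 * (1 / 2) ^ (Nf k).toNat := by gcongr
    _ = ((Nf k : ℝ) ^ 2 * (2 / 3) ^ (Nf k).toNat) * (3 / 4) ^ (Nf k).toNat := by
        rw [mul_assoc, ← mul_pow]; norm_num
    _ ≤ 4 * (3 / 4) ^ (Nf k).toNat := by gcongr
    _ ≤ _ := by gcongr

private def nb (p : ℕ × ℕ) : ℕ :=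
  if 19 ≤ Nf ((p.1 : ℤ) - 8, (p.2 : ℤ) - 8) then
    (Nf ((p.1 : ℤ) - 8, (p.2 : ℤ) - 8)).toNat ^ 2 *
      2 ^ (200 - (Nf ((p.1 : ℤ) - 8, (p.2 : ℤ) - 8)).toNat)
  else 0

private theorem nb_sum : ∑ p ∈ Finset.range 17 ×ˢ Finset.range 17, nb p ≤ 6000 * 2 ^ 181 := by
  decide +kernel

private def box8 : Finset (ℤ × ℤ) :=
  (Finset.range 17 ×ˢ Finset.range 17).image fun p => ((p.1 : ℤ) - 8, (p.2 : ℤ) - 8)

private theorem box8_sum :
    ∑ k ∈ box8, (if 19 ≤ Nf k then (Nf k : ℝ) ^ 2 * (1 / 2) ^ (Nf k).toNat else 0)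
      ≤ 6000 / 2 ^ 19 := by
  unfold box8
  rw [Finset.sum_image]
  swap
  · intro p _ q _ h
    simp only [Prod.mk.injEq] at h
    apply Prod.ext
    · have := h.1
      omega
    · have := h.2
      omega
  have h := nb_sum
  have h' : (∑ p ∈ Finset.range 17 ×ˢ Finset.range 17, (nb p : ℝ)) ≤ 6000 * 2 ^ 181 := by
    exact_mod_cast h
  have key : ∀ p ∈ Finset.range 17 ×ˢ Finset.range 17,
      (if 19 ≤ Nf ((p.1 : ℤ) - 8, (p.2 : ℤ) - 8) then
        (Nf ((p.1 : ℤ) - 8, (p.2 : ℤ) - 8) : ℝ) ^ 2 *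
          (1 / 2) ^ (Nf ((p.1 : ℤ) - 8, (p.2 : ℤ) - 8)).toNat else 0) =
      (nb p : ℝ) * (1 / 2) ^ 200 := by
    intro p hp
    have hp' := Finset.mem_product.1 hp
    simp only [Finset.mem_range] at hp'
    have hN : (Nf ((p.1 : ℤ) - 8, (p.2 : ℤ) - 8)).toNat ≤ 200 := by
      have : Nf ((p.1 : ℤ) - 8, (p.2 : ℤ) - 8) ≤ 200 := by
        unfold Nf
        have a1 : (p.1 : ℤ) ≤ 16 := by omega
        have a2 : (p.2 : ℤ) ≤ 16 := by omega
        have a3 : (0 : ℤ) ≤ (p.1 : ℤ) := by omega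
        have a4 : (0 : ℤ) ≤ (p.2 : ℤ) := by omega
        simp only
        nlinarith [mul_nonneg a3 (sub_nonneg.2 a1), mul_nonneg a4 (sub_nonneg.2 a2),
          sq_nonneg ((p.1 : ℤ) - p.2)]
      omega
    unfold nb
    split_ifs with hc
    · push_cast
      rw [toNat_cast]
      obtain ⟨d, hd⟩ := Nat.exists_eq_add_of_le hN
      have e1 : 200 - (Nf ((p.1 : ℤ) - 8, (p.2 : ℤ) - 8)).toNat = d := by omega
      rw [e1, hd, pow_add, mul_assoc]
      congr 1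
      have e2 : (2 : ℝ) ^ d * (1 / 2) ^ d = 1 := by rw [← mul_pow]; norm_num
      calc (1 / 2 : ℝ) ^ (Nf ((p.1 : ℤ) - 8, (p.2 : ℤ) - 8)).toNat
          = (1 / 2 : ℝ) ^ (Nf ((p.1 : ℤ) - 8, (p.2 : ℤ) - 8)).toNat * (2 ^ d * (1 / 2) ^ d) := by
            rw [e2, mul_one]
        _ = _ := by ring
    · simp
  rw [Finset.sum_congr rfl key, ← Finset.sum_mul]
  calc (∑ p ∈ Finset.range 17 ×ˢ Finset.range 17, (nb p : ℝ)) * (1 / 2) ^ 200
      ≤ (6000 * 2 ^ 181) * (1 / 2) ^ 200 := by gcongr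
    _ = 6000 / 2 ^ 19 := by norm_num

private theorem not_box8 {k : ℤ × ℤ} (hk : k ∉ box8) : 61 ≤ Nf k := by
  by_contra h
  push Not at h
  obtain ⟨h1, h2, h3, h4⟩ := box_of_Nf 8 60 (by norm_num) (by norm_num) (show Nf k ≤ 60 by omega)
  apply hk
  unfold box8
  rw [Finset.mem_image]
  refine ⟨((k.1 + 8).toNat, (k.2 + 8).toNat), ?_, ?_⟩
  · rw [Finset.mem_product]
    simp only [Finset.mem_range]
    omega
  · apply Prod.ext
    · simp only
      omega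
    · simp only
      omega

/-- `∑_{N ≥ 19} N² x^N ≤ 7776 x^19` for `0 ≤ x ≤ 1/2` (the true constant is about `5770`).
Summability included. Suggestion: `N² x^N ≤ x^19 N² 2^(19-N)`; sum the box `|k.i| ≤ 12` by
computation and bound the rest by a geometric series. -/
theorem tail19 (x : ℝ) (h0 : 0 ≤ x) (h1 : x ≤ 1 / 2) :
    (Summable fun k : ℤ × ℤ => ((Nf k : ℝ) ^ 2) * x ^ (Nf k).toNat) ∧
    ∑' k : ℤ × ℤ, (if k ∈ F19 ∪ F16 then 0 else ((Nf k : ℝ) ^ 2) * x ^ (Nf k).toNat)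
      ≤ 7776 * x ^ 19 := by
  refine ⟨summ x h0 h1, ?_⟩
  -- the comparison function
  have hfin : HasSum (fun k : ℤ × ℤ => if k ∈ box8 then
      (if 19 ≤ Nf k then (Nf k : ℝ) ^ 2 * (1 / 2) ^ (Nf k).toNat else 0) else 0)
      (∑ k ∈ box8, (if 19 ≤ Nf k then (Nf k : ℝ) ^ 2 * (1 / 2) ^ (Nf k).toNat else 0)) := by
    have h : HasSum (fun k : ℤ × ℤ => if k ∈ box8 then
      (if 19 ≤ Nf k then (Nf k : ℝ) ^ 2 * (1 / 2) ^ (Nf k).toNat else 0) else 0)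
      (∑ k ∈ box8, (if k ∈ box8 then
      (if 19 ≤ Nf k then (Nf k : ℝ) ^ 2 * (1 / 2) ^ (Nf k).toNat else 0) else 0)) :=
      hasSum_sum_of_ne_finset_zero (fun k hk => if_neg hk)
    have e : ∑ k ∈ box8, (if k ∈ box8 then
      (if 19 ≤ Nf k then (Nf k : ℝ) ^ 2 * (1 / 2) ^ (Nf k).toNat else 0) else 0) =
      ∑ k ∈ box8, (if 19 ≤ Nf k then (Nf k : ℝ) ^ 2 * (1 / 2) ^ (Nf k).toNat else 0) :=
      Finset.sum_congr rfl fun k hk => if_pos hk
    rwa [e] at h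
  have hgeo := geo.mul_left (1 / 10 ^ 7 * (4 / 3))
  have htot := (hfin.add hgeo).mul_left (x ^ 19 * 2 ^ 19)
  have hpt : ∀ k : ℤ × ℤ, (if k ∈ F19 ∪ F16 then 0 else ((Nf k : ℝ) ^ 2) * x ^ (Nf k).toNat) ≤
      x ^ 19 * 2 ^ 19 * ((if k ∈ box8 then
      (if 19 ≤ Nf k then (Nf k : ℝ) ^ 2 * (1 / 2) ^ (Nf k).toNat else 0) else 0) +
      1 / 10 ^ 7 * (4 / 3) * ((3 / 4 : ℝ) ^ k.1.natAbs * (3 / 4) ^ k.2.natAbs)) := by
    intro k
    by_cases hk : k ∈ F19 ∪ F16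
    · rw [if_pos hk]
      split_ifs <;> positivity
    rw [if_neg hk]
    have hN : 19 ≤ Nf k := by
      rw [Finset.mem_union, not_or] at hk
      exact Nf_ge_19 hk.1 hk.2
    by_cases hb : k ∈ box8
    · -- in the box
      rw [if_pos hb, if_pos hN]
      have hN' : 19 ≤ (Nf k).toNat := by omega
      obtain ⟨d, hd⟩ := Nat.exists_eq_add_of_le hN'
      have e : x ^ (Nf k).toNat ≤ x ^ 19 * 2 ^ 19 * (1 / 2) ^ (Nf k).toNat := by
        rw [hd, pow_add, pow_add]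
        have e2 : (2 : ℝ) ^ 19 * (1 / 2) ^ 19 = 1 := by rw [← mul_pow]; norm_num
        calc x ^ 19 * x ^ d ≤ x ^ 19 * (1 / 2) ^ d := by gcongr
          _ = x ^ 19 * (2 ^ 19 * (1 / 2) ^ 19) * (1 / 2) ^ d := by rw [e2]; ring
          _ = _ := by ring
      calc (Nf k : ℝ) ^ 2 * x ^ (Nf k).toNat
          ≤ (Nf k : ℝ) ^ 2 * (x ^ 19 * 2 ^ 19 * (1 / 2) ^ (Nf k).toNat) := by gcongr
        _ = x ^ 19 * 2 ^ 19 * ((Nf k : ℝ) ^ 2 * (1 / 2) ^ (Nf k).toNat + 0) := by ring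
        _ ≤ _ := by
          gcongr
          positivity
    · -- outside the box
      rw [if_neg hb]
      have h61 := not_box8 hb
      have hN' : 61 ≤ (Nf k).toNat := by omega
      obtain ⟨d, hd⟩ := Nat.exists_eq_add_of_le (show 19 ≤ (Nf k).toNat by omega)
      have e : x ^ (Nf k).toNat ≤ x ^ 19 * 2 ^ 19 * (1 / 2) ^ (Nf k).toNat := by
        rw [hd, pow_add, pow_add]
        have e2 : (2 : ℝ) ^ 19 * (1 / 2) ^ 19 = 1 := by rw [← mul_pow]; norm_num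
        calc x ^ 19 * x ^ d ≤ x ^ 19 * (1 / 2) ^ d := by gcongr
          _ = x ^ 19 * (2 ^ 19 * (1 / 2) ^ 19) * (1 / 2) ^ d := by rw [e2]; ring
          _ = _ := by ring
      have h2 := sq_two_thirds' _ hN'
      rw [toNat_cast] at h2
      have h3 := three_quarters k
      calc (Nf k : ℝ) ^ 2 * x ^ (Nf k).toNat
          ≤ (Nf k : ℝ) ^ 2 * (x ^ 19 * 2 ^ 19 * (1 / 2) ^ (Nf k).toNat) := by gcongr
        _ = x ^ 19 * 2 ^ 19 * (((Nf k : ℝ) ^ 2 * (2 / 3) ^ (Nf k).toNat) *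
              (3 / 4) ^ (Nf k).toNat) := by
            have : (1 / 2 : ℝ) ^ (Nf k).toNat = (2 / 3) ^ (Nf k).toNat * (3 / 4) ^ (Nf k).toNat := by
              rw [← mul_pow]; norm_num
            rw [this]; ring
        _ ≤ x ^ 19 * 2 ^ 19 * (1 / 10 ^ 7 * (4 / 3 * ((3 / 4) ^ k.1.natAbs *
              (3 / 4) ^ k.2.natAbs))) := by gcongr
        _ = _ := by ring
  have hsum : Summable fun k : ℤ × ℤ =>
      (if k ∈ F19 ∪ F16 then 0 else ((Nf k : ℝ) ^ 2) * x ^ (Nf k).toNat) := by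
    refine Summable.of_nonneg_of_le (fun k => ?_) hpt htot.summable
    split_ifs <;> positivity
  have hle := hsum.tsum_le_tsum hpt htot.summable
  rw [htot.tsum_eq] at hle
  refine hle.trans ?_
  have hb := box8_sum
  have hx : 0 ≤ x ^ 19 := by positivity
  calc x ^ 19 * 2 ^ 19 * (∑ k ∈ box8,
        (if 19 ≤ Nf k then (Nf k : ℝ) ^ 2 * (1 / 2) ^ (Nf k).toNat else 0) +
          1 / 10 ^ 7 * (4 / 3) * 49)
      ≤ x ^ 19 * 2 ^ 19 * (6000 / 2 ^ 19 + 1 / 10 ^ 7 * (4 / 3) * 49) := by gcongr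
    _ = (6000 + 2 ^ 19 * (1 / 10 ^ 7 * (4 / 3) * 49)) * x ^ 19 := by ring
    _ ≤ 7776 * x ^ 19 := by
      gcongr
      norm_num

private theorem F16_maps : ∀ k ∈ F16, Nf k ∈ ({7, 9, 12, 13, 16} : Finset ℤ) := by
  decide +kernel

private theorem c7 : (F16.filter fun k => Nf k = 7).card = 12 := by decide +kernel
private theorem c9 : (F16.filter fun k => Nf k = 9).card = 6 := by decide +kernel
private theorem c12 : (F16.filter fun k => Nf k = 12).card = 6 := by decide +kernel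
private theorem c13 : (F16.filter fun k => Nf k = 13).card = 12 := by decide +kernel
private theorem c16 : (F16.filter fun k => Nf k = 16).card = 6 := by decide +kernel

private theorem F16_F19 : ∀ k ∈ F16, k ∉ F19 := by decide +kernel

/-- general principle: a nonnegative function of `N` summed over `k ∉ F19` -/
theorem shells_sum (G : ℤ × ℤ → ℝ) (g7 g9 g12 g13 g16 : ℝ) (C x : ℝ) (hC : 0 ≤ C) (h0 : 0 ≤ x)
    (h1 : x ≤ 1 / 2) (hG0 : ∀ k, 0 ≤ G k)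
    (h7 : ∀ k, Nf k = 7 → G k ≤ g7) (h9 : ∀ k, Nf k = 9 → G k ≤ g9)
    (h12 : ∀ k, Nf k = 12 → G k ≤ g12) (h13 : ∀ k, Nf k = 13 → G k ≤ g13)
    (h16 : ∀ k, Nf k = 16 → G k ≤ g16)
    (h19 : ∀ k, 19 ≤ Nf k → G k ≤ C * ((Nf k : ℝ) ^ 2 * x ^ (Nf k).toNat)) :
    (Summable fun k => if k ∈ F19 then 0 else G k) ∧
    ∑' k, (if k ∈ F19 then 0 else G k) ≤
      12 * g7 + 6 * g9 + 6 * g12 + 12 * g13 + 6 * g16 + C * (7776 * x ^ 19) := by
  obtain ⟨hs, ht⟩ := tail19 x h0 h1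
  have hs' : Summable fun k : ℤ × ℤ =>
      (if k ∈ F19 ∪ F16 then 0 else ((Nf k : ℝ) ^ 2) * x ^ (Nf k).toNat) := by
    refine Summable.of_nonneg_of_le (fun k => ?_) (fun k => ?_) hs
    · split_ifs <;> positivity
    · split_ifs
      · positivity
      · exact le_rfl
  have hfin : HasSum (fun k : ℤ × ℤ => if k ∈ F16 then G k else 0) (∑ k ∈ F16, G k) := by
    have h : HasSum (fun k : ℤ × ℤ => if k ∈ F16 then G k else 0)
      (∑ k ∈ F16, (if k ∈ F16 then G k else 0)) :=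
      hasSum_sum_of_ne_finset_zero (fun k hk => if_neg hk)
    have e : ∑ k ∈ F16, (if k ∈ F16 then G k else 0) = ∑ k ∈ F16, G k :=
      Finset.sum_congr rfl fun k hk => if_pos hk
    rwa [e] at h
  have htot := hfin.add (hs'.hasSum.mul_left C)
  have hpt : ∀ k : ℤ × ℤ, (if k ∈ F19 then 0 else G k) ≤ (if k ∈ F16 then G k else 0) +
      C * (if k ∈ F19 ∪ F16 then 0 else ((Nf k : ℝ) ^ 2) * x ^ (Nf k).toNat) := by
    intro k
    by_cases hk : k ∈ F19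
    · rw [if_pos hk, if_pos (Finset.mem_union_left _ hk)]
      split_ifs
      · simpa using hG0 k
      · simp
    · rw [if_neg hk]
      by_cases hk' : k ∈ F16
      · rw [if_pos hk', if_pos (Finset.mem_union_right _ hk')]
        simp
      · rw [if_neg hk', if_neg (by rw [Finset.mem_union]; exact not_or.2 ⟨hk, hk'⟩), zero_add]
        exact h19 k (Nf_ge_19 hk hk')
  have hsum : Summable fun k : ℤ × ℤ => (if k ∈ F19 then 0 else G k) := by
    refine Summable.of_nonneg_of_le (fun k => ?_) hpt htot.summable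
    split_ifs
    · exact le_rfl
    · exact hG0 k
  refine ⟨hsum, ?_⟩
  have hle := hsum.tsum_le_tsum hpt htot.summable
  rw [htot.tsum_eq] at hle
  refine hle.trans ?_
  have hF : ∑ k ∈ F16, G k ≤ 12 * g7 + 6 * g9 + 6 * g12 + 12 * g13 + 6 * g16 := by
    rw [← Finset.sum_fiberwise_of_maps_to F16_maps]
    have hb : ∀ (N : ℤ) (g : ℝ) (c : ℕ), (∀ k, Nf k = N → G k ≤ g) →
        (F16.filter fun k => Nf k = N).card = c →
        ∑ k ∈ F16 with Nf k = N, G k ≤ c * g := by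
      intro N g c hg hc
      calc ∑ k ∈ F16 with Nf k = N, G k ≤ ∑ k ∈ F16 with Nf k = N, g :=
            Finset.sum_le_sum fun k hk => hg k (Finset.mem_filter.1 hk).2
        _ = c * g := by rw [Finset.sum_const, hc, nsmul_eq_mul]
    rw [Finset.sum_insert (by decide), Finset.sum_insert (by decide),
      Finset.sum_insert (by decide), Finset.sum_insert (by decide), Finset.sum_singleton]
    have b7 := hb 7 g7 12 h7 c7
    have b9 := hb 9 g9 6 h9 c9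
    have b12 := hb 12 g12 6 h12 c12
    have b13 := hb 13 g13 12 h13 c13
    have b16 := hb 16 g16 6 h16 c16
    push_cast at b7 b9 b12 b13 b16
    linarith
  have := mul_le_mul_of_nonneg_left ht hC
  linarith

end MP7e122f.R
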