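import Mathlib

namespace MP7e122f.R

/-- integration of a bound of the derivative, right half line -/
private theorem taylor_aux0 (G G' : ℝ → ℝ) (C : ℝ) (n : ℕ) (h0 : G 0 = 0)
    (hG : ∀ x, HasDerivAt G (G' x) x) (hG' : ∀ x, 0 ≤ x → |G' x| ≤ C * x ^ n) (ν : ℝ)
    (hν : 0 ≤ ν) : |G ν| ≤ C / (n + 1) * ν ^ (n + 1) := by
  have hn : (n : ℝ) + 1 ≠ 0 := by positivity
  have h := image_norm_le_of_norm_deriv_right_le_deriv_boundary (f := G) (f' := G') (a := 0)
    (b := ν) (fun x _ => (hG x).continuousAt.continuousWithinAt)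
    (fun x _ => (hG x).hasDerivWithinAt) (B := fun x => C / (n + 1) * x ^ (n + 1))
    (B' := fun x => C * x ^ n) (by simp [h0])
    (fun x => by
      have h1 := (hasDerivAt_pow (n + 1) x).const_mul (C / ((n : ℝ) + 1))
      refine h1.congr_deriv ?_
      rw [Nat.add_sub_cancel]
      push_cast
      field_simp)
    (fun x hx => by
      rw [Real.norm_eq_abs]
      exact hG' x hx.1)
  have h2 := h (Set.right_mem_Icc.mpr hν)
  rwa [Real.norm_eq_abs] at h2

/-- integration of a bound of the derivative -/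
private theorem taylor_aux (G G' : ℝ → ℝ) (C : ℝ) (n : ℕ) (h0 : G 0 = 0)
    (hG : ∀ x, HasDerivAt G (G' x) x) (hG' : ∀ x, |G' x| ≤ C * |x| ^ n) (ν : ℝ) :
    |G ν| ≤ C / (n + 1) * |ν| ^ (n + 1) := by
  rcases le_total 0 ν with hν | hν
  · rw [abs_of_nonneg hν]
    refine taylor_aux0 G G' C n h0 hG (fun x hx => ?_) ν hν
    have := hG' x
    rwa [abs_of_nonneg hx] at this
  · have h1 := taylor_aux0 (fun x => G (-x)) (fun x => -G' (-x)) C n (by simp [h0])
      (fun x => by
        have h2 := (hG (-x)).comp x (hasDerivAt_neg x)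
        refine h2.congr_deriv ?_
        ring)
      (fun x hx => by
        have h3 := hG' (-x)
        rw [abs_neg] at h3 ⊢
        rwa [abs_of_nonneg hx] at h3) (-ν) (by linarith)
    rw [neg_neg] at h1
    rwa [abs_of_nonpos hν]

/-- second order Taylor inequality -/
theorem taylor2 (F F' : ℝ → ℝ) (C : ℝ) (hF : ∀ x, HasDerivAt F (F' x) x)
    (hF' : ∀ x, |F' x - F' 0| ≤ C * |x|) (ν : ℝ) :
    |F ν - F 0 - ν * F' 0| ≤ C / 2 * ν ^ 2 := by
  have h := taylor_aux (fun x => F x - F 0 - x * F' 0) (fun x => F' x - F' 0) C 1 (by simp)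
    (fun x => by
      have h1 := ((hF x).sub_const (F 0)).sub ((hasDerivAt_id x).mul_const (F' 0))
      refine h1.congr_deriv ?_
      ring)
    (fun x => by
      rw [pow_one]
      exact hF' x) ν
  refine h.trans (le_of_eq ?_)
  rw [sq_abs]
  norm_num

/-- with a second derivative bounded by `C` -/
theorem taylor2' (F F' F'' : ℝ → ℝ) (C : ℝ) (hF : ∀ x, HasDerivAt F (F' x) x)
    (hF' : ∀ x, HasDerivAt F' (F'' x) x) (hC : ∀ x, |F'' x| ≤ C) (ν : ℝ) :
    |F ν - F 0 - ν * F' 0| ≤ C / 2 * ν ^ 2 := by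
  refine taylor2 F F' C hF (fun x => ?_) ν
  have h := taylor_aux (fun x => F' x - F' 0) F'' C 0 (by simp) (fun x => (hF' x).sub_const _)
    (fun x => by
      rw [pow_zero, mul_one]
      exact hC x) x
  refine h.trans (le_of_eq ?_)
  simp

/-- with a third derivative bounded by `C` -/
theorem taylor3 (F F' F'' F''' : ℝ → ℝ) (C : ℝ) (hF : ∀ x, HasDerivAt F (F' x) x)
    (hF' : ∀ x, HasDerivAt F' (F'' x) x) (hF'' : ∀ x, HasDerivAt F'' (F''' x) x)
    (hC : ∀ x, |F''' x| ≤ C) (ν : ℝ) :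
    |F ν - F 0 - ν * F' 0 - ν ^ 2 / 2 * F'' 0| ≤ C / 6 * |ν| ^ 3 := by
  have h := taylor_aux (fun x => F x - F 0 - x * F' 0 - x ^ 2 / 2 * F'' 0)
    (fun x => F' x - F' 0 - x * F'' 0) (C / 2) 2 (by simp)
    (fun x => by
      have h1 := (((hF x).sub_const (F 0)).sub ((hasDerivAt_id x).mul_const (F' 0))).sub
        (((hasDerivAt_pow 2 x).div_const 2).mul_const (F'' 0))
      refine h1.congr_deriv ?_
      simp)
    (fun x => by
      rw [sq_abs]
      exact taylor2' F' F'' F''' C hF' hF'' hC x) ν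
  refine h.trans (le_of_eq ?_)
  push_cast
  ring

end MP7e122f.R
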