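import Pool.Agent.Lib.MP_7e122f_anR.EDefs
import Pool.Agent.Lib.MP_7e122f_anR.Taylor

namespace MP7e122f.R

/-- Elementary facts about `U`: `U(-w) = -U(w)`, `U(0) = 0`, `U(1) = 1`, `|U(w)| ≤ |w|`
(induction: `sin((w+1)x) = sin(wx) cos x + cos(wx) sin x`). -/
theorem UU_neg (δ : ℝ) (w : ℤ) : UU δ (-w) = -UU δ w := by
  unfold UU
  rw [Int.cast_neg, mul_neg, Real.sin_neg, neg_div]

theorem UU_zero (δ : ℝ) : UU δ 0 = 0 := by
  unfold UU
  simp

theorem UU_one (δ : ℝ) (hs : Real.sin (Real.pi * δ) ≠ 0) : UU δ 1 = 1 := by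
  unfold UU
  simp [hs]

private lemma UUf_nat (δ : ℝ) (hs : Real.sin (Real.pi * δ) ≠ 0) (n : ℕ) :
    |Real.sin (Real.pi * δ * n)| ≤ n * |Real.sin (Real.pi * δ)| := by
  induction n with
  | zero => simp
  | succ n ih =>
    have e : Real.pi * δ * ((n + 1 : ℕ) : ℝ) = Real.pi * δ * n + Real.pi * δ := by
      push_cast
      ring
    rw [e, Real.sin_add]
    have h1 : |Real.sin (Real.pi * δ * n) * Real.cos (Real.pi * δ)| ≤
        n * |Real.sin (Real.pi * δ)| := by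
      rw [abs_mul]
      exact (mul_le_of_le_one_right (abs_nonneg _) (Real.abs_cos_le_one _)).trans ih
    have h2 : |Real.cos (Real.pi * δ * n) * Real.sin (Real.pi * δ)| ≤
        |Real.sin (Real.pi * δ)| := by
      rw [abs_mul]
      exact mul_le_of_le_one_left (abs_nonneg _) (Real.abs_cos_le_one _)
    calc |Real.sin (Real.pi * δ * n) * Real.cos (Real.pi * δ)
          + Real.cos (Real.pi * δ * n) * Real.sin (Real.pi * δ)|
        ≤ |Real.sin (Real.pi * δ * n) * Real.cos (Real.pi * δ)|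
          + |Real.cos (Real.pi * δ * n) * Real.sin (Real.pi * δ)| := abs_add_le _ _
      _ ≤ n * |Real.sin (Real.pi * δ)| + |Real.sin (Real.pi * δ)| := add_le_add h1 h2
      _ = ((n + 1 : ℕ) : ℝ) * |Real.sin (Real.pi * δ)| := by
        push_cast
        ring

theorem UU_le (δ : ℝ) (hs : Real.sin (Real.pi * δ) ≠ 0) (w : ℤ) : |UU δ w| ≤ |(w : ℝ)| := by
  have key : ∀ n : ℕ, |UU δ (n : ℤ)| ≤ n := by
    intro n
    unfold UU
    rw [abs_div, div_le_iff₀ (abs_pos.2 hs)]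
    exact_mod_cast UUf_nat δ hs n
  obtain ⟨n, rfl | rfl⟩ := Int.eq_nat_or_neg w
  · have := key n
    rw [Int.cast_natCast, Nat.abs_cast]
    exact this
  · have := key n
    rw [UU_neg, abs_neg, Int.cast_neg, abs_neg, Int.cast_natCast, Nat.abs_cast]
    exact this

/-- `sin 2x = 2 sin x cos x`, `sin 3x = sin x (4 cos² x - 1)` -/
theorem UU_two (δ : ℝ) (hs : Real.sin (Real.pi * δ) ≠ 0) :
    UU δ 2 = 2 * Real.cos (Real.pi * δ) := by
  unfold UU
  have e : Real.pi * δ * ((2 : ℤ) : ℝ) = 2 * (Real.pi * δ) := by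
    push_cast
    ring
  rw [e, Real.sin_two_mul]
  field_simp

theorem UU_three (δ : ℝ) (hs : Real.sin (Real.pi * δ) ≠ 0) :
    UU δ 3 = 4 * Real.cos (Real.pi * δ) ^ 2 - 1 := by
  unfold UU
  have e : Real.pi * δ * ((3 : ℤ) : ℝ) = 3 * (Real.pi * δ) := by
    push_cast
    ring
  rw [e, Real.sin_three_mul, div_eq_iff hs]
  have h := Real.sin_sq_add_cos_sq (Real.pi * δ)
  have h2 : Real.sin (Real.pi * δ) ^ 2 = 1 - Real.cos (Real.pi * δ) ^ 2 := by linarith
  calc 3 * Real.sin (Real.pi * δ) - 4 * Real.sin (Real.pi * δ) ^ 3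
      = Real.sin (Real.pi * δ) * (3 - 4 * Real.sin (Real.pi * δ) ^ 2) := by ring
    _ = _ := by rw [h2]; ring

end MP7e122f.R
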